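import Pool.Agent.Gen.F5.X12CD13m1.S000
import Pool.Agent.Gen.F5.X12CD13m1.S001
import Pool.Agent.Gen.F5.X12CD13m1.S002
import Pool.Agent.Gen.F5.X12CD13m1.S003
import Pool.Agent.Gen.F5.X12CD13m1.S004
import Pool.Agent.Gen.F5.X12CD13m1.S005
import Pool.Agent.Gen.F5.X12CD13m1.S006
import Pool.Agent.Gen.F5.X12CD13m1.S007
import Pool.Agent.Gen.F5.X12CD13m1.S008
import Pool.Agent.Gen.F5.X12CD13m1.S009
import Pool.Agent.Gen.F5.X12CD13m1.S010
import Pool.Agent.Gen.F5.X12CD13m1.S011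
import Pool.Agent.Gen.F5.X12CD13m1.S012
import Pool.Agent.Gen.F5.X12CD13m1.S013
import Pool.Agent.Gen.F5.X12CD13m1.S014

set_option autoImplicit false
set_option maxRecDepth 100000

namespace Pool.Agent.Gen.F5.X12CD13m1

open Pool.Agent.Helper72.F5

def n0 : Cl (O (nat_lit 1)) (R (nat_lit 104465))
    (p (nat_lit 0x3ccaa) (nat_lit 0) (p (nat_lit 0x380c2) (nat_lit 0) (p (nat_lit 0x3cc2a) (nat_lit 0) (p (nat_lit 0xd8014) (nat_lit 0) (p (nat_lit 0x109) (nat_lit 1) (p (nat_lit 0xe8014) (nat_lit 0) (p (nat_lit 0xc1) (nat_lit 0) (p (nat_lit 0x41) (nat_lit 0) (p (nat_lit 0xc0b8d0b0c9a) (nat_lit 0) (p (nat_lit 0xb8b0c8a8a1a) (nat_lit 0) (p (nat_lit 0x5298b0b0c0a0b8a) (nat_lit 0) (p (nat_lit 0x5298b0a8b89890a) (nat_lit 0) (p (nat_lit 0x15c004) (nat_lit 0) (p (nat_lit 0x4000c) (nat_lit 0) (p (nat_lit 0x1b4004) (nat_lit 0) (p (nat_lit 0xc8014) (nat_lit 1) (p (nat_lit 0x8400c) (nat_lit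 0) (p (nat_lit 0x84014) (nat_lit 1) (p (nat_lit 0x108014) (nat_lit 0) (p (nat_lit 0x10800c) (nat_lit 0) (p (nat_lit 0x100004) (nat_lit 1) (p (nat_lit 0x200004) (nat_lit 0) (p (nat_lit 0x380c2) (nat_lit 0) (p (nat_lit 0x444aa) (nat_lit 7) (p (nat_lit 0xd1) (nat_lit 1) (p (nat_lit 0x111) (nat_lit 1) (p (nat_lit 0x109) (nat_lit 0) (p (nat_lit 0x101) (nat_lit 0) (p (nat_lit 0x119) (nat_lit 0) (p (nat_lit 0xc9) (nat_lit 0) (p (nat_lit 0x89) (nat_lit 1) (p (nat_lit 0x41) (nat_lit 0) (p (nat_lit 0x8078907089a) (nat_lit 0) (p (nat_lit 0x7870886861a) (nat_lit 0) (p (nat_lit 0x800070806078a) (nat_lit 0) (p (nat_lit 0x800068785850a) (nat_lit 0) (p (nat_lit 0x587050682) (nat_lit 0) (p (nat_lit 0x506848402) (nat_lit 0) (p (nat_lit 0x160014) (nat_lit 0) (p (nat_lit 0x16000c) (nat_lit 0) (p (nat_lit 0x50612) (nat_lit 0) (p (nat_lit 0x40592) (nat_lit 0) (p (nat_lit 0x40492) (nat_lit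 0) (p (nat_lit 0x30412) (nat_lit 0) (p (nat_lit 0x30212) (nat_lit 0) (p (nat_lit 0x20192) (nat_lit 0) (p (nat_lit 0x20092) (nat_lit 0) (p (nat_lit 0x10012) (nat_lit 0) pn)))))))))))))))))))))))))))))))))))))))))))))))) :=
  Cl.node (nat_lit 0x380c2) (nat_lit 2) (by decide +kernel) (ClAll.succ (ClAll.succ ClAll.zero s577) s578)

def n1 : Cl (O (nat_lit 1)) (R (nat_lit 104465))
    (p (nat_lit 0x380c2) (nat_lit 0) (p (nat_lit 0x3cc2a) (nat_lit 0) (p (nat_lit 0xd8014) (nat_lit 0) (p (nat_lit 0x109) (nat_lit 1) (p (nat_lit 0xe8014) (nat_lit 0) (p (nat_lit 0xc1) (nat_lit 0) (p (nat_lit 0x41) (nat_lit 0) (p (nat_lit 0xc0b8d0b0c9a) (nat_lit 0) (p (nat_lit 0xb8b0c8a8a1a) (nat_lit 0) (p (nat_lit 0x5298b0b0c0a0b8a) (nat_lit 0) (p (nat_lit 0x5298b0a8b89890a) (nat_lit 0) (p (nat_lit 0x15c004) (nat_lit 0) (p (nat_lit 0x4000c) (nat_lit 0) (p (nat_lit 0x1b4004) (nat_lit 0) (p (nat_lit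 0xc8014) (nat_lit 1) (p (nat_lit 0x8400c) (nat_lit 0) (p (nat_lit 0x84014) (nat_lit 1) (p (nat_lit 0x108014) (nat_lit 0) (p (nat_lit 0x10800c) (nat_lit 0) (p (nat_lit 0x100004) (nat_lit 1) (p (nat_lit 0x200004) (nat_lit 0) (p (nat_lit 0x380c2) (nat_lit 0) (p (nat_lit 0x444aa) (nat_lit 7) (p (nat_lit 0xd1) (nat_lit 1) (p (nat_lit 0x111) (nat_lit 1) (p (nat_lit 0x109) (nat_lit 0) (p (nat_lit 0x101) (nat_lit 0) (p (nat_lit 0x119) (nat_lit 0) (p (nat_lit 0xc9) (nat_lit 0) (p (nat_lit 0x89) (nat_lit 1) (p (nat_lit 0x41) (nat_lit 0) (p (nat_lit 0x8078907089a) (nat_lit 0) (p (nat_lit 0x7870886861a) (nat_lit 0) (p (nat_lit 0x800070806078a) (nat_lit 0) (p (nat_lit 0x800068785850a) (nat_lit 0) (p (nat_lit 0x587050682) (nat_lit 0) (p (nat_lit 0x506848402) (nat_lit 0) (p (nat_lit 0x160014) (nat_lit 0) (p (nat_lit 0x16000c) (nat_lit 0) (p (nat_lit 0x50612) (nat_lit 0) (p (nat_lit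 0x40592) (nat_lit 0) (p (nat_lit 0x40492) (nat_lit 0) (p (nat_lit 0x30412) (nat_lit 0) (p (nat_lit 0x30212) (nat_lit 0) (p (nat_lit 0x20192) (nat_lit 0) (p (nat_lit 0x20092) (nat_lit 0) (p (nat_lit 0x10012) (nat_lit 0) pn))))))))))))))))))))))))))))))))))))))))))))))) :=
  Cl.node (nat_lit 0x3ccaa) (nat_lit 12) (by decide +kernel) (ClAll.succ (ClAll.succ (ClAll.succ (ClAll.succ (ClAll.succ (ClAll.succ (ClAll.succ (ClAll.succ (ClAll.succ (ClAll.succ (ClAll.succ (ClAll.succ ClAll.zero n0) s579) s580) s581) s582) s583) s584) s585) s586) s587) s588) s589)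

def n2 : Cl (O (nat_lit 1)) (R (nat_lit 104465))
    (p (nat_lit 0x380c2) (nat_lit 1) (p (nat_lit 0x3cc2a) (nat_lit 0) (p (nat_lit 0xd8014) (nat_lit 0) (p (nat_lit 0x109) (nat_lit 1) (p (nat_lit 0xe8014) (nat_lit 0) (p (nat_lit 0xc1) (nat_lit 0) (p (nat_lit 0x41) (nat_lit 0) (p (nat_lit 0xc0b8d0b0c9a) (nat_lit 0) (p (nat_lit 0xb8b0c8a8a1a) (nat_lit 0) (p (nat_lit 0x5298b0b0c0a0b8a) (nat_lit 0) (p (nat_lit 0x5298b0a8b89890a) (nat_lit 0) (p (nat_lit 0x15c004) (nat_lit 0) (p (nat_lit 0x4000c) (nat_lit 0) (p (nat_lit 0x1b4004) (nat_lit 0) (p (nat_lit 0xc8014) (nat_lit 1) (p (nat_lit 0x8400c) (nat_lit 0) (p (nat_lit 0x84014) (nat_lit 1) (p (nat_lit 0x108014) (nat_lit 0) (p (nat_lit 0x10800c) (nat_lit 0) (p (nat_lit 0x100004) (nat_lit 1) (p (nat_lit 0x200004) (nat_lit 0) (p (nat_lit 0x380c2) (nat_lit 0) (p (nat_lit 0x444aa) (nat_lit 7) (p (nat_lit 0xd1) (nat_lit 1) (p (nat_lit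 0x111) (nat_lit 1) (p (nat_lit 0x109) (nat_lit 0) (p (nat_lit 0x101) (nat_lit 0) (p (nat_lit 0x119) (nat_lit 0) (p (nat_lit 0xc9) (nat_lit 0) (p (nat_lit 0x89) (nat_lit 1) (p (nat_lit 0x41) (nat_lit 0) (p (nat_lit 0x8078907089a) (nat_lit 0) (p (nat_lit 0x7870886861a) (nat_lit 0) (p (nat_lit 0x800070806078a) (nat_lit 0) (p (nat_lit 0x800068785850a) (nat_lit 0) (p (nat_lit 0x587050682) (nat_lit 0) (p (nat_lit 0x506848402) (nat_lit 0) (p (nat_lit 0x160014) (nat_lit 0) (p (nat_lit 0x16000c) (nat_lit 0) (p (nat_lit 0x50612) (nat_lit 0) (p (nat_lit 0x40592) (nat_lit 0) (p (nat_lit 0x40492) (nat_lit 0) (p (nat_lit 0x30412) (nat_lit 0) (p (nat_lit 0x30212) (nat_lit 0) (p (nat_lit 0x20192) (nat_lit 0) (p (nat_lit 0x20092) (nat_lit 0) (p (nat_lit 0x10012) (nat_lit 0) pn))))))))))))))))))))))))))))))))))))))))))))))) :=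
  Cl.node (nat_lit 0x3ccaa) (nat_lit 12) (by decide +kernel) (ClAll.succ (ClAll.succ (ClAll.succ (ClAll.succ (ClAll.succ (ClAll.succ (ClAll.succ (ClAll.succ (ClAll.succ (ClAll.succ (ClAll.succ (ClAll.succ ClAll.zero s590) s591) s592) s593) s594) s595) s596) s597) s598) s599) s600) s601)

def n3 : Cl (O (nat_lit 1)) (R (nat_lit 104465))
    (p (nat_lit 0x3cc2a) (nat_lit 0) (p (nat_lit 0xd8014) (nat_lit 0) (p (nat_lit 0x109) (nat_lit 1) (p (nat_lit 0xe8014) (nat_lit 0) (p (nat_lit 0xc1) (nat_lit 0) (p (nat_lit 0x41) (nat_lit 0) (p (nat_lit 0xc0b8d0b0c9a) (nat_lit 0) (p (nat_lit 0xb8b0c8a8a1a) (nat_lit 0) (p (nat_lit 0x5298b0b0c0a0b8a) (nat_lit 0) (p (nat_lit 0x5298b0a8b89890a) (nat_lit 0) (p (nat_lit 0x15c004) (nat_lit 0) (p (nat_lit 0x4000c) (nat_lit 0) (p (nat_lit 0x1b4004) (nat_lit 0) (p (nat_lit 0xc8014) (nat_lit 1) (p (nat_lit 0x8400c) (nat_lit 0) (p (nat_lit 0x84014)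 (nat_lit 1) (p (nat_lit 0x108014) (nat_lit 0) (p (nat_lit 0x10800c) (nat_lit 0) (p (nat_lit 0x100004) (nat_lit 1) (p (nat_lit 0x200004) (nat_lit 0) (p (nat_lit 0x380c2) (nat_lit 0) (p (nat_lit 0x444aa) (nat_lit 7) (p (nat_lit 0xd1) (nat_lit 1) (p (nat_lit 0x111) (nat_lit 1) (p (nat_lit 0x109) (nat_lit 0) (p (nat_lit 0x101) (nat_lit 0) (p (nat_lit 0x119) (nat_lit 0) (p (nat_lit 0xc9) (nat_lit 0) (p (nat_lit 0x89) (nat_lit 1) (p (nat_lit 0x41) (nat_lit 0) (p (nat_lit 0x8078907089a) (nat_lit 0) (p (nat_lit 0x7870886861a) (nat_lit 0) (p (nat_lit 0x800070806078a) (nat_lit 0) (p (nat_lit 0x800068785850a) (nat_lit 0) (p (nat_lit 0x587050682) (nat_lit 0) (p (nat_lit 0x506848402) (nat_lit 0) (p (nat_lit 0x160014) (nat_lit 0) (p (nat_lit 0x16000c) (nat_lit 0) (p (nat_lit 0x50612) (nat_lit 0) (p (nat_lit 0x40592) (nat_lit 0) (p (nat_lit 0x40492) (nat_lit 0) (p (nat_lit 0x30412)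 (nat_lit 0) (p (nat_lit 0x30212) (nat_lit 0) (p (nat_lit 0x20192) (nat_lit 0) (p (nat_lit 0x20092) (nat_lit 0) (p (nat_lit 0x10012) (nat_lit 0) pn)))))))))))))))))))))))))))))))))))))))))))))) :=
  Cl.node (nat_lit 0x380c2) (nat_lit 2) (by decide +kernel) (ClAll.succ (ClAll.succ ClAll.zero n1) n2)

def n4 : Cl (O (nat_lit 1)) (R (nat_lit 104465))
    (p (nat_lit 0xd8014) (nat_lit 0) (p (nat_lit 0x109) (nat_lit 1) (p (nat_lit 0xe8014) (nat_lit 0) (p (nat_lit 0xc1) (nat_lit 0) (p (nat_lit 0x41) (nat_lit 0) (p (nat_lit 0xc0b8d0b0c9a) (nat_lit 0) (p (nat_lit 0xb8b0c8a8a1a) (nat_lit 0) (p (nat_lit 0x5298b0b0c0a0b8a) (nat_lit 0) (p (nat_lit 0x5298b0a8b89890a) (nat_lit 0) (p (nat_lit 0x15c004) (nat_lit 0) (p (nat_lit 0x4000c) (nat_lit 0) (p (nat_lit 0x1b4004) (nat_lit 0) (p (nat_lit 0xc8014) (nat_lit 1) (p (nat_lit 0x8400c) (nat_lit 0) (p (nat_lit 0x84014) (nat_lit 1) (p (nat_lit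 0x108014) (nat_lit 0) (p (nat_lit 0x10800c) (nat_lit 0) (p (nat_lit 0x100004) (nat_lit 1) (p (nat_lit 0x200004) (nat_lit 0) (p (nat_lit 0x380c2) (nat_lit 0) (p (nat_lit 0x444aa) (nat_lit 7) (p (nat_lit 0xd1) (nat_lit 1) (p (nat_lit 0x111) (nat_lit 1) (p (nat_lit 0x109) (nat_lit 0) (p (nat_lit 0x101) (nat_lit 0) (p (nat_lit 0x119) (nat_lit 0) (p (nat_lit 0xc9) (nat_lit 0) (p (nat_lit 0x89) (nat_lit 1) (p (nat_lit 0x41) (nat_lit 0) (p (nat_lit 0x8078907089a) (nat_lit 0) (p (nat_lit 0x7870886861a) (nat_lit 0) (p (nat_lit 0x800070806078a) (nat_lit 0) (p (nat_lit 0x800068785850a) (nat_lit 0) (p (nat_lit 0x587050682) (nat_lit 0) (p (nat_lit 0x506848402) (nat_lit 0) (p (nat_lit 0x160014) (nat_lit 0) (p (nat_lit 0x16000c) (nat_lit 0) (p (nat_lit 0x50612) (nat_lit 0) (p (nat_lit 0x40592) (nat_lit 0) (p (nat_lit 0x40492) (nat_lit 0) (p (nat_lit 0x30412) (nat_lit 0) (p (nat_lit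 0x30212) (nat_lit 0) (p (nat_lit 0x20192) (nat_lit 0) (p (nat_lit 0x20092) (nat_lit 0) (p (nat_lit 0x10012) (nat_lit 0) pn))))))))))))))))))))))))))))))))))))))))))))) :=
  Cl.node (nat_lit 0x3cc2a) (nat_lit 12) (by decide +kernel) (ClAll.succ (ClAll.succ (ClAll.succ (ClAll.succ (ClAll.succ (ClAll.succ (ClAll.succ (ClAll.succ (ClAll.succ (ClAll.succ (ClAll.succ (ClAll.succ ClAll.zero n3) s602) s603) s604) s605) s606) s607) s608) s609) s610) s611) s612)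

def n5 : Cl (O (nat_lit 1)) (R (nat_lit 104465))
    (p (nat_lit 0x109) (nat_lit 1) (p (nat_lit 0xc9) (nat_lit 1) (p (nat_lit 0x3000c) (nat_lit 0) (p (nat_lit 0x41) (nat_lit 0) (p (nat_lit 0xc0b8d0b0c9a) (nat_lit 0) (p (nat_lit 0xb8b0c8a8a1a) (nat_lit 0) (p (nat_lit 0x3a9290b0c0a0b8a) (nat_lit 0) (p (nat_lit 0x3a9290a8b89890a) (nat_lit 0) (p (nat_lit 0x180004) (nat_lit 0) (p (nat_lit 0x6000c) (nat_lit 0) (p (nat_lit 0xa8014) (nat_lit 1) (p (nat_lit 0xc8014) (nat_lit 0) (p (nat_lit 0x8400c) (nat_lit 0) (p (nat_lit 0x84014) (nat_lit 1) (p (nat_lit 0x108014) (nat_lit 0) (p (nat_lit 0x10800c) (nat_lit 0) (p (nat_lit 0x100004) (nat_lit 1) (p (nat_lit 0x200004) (nat_lit 0) (p (nat_lit 0x380c2) (nat_lit 0) (p (nat_lit 0x444aa) (nat_lit 7) (p (nat_lit 0xd1) (nat_lit 1) (p (nat_lit 0x111) (nat_lit 1) (p (nat_lit 0x109) (nat_lit 0) (p (nat_lit 0x101) (nat_lit 0) (p (nat_lit 0x119)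 (nat_lit 0) (p (nat_lit 0xc9) (nat_lit 0) (p (nat_lit 0x89) (nat_lit 1) (p (nat_lit 0x41) (nat_lit 0) (p (nat_lit 0x8078907089a) (nat_lit 0) (p (nat_lit 0x7870886861a) (nat_lit 0) (p (nat_lit 0x800070806078a) (nat_lit 0) (p (nat_lit 0x800068785850a) (nat_lit 0) (p (nat_lit 0x587050682) (nat_lit 0) (p (nat_lit 0x506848402) (nat_lit 0) (p (nat_lit 0x160014) (nat_lit 0) (p (nat_lit 0x16000c) (nat_lit 0) (p (nat_lit 0x50612) (nat_lit 0) (p (nat_lit 0x40592) (nat_lit 0) (p (nat_lit 0x40492) (nat_lit 0) (p (nat_lit 0x30412) (nat_lit 0) (p (nat_lit 0x30212) (nat_lit 0) (p (nat_lit 0x20192) (nat_lit 0) (p (nat_lit 0x20092) (nat_lit 0) (p (nat_lit 0x10012) (nat_lit 0) pn)))))))))))))))))))))))))))))))))))))))))))) :=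
  Cl.node (nat_lit 0x81) (nat_lit 2) (by decide +kernel) (ClAll.succ (ClAll.succ ClAll.zero s570) s571)

def n6 : Cl (O (nat_lit 1)) (R (nat_lit 104465))
    (p (nat_lit 0x109) (nat_lit 1) (p (nat_lit 0xe8014) (nat_lit 0) (p (nat_lit 0xc1) (nat_lit 0) (p (nat_lit 0x41) (nat_lit 0) (p (nat_lit 0xc0b8d0b0c9a) (nat_lit 0) (p (nat_lit 0xb8b0c8a8a1a) (nat_lit 0) (p (nat_lit 0x5298b0b0c0a0b8a) (nat_lit 0) (p (nat_lit 0x5298b0a8b89890a) (nat_lit 0) (p (nat_lit 0x15c004) (nat_lit 0) (p (nat_lit 0x4000c) (nat_lit 0) (p (nat_lit 0x1b4004) (nat_lit 0) (p (nat_lit 0xc8014) (nat_lit 1) (p (nat_lit 0x8400c) (nat_lit 0) (p (nat_lit 0x84014) (nat_lit 1) (p (nat_lit 0x108014) (nat_lit 0) (p (nat_lit 0x10800c) (nat_lit 0) (p (nat_lit 0x100004) (nat_lit 1) (p (nat_lit 0x200004) (nat_lit 0) (p (nat_lit 0x380c2) (nat_lit 0) (p (nat_lit 0x444aa) (nat_lit 7) (p (nat_lit 0xd1) (nat_lit 1) (p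 (nat_lit 0x111) (nat_lit 1) (p (nat_lit 0x109) (nat_lit 0) (p (nat_lit 0x101) (nat_lit 0) (p (nat_lit 0x119) (nat_lit 0) (p (nat_lit 0xc9) (nat_lit 0) (p (nat_lit 0x89) (nat_lit 1) (p (nat_lit 0x41) (nat_lit 0) (p (nat_lit 0x8078907089a) (nat_lit 0) (p (nat_lit 0x7870886861a) (nat_lit 0) (p (nat_lit 0x800070806078a) (nat_lit 0) (p (nat_lit 0x800068785850a) (nat_lit 0) (p (nat_lit 0x587050682) (nat_lit 0) (p (nat_lit 0x506848402) (nat_lit 0) (p (nat_lit 0x160014) (nat_lit 0) (p (nat_lit 0x16000c) (nat_lit 0) (p (nat_lit 0x50612) (nat_lit 0) (p (nat_lit 0x40592) (nat_lit 0) (p (nat_lit 0x40492) (nat_lit 0) (p (nat_lit 0x30412) (nat_lit 0) (p (nat_lit 0x30212) (nat_lit 0) (p (nat_lit 0x20192) (nat_lit 0) (p (nat_lit 0x20092) (nat_lit 0) (p (nat_lit 0x10012) (nat_lit 0) pn)))))))))))))))))))))))))))))))))))))))))))) :=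
  Cl.node (nat_lit 0xd8014) (nat_lit 2) (by decide +kernel) (ClAll.succ (ClAll.succ ClAll.zero n4) s613)

def n7 : Cl (O (nat_lit 1)) (R (nat_lit 104465))
    (p (nat_lit 0xc9) (nat_lit 1) (p (nat_lit 0x3000c) (nat_lit 0) (p (nat_lit 0x41) (nat_lit 0) (p (nat_lit 0xc0b8d0b0c9a) (nat_lit 0) (p (nat_lit 0xb8b0c8a8a1a) (nat_lit 0) (p (nat_lit 0x3a9290b0c0a0b8a) (nat_lit 0) (p (nat_lit 0x3a9290a8b89890a) (nat_lit 0) (p (nat_lit 0x180004) (nat_lit 0) (p (nat_lit 0x6000c) (nat_lit 0) (p (nat_lit 0xa8014) (nat_lit 1) (p (nat_lit 0xc8014) (nat_lit 0) (p (nat_lit 0x8400c) (nat_lit 0) (p (nat_lit 0x84014) (nat_lit 1) (p (nat_lit 0x108014) (nat_lit 0) (p (nat_lit 0x10800c) (nat_lit 0) (p (nat_lit 0x100004) (nat_lit 1) (p (nat_lit 0x200004) (nat_lit 0) (p (nat_lit 0x380c2) (nat_lit 0) (p (nat_lit 0x444aa) (nat_lit 7) (p (nat_lit 0xd1) (nat_lit 1) (p (nat_lit 0x111) (nat_lit 1) (p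 (nat_lit 0x109) (nat_lit 0) (p (nat_lit 0x101) (nat_lit 0) (p (nat_lit 0x119) (nat_lit 0) (p (nat_lit 0xc9) (nat_lit 0) (p (nat_lit 0x89) (nat_lit 1) (p (nat_lit 0x41) (nat_lit 0) (p (nat_lit 0x8078907089a) (nat_lit 0) (p (nat_lit 0x7870886861a) (nat_lit 0) (p (nat_lit 0x800070806078a) (nat_lit 0) (p (nat_lit 0x800068785850a) (nat_lit 0) (p (nat_lit 0x587050682) (nat_lit 0) (p (nat_lit 0x506848402) (nat_lit 0) (p (nat_lit 0x160014) (nat_lit 0) (p (nat_lit 0x16000c) (nat_lit 0) (p (nat_lit 0x50612) (nat_lit 0) (p (nat_lit 0x40592) (nat_lit 0) (p (nat_lit 0x40492) (nat_lit 0) (p (nat_lit 0x30412) (nat_lit 0) (p (nat_lit 0x30212) (nat_lit 0) (p (nat_lit 0x20192) (nat_lit 0) (p (nat_lit 0x20092) (nat_lit 0) (p (nat_lit 0x10012) (nat_lit 0) pn))))))))))))))))))))))))))))))))))))))))))) :=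
  Cl.node (nat_lit 0x109) (nat_lit 2) (by decide +kernel) (ClAll.succ (ClAll.succ ClAll.zero s569) n5)

def n8 : Cl (O (nat_lit 1)) (R (nat_lit 104465))
    (p (nat_lit 0xe8014) (nat_lit 0) (p (nat_lit 0xc1) (nat_lit 0) (p (nat_lit 0x41) (nat_lit 0) (p (nat_lit 0xc0b8d0b0c9a) (nat_lit 0) (p (nat_lit 0xb8b0c8a8a1a) (nat_lit 0) (p (nat_lit 0x5298b0b0c0a0b8a) (nat_lit 0) (p (nat_lit 0x5298b0a8b89890a) (nat_lit 0) (p (nat_lit 0x15c004) (nat_lit 0) (p (nat_lit 0x4000c) (nat_lit 0) (p (nat_lit 0x1b4004) (nat_lit 0) (p (nat_lit 0xc8014) (nat_lit 1) (p (nat_lit 0x8400c) (nat_lit 0) (p (nat_lit 0x84014) (nat_lit 1) (p (nat_lit 0x108014) (nat_lit 0) (p (nat_lit 0x10800c) (nat_lit 0) (p (nat_lit 0x100004) (nat_lit 1) (p (nat_lit 0x200004) (nat_lit 0) (p (nat_lit 0x380c2) (nat_lit 0) (p (nat_lit 0x444aa) (nat_lit 7) (p (nat_lit 0xd1) (nat_lit 1) (p (nat_lit 0x111) (nat_lit 1) (p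 (nat_lit 0x109) (nat_lit 0) (p (nat_lit 0x101) (nat_lit 0) (p (nat_lit 0x119) (nat_lit 0) (p (nat_lit 0xc9) (nat_lit 0) (p (nat_lit 0x89) (nat_lit 1) (p (nat_lit 0x41) (nat_lit 0) (p (nat_lit 0x8078907089a) (nat_lit 0) (p (nat_lit 0x7870886861a) (nat_lit 0) (p (nat_lit 0x800070806078a) (nat_lit 0) (p (nat_lit 0x800068785850a) (nat_lit 0) (p (nat_lit 0x587050682) (nat_lit 0) (p (nat_lit 0x506848402) (nat_lit 0) (p (nat_lit 0x160014) (nat_lit 0) (p (nat_lit 0x16000c) (nat_lit 0) (p (nat_lit 0x50612) (nat_lit 0) (p (nat_lit 0x40592) (nat_lit 0) (p (nat_lit 0x40492) (nat_lit 0) (p (nat_lit 0x30412) (nat_lit 0) (p (nat_lit 0x30212) (nat_lit 0) (p (nat_lit 0x20192) (nat_lit 0) (p (nat_lit 0x20092) (nat_lit 0) (p (nat_lit 0x10012) (nat_lit 0) pn))))))))))))))))))))))))))))))))))))))))))) :=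
  Cl.node (nat_lit 0x109) (nat_lit 2) (by decide +kernel) (ClAll.succ (ClAll.succ ClAll.zero s576) n6)

def n9 : Cl (O (nat_lit 1)) (R (nat_lit 104465))
    (p (nat_lit 0x3000c) (nat_lit 0) (p (nat_lit 0x41) (nat_lit 0) (p (nat_lit 0xc0b8d0b0c9a) (nat_lit 0) (p (nat_lit 0xb8b0c8a8a1a) (nat_lit 0) (p (nat_lit 0x3a9290b0c0a0b8a) (nat_lit 0) (p (nat_lit 0x3a9290a8b89890a) (nat_lit 0) (p (nat_lit 0x180004) (nat_lit 0) (p (nat_lit 0x6000c) (nat_lit 0) (p (nat_lit 0xa8014) (nat_lit 1) (p (nat_lit 0xc8014) (nat_lit 0) (p (nat_lit 0x8400c) (nat_lit 0) (p (nat_lit 0x84014) (nat_lit 1) (p (nat_lit 0x108014) (nat_lit 0) (p (nat_lit 0x10800c) (nat_lit 0) (p (nat_lit 0x100004) (nat_lit 1) (p (nat_lit 0x200004) (nat_lit 0) (p (nat_lit 0x380c2) (nat_lit 0) (p (nat_lit 0x444aa) (nat_lit 7) (p (nat_lit 0xd1) (nat_lit 1) (p (nat_lit 0x111) (nat_lit 1) (p (nat_lit 0x109) (nat_lit 0) (p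 (nat_lit 0x101) (nat_lit 0) (p (nat_lit 0x119) (nat_lit 0) (p (nat_lit 0xc9) (nat_lit 0) (p (nat_lit 0x89) (nat_lit 1) (p (nat_lit 0x41) (nat_lit 0) (p (nat_lit 0x8078907089a) (nat_lit 0) (p (nat_lit 0x7870886861a) (nat_lit 0) (p (nat_lit 0x800070806078a) (nat_lit 0) (p (nat_lit 0x800068785850a) (nat_lit 0) (p (nat_lit 0x587050682) (nat_lit 0) (p (nat_lit 0x506848402) (nat_lit 0) (p (nat_lit 0x160014) (nat_lit 0) (p (nat_lit 0x16000c) (nat_lit 0) (p (nat_lit 0x50612) (nat_lit 0) (p (nat_lit 0x40592) (nat_lit 0) (p (nat_lit 0x40492) (nat_lit 0) (p (nat_lit 0x30412) (nat_lit 0) (p (nat_lit 0x30212) (nat_lit 0) (p (nat_lit 0x20192) (nat_lit 0) (p (nat_lit 0x20092) (nat_lit 0) (p (nat_lit 0x10012) (nat_lit 0) pn)))))))))))))))))))))))))))))))))))))))))) :=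
  Cl.node (nat_lit 0xc9) (nat_lit 2) (by decide +kernel) (ClAll.succ (ClAll.succ ClAll.zero s568) n7)

def n10 : Cl (O (nat_lit 1)) (R (nat_lit 104465))
    (p (nat_lit 0xc1) (nat_lit 0) (p (nat_lit 0x41) (nat_lit 0) (p (nat_lit 0xc0b8d0b0c9a) (nat_lit 0) (p (nat_lit 0xb8b0c8a8a1a) (nat_lit 0) (p (nat_lit 0x5298b0b0c0a0b8a) (nat_lit 0) (p (nat_lit 0x5298b0a8b89890a) (nat_lit 0) (p (nat_lit 0x15c004) (nat_lit 0) (p (nat_lit 0x4000c) (nat_lit 0) (p (nat_lit 0x1b4004) (nat_lit 0) (p (nat_lit 0xc8014) (nat_lit 1) (p (nat_lit 0x8400c) (nat_lit 0) (p (nat_lit 0x84014) (nat_lit 1) (p (nat_lit 0x108014) (nat_lit 0) (p (nat_lit 0x10800c) (nat_lit 0) (p (nat_lit 0x100004) (nat_lit 1) (p (nat_lit 0x200004) (nat_lit 0) (p (nat_lit 0x380c2) (nat_lit 0) (p (nat_lit 0x444aa) (nat_lit 7) (p (nat_lit 0xd1) (nat_lit 1) (p (nat_lit 0x111) (nat_lit 1) (p (nat_lit 0x109) (nat_lit 0) (p (nat_lit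 0x101) (nat_lit 0) (p (nat_lit 0x119) (nat_lit 0) (p (nat_lit 0xc9) (nat_lit 0) (p (nat_lit 0x89) (nat_lit 1) (p (nat_lit 0x41) (nat_lit 0) (p (nat_lit 0x8078907089a) (nat_lit 0) (p (nat_lit 0x7870886861a) (nat_lit 0) (p (nat_lit 0x800070806078a) (nat_lit 0) (p (nat_lit 0x800068785850a) (nat_lit 0) (p (nat_lit 0x587050682) (nat_lit 0) (p (nat_lit 0x506848402) (nat_lit 0) (p (nat_lit 0x160014) (nat_lit 0) (p (nat_lit 0x16000c) (nat_lit 0) (p (nat_lit 0x50612) (nat_lit 0) (p (nat_lit 0x40592) (nat_lit 0) (p (nat_lit 0x40492) (nat_lit 0) (p (nat_lit 0x30412) (nat_lit 0) (p (nat_lit 0x30212) (nat_lit 0) (p (nat_lit 0x20192) (nat_lit 0) (p (nat_lit 0x20092) (nat_lit 0) (p (nat_lit 0x10012) (nat_lit 0) pn)))))))))))))))))))))))))))))))))))))))))) :=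
  Cl.node (nat_lit 0xe8014) (nat_lit 2) (by decide +kernel) (ClAll.succ (ClAll.succ ClAll.zero n8) s614)

def n11 : Cl (O (nat_lit 1)) (R (nat_lit 104465))
    (p (nat_lit 0x44014) (nat_lit 0) (p (nat_lit 0x84014) (nat_lit 0) (p (nat_lit 0x13400c) (nat_lit 0) (p (nat_lit 0x80004) (nat_lit 1) (p (nat_lit 0x100004) (nat_lit 0) (p (nat_lit 0xc9) (nat_lit 1) (p (nat_lit 0xd1) (nat_lit 0) (p (nat_lit 0x81) (nat_lit 0) (p (nat_lit 0xc0b8d0b0c9a) (nat_lit 0) (p (nat_lit 0xb8b0c8a8a1a) (nat_lit 0) (p (nat_lit 0x2a8258b0c0a0b8a) (nat_lit 0) (p (nat_lit 0x2a8258a8b89890a) (nat_lit 0) (p (nat_lit 0xb0014) (nat_lit 0) (p (nat_lit 0x1fc004) (nat_lit 0) (p (nat_lit 0xb000c) (nat_lit 1) (p (nat_lit 0x101) (nat_lit 0) (p (nat_lit 0x380c2) (nat_lit 0) (p (nat_lit 0x3cc2a) (nat_lit 2) (p (nat_lit 0x109) (nat_lit 1) (p (nat_lit 0xc9) (nat_lit 1) (p (nat_lit 0xc1) (nat_lit 0) (p (nat_lit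 0x119) (nat_lit 1) (p (nat_lit 0xd1) (nat_lit 0) (p (nat_lit 0x89) (nat_lit 0) (p (nat_lit 0x41) (nat_lit 0) (p (nat_lit 0x8078907089a) (nat_lit 0) (p (nat_lit 0x7870886861a) (nat_lit 0) (p (nat_lit 0x800070806078a) (nat_lit 0) (p (nat_lit 0x800068785850a) (nat_lit 0) (p (nat_lit 0x587050682) (nat_lit 0) (p (nat_lit 0x506848402) (nat_lit 0) (p (nat_lit 0x160014) (nat_lit 0) (p (nat_lit 0x16000c) (nat_lit 0) (p (nat_lit 0x50612) (nat_lit 0) (p (nat_lit 0x40592) (nat_lit 0) (p (nat_lit 0x40492) (nat_lit 0) (p (nat_lit 0x30412) (nat_lit 0) (p (nat_lit 0x30212) (nat_lit 0) (p (nat_lit 0x20192) (nat_lit 0) (p (nat_lit 0x20092) (nat_lit 0) (p (nat_lit 0x10012) (nat_lit 0) pn))))))))))))))))))))))))))))))))))))))))) :=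
  Cl.node (nat_lit 0xf400c) (nat_lit 2) (by decide +kernel) (ClAll.succ (ClAll.succ ClAll.zero s248) s249)

def n12 : Cl (O (nat_lit 1)) (R (nat_lit 104465))
    (p (nat_lit 0x41) (nat_lit 0) (p (nat_lit 0xc0b8d0b0c9a) (nat_lit 0) (p (nat_lit 0xb8b0c8a8a1a) (nat_lit 0) (p (nat_lit 0x3a9290b0c0a0b8a) (nat_lit 0) (p (nat_lit 0x3a9290a8b89890a) (nat_lit 0) (p (nat_lit 0x180004) (nat_lit 0) (p (nat_lit 0x6000c) (nat_lit 0) (p (nat_lit 0xa8014) (nat_lit 1) (p (nat_lit 0xc8014) (nat_lit 0) (p (nat_lit 0x8400c) (nat_lit 0) (p (nat_lit 0x84014) (nat_lit 1) (p (nat_lit 0x108014) (nat_lit 0) (p (nat_lit 0x10800c) (nat_lit 0) (p (nat_lit 0x100004) (nat_lit 1) (p (nat_lit 0x200004) (nat_lit 0) (p (nat_lit 0x380c2) (nat_lit 0) (p (nat_lit 0x444aa) (nat_lit 7) (p (nat_lit 0xd1) (nat_lit 1) (p (nat_lit 0x111) (nat_lit 1) (p (nat_lit 0x109) (nat_lit 0) (p (nat_lit 0x101) (nat_lit 0)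 (p (nat_lit 0x119) (nat_lit 0) (p (nat_lit 0xc9) (nat_lit 0) (p (nat_lit 0x89) (nat_lit 1) (p (nat_lit 0x41) (nat_lit 0) (p (nat_lit 0x8078907089a) (nat_lit 0) (p (nat_lit 0x7870886861a) (nat_lit 0) (p (nat_lit 0x800070806078a) (nat_lit 0) (p (nat_lit 0x800068785850a) (nat_lit 0) (p (nat_lit 0x587050682) (nat_lit 0) (p (nat_lit 0x506848402) (nat_lit 0) (p (nat_lit 0x160014) (nat_lit 0) (p (nat_lit 0x16000c) (nat_lit 0) (p (nat_lit 0x50612) (nat_lit 0) (p (nat_lit 0x40592) (nat_lit 0) (p (nat_lit 0x40492) (nat_lit 0) (p (nat_lit 0x30412) (nat_lit 0) (p (nat_lit 0x30212) (nat_lit 0) (p (nat_lit 0x20192) (nat_lit 0) (p (nat_lit 0x20092) (nat_lit 0) (p (nat_lit 0x10012) (nat_lit 0) pn))))))))))))))))))))))))))))))))))))))))) :=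
  Cl.node (nat_lit 0x3000c) (nat_lit 2) (by decide +kernel) (ClAll.succ (ClAll.succ ClAll.zero n9) s572)

def n13 : Cl (O (nat_lit 1)) (R (nat_lit 104465))
    (p (nat_lit 0x41) (nat_lit 0) (p (nat_lit 0xc0b8d0b0c9a) (nat_lit 0) (p (nat_lit 0xb8b0c8a8a1a) (nat_lit 0) (p (nat_lit 0x5298b0b0c0a0b8a) (nat_lit 0) (p (nat_lit 0x5298b0a8b89890a) (nat_lit 0) (p (nat_lit 0x15c004) (nat_lit 0) (p (nat_lit 0x4000c) (nat_lit 0) (p (nat_lit 0x1b4004) (nat_lit 0) (p (nat_lit 0xc8014) (nat_lit 1) (p (nat_lit 0x8400c) (nat_lit 0) (p (nat_lit 0x84014) (nat_lit 1) (p (nat_lit 0x108014) (nat_lit 0) (p (nat_lit 0x10800c) (nat_lit 0) (p (nat_lit 0x100004) (nat_lit 1) (p (nat_lit 0x200004) (nat_lit 0) (p (nat_lit 0x380c2) (nat_lit 0) (p (nat_lit 0x444aa) (nat_lit 7) (p (nat_lit 0xd1) (nat_lit 1) (p (nat_lit 0x111) (nat_lit 1) (p (nat_lit 0x109) (nat_lit 0) (p (nat_lit 0x101) (nat_lit 0)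 (p (nat_lit 0x119) (nat_lit 0) (p (nat_lit 0xc9) (nat_lit 0) (p (nat_lit 0x89) (nat_lit 1) (p (nat_lit 0x41) (nat_lit 0) (p (nat_lit 0x8078907089a) (nat_lit 0) (p (nat_lit 0x7870886861a) (nat_lit 0) (p (nat_lit 0x800070806078a) (nat_lit 0) (p (nat_lit 0x800068785850a) (nat_lit 0) (p (nat_lit 0x587050682) (nat_lit 0) (p (nat_lit 0x506848402) (nat_lit 0) (p (nat_lit 0x160014) (nat_lit 0) (p (nat_lit 0x16000c) (nat_lit 0) (p (nat_lit 0x50612) (nat_lit 0) (p (nat_lit 0x40592) (nat_lit 0) (p (nat_lit 0x40492) (nat_lit 0) (p (nat_lit 0x30412) (nat_lit 0) (p (nat_lit 0x30212) (nat_lit 0) (p (nat_lit 0x20192) (nat_lit 0) (p (nat_lit 0x20092) (nat_lit 0) (p (nat_lit 0x10012) (nat_lit 0) pn))))))))))))))))))))))))))))))))))))))))) :=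
  Cl.node (nat_lit 0xc1) (nat_lit 2) (by decide +kernel) (ClAll.succ (ClAll.succ ClAll.zero n10) s615)

def n14 : Cl (O (nat_lit 1)) (R (nat_lit 104465))
    (p (nat_lit 0xe0d8f0d0e9a) (nat_lit 0) (p (nat_lit 0xd8d0e8c8c1a) (nat_lit 0) (p (nat_lit 0x1081e0d0e0c0d8a) (nat_lit 0) (p (nat_lit 0x1081e0c8d8b8b0a) (nat_lit 0) (p (nat_lit 0x80004) (nat_lit 1) (p (nat_lit 0x5800c) (nat_lit 1) (p (nat_lit 0x89) (nat_lit 1) (p (nat_lit 0x41) (nat_lit 0) (p (nat_lit 0xb000c) (nat_lit 0) (p (nat_lit 0xb0014) (nat_lit 0) (p (nat_lit 0x380c2) (nat_lit 0) (p (nat_lit 0x3cc2a) (nat_lit 2) (p (nat_lit 0x100004) (nat_lit 0) (p (nat_lit 0x200004) (nat_lit 0) (p (nat_lit 0x380c2) (nat_lit 1) (p (nat_lit 0x4c42a) (nat_lit 10) (p (nat_lit 0x119) (nat_lit 1) (p (nat_lit 0xc9) (nat_lit 0) (p (nat_lit 0x89) (nat_lit 1) (p (nat_lit 0x109) (nat_lit 1) (p (nat_lit 0x101) (nat_lit 0) (p (nat_lit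 0x111) (nat_lit 0) (p (nat_lit 0xd1) (nat_lit 1) (p (nat_lit 0x81) (nat_lit 0) (p (nat_lit 0x41) (nat_lit 1) (p (nat_lit 0x8078907089a) (nat_lit 0) (p (nat_lit 0x7870886861a) (nat_lit 0) (p (nat_lit 0x800070806078a) (nat_lit 0) (p (nat_lit 0x800068785850a) (nat_lit 0) (p (nat_lit 0x587050682) (nat_lit 0) (p (nat_lit 0x506848402) (nat_lit 0) (p (nat_lit 0x160014) (nat_lit 0) (p (nat_lit 0x16000c) (nat_lit 0) (p (nat_lit 0x50612) (nat_lit 0) (p (nat_lit 0x40592) (nat_lit 0) (p (nat_lit 0x40492) (nat_lit 0) (p (nat_lit 0x30412) (nat_lit 0) (p (nat_lit 0x30212) (nat_lit 0) (p (nat_lit 0x20192) (nat_lit 0) (p (nat_lit 0x20092) (nat_lit 0) (p (nat_lit 0x10012) (nat_lit 0) pn))))))))))))))))))))))))))))))))))))))))) :=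
  Cl.node (nat_lit 0x41) (nat_lit 2) (by decide +kernel) (ClAll.succ (ClAll.succ ClAll.zero s1463) s1464)

def n15 : Cl (O (nat_lit 1)) (R (nat_lit 104465))
    (p (nat_lit 0x84014) (nat_lit 0) (p (nat_lit 0x13400c) (nat_lit 0) (p (nat_lit 0x80004) (nat_lit 1) (p (nat_lit 0x100004) (nat_lit 0) (p (nat_lit 0xc9) (nat_lit 1) (p (nat_lit 0xd1) (nat_lit 0) (p (nat_lit 0x81) (nat_lit 0) (p (nat_lit 0xc0b8d0b0c9a) (nat_lit 0) (p (nat_lit 0xb8b0c8a8a1a) (nat_lit 0) (p (nat_lit 0x2a8258b0c0a0b8a) (nat_lit 0) (p (nat_lit 0x2a8258a8b89890a) (nat_lit 0) (p (nat_lit 0xb0014) (nat_lit 0) (p (nat_lit 0x1fc004) (nat_lit 0) (p (nat_lit 0xb000c) (nat_lit 1) (p (nat_lit 0x101) (nat_lit 0) (p (nat_lit 0x380c2) (nat_lit 0) (p (nat_lit 0x3cc2a) (nat_lit 2) (p (nat_lit 0x109) (nat_lit 1) (p (nat_lit 0xc9) (nat_lit 1) (p (nat_lit 0xc1) (nat_lit 0) (p (nat_lit 0x119) (nat_lit 1) (p (nat_lit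 0xd1) (nat_lit 0) (p (nat_lit 0x89) (nat_lit 0) (p (nat_lit 0x41) (nat_lit 0) (p (nat_lit 0x8078907089a) (nat_lit 0) (p (nat_lit 0x7870886861a) (nat_lit 0) (p (nat_lit 0x800070806078a) (nat_lit 0) (p (nat_lit 0x800068785850a) (nat_lit 0) (p (nat_lit 0x587050682) (nat_lit 0) (p (nat_lit 0x506848402) (nat_lit 0) (p (nat_lit 0x160014) (nat_lit 0) (p (nat_lit 0x16000c) (nat_lit 0) (p (nat_lit 0x50612) (nat_lit 0) (p (nat_lit 0x40592) (nat_lit 0) (p (nat_lit 0x40492) (nat_lit 0) (p (nat_lit 0x30412) (nat_lit 0) (p (nat_lit 0x30212) (nat_lit 0) (p (nat_lit 0x20192) (nat_lit 0) (p (nat_lit 0x20092) (nat_lit 0) (p (nat_lit 0x10012) (nat_lit 0) pn)))))))))))))))))))))))))))))))))))))))) :=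
  Cl.node (nat_lit 0x44014) (nat_lit 2) (by decide +kernel) (ClAll.succ (ClAll.succ ClAll.zero n11) s250)

def n16 : Cl (O (nat_lit 1)) (R (nat_lit 104465))
    (p (nat_lit 0xe0d8f0d0e9a) (nat_lit 0) (p (nat_lit 0xd8d0e8c8c1a) (nat_lit 0) (p (nat_lit 0x2680d0d0e0c0d8a) (nat_lit 0) (p (nat_lit 0x2680d0c8d8b8b0a) (nat_lit 0) (p (nat_lit 0x58014) (nat_lit 0) (p (nat_lit 0xb000c) (nat_lit 1) (p (nat_lit 0x81) (nat_lit 1) (p (nat_lit 0x41) (nat_lit 1) (p (nat_lit 0x100004) (nat_lit 0) (p (nat_lit 0x200004) (nat_lit 0) (p (nat_lit 0x380c2) (nat_lit 0) (p (nat_lit 0x4c42a) (nat_lit 10) (p (nat_lit 0x89) (nat_lit 0) (p (nat_lit 0xb0014) (nat_lit 0) (p (nat_lit 0x380c2) (nat_lit 0) (p (nat_lit 0x3cc2a) (nat_lit 2) (p (nat_lit 0x119) (nat_lit 1) (p (nat_lit 0xc1) (nat_lit 0) (p (nat_lit 0x81) (nat_lit 1) (p (nat_lit 0x101) (nat_lit 1) (p (nat_lit 0x111) (nat_lit 0) (p (nat_lit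 0xd1) (nat_lit 1) (p (nat_lit 0x89) (nat_lit 0) (p (nat_lit 0x41) (nat_lit 0) (p (nat_lit 0x8078907089a) (nat_lit 0) (p (nat_lit 0x7870886861a) (nat_lit 0) (p (nat_lit 0x800070806078a) (nat_lit 0) (p (nat_lit 0x800068785850a) (nat_lit 0) (p (nat_lit 0x587050682) (nat_lit 0) (p (nat_lit 0x506848402) (nat_lit 0) (p (nat_lit 0x160014) (nat_lit 0) (p (nat_lit 0x16000c) (nat_lit 0) (p (nat_lit 0x50612) (nat_lit 0) (p (nat_lit 0x40592) (nat_lit 0) (p (nat_lit 0x40492) (nat_lit 0) (p (nat_lit 0x30412) (nat_lit 0) (p (nat_lit 0x30212) (nat_lit 0) (p (nat_lit 0x20192) (nat_lit 0) (p (nat_lit 0x20092) (nat_lit 0) (p (nat_lit 0x10012) (nat_lit 0) pn)))))))))))))))))))))))))))))))))))))))) :=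
  Cl.node (nat_lit 0xc1) (nat_lit 2) (by decide +kernel) (ClAll.succ (ClAll.succ ClAll.zero s482) s483)

def n17 : Cl (O (nat_lit 1)) (R (nat_lit 104465))
    (p (nat_lit 0xc1) (nat_lit 0) (p (nat_lit 0xc0b8d0b0c9a) (nat_lit 0) (p (nat_lit 0xb8b0c8a8a1a) (nat_lit 0) (p (nat_lit 0x268c30b0c0a0b8a) (nat_lit 0) (p (nat_lit 0x268c30a8b89890a) (nat_lit 0) (p (nat_lit 0x180004) (nat_lit 0) (p (nat_lit 0xa8014) (nat_lit 0) (p (nat_lit 0xc8014) (nat_lit 0) (p (nat_lit 0x8400c) (nat_lit 0) (p (nat_lit 0x84014) (nat_lit 1) (p (nat_lit 0x108014) (nat_lit 0) (p (nat_lit 0x10800c) (nat_lit 0) (p (nat_lit 0x100004) (nat_lit 1) (p (nat_lit 0x200004) (nat_lit 0) (p (nat_lit 0x380c2) (nat_lit 0) (p (nat_lit 0x444aa) (nat_lit 7) (p (nat_lit 0xd1) (nat_lit 1) (p (nat_lit 0x111) (nat_lit 1) (p (nat_lit 0x109) (nat_lit 0) (p (nat_lit 0x101) (nat_lit 0) (p (nat_lit 0x119) (nat_lit 0) (p (nat_lit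 0xc9) (nat_lit 0) (p (nat_lit 0x89) (nat_lit 1) (p (nat_lit 0x41) (nat_lit 0) (p (nat_lit 0x8078907089a) (nat_lit 0) (p (nat_lit 0x7870886861a) (nat_lit 0) (p (nat_lit 0x800070806078a) (nat_lit 0) (p (nat_lit 0x800068785850a) (nat_lit 0) (p (nat_lit 0x587050682) (nat_lit 0) (p (nat_lit 0x506848402) (nat_lit 0) (p (nat_lit 0x160014) (nat_lit 0) (p (nat_lit 0x16000c) (nat_lit 0) (p (nat_lit 0x50612) (nat_lit 0) (p (nat_lit 0x40592) (nat_lit 0) (p (nat_lit 0x40492) (nat_lit 0) (p (nat_lit 0x30412) (nat_lit 0) (p (nat_lit 0x30212) (nat_lit 0) (p (nat_lit 0x20192) (nat_lit 0) (p (nat_lit 0x20092) (nat_lit 0) (p (nat_lit 0x10012) (nat_lit 0) pn)))))))))))))))))))))))))))))))))))))))) :=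
  Cl.node (nat_lit 0xc9) (nat_lit 2) (by decide +kernel) (ClAll.succ (ClAll.succ ClAll.zero s564) s565)

def n18 : Cl (O (nat_lit 1)) (R (nat_lit 104465))
    (p (nat_lit 0xc0b8d0b0c9a) (nat_lit 0) (p (nat_lit 0xb8b0c8a8a1a) (nat_lit 0) (p (nat_lit 0x3a9290b0c0a0b8a) (nat_lit 0) (p (nat_lit 0x3a9290a8b89890a) (nat_lit 0) (p (nat_lit 0x180004) (nat_lit 0) (p (nat_lit 0x6000c) (nat_lit 0) (p (nat_lit 0xa8014) (nat_lit 1) (p (nat_lit 0xc8014) (nat_lit 0) (p (nat_lit 0x8400c) (nat_lit 0) (p (nat_lit 0x84014) (nat_lit 1) (p (nat_lit 0x108014) (nat_lit 0) (p (nat_lit 0x10800c) (nat_lit 0) (p (nat_lit 0x100004) (nat_lit 1) (p (nat_lit 0x200004) (nat_lit 0) (p (nat_lit 0x380c2) (nat_lit 0) (p (nat_lit 0x444aa) (nat_lit 7) (p (nat_lit 0xd1) (nat_lit 1) (p (nat_lit 0x111) (nat_lit 1) (p (nat_lit 0x109) (nat_lit 0) (p (nat_lit 0x101) (nat_lit 0) (p (nat_lit 0x119) (nat_lit 0) (p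 (nat_lit 0xc9) (nat_lit 0) (p (nat_lit 0x89) (nat_lit 1) (p (nat_lit 0x41) (nat_lit 0) (p (nat_lit 0x8078907089a) (nat_lit 0) (p (nat_lit 0x7870886861a) (nat_lit 0) (p (nat_lit 0x800070806078a) (nat_lit 0) (p (nat_lit 0x800068785850a) (nat_lit 0) (p (nat_lit 0x587050682) (nat_lit 0) (p (nat_lit 0x506848402) (nat_lit 0) (p (nat_lit 0x160014) (nat_lit 0) (p (nat_lit 0x16000c) (nat_lit 0) (p (nat_lit 0x50612) (nat_lit 0) (p (nat_lit 0x40592) (nat_lit 0) (p (nat_lit 0x40492) (nat_lit 0) (p (nat_lit 0x30412) (nat_lit 0) (p (nat_lit 0x30212) (nat_lit 0) (p (nat_lit 0x20192) (nat_lit 0) (p (nat_lit 0x20092) (nat_lit 0) (p (nat_lit 0x10012) (nat_lit 0) pn)))))))))))))))))))))))))))))))))))))))) :=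
  Cl.node (nat_lit 0x41) (nat_lit 2) (by decide +kernel) (ClAll.succ (ClAll.succ ClAll.zero n12) s573)

def n19 : Cl (O (nat_lit 1)) (R (nat_lit 104465))
    (p (nat_lit 0xc0b8d0b0c9a) (nat_lit 0) (p (nat_lit 0xb8b0c8a8a1a) (nat_lit 0) (p (nat_lit 0x5298b0b0c0a0b8a) (nat_lit 0) (p (nat_lit 0x5298b0a8b89890a) (nat_lit 0) (p (nat_lit 0x15c004) (nat_lit 0) (p (nat_lit 0x4000c) (nat_lit 0) (p (nat_lit 0x1b4004) (nat_lit 0) (p (nat_lit 0xc8014) (nat_lit 1) (p (nat_lit 0x8400c) (nat_lit 0) (p (nat_lit 0x84014) (nat_lit 1) (p (nat_lit 0x108014) (nat_lit 0) (p (nat_lit 0x10800c) (nat_lit 0) (p (nat_lit 0x100004) (nat_lit 1) (p (nat_lit 0x200004) (nat_lit 0) (p (nat_lit 0x380c2) (nat_lit 0) (p (nat_lit 0x444aa) (nat_lit 7) (p (nat_lit 0xd1) (nat_lit 1) (p (nat_lit 0x111) (nat_lit 1) (p (nat_lit 0x109) (nat_lit 0) (p (nat_lit 0x101) (nat_lit 0) (p (nat_lit 0x119) (nat_lit 0) (p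 (nat_lit 0xc9) (nat_lit 0) (p (nat_lit 0x89) (nat_lit 1) (p (nat_lit 0x41) (nat_lit 0) (p (nat_lit 0x8078907089a) (nat_lit 0) (p (nat_lit 0x7870886861a) (nat_lit 0) (p (nat_lit 0x800070806078a) (nat_lit 0) (p (nat_lit 0x800068785850a) (nat_lit 0) (p (nat_lit 0x587050682) (nat_lit 0) (p (nat_lit 0x506848402) (nat_lit 0) (p (nat_lit 0x160014) (nat_lit 0) (p (nat_lit 0x16000c) (nat_lit 0) (p (nat_lit 0x50612) (nat_lit 0) (p (nat_lit 0x40592) (nat_lit 0) (p (nat_lit 0x40492) (nat_lit 0) (p (nat_lit 0x30412) (nat_lit 0) (p (nat_lit 0x30212) (nat_lit 0) (p (nat_lit 0x20192) (nat_lit 0) (p (nat_lit 0x20092) (nat_lit 0) (p (nat_lit 0x10012) (nat_lit 0) pn)))))))))))))))))))))))))))))))))))))))) :=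
  Cl.node (nat_lit 0x41) (nat_lit 2) (by decide +kernel) (ClAll.succ (ClAll.succ ClAll.zero n13) s616)

def n20 : Cl (O (nat_lit 1)) (R (nat_lit 104465))
    (p (nat_lit 0xd8d0e8c8c1a) (nat_lit 0) (p (nat_lit 0x1081e0d0e0c0d8a) (nat_lit 0) (p (nat_lit 0x1081e0c8d8b8b0a) (nat_lit 0) (p (nat_lit 0x80004) (nat_lit 1) (p (nat_lit 0x5800c) (nat_lit 1) (p (nat_lit 0x89) (nat_lit 1) (p (nat_lit 0x41) (nat_lit 0) (p (nat_lit 0xb000c) (nat_lit 0) (p (nat_lit 0xb0014) (nat_lit 0) (p (nat_lit 0x380c2) (nat_lit 0) (p (nat_lit 0x3cc2a) (nat_lit 2) (p (nat_lit 0x100004) (nat_lit 0) (p (nat_lit 0x200004) (nat_lit 0) (p (nat_lit 0x380c2) (nat_lit 1) (p (nat_lit 0x4c42a) (nat_lit 10) (p (nat_lit 0x119) (nat_lit 1) (p (nat_lit 0xc9) (nat_lit 0) (p (nat_lit 0x89) (nat_lit 1) (p (nat_lit 0x109) (nat_lit 1) (p (nat_lit 0x101) (nat_lit 0) (p (nat_lit 0x111) (nat_lit 0) (p (nat_lit 0xd1) (nat_lit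 1) (p (nat_lit 0x81) (nat_lit 0) (p (nat_lit 0x41) (nat_lit 1) (p (nat_lit 0x8078907089a) (nat_lit 0) (p (nat_lit 0x7870886861a) (nat_lit 0) (p (nat_lit 0x800070806078a) (nat_lit 0) (p (nat_lit 0x800068785850a) (nat_lit 0) (p (nat_lit 0x587050682) (nat_lit 0) (p (nat_lit 0x506848402) (nat_lit 0) (p (nat_lit 0x160014) (nat_lit 0) (p (nat_lit 0x16000c) (nat_lit 0) (p (nat_lit 0x50612) (nat_lit 0) (p (nat_lit 0x40592) (nat_lit 0) (p (nat_lit 0x40492) (nat_lit 0) (p (nat_lit 0x30412) (nat_lit 0) (p (nat_lit 0x30212) (nat_lit 0) (p (nat_lit 0x20192) (nat_lit 0) (p (nat_lit 0x20092) (nat_lit 0) (p (nat_lit 0x10012) (nat_lit 0) pn)))))))))))))))))))))))))))))))))))))))) :=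
  Cl.node (nat_lit 0xe0d8f0d0e9a) (nat_lit 1) (by decide +kernel) (ClAll.succ ClAll.zero n14)

def n21 : Cl (O (nat_lit 1)) (R (nat_lit 104465))
    (p (nat_lit 0x13400c) (nat_lit 0) (p (nat_lit 0x80004) (nat_lit 1) (p (nat_lit 0x100004) (nat_lit 0) (p (nat_lit 0xc9) (nat_lit 1) (p (nat_lit 0xd1) (nat_lit 0) (p (nat_lit 0x81) (nat_lit 0) (p (nat_lit 0xc0b8d0b0c9a) (nat_lit 0) (p (nat_lit 0xb8b0c8a8a1a) (nat_lit 0) (p (nat_lit 0x2a8258b0c0a0b8a) (nat_lit 0) (p (nat_lit 0x2a8258a8b89890a) (nat_lit 0) (p (nat_lit 0xb0014) (nat_lit 0) (p (nat_lit 0x1fc004) (nat_lit 0) (p (nat_lit 0xb000c) (nat_lit 1) (p (nat_lit 0x101) (nat_lit 0) (p (nat_lit 0x380c2) (nat_lit 0) (p (nat_lit 0x3cc2a) (nat_lit 2) (p (nat_lit 0x109) (nat_lit 1) (p (nat_lit 0xc9) (nat_lit 1) (p (nat_lit 0xc1) (nat_lit 0) (p (nat_lit 0x119) (nat_lit 1) (p (nat_lit 0xd1) (nat_lit 0) (p (nat_lit 0x89) (nat_lit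 0) (p (nat_lit 0x41) (nat_lit 0) (p (nat_lit 0x8078907089a) (nat_lit 0) (p (nat_lit 0x7870886861a) (nat_lit 0) (p (nat_lit 0x800070806078a) (nat_lit 0) (p (nat_lit 0x800068785850a) (nat_lit 0) (p (nat_lit 0x587050682) (nat_lit 0) (p (nat_lit 0x506848402) (nat_lit 0) (p (nat_lit 0x160014) (nat_lit 0) (p (nat_lit 0x16000c) (nat_lit 0) (p (nat_lit 0x50612) (nat_lit 0) (p (nat_lit 0x40592) (nat_lit 0) (p (nat_lit 0x40492) (nat_lit 0) (p (nat_lit 0x30412) (nat_lit 0) (p (nat_lit 0x30212) (nat_lit 0) (p (nat_lit 0x20192) (nat_lit 0) (p (nat_lit 0x20092) (nat_lit 0) (p (nat_lit 0x10012) (nat_lit 0) pn))))))))))))))))))))))))))))))))))))))) :=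
  Cl.node (nat_lit 0x84014) (nat_lit 2) (by decide +kernel) (ClAll.succ (ClAll.succ ClAll.zero n15) s251)

def n22 : Cl (O (nat_lit 1)) (R (nat_lit 104465))
    (p (nat_lit 0xd8d0e8c8c1a) (nat_lit 0) (p (nat_lit 0x2680d0d0e0c0d8a) (nat_lit 0) (p (nat_lit 0x2680d0c8d8b8b0a) (nat_lit 0) (p (nat_lit 0x58014) (nat_lit 0) (p (nat_lit 0xb000c) (nat_lit 1) (p (nat_lit 0x81) (nat_lit 1) (p (nat_lit 0x41) (nat_lit 1) (p (nat_lit 0x100004) (nat_lit 0) (p (nat_lit 0x200004) (nat_lit 0) (p (nat_lit 0x380c2) (nat_lit 0) (p (nat_lit 0x4c42a) (nat_lit 10) (p (nat_lit 0x89) (nat_lit 0) (p (nat_lit 0xb0014) (nat_lit 0) (p (nat_lit 0x380c2) (nat_lit 0) (p (nat_lit 0x3cc2a) (nat_lit 2) (p (nat_lit 0x119) (nat_lit 1) (p (nat_lit 0xc1) (nat_lit 0) (p (nat_lit 0x81) (nat_lit 1) (p (nat_lit 0x101) (nat_lit 1) (p (nat_lit 0x111) (nat_lit 0) (p (nat_lit 0xd1) (nat_lit 1) (p (nat_lit 0x89) (nat_lit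 0) (p (nat_lit 0x41) (nat_lit 0) (p (nat_lit 0x8078907089a) (nat_lit 0) (p (nat_lit 0x7870886861a) (nat_lit 0) (p (nat_lit 0x800070806078a) (nat_lit 0) (p (nat_lit 0x800068785850a) (nat_lit 0) (p (nat_lit 0x587050682) (nat_lit 0) (p (nat_lit 0x506848402) (nat_lit 0) (p (nat_lit 0x160014) (nat_lit 0) (p (nat_lit 0x16000c) (nat_lit 0) (p (nat_lit 0x50612) (nat_lit 0) (p (nat_lit 0x40592) (nat_lit 0) (p (nat_lit 0x40492) (nat_lit 0) (p (nat_lit 0x30412) (nat_lit 0) (p (nat_lit 0x30212) (nat_lit 0) (p (nat_lit 0x20192) (nat_lit 0) (p (nat_lit 0x20092) (nat_lit 0) (p (nat_lit 0x10012) (nat_lit 0) pn))))))))))))))))))))))))))))))))))))))) :=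
  Cl.node (nat_lit 0xe0d8f0d0e9a) (nat_lit 1) (by decide +kernel) (ClAll.succ ClAll.zero n16)

def n23 : Cl (O (nat_lit 1)) (R (nat_lit 104465))
    (p (nat_lit 0xc0b8d0b0c9a) (nat_lit 0) (p (nat_lit 0xb8b0c8a8a1a) (nat_lit 0) (p (nat_lit 0x268c30b0c0a0b8a) (nat_lit 0) (p (nat_lit 0x268c30a8b89890a) (nat_lit 0) (p (nat_lit 0x180004) (nat_lit 0) (p (nat_lit 0xa8014) (nat_lit 0) (p (nat_lit 0xc8014) (nat_lit 0) (p (nat_lit 0x8400c) (nat_lit 0) (p (nat_lit 0x84014) (nat_lit 1) (p (nat_lit 0x108014) (nat_lit 0) (p (nat_lit 0x10800c) (nat_lit 0) (p (nat_lit 0x100004) (nat_lit 1) (p (nat_lit 0x200004) (nat_lit 0) (p (nat_lit 0x380c2) (nat_lit 0) (p (nat_lit 0x444aa) (nat_lit 7) (p (nat_lit 0xd1) (nat_lit 1) (p (nat_lit 0x111) (nat_lit 1) (p (nat_lit 0x109) (nat_lit 0) (p (nat_lit 0x101) (nat_lit 0) (p (nat_lit 0x119) (nat_lit 0) (p (nat_lit 0xc9) (nat_lit 0) (p (nat_lit 0x89)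 (nat_lit 1) (p (nat_lit 0x41) (nat_lit 0) (p (nat_lit 0x8078907089a) (nat_lit 0) (p (nat_lit 0x7870886861a) (nat_lit 0) (p (nat_lit 0x800070806078a) (nat_lit 0) (p (nat_lit 0x800068785850a) (nat_lit 0) (p (nat_lit 0x587050682) (nat_lit 0) (p (nat_lit 0x506848402) (nat_lit 0) (p (nat_lit 0x160014) (nat_lit 0) (p (nat_lit 0x16000c) (nat_lit 0) (p (nat_lit 0x50612) (nat_lit 0) (p (nat_lit 0x40592) (nat_lit 0) (p (nat_lit 0x40492) (nat_lit 0) (p (nat_lit 0x30412) (nat_lit 0) (p (nat_lit 0x30212) (nat_lit 0) (p (nat_lit 0x20192) (nat_lit 0) (p (nat_lit 0x20092) (nat_lit 0) (p (nat_lit 0x10012) (nat_lit 0) pn))))))))))))))))))))))))))))))))))))))) :=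
  Cl.node (nat_lit 0xc1) (nat_lit 2) (by decide +kernel) (ClAll.succ (ClAll.succ ClAll.zero n17) s566)

def n24 : Cl (O (nat_lit 1)) (R (nat_lit 104465))
    (p (nat_lit 0xb8b0c8a8a1a) (nat_lit 0) (p (nat_lit 0x3a9290b0c0a0b8a) (nat_lit 0) (p (nat_lit 0x3a9290a8b89890a) (nat_lit 0) (p (nat_lit 0x180004) (nat_lit 0) (p (nat_lit 0x6000c) (nat_lit 0) (p (nat_lit 0xa8014) (nat_lit 1) (p (nat_lit 0xc8014) (nat_lit 0) (p (nat_lit 0x8400c) (nat_lit 0) (p (nat_lit 0x84014) (nat_lit 1) (p (nat_lit 0x108014) (nat_lit 0) (p (nat_lit 0x10800c) (nat_lit 0) (p (nat_lit 0x100004) (nat_lit 1) (p (nat_lit 0x200004) (nat_lit 0) (p (nat_lit 0x380c2) (nat_lit 0) (p (nat_lit 0x444aa) (nat_lit 7) (p (nat_lit 0xd1) (nat_lit 1) (p (nat_lit 0x111) (nat_lit 1) (p (nat_lit 0x109) (nat_lit 0) (p (nat_lit 0x101) (nat_lit 0) (p (nat_lit 0x119) (nat_lit 0) (p (nat_lit 0xc9) (nat_lit 0) (p (nat_lit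 0x89) (nat_lit 1) (p (nat_lit 0x41) (nat_lit 0) (p (nat_lit 0x8078907089a) (nat_lit 0) (p (nat_lit 0x7870886861a) (nat_lit 0) (p (nat_lit 0x800070806078a) (nat_lit 0) (p (nat_lit 0x800068785850a) (nat_lit 0) (p (nat_lit 0x587050682) (nat_lit 0) (p (nat_lit 0x506848402) (nat_lit 0) (p (nat_lit 0x160014) (nat_lit 0) (p (nat_lit 0x16000c) (nat_lit 0) (p (nat_lit 0x50612) (nat_lit 0) (p (nat_lit 0x40592) (nat_lit 0) (p (nat_lit 0x40492) (nat_lit 0) (p (nat_lit 0x30412) (nat_lit 0) (p (nat_lit 0x30212) (nat_lit 0) (p (nat_lit 0x20192) (nat_lit 0) (p (nat_lit 0x20092) (nat_lit 0) (p (nat_lit 0x10012) (nat_lit 0) pn))))))))))))))))))))))))))))))))))))))) :=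
  Cl.node (nat_lit 0xc0b8d0b0c9a) (nat_lit 1) (by decide +kernel) (ClAll.succ ClAll.zero n18)

def n25 : Cl (O (nat_lit 1)) (R (nat_lit 104465))
    (p (nat_lit 0xb8b0c8a8a1a) (nat_lit 0) (p (nat_lit 0x5298b0b0c0a0b8a) (nat_lit 0) (p (nat_lit 0x5298b0a8b89890a) (nat_lit 0) (p (nat_lit 0x15c004) (nat_lit 0) (p (nat_lit 0x4000c) (nat_lit 0) (p (nat_lit 0x1b4004) (nat_lit 0) (p (nat_lit 0xc8014) (nat_lit 1) (p (nat_lit 0x8400c) (nat_lit 0) (p (nat_lit 0x84014) (nat_lit 1) (p (nat_lit 0x108014) (nat_lit 0) (p (nat_lit 0x10800c) (nat_lit 0) (p (nat_lit 0x100004) (nat_lit 1) (p (nat_lit 0x200004) (nat_lit 0) (p (nat_lit 0x380c2) (nat_lit 0) (p (nat_lit 0x444aa) (nat_lit 7) (p (nat_lit 0xd1) (nat_lit 1) (p (nat_lit 0x111) (nat_lit 1) (p (nat_lit 0x109) (nat_lit 0) (p (nat_lit 0x101) (nat_lit 0) (p (nat_lit 0x119) (nat_lit 0) (p (nat_lit 0xc9) (nat_lit 0) (p (nat_lit 0x89) (nat_lit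 1) (p (nat_lit 0x41) (nat_lit 0) (p (nat_lit 0x8078907089a) (nat_lit 0) (p (nat_lit 0x7870886861a) (nat_lit 0) (p (nat_lit 0x800070806078a) (nat_lit 0) (p (nat_lit 0x800068785850a) (nat_lit 0) (p (nat_lit 0x587050682) (nat_lit 0) (p (nat_lit 0x506848402) (nat_lit 0) (p (nat_lit 0x160014) (nat_lit 0) (p (nat_lit 0x16000c) (nat_lit 0) (p (nat_lit 0x50612) (nat_lit 0) (p (nat_lit 0x40592) (nat_lit 0) (p (nat_lit 0x40492) (nat_lit 0) (p (nat_lit 0x30412) (nat_lit 0) (p (nat_lit 0x30212) (nat_lit 0) (p (nat_lit 0x20192) (nat_lit 0) (p (nat_lit 0x20092) (nat_lit 0) (p (nat_lit 0x10012) (nat_lit 0) pn))))))))))))))))))))))))))))))))))))))) :=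
  Cl.node (nat_lit 0xc0b8d0b0c9a) (nat_lit 1) (by decide +kernel) (ClAll.succ ClAll.zero n19)

def n26 : Cl (O (nat_lit 1)) (R (nat_lit 104465))
    (p (nat_lit 0x1081e0d0e0c0d8a) (nat_lit 0) (p (nat_lit 0x1081e0c8d8b8b0a) (nat_lit 0) (p (nat_lit 0x80004) (nat_lit 1) (p (nat_lit 0x5800c) (nat_lit 1) (p (nat_lit 0x89) (nat_lit 1) (p (nat_lit 0x41) (nat_lit 0) (p (nat_lit 0xb000c) (nat_lit 0) (p (nat_lit 0xb0014) (nat_lit 0) (p (nat_lit 0x380c2) (nat_lit 0) (p (nat_lit 0x3cc2a) (nat_lit 2) (p (nat_lit 0x100004) (nat_lit 0) (p (nat_lit 0x200004) (nat_lit 0) (p (nat_lit 0x380c2) (nat_lit 1) (p (nat_lit 0x4c42a) (nat_lit 10) (p (nat_lit 0x119) (nat_lit 1) (p (nat_lit 0xc9) (nat_lit 0) (p (nat_lit 0x89) (nat_lit 1) (p (nat_lit 0x109) (nat_lit 1) (p (nat_lit 0x101) (nat_lit 0) (p (nat_lit 0x111) (nat_lit 0) (p (nat_lit 0xd1) (nat_lit 1) (p (nat_lit 0x81) (nat_lit 0) (p (nat_lit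 0x41) (nat_lit 1) (p (nat_lit 0x8078907089a) (nat_lit 0) (p (nat_lit 0x7870886861a) (nat_lit 0) (p (nat_lit 0x800070806078a) (nat_lit 0) (p (nat_lit 0x800068785850a) (nat_lit 0) (p (nat_lit 0x587050682) (nat_lit 0) (p (nat_lit 0x506848402) (nat_lit 0) (p (nat_lit 0x160014) (nat_lit 0) (p (nat_lit 0x16000c) (nat_lit 0) (p (nat_lit 0x50612) (nat_lit 0) (p (nat_lit 0x40592) (nat_lit 0) (p (nat_lit 0x40492) (nat_lit 0) (p (nat_lit 0x30412) (nat_lit 0) (p (nat_lit 0x30212) (nat_lit 0) (p (nat_lit 0x20192) (nat_lit 0) (p (nat_lit 0x20092) (nat_lit 0) (p (nat_lit 0x10012) (nat_lit 0) pn))))))))))))))))))))))))))))))))))))))) :=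
  Cl.node (nat_lit 0xd8d0e8c8c1a) (nat_lit 1) (by decide +kernel) (ClAll.succ ClAll.zero n20)

def n27 : Cl (O (nat_lit 1)) (R (nat_lit 104465))
    (p (nat_lit 0xc0b8d0b0c9a) (nat_lit 0) (p (nat_lit 0xb8b0c8a8a1a) (nat_lit 0) (p (nat_lit 0x268c30b0c0a0b8a) (nat_lit 0) (p (nat_lit 0x268c30a8b89890a) (nat_lit 0) (p (nat_lit 0x180004) (nat_lit 0) (p (nat_lit 0x84014) (nat_lit 1) (p (nat_lit 0x81) (nat_lit 0) (p (nat_lit 0x8400c) (nat_lit 0) (p (nat_lit 0x108014) (nat_lit 0) (p (nat_lit 0x10800c) (nat_lit 0) (p (nat_lit 0x100004) (nat_lit 1) (p (nat_lit 0x200004) (nat_lit 0) (p (nat_lit 0x380c2) (nat_lit 0) (p (nat_lit 0x444aa) (nat_lit 7) (p (nat_lit 0x81) (nat_lit 1) (p (nat_lit 0xc9) (nat_lit 1) (p (nat_lit 0x109) (nat_lit 1) (p (nat_lit 0x101) (nat_lit 0) (p (nat_lit 0x119) (nat_lit 0) (p (nat_lit 0xd1) (nat_lit 0) (p (nat_lit 0x89) (nat_lit 0) (p (nat_lit 0x41) (nat_lit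 0) (p (nat_lit 0x8078907089a) (nat_lit 0) (p (nat_lit 0x7870886861a) (nat_lit 0) (p (nat_lit 0x800070806078a) (nat_lit 0) (p (nat_lit 0x800068785850a) (nat_lit 0) (p (nat_lit 0x587050682) (nat_lit 0) (p (nat_lit 0x506848402) (nat_lit 0) (p (nat_lit 0x160014) (nat_lit 0) (p (nat_lit 0x16000c) (nat_lit 0) (p (nat_lit 0x50612) (nat_lit 0) (p (nat_lit 0x40592) (nat_lit 0) (p (nat_lit 0x40492) (nat_lit 0) (p (nat_lit 0x30412) (nat_lit 0) (p (nat_lit 0x30212) (nat_lit 0) (p (nat_lit 0x20192) (nat_lit 0) (p (nat_lit 0x20092) (nat_lit 0) (p (nat_lit 0x10012) (nat_lit 0) pn)))))))))))))))))))))))))))))))))))))) :=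
  Cl.node (nat_lit 0x111) (nat_lit 2) (by decide +kernel) (ClAll.succ (ClAll.succ ClAll.zero s57) s58)

def n28 : Cl (O (nat_lit 1)) (R (nat_lit 104465))
    (p (nat_lit 0x80004) (nat_lit 1) (p (nat_lit 0x100004) (nat_lit 0) (p (nat_lit 0xc9) (nat_lit 1) (p (nat_lit 0xd1) (nat_lit 0) (p (nat_lit 0x81) (nat_lit 0) (p (nat_lit 0xc0b8d0b0c9a) (nat_lit 0) (p (nat_lit 0xb8b0c8a8a1a) (nat_lit 0) (p (nat_lit 0x2a8258b0c0a0b8a) (nat_lit 0) (p (nat_lit 0x2a8258a8b89890a) (nat_lit 0) (p (nat_lit 0xb0014) (nat_lit 0) (p (nat_lit 0x1fc004) (nat_lit 0) (p (nat_lit 0xb000c) (nat_lit 1) (p (nat_lit 0x101) (nat_lit 0) (p (nat_lit 0x380c2) (nat_lit 0) (p (nat_lit 0x3cc2a) (nat_lit 2) (p (nat_lit 0x109) (nat_lit 1) (p (nat_lit 0xc9) (nat_lit 1) (p (nat_lit 0xc1) (nat_lit 0) (p (nat_lit 0x119) (nat_lit 1) (p (nat_lit 0xd1) (nat_lit 0) (p (nat_lit 0x89) (nat_lit 0) (p (nat_lit 0x41) (nat_lit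 0) (p (nat_lit 0x8078907089a) (nat_lit 0) (p (nat_lit 0x7870886861a) (nat_lit 0) (p (nat_lit 0x800070806078a) (nat_lit 0) (p (nat_lit 0x800068785850a) (nat_lit 0) (p (nat_lit 0x587050682) (nat_lit 0) (p (nat_lit 0x506848402) (nat_lit 0) (p (nat_lit 0x160014) (nat_lit 0) (p (nat_lit 0x16000c) (nat_lit 0) (p (nat_lit 0x50612) (nat_lit 0) (p (nat_lit 0x40592) (nat_lit 0) (p (nat_lit 0x40492) (nat_lit 0) (p (nat_lit 0x30412) (nat_lit 0) (p (nat_lit 0x30212) (nat_lit 0) (p (nat_lit 0x20192) (nat_lit 0) (p (nat_lit 0x20092) (nat_lit 0) (p (nat_lit 0x10012) (nat_lit 0) pn)))))))))))))))))))))))))))))))))))))) :=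
  Cl.node (nat_lit 0x13400c) (nat_lit 2) (by decide +kernel) (ClAll.succ (ClAll.succ ClAll.zero n21) s252)

def n29 : Cl (O (nat_lit 1)) (R (nat_lit 104465))
    (p (nat_lit 0x2680d0d0e0c0d8a) (nat_lit 0) (p (nat_lit 0x2680d0c8d8b8b0a) (nat_lit 0) (p (nat_lit 0x58014) (nat_lit 0) (p (nat_lit 0xb000c) (nat_lit 1) (p (nat_lit 0x81) (nat_lit 1) (p (nat_lit 0x41) (nat_lit 1) (p (nat_lit 0x100004) (nat_lit 0) (p (nat_lit 0x200004) (nat_lit 0) (p (nat_lit 0x380c2) (nat_lit 0) (p (nat_lit 0x4c42a) (nat_lit 10) (p (nat_lit 0x89) (nat_lit 0) (p (nat_lit 0xb0014) (nat_lit 0) (p (nat_lit 0x380c2) (nat_lit 0) (p (nat_lit 0x3cc2a) (nat_lit 2) (p (nat_lit 0x119) (nat_lit 1) (p (nat_lit 0xc1) (nat_lit 0) (p (nat_lit 0x81) (nat_lit 1) (p (nat_lit 0x101) (nat_lit 1) (p (nat_lit 0x111) (nat_lit 0) (p (nat_lit 0xd1) (nat_lit 1) (p (nat_lit 0x89) (nat_lit 0) (p (nat_lit 0x41) (nat_lit 0)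 (p (nat_lit 0x8078907089a) (nat_lit 0) (p (nat_lit 0x7870886861a) (nat_lit 0) (p (nat_lit 0x800070806078a) (nat_lit 0) (p (nat_lit 0x800068785850a) (nat_lit 0) (p (nat_lit 0x587050682) (nat_lit 0) (p (nat_lit 0x506848402) (nat_lit 0) (p (nat_lit 0x160014) (nat_lit 0) (p (nat_lit 0x16000c) (nat_lit 0) (p (nat_lit 0x50612) (nat_lit 0) (p (nat_lit 0x40592) (nat_lit 0) (p (nat_lit 0x40492) (nat_lit 0) (p (nat_lit 0x30412) (nat_lit 0) (p (nat_lit 0x30212) (nat_lit 0) (p (nat_lit 0x20192) (nat_lit 0) (p (nat_lit 0x20092) (nat_lit 0) (p (nat_lit 0x10012) (nat_lit 0) pn)))))))))))))))))))))))))))))))))))))) :=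
  Cl.node (nat_lit 0xd8d0e8c8c1a) (nat_lit 1) (by decide +kernel) (ClAll.succ ClAll.zero n22)

def n30 : Cl (O (nat_lit 1)) (R (nat_lit 104465))
    (p (nat_lit 0xb8b0c8a8a1a) (nat_lit 0) (p (nat_lit 0x268c30b0c0a0b8a) (nat_lit 0) (p (nat_lit 0x268c30a8b89890a) (nat_lit 0) (p (nat_lit 0x180004) (nat_lit 0) (p (nat_lit 0xa8014) (nat_lit 0) (p (nat_lit 0xc8014) (nat_lit 0) (p (nat_lit 0x8400c) (nat_lit 0) (p (nat_lit 0x84014) (nat_lit 1) (p (nat_lit 0x108014) (nat_lit 0) (p (nat_lit 0x10800c) (nat_lit 0) (p (nat_lit 0x100004) (nat_lit 1) (p (nat_lit 0x200004) (nat_lit 0) (p (nat_lit 0x380c2) (nat_lit 0) (p (nat_lit 0x444aa) (nat_lit 7) (p (nat_lit 0xd1) (nat_lit 1) (p (nat_lit 0x111) (nat_lit 1) (p (nat_lit 0x109) (nat_lit 0) (p (nat_lit 0x101) (nat_lit 0) (p (nat_lit 0x119) (nat_lit 0) (p (nat_lit 0xc9) (nat_lit 0) (p (nat_lit 0x89) (nat_lit 1) (p (nat_lit 0x41) (nat_lit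 0) (p (nat_lit 0x8078907089a) (nat_lit 0) (p (nat_lit 0x7870886861a) (nat_lit 0) (p (nat_lit 0x800070806078a) (nat_lit 0) (p (nat_lit 0x800068785850a) (nat_lit 0) (p (nat_lit 0x587050682) (nat_lit 0) (p (nat_lit 0x506848402) (nat_lit 0) (p (nat_lit 0x160014) (nat_lit 0) (p (nat_lit 0x16000c) (nat_lit 0) (p (nat_lit 0x50612) (nat_lit 0) (p (nat_lit 0x40592) (nat_lit 0) (p (nat_lit 0x40492) (nat_lit 0) (p (nat_lit 0x30412) (nat_lit 0) (p (nat_lit 0x30212) (nat_lit 0) (p (nat_lit 0x20192) (nat_lit 0) (p (nat_lit 0x20092) (nat_lit 0) (p (nat_lit 0x10012) (nat_lit 0) pn)))))))))))))))))))))))))))))))))))))) :=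
  Cl.node (nat_lit 0xc0b8d0b0c9a) (nat_lit 1) (by decide +kernel) (ClAll.succ ClAll.zero n23)

def n31 : Cl (O (nat_lit 1)) (R (nat_lit 104465))
    (p (nat_lit 0x3a9290b0c0a0b8a) (nat_lit 0) (p (nat_lit 0x3a9290a8b89890a) (nat_lit 0) (p (nat_lit 0x180004) (nat_lit 0) (p (nat_lit 0x6000c) (nat_lit 0) (p (nat_lit 0xa8014) (nat_lit 1) (p (nat_lit 0xc8014) (nat_lit 0) (p (nat_lit 0x8400c) (nat_lit 0) (p (nat_lit 0x84014) (nat_lit 1) (p (nat_lit 0x108014) (nat_lit 0) (p (nat_lit 0x10800c) (nat_lit 0) (p (nat_lit 0x100004) (nat_lit 1) (p (nat_lit 0x200004) (nat_lit 0) (p (nat_lit 0x380c2) (nat_lit 0) (p (nat_lit 0x444aa) (nat_lit 7) (p (nat_lit 0xd1) (nat_lit 1) (p (nat_lit 0x111) (nat_lit 1) (p (nat_lit 0x109) (nat_lit 0) (p (nat_lit 0x101) (nat_lit 0) (p (nat_lit 0x119) (nat_lit 0) (p (nat_lit 0xc9) (nat_lit 0) (p (nat_lit 0x89) (nat_lit 1) (p (nat_lit 0x41) (nat_lit 0)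 (p (nat_lit 0x8078907089a) (nat_lit 0) (p (nat_lit 0x7870886861a) (nat_lit 0) (p (nat_lit 0x800070806078a) (nat_lit 0) (p (nat_lit 0x800068785850a) (nat_lit 0) (p (nat_lit 0x587050682) (nat_lit 0) (p (nat_lit 0x506848402) (nat_lit 0) (p (nat_lit 0x160014) (nat_lit 0) (p (nat_lit 0x16000c) (nat_lit 0) (p (nat_lit 0x50612) (nat_lit 0) (p (nat_lit 0x40592) (nat_lit 0) (p (nat_lit 0x40492) (nat_lit 0) (p (nat_lit 0x30412) (nat_lit 0) (p (nat_lit 0x30212) (nat_lit 0) (p (nat_lit 0x20192) (nat_lit 0) (p (nat_lit 0x20092) (nat_lit 0) (p (nat_lit 0x10012) (nat_lit 0) pn)))))))))))))))))))))))))))))))))))))) :=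
  Cl.node (nat_lit 0xb8b0c8a8a1a) (nat_lit 1) (by decide +kernel) (ClAll.succ ClAll.zero n24)

def n32 : Cl (O (nat_lit 1)) (R (nat_lit 104465))
    (p (nat_lit 0x5298b0b0c0a0b8a) (nat_lit 0) (p (nat_lit 0x5298b0a8b89890a) (nat_lit 0) (p (nat_lit 0x15c004) (nat_lit 0) (p (nat_lit 0x4000c) (nat_lit 0) (p (nat_lit 0x1b4004) (nat_lit 0) (p (nat_lit 0xc8014) (nat_lit 1) (p (nat_lit 0x8400c) (nat_lit 0) (p (nat_lit 0x84014) (nat_lit 1) (p (nat_lit 0x108014) (nat_lit 0) (p (nat_lit 0x10800c) (nat_lit 0) (p (nat_lit 0x100004) (nat_lit 1) (p (nat_lit 0x200004) (nat_lit 0) (p (nat_lit 0x380c2) (nat_lit 0) (p (nat_lit 0x444aa) (nat_lit 7) (p (nat_lit 0xd1) (nat_lit 1) (p (nat_lit 0x111) (nat_lit 1) (p (nat_lit 0x109) (nat_lit 0) (p (nat_lit 0x101) (nat_lit 0) (p (nat_lit 0x119) (nat_lit 0) (p (nat_lit 0xc9) (nat_lit 0) (p (nat_lit 0x89) (nat_lit 1) (p (nat_lit 0x41) (nat_lit 0)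 (p (nat_lit 0x8078907089a) (nat_lit 0) (p (nat_lit 0x7870886861a) (nat_lit 0) (p (nat_lit 0x800070806078a) (nat_lit 0) (p (nat_lit 0x800068785850a) (nat_lit 0) (p (nat_lit 0x587050682) (nat_lit 0) (p (nat_lit 0x506848402) (nat_lit 0) (p (nat_lit 0x160014) (nat_lit 0) (p (nat_lit 0x16000c) (nat_lit 0) (p (nat_lit 0x50612) (nat_lit 0) (p (nat_lit 0x40592) (nat_lit 0) (p (nat_lit 0x40492) (nat_lit 0) (p (nat_lit 0x30412) (nat_lit 0) (p (nat_lit 0x30212) (nat_lit 0) (p (nat_lit 0x20192) (nat_lit 0) (p (nat_lit 0x20092) (nat_lit 0) (p (nat_lit 0x10012) (nat_lit 0) pn)))))))))))))))))))))))))))))))))))))) :=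
  Cl.node (nat_lit 0xb8b0c8a8a1a) (nat_lit 1) (by decide +kernel) (ClAll.succ ClAll.zero n25)

def n33 : Cl (O (nat_lit 1)) (R (nat_lit 104465))
    (p (nat_lit 0x119) (nat_lit 0) (p (nat_lit 0x111) (nat_lit 0) (p (nat_lit 0x109) (nat_lit 0) (p (nat_lit 0x41) (nat_lit 0) (p (nat_lit 0xc0b8d0b0c9a) (nat_lit 0) (p (nat_lit 0xb8b0c8a8a1a) (nat_lit 0) (p (nat_lit 0xe80d8b0c0a0b8a) (nat_lit 0) (p (nat_lit 0xe80d8a8b89890a) (nat_lit 0) (p (nat_lit 0x10800c) (nat_lit 0) (p (nat_lit 0x58014) (nat_lit 1) (p (nat_lit 0xb0014) (nat_lit 0) (p (nat_lit 0x380c2) (nat_lit 0) (p (nat_lit 0x44c2a) (nat_lit 1) (p (nat_lit 0x41) (nat_lit 0) (p (nat_lit 0x200004) (nat_lit 0) (p (nat_lit 0xd1) (nat_lit 0) (p (nat_lit 0x109) (nat_lit 1) (p (nat_lit 0x101) (nat_lit 0) (p (nat_lit 0x119) (nat_lit 0) (p (nat_lit 0xc9) (nat_lit 0) (p (nat_lit 0x89) (nat_lit 1) (p (nat_lit 0x41) (nat_lit 0) (p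 (nat_lit 0x8078907089a) (nat_lit 0) (p (nat_lit 0x7870886861a) (nat_lit 0) (p (nat_lit 0x800070806078a) (nat_lit 0) (p (nat_lit 0x800068785850a) (nat_lit 0) (p (nat_lit 0x587050682) (nat_lit 0) (p (nat_lit 0x506848402) (nat_lit 0) (p (nat_lit 0x160014) (nat_lit 0) (p (nat_lit 0x16000c) (nat_lit 0) (p (nat_lit 0x50612) (nat_lit 0) (p (nat_lit 0x40592) (nat_lit 0) (p (nat_lit 0x40492) (nat_lit 0) (p (nat_lit 0x30412) (nat_lit 0) (p (nat_lit 0x30212) (nat_lit 0) (p (nat_lit 0x20192) (nat_lit 0) (p (nat_lit 0x20092) (nat_lit 0) (p (nat_lit 0x10012) (nat_lit 0) pn)))))))))))))))))))))))))))))))))))))) :=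
  Cl.node (nat_lit 0x101) (nat_lit 2) (by decide +kernel) (ClAll.succ (ClAll.succ ClAll.zero s675) s676)

def n34 : Cl (O (nat_lit 1)) (R (nat_lit 104465))
    (p (nat_lit 0x444aa) (nat_lit 7) (p (nat_lit 0x41) (nat_lit 0) (p (nat_lit 0xb000c) (nat_lit 0) (p (nat_lit 0x380c2) (nat_lit 0) (p (nat_lit 0x3cc2a) (nat_lit 2) (p (nat_lit 0x380c2) (nat_lit 0) (p (nat_lit 0x43caa) (nat_lit 6) (p (nat_lit 0xc9) (nat_lit 1) (p (nat_lit 0xb0014) (nat_lit 0) (p (nat_lit 0x100004) (nat_lit 0) (p (nat_lit 0x200004) (nat_lit 0) (p (nat_lit 0x380c2) (nat_lit 0) (p (nat_lit 0x4c42a) (nat_lit 10) (p (nat_lit 0x119) (nat_lit 1) (p (nat_lit 0xc9) (nat_lit 0) (p (nat_lit 0x89) (nat_lit 1) (p (nat_lit 0x109) (nat_lit 1) (p (nat_lit 0x101) (nat_lit 0) (p (nat_lit 0x111) (nat_lit 0) (p (nat_lit 0xd1) (nat_lit 1) (p (nat_lit 0x81) (nat_lit 0) (p (nat_lit 0x41) (nat_lit 1) (p (nat_lit 0x8078907089a)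 (nat_lit 0) (p (nat_lit 0x7870886861a) (nat_lit 0) (p (nat_lit 0x800070806078a) (nat_lit 0) (p (nat_lit 0x800068785850a) (nat_lit 0) (p (nat_lit 0x587050682) (nat_lit 0) (p (nat_lit 0x506848402) (nat_lit 0) (p (nat_lit 0x160014) (nat_lit 0) (p (nat_lit 0x16000c) (nat_lit 0) (p (nat_lit 0x50612) (nat_lit 0) (p (nat_lit 0x40592) (nat_lit 0) (p (nat_lit 0x40492) (nat_lit 0) (p (nat_lit 0x30412) (nat_lit 0) (p (nat_lit 0x30212) (nat_lit 0) (p (nat_lit 0x20192) (nat_lit 0) (p (nat_lit 0x20092) (nat_lit 0) (p (nat_lit 0x10012) (nat_lit 0) pn)))))))))))))))))))))))))))))))))))))) :=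
  Cl.node (nat_lit 0x380c2) (nat_lit 2) (by decide +kernel) (ClAll.succ (ClAll.succ ClAll.zero s1432) s1433)

def n35 : Cl (O (nat_lit 1)) (R (nat_lit 104465))
    (p (nat_lit 0x1081e0c8d8b8b0a) (nat_lit 0) (p (nat_lit 0x80004) (nat_lit 1) (p (nat_lit 0x5800c) (nat_lit 1) (p (nat_lit 0x89) (nat_lit 1) (p (nat_lit 0x41) (nat_lit 0) (p (nat_lit 0xb000c) (nat_lit 0) (p (nat_lit 0xb0014) (nat_lit 0) (p (nat_lit 0x380c2) (nat_lit 0) (p (nat_lit 0x3cc2a) (nat_lit 2) (p (nat_lit 0x100004) (nat_lit 0) (p (nat_lit 0x200004) (nat_lit 0) (p (nat_lit 0x380c2) (nat_lit 1) (p (nat_lit 0x4c42a) (nat_lit 10) (p (nat_lit 0x119) (nat_lit 1) (p (nat_lit 0xc9) (nat_lit 0) (p (nat_lit 0x89) (nat_lit 1) (p (nat_lit 0x109) (nat_lit 1) (p (nat_lit 0x101) (nat_lit 0) (p (nat_lit 0x111) (nat_lit 0) (p (nat_lit 0xd1) (nat_lit 1) (p (nat_lit 0x81) (nat_lit 0) (p (nat_lit 0x41) (nat_lit 1) (p (nat_lit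 0x8078907089a) (nat_lit 0) (p (nat_lit 0x7870886861a) (nat_lit 0) (p (nat_lit 0x800070806078a) (nat_lit 0) (p (nat_lit 0x800068785850a) (nat_lit 0) (p (nat_lit 0x587050682) (nat_lit 0) (p (nat_lit 0x506848402) (nat_lit 0) (p (nat_lit 0x160014) (nat_lit 0) (p (nat_lit 0x16000c) (nat_lit 0) (p (nat_lit 0x50612) (nat_lit 0) (p (nat_lit 0x40592) (nat_lit 0) (p (nat_lit 0x40492) (nat_lit 0) (p (nat_lit 0x30412) (nat_lit 0) (p (nat_lit 0x30212) (nat_lit 0) (p (nat_lit 0x20192) (nat_lit 0) (p (nat_lit 0x20092) (nat_lit 0) (p (nat_lit 0x10012) (nat_lit 0) pn)))))))))))))))))))))))))))))))))))))) :=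
  Cl.node (nat_lit 0x1081e0d0e0c0d8a) (nat_lit 1) (by decide +kernel) (ClAll.succ ClAll.zero n26)

def n36 : Cl (O (nat_lit 1)) (R (nat_lit 104465))
    (p (nat_lit 0xe0d8f0d0e9a) (nat_lit 0) (p (nat_lit 0xd8d0e8c8c1a) (nat_lit 0) (p (nat_lit 0x2680d0d0e0c0d8a) (nat_lit 0) (p (nat_lit 0x2680d0c8d8b8b0a) (nat_lit 0) (p (nat_lit 0x58014) (nat_lit 0) (p (nat_lit 0xb000c) (nat_lit 1) (p (nat_lit 0xb0014) (nat_lit 0) (p (nat_lit 0x380c2) (nat_lit 0) (p (nat_lit 0x3cc2a) (nat_lit 2) (p (nat_lit 0x100004) (nat_lit 0) (p (nat_lit 0x200004) (nat_lit 0) (p (nat_lit 0x380c2) (nat_lit 1) (p (nat_lit 0x4c42a) (nat_lit 10) (p (nat_lit 0x119) (nat_lit 1) (p (nat_lit 0xc9) (nat_lit 0) (p (nat_lit 0x89) (nat_lit 1) (p (nat_lit 0x109) (nat_lit 1) (p (nat_lit 0x101) (nat_lit 0) (p (nat_lit 0x111) (nat_lit 0) (p (nat_lit 0xd1) (nat_lit 1) (p (nat_lit 0x81) (nat_lit 0) (p (nat_lit 0x41)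 (nat_lit 1) (p (nat_lit 0x8078907089a) (nat_lit 0) (p (nat_lit 0x7870886861a) (nat_lit 0) (p (nat_lit 0x800070806078a) (nat_lit 0) (p (nat_lit 0x800068785850a) (nat_lit 0) (p (nat_lit 0x587050682) (nat_lit 0) (p (nat_lit 0x506848402) (nat_lit 0) (p (nat_lit 0x160014) (nat_lit 0) (p (nat_lit 0x16000c) (nat_lit 0) (p (nat_lit 0x50612) (nat_lit 0) (p (nat_lit 0x40592) (nat_lit 0) (p (nat_lit 0x40492) (nat_lit 0) (p (nat_lit 0x30412) (nat_lit 0) (p (nat_lit 0x30212) (nat_lit 0) (p (nat_lit 0x20192) (nat_lit 0) (p (nat_lit 0x20092) (nat_lit 0) (p (nat_lit 0x10012) (nat_lit 0) pn)))))))))))))))))))))))))))))))))))))) :=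
  Cl.node (nat_lit 0xc9) (nat_lit 2) (by decide +kernel) (ClAll.succ (ClAll.succ ClAll.zero s1466) s1467)

def n37 : Cl (O (nat_lit 1)) (R (nat_lit 104465))
    (p (nat_lit 0xb8b0c8a8a1a) (nat_lit 0) (p (nat_lit 0x268c30b0c0a0b8a) (nat_lit 0) (p (nat_lit 0x268c30a8b89890a) (nat_lit 0) (p (nat_lit 0x180004) (nat_lit 0) (p (nat_lit 0x84014) (nat_lit 1) (p (nat_lit 0x81) (nat_lit 0) (p (nat_lit 0x8400c) (nat_lit 0) (p (nat_lit 0x108014) (nat_lit 0) (p (nat_lit 0x10800c) (nat_lit 0) (p (nat_lit 0x100004) (nat_lit 1) (p (nat_lit 0x200004) (nat_lit 0) (p (nat_lit 0x380c2) (nat_lit 0) (p (nat_lit 0x444aa) (nat_lit 7) (p (nat_lit 0x81) (nat_lit 1) (p (nat_lit 0xc9) (nat_lit 1) (p (nat_lit 0x109) (nat_lit 1) (p (nat_lit 0x101) (nat_lit 0) (p (nat_lit 0x119) (nat_lit 0) (p (nat_lit 0xd1) (nat_lit 0) (p (nat_lit 0x89) (nat_lit 0) (p (nat_lit 0x41) (nat_lit 0) (p (nat_lit 0x8078907089a)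 (nat_lit 0) (p (nat_lit 0x7870886861a) (nat_lit 0) (p (nat_lit 0x800070806078a) (nat_lit 0) (p (nat_lit 0x800068785850a) (nat_lit 0) (p (nat_lit 0x587050682) (nat_lit 0) (p (nat_lit 0x506848402) (nat_lit 0) (p (nat_lit 0x160014) (nat_lit 0) (p (nat_lit 0x16000c) (nat_lit 0) (p (nat_lit 0x50612) (nat_lit 0) (p (nat_lit 0x40592) (nat_lit 0) (p (nat_lit 0x40492) (nat_lit 0) (p (nat_lit 0x30412) (nat_lit 0) (p (nat_lit 0x30212) (nat_lit 0) (p (nat_lit 0x20192) (nat_lit 0) (p (nat_lit 0x20092) (nat_lit 0) (p (nat_lit 0x10012) (nat_lit 0) pn))))))))))))))))))))))))))))))))))))) :=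
  Cl.node (nat_lit 0xc0b8d0b0c9a) (nat_lit 1) (by decide +kernel) (ClAll.succ ClAll.zero n27)

def n38 : Cl (O (nat_lit 1)) (R (nat_lit 104465))
    (p (nat_lit 0x100004) (nat_lit 0) (p (nat_lit 0xc9) (nat_lit 1) (p (nat_lit 0xd1) (nat_lit 0) (p (nat_lit 0x81) (nat_lit 0) (p (nat_lit 0xc0b8d0b0c9a) (nat_lit 0) (p (nat_lit 0xb8b0c8a8a1a) (nat_lit 0) (p (nat_lit 0x2a8258b0c0a0b8a) (nat_lit 0) (p (nat_lit 0x2a8258a8b89890a) (nat_lit 0) (p (nat_lit 0xb0014) (nat_lit 0) (p (nat_lit 0x1fc004) (nat_lit 0) (p (nat_lit 0xb000c) (nat_lit 1) (p (nat_lit 0x101) (nat_lit 0) (p (nat_lit 0x380c2) (nat_lit 0) (p (nat_lit 0x3cc2a) (nat_lit 2) (p (nat_lit 0x109) (nat_lit 1) (p (nat_lit 0xc9) (nat_lit 1) (p (nat_lit 0xc1) (nat_lit 0) (p (nat_lit 0x119) (nat_lit 1) (p (nat_lit 0xd1) (nat_lit 0) (p (nat_lit 0x89) (nat_lit 0) (p (nat_lit 0x41) (nat_lit 0) (p (nat_lit 0x8078907089a) (nat_lit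 0) (p (nat_lit 0x7870886861a) (nat_lit 0) (p (nat_lit 0x800070806078a) (nat_lit 0) (p (nat_lit 0x800068785850a) (nat_lit 0) (p (nat_lit 0x587050682) (nat_lit 0) (p (nat_lit 0x506848402) (nat_lit 0) (p (nat_lit 0x160014) (nat_lit 0) (p (nat_lit 0x16000c) (nat_lit 0) (p (nat_lit 0x50612) (nat_lit 0) (p (nat_lit 0x40592) (nat_lit 0) (p (nat_lit 0x40492) (nat_lit 0) (p (nat_lit 0x30412) (nat_lit 0) (p (nat_lit 0x30212) (nat_lit 0) (p (nat_lit 0x20192) (nat_lit 0) (p (nat_lit 0x20092) (nat_lit 0) (p (nat_lit 0x10012) (nat_lit 0) pn))))))))))))))))))))))))))))))))))))) :=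
  Cl.node (nat_lit 0x80004) (nat_lit 2) (by decide +kernel) (ClAll.succ (ClAll.succ ClAll.zero s247) n28)

def n39 : Cl (O (nat_lit 1)) (R (nat_lit 104465))
    (p (nat_lit 0x2680d0c8d8b8b0a) (nat_lit 0) (p (nat_lit 0x58014) (nat_lit 0) (p (nat_lit 0xb000c) (nat_lit 1) (p (nat_lit 0x81) (nat_lit 1) (p (nat_lit 0x41) (nat_lit 1) (p (nat_lit 0x100004) (nat_lit 0) (p (nat_lit 0x200004) (nat_lit 0) (p (nat_lit 0x380c2) (nat_lit 0) (p (nat_lit 0x4c42a) (nat_lit 10) (p (nat_lit 0x89) (nat_lit 0) (p (nat_lit 0xb0014) (nat_lit 0) (p (nat_lit 0x380c2) (nat_lit 0) (p (nat_lit 0x3cc2a) (nat_lit 2) (p (nat_lit 0x119) (nat_lit 1) (p (nat_lit 0xc1) (nat_lit 0) (p (nat_lit 0x81) (nat_lit 1) (p (nat_lit 0x101) (nat_lit 1) (p (nat_lit 0x111) (nat_lit 0) (p (nat_lit 0xd1) (nat_lit 1) (p (nat_lit 0x89) (nat_lit 0) (p (nat_lit 0x41) (nat_lit 0) (p (nat_lit 0x8078907089a) (nat_lit 0) (p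 (nat_lit 0x7870886861a) (nat_lit 0) (p (nat_lit 0x800070806078a) (nat_lit 0) (p (nat_lit 0x800068785850a) (nat_lit 0) (p (nat_lit 0x587050682) (nat_lit 0) (p (nat_lit 0x506848402) (nat_lit 0) (p (nat_lit 0x160014) (nat_lit 0) (p (nat_lit 0x16000c) (nat_lit 0) (p (nat_lit 0x50612) (nat_lit 0) (p (nat_lit 0x40592) (nat_lit 0) (p (nat_lit 0x40492) (nat_lit 0) (p (nat_lit 0x30412) (nat_lit 0) (p (nat_lit 0x30212) (nat_lit 0) (p (nat_lit 0x20192) (nat_lit 0) (p (nat_lit 0x20092) (nat_lit 0) (p (nat_lit 0x10012) (nat_lit 0) pn))))))))))))))))))))))))))))))))))))) :=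
  Cl.node (nat_lit 0x2680d0d0e0c0d8a) (nat_lit 1) (by decide +kernel) (ClAll.succ ClAll.zero n29)

def n40 : Cl (O (nat_lit 1)) (R (nat_lit 104465))
    (p (nat_lit 0x268c30b0c0a0b8a) (nat_lit 0) (p (nat_lit 0x268c30a8b89890a) (nat_lit 0) (p (nat_lit 0x180004) (nat_lit 0) (p (nat_lit 0xa8014) (nat_lit 0) (p (nat_lit 0xc8014) (nat_lit 0) (p (nat_lit 0x8400c) (nat_lit 0) (p (nat_lit 0x84014) (nat_lit 1) (p (nat_lit 0x108014) (nat_lit 0) (p (nat_lit 0x10800c) (nat_lit 0) (p (nat_lit 0x100004) (nat_lit 1) (p (nat_lit 0x200004) (nat_lit 0) (p (nat_lit 0x380c2) (nat_lit 0) (p (nat_lit 0x444aa) (nat_lit 7) (p (nat_lit 0xd1) (nat_lit 1) (p (nat_lit 0x111) (nat_lit 1) (p (nat_lit 0x109) (nat_lit 0) (p (nat_lit 0x101) (nat_lit 0) (p (nat_lit 0x119) (nat_lit 0) (p (nat_lit 0xc9) (nat_lit 0) (p (nat_lit 0x89) (nat_lit 1) (p (nat_lit 0x41) (nat_lit 0) (p (nat_lit 0x8078907089a) (nat_lit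 0) (p (nat_lit 0x7870886861a) (nat_lit 0) (p (nat_lit 0x800070806078a) (nat_lit 0) (p (nat_lit 0x800068785850a) (nat_lit 0) (p (nat_lit 0x587050682) (nat_lit 0) (p (nat_lit 0x506848402) (nat_lit 0) (p (nat_lit 0x160014) (nat_lit 0) (p (nat_lit 0x16000c) (nat_lit 0) (p (nat_lit 0x50612) (nat_lit 0) (p (nat_lit 0x40592) (nat_lit 0) (p (nat_lit 0x40492) (nat_lit 0) (p (nat_lit 0x30412) (nat_lit 0) (p (nat_lit 0x30212) (nat_lit 0) (p (nat_lit 0x20192) (nat_lit 0) (p (nat_lit 0x20092) (nat_lit 0) (p (nat_lit 0x10012) (nat_lit 0) pn))))))))))))))))))))))))))))))))))))) :=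
  Cl.node (nat_lit 0xb8b0c8a8a1a) (nat_lit 1) (by decide +kernel) (ClAll.succ ClAll.zero n30)

def n41 : Cl (O (nat_lit 1)) (R (nat_lit 104465))
    (p (nat_lit 0x3a9290a8b89890a) (nat_lit 0) (p (nat_lit 0x180004) (nat_lit 0) (p (nat_lit 0x6000c) (nat_lit 0) (p (nat_lit 0xa8014) (nat_lit 1) (p (nat_lit 0xc8014) (nat_lit 0) (p (nat_lit 0x8400c) (nat_lit 0) (p (nat_lit 0x84014) (nat_lit 1) (p (nat_lit 0x108014) (nat_lit 0) (p (nat_lit 0x10800c) (nat_lit 0) (p (nat_lit 0x100004) (nat_lit 1) (p (nat_lit 0x200004) (nat_lit 0) (p (nat_lit 0x380c2) (nat_lit 0) (p (nat_lit 0x444aa) (nat_lit 7) (p (nat_lit 0xd1) (nat_lit 1) (p (nat_lit 0x111) (nat_lit 1) (p (nat_lit 0x109) (nat_lit 0) (p (nat_lit 0x101) (nat_lit 0) (p (nat_lit 0x119) (nat_lit 0) (p (nat_lit 0xc9) (nat_lit 0) (p (nat_lit 0x89) (nat_lit 1) (p (nat_lit 0x41) (nat_lit 0) (p (nat_lit 0x8078907089a) (nat_lit 0) (p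 (nat_lit 0x7870886861a) (nat_lit 0) (p (nat_lit 0x800070806078a) (nat_lit 0) (p (nat_lit 0x800068785850a) (nat_lit 0) (p (nat_lit 0x587050682) (nat_lit 0) (p (nat_lit 0x506848402) (nat_lit 0) (p (nat_lit 0x160014) (nat_lit 0) (p (nat_lit 0x16000c) (nat_lit 0) (p (nat_lit 0x50612) (nat_lit 0) (p (nat_lit 0x40592) (nat_lit 0) (p (nat_lit 0x40492) (nat_lit 0) (p (nat_lit 0x30412) (nat_lit 0) (p (nat_lit 0x30212) (nat_lit 0) (p (nat_lit 0x20192) (nat_lit 0) (p (nat_lit 0x20092) (nat_lit 0) (p (nat_lit 0x10012) (nat_lit 0) pn))))))))))))))))))))))))))))))))))))) :=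
  Cl.node (nat_lit 0x3a9290b0c0a0b8a) (nat_lit 1) (by decide +kernel) (ClAll.succ ClAll.zero n31)

def n42 : Cl (O (nat_lit 1)) (R (nat_lit 104465))
    (p (nat_lit 0x5298b0a8b89890a) (nat_lit 0) (p (nat_lit 0x15c004) (nat_lit 0) (p (nat_lit 0x4000c) (nat_lit 0) (p (nat_lit 0x1b4004) (nat_lit 0) (p (nat_lit 0xc8014) (nat_lit 1) (p (nat_lit 0x8400c) (nat_lit 0) (p (nat_lit 0x84014) (nat_lit 1) (p (nat_lit 0x108014) (nat_lit 0) (p (nat_lit 0x10800c) (nat_lit 0) (p (nat_lit 0x100004) (nat_lit 1) (p (nat_lit 0x200004) (nat_lit 0) (p (nat_lit 0x380c2) (nat_lit 0) (p (nat_lit 0x444aa) (nat_lit 7) (p (nat_lit 0xd1) (nat_lit 1) (p (nat_lit 0x111) (nat_lit 1) (p (nat_lit 0x109) (nat_lit 0) (p (nat_lit 0x101) (nat_lit 0) (p (nat_lit 0x119) (nat_lit 0) (p (nat_lit 0xc9) (nat_lit 0) (p (nat_lit 0x89) (nat_lit 1) (p (nat_lit 0x41) (nat_lit 0) (p (nat_lit 0x8078907089a) (nat_lit 0)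 (p (nat_lit 0x7870886861a) (nat_lit 0) (p (nat_lit 0x800070806078a) (nat_lit 0) (p (nat_lit 0x800068785850a) (nat_lit 0) (p (nat_lit 0x587050682) (nat_lit 0) (p (nat_lit 0x506848402) (nat_lit 0) (p (nat_lit 0x160014) (nat_lit 0) (p (nat_lit 0x16000c) (nat_lit 0) (p (nat_lit 0x50612) (nat_lit 0) (p (nat_lit 0x40592) (nat_lit 0) (p (nat_lit 0x40492) (nat_lit 0) (p (nat_lit 0x30412) (nat_lit 0) (p (nat_lit 0x30212) (nat_lit 0) (p (nat_lit 0x20192) (nat_lit 0) (p (nat_lit 0x20092) (nat_lit 0) (p (nat_lit 0x10012) (nat_lit 0) pn))))))))))))))))))))))))))))))))))))) :=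
  Cl.node (nat_lit 0x5298b0b0c0a0b8a) (nat_lit 1) (by decide +kernel) (ClAll.succ ClAll.zero n32)

def n43 : Cl (O (nat_lit 1)) (R (nat_lit 104465))
    (p (nat_lit 0x58014) (nat_lit 0) (p (nat_lit 0xc9) (nat_lit 0) (p (nat_lit 0xc1) (nat_lit 0) (p (nat_lit 0xc0b8d0b0c9a) (nat_lit 0) (p (nat_lit 0xb8b0c8a8a1a) (nat_lit 0) (p (nat_lit 0x2680d0b0c0a0b8a) (nat_lit 0) (p (nat_lit 0x2680d0a8b89890a) (nat_lit 0) (p (nat_lit 0xb0014) (nat_lit 0) (p (nat_lit 0xb000c) (nat_lit 1) (p (nat_lit 0x100004) (nat_lit 0) (p (nat_lit 0x200004) (nat_lit 0) (p (nat_lit 0x380c2) (nat_lit 1) (p (nat_lit 0x444aa) (nat_lit 7) (p (nat_lit 0xd1) (nat_lit 1) (p (nat_lit 0x111) (nat_lit 1) (p (nat_lit 0x109) (nat_lit 0) (p (nat_lit 0x101) (nat_lit 0) (p (nat_lit 0x119) (nat_lit 0) (p (nat_lit 0xc9) (nat_lit 0) (p (nat_lit 0x89) (nat_lit 1) (p (nat_lit 0x41) (nat_lit 0) (p (nat_lit 0x8078907089a)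 (nat_lit 0) (p (nat_lit 0x7870886861a) (nat_lit 0) (p (nat_lit 0x800070806078a) (nat_lit 0) (p (nat_lit 0x800068785850a) (nat_lit 0) (p (nat_lit 0x587050682) (nat_lit 0) (p (nat_lit 0x506848402) (nat_lit 0) (p (nat_lit 0x160014) (nat_lit 0) (p (nat_lit 0x16000c) (nat_lit 0) (p (nat_lit 0x50612) (nat_lit 0) (p (nat_lit 0x40592) (nat_lit 0) (p (nat_lit 0x40492) (nat_lit 0) (p (nat_lit 0x30412) (nat_lit 0) (p (nat_lit 0x30212) (nat_lit 0) (p (nat_lit 0x20192) (nat_lit 0) (p (nat_lit 0x20092) (nat_lit 0) (p (nat_lit 0x10012) (nat_lit 0) pn))))))))))))))))))))))))))))))))))))) :=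
  Cl.node (nat_lit 0x10800c) (nat_lit 2) (by decide +kernel) (ClAll.succ (ClAll.succ ClAll.zero s640) s641)

def n44 : Cl (O (nat_lit 1)) (R (nat_lit 104465))
    (p (nat_lit 0x111) (nat_lit 0) (p (nat_lit 0x109) (nat_lit 0) (p (nat_lit 0x41) (nat_lit 0) (p (nat_lit 0xc0b8d0b0c9a) (nat_lit 0) (p (nat_lit 0xb8b0c8a8a1a) (nat_lit 0) (p (nat_lit 0xe80d8b0c0a0b8a) (nat_lit 0) (p (nat_lit 0xe80d8a8b89890a) (nat_lit 0) (p (nat_lit 0x10800c) (nat_lit 0) (p (nat_lit 0x58014) (nat_lit 1) (p (nat_lit 0xb0014) (nat_lit 0) (p (nat_lit 0x380c2) (nat_lit 0) (p (nat_lit 0x44c2a) (nat_lit 1) (p (nat_lit 0x41) (nat_lit 0) (p (nat_lit 0x200004) (nat_lit 0) (p (nat_lit 0xd1) (nat_lit 0) (p (nat_lit 0x109) (nat_lit 1) (p (nat_lit 0x101) (nat_lit 0) (p (nat_lit 0x119) (nat_lit 0) (p (nat_lit 0xc9) (nat_lit 0) (p (nat_lit 0x89) (nat_lit 1) (p (nat_lit 0x41) (nat_lit 0) (p (nat_lit 0x8078907089a)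 (nat_lit 0) (p (nat_lit 0x7870886861a) (nat_lit 0) (p (nat_lit 0x800070806078a) (nat_lit 0) (p (nat_lit 0x800068785850a) (nat_lit 0) (p (nat_lit 0x587050682) (nat_lit 0) (p (nat_lit 0x506848402) (nat_lit 0) (p (nat_lit 0x160014) (nat_lit 0) (p (nat_lit 0x16000c) (nat_lit 0) (p (nat_lit 0x50612) (nat_lit 0) (p (nat_lit 0x40592) (nat_lit 0) (p (nat_lit 0x40492) (nat_lit 0) (p (nat_lit 0x30412) (nat_lit 0) (p (nat_lit 0x30212) (nat_lit 0) (p (nat_lit 0x20192) (nat_lit 0) (p (nat_lit 0x20092) (nat_lit 0) (p (nat_lit 0x10012) (nat_lit 0) pn))))))))))))))))))))))))))))))))))))) :=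
  Cl.node (nat_lit 0x119) (nat_lit 2) (by decide +kernel) (ClAll.succ (ClAll.succ ClAll.zero n33) s677)

def n45 : Cl (O (nat_lit 1)) (R (nat_lit 104465))
    (p (nat_lit 0x41) (nat_lit 0) (p (nat_lit 0xb000c) (nat_lit 0) (p (nat_lit 0x380c2) (nat_lit 0) (p (nat_lit 0x3cc2a) (nat_lit 2) (p (nat_lit 0x380c2) (nat_lit 0) (p (nat_lit 0x43caa) (nat_lit 6) (p (nat_lit 0xc9) (nat_lit 1) (p (nat_lit 0xb0014) (nat_lit 0) (p (nat_lit 0x100004) (nat_lit 0) (p (nat_lit 0x200004) (nat_lit 0) (p (nat_lit 0x380c2) (nat_lit 0) (p (nat_lit 0x4c42a) (nat_lit 10) (p (nat_lit 0x119) (nat_lit 1) (p (nat_lit 0xc9) (nat_lit 0) (p (nat_lit 0x89) (nat_lit 1) (p (nat_lit 0x109) (nat_lit 1) (p (nat_lit 0x101) (nat_lit 0) (p (nat_lit 0x111) (nat_lit 0) (p (nat_lit 0xd1) (nat_lit 1) (p (nat_lit 0x81) (nat_lit 0) (p (nat_lit 0x41) (nat_lit 1) (p (nat_lit 0x8078907089a) (nat_lit 0) (p (nat_lit 0x7870886861a)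 (nat_lit 0) (p (nat_lit 0x800070806078a) (nat_lit 0) (p (nat_lit 0x800068785850a) (nat_lit 0) (p (nat_lit 0x587050682) (nat_lit 0) (p (nat_lit 0x506848402) (nat_lit 0) (p (nat_lit 0x160014) (nat_lit 0) (p (nat_lit 0x16000c) (nat_lit 0) (p (nat_lit 0x50612) (nat_lit 0) (p (nat_lit 0x40592) (nat_lit 0) (p (nat_lit 0x40492) (nat_lit 0) (p (nat_lit 0x30412) (nat_lit 0) (p (nat_lit 0x30212) (nat_lit 0) (p (nat_lit 0x20192) (nat_lit 0) (p (nat_lit 0x20092) (nat_lit 0) (p (nat_lit 0x10012) (nat_lit 0) pn))))))))))))))))))))))))))))))))))))) :=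
  Cl.node (nat_lit 0x444aa) (nat_lit 12) (by decide +kernel) (ClAll.succ (ClAll.succ (ClAll.succ (ClAll.succ (ClAll.succ (ClAll.succ (ClAll.succ (ClAll.succ (ClAll.succ (ClAll.succ (ClAll.succ (ClAll.succ ClAll.zero s1425) s1426) s1427) s1428) s1429) s1430) s1431) n34) s1434) s1435) s1436) s1437)

def n46 : Cl (O (nat_lit 1)) (R (nat_lit 104465))
    (p (nat_lit 0x80004) (nat_lit 1) (p (nat_lit 0x5800c) (nat_lit 1) (p (nat_lit 0x89) (nat_lit 1) (p (nat_lit 0x41) (nat_lit 0) (p (nat_lit 0xb000c) (nat_lit 0) (p (nat_lit 0xb0014) (nat_lit 0) (p (nat_lit 0x380c2) (nat_lit 0) (p (nat_lit 0x3cc2a) (nat_lit 2) (p (nat_lit 0x100004) (nat_lit 0) (p (nat_lit 0x200004) (nat_lit 0) (p (nat_lit 0x380c2) (nat_lit 1) (p (nat_lit 0x4c42a) (nat_lit 10) (p (nat_lit 0x119) (nat_lit 1) (p (nat_lit 0xc9) (nat_lit 0) (p (nat_lit 0x89) (nat_lit 1) (p (nat_lit 0x109) (nat_lit 1) (p (nat_lit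 0x101) (nat_lit 0) (p (nat_lit 0x111) (nat_lit 0) (p (nat_lit 0xd1) (nat_lit 1) (p (nat_lit 0x81) (nat_lit 0) (p (nat_lit 0x41) (nat_lit 1) (p (nat_lit 0x8078907089a) (nat_lit 0) (p (nat_lit 0x7870886861a) (nat_lit 0) (p (nat_lit 0x800070806078a) (nat_lit 0) (p (nat_lit 0x800068785850a) (nat_lit 0) (p (nat_lit 0x587050682) (nat_lit 0) (p (nat_lit 0x506848402) (nat_lit 0) (p (nat_lit 0x160014) (nat_lit 0) (p (nat_lit 0x16000c) (nat_lit 0) (p (nat_lit 0x50612) (nat_lit 0) (p (nat_lit 0x40592) (nat_lit 0) (p (nat_lit 0x40492) (nat_lit 0) (p (nat_lit 0x30412) (nat_lit 0) (p (nat_lit 0x30212) (nat_lit 0) (p (nat_lit 0x20192) (nat_lit 0) (p (nat_lit 0x20092) (nat_lit 0) (p (nat_lit 0x10012) (nat_lit 0) pn))))))))))))))))))))))))))))))))))))) :=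
  Cl.node (nat_lit 0x1081e0c8d8b8b0a) (nat_lit 1) (by decide +kernel) (ClAll.succ ClAll.zero n35)

def n47 : Cl (O (nat_lit 1)) (R (nat_lit 104465))
    (p (nat_lit 0xd8d0e8c8c1a) (nat_lit 0) (p (nat_lit 0x2680d0d0e0c0d8a) (nat_lit 0) (p (nat_lit 0x2680d0c8d8b8b0a) (nat_lit 0) (p (nat_lit 0x58014) (nat_lit 0) (p (nat_lit 0xb000c) (nat_lit 1) (p (nat_lit 0xb0014) (nat_lit 0) (p (nat_lit 0x380c2) (nat_lit 0) (p (nat_lit 0x3cc2a) (nat_lit 2) (p (nat_lit 0x100004) (nat_lit 0) (p (nat_lit 0x200004) (nat_lit 0) (p (nat_lit 0x380c2) (nat_lit 1) (p (nat_lit 0x4c42a) (nat_lit 10) (p (nat_lit 0x119) (nat_lit 1) (p (nat_lit 0xc9) (nat_lit 0) (p (nat_lit 0x89) (nat_lit 1) (p (nat_lit 0x109) (nat_lit 1) (p (nat_lit 0x101) (nat_lit 0) (p (nat_lit 0x111) (nat_lit 0) (p (nat_lit 0xd1) (nat_lit 1) (p (nat_lit 0x81) (nat_lit 0) (p (nat_lit 0x41) (nat_lit 1) (p (nat_lit 0x8078907089a)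 (nat_lit 0) (p (nat_lit 0x7870886861a) (nat_lit 0) (p (nat_lit 0x800070806078a) (nat_lit 0) (p (nat_lit 0x800068785850a) (nat_lit 0) (p (nat_lit 0x587050682) (nat_lit 0) (p (nat_lit 0x506848402) (nat_lit 0) (p (nat_lit 0x160014) (nat_lit 0) (p (nat_lit 0x16000c) (nat_lit 0) (p (nat_lit 0x50612) (nat_lit 0) (p (nat_lit 0x40592) (nat_lit 0) (p (nat_lit 0x40492) (nat_lit 0) (p (nat_lit 0x30412) (nat_lit 0) (p (nat_lit 0x30212) (nat_lit 0) (p (nat_lit 0x20192) (nat_lit 0) (p (nat_lit 0x20092) (nat_lit 0) (p (nat_lit 0x10012) (nat_lit 0) pn))))))))))))))))))))))))))))))))))))) :=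
  Cl.node (nat_lit 0xe0d8f0d0e9a) (nat_lit 1) (by decide +kernel) (ClAll.succ ClAll.zero n36)

def n48 : Cl (O (nat_lit 1)) (R (nat_lit 104465))
    (p (nat_lit 0x268c30b0c0a0b8a) (nat_lit 0) (p (nat_lit 0x268c30a8b89890a) (nat_lit 0) (p (nat_lit 0x180004) (nat_lit 0) (p (nat_lit 0x84014) (nat_lit 1) (p (nat_lit 0x81) (nat_lit 0) (p (nat_lit 0x8400c) (nat_lit 0) (p (nat_lit 0x108014) (nat_lit 0) (p (nat_lit 0x10800c) (nat_lit 0) (p (nat_lit 0x100004) (nat_lit 1) (p (nat_lit 0x200004) (nat_lit 0) (p (nat_lit 0x380c2) (nat_lit 0) (p (nat_lit 0x444aa) (nat_lit 7) (p (nat_lit 0x81) (nat_lit 1) (p (nat_lit 0xc9) (nat_lit 1) (p (nat_lit 0x109) (nat_lit 1) (p (nat_lit 0x101) (nat_lit 0) (p (nat_lit 0x119) (nat_lit 0) (p (nat_lit 0xd1) (nat_lit 0) (p (nat_lit 0x89) (nat_lit 0) (p (nat_lit 0x41) (nat_lit 0) (p (nat_lit 0x8078907089a) (nat_lit 0) (p (nat_lit 0x7870886861a) (nat_lit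 0) (p (nat_lit 0x800070806078a) (nat_lit 0) (p (nat_lit 0x800068785850a) (nat_lit 0) (p (nat_lit 0x587050682) (nat_lit 0) (p (nat_lit 0x506848402) (nat_lit 0) (p (nat_lit 0x160014) (nat_lit 0) (p (nat_lit 0x16000c) (nat_lit 0) (p (nat_lit 0x50612) (nat_lit 0) (p (nat_lit 0x40592) (nat_lit 0) (p (nat_lit 0x40492) (nat_lit 0) (p (nat_lit 0x30412) (nat_lit 0) (p (nat_lit 0x30212) (nat_lit 0) (p (nat_lit 0x20192) (nat_lit 0) (p (nat_lit 0x20092) (nat_lit 0) (p (nat_lit 0x10012) (nat_lit 0) pn)))))))))))))))))))))))))))))))))))) :=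
  Cl.node (nat_lit 0xb8b0c8a8a1a) (nat_lit 1) (by decide +kernel) (ClAll.succ ClAll.zero n37)

def n49 : Cl (O (nat_lit 1)) (R (nat_lit 104465))
    (p (nat_lit 0xc9) (nat_lit 1) (p (nat_lit 0xd1) (nat_lit 0) (p (nat_lit 0x81) (nat_lit 0) (p (nat_lit 0xc0b8d0b0c9a) (nat_lit 0) (p (nat_lit 0xb8b0c8a8a1a) (nat_lit 0) (p (nat_lit 0x2a8258b0c0a0b8a) (nat_lit 0) (p (nat_lit 0x2a8258a8b89890a) (nat_lit 0) (p (nat_lit 0xb0014) (nat_lit 0) (p (nat_lit 0x1fc004) (nat_lit 0) (p (nat_lit 0xb000c) (nat_lit 1) (p (nat_lit 0x101) (nat_lit 0) (p (nat_lit 0x380c2) (nat_lit 0) (p (nat_lit 0x3cc2a) (nat_lit 2) (p (nat_lit 0x109) (nat_lit 1) (p (nat_lit 0xc9) (nat_lit 1) (p (nat_lit 0xc1) (nat_lit 0) (p (nat_lit 0x119) (nat_lit 1) (p (nat_lit 0xd1) (nat_lit 0) (p (nat_lit 0x89) (nat_lit 0) (p (nat_lit 0x41) (nat_lit 0) (p (nat_lit 0x8078907089a) (nat_lit 0) (p (nat_lit 0x7870886861a) (nat_lit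 0) (p (nat_lit 0x800070806078a) (nat_lit 0) (p (nat_lit 0x800068785850a) (nat_lit 0) (p (nat_lit 0x587050682) (nat_lit 0) (p (nat_lit 0x506848402) (nat_lit 0) (p (nat_lit 0x160014) (nat_lit 0) (p (nat_lit 0x16000c) (nat_lit 0) (p (nat_lit 0x50612) (nat_lit 0) (p (nat_lit 0x40592) (nat_lit 0) (p (nat_lit 0x40492) (nat_lit 0) (p (nat_lit 0x30412) (nat_lit 0) (p (nat_lit 0x30212) (nat_lit 0) (p (nat_lit 0x20192) (nat_lit 0) (p (nat_lit 0x20092) (nat_lit 0) (p (nat_lit 0x10012) (nat_lit 0) pn)))))))))))))))))))))))))))))))))))) :=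
  Cl.node (nat_lit 0x100004) (nat_lit 2) (by decide +kernel) (ClAll.succ (ClAll.succ ClAll.zero n38) s253)

def n50 : Cl (O (nat_lit 1)) (R (nat_lit 104465))
    (p (nat_lit 0x109) (nat_lit 1) (p (nat_lit 0xc9) (nat_lit 1) (p (nat_lit 0xc0b8d0b0c9a) (nat_lit 0) (p (nat_lit 0xb8b0c8a8a1a) (nat_lit 0) (p (nat_lit 0x2a8258b0c0a0b8a) (nat_lit 0) (p (nat_lit 0x2a8258a8b89890a) (nat_lit 0) (p (nat_lit 0xb0014) (nat_lit 0) (p (nat_lit 0x1fc004) (nat_lit 0) (p (nat_lit 0xb000c) (nat_lit 1) (p (nat_lit 0x41) (nat_lit 0) (p (nat_lit 0x101) (nat_lit 1) (p (nat_lit 0x380c2) (nat_lit 0) (p (nat_lit 0x3cc2a) (nat_lit 2) (p (nat_lit 0x109) (nat_lit 1) (p (nat_lit 0xc9) (nat_lit 1) (p (nat_lit 0xc1) (nat_lit 0) (p (nat_lit 0x119) (nat_lit 1) (p (nat_lit 0xd1) (nat_lit 0) (p (nat_lit 0x89) (nat_lit 0) (p (nat_lit 0x41) (nat_lit 0) (p (nat_lit 0x8078907089a) (nat_lit 0) (p (nat_lit 0x7870886861a)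 (nat_lit 0) (p (nat_lit 0x800070806078a) (nat_lit 0) (p (nat_lit 0x800068785850a) (nat_lit 0) (p (nat_lit 0x587050682) (nat_lit 0) (p (nat_lit 0x506848402) (nat_lit 0) (p (nat_lit 0x160014) (nat_lit 0) (p (nat_lit 0x16000c) (nat_lit 0) (p (nat_lit 0x50612) (nat_lit 0) (p (nat_lit 0x40592) (nat_lit 0) (p (nat_lit 0x40492) (nat_lit 0) (p (nat_lit 0x30412) (nat_lit 0) (p (nat_lit 0x30212) (nat_lit 0) (p (nat_lit 0x20192) (nat_lit 0) (p (nat_lit 0x20092) (nat_lit 0) (p (nat_lit 0x10012) (nat_lit 0) pn)))))))))))))))))))))))))))))))))))) :=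
  Cl.node (nat_lit 0x100004) (nat_lit 2) (by decide +kernel) (ClAll.succ (ClAll.succ ClAll.zero s264) s265)

def n51 : Cl (O (nat_lit 1)) (R (nat_lit 104465))
    (p (nat_lit 0x58014) (nat_lit 0) (p (nat_lit 0xb000c) (nat_lit 1) (p (nat_lit 0x81) (nat_lit 1) (p (nat_lit 0x41) (nat_lit 1) (p (nat_lit 0x100004) (nat_lit 0) (p (nat_lit 0x200004) (nat_lit 0) (p (nat_lit 0x380c2) (nat_lit 0) (p (nat_lit 0x4c42a) (nat_lit 10) (p (nat_lit 0x89) (nat_lit 0) (p (nat_lit 0xb0014) (nat_lit 0) (p (nat_lit 0x380c2) (nat_lit 0) (p (nat_lit 0x3cc2a) (nat_lit 2) (p (nat_lit 0x119) (nat_lit 1) (p (nat_lit 0xc1) (nat_lit 0) (p (nat_lit 0x81) (nat_lit 1) (p (nat_lit 0x101) (nat_lit 1) (p (nat_lit 0x111) (nat_lit 0) (p (nat_lit 0xd1) (nat_lit 1) (p (nat_lit 0x89) (nat_lit 0) (p (nat_lit 0x41) (nat_lit 0) (p (nat_lit 0x8078907089a) (nat_lit 0) (p (nat_lit 0x7870886861a) (nat_lit 0) (p (nat_lit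 0x800070806078a) (nat_lit 0) (p (nat_lit 0x800068785850a) (nat_lit 0) (p (nat_lit 0x587050682) (nat_lit 0) (p (nat_lit 0x506848402) (nat_lit 0) (p (nat_lit 0x160014) (nat_lit 0) (p (nat_lit 0x16000c) (nat_lit 0) (p (nat_lit 0x50612) (nat_lit 0) (p (nat_lit 0x40592) (nat_lit 0) (p (nat_lit 0x40492) (nat_lit 0) (p (nat_lit 0x30412) (nat_lit 0) (p (nat_lit 0x30212) (nat_lit 0) (p (nat_lit 0x20192) (nat_lit 0) (p (nat_lit 0x20092) (nat_lit 0) (p (nat_lit 0x10012) (nat_lit 0) pn)))))))))))))))))))))))))))))))))))) :=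
  Cl.node (nat_lit 0x2680d0c8d8b8b0a) (nat_lit 1) (by decide +kernel) (ClAll.succ ClAll.zero n39)

def n52 : Cl (O (nat_lit 1)) (R (nat_lit 104465))
    (p (nat_lit 0x268c30a8b89890a) (nat_lit 0) (p (nat_lit 0x180004) (nat_lit 0) (p (nat_lit 0xa8014) (nat_lit 0) (p (nat_lit 0xc8014) (nat_lit 0) (p (nat_lit 0x8400c) (nat_lit 0) (p (nat_lit 0x84014) (nat_lit 1) (p (nat_lit 0x108014) (nat_lit 0) (p (nat_lit 0x10800c) (nat_lit 0) (p (nat_lit 0x100004) (nat_lit 1) (p (nat_lit 0x200004) (nat_lit 0) (p (nat_lit 0x380c2) (nat_lit 0) (p (nat_lit 0x444aa) (nat_lit 7) (p (nat_lit 0xd1) (nat_lit 1) (p (nat_lit 0x111) (nat_lit 1) (p (nat_lit 0x109) (nat_lit 0) (p (nat_lit 0x101) (nat_lit 0) (p (nat_lit 0x119) (nat_lit 0) (p (nat_lit 0xc9) (nat_lit 0) (p (nat_lit 0x89) (nat_lit 1) (p (nat_lit 0x41) (nat_lit 0) (p (nat_lit 0x8078907089a) (nat_lit 0) (p (nat_lit 0x7870886861a) (nat_lit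 0) (p (nat_lit 0x800070806078a) (nat_lit 0) (p (nat_lit 0x800068785850a) (nat_lit 0) (p (nat_lit 0x587050682) (nat_lit 0) (p (nat_lit 0x506848402) (nat_lit 0) (p (nat_lit 0x160014) (nat_lit 0) (p (nat_lit 0x16000c) (nat_lit 0) (p (nat_lit 0x50612) (nat_lit 0) (p (nat_lit 0x40592) (nat_lit 0) (p (nat_lit 0x40492) (nat_lit 0) (p (nat_lit 0x30412) (nat_lit 0) (p (nat_lit 0x30212) (nat_lit 0) (p (nat_lit 0x20192) (nat_lit 0) (p (nat_lit 0x20092) (nat_lit 0) (p (nat_lit 0x10012) (nat_lit 0) pn)))))))))))))))))))))))))))))))))))) :=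
  Cl.node (nat_lit 0x268c30b0c0a0b8a) (nat_lit 1) (by decide +kernel) (ClAll.succ ClAll.zero n40)

def n53 : Cl (O (nat_lit 1)) (R (nat_lit 104465))
    (p (nat_lit 0x180004) (nat_lit 0) (p (nat_lit 0x6000c) (nat_lit 0) (p (nat_lit 0xa8014) (nat_lit 1) (p (nat_lit 0xc8014) (nat_lit 0) (p (nat_lit 0x8400c) (nat_lit 0) (p (nat_lit 0x84014) (nat_lit 1) (p (nat_lit 0x108014) (nat_lit 0) (p (nat_lit 0x10800c) (nat_lit 0) (p (nat_lit 0x100004) (nat_lit 1) (p (nat_lit 0x200004) (nat_lit 0) (p (nat_lit 0x380c2) (nat_lit 0) (p (nat_lit 0x444aa) (nat_lit 7) (p (nat_lit 0xd1) (nat_lit 1) (p (nat_lit 0x111) (nat_lit 1) (p (nat_lit 0x109) (nat_lit 0) (p (nat_lit 0x101) (nat_lit 0) (p (nat_lit 0x119) (nat_lit 0) (p (nat_lit 0xc9) (nat_lit 0) (p (nat_lit 0x89) (nat_lit 1) (p (nat_lit 0x41) (nat_lit 0) (p (nat_lit 0x8078907089a) (nat_lit 0) (p (nat_lit 0x7870886861a) (nat_lit 0) (p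 (nat_lit 0x800070806078a) (nat_lit 0) (p (nat_lit 0x800068785850a) (nat_lit 0) (p (nat_lit 0x587050682) (nat_lit 0) (p (nat_lit 0x506848402) (nat_lit 0) (p (nat_lit 0x160014) (nat_lit 0) (p (nat_lit 0x16000c) (nat_lit 0) (p (nat_lit 0x50612) (nat_lit 0) (p (nat_lit 0x40592) (nat_lit 0) (p (nat_lit 0x40492) (nat_lit 0) (p (nat_lit 0x30412) (nat_lit 0) (p (nat_lit 0x30212) (nat_lit 0) (p (nat_lit 0x20192) (nat_lit 0) (p (nat_lit 0x20092) (nat_lit 0) (p (nat_lit 0x10012) (nat_lit 0) pn)))))))))))))))))))))))))))))))))))) :=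
  Cl.node (nat_lit 0x3a9290a8b89890a) (nat_lit 1) (by decide +kernel) (ClAll.succ ClAll.zero n41)

def n54 : Cl (O (nat_lit 1)) (R (nat_lit 104465))
    (p (nat_lit 0x15c004) (nat_lit 0) (p (nat_lit 0x4000c) (nat_lit 0) (p (nat_lit 0x1b4004) (nat_lit 0) (p (nat_lit 0xc8014) (nat_lit 1) (p (nat_lit 0x8400c) (nat_lit 0) (p (nat_lit 0x84014) (nat_lit 1) (p (nat_lit 0x108014) (nat_lit 0) (p (nat_lit 0x10800c) (nat_lit 0) (p (nat_lit 0x100004) (nat_lit 1) (p (nat_lit 0x200004) (nat_lit 0) (p (nat_lit 0x380c2) (nat_lit 0) (p (nat_lit 0x444aa) (nat_lit 7) (p (nat_lit 0xd1) (nat_lit 1) (p (nat_lit 0x111) (nat_lit 1) (p (nat_lit 0x109) (nat_lit 0) (p (nat_lit 0x101) (nat_lit 0) (p (nat_lit 0x119) (nat_lit 0) (p (nat_lit 0xc9) (nat_lit 0) (p (nat_lit 0x89) (nat_lit 1) (p (nat_lit 0x41) (nat_lit 0) (p (nat_lit 0x8078907089a) (nat_lit 0) (p (nat_lit 0x7870886861a) (nat_lit 0) (p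 (nat_lit 0x800070806078a) (nat_lit 0) (p (nat_lit 0x800068785850a) (nat_lit 0) (p (nat_lit 0x587050682) (nat_lit 0) (p (nat_lit 0x506848402) (nat_lit 0) (p (nat_lit 0x160014) (nat_lit 0) (p (nat_lit 0x16000c) (nat_lit 0) (p (nat_lit 0x50612) (nat_lit 0) (p (nat_lit 0x40592) (nat_lit 0) (p (nat_lit 0x40492) (nat_lit 0) (p (nat_lit 0x30412) (nat_lit 0) (p (nat_lit 0x30212) (nat_lit 0) (p (nat_lit 0x20192) (nat_lit 0) (p (nat_lit 0x20092) (nat_lit 0) (p (nat_lit 0x10012) (nat_lit 0) pn)))))))))))))))))))))))))))))))))))) :=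
  Cl.node (nat_lit 0x5298b0a8b89890a) (nat_lit 1) (by decide +kernel) (ClAll.succ ClAll.zero n42)

def n55 : Cl (O (nat_lit 1)) (R (nat_lit 104465))
    (p (nat_lit 0xc9) (nat_lit 0) (p (nat_lit 0xc1) (nat_lit 0) (p (nat_lit 0xc0b8d0b0c9a) (nat_lit 0) (p (nat_lit 0xb8b0c8a8a1a) (nat_lit 0) (p (nat_lit 0x2680d0b0c0a0b8a) (nat_lit 0) (p (nat_lit 0x2680d0a8b89890a) (nat_lit 0) (p (nat_lit 0xb0014) (nat_lit 0) (p (nat_lit 0xb000c) (nat_lit 1) (p (nat_lit 0x100004) (nat_lit 0) (p (nat_lit 0x200004) (nat_lit 0) (p (nat_lit 0x380c2) (nat_lit 1) (p (nat_lit 0x444aa) (nat_lit 7) (p (nat_lit 0xd1) (nat_lit 1) (p (nat_lit 0x111) (nat_lit 1) (p (nat_lit 0x109) (nat_lit 0) (p (nat_lit 0x101) (nat_lit 0) (p (nat_lit 0x119) (nat_lit 0) (p (nat_lit 0xc9) (nat_lit 0) (p (nat_lit 0x89) (nat_lit 1) (p (nat_lit 0x41) (nat_lit 0) (p (nat_lit 0x8078907089a) (nat_lit 0) (p (nat_lit 0x7870886861a)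 (nat_lit 0) (p (nat_lit 0x800070806078a) (nat_lit 0) (p (nat_lit 0x800068785850a) (nat_lit 0) (p (nat_lit 0x587050682) (nat_lit 0) (p (nat_lit 0x506848402) (nat_lit 0) (p (nat_lit 0x160014) (nat_lit 0) (p (nat_lit 0x16000c) (nat_lit 0) (p (nat_lit 0x50612) (nat_lit 0) (p (nat_lit 0x40592) (nat_lit 0) (p (nat_lit 0x40492) (nat_lit 0) (p (nat_lit 0x30412) (nat_lit 0) (p (nat_lit 0x30212) (nat_lit 0) (p (nat_lit 0x20192) (nat_lit 0) (p (nat_lit 0x20092) (nat_lit 0) (p (nat_lit 0x10012) (nat_lit 0) pn)))))))))))))))))))))))))))))))))))) :=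
  Cl.node (nat_lit 0x58014) (nat_lit 2) (by decide +kernel) (ClAll.succ (ClAll.succ ClAll.zero n43) s642)

def n56 : Cl (O (nat_lit 1)) (R (nat_lit 104465))
    (p (nat_lit 0x109) (nat_lit 0) (p (nat_lit 0x41) (nat_lit 0) (p (nat_lit 0xc0b8d0b0c9a) (nat_lit 0) (p (nat_lit 0xb8b0c8a8a1a) (nat_lit 0) (p (nat_lit 0xe80d8b0c0a0b8a) (nat_lit 0) (p (nat_lit 0xe80d8a8b89890a) (nat_lit 0) (p (nat_lit 0x10800c) (nat_lit 0) (p (nat_lit 0x58014) (nat_lit 1) (p (nat_lit 0xb0014) (nat_lit 0) (p (nat_lit 0x380c2) (nat_lit 0) (p (nat_lit 0x44c2a) (nat_lit 1) (p (nat_lit 0x41) (nat_lit 0) (p (nat_lit 0x200004) (nat_lit 0) (p (nat_lit 0xd1) (nat_lit 0) (p (nat_lit 0x109) (nat_lit 1) (p (nat_lit 0x101) (nat_lit 0) (p (nat_lit 0x119) (nat_lit 0) (p (nat_lit 0xc9) (nat_lit 0) (p (nat_lit 0x89) (nat_lit 1) (p (nat_lit 0x41) (nat_lit 0) (p (nat_lit 0x8078907089a) (nat_lit 0) (p (nat_lit 0x7870886861a)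 (nat_lit 0) (p (nat_lit 0x800070806078a) (nat_lit 0) (p (nat_lit 0x800068785850a) (nat_lit 0) (p (nat_lit 0x587050682) (nat_lit 0) (p (nat_lit 0x506848402) (nat_lit 0) (p (nat_lit 0x160014) (nat_lit 0) (p (nat_lit 0x16000c) (nat_lit 0) (p (nat_lit 0x50612) (nat_lit 0) (p (nat_lit 0x40592) (nat_lit 0) (p (nat_lit 0x40492) (nat_lit 0) (p (nat_lit 0x30412) (nat_lit 0) (p (nat_lit 0x30212) (nat_lit 0) (p (nat_lit 0x20192) (nat_lit 0) (p (nat_lit 0x20092) (nat_lit 0) (p (nat_lit 0x10012) (nat_lit 0) pn)))))))))))))))))))))))))))))))))))) :=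
  Cl.node (nat_lit 0x111) (nat_lit 2) (by decide +kernel) (ClAll.succ (ClAll.succ ClAll.zero n44) s678)

def n57 : Cl (O (nat_lit 1)) (R (nat_lit 104465))
    (p (nat_lit 0xb000c) (nat_lit 0) (p (nat_lit 0x380c2) (nat_lit 0) (p (nat_lit 0x3cc2a) (nat_lit 2) (p (nat_lit 0x380c2) (nat_lit 0) (p (nat_lit 0x43caa) (nat_lit 6) (p (nat_lit 0xc9) (nat_lit 1) (p (nat_lit 0xb0014) (nat_lit 0) (p (nat_lit 0x100004) (nat_lit 0) (p (nat_lit 0x200004) (nat_lit 0) (p (nat_lit 0x380c2) (nat_lit 0) (p (nat_lit 0x4c42a) (nat_lit 10) (p (nat_lit 0x119) (nat_lit 1) (p (nat_lit 0xc9) (nat_lit 0) (p (nat_lit 0x89) (nat_lit 1) (p (nat_lit 0x109) (nat_lit 1) (p (nat_lit 0x101) (nat_lit 0) (p (nat_lit 0x111) (nat_lit 0) (p (nat_lit 0xd1) (nat_lit 1) (p (nat_lit 0x81) (nat_lit 0) (p (nat_lit 0x41) (nat_lit 1) (p (nat_lit 0x8078907089a) (nat_lit 0) (p (nat_lit 0x7870886861a) (nat_lit 0) (p (nat_lit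 0x800070806078a) (nat_lit 0) (p (nat_lit 0x800068785850a) (nat_lit 0) (p (nat_lit 0x587050682) (nat_lit 0) (p (nat_lit 0x506848402) (nat_lit 0) (p (nat_lit 0x160014) (nat_lit 0) (p (nat_lit 0x16000c) (nat_lit 0) (p (nat_lit 0x50612) (nat_lit 0) (p (nat_lit 0x40592) (nat_lit 0) (p (nat_lit 0x40492) (nat_lit 0) (p (nat_lit 0x30412) (nat_lit 0) (p (nat_lit 0x30212) (nat_lit 0) (p (nat_lit 0x20192) (nat_lit 0) (p (nat_lit 0x20092) (nat_lit 0) (p (nat_lit 0x10012) (nat_lit 0) pn)))))))))))))))))))))))))))))))))))) :=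
  Cl.node (nat_lit 0x41) (nat_lit 2) (by decide +kernel) (ClAll.succ (ClAll.succ ClAll.zero n45) s1438)

def n58 : Cl (O (nat_lit 1)) (R (nat_lit 104465))
    (p (nat_lit 0xb000c) (nat_lit 1) (p (nat_lit 0x380c2) (nat_lit 0) (p (nat_lit 0x3cc2a) (nat_lit 2) (p (nat_lit 0x380c2) (nat_lit 0) (p (nat_lit 0x43caa) (nat_lit 6) (p (nat_lit 0xc9) (nat_lit 1) (p (nat_lit 0xb0014) (nat_lit 0) (p (nat_lit 0x100004) (nat_lit 0) (p (nat_lit 0x200004) (nat_lit 0) (p (nat_lit 0x380c2) (nat_lit 0) (p (nat_lit 0x4c42a) (nat_lit 10) (p (nat_lit 0x119) (nat_lit 1) (p (nat_lit 0xc9) (nat_lit 0) (p (nat_lit 0x89) (nat_lit 1) (p (nat_lit 0x109) (nat_lit 1) (p (nat_lit 0x101) (nat_lit 0) (p (nat_lit 0x111) (nat_lit 0) (p (nat_lit 0xd1) (nat_lit 1) (p (nat_lit 0x81) (nat_lit 0) (p (nat_lit 0x41) (nat_lit 1) (p (nat_lit 0x8078907089a) (nat_lit 0) (p (nat_lit 0x7870886861a) (nat_lit 0) (p (nat_lit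 0x800070806078a) (nat_lit 0) (p (nat_lit 0x800068785850a) (nat_lit 0) (p (nat_lit 0x587050682) (nat_lit 0) (p (nat_lit 0x506848402) (nat_lit 0) (p (nat_lit 0x160014) (nat_lit 0) (p (nat_lit 0x16000c) (nat_lit 0) (p (nat_lit 0x50612) (nat_lit 0) (p (nat_lit 0x40592) (nat_lit 0) (p (nat_lit 0x40492) (nat_lit 0) (p (nat_lit 0x30412) (nat_lit 0) (p (nat_lit 0x30212) (nat_lit 0) (p (nat_lit 0x20192) (nat_lit 0) (p (nat_lit 0x20092) (nat_lit 0) (p (nat_lit 0x10012) (nat_lit 0) pn)))))))))))))))))))))))))))))))))))) :=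
  Cl.node (nat_lit 0x10800c) (nat_lit 2) (by decide +kernel) (ClAll.succ (ClAll.succ ClAll.zero s1439) s1440)

def n59 : Cl (O (nat_lit 1)) (R (nat_lit 104465))
    (p (nat_lit 0x5800c) (nat_lit 1) (p (nat_lit 0x89) (nat_lit 1) (p (nat_lit 0x41) (nat_lit 0) (p (nat_lit 0xb000c) (nat_lit 0) (p (nat_lit 0xb0014) (nat_lit 0) (p (nat_lit 0x380c2) (nat_lit 0) (p (nat_lit 0x3cc2a) (nat_lit 2) (p (nat_lit 0x100004) (nat_lit 0) (p (nat_lit 0x200004) (nat_lit 0) (p (nat_lit 0x380c2) (nat_lit 1) (p (nat_lit 0x4c42a) (nat_lit 10) (p (nat_lit 0x119) (nat_lit 1) (p (nat_lit 0xc9) (nat_lit 0) (p (nat_lit 0x89) (nat_lit 1) (p (nat_lit 0x109) (nat_lit 1) (p (nat_lit 0x101) (nat_lit 0) (p (nat_lit 0x111) (nat_lit 0) (p (nat_lit 0xd1) (nat_lit 1) (p (nat_lit 0x81) (nat_lit 0) (p (nat_lit 0x41) (nat_lit 1) (p (nat_lit 0x8078907089a) (nat_lit 0) (p (nat_lit 0x7870886861a) (nat_lit 0) (p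 (nat_lit 0x800070806078a) (nat_lit 0) (p (nat_lit 0x800068785850a) (nat_lit 0) (p (nat_lit 0x587050682) (nat_lit 0) (p (nat_lit 0x506848402) (nat_lit 0) (p (nat_lit 0x160014) (nat_lit 0) (p (nat_lit 0x16000c) (nat_lit 0) (p (nat_lit 0x50612) (nat_lit 0) (p (nat_lit 0x40592) (nat_lit 0) (p (nat_lit 0x40492) (nat_lit 0) (p (nat_lit 0x30412) (nat_lit 0) (p (nat_lit 0x30212) (nat_lit 0) (p (nat_lit 0x20192) (nat_lit 0) (p (nat_lit 0x20092) (nat_lit 0) (p (nat_lit 0x10012) (nat_lit 0) pn)))))))))))))))))))))))))))))))))))) :=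
  Cl.node (nat_lit 0x80004) (nat_lit 2) (by decide +kernel) (ClAll.succ (ClAll.succ ClAll.zero s1462) n46)

def n60 : Cl (O (nat_lit 1)) (R (nat_lit 104465))
    (p (nat_lit 0x2680d0d0e0c0d8a) (nat_lit 0) (p (nat_lit 0x2680d0c8d8b8b0a) (nat_lit 0) (p (nat_lit 0x58014) (nat_lit 0) (p (nat_lit 0xb000c) (nat_lit 1) (p (nat_lit 0xb0014) (nat_lit 0) (p (nat_lit 0x380c2) (nat_lit 0) (p (nat_lit 0x3cc2a) (nat_lit 2) (p (nat_lit 0x100004) (nat_lit 0) (p (nat_lit 0x200004) (nat_lit 0) (p (nat_lit 0x380c2) (nat_lit 1) (p (nat_lit 0x4c42a) (nat_lit 10) (p (nat_lit 0x119) (nat_lit 1) (p (nat_lit 0xc9) (nat_lit 0) (p (nat_lit 0x89) (nat_lit 1) (p (nat_lit 0x109) (nat_lit 1) (p (nat_lit 0x101) (nat_lit 0) (p (nat_lit 0x111) (nat_lit 0) (p (nat_lit 0xd1) (nat_lit 1) (p (nat_lit 0x81) (nat_lit 0) (p (nat_lit 0x41) (nat_lit 1) (p (nat_lit 0x8078907089a) (nat_lit 0) (p (nat_lit 0x7870886861a)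 (nat_lit 0) (p (nat_lit 0x800070806078a) (nat_lit 0) (p (nat_lit 0x800068785850a) (nat_lit 0) (p (nat_lit 0x587050682) (nat_lit 0) (p (nat_lit 0x506848402) (nat_lit 0) (p (nat_lit 0x160014) (nat_lit 0) (p (nat_lit 0x16000c) (nat_lit 0) (p (nat_lit 0x50612) (nat_lit 0) (p (nat_lit 0x40592) (nat_lit 0) (p (nat_lit 0x40492) (nat_lit 0) (p (nat_lit 0x30412) (nat_lit 0) (p (nat_lit 0x30212) (nat_lit 0) (p (nat_lit 0x20192) (nat_lit 0) (p (nat_lit 0x20092) (nat_lit 0) (p (nat_lit 0x10012) (nat_lit 0) pn)))))))))))))))))))))))))))))))))))) :=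
  Cl.node (nat_lit 0xd8d0e8c8c1a) (nat_lit 1) (by decide +kernel) (ClAll.succ ClAll.zero n47)

def n61 : Cl (O (nat_lit 1)) (R (nat_lit 104465))
    (p (nat_lit 0x268c30a8b89890a) (nat_lit 0) (p (nat_lit 0x180004) (nat_lit 0) (p (nat_lit 0x84014) (nat_lit 1) (p (nat_lit 0x81) (nat_lit 0) (p (nat_lit 0x8400c) (nat_lit 0) (p (nat_lit 0x108014) (nat_lit 0) (p (nat_lit 0x10800c) (nat_lit 0) (p (nat_lit 0x100004) (nat_lit 1) (p (nat_lit 0x200004) (nat_lit 0) (p (nat_lit 0x380c2) (nat_lit 0) (p (nat_lit 0x444aa) (nat_lit 7) (p (nat_lit 0x81) (nat_lit 1) (p (nat_lit 0xc9) (nat_lit 1) (p (nat_lit 0x109) (nat_lit 1) (p (nat_lit 0x101) (nat_lit 0) (p (nat_lit 0x119) (nat_lit 0) (p (nat_lit 0xd1) (nat_lit 0) (p (nat_lit 0x89) (nat_lit 0) (p (nat_lit 0x41) (nat_lit 0) (p (nat_lit 0x8078907089a) (nat_lit 0) (p (nat_lit 0x7870886861a) (nat_lit 0) (p (nat_lit 0x800070806078a) (nat_lit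 0) (p (nat_lit 0x800068785850a) (nat_lit 0) (p (nat_lit 0x587050682) (nat_lit 0) (p (nat_lit 0x506848402) (nat_lit 0) (p (nat_lit 0x160014) (nat_lit 0) (p (nat_lit 0x16000c) (nat_lit 0) (p (nat_lit 0x50612) (nat_lit 0) (p (nat_lit 0x40592) (nat_lit 0) (p (nat_lit 0x40492) (nat_lit 0) (p (nat_lit 0x30412) (nat_lit 0) (p (nat_lit 0x30212) (nat_lit 0) (p (nat_lit 0x20192) (nat_lit 0) (p (nat_lit 0x20092) (nat_lit 0) (p (nat_lit 0x10012) (nat_lit 0) pn))))))))))))))))))))))))))))))))))) :=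
  Cl.node (nat_lit 0x268c30b0c0a0b8a) (nat_lit 1) (by decide +kernel) (ClAll.succ ClAll.zero n48)

def n62 : Cl (O (nat_lit 1)) (R (nat_lit 104465))
    (p (nat_lit 0xd1) (nat_lit 0) (p (nat_lit 0x81) (nat_lit 0) (p (nat_lit 0xc0b8d0b0c9a) (nat_lit 0) (p (nat_lit 0xb8b0c8a8a1a) (nat_lit 0) (p (nat_lit 0x2a8258b0c0a0b8a) (nat_lit 0) (p (nat_lit 0x2a8258a8b89890a) (nat_lit 0) (p (nat_lit 0xb0014) (nat_lit 0) (p (nat_lit 0x1fc004) (nat_lit 0) (p (nat_lit 0xb000c) (nat_lit 1) (p (nat_lit 0x101) (nat_lit 0) (p (nat_lit 0x380c2) (nat_lit 0) (p (nat_lit 0x3cc2a) (nat_lit 2) (p (nat_lit 0x109) (nat_lit 1) (p (nat_lit 0xc9) (nat_lit 1) (p (nat_lit 0xc1) (nat_lit 0) (p (nat_lit 0x119) (nat_lit 1) (p (nat_lit 0xd1) (nat_lit 0) (p (nat_lit 0x89) (nat_lit 0) (p (nat_lit 0x41) (nat_lit 0) (p (nat_lit 0x8078907089a) (nat_lit 0) (p (nat_lit 0x7870886861a) (nat_lit 0) (p (nat_lit 0x800070806078a)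 (nat_lit 0) (p (nat_lit 0x800068785850a) (nat_lit 0) (p (nat_lit 0x587050682) (nat_lit 0) (p (nat_lit 0x506848402) (nat_lit 0) (p (nat_lit 0x160014) (nat_lit 0) (p (nat_lit 0x16000c) (nat_lit 0) (p (nat_lit 0x50612) (nat_lit 0) (p (nat_lit 0x40592) (nat_lit 0) (p (nat_lit 0x40492) (nat_lit 0) (p (nat_lit 0x30412) (nat_lit 0) (p (nat_lit 0x30212) (nat_lit 0) (p (nat_lit 0x20192) (nat_lit 0) (p (nat_lit 0x20092) (nat_lit 0) (p (nat_lit 0x10012) (nat_lit 0) pn))))))))))))))))))))))))))))))))))) :=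
  Cl.node (nat_lit 0xc9) (nat_lit 2) (by decide +kernel) (ClAll.succ (ClAll.succ ClAll.zero s246) n49)

def n63 : Cl (O (nat_lit 1)) (R (nat_lit 104465))
    (p (nat_lit 0xc9) (nat_lit 1) (p (nat_lit 0xc0b8d0b0c9a) (nat_lit 0) (p (nat_lit 0xb8b0c8a8a1a) (nat_lit 0) (p (nat_lit 0x2a8258b0c0a0b8a) (nat_lit 0) (p (nat_lit 0x2a8258a8b89890a) (nat_lit 0) (p (nat_lit 0xb0014) (nat_lit 0) (p (nat_lit 0x1fc004) (nat_lit 0) (p (nat_lit 0xb000c) (nat_lit 1) (p (nat_lit 0x41) (nat_lit 0) (p (nat_lit 0x101) (nat_lit 1) (p (nat_lit 0x380c2) (nat_lit 0) (p (nat_lit 0x3cc2a) (nat_lit 2) (p (nat_lit 0x109) (nat_lit 1) (p (nat_lit 0xc9) (nat_lit 1) (p (nat_lit 0xc1) (nat_lit 0) (p (nat_lit 0x119) (nat_lit 1) (p (nat_lit 0xd1) (nat_lit 0) (p (nat_lit 0x89) (nat_lit 0) (p (nat_lit 0x41) (nat_lit 0) (p (nat_lit 0x8078907089a) (nat_lit 0) (p (nat_lit 0x7870886861a) (nat_lit 0) (p (nat_lit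 0x800070806078a) (nat_lit 0) (p (nat_lit 0x800068785850a) (nat_lit 0) (p (nat_lit 0x587050682) (nat_lit 0) (p (nat_lit 0x506848402) (nat_lit 0) (p (nat_lit 0x160014) (nat_lit 0) (p (nat_lit 0x16000c) (nat_lit 0) (p (nat_lit 0x50612) (nat_lit 0) (p (nat_lit 0x40592) (nat_lit 0) (p (nat_lit 0x40492) (nat_lit 0) (p (nat_lit 0x30412) (nat_lit 0) (p (nat_lit 0x30212) (nat_lit 0) (p (nat_lit 0x20192) (nat_lit 0) (p (nat_lit 0x20092) (nat_lit 0) (p (nat_lit 0x10012) (nat_lit 0) pn))))))))))))))))))))))))))))))))))) :=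
  Cl.node (nat_lit 0x109) (nat_lit 2) (by decide +kernel) (ClAll.succ (ClAll.succ ClAll.zero s263) n50)

def n64 : Cl (O (nat_lit 1)) (R (nat_lit 104465))
    (p (nat_lit 0xb000c) (nat_lit 1) (p (nat_lit 0x81) (nat_lit 1) (p (nat_lit 0x41) (nat_lit 1) (p (nat_lit 0x100004) (nat_lit 0) (p (nat_lit 0x200004) (nat_lit 0) (p (nat_lit 0x380c2) (nat_lit 0) (p (nat_lit 0x4c42a) (nat_lit 10) (p (nat_lit 0x89) (nat_lit 0) (p (nat_lit 0xb0014) (nat_lit 0) (p (nat_lit 0x380c2) (nat_lit 0) (p (nat_lit 0x3cc2a) (nat_lit 2) (p (nat_lit 0x119) (nat_lit 1) (p (nat_lit 0xc1) (nat_lit 0) (p (nat_lit 0x81) (nat_lit 1) (p (nat_lit 0x101) (nat_lit 1) (p (nat_lit 0x111) (nat_lit 0) (p (nat_lit 0xd1) (nat_lit 1) (p (nat_lit 0x89) (nat_lit 0) (p (nat_lit 0x41) (nat_lit 0) (p (nat_lit 0x8078907089a) (nat_lit 0) (p (nat_lit 0x7870886861a) (nat_lit 0) (p (nat_lit 0x800070806078a) (nat_lit 0) (p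 (nat_lit 0x800068785850a) (nat_lit 0) (p (nat_lit 0x587050682) (nat_lit 0) (p (nat_lit 0x506848402) (nat_lit 0) (p (nat_lit 0x160014) (nat_lit 0) (p (nat_lit 0x16000c) (nat_lit 0) (p (nat_lit 0x50612) (nat_lit 0) (p (nat_lit 0x40592) (nat_lit 0) (p (nat_lit 0x40492) (nat_lit 0) (p (nat_lit 0x30412) (nat_lit 0) (p (nat_lit 0x30212) (nat_lit 0) (p (nat_lit 0x20192) (nat_lit 0) (p (nat_lit 0x20092) (nat_lit 0) (p (nat_lit 0x10012) (nat_lit 0) pn))))))))))))))))))))))))))))))))))) :=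
  Cl.node (nat_lit 0x58014) (nat_lit 2) (by decide +kernel) (ClAll.succ (ClAll.succ ClAll.zero n51) s484)

def n65 : Cl (O (nat_lit 1)) (R (nat_lit 104465))
    (p (nat_lit 0x180004) (nat_lit 0) (p (nat_lit 0xa8014) (nat_lit 0) (p (nat_lit 0xc8014) (nat_lit 0) (p (nat_lit 0x8400c) (nat_lit 0) (p (nat_lit 0x84014) (nat_lit 1) (p (nat_lit 0x108014) (nat_lit 0) (p (nat_lit 0x10800c) (nat_lit 0) (p (nat_lit 0x100004) (nat_lit 1) (p (nat_lit 0x200004) (nat_lit 0) (p (nat_lit 0x380c2) (nat_lit 0) (p (nat_lit 0x444aa) (nat_lit 7) (p (nat_lit 0xd1) (nat_lit 1) (p (nat_lit 0x111) (nat_lit 1) (p (nat_lit 0x109) (nat_lit 0) (p (nat_lit 0x101) (nat_lit 0) (p (nat_lit 0x119) (nat_lit 0) (p (nat_lit 0xc9) (nat_lit 0) (p (nat_lit 0x89) (nat_lit 1) (p (nat_lit 0x41) (nat_lit 0) (p (nat_lit 0x8078907089a) (nat_lit 0) (p (nat_lit 0x7870886861a) (nat_lit 0) (p (nat_lit 0x800070806078a)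 (nat_lit 0) (p (nat_lit 0x800068785850a) (nat_lit 0) (p (nat_lit 0x587050682) (nat_lit 0) (p (nat_lit 0x506848402) (nat_lit 0) (p (nat_lit 0x160014) (nat_lit 0) (p (nat_lit 0x16000c) (nat_lit 0) (p (nat_lit 0x50612) (nat_lit 0) (p (nat_lit 0x40592) (nat_lit 0) (p (nat_lit 0x40492) (nat_lit 0) (p (nat_lit 0x30412) (nat_lit 0) (p (nat_lit 0x30212) (nat_lit 0) (p (nat_lit 0x20192) (nat_lit 0) (p (nat_lit 0x20092) (nat_lit 0) (p (nat_lit 0x10012) (nat_lit 0) pn))))))))))))))))))))))))))))))))))) :=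
  Cl.node (nat_lit 0x268c30a8b89890a) (nat_lit 1) (by decide +kernel) (ClAll.succ ClAll.zero n52)

def n66 : Cl (O (nat_lit 1)) (R (nat_lit 104465))
    (p (nat_lit 0x6000c) (nat_lit 0) (p (nat_lit 0xa8014) (nat_lit 1) (p (nat_lit 0xc8014) (nat_lit 0) (p (nat_lit 0x8400c) (nat_lit 0) (p (nat_lit 0x84014) (nat_lit 1) (p (nat_lit 0x108014) (nat_lit 0) (p (nat_lit 0x10800c) (nat_lit 0) (p (nat_lit 0x100004) (nat_lit 1) (p (nat_lit 0x200004) (nat_lit 0) (p (nat_lit 0x380c2) (nat_lit 0) (p (nat_lit 0x444aa) (nat_lit 7) (p (nat_lit 0xd1) (nat_lit 1) (p (nat_lit 0x111) (nat_lit 1) (p (nat_lit 0x109) (nat_lit 0) (p (nat_lit 0x101) (nat_lit 0) (p (nat_lit 0x119) (nat_lit 0) (p (nat_lit 0xc9) (nat_lit 0) (p (nat_lit 0x89) (nat_lit 1) (p (nat_lit 0x41) (nat_lit 0) (p (nat_lit 0x8078907089a) (nat_lit 0) (p (nat_lit 0x7870886861a) (nat_lit 0) (p (nat_lit 0x800070806078a) (nat_lit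 0) (p (nat_lit 0x800068785850a) (nat_lit 0) (p (nat_lit 0x587050682) (nat_lit 0) (p (nat_lit 0x506848402) (nat_lit 0) (p (nat_lit 0x160014) (nat_lit 0) (p (nat_lit 0x16000c) (nat_lit 0) (p (nat_lit 0x50612) (nat_lit 0) (p (nat_lit 0x40592) (nat_lit 0) (p (nat_lit 0x40492) (nat_lit 0) (p (nat_lit 0x30412) (nat_lit 0) (p (nat_lit 0x30212) (nat_lit 0) (p (nat_lit 0x20192) (nat_lit 0) (p (nat_lit 0x20092) (nat_lit 0) (p (nat_lit 0x10012) (nat_lit 0) pn))))))))))))))))))))))))))))))))))) :=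
  Cl.node (nat_lit 0x180004) (nat_lit 2) (by decide +kernel) (ClAll.succ (ClAll.succ ClAll.zero n53) s574)

def n67 : Cl (O (nat_lit 1)) (R (nat_lit 104465))
    (p (nat_lit 0x4000c) (nat_lit 0) (p (nat_lit 0x1b4004) (nat_lit 0) (p (nat_lit 0xc8014) (nat_lit 1) (p (nat_lit 0x8400c) (nat_lit 0) (p (nat_lit 0x84014) (nat_lit 1) (p (nat_lit 0x108014) (nat_lit 0) (p (nat_lit 0x10800c) (nat_lit 0) (p (nat_lit 0x100004) (nat_lit 1) (p (nat_lit 0x200004) (nat_lit 0) (p (nat_lit 0x380c2) (nat_lit 0) (p (nat_lit 0x444aa) (nat_lit 7) (p (nat_lit 0xd1) (nat_lit 1) (p (nat_lit 0x111) (nat_lit 1) (p (nat_lit 0x109) (nat_lit 0) (p (nat_lit 0x101) (nat_lit 0) (p (nat_lit 0x119) (nat_lit 0) (p (nat_lit 0xc9) (nat_lit 0) (p (nat_lit 0x89) (nat_lit 1) (p (nat_lit 0x41) (nat_lit 0) (p (nat_lit 0x8078907089a) (nat_lit 0) (p (nat_lit 0x7870886861a) (nat_lit 0) (p (nat_lit 0x800070806078a)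 (nat_lit 0) (p (nat_lit 0x800068785850a) (nat_lit 0) (p (nat_lit 0x587050682) (nat_lit 0) (p (nat_lit 0x506848402) (nat_lit 0) (p (nat_lit 0x160014) (nat_lit 0) (p (nat_lit 0x16000c) (nat_lit 0) (p (nat_lit 0x50612) (nat_lit 0) (p (nat_lit 0x40592) (nat_lit 0) (p (nat_lit 0x40492) (nat_lit 0) (p (nat_lit 0x30412) (nat_lit 0) (p (nat_lit 0x30212) (nat_lit 0) (p (nat_lit 0x20192) (nat_lit 0) (p (nat_lit 0x20092) (nat_lit 0) (p (nat_lit 0x10012) (nat_lit 0) pn))))))))))))))))))))))))))))))))))) :=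
  Cl.node (nat_lit 0x15c004) (nat_lit 2) (by decide +kernel) (ClAll.succ (ClAll.succ ClAll.zero n54) s617)

def n68 : Cl (O (nat_lit 1)) (R (nat_lit 104465))
    (p (nat_lit 0xc1) (nat_lit 0) (p (nat_lit 0xc0b8d0b0c9a) (nat_lit 0) (p (nat_lit 0xb8b0c8a8a1a) (nat_lit 0) (p (nat_lit 0x2680d0b0c0a0b8a) (nat_lit 0) (p (nat_lit 0x2680d0a8b89890a) (nat_lit 0) (p (nat_lit 0xb0014) (nat_lit 0) (p (nat_lit 0xb000c) (nat_lit 1) (p (nat_lit 0x100004) (nat_lit 0) (p (nat_lit 0x200004) (nat_lit 0) (p (nat_lit 0x380c2) (nat_lit 1) (p (nat_lit 0x444aa) (nat_lit 7) (p (nat_lit 0xd1) (nat_lit 1) (p (nat_lit 0x111) (nat_lit 1) (p (nat_lit 0x109) (nat_lit 0) (p (nat_lit 0x101) (nat_lit 0) (p (nat_lit 0x119) (nat_lit 0) (p (nat_lit 0xc9) (nat_lit 0) (p (nat_lit 0x89) (nat_lit 1) (p (nat_lit 0x41) (nat_lit 0) (p (nat_lit 0x8078907089a) (nat_lit 0) (p (nat_lit 0x7870886861a) (nat_lit 0) (p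 (nat_lit 0x800070806078a) (nat_lit 0) (p (nat_lit 0x800068785850a) (nat_lit 0) (p (nat_lit 0x587050682) (nat_lit 0) (p (nat_lit 0x506848402) (nat_lit 0) (p (nat_lit 0x160014) (nat_lit 0) (p (nat_lit 0x16000c) (nat_lit 0) (p (nat_lit 0x50612) (nat_lit 0) (p (nat_lit 0x40592) (nat_lit 0) (p (nat_lit 0x40492) (nat_lit 0) (p (nat_lit 0x30412) (nat_lit 0) (p (nat_lit 0x30212) (nat_lit 0) (p (nat_lit 0x20192) (nat_lit 0) (p (nat_lit 0x20092) (nat_lit 0) (p (nat_lit 0x10012) (nat_lit 0) pn))))))))))))))))))))))))))))))))))) :=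
  Cl.node (nat_lit 0xc9) (nat_lit 2) (by decide +kernel) (ClAll.succ (ClAll.succ ClAll.zero n55) s643)

def n69 : Cl (O (nat_lit 1)) (R (nat_lit 104465))
    (p (nat_lit 0x41) (nat_lit 0) (p (nat_lit 0xc0b8d0b0c9a) (nat_lit 0) (p (nat_lit 0xb8b0c8a8a1a) (nat_lit 0) (p (nat_lit 0xe80d8b0c0a0b8a) (nat_lit 0) (p (nat_lit 0xe80d8a8b89890a) (nat_lit 0) (p (nat_lit 0x10800c) (nat_lit 0) (p (nat_lit 0x58014) (nat_lit 1) (p (nat_lit 0xb0014) (nat_lit 0) (p (nat_lit 0x380c2) (nat_lit 0) (p (nat_lit 0x44c2a) (nat_lit 1) (p (nat_lit 0x41) (nat_lit 0) (p (nat_lit 0x200004) (nat_lit 0) (p (nat_lit 0xd1) (nat_lit 0) (p (nat_lit 0x109) (nat_lit 1) (p (nat_lit 0x101) (nat_lit 0) (p (nat_lit 0x119) (nat_lit 0) (p (nat_lit 0xc9) (nat_lit 0) (p (nat_lit 0x89) (nat_lit 1) (p (nat_lit 0x41) (nat_lit 0) (p (nat_lit 0x8078907089a) (nat_lit 0) (p (nat_lit 0x7870886861a) (nat_lit 0) (p (nat_lit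 0x800070806078a) (nat_lit 0) (p (nat_lit 0x800068785850a) (nat_lit 0) (p (nat_lit 0x587050682) (nat_lit 0) (p (nat_lit 0x506848402) (nat_lit 0) (p (nat_lit 0x160014) (nat_lit 0) (p (nat_lit 0x16000c) (nat_lit 0) (p (nat_lit 0x50612) (nat_lit 0) (p (nat_lit 0x40592) (nat_lit 0) (p (nat_lit 0x40492) (nat_lit 0) (p (nat_lit 0x30412) (nat_lit 0) (p (nat_lit 0x30212) (nat_lit 0) (p (nat_lit 0x20192) (nat_lit 0) (p (nat_lit 0x20092) (nat_lit 0) (p (nat_lit 0x10012) (nat_lit 0) pn))))))))))))))))))))))))))))))))))) :=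
  Cl.node (nat_lit 0x109) (nat_lit 2) (by decide +kernel) (ClAll.succ (ClAll.succ ClAll.zero n56) s679)

def n70 : Cl (O (nat_lit 1)) (R (nat_lit 104465))
    (p (nat_lit 0xc9) (nat_lit 0) (p (nat_lit 0xc1) (nat_lit 0) (p (nat_lit 0xc0b8d0b0c9a) (nat_lit 0) (p (nat_lit 0xb8b0c8a8a1a) (nat_lit 0) (p (nat_lit 0x2680d0b0c0a0b8a) (nat_lit 0) (p (nat_lit 0x2680d0a8b89890a) (nat_lit 0) (p (nat_lit 0x100004) (nat_lit 0) (p (nat_lit 0xb000c) (nat_lit 0) (p (nat_lit 0x1fc004) (nat_lit 0) (p (nat_lit 0xb0014) (nat_lit 1) (p (nat_lit 0x380c2) (nat_lit 1) (p (nat_lit 0x444aa) (nat_lit 7) (p (nat_lit 0xd1) (nat_lit 1) (p (nat_lit 0x109) (nat_lit 1) (p (nat_lit 0x101) (nat_lit 0) (p (nat_lit 0x119) (nat_lit 0) (p (nat_lit 0xc9) (nat_lit 0) (p (nat_lit 0x89) (nat_lit 1) (p (nat_lit 0x41) (nat_lit 0) (p (nat_lit 0x8078907089a) (nat_lit 0) (p (nat_lit 0x7870886861a) (nat_lit 0) (p (nat_lit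 0x800070806078a) (nat_lit 0) (p (nat_lit 0x800068785850a) (nat_lit 0) (p (nat_lit 0x587050682) (nat_lit 0) (p (nat_lit 0x506848402) (nat_lit 0) (p (nat_lit 0x160014) (nat_lit 0) (p (nat_lit 0x16000c) (nat_lit 0) (p (nat_lit 0x50612) (nat_lit 0) (p (nat_lit 0x40592) (nat_lit 0) (p (nat_lit 0x40492) (nat_lit 0) (p (nat_lit 0x30412) (nat_lit 0) (p (nat_lit 0x30212) (nat_lit 0) (p (nat_lit 0x20192) (nat_lit 0) (p (nat_lit 0x20092) (nat_lit 0) (p (nat_lit 0x10012) (nat_lit 0) pn))))))))))))))))))))))))))))))))))) :=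
  Cl.node (nat_lit 0x3cc2a) (nat_lit 12) (by decide +kernel) (ClAll.succ (ClAll.succ (ClAll.succ (ClAll.succ (ClAll.succ (ClAll.succ (ClAll.succ (ClAll.succ (ClAll.succ (ClAll.succ (ClAll.succ (ClAll.succ ClAll.zero s778) s779) s780) s781) s782) s783) s784) s785) s786) s787) s788) s789)

def n71 : Cl (O (nat_lit 1)) (R (nat_lit 104465))
    (p (nat_lit 0x119) (nat_lit 0) (p (nat_lit 0xc1) (nat_lit 0) (p (nat_lit 0xc0b8d0b0c9a) (nat_lit 0) (p (nat_lit 0xb8b0c8a8a1a) (nat_lit 0) (p (nat_lit 0x2a8258b0c0a0b8a) (nat_lit 0) (p (nat_lit 0x2a8258a8b89890a) (nat_lit 0) (p (nat_lit 0xb000c) (nat_lit 0) (p (nat_lit 0xb0014) (nat_lit 1) (p (nat_lit 0x380c2) (nat_lit 0) (p (nat_lit 0x44c2a) (nat_lit 1) (p (nat_lit 0x109) (nat_lit 1) (p (nat_lit 0x200004) (nat_lit 0) (p (nat_lit 0xd1) (nat_lit 0) (p (nat_lit 0xc1) (nat_lit 0) (p (nat_lit 0x101) (nat_lit 1) (p (nat_lit 0x119) (nat_lit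 0) (p (nat_lit 0xc9) (nat_lit 0) (p (nat_lit 0x89) (nat_lit 1) (p (nat_lit 0x41) (nat_lit 0) (p (nat_lit 0x8078907089a) (nat_lit 0) (p (nat_lit 0x7870886861a) (nat_lit 0) (p (nat_lit 0x800070806078a) (nat_lit 0) (p (nat_lit 0x800068785850a) (nat_lit 0) (p (nat_lit 0x587050682) (nat_lit 0) (p (nat_lit 0x506848402) (nat_lit 0) (p (nat_lit 0x160014) (nat_lit 0) (p (nat_lit 0x16000c) (nat_lit 0) (p (nat_lit 0x50612) (nat_lit 0) (p (nat_lit 0x40592) (nat_lit 0) (p (nat_lit 0x40492) (nat_lit 0) (p (nat_lit 0x30412) (nat_lit 0) (p (nat_lit 0x30212) (nat_lit 0) (p (nat_lit 0x20192) (nat_lit 0) (p (nat_lit 0x20092) (nat_lit 0) (p (nat_lit 0x10012) (nat_lit 0) pn))))))))))))))))))))))))))))))))))) :=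
  Cl.node (nat_lit 0x109) (nat_lit 2) (by decide +kernel) (ClAll.succ (ClAll.succ ClAll.zero s819) s820)

def n72 : Cl (O (nat_lit 1)) (R (nat_lit 104465))
    (p (nat_lit 0x380c2) (nat_lit 0) (p (nat_lit 0x3cc2a) (nat_lit 2) (p (nat_lit 0x380c2) (nat_lit 0) (p (nat_lit 0x43caa) (nat_lit 6) (p (nat_lit 0xc9) (nat_lit 1) (p (nat_lit 0xb0014) (nat_lit 0) (p (nat_lit 0x100004) (nat_lit 0) (p (nat_lit 0x200004) (nat_lit 0) (p (nat_lit 0x380c2) (nat_lit 0) (p (nat_lit 0x4c42a) (nat_lit 10) (p (nat_lit 0x119) (nat_lit 1) (p (nat_lit 0xc9) (nat_lit 0) (p (nat_lit 0x89) (nat_lit 1) (p (nat_lit 0x109) (nat_lit 1) (p (nat_lit 0x101) (nat_lit 0) (p (nat_lit 0x111) (nat_lit 0) (p (nat_lit 0xd1) (nat_lit 1) (p (nat_lit 0x81) (nat_lit 0) (p (nat_lit 0x41) (nat_lit 1) (p (nat_lit 0x8078907089a) (nat_lit 0) (p (nat_lit 0x7870886861a) (nat_lit 0) (p (nat_lit 0x800070806078a) (nat_lit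 0) (p (nat_lit 0x800068785850a) (nat_lit 0) (p (nat_lit 0x587050682) (nat_lit 0) (p (nat_lit 0x506848402) (nat_lit 0) (p (nat_lit 0x160014) (nat_lit 0) (p (nat_lit 0x16000c) (nat_lit 0) (p (nat_lit 0x50612) (nat_lit 0) (p (nat_lit 0x40592) (nat_lit 0) (p (nat_lit 0x40492) (nat_lit 0) (p (nat_lit 0x30412) (nat_lit 0) (p (nat_lit 0x30212) (nat_lit 0) (p (nat_lit 0x20192) (nat_lit 0) (p (nat_lit 0x20092) (nat_lit 0) (p (nat_lit 0x10012) (nat_lit 0) pn))))))))))))))))))))))))))))))))))) :=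
  Cl.node (nat_lit 0xb000c) (nat_lit 2) (by decide +kernel) (ClAll.succ (ClAll.succ ClAll.zero n57) n58)

def n73 : Cl (O (nat_lit 1)) (R (nat_lit 104465))
    (p (nat_lit 0x89) (nat_lit 1) (p (nat_lit 0x41) (nat_lit 0) (p (nat_lit 0xb000c) (nat_lit 0) (p (nat_lit 0xb0014) (nat_lit 0) (p (nat_lit 0x380c2) (nat_lit 0) (p (nat_lit 0x3cc2a) (nat_lit 2) (p (nat_lit 0x100004) (nat_lit 0) (p (nat_lit 0x200004) (nat_lit 0) (p (nat_lit 0x380c2) (nat_lit 1) (p (nat_lit 0x4c42a) (nat_lit 10) (p (nat_lit 0x119) (nat_lit 1) (p (nat_lit 0xc9) (nat_lit 0) (p (nat_lit 0x89) (nat_lit 1) (p (nat_lit 0x109) (nat_lit 1) (p (nat_lit 0x101) (nat_lit 0) (p (nat_lit 0x111) (nat_lit 0) (p (nat_lit 0xd1) (nat_lit 1) (p (nat_lit 0x81) (nat_lit 0) (p (nat_lit 0x41) (nat_lit 1) (p (nat_lit 0x8078907089a) (nat_lit 0) (p (nat_lit 0x7870886861a) (nat_lit 0) (p (nat_lit 0x800070806078a) (nat_lit 0)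 (p (nat_lit 0x800068785850a) (nat_lit 0) (p (nat_lit 0x587050682) (nat_lit 0) (p (nat_lit 0x506848402) (nat_lit 0) (p (nat_lit 0x160014) (nat_lit 0) (p (nat_lit 0x16000c) (nat_lit 0) (p (nat_lit 0x50612) (nat_lit 0) (p (nat_lit 0x40592) (nat_lit 0) (p (nat_lit 0x40492) (nat_lit 0) (p (nat_lit 0x30412) (nat_lit 0) (p (nat_lit 0x30212) (nat_lit 0) (p (nat_lit 0x20192) (nat_lit 0) (p (nat_lit 0x20092) (nat_lit 0) (p (nat_lit 0x10012) (nat_lit 0) pn))))))))))))))))))))))))))))))))))) :=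
  Cl.node (nat_lit 0x5800c) (nat_lit 2) (by decide +kernel) (ClAll.succ (ClAll.succ ClAll.zero s1461) n59)

def n74 : Cl (O (nat_lit 1)) (R (nat_lit 104465))
    (p (nat_lit 0x2680d0c8d8b8b0a) (nat_lit 0) (p (nat_lit 0x58014) (nat_lit 0) (p (nat_lit 0xb000c) (nat_lit 1) (p (nat_lit 0xb0014) (nat_lit 0) (p (nat_lit 0x380c2) (nat_lit 0) (p (nat_lit 0x3cc2a) (nat_lit 2) (p (nat_lit 0x100004) (nat_lit 0) (p (nat_lit 0x200004) (nat_lit 0) (p (nat_lit 0x380c2) (nat_lit 1) (p (nat_lit 0x4c42a) (nat_lit 10) (p (nat_lit 0x119) (nat_lit 1) (p (nat_lit 0xc9) (nat_lit 0) (p (nat_lit 0x89) (nat_lit 1) (p (nat_lit 0x109) (nat_lit 1) (p (nat_lit 0x101) (nat_lit 0) (p (nat_lit 0x111) (nat_lit 0) (p (nat_lit 0xd1) (nat_lit 1) (p (nat_lit 0x81) (nat_lit 0) (p (nat_lit 0x41) (nat_lit 1) (p (nat_lit 0x8078907089a) (nat_lit 0) (p (nat_lit 0x7870886861a) (nat_lit 0) (p (nat_lit 0x800070806078a)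 (nat_lit 0) (p (nat_lit 0x800068785850a) (nat_lit 0) (p (nat_lit 0x587050682) (nat_lit 0) (p (nat_lit 0x506848402) (nat_lit 0) (p (nat_lit 0x160014) (nat_lit 0) (p (nat_lit 0x16000c) (nat_lit 0) (p (nat_lit 0x50612) (nat_lit 0) (p (nat_lit 0x40592) (nat_lit 0) (p (nat_lit 0x40492) (nat_lit 0) (p (nat_lit 0x30412) (nat_lit 0) (p (nat_lit 0x30212) (nat_lit 0) (p (nat_lit 0x20192) (nat_lit 0) (p (nat_lit 0x20092) (nat_lit 0) (p (nat_lit 0x10012) (nat_lit 0) pn))))))))))))))))))))))))))))))))))) :=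
  Cl.node (nat_lit 0x2680d0d0e0c0d8a) (nat_lit 1) (by decide +kernel) (ClAll.succ ClAll.zero n60)

def n75 : Cl (O (nat_lit 1)) (R (nat_lit 104465))
    (p (nat_lit 0x109) (nat_lit 1) (p (nat_lit 0xc0b8d0b0c9a) (nat_lit 0) (p (nat_lit 0xb8b0c8a8a1a) (nat_lit 0) (p (nat_lit 0x2a8258b0c0a0b8a) (nat_lit 0) (p (nat_lit 0x2a8258a8b89890a) (nat_lit 0) (p (nat_lit 0x1fc004) (nat_lit 0) (p (nat_lit 0xb000c) (nat_lit 1) (p (nat_lit 0x101) (nat_lit 0) (p (nat_lit 0xd1) (nat_lit 0) (p (nat_lit 0xb0014) (nat_lit 0) (p (nat_lit 0x380c2) (nat_lit 0) (p (nat_lit 0x3cc2a) (nat_lit 2) (p (nat_lit 0xc9) (nat_lit 0) (p (nat_lit 0x89) (nat_lit 1) (p (nat_lit 0x101) (nat_lit 1) (p (nat_lit 0x111) (nat_lit 0) (p (nat_lit 0xd1) (nat_lit 1) (p (nat_lit 0x81) (nat_lit 0) (p (nat_lit 0x41) (nat_lit 1) (p (nat_lit 0x8078907089a) (nat_lit 0) (p (nat_lit 0x7870886861a) (nat_lit 0) (p (nat_lit 0x800070806078a)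 (nat_lit 0) (p (nat_lit 0x800068785850a) (nat_lit 0) (p (nat_lit 0x587050682) (nat_lit 0) (p (nat_lit 0x506848402) (nat_lit 0) (p (nat_lit 0x160014) (nat_lit 0) (p (nat_lit 0x16000c) (nat_lit 0) (p (nat_lit 0x50612) (nat_lit 0) (p (nat_lit 0x40592) (nat_lit 0) (p (nat_lit 0x40492) (nat_lit 0) (p (nat_lit 0x30412) (nat_lit 0) (p (nat_lit 0x30212) (nat_lit 0) (p (nat_lit 0x20192) (nat_lit 0) (p (nat_lit 0x20092) (nat_lit 0) (p (nat_lit 0x10012) (nat_lit 0) pn))))))))))))))))))))))))))))))))))) :=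
  Cl.node (nat_lit 0x100004) (nat_lit 2) (by decide +kernel) (ClAll.succ (ClAll.succ ClAll.zero s1531) s1532)

def n76 : Cl (O (nat_lit 1)) (R (nat_lit 104465))
    (p (nat_lit 0x180004) (nat_lit 0) (p (nat_lit 0x84014) (nat_lit 1) (p (nat_lit 0x81) (nat_lit 0) (p (nat_lit 0x8400c) (nat_lit 0) (p (nat_lit 0x108014) (nat_lit 0) (p (nat_lit 0x10800c) (nat_lit 0) (p (nat_lit 0x100004) (nat_lit 1) (p (nat_lit 0x200004) (nat_lit 0) (p (nat_lit 0x380c2) (nat_lit 0) (p (nat_lit 0x444aa) (nat_lit 7) (p (nat_lit 0x81) (nat_lit 1) (p (nat_lit 0xc9) (nat_lit 1) (p (nat_lit 0x109) (nat_lit 1) (p (nat_lit 0x101) (nat_lit 0) (p (nat_lit 0x119) (nat_lit 0) (p (nat_lit 0xd1) (nat_lit 0) (p (nat_lit 0x89) (nat_lit 0) (p (nat_lit 0x41) (nat_lit 0) (p (nat_lit 0x8078907089a) (nat_lit 0) (p (nat_lit 0x7870886861a) (nat_lit 0) (p (nat_lit 0x800070806078a) (nat_lit 0) (p (nat_lit 0x800068785850a)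 (nat_lit 0) (p (nat_lit 0x587050682) (nat_lit 0) (p (nat_lit 0x506848402) (nat_lit 0) (p (nat_lit 0x160014) (nat_lit 0) (p (nat_lit 0x16000c) (nat_lit 0) (p (nat_lit 0x50612) (nat_lit 0) (p (nat_lit 0x40592) (nat_lit 0) (p (nat_lit 0x40492) (nat_lit 0) (p (nat_lit 0x30412) (nat_lit 0) (p (nat_lit 0x30212) (nat_lit 0) (p (nat_lit 0x20192) (nat_lit 0) (p (nat_lit 0x20092) (nat_lit 0) (p (nat_lit 0x10012) (nat_lit 0) pn)))))))))))))))))))))))))))))))))) :=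
  Cl.node (nat_lit 0x268c30a8b89890a) (nat_lit 1) (by decide +kernel) (ClAll.succ ClAll.zero n61)

def n77 : Cl (O (nat_lit 1)) (R (nat_lit 104465))
    (p (nat_lit 0x81) (nat_lit 0) (p (nat_lit 0xc0b8d0b0c9a) (nat_lit 0) (p (nat_lit 0xb8b0c8a8a1a) (nat_lit 0) (p (nat_lit 0x2a8258b0c0a0b8a) (nat_lit 0) (p (nat_lit 0x2a8258a8b89890a) (nat_lit 0) (p (nat_lit 0xb0014) (nat_lit 0) (p (nat_lit 0x1fc004) (nat_lit 0) (p (nat_lit 0xb000c) (nat_lit 1) (p (nat_lit 0x101) (nat_lit 0) (p (nat_lit 0x380c2) (nat_lit 0) (p (nat_lit 0x3cc2a) (nat_lit 2) (p (nat_lit 0x109) (nat_lit 1) (p (nat_lit 0xc9) (nat_lit 1) (p (nat_lit 0xc1) (nat_lit 0) (p (nat_lit 0x119) (nat_lit 1) (p (nat_lit 0xd1) (nat_lit 0) (p (nat_lit 0x89) (nat_lit 0) (p (nat_lit 0x41) (nat_lit 0) (p (nat_lit 0x8078907089a) (nat_lit 0) (p (nat_lit 0x7870886861a) (nat_lit 0) (p (nat_lit 0x800070806078a) (nat_lit 0) (p (nat_lit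 0x800068785850a) (nat_lit 0) (p (nat_lit 0x587050682) (nat_lit 0) (p (nat_lit 0x506848402) (nat_lit 0) (p (nat_lit 0x160014) (nat_lit 0) (p (nat_lit 0x16000c) (nat_lit 0) (p (nat_lit 0x50612) (nat_lit 0) (p (nat_lit 0x40592) (nat_lit 0) (p (nat_lit 0x40492) (nat_lit 0) (p (nat_lit 0x30412) (nat_lit 0) (p (nat_lit 0x30212) (nat_lit 0) (p (nat_lit 0x20192) (nat_lit 0) (p (nat_lit 0x20092) (nat_lit 0) (p (nat_lit 0x10012) (nat_lit 0) pn)))))))))))))))))))))))))))))))))) :=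
  Cl.node (nat_lit 0xd1) (nat_lit 2) (by decide +kernel) (ClAll.succ (ClAll.succ ClAll.zero n62) s254)

def n78 : Cl (O (nat_lit 1)) (R (nat_lit 104465))
    (p (nat_lit 0x81) (nat_lit 1) (p (nat_lit 0xc0b8d0b0c9a) (nat_lit 0) (p (nat_lit 0xb8b0c8a8a1a) (nat_lit 0) (p (nat_lit 0x2a8258b0c0a0b8a) (nat_lit 0) (p (nat_lit 0x2a8258a8b89890a) (nat_lit 0) (p (nat_lit 0xb0014) (nat_lit 0) (p (nat_lit 0x1fc004) (nat_lit 0) (p (nat_lit 0xb000c) (nat_lit 1) (p (nat_lit 0x101) (nat_lit 0) (p (nat_lit 0x380c2) (nat_lit 0) (p (nat_lit 0x3cc2a) (nat_lit 2) (p (nat_lit 0x109) (nat_lit 1) (p (nat_lit 0xc9) (nat_lit 1) (p (nat_lit 0xc1) (nat_lit 0) (p (nat_lit 0x119) (nat_lit 1) (p (nat_lit 0xd1) (nat_lit 0) (p (nat_lit 0x89) (nat_lit 0) (p (nat_lit 0x41) (nat_lit 0) (p (nat_lit 0x8078907089a) (nat_lit 0) (p (nat_lit 0x7870886861a) (nat_lit 0) (p (nat_lit 0x800070806078a) (nat_lit 0)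 (p (nat_lit 0x800068785850a) (nat_lit 0) (p (nat_lit 0x587050682) (nat_lit 0) (p (nat_lit 0x506848402) (nat_lit 0) (p (nat_lit 0x160014) (nat_lit 0) (p (nat_lit 0x16000c) (nat_lit 0) (p (nat_lit 0x50612) (nat_lit 0) (p (nat_lit 0x40592) (nat_lit 0) (p (nat_lit 0x40492) (nat_lit 0) (p (nat_lit 0x30412) (nat_lit 0) (p (nat_lit 0x30212) (nat_lit 0) (p (nat_lit 0x20192) (nat_lit 0) (p (nat_lit 0x20092) (nat_lit 0) (p (nat_lit 0x10012) (nat_lit 0) pn)))))))))))))))))))))))))))))))))) :=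
  Cl.node (nat_lit 0x41) (nat_lit 2) (by decide +kernel) (ClAll.succ (ClAll.succ ClAll.zero s255) s256)

def n79 : Cl (O (nat_lit 1)) (R (nat_lit 104465))
    (p (nat_lit 0xc0b8d0b0c9a) (nat_lit 0) (p (nat_lit 0xb8b0c8a8a1a) (nat_lit 0) (p (nat_lit 0x2a8258b0c0a0b8a) (nat_lit 0) (p (nat_lit 0x2a8258a8b89890a) (nat_lit 0) (p (nat_lit 0xb0014) (nat_lit 0) (p (nat_lit 0x1fc004) (nat_lit 0) (p (nat_lit 0xb000c) (nat_lit 1) (p (nat_lit 0x41) (nat_lit 0) (p (nat_lit 0x101) (nat_lit 1) (p (nat_lit 0x380c2) (nat_lit 0) (p (nat_lit 0x3cc2a) (nat_lit 2) (p (nat_lit 0x109) (nat_lit 1) (p (nat_lit 0xc9) (nat_lit 1) (p (nat_lit 0xc1) (nat_lit 0) (p (nat_lit 0x119) (nat_lit 1) (p (nat_lit 0xd1) (nat_lit 0) (p (nat_lit 0x89) (nat_lit 0) (p (nat_lit 0x41) (nat_lit 0) (p (nat_lit 0x8078907089a) (nat_lit 0) (p (nat_lit 0x7870886861a) (nat_lit 0) (p (nat_lit 0x800070806078a) (nat_lit 0)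 (p (nat_lit 0x800068785850a) (nat_lit 0) (p (nat_lit 0x587050682) (nat_lit 0) (p (nat_lit 0x506848402) (nat_lit 0) (p (nat_lit 0x160014) (nat_lit 0) (p (nat_lit 0x16000c) (nat_lit 0) (p (nat_lit 0x50612) (nat_lit 0) (p (nat_lit 0x40592) (nat_lit 0) (p (nat_lit 0x40492) (nat_lit 0) (p (nat_lit 0x30412) (nat_lit 0) (p (nat_lit 0x30212) (nat_lit 0) (p (nat_lit 0x20192) (nat_lit 0) (p (nat_lit 0x20092) (nat_lit 0) (p (nat_lit 0x10012) (nat_lit 0) pn)))))))))))))))))))))))))))))))))) :=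
  Cl.node (nat_lit 0xc9) (nat_lit 2) (by decide +kernel) (ClAll.succ (ClAll.succ ClAll.zero s262) n63)

def n80 : Cl (O (nat_lit 1)) (R (nat_lit 104465))
    (p (nat_lit 0x81) (nat_lit 1) (p (nat_lit 0x41) (nat_lit 1) (p (nat_lit 0x100004) (nat_lit 0) (p (nat_lit 0x200004) (nat_lit 0) (p (nat_lit 0x380c2) (nat_lit 0) (p (nat_lit 0x4c42a) (nat_lit 10) (p (nat_lit 0x89) (nat_lit 0) (p (nat_lit 0xb0014) (nat_lit 0) (p (nat_lit 0x380c2) (nat_lit 0) (p (nat_lit 0x3cc2a) (nat_lit 2) (p (nat_lit 0x119) (nat_lit 1) (p (nat_lit 0xc1) (nat_lit 0) (p (nat_lit 0x81) (nat_lit 1) (p (nat_lit 0x101) (nat_lit 1) (p (nat_lit 0x111) (nat_lit 0) (p (nat_lit 0xd1) (nat_lit 1) (p (nat_lit 0x89) (nat_lit 0) (p (nat_lit 0x41) (nat_lit 0) (p (nat_lit 0x8078907089a) (nat_lit 0) (p (nat_lit 0x7870886861a) (nat_lit 0) (p (nat_lit 0x800070806078a) (nat_lit 0) (p (nat_lit 0x800068785850a) (nat_lit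 0) (p (nat_lit 0x587050682) (nat_lit 0) (p (nat_lit 0x506848402) (nat_lit 0) (p (nat_lit 0x160014) (nat_lit 0) (p (nat_lit 0x16000c) (nat_lit 0) (p (nat_lit 0x50612) (nat_lit 0) (p (nat_lit 0x40592) (nat_lit 0) (p (nat_lit 0x40492) (nat_lit 0) (p (nat_lit 0x30412) (nat_lit 0) (p (nat_lit 0x30212) (nat_lit 0) (p (nat_lit 0x20192) (nat_lit 0) (p (nat_lit 0x20092) (nat_lit 0) (p (nat_lit 0x10012) (nat_lit 0) pn)))))))))))))))))))))))))))))))))) :=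
  Cl.node (nat_lit 0xb000c) (nat_lit 2) (by decide +kernel) (ClAll.succ (ClAll.succ ClAll.zero s481) n64)

def n81 : Cl (O (nat_lit 1)) (R (nat_lit 104465))
    (p (nat_lit 0xa8014) (nat_lit 0) (p (nat_lit 0xc8014) (nat_lit 0) (p (nat_lit 0x8400c) (nat_lit 0) (p (nat_lit 0x84014) (nat_lit 1) (p (nat_lit 0x108014) (nat_lit 0) (p (nat_lit 0x10800c) (nat_lit 0) (p (nat_lit 0x100004) (nat_lit 1) (p (nat_lit 0x200004) (nat_lit 0) (p (nat_lit 0x380c2) (nat_lit 0) (p (nat_lit 0x444aa) (nat_lit 7) (p (nat_lit 0xd1) (nat_lit 1) (p (nat_lit 0x111) (nat_lit 1) (p (nat_lit 0x109) (nat_lit 0) (p (nat_lit 0x101) (nat_lit 0) (p (nat_lit 0x119) (nat_lit 0) (p (nat_lit 0xc9) (nat_lit 0) (p (nat_lit 0x89) (nat_lit 1) (p (nat_lit 0x41) (nat_lit 0) (p (nat_lit 0x8078907089a) (nat_lit 0) (p (nat_lit 0x7870886861a) (nat_lit 0) (p (nat_lit 0x800070806078a) (nat_lit 0) (p (nat_lit 0x800068785850a)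 (nat_lit 0) (p (nat_lit 0x587050682) (nat_lit 0) (p (nat_lit 0x506848402) (nat_lit 0) (p (nat_lit 0x160014) (nat_lit 0) (p (nat_lit 0x16000c) (nat_lit 0) (p (nat_lit 0x50612) (nat_lit 0) (p (nat_lit 0x40592) (nat_lit 0) (p (nat_lit 0x40492) (nat_lit 0) (p (nat_lit 0x30412) (nat_lit 0) (p (nat_lit 0x30212) (nat_lit 0) (p (nat_lit 0x20192) (nat_lit 0) (p (nat_lit 0x20092) (nat_lit 0) (p (nat_lit 0x10012) (nat_lit 0) pn)))))))))))))))))))))))))))))))))) :=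
  Cl.node (nat_lit 0x180004) (nat_lit 2) (by decide +kernel) (ClAll.succ (ClAll.succ ClAll.zero n65) s567)

def n82 : Cl (O (nat_lit 1)) (R (nat_lit 104465))
    (p (nat_lit 0xa8014) (nat_lit 1) (p (nat_lit 0xc8014) (nat_lit 0) (p (nat_lit 0x8400c) (nat_lit 0) (p (nat_lit 0x84014) (nat_lit 1) (p (nat_lit 0x108014) (nat_lit 0) (p (nat_lit 0x10800c) (nat_lit 0) (p (nat_lit 0x100004) (nat_lit 1) (p (nat_lit 0x200004) (nat_lit 0) (p (nat_lit 0x380c2) (nat_lit 0) (p (nat_lit 0x444aa) (nat_lit 7) (p (nat_lit 0xd1) (nat_lit 1) (p (nat_lit 0x111) (nat_lit 1) (p (nat_lit 0x109) (nat_lit 0) (p (nat_lit 0x101) (nat_lit 0) (p (nat_lit 0x119) (nat_lit 0) (p (nat_lit 0xc9) (nat_lit 0) (p (nat_lit 0x89) (nat_lit 1) (p (nat_lit 0x41) (nat_lit 0) (p (nat_lit 0x8078907089a) (nat_lit 0) (p (nat_lit 0x7870886861a) (nat_lit 0) (p (nat_lit 0x800070806078a) (nat_lit 0) (p (nat_lit 0x800068785850a)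 (nat_lit 0) (p (nat_lit 0x587050682) (nat_lit 0) (p (nat_lit 0x506848402) (nat_lit 0) (p (nat_lit 0x160014) (nat_lit 0) (p (nat_lit 0x16000c) (nat_lit 0) (p (nat_lit 0x50612) (nat_lit 0) (p (nat_lit 0x40592) (nat_lit 0) (p (nat_lit 0x40492) (nat_lit 0) (p (nat_lit 0x30412) (nat_lit 0) (p (nat_lit 0x30212) (nat_lit 0) (p (nat_lit 0x20192) (nat_lit 0) (p (nat_lit 0x20092) (nat_lit 0) (p (nat_lit 0x10012) (nat_lit 0) pn)))))))))))))))))))))))))))))))))) :=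
  Cl.node (nat_lit 0x6000c) (nat_lit 2) (by decide +kernel) (ClAll.succ (ClAll.succ ClAll.zero n66) s575)

def n83 : Cl (O (nat_lit 1)) (R (nat_lit 104465))
    (p (nat_lit 0x1b4004) (nat_lit 0) (p (nat_lit 0xc8014) (nat_lit 1) (p (nat_lit 0x8400c) (nat_lit 0) (p (nat_lit 0x84014) (nat_lit 1) (p (nat_lit 0x108014) (nat_lit 0) (p (nat_lit 0x10800c) (nat_lit 0) (p (nat_lit 0x100004) (nat_lit 1) (p (nat_lit 0x200004) (nat_lit 0) (p (nat_lit 0x380c2) (nat_lit 0) (p (nat_lit 0x444aa) (nat_lit 7) (p (nat_lit 0xd1) (nat_lit 1) (p (nat_lit 0x111) (nat_lit 1) (p (nat_lit 0x109) (nat_lit 0) (p (nat_lit 0x101) (nat_lit 0) (p (nat_lit 0x119) (nat_lit 0) (p (nat_lit 0xc9) (nat_lit 0) (p (nat_lit 0x89) (nat_lit 1) (p (nat_lit 0x41) (nat_lit 0) (p (nat_lit 0x8078907089a) (nat_lit 0) (p (nat_lit 0x7870886861a) (nat_lit 0) (p (nat_lit 0x800070806078a) (nat_lit 0) (p (nat_lit 0x800068785850a)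 (nat_lit 0) (p (nat_lit 0x587050682) (nat_lit 0) (p (nat_lit 0x506848402) (nat_lit 0) (p (nat_lit 0x160014) (nat_lit 0) (p (nat_lit 0x16000c) (nat_lit 0) (p (nat_lit 0x50612) (nat_lit 0) (p (nat_lit 0x40592) (nat_lit 0) (p (nat_lit 0x40492) (nat_lit 0) (p (nat_lit 0x30412) (nat_lit 0) (p (nat_lit 0x30212) (nat_lit 0) (p (nat_lit 0x20192) (nat_lit 0) (p (nat_lit 0x20092) (nat_lit 0) (p (nat_lit 0x10012) (nat_lit 0) pn)))))))))))))))))))))))))))))))))) :=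
  Cl.node (nat_lit 0x4000c) (nat_lit 2) (by decide +kernel) (ClAll.succ (ClAll.succ ClAll.zero n67) s618)

def n84 : Cl (O (nat_lit 1)) (R (nat_lit 104465))
    (p (nat_lit 0xc0b8d0b0c9a) (nat_lit 0) (p (nat_lit 0xb8b0c8a8a1a) (nat_lit 0) (p (nat_lit 0x2680d0b0c0a0b8a) (nat_lit 0) (p (nat_lit 0x2680d0a8b89890a) (nat_lit 0) (p (nat_lit 0xb0014) (nat_lit 0) (p (nat_lit 0xb000c) (nat_lit 1) (p (nat_lit 0x100004) (nat_lit 0) (p (nat_lit 0x200004) (nat_lit 0) (p (nat_lit 0x380c2) (nat_lit 1) (p (nat_lit 0x444aa) (nat_lit 7) (p (nat_lit 0xd1) (nat_lit 1) (p (nat_lit 0x111) (nat_lit 1) (p (nat_lit 0x109) (nat_lit 0) (p (nat_lit 0x101) (nat_lit 0) (p (nat_lit 0x119) (nat_lit 0) (p (nat_lit 0xc9) (nat_lit 0) (p (nat_lit 0x89) (nat_lit 1) (p (nat_lit 0x41) (nat_lit 0) (p (nat_lit 0x8078907089a) (nat_lit 0) (p (nat_lit 0x7870886861a) (nat_lit 0) (p (nat_lit 0x800070806078a) (nat_lit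 0) (p (nat_lit 0x800068785850a) (nat_lit 0) (p (nat_lit 0x587050682) (nat_lit 0) (p (nat_lit 0x506848402) (nat_lit 0) (p (nat_lit 0x160014) (nat_lit 0) (p (nat_lit 0x16000c) (nat_lit 0) (p (nat_lit 0x50612) (nat_lit 0) (p (nat_lit 0x40592) (nat_lit 0) (p (nat_lit 0x40492) (nat_lit 0) (p (nat_lit 0x30412) (nat_lit 0) (p (nat_lit 0x30212) (nat_lit 0) (p (nat_lit 0x20192) (nat_lit 0) (p (nat_lit 0x20092) (nat_lit 0) (p (nat_lit 0x10012) (nat_lit 0) pn)))))))))))))))))))))))))))))))))) :=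
  Cl.node (nat_lit 0xc1) (nat_lit 2) (by decide +kernel) (ClAll.succ (ClAll.succ ClAll.zero n68) s644)

def n85 : Cl (O (nat_lit 1)) (R (nat_lit 104465))
    (p (nat_lit 0xc0b8d0b0c9a) (nat_lit 0) (p (nat_lit 0xb8b0c8a8a1a) (nat_lit 0) (p (nat_lit 0xe80d8b0c0a0b8a) (nat_lit 0) (p (nat_lit 0xe80d8a8b89890a) (nat_lit 0) (p (nat_lit 0x10800c) (nat_lit 0) (p (nat_lit 0x58014) (nat_lit 1) (p (nat_lit 0xb0014) (nat_lit 0) (p (nat_lit 0x380c2) (nat_lit 0) (p (nat_lit 0x44c2a) (nat_lit 1) (p (nat_lit 0x41) (nat_lit 0) (p (nat_lit 0x200004) (nat_lit 0) (p (nat_lit 0xd1) (nat_lit 0) (p (nat_lit 0x109) (nat_lit 1) (p (nat_lit 0x101) (nat_lit 0) (p (nat_lit 0x119) (nat_lit 0) (p (nat_lit 0xc9) (nat_lit 0) (p (nat_lit 0x89) (nat_lit 1) (p (nat_lit 0x41) (nat_lit 0) (p (nat_lit 0x8078907089a) (nat_lit 0) (p (nat_lit 0x7870886861a) (nat_lit 0) (p (nat_lit 0x800070806078a) (nat_lit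 0) (p (nat_lit 0x800068785850a) (nat_lit 0) (p (nat_lit 0x587050682) (nat_lit 0) (p (nat_lit 0x506848402) (nat_lit 0) (p (nat_lit 0x160014) (nat_lit 0) (p (nat_lit 0x16000c) (nat_lit 0) (p (nat_lit 0x50612) (nat_lit 0) (p (nat_lit 0x40592) (nat_lit 0) (p (nat_lit 0x40492) (nat_lit 0) (p (nat_lit 0x30412) (nat_lit 0) (p (nat_lit 0x30212) (nat_lit 0) (p (nat_lit 0x20192) (nat_lit 0) (p (nat_lit 0x20092) (nat_lit 0) (p (nat_lit 0x10012) (nat_lit 0) pn)))))))))))))))))))))))))))))))))) :=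
  Cl.node (nat_lit 0x41) (nat_lit 2) (by decide +kernel) (ClAll.succ (ClAll.succ ClAll.zero n69) s680)

def n86 : Cl (O (nat_lit 1)) (R (nat_lit 104465))
    (p (nat_lit 0xc1) (nat_lit 0) (p (nat_lit 0xc0b8d0b0c9a) (nat_lit 0) (p (nat_lit 0xb8b0c8a8a1a) (nat_lit 0) (p (nat_lit 0x2680d0b0c0a0b8a) (nat_lit 0) (p (nat_lit 0x2680d0a8b89890a) (nat_lit 0) (p (nat_lit 0x100004) (nat_lit 0) (p (nat_lit 0xb000c) (nat_lit 0) (p (nat_lit 0x1fc004) (nat_lit 0) (p (nat_lit 0xb0014) (nat_lit 1) (p (nat_lit 0x380c2) (nat_lit 1) (p (nat_lit 0x444aa) (nat_lit 7) (p (nat_lit 0xd1) (nat_lit 1) (p (nat_lit 0x109) (nat_lit 1) (p (nat_lit 0x101) (nat_lit 0) (p (nat_lit 0x119) (nat_lit 0) (p (nat_lit 0xc9) (nat_lit 0) (p (nat_lit 0x89) (nat_lit 1) (p (nat_lit 0x41) (nat_lit 0) (p (nat_lit 0x8078907089a) (nat_lit 0) (p (nat_lit 0x7870886861a) (nat_lit 0) (p (nat_lit 0x800070806078a) (nat_lit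 0) (p (nat_lit 0x800068785850a) (nat_lit 0) (p (nat_lit 0x587050682) (nat_lit 0) (p (nat_lit 0x506848402) (nat_lit 0) (p (nat_lit 0x160014) (nat_lit 0) (p (nat_lit 0x16000c) (nat_lit 0) (p (nat_lit 0x50612) (nat_lit 0) (p (nat_lit 0x40592) (nat_lit 0) (p (nat_lit 0x40492) (nat_lit 0) (p (nat_lit 0x30412) (nat_lit 0) (p (nat_lit 0x30212) (nat_lit 0) (p (nat_lit 0x20192) (nat_lit 0) (p (nat_lit 0x20092) (nat_lit 0) (p (nat_lit 0x10012) (nat_lit 0) pn)))))))))))))))))))))))))))))))))) :=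
  Cl.node (nat_lit 0xc9) (nat_lit 2) (by decide +kernel) (ClAll.succ (ClAll.succ ClAll.zero n70) s790)

def n87 : Cl (O (nat_lit 1)) (R (nat_lit 104465))
    (p (nat_lit 0xc1) (nat_lit 0) (p (nat_lit 0xc0b8d0b0c9a) (nat_lit 0) (p (nat_lit 0xb8b0c8a8a1a) (nat_lit 0) (p (nat_lit 0x2a8258b0c0a0b8a) (nat_lit 0) (p (nat_lit 0x2a8258a8b89890a) (nat_lit 0) (p (nat_lit 0xb000c) (nat_lit 0) (p (nat_lit 0xb0014) (nat_lit 1) (p (nat_lit 0x380c2) (nat_lit 0) (p (nat_lit 0x44c2a) (nat_lit 1) (p (nat_lit 0x109) (nat_lit 1) (p (nat_lit 0x200004) (nat_lit 0) (p (nat_lit 0xd1) (nat_lit 0) (p (nat_lit 0xc1) (nat_lit 0) (p (nat_lit 0x101) (nat_lit 1) (p (nat_lit 0x119) (nat_lit 0) (p (nat_lit 0xc9) (nat_lit 0) (p (nat_lit 0x89) (nat_lit 1) (p (nat_lit 0x41) (nat_lit 0) (p (nat_lit 0x8078907089a) (nat_lit 0) (p (nat_lit 0x7870886861a) (nat_lit 0) (p (nat_lit 0x800070806078a) (nat_lit 0)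 (p (nat_lit 0x800068785850a) (nat_lit 0) (p (nat_lit 0x587050682) (nat_lit 0) (p (nat_lit 0x506848402) (nat_lit 0) (p (nat_lit 0x160014) (nat_lit 0) (p (nat_lit 0x16000c) (nat_lit 0) (p (nat_lit 0x50612) (nat_lit 0) (p (nat_lit 0x40592) (nat_lit 0) (p (nat_lit 0x40492) (nat_lit 0) (p (nat_lit 0x30412) (nat_lit 0) (p (nat_lit 0x30212) (nat_lit 0) (p (nat_lit 0x20192) (nat_lit 0) (p (nat_lit 0x20092) (nat_lit 0) (p (nat_lit 0x10012) (nat_lit 0) pn)))))))))))))))))))))))))))))))))) :=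
  Cl.node (nat_lit 0x119) (nat_lit 2) (by decide +kernel) (ClAll.succ (ClAll.succ ClAll.zero n71) s821)

def n88 : Cl (O (nat_lit 1)) (R (nat_lit 104465))
    (p (nat_lit 0xc1) (nat_lit 1) (p (nat_lit 0xc0b8d0b0c9a) (nat_lit 0) (p (nat_lit 0xb8b0c8a8a1a) (nat_lit 0) (p (nat_lit 0x2a8258b0c0a0b8a) (nat_lit 0) (p (nat_lit 0x2a8258a8b89890a) (nat_lit 0) (p (nat_lit 0xb000c) (nat_lit 0) (p (nat_lit 0xb0014) (nat_lit 1) (p (nat_lit 0x380c2) (nat_lit 0) (p (nat_lit 0x44c2a) (nat_lit 1) (p (nat_lit 0x109) (nat_lit 1) (p (nat_lit 0x200004) (nat_lit 0) (p (nat_lit 0xd1) (nat_lit 0) (p (nat_lit 0xc1) (nat_lit 0) (p (nat_lit 0x101) (nat_lit 1) (p (nat_lit 0x119) (nat_lit 0) (p (nat_lit 0xc9) (nat_lit 0) (p (nat_lit 0x89) (nat_lit 1) (p (nat_lit 0x41) (nat_lit 0) (p (nat_lit 0x8078907089a) (nat_lit 0) (p (nat_lit 0x7870886861a) (nat_lit 0) (p (nat_lit 0x800070806078a) (nat_lit 0)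 (p (nat_lit 0x800068785850a) (nat_lit 0) (p (nat_lit 0x587050682) (nat_lit 0) (p (nat_lit 0x506848402) (nat_lit 0) (p (nat_lit 0x160014) (nat_lit 0) (p (nat_lit 0x16000c) (nat_lit 0) (p (nat_lit 0x50612) (nat_lit 0) (p (nat_lit 0x40592) (nat_lit 0) (p (nat_lit 0x40492) (nat_lit 0) (p (nat_lit 0x30412) (nat_lit 0) (p (nat_lit 0x30212) (nat_lit 0) (p (nat_lit 0x20192) (nat_lit 0) (p (nat_lit 0x20092) (nat_lit 0) (p (nat_lit 0x10012) (nat_lit 0) pn)))))))))))))))))))))))))))))))))) :=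
  Cl.node (nat_lit 0x109) (nat_lit 2) (by decide +kernel) (ClAll.succ (ClAll.succ ClAll.zero s822) s823)

def n89 : Cl (O (nat_lit 1)) (R (nat_lit 104465))
    (p (nat_lit 0x89) (nat_lit 0) (p (nat_lit 0x119) (nat_lit 1) (p (nat_lit 0xb000c) (nat_lit 0) (p (nat_lit 0x380c2) (nat_lit 0) (p (nat_lit 0x3cc2a) (nat_lit 2) (p (nat_lit 0x109) (nat_lit 0) (p (nat_lit 0x101) (nat_lit 0) (p (nat_lit 0x100004) (nat_lit 0) (p (nat_lit 0x200004) (nat_lit 0) (p (nat_lit 0x380c2) (nat_lit 0) (p (nat_lit 0x444aa) (nat_lit 7) (p (nat_lit 0x111) (nat_lit 1) (p (nat_lit 0xd1) (nat_lit 1) (p (nat_lit 0xc1) (nat_lit 0) (p (nat_lit 0x119) (nat_lit 1) (p (nat_lit 0xc9) (nat_lit 0) (p (nat_lit 0x89) (nat_lit 1) (p (nat_lit 0x41) (nat_lit 0) (p (nat_lit 0x8078907089a) (nat_lit 0) (p (nat_lit 0x7870886861a) (nat_lit 0) (p (nat_lit 0x800070806078a) (nat_lit 0) (p (nat_lit 0x800068785850a) (nat_lit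 0) (p (nat_lit 0x587050682) (nat_lit 0) (p (nat_lit 0x506848402) (nat_lit 0) (p (nat_lit 0x160014) (nat_lit 0) (p (nat_lit 0x16000c) (nat_lit 0) (p (nat_lit 0x50612) (nat_lit 0) (p (nat_lit 0x40592) (nat_lit 0) (p (nat_lit 0x40492) (nat_lit 0) (p (nat_lit 0x30412) (nat_lit 0) (p (nat_lit 0x30212) (nat_lit 0) (p (nat_lit 0x20192) (nat_lit 0) (p (nat_lit 0x20092) (nat_lit 0) (p (nat_lit 0x10012) (nat_lit 0) pn)))))))))))))))))))))))))))))))))) :=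
  Cl.node (nat_lit 0xc9) (nat_lit 2) (by decide +kernel) (ClAll.succ (ClAll.succ ClAll.zero s899) s900)

def n90 : Cl (O (nat_lit 1)) (R (nat_lit 104465))
    (p (nat_lit 0x81) (nat_lit 0) (p (nat_lit 0x58014) (nat_lit 0) (p (nat_lit 0xd1) (nat_lit 1) (p (nat_lit 0x111) (nat_lit 1) (p (nat_lit 0xb0014) (nat_lit 0) (p (nat_lit 0xd1) (nat_lit 1) (p (nat_lit 0x100004) (nat_lit 0) (p (nat_lit 0x200004) (nat_lit 0) (p (nat_lit 0x380c2) (nat_lit 0) (p (nat_lit 0x4c42a) (nat_lit 10) (p (nat_lit 0xc9) (nat_lit 0) (p (nat_lit 0x89) (nat_lit 1) (p (nat_lit 0xc1) (nat_lit 0) (p (nat_lit 0x101) (nat_lit 1) (p (nat_lit 0x119) (nat_lit 0) (p (nat_lit 0xd1) (nat_lit 0) (p (nat_lit 0x81) (nat_lit 0) (p (nat_lit 0x41) (nat_lit 1) (p (nat_lit 0x8078907089a) (nat_lit 0) (p (nat_lit 0x7870886861a) (nat_lit 0) (p (nat_lit 0x800070806078a) (nat_lit 0) (p (nat_lit 0x800068785850a) (nat_lit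 0) (p (nat_lit 0x587050682) (nat_lit 0) (p (nat_lit 0x506848402) (nat_lit 0) (p (nat_lit 0x160014) (nat_lit 0) (p (nat_lit 0x16000c) (nat_lit 0) (p (nat_lit 0x50612) (nat_lit 0) (p (nat_lit 0x40592) (nat_lit 0) (p (nat_lit 0x40492) (nat_lit 0) (p (nat_lit 0x30412) (nat_lit 0) (p (nat_lit 0x30212) (nat_lit 0) (p (nat_lit 0x20192) (nat_lit 0) (p (nat_lit 0x20092) (nat_lit 0) (p (nat_lit 0x10012) (nat_lit 0) pn)))))))))))))))))))))))))))))))))) :=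
  Cl.node (nat_lit 0x111) (nat_lit 2) (by decide +kernel) (ClAll.succ (ClAll.succ ClAll.zero s1125) s1126)

def n91 : Cl (O (nat_lit 1)) (R (nat_lit 104465))
    (p (nat_lit 0x89) (nat_lit 1) (p (nat_lit 0x111) (nat_lit 1) (p (nat_lit 0x109) (nat_lit 0) (p (nat_lit 0x111) (nat_lit 0) (p (nat_lit 0xc9) (nat_lit 1) (p (nat_lit 0x109) (nat_lit 1) (p (nat_lit 0x101) (nat_lit 0) (p (nat_lit 0xb000c) (nat_lit 0) (p (nat_lit 0xb0014) (nat_lit 0) (p (nat_lit 0x380c2) (nat_lit 0) (p (nat_lit 0x3cc2a) (nat_lit 2) (p (nat_lit 0x89) (nat_lit 0) (p (nat_lit 0xc1) (nat_lit 1) (p (nat_lit 0x101) (nat_lit 1) (p (nat_lit 0x119) (nat_lit 0) (p (nat_lit 0xd1) (nat_lit 0) (p (nat_lit 0x81) (nat_lit 0) (p (nat_lit 0x41) (nat_lit 1) (p (nat_lit 0x8078907089a) (nat_lit 0) (p (nat_lit 0x7870886861a) (nat_lit 0) (p (nat_lit 0x800070806078a) (nat_lit 0) (p (nat_lit 0x800068785850a) (nat_lit 0)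 (p (nat_lit 0x587050682) (nat_lit 0) (p (nat_lit 0x506848402) (nat_lit 0) (p (nat_lit 0x160014) (nat_lit 0) (p (nat_lit 0x16000c) (nat_lit 0) (p (nat_lit 0x50612) (nat_lit 0) (p (nat_lit 0x40592) (nat_lit 0) (p (nat_lit 0x40492) (nat_lit 0) (p (nat_lit 0x30412) (nat_lit 0) (p (nat_lit 0x30212) (nat_lit 0) (p (nat_lit 0x20192) (nat_lit 0) (p (nat_lit 0x20092) (nat_lit 0) (p (nat_lit 0x10012) (nat_lit 0) pn)))))))))))))))))))))))))))))))))) :=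
  Cl.node (nat_lit 0x41) (nat_lit 2) (by decide +kernel) (ClAll.succ (ClAll.succ ClAll.zero s1160) s1161)

def n92 : Cl (O (nat_lit 1)) (R (nat_lit 104465))
    (p (nat_lit 0x109) (nat_lit 1) (p (nat_lit 0xc0b8d0b0c9a) (nat_lit 0) (p (nat_lit 0xb8b0c8a8a1a) (nat_lit 0) (p (nat_lit 0x2680d0b0c0a0b8a) (nat_lit 0) (p (nat_lit 0x2680d0a8b89890a) (nat_lit 0) (p (nat_lit 0x100004) (nat_lit 0) (p (nat_lit 0x1fc004) (nat_lit 0) (p (nat_lit 0xb000c) (nat_lit 1) (p (nat_lit 0xb0014) (nat_lit 0) (p (nat_lit 0x380c2) (nat_lit 0) (p (nat_lit 0x3cc2a) (nat_lit 2) (p (nat_lit 0x89) (nat_lit 0) (p (nat_lit 0xc1) (nat_lit 1) (p (nat_lit 0x101) (nat_lit 1) (p (nat_lit 0x119) (nat_lit 0) (p (nat_lit 0xd1) (nat_lit 0) (p (nat_lit 0x81) (nat_lit 0) (p (nat_lit 0x41) (nat_lit 1) (p (nat_lit 0x8078907089a) (nat_lit 0) (p (nat_lit 0x7870886861a) (nat_lit 0) (p (nat_lit 0x800070806078a) (nat_lit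 0) (p (nat_lit 0x800068785850a) (nat_lit 0) (p (nat_lit 0x587050682) (nat_lit 0) (p (nat_lit 0x506848402) (nat_lit 0) (p (nat_lit 0x160014) (nat_lit 0) (p (nat_lit 0x16000c) (nat_lit 0) (p (nat_lit 0x50612) (nat_lit 0) (p (nat_lit 0x40592) (nat_lit 0) (p (nat_lit 0x40492) (nat_lit 0) (p (nat_lit 0x30412) (nat_lit 0) (p (nat_lit 0x30212) (nat_lit 0) (p (nat_lit 0x20192) (nat_lit 0) (p (nat_lit 0x20092) (nat_lit 0) (p (nat_lit 0x10012) (nat_lit 0) pn)))))))))))))))))))))))))))))))))) :=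
  Cl.node (nat_lit 0x80004) (nat_lit 2) (by decide +kernel) (ClAll.succ (ClAll.succ ClAll.zero s1172) s1173)

def n93 : Cl (O (nat_lit 1)) (R (nat_lit 104465))
    (p (nat_lit 0x119) (nat_lit 1) (p (nat_lit 0xc0b8d0b0c9a) (nat_lit 0) (p (nat_lit 0xb8b0c8a8a1a) (nat_lit 0) (p (nat_lit 0x2a8258b0c0a0b8a) (nat_lit 0) (p (nat_lit 0x2a8258a8b89890a) (nat_lit 0) (p (nat_lit 0xb0014) (nat_lit 0) (p (nat_lit 0x1fc004) (nat_lit 0) (p (nat_lit 0xb000c) (nat_lit 1) (p (nat_lit 0x380c2) (nat_lit 0) (p (nat_lit 0x3c4aa) (nat_lit 8) (p (nat_lit 0x109) (nat_lit 1) (p (nat_lit 0x89) (nat_lit 1) (p (nat_lit 0x101) (nat_lit 0) (p (nat_lit 0xc1) (nat_lit 1) (p (nat_lit 0x119) (nat_lit 1) (p (nat_lit 0xd1) (nat_lit 0) (p (nat_lit 0x81) (nat_lit 0) (p (nat_lit 0x41) (nat_lit 1) (p (nat_lit 0x8078907089a) (nat_lit 0) (p (nat_lit 0x7870886861a) (nat_lit 0) (p (nat_lit 0x800070806078a) (nat_lit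 0) (p (nat_lit 0x800068785850a) (nat_lit 0) (p (nat_lit 0x587050682) (nat_lit 0) (p (nat_lit 0x506848402) (nat_lit 0) (p (nat_lit 0x160014) (nat_lit 0) (p (nat_lit 0x16000c) (nat_lit 0) (p (nat_lit 0x50612) (nat_lit 0) (p (nat_lit 0x40592) (nat_lit 0) (p (nat_lit 0x40492) (nat_lit 0) (p (nat_lit 0x30412) (nat_lit 0) (p (nat_lit 0x30212) (nat_lit 0) (p (nat_lit 0x20192) (nat_lit 0) (p (nat_lit 0x20092) (nat_lit 0) (p (nat_lit 0x10012) (nat_lit 0) pn)))))))))))))))))))))))))))))))))) :=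
  Cl.node (nat_lit 0xc1) (nat_lit 2) (by decide +kernel) (ClAll.succ (ClAll.succ ClAll.zero s1301) s1302)

def n94 : Cl (O (nat_lit 1)) (R (nat_lit 104465))
    (p (nat_lit 0x3cc2a) (nat_lit 2) (p (nat_lit 0x380c2) (nat_lit 0) (p (nat_lit 0x43caa) (nat_lit 6) (p (nat_lit 0xc9) (nat_lit 1) (p (nat_lit 0xb0014) (nat_lit 0) (p (nat_lit 0x100004) (nat_lit 0) (p (nat_lit 0x200004) (nat_lit 0) (p (nat_lit 0x380c2) (nat_lit 0) (p (nat_lit 0x4c42a) (nat_lit 10) (p (nat_lit 0x119) (nat_lit 1) (p (nat_lit 0xc9) (nat_lit 0) (p (nat_lit 0x89) (nat_lit 1) (p (nat_lit 0x109) (nat_lit 1) (p (nat_lit 0x101) (nat_lit 0) (p (nat_lit 0x111) (nat_lit 0) (p (nat_lit 0xd1) (nat_lit 1) (p (nat_lit 0x81) (nat_lit 0) (p (nat_lit 0x41) (nat_lit 1) (p (nat_lit 0x8078907089a) (nat_lit 0) (p (nat_lit 0x7870886861a) (nat_lit 0) (p (nat_lit 0x800070806078a) (nat_lit 0) (p (nat_lit 0x800068785850a)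 (nat_lit 0) (p (nat_lit 0x587050682) (nat_lit 0) (p (nat_lit 0x506848402) (nat_lit 0) (p (nat_lit 0x160014) (nat_lit 0) (p (nat_lit 0x16000c) (nat_lit 0) (p (nat_lit 0x50612) (nat_lit 0) (p (nat_lit 0x40592) (nat_lit 0) (p (nat_lit 0x40492) (nat_lit 0) (p (nat_lit 0x30412) (nat_lit 0) (p (nat_lit 0x30212) (nat_lit 0) (p (nat_lit 0x20192) (nat_lit 0) (p (nat_lit 0x20092) (nat_lit 0) (p (nat_lit 0x10012) (nat_lit 0) pn)))))))))))))))))))))))))))))))))) :=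
  Cl.node (nat_lit 0x380c2) (nat_lit 1) (by decide +kernel) (ClAll.succ ClAll.zero n72)

def n95 : Cl (O (nat_lit 1)) (R (nat_lit 104465))
    (p (nat_lit 0x41) (nat_lit 0) (p (nat_lit 0xb000c) (nat_lit 0) (p (nat_lit 0xb0014) (nat_lit 0) (p (nat_lit 0x380c2) (nat_lit 0) (p (nat_lit 0x3cc2a) (nat_lit 2) (p (nat_lit 0x100004) (nat_lit 0) (p (nat_lit 0x200004) (nat_lit 0) (p (nat_lit 0x380c2) (nat_lit 1) (p (nat_lit 0x4c42a) (nat_lit 10) (p (nat_lit 0x119) (nat_lit 1) (p (nat_lit 0xc9) (nat_lit 0) (p (nat_lit 0x89) (nat_lit 1) (p (nat_lit 0x109) (nat_lit 1) (p (nat_lit 0x101) (nat_lit 0) (p (nat_lit 0x111) (nat_lit 0) (p (nat_lit 0xd1) (nat_lit 1) (p (nat_lit 0x81) (nat_lit 0) (p (nat_lit 0x41) (nat_lit 1) (p (nat_lit 0x8078907089a) (nat_lit 0) (p (nat_lit 0x7870886861a) (nat_lit 0) (p (nat_lit 0x800070806078a) (nat_lit 0) (p (nat_lit 0x800068785850a) (nat_lit 0) (p (nat_lit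 0x587050682) (nat_lit 0) (p (nat_lit 0x506848402) (nat_lit 0) (p (nat_lit 0x160014) (nat_lit 0) (p (nat_lit 0x16000c) (nat_lit 0) (p (nat_lit 0x50612) (nat_lit 0) (p (nat_lit 0x40592) (nat_lit 0) (p (nat_lit 0x40492) (nat_lit 0) (p (nat_lit 0x30412) (nat_lit 0) (p (nat_lit 0x30212) (nat_lit 0) (p (nat_lit 0x20192) (nat_lit 0) (p (nat_lit 0x20092) (nat_lit 0) (p (nat_lit 0x10012) (nat_lit 0) pn)))))))))))))))))))))))))))))))))) :=
  Cl.node (nat_lit 0x89) (nat_lit 2) (by decide +kernel) (ClAll.succ (ClAll.succ ClAll.zero s1460) n73)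

def n96 : Cl (O (nat_lit 1)) (R (nat_lit 104465))
    (p (nat_lit 0x58014) (nat_lit 0) (p (nat_lit 0xb000c) (nat_lit 1) (p (nat_lit 0xb0014) (nat_lit 0) (p (nat_lit 0x380c2) (nat_lit 0) (p (nat_lit 0x3cc2a) (nat_lit 2) (p (nat_lit 0x100004) (nat_lit 0) (p (nat_lit 0x200004) (nat_lit 0) (p (nat_lit 0x380c2) (nat_lit 1) (p (nat_lit 0x4c42a) (nat_lit 10) (p (nat_lit 0x119) (nat_lit 1) (p (nat_lit 0xc9) (nat_lit 0) (p (nat_lit 0x89) (nat_lit 1) (p (nat_lit 0x109) (nat_lit 1) (p (nat_lit 0x101) (nat_lit 0) (p (nat_lit 0x111) (nat_lit 0) (p (nat_lit 0xd1) (nat_lit 1) (p (nat_lit 0x81) (nat_lit 0) (p (nat_lit 0x41) (nat_lit 1) (p (nat_lit 0x8078907089a) (nat_lit 0) (p (nat_lit 0x7870886861a) (nat_lit 0) (p (nat_lit 0x800070806078a) (nat_lit 0) (p (nat_lit 0x800068785850a) (nat_lit 0) (p (nat_lit 0x587050682) (nat_lit 0) (p (nat_lit 0x506848402) (nat_lit 0) (p (nat_lit 0x160014)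 (nat_lit 0) (p (nat_lit 0x16000c) (nat_lit 0) (p (nat_lit 0x50612) (nat_lit 0) (p (nat_lit 0x40592) (nat_lit 0) (p (nat_lit 0x40492) (nat_lit 0) (p (nat_lit 0x30412) (nat_lit 0) (p (nat_lit 0x30212) (nat_lit 0) (p (nat_lit 0x20192) (nat_lit 0) (p (nat_lit 0x20092) (nat_lit 0) (p (nat_lit 0x10012) (nat_lit 0) pn)))))))))))))))))))))))))))))))))) :=
  Cl.node (nat_lit 0x2680d0c8d8b8b0a) (nat_lit 1) (by decide +kernel) (ClAll.succ ClAll.zero n74)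

def n97 : Cl (O (nat_lit 1)) (R (nat_lit 104465))
    (p (nat_lit 0xc0b8d0b0c9a) (nat_lit 0) (p (nat_lit 0xb8b0c8a8a1a) (nat_lit 0) (p (nat_lit 0x2a8258b0c0a0b8a) (nat_lit 0) (p (nat_lit 0x2a8258a8b89890a) (nat_lit 0) (p (nat_lit 0x1fc004) (nat_lit 0) (p (nat_lit 0xb000c) (nat_lit 1) (p (nat_lit 0x101) (nat_lit 0) (p (nat_lit 0xd1) (nat_lit 0) (p (nat_lit 0xb0014) (nat_lit 0) (p (nat_lit 0x380c2) (nat_lit 0) (p (nat_lit 0x3cc2a) (nat_lit 2) (p (nat_lit 0xc9) (nat_lit 0) (p (nat_lit 0x89) (nat_lit 1) (p (nat_lit 0x101) (nat_lit 1) (p (nat_lit 0x111) (nat_lit 0) (p (nat_lit 0xd1) (nat_lit 1) (p (nat_lit 0x81) (nat_lit 0) (p (nat_lit 0x41) (nat_lit 1) (p (nat_lit 0x8078907089a) (nat_lit 0) (p (nat_lit 0x7870886861a) (nat_lit 0) (p (nat_lit 0x800070806078a) (nat_lit 0) (p (nat_lit 0x800068785850a) (nat_lit 0) (p (nat_lit 0x587050682) (nat_lit 0) (p (nat_lit 0x506848402)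 (nat_lit 0) (p (nat_lit 0x160014) (nat_lit 0) (p (nat_lit 0x16000c) (nat_lit 0) (p (nat_lit 0x50612) (nat_lit 0) (p (nat_lit 0x40592) (nat_lit 0) (p (nat_lit 0x40492) (nat_lit 0) (p (nat_lit 0x30412) (nat_lit 0) (p (nat_lit 0x30212) (nat_lit 0) (p (nat_lit 0x20192) (nat_lit 0) (p (nat_lit 0x20092) (nat_lit 0) (p (nat_lit 0x10012) (nat_lit 0) pn)))))))))))))))))))))))))))))))))) :=
  Cl.node (nat_lit 0x109) (nat_lit 2) (by decide +kernel) (ClAll.succ (ClAll.succ ClAll.zero s1530) n75)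

def n98 : Cl (O (nat_lit 1)) (R (nat_lit 104465))
    (p (nat_lit 0xb0014) (nat_lit 0) (p (nat_lit 0x41) (nat_lit 0) (p (nat_lit 0x380c2) (nat_lit 0) (p (nat_lit 0x3cc2a) (nat_lit 2) (p (nat_lit 0x81) (nat_lit 0) (p (nat_lit 0x100004) (nat_lit 0) (p (nat_lit 0x200004) (nat_lit 0) (p (nat_lit 0x380c2) (nat_lit 0) (p (nat_lit 0x444aa) (nat_lit 7) (p (nat_lit 0x81) (nat_lit 1) (p (nat_lit 0xc9) (nat_lit 1) (p (nat_lit 0x109) (nat_lit 1) (p (nat_lit 0x101) (nat_lit 0) (p (nat_lit 0x119) (nat_lit 0) (p (nat_lit 0xd1) (nat_lit 0) (p (nat_lit 0x89) (nat_lit 0) (p (nat_lit 0x41) (nat_lit 0) (p (nat_lit 0x8078907089a) (nat_lit 0) (p (nat_lit 0x7870886861a) (nat_lit 0) (p (nat_lit 0x800070806078a) (nat_lit 0) (p (nat_lit 0x800068785850a) (nat_lit 0) (p (nat_lit 0x587050682) (nat_lit 0) (p (nat_lit 0x506848402) (nat_lit 0) (p (nat_lit 0x160014) (nat_lit 0) (p (nat_lit 0x16000c)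 (nat_lit 0) (p (nat_lit 0x50612) (nat_lit 0) (p (nat_lit 0x40592) (nat_lit 0) (p (nat_lit 0x40492) (nat_lit 0) (p (nat_lit 0x30412) (nat_lit 0) (p (nat_lit 0x30212) (nat_lit 0) (p (nat_lit 0x20192) (nat_lit 0) (p (nat_lit 0x20092) (nat_lit 0) (p (nat_lit 0x10012) (nat_lit 0) pn))))))))))))))))))))))))))))))))) :=
  Cl.node (nat_lit 0x111) (nat_lit 2) (by decide +kernel) (ClAll.succ (ClAll.succ ClAll.zero s29) s30)

def n99 : Cl (O (nat_lit 1)) (R (nat_lit 104465))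
    (p (nat_lit 0x84014) (nat_lit 1) (p (nat_lit 0x81) (nat_lit 0) (p (nat_lit 0x8400c) (nat_lit 0) (p (nat_lit 0x108014) (nat_lit 0) (p (nat_lit 0x10800c) (nat_lit 0) (p (nat_lit 0x100004) (nat_lit 1) (p (nat_lit 0x200004) (nat_lit 0) (p (nat_lit 0x380c2) (nat_lit 0) (p (nat_lit 0x444aa) (nat_lit 7) (p (nat_lit 0x81) (nat_lit 1) (p (nat_lit 0xc9) (nat_lit 1) (p (nat_lit 0x109) (nat_lit 1) (p (nat_lit 0x101) (nat_lit 0) (p (nat_lit 0x119) (nat_lit 0) (p (nat_lit 0xd1) (nat_lit 0) (p (nat_lit 0x89) (nat_lit 0) (p (nat_lit 0x41) (nat_lit 0) (p (nat_lit 0x8078907089a) (nat_lit 0) (p (nat_lit 0x7870886861a) (nat_lit 0) (p (nat_lit 0x800070806078a) (nat_lit 0) (p (nat_lit 0x800068785850a) (nat_lit 0) (p (nat_lit 0x587050682) (nat_lit 0) (p (nat_lit 0x506848402) (nat_lit 0) (p (nat_lit 0x160014) (nat_lit 0) (p (nat_lit 0x16000c) (nat_lit 0) (p (nat_lit 0x50612) (nat_lit 0)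 (p (nat_lit 0x40592) (nat_lit 0) (p (nat_lit 0x40492) (nat_lit 0) (p (nat_lit 0x30412) (nat_lit 0) (p (nat_lit 0x30212) (nat_lit 0) (p (nat_lit 0x20192) (nat_lit 0) (p (nat_lit 0x20092) (nat_lit 0) (p (nat_lit 0x10012) (nat_lit 0) pn))))))))))))))))))))))))))))))))) :=
  Cl.node (nat_lit 0x180004) (nat_lit 2) (by decide +kernel) (ClAll.succ (ClAll.succ ClAll.zero n76) s59)

def n100 : Cl (O (nat_lit 1)) (R (nat_lit 104465))
    (p (nat_lit 0xc1) (nat_lit 0) (p (nat_lit 0x81) (nat_lit 1) (p (nat_lit 0x8400c) (nat_lit 0) (p (nat_lit 0x108014) (nat_lit 0) (p (nat_lit 0x10800c) (nat_lit 0) (p (nat_lit 0x100004) (nat_lit 1) (p (nat_lit 0x200004) (nat_lit 0) (p (nat_lit 0x380c2) (nat_lit 0) (p (nat_lit 0x444aa) (nat_lit 7) (p (nat_lit 0x81) (nat_lit 1) (p (nat_lit 0xc9) (nat_lit 1) (p (nat_lit 0x109) (nat_lit 1) (p (nat_lit 0x101) (nat_lit 0) (p (nat_lit 0x119) (nat_lit 0)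 (p (nat_lit 0xd1) (nat_lit 0) (p (nat_lit 0x89) (nat_lit 0) (p (nat_lit 0x41) (nat_lit 0) (p (nat_lit 0x8078907089a) (nat_lit 0) (p (nat_lit 0x7870886861a) (nat_lit 0) (p (nat_lit 0x800070806078a) (nat_lit 0) (p (nat_lit 0x800068785850a) (nat_lit 0) (p (nat_lit 0x587050682) (nat_lit 0) (p (nat_lit 0x506848402) (nat_lit 0) (p (nat_lit 0x160014) (nat_lit 0) (p (nat_lit 0x16000c) (nat_lit 0) (p (nat_lit 0x50612) (nat_lit 0) (p (nat_lit 0x40592) (nat_lit 0) (p (nat_lit 0x40492) (nat_lit 0) (p (nat_lit 0x30412) (nat_lit 0) (p (nat_lit 0x30212) (nat_lit 0) (p (nat_lit 0x20192) (nat_lit 0) (p (nat_lit 0x20092) (nat_lit 0) (p (nat_lit 0x10012) (nat_lit 0) pn))))))))))))))))))))))))))))))))) :=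
  Cl.node (nat_lit 0x84014) (nat_lit 2) (by decide +kernel) (ClAll.succ (ClAll.succ ClAll.zero s60) s61)

def n101 : Cl (O (nat_lit 1)) (R (nat_lit 104465))
    (p (nat_lit 0x109) (nat_lit 0) (p (nat_lit 0x119) (nat_lit 0) (p (nat_lit 0x109) (nat_lit 0) (p (nat_lit 0xb0014) (nat_lit 0) (p (nat_lit 0xc9) (nat_lit 1) (p (nat_lit 0x41) (nat_lit 0) (p (nat_lit 0xb000c) (nat_lit 0) (p (nat_lit 0x101) (nat_lit 0) (p (nat_lit 0x380c2) (nat_lit 0) (p (nat_lit 0x3cc2a) (nat_lit 2) (p (nat_lit 0x109) (nat_lit 1) (p (nat_lit 0xc9) (nat_lit 1) (p (nat_lit 0xc1) (nat_lit 0) (p (nat_lit 0x119) (nat_lit 1) (p (nat_lit 0xd1) (nat_lit 0) (p (nat_lit 0x89) (nat_lit 0) (p (nat_lit 0x41) (nat_lit 0) (p (nat_lit 0x8078907089a) (nat_lit 0) (p (nat_lit 0x7870886861a) (nat_lit 0) (p (nat_lit 0x800070806078a) (nat_lit 0) (p (nat_lit 0x800068785850a) (nat_lit 0) (p (nat_lit 0x587050682) (nat_lit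 0) (p (nat_lit 0x506848402) (nat_lit 0) (p (nat_lit 0x160014) (nat_lit 0) (p (nat_lit 0x16000c) (nat_lit 0) (p (nat_lit 0x50612) (nat_lit 0) (p (nat_lit 0x40592) (nat_lit 0) (p (nat_lit 0x40492) (nat_lit 0) (p (nat_lit 0x30412) (nat_lit 0) (p (nat_lit 0x30212) (nat_lit 0) (p (nat_lit 0x20192) (nat_lit 0) (p (nat_lit 0x20092) (nat_lit 0) (p (nat_lit 0x10012) (nat_lit 0) pn))))))))))))))))))))))))))))))))) :=
  Cl.node (nat_lit 0x111) (nat_lit 2) (by decide +kernel) (ClAll.succ (ClAll.succ ClAll.zero s239) s240)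

def n102 : Cl (O (nat_lit 1)) (R (nat_lit 104465))
    (p (nat_lit 0xc0b8d0b0c9a) (nat_lit 0) (p (nat_lit 0xb8b0c8a8a1a) (nat_lit 0) (p (nat_lit 0x2a8258b0c0a0b8a) (nat_lit 0) (p (nat_lit 0x2a8258a8b89890a) (nat_lit 0) (p (nat_lit 0xb0014) (nat_lit 0) (p (nat_lit 0x1fc004) (nat_lit 0) (p (nat_lit 0xb000c) (nat_lit 1) (p (nat_lit 0x101) (nat_lit 0) (p (nat_lit 0x380c2) (nat_lit 0) (p (nat_lit 0x3cc2a) (nat_lit 2) (p (nat_lit 0x109) (nat_lit 1) (p (nat_lit 0xc9) (nat_lit 1) (p (nat_lit 0xc1) (nat_lit 0) (p (nat_lit 0x119) (nat_lit 1) (p (nat_lit 0xd1) (nat_lit 0) (p (nat_lit 0x89) (nat_lit 0) (p (nat_lit 0x41) (nat_lit 0) (p (nat_lit 0x8078907089a) (nat_lit 0) (p (nat_lit 0x7870886861a) (nat_lit 0) (p (nat_lit 0x800070806078a) (nat_lit 0) (p (nat_lit 0x800068785850a) (nat_lit 0) (p (nat_lit 0x587050682) (nat_lit 0) (p (nat_lit 0x506848402) (nat_lit 0) (p (nat_lit 0x160014)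 (nat_lit 0) (p (nat_lit 0x16000c) (nat_lit 0) (p (nat_lit 0x50612) (nat_lit 0) (p (nat_lit 0x40592) (nat_lit 0) (p (nat_lit 0x40492) (nat_lit 0) (p (nat_lit 0x30412) (nat_lit 0) (p (nat_lit 0x30212) (nat_lit 0) (p (nat_lit 0x20192) (nat_lit 0) (p (nat_lit 0x20092) (nat_lit 0) (p (nat_lit 0x10012) (nat_lit 0) pn))))))))))))))))))))))))))))))))) :=
  Cl.node (nat_lit 0x81) (nat_lit 2) (by decide +kernel) (ClAll.succ (ClAll.succ ClAll.zero n77) n78)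

def n103 : Cl (O (nat_lit 1)) (R (nat_lit 104465))
    (p (nat_lit 0xb8b0c8a8a1a) (nat_lit 0) (p (nat_lit 0x2a8258b0c0a0b8a) (nat_lit 0) (p (nat_lit 0x2a8258a8b89890a) (nat_lit 0) (p (nat_lit 0xb0014) (nat_lit 0) (p (nat_lit 0x1fc004) (nat_lit 0) (p (nat_lit 0xb000c) (nat_lit 1) (p (nat_lit 0x41) (nat_lit 0) (p (nat_lit 0x101) (nat_lit 1) (p (nat_lit 0x380c2) (nat_lit 0) (p (nat_lit 0x3cc2a) (nat_lit 2) (p (nat_lit 0x109) (nat_lit 1) (p (nat_lit 0xc9) (nat_lit 1) (p (nat_lit 0xc1) (nat_lit 0) (p (nat_lit 0x119) (nat_lit 1) (p (nat_lit 0xd1) (nat_lit 0) (p (nat_lit 0x89) (nat_lit 0) (p (nat_lit 0x41) (nat_lit 0) (p (nat_lit 0x8078907089a) (nat_lit 0) (p (nat_lit 0x7870886861a) (nat_lit 0) (p (nat_lit 0x800070806078a) (nat_lit 0) (p (nat_lit 0x800068785850a) (nat_lit 0) (p (nat_lit 0x587050682) (nat_lit 0) (p (nat_lit 0x506848402) (nat_lit 0) (p (nat_lit 0x160014) (nat_lit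 0) (p (nat_lit 0x16000c) (nat_lit 0) (p (nat_lit 0x50612) (nat_lit 0) (p (nat_lit 0x40592) (nat_lit 0) (p (nat_lit 0x40492) (nat_lit 0) (p (nat_lit 0x30412) (nat_lit 0) (p (nat_lit 0x30212) (nat_lit 0) (p (nat_lit 0x20192) (nat_lit 0) (p (nat_lit 0x20092) (nat_lit 0) (p (nat_lit 0x10012) (nat_lit 0) pn))))))))))))))))))))))))))))))))) :=
  Cl.node (nat_lit 0xc0b8d0b0c9a) (nat_lit 1) (by decide +kernel) (ClAll.succ ClAll.zero n79)

def n104 : Cl (O (nat_lit 1)) (R (nat_lit 104465))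
    (p (nat_lit 0x41) (nat_lit 1) (p (nat_lit 0x100004) (nat_lit 0) (p (nat_lit 0x200004) (nat_lit 0) (p (nat_lit 0x380c2) (nat_lit 0) (p (nat_lit 0x4c42a) (nat_lit 10) (p (nat_lit 0x89) (nat_lit 0) (p (nat_lit 0xb0014) (nat_lit 0) (p (nat_lit 0x380c2) (nat_lit 0) (p (nat_lit 0x3cc2a) (nat_lit 2) (p (nat_lit 0x119) (nat_lit 1) (p (nat_lit 0xc1) (nat_lit 0) (p (nat_lit 0x81) (nat_lit 1) (p (nat_lit 0x101) (nat_lit 1) (p (nat_lit 0x111) (nat_lit 0) (p (nat_lit 0xd1) (nat_lit 1) (p (nat_lit 0x89) (nat_lit 0) (p (nat_lit 0x41) (nat_lit 0) (p (nat_lit 0x8078907089a) (nat_lit 0) (p (nat_lit 0x7870886861a) (nat_lit 0) (p (nat_lit 0x800070806078a) (nat_lit 0) (p (nat_lit 0x800068785850a) (nat_lit 0) (p (nat_lit 0x587050682) (nat_lit 0) (p (nat_lit 0x506848402) (nat_lit 0) (p (nat_lit 0x160014) (nat_lit 0) (p (nat_lit 0x16000c) (nat_lit 0) (p (nat_lit 0x50612) (nat_lit 0) (p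 (nat_lit 0x40592) (nat_lit 0) (p (nat_lit 0x40492) (nat_lit 0) (p (nat_lit 0x30412) (nat_lit 0) (p (nat_lit 0x30212) (nat_lit 0) (p (nat_lit 0x20192) (nat_lit 0) (p (nat_lit 0x20092) (nat_lit 0) (p (nat_lit 0x10012) (nat_lit 0) pn))))))))))))))))))))))))))))))))) :=
  Cl.node (nat_lit 0x81) (nat_lit 2) (by decide +kernel) (ClAll.succ (ClAll.succ ClAll.zero s480) n80)

def n105 : Cl (O (nat_lit 1)) (R (nat_lit 104465))
    (p (nat_lit 0x380c2) (nat_lit 0) (p (nat_lit 0x3cc2a) (nat_lit 1) (p (nat_lit 0xc9) (nat_lit 0) (p (nat_lit 0xc1) (nat_lit 0) (p (nat_lit 0xb000c) (nat_lit 0) (p (nat_lit 0x100004) (nat_lit 0) (p (nat_lit 0x200004) (nat_lit 0) (p (nat_lit 0x380c2) (nat_lit 0) (p (nat_lit 0x444aa) (nat_lit 7) (p (nat_lit 0xd1) (nat_lit 1) (p (nat_lit 0x111) (nat_lit 1) (p (nat_lit 0x109) (nat_lit 0) (p (nat_lit 0x101) (nat_lit 0) (p (nat_lit 0x119) (nat_lit 0) (p (nat_lit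 0xc9) (nat_lit 0) (p (nat_lit 0x89) (nat_lit 1) (p (nat_lit 0x41) (nat_lit 0) (p (nat_lit 0x8078907089a) (nat_lit 0) (p (nat_lit 0x7870886861a) (nat_lit 0) (p (nat_lit 0x800070806078a) (nat_lit 0) (p (nat_lit 0x800068785850a) (nat_lit 0) (p (nat_lit 0x587050682) (nat_lit 0) (p (nat_lit 0x506848402) (nat_lit 0) (p (nat_lit 0x160014) (nat_lit 0) (p (nat_lit 0x16000c) (nat_lit 0) (p (nat_lit 0x50612) (nat_lit 0) (p (nat_lit 0x40592) (nat_lit 0) (p (nat_lit 0x40492) (nat_lit 0) (p (nat_lit 0x30412) (nat_lit 0) (p (nat_lit 0x30212) (nat_lit 0) (p (nat_lit 0x20192) (nat_lit 0) (p (nat_lit 0x20092) (nat_lit 0) (p (nat_lit 0x10012) (nat_lit 0) pn))))))))))))))))))))))))))))))))) :=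
  Cl.node (nat_lit 0x109) (nat_lit 2) (by decide +kernel) (ClAll.succ (ClAll.succ ClAll.zero s541) s542)

def n106 : Cl (O (nat_lit 1)) (R (nat_lit 104465))
    (p (nat_lit 0x5800c) (nat_lit 0) (p (nat_lit 0x119) (nat_lit 1) (p (nat_lit 0xc9) (nat_lit 1) (p (nat_lit 0xc1) (nat_lit 0) (p (nat_lit 0xb000c) (nat_lit 0) (p (nat_lit 0x100004) (nat_lit 0) (p (nat_lit 0x200004) (nat_lit 0) (p (nat_lit 0x380c2) (nat_lit 0) (p (nat_lit 0x444aa) (nat_lit 7) (p (nat_lit 0xd1) (nat_lit 1) (p (nat_lit 0x111) (nat_lit 1) (p (nat_lit 0x109) (nat_lit 0) (p (nat_lit 0x101) (nat_lit 0) (p (nat_lit 0x119) (nat_lit 0) (p (nat_lit 0xc9) (nat_lit 0) (p (nat_lit 0x89) (nat_lit 1) (p (nat_lit 0x41) (nat_lit 0) (p (nat_lit 0x8078907089a) (nat_lit 0) (p (nat_lit 0x7870886861a) (nat_lit 0) (p (nat_lit 0x800070806078a) (nat_lit 0) (p (nat_lit 0x800068785850a) (nat_lit 0) (p (nat_lit 0x587050682)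 (nat_lit 0) (p (nat_lit 0x506848402) (nat_lit 0) (p (nat_lit 0x160014) (nat_lit 0) (p (nat_lit 0x16000c) (nat_lit 0) (p (nat_lit 0x50612) (nat_lit 0) (p (nat_lit 0x40592) (nat_lit 0) (p (nat_lit 0x40492) (nat_lit 0) (p (nat_lit 0x30412) (nat_lit 0) (p (nat_lit 0x30212) (nat_lit 0) (p (nat_lit 0x20192) (nat_lit 0) (p (nat_lit 0x20092) (nat_lit 0) (p (nat_lit 0x10012) (nat_lit 0) pn))))))))))))))))))))))))))))))))) :=
  Cl.node (nat_lit 0x89) (nat_lit 2) (by decide +kernel) (ClAll.succ (ClAll.succ ClAll.zero s555) s556)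

def n107 : Cl (O (nat_lit 1)) (R (nat_lit 104465))
    (p (nat_lit 0xc1) (nat_lit 0) (p (nat_lit 0x2680d0b0c0a0b8a) (nat_lit 0) (p (nat_lit 0x2680d0a8b89890a) (nat_lit 0) (p (nat_lit 0xb0014) (nat_lit 0) (p (nat_lit 0xb000c) (nat_lit 1) (p (nat_lit 0x100004) (nat_lit 0) (p (nat_lit 0x200004) (nat_lit 0) (p (nat_lit 0x380c2) (nat_lit 0) (p (nat_lit 0x444aa) (nat_lit 7) (p (nat_lit 0xd1) (nat_lit 1) (p (nat_lit 0x111) (nat_lit 1) (p (nat_lit 0x109) (nat_lit 0) (p (nat_lit 0x101) (nat_lit 0) (p (nat_lit 0x119) (nat_lit 0) (p (nat_lit 0xc9) (nat_lit 0) (p (nat_lit 0x89) (nat_lit 1) (p (nat_lit 0x41) (nat_lit 0) (p (nat_lit 0x8078907089a) (nat_lit 0) (p (nat_lit 0x7870886861a) (nat_lit 0) (p (nat_lit 0x800070806078a) (nat_lit 0) (p (nat_lit 0x800068785850a) (nat_lit 0) (p (nat_lit 0x587050682) (nat_lit 0) (p (nat_lit 0x506848402) (nat_lit 0) (p (nat_lit 0x160014) (nat_lit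 0) (p (nat_lit 0x16000c) (nat_lit 0) (p (nat_lit 0x50612) (nat_lit 0) (p (nat_lit 0x40592) (nat_lit 0) (p (nat_lit 0x40492) (nat_lit 0) (p (nat_lit 0x30412) (nat_lit 0) (p (nat_lit 0x30212) (nat_lit 0) (p (nat_lit 0x20192) (nat_lit 0) (p (nat_lit 0x20092) (nat_lit 0) (p (nat_lit 0x10012) (nat_lit 0) pn))))))))))))))))))))))))))))))))) :=
  Cl.node (nat_lit 0x80004) (nat_lit 2) (by decide +kernel) (ClAll.succ (ClAll.succ ClAll.zero s559) s560)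

def n108 : Cl (O (nat_lit 1)) (R (nat_lit 104465))
    (p (nat_lit 0xc8014) (nat_lit 0) (p (nat_lit 0x8400c) (nat_lit 0) (p (nat_lit 0x84014) (nat_lit 1) (p (nat_lit 0x108014) (nat_lit 0) (p (nat_lit 0x10800c) (nat_lit 0) (p (nat_lit 0x100004) (nat_lit 1) (p (nat_lit 0x200004) (nat_lit 0) (p (nat_lit 0x380c2) (nat_lit 0) (p (nat_lit 0x444aa) (nat_lit 7) (p (nat_lit 0xd1) (nat_lit 1) (p (nat_lit 0x111) (nat_lit 1) (p (nat_lit 0x109) (nat_lit 0) (p (nat_lit 0x101) (nat_lit 0) (p (nat_lit 0x119) (nat_lit 0) (p (nat_lit 0xc9) (nat_lit 0) (p (nat_lit 0x89) (nat_lit 1) (p (nat_lit 0x41) (nat_lit 0) (p (nat_lit 0x8078907089a) (nat_lit 0) (p (nat_lit 0x7870886861a) (nat_lit 0) (p (nat_lit 0x800070806078a) (nat_lit 0) (p (nat_lit 0x800068785850a) (nat_lit 0) (p (nat_lit 0x587050682) (nat_lit 0) (p (nat_lit 0x506848402) (nat_lit 0) (p (nat_lit 0x160014) (nat_lit 0) (p (nat_lit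 0x16000c) (nat_lit 0) (p (nat_lit 0x50612) (nat_lit 0) (p (nat_lit 0x40592) (nat_lit 0) (p (nat_lit 0x40492) (nat_lit 0) (p (nat_lit 0x30412) (nat_lit 0) (p (nat_lit 0x30212) (nat_lit 0) (p (nat_lit 0x20192) (nat_lit 0) (p (nat_lit 0x20092) (nat_lit 0) (p (nat_lit 0x10012) (nat_lit 0) pn))))))))))))))))))))))))))))))))) :=
  Cl.node (nat_lit 0xa8014) (nat_lit 2) (by decide +kernel) (ClAll.succ (ClAll.succ ClAll.zero n81) n82)

def n109 : Cl (O (nat_lit 1)) (R (nat_lit 104465))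
    (p (nat_lit 0xc8014) (nat_lit 1) (p (nat_lit 0x8400c) (nat_lit 0) (p (nat_lit 0x84014) (nat_lit 1) (p (nat_lit 0x108014) (nat_lit 0) (p (nat_lit 0x10800c) (nat_lit 0) (p (nat_lit 0x100004) (nat_lit 1) (p (nat_lit 0x200004) (nat_lit 0) (p (nat_lit 0x380c2) (nat_lit 0) (p (nat_lit 0x444aa) (nat_lit 7) (p (nat_lit 0xd1) (nat_lit 1) (p (nat_lit 0x111) (nat_lit 1) (p (nat_lit 0x109) (nat_lit 0) (p (nat_lit 0x101) (nat_lit 0) (p (nat_lit 0x119) (nat_lit 0) (p (nat_lit 0xc9) (nat_lit 0) (p (nat_lit 0x89) (nat_lit 1) (p (nat_lit 0x41) (nat_lit 0) (p (nat_lit 0x8078907089a) (nat_lit 0) (p (nat_lit 0x7870886861a) (nat_lit 0) (p (nat_lit 0x800070806078a) (nat_lit 0) (p (nat_lit 0x800068785850a) (nat_lit 0) (p (nat_lit 0x587050682) (nat_lit 0) (p (nat_lit 0x506848402) (nat_lit 0) (p (nat_lit 0x160014) (nat_lit 0) (p (nat_lit 0x16000c) (nat_lit 0) (p (nat_lit 0x50612) (nat_lit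 0) (p (nat_lit 0x40592) (nat_lit 0) (p (nat_lit 0x40492) (nat_lit 0) (p (nat_lit 0x30412) (nat_lit 0) (p (nat_lit 0x30212) (nat_lit 0) (p (nat_lit 0x20192) (nat_lit 0) (p (nat_lit 0x20092) (nat_lit 0) (p (nat_lit 0x10012) (nat_lit 0) pn))))))))))))))))))))))))))))))))) :=
  Cl.node (nat_lit 0x1b4004) (nat_lit 2) (by decide +kernel) (ClAll.succ (ClAll.succ ClAll.zero n83) s619)

def n110 : Cl (O (nat_lit 1)) (R (nat_lit 104465))
    (p (nat_lit 0xb8b0c8a8a1a) (nat_lit 0) (p (nat_lit 0x2680d0b0c0a0b8a) (nat_lit 0) (p (nat_lit 0x2680d0a8b89890a) (nat_lit 0) (p (nat_lit 0xb0014) (nat_lit 0) (p (nat_lit 0xb000c) (nat_lit 1) (p (nat_lit 0x100004) (nat_lit 0) (p (nat_lit 0x200004) (nat_lit 0) (p (nat_lit 0x380c2) (nat_lit 1) (p (nat_lit 0x444aa) (nat_lit 7) (p (nat_lit 0xd1) (nat_lit 1) (p (nat_lit 0x111) (nat_lit 1) (p (nat_lit 0x109) (nat_lit 0) (p (nat_lit 0x101) (nat_lit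 0) (p (nat_lit 0x119) (nat_lit 0) (p (nat_lit 0xc9) (nat_lit 0) (p (nat_lit 0x89) (nat_lit 1) (p (nat_lit 0x41) (nat_lit 0) (p (nat_lit 0x8078907089a) (nat_lit 0) (p (nat_lit 0x7870886861a) (nat_lit 0) (p (nat_lit 0x800070806078a) (nat_lit 0) (p (nat_lit 0x800068785850a) (nat_lit 0) (p (nat_lit 0x587050682) (nat_lit 0) (p (nat_lit 0x506848402) (nat_lit 0) (p (nat_lit 0x160014) (nat_lit 0) (p (nat_lit 0x16000c) (nat_lit 0) (p (nat_lit 0x50612) (nat_lit 0) (p (nat_lit 0x40592) (nat_lit 0) (p (nat_lit 0x40492) (nat_lit 0) (p (nat_lit 0x30412) (nat_lit 0) (p (nat_lit 0x30212) (nat_lit 0) (p (nat_lit 0x20192) (nat_lit 0) (p (nat_lit 0x20092) (nat_lit 0) (p (nat_lit 0x10012) (nat_lit 0) pn))))))))))))))))))))))))))))))))) :=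
  Cl.node (nat_lit 0xc0b8d0b0c9a) (nat_lit 1) (by decide +kernel) (ClAll.succ ClAll.zero n84)

def n111 : Cl (O (nat_lit 1)) (R (nat_lit 104465))
    (p (nat_lit 0xb8b0c8a8a1a) (nat_lit 0) (p (nat_lit 0xe80d8b0c0a0b8a) (nat_lit 0) (p (nat_lit 0xe80d8a8b89890a) (nat_lit 0) (p (nat_lit 0x10800c) (nat_lit 0) (p (nat_lit 0x58014) (nat_lit 1) (p (nat_lit 0xb0014) (nat_lit 0) (p (nat_lit 0x380c2) (nat_lit 0) (p (nat_lit 0x44c2a) (nat_lit 1) (p (nat_lit 0x41) (nat_lit 0) (p (nat_lit 0x200004) (nat_lit 0) (p (nat_lit 0xd1) (nat_lit 0) (p (nat_lit 0x109) (nat_lit 1) (p (nat_lit 0x101) (nat_lit 0) (p (nat_lit 0x119) (nat_lit 0) (p (nat_lit 0xc9) (nat_lit 0) (p (nat_lit 0x89) (nat_lit 1) (p (nat_lit 0x41) (nat_lit 0) (p (nat_lit 0x8078907089a) (nat_lit 0) (p (nat_lit 0x7870886861a) (nat_lit 0) (p (nat_lit 0x800070806078a) (nat_lit 0) (p (nat_lit 0x800068785850a) (nat_lit 0) (p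 (nat_lit 0x587050682) (nat_lit 0) (p (nat_lit 0x506848402) (nat_lit 0) (p (nat_lit 0x160014) (nat_lit 0) (p (nat_lit 0x16000c) (nat_lit 0) (p (nat_lit 0x50612) (nat_lit 0) (p (nat_lit 0x40592) (nat_lit 0) (p (nat_lit 0x40492) (nat_lit 0) (p (nat_lit 0x30412) (nat_lit 0) (p (nat_lit 0x30212) (nat_lit 0) (p (nat_lit 0x20192) (nat_lit 0) (p (nat_lit 0x20092) (nat_lit 0) (p (nat_lit 0x10012) (nat_lit 0) pn))))))))))))))))))))))))))))))))) :=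
  Cl.node (nat_lit 0xc0b8d0b0c9a) (nat_lit 1) (by decide +kernel) (ClAll.succ ClAll.zero n85)

def n112 : Cl (O (nat_lit 1)) (R (nat_lit 104465))
    (p (nat_lit 0xc0b8d0b0c9a) (nat_lit 0) (p (nat_lit 0xb8b0c8a8a1a) (nat_lit 0) (p (nat_lit 0x2a8258b0c0a0b8a) (nat_lit 0) (p (nat_lit 0x2a8258a8b89890a) (nat_lit 0) (p (nat_lit 0xb000c) (nat_lit 0) (p (nat_lit 0xb0014) (nat_lit 1) (p (nat_lit 0x380c2) (nat_lit 0) (p (nat_lit 0x44c2a) (nat_lit 1) (p (nat_lit 0x41) (nat_lit 0) (p (nat_lit 0x200004) (nat_lit 0) (p (nat_lit 0xd1) (nat_lit 0) (p (nat_lit 0x109) (nat_lit 1) (p (nat_lit 0x101) (nat_lit 0) (p (nat_lit 0x119) (nat_lit 0) (p (nat_lit 0xc9) (nat_lit 0) (p (nat_lit 0x89) (nat_lit 1) (p (nat_lit 0x41) (nat_lit 0) (p (nat_lit 0x8078907089a) (nat_lit 0) (p (nat_lit 0x7870886861a) (nat_lit 0) (p (nat_lit 0x800070806078a) (nat_lit 0) (p (nat_lit 0x800068785850a) (nat_lit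 0) (p (nat_lit 0x587050682) (nat_lit 0) (p (nat_lit 0x506848402) (nat_lit 0) (p (nat_lit 0x160014) (nat_lit 0) (p (nat_lit 0x16000c) (nat_lit 0) (p (nat_lit 0x50612) (nat_lit 0) (p (nat_lit 0x40592) (nat_lit 0) (p (nat_lit 0x40492) (nat_lit 0) (p (nat_lit 0x30412) (nat_lit 0) (p (nat_lit 0x30212) (nat_lit 0) (p (nat_lit 0x20192) (nat_lit 0) (p (nat_lit 0x20092) (nat_lit 0) (p (nat_lit 0x10012) (nat_lit 0) pn))))))))))))))))))))))))))))))))) :=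
  Cl.node (nat_lit 0xc1) (nat_lit 2) (by decide +kernel) (ClAll.succ (ClAll.succ ClAll.zero s682) s683)

def n113 : Cl (O (nat_lit 1)) (R (nat_lit 104465))
    (p (nat_lit 0x84014) (nat_lit 0) (p (nat_lit 0xc9) (nat_lit 0) (p (nat_lit 0xc1) (nat_lit 0) (p (nat_lit 0x8400c) (nat_lit 0) (p (nat_lit 0x108014) (nat_lit 0) (p (nat_lit 0x10800c) (nat_lit 0) (p (nat_lit 0x100004) (nat_lit 1) (p (nat_lit 0x200004) (nat_lit 0) (p (nat_lit 0x380c2) (nat_lit 0) (p (nat_lit 0x444aa) (nat_lit 7) (p (nat_lit 0xd1) (nat_lit 1) (p (nat_lit 0x109) (nat_lit 1) (p (nat_lit 0x101) (nat_lit 0) (p (nat_lit 0x119) (nat_lit 0) (p (nat_lit 0xc9) (nat_lit 0) (p (nat_lit 0x89) (nat_lit 1) (p (nat_lit 0x41) (nat_lit 0) (p (nat_lit 0x8078907089a) (nat_lit 0) (p (nat_lit 0x7870886861a) (nat_lit 0) (p (nat_lit 0x800070806078a) (nat_lit 0) (p (nat_lit 0x800068785850a) (nat_lit 0) (p (nat_lit 0x587050682)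 (nat_lit 0) (p (nat_lit 0x506848402) (nat_lit 0) (p (nat_lit 0x160014) (nat_lit 0) (p (nat_lit 0x16000c) (nat_lit 0) (p (nat_lit 0x50612) (nat_lit 0) (p (nat_lit 0x40592) (nat_lit 0) (p (nat_lit 0x40492) (nat_lit 0) (p (nat_lit 0x30412) (nat_lit 0) (p (nat_lit 0x30212) (nat_lit 0) (p (nat_lit 0x20192) (nat_lit 0) (p (nat_lit 0x20092) (nat_lit 0) (p (nat_lit 0x10012) (nat_lit 0) pn))))))))))))))))))))))))))))))))) :=
  Cl.node (nat_lit 0x44014) (nat_lit 2) (by decide +kernel) (ClAll.succ (ClAll.succ ClAll.zero s748) s749)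

def n114 : Cl (O (nat_lit 1)) (R (nat_lit 104465))
    (p (nat_lit 0xc0b8d0b0c9a) (nat_lit 0) (p (nat_lit 0xb8b0c8a8a1a) (nat_lit 0) (p (nat_lit 0x2680d0b0c0a0b8a) (nat_lit 0) (p (nat_lit 0x2680d0a8b89890a) (nat_lit 0) (p (nat_lit 0x100004) (nat_lit 0) (p (nat_lit 0xb000c) (nat_lit 0) (p (nat_lit 0x1fc004) (nat_lit 0) (p (nat_lit 0xb0014) (nat_lit 1) (p (nat_lit 0x380c2) (nat_lit 1) (p (nat_lit 0x444aa) (nat_lit 7) (p (nat_lit 0xd1) (nat_lit 1) (p (nat_lit 0x109) (nat_lit 1) (p (nat_lit 0x101) (nat_lit 0) (p (nat_lit 0x119) (nat_lit 0) (p (nat_lit 0xc9) (nat_lit 0) (p (nat_lit 0x89) (nat_lit 1) (p (nat_lit 0x41) (nat_lit 0) (p (nat_lit 0x8078907089a) (nat_lit 0) (p (nat_lit 0x7870886861a) (nat_lit 0) (p (nat_lit 0x800070806078a) (nat_lit 0) (p (nat_lit 0x800068785850a) (nat_lit 0) (p (nat_lit 0x587050682) (nat_lit 0) (p (nat_lit 0x506848402) (nat_lit 0) (p (nat_lit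 0x160014) (nat_lit 0) (p (nat_lit 0x16000c) (nat_lit 0) (p (nat_lit 0x50612) (nat_lit 0) (p (nat_lit 0x40592) (nat_lit 0) (p (nat_lit 0x40492) (nat_lit 0) (p (nat_lit 0x30412) (nat_lit 0) (p (nat_lit 0x30212) (nat_lit 0) (p (nat_lit 0x20192) (nat_lit 0) (p (nat_lit 0x20092) (nat_lit 0) (p (nat_lit 0x10012) (nat_lit 0) pn))))))))))))))))))))))))))))))))) :=
  Cl.node (nat_lit 0xc1) (nat_lit 2) (by decide +kernel) (ClAll.succ (ClAll.succ ClAll.zero n86) s791)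

def n115 : Cl (O (nat_lit 1)) (R (nat_lit 104465))
    (p (nat_lit 0xc0b8d0b0c9a) (nat_lit 0) (p (nat_lit 0xb8b0c8a8a1a) (nat_lit 0) (p (nat_lit 0x2a8258b0c0a0b8a) (nat_lit 0) (p (nat_lit 0x2a8258a8b89890a) (nat_lit 0) (p (nat_lit 0xb000c) (nat_lit 0) (p (nat_lit 0xb0014) (nat_lit 1) (p (nat_lit 0x380c2) (nat_lit 0) (p (nat_lit 0x44c2a) (nat_lit 1) (p (nat_lit 0x109) (nat_lit 1) (p (nat_lit 0x200004) (nat_lit 0) (p (nat_lit 0xd1) (nat_lit 0) (p (nat_lit 0xc1) (nat_lit 0) (p (nat_lit 0x101) (nat_lit 1) (p (nat_lit 0x119) (nat_lit 0) (p (nat_lit 0xc9) (nat_lit 0) (p (nat_lit 0x89) (nat_lit 1) (p (nat_lit 0x41) (nat_lit 0) (p (nat_lit 0x8078907089a) (nat_lit 0) (p (nat_lit 0x7870886861a) (nat_lit 0) (p (nat_lit 0x800070806078a) (nat_lit 0) (p (nat_lit 0x800068785850a) (nat_lit 0) (p (nat_lit 0x587050682) (nat_lit 0) (p (nat_lit 0x506848402) (nat_lit 0) (p (nat_lit 0x160014)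 (nat_lit 0) (p (nat_lit 0x16000c) (nat_lit 0) (p (nat_lit 0x50612) (nat_lit 0) (p (nat_lit 0x40592) (nat_lit 0) (p (nat_lit 0x40492) (nat_lit 0) (p (nat_lit 0x30412) (nat_lit 0) (p (nat_lit 0x30212) (nat_lit 0) (p (nat_lit 0x20192) (nat_lit 0) (p (nat_lit 0x20092) (nat_lit 0) (p (nat_lit 0x10012) (nat_lit 0) pn))))))))))))))))))))))))))))))))) :=
  Cl.node (nat_lit 0xc1) (nat_lit 2) (by decide +kernel) (ClAll.succ (ClAll.succ ClAll.zero n87) n88)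

def n116 : Cl (O (nat_lit 1)) (R (nat_lit 104465))
    (p (nat_lit 0x119) (nat_lit 1) (p (nat_lit 0xb000c) (nat_lit 0) (p (nat_lit 0x380c2) (nat_lit 0) (p (nat_lit 0x3cc2a) (nat_lit 2) (p (nat_lit 0x109) (nat_lit 0) (p (nat_lit 0x101) (nat_lit 0) (p (nat_lit 0x100004) (nat_lit 0) (p (nat_lit 0x200004) (nat_lit 0) (p (nat_lit 0x380c2) (nat_lit 0) (p (nat_lit 0x444aa) (nat_lit 7) (p (nat_lit 0x111) (nat_lit 1) (p (nat_lit 0xd1) (nat_lit 1) (p (nat_lit 0xc1) (nat_lit 0) (p (nat_lit 0x119) (nat_lit 1) (p (nat_lit 0xc9) (nat_lit 0) (p (nat_lit 0x89) (nat_lit 1) (p (nat_lit 0x41) (nat_lit 0) (p (nat_lit 0x8078907089a) (nat_lit 0) (p (nat_lit 0x7870886861a) (nat_lit 0) (p (nat_lit 0x800070806078a) (nat_lit 0) (p (nat_lit 0x800068785850a) (nat_lit 0) (p (nat_lit 0x587050682) (nat_lit 0) (p (nat_lit 0x506848402) (nat_lit 0) (p (nat_lit 0x160014) (nat_lit 0) (p (nat_lit 0x16000c)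 (nat_lit 0) (p (nat_lit 0x50612) (nat_lit 0) (p (nat_lit 0x40592) (nat_lit 0) (p (nat_lit 0x40492) (nat_lit 0) (p (nat_lit 0x30412) (nat_lit 0) (p (nat_lit 0x30212) (nat_lit 0) (p (nat_lit 0x20192) (nat_lit 0) (p (nat_lit 0x20092) (nat_lit 0) (p (nat_lit 0x10012) (nat_lit 0) pn))))))))))))))))))))))))))))))))) :=
  Cl.node (nat_lit 0x89) (nat_lit 2) (by decide +kernel) (ClAll.succ (ClAll.succ ClAll.zero n89) s901)

def n117 : Cl (O (nat_lit 1)) (R (nat_lit 104465))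
    (p (nat_lit 0x109) (nat_lit 0) (p (nat_lit 0xc0b8d0b0c9a) (nat_lit 0) (p (nat_lit 0xb8b0c8a8a1a) (nat_lit 0) (p (nat_lit 0x2a8258b0c0a0b8a) (nat_lit 0) (p (nat_lit 0x2a8258a8b89890a) (nat_lit 0) (p (nat_lit 0xb000c) (nat_lit 0) (p (nat_lit 0x1fc004) (nat_lit 0) (p (nat_lit 0xb0014) (nat_lit 1) (p (nat_lit 0x380c2) (nat_lit 0) (p (nat_lit 0x444aa) (nat_lit 7) (p (nat_lit 0x111) (nat_lit 1) (p (nat_lit 0x101) (nat_lit 0) (p (nat_lit 0xc1) (nat_lit 1) (p (nat_lit 0x119) (nat_lit 1) (p (nat_lit 0xc9) (nat_lit 0) (p (nat_lit 0x89) (nat_lit 1) (p (nat_lit 0x41) (nat_lit 0) (p (nat_lit 0x8078907089a) (nat_lit 0) (p (nat_lit 0x7870886861a) (nat_lit 0) (p (nat_lit 0x800070806078a) (nat_lit 0) (p (nat_lit 0x800068785850a) (nat_lit 0) (p (nat_lit 0x587050682) (nat_lit 0) (p (nat_lit 0x506848402) (nat_lit 0) (p (nat_lit 0x160014) (nat_lit 0) (p (nat_lit 0x16000c) (nat_lit 0)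 (p (nat_lit 0x50612) (nat_lit 0) (p (nat_lit 0x40592) (nat_lit 0) (p (nat_lit 0x40492) (nat_lit 0) (p (nat_lit 0x30412) (nat_lit 0) (p (nat_lit 0x30212) (nat_lit 0) (p (nat_lit 0x20192) (nat_lit 0) (p (nat_lit 0x20092) (nat_lit 0) (p (nat_lit 0x10012) (nat_lit 0) pn))))))))))))))))))))))))))))))))) :=
  Cl.node (nat_lit 0x100004) (nat_lit 2) (by decide +kernel) (ClAll.succ (ClAll.succ ClAll.zero s962) s963)

def n118 : Cl (O (nat_lit 1)) (R (nat_lit 104465))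
    (p (nat_lit 0x58014) (nat_lit 0) (p (nat_lit 0xd1) (nat_lit 1) (p (nat_lit 0x111) (nat_lit 1) (p (nat_lit 0xb0014) (nat_lit 0) (p (nat_lit 0xd1) (nat_lit 1) (p (nat_lit 0x100004) (nat_lit 0) (p (nat_lit 0x200004) (nat_lit 0) (p (nat_lit 0x380c2) (nat_lit 0) (p (nat_lit 0x4c42a) (nat_lit 10) (p (nat_lit 0xc9) (nat_lit 0) (p (nat_lit 0x89) (nat_lit 1) (p (nat_lit 0xc1) (nat_lit 0) (p (nat_lit 0x101) (nat_lit 1) (p (nat_lit 0x119) (nat_lit 0) (p (nat_lit 0xd1) (nat_lit 0) (p (nat_lit 0x81) (nat_lit 0) (p (nat_lit 0x41) (nat_lit 1) (p (nat_lit 0x8078907089a) (nat_lit 0) (p (nat_lit 0x7870886861a) (nat_lit 0) (p (nat_lit 0x800070806078a) (nat_lit 0) (p (nat_lit 0x800068785850a) (nat_lit 0) (p (nat_lit 0x587050682) (nat_lit 0) (p (nat_lit 0x506848402) (nat_lit 0) (p (nat_lit 0x160014) (nat_lit 0) (p (nat_lit 0x16000c) (nat_lit 0) (p (nat_lit 0x50612) (nat_lit 0) (p (nat_lit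 0x40592) (nat_lit 0) (p (nat_lit 0x40492) (nat_lit 0) (p (nat_lit 0x30412) (nat_lit 0) (p (nat_lit 0x30212) (nat_lit 0) (p (nat_lit 0x20192) (nat_lit 0) (p (nat_lit 0x20092) (nat_lit 0) (p (nat_lit 0x10012) (nat_lit 0) pn))))))))))))))))))))))))))))))))) :=
  Cl.node (nat_lit 0x81) (nat_lit 2) (by decide +kernel) (ClAll.succ (ClAll.succ ClAll.zero n90) s1127)

def n119 : Cl (O (nat_lit 1)) (R (nat_lit 104465))
    (p (nat_lit 0x111) (nat_lit 1) (p (nat_lit 0x109) (nat_lit 0) (p (nat_lit 0x111) (nat_lit 0) (p (nat_lit 0xc9) (nat_lit 1) (p (nat_lit 0x109) (nat_lit 1) (p (nat_lit 0x101) (nat_lit 0) (p (nat_lit 0xb000c) (nat_lit 0) (p (nat_lit 0xb0014) (nat_lit 0) (p (nat_lit 0x380c2) (nat_lit 0) (p (nat_lit 0x3cc2a) (nat_lit 2) (p (nat_lit 0x89) (nat_lit 0) (p (nat_lit 0xc1) (nat_lit 1) (p (nat_lit 0x101) (nat_lit 1) (p (nat_lit 0x119) (nat_lit 0) (p (nat_lit 0xd1) (nat_lit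 0) (p (nat_lit 0x81) (nat_lit 0) (p (nat_lit 0x41) (nat_lit 1) (p (nat_lit 0x8078907089a) (nat_lit 0) (p (nat_lit 0x7870886861a) (nat_lit 0) (p (nat_lit 0x800070806078a) (nat_lit 0) (p (nat_lit 0x800068785850a) (nat_lit 0) (p (nat_lit 0x587050682) (nat_lit 0) (p (nat_lit 0x506848402) (nat_lit 0) (p (nat_lit 0x160014) (nat_lit 0) (p (nat_lit 0x16000c) (nat_lit 0) (p (nat_lit 0x50612) (nat_lit 0) (p (nat_lit 0x40592) (nat_lit 0) (p (nat_lit 0x40492) (nat_lit 0) (p (nat_lit 0x30412) (nat_lit 0) (p (nat_lit 0x30212) (nat_lit 0) (p (nat_lit 0x20192) (nat_lit 0) (p (nat_lit 0x20092) (nat_lit 0) (p (nat_lit 0x10012) (nat_lit 0) pn))))))))))))))))))))))))))))))))) :=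
  Cl.node (nat_lit 0x89) (nat_lit 2) (by decide +kernel) (ClAll.succ (ClAll.succ ClAll.zero s1159) n91)

def n120 : Cl (O (nat_lit 1)) (R (nat_lit 104465))
    (p (nat_lit 0xc0b8d0b0c9a) (nat_lit 0) (p (nat_lit 0xb8b0c8a8a1a) (nat_lit 0) (p (nat_lit 0x2680d0b0c0a0b8a) (nat_lit 0) (p (nat_lit 0x2680d0a8b89890a) (nat_lit 0) (p (nat_lit 0x100004) (nat_lit 0) (p (nat_lit 0x1fc004) (nat_lit 0) (p (nat_lit 0xb000c) (nat_lit 1) (p (nat_lit 0xb0014) (nat_lit 0) (p (nat_lit 0x380c2) (nat_lit 0) (p (nat_lit 0x3cc2a) (nat_lit 2) (p (nat_lit 0x89) (nat_lit 0) (p (nat_lit 0xc1) (nat_lit 1) (p (nat_lit 0x101) (nat_lit 1) (p (nat_lit 0x119) (nat_lit 0) (p (nat_lit 0xd1) (nat_lit 0) (p (nat_lit 0x81) (nat_lit 0) (p (nat_lit 0x41) (nat_lit 1) (p (nat_lit 0x8078907089a) (nat_lit 0) (p (nat_lit 0x7870886861a) (nat_lit 0) (p (nat_lit 0x800070806078a) (nat_lit 0) (p (nat_lit 0x800068785850a)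 (nat_lit 0) (p (nat_lit 0x587050682) (nat_lit 0) (p (nat_lit 0x506848402) (nat_lit 0) (p (nat_lit 0x160014) (nat_lit 0) (p (nat_lit 0x16000c) (nat_lit 0) (p (nat_lit 0x50612) (nat_lit 0) (p (nat_lit 0x40592) (nat_lit 0) (p (nat_lit 0x40492) (nat_lit 0) (p (nat_lit 0x30412) (nat_lit 0) (p (nat_lit 0x30212) (nat_lit 0) (p (nat_lit 0x20192) (nat_lit 0) (p (nat_lit 0x20092) (nat_lit 0) (p (nat_lit 0x10012) (nat_lit 0) pn))))))))))))))))))))))))))))))))) :=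
  Cl.node (nat_lit 0x109) (nat_lit 2) (by decide +kernel) (ClAll.succ (ClAll.succ ClAll.zero s1171) n92)

def n121 : Cl (O (nat_lit 1)) (R (nat_lit 104465))
    (p (nat_lit 0xc0b8d0b0c9a) (nat_lit 0) (p (nat_lit 0xb8b0c8a8a1a) (nat_lit 0) (p (nat_lit 0x2a8258b0c0a0b8a) (nat_lit 0) (p (nat_lit 0x2a8258a8b89890a) (nat_lit 0) (p (nat_lit 0xb0014) (nat_lit 0) (p (nat_lit 0x1fc004) (nat_lit 0) (p (nat_lit 0xb000c) (nat_lit 1) (p (nat_lit 0x380c2) (nat_lit 0) (p (nat_lit 0x3c4aa) (nat_lit 8) (p (nat_lit 0x109) (nat_lit 1) (p (nat_lit 0x89) (nat_lit 1) (p (nat_lit 0x101) (nat_lit 0) (p (nat_lit 0xc1) (nat_lit 1) (p (nat_lit 0x119) (nat_lit 1) (p (nat_lit 0xd1) (nat_lit 0) (p (nat_lit 0x81) (nat_lit 0) (p (nat_lit 0x41) (nat_lit 1) (p (nat_lit 0x8078907089a) (nat_lit 0) (p (nat_lit 0x7870886861a) (nat_lit 0) (p (nat_lit 0x800070806078a) (nat_lit 0) (p (nat_lit 0x800068785850a)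 (nat_lit 0) (p (nat_lit 0x587050682) (nat_lit 0) (p (nat_lit 0x506848402) (nat_lit 0) (p (nat_lit 0x160014) (nat_lit 0) (p (nat_lit 0x16000c) (nat_lit 0) (p (nat_lit 0x50612) (nat_lit 0) (p (nat_lit 0x40592) (nat_lit 0) (p (nat_lit 0x40492) (nat_lit 0) (p (nat_lit 0x30412) (nat_lit 0) (p (nat_lit 0x30212) (nat_lit 0) (p (nat_lit 0x20192) (nat_lit 0) (p (nat_lit 0x20092) (nat_lit 0) (p (nat_lit 0x10012) (nat_lit 0) pn))))))))))))))))))))))))))))))))) :=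
  Cl.node (nat_lit 0x119) (nat_lit 2) (by decide +kernel) (ClAll.succ (ClAll.succ ClAll.zero s1300) n93)

def n122 : Cl (O (nat_lit 1)) (R (nat_lit 104465))
    (p (nat_lit 0x380c2) (nat_lit 0) (p (nat_lit 0x43caa) (nat_lit 6) (p (nat_lit 0xc9) (nat_lit 1) (p (nat_lit 0xb0014) (nat_lit 0) (p (nat_lit 0x100004) (nat_lit 0) (p (nat_lit 0x200004) (nat_lit 0) (p (nat_lit 0x380c2) (nat_lit 0) (p (nat_lit 0x4c42a) (nat_lit 10) (p (nat_lit 0x119) (nat_lit 1) (p (nat_lit 0xc9) (nat_lit 0) (p (nat_lit 0x89) (nat_lit 1) (p (nat_lit 0x109) (nat_lit 1) (p (nat_lit 0x101) (nat_lit 0) (p (nat_lit 0x111) (nat_lit 0) (p (nat_lit 0xd1) (nat_lit 1) (p (nat_lit 0x81) (nat_lit 0) (p (nat_lit 0x41) (nat_lit 1) (p (nat_lit 0x8078907089a) (nat_lit 0) (p (nat_lit 0x7870886861a) (nat_lit 0) (p (nat_lit 0x800070806078a) (nat_lit 0) (p (nat_lit 0x800068785850a) (nat_lit 0) (p (nat_lit 0x587050682)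 (nat_lit 0) (p (nat_lit 0x506848402) (nat_lit 0) (p (nat_lit 0x160014) (nat_lit 0) (p (nat_lit 0x16000c) (nat_lit 0) (p (nat_lit 0x50612) (nat_lit 0) (p (nat_lit 0x40592) (nat_lit 0) (p (nat_lit 0x40492) (nat_lit 0) (p (nat_lit 0x30412) (nat_lit 0) (p (nat_lit 0x30212) (nat_lit 0) (p (nat_lit 0x20192) (nat_lit 0) (p (nat_lit 0x20092) (nat_lit 0) (p (nat_lit 0x10012) (nat_lit 0) pn))))))))))))))))))))))))))))))))) :=
  Cl.node (nat_lit 0x3cc2a) (nat_lit 12) (by decide +kernel) (ClAll.succ (ClAll.succ (ClAll.succ (ClAll.succ (ClAll.succ (ClAll.succ (ClAll.succ (ClAll.succ (ClAll.succ (ClAll.succ (ClAll.succ (ClAll.succ ClAll.zero s1423) s1424) n94) s1441) s1442) s1443) s1444) s1445) s1446) s1447) s1448) s1449)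

def n123 : Cl (O (nat_lit 1)) (R (nat_lit 104465))
    (p (nat_lit 0xb000c) (nat_lit 0) (p (nat_lit 0xb0014) (nat_lit 0) (p (nat_lit 0x380c2) (nat_lit 0) (p (nat_lit 0x3cc2a) (nat_lit 2) (p (nat_lit 0x100004) (nat_lit 0) (p (nat_lit 0x200004) (nat_lit 0) (p (nat_lit 0x380c2) (nat_lit 1) (p (nat_lit 0x4c42a) (nat_lit 10) (p (nat_lit 0x119) (nat_lit 1) (p (nat_lit 0xc9) (nat_lit 0) (p (nat_lit 0x89) (nat_lit 1) (p (nat_lit 0x109) (nat_lit 1) (p (nat_lit 0x101) (nat_lit 0) (p (nat_lit 0x111) (nat_lit 0) (p (nat_lit 0xd1) (nat_lit 1) (p (nat_lit 0x81) (nat_lit 0) (p (nat_lit 0x41) (nat_lit 1) (p (nat_lit 0x8078907089a) (nat_lit 0) (p (nat_lit 0x7870886861a) (nat_lit 0) (p (nat_lit 0x800070806078a) (nat_lit 0) (p (nat_lit 0x800068785850a) (nat_lit 0) (p (nat_lit 0x587050682) (nat_lit 0) (p (nat_lit 0x506848402) (nat_lit 0) (p (nat_lit 0x160014) (nat_lit 0) (p (nat_lit 0x16000c)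 (nat_lit 0) (p (nat_lit 0x50612) (nat_lit 0) (p (nat_lit 0x40592) (nat_lit 0) (p (nat_lit 0x40492) (nat_lit 0) (p (nat_lit 0x30412) (nat_lit 0) (p (nat_lit 0x30212) (nat_lit 0) (p (nat_lit 0x20192) (nat_lit 0) (p (nat_lit 0x20092) (nat_lit 0) (p (nat_lit 0x10012) (nat_lit 0) pn))))))))))))))))))))))))))))))))) :=
  Cl.node (nat_lit 0x41) (nat_lit 2) (by decide +kernel) (ClAll.succ (ClAll.succ ClAll.zero n95) s1465)

def n124 : Cl (O (nat_lit 1)) (R (nat_lit 104465))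
    (p (nat_lit 0xb000c) (nat_lit 1) (p (nat_lit 0xb0014) (nat_lit 0) (p (nat_lit 0x380c2) (nat_lit 0) (p (nat_lit 0x3cc2a) (nat_lit 2) (p (nat_lit 0x100004) (nat_lit 0) (p (nat_lit 0x200004) (nat_lit 0) (p (nat_lit 0x380c2) (nat_lit 1) (p (nat_lit 0x4c42a) (nat_lit 10) (p (nat_lit 0x119) (nat_lit 1) (p (nat_lit 0xc9) (nat_lit 0) (p (nat_lit 0x89) (nat_lit 1) (p (nat_lit 0x109) (nat_lit 1) (p (nat_lit 0x101) (nat_lit 0) (p (nat_lit 0x111) (nat_lit 0) (p (nat_lit 0xd1) (nat_lit 1) (p (nat_lit 0x81) (nat_lit 0) (p (nat_lit 0x41) (nat_lit 1) (p (nat_lit 0x8078907089a) (nat_lit 0) (p (nat_lit 0x7870886861a) (nat_lit 0) (p (nat_lit 0x800070806078a) (nat_lit 0) (p (nat_lit 0x800068785850a) (nat_lit 0) (p (nat_lit 0x587050682) (nat_lit 0) (p (nat_lit 0x506848402) (nat_lit 0) (p (nat_lit 0x160014) (nat_lit 0) (p (nat_lit 0x16000c) (nat_lit 0) (p (nat_lit 0x50612) (nat_lit 0)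 (p (nat_lit 0x40592) (nat_lit 0) (p (nat_lit 0x40492) (nat_lit 0) (p (nat_lit 0x30412) (nat_lit 0) (p (nat_lit 0x30212) (nat_lit 0) (p (nat_lit 0x20192) (nat_lit 0) (p (nat_lit 0x20092) (nat_lit 0) (p (nat_lit 0x10012) (nat_lit 0) pn))))))))))))))))))))))))))))))))) :=
  Cl.node (nat_lit 0x58014) (nat_lit 2) (by decide +kernel) (ClAll.succ (ClAll.succ ClAll.zero n96) s1468)

def n125 : Cl (O (nat_lit 1)) (R (nat_lit 104465))
    (p (nat_lit 0x109) (nat_lit 1) (p (nat_lit 0x119) (nat_lit 0) (p (nat_lit 0x109) (nat_lit 1) (p (nat_lit 0x111) (nat_lit 0) (p (nat_lit 0xb000c) (nat_lit 0) (p (nat_lit 0x101) (nat_lit 0) (p (nat_lit 0xd1) (nat_lit 0) (p (nat_lit 0xb0014) (nat_lit 0) (p (nat_lit 0x380c2) (nat_lit 0) (p (nat_lit 0x3cc2a) (nat_lit 2) (p (nat_lit 0xc9) (nat_lit 0) (p (nat_lit 0x89) (nat_lit 1) (p (nat_lit 0x101) (nat_lit 1) (p (nat_lit 0x111) (nat_lit 0) (p (nat_lit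 0xd1) (nat_lit 1) (p (nat_lit 0x81) (nat_lit 0) (p (nat_lit 0x41) (nat_lit 1) (p (nat_lit 0x8078907089a) (nat_lit 0) (p (nat_lit 0x7870886861a) (nat_lit 0) (p (nat_lit 0x800070806078a) (nat_lit 0) (p (nat_lit 0x800068785850a) (nat_lit 0) (p (nat_lit 0x587050682) (nat_lit 0) (p (nat_lit 0x506848402) (nat_lit 0) (p (nat_lit 0x160014) (nat_lit 0) (p (nat_lit 0x16000c) (nat_lit 0) (p (nat_lit 0x50612) (nat_lit 0) (p (nat_lit 0x40592) (nat_lit 0) (p (nat_lit 0x40492) (nat_lit 0) (p (nat_lit 0x30412) (nat_lit 0) (p (nat_lit 0x30212) (nat_lit 0) (p (nat_lit 0x20192) (nat_lit 0) (p (nat_lit 0x20092) (nat_lit 0) (p (nat_lit 0x10012) (nat_lit 0) pn))))))))))))))))))))))))))))))))) :=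
  Cl.node (nat_lit 0x89) (nat_lit 2) (by decide +kernel) (ClAll.succ (ClAll.succ ClAll.zero s1526) s1527)

def n126 : Cl (O (nat_lit 1)) (R (nat_lit 104465))
    (p (nat_lit 0xb8b0c8a8a1a) (nat_lit 0) (p (nat_lit 0x2a8258b0c0a0b8a) (nat_lit 0) (p (nat_lit 0x2a8258a8b89890a) (nat_lit 0) (p (nat_lit 0x1fc004) (nat_lit 0) (p (nat_lit 0xb000c) (nat_lit 1) (p (nat_lit 0x101) (nat_lit 0) (p (nat_lit 0xd1) (nat_lit 0) (p (nat_lit 0xb0014) (nat_lit 0) (p (nat_lit 0x380c2) (nat_lit 0) (p (nat_lit 0x3cc2a) (nat_lit 2) (p (nat_lit 0xc9) (nat_lit 0) (p (nat_lit 0x89) (nat_lit 1) (p (nat_lit 0x101) (nat_lit 1) (p (nat_lit 0x111) (nat_lit 0) (p (nat_lit 0xd1) (nat_lit 1) (p (nat_lit 0x81) (nat_lit 0) (p (nat_lit 0x41) (nat_lit 1) (p (nat_lit 0x8078907089a) (nat_lit 0) (p (nat_lit 0x7870886861a) (nat_lit 0) (p (nat_lit 0x800070806078a) (nat_lit 0) (p (nat_lit 0x800068785850a) (nat_lit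 0) (p (nat_lit 0x587050682) (nat_lit 0) (p (nat_lit 0x506848402) (nat_lit 0) (p (nat_lit 0x160014) (nat_lit 0) (p (nat_lit 0x16000c) (nat_lit 0) (p (nat_lit 0x50612) (nat_lit 0) (p (nat_lit 0x40592) (nat_lit 0) (p (nat_lit 0x40492) (nat_lit 0) (p (nat_lit 0x30412) (nat_lit 0) (p (nat_lit 0x30212) (nat_lit 0) (p (nat_lit 0x20192) (nat_lit 0) (p (nat_lit 0x20092) (nat_lit 0) (p (nat_lit 0x10012) (nat_lit 0) pn))))))))))))))))))))))))))))))))) :=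
  Cl.node (nat_lit 0xc0b8d0b0c9a) (nat_lit 1) (by decide +kernel) (ClAll.succ ClAll.zero n97)

def n127 : Cl (O (nat_lit 1)) (R (nat_lit 104465))
    (p (nat_lit 0x41) (nat_lit 0) (p (nat_lit 0x380c2) (nat_lit 0) (p (nat_lit 0x3cc2a) (nat_lit 2) (p (nat_lit 0x81) (nat_lit 0) (p (nat_lit 0x100004) (nat_lit 0) (p (nat_lit 0x200004) (nat_lit 0) (p (nat_lit 0x380c2) (nat_lit 0) (p (nat_lit 0x444aa) (nat_lit 7) (p (nat_lit 0x81) (nat_lit 1) (p (nat_lit 0xc9) (nat_lit 1) (p (nat_lit 0x109) (nat_lit 1) (p (nat_lit 0x101) (nat_lit 0) (p (nat_lit 0x119) (nat_lit 0) (p (nat_lit 0xd1) (nat_lit 0) (p (nat_lit 0x89) (nat_lit 0) (p (nat_lit 0x41) (nat_lit 0) (p (nat_lit 0x8078907089a) (nat_lit 0) (p (nat_lit 0x7870886861a) (nat_lit 0) (p (nat_lit 0x800070806078a) (nat_lit 0) (p (nat_lit 0x800068785850a) (nat_lit 0) (p (nat_lit 0x587050682) (nat_lit 0) (p (nat_lit 0x506848402) (nat_lit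 0) (p (nat_lit 0x160014) (nat_lit 0) (p (nat_lit 0x16000c) (nat_lit 0) (p (nat_lit 0x50612) (nat_lit 0) (p (nat_lit 0x40592) (nat_lit 0) (p (nat_lit 0x40492) (nat_lit 0) (p (nat_lit 0x30412) (nat_lit 0) (p (nat_lit 0x30212) (nat_lit 0) (p (nat_lit 0x20192) (nat_lit 0) (p (nat_lit 0x20092) (nat_lit 0) (p (nat_lit 0x10012) (nat_lit 0) pn)))))))))))))))))))))))))))))))) :=
  Cl.node (nat_lit 0xb0014) (nat_lit 2) (by decide +kernel) (ClAll.succ (ClAll.succ ClAll.zero n98) s31)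

def n128 : Cl (O (nat_lit 1)) (R (nat_lit 104465))
    (p (nat_lit 0x380c2) (nat_lit 0) (p (nat_lit 0x3cc2a) (nat_lit 2) (p (nat_lit 0xc1) (nat_lit 0) (p (nat_lit 0x81) (nat_lit 1) (p (nat_lit 0x100004) (nat_lit 0) (p (nat_lit 0x200004) (nat_lit 0) (p (nat_lit 0x380c2) (nat_lit 0) (p (nat_lit 0x444aa) (nat_lit 7) (p (nat_lit 0x81) (nat_lit 1) (p (nat_lit 0xc9) (nat_lit 1) (p (nat_lit 0x109) (nat_lit 1) (p (nat_lit 0x101) (nat_lit 0) (p (nat_lit 0x119) (nat_lit 0) (p (nat_lit 0xd1) (nat_lit 0) (p (nat_lit 0x89) (nat_lit 0) (p (nat_lit 0x41) (nat_lit 0) (p (nat_lit 0x8078907089a) (nat_lit 0) (p (nat_lit 0x7870886861a) (nat_lit 0) (p (nat_lit 0x800070806078a) (nat_lit 0) (p (nat_lit 0x800068785850a) (nat_lit 0) (p (nat_lit 0x587050682) (nat_lit 0) (p (nat_lit 0x506848402) (nat_lit 0) (p (nat_lit 0x160014) (nat_lit 0) (p (nat_lit 0x16000c) (nat_lit 0) (p (nat_lit 0x50612)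 (nat_lit 0) (p (nat_lit 0x40592) (nat_lit 0) (p (nat_lit 0x40492) (nat_lit 0) (p (nat_lit 0x30412) (nat_lit 0) (p (nat_lit 0x30212) (nat_lit 0) (p (nat_lit 0x20192) (nat_lit 0) (p (nat_lit 0x20092) (nat_lit 0) (p (nat_lit 0x10012) (nat_lit 0) pn)))))))))))))))))))))))))))))))) :=
  Cl.node (nat_lit 0xb000c) (nat_lit 2) (by decide +kernel) (ClAll.succ (ClAll.succ ClAll.zero s44) s45)

def n129 : Cl (O (nat_lit 1)) (R (nat_lit 104465))
    (p (nat_lit 0x81) (nat_lit 0) (p (nat_lit 0x8400c) (nat_lit 0) (p (nat_lit 0x108014) (nat_lit 0) (p (nat_lit 0x10800c) (nat_lit 0) (p (nat_lit 0x100004) (nat_lit 1) (p (nat_lit 0x200004) (nat_lit 0) (p (nat_lit 0x380c2) (nat_lit 0) (p (nat_lit 0x444aa) (nat_lit 7) (p (nat_lit 0x81) (nat_lit 1) (p (nat_lit 0xc9) (nat_lit 1) (p (nat_lit 0x109) (nat_lit 1) (p (nat_lit 0x101) (nat_lit 0) (p (nat_lit 0x119) (nat_lit 0) (p (nat_lit 0xd1) (nat_lit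 0) (p (nat_lit 0x89) (nat_lit 0) (p (nat_lit 0x41) (nat_lit 0) (p (nat_lit 0x8078907089a) (nat_lit 0) (p (nat_lit 0x7870886861a) (nat_lit 0) (p (nat_lit 0x800070806078a) (nat_lit 0) (p (nat_lit 0x800068785850a) (nat_lit 0) (p (nat_lit 0x587050682) (nat_lit 0) (p (nat_lit 0x506848402) (nat_lit 0) (p (nat_lit 0x160014) (nat_lit 0) (p (nat_lit 0x16000c) (nat_lit 0) (p (nat_lit 0x50612) (nat_lit 0) (p (nat_lit 0x40592) (nat_lit 0) (p (nat_lit 0x40492) (nat_lit 0) (p (nat_lit 0x30412) (nat_lit 0) (p (nat_lit 0x30212) (nat_lit 0) (p (nat_lit 0x20192) (nat_lit 0) (p (nat_lit 0x20092) (nat_lit 0) (p (nat_lit 0x10012) (nat_lit 0) pn)))))))))))))))))))))))))))))))) :=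
  Cl.node (nat_lit 0x84014) (nat_lit 2) (by decide +kernel) (ClAll.succ (ClAll.succ ClAll.zero s56) n99)

def n130 : Cl (O (nat_lit 1)) (R (nat_lit 104465))
    (p (nat_lit 0x81) (nat_lit 1) (p (nat_lit 0x8400c) (nat_lit 0) (p (nat_lit 0x108014) (nat_lit 0) (p (nat_lit 0x10800c) (nat_lit 0) (p (nat_lit 0x100004) (nat_lit 1) (p (nat_lit 0x200004) (nat_lit 0) (p (nat_lit 0x380c2) (nat_lit 0) (p (nat_lit 0x444aa) (nat_lit 7) (p (nat_lit 0x81) (nat_lit 1) (p (nat_lit 0xc9) (nat_lit 1) (p (nat_lit 0x109) (nat_lit 1) (p (nat_lit 0x101) (nat_lit 0) (p (nat_lit 0x119) (nat_lit 0) (p (nat_lit 0xd1) (nat_lit 0) (p (nat_lit 0x89) (nat_lit 0) (p (nat_lit 0x41) (nat_lit 0) (p (nat_lit 0x8078907089a) (nat_lit 0) (p (nat_lit 0x7870886861a) (nat_lit 0) (p (nat_lit 0x800070806078a) (nat_lit 0) (p (nat_lit 0x800068785850a) (nat_lit 0) (p (nat_lit 0x587050682) (nat_lit 0) (p (nat_lit 0x506848402)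 (nat_lit 0) (p (nat_lit 0x160014) (nat_lit 0) (p (nat_lit 0x16000c) (nat_lit 0) (p (nat_lit 0x50612) (nat_lit 0) (p (nat_lit 0x40592) (nat_lit 0) (p (nat_lit 0x40492) (nat_lit 0) (p (nat_lit 0x30412) (nat_lit 0) (p (nat_lit 0x30212) (nat_lit 0) (p (nat_lit 0x20192) (nat_lit 0) (p (nat_lit 0x20092) (nat_lit 0) (p (nat_lit 0x10012) (nat_lit 0) pn)))))))))))))))))))))))))))))))) :=
  Cl.node (nat_lit 0xc1) (nat_lit 2) (by decide +kernel) (ClAll.succ (ClAll.succ ClAll.zero n100) s62)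

def n131 : Cl (O (nat_lit 1)) (R (nat_lit 104465))
    (p (nat_lit 0x380c2) (nat_lit 0) (p (nat_lit 0x3cc2a) (nat_lit 2) (p (nat_lit 0xc1) (nat_lit 0) (p (nat_lit 0x81) (nat_lit 1) (p (nat_lit 0x100004) (nat_lit 0) (p (nat_lit 0x200004) (nat_lit 0) (p (nat_lit 0x380c2) (nat_lit 1) (p (nat_lit 0x444aa) (nat_lit 7) (p (nat_lit 0x81) (nat_lit 1) (p (nat_lit 0xc9) (nat_lit 1) (p (nat_lit 0x109) (nat_lit 1) (p (nat_lit 0x101) (nat_lit 0) (p (nat_lit 0x119) (nat_lit 0) (p (nat_lit 0xd1) (nat_lit 0) (p (nat_lit 0x89) (nat_lit 0) (p (nat_lit 0x41) (nat_lit 0) (p (nat_lit 0x8078907089a) (nat_lit 0) (p (nat_lit 0x7870886861a) (nat_lit 0) (p (nat_lit 0x800070806078a) (nat_lit 0) (p (nat_lit 0x800068785850a) (nat_lit 0) (p (nat_lit 0x587050682) (nat_lit 0) (p (nat_lit 0x506848402) (nat_lit 0) (p (nat_lit 0x160014) (nat_lit 0) (p (nat_lit 0x16000c) (nat_lit 0) (p (nat_lit 0x50612)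 (nat_lit 0) (p (nat_lit 0x40592) (nat_lit 0) (p (nat_lit 0x40492) (nat_lit 0) (p (nat_lit 0x30412) (nat_lit 0) (p (nat_lit 0x30212) (nat_lit 0) (p (nat_lit 0x20192) (nat_lit 0) (p (nat_lit 0x20092) (nat_lit 0) (p (nat_lit 0x10012) (nat_lit 0) pn)))))))))))))))))))))))))))))))) :=
  Cl.node (nat_lit 0xd1) (nat_lit 2) (by decide +kernel) (ClAll.succ (ClAll.succ ClAll.zero s81) s82)

def n132 : Cl (O (nat_lit 1)) (R (nat_lit 104465))
    (p (nat_lit 0x119) (nat_lit 0) (p (nat_lit 0x109) (nat_lit 0) (p (nat_lit 0xb0014) (nat_lit 0) (p (nat_lit 0xc9) (nat_lit 1) (p (nat_lit 0x41) (nat_lit 0) (p (nat_lit 0xb000c) (nat_lit 0) (p (nat_lit 0x101) (nat_lit 0) (p (nat_lit 0x380c2) (nat_lit 0) (p (nat_lit 0x3cc2a) (nat_lit 2) (p (nat_lit 0x109) (nat_lit 1) (p (nat_lit 0xc9) (nat_lit 1) (p (nat_lit 0xc1) (nat_lit 0) (p (nat_lit 0x119) (nat_lit 1) (p (nat_lit 0xd1) (nat_lit 0) (p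 (nat_lit 0x89) (nat_lit 0) (p (nat_lit 0x41) (nat_lit 0) (p (nat_lit 0x8078907089a) (nat_lit 0) (p (nat_lit 0x7870886861a) (nat_lit 0) (p (nat_lit 0x800070806078a) (nat_lit 0) (p (nat_lit 0x800068785850a) (nat_lit 0) (p (nat_lit 0x587050682) (nat_lit 0) (p (nat_lit 0x506848402) (nat_lit 0) (p (nat_lit 0x160014) (nat_lit 0) (p (nat_lit 0x16000c) (nat_lit 0) (p (nat_lit 0x50612) (nat_lit 0) (p (nat_lit 0x40592) (nat_lit 0) (p (nat_lit 0x40492) (nat_lit 0) (p (nat_lit 0x30412) (nat_lit 0) (p (nat_lit 0x30212) (nat_lit 0) (p (nat_lit 0x20192) (nat_lit 0) (p (nat_lit 0x20092) (nat_lit 0) (p (nat_lit 0x10012) (nat_lit 0) pn)))))))))))))))))))))))))))))))) :=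
  Cl.node (nat_lit 0x109) (nat_lit 2) (by decide +kernel) (ClAll.succ (ClAll.succ ClAll.zero n101) s241)

def n133 : Cl (O (nat_lit 1)) (R (nat_lit 104465))
    (p (nat_lit 0xb8b0c8a8a1a) (nat_lit 0) (p (nat_lit 0x2a8258b0c0a0b8a) (nat_lit 0) (p (nat_lit 0x2a8258a8b89890a) (nat_lit 0) (p (nat_lit 0xb0014) (nat_lit 0) (p (nat_lit 0x1fc004) (nat_lit 0) (p (nat_lit 0xb000c) (nat_lit 1) (p (nat_lit 0x101) (nat_lit 0) (p (nat_lit 0x380c2) (nat_lit 0) (p (nat_lit 0x3cc2a) (nat_lit 2) (p (nat_lit 0x109) (nat_lit 1) (p (nat_lit 0xc9) (nat_lit 1) (p (nat_lit 0xc1) (nat_lit 0) (p (nat_lit 0x119) (nat_lit 1) (p (nat_lit 0xd1) (nat_lit 0) (p (nat_lit 0x89) (nat_lit 0) (p (nat_lit 0x41) (nat_lit 0) (p (nat_lit 0x8078907089a) (nat_lit 0) (p (nat_lit 0x7870886861a) (nat_lit 0) (p (nat_lit 0x800070806078a) (nat_lit 0) (p (nat_lit 0x800068785850a) (nat_lit 0) (p (nat_lit 0x587050682)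 (nat_lit 0) (p (nat_lit 0x506848402) (nat_lit 0) (p (nat_lit 0x160014) (nat_lit 0) (p (nat_lit 0x16000c) (nat_lit 0) (p (nat_lit 0x50612) (nat_lit 0) (p (nat_lit 0x40592) (nat_lit 0) (p (nat_lit 0x40492) (nat_lit 0) (p (nat_lit 0x30412) (nat_lit 0) (p (nat_lit 0x30212) (nat_lit 0) (p (nat_lit 0x20192) (nat_lit 0) (p (nat_lit 0x20092) (nat_lit 0) (p (nat_lit 0x10012) (nat_lit 0) pn)))))))))))))))))))))))))))))))) :=
  Cl.node (nat_lit 0xc0b8d0b0c9a) (nat_lit 1) (by decide +kernel) (ClAll.succ ClAll.zero n102)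

def n134 : Cl (O (nat_lit 1)) (R (nat_lit 104465))
    (p (nat_lit 0x2a8258b0c0a0b8a) (nat_lit 0) (p (nat_lit 0x2a8258a8b89890a) (nat_lit 0) (p (nat_lit 0xb0014) (nat_lit 0) (p (nat_lit 0x1fc004) (nat_lit 0) (p (nat_lit 0xb000c) (nat_lit 1) (p (nat_lit 0x41) (nat_lit 0) (p (nat_lit 0x101) (nat_lit 1) (p (nat_lit 0x380c2) (nat_lit 0) (p (nat_lit 0x3cc2a) (nat_lit 2) (p (nat_lit 0x109) (nat_lit 1) (p (nat_lit 0xc9) (nat_lit 1) (p (nat_lit 0xc1) (nat_lit 0) (p (nat_lit 0x119) (nat_lit 1) (p (nat_lit 0xd1) (nat_lit 0) (p (nat_lit 0x89) (nat_lit 0) (p (nat_lit 0x41) (nat_lit 0) (p (nat_lit 0x8078907089a) (nat_lit 0) (p (nat_lit 0x7870886861a) (nat_lit 0) (p (nat_lit 0x800070806078a) (nat_lit 0) (p (nat_lit 0x800068785850a) (nat_lit 0) (p (nat_lit 0x587050682) (nat_lit 0) (p (nat_lit 0x506848402) (nat_lit 0) (p (nat_lit 0x160014) (nat_lit 0) (p (nat_lit 0x16000c) (nat_lit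 0) (p (nat_lit 0x50612) (nat_lit 0) (p (nat_lit 0x40592) (nat_lit 0) (p (nat_lit 0x40492) (nat_lit 0) (p (nat_lit 0x30412) (nat_lit 0) (p (nat_lit 0x30212) (nat_lit 0) (p (nat_lit 0x20192) (nat_lit 0) (p (nat_lit 0x20092) (nat_lit 0) (p (nat_lit 0x10012) (nat_lit 0) pn)))))))))))))))))))))))))))))))) :=
  Cl.node (nat_lit 0xb8b0c8a8a1a) (nat_lit 1) (by decide +kernel) (ClAll.succ ClAll.zero n103)

def n135 : Cl (O (nat_lit 1)) (R (nat_lit 104465))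
    (p (nat_lit 0x100004) (nat_lit 0) (p (nat_lit 0x200004) (nat_lit 0) (p (nat_lit 0x380c2) (nat_lit 0) (p (nat_lit 0x4c42a) (nat_lit 10) (p (nat_lit 0x89) (nat_lit 0) (p (nat_lit 0xb0014) (nat_lit 0) (p (nat_lit 0x380c2) (nat_lit 0) (p (nat_lit 0x3cc2a) (nat_lit 2) (p (nat_lit 0x119) (nat_lit 1) (p (nat_lit 0xc1) (nat_lit 0) (p (nat_lit 0x81) (nat_lit 1) (p (nat_lit 0x101) (nat_lit 1) (p (nat_lit 0x111) (nat_lit 0) (p (nat_lit 0xd1) (nat_lit 1) (p (nat_lit 0x89) (nat_lit 0) (p (nat_lit 0x41) (nat_lit 0) (p (nat_lit 0x8078907089a) (nat_lit 0) (p (nat_lit 0x7870886861a) (nat_lit 0) (p (nat_lit 0x800070806078a) (nat_lit 0) (p (nat_lit 0x800068785850a) (nat_lit 0) (p (nat_lit 0x587050682) (nat_lit 0) (p (nat_lit 0x506848402) (nat_lit 0) (p (nat_lit 0x160014) (nat_lit 0) (p (nat_lit 0x16000c) (nat_lit 0) (p (nat_lit 0x50612) (nat_lit 0) (p (nat_lit 0x40592) (nat_lit 0)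 (p (nat_lit 0x40492) (nat_lit 0) (p (nat_lit 0x30412) (nat_lit 0) (p (nat_lit 0x30212) (nat_lit 0) (p (nat_lit 0x20192) (nat_lit 0) (p (nat_lit 0x20092) (nat_lit 0) (p (nat_lit 0x10012) (nat_lit 0) pn)))))))))))))))))))))))))))))))) :=
  Cl.node (nat_lit 0x41) (nat_lit 2) (by decide +kernel) (ClAll.succ (ClAll.succ ClAll.zero s479) n104)

def n136 : Cl (O (nat_lit 1)) (R (nat_lit 104465))
    (p (nat_lit 0x100004) (nat_lit 0) (p (nat_lit 0x200004) (nat_lit 0) (p (nat_lit 0x380c2) (nat_lit 1) (p (nat_lit 0x4c42a) (nat_lit 10) (p (nat_lit 0x89) (nat_lit 0) (p (nat_lit 0xb0014) (nat_lit 0) (p (nat_lit 0x380c2) (nat_lit 0) (p (nat_lit 0x3cc2a) (nat_lit 2) (p (nat_lit 0x119) (nat_lit 1) (p (nat_lit 0xc1) (nat_lit 0) (p (nat_lit 0x81) (nat_lit 1) (p (nat_lit 0x101) (nat_lit 1) (p (nat_lit 0x111) (nat_lit 0) (p (nat_lit 0xd1) (nat_lit 1) (p (nat_lit 0x89) (nat_lit 0) (p (nat_lit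 0x41) (nat_lit 0) (p (nat_lit 0x8078907089a) (nat_lit 0) (p (nat_lit 0x7870886861a) (nat_lit 0) (p (nat_lit 0x800070806078a) (nat_lit 0) (p (nat_lit 0x800068785850a) (nat_lit 0) (p (nat_lit 0x587050682) (nat_lit 0) (p (nat_lit 0x506848402) (nat_lit 0) (p (nat_lit 0x160014) (nat_lit 0) (p (nat_lit 0x16000c) (nat_lit 0) (p (nat_lit 0x50612) (nat_lit 0) (p (nat_lit 0x40592) (nat_lit 0) (p (nat_lit 0x40492) (nat_lit 0) (p (nat_lit 0x30412) (nat_lit 0) (p (nat_lit 0x30212) (nat_lit 0) (p (nat_lit 0x20192) (nat_lit 0) (p (nat_lit 0x20092) (nat_lit 0) (p (nat_lit 0x10012) (nat_lit 0) pn)))))))))))))))))))))))))))))))) :=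
  Cl.node (nat_lit 0xc1) (nat_lit 2) (by decide +kernel) (ClAll.succ (ClAll.succ ClAll.zero s487) s488)

def n137 : Cl (O (nat_lit 1)) (R (nat_lit 104465))
    (p (nat_lit 0x41) (nat_lit 1) (p (nat_lit 0x100004) (nat_lit 0) (p (nat_lit 0x1fc004) (nat_lit 0) (p (nat_lit 0xb000c) (nat_lit 1) (p (nat_lit 0x89) (nat_lit 1) (p (nat_lit 0xb0014) (nat_lit 0) (p (nat_lit 0x380c2) (nat_lit 0) (p (nat_lit 0x3cc2a) (nat_lit 2) (p (nat_lit 0x119) (nat_lit 1) (p (nat_lit 0xc1) (nat_lit 0) (p (nat_lit 0x81) (nat_lit 1) (p (nat_lit 0x101) (nat_lit 1) (p (nat_lit 0x111) (nat_lit 0) (p (nat_lit 0xd1) (nat_lit 1) (p (nat_lit 0x89) (nat_lit 0) (p (nat_lit 0x41) (nat_lit 0) (p (nat_lit 0x8078907089a) (nat_lit 0) (p (nat_lit 0x7870886861a) (nat_lit 0) (p (nat_lit 0x800070806078a) (nat_lit 0) (p (nat_lit 0x800068785850a) (nat_lit 0) (p (nat_lit 0x587050682) (nat_lit 0) (p (nat_lit 0x506848402)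 (nat_lit 0) (p (nat_lit 0x160014) (nat_lit 0) (p (nat_lit 0x16000c) (nat_lit 0) (p (nat_lit 0x50612) (nat_lit 0) (p (nat_lit 0x40592) (nat_lit 0) (p (nat_lit 0x40492) (nat_lit 0) (p (nat_lit 0x30412) (nat_lit 0) (p (nat_lit 0x30212) (nat_lit 0) (p (nat_lit 0x20192) (nat_lit 0) (p (nat_lit 0x20092) (nat_lit 0) (p (nat_lit 0x10012) (nat_lit 0) pn)))))))))))))))))))))))))))))))) :=
  Cl.node (nat_lit 0x80004) (nat_lit 2) (by decide +kernel) (ClAll.succ (ClAll.succ ClAll.zero s498) s499)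

def n138 : Cl (O (nat_lit 1)) (R (nat_lit 104465))
    (p (nat_lit 0x3cc2a) (nat_lit 1) (p (nat_lit 0xc9) (nat_lit 0) (p (nat_lit 0xc1) (nat_lit 0) (p (nat_lit 0xb000c) (nat_lit 0) (p (nat_lit 0x100004) (nat_lit 0) (p (nat_lit 0x200004) (nat_lit 0) (p (nat_lit 0x380c2) (nat_lit 0) (p (nat_lit 0x444aa) (nat_lit 7) (p (nat_lit 0xd1) (nat_lit 1) (p (nat_lit 0x111) (nat_lit 1) (p (nat_lit 0x109) (nat_lit 0) (p (nat_lit 0x101) (nat_lit 0) (p (nat_lit 0x119) (nat_lit 0) (p (nat_lit 0xc9) (nat_lit 0) (p (nat_lit 0x89) (nat_lit 1) (p (nat_lit 0x41) (nat_lit 0) (p (nat_lit 0x8078907089a) (nat_lit 0) (p (nat_lit 0x7870886861a) (nat_lit 0) (p (nat_lit 0x800070806078a) (nat_lit 0) (p (nat_lit 0x800068785850a) (nat_lit 0) (p (nat_lit 0x587050682) (nat_lit 0) (p (nat_lit 0x506848402) (nat_lit 0) (p (nat_lit 0x160014) (nat_lit 0) (p (nat_lit 0x16000c) (nat_lit 0) (p (nat_lit 0x50612)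 (nat_lit 0) (p (nat_lit 0x40592) (nat_lit 0) (p (nat_lit 0x40492) (nat_lit 0) (p (nat_lit 0x30412) (nat_lit 0) (p (nat_lit 0x30212) (nat_lit 0) (p (nat_lit 0x20192) (nat_lit 0) (p (nat_lit 0x20092) (nat_lit 0) (p (nat_lit 0x10012) (nat_lit 0) pn)))))))))))))))))))))))))))))))) :=
  Cl.node (nat_lit 0x380c2) (nat_lit 1) (by decide +kernel) (ClAll.succ ClAll.zero n105)

def n139 : Cl (O (nat_lit 1)) (R (nat_lit 104465))
    (p (nat_lit 0x119) (nat_lit 0) (p (nat_lit 0xc9) (nat_lit 1) (p (nat_lit 0xc1) (nat_lit 0) (p (nat_lit 0xb000c) (nat_lit 0) (p (nat_lit 0x100004) (nat_lit 0) (p (nat_lit 0x200004) (nat_lit 0) (p (nat_lit 0x380c2) (nat_lit 0) (p (nat_lit 0x444aa) (nat_lit 7) (p (nat_lit 0xd1) (nat_lit 1) (p (nat_lit 0x111) (nat_lit 1) (p (nat_lit 0x109) (nat_lit 0) (p (nat_lit 0x101) (nat_lit 0) (p (nat_lit 0x119) (nat_lit 0) (p (nat_lit 0xc9) (nat_lit 0) (p (nat_lit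 0x89) (nat_lit 1) (p (nat_lit 0x41) (nat_lit 0) (p (nat_lit 0x8078907089a) (nat_lit 0) (p (nat_lit 0x7870886861a) (nat_lit 0) (p (nat_lit 0x800070806078a) (nat_lit 0) (p (nat_lit 0x800068785850a) (nat_lit 0) (p (nat_lit 0x587050682) (nat_lit 0) (p (nat_lit 0x506848402) (nat_lit 0) (p (nat_lit 0x160014) (nat_lit 0) (p (nat_lit 0x16000c) (nat_lit 0) (p (nat_lit 0x50612) (nat_lit 0) (p (nat_lit 0x40592) (nat_lit 0) (p (nat_lit 0x40492) (nat_lit 0) (p (nat_lit 0x30412) (nat_lit 0) (p (nat_lit 0x30212) (nat_lit 0) (p (nat_lit 0x20192) (nat_lit 0) (p (nat_lit 0x20092) (nat_lit 0) (p (nat_lit 0x10012) (nat_lit 0) pn)))))))))))))))))))))))))))))))) :=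
  Cl.node (nat_lit 0x5800c) (nat_lit 2) (by decide +kernel) (ClAll.succ (ClAll.succ ClAll.zero s553) s554)

def n140 : Cl (O (nat_lit 1)) (R (nat_lit 104465))
    (p (nat_lit 0x119) (nat_lit 1) (p (nat_lit 0xc9) (nat_lit 1) (p (nat_lit 0xc1) (nat_lit 0) (p (nat_lit 0xb000c) (nat_lit 0) (p (nat_lit 0x100004) (nat_lit 0) (p (nat_lit 0x200004) (nat_lit 0) (p (nat_lit 0x380c2) (nat_lit 0) (p (nat_lit 0x444aa) (nat_lit 7) (p (nat_lit 0xd1) (nat_lit 1) (p (nat_lit 0x111) (nat_lit 1) (p (nat_lit 0x109) (nat_lit 0) (p (nat_lit 0x101) (nat_lit 0) (p (nat_lit 0x119) (nat_lit 0) (p (nat_lit 0xc9) (nat_lit 0) (p (nat_lit 0x89) (nat_lit 1) (p (nat_lit 0x41) (nat_lit 0) (p (nat_lit 0x8078907089a) (nat_lit 0) (p (nat_lit 0x7870886861a) (nat_lit 0) (p (nat_lit 0x800070806078a) (nat_lit 0) (p (nat_lit 0x800068785850a) (nat_lit 0) (p (nat_lit 0x587050682) (nat_lit 0) (p (nat_lit 0x506848402)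 (nat_lit 0) (p (nat_lit 0x160014) (nat_lit 0) (p (nat_lit 0x16000c) (nat_lit 0) (p (nat_lit 0x50612) (nat_lit 0) (p (nat_lit 0x40592) (nat_lit 0) (p (nat_lit 0x40492) (nat_lit 0) (p (nat_lit 0x30412) (nat_lit 0) (p (nat_lit 0x30212) (nat_lit 0) (p (nat_lit 0x20192) (nat_lit 0) (p (nat_lit 0x20092) (nat_lit 0) (p (nat_lit 0x10012) (nat_lit 0) pn)))))))))))))))))))))))))))))))) :=
  Cl.node (nat_lit 0x5800c) (nat_lit 2) (by decide +kernel) (ClAll.succ (ClAll.succ ClAll.zero n106) s557)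

def n141 : Cl (O (nat_lit 1)) (R (nat_lit 104465))
    (p (nat_lit 0x2680d0b0c0a0b8a) (nat_lit 0) (p (nat_lit 0x2680d0a8b89890a) (nat_lit 0) (p (nat_lit 0xb0014) (nat_lit 0) (p (nat_lit 0xb000c) (nat_lit 1) (p (nat_lit 0x100004) (nat_lit 0) (p (nat_lit 0x200004) (nat_lit 0) (p (nat_lit 0x380c2) (nat_lit 0) (p (nat_lit 0x444aa) (nat_lit 7) (p (nat_lit 0xd1) (nat_lit 1) (p (nat_lit 0x111) (nat_lit 1) (p (nat_lit 0x109) (nat_lit 0) (p (nat_lit 0x101) (nat_lit 0) (p (nat_lit 0x119) (nat_lit 0) (p (nat_lit 0xc9) (nat_lit 0) (p (nat_lit 0x89) (nat_lit 1) (p (nat_lit 0x41) (nat_lit 0) (p (nat_lit 0x8078907089a) (nat_lit 0) (p (nat_lit 0x7870886861a) (nat_lit 0) (p (nat_lit 0x800070806078a) (nat_lit 0) (p (nat_lit 0x800068785850a) (nat_lit 0) (p (nat_lit 0x587050682) (nat_lit 0) (p (nat_lit 0x506848402) (nat_lit 0) (p (nat_lit 0x160014) (nat_lit 0) (p (nat_lit 0x16000c) (nat_lit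 0) (p (nat_lit 0x50612) (nat_lit 0) (p (nat_lit 0x40592) (nat_lit 0) (p (nat_lit 0x40492) (nat_lit 0) (p (nat_lit 0x30412) (nat_lit 0) (p (nat_lit 0x30212) (nat_lit 0) (p (nat_lit 0x20192) (nat_lit 0) (p (nat_lit 0x20092) (nat_lit 0) (p (nat_lit 0x10012) (nat_lit 0) pn)))))))))))))))))))))))))))))))) :=
  Cl.node (nat_lit 0xc1) (nat_lit 2) (by decide +kernel) (ClAll.succ (ClAll.succ ClAll.zero n107) s561)

def n142 : Cl (O (nat_lit 1)) (R (nat_lit 104465))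
    (p (nat_lit 0x8400c) (nat_lit 0) (p (nat_lit 0x84014) (nat_lit 1) (p (nat_lit 0x108014) (nat_lit 0) (p (nat_lit 0x10800c) (nat_lit 0) (p (nat_lit 0x100004) (nat_lit 1) (p (nat_lit 0x200004) (nat_lit 0) (p (nat_lit 0x380c2) (nat_lit 0) (p (nat_lit 0x444aa) (nat_lit 7) (p (nat_lit 0xd1) (nat_lit 1) (p (nat_lit 0x111) (nat_lit 1) (p (nat_lit 0x109) (nat_lit 0) (p (nat_lit 0x101) (nat_lit 0) (p (nat_lit 0x119) (nat_lit 0) (p (nat_lit 0xc9) (nat_lit 0) (p (nat_lit 0x89) (nat_lit 1) (p (nat_lit 0x41) (nat_lit 0) (p (nat_lit 0x8078907089a) (nat_lit 0) (p (nat_lit 0x7870886861a) (nat_lit 0) (p (nat_lit 0x800070806078a) (nat_lit 0) (p (nat_lit 0x800068785850a) (nat_lit 0) (p (nat_lit 0x587050682) (nat_lit 0) (p (nat_lit 0x506848402) (nat_lit 0) (p (nat_lit 0x160014) (nat_lit 0) (p (nat_lit 0x16000c) (nat_lit 0) (p (nat_lit 0x50612) (nat_lit 0) (p (nat_lit 0x40592) (nat_lit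 0) (p (nat_lit 0x40492) (nat_lit 0) (p (nat_lit 0x30412) (nat_lit 0) (p (nat_lit 0x30212) (nat_lit 0) (p (nat_lit 0x20192) (nat_lit 0) (p (nat_lit 0x20092) (nat_lit 0) (p (nat_lit 0x10012) (nat_lit 0) pn)))))))))))))))))))))))))))))))) :=
  Cl.node (nat_lit 0xc8014) (nat_lit 2) (by decide +kernel) (ClAll.succ (ClAll.succ ClAll.zero n108) n109)

def n143 : Cl (O (nat_lit 1)) (R (nat_lit 104465))
    (p (nat_lit 0x119) (nat_lit 1) (p (nat_lit 0xc9) (nat_lit 1) (p (nat_lit 0xc1) (nat_lit 0) (p (nat_lit 0xb000c) (nat_lit 0) (p (nat_lit 0x100004) (nat_lit 0) (p (nat_lit 0x200004) (nat_lit 0) (p (nat_lit 0x380c2) (nat_lit 1) (p (nat_lit 0x444aa) (nat_lit 7) (p (nat_lit 0xd1) (nat_lit 1) (p (nat_lit 0x111) (nat_lit 1) (p (nat_lit 0x109) (nat_lit 0) (p (nat_lit 0x101) (nat_lit 0) (p (nat_lit 0x119) (nat_lit 0) (p (nat_lit 0xc9) (nat_lit 0) (p (nat_lit 0x89) (nat_lit 1) (p (nat_lit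 0x41) (nat_lit 0) (p (nat_lit 0x8078907089a) (nat_lit 0) (p (nat_lit 0x7870886861a) (nat_lit 0) (p (nat_lit 0x800070806078a) (nat_lit 0) (p (nat_lit 0x800068785850a) (nat_lit 0) (p (nat_lit 0x587050682) (nat_lit 0) (p (nat_lit 0x506848402) (nat_lit 0) (p (nat_lit 0x160014) (nat_lit 0) (p (nat_lit 0x16000c) (nat_lit 0) (p (nat_lit 0x50612) (nat_lit 0) (p (nat_lit 0x40592) (nat_lit 0) (p (nat_lit 0x40492) (nat_lit 0) (p (nat_lit 0x30412) (nat_lit 0) (p (nat_lit 0x30212) (nat_lit 0) (p (nat_lit 0x20192) (nat_lit 0) (p (nat_lit 0x20092) (nat_lit 0) (p (nat_lit 0x10012) (nat_lit 0) pn)))))))))))))))))))))))))))))))) :=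
  Cl.node (nat_lit 0x5800c) (nat_lit 2) (by decide +kernel) (ClAll.succ (ClAll.succ ClAll.zero s637) s638)

def n144 : Cl (O (nat_lit 1)) (R (nat_lit 104465))
    (p (nat_lit 0x2680d0b0c0a0b8a) (nat_lit 0) (p (nat_lit 0x2680d0a8b89890a) (nat_lit 0) (p (nat_lit 0xb0014) (nat_lit 0) (p (nat_lit 0xb000c) (nat_lit 1) (p (nat_lit 0x100004) (nat_lit 0) (p (nat_lit 0x200004) (nat_lit 0) (p (nat_lit 0x380c2) (nat_lit 1) (p (nat_lit 0x444aa) (nat_lit 7) (p (nat_lit 0xd1) (nat_lit 1) (p (nat_lit 0x111) (nat_lit 1) (p (nat_lit 0x109) (nat_lit 0) (p (nat_lit 0x101) (nat_lit 0) (p (nat_lit 0x119) (nat_lit 0) (p (nat_lit 0xc9) (nat_lit 0) (p (nat_lit 0x89) (nat_lit 1) (p (nat_lit 0x41) (nat_lit 0) (p (nat_lit 0x8078907089a) (nat_lit 0) (p (nat_lit 0x7870886861a) (nat_lit 0) (p (nat_lit 0x800070806078a) (nat_lit 0) (p (nat_lit 0x800068785850a) (nat_lit 0) (p (nat_lit 0x587050682) (nat_lit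 0) (p (nat_lit 0x506848402) (nat_lit 0) (p (nat_lit 0x160014) (nat_lit 0) (p (nat_lit 0x16000c) (nat_lit 0) (p (nat_lit 0x50612) (nat_lit 0) (p (nat_lit 0x40592) (nat_lit 0) (p (nat_lit 0x40492) (nat_lit 0) (p (nat_lit 0x30412) (nat_lit 0) (p (nat_lit 0x30212) (nat_lit 0) (p (nat_lit 0x20192) (nat_lit 0) (p (nat_lit 0x20092) (nat_lit 0) (p (nat_lit 0x10012) (nat_lit 0) pn)))))))))))))))))))))))))))))))) :=
  Cl.node (nat_lit 0xb8b0c8a8a1a) (nat_lit 1) (by decide +kernel) (ClAll.succ ClAll.zero n110)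

def n145 : Cl (O (nat_lit 1)) (R (nat_lit 104465))
    (p (nat_lit 0xe80d8b0c0a0b8a) (nat_lit 0) (p (nat_lit 0xe80d8a8b89890a) (nat_lit 0) (p (nat_lit 0x10800c) (nat_lit 0) (p (nat_lit 0x58014) (nat_lit 1) (p (nat_lit 0xb0014) (nat_lit 0) (p (nat_lit 0x380c2) (nat_lit 0) (p (nat_lit 0x44c2a) (nat_lit 1) (p (nat_lit 0x41) (nat_lit 0) (p (nat_lit 0x200004) (nat_lit 0) (p (nat_lit 0xd1) (nat_lit 0) (p (nat_lit 0x109) (nat_lit 1) (p (nat_lit 0x101) (nat_lit 0) (p (nat_lit 0x119) (nat_lit 0) (p (nat_lit 0xc9) (nat_lit 0) (p (nat_lit 0x89) (nat_lit 1) (p (nat_lit 0x41) (nat_lit 0) (p (nat_lit 0x8078907089a) (nat_lit 0) (p (nat_lit 0x7870886861a) (nat_lit 0) (p (nat_lit 0x800070806078a) (nat_lit 0) (p (nat_lit 0x800068785850a) (nat_lit 0) (p (nat_lit 0x587050682) (nat_lit 0) (p (nat_lit 0x506848402) (nat_lit 0) (p (nat_lit 0x160014) (nat_lit 0) (p (nat_lit 0x16000c) (nat_lit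 0) (p (nat_lit 0x50612) (nat_lit 0) (p (nat_lit 0x40592) (nat_lit 0) (p (nat_lit 0x40492) (nat_lit 0) (p (nat_lit 0x30412) (nat_lit 0) (p (nat_lit 0x30212) (nat_lit 0) (p (nat_lit 0x20192) (nat_lit 0) (p (nat_lit 0x20092) (nat_lit 0) (p (nat_lit 0x10012) (nat_lit 0) pn)))))))))))))))))))))))))))))))) :=
  Cl.node (nat_lit 0xb8b0c8a8a1a) (nat_lit 1) (by decide +kernel) (ClAll.succ ClAll.zero n111)

def n146 : Cl (O (nat_lit 1)) (R (nat_lit 104465))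
    (p (nat_lit 0xb8b0c8a8a1a) (nat_lit 0) (p (nat_lit 0x2a8258b0c0a0b8a) (nat_lit 0) (p (nat_lit 0x2a8258a8b89890a) (nat_lit 0) (p (nat_lit 0xb000c) (nat_lit 0) (p (nat_lit 0xb0014) (nat_lit 1) (p (nat_lit 0x380c2) (nat_lit 0) (p (nat_lit 0x44c2a) (nat_lit 1) (p (nat_lit 0x41) (nat_lit 0) (p (nat_lit 0x200004) (nat_lit 0) (p (nat_lit 0xd1) (nat_lit 0) (p (nat_lit 0x109) (nat_lit 1) (p (nat_lit 0x101) (nat_lit 0) (p (nat_lit 0x119) (nat_lit 0) (p (nat_lit 0xc9) (nat_lit 0) (p (nat_lit 0x89) (nat_lit 1) (p (nat_lit 0x41) (nat_lit 0) (p (nat_lit 0x8078907089a) (nat_lit 0) (p (nat_lit 0x7870886861a) (nat_lit 0) (p (nat_lit 0x800070806078a) (nat_lit 0) (p (nat_lit 0x800068785850a) (nat_lit 0) (p (nat_lit 0x587050682) (nat_lit 0) (p (nat_lit 0x506848402) (nat_lit 0) (p (nat_lit 0x160014) (nat_lit 0) (p (nat_lit 0x16000c) (nat_lit 0) (p (nat_lit 0x50612) (nat_lit 0) (p (nat_lit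 0x40592) (nat_lit 0) (p (nat_lit 0x40492) (nat_lit 0) (p (nat_lit 0x30412) (nat_lit 0) (p (nat_lit 0x30212) (nat_lit 0) (p (nat_lit 0x20192) (nat_lit 0) (p (nat_lit 0x20092) (nat_lit 0) (p (nat_lit 0x10012) (nat_lit 0) pn)))))))))))))))))))))))))))))))) :=
  Cl.node (nat_lit 0xc0b8d0b0c9a) (nat_lit 1) (by decide +kernel) (ClAll.succ ClAll.zero n112)

def n147 : Cl (O (nat_lit 1)) (R (nat_lit 104465))
    (p (nat_lit 0xc9) (nat_lit 0) (p (nat_lit 0xc1) (nat_lit 0) (p (nat_lit 0x8400c) (nat_lit 0) (p (nat_lit 0x108014) (nat_lit 0) (p (nat_lit 0x10800c) (nat_lit 0) (p (nat_lit 0x100004) (nat_lit 1) (p (nat_lit 0x200004) (nat_lit 0) (p (nat_lit 0x380c2) (nat_lit 0) (p (nat_lit 0x444aa) (nat_lit 7) (p (nat_lit 0xd1) (nat_lit 1) (p (nat_lit 0x109) (nat_lit 1) (p (nat_lit 0x101) (nat_lit 0) (p (nat_lit 0x119) (nat_lit 0) (p (nat_lit 0xc9) (nat_lit 0) (p (nat_lit 0x89) (nat_lit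 1) (p (nat_lit 0x41) (nat_lit 0) (p (nat_lit 0x8078907089a) (nat_lit 0) (p (nat_lit 0x7870886861a) (nat_lit 0) (p (nat_lit 0x800070806078a) (nat_lit 0) (p (nat_lit 0x800068785850a) (nat_lit 0) (p (nat_lit 0x587050682) (nat_lit 0) (p (nat_lit 0x506848402) (nat_lit 0) (p (nat_lit 0x160014) (nat_lit 0) (p (nat_lit 0x16000c) (nat_lit 0) (p (nat_lit 0x50612) (nat_lit 0) (p (nat_lit 0x40592) (nat_lit 0) (p (nat_lit 0x40492) (nat_lit 0) (p (nat_lit 0x30412) (nat_lit 0) (p (nat_lit 0x30212) (nat_lit 0) (p (nat_lit 0x20192) (nat_lit 0) (p (nat_lit 0x20092) (nat_lit 0) (p (nat_lit 0x10012) (nat_lit 0) pn)))))))))))))))))))))))))))))))) :=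
  Cl.node (nat_lit 0x84014) (nat_lit 2) (by decide +kernel) (ClAll.succ (ClAll.succ ClAll.zero n113) s750)

def n148 : Cl (O (nat_lit 1)) (R (nat_lit 104465))
    (p (nat_lit 0x380c2) (nat_lit 0) (p (nat_lit 0x3cc2a) (nat_lit 2) (p (nat_lit 0xc9) (nat_lit 0) (p (nat_lit 0xc1) (nat_lit 0) (p (nat_lit 0x100004) (nat_lit 0) (p (nat_lit 0x200004) (nat_lit 0) (p (nat_lit 0xb0014) (nat_lit 0) (p (nat_lit 0x380c2) (nat_lit 1) (p (nat_lit 0x444aa) (nat_lit 7) (p (nat_lit 0xd1) (nat_lit 1) (p (nat_lit 0x109) (nat_lit 1) (p (nat_lit 0x101) (nat_lit 0) (p (nat_lit 0x119) (nat_lit 0) (p (nat_lit 0xc9) (nat_lit 0) (p (nat_lit 0x89) (nat_lit 1) (p (nat_lit 0x41) (nat_lit 0) (p (nat_lit 0x8078907089a) (nat_lit 0) (p (nat_lit 0x7870886861a) (nat_lit 0) (p (nat_lit 0x800070806078a) (nat_lit 0) (p (nat_lit 0x800068785850a) (nat_lit 0) (p (nat_lit 0x587050682) (nat_lit 0) (p (nat_lit 0x506848402)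 (nat_lit 0) (p (nat_lit 0x160014) (nat_lit 0) (p (nat_lit 0x16000c) (nat_lit 0) (p (nat_lit 0x50612) (nat_lit 0) (p (nat_lit 0x40592) (nat_lit 0) (p (nat_lit 0x40492) (nat_lit 0) (p (nat_lit 0x30412) (nat_lit 0) (p (nat_lit 0x30212) (nat_lit 0) (p (nat_lit 0x20192) (nat_lit 0) (p (nat_lit 0x20092) (nat_lit 0) (p (nat_lit 0x10012) (nat_lit 0) pn)))))))))))))))))))))))))))))))) :=
  Cl.node (nat_lit 0x111) (nat_lit 2) (by decide +kernel) (ClAll.succ (ClAll.succ ClAll.zero s760) s761)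

def n149 : Cl (O (nat_lit 1)) (R (nat_lit 104465))
    (p (nat_lit 0xb8b0c8a8a1a) (nat_lit 0) (p (nat_lit 0x2680d0b0c0a0b8a) (nat_lit 0) (p (nat_lit 0x2680d0a8b89890a) (nat_lit 0) (p (nat_lit 0x100004) (nat_lit 0) (p (nat_lit 0xb000c) (nat_lit 0) (p (nat_lit 0x1fc004) (nat_lit 0) (p (nat_lit 0xb0014) (nat_lit 1) (p (nat_lit 0x380c2) (nat_lit 1) (p (nat_lit 0x444aa) (nat_lit 7) (p (nat_lit 0xd1) (nat_lit 1) (p (nat_lit 0x109) (nat_lit 1) (p (nat_lit 0x101) (nat_lit 0) (p (nat_lit 0x119) (nat_lit 0) (p (nat_lit 0xc9) (nat_lit 0) (p (nat_lit 0x89) (nat_lit 1) (p (nat_lit 0x41) (nat_lit 0) (p (nat_lit 0x8078907089a) (nat_lit 0) (p (nat_lit 0x7870886861a) (nat_lit 0) (p (nat_lit 0x800070806078a) (nat_lit 0) (p (nat_lit 0x800068785850a) (nat_lit 0) (p (nat_lit 0x587050682) (nat_lit 0) (p (nat_lit 0x506848402) (nat_lit 0) (p (nat_lit 0x160014) (nat_lit 0) (p (nat_lit 0x16000c)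 (nat_lit 0) (p (nat_lit 0x50612) (nat_lit 0) (p (nat_lit 0x40592) (nat_lit 0) (p (nat_lit 0x40492) (nat_lit 0) (p (nat_lit 0x30412) (nat_lit 0) (p (nat_lit 0x30212) (nat_lit 0) (p (nat_lit 0x20192) (nat_lit 0) (p (nat_lit 0x20092) (nat_lit 0) (p (nat_lit 0x10012) (nat_lit 0) pn)))))))))))))))))))))))))))))))) :=
  Cl.node (nat_lit 0xc0b8d0b0c9a) (nat_lit 1) (by decide +kernel) (ClAll.succ ClAll.zero n114)

def n150 : Cl (O (nat_lit 1)) (R (nat_lit 104465))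
    (p (nat_lit 0xb8b0c8a8a1a) (nat_lit 0) (p (nat_lit 0x2a8258b0c0a0b8a) (nat_lit 0) (p (nat_lit 0x2a8258a8b89890a) (nat_lit 0) (p (nat_lit 0xb000c) (nat_lit 0) (p (nat_lit 0xb0014) (nat_lit 1) (p (nat_lit 0x380c2) (nat_lit 0) (p (nat_lit 0x44c2a) (nat_lit 1) (p (nat_lit 0x109) (nat_lit 1) (p (nat_lit 0x200004) (nat_lit 0) (p (nat_lit 0xd1) (nat_lit 0) (p (nat_lit 0xc1) (nat_lit 0) (p (nat_lit 0x101) (nat_lit 1) (p (nat_lit 0x119) (nat_lit 0) (p (nat_lit 0xc9) (nat_lit 0) (p (nat_lit 0x89) (nat_lit 1) (p (nat_lit 0x41) (nat_lit 0) (p (nat_lit 0x8078907089a) (nat_lit 0) (p (nat_lit 0x7870886861a) (nat_lit 0) (p (nat_lit 0x800070806078a) (nat_lit 0) (p (nat_lit 0x800068785850a) (nat_lit 0) (p (nat_lit 0x587050682) (nat_lit 0) (p (nat_lit 0x506848402) (nat_lit 0) (p (nat_lit 0x160014) (nat_lit 0) (p (nat_lit 0x16000c) (nat_lit 0) (p (nat_lit 0x50612) (nat_lit 0) (p (nat_lit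 0x40592) (nat_lit 0) (p (nat_lit 0x40492) (nat_lit 0) (p (nat_lit 0x30412) (nat_lit 0) (p (nat_lit 0x30212) (nat_lit 0) (p (nat_lit 0x20192) (nat_lit 0) (p (nat_lit 0x20092) (nat_lit 0) (p (nat_lit 0x10012) (nat_lit 0) pn)))))))))))))))))))))))))))))))) :=
  Cl.node (nat_lit 0xc0b8d0b0c9a) (nat_lit 1) (by decide +kernel) (ClAll.succ ClAll.zero n115)

def n151 : Cl (O (nat_lit 1)) (R (nat_lit 104465))
    (p (nat_lit 0xb000c) (nat_lit 0) (p (nat_lit 0x380c2) (nat_lit 0) (p (nat_lit 0x3cc2a) (nat_lit 2) (p (nat_lit 0x109) (nat_lit 0) (p (nat_lit 0x101) (nat_lit 0) (p (nat_lit 0x100004) (nat_lit 0) (p (nat_lit 0x200004) (nat_lit 0) (p (nat_lit 0x380c2) (nat_lit 0) (p (nat_lit 0x444aa) (nat_lit 7) (p (nat_lit 0x111) (nat_lit 1) (p (nat_lit 0xd1) (nat_lit 1) (p (nat_lit 0xc1) (nat_lit 0) (p (nat_lit 0x119) (nat_lit 1) (p (nat_lit 0xc9) (nat_lit 0) (p (nat_lit 0x89) (nat_lit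 1) (p (nat_lit 0x41) (nat_lit 0) (p (nat_lit 0x8078907089a) (nat_lit 0) (p (nat_lit 0x7870886861a) (nat_lit 0) (p (nat_lit 0x800070806078a) (nat_lit 0) (p (nat_lit 0x800068785850a) (nat_lit 0) (p (nat_lit 0x587050682) (nat_lit 0) (p (nat_lit 0x506848402) (nat_lit 0) (p (nat_lit 0x160014) (nat_lit 0) (p (nat_lit 0x16000c) (nat_lit 0) (p (nat_lit 0x50612) (nat_lit 0) (p (nat_lit 0x40592) (nat_lit 0) (p (nat_lit 0x40492) (nat_lit 0) (p (nat_lit 0x30412) (nat_lit 0) (p (nat_lit 0x30212) (nat_lit 0) (p (nat_lit 0x20192) (nat_lit 0) (p (nat_lit 0x20092) (nat_lit 0) (p (nat_lit 0x10012) (nat_lit 0) pn)))))))))))))))))))))))))))))))) :=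
  Cl.node (nat_lit 0x119) (nat_lit 2) (by decide +kernel) (ClAll.succ (ClAll.succ ClAll.zero s898) n116)

def n152 : Cl (O (nat_lit 1)) (R (nat_lit 104465))
    (p (nat_lit 0xc0b8d0b0c9a) (nat_lit 0) (p (nat_lit 0xb8b0c8a8a1a) (nat_lit 0) (p (nat_lit 0x2a8258b0c0a0b8a) (nat_lit 0) (p (nat_lit 0x2a8258a8b89890a) (nat_lit 0) (p (nat_lit 0xb000c) (nat_lit 0) (p (nat_lit 0x1fc004) (nat_lit 0) (p (nat_lit 0xb0014) (nat_lit 1) (p (nat_lit 0x380c2) (nat_lit 0) (p (nat_lit 0x444aa) (nat_lit 7) (p (nat_lit 0x111) (nat_lit 1) (p (nat_lit 0x101) (nat_lit 0) (p (nat_lit 0xc1) (nat_lit 1) (p (nat_lit 0x119) (nat_lit 1) (p (nat_lit 0xc9) (nat_lit 0) (p (nat_lit 0x89) (nat_lit 1) (p (nat_lit 0x41) (nat_lit 0) (p (nat_lit 0x8078907089a) (nat_lit 0) (p (nat_lit 0x7870886861a) (nat_lit 0) (p (nat_lit 0x800070806078a) (nat_lit 0) (p (nat_lit 0x800068785850a) (nat_lit 0) (p (nat_lit 0x587050682)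 (nat_lit 0) (p (nat_lit 0x506848402) (nat_lit 0) (p (nat_lit 0x160014) (nat_lit 0) (p (nat_lit 0x16000c) (nat_lit 0) (p (nat_lit 0x50612) (nat_lit 0) (p (nat_lit 0x40592) (nat_lit 0) (p (nat_lit 0x40492) (nat_lit 0) (p (nat_lit 0x30412) (nat_lit 0) (p (nat_lit 0x30212) (nat_lit 0) (p (nat_lit 0x20192) (nat_lit 0) (p (nat_lit 0x20092) (nat_lit 0) (p (nat_lit 0x10012) (nat_lit 0) pn)))))))))))))))))))))))))))))))) :=
  Cl.node (nat_lit 0x109) (nat_lit 2) (by decide +kernel) (ClAll.succ (ClAll.succ ClAll.zero n117) s964)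

def n153 : Cl (O (nat_lit 1)) (R (nat_lit 104465))
    (p (nat_lit 0xd1) (nat_lit 1) (p (nat_lit 0x111) (nat_lit 1) (p (nat_lit 0xb0014) (nat_lit 0) (p (nat_lit 0xd1) (nat_lit 1) (p (nat_lit 0x100004) (nat_lit 0) (p (nat_lit 0x200004) (nat_lit 0) (p (nat_lit 0x380c2) (nat_lit 0) (p (nat_lit 0x4c42a) (nat_lit 10) (p (nat_lit 0xc9) (nat_lit 0) (p (nat_lit 0x89) (nat_lit 1) (p (nat_lit 0xc1) (nat_lit 0) (p (nat_lit 0x101) (nat_lit 1) (p (nat_lit 0x119) (nat_lit 0) (p (nat_lit 0xd1) (nat_lit 0) (p (nat_lit 0x81) (nat_lit 0) (p (nat_lit 0x41) (nat_lit 1) (p (nat_lit 0x8078907089a) (nat_lit 0) (p (nat_lit 0x7870886861a) (nat_lit 0) (p (nat_lit 0x800070806078a) (nat_lit 0) (p (nat_lit 0x800068785850a) (nat_lit 0) (p (nat_lit 0x587050682) (nat_lit 0) (p (nat_lit 0x506848402) (nat_lit 0) (p (nat_lit 0x160014) (nat_lit 0) (p (nat_lit 0x16000c) (nat_lit 0) (p (nat_lit 0x50612)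 (nat_lit 0) (p (nat_lit 0x40592) (nat_lit 0) (p (nat_lit 0x40492) (nat_lit 0) (p (nat_lit 0x30412) (nat_lit 0) (p (nat_lit 0x30212) (nat_lit 0) (p (nat_lit 0x20192) (nat_lit 0) (p (nat_lit 0x20092) (nat_lit 0) (p (nat_lit 0x10012) (nat_lit 0) pn)))))))))))))))))))))))))))))))) :=
  Cl.node (nat_lit 0x58014) (nat_lit 2) (by decide +kernel) (ClAll.succ (ClAll.succ ClAll.zero n118) s1128)

def n154 : Cl (O (nat_lit 1)) (R (nat_lit 104465))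
    (p (nat_lit 0x109) (nat_lit 0) (p (nat_lit 0x111) (nat_lit 0) (p (nat_lit 0xc9) (nat_lit 1) (p (nat_lit 0x109) (nat_lit 1) (p (nat_lit 0x101) (nat_lit 0) (p (nat_lit 0xb000c) (nat_lit 0) (p (nat_lit 0xb0014) (nat_lit 0) (p (nat_lit 0x380c2) (nat_lit 0) (p (nat_lit 0x3cc2a) (nat_lit 2) (p (nat_lit 0x89) (nat_lit 0) (p (nat_lit 0xc1) (nat_lit 1) (p (nat_lit 0x101) (nat_lit 1) (p (nat_lit 0x119) (nat_lit 0) (p (nat_lit 0xd1) (nat_lit 0) (p (nat_lit 0x81) (nat_lit 0) (p (nat_lit 0x41) (nat_lit 1) (p (nat_lit 0x8078907089a) (nat_lit 0) (p (nat_lit 0x7870886861a) (nat_lit 0) (p (nat_lit 0x800070806078a) (nat_lit 0) (p (nat_lit 0x800068785850a) (nat_lit 0) (p (nat_lit 0x587050682) (nat_lit 0) (p (nat_lit 0x506848402) (nat_lit 0) (p (nat_lit 0x160014) (nat_lit 0) (p (nat_lit 0x16000c) (nat_lit 0) (p (nat_lit 0x50612) (nat_lit 0) (p (nat_lit 0x40592) (nat_lit 0) (p (nat_lit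 0x40492) (nat_lit 0) (p (nat_lit 0x30412) (nat_lit 0) (p (nat_lit 0x30212) (nat_lit 0) (p (nat_lit 0x20192) (nat_lit 0) (p (nat_lit 0x20092) (nat_lit 0) (p (nat_lit 0x10012) (nat_lit 0) pn)))))))))))))))))))))))))))))))) :=
  Cl.node (nat_lit 0x111) (nat_lit 2) (by decide +kernel) (ClAll.succ (ClAll.succ ClAll.zero s1158) n119)

def n155 : Cl (O (nat_lit 1)) (R (nat_lit 104465))
    (p (nat_lit 0x109) (nat_lit 1) (p (nat_lit 0x111) (nat_lit 0) (p (nat_lit 0xc9) (nat_lit 1) (p (nat_lit 0x109) (nat_lit 1) (p (nat_lit 0x101) (nat_lit 0) (p (nat_lit 0xb000c) (nat_lit 0) (p (nat_lit 0xb0014) (nat_lit 0) (p (nat_lit 0x380c2) (nat_lit 0) (p (nat_lit 0x3cc2a) (nat_lit 2) (p (nat_lit 0x89) (nat_lit 0) (p (nat_lit 0xc1) (nat_lit 1) (p (nat_lit 0x101) (nat_lit 1) (p (nat_lit 0x119) (nat_lit 0) (p (nat_lit 0xd1) (nat_lit 0) (p (nat_lit 0x81) (nat_lit 0) (p (nat_lit 0x41) (nat_lit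 1) (p (nat_lit 0x8078907089a) (nat_lit 0) (p (nat_lit 0x7870886861a) (nat_lit 0) (p (nat_lit 0x800070806078a) (nat_lit 0) (p (nat_lit 0x800068785850a) (nat_lit 0) (p (nat_lit 0x587050682) (nat_lit 0) (p (nat_lit 0x506848402) (nat_lit 0) (p (nat_lit 0x160014) (nat_lit 0) (p (nat_lit 0x16000c) (nat_lit 0) (p (nat_lit 0x50612) (nat_lit 0) (p (nat_lit 0x40592) (nat_lit 0) (p (nat_lit 0x40492) (nat_lit 0) (p (nat_lit 0x30412) (nat_lit 0) (p (nat_lit 0x30212) (nat_lit 0) (p (nat_lit 0x20192) (nat_lit 0) (p (nat_lit 0x20092) (nat_lit 0) (p (nat_lit 0x10012) (nat_lit 0) pn)))))))))))))))))))))))))))))))) :=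
  Cl.node (nat_lit 0x89) (nat_lit 2) (by decide +kernel) (ClAll.succ (ClAll.succ ClAll.zero s1162) s1163)

def n156 : Cl (O (nat_lit 1)) (R (nat_lit 104465))
    (p (nat_lit 0x89) (nat_lit 1) (p (nat_lit 0x111) (nat_lit 1) (p (nat_lit 0xc9) (nat_lit 1) (p (nat_lit 0x109) (nat_lit 1) (p (nat_lit 0x101) (nat_lit 0) (p (nat_lit 0xb000c) (nat_lit 0) (p (nat_lit 0xb0014) (nat_lit 0) (p (nat_lit 0x380c2) (nat_lit 0) (p (nat_lit 0x3cc2a) (nat_lit 2) (p (nat_lit 0x89) (nat_lit 0) (p (nat_lit 0xc1) (nat_lit 1) (p (nat_lit 0x101) (nat_lit 1) (p (nat_lit 0x119) (nat_lit 0) (p (nat_lit 0xd1) (nat_lit 0) (p (nat_lit 0x81) (nat_lit 0) (p (nat_lit 0x41) (nat_lit 1) (p (nat_lit 0x8078907089a) (nat_lit 0) (p (nat_lit 0x7870886861a) (nat_lit 0) (p (nat_lit 0x800070806078a) (nat_lit 0) (p (nat_lit 0x800068785850a) (nat_lit 0) (p (nat_lit 0x587050682) (nat_lit 0) (p (nat_lit 0x506848402)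 (nat_lit 0) (p (nat_lit 0x160014) (nat_lit 0) (p (nat_lit 0x16000c) (nat_lit 0) (p (nat_lit 0x50612) (nat_lit 0) (p (nat_lit 0x40592) (nat_lit 0) (p (nat_lit 0x40492) (nat_lit 0) (p (nat_lit 0x30412) (nat_lit 0) (p (nat_lit 0x30212) (nat_lit 0) (p (nat_lit 0x20192) (nat_lit 0) (p (nat_lit 0x20092) (nat_lit 0) (p (nat_lit 0x10012) (nat_lit 0) pn)))))))))))))))))))))))))))))))) :=
  Cl.node (nat_lit 0x109) (nat_lit 2) (by decide +kernel) (ClAll.succ (ClAll.succ ClAll.zero s1165) s1166)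

def n157 : Cl (O (nat_lit 1)) (R (nat_lit 104465))
    (p (nat_lit 0xb8b0c8a8a1a) (nat_lit 0) (p (nat_lit 0x2680d0b0c0a0b8a) (nat_lit 0) (p (nat_lit 0x2680d0a8b89890a) (nat_lit 0) (p (nat_lit 0x100004) (nat_lit 0) (p (nat_lit 0x1fc004) (nat_lit 0) (p (nat_lit 0xb000c) (nat_lit 1) (p (nat_lit 0xb0014) (nat_lit 0) (p (nat_lit 0x380c2) (nat_lit 0) (p (nat_lit 0x3cc2a) (nat_lit 2) (p (nat_lit 0x89) (nat_lit 0) (p (nat_lit 0xc1) (nat_lit 1) (p (nat_lit 0x101) (nat_lit 1) (p (nat_lit 0x119) (nat_lit 0) (p (nat_lit 0xd1) (nat_lit 0) (p (nat_lit 0x81) (nat_lit 0) (p (nat_lit 0x41) (nat_lit 1) (p (nat_lit 0x8078907089a) (nat_lit 0) (p (nat_lit 0x7870886861a) (nat_lit 0) (p (nat_lit 0x800070806078a) (nat_lit 0) (p (nat_lit 0x800068785850a) (nat_lit 0) (p (nat_lit 0x587050682) (nat_lit 0) (p (nat_lit 0x506848402) (nat_lit 0) (p (nat_lit 0x160014) (nat_lit 0) (p (nat_lit 0x16000c)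 (nat_lit 0) (p (nat_lit 0x50612) (nat_lit 0) (p (nat_lit 0x40592) (nat_lit 0) (p (nat_lit 0x40492) (nat_lit 0) (p (nat_lit 0x30412) (nat_lit 0) (p (nat_lit 0x30212) (nat_lit 0) (p (nat_lit 0x20192) (nat_lit 0) (p (nat_lit 0x20092) (nat_lit 0) (p (nat_lit 0x10012) (nat_lit 0) pn)))))))))))))))))))))))))))))))) :=
  Cl.node (nat_lit 0xc0b8d0b0c9a) (nat_lit 1) (by decide +kernel) (ClAll.succ ClAll.zero n120)

def n158 : Cl (O (nat_lit 1)) (R (nat_lit 104465))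
    (p (nat_lit 0xb8b0c8a8a1a) (nat_lit 0) (p (nat_lit 0x2a8258b0c0a0b8a) (nat_lit 0) (p (nat_lit 0x2a8258a8b89890a) (nat_lit 0) (p (nat_lit 0xb0014) (nat_lit 0) (p (nat_lit 0x1fc004) (nat_lit 0) (p (nat_lit 0xb000c) (nat_lit 1) (p (nat_lit 0x380c2) (nat_lit 0) (p (nat_lit 0x3c4aa) (nat_lit 8) (p (nat_lit 0x109) (nat_lit 1) (p (nat_lit 0x89) (nat_lit 1) (p (nat_lit 0x101) (nat_lit 0) (p (nat_lit 0xc1) (nat_lit 1) (p (nat_lit 0x119) (nat_lit 1) (p (nat_lit 0xd1) (nat_lit 0) (p (nat_lit 0x81) (nat_lit 0) (p (nat_lit 0x41) (nat_lit 1) (p (nat_lit 0x8078907089a) (nat_lit 0) (p (nat_lit 0x7870886861a) (nat_lit 0) (p (nat_lit 0x800070806078a) (nat_lit 0) (p (nat_lit 0x800068785850a) (nat_lit 0) (p (nat_lit 0x587050682) (nat_lit 0) (p (nat_lit 0x506848402) (nat_lit 0) (p (nat_lit 0x160014) (nat_lit 0) (p (nat_lit 0x16000c) (nat_lit 0) (p (nat_lit 0x50612) (nat_lit 0) (p (nat_lit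 0x40592) (nat_lit 0) (p (nat_lit 0x40492) (nat_lit 0) (p (nat_lit 0x30412) (nat_lit 0) (p (nat_lit 0x30212) (nat_lit 0) (p (nat_lit 0x20192) (nat_lit 0) (p (nat_lit 0x20092) (nat_lit 0) (p (nat_lit 0x10012) (nat_lit 0) pn)))))))))))))))))))))))))))))))) :=
  Cl.node (nat_lit 0xc0b8d0b0c9a) (nat_lit 1) (by decide +kernel) (ClAll.succ ClAll.zero n121)

def n159 : Cl (O (nat_lit 1)) (R (nat_lit 104465))
    (p (nat_lit 0x444aa) (nat_lit 7) (p (nat_lit 0x41) (nat_lit 0) (p (nat_lit 0x109) (nat_lit 1) (p (nat_lit 0x100004) (nat_lit 0) (p (nat_lit 0x200004) (nat_lit 0) (p (nat_lit 0x380c2) (nat_lit 1) (p (nat_lit 0x4c42a) (nat_lit 10) (p (nat_lit 0x119) (nat_lit 0) (p (nat_lit 0xc9) (nat_lit 0) (p (nat_lit 0x89) (nat_lit 1) (p (nat_lit 0x109) (nat_lit 1) (p (nat_lit 0x101) (nat_lit 0) (p (nat_lit 0x111) (nat_lit 0) (p (nat_lit 0xd1) (nat_lit 1) (p (nat_lit 0x81) (nat_lit 0)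 (p (nat_lit 0x41) (nat_lit 1) (p (nat_lit 0x8078907089a) (nat_lit 0) (p (nat_lit 0x7870886861a) (nat_lit 0) (p (nat_lit 0x800070806078a) (nat_lit 0) (p (nat_lit 0x800068785850a) (nat_lit 0) (p (nat_lit 0x587050682) (nat_lit 0) (p (nat_lit 0x506848402) (nat_lit 0) (p (nat_lit 0x160014) (nat_lit 0) (p (nat_lit 0x16000c) (nat_lit 0) (p (nat_lit 0x50612) (nat_lit 0) (p (nat_lit 0x40592) (nat_lit 0) (p (nat_lit 0x40492) (nat_lit 0) (p (nat_lit 0x30412) (nat_lit 0) (p (nat_lit 0x30212) (nat_lit 0) (p (nat_lit 0x20192) (nat_lit 0) (p (nat_lit 0x20092) (nat_lit 0) (p (nat_lit 0x10012) (nat_lit 0) pn)))))))))))))))))))))))))))))))) :=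
  Cl.node (nat_lit 0x380c2) (nat_lit 2) (by decide +kernel) (ClAll.succ (ClAll.succ ClAll.zero s1396) s1397)

def n160 : Cl (O (nat_lit 1)) (R (nat_lit 104465))
    (p (nat_lit 0x43caa) (nat_lit 6) (p (nat_lit 0xc9) (nat_lit 1) (p (nat_lit 0xb0014) (nat_lit 0) (p (nat_lit 0x100004) (nat_lit 0) (p (nat_lit 0x200004) (nat_lit 0) (p (nat_lit 0x380c2) (nat_lit 0) (p (nat_lit 0x4c42a) (nat_lit 10) (p (nat_lit 0x119) (nat_lit 1) (p (nat_lit 0xc9) (nat_lit 0) (p (nat_lit 0x89) (nat_lit 1) (p (nat_lit 0x109) (nat_lit 1) (p (nat_lit 0x101) (nat_lit 0) (p (nat_lit 0x111) (nat_lit 0) (p (nat_lit 0xd1) (nat_lit 1) (p (nat_lit 0x81) (nat_lit 0) (p (nat_lit 0x41) (nat_lit 1) (p (nat_lit 0x8078907089a) (nat_lit 0) (p (nat_lit 0x7870886861a) (nat_lit 0) (p (nat_lit 0x800070806078a) (nat_lit 0) (p (nat_lit 0x800068785850a) (nat_lit 0) (p (nat_lit 0x587050682) (nat_lit 0) (p (nat_lit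 0x506848402) (nat_lit 0) (p (nat_lit 0x160014) (nat_lit 0) (p (nat_lit 0x16000c) (nat_lit 0) (p (nat_lit 0x50612) (nat_lit 0) (p (nat_lit 0x40592) (nat_lit 0) (p (nat_lit 0x40492) (nat_lit 0) (p (nat_lit 0x30412) (nat_lit 0) (p (nat_lit 0x30212) (nat_lit 0) (p (nat_lit 0x20192) (nat_lit 0) (p (nat_lit 0x20092) (nat_lit 0) (p (nat_lit 0x10012) (nat_lit 0) pn)))))))))))))))))))))))))))))))) :=
  Cl.node (nat_lit 0x380c2) (nat_lit 1) (by decide +kernel) (ClAll.succ ClAll.zero n122)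

def n161 : Cl (O (nat_lit 1)) (R (nat_lit 104465))
    (p (nat_lit 0xb0014) (nat_lit 0) (p (nat_lit 0x380c2) (nat_lit 0) (p (nat_lit 0x3cc2a) (nat_lit 2) (p (nat_lit 0x100004) (nat_lit 0) (p (nat_lit 0x200004) (nat_lit 0) (p (nat_lit 0x380c2) (nat_lit 1) (p (nat_lit 0x4c42a) (nat_lit 10) (p (nat_lit 0x119) (nat_lit 1) (p (nat_lit 0xc9) (nat_lit 0) (p (nat_lit 0x89) (nat_lit 1) (p (nat_lit 0x109) (nat_lit 1) (p (nat_lit 0x101) (nat_lit 0) (p (nat_lit 0x111) (nat_lit 0) (p (nat_lit 0xd1) (nat_lit 1) (p (nat_lit 0x81) (nat_lit 0) (p (nat_lit 0x41) (nat_lit 1) (p (nat_lit 0x8078907089a) (nat_lit 0) (p (nat_lit 0x7870886861a) (nat_lit 0) (p (nat_lit 0x800070806078a) (nat_lit 0) (p (nat_lit 0x800068785850a) (nat_lit 0) (p (nat_lit 0x587050682) (nat_lit 0) (p (nat_lit 0x506848402) (nat_lit 0) (p (nat_lit 0x160014) (nat_lit 0) (p (nat_lit 0x16000c) (nat_lit 0) (p (nat_lit 0x50612)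 (nat_lit 0) (p (nat_lit 0x40592) (nat_lit 0) (p (nat_lit 0x40492) (nat_lit 0) (p (nat_lit 0x30412) (nat_lit 0) (p (nat_lit 0x30212) (nat_lit 0) (p (nat_lit 0x20192) (nat_lit 0) (p (nat_lit 0x20092) (nat_lit 0) (p (nat_lit 0x10012) (nat_lit 0) pn)))))))))))))))))))))))))))))))) :=
  Cl.node (nat_lit 0xb000c) (nat_lit 2) (by decide +kernel) (ClAll.succ (ClAll.succ ClAll.zero n123) n124)

def n162 : Cl (O (nat_lit 1)) (R (nat_lit 104465))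
    (p (nat_lit 0x119) (nat_lit 0) (p (nat_lit 0x109) (nat_lit 1) (p (nat_lit 0x111) (nat_lit 0) (p (nat_lit 0xb000c) (nat_lit 0) (p (nat_lit 0x101) (nat_lit 0) (p (nat_lit 0xd1) (nat_lit 0) (p (nat_lit 0xb0014) (nat_lit 0) (p (nat_lit 0x380c2) (nat_lit 0) (p (nat_lit 0x3cc2a) (nat_lit 2) (p (nat_lit 0xc9) (nat_lit 0) (p (nat_lit 0x89) (nat_lit 1) (p (nat_lit 0x101) (nat_lit 1) (p (nat_lit 0x111) (nat_lit 0) (p (nat_lit 0xd1) (nat_lit 1) (p (nat_lit 0x81) (nat_lit 0) (p (nat_lit 0x41) (nat_lit 1) (p (nat_lit 0x8078907089a) (nat_lit 0) (p (nat_lit 0x7870886861a) (nat_lit 0) (p (nat_lit 0x800070806078a) (nat_lit 0) (p (nat_lit 0x800068785850a) (nat_lit 0) (p (nat_lit 0x587050682) (nat_lit 0) (p (nat_lit 0x506848402) (nat_lit 0) (p (nat_lit 0x160014) (nat_lit 0) (p (nat_lit 0x16000c) (nat_lit 0) (p (nat_lit 0x50612) (nat_lit 0) (p (nat_lit 0x40592) (nat_lit 0) (p (nat_lit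 0x40492) (nat_lit 0) (p (nat_lit 0x30412) (nat_lit 0) (p (nat_lit 0x30212) (nat_lit 0) (p (nat_lit 0x20192) (nat_lit 0) (p (nat_lit 0x20092) (nat_lit 0) (p (nat_lit 0x10012) (nat_lit 0) pn)))))))))))))))))))))))))))))))) :=
  Cl.node (nat_lit 0x109) (nat_lit 2) (by decide +kernel) (ClAll.succ (ClAll.succ ClAll.zero s1525) n125)

def n163 : Cl (O (nat_lit 1)) (R (nat_lit 104465))
    (p (nat_lit 0x2a8258b0c0a0b8a) (nat_lit 0) (p (nat_lit 0x2a8258a8b89890a) (nat_lit 0) (p (nat_lit 0x1fc004) (nat_lit 0) (p (nat_lit 0xb000c) (nat_lit 1) (p (nat_lit 0x101) (nat_lit 0) (p (nat_lit 0xd1) (nat_lit 0) (p (nat_lit 0xb0014) (nat_lit 0) (p (nat_lit 0x380c2) (nat_lit 0) (p (nat_lit 0x3cc2a) (nat_lit 2) (p (nat_lit 0xc9) (nat_lit 0) (p (nat_lit 0x89) (nat_lit 1) (p (nat_lit 0x101) (nat_lit 1) (p (nat_lit 0x111) (nat_lit 0) (p (nat_lit 0xd1) (nat_lit 1) (p (nat_lit 0x81) (nat_lit 0)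 (p (nat_lit 0x41) (nat_lit 1) (p (nat_lit 0x8078907089a) (nat_lit 0) (p (nat_lit 0x7870886861a) (nat_lit 0) (p (nat_lit 0x800070806078a) (nat_lit 0) (p (nat_lit 0x800068785850a) (nat_lit 0) (p (nat_lit 0x587050682) (nat_lit 0) (p (nat_lit 0x506848402) (nat_lit 0) (p (nat_lit 0x160014) (nat_lit 0) (p (nat_lit 0x16000c) (nat_lit 0) (p (nat_lit 0x50612) (nat_lit 0) (p (nat_lit 0x40592) (nat_lit 0) (p (nat_lit 0x40492) (nat_lit 0) (p (nat_lit 0x30412) (nat_lit 0) (p (nat_lit 0x30212) (nat_lit 0) (p (nat_lit 0x20192) (nat_lit 0) (p (nat_lit 0x20092) (nat_lit 0) (p (nat_lit 0x10012) (nat_lit 0) pn)))))))))))))))))))))))))))))))) :=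
  Cl.node (nat_lit 0xb8b0c8a8a1a) (nat_lit 1) (by decide +kernel) (ClAll.succ ClAll.zero n126)

def n164 : Cl (O (nat_lit 1)) (R (nat_lit 104465))
    (p (nat_lit 0xc0b8d0b0c9a) (nat_lit 0) (p (nat_lit 0xb8b0c8a8a1a) (nat_lit 0) (p (nat_lit 0x2a8258b0c0a0b8a) (nat_lit 0) (p (nat_lit 0x2a8258a8b89890a) (nat_lit 0) (p (nat_lit 0xb0014) (nat_lit 0) (p (nat_lit 0x1fc004) (nat_lit 0) (p (nat_lit 0xb000c) (nat_lit 1) (p (nat_lit 0x380c2) (nat_lit 0) (p (nat_lit 0x44c2a) (nat_lit 1) (p (nat_lit 0xd1) (nat_lit 0) (p (nat_lit 0xc9) (nat_lit 0) (p (nat_lit 0x101) (nat_lit 1) (p (nat_lit 0x119) (nat_lit 0) (p (nat_lit 0xc1) (nat_lit 0) (p (nat_lit 0x81) (nat_lit 1) (p (nat_lit 0x41) (nat_lit 1) (p (nat_lit 0x8078907089a) (nat_lit 0) (p (nat_lit 0x7870886861a) (nat_lit 0) (p (nat_lit 0x800070806078a) (nat_lit 0) (p (nat_lit 0x800068785850a) (nat_lit 0) (p (nat_lit 0x587050682) (nat_lit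 0) (p (nat_lit 0x506848402) (nat_lit 0) (p (nat_lit 0x160014) (nat_lit 0) (p (nat_lit 0x16000c) (nat_lit 0) (p (nat_lit 0x50612) (nat_lit 0) (p (nat_lit 0x40592) (nat_lit 0) (p (nat_lit 0x40492) (nat_lit 0) (p (nat_lit 0x30412) (nat_lit 0) (p (nat_lit 0x30212) (nat_lit 0) (p (nat_lit 0x20192) (nat_lit 0) (p (nat_lit 0x20092) (nat_lit 0) (p (nat_lit 0x10012) (nat_lit 0) pn)))))))))))))))))))))))))))))))) :=
  Cl.node (nat_lit 0xc9) (nat_lit 2) (by decide +kernel) (ClAll.succ (ClAll.succ ClAll.zero s1663) s1664)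

def n165 : Cl (O (nat_lit 1)) (R (nat_lit 104465))
    (p (nat_lit 0x380c2) (nat_lit 0) (p (nat_lit 0x3cc2a) (nat_lit 2) (p (nat_lit 0x81) (nat_lit 0) (p (nat_lit 0x100004) (nat_lit 0) (p (nat_lit 0x200004) (nat_lit 0) (p (nat_lit 0x380c2) (nat_lit 0) (p (nat_lit 0x444aa) (nat_lit 7) (p (nat_lit 0x81) (nat_lit 1) (p (nat_lit 0xc9) (nat_lit 1) (p (nat_lit 0x109) (nat_lit 1) (p (nat_lit 0x101) (nat_lit 0) (p (nat_lit 0x119) (nat_lit 0) (p (nat_lit 0xd1) (nat_lit 0) (p (nat_lit 0x89) (nat_lit 0) (p (nat_lit 0x41) (nat_lit 0) (p (nat_lit 0x8078907089a) (nat_lit 0) (p (nat_lit 0x7870886861a) (nat_lit 0) (p (nat_lit 0x800070806078a) (nat_lit 0) (p (nat_lit 0x800068785850a) (nat_lit 0) (p (nat_lit 0x587050682) (nat_lit 0) (p (nat_lit 0x506848402) (nat_lit 0) (p (nat_lit 0x160014) (nat_lit 0) (p (nat_lit 0x16000c) (nat_lit 0) (p (nat_lit 0x50612) (nat_lit 0) (p (nat_lit 0x40592)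 (nat_lit 0) (p (nat_lit 0x40492) (nat_lit 0) (p (nat_lit 0x30412) (nat_lit 0) (p (nat_lit 0x30212) (nat_lit 0) (p (nat_lit 0x20192) (nat_lit 0) (p (nat_lit 0x20092) (nat_lit 0) (p (nat_lit 0x10012) (nat_lit 0) pn))))))))))))))))))))))))))))))) :=
  Cl.node (nat_lit 0x41) (nat_lit 2) (by decide +kernel) (ClAll.succ (ClAll.succ ClAll.zero n127) s32)

def n166 : Cl (O (nat_lit 1)) (R (nat_lit 104465))
    (p (nat_lit 0x3cc2a) (nat_lit 2) (p (nat_lit 0xc1) (nat_lit 0) (p (nat_lit 0x81) (nat_lit 1) (p (nat_lit 0x100004) (nat_lit 0) (p (nat_lit 0x200004) (nat_lit 0) (p (nat_lit 0x380c2) (nat_lit 0) (p (nat_lit 0x444aa) (nat_lit 7) (p (nat_lit 0x81) (nat_lit 1) (p (nat_lit 0xc9) (nat_lit 1) (p (nat_lit 0x109) (nat_lit 1) (p (nat_lit 0x101) (nat_lit 0) (p (nat_lit 0x119) (nat_lit 0) (p (nat_lit 0xd1) (nat_lit 0) (p (nat_lit 0x89) (nat_lit 0) (p (nat_lit 0x41) (nat_lit 0) (p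 (nat_lit 0x8078907089a) (nat_lit 0) (p (nat_lit 0x7870886861a) (nat_lit 0) (p (nat_lit 0x800070806078a) (nat_lit 0) (p (nat_lit 0x800068785850a) (nat_lit 0) (p (nat_lit 0x587050682) (nat_lit 0) (p (nat_lit 0x506848402) (nat_lit 0) (p (nat_lit 0x160014) (nat_lit 0) (p (nat_lit 0x16000c) (nat_lit 0) (p (nat_lit 0x50612) (nat_lit 0) (p (nat_lit 0x40592) (nat_lit 0) (p (nat_lit 0x40492) (nat_lit 0) (p (nat_lit 0x30412) (nat_lit 0) (p (nat_lit 0x30212) (nat_lit 0) (p (nat_lit 0x20192) (nat_lit 0) (p (nat_lit 0x20092) (nat_lit 0) (p (nat_lit 0x10012) (nat_lit 0) pn))))))))))))))))))))))))))))))) :=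
  Cl.node (nat_lit 0x380c2) (nat_lit 1) (by decide +kernel) (ClAll.succ ClAll.zero n128)

def n167 : Cl (O (nat_lit 1)) (R (nat_lit 104465))
    (p (nat_lit 0x8400c) (nat_lit 0) (p (nat_lit 0x108014) (nat_lit 0) (p (nat_lit 0x10800c) (nat_lit 0) (p (nat_lit 0x100004) (nat_lit 1) (p (nat_lit 0x200004) (nat_lit 0) (p (nat_lit 0x380c2) (nat_lit 0) (p (nat_lit 0x444aa) (nat_lit 7) (p (nat_lit 0x81) (nat_lit 1) (p (nat_lit 0xc9) (nat_lit 1) (p (nat_lit 0x109) (nat_lit 1) (p (nat_lit 0x101) (nat_lit 0) (p (nat_lit 0x119) (nat_lit 0) (p (nat_lit 0xd1) (nat_lit 0) (p (nat_lit 0x89) (nat_lit 0) (p (nat_lit 0x41) (nat_lit 0) (p (nat_lit 0x8078907089a) (nat_lit 0) (p (nat_lit 0x7870886861a) (nat_lit 0) (p (nat_lit 0x800070806078a) (nat_lit 0) (p (nat_lit 0x800068785850a) (nat_lit 0) (p (nat_lit 0x587050682) (nat_lit 0) (p (nat_lit 0x506848402) (nat_lit 0) (p (nat_lit 0x160014)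 (nat_lit 0) (p (nat_lit 0x16000c) (nat_lit 0) (p (nat_lit 0x50612) (nat_lit 0) (p (nat_lit 0x40592) (nat_lit 0) (p (nat_lit 0x40492) (nat_lit 0) (p (nat_lit 0x30412) (nat_lit 0) (p (nat_lit 0x30212) (nat_lit 0) (p (nat_lit 0x20192) (nat_lit 0) (p (nat_lit 0x20092) (nat_lit 0) (p (nat_lit 0x10012) (nat_lit 0) pn))))))))))))))))))))))))))))))) :=
  Cl.node (nat_lit 0x81) (nat_lit 2) (by decide +kernel) (ClAll.succ (ClAll.succ ClAll.zero n129) n130)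

def n168 : Cl (O (nat_lit 1)) (R (nat_lit 104465))
    (p (nat_lit 0x3cc2a) (nat_lit 2) (p (nat_lit 0xc1) (nat_lit 0) (p (nat_lit 0x81) (nat_lit 1) (p (nat_lit 0x100004) (nat_lit 0) (p (nat_lit 0x200004) (nat_lit 0) (p (nat_lit 0x380c2) (nat_lit 1) (p (nat_lit 0x444aa) (nat_lit 7) (p (nat_lit 0x81) (nat_lit 1) (p (nat_lit 0xc9) (nat_lit 1) (p (nat_lit 0x109) (nat_lit 1) (p (nat_lit 0x101) (nat_lit 0) (p (nat_lit 0x119) (nat_lit 0) (p (nat_lit 0xd1) (nat_lit 0) (p (nat_lit 0x89) (nat_lit 0) (p (nat_lit 0x41) (nat_lit 0) (p (nat_lit 0x8078907089a) (nat_lit 0) (p (nat_lit 0x7870886861a) (nat_lit 0) (p (nat_lit 0x800070806078a) (nat_lit 0) (p (nat_lit 0x800068785850a) (nat_lit 0) (p (nat_lit 0x587050682) (nat_lit 0) (p (nat_lit 0x506848402) (nat_lit 0) (p (nat_lit 0x160014) (nat_lit 0) (p (nat_lit 0x16000c) (nat_lit 0) (p (nat_lit 0x50612) (nat_lit 0) (p (nat_lit 0x40592)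 (nat_lit 0) (p (nat_lit 0x40492) (nat_lit 0) (p (nat_lit 0x30412) (nat_lit 0) (p (nat_lit 0x30212) (nat_lit 0) (p (nat_lit 0x20192) (nat_lit 0) (p (nat_lit 0x20092) (nat_lit 0) (p (nat_lit 0x10012) (nat_lit 0) pn))))))))))))))))))))))))))))))) :=
  Cl.node (nat_lit 0x380c2) (nat_lit 1) (by decide +kernel) (ClAll.succ ClAll.zero n131)

def n169 : Cl (O (nat_lit 1)) (R (nat_lit 104465))
    (p (nat_lit 0x4c42a) (nat_lit 10) (p (nat_lit 0x89) (nat_lit 0) (p (nat_lit 0x100004) (nat_lit 0) (p (nat_lit 0xb000c) (nat_lit 0) (p (nat_lit 0x200004) (nat_lit 0) (p (nat_lit 0x380c2) (nat_lit 1) (p (nat_lit 0x444aa) (nat_lit 7) (p (nat_lit 0x111) (nat_lit 0) (p (nat_lit 0xc9) (nat_lit 1) (p (nat_lit 0x81) (nat_lit 0) (p (nat_lit 0x101) (nat_lit 1) (p (nat_lit 0x119) (nat_lit 0) (p (nat_lit 0xd1) (nat_lit 0) (p (nat_lit 0x89) (nat_lit 0) (p (nat_lit 0x41) (nat_lit 0) (p (nat_lit 0x8078907089a)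 (nat_lit 0) (p (nat_lit 0x7870886861a) (nat_lit 0) (p (nat_lit 0x800070806078a) (nat_lit 0) (p (nat_lit 0x800068785850a) (nat_lit 0) (p (nat_lit 0x587050682) (nat_lit 0) (p (nat_lit 0x506848402) (nat_lit 0) (p (nat_lit 0x160014) (nat_lit 0) (p (nat_lit 0x16000c) (nat_lit 0) (p (nat_lit 0x50612) (nat_lit 0) (p (nat_lit 0x40592) (nat_lit 0) (p (nat_lit 0x40492) (nat_lit 0) (p (nat_lit 0x30412) (nat_lit 0) (p (nat_lit 0x30212) (nat_lit 0) (p (nat_lit 0x20192) (nat_lit 0) (p (nat_lit 0x20092) (nat_lit 0) (p (nat_lit 0x10012) (nat_lit 0) pn))))))))))))))))))))))))))))))) :=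
  Cl.node (nat_lit 0x380c2) (nat_lit 2) (by decide +kernel) (ClAll.succ (ClAll.succ ClAll.zero s161) s162)

def n170 : Cl (O (nat_lit 1)) (R (nat_lit 104465))
    (p (nat_lit 0x109) (nat_lit 0) (p (nat_lit 0xb0014) (nat_lit 0) (p (nat_lit 0xc9) (nat_lit 1) (p (nat_lit 0x41) (nat_lit 0) (p (nat_lit 0xb000c) (nat_lit 0) (p (nat_lit 0x101) (nat_lit 0) (p (nat_lit 0x380c2) (nat_lit 0) (p (nat_lit 0x3cc2a) (nat_lit 2) (p (nat_lit 0x109) (nat_lit 1) (p (nat_lit 0xc9) (nat_lit 1) (p (nat_lit 0xc1) (nat_lit 0) (p (nat_lit 0x119) (nat_lit 1) (p (nat_lit 0xd1) (nat_lit 0) (p (nat_lit 0x89) (nat_lit 0) (p (nat_lit 0x41) (nat_lit 0) (p (nat_lit 0x8078907089a) (nat_lit 0) (p (nat_lit 0x7870886861a) (nat_lit 0) (p (nat_lit 0x800070806078a) (nat_lit 0) (p (nat_lit 0x800068785850a) (nat_lit 0) (p (nat_lit 0x587050682) (nat_lit 0) (p (nat_lit 0x506848402) (nat_lit 0) (p (nat_lit 0x160014)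 (nat_lit 0) (p (nat_lit 0x16000c) (nat_lit 0) (p (nat_lit 0x50612) (nat_lit 0) (p (nat_lit 0x40592) (nat_lit 0) (p (nat_lit 0x40492) (nat_lit 0) (p (nat_lit 0x30412) (nat_lit 0) (p (nat_lit 0x30212) (nat_lit 0) (p (nat_lit 0x20192) (nat_lit 0) (p (nat_lit 0x20092) (nat_lit 0) (p (nat_lit 0x10012) (nat_lit 0) pn))))))))))))))))))))))))))))))) :=
  Cl.node (nat_lit 0x119) (nat_lit 2) (by decide +kernel) (ClAll.succ (ClAll.succ ClAll.zero n132) s242)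

def n171 : Cl (O (nat_lit 1)) (R (nat_lit 104465))
    (p (nat_lit 0x2a8258b0c0a0b8a) (nat_lit 0) (p (nat_lit 0x2a8258a8b89890a) (nat_lit 0) (p (nat_lit 0xb0014) (nat_lit 0) (p (nat_lit 0x1fc004) (nat_lit 0) (p (nat_lit 0xb000c) (nat_lit 1) (p (nat_lit 0x101) (nat_lit 0) (p (nat_lit 0x380c2) (nat_lit 0) (p (nat_lit 0x3cc2a) (nat_lit 2) (p (nat_lit 0x109) (nat_lit 1) (p (nat_lit 0xc9) (nat_lit 1) (p (nat_lit 0xc1) (nat_lit 0) (p (nat_lit 0x119) (nat_lit 1) (p (nat_lit 0xd1) (nat_lit 0) (p (nat_lit 0x89) (nat_lit 0) (p (nat_lit 0x41) (nat_lit 0) (p (nat_lit 0x8078907089a) (nat_lit 0) (p (nat_lit 0x7870886861a) (nat_lit 0) (p (nat_lit 0x800070806078a) (nat_lit 0) (p (nat_lit 0x800068785850a) (nat_lit 0) (p (nat_lit 0x587050682) (nat_lit 0) (p (nat_lit 0x506848402) (nat_lit 0) (p (nat_lit 0x160014) (nat_lit 0) (p (nat_lit 0x16000c) (nat_lit 0) (p (nat_lit 0x50612) (nat_lit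 0) (p (nat_lit 0x40592) (nat_lit 0) (p (nat_lit 0x40492) (nat_lit 0) (p (nat_lit 0x30412) (nat_lit 0) (p (nat_lit 0x30212) (nat_lit 0) (p (nat_lit 0x20192) (nat_lit 0) (p (nat_lit 0x20092) (nat_lit 0) (p (nat_lit 0x10012) (nat_lit 0) pn))))))))))))))))))))))))))))))) :=
  Cl.node (nat_lit 0xb8b0c8a8a1a) (nat_lit 1) (by decide +kernel) (ClAll.succ ClAll.zero n133)

def n172 : Cl (O (nat_lit 1)) (R (nat_lit 104465))
    (p (nat_lit 0x2a8258a8b89890a) (nat_lit 0) (p (nat_lit 0xb0014) (nat_lit 0) (p (nat_lit 0x1fc004) (nat_lit 0) (p (nat_lit 0xb000c) (nat_lit 1) (p (nat_lit 0x41) (nat_lit 0) (p (nat_lit 0x101) (nat_lit 1) (p (nat_lit 0x380c2) (nat_lit 0) (p (nat_lit 0x3cc2a) (nat_lit 2) (p (nat_lit 0x109) (nat_lit 1) (p (nat_lit 0xc9) (nat_lit 1) (p (nat_lit 0xc1) (nat_lit 0) (p (nat_lit 0x119) (nat_lit 1) (p (nat_lit 0xd1) (nat_lit 0) (p (nat_lit 0x89) (nat_lit 0) (p (nat_lit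 0x41) (nat_lit 0) (p (nat_lit 0x8078907089a) (nat_lit 0) (p (nat_lit 0x7870886861a) (nat_lit 0) (p (nat_lit 0x800070806078a) (nat_lit 0) (p (nat_lit 0x800068785850a) (nat_lit 0) (p (nat_lit 0x587050682) (nat_lit 0) (p (nat_lit 0x506848402) (nat_lit 0) (p (nat_lit 0x160014) (nat_lit 0) (p (nat_lit 0x16000c) (nat_lit 0) (p (nat_lit 0x50612) (nat_lit 0) (p (nat_lit 0x40592) (nat_lit 0) (p (nat_lit 0x40492) (nat_lit 0) (p (nat_lit 0x30412) (nat_lit 0) (p (nat_lit 0x30212) (nat_lit 0) (p (nat_lit 0x20192) (nat_lit 0) (p (nat_lit 0x20092) (nat_lit 0) (p (nat_lit 0x10012) (nat_lit 0) pn))))))))))))))))))))))))))))))) :=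
  Cl.node (nat_lit 0x2a8258b0c0a0b8a) (nat_lit 1) (by decide +kernel) (ClAll.succ ClAll.zero n134)

def n173 : Cl (O (nat_lit 1)) (R (nat_lit 104465))
    (p (nat_lit 0x41) (nat_lit 1) (p (nat_lit 0xb0014) (nat_lit 0) (p (nat_lit 0xc9) (nat_lit 1) (p (nat_lit 0x111) (nat_lit 0) (p (nat_lit 0xb000c) (nat_lit 0) (p (nat_lit 0xc9) (nat_lit 1) (p (nat_lit 0x380c2) (nat_lit 0) (p (nat_lit 0x3cc2a) (nat_lit 2) (p (nat_lit 0x109) (nat_lit 1) (p (nat_lit 0x81) (nat_lit 0) (p (nat_lit 0xc1) (nat_lit 1) (p (nat_lit 0x119) (nat_lit 1) (p (nat_lit 0xd1) (nat_lit 0) (p (nat_lit 0x89) (nat_lit 0) (p (nat_lit 0x41) (nat_lit 0) (p (nat_lit 0x8078907089a) (nat_lit 0) (p (nat_lit 0x7870886861a) (nat_lit 0) (p (nat_lit 0x800070806078a) (nat_lit 0) (p (nat_lit 0x800068785850a) (nat_lit 0) (p (nat_lit 0x587050682) (nat_lit 0) (p (nat_lit 0x506848402) (nat_lit 0) (p (nat_lit 0x160014) (nat_lit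 0) (p (nat_lit 0x16000c) (nat_lit 0) (p (nat_lit 0x50612) (nat_lit 0) (p (nat_lit 0x40592) (nat_lit 0) (p (nat_lit 0x40492) (nat_lit 0) (p (nat_lit 0x30412) (nat_lit 0) (p (nat_lit 0x30212) (nat_lit 0) (p (nat_lit 0x20192) (nat_lit 0) (p (nat_lit 0x20092) (nat_lit 0) (p (nat_lit 0x10012) (nat_lit 0) pn))))))))))))))))))))))))))))))) :=
  Cl.node (nat_lit 0x81) (nat_lit 2) (by decide +kernel) (ClAll.succ (ClAll.succ ClAll.zero s284) s285)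

def n174 : Cl (O (nat_lit 1)) (R (nat_lit 104465))
    (p (nat_lit 0x109) (nat_lit 1) (p (nat_lit 0x119) (nat_lit 0) (p (nat_lit 0x100004) (nat_lit 0) (p (nat_lit 0xb000c) (nat_lit 0) (p (nat_lit 0x200004) (nat_lit 0) (p (nat_lit 0x380c2) (nat_lit 1) (p (nat_lit 0x444aa) (nat_lit 7) (p (nat_lit 0x109) (nat_lit 1) (p (nat_lit 0x101) (nat_lit 0) (p (nat_lit 0x81) (nat_lit 1) (p (nat_lit 0xc1) (nat_lit 1) (p (nat_lit 0x119) (nat_lit 1) (p (nat_lit 0xd1) (nat_lit 0) (p (nat_lit 0x89) (nat_lit 0) (p (nat_lit 0x41) (nat_lit 0) (p (nat_lit 0x8078907089a) (nat_lit 0) (p (nat_lit 0x7870886861a) (nat_lit 0) (p (nat_lit 0x800070806078a) (nat_lit 0) (p (nat_lit 0x800068785850a) (nat_lit 0) (p (nat_lit 0x587050682) (nat_lit 0) (p (nat_lit 0x506848402) (nat_lit 0) (p (nat_lit 0x160014) (nat_lit 0) (p (nat_lit 0x16000c) (nat_lit 0) (p (nat_lit 0x50612) (nat_lit 0) (p (nat_lit 0x40592)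 (nat_lit 0) (p (nat_lit 0x40492) (nat_lit 0) (p (nat_lit 0x30412) (nat_lit 0) (p (nat_lit 0x30212) (nat_lit 0) (p (nat_lit 0x20192) (nat_lit 0) (p (nat_lit 0x20092) (nat_lit 0) (p (nat_lit 0x10012) (nat_lit 0) pn))))))))))))))))))))))))))))))) :=
  Cl.node (nat_lit 0x119) (nat_lit 2) (by decide +kernel) (ClAll.succ (ClAll.succ ClAll.zero s328) s329)

def n175 : Cl (O (nat_lit 1)) (R (nat_lit 104465))
    (p (nat_lit 0x100004) (nat_lit 0) (p (nat_lit 0x200004) (nat_lit 0) (p (nat_lit 0x380c2) (nat_lit 1) (p (nat_lit 0x4c42a) (nat_lit 10) (p (nat_lit 0xc9) (nat_lit 0) (p (nat_lit 0x380c2) (nat_lit 0) (p (nat_lit 0x444aa) (nat_lit 7) (p (nat_lit 0x119) (nat_lit 0) (p (nat_lit 0xc1) (nat_lit 0) (p (nat_lit 0x81) (nat_lit 1) (p (nat_lit 0x101) (nat_lit 1) (p (nat_lit 0x111) (nat_lit 0) (p (nat_lit 0xd1) (nat_lit 1) (p (nat_lit 0x89) (nat_lit 0) (p (nat_lit 0x41) (nat_lit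 0) (p (nat_lit 0x8078907089a) (nat_lit 0) (p (nat_lit 0x7870886861a) (nat_lit 0) (p (nat_lit 0x800070806078a) (nat_lit 0) (p (nat_lit 0x800068785850a) (nat_lit 0) (p (nat_lit 0x587050682) (nat_lit 0) (p (nat_lit 0x506848402) (nat_lit 0) (p (nat_lit 0x160014) (nat_lit 0) (p (nat_lit 0x16000c) (nat_lit 0) (p (nat_lit 0x50612) (nat_lit 0) (p (nat_lit 0x40592) (nat_lit 0) (p (nat_lit 0x40492) (nat_lit 0) (p (nat_lit 0x30412) (nat_lit 0) (p (nat_lit 0x30212) (nat_lit 0) (p (nat_lit 0x20192) (nat_lit 0) (p (nat_lit 0x20092) (nat_lit 0) (p (nat_lit 0x10012) (nat_lit 0) pn))))))))))))))))))))))))))))))) :=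
  Cl.node (nat_lit 0xc1) (nat_lit 2) (by decide +kernel) (ClAll.succ (ClAll.succ ClAll.zero s452) s453)

def n176 : Cl (O (nat_lit 1)) (R (nat_lit 104465))
    (p (nat_lit 0x200004) (nat_lit 0) (p (nat_lit 0x380c2) (nat_lit 0) (p (nat_lit 0x4c42a) (nat_lit 10) (p (nat_lit 0x89) (nat_lit 0) (p (nat_lit 0xb0014) (nat_lit 0) (p (nat_lit 0x380c2) (nat_lit 0) (p (nat_lit 0x3cc2a) (nat_lit 2) (p (nat_lit 0x119) (nat_lit 1) (p (nat_lit 0xc1) (nat_lit 0) (p (nat_lit 0x81) (nat_lit 1) (p (nat_lit 0x101) (nat_lit 1) (p (nat_lit 0x111) (nat_lit 0) (p (nat_lit 0xd1) (nat_lit 1) (p (nat_lit 0x89) (nat_lit 0) (p (nat_lit 0x41) (nat_lit 0) (p (nat_lit 0x8078907089a) (nat_lit 0) (p (nat_lit 0x7870886861a) (nat_lit 0) (p (nat_lit 0x800070806078a) (nat_lit 0) (p (nat_lit 0x800068785850a) (nat_lit 0) (p (nat_lit 0x587050682) (nat_lit 0) (p (nat_lit 0x506848402) (nat_lit 0) (p (nat_lit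 0x160014) (nat_lit 0) (p (nat_lit 0x16000c) (nat_lit 0) (p (nat_lit 0x50612) (nat_lit 0) (p (nat_lit 0x40592) (nat_lit 0) (p (nat_lit 0x40492) (nat_lit 0) (p (nat_lit 0x30412) (nat_lit 0) (p (nat_lit 0x30212) (nat_lit 0) (p (nat_lit 0x20192) (nat_lit 0) (p (nat_lit 0x20092) (nat_lit 0) (p (nat_lit 0x10012) (nat_lit 0) pn))))))))))))))))))))))))))))))) :=
  Cl.node (nat_lit 0x100004) (nat_lit 2) (by decide +kernel) (ClAll.succ (ClAll.succ ClAll.zero n135) s485)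

def n177 : Cl (O (nat_lit 1)) (R (nat_lit 104465))
    (p (nat_lit 0x200004) (nat_lit 0) (p (nat_lit 0x380c2) (nat_lit 1) (p (nat_lit 0x4c42a) (nat_lit 10) (p (nat_lit 0x89) (nat_lit 0) (p (nat_lit 0xb0014) (nat_lit 0) (p (nat_lit 0x380c2) (nat_lit 0) (p (nat_lit 0x3cc2a) (nat_lit 2) (p (nat_lit 0x119) (nat_lit 1) (p (nat_lit 0xc1) (nat_lit 0) (p (nat_lit 0x81) (nat_lit 1) (p (nat_lit 0x101) (nat_lit 1) (p (nat_lit 0x111) (nat_lit 0) (p (nat_lit 0xd1) (nat_lit 1) (p (nat_lit 0x89) (nat_lit 0) (p (nat_lit 0x41) (nat_lit 0) (p (nat_lit 0x8078907089a) (nat_lit 0) (p (nat_lit 0x7870886861a) (nat_lit 0) (p (nat_lit 0x800070806078a) (nat_lit 0) (p (nat_lit 0x800068785850a) (nat_lit 0) (p (nat_lit 0x587050682) (nat_lit 0) (p (nat_lit 0x506848402) (nat_lit 0) (p (nat_lit 0x160014) (nat_lit 0) (p (nat_lit 0x16000c) (nat_lit 0) (p (nat_lit 0x50612) (nat_lit 0) (p (nat_lit 0x40592)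 (nat_lit 0) (p (nat_lit 0x40492) (nat_lit 0) (p (nat_lit 0x30412) (nat_lit 0) (p (nat_lit 0x30212) (nat_lit 0) (p (nat_lit 0x20192) (nat_lit 0) (p (nat_lit 0x20092) (nat_lit 0) (p (nat_lit 0x10012) (nat_lit 0) pn))))))))))))))))))))))))))))))) :=
  Cl.node (nat_lit 0x100004) (nat_lit 2) (by decide +kernel) (ClAll.succ (ClAll.succ ClAll.zero n136) s489)

def n178 : Cl (O (nat_lit 1)) (R (nat_lit 104465))
    (p (nat_lit 0x200004) (nat_lit 0) (p (nat_lit 0x380c2) (nat_lit 0) (p (nat_lit 0x4c42a) (nat_lit 11) (p (nat_lit 0x89) (nat_lit 0) (p (nat_lit 0xb0014) (nat_lit 0) (p (nat_lit 0x380c2) (nat_lit 0) (p (nat_lit 0x3cc2a) (nat_lit 2) (p (nat_lit 0x119) (nat_lit 1) (p (nat_lit 0xc1) (nat_lit 0) (p (nat_lit 0x81) (nat_lit 1) (p (nat_lit 0x101) (nat_lit 1) (p (nat_lit 0x111) (nat_lit 0) (p (nat_lit 0xd1) (nat_lit 1) (p (nat_lit 0x89) (nat_lit 0) (p (nat_lit 0x41) (nat_lit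 0) (p (nat_lit 0x8078907089a) (nat_lit 0) (p (nat_lit 0x7870886861a) (nat_lit 0) (p (nat_lit 0x800070806078a) (nat_lit 0) (p (nat_lit 0x800068785850a) (nat_lit 0) (p (nat_lit 0x587050682) (nat_lit 0) (p (nat_lit 0x506848402) (nat_lit 0) (p (nat_lit 0x160014) (nat_lit 0) (p (nat_lit 0x16000c) (nat_lit 0) (p (nat_lit 0x50612) (nat_lit 0) (p (nat_lit 0x40592) (nat_lit 0) (p (nat_lit 0x40492) (nat_lit 0) (p (nat_lit 0x30412) (nat_lit 0) (p (nat_lit 0x30212) (nat_lit 0) (p (nat_lit 0x20192) (nat_lit 0) (p (nat_lit 0x20092) (nat_lit 0) (p (nat_lit 0x10012) (nat_lit 0) pn))))))))))))))))))))))))))))))) :=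
  Cl.node (nat_lit 0x100004) (nat_lit 2) (by decide +kernel) (ClAll.succ (ClAll.succ ClAll.zero s491) s492)

def n179 : Cl (O (nat_lit 1)) (R (nat_lit 104465))
    (p (nat_lit 0x100004) (nat_lit 0) (p (nat_lit 0x1fc004) (nat_lit 0) (p (nat_lit 0xb000c) (nat_lit 1) (p (nat_lit 0x89) (nat_lit 1) (p (nat_lit 0xb0014) (nat_lit 0) (p (nat_lit 0x380c2) (nat_lit 0) (p (nat_lit 0x3cc2a) (nat_lit 2) (p (nat_lit 0x119) (nat_lit 1) (p (nat_lit 0xc1) (nat_lit 0) (p (nat_lit 0x81) (nat_lit 1) (p (nat_lit 0x101) (nat_lit 1) (p (nat_lit 0x111) (nat_lit 0) (p (nat_lit 0xd1) (nat_lit 1) (p (nat_lit 0x89) (nat_lit 0) (p (nat_lit 0x41) (nat_lit 0) (p (nat_lit 0x8078907089a) (nat_lit 0) (p (nat_lit 0x7870886861a) (nat_lit 0) (p (nat_lit 0x800070806078a) (nat_lit 0) (p (nat_lit 0x800068785850a) (nat_lit 0) (p (nat_lit 0x587050682) (nat_lit 0) (p (nat_lit 0x506848402) (nat_lit 0) (p (nat_lit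 0x160014) (nat_lit 0) (p (nat_lit 0x16000c) (nat_lit 0) (p (nat_lit 0x50612) (nat_lit 0) (p (nat_lit 0x40592) (nat_lit 0) (p (nat_lit 0x40492) (nat_lit 0) (p (nat_lit 0x30412) (nat_lit 0) (p (nat_lit 0x30212) (nat_lit 0) (p (nat_lit 0x20192) (nat_lit 0) (p (nat_lit 0x20092) (nat_lit 0) (p (nat_lit 0x10012) (nat_lit 0) pn))))))))))))))))))))))))))))))) :=
  Cl.node (nat_lit 0x41) (nat_lit 2) (by decide +kernel) (ClAll.succ (ClAll.succ ClAll.zero s497) n137)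

def n180 : Cl (O (nat_lit 1)) (R (nat_lit 104465))
    (p (nat_lit 0xc9) (nat_lit 0) (p (nat_lit 0xc1) (nat_lit 0) (p (nat_lit 0xb000c) (nat_lit 0) (p (nat_lit 0x100004) (nat_lit 0) (p (nat_lit 0x200004) (nat_lit 0) (p (nat_lit 0x380c2) (nat_lit 0) (p (nat_lit 0x444aa) (nat_lit 7) (p (nat_lit 0xd1) (nat_lit 1) (p (nat_lit 0x111) (nat_lit 1) (p (nat_lit 0x109) (nat_lit 0) (p (nat_lit 0x101) (nat_lit 0) (p (nat_lit 0x119) (nat_lit 0) (p (nat_lit 0xc9) (nat_lit 0) (p (nat_lit 0x89) (nat_lit 1) (p (nat_lit 0x41) (nat_lit 0) (p (nat_lit 0x8078907089a) (nat_lit 0) (p (nat_lit 0x7870886861a) (nat_lit 0) (p (nat_lit 0x800070806078a) (nat_lit 0) (p (nat_lit 0x800068785850a) (nat_lit 0) (p (nat_lit 0x587050682) (nat_lit 0) (p (nat_lit 0x506848402) (nat_lit 0) (p (nat_lit 0x160014) (nat_lit 0) (p (nat_lit 0x16000c) (nat_lit 0) (p (nat_lit 0x50612) (nat_lit 0) (p (nat_lit 0x40592)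 (nat_lit 0) (p (nat_lit 0x40492) (nat_lit 0) (p (nat_lit 0x30412) (nat_lit 0) (p (nat_lit 0x30212) (nat_lit 0) (p (nat_lit 0x20192) (nat_lit 0) (p (nat_lit 0x20092) (nat_lit 0) (p (nat_lit 0x10012) (nat_lit 0) pn))))))))))))))))))))))))))))))) :=
  Cl.node (nat_lit 0x3cc2a) (nat_lit 12) (by decide +kernel) (ClAll.succ (ClAll.succ (ClAll.succ (ClAll.succ (ClAll.succ (ClAll.succ (ClAll.succ (ClAll.succ (ClAll.succ (ClAll.succ (ClAll.succ (ClAll.succ ClAll.zero s540) n138) s543) s544) s545) s546) s547) s548) s549) s550) s551) s552)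

def n181 : Cl (O (nat_lit 1)) (R (nat_lit 104465))
    (p (nat_lit 0xc9) (nat_lit 1) (p (nat_lit 0xc1) (nat_lit 0) (p (nat_lit 0xb000c) (nat_lit 0) (p (nat_lit 0x100004) (nat_lit 0) (p (nat_lit 0x200004) (nat_lit 0) (p (nat_lit 0x380c2) (nat_lit 0) (p (nat_lit 0x444aa) (nat_lit 7) (p (nat_lit 0xd1) (nat_lit 1) (p (nat_lit 0x111) (nat_lit 1) (p (nat_lit 0x109) (nat_lit 0) (p (nat_lit 0x101) (nat_lit 0) (p (nat_lit 0x119) (nat_lit 0) (p (nat_lit 0xc9) (nat_lit 0) (p (nat_lit 0x89) (nat_lit 1) (p (nat_lit 0x41) (nat_lit 0) (p (nat_lit 0x8078907089a) (nat_lit 0) (p (nat_lit 0x7870886861a) (nat_lit 0) (p (nat_lit 0x800070806078a) (nat_lit 0) (p (nat_lit 0x800068785850a) (nat_lit 0) (p (nat_lit 0x587050682) (nat_lit 0) (p (nat_lit 0x506848402) (nat_lit 0) (p (nat_lit 0x160014) (nat_lit 0) (p (nat_lit 0x16000c) (nat_lit 0) (p (nat_lit 0x50612) (nat_lit 0) (p (nat_lit 0x40592)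 (nat_lit 0) (p (nat_lit 0x40492) (nat_lit 0) (p (nat_lit 0x30412) (nat_lit 0) (p (nat_lit 0x30212) (nat_lit 0) (p (nat_lit 0x20192) (nat_lit 0) (p (nat_lit 0x20092) (nat_lit 0) (p (nat_lit 0x10012) (nat_lit 0) pn))))))))))))))))))))))))))))))) :=
  Cl.node (nat_lit 0x119) (nat_lit 2) (by decide +kernel) (ClAll.succ (ClAll.succ ClAll.zero n139) n140)

def n182 : Cl (O (nat_lit 1)) (R (nat_lit 104465))
    (p (nat_lit 0x2680d0a8b89890a) (nat_lit 0) (p (nat_lit 0xb0014) (nat_lit 0) (p (nat_lit 0xb000c) (nat_lit 1) (p (nat_lit 0x100004) (nat_lit 0) (p (nat_lit 0x200004) (nat_lit 0) (p (nat_lit 0x380c2) (nat_lit 0) (p (nat_lit 0x444aa) (nat_lit 7) (p (nat_lit 0xd1) (nat_lit 1) (p (nat_lit 0x111) (nat_lit 1) (p (nat_lit 0x109) (nat_lit 0) (p (nat_lit 0x101) (nat_lit 0) (p (nat_lit 0x119) (nat_lit 0) (p (nat_lit 0xc9) (nat_lit 0) (p (nat_lit 0x89) (nat_lit 1) (p (nat_lit 0x41)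 (nat_lit 0) (p (nat_lit 0x8078907089a) (nat_lit 0) (p (nat_lit 0x7870886861a) (nat_lit 0) (p (nat_lit 0x800070806078a) (nat_lit 0) (p (nat_lit 0x800068785850a) (nat_lit 0) (p (nat_lit 0x587050682) (nat_lit 0) (p (nat_lit 0x506848402) (nat_lit 0) (p (nat_lit 0x160014) (nat_lit 0) (p (nat_lit 0x16000c) (nat_lit 0) (p (nat_lit 0x50612) (nat_lit 0) (p (nat_lit 0x40592) (nat_lit 0) (p (nat_lit 0x40492) (nat_lit 0) (p (nat_lit 0x30412) (nat_lit 0) (p (nat_lit 0x30212) (nat_lit 0) (p (nat_lit 0x20192) (nat_lit 0) (p (nat_lit 0x20092) (nat_lit 0) (p (nat_lit 0x10012) (nat_lit 0) pn))))))))))))))))))))))))))))))) :=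
  Cl.node (nat_lit 0x2680d0b0c0a0b8a) (nat_lit 1) (by decide +kernel) (ClAll.succ ClAll.zero n141)

def n183 : Cl (O (nat_lit 1)) (R (nat_lit 104465))
    (p (nat_lit 0x84014) (nat_lit 1) (p (nat_lit 0x108014) (nat_lit 0) (p (nat_lit 0x10800c) (nat_lit 0) (p (nat_lit 0x100004) (nat_lit 1) (p (nat_lit 0x200004) (nat_lit 0) (p (nat_lit 0x380c2) (nat_lit 0) (p (nat_lit 0x444aa) (nat_lit 7) (p (nat_lit 0xd1) (nat_lit 1) (p (nat_lit 0x111) (nat_lit 1) (p (nat_lit 0x109) (nat_lit 0) (p (nat_lit 0x101) (nat_lit 0) (p (nat_lit 0x119) (nat_lit 0) (p (nat_lit 0xc9) (nat_lit 0) (p (nat_lit 0x89) (nat_lit 1) (p (nat_lit 0x41) (nat_lit 0) (p (nat_lit 0x8078907089a) (nat_lit 0) (p (nat_lit 0x7870886861a) (nat_lit 0) (p (nat_lit 0x800070806078a) (nat_lit 0) (p (nat_lit 0x800068785850a) (nat_lit 0) (p (nat_lit 0x587050682) (nat_lit 0) (p (nat_lit 0x506848402) (nat_lit 0) (p (nat_lit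 0x160014) (nat_lit 0) (p (nat_lit 0x16000c) (nat_lit 0) (p (nat_lit 0x50612) (nat_lit 0) (p (nat_lit 0x40592) (nat_lit 0) (p (nat_lit 0x40492) (nat_lit 0) (p (nat_lit 0x30412) (nat_lit 0) (p (nat_lit 0x30212) (nat_lit 0) (p (nat_lit 0x20192) (nat_lit 0) (p (nat_lit 0x20092) (nat_lit 0) (p (nat_lit 0x10012) (nat_lit 0) pn))))))))))))))))))))))))))))))) :=
  Cl.node (nat_lit 0x8400c) (nat_lit 2) (by decide +kernel) (ClAll.succ (ClAll.succ ClAll.zero n142) s620)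

def n184 : Cl (O (nat_lit 1)) (R (nat_lit 104465))
    (p (nat_lit 0xc9) (nat_lit 0) (p (nat_lit 0xc1) (nat_lit 0) (p (nat_lit 0xb000c) (nat_lit 0) (p (nat_lit 0x100004) (nat_lit 0) (p (nat_lit 0x200004) (nat_lit 0) (p (nat_lit 0x380c2) (nat_lit 1) (p (nat_lit 0x444aa) (nat_lit 7) (p (nat_lit 0xd1) (nat_lit 1) (p (nat_lit 0x111) (nat_lit 1) (p (nat_lit 0x109) (nat_lit 0) (p (nat_lit 0x101) (nat_lit 0) (p (nat_lit 0x119) (nat_lit 0) (p (nat_lit 0xc9) (nat_lit 0) (p (nat_lit 0x89) (nat_lit 1) (p (nat_lit 0x41) (nat_lit 0) (p (nat_lit 0x8078907089a) (nat_lit 0) (p (nat_lit 0x7870886861a) (nat_lit 0) (p (nat_lit 0x800070806078a) (nat_lit 0) (p (nat_lit 0x800068785850a) (nat_lit 0) (p (nat_lit 0x587050682) (nat_lit 0) (p (nat_lit 0x506848402) (nat_lit 0) (p (nat_lit 0x160014) (nat_lit 0) (p (nat_lit 0x16000c) (nat_lit 0) (p (nat_lit 0x50612) (nat_lit 0) (p (nat_lit 0x40592)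 (nat_lit 0) (p (nat_lit 0x40492) (nat_lit 0) (p (nat_lit 0x30412) (nat_lit 0) (p (nat_lit 0x30212) (nat_lit 0) (p (nat_lit 0x20192) (nat_lit 0) (p (nat_lit 0x20092) (nat_lit 0) (p (nat_lit 0x10012) (nat_lit 0) pn))))))))))))))))))))))))))))))) :=
  Cl.node (nat_lit 0x3cc2a) (nat_lit 12) (by decide +kernel) (ClAll.succ (ClAll.succ (ClAll.succ (ClAll.succ (ClAll.succ (ClAll.succ (ClAll.succ (ClAll.succ (ClAll.succ (ClAll.succ (ClAll.succ (ClAll.succ ClAll.zero s624) s625) s626) s627) s628) s629) s630) s631) s632) s633) s634) s635)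

def n185 : Cl (O (nat_lit 1)) (R (nat_lit 104465))
    (p (nat_lit 0xc9) (nat_lit 1) (p (nat_lit 0xc1) (nat_lit 0) (p (nat_lit 0xb000c) (nat_lit 0) (p (nat_lit 0x100004) (nat_lit 0) (p (nat_lit 0x200004) (nat_lit 0) (p (nat_lit 0x380c2) (nat_lit 1) (p (nat_lit 0x444aa) (nat_lit 7) (p (nat_lit 0xd1) (nat_lit 1) (p (nat_lit 0x111) (nat_lit 1) (p (nat_lit 0x109) (nat_lit 0) (p (nat_lit 0x101) (nat_lit 0) (p (nat_lit 0x119) (nat_lit 0) (p (nat_lit 0xc9) (nat_lit 0) (p (nat_lit 0x89) (nat_lit 1) (p (nat_lit 0x41) (nat_lit 0) (p (nat_lit 0x8078907089a) (nat_lit 0) (p (nat_lit 0x7870886861a) (nat_lit 0) (p (nat_lit 0x800070806078a) (nat_lit 0) (p (nat_lit 0x800068785850a) (nat_lit 0) (p (nat_lit 0x587050682) (nat_lit 0) (p (nat_lit 0x506848402) (nat_lit 0) (p (nat_lit 0x160014) (nat_lit 0) (p (nat_lit 0x16000c) (nat_lit 0) (p (nat_lit 0x50612) (nat_lit 0) (p (nat_lit 0x40592)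 (nat_lit 0) (p (nat_lit 0x40492) (nat_lit 0) (p (nat_lit 0x30412) (nat_lit 0) (p (nat_lit 0x30212) (nat_lit 0) (p (nat_lit 0x20192) (nat_lit 0) (p (nat_lit 0x20092) (nat_lit 0) (p (nat_lit 0x10012) (nat_lit 0) pn))))))))))))))))))))))))))))))) :=
  Cl.node (nat_lit 0x119) (nat_lit 2) (by decide +kernel) (ClAll.succ (ClAll.succ ClAll.zero s636) n143)

def n186 : Cl (O (nat_lit 1)) (R (nat_lit 104465))
    (p (nat_lit 0x2680d0a8b89890a) (nat_lit 0) (p (nat_lit 0xb0014) (nat_lit 0) (p (nat_lit 0xb000c) (nat_lit 1) (p (nat_lit 0x100004) (nat_lit 0) (p (nat_lit 0x200004) (nat_lit 0) (p (nat_lit 0x380c2) (nat_lit 1) (p (nat_lit 0x444aa) (nat_lit 7) (p (nat_lit 0xd1) (nat_lit 1) (p (nat_lit 0x111) (nat_lit 1) (p (nat_lit 0x109) (nat_lit 0) (p (nat_lit 0x101) (nat_lit 0) (p (nat_lit 0x119) (nat_lit 0) (p (nat_lit 0xc9) (nat_lit 0) (p (nat_lit 0x89) (nat_lit 1) (p (nat_lit 0x41)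 (nat_lit 0) (p (nat_lit 0x8078907089a) (nat_lit 0) (p (nat_lit 0x7870886861a) (nat_lit 0) (p (nat_lit 0x800070806078a) (nat_lit 0) (p (nat_lit 0x800068785850a) (nat_lit 0) (p (nat_lit 0x587050682) (nat_lit 0) (p (nat_lit 0x506848402) (nat_lit 0) (p (nat_lit 0x160014) (nat_lit 0) (p (nat_lit 0x16000c) (nat_lit 0) (p (nat_lit 0x50612) (nat_lit 0) (p (nat_lit 0x40592) (nat_lit 0) (p (nat_lit 0x40492) (nat_lit 0) (p (nat_lit 0x30412) (nat_lit 0) (p (nat_lit 0x30212) (nat_lit 0) (p (nat_lit 0x20192) (nat_lit 0) (p (nat_lit 0x20092) (nat_lit 0) (p (nat_lit 0x10012) (nat_lit 0) pn))))))))))))))))))))))))))))))) :=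
  Cl.node (nat_lit 0x2680d0b0c0a0b8a) (nat_lit 1) (by decide +kernel) (ClAll.succ ClAll.zero n144)

def n187 : Cl (O (nat_lit 1)) (R (nat_lit 104465))
    (p (nat_lit 0x109) (nat_lit 0) (p (nat_lit 0xc1) (nat_lit 0) (p (nat_lit 0x58014) (nat_lit 0) (p (nat_lit 0xb0014) (nat_lit 0) (p (nat_lit 0x380c2) (nat_lit 0) (p (nat_lit 0x44c2a) (nat_lit 1) (p (nat_lit 0x41) (nat_lit 0) (p (nat_lit 0x200004) (nat_lit 0) (p (nat_lit 0xd1) (nat_lit 0) (p (nat_lit 0x109) (nat_lit 1) (p (nat_lit 0x101) (nat_lit 0) (p (nat_lit 0x119) (nat_lit 0) (p (nat_lit 0xc9) (nat_lit 0) (p (nat_lit 0x89) (nat_lit 1) (p (nat_lit 0x41) (nat_lit 0) (p (nat_lit 0x8078907089a) (nat_lit 0) (p (nat_lit 0x7870886861a) (nat_lit 0) (p (nat_lit 0x800070806078a) (nat_lit 0) (p (nat_lit 0x800068785850a) (nat_lit 0) (p (nat_lit 0x587050682) (nat_lit 0) (p (nat_lit 0x506848402) (nat_lit 0) (p (nat_lit 0x160014)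 (nat_lit 0) (p (nat_lit 0x16000c) (nat_lit 0) (p (nat_lit 0x50612) (nat_lit 0) (p (nat_lit 0x40592) (nat_lit 0) (p (nat_lit 0x40492) (nat_lit 0) (p (nat_lit 0x30412) (nat_lit 0) (p (nat_lit 0x30212) (nat_lit 0) (p (nat_lit 0x20192) (nat_lit 0) (p (nat_lit 0x20092) (nat_lit 0) (p (nat_lit 0x10012) (nat_lit 0) pn))))))))))))))))))))))))))))))) :=
  Cl.node (nat_lit 0x119) (nat_lit 2) (by decide +kernel) (ClAll.succ (ClAll.succ ClAll.zero s670) s671)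

def n188 : Cl (O (nat_lit 1)) (R (nat_lit 104465))
    (p (nat_lit 0xe80d8a8b89890a) (nat_lit 0) (p (nat_lit 0x10800c) (nat_lit 0) (p (nat_lit 0x58014) (nat_lit 1) (p (nat_lit 0xb0014) (nat_lit 0) (p (nat_lit 0x380c2) (nat_lit 0) (p (nat_lit 0x44c2a) (nat_lit 1) (p (nat_lit 0x41) (nat_lit 0) (p (nat_lit 0x200004) (nat_lit 0) (p (nat_lit 0xd1) (nat_lit 0) (p (nat_lit 0x109) (nat_lit 1) (p (nat_lit 0x101) (nat_lit 0) (p (nat_lit 0x119) (nat_lit 0) (p (nat_lit 0xc9) (nat_lit 0) (p (nat_lit 0x89) (nat_lit 1) (p (nat_lit 0x41) (nat_lit 0) (p (nat_lit 0x8078907089a) (nat_lit 0) (p (nat_lit 0x7870886861a) (nat_lit 0) (p (nat_lit 0x800070806078a) (nat_lit 0) (p (nat_lit 0x800068785850a) (nat_lit 0) (p (nat_lit 0x587050682) (nat_lit 0) (p (nat_lit 0x506848402) (nat_lit 0) (p (nat_lit 0x160014) (nat_lit 0) (p (nat_lit 0x16000c) (nat_lit 0) (p (nat_lit 0x50612) (nat_lit 0) (p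 (nat_lit 0x40592) (nat_lit 0) (p (nat_lit 0x40492) (nat_lit 0) (p (nat_lit 0x30412) (nat_lit 0) (p (nat_lit 0x30212) (nat_lit 0) (p (nat_lit 0x20192) (nat_lit 0) (p (nat_lit 0x20092) (nat_lit 0) (p (nat_lit 0x10012) (nat_lit 0) pn))))))))))))))))))))))))))))))) :=
  Cl.node (nat_lit 0xe80d8b0c0a0b8a) (nat_lit 1) (by decide +kernel) (ClAll.succ ClAll.zero n145)

def n189 : Cl (O (nat_lit 1)) (R (nat_lit 104465))
    (p (nat_lit 0x2a8258b0c0a0b8a) (nat_lit 0) (p (nat_lit 0x2a8258a8b89890a) (nat_lit 0) (p (nat_lit 0xb000c) (nat_lit 0) (p (nat_lit 0xb0014) (nat_lit 1) (p (nat_lit 0x380c2) (nat_lit 0) (p (nat_lit 0x44c2a) (nat_lit 1) (p (nat_lit 0x41) (nat_lit 0) (p (nat_lit 0x200004) (nat_lit 0) (p (nat_lit 0xd1) (nat_lit 0) (p (nat_lit 0x109) (nat_lit 1) (p (nat_lit 0x101) (nat_lit 0) (p (nat_lit 0x119) (nat_lit 0) (p (nat_lit 0xc9) (nat_lit 0) (p (nat_lit 0x89) (nat_lit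 1) (p (nat_lit 0x41) (nat_lit 0) (p (nat_lit 0x8078907089a) (nat_lit 0) (p (nat_lit 0x7870886861a) (nat_lit 0) (p (nat_lit 0x800070806078a) (nat_lit 0) (p (nat_lit 0x800068785850a) (nat_lit 0) (p (nat_lit 0x587050682) (nat_lit 0) (p (nat_lit 0x506848402) (nat_lit 0) (p (nat_lit 0x160014) (nat_lit 0) (p (nat_lit 0x16000c) (nat_lit 0) (p (nat_lit 0x50612) (nat_lit 0) (p (nat_lit 0x40592) (nat_lit 0) (p (nat_lit 0x40492) (nat_lit 0) (p (nat_lit 0x30412) (nat_lit 0) (p (nat_lit 0x30212) (nat_lit 0) (p (nat_lit 0x20192) (nat_lit 0) (p (nat_lit 0x20092) (nat_lit 0) (p (nat_lit 0x10012) (nat_lit 0) pn))))))))))))))))))))))))))))))) :=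
  Cl.node (nat_lit 0xb8b0c8a8a1a) (nat_lit 1) (by decide +kernel) (ClAll.succ ClAll.zero n146)

def n190 : Cl (O (nat_lit 1)) (R (nat_lit 104465))
    (p (nat_lit 0xd1) (nat_lit 0) (p (nat_lit 0xc9) (nat_lit 0) (p (nat_lit 0xb000c) (nat_lit 0) (p (nat_lit 0xc1) (nat_lit 0) (p (nat_lit 0x100004) (nat_lit 0) (p (nat_lit 0x200004) (nat_lit 0) (p (nat_lit 0x380c2) (nat_lit 0) (p (nat_lit 0x444aa) (nat_lit 7) (p (nat_lit 0xd1) (nat_lit 1) (p (nat_lit 0x109) (nat_lit 1) (p (nat_lit 0x101) (nat_lit 0) (p (nat_lit 0x119) (nat_lit 0) (p (nat_lit 0xc9) (nat_lit 0) (p (nat_lit 0x89) (nat_lit 1) (p (nat_lit 0x41) (nat_lit 0) (p (nat_lit 0x8078907089a) (nat_lit 0) (p (nat_lit 0x7870886861a) (nat_lit 0) (p (nat_lit 0x800070806078a) (nat_lit 0) (p (nat_lit 0x800068785850a) (nat_lit 0) (p (nat_lit 0x587050682) (nat_lit 0) (p (nat_lit 0x506848402) (nat_lit 0) (p (nat_lit 0x160014) (nat_lit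 0) (p (nat_lit 0x16000c) (nat_lit 0) (p (nat_lit 0x50612) (nat_lit 0) (p (nat_lit 0x40592) (nat_lit 0) (p (nat_lit 0x40492) (nat_lit 0) (p (nat_lit 0x30412) (nat_lit 0) (p (nat_lit 0x30212) (nat_lit 0) (p (nat_lit 0x20192) (nat_lit 0) (p (nat_lit 0x20092) (nat_lit 0) (p (nat_lit 0x10012) (nat_lit 0) pn))))))))))))))))))))))))))))))) :=
  Cl.node (nat_lit 0x44c2a) (nat_lit 12) (by decide +kernel) (ClAll.succ (ClAll.succ (ClAll.succ (ClAll.succ (ClAll.succ (ClAll.succ (ClAll.succ (ClAll.succ (ClAll.succ (ClAll.succ (ClAll.succ (ClAll.succ ClAll.zero s731) s732) s733) s734) s735) s736) s737) s738) s739) s740) s741) s742)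

def n191 : Cl (O (nat_lit 1)) (R (nat_lit 104465))
    (p (nat_lit 0xc1) (nat_lit 0) (p (nat_lit 0x8400c) (nat_lit 0) (p (nat_lit 0x108014) (nat_lit 0) (p (nat_lit 0x10800c) (nat_lit 0) (p (nat_lit 0x100004) (nat_lit 1) (p (nat_lit 0x200004) (nat_lit 0) (p (nat_lit 0x380c2) (nat_lit 0) (p (nat_lit 0x444aa) (nat_lit 7) (p (nat_lit 0xd1) (nat_lit 1) (p (nat_lit 0x109) (nat_lit 1) (p (nat_lit 0x101) (nat_lit 0) (p (nat_lit 0x119) (nat_lit 0) (p (nat_lit 0xc9) (nat_lit 0) (p (nat_lit 0x89) (nat_lit 1) (p (nat_lit 0x41) (nat_lit 0) (p (nat_lit 0x8078907089a) (nat_lit 0) (p (nat_lit 0x7870886861a) (nat_lit 0) (p (nat_lit 0x800070806078a) (nat_lit 0) (p (nat_lit 0x800068785850a) (nat_lit 0) (p (nat_lit 0x587050682) (nat_lit 0) (p (nat_lit 0x506848402) (nat_lit 0) (p (nat_lit 0x160014) (nat_lit 0) (p (nat_lit 0x16000c) (nat_lit 0) (p (nat_lit 0x50612) (nat_lit 0) (p (nat_lit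 0x40592) (nat_lit 0) (p (nat_lit 0x40492) (nat_lit 0) (p (nat_lit 0x30412) (nat_lit 0) (p (nat_lit 0x30212) (nat_lit 0) (p (nat_lit 0x20192) (nat_lit 0) (p (nat_lit 0x20092) (nat_lit 0) (p (nat_lit 0x10012) (nat_lit 0) pn))))))))))))))))))))))))))))))) :=
  Cl.node (nat_lit 0xc9) (nat_lit 2) (by decide +kernel) (ClAll.succ (ClAll.succ ClAll.zero n147) s751)

def n192 : Cl (O (nat_lit 1)) (R (nat_lit 104465))
    (p (nat_lit 0x3cc2a) (nat_lit 0) (p (nat_lit 0xc9) (nat_lit 0) (p (nat_lit 0xc1) (nat_lit 0) (p (nat_lit 0x100004) (nat_lit 0) (p (nat_lit 0x200004) (nat_lit 0) (p (nat_lit 0xb0014) (nat_lit 0) (p (nat_lit 0x380c2) (nat_lit 1) (p (nat_lit 0x444aa) (nat_lit 7) (p (nat_lit 0xd1) (nat_lit 1) (p (nat_lit 0x109) (nat_lit 1) (p (nat_lit 0x101) (nat_lit 0) (p (nat_lit 0x119) (nat_lit 0) (p (nat_lit 0xc9) (nat_lit 0) (p (nat_lit 0x89) (nat_lit 1) (p (nat_lit 0x41) (nat_lit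 0) (p (nat_lit 0x8078907089a) (nat_lit 0) (p (nat_lit 0x7870886861a) (nat_lit 0) (p (nat_lit 0x800070806078a) (nat_lit 0) (p (nat_lit 0x800068785850a) (nat_lit 0) (p (nat_lit 0x587050682) (nat_lit 0) (p (nat_lit 0x506848402) (nat_lit 0) (p (nat_lit 0x160014) (nat_lit 0) (p (nat_lit 0x16000c) (nat_lit 0) (p (nat_lit 0x50612) (nat_lit 0) (p (nat_lit 0x40592) (nat_lit 0) (p (nat_lit 0x40492) (nat_lit 0) (p (nat_lit 0x30412) (nat_lit 0) (p (nat_lit 0x30212) (nat_lit 0) (p (nat_lit 0x20192) (nat_lit 0) (p (nat_lit 0x20092) (nat_lit 0) (p (nat_lit 0x10012) (nat_lit 0) pn))))))))))))))))))))))))))))))) :=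
  Cl.node (nat_lit 0x380c2) (nat_lit 2) (by decide +kernel) (ClAll.succ (ClAll.succ ClAll.zero s757) s758)

def n193 : Cl (O (nat_lit 1)) (R (nat_lit 104465))
    (p (nat_lit 0x3cc2a) (nat_lit 2) (p (nat_lit 0xc9) (nat_lit 0) (p (nat_lit 0xc1) (nat_lit 0) (p (nat_lit 0x100004) (nat_lit 0) (p (nat_lit 0x200004) (nat_lit 0) (p (nat_lit 0xb0014) (nat_lit 0) (p (nat_lit 0x380c2) (nat_lit 1) (p (nat_lit 0x444aa) (nat_lit 7) (p (nat_lit 0xd1) (nat_lit 1) (p (nat_lit 0x109) (nat_lit 1) (p (nat_lit 0x101) (nat_lit 0) (p (nat_lit 0x119) (nat_lit 0) (p (nat_lit 0xc9) (nat_lit 0) (p (nat_lit 0x89) (nat_lit 1) (p (nat_lit 0x41) (nat_lit 0) (p (nat_lit 0x8078907089a) (nat_lit 0) (p (nat_lit 0x7870886861a) (nat_lit 0) (p (nat_lit 0x800070806078a) (nat_lit 0) (p (nat_lit 0x800068785850a) (nat_lit 0) (p (nat_lit 0x587050682) (nat_lit 0) (p (nat_lit 0x506848402) (nat_lit 0) (p (nat_lit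 0x160014) (nat_lit 0) (p (nat_lit 0x16000c) (nat_lit 0) (p (nat_lit 0x50612) (nat_lit 0) (p (nat_lit 0x40592) (nat_lit 0) (p (nat_lit 0x40492) (nat_lit 0) (p (nat_lit 0x30412) (nat_lit 0) (p (nat_lit 0x30212) (nat_lit 0) (p (nat_lit 0x20192) (nat_lit 0) (p (nat_lit 0x20092) (nat_lit 0) (p (nat_lit 0x10012) (nat_lit 0) pn))))))))))))))))))))))))))))))) :=
  Cl.node (nat_lit 0x380c2) (nat_lit 1) (by decide +kernel) (ClAll.succ ClAll.zero n148)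

def n194 : Cl (O (nat_lit 1)) (R (nat_lit 104465))
    (p (nat_lit 0x2680d0b0c0a0b8a) (nat_lit 0) (p (nat_lit 0x2680d0a8b89890a) (nat_lit 0) (p (nat_lit 0x100004) (nat_lit 0) (p (nat_lit 0xb000c) (nat_lit 0) (p (nat_lit 0x1fc004) (nat_lit 0) (p (nat_lit 0xb0014) (nat_lit 1) (p (nat_lit 0x380c2) (nat_lit 1) (p (nat_lit 0x444aa) (nat_lit 7) (p (nat_lit 0xd1) (nat_lit 1) (p (nat_lit 0x109) (nat_lit 1) (p (nat_lit 0x101) (nat_lit 0) (p (nat_lit 0x119) (nat_lit 0) (p (nat_lit 0xc9) (nat_lit 0) (p (nat_lit 0x89) (nat_lit 1) (p (nat_lit 0x41) (nat_lit 0) (p (nat_lit 0x8078907089a) (nat_lit 0) (p (nat_lit 0x7870886861a) (nat_lit 0) (p (nat_lit 0x800070806078a) (nat_lit 0) (p (nat_lit 0x800068785850a) (nat_lit 0) (p (nat_lit 0x587050682) (nat_lit 0) (p (nat_lit 0x506848402) (nat_lit 0) (p (nat_lit 0x160014) (nat_lit 0) (p (nat_lit 0x16000c) (nat_lit 0) (p (nat_lit 0x50612) (nat_lit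 0) (p (nat_lit 0x40592) (nat_lit 0) (p (nat_lit 0x40492) (nat_lit 0) (p (nat_lit 0x30412) (nat_lit 0) (p (nat_lit 0x30212) (nat_lit 0) (p (nat_lit 0x20192) (nat_lit 0) (p (nat_lit 0x20092) (nat_lit 0) (p (nat_lit 0x10012) (nat_lit 0) pn))))))))))))))))))))))))))))))) :=
  Cl.node (nat_lit 0xb8b0c8a8a1a) (nat_lit 1) (by decide +kernel) (ClAll.succ ClAll.zero n149)

def n195 : Cl (O (nat_lit 1)) (R (nat_lit 104465))
    (p (nat_lit 0x2a8258b0c0a0b8a) (nat_lit 0) (p (nat_lit 0x2a8258a8b89890a) (nat_lit 0) (p (nat_lit 0xb000c) (nat_lit 0) (p (nat_lit 0xb0014) (nat_lit 1) (p (nat_lit 0x380c2) (nat_lit 0) (p (nat_lit 0x44c2a) (nat_lit 1) (p (nat_lit 0x109) (nat_lit 1) (p (nat_lit 0x200004) (nat_lit 0) (p (nat_lit 0xd1) (nat_lit 0) (p (nat_lit 0xc1) (nat_lit 0) (p (nat_lit 0x101) (nat_lit 1) (p (nat_lit 0x119) (nat_lit 0) (p (nat_lit 0xc9) (nat_lit 0) (p (nat_lit 0x89) (nat_lit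 1) (p (nat_lit 0x41) (nat_lit 0) (p (nat_lit 0x8078907089a) (nat_lit 0) (p (nat_lit 0x7870886861a) (nat_lit 0) (p (nat_lit 0x800070806078a) (nat_lit 0) (p (nat_lit 0x800068785850a) (nat_lit 0) (p (nat_lit 0x587050682) (nat_lit 0) (p (nat_lit 0x506848402) (nat_lit 0) (p (nat_lit 0x160014) (nat_lit 0) (p (nat_lit 0x16000c) (nat_lit 0) (p (nat_lit 0x50612) (nat_lit 0) (p (nat_lit 0x40592) (nat_lit 0) (p (nat_lit 0x40492) (nat_lit 0) (p (nat_lit 0x30412) (nat_lit 0) (p (nat_lit 0x30212) (nat_lit 0) (p (nat_lit 0x20192) (nat_lit 0) (p (nat_lit 0x20092) (nat_lit 0) (p (nat_lit 0x10012) (nat_lit 0) pn))))))))))))))))))))))))))))))) :=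
  Cl.node (nat_lit 0xb8b0c8a8a1a) (nat_lit 1) (by decide +kernel) (ClAll.succ ClAll.zero n150)

def n196 : Cl (O (nat_lit 1)) (R (nat_lit 104465))
    (p (nat_lit 0xd1) (nat_lit 0) (p (nat_lit 0x100004) (nat_lit 0) (p (nat_lit 0x119) (nat_lit 1) (p (nat_lit 0xc9) (nat_lit 0) (p (nat_lit 0x200004) (nat_lit 0) (p (nat_lit 0xb000c) (nat_lit 0) (p (nat_lit 0x380c2) (nat_lit 0) (p (nat_lit 0x444aa) (nat_lit 7) (p (nat_lit 0xd1) (nat_lit 1) (p (nat_lit 0xc1) (nat_lit 0) (p (nat_lit 0x101) (nat_lit 1) (p (nat_lit 0x119) (nat_lit 0) (p (nat_lit 0xc9) (nat_lit 0) (p (nat_lit 0x89) (nat_lit 1) (p (nat_lit 0x41) (nat_lit 0) (p (nat_lit 0x8078907089a) (nat_lit 0) (p (nat_lit 0x7870886861a) (nat_lit 0) (p (nat_lit 0x800070806078a) (nat_lit 0) (p (nat_lit 0x800068785850a) (nat_lit 0) (p (nat_lit 0x587050682) (nat_lit 0) (p (nat_lit 0x506848402) (nat_lit 0) (p (nat_lit 0x160014) (nat_lit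 0) (p (nat_lit 0x16000c) (nat_lit 0) (p (nat_lit 0x50612) (nat_lit 0) (p (nat_lit 0x40592) (nat_lit 0) (p (nat_lit 0x40492) (nat_lit 0) (p (nat_lit 0x30412) (nat_lit 0) (p (nat_lit 0x30212) (nat_lit 0) (p (nat_lit 0x20192) (nat_lit 0) (p (nat_lit 0x20092) (nat_lit 0) (p (nat_lit 0x10012) (nat_lit 0) pn))))))))))))))))))))))))))))))) :=
  Cl.node (nat_lit 0x4c42a) (nat_lit 12) (by decide +kernel) (ClAll.succ (ClAll.succ (ClAll.succ (ClAll.succ (ClAll.succ (ClAll.succ (ClAll.succ (ClAll.succ (ClAll.succ (ClAll.succ (ClAll.succ (ClAll.succ ClAll.zero s847) s848) s849) s850) s851) s852) s853) s854) s855) s856) s857) s858)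

def n197 : Cl (O (nat_lit 1)) (R (nat_lit 104465))
    (p (nat_lit 0xd1) (nat_lit 0) (p (nat_lit 0xb000c) (nat_lit 0) (p (nat_lit 0x119) (nat_lit 1) (p (nat_lit 0xc9) (nat_lit 0) (p (nat_lit 0x100004) (nat_lit 0) (p (nat_lit 0x200004) (nat_lit 0) (p (nat_lit 0x380c2) (nat_lit 1) (p (nat_lit 0x444aa) (nat_lit 7) (p (nat_lit 0xd1) (nat_lit 1) (p (nat_lit 0xc1) (nat_lit 0) (p (nat_lit 0x101) (nat_lit 1) (p (nat_lit 0x119) (nat_lit 0) (p (nat_lit 0xc9) (nat_lit 0) (p (nat_lit 0x89) (nat_lit 1) (p (nat_lit 0x41) (nat_lit 0) (p (nat_lit 0x8078907089a) (nat_lit 0) (p (nat_lit 0x7870886861a) (nat_lit 0) (p (nat_lit 0x800070806078a) (nat_lit 0) (p (nat_lit 0x800068785850a) (nat_lit 0) (p (nat_lit 0x587050682) (nat_lit 0) (p (nat_lit 0x506848402) (nat_lit 0) (p (nat_lit 0x160014) (nat_lit 0) (p (nat_lit 0x16000c) (nat_lit 0) (p (nat_lit 0x50612) (nat_lit 0) (p (nat_lit 0x40592)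 (nat_lit 0) (p (nat_lit 0x40492) (nat_lit 0) (p (nat_lit 0x30412) (nat_lit 0) (p (nat_lit 0x30212) (nat_lit 0) (p (nat_lit 0x20192) (nat_lit 0) (p (nat_lit 0x20092) (nat_lit 0) (p (nat_lit 0x10012) (nat_lit 0) pn))))))))))))))))))))))))))))))) :=
  Cl.node (nat_lit 0x4c42a) (nat_lit 12) (by decide +kernel) (ClAll.succ (ClAll.succ (ClAll.succ (ClAll.succ (ClAll.succ (ClAll.succ (ClAll.succ (ClAll.succ (ClAll.succ (ClAll.succ (ClAll.succ (ClAll.succ ClAll.zero s865) s866) s867) s868) s869) s870) s871) s872) s873) s874) s875) s876)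

def n198 : Cl (O (nat_lit 1)) (R (nat_lit 104465))
    (p (nat_lit 0x380c2) (nat_lit 0) (p (nat_lit 0x3cc2a) (nat_lit 2) (p (nat_lit 0x109) (nat_lit 0) (p (nat_lit 0x101) (nat_lit 0) (p (nat_lit 0x100004) (nat_lit 0) (p (nat_lit 0x200004) (nat_lit 0) (p (nat_lit 0x380c2) (nat_lit 0) (p (nat_lit 0x444aa) (nat_lit 7) (p (nat_lit 0x111) (nat_lit 1) (p (nat_lit 0xd1) (nat_lit 1) (p (nat_lit 0xc1) (nat_lit 0) (p (nat_lit 0x119) (nat_lit 1) (p (nat_lit 0xc9) (nat_lit 0) (p (nat_lit 0x89) (nat_lit 1) (p (nat_lit 0x41) (nat_lit 0) (p (nat_lit 0x8078907089a) (nat_lit 0) (p (nat_lit 0x7870886861a) (nat_lit 0) (p (nat_lit 0x800070806078a) (nat_lit 0) (p (nat_lit 0x800068785850a) (nat_lit 0) (p (nat_lit 0x587050682) (nat_lit 0) (p (nat_lit 0x506848402) (nat_lit 0) (p (nat_lit 0x160014) (nat_lit 0) (p (nat_lit 0x16000c) (nat_lit 0) (p (nat_lit 0x50612) (nat_lit 0) (p (nat_lit 0x40592)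 (nat_lit 0) (p (nat_lit 0x40492) (nat_lit 0) (p (nat_lit 0x30412) (nat_lit 0) (p (nat_lit 0x30212) (nat_lit 0) (p (nat_lit 0x20192) (nat_lit 0) (p (nat_lit 0x20092) (nat_lit 0) (p (nat_lit 0x10012) (nat_lit 0) pn))))))))))))))))))))))))))))))) :=
  Cl.node (nat_lit 0xb000c) (nat_lit 2) (by decide +kernel) (ClAll.succ (ClAll.succ ClAll.zero n151) s902)

def n199 : Cl (O (nat_lit 1)) (R (nat_lit 104465))
    (p (nat_lit 0x134014) (nat_lit 0) (p (nat_lit 0x13400c) (nat_lit 0) (p (nat_lit 0x80004) (nat_lit 1) (p (nat_lit 0x109) (nat_lit 0) (p (nat_lit 0x100004) (nat_lit 0) (p (nat_lit 0x200004) (nat_lit 0) (p (nat_lit 0x380c2) (nat_lit 1) (p (nat_lit 0x444aa) (nat_lit 7) (p (nat_lit 0x111) (nat_lit 1) (p (nat_lit 0xd1) (nat_lit 1) (p (nat_lit 0xc1) (nat_lit 0) (p (nat_lit 0x119) (nat_lit 1) (p (nat_lit 0xc9) (nat_lit 0) (p (nat_lit 0x89) (nat_lit 1) (p (nat_lit 0x41) (nat_lit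 0) (p (nat_lit 0x8078907089a) (nat_lit 0) (p (nat_lit 0x7870886861a) (nat_lit 0) (p (nat_lit 0x800070806078a) (nat_lit 0) (p (nat_lit 0x800068785850a) (nat_lit 0) (p (nat_lit 0x587050682) (nat_lit 0) (p (nat_lit 0x506848402) (nat_lit 0) (p (nat_lit 0x160014) (nat_lit 0) (p (nat_lit 0x16000c) (nat_lit 0) (p (nat_lit 0x50612) (nat_lit 0) (p (nat_lit 0x40592) (nat_lit 0) (p (nat_lit 0x40492) (nat_lit 0) (p (nat_lit 0x30412) (nat_lit 0) (p (nat_lit 0x30212) (nat_lit 0) (p (nat_lit 0x20192) (nat_lit 0) (p (nat_lit 0x20092) (nat_lit 0) (p (nat_lit 0x10012) (nat_lit 0) pn))))))))))))))))))))))))))))))) :=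
  Cl.node (nat_lit 0x101) (nat_lit 2) (by decide +kernel) (ClAll.succ (ClAll.succ ClAll.zero s919) s920)

def n200 : Cl (O (nat_lit 1)) (R (nat_lit 104465))
    (p (nat_lit 0xb8b0c8a8a1a) (nat_lit 0) (p (nat_lit 0x2a8258b0c0a0b8a) (nat_lit 0) (p (nat_lit 0x2a8258a8b89890a) (nat_lit 0) (p (nat_lit 0xb000c) (nat_lit 0) (p (nat_lit 0x1fc004) (nat_lit 0) (p (nat_lit 0xb0014) (nat_lit 1) (p (nat_lit 0x380c2) (nat_lit 0) (p (nat_lit 0x444aa) (nat_lit 7) (p (nat_lit 0x111) (nat_lit 1) (p (nat_lit 0x101) (nat_lit 0) (p (nat_lit 0xc1) (nat_lit 1) (p (nat_lit 0x119) (nat_lit 1) (p (nat_lit 0xc9) (nat_lit 0) (p (nat_lit 0x89) (nat_lit 1) (p (nat_lit 0x41) (nat_lit 0) (p (nat_lit 0x8078907089a) (nat_lit 0) (p (nat_lit 0x7870886861a) (nat_lit 0) (p (nat_lit 0x800070806078a) (nat_lit 0) (p (nat_lit 0x800068785850a) (nat_lit 0) (p (nat_lit 0x587050682) (nat_lit 0) (p (nat_lit 0x506848402)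 (nat_lit 0) (p (nat_lit 0x160014) (nat_lit 0) (p (nat_lit 0x16000c) (nat_lit 0) (p (nat_lit 0x50612) (nat_lit 0) (p (nat_lit 0x40592) (nat_lit 0) (p (nat_lit 0x40492) (nat_lit 0) (p (nat_lit 0x30412) (nat_lit 0) (p (nat_lit 0x30212) (nat_lit 0) (p (nat_lit 0x20192) (nat_lit 0) (p (nat_lit 0x20092) (nat_lit 0) (p (nat_lit 0x10012) (nat_lit 0) pn))))))))))))))))))))))))))))))) :=
  Cl.node (nat_lit 0xc0b8d0b0c9a) (nat_lit 1) (by decide +kernel) (ClAll.succ ClAll.zero n152)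

def n201 : Cl (O (nat_lit 1)) (R (nat_lit 104465))
    (p (nat_lit 0x111) (nat_lit 1) (p (nat_lit 0xb0014) (nat_lit 0) (p (nat_lit 0xd1) (nat_lit 1) (p (nat_lit 0x100004) (nat_lit 0) (p (nat_lit 0x200004) (nat_lit 0) (p (nat_lit 0x380c2) (nat_lit 0) (p (nat_lit 0x4c42a) (nat_lit 10) (p (nat_lit 0xc9) (nat_lit 0) (p (nat_lit 0x89) (nat_lit 1) (p (nat_lit 0xc1) (nat_lit 0) (p (nat_lit 0x101) (nat_lit 1) (p (nat_lit 0x119) (nat_lit 0) (p (nat_lit 0xd1) (nat_lit 0) (p (nat_lit 0x81) (nat_lit 0) (p (nat_lit 0x41) (nat_lit 1) (p (nat_lit 0x8078907089a) (nat_lit 0) (p (nat_lit 0x7870886861a) (nat_lit 0) (p (nat_lit 0x800070806078a) (nat_lit 0) (p (nat_lit 0x800068785850a) (nat_lit 0) (p (nat_lit 0x587050682) (nat_lit 0) (p (nat_lit 0x506848402) (nat_lit 0) (p (nat_lit 0x160014) (nat_lit 0) (p (nat_lit 0x16000c) (nat_lit 0) (p (nat_lit 0x50612) (nat_lit 0) (p (nat_lit 0x40592)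 (nat_lit 0) (p (nat_lit 0x40492) (nat_lit 0) (p (nat_lit 0x30412) (nat_lit 0) (p (nat_lit 0x30212) (nat_lit 0) (p (nat_lit 0x20192) (nat_lit 0) (p (nat_lit 0x20092) (nat_lit 0) (p (nat_lit 0x10012) (nat_lit 0) pn))))))))))))))))))))))))))))))) :=
  Cl.node (nat_lit 0xd1) (nat_lit 2) (by decide +kernel) (ClAll.succ (ClAll.succ ClAll.zero s1124) n153)

def n202 : Cl (O (nat_lit 1)) (R (nat_lit 104465))
    (p (nat_lit 0x111) (nat_lit 0) (p (nat_lit 0xc9) (nat_lit 1) (p (nat_lit 0x109) (nat_lit 1) (p (nat_lit 0x101) (nat_lit 0) (p (nat_lit 0xb000c) (nat_lit 0) (p (nat_lit 0xb0014) (nat_lit 0) (p (nat_lit 0x380c2) (nat_lit 0) (p (nat_lit 0x3cc2a) (nat_lit 2) (p (nat_lit 0x89) (nat_lit 0) (p (nat_lit 0xc1) (nat_lit 1) (p (nat_lit 0x101) (nat_lit 1) (p (nat_lit 0x119) (nat_lit 0) (p (nat_lit 0xd1) (nat_lit 0) (p (nat_lit 0x81) (nat_lit 0) (p (nat_lit 0x41) (nat_lit 1) (p (nat_lit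 0x8078907089a) (nat_lit 0) (p (nat_lit 0x7870886861a) (nat_lit 0) (p (nat_lit 0x800070806078a) (nat_lit 0) (p (nat_lit 0x800068785850a) (nat_lit 0) (p (nat_lit 0x587050682) (nat_lit 0) (p (nat_lit 0x506848402) (nat_lit 0) (p (nat_lit 0x160014) (nat_lit 0) (p (nat_lit 0x16000c) (nat_lit 0) (p (nat_lit 0x50612) (nat_lit 0) (p (nat_lit 0x40592) (nat_lit 0) (p (nat_lit 0x40492) (nat_lit 0) (p (nat_lit 0x30412) (nat_lit 0) (p (nat_lit 0x30212) (nat_lit 0) (p (nat_lit 0x20192) (nat_lit 0) (p (nat_lit 0x20092) (nat_lit 0) (p (nat_lit 0x10012) (nat_lit 0) pn))))))))))))))))))))))))))))))) :=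
  Cl.node (nat_lit 0x109) (nat_lit 2) (by decide +kernel) (ClAll.succ (ClAll.succ ClAll.zero n154) n155)

def n203 : Cl (O (nat_lit 1)) (R (nat_lit 104465))
    (p (nat_lit 0x111) (nat_lit 1) (p (nat_lit 0xc9) (nat_lit 1) (p (nat_lit 0x109) (nat_lit 1) (p (nat_lit 0x101) (nat_lit 0) (p (nat_lit 0xb000c) (nat_lit 0) (p (nat_lit 0xb0014) (nat_lit 0) (p (nat_lit 0x380c2) (nat_lit 0) (p (nat_lit 0x3cc2a) (nat_lit 2) (p (nat_lit 0x89) (nat_lit 0) (p (nat_lit 0xc1) (nat_lit 1) (p (nat_lit 0x101) (nat_lit 1) (p (nat_lit 0x119) (nat_lit 0) (p (nat_lit 0xd1) (nat_lit 0) (p (nat_lit 0x81) (nat_lit 0) (p (nat_lit 0x41) (nat_lit 1) (p (nat_lit 0x8078907089a) (nat_lit 0) (p (nat_lit 0x7870886861a) (nat_lit 0) (p (nat_lit 0x800070806078a) (nat_lit 0) (p (nat_lit 0x800068785850a) (nat_lit 0) (p (nat_lit 0x587050682) (nat_lit 0) (p (nat_lit 0x506848402) (nat_lit 0) (p (nat_lit 0x160014)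 (nat_lit 0) (p (nat_lit 0x16000c) (nat_lit 0) (p (nat_lit 0x50612) (nat_lit 0) (p (nat_lit 0x40592) (nat_lit 0) (p (nat_lit 0x40492) (nat_lit 0) (p (nat_lit 0x30412) (nat_lit 0) (p (nat_lit 0x30212) (nat_lit 0) (p (nat_lit 0x20192) (nat_lit 0) (p (nat_lit 0x20092) (nat_lit 0) (p (nat_lit 0x10012) (nat_lit 0) pn))))))))))))))))))))))))))))))) :=
  Cl.node (nat_lit 0x89) (nat_lit 2) (by decide +kernel) (ClAll.succ (ClAll.succ ClAll.zero s1164) n156)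

def n204 : Cl (O (nat_lit 1)) (R (nat_lit 104465))
    (p (nat_lit 0x2680d0b0c0a0b8a) (nat_lit 0) (p (nat_lit 0x2680d0a8b89890a) (nat_lit 0) (p (nat_lit 0x100004) (nat_lit 0) (p (nat_lit 0x1fc004) (nat_lit 0) (p (nat_lit 0xb000c) (nat_lit 1) (p (nat_lit 0xb0014) (nat_lit 0) (p (nat_lit 0x380c2) (nat_lit 0) (p (nat_lit 0x3cc2a) (nat_lit 2) (p (nat_lit 0x89) (nat_lit 0) (p (nat_lit 0xc1) (nat_lit 1) (p (nat_lit 0x101) (nat_lit 1) (p (nat_lit 0x119) (nat_lit 0) (p (nat_lit 0xd1) (nat_lit 0) (p (nat_lit 0x81) (nat_lit 0) (p (nat_lit 0x41) (nat_lit 1) (p (nat_lit 0x8078907089a) (nat_lit 0) (p (nat_lit 0x7870886861a) (nat_lit 0) (p (nat_lit 0x800070806078a) (nat_lit 0) (p (nat_lit 0x800068785850a) (nat_lit 0) (p (nat_lit 0x587050682) (nat_lit 0) (p (nat_lit 0x506848402) (nat_lit 0) (p (nat_lit 0x160014) (nat_lit 0) (p (nat_lit 0x16000c) (nat_lit 0) (p (nat_lit 0x50612) (nat_lit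 0) (p (nat_lit 0x40592) (nat_lit 0) (p (nat_lit 0x40492) (nat_lit 0) (p (nat_lit 0x30412) (nat_lit 0) (p (nat_lit 0x30212) (nat_lit 0) (p (nat_lit 0x20192) (nat_lit 0) (p (nat_lit 0x20092) (nat_lit 0) (p (nat_lit 0x10012) (nat_lit 0) pn))))))))))))))))))))))))))))))) :=
  Cl.node (nat_lit 0xb8b0c8a8a1a) (nat_lit 1) (by decide +kernel) (ClAll.succ ClAll.zero n157)

def n205 : Cl (O (nat_lit 1)) (R (nat_lit 104465))
    (p (nat_lit 0x4c42a) (nat_lit 10) (p (nat_lit 0xc9) (nat_lit 1) (p (nat_lit 0x119) (nat_lit 1) (p (nat_lit 0x81) (nat_lit 0) (p (nat_lit 0xb000c) (nat_lit 0) (p (nat_lit 0x380c2) (nat_lit 0) (p (nat_lit 0x3c4aa) (nat_lit 8) (p (nat_lit 0x109) (nat_lit 1) (p (nat_lit 0x89) (nat_lit 1) (p (nat_lit 0x101) (nat_lit 0) (p (nat_lit 0xc1) (nat_lit 1) (p (nat_lit 0x119) (nat_lit 1) (p (nat_lit 0xd1) (nat_lit 0) (p (nat_lit 0x81) (nat_lit 0) (p (nat_lit 0x41) (nat_lit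 1) (p (nat_lit 0x8078907089a) (nat_lit 0) (p (nat_lit 0x7870886861a) (nat_lit 0) (p (nat_lit 0x800070806078a) (nat_lit 0) (p (nat_lit 0x800068785850a) (nat_lit 0) (p (nat_lit 0x587050682) (nat_lit 0) (p (nat_lit 0x506848402) (nat_lit 0) (p (nat_lit 0x160014) (nat_lit 0) (p (nat_lit 0x16000c) (nat_lit 0) (p (nat_lit 0x50612) (nat_lit 0) (p (nat_lit 0x40592) (nat_lit 0) (p (nat_lit 0x40492) (nat_lit 0) (p (nat_lit 0x30412) (nat_lit 0) (p (nat_lit 0x30212) (nat_lit 0) (p (nat_lit 0x20192) (nat_lit 0) (p (nat_lit 0x20092) (nat_lit 0) (p (nat_lit 0x10012) (nat_lit 0) pn))))))))))))))))))))))))))))))) :=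
  Cl.node (nat_lit 0x380c2) (nat_lit 2) (by decide +kernel) (ClAll.succ (ClAll.succ ClAll.zero s1296) s1297)

def n206 : Cl (O (nat_lit 1)) (R (nat_lit 104465))
    (p (nat_lit 0x2a8258b0c0a0b8a) (nat_lit 0) (p (nat_lit 0x2a8258a8b89890a) (nat_lit 0) (p (nat_lit 0xb0014) (nat_lit 0) (p (nat_lit 0x1fc004) (nat_lit 0) (p (nat_lit 0xb000c) (nat_lit 1) (p (nat_lit 0x380c2) (nat_lit 0) (p (nat_lit 0x3c4aa) (nat_lit 8) (p (nat_lit 0x109) (nat_lit 1) (p (nat_lit 0x89) (nat_lit 1) (p (nat_lit 0x101) (nat_lit 0) (p (nat_lit 0xc1) (nat_lit 1) (p (nat_lit 0x119) (nat_lit 1) (p (nat_lit 0xd1) (nat_lit 0) (p (nat_lit 0x81) (nat_lit 0) (p (nat_lit 0x41) (nat_lit 1) (p (nat_lit 0x8078907089a) (nat_lit 0) (p (nat_lit 0x7870886861a) (nat_lit 0) (p (nat_lit 0x800070806078a) (nat_lit 0) (p (nat_lit 0x800068785850a) (nat_lit 0) (p (nat_lit 0x587050682) (nat_lit 0) (p (nat_lit 0x506848402)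 (nat_lit 0) (p (nat_lit 0x160014) (nat_lit 0) (p (nat_lit 0x16000c) (nat_lit 0) (p (nat_lit 0x50612) (nat_lit 0) (p (nat_lit 0x40592) (nat_lit 0) (p (nat_lit 0x40492) (nat_lit 0) (p (nat_lit 0x30412) (nat_lit 0) (p (nat_lit 0x30212) (nat_lit 0) (p (nat_lit 0x20192) (nat_lit 0) (p (nat_lit 0x20092) (nat_lit 0) (p (nat_lit 0x10012) (nat_lit 0) pn))))))))))))))))))))))))))))))) :=
  Cl.node (nat_lit 0xb8b0c8a8a1a) (nat_lit 1) (by decide +kernel) (ClAll.succ ClAll.zero n158)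

def n207 : Cl (O (nat_lit 1)) (R (nat_lit 104465))
    (p (nat_lit 0x41) (nat_lit 0) (p (nat_lit 0x109) (nat_lit 1) (p (nat_lit 0x100004) (nat_lit 0) (p (nat_lit 0x200004) (nat_lit 0) (p (nat_lit 0x380c2) (nat_lit 1) (p (nat_lit 0x4c42a) (nat_lit 10) (p (nat_lit 0x119) (nat_lit 0) (p (nat_lit 0xc9) (nat_lit 0) (p (nat_lit 0x89) (nat_lit 1) (p (nat_lit 0x109) (nat_lit 1) (p (nat_lit 0x101) (nat_lit 0) (p (nat_lit 0x111) (nat_lit 0) (p (nat_lit 0xd1) (nat_lit 1) (p (nat_lit 0x81) (nat_lit 0) (p (nat_lit 0x41) (nat_lit 1) (p (nat_lit 0x8078907089a) (nat_lit 0) (p (nat_lit 0x7870886861a) (nat_lit 0) (p (nat_lit 0x800070806078a) (nat_lit 0) (p (nat_lit 0x800068785850a) (nat_lit 0) (p (nat_lit 0x587050682) (nat_lit 0) (p (nat_lit 0x506848402) (nat_lit 0) (p (nat_lit 0x160014) (nat_lit 0) (p (nat_lit 0x16000c) (nat_lit 0) (p (nat_lit 0x50612) (nat_lit 0) (p (nat_lit 0x40592)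 (nat_lit 0) (p (nat_lit 0x40492) (nat_lit 0) (p (nat_lit 0x30412) (nat_lit 0) (p (nat_lit 0x30212) (nat_lit 0) (p (nat_lit 0x20192) (nat_lit 0) (p (nat_lit 0x20092) (nat_lit 0) (p (nat_lit 0x10012) (nat_lit 0) pn))))))))))))))))))))))))))))))) :=
  Cl.node (nat_lit 0x444aa) (nat_lit 12) (by decide +kernel) (ClAll.succ (ClAll.succ (ClAll.succ (ClAll.succ (ClAll.succ (ClAll.succ (ClAll.succ (ClAll.succ (ClAll.succ (ClAll.succ (ClAll.succ (ClAll.succ ClAll.zero s1389) s1390) s1391) s1392) s1393) s1394) s1395) n159) s1398) s1399) s1400) s1401)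

def n208 : Cl (O (nat_lit 1)) (R (nat_lit 104465))
    (p (nat_lit 0xc9) (nat_lit 1) (p (nat_lit 0xb0014) (nat_lit 0) (p (nat_lit 0x100004) (nat_lit 0) (p (nat_lit 0x200004) (nat_lit 0) (p (nat_lit 0x380c2) (nat_lit 0) (p (nat_lit 0x4c42a) (nat_lit 10) (p (nat_lit 0x119) (nat_lit 1) (p (nat_lit 0xc9) (nat_lit 0) (p (nat_lit 0x89) (nat_lit 1) (p (nat_lit 0x109) (nat_lit 1) (p (nat_lit 0x101) (nat_lit 0) (p (nat_lit 0x111) (nat_lit 0) (p (nat_lit 0xd1) (nat_lit 1) (p (nat_lit 0x81) (nat_lit 0) (p (nat_lit 0x41) (nat_lit 1) (p (nat_lit 0x8078907089a) (nat_lit 0) (p (nat_lit 0x7870886861a) (nat_lit 0) (p (nat_lit 0x800070806078a) (nat_lit 0) (p (nat_lit 0x800068785850a) (nat_lit 0) (p (nat_lit 0x587050682) (nat_lit 0) (p (nat_lit 0x506848402) (nat_lit 0) (p (nat_lit 0x160014) (nat_lit 0) (p (nat_lit 0x16000c) (nat_lit 0) (p (nat_lit 0x50612) (nat_lit 0) (p (nat_lit 0x40592)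 (nat_lit 0) (p (nat_lit 0x40492) (nat_lit 0) (p (nat_lit 0x30412) (nat_lit 0) (p (nat_lit 0x30212) (nat_lit 0) (p (nat_lit 0x20192) (nat_lit 0) (p (nat_lit 0x20092) (nat_lit 0) (p (nat_lit 0x10012) (nat_lit 0) pn))))))))))))))))))))))))))))))) :=
  Cl.node (nat_lit 0x43caa) (nat_lit 12) (by decide +kernel) (ClAll.succ (ClAll.succ (ClAll.succ (ClAll.succ (ClAll.succ (ClAll.succ (ClAll.succ (ClAll.succ (ClAll.succ (ClAll.succ (ClAll.succ (ClAll.succ ClAll.zero s1417) s1418) s1419) s1420) s1421) s1422) n160) s1450) s1451) s1452) s1453) s1454)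

def n209 : Cl (O (nat_lit 1)) (R (nat_lit 104465))
    (p (nat_lit 0x380c2) (nat_lit 0) (p (nat_lit 0x3cc2a) (nat_lit 2) (p (nat_lit 0x100004) (nat_lit 0) (p (nat_lit 0x200004) (nat_lit 0) (p (nat_lit 0x380c2) (nat_lit 1) (p (nat_lit 0x4c42a) (nat_lit 10) (p (nat_lit 0x119) (nat_lit 1) (p (nat_lit 0xc9) (nat_lit 0) (p (nat_lit 0x89) (nat_lit 1) (p (nat_lit 0x109) (nat_lit 1) (p (nat_lit 0x101) (nat_lit 0) (p (nat_lit 0x111) (nat_lit 0) (p (nat_lit 0xd1) (nat_lit 1) (p (nat_lit 0x81) (nat_lit 0) (p (nat_lit 0x41) (nat_lit 1) (p (nat_lit 0x8078907089a) (nat_lit 0) (p (nat_lit 0x7870886861a) (nat_lit 0) (p (nat_lit 0x800070806078a) (nat_lit 0) (p (nat_lit 0x800068785850a) (nat_lit 0) (p (nat_lit 0x587050682) (nat_lit 0) (p (nat_lit 0x506848402) (nat_lit 0) (p (nat_lit 0x160014) (nat_lit 0) (p (nat_lit 0x16000c) (nat_lit 0) (p (nat_lit 0x50612) (nat_lit 0) (p (nat_lit 0x40592)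 (nat_lit 0) (p (nat_lit 0x40492) (nat_lit 0) (p (nat_lit 0x30412) (nat_lit 0) (p (nat_lit 0x30212) (nat_lit 0) (p (nat_lit 0x20192) (nat_lit 0) (p (nat_lit 0x20092) (nat_lit 0) (p (nat_lit 0x10012) (nat_lit 0) pn))))))))))))))))))))))))))))))) :=
  Cl.node (nat_lit 0xb0014) (nat_lit 2) (by decide +kernel) (ClAll.succ (ClAll.succ ClAll.zero n161) s1469)

def n210 : Cl (O (nat_lit 1)) (R (nat_lit 104465))
    (p (nat_lit 0x108014) (nat_lit 0) (p (nat_lit 0x10800c) (nat_lit 0) (p (nat_lit 0x100004) (nat_lit 1) (p (nat_lit 0x200004) (nat_lit 0) (p (nat_lit 0x380c2) (nat_lit 1) (p (nat_lit 0x4c42a) (nat_lit 10) (p (nat_lit 0x119) (nat_lit 1) (p (nat_lit 0xc9) (nat_lit 0) (p (nat_lit 0x89) (nat_lit 1) (p (nat_lit 0x109) (nat_lit 1) (p (nat_lit 0x101) (nat_lit 0) (p (nat_lit 0x111) (nat_lit 0) (p (nat_lit 0xd1) (nat_lit 1) (p (nat_lit 0x81) (nat_lit 0) (p (nat_lit 0x41) (nat_lit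 1) (p (nat_lit 0x8078907089a) (nat_lit 0) (p (nat_lit 0x7870886861a) (nat_lit 0) (p (nat_lit 0x800070806078a) (nat_lit 0) (p (nat_lit 0x800068785850a) (nat_lit 0) (p (nat_lit 0x587050682) (nat_lit 0) (p (nat_lit 0x506848402) (nat_lit 0) (p (nat_lit 0x160014) (nat_lit 0) (p (nat_lit 0x16000c) (nat_lit 0) (p (nat_lit 0x50612) (nat_lit 0) (p (nat_lit 0x40592) (nat_lit 0) (p (nat_lit 0x40492) (nat_lit 0) (p (nat_lit 0x30412) (nat_lit 0) (p (nat_lit 0x30212) (nat_lit 0) (p (nat_lit 0x20192) (nat_lit 0) (p (nat_lit 0x20092) (nat_lit 0) (p (nat_lit 0x10012) (nat_lit 0) pn))))))))))))))))))))))))))))))) :=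
  Cl.node (nat_lit 0x8400c) (nat_lit 2) (by decide +kernel) (ClAll.succ (ClAll.succ ClAll.zero s1479) s1480)

def n211 : Cl (O (nat_lit 1)) (R (nat_lit 104465))
    (p (nat_lit 0x109) (nat_lit 1) (p (nat_lit 0x111) (nat_lit 0) (p (nat_lit 0xb000c) (nat_lit 0) (p (nat_lit 0x101) (nat_lit 0) (p (nat_lit 0xd1) (nat_lit 0) (p (nat_lit 0xb0014) (nat_lit 0) (p (nat_lit 0x380c2) (nat_lit 0) (p (nat_lit 0x3cc2a) (nat_lit 2) (p (nat_lit 0xc9) (nat_lit 0) (p (nat_lit 0x89) (nat_lit 1) (p (nat_lit 0x101) (nat_lit 1) (p (nat_lit 0x111) (nat_lit 0) (p (nat_lit 0xd1) (nat_lit 1) (p (nat_lit 0x81) (nat_lit 0) (p (nat_lit 0x41) (nat_lit 1) (p (nat_lit 0x8078907089a) (nat_lit 0) (p (nat_lit 0x7870886861a) (nat_lit 0) (p (nat_lit 0x800070806078a) (nat_lit 0) (p (nat_lit 0x800068785850a) (nat_lit 0) (p (nat_lit 0x587050682) (nat_lit 0) (p (nat_lit 0x506848402) (nat_lit 0) (p (nat_lit 0x160014)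 (nat_lit 0) (p (nat_lit 0x16000c) (nat_lit 0) (p (nat_lit 0x50612) (nat_lit 0) (p (nat_lit 0x40592) (nat_lit 0) (p (nat_lit 0x40492) (nat_lit 0) (p (nat_lit 0x30412) (nat_lit 0) (p (nat_lit 0x30212) (nat_lit 0) (p (nat_lit 0x20192) (nat_lit 0) (p (nat_lit 0x20092) (nat_lit 0) (p (nat_lit 0x10012) (nat_lit 0) pn))))))))))))))))))))))))))))))) :=
  Cl.node (nat_lit 0x119) (nat_lit 2) (by decide +kernel) (ClAll.succ (ClAll.succ ClAll.zero n162) s1528)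

def n212 : Cl (O (nat_lit 1)) (R (nat_lit 104465))
    (p (nat_lit 0x2a8258a8b89890a) (nat_lit 0) (p (nat_lit 0x1fc004) (nat_lit 0) (p (nat_lit 0xb000c) (nat_lit 1) (p (nat_lit 0x101) (nat_lit 0) (p (nat_lit 0xd1) (nat_lit 0) (p (nat_lit 0xb0014) (nat_lit 0) (p (nat_lit 0x380c2) (nat_lit 0) (p (nat_lit 0x3cc2a) (nat_lit 2) (p (nat_lit 0xc9) (nat_lit 0) (p (nat_lit 0x89) (nat_lit 1) (p (nat_lit 0x101) (nat_lit 1) (p (nat_lit 0x111) (nat_lit 0) (p (nat_lit 0xd1) (nat_lit 1) (p (nat_lit 0x81) (nat_lit 0) (p (nat_lit 0x41) (nat_lit 1) (p (nat_lit 0x8078907089a) (nat_lit 0) (p (nat_lit 0x7870886861a) (nat_lit 0) (p (nat_lit 0x800070806078a) (nat_lit 0) (p (nat_lit 0x800068785850a) (nat_lit 0) (p (nat_lit 0x587050682) (nat_lit 0) (p (nat_lit 0x506848402) (nat_lit 0) (p (nat_lit 0x160014) (nat_lit 0) (p (nat_lit 0x16000c) (nat_lit 0) (p (nat_lit 0x50612) (nat_lit 0) (p (nat_lit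 0x40592) (nat_lit 0) (p (nat_lit 0x40492) (nat_lit 0) (p (nat_lit 0x30412) (nat_lit 0) (p (nat_lit 0x30212) (nat_lit 0) (p (nat_lit 0x20192) (nat_lit 0) (p (nat_lit 0x20092) (nat_lit 0) (p (nat_lit 0x10012) (nat_lit 0) pn))))))))))))))))))))))))))))))) :=
  Cl.node (nat_lit 0x2a8258b0c0a0b8a) (nat_lit 1) (by decide +kernel) (ClAll.succ ClAll.zero n163)

def n213 : Cl (O (nat_lit 1)) (R (nat_lit 104465))
    (p (nat_lit 0xb8b0c8a8a1a) (nat_lit 0) (p (nat_lit 0x2a8258b0c0a0b8a) (nat_lit 0) (p (nat_lit 0x2a8258a8b89890a) (nat_lit 0) (p (nat_lit 0xb0014) (nat_lit 0) (p (nat_lit 0x1fc004) (nat_lit 0) (p (nat_lit 0xb000c) (nat_lit 1) (p (nat_lit 0x380c2) (nat_lit 0) (p (nat_lit 0x44c2a) (nat_lit 1) (p (nat_lit 0xd1) (nat_lit 0) (p (nat_lit 0xc9) (nat_lit 0) (p (nat_lit 0x101) (nat_lit 1) (p (nat_lit 0x119) (nat_lit 0) (p (nat_lit 0xc1) (nat_lit 0) (p (nat_lit 0x81) (nat_lit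 1) (p (nat_lit 0x41) (nat_lit 1) (p (nat_lit 0x8078907089a) (nat_lit 0) (p (nat_lit 0x7870886861a) (nat_lit 0) (p (nat_lit 0x800070806078a) (nat_lit 0) (p (nat_lit 0x800068785850a) (nat_lit 0) (p (nat_lit 0x587050682) (nat_lit 0) (p (nat_lit 0x506848402) (nat_lit 0) (p (nat_lit 0x160014) (nat_lit 0) (p (nat_lit 0x16000c) (nat_lit 0) (p (nat_lit 0x50612) (nat_lit 0) (p (nat_lit 0x40592) (nat_lit 0) (p (nat_lit 0x40492) (nat_lit 0) (p (nat_lit 0x30412) (nat_lit 0) (p (nat_lit 0x30212) (nat_lit 0) (p (nat_lit 0x20192) (nat_lit 0) (p (nat_lit 0x20092) (nat_lit 0) (p (nat_lit 0x10012) (nat_lit 0) pn))))))))))))))))))))))))))))))) :=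
  Cl.node (nat_lit 0xc0b8d0b0c9a) (nat_lit 1) (by decide +kernel) (ClAll.succ ClAll.zero n164)

def n214 : Cl (O (nat_lit 1)) (R (nat_lit 104465))
    (p (nat_lit 0x3cc2a) (nat_lit 2) (p (nat_lit 0x81) (nat_lit 0) (p (nat_lit 0x100004) (nat_lit 0) (p (nat_lit 0x200004) (nat_lit 0) (p (nat_lit 0x380c2) (nat_lit 0) (p (nat_lit 0x444aa) (nat_lit 7) (p (nat_lit 0x81) (nat_lit 1) (p (nat_lit 0xc9) (nat_lit 1) (p (nat_lit 0x109) (nat_lit 1) (p (nat_lit 0x101) (nat_lit 0) (p (nat_lit 0x119) (nat_lit 0) (p (nat_lit 0xd1) (nat_lit 0) (p (nat_lit 0x89) (nat_lit 0) (p (nat_lit 0x41) (nat_lit 0) (p (nat_lit 0x8078907089a) (nat_lit 0) (p (nat_lit 0x7870886861a) (nat_lit 0) (p (nat_lit 0x800070806078a) (nat_lit 0) (p (nat_lit 0x800068785850a) (nat_lit 0) (p (nat_lit 0x587050682) (nat_lit 0) (p (nat_lit 0x506848402) (nat_lit 0) (p (nat_lit 0x160014) (nat_lit 0) (p (nat_lit 0x16000c)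 (nat_lit 0) (p (nat_lit 0x50612) (nat_lit 0) (p (nat_lit 0x40592) (nat_lit 0) (p (nat_lit 0x40492) (nat_lit 0) (p (nat_lit 0x30412) (nat_lit 0) (p (nat_lit 0x30212) (nat_lit 0) (p (nat_lit 0x20192) (nat_lit 0) (p (nat_lit 0x20092) (nat_lit 0) (p (nat_lit 0x10012) (nat_lit 0) pn)))))))))))))))))))))))))))))) :=
  Cl.node (nat_lit 0x380c2) (nat_lit 1) (by decide +kernel) (ClAll.succ ClAll.zero n165)

def n215 : Cl (O (nat_lit 1)) (R (nat_lit 104465))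
    (p (nat_lit 0xc1) (nat_lit 0) (p (nat_lit 0x81) (nat_lit 1) (p (nat_lit 0x100004) (nat_lit 0) (p (nat_lit 0x200004) (nat_lit 0) (p (nat_lit 0x380c2) (nat_lit 0) (p (nat_lit 0x444aa) (nat_lit 7) (p (nat_lit 0x81) (nat_lit 1) (p (nat_lit 0xc9) (nat_lit 1) (p (nat_lit 0x109) (nat_lit 1) (p (nat_lit 0x101) (nat_lit 0) (p (nat_lit 0x119) (nat_lit 0) (p (nat_lit 0xd1) (nat_lit 0) (p (nat_lit 0x89) (nat_lit 0) (p (nat_lit 0x41) (nat_lit 0) (p (nat_lit 0x8078907089a) (nat_lit 0) (p (nat_lit 0x7870886861a) (nat_lit 0) (p (nat_lit 0x800070806078a) (nat_lit 0) (p (nat_lit 0x800068785850a) (nat_lit 0) (p (nat_lit 0x587050682) (nat_lit 0) (p (nat_lit 0x506848402) (nat_lit 0) (p (nat_lit 0x160014) (nat_lit 0) (p (nat_lit 0x16000c) (nat_lit 0) (p (nat_lit 0x50612) (nat_lit 0) (p (nat_lit 0x40592) (nat_lit 0) (p (nat_lit 0x40492) (nat_lit 0) (p (nat_lit 0x30412) (nat_lit 0) (p (nat_lit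 0x30212) (nat_lit 0) (p (nat_lit 0x20192) (nat_lit 0) (p (nat_lit 0x20092) (nat_lit 0) (p (nat_lit 0x10012) (nat_lit 0) pn)))))))))))))))))))))))))))))) :=
  Cl.node (nat_lit 0x3cc2a) (nat_lit 12) (by decide +kernel) (ClAll.succ (ClAll.succ (ClAll.succ (ClAll.succ (ClAll.succ (ClAll.succ (ClAll.succ (ClAll.succ (ClAll.succ (ClAll.succ (ClAll.succ (ClAll.succ ClAll.zero s42) s43) n166) s46) s47) s48) s49) s50) s51) s52) s53) s54)

def n216 : Cl (O (nat_lit 1)) (R (nat_lit 104465))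
    (p (nat_lit 0x108014) (nat_lit 0) (p (nat_lit 0x10800c) (nat_lit 0) (p (nat_lit 0x100004) (nat_lit 1) (p (nat_lit 0x200004) (nat_lit 0) (p (nat_lit 0x380c2) (nat_lit 0) (p (nat_lit 0x444aa) (nat_lit 7) (p (nat_lit 0x81) (nat_lit 1) (p (nat_lit 0xc9) (nat_lit 1) (p (nat_lit 0x109) (nat_lit 1) (p (nat_lit 0x101) (nat_lit 0) (p (nat_lit 0x119) (nat_lit 0) (p (nat_lit 0xd1) (nat_lit 0) (p (nat_lit 0x89) (nat_lit 0) (p (nat_lit 0x41) (nat_lit 0) (p (nat_lit 0x8078907089a) (nat_lit 0) (p (nat_lit 0x7870886861a) (nat_lit 0) (p (nat_lit 0x800070806078a) (nat_lit 0) (p (nat_lit 0x800068785850a) (nat_lit 0) (p (nat_lit 0x587050682) (nat_lit 0) (p (nat_lit 0x506848402) (nat_lit 0) (p (nat_lit 0x160014) (nat_lit 0) (p (nat_lit 0x16000c) (nat_lit 0) (p (nat_lit 0x50612) (nat_lit 0) (p (nat_lit 0x40592) (nat_lit 0) (p (nat_lit 0x40492) (nat_lit 0) (p (nat_lit 0x30412) (nat_lit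 0) (p (nat_lit 0x30212) (nat_lit 0) (p (nat_lit 0x20192) (nat_lit 0) (p (nat_lit 0x20092) (nat_lit 0) (p (nat_lit 0x10012) (nat_lit 0) pn)))))))))))))))))))))))))))))) :=
  Cl.node (nat_lit 0x8400c) (nat_lit 2) (by decide +kernel) (ClAll.succ (ClAll.succ ClAll.zero n167) s63)

def n217 : Cl (O (nat_lit 1)) (R (nat_lit 104465))
    (p (nat_lit 0xc1) (nat_lit 0) (p (nat_lit 0x81) (nat_lit 1) (p (nat_lit 0x100004) (nat_lit 0) (p (nat_lit 0x200004) (nat_lit 0) (p (nat_lit 0x380c2) (nat_lit 1) (p (nat_lit 0x444aa) (nat_lit 7) (p (nat_lit 0x81) (nat_lit 1) (p (nat_lit 0xc9) (nat_lit 1) (p (nat_lit 0x109) (nat_lit 1) (p (nat_lit 0x101) (nat_lit 0) (p (nat_lit 0x119) (nat_lit 0) (p (nat_lit 0xd1) (nat_lit 0) (p (nat_lit 0x89) (nat_lit 0) (p (nat_lit 0x41) (nat_lit 0) (p (nat_lit 0x8078907089a) (nat_lit 0) (p (nat_lit 0x7870886861a) (nat_lit 0) (p (nat_lit 0x800070806078a) (nat_lit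 0) (p (nat_lit 0x800068785850a) (nat_lit 0) (p (nat_lit 0x587050682) (nat_lit 0) (p (nat_lit 0x506848402) (nat_lit 0) (p (nat_lit 0x160014) (nat_lit 0) (p (nat_lit 0x16000c) (nat_lit 0) (p (nat_lit 0x50612) (nat_lit 0) (p (nat_lit 0x40592) (nat_lit 0) (p (nat_lit 0x40492) (nat_lit 0) (p (nat_lit 0x30412) (nat_lit 0) (p (nat_lit 0x30212) (nat_lit 0) (p (nat_lit 0x20192) (nat_lit 0) (p (nat_lit 0x20092) (nat_lit 0) (p (nat_lit 0x10012) (nat_lit 0) pn)))))))))))))))))))))))))))))) :=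
  Cl.node (nat_lit 0x3cc2a) (nat_lit 12) (by decide +kernel) (ClAll.succ (ClAll.succ (ClAll.succ (ClAll.succ (ClAll.succ (ClAll.succ (ClAll.succ (ClAll.succ (ClAll.succ (ClAll.succ (ClAll.succ (ClAll.succ ClAll.zero s79) s80) n168) s83) s84) s85) s86) s87) s88) s89) s90) s91)

def n218 : Cl (O (nat_lit 1)) (R (nat_lit 104465))
    (p (nat_lit 0x108014) (nat_lit 0) (p (nat_lit 0x10800c) (nat_lit 0) (p (nat_lit 0x100004) (nat_lit 1) (p (nat_lit 0x200004) (nat_lit 0) (p (nat_lit 0x380c2) (nat_lit 1) (p (nat_lit 0x444aa) (nat_lit 7) (p (nat_lit 0x81) (nat_lit 1) (p (nat_lit 0xc9) (nat_lit 1) (p (nat_lit 0x109) (nat_lit 1) (p (nat_lit 0x101) (nat_lit 0) (p (nat_lit 0x119) (nat_lit 0) (p (nat_lit 0xd1) (nat_lit 0) (p (nat_lit 0x89) (nat_lit 0) (p (nat_lit 0x41) (nat_lit 0) (p (nat_lit 0x8078907089a) (nat_lit 0) (p (nat_lit 0x7870886861a) (nat_lit 0) (p (nat_lit 0x800070806078a)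 (nat_lit 0) (p (nat_lit 0x800068785850a) (nat_lit 0) (p (nat_lit 0x587050682) (nat_lit 0) (p (nat_lit 0x506848402) (nat_lit 0) (p (nat_lit 0x160014) (nat_lit 0) (p (nat_lit 0x16000c) (nat_lit 0) (p (nat_lit 0x50612) (nat_lit 0) (p (nat_lit 0x40592) (nat_lit 0) (p (nat_lit 0x40492) (nat_lit 0) (p (nat_lit 0x30412) (nat_lit 0) (p (nat_lit 0x30212) (nat_lit 0) (p (nat_lit 0x20192) (nat_lit 0) (p (nat_lit 0x20092) (nat_lit 0) (p (nat_lit 0x10012) (nat_lit 0) pn)))))))))))))))))))))))))))))) :=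
  Cl.node (nat_lit 0x84014) (nat_lit 2) (by decide +kernel) (ClAll.succ (ClAll.succ ClAll.zero s93) s94)

def n219 : Cl (O (nat_lit 1)) (R (nat_lit 104465))
    (p (nat_lit 0x4c42a) (nat_lit 10) (p (nat_lit 0x89) (nat_lit 0) (p (nat_lit 0x100004) (nat_lit 0) (p (nat_lit 0x200004) (nat_lit 0) (p (nat_lit 0x380c2) (nat_lit 0) (p (nat_lit 0x444aa) (nat_lit 7) (p (nat_lit 0x111) (nat_lit 0) (p (nat_lit 0xc9) (nat_lit 1) (p (nat_lit 0x81) (nat_lit 0) (p (nat_lit 0x101) (nat_lit 1) (p (nat_lit 0x119) (nat_lit 0) (p (nat_lit 0xd1) (nat_lit 0) (p (nat_lit 0x89) (nat_lit 0) (p (nat_lit 0x41) (nat_lit 0) (p (nat_lit 0x8078907089a) (nat_lit 0) (p (nat_lit 0x7870886861a) (nat_lit 0) (p (nat_lit 0x800070806078a) (nat_lit 0) (p (nat_lit 0x800068785850a) (nat_lit 0) (p (nat_lit 0x587050682) (nat_lit 0) (p (nat_lit 0x506848402) (nat_lit 0) (p (nat_lit 0x160014) (nat_lit 0) (p (nat_lit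 0x16000c) (nat_lit 0) (p (nat_lit 0x50612) (nat_lit 0) (p (nat_lit 0x40592) (nat_lit 0) (p (nat_lit 0x40492) (nat_lit 0) (p (nat_lit 0x30412) (nat_lit 0) (p (nat_lit 0x30212) (nat_lit 0) (p (nat_lit 0x20192) (nat_lit 0) (p (nat_lit 0x20092) (nat_lit 0) (p (nat_lit 0x10012) (nat_lit 0) pn)))))))))))))))))))))))))))))) :=
  Cl.node (nat_lit 0x380c2) (nat_lit 2) (by decide +kernel) (ClAll.succ (ClAll.succ ClAll.zero s133) s134)

def n220 : Cl (O (nat_lit 1)) (R (nat_lit 104465))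
    (p (nat_lit 0xc9) (nat_lit 0) (p (nat_lit 0x89) (nat_lit 1) (p (nat_lit 0x100004) (nat_lit 0) (p (nat_lit 0x200004) (nat_lit 0) (p (nat_lit 0x380c2) (nat_lit 0) (p (nat_lit 0x444aa) (nat_lit 7) (p (nat_lit 0x111) (nat_lit 0) (p (nat_lit 0xc9) (nat_lit 1) (p (nat_lit 0x81) (nat_lit 0) (p (nat_lit 0x101) (nat_lit 1) (p (nat_lit 0x119) (nat_lit 0) (p (nat_lit 0xd1) (nat_lit 0) (p (nat_lit 0x89) (nat_lit 0) (p (nat_lit 0x41) (nat_lit 0) (p (nat_lit 0x8078907089a) (nat_lit 0) (p (nat_lit 0x7870886861a) (nat_lit 0) (p (nat_lit 0x800070806078a) (nat_lit 0) (p (nat_lit 0x800068785850a) (nat_lit 0) (p (nat_lit 0x587050682) (nat_lit 0) (p (nat_lit 0x506848402) (nat_lit 0) (p (nat_lit 0x160014) (nat_lit 0) (p (nat_lit 0x16000c) (nat_lit 0) (p (nat_lit 0x50612) (nat_lit 0) (p (nat_lit 0x40592) (nat_lit 0) (p (nat_lit 0x40492) (nat_lit 0) (p (nat_lit 0x30412) (nat_lit 0) (p (nat_lit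 0x30212) (nat_lit 0) (p (nat_lit 0x20192) (nat_lit 0) (p (nat_lit 0x20092) (nat_lit 0) (p (nat_lit 0x10012) (nat_lit 0) pn)))))))))))))))))))))))))))))) :=
  Cl.node (nat_lit 0x4c42a) (nat_lit 12) (by decide +kernel) (ClAll.succ (ClAll.succ (ClAll.succ (ClAll.succ (ClAll.succ (ClAll.succ (ClAll.succ (ClAll.succ (ClAll.succ (ClAll.succ (ClAll.succ (ClAll.succ ClAll.zero s136) s137) s138) s139) s140) s141) s142) s143) s144) s145) s146) s147)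

def n221 : Cl (O (nat_lit 1)) (R (nat_lit 104465))
    (p (nat_lit 0x89) (nat_lit 0) (p (nat_lit 0x100004) (nat_lit 0) (p (nat_lit 0xb000c) (nat_lit 0) (p (nat_lit 0x200004) (nat_lit 0) (p (nat_lit 0x380c2) (nat_lit 1) (p (nat_lit 0x444aa) (nat_lit 7) (p (nat_lit 0x111) (nat_lit 0) (p (nat_lit 0xc9) (nat_lit 1) (p (nat_lit 0x81) (nat_lit 0) (p (nat_lit 0x101) (nat_lit 1) (p (nat_lit 0x119) (nat_lit 0) (p (nat_lit 0xd1) (nat_lit 0) (p (nat_lit 0x89) (nat_lit 0) (p (nat_lit 0x41) (nat_lit 0) (p (nat_lit 0x8078907089a) (nat_lit 0) (p (nat_lit 0x7870886861a) (nat_lit 0) (p (nat_lit 0x800070806078a) (nat_lit 0) (p (nat_lit 0x800068785850a) (nat_lit 0) (p (nat_lit 0x587050682) (nat_lit 0) (p (nat_lit 0x506848402) (nat_lit 0) (p (nat_lit 0x160014) (nat_lit 0) (p (nat_lit 0x16000c) (nat_lit 0) (p (nat_lit 0x50612) (nat_lit 0) (p (nat_lit 0x40592) (nat_lit 0) (p (nat_lit 0x40492)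 (nat_lit 0) (p (nat_lit 0x30412) (nat_lit 0) (p (nat_lit 0x30212) (nat_lit 0) (p (nat_lit 0x20192) (nat_lit 0) (p (nat_lit 0x20092) (nat_lit 0) (p (nat_lit 0x10012) (nat_lit 0) pn)))))))))))))))))))))))))))))) :=
  Cl.node (nat_lit 0x4c42a) (nat_lit 12) (by decide +kernel) (ClAll.succ (ClAll.succ (ClAll.succ (ClAll.succ (ClAll.succ (ClAll.succ (ClAll.succ (ClAll.succ (ClAll.succ (ClAll.succ (ClAll.succ (ClAll.succ ClAll.zero s151) s152) s153) s154) s155) s156) s157) s158) s159) s160) n169) s163)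

def n222 : Cl (O (nat_lit 1)) (R (nat_lit 104465))
    (p (nat_lit 0x89) (nat_lit 1) (p (nat_lit 0x100004) (nat_lit 0) (p (nat_lit 0xb000c) (nat_lit 0) (p (nat_lit 0x200004) (nat_lit 0) (p (nat_lit 0x380c2) (nat_lit 1) (p (nat_lit 0x444aa) (nat_lit 7) (p (nat_lit 0x111) (nat_lit 0) (p (nat_lit 0xc9) (nat_lit 1) (p (nat_lit 0x81) (nat_lit 0) (p (nat_lit 0x101) (nat_lit 1) (p (nat_lit 0x119) (nat_lit 0) (p (nat_lit 0xd1) (nat_lit 0) (p (nat_lit 0x89) (nat_lit 0) (p (nat_lit 0x41) (nat_lit 0) (p (nat_lit 0x8078907089a) (nat_lit 0) (p (nat_lit 0x7870886861a) (nat_lit 0) (p (nat_lit 0x800070806078a) (nat_lit 0) (p (nat_lit 0x800068785850a) (nat_lit 0) (p (nat_lit 0x587050682) (nat_lit 0) (p (nat_lit 0x506848402) (nat_lit 0) (p (nat_lit 0x160014) (nat_lit 0) (p (nat_lit 0x16000c) (nat_lit 0) (p (nat_lit 0x50612) (nat_lit 0) (p (nat_lit 0x40592) (nat_lit 0) (p (nat_lit 0x40492)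 (nat_lit 0) (p (nat_lit 0x30412) (nat_lit 0) (p (nat_lit 0x30212) (nat_lit 0) (p (nat_lit 0x20192) (nat_lit 0) (p (nat_lit 0x20092) (nat_lit 0) (p (nat_lit 0x10012) (nat_lit 0) pn)))))))))))))))))))))))))))))) :=
  Cl.node (nat_lit 0xc9) (nat_lit 2) (by decide +kernel) (ClAll.succ (ClAll.succ ClAll.zero s164) s165)

def n223 : Cl (O (nat_lit 1)) (R (nat_lit 104465))
    (p (nat_lit 0x81) (nat_lit 1) (p (nat_lit 0x41) (nat_lit 1) (p (nat_lit 0xb0014) (nat_lit 0) (p (nat_lit 0xb000c) (nat_lit 0) (p (nat_lit 0x380c2) (nat_lit 0) (p (nat_lit 0x3cc2a) (nat_lit 2) (p (nat_lit 0x111) (nat_lit 1) (p (nat_lit 0xc9) (nat_lit 1) (p (nat_lit 0x81) (nat_lit 0) (p (nat_lit 0x101) (nat_lit 1) (p (nat_lit 0x119) (nat_lit 0) (p (nat_lit 0xd1) (nat_lit 0) (p (nat_lit 0x89) (nat_lit 0) (p (nat_lit 0x41) (nat_lit 0) (p (nat_lit 0x8078907089a) (nat_lit 0) (p (nat_lit 0x7870886861a) (nat_lit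 0) (p (nat_lit 0x800070806078a) (nat_lit 0) (p (nat_lit 0x800068785850a) (nat_lit 0) (p (nat_lit 0x587050682) (nat_lit 0) (p (nat_lit 0x506848402) (nat_lit 0) (p (nat_lit 0x160014) (nat_lit 0) (p (nat_lit 0x16000c) (nat_lit 0) (p (nat_lit 0x50612) (nat_lit 0) (p (nat_lit 0x40592) (nat_lit 0) (p (nat_lit 0x40492) (nat_lit 0) (p (nat_lit 0x30412) (nat_lit 0) (p (nat_lit 0x30212) (nat_lit 0) (p (nat_lit 0x20192) (nat_lit 0) (p (nat_lit 0x20092) (nat_lit 0) (p (nat_lit 0x10012) (nat_lit 0) pn)))))))))))))))))))))))))))))) :=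
  Cl.node (nat_lit 0x101) (nat_lit 2) (by decide +kernel) (ClAll.succ (ClAll.succ ClAll.zero s180) s181)

def n224 : Cl (O (nat_lit 1)) (R (nat_lit 104465))
    (p (nat_lit 0xb000c) (nat_lit 0) (p (nat_lit 0x119) (nat_lit 0) (p (nat_lit 0x100004) (nat_lit 0) (p (nat_lit 0x200004) (nat_lit 0) (p (nat_lit 0x380c2) (nat_lit 0) (p (nat_lit 0x444aa) (nat_lit 7) (p (nat_lit 0xc9) (nat_lit 1) (p (nat_lit 0xc1) (nat_lit 0) (p (nat_lit 0x81) (nat_lit 1) (p (nat_lit 0x101) (nat_lit 1) (p (nat_lit 0x119) (nat_lit 0) (p (nat_lit 0xd1) (nat_lit 0) (p (nat_lit 0x89) (nat_lit 0) (p (nat_lit 0x41) (nat_lit 0) (p (nat_lit 0x8078907089a) (nat_lit 0) (p (nat_lit 0x7870886861a) (nat_lit 0) (p (nat_lit 0x800070806078a) (nat_lit 0) (p (nat_lit 0x800068785850a) (nat_lit 0) (p (nat_lit 0x587050682) (nat_lit 0) (p (nat_lit 0x506848402) (nat_lit 0) (p (nat_lit 0x160014) (nat_lit 0) (p (nat_lit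 0x16000c) (nat_lit 0) (p (nat_lit 0x50612) (nat_lit 0) (p (nat_lit 0x40592) (nat_lit 0) (p (nat_lit 0x40492) (nat_lit 0) (p (nat_lit 0x30412) (nat_lit 0) (p (nat_lit 0x30212) (nat_lit 0) (p (nat_lit 0x20192) (nat_lit 0) (p (nat_lit 0x20092) (nat_lit 0) (p (nat_lit 0x10012) (nat_lit 0) pn)))))))))))))))))))))))))))))) :=
  Cl.node (nat_lit 0xd1) (nat_lit 2) (by decide +kernel) (ClAll.succ (ClAll.succ ClAll.zero s216) s217)

def n225 : Cl (O (nat_lit 1)) (R (nat_lit 104465))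
    (p (nat_lit 0xb0014) (nat_lit 0) (p (nat_lit 0xc9) (nat_lit 1) (p (nat_lit 0x41) (nat_lit 0) (p (nat_lit 0xb000c) (nat_lit 0) (p (nat_lit 0x101) (nat_lit 0) (p (nat_lit 0x380c2) (nat_lit 0) (p (nat_lit 0x3cc2a) (nat_lit 2) (p (nat_lit 0x109) (nat_lit 1) (p (nat_lit 0xc9) (nat_lit 1) (p (nat_lit 0xc1) (nat_lit 0) (p (nat_lit 0x119) (nat_lit 1) (p (nat_lit 0xd1) (nat_lit 0) (p (nat_lit 0x89) (nat_lit 0) (p (nat_lit 0x41) (nat_lit 0) (p (nat_lit 0x8078907089a) (nat_lit 0) (p (nat_lit 0x7870886861a) (nat_lit 0) (p (nat_lit 0x800070806078a) (nat_lit 0) (p (nat_lit 0x800068785850a) (nat_lit 0) (p (nat_lit 0x587050682) (nat_lit 0) (p (nat_lit 0x506848402) (nat_lit 0) (p (nat_lit 0x160014) (nat_lit 0) (p (nat_lit 0x16000c) (nat_lit 0) (p (nat_lit 0x50612) (nat_lit 0) (p (nat_lit 0x40592) (nat_lit 0) (p (nat_lit 0x40492) (nat_lit 0) (p (nat_lit 0x30412) (nat_lit 0) (p (nat_lit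 0x30212) (nat_lit 0) (p (nat_lit 0x20192) (nat_lit 0) (p (nat_lit 0x20092) (nat_lit 0) (p (nat_lit 0x10012) (nat_lit 0) pn)))))))))))))))))))))))))))))) :=
  Cl.node (nat_lit 0x109) (nat_lit 2) (by decide +kernel) (ClAll.succ (ClAll.succ ClAll.zero n170) s243)

def n226 : Cl (O (nat_lit 1)) (R (nat_lit 104465))
    (p (nat_lit 0x2a8258a8b89890a) (nat_lit 0) (p (nat_lit 0xb0014) (nat_lit 0) (p (nat_lit 0x1fc004) (nat_lit 0) (p (nat_lit 0xb000c) (nat_lit 1) (p (nat_lit 0x101) (nat_lit 0) (p (nat_lit 0x380c2) (nat_lit 0) (p (nat_lit 0x3cc2a) (nat_lit 2) (p (nat_lit 0x109) (nat_lit 1) (p (nat_lit 0xc9) (nat_lit 1) (p (nat_lit 0xc1) (nat_lit 0) (p (nat_lit 0x119) (nat_lit 1) (p (nat_lit 0xd1) (nat_lit 0) (p (nat_lit 0x89) (nat_lit 0) (p (nat_lit 0x41) (nat_lit 0) (p (nat_lit 0x8078907089a) (nat_lit 0) (p (nat_lit 0x7870886861a) (nat_lit 0) (p (nat_lit 0x800070806078a) (nat_lit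 0) (p (nat_lit 0x800068785850a) (nat_lit 0) (p (nat_lit 0x587050682) (nat_lit 0) (p (nat_lit 0x506848402) (nat_lit 0) (p (nat_lit 0x160014) (nat_lit 0) (p (nat_lit 0x16000c) (nat_lit 0) (p (nat_lit 0x50612) (nat_lit 0) (p (nat_lit 0x40592) (nat_lit 0) (p (nat_lit 0x40492) (nat_lit 0) (p (nat_lit 0x30412) (nat_lit 0) (p (nat_lit 0x30212) (nat_lit 0) (p (nat_lit 0x20192) (nat_lit 0) (p (nat_lit 0x20092) (nat_lit 0) (p (nat_lit 0x10012) (nat_lit 0) pn)))))))))))))))))))))))))))))) :=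
  Cl.node (nat_lit 0x2a8258b0c0a0b8a) (nat_lit 1) (by decide +kernel) (ClAll.succ ClAll.zero n171)

def n227 : Cl (O (nat_lit 1)) (R (nat_lit 104465))
    (p (nat_lit 0xb0014) (nat_lit 0) (p (nat_lit 0x1fc004) (nat_lit 0) (p (nat_lit 0xb000c) (nat_lit 1) (p (nat_lit 0x41) (nat_lit 0) (p (nat_lit 0x101) (nat_lit 1) (p (nat_lit 0x380c2) (nat_lit 0) (p (nat_lit 0x3cc2a) (nat_lit 2) (p (nat_lit 0x109) (nat_lit 1) (p (nat_lit 0xc9) (nat_lit 1) (p (nat_lit 0xc1) (nat_lit 0) (p (nat_lit 0x119) (nat_lit 1) (p (nat_lit 0xd1) (nat_lit 0) (p (nat_lit 0x89) (nat_lit 0) (p (nat_lit 0x41) (nat_lit 0) (p (nat_lit 0x8078907089a) (nat_lit 0) (p (nat_lit 0x7870886861a) (nat_lit 0) (p (nat_lit 0x800070806078a) (nat_lit 0) (p (nat_lit 0x800068785850a) (nat_lit 0) (p (nat_lit 0x587050682) (nat_lit 0) (p (nat_lit 0x506848402) (nat_lit 0) (p (nat_lit 0x160014) (nat_lit 0) (p (nat_lit 0x16000c)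 (nat_lit 0) (p (nat_lit 0x50612) (nat_lit 0) (p (nat_lit 0x40592) (nat_lit 0) (p (nat_lit 0x40492) (nat_lit 0) (p (nat_lit 0x30412) (nat_lit 0) (p (nat_lit 0x30212) (nat_lit 0) (p (nat_lit 0x20192) (nat_lit 0) (p (nat_lit 0x20092) (nat_lit 0) (p (nat_lit 0x10012) (nat_lit 0) pn)))))))))))))))))))))))))))))) :=
  Cl.node (nat_lit 0x2a8258a8b89890a) (nat_lit 1) (by decide +kernel) (ClAll.succ ClAll.zero n172)

def n228 : Cl (O (nat_lit 1)) (R (nat_lit 104465))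
    (p (nat_lit 0xb0014) (nat_lit 0) (p (nat_lit 0xc9) (nat_lit 1) (p (nat_lit 0x111) (nat_lit 0) (p (nat_lit 0xb000c) (nat_lit 0) (p (nat_lit 0xc9) (nat_lit 1) (p (nat_lit 0x380c2) (nat_lit 0) (p (nat_lit 0x3cc2a) (nat_lit 2) (p (nat_lit 0x109) (nat_lit 1) (p (nat_lit 0x81) (nat_lit 0) (p (nat_lit 0xc1) (nat_lit 1) (p (nat_lit 0x119) (nat_lit 1) (p (nat_lit 0xd1) (nat_lit 0) (p (nat_lit 0x89) (nat_lit 0) (p (nat_lit 0x41) (nat_lit 0) (p (nat_lit 0x8078907089a) (nat_lit 0) (p (nat_lit 0x7870886861a) (nat_lit 0) (p (nat_lit 0x800070806078a) (nat_lit 0) (p (nat_lit 0x800068785850a) (nat_lit 0) (p (nat_lit 0x587050682) (nat_lit 0) (p (nat_lit 0x506848402) (nat_lit 0) (p (nat_lit 0x160014) (nat_lit 0) (p (nat_lit 0x16000c) (nat_lit 0) (p (nat_lit 0x50612) (nat_lit 0) (p (nat_lit 0x40592) (nat_lit 0) (p (nat_lit 0x40492) (nat_lit 0) (p (nat_lit 0x30412) (nat_lit 0) (p (nat_lit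 0x30212) (nat_lit 0) (p (nat_lit 0x20192) (nat_lit 0) (p (nat_lit 0x20092) (nat_lit 0) (p (nat_lit 0x10012) (nat_lit 0) pn)))))))))))))))))))))))))))))) :=
  Cl.node (nat_lit 0x41) (nat_lit 2) (by decide +kernel) (ClAll.succ (ClAll.succ ClAll.zero s283) n173)

def n229 : Cl (O (nat_lit 1)) (R (nat_lit 104465))
    (p (nat_lit 0x119) (nat_lit 0) (p (nat_lit 0x100004) (nat_lit 0) (p (nat_lit 0xb000c) (nat_lit 0) (p (nat_lit 0x200004) (nat_lit 0) (p (nat_lit 0x380c2) (nat_lit 1) (p (nat_lit 0x444aa) (nat_lit 7) (p (nat_lit 0x109) (nat_lit 1) (p (nat_lit 0x101) (nat_lit 0) (p (nat_lit 0x81) (nat_lit 1) (p (nat_lit 0xc1) (nat_lit 1) (p (nat_lit 0x119) (nat_lit 1) (p (nat_lit 0xd1) (nat_lit 0) (p (nat_lit 0x89) (nat_lit 0) (p (nat_lit 0x41) (nat_lit 0) (p (nat_lit 0x8078907089a) (nat_lit 0) (p (nat_lit 0x7870886861a) (nat_lit 0) (p (nat_lit 0x800070806078a) (nat_lit 0) (p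 (nat_lit 0x800068785850a) (nat_lit 0) (p (nat_lit 0x587050682) (nat_lit 0) (p (nat_lit 0x506848402) (nat_lit 0) (p (nat_lit 0x160014) (nat_lit 0) (p (nat_lit 0x16000c) (nat_lit 0) (p (nat_lit 0x50612) (nat_lit 0) (p (nat_lit 0x40592) (nat_lit 0) (p (nat_lit 0x40492) (nat_lit 0) (p (nat_lit 0x30412) (nat_lit 0) (p (nat_lit 0x30212) (nat_lit 0) (p (nat_lit 0x20192) (nat_lit 0) (p (nat_lit 0x20092) (nat_lit 0) (p (nat_lit 0x10012) (nat_lit 0) pn)))))))))))))))))))))))))))))) :=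
  Cl.node (nat_lit 0x109) (nat_lit 2) (by decide +kernel) (ClAll.succ (ClAll.succ ClAll.zero s327) n174)

def n230 : Cl (O (nat_lit 1)) (R (nat_lit 104465))
    (p (nat_lit 0x108014) (nat_lit 0) (p (nat_lit 0x10800c) (nat_lit 0) (p (nat_lit 0x100004) (nat_lit 1) (p (nat_lit 0x380c2) (nat_lit 0) (p (nat_lit 0x3cc2a) (nat_lit 2) (p (nat_lit 0x41) (nat_lit 0) (p (nat_lit 0x200004) (nat_lit 0) (p (nat_lit 0xc1) (nat_lit 1) (p (nat_lit 0x109) (nat_lit 1) (p (nat_lit 0x101) (nat_lit 0) (p (nat_lit 0x111) (nat_lit 0) (p (nat_lit 0xd1) (nat_lit 1) (p (nat_lit 0x89) (nat_lit 0) (p (nat_lit 0x41) (nat_lit 0) (p (nat_lit 0x8078907089a) (nat_lit 0) (p (nat_lit 0x7870886861a) (nat_lit 0) (p (nat_lit 0x800070806078a) (nat_lit 0) (p (nat_lit 0x800068785850a) (nat_lit 0) (p (nat_lit 0x587050682) (nat_lit 0) (p (nat_lit 0x506848402) (nat_lit 0) (p (nat_lit 0x160014) (nat_lit 0) (p (nat_lit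 0x16000c) (nat_lit 0) (p (nat_lit 0x50612) (nat_lit 0) (p (nat_lit 0x40592) (nat_lit 0) (p (nat_lit 0x40492) (nat_lit 0) (p (nat_lit 0x30412) (nat_lit 0) (p (nat_lit 0x30212) (nat_lit 0) (p (nat_lit 0x20192) (nat_lit 0) (p (nat_lit 0x20092) (nat_lit 0) (p (nat_lit 0x10012) (nat_lit 0) pn)))))))))))))))))))))))))))))) :=
  Cl.node (nat_lit 0x81) (nat_lit 2) (by decide +kernel) (ClAll.succ (ClAll.succ ClAll.zero s371) s372)

def n231 : Cl (O (nat_lit 1)) (R (nat_lit 104465))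
    (p (nat_lit 0x200004) (nat_lit 0) (p (nat_lit 0x380c2) (nat_lit 1) (p (nat_lit 0x4c42a) (nat_lit 10) (p (nat_lit 0xc9) (nat_lit 0) (p (nat_lit 0x380c2) (nat_lit 0) (p (nat_lit 0x444aa) (nat_lit 7) (p (nat_lit 0x119) (nat_lit 0) (p (nat_lit 0xc1) (nat_lit 0) (p (nat_lit 0x81) (nat_lit 1) (p (nat_lit 0x101) (nat_lit 1) (p (nat_lit 0x111) (nat_lit 0) (p (nat_lit 0xd1) (nat_lit 1) (p (nat_lit 0x89) (nat_lit 0) (p (nat_lit 0x41) (nat_lit 0) (p (nat_lit 0x8078907089a) (nat_lit 0) (p (nat_lit 0x7870886861a) (nat_lit 0) (p (nat_lit 0x800070806078a) (nat_lit 0) (p (nat_lit 0x800068785850a) (nat_lit 0) (p (nat_lit 0x587050682) (nat_lit 0) (p (nat_lit 0x506848402) (nat_lit 0) (p (nat_lit 0x160014) (nat_lit 0) (p (nat_lit 0x16000c) (nat_lit 0) (p (nat_lit 0x50612) (nat_lit 0) (p (nat_lit 0x40592) (nat_lit 0) (p (nat_lit 0x40492) (nat_lit 0) (p (nat_lit 0x30412) (nat_lit 0) (p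 (nat_lit 0x30212) (nat_lit 0) (p (nat_lit 0x20192) (nat_lit 0) (p (nat_lit 0x20092) (nat_lit 0) (p (nat_lit 0x10012) (nat_lit 0) pn)))))))))))))))))))))))))))))) :=
  Cl.node (nat_lit 0x100004) (nat_lit 2) (by decide +kernel) (ClAll.succ (ClAll.succ ClAll.zero n175) s454)

def n232 : Cl (O (nat_lit 1)) (R (nat_lit 104465))
    (p (nat_lit 0x380c2) (nat_lit 0) (p (nat_lit 0x4c42a) (nat_lit 10) (p (nat_lit 0x89) (nat_lit 0) (p (nat_lit 0xb0014) (nat_lit 0) (p (nat_lit 0x380c2) (nat_lit 0) (p (nat_lit 0x3cc2a) (nat_lit 2) (p (nat_lit 0x119) (nat_lit 1) (p (nat_lit 0xc1) (nat_lit 0) (p (nat_lit 0x81) (nat_lit 1) (p (nat_lit 0x101) (nat_lit 1) (p (nat_lit 0x111) (nat_lit 0) (p (nat_lit 0xd1) (nat_lit 1) (p (nat_lit 0x89) (nat_lit 0) (p (nat_lit 0x41) (nat_lit 0) (p (nat_lit 0x8078907089a) (nat_lit 0) (p (nat_lit 0x7870886861a) (nat_lit 0) (p (nat_lit 0x800070806078a) (nat_lit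 0) (p (nat_lit 0x800068785850a) (nat_lit 0) (p (nat_lit 0x587050682) (nat_lit 0) (p (nat_lit 0x506848402) (nat_lit 0) (p (nat_lit 0x160014) (nat_lit 0) (p (nat_lit 0x16000c) (nat_lit 0) (p (nat_lit 0x50612) (nat_lit 0) (p (nat_lit 0x40592) (nat_lit 0) (p (nat_lit 0x40492) (nat_lit 0) (p (nat_lit 0x30412) (nat_lit 0) (p (nat_lit 0x30212) (nat_lit 0) (p (nat_lit 0x20192) (nat_lit 0) (p (nat_lit 0x20092) (nat_lit 0) (p (nat_lit 0x10012) (nat_lit 0) pn)))))))))))))))))))))))))))))) :=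
  Cl.node (nat_lit 0x200004) (nat_lit 2) (by decide +kernel) (ClAll.succ (ClAll.succ ClAll.zero n176) s486)

def n233 : Cl (O (nat_lit 1)) (R (nat_lit 104465))
    (p (nat_lit 0x380c2) (nat_lit 1) (p (nat_lit 0x4c42a) (nat_lit 10) (p (nat_lit 0x89) (nat_lit 0) (p (nat_lit 0xb0014) (nat_lit 0) (p (nat_lit 0x380c2) (nat_lit 0) (p (nat_lit 0x3cc2a) (nat_lit 2) (p (nat_lit 0x119) (nat_lit 1) (p (nat_lit 0xc1) (nat_lit 0) (p (nat_lit 0x81) (nat_lit 1) (p (nat_lit 0x101) (nat_lit 1) (p (nat_lit 0x111) (nat_lit 0) (p (nat_lit 0xd1) (nat_lit 1) (p (nat_lit 0x89) (nat_lit 0) (p (nat_lit 0x41) (nat_lit 0) (p (nat_lit 0x8078907089a) (nat_lit 0) (p (nat_lit 0x7870886861a) (nat_lit 0) (p (nat_lit 0x800070806078a) (nat_lit 0) (p (nat_lit 0x800068785850a) (nat_lit 0) (p (nat_lit 0x587050682) (nat_lit 0) (p (nat_lit 0x506848402) (nat_lit 0) (p (nat_lit 0x160014) (nat_lit 0) (p (nat_lit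 0x16000c) (nat_lit 0) (p (nat_lit 0x50612) (nat_lit 0) (p (nat_lit 0x40592) (nat_lit 0) (p (nat_lit 0x40492) (nat_lit 0) (p (nat_lit 0x30412) (nat_lit 0) (p (nat_lit 0x30212) (nat_lit 0) (p (nat_lit 0x20192) (nat_lit 0) (p (nat_lit 0x20092) (nat_lit 0) (p (nat_lit 0x10012) (nat_lit 0) pn)))))))))))))))))))))))))))))) :=
  Cl.node (nat_lit 0x200004) (nat_lit 2) (by decide +kernel) (ClAll.succ (ClAll.succ ClAll.zero n177) s490)

def n234 : Cl (O (nat_lit 1)) (R (nat_lit 104465))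
    (p (nat_lit 0x380c2) (nat_lit 0) (p (nat_lit 0x4c42a) (nat_lit 11) (p (nat_lit 0x89) (nat_lit 0) (p (nat_lit 0xb0014) (nat_lit 0) (p (nat_lit 0x380c2) (nat_lit 0) (p (nat_lit 0x3cc2a) (nat_lit 2) (p (nat_lit 0x119) (nat_lit 1) (p (nat_lit 0xc1) (nat_lit 0) (p (nat_lit 0x81) (nat_lit 1) (p (nat_lit 0x101) (nat_lit 1) (p (nat_lit 0x111) (nat_lit 0) (p (nat_lit 0xd1) (nat_lit 1) (p (nat_lit 0x89) (nat_lit 0) (p (nat_lit 0x41) (nat_lit 0) (p (nat_lit 0x8078907089a) (nat_lit 0) (p (nat_lit 0x7870886861a) (nat_lit 0) (p (nat_lit 0x800070806078a) (nat_lit 0) (p (nat_lit 0x800068785850a) (nat_lit 0) (p (nat_lit 0x587050682) (nat_lit 0) (p (nat_lit 0x506848402) (nat_lit 0) (p (nat_lit 0x160014) (nat_lit 0) (p (nat_lit 0x16000c) (nat_lit 0) (p (nat_lit 0x50612) (nat_lit 0) (p (nat_lit 0x40592) (nat_lit 0) (p (nat_lit 0x40492) (nat_lit 0) (p (nat_lit 0x30412) (nat_lit 0) (p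 (nat_lit 0x30212) (nat_lit 0) (p (nat_lit 0x20192) (nat_lit 0) (p (nat_lit 0x20092) (nat_lit 0) (p (nat_lit 0x10012) (nat_lit 0) pn)))))))))))))))))))))))))))))) :=
  Cl.node (nat_lit 0x200004) (nat_lit 2) (by decide +kernel) (ClAll.succ (ClAll.succ ClAll.zero n178) s493)

def n235 : Cl (O (nat_lit 1)) (R (nat_lit 104465))
    (p (nat_lit 0x1fc004) (nat_lit 0) (p (nat_lit 0xb000c) (nat_lit 1) (p (nat_lit 0x89) (nat_lit 1) (p (nat_lit 0xb0014) (nat_lit 0) (p (nat_lit 0x380c2) (nat_lit 0) (p (nat_lit 0x3cc2a) (nat_lit 2) (p (nat_lit 0x119) (nat_lit 1) (p (nat_lit 0xc1) (nat_lit 0) (p (nat_lit 0x81) (nat_lit 1) (p (nat_lit 0x101) (nat_lit 1) (p (nat_lit 0x111) (nat_lit 0) (p (nat_lit 0xd1) (nat_lit 1) (p (nat_lit 0x89) (nat_lit 0) (p (nat_lit 0x41) (nat_lit 0) (p (nat_lit 0x8078907089a) (nat_lit 0) (p (nat_lit 0x7870886861a) (nat_lit 0) (p (nat_lit 0x800070806078a) (nat_lit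 0) (p (nat_lit 0x800068785850a) (nat_lit 0) (p (nat_lit 0x587050682) (nat_lit 0) (p (nat_lit 0x506848402) (nat_lit 0) (p (nat_lit 0x160014) (nat_lit 0) (p (nat_lit 0x16000c) (nat_lit 0) (p (nat_lit 0x50612) (nat_lit 0) (p (nat_lit 0x40592) (nat_lit 0) (p (nat_lit 0x40492) (nat_lit 0) (p (nat_lit 0x30412) (nat_lit 0) (p (nat_lit 0x30212) (nat_lit 0) (p (nat_lit 0x20192) (nat_lit 0) (p (nat_lit 0x20092) (nat_lit 0) (p (nat_lit 0x10012) (nat_lit 0) pn)))))))))))))))))))))))))))))) :=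
  Cl.node (nat_lit 0x100004) (nat_lit 2) (by decide +kernel) (ClAll.succ (ClAll.succ ClAll.zero n179) s500)

def n236 : Cl (O (nat_lit 1)) (R (nat_lit 104465))
    (p (nat_lit 0xc1) (nat_lit 0) (p (nat_lit 0xb000c) (nat_lit 0) (p (nat_lit 0x100004) (nat_lit 0) (p (nat_lit 0x200004) (nat_lit 0) (p (nat_lit 0x380c2) (nat_lit 0) (p (nat_lit 0x444aa) (nat_lit 7) (p (nat_lit 0xd1) (nat_lit 1) (p (nat_lit 0x111) (nat_lit 1) (p (nat_lit 0x109) (nat_lit 0) (p (nat_lit 0x101) (nat_lit 0) (p (nat_lit 0x119) (nat_lit 0) (p (nat_lit 0xc9) (nat_lit 0) (p (nat_lit 0x89) (nat_lit 1) (p (nat_lit 0x41) (nat_lit 0) (p (nat_lit 0x8078907089a) (nat_lit 0) (p (nat_lit 0x7870886861a) (nat_lit 0) (p (nat_lit 0x800070806078a) (nat_lit 0) (p (nat_lit 0x800068785850a) (nat_lit 0) (p (nat_lit 0x587050682) (nat_lit 0) (p (nat_lit 0x506848402) (nat_lit 0) (p (nat_lit 0x160014) (nat_lit 0) (p (nat_lit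 0x16000c) (nat_lit 0) (p (nat_lit 0x50612) (nat_lit 0) (p (nat_lit 0x40592) (nat_lit 0) (p (nat_lit 0x40492) (nat_lit 0) (p (nat_lit 0x30412) (nat_lit 0) (p (nat_lit 0x30212) (nat_lit 0) (p (nat_lit 0x20192) (nat_lit 0) (p (nat_lit 0x20092) (nat_lit 0) (p (nat_lit 0x10012) (nat_lit 0) pn)))))))))))))))))))))))))))))) :=
  Cl.node (nat_lit 0xc9) (nat_lit 2) (by decide +kernel) (ClAll.succ (ClAll.succ ClAll.zero n180) n181)

def n237 : Cl (O (nat_lit 1)) (R (nat_lit 104465))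
    (p (nat_lit 0xb0014) (nat_lit 0) (p (nat_lit 0xb000c) (nat_lit 1) (p (nat_lit 0x100004) (nat_lit 0) (p (nat_lit 0x200004) (nat_lit 0) (p (nat_lit 0x380c2) (nat_lit 0) (p (nat_lit 0x444aa) (nat_lit 7) (p (nat_lit 0xd1) (nat_lit 1) (p (nat_lit 0x111) (nat_lit 1) (p (nat_lit 0x109) (nat_lit 0) (p (nat_lit 0x101) (nat_lit 0) (p (nat_lit 0x119) (nat_lit 0) (p (nat_lit 0xc9) (nat_lit 0) (p (nat_lit 0x89) (nat_lit 1) (p (nat_lit 0x41) (nat_lit 0) (p (nat_lit 0x8078907089a) (nat_lit 0) (p (nat_lit 0x7870886861a) (nat_lit 0) (p (nat_lit 0x800070806078a) (nat_lit 0) (p (nat_lit 0x800068785850a) (nat_lit 0) (p (nat_lit 0x587050682) (nat_lit 0) (p (nat_lit 0x506848402) (nat_lit 0) (p (nat_lit 0x160014) (nat_lit 0) (p (nat_lit 0x16000c) (nat_lit 0) (p (nat_lit 0x50612) (nat_lit 0) (p (nat_lit 0x40592) (nat_lit 0) (p (nat_lit 0x40492) (nat_lit 0) (p (nat_lit 0x30412) (nat_lit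 0) (p (nat_lit 0x30212) (nat_lit 0) (p (nat_lit 0x20192) (nat_lit 0) (p (nat_lit 0x20092) (nat_lit 0) (p (nat_lit 0x10012) (nat_lit 0) pn)))))))))))))))))))))))))))))) :=
  Cl.node (nat_lit 0x2680d0a8b89890a) (nat_lit 1) (by decide +kernel) (ClAll.succ ClAll.zero n182)

def n238 : Cl (O (nat_lit 1)) (R (nat_lit 104465))
    (p (nat_lit 0x108014) (nat_lit 0) (p (nat_lit 0x10800c) (nat_lit 0) (p (nat_lit 0x100004) (nat_lit 1) (p (nat_lit 0x200004) (nat_lit 0) (p (nat_lit 0x380c2) (nat_lit 0) (p (nat_lit 0x444aa) (nat_lit 7) (p (nat_lit 0xd1) (nat_lit 1) (p (nat_lit 0x111) (nat_lit 1) (p (nat_lit 0x109) (nat_lit 0) (p (nat_lit 0x101) (nat_lit 0) (p (nat_lit 0x119) (nat_lit 0) (p (nat_lit 0xc9) (nat_lit 0) (p (nat_lit 0x89) (nat_lit 1) (p (nat_lit 0x41) (nat_lit 0) (p (nat_lit 0x8078907089a) (nat_lit 0) (p (nat_lit 0x7870886861a) (nat_lit 0) (p (nat_lit 0x800070806078a)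 (nat_lit 0) (p (nat_lit 0x800068785850a) (nat_lit 0) (p (nat_lit 0x587050682) (nat_lit 0) (p (nat_lit 0x506848402) (nat_lit 0) (p (nat_lit 0x160014) (nat_lit 0) (p (nat_lit 0x16000c) (nat_lit 0) (p (nat_lit 0x50612) (nat_lit 0) (p (nat_lit 0x40592) (nat_lit 0) (p (nat_lit 0x40492) (nat_lit 0) (p (nat_lit 0x30412) (nat_lit 0) (p (nat_lit 0x30212) (nat_lit 0) (p (nat_lit 0x20192) (nat_lit 0) (p (nat_lit 0x20092) (nat_lit 0) (p (nat_lit 0x10012) (nat_lit 0) pn)))))))))))))))))))))))))))))) :=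
  Cl.node (nat_lit 0x84014) (nat_lit 2) (by decide +kernel) (ClAll.succ (ClAll.succ ClAll.zero s563) n183)

def n239 : Cl (O (nat_lit 1)) (R (nat_lit 104465))
    (p (nat_lit 0xc1) (nat_lit 0) (p (nat_lit 0xb000c) (nat_lit 0) (p (nat_lit 0x100004) (nat_lit 0) (p (nat_lit 0x200004) (nat_lit 0) (p (nat_lit 0x380c2) (nat_lit 1) (p (nat_lit 0x444aa) (nat_lit 7) (p (nat_lit 0xd1) (nat_lit 1) (p (nat_lit 0x111) (nat_lit 1) (p (nat_lit 0x109) (nat_lit 0) (p (nat_lit 0x101) (nat_lit 0) (p (nat_lit 0x119) (nat_lit 0) (p (nat_lit 0xc9) (nat_lit 0) (p (nat_lit 0x89) (nat_lit 1) (p (nat_lit 0x41) (nat_lit 0) (p (nat_lit 0x8078907089a) (nat_lit 0) (p (nat_lit 0x7870886861a) (nat_lit 0) (p (nat_lit 0x800070806078a) (nat_lit 0) (p (nat_lit 0x800068785850a) (nat_lit 0) (p (nat_lit 0x587050682) (nat_lit 0) (p (nat_lit 0x506848402) (nat_lit 0) (p (nat_lit 0x160014) (nat_lit 0) (p (nat_lit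 0x16000c) (nat_lit 0) (p (nat_lit 0x50612) (nat_lit 0) (p (nat_lit 0x40592) (nat_lit 0) (p (nat_lit 0x40492) (nat_lit 0) (p (nat_lit 0x30412) (nat_lit 0) (p (nat_lit 0x30212) (nat_lit 0) (p (nat_lit 0x20192) (nat_lit 0) (p (nat_lit 0x20092) (nat_lit 0) (p (nat_lit 0x10012) (nat_lit 0) pn)))))))))))))))))))))))))))))) :=
  Cl.node (nat_lit 0xc9) (nat_lit 2) (by decide +kernel) (ClAll.succ (ClAll.succ ClAll.zero n184) n185)

def n240 : Cl (O (nat_lit 1)) (R (nat_lit 104465))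
    (p (nat_lit 0xb0014) (nat_lit 0) (p (nat_lit 0xb000c) (nat_lit 1) (p (nat_lit 0x100004) (nat_lit 0) (p (nat_lit 0x200004) (nat_lit 0) (p (nat_lit 0x380c2) (nat_lit 1) (p (nat_lit 0x444aa) (nat_lit 7) (p (nat_lit 0xd1) (nat_lit 1) (p (nat_lit 0x111) (nat_lit 1) (p (nat_lit 0x109) (nat_lit 0) (p (nat_lit 0x101) (nat_lit 0) (p (nat_lit 0x119) (nat_lit 0) (p (nat_lit 0xc9) (nat_lit 0) (p (nat_lit 0x89) (nat_lit 1) (p (nat_lit 0x41) (nat_lit 0) (p (nat_lit 0x8078907089a) (nat_lit 0) (p (nat_lit 0x7870886861a) (nat_lit 0) (p (nat_lit 0x800070806078a) (nat_lit 0) (p (nat_lit 0x800068785850a) (nat_lit 0) (p (nat_lit 0x587050682) (nat_lit 0) (p (nat_lit 0x506848402) (nat_lit 0) (p (nat_lit 0x160014) (nat_lit 0) (p (nat_lit 0x16000c) (nat_lit 0) (p (nat_lit 0x50612) (nat_lit 0) (p (nat_lit 0x40592) (nat_lit 0) (p (nat_lit 0x40492) (nat_lit 0) (p (nat_lit 0x30412) (nat_lit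 0) (p (nat_lit 0x30212) (nat_lit 0) (p (nat_lit 0x20192) (nat_lit 0) (p (nat_lit 0x20092) (nat_lit 0) (p (nat_lit 0x10012) (nat_lit 0) pn)))))))))))))))))))))))))))))) :=
  Cl.node (nat_lit 0x2680d0a8b89890a) (nat_lit 1) (by decide +kernel) (ClAll.succ ClAll.zero n186)

def n241 : Cl (O (nat_lit 1)) (R (nat_lit 104465))
    (p (nat_lit 0x108014) (nat_lit 0) (p (nat_lit 0x10800c) (nat_lit 0) (p (nat_lit 0x100004) (nat_lit 1) (p (nat_lit 0x380c2) (nat_lit 0) (p (nat_lit 0x44c2a) (nat_lit 0) (p (nat_lit 0x41) (nat_lit 0) (p (nat_lit 0x200004) (nat_lit 0) (p (nat_lit 0xd1) (nat_lit 0) (p (nat_lit 0x109) (nat_lit 1) (p (nat_lit 0x101) (nat_lit 0) (p (nat_lit 0x119) (nat_lit 0) (p (nat_lit 0xc9) (nat_lit 0) (p (nat_lit 0x89) (nat_lit 1) (p (nat_lit 0x41) (nat_lit 0) (p (nat_lit 0x8078907089a) (nat_lit 0) (p (nat_lit 0x7870886861a) (nat_lit 0) (p (nat_lit 0x800070806078a) (nat_lit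 0) (p (nat_lit 0x800068785850a) (nat_lit 0) (p (nat_lit 0x587050682) (nat_lit 0) (p (nat_lit 0x506848402) (nat_lit 0) (p (nat_lit 0x160014) (nat_lit 0) (p (nat_lit 0x16000c) (nat_lit 0) (p (nat_lit 0x50612) (nat_lit 0) (p (nat_lit 0x40592) (nat_lit 0) (p (nat_lit 0x40492) (nat_lit 0) (p (nat_lit 0x30412) (nat_lit 0) (p (nat_lit 0x30212) (nat_lit 0) (p (nat_lit 0x20192) (nat_lit 0) (p (nat_lit 0x20092) (nat_lit 0) (p (nat_lit 0x10012) (nat_lit 0) pn)))))))))))))))))))))))))))))) :=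
  Cl.node (nat_lit 0xc1) (nat_lit 2) (by decide +kernel) (ClAll.succ (ClAll.succ ClAll.zero s665) s666)

def n242 : Cl (O (nat_lit 1)) (R (nat_lit 104465))
    (p (nat_lit 0xc1) (nat_lit 0) (p (nat_lit 0x58014) (nat_lit 0) (p (nat_lit 0xb0014) (nat_lit 0) (p (nat_lit 0x380c2) (nat_lit 0) (p (nat_lit 0x44c2a) (nat_lit 1) (p (nat_lit 0x41) (nat_lit 0) (p (nat_lit 0x200004) (nat_lit 0) (p (nat_lit 0xd1) (nat_lit 0) (p (nat_lit 0x109) (nat_lit 1) (p (nat_lit 0x101) (nat_lit 0) (p (nat_lit 0x119) (nat_lit 0) (p (nat_lit 0xc9) (nat_lit 0) (p (nat_lit 0x89) (nat_lit 1) (p (nat_lit 0x41) (nat_lit 0) (p (nat_lit 0x8078907089a) (nat_lit 0) (p (nat_lit 0x7870886861a) (nat_lit 0) (p (nat_lit 0x800070806078a) (nat_lit 0) (p (nat_lit 0x800068785850a) (nat_lit 0) (p (nat_lit 0x587050682) (nat_lit 0) (p (nat_lit 0x506848402) (nat_lit 0) (p (nat_lit 0x160014) (nat_lit 0) (p (nat_lit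 0x16000c) (nat_lit 0) (p (nat_lit 0x50612) (nat_lit 0) (p (nat_lit 0x40592) (nat_lit 0) (p (nat_lit 0x40492) (nat_lit 0) (p (nat_lit 0x30412) (nat_lit 0) (p (nat_lit 0x30212) (nat_lit 0) (p (nat_lit 0x20192) (nat_lit 0) (p (nat_lit 0x20092) (nat_lit 0) (p (nat_lit 0x10012) (nat_lit 0) pn)))))))))))))))))))))))))))))) :=
  Cl.node (nat_lit 0x109) (nat_lit 2) (by decide +kernel) (ClAll.succ (ClAll.succ ClAll.zero n187) s672)

def n243 : Cl (O (nat_lit 1)) (R (nat_lit 104465))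
    (p (nat_lit 0xc1) (nat_lit 1) (p (nat_lit 0x58014) (nat_lit 0) (p (nat_lit 0xb0014) (nat_lit 0) (p (nat_lit 0x380c2) (nat_lit 0) (p (nat_lit 0x44c2a) (nat_lit 1) (p (nat_lit 0x41) (nat_lit 0) (p (nat_lit 0x200004) (nat_lit 0) (p (nat_lit 0xd1) (nat_lit 0) (p (nat_lit 0x109) (nat_lit 1) (p (nat_lit 0x101) (nat_lit 0) (p (nat_lit 0x119) (nat_lit 0) (p (nat_lit 0xc9) (nat_lit 0) (p (nat_lit 0x89) (nat_lit 1) (p (nat_lit 0x41) (nat_lit 0) (p (nat_lit 0x8078907089a) (nat_lit 0) (p (nat_lit 0x7870886861a) (nat_lit 0) (p (nat_lit 0x800070806078a) (nat_lit 0) (p (nat_lit 0x800068785850a) (nat_lit 0) (p (nat_lit 0x587050682) (nat_lit 0) (p (nat_lit 0x506848402) (nat_lit 0) (p (nat_lit 0x160014) (nat_lit 0) (p (nat_lit 0x16000c) (nat_lit 0) (p (nat_lit 0x50612) (nat_lit 0) (p (nat_lit 0x40592) (nat_lit 0) (p (nat_lit 0x40492) (nat_lit 0) (p (nat_lit 0x30412) (nat_lit 0) (p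 (nat_lit 0x30212) (nat_lit 0) (p (nat_lit 0x20192) (nat_lit 0) (p (nat_lit 0x20092) (nat_lit 0) (p (nat_lit 0x10012) (nat_lit 0) pn)))))))))))))))))))))))))))))) :=
  Cl.node (nat_lit 0xb000c) (nat_lit 2) (by decide +kernel) (ClAll.succ (ClAll.succ ClAll.zero s673) s674)

def n244 : Cl (O (nat_lit 1)) (R (nat_lit 104465))
    (p (nat_lit 0x10800c) (nat_lit 0) (p (nat_lit 0x58014) (nat_lit 1) (p (nat_lit 0xb0014) (nat_lit 0) (p (nat_lit 0x380c2) (nat_lit 0) (p (nat_lit 0x44c2a) (nat_lit 1) (p (nat_lit 0x41) (nat_lit 0) (p (nat_lit 0x200004) (nat_lit 0) (p (nat_lit 0xd1) (nat_lit 0) (p (nat_lit 0x109) (nat_lit 1) (p (nat_lit 0x101) (nat_lit 0) (p (nat_lit 0x119) (nat_lit 0) (p (nat_lit 0xc9) (nat_lit 0) (p (nat_lit 0x89) (nat_lit 1) (p (nat_lit 0x41) (nat_lit 0) (p (nat_lit 0x8078907089a) (nat_lit 0) (p (nat_lit 0x7870886861a) (nat_lit 0) (p (nat_lit 0x800070806078a) (nat_lit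 0) (p (nat_lit 0x800068785850a) (nat_lit 0) (p (nat_lit 0x587050682) (nat_lit 0) (p (nat_lit 0x506848402) (nat_lit 0) (p (nat_lit 0x160014) (nat_lit 0) (p (nat_lit 0x16000c) (nat_lit 0) (p (nat_lit 0x50612) (nat_lit 0) (p (nat_lit 0x40592) (nat_lit 0) (p (nat_lit 0x40492) (nat_lit 0) (p (nat_lit 0x30412) (nat_lit 0) (p (nat_lit 0x30212) (nat_lit 0) (p (nat_lit 0x20192) (nat_lit 0) (p (nat_lit 0x20092) (nat_lit 0) (p (nat_lit 0x10012) (nat_lit 0) pn)))))))))))))))))))))))))))))) :=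
  Cl.node (nat_lit 0xe80d8a8b89890a) (nat_lit 1) (by decide +kernel) (ClAll.succ ClAll.zero n188)

def n245 : Cl (O (nat_lit 1)) (R (nat_lit 104465))
    (p (nat_lit 0x2a8258a8b89890a) (nat_lit 0) (p (nat_lit 0xb000c) (nat_lit 0) (p (nat_lit 0xb0014) (nat_lit 1) (p (nat_lit 0x380c2) (nat_lit 0) (p (nat_lit 0x44c2a) (nat_lit 1) (p (nat_lit 0x41) (nat_lit 0) (p (nat_lit 0x200004) (nat_lit 0) (p (nat_lit 0xd1) (nat_lit 0) (p (nat_lit 0x109) (nat_lit 1) (p (nat_lit 0x101) (nat_lit 0) (p (nat_lit 0x119) (nat_lit 0) (p (nat_lit 0xc9) (nat_lit 0) (p (nat_lit 0x89) (nat_lit 1) (p (nat_lit 0x41) (nat_lit 0) (p (nat_lit 0x8078907089a) (nat_lit 0) (p (nat_lit 0x7870886861a) (nat_lit 0) (p (nat_lit 0x800070806078a) (nat_lit 0) (p (nat_lit 0x800068785850a) (nat_lit 0) (p (nat_lit 0x587050682) (nat_lit 0) (p (nat_lit 0x506848402) (nat_lit 0) (p (nat_lit 0x160014) (nat_lit 0) (p (nat_lit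 0x16000c) (nat_lit 0) (p (nat_lit 0x50612) (nat_lit 0) (p (nat_lit 0x40592) (nat_lit 0) (p (nat_lit 0x40492) (nat_lit 0) (p (nat_lit 0x30412) (nat_lit 0) (p (nat_lit 0x30212) (nat_lit 0) (p (nat_lit 0x20192) (nat_lit 0) (p (nat_lit 0x20092) (nat_lit 0) (p (nat_lit 0x10012) (nat_lit 0) pn)))))))))))))))))))))))))))))) :=
  Cl.node (nat_lit 0x2a8258b0c0a0b8a) (nat_lit 1) (by decide +kernel) (ClAll.succ ClAll.zero n189)

def n246 : Cl (O (nat_lit 1)) (R (nat_lit 104465))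
    (p (nat_lit 0xc9) (nat_lit 0) (p (nat_lit 0xb000c) (nat_lit 0) (p (nat_lit 0xc1) (nat_lit 0) (p (nat_lit 0x100004) (nat_lit 0) (p (nat_lit 0x200004) (nat_lit 0) (p (nat_lit 0x380c2) (nat_lit 0) (p (nat_lit 0x444aa) (nat_lit 7) (p (nat_lit 0xd1) (nat_lit 1) (p (nat_lit 0x109) (nat_lit 1) (p (nat_lit 0x101) (nat_lit 0) (p (nat_lit 0x119) (nat_lit 0) (p (nat_lit 0xc9) (nat_lit 0) (p (nat_lit 0x89) (nat_lit 1) (p (nat_lit 0x41) (nat_lit 0) (p (nat_lit 0x8078907089a) (nat_lit 0) (p (nat_lit 0x7870886861a) (nat_lit 0) (p (nat_lit 0x800070806078a) (nat_lit 0) (p (nat_lit 0x800068785850a) (nat_lit 0) (p (nat_lit 0x587050682) (nat_lit 0) (p (nat_lit 0x506848402) (nat_lit 0) (p (nat_lit 0x160014) (nat_lit 0) (p (nat_lit 0x16000c) (nat_lit 0) (p (nat_lit 0x50612) (nat_lit 0) (p (nat_lit 0x40592) (nat_lit 0) (p (nat_lit 0x40492) (nat_lit 0) (p (nat_lit 0x30412) (nat_lit 0) (p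 (nat_lit 0x30212) (nat_lit 0) (p (nat_lit 0x20192) (nat_lit 0) (p (nat_lit 0x20092) (nat_lit 0) (p (nat_lit 0x10012) (nat_lit 0) pn)))))))))))))))))))))))))))))) :=
  Cl.node (nat_lit 0xd1) (nat_lit 2) (by decide +kernel) (ClAll.succ (ClAll.succ ClAll.zero n190) s743)

def n247 : Cl (O (nat_lit 1)) (R (nat_lit 104465))
    (p (nat_lit 0xc9) (nat_lit 1) (p (nat_lit 0xb000c) (nat_lit 0) (p (nat_lit 0xc1) (nat_lit 0) (p (nat_lit 0x100004) (nat_lit 0) (p (nat_lit 0x200004) (nat_lit 0) (p (nat_lit 0x380c2) (nat_lit 0) (p (nat_lit 0x444aa) (nat_lit 7) (p (nat_lit 0xd1) (nat_lit 1) (p (nat_lit 0x109) (nat_lit 1) (p (nat_lit 0x101) (nat_lit 0) (p (nat_lit 0x119) (nat_lit 0) (p (nat_lit 0xc9) (nat_lit 0) (p (nat_lit 0x89) (nat_lit 1) (p (nat_lit 0x41) (nat_lit 0) (p (nat_lit 0x8078907089a) (nat_lit 0) (p (nat_lit 0x7870886861a) (nat_lit 0) (p (nat_lit 0x800070806078a) (nat_lit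 0) (p (nat_lit 0x800068785850a) (nat_lit 0) (p (nat_lit 0x587050682) (nat_lit 0) (p (nat_lit 0x506848402) (nat_lit 0) (p (nat_lit 0x160014) (nat_lit 0) (p (nat_lit 0x16000c) (nat_lit 0) (p (nat_lit 0x50612) (nat_lit 0) (p (nat_lit 0x40592) (nat_lit 0) (p (nat_lit 0x40492) (nat_lit 0) (p (nat_lit 0x30412) (nat_lit 0) (p (nat_lit 0x30212) (nat_lit 0) (p (nat_lit 0x20192) (nat_lit 0) (p (nat_lit 0x20092) (nat_lit 0) (p (nat_lit 0x10012) (nat_lit 0) pn)))))))))))))))))))))))))))))) :=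
  Cl.node (nat_lit 0x111) (nat_lit 2) (by decide +kernel) (ClAll.succ (ClAll.succ ClAll.zero s744) s745)

def n248 : Cl (O (nat_lit 1)) (R (nat_lit 104465))
    (p (nat_lit 0x8400c) (nat_lit 0) (p (nat_lit 0x108014) (nat_lit 0) (p (nat_lit 0x10800c) (nat_lit 0) (p (nat_lit 0x100004) (nat_lit 1) (p (nat_lit 0x200004) (nat_lit 0) (p (nat_lit 0x380c2) (nat_lit 0) (p (nat_lit 0x444aa) (nat_lit 7) (p (nat_lit 0xd1) (nat_lit 1) (p (nat_lit 0x109) (nat_lit 1) (p (nat_lit 0x101) (nat_lit 0) (p (nat_lit 0x119) (nat_lit 0) (p (nat_lit 0xc9) (nat_lit 0) (p (nat_lit 0x89) (nat_lit 1) (p (nat_lit 0x41) (nat_lit 0) (p (nat_lit 0x8078907089a) (nat_lit 0) (p (nat_lit 0x7870886861a) (nat_lit 0) (p (nat_lit 0x800070806078a) (nat_lit 0) (p (nat_lit 0x800068785850a) (nat_lit 0) (p (nat_lit 0x587050682) (nat_lit 0) (p (nat_lit 0x506848402) (nat_lit 0) (p (nat_lit 0x160014) (nat_lit 0) (p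 (nat_lit 0x16000c) (nat_lit 0) (p (nat_lit 0x50612) (nat_lit 0) (p (nat_lit 0x40592) (nat_lit 0) (p (nat_lit 0x40492) (nat_lit 0) (p (nat_lit 0x30412) (nat_lit 0) (p (nat_lit 0x30212) (nat_lit 0) (p (nat_lit 0x20192) (nat_lit 0) (p (nat_lit 0x20092) (nat_lit 0) (p (nat_lit 0x10012) (nat_lit 0) pn)))))))))))))))))))))))))))))) :=
  Cl.node (nat_lit 0xc1) (nat_lit 2) (by decide +kernel) (ClAll.succ (ClAll.succ ClAll.zero n191) s752)

def n249 : Cl (O (nat_lit 1)) (R (nat_lit 104465))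
    (p (nat_lit 0xc9) (nat_lit 0) (p (nat_lit 0xc1) (nat_lit 0) (p (nat_lit 0x100004) (nat_lit 0) (p (nat_lit 0x200004) (nat_lit 0) (p (nat_lit 0xb0014) (nat_lit 0) (p (nat_lit 0x380c2) (nat_lit 1) (p (nat_lit 0x444aa) (nat_lit 7) (p (nat_lit 0xd1) (nat_lit 1) (p (nat_lit 0x109) (nat_lit 1) (p (nat_lit 0x101) (nat_lit 0) (p (nat_lit 0x119) (nat_lit 0) (p (nat_lit 0xc9) (nat_lit 0) (p (nat_lit 0x89) (nat_lit 1) (p (nat_lit 0x41) (nat_lit 0) (p (nat_lit 0x8078907089a) (nat_lit 0) (p (nat_lit 0x7870886861a) (nat_lit 0) (p (nat_lit 0x800070806078a) (nat_lit 0) (p (nat_lit 0x800068785850a) (nat_lit 0) (p (nat_lit 0x587050682) (nat_lit 0) (p (nat_lit 0x506848402) (nat_lit 0) (p (nat_lit 0x160014) (nat_lit 0) (p (nat_lit 0x16000c) (nat_lit 0) (p (nat_lit 0x50612) (nat_lit 0) (p (nat_lit 0x40592) (nat_lit 0) (p (nat_lit 0x40492) (nat_lit 0) (p (nat_lit 0x30412) (nat_lit 0) (p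 (nat_lit 0x30212) (nat_lit 0) (p (nat_lit 0x20192) (nat_lit 0) (p (nat_lit 0x20092) (nat_lit 0) (p (nat_lit 0x10012) (nat_lit 0) pn)))))))))))))))))))))))))))))) :=
  Cl.node (nat_lit 0x3cc2a) (nat_lit 12) (by decide +kernel) (ClAll.succ (ClAll.succ (ClAll.succ (ClAll.succ (ClAll.succ (ClAll.succ (ClAll.succ (ClAll.succ (ClAll.succ (ClAll.succ (ClAll.succ (ClAll.succ ClAll.zero n192) s759) n193) s762) s763) s764) s765) s766) s767) s768) s769) s770)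

def n250 : Cl (O (nat_lit 1)) (R (nat_lit 104465))
    (p (nat_lit 0x2680d0a8b89890a) (nat_lit 0) (p (nat_lit 0x100004) (nat_lit 0) (p (nat_lit 0xb000c) (nat_lit 0) (p (nat_lit 0x1fc004) (nat_lit 0) (p (nat_lit 0xb0014) (nat_lit 1) (p (nat_lit 0x380c2) (nat_lit 1) (p (nat_lit 0x444aa) (nat_lit 7) (p (nat_lit 0xd1) (nat_lit 1) (p (nat_lit 0x109) (nat_lit 1) (p (nat_lit 0x101) (nat_lit 0) (p (nat_lit 0x119) (nat_lit 0) (p (nat_lit 0xc9) (nat_lit 0) (p (nat_lit 0x89) (nat_lit 1) (p (nat_lit 0x41) (nat_lit 0) (p (nat_lit 0x8078907089a) (nat_lit 0) (p (nat_lit 0x7870886861a) (nat_lit 0) (p (nat_lit 0x800070806078a) (nat_lit 0) (p (nat_lit 0x800068785850a) (nat_lit 0) (p (nat_lit 0x587050682) (nat_lit 0) (p (nat_lit 0x506848402) (nat_lit 0) (p (nat_lit 0x160014) (nat_lit 0) (p (nat_lit 0x16000c) (nat_lit 0) (p (nat_lit 0x50612) (nat_lit 0) (p (nat_lit 0x40592) (nat_lit 0)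 (p (nat_lit 0x40492) (nat_lit 0) (p (nat_lit 0x30412) (nat_lit 0) (p (nat_lit 0x30212) (nat_lit 0) (p (nat_lit 0x20192) (nat_lit 0) (p (nat_lit 0x20092) (nat_lit 0) (p (nat_lit 0x10012) (nat_lit 0) pn)))))))))))))))))))))))))))))) :=
  Cl.node (nat_lit 0x2680d0b0c0a0b8a) (nat_lit 1) (by decide +kernel) (ClAll.succ ClAll.zero n194)

def n251 : Cl (O (nat_lit 1)) (R (nat_lit 104465))
    (p (nat_lit 0x2a8258a8b89890a) (nat_lit 0) (p (nat_lit 0xb000c) (nat_lit 0) (p (nat_lit 0xb0014) (nat_lit 1) (p (nat_lit 0x380c2) (nat_lit 0) (p (nat_lit 0x44c2a) (nat_lit 1) (p (nat_lit 0x109) (nat_lit 1) (p (nat_lit 0x200004) (nat_lit 0) (p (nat_lit 0xd1) (nat_lit 0) (p (nat_lit 0xc1) (nat_lit 0) (p (nat_lit 0x101) (nat_lit 1) (p (nat_lit 0x119) (nat_lit 0) (p (nat_lit 0xc9) (nat_lit 0) (p (nat_lit 0x89) (nat_lit 1) (p (nat_lit 0x41) (nat_lit 0) (p (nat_lit 0x8078907089a) (nat_lit 0)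 (p (nat_lit 0x7870886861a) (nat_lit 0) (p (nat_lit 0x800070806078a) (nat_lit 0) (p (nat_lit 0x800068785850a) (nat_lit 0) (p (nat_lit 0x587050682) (nat_lit 0) (p (nat_lit 0x506848402) (nat_lit 0) (p (nat_lit 0x160014) (nat_lit 0) (p (nat_lit 0x16000c) (nat_lit 0) (p (nat_lit 0x50612) (nat_lit 0) (p (nat_lit 0x40592) (nat_lit 0) (p (nat_lit 0x40492) (nat_lit 0) (p (nat_lit 0x30412) (nat_lit 0) (p (nat_lit 0x30212) (nat_lit 0) (p (nat_lit 0x20192) (nat_lit 0) (p (nat_lit 0x20092) (nat_lit 0) (p (nat_lit 0x10012) (nat_lit 0) pn)))))))))))))))))))))))))))))) :=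
  Cl.node (nat_lit 0x2a8258b0c0a0b8a) (nat_lit 1) (by decide +kernel) (ClAll.succ ClAll.zero n195)

def n252 : Cl (O (nat_lit 1)) (R (nat_lit 104465))
    (p (nat_lit 0x100004) (nat_lit 0) (p (nat_lit 0x119) (nat_lit 1) (p (nat_lit 0xc9) (nat_lit 0) (p (nat_lit 0x200004) (nat_lit 0) (p (nat_lit 0xb000c) (nat_lit 0) (p (nat_lit 0x380c2) (nat_lit 0) (p (nat_lit 0x444aa) (nat_lit 7) (p (nat_lit 0xd1) (nat_lit 1) (p (nat_lit 0xc1) (nat_lit 0) (p (nat_lit 0x101) (nat_lit 1) (p (nat_lit 0x119) (nat_lit 0) (p (nat_lit 0xc9) (nat_lit 0) (p (nat_lit 0x89) (nat_lit 1) (p (nat_lit 0x41) (nat_lit 0) (p (nat_lit 0x8078907089a) (nat_lit 0) (p (nat_lit 0x7870886861a) (nat_lit 0) (p (nat_lit 0x800070806078a) (nat_lit 0) (p (nat_lit 0x800068785850a) (nat_lit 0) (p (nat_lit 0x587050682) (nat_lit 0) (p (nat_lit 0x506848402) (nat_lit 0) (p (nat_lit 0x160014) (nat_lit 0) (p (nat_lit 0x16000c)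 (nat_lit 0) (p (nat_lit 0x50612) (nat_lit 0) (p (nat_lit 0x40592) (nat_lit 0) (p (nat_lit 0x40492) (nat_lit 0) (p (nat_lit 0x30412) (nat_lit 0) (p (nat_lit 0x30212) (nat_lit 0) (p (nat_lit 0x20192) (nat_lit 0) (p (nat_lit 0x20092) (nat_lit 0) (p (nat_lit 0x10012) (nat_lit 0) pn)))))))))))))))))))))))))))))) :=
  Cl.node (nat_lit 0xd1) (nat_lit 2) (by decide +kernel) (ClAll.succ (ClAll.succ ClAll.zero n196) s859)

def n253 : Cl (O (nat_lit 1)) (R (nat_lit 104465))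
    (p (nat_lit 0xb000c) (nat_lit 0) (p (nat_lit 0x119) (nat_lit 1) (p (nat_lit 0xc9) (nat_lit 0) (p (nat_lit 0x100004) (nat_lit 0) (p (nat_lit 0x200004) (nat_lit 0) (p (nat_lit 0x380c2) (nat_lit 1) (p (nat_lit 0x444aa) (nat_lit 7) (p (nat_lit 0xd1) (nat_lit 1) (p (nat_lit 0xc1) (nat_lit 0) (p (nat_lit 0x101) (nat_lit 1) (p (nat_lit 0x119) (nat_lit 0) (p (nat_lit 0xc9) (nat_lit 0) (p (nat_lit 0x89) (nat_lit 1) (p (nat_lit 0x41) (nat_lit 0) (p (nat_lit 0x8078907089a) (nat_lit 0) (p (nat_lit 0x7870886861a) (nat_lit 0) (p (nat_lit 0x800070806078a) (nat_lit 0) (p (nat_lit 0x800068785850a) (nat_lit 0) (p (nat_lit 0x587050682) (nat_lit 0) (p (nat_lit 0x506848402) (nat_lit 0) (p (nat_lit 0x160014) (nat_lit 0) (p (nat_lit 0x16000c) (nat_lit 0) (p (nat_lit 0x50612) (nat_lit 0) (p (nat_lit 0x40592) (nat_lit 0) (p (nat_lit 0x40492) (nat_lit 0) (p (nat_lit 0x30412) (nat_lit 0) (p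 (nat_lit 0x30212) (nat_lit 0) (p (nat_lit 0x20192) (nat_lit 0) (p (nat_lit 0x20092) (nat_lit 0) (p (nat_lit 0x10012) (nat_lit 0) pn)))))))))))))))))))))))))))))) :=
  Cl.node (nat_lit 0xd1) (nat_lit 2) (by decide +kernel) (ClAll.succ (ClAll.succ ClAll.zero n197) s877)

def n254 : Cl (O (nat_lit 1)) (R (nat_lit 104465))
    (p (nat_lit 0x3cc2a) (nat_lit 2) (p (nat_lit 0x109) (nat_lit 0) (p (nat_lit 0x101) (nat_lit 0) (p (nat_lit 0x100004) (nat_lit 0) (p (nat_lit 0x200004) (nat_lit 0) (p (nat_lit 0x380c2) (nat_lit 0) (p (nat_lit 0x444aa) (nat_lit 7) (p (nat_lit 0x111) (nat_lit 1) (p (nat_lit 0xd1) (nat_lit 1) (p (nat_lit 0xc1) (nat_lit 0) (p (nat_lit 0x119) (nat_lit 1) (p (nat_lit 0xc9) (nat_lit 0) (p (nat_lit 0x89) (nat_lit 1) (p (nat_lit 0x41) (nat_lit 0) (p (nat_lit 0x8078907089a) (nat_lit 0) (p (nat_lit 0x7870886861a) (nat_lit 0) (p (nat_lit 0x800070806078a) (nat_lit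 0) (p (nat_lit 0x800068785850a) (nat_lit 0) (p (nat_lit 0x587050682) (nat_lit 0) (p (nat_lit 0x506848402) (nat_lit 0) (p (nat_lit 0x160014) (nat_lit 0) (p (nat_lit 0x16000c) (nat_lit 0) (p (nat_lit 0x50612) (nat_lit 0) (p (nat_lit 0x40592) (nat_lit 0) (p (nat_lit 0x40492) (nat_lit 0) (p (nat_lit 0x30412) (nat_lit 0) (p (nat_lit 0x30212) (nat_lit 0) (p (nat_lit 0x20192) (nat_lit 0) (p (nat_lit 0x20092) (nat_lit 0) (p (nat_lit 0x10012) (nat_lit 0) pn)))))))))))))))))))))))))))))) :=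
  Cl.node (nat_lit 0x380c2) (nat_lit 1) (by decide +kernel) (ClAll.succ ClAll.zero n198)

def n255 : Cl (O (nat_lit 1)) (R (nat_lit 104465))
    (p (nat_lit 0xb0014) (nat_lit 0) (p (nat_lit 0x80004) (nat_lit 0) (p (nat_lit 0x109) (nat_lit 0) (p (nat_lit 0x100004) (nat_lit 0) (p (nat_lit 0x200004) (nat_lit 0) (p (nat_lit 0x380c2) (nat_lit 1) (p (nat_lit 0x444aa) (nat_lit 7) (p (nat_lit 0x111) (nat_lit 1) (p (nat_lit 0xd1) (nat_lit 1) (p (nat_lit 0xc1) (nat_lit 0) (p (nat_lit 0x119) (nat_lit 1) (p (nat_lit 0xc9) (nat_lit 0) (p (nat_lit 0x89) (nat_lit 1) (p (nat_lit 0x41) (nat_lit 0) (p (nat_lit 0x8078907089a) (nat_lit 0) (p (nat_lit 0x7870886861a) (nat_lit 0) (p (nat_lit 0x800070806078a) (nat_lit 0) (p (nat_lit 0x800068785850a) (nat_lit 0) (p (nat_lit 0x587050682) (nat_lit 0) (p (nat_lit 0x506848402) (nat_lit 0) (p (nat_lit 0x160014) (nat_lit 0) (p (nat_lit 0x16000c) (nat_lit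 0) (p (nat_lit 0x50612) (nat_lit 0) (p (nat_lit 0x40592) (nat_lit 0) (p (nat_lit 0x40492) (nat_lit 0) (p (nat_lit 0x30412) (nat_lit 0) (p (nat_lit 0x30212) (nat_lit 0) (p (nat_lit 0x20192) (nat_lit 0) (p (nat_lit 0x20092) (nat_lit 0) (p (nat_lit 0x10012) (nat_lit 0) pn)))))))))))))))))))))))))))))) :=
  Cl.node (nat_lit 0x101) (nat_lit 2) (by decide +kernel) (ClAll.succ (ClAll.succ ClAll.zero s916) s917)

def n256 : Cl (O (nat_lit 1)) (R (nat_lit 104465))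
    (p (nat_lit 0x13400c) (nat_lit 0) (p (nat_lit 0x80004) (nat_lit 1) (p (nat_lit 0x109) (nat_lit 0) (p (nat_lit 0x100004) (nat_lit 0) (p (nat_lit 0x200004) (nat_lit 0) (p (nat_lit 0x380c2) (nat_lit 1) (p (nat_lit 0x444aa) (nat_lit 7) (p (nat_lit 0x111) (nat_lit 1) (p (nat_lit 0xd1) (nat_lit 1) (p (nat_lit 0xc1) (nat_lit 0) (p (nat_lit 0x119) (nat_lit 1) (p (nat_lit 0xc9) (nat_lit 0) (p (nat_lit 0x89) (nat_lit 1) (p (nat_lit 0x41) (nat_lit 0) (p (nat_lit 0x8078907089a) (nat_lit 0) (p (nat_lit 0x7870886861a) (nat_lit 0) (p (nat_lit 0x800070806078a) (nat_lit 0) (p (nat_lit 0x800068785850a) (nat_lit 0) (p (nat_lit 0x587050682) (nat_lit 0) (p (nat_lit 0x506848402) (nat_lit 0) (p (nat_lit 0x160014) (nat_lit 0) (p (nat_lit 0x16000c) (nat_lit 0) (p (nat_lit 0x50612) (nat_lit 0) (p (nat_lit 0x40592) (nat_lit 0) (p (nat_lit 0x40492) (nat_lit 0) (p (nat_lit 0x30412) (nat_lit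 0) (p (nat_lit 0x30212) (nat_lit 0) (p (nat_lit 0x20192) (nat_lit 0) (p (nat_lit 0x20092) (nat_lit 0) (p (nat_lit 0x10012) (nat_lit 0) pn)))))))))))))))))))))))))))))) :=
  Cl.node (nat_lit 0x134014) (nat_lit 2) (by decide +kernel) (ClAll.succ (ClAll.succ ClAll.zero n199) s921)

def n257 : Cl (O (nat_lit 1)) (R (nat_lit 104465))
    (p (nat_lit 0x81) (nat_lit 1) (p (nat_lit 0x41) (nat_lit 1) (p (nat_lit 0x101) (nat_lit 1) (p (nat_lit 0xb0014) (nat_lit 0) (p (nat_lit 0x200004) (nat_lit 0) (p (nat_lit 0x380c2) (nat_lit 0) (p (nat_lit 0x44c2a) (nat_lit 0) (p (nat_lit 0x111) (nat_lit 0) (p (nat_lit 0x101) (nat_lit 0) (p (nat_lit 0xc1) (nat_lit 1) (p (nat_lit 0x119) (nat_lit 1) (p (nat_lit 0xc9) (nat_lit 0) (p (nat_lit 0x89) (nat_lit 1) (p (nat_lit 0x41) (nat_lit 0) (p (nat_lit 0x8078907089a) (nat_lit 0) (p (nat_lit 0x7870886861a) (nat_lit 0) (p (nat_lit 0x800070806078a)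 (nat_lit 0) (p (nat_lit 0x800068785850a) (nat_lit 0) (p (nat_lit 0x587050682) (nat_lit 0) (p (nat_lit 0x506848402) (nat_lit 0) (p (nat_lit 0x160014) (nat_lit 0) (p (nat_lit 0x16000c) (nat_lit 0) (p (nat_lit 0x50612) (nat_lit 0) (p (nat_lit 0x40592) (nat_lit 0) (p (nat_lit 0x40492) (nat_lit 0) (p (nat_lit 0x30412) (nat_lit 0) (p (nat_lit 0x30212) (nat_lit 0) (p (nat_lit 0x20192) (nat_lit 0) (p (nat_lit 0x20092) (nat_lit 0) (p (nat_lit 0x10012) (nat_lit 0) pn)))))))))))))))))))))))))))))) :=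
  Cl.node (nat_lit 0xc1) (nat_lit 2) (by decide +kernel) (ClAll.succ (ClAll.succ ClAll.zero s933) s934)

def n258 : Cl (O (nat_lit 1)) (R (nat_lit 104465))
    (p (nat_lit 0x2a8258b0c0a0b8a) (nat_lit 0) (p (nat_lit 0x2a8258a8b89890a) (nat_lit 0) (p (nat_lit 0xb000c) (nat_lit 0) (p (nat_lit 0x1fc004) (nat_lit 0) (p (nat_lit 0xb0014) (nat_lit 1) (p (nat_lit 0x380c2) (nat_lit 0) (p (nat_lit 0x444aa) (nat_lit 7) (p (nat_lit 0x111) (nat_lit 1) (p (nat_lit 0x101) (nat_lit 0) (p (nat_lit 0xc1) (nat_lit 1) (p (nat_lit 0x119) (nat_lit 1) (p (nat_lit 0xc9) (nat_lit 0) (p (nat_lit 0x89) (nat_lit 1) (p (nat_lit 0x41) (nat_lit 0) (p (nat_lit 0x8078907089a) (nat_lit 0) (p (nat_lit 0x7870886861a) (nat_lit 0) (p (nat_lit 0x800070806078a) (nat_lit 0) (p (nat_lit 0x800068785850a) (nat_lit 0) (p (nat_lit 0x587050682) (nat_lit 0) (p (nat_lit 0x506848402) (nat_lit 0) (p (nat_lit 0x160014)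 (nat_lit 0) (p (nat_lit 0x16000c) (nat_lit 0) (p (nat_lit 0x50612) (nat_lit 0) (p (nat_lit 0x40592) (nat_lit 0) (p (nat_lit 0x40492) (nat_lit 0) (p (nat_lit 0x30412) (nat_lit 0) (p (nat_lit 0x30212) (nat_lit 0) (p (nat_lit 0x20192) (nat_lit 0) (p (nat_lit 0x20092) (nat_lit 0) (p (nat_lit 0x10012) (nat_lit 0) pn)))))))))))))))))))))))))))))) :=
  Cl.node (nat_lit 0xb8b0c8a8a1a) (nat_lit 1) (by decide +kernel) (ClAll.succ ClAll.zero n200)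

def n259 : Cl (O (nat_lit 1)) (R (nat_lit 104465))
    (p (nat_lit 0x81) (nat_lit 0) (p (nat_lit 0x108014) (nat_lit 0) (p (nat_lit 0x100004) (nat_lit 1) (p (nat_lit 0xb000c) (nat_lit 0) (p (nat_lit 0x200004) (nat_lit 0) (p (nat_lit 0x380c2) (nat_lit 0) (p (nat_lit 0x444aa) (nat_lit 7) (p (nat_lit 0x119) (nat_lit 1) (p (nat_lit 0x111) (nat_lit 0) (p (nat_lit 0x101) (nat_lit 0) (p (nat_lit 0x109) (nat_lit 0) (p (nat_lit 0xc9) (nat_lit 1) (p (nat_lit 0x89) (nat_lit 1) (p (nat_lit 0x41) (nat_lit 0) (p (nat_lit 0x8078907089a) (nat_lit 0) (p (nat_lit 0x7870886861a) (nat_lit 0) (p (nat_lit 0x800070806078a) (nat_lit 0) (p (nat_lit 0x800068785850a) (nat_lit 0) (p (nat_lit 0x587050682) (nat_lit 0) (p (nat_lit 0x506848402) (nat_lit 0) (p (nat_lit 0x160014) (nat_lit 0) (p (nat_lit 0x16000c) (nat_lit 0) (p (nat_lit 0x50612) (nat_lit 0) (p (nat_lit 0x40592) (nat_lit 0) (p (nat_lit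 0x40492) (nat_lit 0) (p (nat_lit 0x30412) (nat_lit 0) (p (nat_lit 0x30212) (nat_lit 0) (p (nat_lit 0x20192) (nat_lit 0) (p (nat_lit 0x20092) (nat_lit 0) (p (nat_lit 0x10012) (nat_lit 0) pn)))))))))))))))))))))))))))))) :=
  Cl.node (nat_lit 0x84014) (nat_lit 2) (by decide +kernel) (ClAll.succ (ClAll.succ ClAll.zero s998) s999)

def n260 : Cl (O (nat_lit 1)) (R (nat_lit 104465))
    (p (nat_lit 0x380c2) (nat_lit 0) (p (nat_lit 0x444aa) (nat_lit 7) (p (nat_lit 0xd1) (nat_lit 1) (p (nat_lit 0x200004) (nat_lit 0) (p (nat_lit 0x380c2) (nat_lit 0) (p (nat_lit 0x4c42a) (nat_lit 10) (p (nat_lit 0xc9) (nat_lit 0) (p (nat_lit 0x89) (nat_lit 1) (p (nat_lit 0x109) (nat_lit 1) (p (nat_lit 0x101) (nat_lit 0) (p (nat_lit 0x119) (nat_lit 0) (p (nat_lit 0xd1) (nat_lit 0) (p (nat_lit 0x81) (nat_lit 0) (p (nat_lit 0x41) (nat_lit 1) (p (nat_lit 0x8078907089a) (nat_lit 0) (p (nat_lit 0x7870886861a)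 (nat_lit 0) (p (nat_lit 0x800070806078a) (nat_lit 0) (p (nat_lit 0x800068785850a) (nat_lit 0) (p (nat_lit 0x587050682) (nat_lit 0) (p (nat_lit 0x506848402) (nat_lit 0) (p (nat_lit 0x160014) (nat_lit 0) (p (nat_lit 0x16000c) (nat_lit 0) (p (nat_lit 0x50612) (nat_lit 0) (p (nat_lit 0x40592) (nat_lit 0) (p (nat_lit 0x40492) (nat_lit 0) (p (nat_lit 0x30412) (nat_lit 0) (p (nat_lit 0x30212) (nat_lit 0) (p (nat_lit 0x20192) (nat_lit 0) (p (nat_lit 0x20092) (nat_lit 0) (p (nat_lit 0x10012) (nat_lit 0) pn)))))))))))))))))))))))))))))) :=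
  Cl.node (nat_lit 0xb0014) (nat_lit 2) (by decide +kernel) (ClAll.succ (ClAll.succ ClAll.zero s1073) s1074)

def n261 : Cl (O (nat_lit 1)) (R (nat_lit 104465))
    (p (nat_lit 0xb0014) (nat_lit 0) (p (nat_lit 0xd1) (nat_lit 1) (p (nat_lit 0x100004) (nat_lit 0) (p (nat_lit 0x200004) (nat_lit 0) (p (nat_lit 0x380c2) (nat_lit 0) (p (nat_lit 0x4c42a) (nat_lit 10) (p (nat_lit 0xc9) (nat_lit 0) (p (nat_lit 0x89) (nat_lit 1) (p (nat_lit 0xc1) (nat_lit 0) (p (nat_lit 0x101) (nat_lit 1) (p (nat_lit 0x119) (nat_lit 0) (p (nat_lit 0xd1) (nat_lit 0) (p (nat_lit 0x81) (nat_lit 0) (p (nat_lit 0x41) (nat_lit 1) (p (nat_lit 0x8078907089a) (nat_lit 0) (p (nat_lit 0x7870886861a) (nat_lit 0) (p (nat_lit 0x800070806078a) (nat_lit 0) (p (nat_lit 0x800068785850a) (nat_lit 0) (p (nat_lit 0x587050682) (nat_lit 0) (p (nat_lit 0x506848402) (nat_lit 0) (p (nat_lit 0x160014) (nat_lit 0) (p (nat_lit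 0x16000c) (nat_lit 0) (p (nat_lit 0x50612) (nat_lit 0) (p (nat_lit 0x40592) (nat_lit 0) (p (nat_lit 0x40492) (nat_lit 0) (p (nat_lit 0x30412) (nat_lit 0) (p (nat_lit 0x30212) (nat_lit 0) (p (nat_lit 0x20192) (nat_lit 0) (p (nat_lit 0x20092) (nat_lit 0) (p (nat_lit 0x10012) (nat_lit 0) pn)))))))))))))))))))))))))))))) :=
  Cl.node (nat_lit 0x111) (nat_lit 2) (by decide +kernel) (ClAll.succ (ClAll.succ ClAll.zero s1123) n201)

def n262 : Cl (O (nat_lit 1)) (R (nat_lit 104465))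
    (p (nat_lit 0xc9) (nat_lit 0) (p (nat_lit 0x109) (nat_lit 1) (p (nat_lit 0x101) (nat_lit 0) (p (nat_lit 0xb000c) (nat_lit 0) (p (nat_lit 0xb0014) (nat_lit 0) (p (nat_lit 0x380c2) (nat_lit 0) (p (nat_lit 0x3cc2a) (nat_lit 2) (p (nat_lit 0x89) (nat_lit 0) (p (nat_lit 0xc1) (nat_lit 1) (p (nat_lit 0x101) (nat_lit 1) (p (nat_lit 0x119) (nat_lit 0) (p (nat_lit 0xd1) (nat_lit 0) (p (nat_lit 0x81) (nat_lit 0) (p (nat_lit 0x41) (nat_lit 1) (p (nat_lit 0x8078907089a) (nat_lit 0) (p (nat_lit 0x7870886861a) (nat_lit 0) (p (nat_lit 0x800070806078a) (nat_lit 0) (p (nat_lit 0x800068785850a) (nat_lit 0) (p (nat_lit 0x587050682) (nat_lit 0) (p (nat_lit 0x506848402) (nat_lit 0) (p (nat_lit 0x160014) (nat_lit 0) (p (nat_lit 0x16000c) (nat_lit 0) (p (nat_lit 0x50612) (nat_lit 0) (p (nat_lit 0x40592) (nat_lit 0) (p (nat_lit 0x40492) (nat_lit 0) (p (nat_lit 0x30412) (nat_lit 0) (p (nat_lit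 0x30212) (nat_lit 0) (p (nat_lit 0x20192) (nat_lit 0) (p (nat_lit 0x20092) (nat_lit 0) (p (nat_lit 0x10012) (nat_lit 0) pn)))))))))))))))))))))))))))))) :=
  Cl.node (nat_lit 0x111) (nat_lit 2) (by decide +kernel) (ClAll.succ (ClAll.succ ClAll.zero s1156) s1157)

def n263 : Cl (O (nat_lit 1)) (R (nat_lit 104465))
    (p (nat_lit 0xc9) (nat_lit 1) (p (nat_lit 0x109) (nat_lit 1) (p (nat_lit 0x101) (nat_lit 0) (p (nat_lit 0xb000c) (nat_lit 0) (p (nat_lit 0xb0014) (nat_lit 0) (p (nat_lit 0x380c2) (nat_lit 0) (p (nat_lit 0x3cc2a) (nat_lit 2) (p (nat_lit 0x89) (nat_lit 0) (p (nat_lit 0xc1) (nat_lit 1) (p (nat_lit 0x101) (nat_lit 1) (p (nat_lit 0x119) (nat_lit 0) (p (nat_lit 0xd1) (nat_lit 0) (p (nat_lit 0x81) (nat_lit 0) (p (nat_lit 0x41) (nat_lit 1) (p (nat_lit 0x8078907089a) (nat_lit 0) (p (nat_lit 0x7870886861a) (nat_lit 0) (p (nat_lit 0x800070806078a) (nat_lit 0) (p (nat_lit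 0x800068785850a) (nat_lit 0) (p (nat_lit 0x587050682) (nat_lit 0) (p (nat_lit 0x506848402) (nat_lit 0) (p (nat_lit 0x160014) (nat_lit 0) (p (nat_lit 0x16000c) (nat_lit 0) (p (nat_lit 0x50612) (nat_lit 0) (p (nat_lit 0x40592) (nat_lit 0) (p (nat_lit 0x40492) (nat_lit 0) (p (nat_lit 0x30412) (nat_lit 0) (p (nat_lit 0x30212) (nat_lit 0) (p (nat_lit 0x20192) (nat_lit 0) (p (nat_lit 0x20092) (nat_lit 0) (p (nat_lit 0x10012) (nat_lit 0) pn)))))))))))))))))))))))))))))) :=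
  Cl.node (nat_lit 0x111) (nat_lit 2) (by decide +kernel) (ClAll.succ (ClAll.succ ClAll.zero n202) n203)

def n264 : Cl (O (nat_lit 1)) (R (nat_lit 104465))
    (p (nat_lit 0x109) (nat_lit 1) (p (nat_lit 0x89) (nat_lit 1) (p (nat_lit 0x101) (nat_lit 1) (p (nat_lit 0xb000c) (nat_lit 0) (p (nat_lit 0xb0014) (nat_lit 0) (p (nat_lit 0x380c2) (nat_lit 0) (p (nat_lit 0x3cc2a) (nat_lit 2) (p (nat_lit 0x89) (nat_lit 0) (p (nat_lit 0xc1) (nat_lit 1) (p (nat_lit 0x101) (nat_lit 1) (p (nat_lit 0x119) (nat_lit 0) (p (nat_lit 0xd1) (nat_lit 0) (p (nat_lit 0x81) (nat_lit 0) (p (nat_lit 0x41) (nat_lit 1) (p (nat_lit 0x8078907089a) (nat_lit 0) (p (nat_lit 0x7870886861a) (nat_lit 0) (p (nat_lit 0x800070806078a) (nat_lit 0) (p (nat_lit 0x800068785850a) (nat_lit 0) (p (nat_lit 0x587050682) (nat_lit 0) (p (nat_lit 0x506848402) (nat_lit 0) (p (nat_lit 0x160014) (nat_lit 0) (p (nat_lit 0x16000c)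 (nat_lit 0) (p (nat_lit 0x50612) (nat_lit 0) (p (nat_lit 0x40592) (nat_lit 0) (p (nat_lit 0x40492) (nat_lit 0) (p (nat_lit 0x30412) (nat_lit 0) (p (nat_lit 0x30212) (nat_lit 0) (p (nat_lit 0x20192) (nat_lit 0) (p (nat_lit 0x20092) (nat_lit 0) (p (nat_lit 0x10012) (nat_lit 0) pn)))))))))))))))))))))))))))))) :=
  Cl.node (nat_lit 0x41) (nat_lit 2) (by decide +kernel) (ClAll.succ (ClAll.succ ClAll.zero s1169) s1170)

def n265 : Cl (O (nat_lit 1)) (R (nat_lit 104465))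
    (p (nat_lit 0x2680d0a8b89890a) (nat_lit 0) (p (nat_lit 0x100004) (nat_lit 0) (p (nat_lit 0x1fc004) (nat_lit 0) (p (nat_lit 0xb000c) (nat_lit 1) (p (nat_lit 0xb0014) (nat_lit 0) (p (nat_lit 0x380c2) (nat_lit 0) (p (nat_lit 0x3cc2a) (nat_lit 2) (p (nat_lit 0x89) (nat_lit 0) (p (nat_lit 0xc1) (nat_lit 1) (p (nat_lit 0x101) (nat_lit 1) (p (nat_lit 0x119) (nat_lit 0) (p (nat_lit 0xd1) (nat_lit 0) (p (nat_lit 0x81) (nat_lit 0) (p (nat_lit 0x41) (nat_lit 1) (p (nat_lit 0x8078907089a) (nat_lit 0) (p (nat_lit 0x7870886861a) (nat_lit 0) (p (nat_lit 0x800070806078a) (nat_lit 0) (p (nat_lit 0x800068785850a) (nat_lit 0) (p (nat_lit 0x587050682) (nat_lit 0) (p (nat_lit 0x506848402) (nat_lit 0) (p (nat_lit 0x160014) (nat_lit 0) (p (nat_lit 0x16000c) (nat_lit 0) (p (nat_lit 0x50612) (nat_lit 0) (p (nat_lit 0x40592) (nat_lit 0) (p (nat_lit 0x40492) (nat_lit 0) (p (nat_lit 0x30412)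 (nat_lit 0) (p (nat_lit 0x30212) (nat_lit 0) (p (nat_lit 0x20192) (nat_lit 0) (p (nat_lit 0x20092) (nat_lit 0) (p (nat_lit 0x10012) (nat_lit 0) pn)))))))))))))))))))))))))))))) :=
  Cl.node (nat_lit 0x2680d0b0c0a0b8a) (nat_lit 1) (by decide +kernel) (ClAll.succ ClAll.zero n204)

def n266 : Cl (O (nat_lit 1)) (R (nat_lit 104465))
    (p (nat_lit 0xc9) (nat_lit 1) (p (nat_lit 0x119) (nat_lit 1) (p (nat_lit 0x81) (nat_lit 0) (p (nat_lit 0xb000c) (nat_lit 0) (p (nat_lit 0x380c2) (nat_lit 0) (p (nat_lit 0x3c4aa) (nat_lit 8) (p (nat_lit 0x109) (nat_lit 1) (p (nat_lit 0x89) (nat_lit 1) (p (nat_lit 0x101) (nat_lit 0) (p (nat_lit 0xc1) (nat_lit 1) (p (nat_lit 0x119) (nat_lit 1) (p (nat_lit 0xd1) (nat_lit 0) (p (nat_lit 0x81) (nat_lit 0) (p (nat_lit 0x41) (nat_lit 1) (p (nat_lit 0x8078907089a) (nat_lit 0) (p (nat_lit 0x7870886861a) (nat_lit 0) (p (nat_lit 0x800070806078a) (nat_lit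 0) (p (nat_lit 0x800068785850a) (nat_lit 0) (p (nat_lit 0x587050682) (nat_lit 0) (p (nat_lit 0x506848402) (nat_lit 0) (p (nat_lit 0x160014) (nat_lit 0) (p (nat_lit 0x16000c) (nat_lit 0) (p (nat_lit 0x50612) (nat_lit 0) (p (nat_lit 0x40592) (nat_lit 0) (p (nat_lit 0x40492) (nat_lit 0) (p (nat_lit 0x30412) (nat_lit 0) (p (nat_lit 0x30212) (nat_lit 0) (p (nat_lit 0x20192) (nat_lit 0) (p (nat_lit 0x20092) (nat_lit 0) (p (nat_lit 0x10012) (nat_lit 0) pn)))))))))))))))))))))))))))))) :=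
  Cl.node (nat_lit 0x4c42a) (nat_lit 12) (by decide +kernel) (ClAll.succ (ClAll.succ (ClAll.succ (ClAll.succ (ClAll.succ (ClAll.succ (ClAll.succ (ClAll.succ (ClAll.succ (ClAll.succ (ClAll.succ (ClAll.succ ClAll.zero s1286) s1287) s1288) s1289) s1290) s1291) s1292) s1293) s1294) s1295) n205) s1298)

def n267 : Cl (O (nat_lit 1)) (R (nat_lit 104465))
    (p (nat_lit 0x2a8258a8b89890a) (nat_lit 0) (p (nat_lit 0xb0014) (nat_lit 0) (p (nat_lit 0x1fc004) (nat_lit 0) (p (nat_lit 0xb000c) (nat_lit 1) (p (nat_lit 0x380c2) (nat_lit 0) (p (nat_lit 0x3c4aa) (nat_lit 8) (p (nat_lit 0x109) (nat_lit 1) (p (nat_lit 0x89) (nat_lit 1) (p (nat_lit 0x101) (nat_lit 0) (p (nat_lit 0xc1) (nat_lit 1) (p (nat_lit 0x119) (nat_lit 1) (p (nat_lit 0xd1) (nat_lit 0) (p (nat_lit 0x81) (nat_lit 0) (p (nat_lit 0x41) (nat_lit 1) (p (nat_lit 0x8078907089a) (nat_lit 0) (p (nat_lit 0x7870886861a) (nat_lit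 0) (p (nat_lit 0x800070806078a) (nat_lit 0) (p (nat_lit 0x800068785850a) (nat_lit 0) (p (nat_lit 0x587050682) (nat_lit 0) (p (nat_lit 0x506848402) (nat_lit 0) (p (nat_lit 0x160014) (nat_lit 0) (p (nat_lit 0x16000c) (nat_lit 0) (p (nat_lit 0x50612) (nat_lit 0) (p (nat_lit 0x40592) (nat_lit 0) (p (nat_lit 0x40492) (nat_lit 0) (p (nat_lit 0x30412) (nat_lit 0) (p (nat_lit 0x30212) (nat_lit 0) (p (nat_lit 0x20192) (nat_lit 0) (p (nat_lit 0x20092) (nat_lit 0) (p (nat_lit 0x10012) (nat_lit 0) pn)))))))))))))))))))))))))))))) :=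
  Cl.node (nat_lit 0x2a8258b0c0a0b8a) (nat_lit 1) (by decide +kernel) (ClAll.succ ClAll.zero n206)

def n268 : Cl (O (nat_lit 1)) (R (nat_lit 104465))
    (p (nat_lit 0x109) (nat_lit 1) (p (nat_lit 0x100004) (nat_lit 0) (p (nat_lit 0x200004) (nat_lit 0) (p (nat_lit 0x380c2) (nat_lit 1) (p (nat_lit 0x4c42a) (nat_lit 10) (p (nat_lit 0x119) (nat_lit 0) (p (nat_lit 0xc9) (nat_lit 0) (p (nat_lit 0x89) (nat_lit 1) (p (nat_lit 0x109) (nat_lit 1) (p (nat_lit 0x101) (nat_lit 0) (p (nat_lit 0x111) (nat_lit 0) (p (nat_lit 0xd1) (nat_lit 1) (p (nat_lit 0x81) (nat_lit 0) (p (nat_lit 0x41) (nat_lit 1) (p (nat_lit 0x8078907089a) (nat_lit 0) (p (nat_lit 0x7870886861a) (nat_lit 0) (p (nat_lit 0x800070806078a) (nat_lit 0) (p (nat_lit 0x800068785850a) (nat_lit 0) (p (nat_lit 0x587050682) (nat_lit 0) (p (nat_lit 0x506848402) (nat_lit 0) (p (nat_lit 0x160014) (nat_lit 0) (p (nat_lit 0x16000c)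 (nat_lit 0) (p (nat_lit 0x50612) (nat_lit 0) (p (nat_lit 0x40592) (nat_lit 0) (p (nat_lit 0x40492) (nat_lit 0) (p (nat_lit 0x30412) (nat_lit 0) (p (nat_lit 0x30212) (nat_lit 0) (p (nat_lit 0x20192) (nat_lit 0) (p (nat_lit 0x20092) (nat_lit 0) (p (nat_lit 0x10012) (nat_lit 0) pn)))))))))))))))))))))))))))))) :=
  Cl.node (nat_lit 0x41) (nat_lit 2) (by decide +kernel) (ClAll.succ (ClAll.succ ClAll.zero n207) s1402)

def n269 : Cl (O (nat_lit 1)) (R (nat_lit 104465))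
    (p (nat_lit 0xb0014) (nat_lit 0) (p (nat_lit 0x100004) (nat_lit 0) (p (nat_lit 0x200004) (nat_lit 0) (p (nat_lit 0x380c2) (nat_lit 0) (p (nat_lit 0x4c42a) (nat_lit 10) (p (nat_lit 0x119) (nat_lit 1) (p (nat_lit 0xc9) (nat_lit 0) (p (nat_lit 0x89) (nat_lit 1) (p (nat_lit 0x109) (nat_lit 1) (p (nat_lit 0x101) (nat_lit 0) (p (nat_lit 0x111) (nat_lit 0) (p (nat_lit 0xd1) (nat_lit 1) (p (nat_lit 0x81) (nat_lit 0) (p (nat_lit 0x41) (nat_lit 1) (p (nat_lit 0x8078907089a) (nat_lit 0) (p (nat_lit 0x7870886861a) (nat_lit 0) (p (nat_lit 0x800070806078a) (nat_lit 0) (p (nat_lit 0x800068785850a) (nat_lit 0) (p (nat_lit 0x587050682) (nat_lit 0) (p (nat_lit 0x506848402) (nat_lit 0) (p (nat_lit 0x160014) (nat_lit 0) (p (nat_lit 0x16000c) (nat_lit 0) (p (nat_lit 0x50612) (nat_lit 0) (p (nat_lit 0x40592) (nat_lit 0) (p (nat_lit 0x40492) (nat_lit 0) (p (nat_lit 0x30412) (nat_lit 0)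 (p (nat_lit 0x30212) (nat_lit 0) (p (nat_lit 0x20192) (nat_lit 0) (p (nat_lit 0x20092) (nat_lit 0) (p (nat_lit 0x10012) (nat_lit 0) pn)))))))))))))))))))))))))))))) :=
  Cl.node (nat_lit 0xc9) (nat_lit 2) (by decide +kernel) (ClAll.succ (ClAll.succ ClAll.zero s1416) n208)

def n270 : Cl (O (nat_lit 1)) (R (nat_lit 104465))
    (p (nat_lit 0x3cc2a) (nat_lit 2) (p (nat_lit 0x100004) (nat_lit 0) (p (nat_lit 0x200004) (nat_lit 0) (p (nat_lit 0x380c2) (nat_lit 1) (p (nat_lit 0x4c42a) (nat_lit 10) (p (nat_lit 0x119) (nat_lit 1) (p (nat_lit 0xc9) (nat_lit 0) (p (nat_lit 0x89) (nat_lit 1) (p (nat_lit 0x109) (nat_lit 1) (p (nat_lit 0x101) (nat_lit 0) (p (nat_lit 0x111) (nat_lit 0) (p (nat_lit 0xd1) (nat_lit 1) (p (nat_lit 0x81) (nat_lit 0) (p (nat_lit 0x41) (nat_lit 1) (p (nat_lit 0x8078907089a) (nat_lit 0) (p (nat_lit 0x7870886861a) (nat_lit 0) (p (nat_lit 0x800070806078a) (nat_lit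 0) (p (nat_lit 0x800068785850a) (nat_lit 0) (p (nat_lit 0x587050682) (nat_lit 0) (p (nat_lit 0x506848402) (nat_lit 0) (p (nat_lit 0x160014) (nat_lit 0) (p (nat_lit 0x16000c) (nat_lit 0) (p (nat_lit 0x50612) (nat_lit 0) (p (nat_lit 0x40592) (nat_lit 0) (p (nat_lit 0x40492) (nat_lit 0) (p (nat_lit 0x30412) (nat_lit 0) (p (nat_lit 0x30212) (nat_lit 0) (p (nat_lit 0x20192) (nat_lit 0) (p (nat_lit 0x20092) (nat_lit 0) (p (nat_lit 0x10012) (nat_lit 0) pn)))))))))))))))))))))))))))))) :=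
  Cl.node (nat_lit 0x380c2) (nat_lit 1) (by decide +kernel) (ClAll.succ ClAll.zero n209)

def n271 : Cl (O (nat_lit 1)) (R (nat_lit 104465))
    (p (nat_lit 0x10800c) (nat_lit 0) (p (nat_lit 0x100004) (nat_lit 1) (p (nat_lit 0x200004) (nat_lit 0) (p (nat_lit 0x380c2) (nat_lit 1) (p (nat_lit 0x4c42a) (nat_lit 10) (p (nat_lit 0x119) (nat_lit 1) (p (nat_lit 0xc9) (nat_lit 0) (p (nat_lit 0x89) (nat_lit 1) (p (nat_lit 0x109) (nat_lit 1) (p (nat_lit 0x101) (nat_lit 0) (p (nat_lit 0x111) (nat_lit 0) (p (nat_lit 0xd1) (nat_lit 1) (p (nat_lit 0x81) (nat_lit 0) (p (nat_lit 0x41) (nat_lit 1) (p (nat_lit 0x8078907089a) (nat_lit 0) (p (nat_lit 0x7870886861a) (nat_lit 0) (p (nat_lit 0x800070806078a) (nat_lit 0) (p (nat_lit 0x800068785850a) (nat_lit 0) (p (nat_lit 0x587050682) (nat_lit 0) (p (nat_lit 0x506848402) (nat_lit 0) (p (nat_lit 0x160014) (nat_lit 0) (p (nat_lit 0x16000c) (nat_lit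 0) (p (nat_lit 0x50612) (nat_lit 0) (p (nat_lit 0x40592) (nat_lit 0) (p (nat_lit 0x40492) (nat_lit 0) (p (nat_lit 0x30412) (nat_lit 0) (p (nat_lit 0x30212) (nat_lit 0) (p (nat_lit 0x20192) (nat_lit 0) (p (nat_lit 0x20092) (nat_lit 0) (p (nat_lit 0x10012) (nat_lit 0) pn)))))))))))))))))))))))))))))) :=
  Cl.node (nat_lit 0x108014) (nat_lit 2) (by decide +kernel) (ClAll.succ (ClAll.succ ClAll.zero n210) s1481)

def n272 : Cl (O (nat_lit 1)) (R (nat_lit 104465))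
    (p (nat_lit 0x111) (nat_lit 0) (p (nat_lit 0xb000c) (nat_lit 0) (p (nat_lit 0x101) (nat_lit 0) (p (nat_lit 0xd1) (nat_lit 0) (p (nat_lit 0xb0014) (nat_lit 0) (p (nat_lit 0x380c2) (nat_lit 0) (p (nat_lit 0x3cc2a) (nat_lit 2) (p (nat_lit 0xc9) (nat_lit 0) (p (nat_lit 0x89) (nat_lit 1) (p (nat_lit 0x101) (nat_lit 1) (p (nat_lit 0x111) (nat_lit 0) (p (nat_lit 0xd1) (nat_lit 1) (p (nat_lit 0x81) (nat_lit 0) (p (nat_lit 0x41) (nat_lit 1) (p (nat_lit 0x8078907089a) (nat_lit 0) (p (nat_lit 0x7870886861a) (nat_lit 0) (p (nat_lit 0x800070806078a) (nat_lit 0) (p (nat_lit 0x800068785850a) (nat_lit 0) (p (nat_lit 0x587050682) (nat_lit 0) (p (nat_lit 0x506848402) (nat_lit 0) (p (nat_lit 0x160014) (nat_lit 0) (p (nat_lit 0x16000c) (nat_lit 0) (p (nat_lit 0x50612) (nat_lit 0) (p (nat_lit 0x40592) (nat_lit 0) (p (nat_lit 0x40492) (nat_lit 0) (p (nat_lit 0x30412) (nat_lit 0) (p (nat_lit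 0x30212) (nat_lit 0) (p (nat_lit 0x20192) (nat_lit 0) (p (nat_lit 0x20092) (nat_lit 0) (p (nat_lit 0x10012) (nat_lit 0) pn)))))))))))))))))))))))))))))) :=
  Cl.node (nat_lit 0x109) (nat_lit 2) (by decide +kernel) (ClAll.succ (ClAll.succ ClAll.zero s1524) n211)

def n273 : Cl (O (nat_lit 1)) (R (nat_lit 104465))
    (p (nat_lit 0x1fc004) (nat_lit 0) (p (nat_lit 0xb000c) (nat_lit 1) (p (nat_lit 0x101) (nat_lit 0) (p (nat_lit 0xd1) (nat_lit 0) (p (nat_lit 0xb0014) (nat_lit 0) (p (nat_lit 0x380c2) (nat_lit 0) (p (nat_lit 0x3cc2a) (nat_lit 2) (p (nat_lit 0xc9) (nat_lit 0) (p (nat_lit 0x89) (nat_lit 1) (p (nat_lit 0x101) (nat_lit 1) (p (nat_lit 0x111) (nat_lit 0) (p (nat_lit 0xd1) (nat_lit 1) (p (nat_lit 0x81) (nat_lit 0) (p (nat_lit 0x41) (nat_lit 1) (p (nat_lit 0x8078907089a) (nat_lit 0) (p (nat_lit 0x7870886861a) (nat_lit 0) (p (nat_lit 0x800070806078a) (nat_lit 0) (p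 (nat_lit 0x800068785850a) (nat_lit 0) (p (nat_lit 0x587050682) (nat_lit 0) (p (nat_lit 0x506848402) (nat_lit 0) (p (nat_lit 0x160014) (nat_lit 0) (p (nat_lit 0x16000c) (nat_lit 0) (p (nat_lit 0x50612) (nat_lit 0) (p (nat_lit 0x40592) (nat_lit 0) (p (nat_lit 0x40492) (nat_lit 0) (p (nat_lit 0x30412) (nat_lit 0) (p (nat_lit 0x30212) (nat_lit 0) (p (nat_lit 0x20192) (nat_lit 0) (p (nat_lit 0x20092) (nat_lit 0) (p (nat_lit 0x10012) (nat_lit 0) pn)))))))))))))))))))))))))))))) :=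
  Cl.node (nat_lit 0x2a8258a8b89890a) (nat_lit 1) (by decide +kernel) (ClAll.succ ClAll.zero n212)

def n274 : Cl (O (nat_lit 1)) (R (nat_lit 104465))
    (p (nat_lit 0x119) (nat_lit 0) (p (nat_lit 0xc1) (nat_lit 0) (p (nat_lit 0xc9) (nat_lit 0) (p (nat_lit 0xb0014) (nat_lit 0) (p (nat_lit 0x380c2) (nat_lit 0) (p (nat_lit 0x3c4aa) (nat_lit 8) (p (nat_lit 0xd1) (nat_lit 1) (p (nat_lit 0x111) (nat_lit 1) (p (nat_lit 0x109) (nat_lit 0) (p (nat_lit 0x101) (nat_lit 0) (p (nat_lit 0x119) (nat_lit 0) (p (nat_lit 0xc1) (nat_lit 0) (p (nat_lit 0x81) (nat_lit 1) (p (nat_lit 0x41) (nat_lit 1) (p (nat_lit 0x8078907089a) (nat_lit 0) (p (nat_lit 0x7870886861a) (nat_lit 0) (p (nat_lit 0x800070806078a) (nat_lit 0) (p (nat_lit 0x800068785850a) (nat_lit 0) (p (nat_lit 0x587050682) (nat_lit 0) (p (nat_lit 0x506848402) (nat_lit 0) (p (nat_lit 0x160014) (nat_lit 0) (p (nat_lit 0x16000c)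 (nat_lit 0) (p (nat_lit 0x50612) (nat_lit 0) (p (nat_lit 0x40592) (nat_lit 0) (p (nat_lit 0x40492) (nat_lit 0) (p (nat_lit 0x30412) (nat_lit 0) (p (nat_lit 0x30212) (nat_lit 0) (p (nat_lit 0x20192) (nat_lit 0) (p (nat_lit 0x20092) (nat_lit 0) (p (nat_lit 0x10012) (nat_lit 0) pn)))))))))))))))))))))))))))))) :=
  Cl.node (nat_lit 0xb000c) (nat_lit 2) (by decide +kernel) (ClAll.succ (ClAll.succ ClAll.zero s1615) s1616)

def n275 : Cl (O (nat_lit 1)) (R (nat_lit 104465))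
    (p (nat_lit 0x2a8258b0c0a0b8a) (nat_lit 0) (p (nat_lit 0x2a8258a8b89890a) (nat_lit 0) (p (nat_lit 0xb0014) (nat_lit 0) (p (nat_lit 0x1fc004) (nat_lit 0) (p (nat_lit 0xb000c) (nat_lit 1) (p (nat_lit 0x380c2) (nat_lit 0) (p (nat_lit 0x44c2a) (nat_lit 1) (p (nat_lit 0xd1) (nat_lit 0) (p (nat_lit 0xc9) (nat_lit 0) (p (nat_lit 0x101) (nat_lit 1) (p (nat_lit 0x119) (nat_lit 0) (p (nat_lit 0xc1) (nat_lit 0) (p (nat_lit 0x81) (nat_lit 1) (p (nat_lit 0x41) (nat_lit 1) (p (nat_lit 0x8078907089a) (nat_lit 0) (p (nat_lit 0x7870886861a) (nat_lit 0) (p (nat_lit 0x800070806078a) (nat_lit 0) (p (nat_lit 0x800068785850a) (nat_lit 0) (p (nat_lit 0x587050682) (nat_lit 0) (p (nat_lit 0x506848402) (nat_lit 0) (p (nat_lit 0x160014) (nat_lit 0) (p (nat_lit 0x16000c) (nat_lit 0) (p (nat_lit 0x50612) (nat_lit 0) (p (nat_lit 0x40592) (nat_lit 0) (p (nat_lit 0x40492) (nat_lit 0) (p (nat_lit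 0x30412) (nat_lit 0) (p (nat_lit 0x30212) (nat_lit 0) (p (nat_lit 0x20192) (nat_lit 0) (p (nat_lit 0x20092) (nat_lit 0) (p (nat_lit 0x10012) (nat_lit 0) pn)))))))))))))))))))))))))))))) :=
  Cl.node (nat_lit 0xb8b0c8a8a1a) (nat_lit 1) (by decide +kernel) (ClAll.succ ClAll.zero n213)

def n276 : Cl (O (nat_lit 1)) (R (nat_lit 104465))
    (p (nat_lit 0x111) (nat_lit 0) (p (nat_lit 0xb000c) (nat_lit 0) (p (nat_lit 0xb0014) (nat_lit 0) (p (nat_lit 0x380c2) (nat_lit 0) (p (nat_lit 0x3cc2a) (nat_lit 2) (p (nat_lit 0x81) (nat_lit 0) (p (nat_lit 0xc9) (nat_lit 1) (p (nat_lit 0x109) (nat_lit 1) (p (nat_lit 0x101) (nat_lit 0) (p (nat_lit 0x119) (nat_lit 0) (p (nat_lit 0xd1) (nat_lit 0) (p (nat_lit 0x89) (nat_lit 0) (p (nat_lit 0x41) (nat_lit 0) (p (nat_lit 0x8078907089a) (nat_lit 0) (p (nat_lit 0x7870886861a) (nat_lit 0) (p (nat_lit 0x800070806078a) (nat_lit 0) (p (nat_lit 0x800068785850a)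 (nat_lit 0) (p (nat_lit 0x587050682) (nat_lit 0) (p (nat_lit 0x506848402) (nat_lit 0) (p (nat_lit 0x160014) (nat_lit 0) (p (nat_lit 0x16000c) (nat_lit 0) (p (nat_lit 0x50612) (nat_lit 0) (p (nat_lit 0x40592) (nat_lit 0) (p (nat_lit 0x40492) (nat_lit 0) (p (nat_lit 0x30412) (nat_lit 0) (p (nat_lit 0x30212) (nat_lit 0) (p (nat_lit 0x20192) (nat_lit 0) (p (nat_lit 0x20092) (nat_lit 0) (p (nat_lit 0x10012) (nat_lit 0) pn))))))))))))))))))))))))))))) :=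
  Cl.node (nat_lit 0x111) (nat_lit 2) (by decide +kernel) (ClAll.succ (ClAll.succ ClAll.zero s6) s7)

def n277 : Cl (O (nat_lit 1)) (R (nat_lit 104465))
    (p (nat_lit 0x81) (nat_lit 0) (p (nat_lit 0x100004) (nat_lit 0) (p (nat_lit 0x200004) (nat_lit 0) (p (nat_lit 0x380c2) (nat_lit 0) (p (nat_lit 0x444aa) (nat_lit 7) (p (nat_lit 0x81) (nat_lit 1) (p (nat_lit 0xc9) (nat_lit 1) (p (nat_lit 0x109) (nat_lit 1) (p (nat_lit 0x101) (nat_lit 0) (p (nat_lit 0x119) (nat_lit 0) (p (nat_lit 0xd1) (nat_lit 0) (p (nat_lit 0x89) (nat_lit 0) (p (nat_lit 0x41) (nat_lit 0) (p (nat_lit 0x8078907089a) (nat_lit 0) (p (nat_lit 0x7870886861a) (nat_lit 0) (p (nat_lit 0x800070806078a) (nat_lit 0) (p (nat_lit 0x800068785850a) (nat_lit 0) (p (nat_lit 0x587050682) (nat_lit 0) (p (nat_lit 0x506848402) (nat_lit 0) (p (nat_lit 0x160014) (nat_lit 0) (p (nat_lit 0x16000c) (nat_lit 0) (p (nat_lit 0x50612)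 (nat_lit 0) (p (nat_lit 0x40592) (nat_lit 0) (p (nat_lit 0x40492) (nat_lit 0) (p (nat_lit 0x30412) (nat_lit 0) (p (nat_lit 0x30212) (nat_lit 0) (p (nat_lit 0x20192) (nat_lit 0) (p (nat_lit 0x20092) (nat_lit 0) (p (nat_lit 0x10012) (nat_lit 0) pn))))))))))))))))))))))))))))) :=
  Cl.node (nat_lit 0x3cc2a) (nat_lit 12) (by decide +kernel) (ClAll.succ (ClAll.succ (ClAll.succ (ClAll.succ (ClAll.succ (ClAll.succ (ClAll.succ (ClAll.succ (ClAll.succ (ClAll.succ (ClAll.succ (ClAll.succ ClAll.zero s27) s28) n214) s33) s34) s35) s36) s37) s38) s39) s40) s41)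

def n278 : Cl (O (nat_lit 1)) (R (nat_lit 104465))
    (p (nat_lit 0x81) (nat_lit 1) (p (nat_lit 0x100004) (nat_lit 0) (p (nat_lit 0x200004) (nat_lit 0) (p (nat_lit 0x380c2) (nat_lit 0) (p (nat_lit 0x444aa) (nat_lit 7) (p (nat_lit 0x81) (nat_lit 1) (p (nat_lit 0xc9) (nat_lit 1) (p (nat_lit 0x109) (nat_lit 1) (p (nat_lit 0x101) (nat_lit 0) (p (nat_lit 0x119) (nat_lit 0) (p (nat_lit 0xd1) (nat_lit 0) (p (nat_lit 0x89) (nat_lit 0) (p (nat_lit 0x41) (nat_lit 0) (p (nat_lit 0x8078907089a) (nat_lit 0) (p (nat_lit 0x7870886861a) (nat_lit 0) (p (nat_lit 0x800070806078a) (nat_lit 0) (p (nat_lit 0x800068785850a) (nat_lit 0) (p (nat_lit 0x587050682) (nat_lit 0) (p (nat_lit 0x506848402) (nat_lit 0) (p (nat_lit 0x160014) (nat_lit 0) (p (nat_lit 0x16000c) (nat_lit 0) (p (nat_lit 0x50612) (nat_lit 0) (p (nat_lit 0x40592) (nat_lit 0) (p (nat_lit 0x40492) (nat_lit 0) (p (nat_lit 0x30412)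 (nat_lit 0) (p (nat_lit 0x30212) (nat_lit 0) (p (nat_lit 0x20192) (nat_lit 0) (p (nat_lit 0x20092) (nat_lit 0) (p (nat_lit 0x10012) (nat_lit 0) pn))))))))))))))))))))))))))))) :=
  Cl.node (nat_lit 0xc1) (nat_lit 2) (by decide +kernel) (ClAll.succ (ClAll.succ ClAll.zero n215) s55)

def n279 : Cl (O (nat_lit 1)) (R (nat_lit 104465))
    (p (nat_lit 0x10800c) (nat_lit 0) (p (nat_lit 0x100004) (nat_lit 1) (p (nat_lit 0x200004) (nat_lit 0) (p (nat_lit 0x380c2) (nat_lit 0) (p (nat_lit 0x444aa) (nat_lit 7) (p (nat_lit 0x81) (nat_lit 1) (p (nat_lit 0xc9) (nat_lit 1) (p (nat_lit 0x109) (nat_lit 1) (p (nat_lit 0x101) (nat_lit 0) (p (nat_lit 0x119) (nat_lit 0) (p (nat_lit 0xd1) (nat_lit 0) (p (nat_lit 0x89) (nat_lit 0) (p (nat_lit 0x41) (nat_lit 0) (p (nat_lit 0x8078907089a) (nat_lit 0) (p (nat_lit 0x7870886861a) (nat_lit 0) (p (nat_lit 0x800070806078a) (nat_lit 0) (p (nat_lit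 0x800068785850a) (nat_lit 0) (p (nat_lit 0x587050682) (nat_lit 0) (p (nat_lit 0x506848402) (nat_lit 0) (p (nat_lit 0x160014) (nat_lit 0) (p (nat_lit 0x16000c) (nat_lit 0) (p (nat_lit 0x50612) (nat_lit 0) (p (nat_lit 0x40592) (nat_lit 0) (p (nat_lit 0x40492) (nat_lit 0) (p (nat_lit 0x30412) (nat_lit 0) (p (nat_lit 0x30212) (nat_lit 0) (p (nat_lit 0x20192) (nat_lit 0) (p (nat_lit 0x20092) (nat_lit 0) (p (nat_lit 0x10012) (nat_lit 0) pn))))))))))))))))))))))))))))) :=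
  Cl.node (nat_lit 0x108014) (nat_lit 2) (by decide +kernel) (ClAll.succ (ClAll.succ ClAll.zero n216) s64)

def n280 : Cl (O (nat_lit 1)) (R (nat_lit 104465))
    (p (nat_lit 0x81) (nat_lit 0) (p (nat_lit 0x100004) (nat_lit 0) (p (nat_lit 0x200004) (nat_lit 0) (p (nat_lit 0x380c2) (nat_lit 1) (p (nat_lit 0x444aa) (nat_lit 7) (p (nat_lit 0x81) (nat_lit 1) (p (nat_lit 0xc9) (nat_lit 1) (p (nat_lit 0x109) (nat_lit 1) (p (nat_lit 0x101) (nat_lit 0) (p (nat_lit 0x119) (nat_lit 0) (p (nat_lit 0xd1) (nat_lit 0) (p (nat_lit 0x89) (nat_lit 0) (p (nat_lit 0x41) (nat_lit 0) (p (nat_lit 0x8078907089a) (nat_lit 0) (p (nat_lit 0x7870886861a) (nat_lit 0) (p (nat_lit 0x800070806078a) (nat_lit 0) (p (nat_lit 0x800068785850a) (nat_lit 0) (p (nat_lit 0x587050682) (nat_lit 0) (p (nat_lit 0x506848402) (nat_lit 0) (p (nat_lit 0x160014) (nat_lit 0) (p (nat_lit 0x16000c) (nat_lit 0) (p (nat_lit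 0x50612) (nat_lit 0) (p (nat_lit 0x40592) (nat_lit 0) (p (nat_lit 0x40492) (nat_lit 0) (p (nat_lit 0x30412) (nat_lit 0) (p (nat_lit 0x30212) (nat_lit 0) (p (nat_lit 0x20192) (nat_lit 0) (p (nat_lit 0x20092) (nat_lit 0) (p (nat_lit 0x10012) (nat_lit 0) pn))))))))))))))))))))))))))))) :=
  Cl.node (nat_lit 0x3cc2a) (nat_lit 12) (by decide +kernel) (ClAll.succ (ClAll.succ (ClAll.succ (ClAll.succ (ClAll.succ (ClAll.succ (ClAll.succ (ClAll.succ (ClAll.succ (ClAll.succ (ClAll.succ (ClAll.succ ClAll.zero s67) s68) s69) s70) s71) s72) s73) s74) s75) s76) s77) s78)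

def n281 : Cl (O (nat_lit 1)) (R (nat_lit 104465))
    (p (nat_lit 0x81) (nat_lit 1) (p (nat_lit 0x100004) (nat_lit 0) (p (nat_lit 0x200004) (nat_lit 0) (p (nat_lit 0x380c2) (nat_lit 1) (p (nat_lit 0x444aa) (nat_lit 7) (p (nat_lit 0x81) (nat_lit 1) (p (nat_lit 0xc9) (nat_lit 1) (p (nat_lit 0x109) (nat_lit 1) (p (nat_lit 0x101) (nat_lit 0) (p (nat_lit 0x119) (nat_lit 0) (p (nat_lit 0xd1) (nat_lit 0) (p (nat_lit 0x89) (nat_lit 0) (p (nat_lit 0x41) (nat_lit 0) (p (nat_lit 0x8078907089a) (nat_lit 0) (p (nat_lit 0x7870886861a) (nat_lit 0) (p (nat_lit 0x800070806078a) (nat_lit 0) (p (nat_lit 0x800068785850a) (nat_lit 0) (p (nat_lit 0x587050682) (nat_lit 0) (p (nat_lit 0x506848402) (nat_lit 0) (p (nat_lit 0x160014) (nat_lit 0) (p (nat_lit 0x16000c) (nat_lit 0) (p (nat_lit 0x50612) (nat_lit 0) (p (nat_lit 0x40592) (nat_lit 0) (p (nat_lit 0x40492) (nat_lit 0) (p (nat_lit 0x30412)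 (nat_lit 0) (p (nat_lit 0x30212) (nat_lit 0) (p (nat_lit 0x20192) (nat_lit 0) (p (nat_lit 0x20092) (nat_lit 0) (p (nat_lit 0x10012) (nat_lit 0) pn))))))))))))))))))))))))))))) :=
  Cl.node (nat_lit 0xc1) (nat_lit 2) (by decide +kernel) (ClAll.succ (ClAll.succ ClAll.zero n217) s92)

def n282 : Cl (O (nat_lit 1)) (R (nat_lit 104465))
    (p (nat_lit 0x10800c) (nat_lit 0) (p (nat_lit 0x100004) (nat_lit 1) (p (nat_lit 0x200004) (nat_lit 0) (p (nat_lit 0x380c2) (nat_lit 1) (p (nat_lit 0x444aa) (nat_lit 7) (p (nat_lit 0x81) (nat_lit 1) (p (nat_lit 0xc9) (nat_lit 1) (p (nat_lit 0x109) (nat_lit 1) (p (nat_lit 0x101) (nat_lit 0) (p (nat_lit 0x119) (nat_lit 0) (p (nat_lit 0xd1) (nat_lit 0) (p (nat_lit 0x89) (nat_lit 0) (p (nat_lit 0x41) (nat_lit 0) (p (nat_lit 0x8078907089a) (nat_lit 0) (p (nat_lit 0x7870886861a) (nat_lit 0) (p (nat_lit 0x800070806078a) (nat_lit 0) (p (nat_lit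 0x800068785850a) (nat_lit 0) (p (nat_lit 0x587050682) (nat_lit 0) (p (nat_lit 0x506848402) (nat_lit 0) (p (nat_lit 0x160014) (nat_lit 0) (p (nat_lit 0x16000c) (nat_lit 0) (p (nat_lit 0x50612) (nat_lit 0) (p (nat_lit 0x40592) (nat_lit 0) (p (nat_lit 0x40492) (nat_lit 0) (p (nat_lit 0x30412) (nat_lit 0) (p (nat_lit 0x30212) (nat_lit 0) (p (nat_lit 0x20192) (nat_lit 0) (p (nat_lit 0x20092) (nat_lit 0) (p (nat_lit 0x10012) (nat_lit 0) pn))))))))))))))))))))))))))))) :=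
  Cl.node (nat_lit 0x108014) (nat_lit 2) (by decide +kernel) (ClAll.succ (ClAll.succ ClAll.zero n218) s95)

def n283 : Cl (O (nat_lit 1)) (R (nat_lit 104465))
    (p (nat_lit 0x89) (nat_lit 0) (p (nat_lit 0x100004) (nat_lit 0) (p (nat_lit 0x200004) (nat_lit 0) (p (nat_lit 0x380c2) (nat_lit 0) (p (nat_lit 0x444aa) (nat_lit 7) (p (nat_lit 0x111) (nat_lit 0) (p (nat_lit 0xc9) (nat_lit 1) (p (nat_lit 0x81) (nat_lit 0) (p (nat_lit 0x101) (nat_lit 1) (p (nat_lit 0x119) (nat_lit 0) (p (nat_lit 0xd1) (nat_lit 0) (p (nat_lit 0x89) (nat_lit 0) (p (nat_lit 0x41) (nat_lit 0) (p (nat_lit 0x8078907089a) (nat_lit 0) (p (nat_lit 0x7870886861a) (nat_lit 0) (p (nat_lit 0x800070806078a) (nat_lit 0) (p (nat_lit 0x800068785850a) (nat_lit 0) (p (nat_lit 0x587050682) (nat_lit 0) (p (nat_lit 0x506848402) (nat_lit 0) (p (nat_lit 0x160014) (nat_lit 0) (p (nat_lit 0x16000c) (nat_lit 0) (p (nat_lit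 0x50612) (nat_lit 0) (p (nat_lit 0x40592) (nat_lit 0) (p (nat_lit 0x40492) (nat_lit 0) (p (nat_lit 0x30412) (nat_lit 0) (p (nat_lit 0x30212) (nat_lit 0) (p (nat_lit 0x20192) (nat_lit 0) (p (nat_lit 0x20092) (nat_lit 0) (p (nat_lit 0x10012) (nat_lit 0) pn))))))))))))))))))))))))))))) :=
  Cl.node (nat_lit 0x4c42a) (nat_lit 12) (by decide +kernel) (ClAll.succ (ClAll.succ (ClAll.succ (ClAll.succ (ClAll.succ (ClAll.succ (ClAll.succ (ClAll.succ (ClAll.succ (ClAll.succ (ClAll.succ (ClAll.succ ClAll.zero s123) s124) s125) s126) s127) s128) s129) s130) s131) s132) n219) s135)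

def n284 : Cl (O (nat_lit 1)) (R (nat_lit 104465))
    (p (nat_lit 0x89) (nat_lit 1) (p (nat_lit 0x100004) (nat_lit 0) (p (nat_lit 0x200004) (nat_lit 0) (p (nat_lit 0x380c2) (nat_lit 0) (p (nat_lit 0x444aa) (nat_lit 7) (p (nat_lit 0x111) (nat_lit 0) (p (nat_lit 0xc9) (nat_lit 1) (p (nat_lit 0x81) (nat_lit 0) (p (nat_lit 0x101) (nat_lit 1) (p (nat_lit 0x119) (nat_lit 0) (p (nat_lit 0xd1) (nat_lit 0) (p (nat_lit 0x89) (nat_lit 0) (p (nat_lit 0x41) (nat_lit 0) (p (nat_lit 0x8078907089a) (nat_lit 0) (p (nat_lit 0x7870886861a) (nat_lit 0) (p (nat_lit 0x800070806078a) (nat_lit 0) (p (nat_lit 0x800068785850a) (nat_lit 0) (p (nat_lit 0x587050682) (nat_lit 0) (p (nat_lit 0x506848402) (nat_lit 0) (p (nat_lit 0x160014) (nat_lit 0) (p (nat_lit 0x16000c) (nat_lit 0) (p (nat_lit 0x50612) (nat_lit 0) (p (nat_lit 0x40592) (nat_lit 0) (p (nat_lit 0x40492) (nat_lit 0) (p (nat_lit 0x30412)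 (nat_lit 0) (p (nat_lit 0x30212) (nat_lit 0) (p (nat_lit 0x20192) (nat_lit 0) (p (nat_lit 0x20092) (nat_lit 0) (p (nat_lit 0x10012) (nat_lit 0) pn))))))))))))))))))))))))))))) :=
  Cl.node (nat_lit 0xc9) (nat_lit 2) (by decide +kernel) (ClAll.succ (ClAll.succ ClAll.zero n220) s148)

def n285 : Cl (O (nat_lit 1)) (R (nat_lit 104465))
    (p (nat_lit 0x100004) (nat_lit 0) (p (nat_lit 0xb000c) (nat_lit 0) (p (nat_lit 0x200004) (nat_lit 0) (p (nat_lit 0x380c2) (nat_lit 1) (p (nat_lit 0x444aa) (nat_lit 7) (p (nat_lit 0x111) (nat_lit 0) (p (nat_lit 0xc9) (nat_lit 1) (p (nat_lit 0x81) (nat_lit 0) (p (nat_lit 0x101) (nat_lit 1) (p (nat_lit 0x119) (nat_lit 0) (p (nat_lit 0xd1) (nat_lit 0) (p (nat_lit 0x89) (nat_lit 0) (p (nat_lit 0x41) (nat_lit 0) (p (nat_lit 0x8078907089a) (nat_lit 0) (p (nat_lit 0x7870886861a) (nat_lit 0) (p (nat_lit 0x800070806078a) (nat_lit 0) (p (nat_lit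 0x800068785850a) (nat_lit 0) (p (nat_lit 0x587050682) (nat_lit 0) (p (nat_lit 0x506848402) (nat_lit 0) (p (nat_lit 0x160014) (nat_lit 0) (p (nat_lit 0x16000c) (nat_lit 0) (p (nat_lit 0x50612) (nat_lit 0) (p (nat_lit 0x40592) (nat_lit 0) (p (nat_lit 0x40492) (nat_lit 0) (p (nat_lit 0x30412) (nat_lit 0) (p (nat_lit 0x30212) (nat_lit 0) (p (nat_lit 0x20192) (nat_lit 0) (p (nat_lit 0x20092) (nat_lit 0) (p (nat_lit 0x10012) (nat_lit 0) pn))))))))))))))))))))))))))))) :=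
  Cl.node (nat_lit 0x89) (nat_lit 2) (by decide +kernel) (ClAll.succ (ClAll.succ ClAll.zero n221) n222)

def n286 : Cl (O (nat_lit 1)) (R (nat_lit 104465))
    (p (nat_lit 0xb0014) (nat_lit 0) (p (nat_lit 0xb000c) (nat_lit 1) (p (nat_lit 0x200004) (nat_lit 0) (p (nat_lit 0x380c2) (nat_lit 1) (p (nat_lit 0x444aa) (nat_lit 7) (p (nat_lit 0x111) (nat_lit 0) (p (nat_lit 0xc9) (nat_lit 1) (p (nat_lit 0x81) (nat_lit 0) (p (nat_lit 0x101) (nat_lit 1) (p (nat_lit 0x119) (nat_lit 0) (p (nat_lit 0xd1) (nat_lit 0) (p (nat_lit 0x89) (nat_lit 0) (p (nat_lit 0x41) (nat_lit 0) (p (nat_lit 0x8078907089a) (nat_lit 0) (p (nat_lit 0x7870886861a) (nat_lit 0) (p (nat_lit 0x800070806078a) (nat_lit 0) (p (nat_lit 0x800068785850a) (nat_lit 0) (p (nat_lit 0x587050682) (nat_lit 0) (p (nat_lit 0x506848402) (nat_lit 0) (p (nat_lit 0x160014) (nat_lit 0) (p (nat_lit 0x16000c) (nat_lit 0) (p (nat_lit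 0x50612) (nat_lit 0) (p (nat_lit 0x40592) (nat_lit 0) (p (nat_lit 0x40492) (nat_lit 0) (p (nat_lit 0x30412) (nat_lit 0) (p (nat_lit 0x30212) (nat_lit 0) (p (nat_lit 0x20192) (nat_lit 0) (p (nat_lit 0x20092) (nat_lit 0) (p (nat_lit 0x10012) (nat_lit 0) pn))))))))))))))))))))))))))))) :=
  Cl.node (nat_lit 0x100004) (nat_lit 2) (by decide +kernel) (ClAll.succ (ClAll.succ ClAll.zero s167) s168)

def n287 : Cl (O (nat_lit 1)) (R (nat_lit 104465))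
    (p (nat_lit 0x41) (nat_lit 0) (p (nat_lit 0xb0014) (nat_lit 0) (p (nat_lit 0xb000c) (nat_lit 0) (p (nat_lit 0x380c2) (nat_lit 0) (p (nat_lit 0x3cc2a) (nat_lit 2) (p (nat_lit 0x111) (nat_lit 1) (p (nat_lit 0xc9) (nat_lit 1) (p (nat_lit 0x81) (nat_lit 0) (p (nat_lit 0x101) (nat_lit 1) (p (nat_lit 0x119) (nat_lit 0) (p (nat_lit 0xd1) (nat_lit 0) (p (nat_lit 0x89) (nat_lit 0) (p (nat_lit 0x41) (nat_lit 0) (p (nat_lit 0x8078907089a) (nat_lit 0) (p (nat_lit 0x7870886861a) (nat_lit 0) (p (nat_lit 0x800070806078a) (nat_lit 0) (p (nat_lit 0x800068785850a) (nat_lit 0) (p (nat_lit 0x587050682) (nat_lit 0) (p (nat_lit 0x506848402) (nat_lit 0) (p (nat_lit 0x160014) (nat_lit 0) (p (nat_lit 0x16000c) (nat_lit 0) (p (nat_lit 0x50612) (nat_lit 0) (p (nat_lit 0x40592) (nat_lit 0) (p (nat_lit 0x40492) (nat_lit 0) (p (nat_lit 0x30412) (nat_lit 0) (p (nat_lit 0x30212) (nat_lit 0) (p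 (nat_lit 0x20192) (nat_lit 0) (p (nat_lit 0x20092) (nat_lit 0) (p (nat_lit 0x10012) (nat_lit 0) pn))))))))))))))))))))))))))))) :=
  Cl.node (nat_lit 0xc9) (nat_lit 2) (by decide +kernel) (ClAll.succ (ClAll.succ ClAll.zero s177) s178)

def n288 : Cl (O (nat_lit 1)) (R (nat_lit 104465))
    (p (nat_lit 0x41) (nat_lit 1) (p (nat_lit 0xb0014) (nat_lit 0) (p (nat_lit 0xb000c) (nat_lit 0) (p (nat_lit 0x380c2) (nat_lit 0) (p (nat_lit 0x3cc2a) (nat_lit 2) (p (nat_lit 0x111) (nat_lit 1) (p (nat_lit 0xc9) (nat_lit 1) (p (nat_lit 0x81) (nat_lit 0) (p (nat_lit 0x101) (nat_lit 1) (p (nat_lit 0x119) (nat_lit 0) (p (nat_lit 0xd1) (nat_lit 0) (p (nat_lit 0x89) (nat_lit 0) (p (nat_lit 0x41) (nat_lit 0) (p (nat_lit 0x8078907089a) (nat_lit 0) (p (nat_lit 0x7870886861a) (nat_lit 0) (p (nat_lit 0x800070806078a) (nat_lit 0) (p (nat_lit 0x800068785850a) (nat_lit 0) (p (nat_lit 0x587050682)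 (nat_lit 0) (p (nat_lit 0x506848402) (nat_lit 0) (p (nat_lit 0x160014) (nat_lit 0) (p (nat_lit 0x16000c) (nat_lit 0) (p (nat_lit 0x50612) (nat_lit 0) (p (nat_lit 0x40592) (nat_lit 0) (p (nat_lit 0x40492) (nat_lit 0) (p (nat_lit 0x30412) (nat_lit 0) (p (nat_lit 0x30212) (nat_lit 0) (p (nat_lit 0x20192) (nat_lit 0) (p (nat_lit 0x20092) (nat_lit 0) (p (nat_lit 0x10012) (nat_lit 0) pn))))))))))))))))))))))))))))) :=
  Cl.node (nat_lit 0x81) (nat_lit 2) (by decide +kernel) (ClAll.succ (ClAll.succ ClAll.zero s179) n223)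

def n289 : Cl (O (nat_lit 1)) (R (nat_lit 104465))
    (p (nat_lit 0xb0014) (nat_lit 0) (p (nat_lit 0x1fc004) (nat_lit 0) (p (nat_lit 0xb000c) (nat_lit 1) (p (nat_lit 0x380c2) (nat_lit 0) (p (nat_lit 0x3cc2a) (nat_lit 2) (p (nat_lit 0x111) (nat_lit 1) (p (nat_lit 0xc9) (nat_lit 1) (p (nat_lit 0x81) (nat_lit 0) (p (nat_lit 0x101) (nat_lit 1) (p (nat_lit 0x119) (nat_lit 0) (p (nat_lit 0xd1) (nat_lit 0) (p (nat_lit 0x89) (nat_lit 0) (p (nat_lit 0x41) (nat_lit 0) (p (nat_lit 0x8078907089a) (nat_lit 0) (p (nat_lit 0x7870886861a) (nat_lit 0) (p (nat_lit 0x800070806078a) (nat_lit 0) (p (nat_lit 0x800068785850a) (nat_lit 0) (p (nat_lit 0x587050682) (nat_lit 0) (p (nat_lit 0x506848402) (nat_lit 0) (p (nat_lit 0x160014) (nat_lit 0) (p (nat_lit 0x16000c) (nat_lit 0) (p (nat_lit 0x50612) (nat_lit 0) (p (nat_lit 0x40592) (nat_lit 0) (p (nat_lit 0x40492) (nat_lit 0) (p (nat_lit 0x30412)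 (nat_lit 0) (p (nat_lit 0x30212) (nat_lit 0) (p (nat_lit 0x20192) (nat_lit 0) (p (nat_lit 0x20092) (nat_lit 0) (p (nat_lit 0x10012) (nat_lit 0) pn))))))))))))))))))))))))))))) :=
  Cl.node (nat_lit 0x100004) (nat_lit 2) (by decide +kernel) (ClAll.succ (ClAll.succ ClAll.zero s183) s184)

def n290 : Cl (O (nat_lit 1)) (R (nat_lit 104465))
    (p (nat_lit 0x119) (nat_lit 0) (p (nat_lit 0x100004) (nat_lit 0) (p (nat_lit 0x200004) (nat_lit 0) (p (nat_lit 0x380c2) (nat_lit 0) (p (nat_lit 0x444aa) (nat_lit 7) (p (nat_lit 0xc9) (nat_lit 1) (p (nat_lit 0xc1) (nat_lit 0) (p (nat_lit 0x81) (nat_lit 1) (p (nat_lit 0x101) (nat_lit 1) (p (nat_lit 0x119) (nat_lit 0) (p (nat_lit 0xd1) (nat_lit 0) (p (nat_lit 0x89) (nat_lit 0) (p (nat_lit 0x41) (nat_lit 0) (p (nat_lit 0x8078907089a) (nat_lit 0) (p (nat_lit 0x7870886861a) (nat_lit 0) (p (nat_lit 0x800070806078a) (nat_lit 0) (p (nat_lit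 0x800068785850a) (nat_lit 0) (p (nat_lit 0x587050682) (nat_lit 0) (p (nat_lit 0x506848402) (nat_lit 0) (p (nat_lit 0x160014) (nat_lit 0) (p (nat_lit 0x16000c) (nat_lit 0) (p (nat_lit 0x50612) (nat_lit 0) (p (nat_lit 0x40592) (nat_lit 0) (p (nat_lit 0x40492) (nat_lit 0) (p (nat_lit 0x30412) (nat_lit 0) (p (nat_lit 0x30212) (nat_lit 0) (p (nat_lit 0x20192) (nat_lit 0) (p (nat_lit 0x20092) (nat_lit 0) (p (nat_lit 0x10012) (nat_lit 0) pn))))))))))))))))))))))))))))) :=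
  Cl.node (nat_lit 0xb000c) (nat_lit 2) (by decide +kernel) (ClAll.succ (ClAll.succ ClAll.zero n224) s218)

def n291 : Cl (O (nat_lit 1)) (R (nat_lit 104465))
    (p (nat_lit 0x119) (nat_lit 1) (p (nat_lit 0x100004) (nat_lit 0) (p (nat_lit 0x200004) (nat_lit 0) (p (nat_lit 0x380c2) (nat_lit 0) (p (nat_lit 0x444aa) (nat_lit 7) (p (nat_lit 0xc9) (nat_lit 1) (p (nat_lit 0xc1) (nat_lit 0) (p (nat_lit 0x81) (nat_lit 1) (p (nat_lit 0x101) (nat_lit 1) (p (nat_lit 0x119) (nat_lit 0) (p (nat_lit 0xd1) (nat_lit 0) (p (nat_lit 0x89) (nat_lit 0) (p (nat_lit 0x41) (nat_lit 0) (p (nat_lit 0x8078907089a) (nat_lit 0) (p (nat_lit 0x7870886861a) (nat_lit 0) (p (nat_lit 0x800070806078a) (nat_lit 0) (p (nat_lit 0x800068785850a) (nat_lit 0) (p (nat_lit 0x587050682) (nat_lit 0) (p (nat_lit 0x506848402) (nat_lit 0) (p (nat_lit 0x160014) (nat_lit 0) (p (nat_lit 0x16000c) (nat_lit 0) (p (nat_lit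 0x50612) (nat_lit 0) (p (nat_lit 0x40592) (nat_lit 0) (p (nat_lit 0x40492) (nat_lit 0) (p (nat_lit 0x30412) (nat_lit 0) (p (nat_lit 0x30212) (nat_lit 0) (p (nat_lit 0x20192) (nat_lit 0) (p (nat_lit 0x20092) (nat_lit 0) (p (nat_lit 0x10012) (nat_lit 0) pn))))))))))))))))))))))))))))) :=
  Cl.node (nat_lit 0xc9) (nat_lit 2) (by decide +kernel) (ClAll.succ (ClAll.succ ClAll.zero s219) s220)

def n292 : Cl (O (nat_lit 1)) (R (nat_lit 104465))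
    (p (nat_lit 0xc9) (nat_lit 0) (p (nat_lit 0x100004) (nat_lit 0) (p (nat_lit 0x200004) (nat_lit 0) (p (nat_lit 0x380c2) (nat_lit 1) (p (nat_lit 0x444aa) (nat_lit 7) (p (nat_lit 0xc9) (nat_lit 1) (p (nat_lit 0xc1) (nat_lit 0) (p (nat_lit 0x81) (nat_lit 1) (p (nat_lit 0x101) (nat_lit 1) (p (nat_lit 0x119) (nat_lit 0) (p (nat_lit 0xd1) (nat_lit 0) (p (nat_lit 0x89) (nat_lit 0) (p (nat_lit 0x41) (nat_lit 0) (p (nat_lit 0x8078907089a) (nat_lit 0) (p (nat_lit 0x7870886861a) (nat_lit 0) (p (nat_lit 0x800070806078a) (nat_lit 0) (p (nat_lit 0x800068785850a) (nat_lit 0) (p (nat_lit 0x587050682) (nat_lit 0) (p (nat_lit 0x506848402) (nat_lit 0) (p (nat_lit 0x160014) (nat_lit 0) (p (nat_lit 0x16000c) (nat_lit 0) (p (nat_lit 0x50612) (nat_lit 0) (p (nat_lit 0x40592) (nat_lit 0) (p (nat_lit 0x40492) (nat_lit 0) (p (nat_lit 0x30412) (nat_lit 0) (p (nat_lit 0x30212) (nat_lit 0) (p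 (nat_lit 0x20192) (nat_lit 0) (p (nat_lit 0x20092) (nat_lit 0) (p (nat_lit 0x10012) (nat_lit 0) pn))))))))))))))))))))))))))))) :=
  Cl.node (nat_lit 0x119) (nat_lit 2) (by decide +kernel) (ClAll.succ (ClAll.succ ClAll.zero s223) s224)

def n293 : Cl (O (nat_lit 1)) (R (nat_lit 104465))
    (p (nat_lit 0xc9) (nat_lit 1) (p (nat_lit 0x41) (nat_lit 0) (p (nat_lit 0xb000c) (nat_lit 0) (p (nat_lit 0x101) (nat_lit 0) (p (nat_lit 0x380c2) (nat_lit 0) (p (nat_lit 0x3cc2a) (nat_lit 2) (p (nat_lit 0x109) (nat_lit 1) (p (nat_lit 0xc9) (nat_lit 1) (p (nat_lit 0xc1) (nat_lit 0) (p (nat_lit 0x119) (nat_lit 1) (p (nat_lit 0xd1) (nat_lit 0) (p (nat_lit 0x89) (nat_lit 0) (p (nat_lit 0x41) (nat_lit 0) (p (nat_lit 0x8078907089a) (nat_lit 0) (p (nat_lit 0x7870886861a) (nat_lit 0) (p (nat_lit 0x800070806078a) (nat_lit 0) (p (nat_lit 0x800068785850a) (nat_lit 0) (p (nat_lit 0x587050682)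 (nat_lit 0) (p (nat_lit 0x506848402) (nat_lit 0) (p (nat_lit 0x160014) (nat_lit 0) (p (nat_lit 0x16000c) (nat_lit 0) (p (nat_lit 0x50612) (nat_lit 0) (p (nat_lit 0x40592) (nat_lit 0) (p (nat_lit 0x40492) (nat_lit 0) (p (nat_lit 0x30412) (nat_lit 0) (p (nat_lit 0x30212) (nat_lit 0) (p (nat_lit 0x20192) (nat_lit 0) (p (nat_lit 0x20092) (nat_lit 0) (p (nat_lit 0x10012) (nat_lit 0) pn))))))))))))))))))))))))))))) :=
  Cl.node (nat_lit 0xb0014) (nat_lit 2) (by decide +kernel) (ClAll.succ (ClAll.succ ClAll.zero n225) s244)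

def n294 : Cl (O (nat_lit 1)) (R (nat_lit 104465))
    (p (nat_lit 0xb0014) (nat_lit 0) (p (nat_lit 0x1fc004) (nat_lit 0) (p (nat_lit 0xb000c) (nat_lit 1) (p (nat_lit 0x101) (nat_lit 0) (p (nat_lit 0x380c2) (nat_lit 0) (p (nat_lit 0x3cc2a) (nat_lit 2) (p (nat_lit 0x109) (nat_lit 1) (p (nat_lit 0xc9) (nat_lit 1) (p (nat_lit 0xc1) (nat_lit 0) (p (nat_lit 0x119) (nat_lit 1) (p (nat_lit 0xd1) (nat_lit 0) (p (nat_lit 0x89) (nat_lit 0) (p (nat_lit 0x41) (nat_lit 0) (p (nat_lit 0x8078907089a) (nat_lit 0) (p (nat_lit 0x7870886861a) (nat_lit 0) (p (nat_lit 0x800070806078a) (nat_lit 0) (p (nat_lit 0x800068785850a) (nat_lit 0) (p (nat_lit 0x587050682) (nat_lit 0) (p (nat_lit 0x506848402) (nat_lit 0) (p (nat_lit 0x160014) (nat_lit 0) (p (nat_lit 0x16000c) (nat_lit 0) (p (nat_lit 0x50612) (nat_lit 0) (p (nat_lit 0x40592) (nat_lit 0) (p (nat_lit 0x40492) (nat_lit 0) (p (nat_lit 0x30412)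 (nat_lit 0) (p (nat_lit 0x30212) (nat_lit 0) (p (nat_lit 0x20192) (nat_lit 0) (p (nat_lit 0x20092) (nat_lit 0) (p (nat_lit 0x10012) (nat_lit 0) pn))))))))))))))))))))))))))))) :=
  Cl.node (nat_lit 0x2a8258a8b89890a) (nat_lit 1) (by decide +kernel) (ClAll.succ ClAll.zero n226)

def n295 : Cl (O (nat_lit 1)) (R (nat_lit 104465))
    (p (nat_lit 0x109) (nat_lit 1) (p (nat_lit 0xb000c) (nat_lit 0) (p (nat_lit 0x41) (nat_lit 0) (p (nat_lit 0x101) (nat_lit 1) (p (nat_lit 0x380c2) (nat_lit 0) (p (nat_lit 0x3cc2a) (nat_lit 2) (p (nat_lit 0x109) (nat_lit 1) (p (nat_lit 0xc9) (nat_lit 1) (p (nat_lit 0xc1) (nat_lit 0) (p (nat_lit 0x119) (nat_lit 1) (p (nat_lit 0xd1) (nat_lit 0) (p (nat_lit 0x89) (nat_lit 0) (p (nat_lit 0x41) (nat_lit 0) (p (nat_lit 0x8078907089a) (nat_lit 0) (p (nat_lit 0x7870886861a) (nat_lit 0) (p (nat_lit 0x800070806078a) (nat_lit 0) (p (nat_lit 0x800068785850a)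 (nat_lit 0) (p (nat_lit 0x587050682) (nat_lit 0) (p (nat_lit 0x506848402) (nat_lit 0) (p (nat_lit 0x160014) (nat_lit 0) (p (nat_lit 0x16000c) (nat_lit 0) (p (nat_lit 0x50612) (nat_lit 0) (p (nat_lit 0x40592) (nat_lit 0) (p (nat_lit 0x40492) (nat_lit 0) (p (nat_lit 0x30412) (nat_lit 0) (p (nat_lit 0x30212) (nat_lit 0) (p (nat_lit 0x20192) (nat_lit 0) (p (nat_lit 0x20092) (nat_lit 0) (p (nat_lit 0x10012) (nat_lit 0) pn))))))))))))))))))))))))))))) :=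
  Cl.node (nat_lit 0xc9) (nat_lit 2) (by decide +kernel) (ClAll.succ (ClAll.succ ClAll.zero s260) s261)

def n296 : Cl (O (nat_lit 1)) (R (nat_lit 104465))
    (p (nat_lit 0x1fc004) (nat_lit 0) (p (nat_lit 0xb000c) (nat_lit 1) (p (nat_lit 0x41) (nat_lit 0) (p (nat_lit 0x101) (nat_lit 1) (p (nat_lit 0x380c2) (nat_lit 0) (p (nat_lit 0x3cc2a) (nat_lit 2) (p (nat_lit 0x109) (nat_lit 1) (p (nat_lit 0xc9) (nat_lit 1) (p (nat_lit 0xc1) (nat_lit 0) (p (nat_lit 0x119) (nat_lit 1) (p (nat_lit 0xd1) (nat_lit 0) (p (nat_lit 0x89) (nat_lit 0) (p (nat_lit 0x41) (nat_lit 0) (p (nat_lit 0x8078907089a) (nat_lit 0) (p (nat_lit 0x7870886861a) (nat_lit 0) (p (nat_lit 0x800070806078a) (nat_lit 0) (p (nat_lit 0x800068785850a) (nat_lit 0) (p (nat_lit 0x587050682) (nat_lit 0) (p (nat_lit 0x506848402) (nat_lit 0) (p (nat_lit 0x160014) (nat_lit 0) (p (nat_lit 0x16000c) (nat_lit 0) (p (nat_lit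 0x50612) (nat_lit 0) (p (nat_lit 0x40592) (nat_lit 0) (p (nat_lit 0x40492) (nat_lit 0) (p (nat_lit 0x30412) (nat_lit 0) (p (nat_lit 0x30212) (nat_lit 0) (p (nat_lit 0x20192) (nat_lit 0) (p (nat_lit 0x20092) (nat_lit 0) (p (nat_lit 0x10012) (nat_lit 0) pn))))))))))))))))))))))))))))) :=
  Cl.node (nat_lit 0xb0014) (nat_lit 2) (by decide +kernel) (ClAll.succ (ClAll.succ ClAll.zero n227) s266)

def n297 : Cl (O (nat_lit 1)) (R (nat_lit 104465))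
    (p (nat_lit 0xc9) (nat_lit 1) (p (nat_lit 0x111) (nat_lit 0) (p (nat_lit 0xb000c) (nat_lit 0) (p (nat_lit 0xc9) (nat_lit 1) (p (nat_lit 0x380c2) (nat_lit 0) (p (nat_lit 0x3cc2a) (nat_lit 2) (p (nat_lit 0x109) (nat_lit 1) (p (nat_lit 0x81) (nat_lit 0) (p (nat_lit 0xc1) (nat_lit 1) (p (nat_lit 0x119) (nat_lit 1) (p (nat_lit 0xd1) (nat_lit 0) (p (nat_lit 0x89) (nat_lit 0) (p (nat_lit 0x41) (nat_lit 0) (p (nat_lit 0x8078907089a) (nat_lit 0) (p (nat_lit 0x7870886861a) (nat_lit 0) (p (nat_lit 0x800070806078a) (nat_lit 0) (p (nat_lit 0x800068785850a) (nat_lit 0) (p (nat_lit 0x587050682) (nat_lit 0) (p (nat_lit 0x506848402) (nat_lit 0) (p (nat_lit 0x160014) (nat_lit 0) (p (nat_lit 0x16000c) (nat_lit 0) (p (nat_lit 0x50612) (nat_lit 0) (p (nat_lit 0x40592) (nat_lit 0) (p (nat_lit 0x40492) (nat_lit 0) (p (nat_lit 0x30412) (nat_lit 0) (p (nat_lit 0x30212) (nat_lit 0) (p (nat_lit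 0x20192) (nat_lit 0) (p (nat_lit 0x20092) (nat_lit 0) (p (nat_lit 0x10012) (nat_lit 0) pn))))))))))))))))))))))))))))) :=
  Cl.node (nat_lit 0xb0014) (nat_lit 2) (by decide +kernel) (ClAll.succ (ClAll.succ ClAll.zero n228) s286)

def n298 : Cl (O (nat_lit 1)) (R (nat_lit 104465))
    (p (nat_lit 0xb0014) (nat_lit 0) (p (nat_lit 0x1fc004) (nat_lit 0) (p (nat_lit 0xb000c) (nat_lit 1) (p (nat_lit 0xc9) (nat_lit 1) (p (nat_lit 0x380c2) (nat_lit 0) (p (nat_lit 0x3cc2a) (nat_lit 2) (p (nat_lit 0x109) (nat_lit 1) (p (nat_lit 0x81) (nat_lit 0) (p (nat_lit 0xc1) (nat_lit 1) (p (nat_lit 0x119) (nat_lit 1) (p (nat_lit 0xd1) (nat_lit 0) (p (nat_lit 0x89) (nat_lit 0) (p (nat_lit 0x41) (nat_lit 0) (p (nat_lit 0x8078907089a) (nat_lit 0) (p (nat_lit 0x7870886861a) (nat_lit 0) (p (nat_lit 0x800070806078a) (nat_lit 0) (p (nat_lit 0x800068785850a) (nat_lit 0) (p (nat_lit 0x587050682) (nat_lit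 0) (p (nat_lit 0x506848402) (nat_lit 0) (p (nat_lit 0x160014) (nat_lit 0) (p (nat_lit 0x16000c) (nat_lit 0) (p (nat_lit 0x50612) (nat_lit 0) (p (nat_lit 0x40592) (nat_lit 0) (p (nat_lit 0x40492) (nat_lit 0) (p (nat_lit 0x30412) (nat_lit 0) (p (nat_lit 0x30212) (nat_lit 0) (p (nat_lit 0x20192) (nat_lit 0) (p (nat_lit 0x20092) (nat_lit 0) (p (nat_lit 0x10012) (nat_lit 0) pn))))))))))))))))))))))))))))) :=
  Cl.node (nat_lit 0x100004) (nat_lit 2) (by decide +kernel) (ClAll.succ (ClAll.succ ClAll.zero s288) s289)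

def n299 : Cl (O (nat_lit 1)) (R (nat_lit 104465))
    (p (nat_lit 0x119) (nat_lit 0) (p (nat_lit 0x100004) (nat_lit 0) (p (nat_lit 0x200004) (nat_lit 0) (p (nat_lit 0x380c2) (nat_lit 0) (p (nat_lit 0x444aa) (nat_lit 7) (p (nat_lit 0x109) (nat_lit 1) (p (nat_lit 0x101) (nat_lit 0) (p (nat_lit 0x81) (nat_lit 1) (p (nat_lit 0xc1) (nat_lit 1) (p (nat_lit 0x119) (nat_lit 1) (p (nat_lit 0xd1) (nat_lit 0) (p (nat_lit 0x89) (nat_lit 0) (p (nat_lit 0x41) (nat_lit 0) (p (nat_lit 0x8078907089a) (nat_lit 0) (p (nat_lit 0x7870886861a) (nat_lit 0) (p (nat_lit 0x800070806078a) (nat_lit 0) (p (nat_lit 0x800068785850a) (nat_lit 0) (p (nat_lit 0x587050682) (nat_lit 0) (p (nat_lit 0x506848402) (nat_lit 0) (p (nat_lit 0x160014) (nat_lit 0) (p (nat_lit 0x16000c) (nat_lit 0) (p (nat_lit 0x50612) (nat_lit 0) (p (nat_lit 0x40592) (nat_lit 0) (p (nat_lit 0x40492) (nat_lit 0) (p (nat_lit 0x30412)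 (nat_lit 0) (p (nat_lit 0x30212) (nat_lit 0) (p (nat_lit 0x20192) (nat_lit 0) (p (nat_lit 0x20092) (nat_lit 0) (p (nat_lit 0x10012) (nat_lit 0) pn))))))))))))))))))))))))))))) :=
  Cl.node (nat_lit 0x109) (nat_lit 2) (by decide +kernel) (ClAll.succ (ClAll.succ ClAll.zero s322) s323)

def n300 : Cl (O (nat_lit 1)) (R (nat_lit 104465))
    (p (nat_lit 0x100004) (nat_lit 0) (p (nat_lit 0xb000c) (nat_lit 0) (p (nat_lit 0x200004) (nat_lit 0) (p (nat_lit 0x380c2) (nat_lit 1) (p (nat_lit 0x444aa) (nat_lit 7) (p (nat_lit 0x109) (nat_lit 1) (p (nat_lit 0x101) (nat_lit 0) (p (nat_lit 0x81) (nat_lit 1) (p (nat_lit 0xc1) (nat_lit 1) (p (nat_lit 0x119) (nat_lit 1) (p (nat_lit 0xd1) (nat_lit 0) (p (nat_lit 0x89) (nat_lit 0) (p (nat_lit 0x41) (nat_lit 0) (p (nat_lit 0x8078907089a) (nat_lit 0) (p (nat_lit 0x7870886861a) (nat_lit 0) (p (nat_lit 0x800070806078a) (nat_lit 0) (p (nat_lit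 0x800068785850a) (nat_lit 0) (p (nat_lit 0x587050682) (nat_lit 0) (p (nat_lit 0x506848402) (nat_lit 0) (p (nat_lit 0x160014) (nat_lit 0) (p (nat_lit 0x16000c) (nat_lit 0) (p (nat_lit 0x50612) (nat_lit 0) (p (nat_lit 0x40592) (nat_lit 0) (p (nat_lit 0x40492) (nat_lit 0) (p (nat_lit 0x30412) (nat_lit 0) (p (nat_lit 0x30212) (nat_lit 0) (p (nat_lit 0x20192) (nat_lit 0) (p (nat_lit 0x20092) (nat_lit 0) (p (nat_lit 0x10012) (nat_lit 0) pn))))))))))))))))))))))))))))) :=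
  Cl.node (nat_lit 0x119) (nat_lit 2) (by decide +kernel) (ClAll.succ (ClAll.succ ClAll.zero n229) s330)

def n301 : Cl (O (nat_lit 1)) (R (nat_lit 104465))
    (p (nat_lit 0x58014) (nat_lit 0) (p (nat_lit 0xb0014) (nat_lit 0) (p (nat_lit 0x380c2) (nat_lit 0) (p (nat_lit 0x3cc2a) (nat_lit 1) (p (nat_lit 0x41) (nat_lit 0) (p (nat_lit 0x200004) (nat_lit 0) (p (nat_lit 0xc1) (nat_lit 1) (p (nat_lit 0x109) (nat_lit 1) (p (nat_lit 0x101) (nat_lit 0) (p (nat_lit 0x111) (nat_lit 0) (p (nat_lit 0xd1) (nat_lit 1) (p (nat_lit 0x89) (nat_lit 0) (p (nat_lit 0x41) (nat_lit 0) (p (nat_lit 0x8078907089a) (nat_lit 0) (p (nat_lit 0x7870886861a) (nat_lit 0) (p (nat_lit 0x800070806078a) (nat_lit 0) (p (nat_lit 0x800068785850a) (nat_lit 0) (p (nat_lit 0x587050682) (nat_lit 0) (p (nat_lit 0x506848402) (nat_lit 0) (p (nat_lit 0x160014) (nat_lit 0) (p (nat_lit 0x16000c) (nat_lit 0) (p (nat_lit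 0x50612) (nat_lit 0) (p (nat_lit 0x40592) (nat_lit 0) (p (nat_lit 0x40492) (nat_lit 0) (p (nat_lit 0x30412) (nat_lit 0) (p (nat_lit 0x30212) (nat_lit 0) (p (nat_lit 0x20192) (nat_lit 0) (p (nat_lit 0x20092) (nat_lit 0) (p (nat_lit 0x10012) (nat_lit 0) pn))))))))))))))))))))))))))))) :=
  Cl.node (nat_lit 0x41) (nat_lit 2) (by decide +kernel) (ClAll.succ (ClAll.succ ClAll.zero s366) s367)

def n302 : Cl (O (nat_lit 1)) (R (nat_lit 104465))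
    (p (nat_lit 0x10800c) (nat_lit 0) (p (nat_lit 0x100004) (nat_lit 1) (p (nat_lit 0x380c2) (nat_lit 0) (p (nat_lit 0x3cc2a) (nat_lit 2) (p (nat_lit 0x41) (nat_lit 0) (p (nat_lit 0x200004) (nat_lit 0) (p (nat_lit 0xc1) (nat_lit 1) (p (nat_lit 0x109) (nat_lit 1) (p (nat_lit 0x101) (nat_lit 0) (p (nat_lit 0x111) (nat_lit 0) (p (nat_lit 0xd1) (nat_lit 1) (p (nat_lit 0x89) (nat_lit 0) (p (nat_lit 0x41) (nat_lit 0) (p (nat_lit 0x8078907089a) (nat_lit 0) (p (nat_lit 0x7870886861a) (nat_lit 0) (p (nat_lit 0x800070806078a) (nat_lit 0) (p (nat_lit 0x800068785850a) (nat_lit 0) (p (nat_lit 0x587050682) (nat_lit 0) (p (nat_lit 0x506848402) (nat_lit 0) (p (nat_lit 0x160014) (nat_lit 0) (p (nat_lit 0x16000c) (nat_lit 0) (p (nat_lit 0x50612) (nat_lit 0) (p (nat_lit 0x40592) (nat_lit 0) (p (nat_lit 0x40492) (nat_lit 0) (p (nat_lit 0x30412) (nat_lit 0) (p (nat_lit 0x30212) (nat_lit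 0) (p (nat_lit 0x20192) (nat_lit 0) (p (nat_lit 0x20092) (nat_lit 0) (p (nat_lit 0x10012) (nat_lit 0) pn))))))))))))))))))))))))))))) :=
  Cl.node (nat_lit 0x108014) (nat_lit 2) (by decide +kernel) (ClAll.succ (ClAll.succ ClAll.zero n230) s373)

def n303 : Cl (O (nat_lit 1)) (R (nat_lit 104465))
    (p (nat_lit 0x380c2) (nat_lit 1) (p (nat_lit 0x4c42a) (nat_lit 10) (p (nat_lit 0xc9) (nat_lit 0) (p (nat_lit 0x380c2) (nat_lit 0) (p (nat_lit 0x444aa) (nat_lit 7) (p (nat_lit 0x119) (nat_lit 0) (p (nat_lit 0xc1) (nat_lit 0) (p (nat_lit 0x81) (nat_lit 1) (p (nat_lit 0x101) (nat_lit 1) (p (nat_lit 0x111) (nat_lit 0) (p (nat_lit 0xd1) (nat_lit 1) (p (nat_lit 0x89) (nat_lit 0) (p (nat_lit 0x41) (nat_lit 0) (p (nat_lit 0x8078907089a) (nat_lit 0) (p (nat_lit 0x7870886861a) (nat_lit 0) (p (nat_lit 0x800070806078a) (nat_lit 0) (p (nat_lit 0x800068785850a) (nat_lit 0) (p (nat_lit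 0x587050682) (nat_lit 0) (p (nat_lit 0x506848402) (nat_lit 0) (p (nat_lit 0x160014) (nat_lit 0) (p (nat_lit 0x16000c) (nat_lit 0) (p (nat_lit 0x50612) (nat_lit 0) (p (nat_lit 0x40592) (nat_lit 0) (p (nat_lit 0x40492) (nat_lit 0) (p (nat_lit 0x30412) (nat_lit 0) (p (nat_lit 0x30212) (nat_lit 0) (p (nat_lit 0x20192) (nat_lit 0) (p (nat_lit 0x20092) (nat_lit 0) (p (nat_lit 0x10012) (nat_lit 0) pn))))))))))))))))))))))))))))) :=
  Cl.node (nat_lit 0x200004) (nat_lit 2) (by decide +kernel) (ClAll.succ (ClAll.succ ClAll.zero n231) s455)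

def n304 : Cl (O (nat_lit 1)) (R (nat_lit 104465))
    (p (nat_lit 0x119) (nat_lit 1) (p (nat_lit 0xc9) (nat_lit 0) (p (nat_lit 0x200004) (nat_lit 0) (p (nat_lit 0x380c2) (nat_lit 1) (p (nat_lit 0x444aa) (nat_lit 7) (p (nat_lit 0x119) (nat_lit 0) (p (nat_lit 0xc1) (nat_lit 0) (p (nat_lit 0x81) (nat_lit 1) (p (nat_lit 0x101) (nat_lit 1) (p (nat_lit 0x111) (nat_lit 0) (p (nat_lit 0xd1) (nat_lit 1) (p (nat_lit 0x89) (nat_lit 0) (p (nat_lit 0x41) (nat_lit 0) (p (nat_lit 0x8078907089a) (nat_lit 0) (p (nat_lit 0x7870886861a) (nat_lit 0) (p (nat_lit 0x800070806078a) (nat_lit 0) (p (nat_lit 0x800068785850a) (nat_lit 0) (p (nat_lit 0x587050682) (nat_lit 0) (p (nat_lit 0x506848402) (nat_lit 0) (p (nat_lit 0x160014) (nat_lit 0) (p (nat_lit 0x16000c) (nat_lit 0) (p (nat_lit 0x50612) (nat_lit 0) (p (nat_lit 0x40592) (nat_lit 0) (p (nat_lit 0x40492) (nat_lit 0) (p (nat_lit 0x30412)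 (nat_lit 0) (p (nat_lit 0x30212) (nat_lit 0) (p (nat_lit 0x20192) (nat_lit 0) (p (nat_lit 0x20092) (nat_lit 0) (p (nat_lit 0x10012) (nat_lit 0) pn))))))))))))))))))))))))))))) :=
  Cl.node (nat_lit 0xd1) (nat_lit 2) (by decide +kernel) (ClAll.succ (ClAll.succ ClAll.zero s459) s460)

def n305 : Cl (O (nat_lit 1)) (R (nat_lit 104465))
    (p (nat_lit 0x4c42a) (nat_lit 10) (p (nat_lit 0x89) (nat_lit 0) (p (nat_lit 0xb0014) (nat_lit 0) (p (nat_lit 0x380c2) (nat_lit 0) (p (nat_lit 0x3cc2a) (nat_lit 2) (p (nat_lit 0x119) (nat_lit 1) (p (nat_lit 0xc1) (nat_lit 0) (p (nat_lit 0x81) (nat_lit 1) (p (nat_lit 0x101) (nat_lit 1) (p (nat_lit 0x111) (nat_lit 0) (p (nat_lit 0xd1) (nat_lit 1) (p (nat_lit 0x89) (nat_lit 0) (p (nat_lit 0x41) (nat_lit 0) (p (nat_lit 0x8078907089a) (nat_lit 0) (p (nat_lit 0x7870886861a) (nat_lit 0) (p (nat_lit 0x800070806078a) (nat_lit 0) (p (nat_lit 0x800068785850a)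 (nat_lit 0) (p (nat_lit 0x587050682) (nat_lit 0) (p (nat_lit 0x506848402) (nat_lit 0) (p (nat_lit 0x160014) (nat_lit 0) (p (nat_lit 0x16000c) (nat_lit 0) (p (nat_lit 0x50612) (nat_lit 0) (p (nat_lit 0x40592) (nat_lit 0) (p (nat_lit 0x40492) (nat_lit 0) (p (nat_lit 0x30412) (nat_lit 0) (p (nat_lit 0x30212) (nat_lit 0) (p (nat_lit 0x20192) (nat_lit 0) (p (nat_lit 0x20092) (nat_lit 0) (p (nat_lit 0x10012) (nat_lit 0) pn))))))))))))))))))))))))))))) :=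
  Cl.node (nat_lit 0x380c2) (nat_lit 2) (by decide +kernel) (ClAll.succ (ClAll.succ ClAll.zero n232) n233)

def n306 : Cl (O (nat_lit 1)) (R (nat_lit 104465))
    (p (nat_lit 0x4c42a) (nat_lit 11) (p (nat_lit 0x89) (nat_lit 0) (p (nat_lit 0xb0014) (nat_lit 0) (p (nat_lit 0x380c2) (nat_lit 0) (p (nat_lit 0x3cc2a) (nat_lit 2) (p (nat_lit 0x119) (nat_lit 1) (p (nat_lit 0xc1) (nat_lit 0) (p (nat_lit 0x81) (nat_lit 1) (p (nat_lit 0x101) (nat_lit 1) (p (nat_lit 0x111) (nat_lit 0) (p (nat_lit 0xd1) (nat_lit 1) (p (nat_lit 0x89) (nat_lit 0) (p (nat_lit 0x41) (nat_lit 0) (p (nat_lit 0x8078907089a) (nat_lit 0) (p (nat_lit 0x7870886861a) (nat_lit 0) (p (nat_lit 0x800070806078a) (nat_lit 0) (p (nat_lit 0x800068785850a) (nat_lit 0) (p (nat_lit 0x587050682) (nat_lit 0) (p (nat_lit 0x506848402) (nat_lit 0) (p (nat_lit 0x160014) (nat_lit 0) (p (nat_lit 0x16000c) (nat_lit 0) (p (nat_lit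 0x50612) (nat_lit 0) (p (nat_lit 0x40592) (nat_lit 0) (p (nat_lit 0x40492) (nat_lit 0) (p (nat_lit 0x30412) (nat_lit 0) (p (nat_lit 0x30212) (nat_lit 0) (p (nat_lit 0x20192) (nat_lit 0) (p (nat_lit 0x20092) (nat_lit 0) (p (nat_lit 0x10012) (nat_lit 0) pn))))))))))))))))))))))))))))) :=
  Cl.node (nat_lit 0x380c2) (nat_lit 2) (by decide +kernel) (ClAll.succ (ClAll.succ ClAll.zero n234) s494)

def n307 : Cl (O (nat_lit 1)) (R (nat_lit 104465))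
    (p (nat_lit 0xb000c) (nat_lit 0) (p (nat_lit 0x89) (nat_lit 1) (p (nat_lit 0xb0014) (nat_lit 0) (p (nat_lit 0x380c2) (nat_lit 0) (p (nat_lit 0x3cc2a) (nat_lit 2) (p (nat_lit 0x119) (nat_lit 1) (p (nat_lit 0xc1) (nat_lit 0) (p (nat_lit 0x81) (nat_lit 1) (p (nat_lit 0x101) (nat_lit 1) (p (nat_lit 0x111) (nat_lit 0) (p (nat_lit 0xd1) (nat_lit 1) (p (nat_lit 0x89) (nat_lit 0) (p (nat_lit 0x41) (nat_lit 0) (p (nat_lit 0x8078907089a) (nat_lit 0) (p (nat_lit 0x7870886861a) (nat_lit 0) (p (nat_lit 0x800070806078a) (nat_lit 0) (p (nat_lit 0x800068785850a) (nat_lit 0) (p (nat_lit 0x587050682) (nat_lit 0) (p (nat_lit 0x506848402) (nat_lit 0) (p (nat_lit 0x160014) (nat_lit 0) (p (nat_lit 0x16000c) (nat_lit 0) (p (nat_lit 0x50612) (nat_lit 0) (p (nat_lit 0x40592) (nat_lit 0) (p (nat_lit 0x40492) (nat_lit 0) (p (nat_lit 0x30412) (nat_lit 0) (p (nat_lit 0x30212) (nat_lit 0) (p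 (nat_lit 0x20192) (nat_lit 0) (p (nat_lit 0x20092) (nat_lit 0) (p (nat_lit 0x10012) (nat_lit 0) pn))))))))))))))))))))))))))))) :=
  Cl.node (nat_lit 0x41) (nat_lit 2) (by decide +kernel) (ClAll.succ (ClAll.succ ClAll.zero s495) s496)

def n308 : Cl (O (nat_lit 1)) (R (nat_lit 104465))
    (p (nat_lit 0xb000c) (nat_lit 1) (p (nat_lit 0x89) (nat_lit 1) (p (nat_lit 0xb0014) (nat_lit 0) (p (nat_lit 0x380c2) (nat_lit 0) (p (nat_lit 0x3cc2a) (nat_lit 2) (p (nat_lit 0x119) (nat_lit 1) (p (nat_lit 0xc1) (nat_lit 0) (p (nat_lit 0x81) (nat_lit 1) (p (nat_lit 0x101) (nat_lit 1) (p (nat_lit 0x111) (nat_lit 0) (p (nat_lit 0xd1) (nat_lit 1) (p (nat_lit 0x89) (nat_lit 0) (p (nat_lit 0x41) (nat_lit 0) (p (nat_lit 0x8078907089a) (nat_lit 0) (p (nat_lit 0x7870886861a) (nat_lit 0) (p (nat_lit 0x800070806078a) (nat_lit 0) (p (nat_lit 0x800068785850a) (nat_lit 0) (p (nat_lit 0x587050682)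 (nat_lit 0) (p (nat_lit 0x506848402) (nat_lit 0) (p (nat_lit 0x160014) (nat_lit 0) (p (nat_lit 0x16000c) (nat_lit 0) (p (nat_lit 0x50612) (nat_lit 0) (p (nat_lit 0x40592) (nat_lit 0) (p (nat_lit 0x40492) (nat_lit 0) (p (nat_lit 0x30412) (nat_lit 0) (p (nat_lit 0x30212) (nat_lit 0) (p (nat_lit 0x20192) (nat_lit 0) (p (nat_lit 0x20092) (nat_lit 0) (p (nat_lit 0x10012) (nat_lit 0) pn))))))))))))))))))))))))))))) :=
  Cl.node (nat_lit 0x1fc004) (nat_lit 2) (by decide +kernel) (ClAll.succ (ClAll.succ ClAll.zero n235) s501)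

def n309 : Cl (O (nat_lit 1)) (R (nat_lit 104465))
    (p (nat_lit 0xb000c) (nat_lit 0) (p (nat_lit 0x100004) (nat_lit 0) (p (nat_lit 0x200004) (nat_lit 0) (p (nat_lit 0x380c2) (nat_lit 0) (p (nat_lit 0x444aa) (nat_lit 7) (p (nat_lit 0xd1) (nat_lit 1) (p (nat_lit 0x111) (nat_lit 1) (p (nat_lit 0x109) (nat_lit 0) (p (nat_lit 0x101) (nat_lit 0) (p (nat_lit 0x119) (nat_lit 0) (p (nat_lit 0xc9) (nat_lit 0) (p (nat_lit 0x89) (nat_lit 1) (p (nat_lit 0x41) (nat_lit 0) (p (nat_lit 0x8078907089a) (nat_lit 0) (p (nat_lit 0x7870886861a) (nat_lit 0) (p (nat_lit 0x800070806078a) (nat_lit 0) (p (nat_lit 0x800068785850a) (nat_lit 0) (p (nat_lit 0x587050682) (nat_lit 0) (p (nat_lit 0x506848402) (nat_lit 0) (p (nat_lit 0x160014) (nat_lit 0) (p (nat_lit 0x16000c) (nat_lit 0) (p (nat_lit 0x50612) (nat_lit 0) (p (nat_lit 0x40592) (nat_lit 0) (p (nat_lit 0x40492) (nat_lit 0) (p (nat_lit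 0x30412) (nat_lit 0) (p (nat_lit 0x30212) (nat_lit 0) (p (nat_lit 0x20192) (nat_lit 0) (p (nat_lit 0x20092) (nat_lit 0) (p (nat_lit 0x10012) (nat_lit 0) pn))))))))))))))))))))))))))))) :=
  Cl.node (nat_lit 0xc1) (nat_lit 2) (by decide +kernel) (ClAll.succ (ClAll.succ ClAll.zero n236) s558)

def n310 : Cl (O (nat_lit 1)) (R (nat_lit 104465))
    (p (nat_lit 0xb000c) (nat_lit 1) (p (nat_lit 0x100004) (nat_lit 0) (p (nat_lit 0x200004) (nat_lit 0) (p (nat_lit 0x380c2) (nat_lit 0) (p (nat_lit 0x444aa) (nat_lit 7) (p (nat_lit 0xd1) (nat_lit 1) (p (nat_lit 0x111) (nat_lit 1) (p (nat_lit 0x109) (nat_lit 0) (p (nat_lit 0x101) (nat_lit 0) (p (nat_lit 0x119) (nat_lit 0) (p (nat_lit 0xc9) (nat_lit 0) (p (nat_lit 0x89) (nat_lit 1) (p (nat_lit 0x41) (nat_lit 0) (p (nat_lit 0x8078907089a) (nat_lit 0) (p (nat_lit 0x7870886861a) (nat_lit 0) (p (nat_lit 0x800070806078a) (nat_lit 0) (p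 (nat_lit 0x800068785850a) (nat_lit 0) (p (nat_lit 0x587050682) (nat_lit 0) (p (nat_lit 0x506848402) (nat_lit 0) (p (nat_lit 0x160014) (nat_lit 0) (p (nat_lit 0x16000c) (nat_lit 0) (p (nat_lit 0x50612) (nat_lit 0) (p (nat_lit 0x40592) (nat_lit 0) (p (nat_lit 0x40492) (nat_lit 0) (p (nat_lit 0x30412) (nat_lit 0) (p (nat_lit 0x30212) (nat_lit 0) (p (nat_lit 0x20192) (nat_lit 0) (p (nat_lit 0x20092) (nat_lit 0) (p (nat_lit 0x10012) (nat_lit 0) pn))))))))))))))))))))))))))))) :=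
  Cl.node (nat_lit 0xb0014) (nat_lit 2) (by decide +kernel) (ClAll.succ (ClAll.succ ClAll.zero n237) s562)

def n311 : Cl (O (nat_lit 1)) (R (nat_lit 104465))
    (p (nat_lit 0x10800c) (nat_lit 0) (p (nat_lit 0x100004) (nat_lit 1) (p (nat_lit 0x200004) (nat_lit 0) (p (nat_lit 0x380c2) (nat_lit 0) (p (nat_lit 0x444aa) (nat_lit 7) (p (nat_lit 0xd1) (nat_lit 1) (p (nat_lit 0x111) (nat_lit 1) (p (nat_lit 0x109) (nat_lit 0) (p (nat_lit 0x101) (nat_lit 0) (p (nat_lit 0x119) (nat_lit 0) (p (nat_lit 0xc9) (nat_lit 0) (p (nat_lit 0x89) (nat_lit 1) (p (nat_lit 0x41) (nat_lit 0) (p (nat_lit 0x8078907089a) (nat_lit 0) (p (nat_lit 0x7870886861a) (nat_lit 0) (p (nat_lit 0x800070806078a) (nat_lit 0) (p (nat_lit 0x800068785850a) (nat_lit 0) (p (nat_lit 0x587050682) (nat_lit 0) (p (nat_lit 0x506848402) (nat_lit 0) (p (nat_lit 0x160014) (nat_lit 0) (p (nat_lit 0x16000c) (nat_lit 0) (p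 (nat_lit 0x50612) (nat_lit 0) (p (nat_lit 0x40592) (nat_lit 0) (p (nat_lit 0x40492) (nat_lit 0) (p (nat_lit 0x30412) (nat_lit 0) (p (nat_lit 0x30212) (nat_lit 0) (p (nat_lit 0x20192) (nat_lit 0) (p (nat_lit 0x20092) (nat_lit 0) (p (nat_lit 0x10012) (nat_lit 0) pn))))))))))))))))))))))))))))) :=
  Cl.node (nat_lit 0x108014) (nat_lit 2) (by decide +kernel) (ClAll.succ (ClAll.succ ClAll.zero n238) s621)

def n312 : Cl (O (nat_lit 1)) (R (nat_lit 104465))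
    (p (nat_lit 0xb000c) (nat_lit 0) (p (nat_lit 0x100004) (nat_lit 0) (p (nat_lit 0x200004) (nat_lit 0) (p (nat_lit 0x380c2) (nat_lit 1) (p (nat_lit 0x444aa) (nat_lit 7) (p (nat_lit 0xd1) (nat_lit 1) (p (nat_lit 0x111) (nat_lit 1) (p (nat_lit 0x109) (nat_lit 0) (p (nat_lit 0x101) (nat_lit 0) (p (nat_lit 0x119) (nat_lit 0) (p (nat_lit 0xc9) (nat_lit 0) (p (nat_lit 0x89) (nat_lit 1) (p (nat_lit 0x41) (nat_lit 0) (p (nat_lit 0x8078907089a) (nat_lit 0) (p (nat_lit 0x7870886861a) (nat_lit 0) (p (nat_lit 0x800070806078a) (nat_lit 0) (p (nat_lit 0x800068785850a) (nat_lit 0) (p (nat_lit 0x587050682) (nat_lit 0) (p (nat_lit 0x506848402) (nat_lit 0) (p (nat_lit 0x160014) (nat_lit 0) (p (nat_lit 0x16000c) (nat_lit 0) (p (nat_lit 0x50612) (nat_lit 0) (p (nat_lit 0x40592) (nat_lit 0) (p (nat_lit 0x40492) (nat_lit 0) (p (nat_lit 0x30412) (nat_lit 0) (p (nat_lit 0x30212) (nat_lit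 0) (p (nat_lit 0x20192) (nat_lit 0) (p (nat_lit 0x20092) (nat_lit 0) (p (nat_lit 0x10012) (nat_lit 0) pn))))))))))))))))))))))))))))) :=
  Cl.node (nat_lit 0xc1) (nat_lit 2) (by decide +kernel) (ClAll.succ (ClAll.succ ClAll.zero n239) s639)

def n313 : Cl (O (nat_lit 1)) (R (nat_lit 104465))
    (p (nat_lit 0xb000c) (nat_lit 1) (p (nat_lit 0x100004) (nat_lit 0) (p (nat_lit 0x200004) (nat_lit 0) (p (nat_lit 0x380c2) (nat_lit 1) (p (nat_lit 0x444aa) (nat_lit 7) (p (nat_lit 0xd1) (nat_lit 1) (p (nat_lit 0x111) (nat_lit 1) (p (nat_lit 0x109) (nat_lit 0) (p (nat_lit 0x101) (nat_lit 0) (p (nat_lit 0x119) (nat_lit 0) (p (nat_lit 0xc9) (nat_lit 0) (p (nat_lit 0x89) (nat_lit 1) (p (nat_lit 0x41) (nat_lit 0) (p (nat_lit 0x8078907089a) (nat_lit 0) (p (nat_lit 0x7870886861a) (nat_lit 0) (p (nat_lit 0x800070806078a) (nat_lit 0) (p (nat_lit 0x800068785850a) (nat_lit 0) (p (nat_lit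 0x587050682) (nat_lit 0) (p (nat_lit 0x506848402) (nat_lit 0) (p (nat_lit 0x160014) (nat_lit 0) (p (nat_lit 0x16000c) (nat_lit 0) (p (nat_lit 0x50612) (nat_lit 0) (p (nat_lit 0x40592) (nat_lit 0) (p (nat_lit 0x40492) (nat_lit 0) (p (nat_lit 0x30412) (nat_lit 0) (p (nat_lit 0x30212) (nat_lit 0) (p (nat_lit 0x20192) (nat_lit 0) (p (nat_lit 0x20092) (nat_lit 0) (p (nat_lit 0x10012) (nat_lit 0) pn))))))))))))))))))))))))))))) :=
  Cl.node (nat_lit 0xb0014) (nat_lit 2) (by decide +kernel) (ClAll.succ (ClAll.succ ClAll.zero n240) s645)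

def n314 : Cl (O (nat_lit 1)) (R (nat_lit 104465))
    (p (nat_lit 0xc1) (nat_lit 1) (p (nat_lit 0x100004) (nat_lit 0) (p (nat_lit 0x380c2) (nat_lit 0) (p (nat_lit 0x44c2a) (nat_lit 0) (p (nat_lit 0x41) (nat_lit 0) (p (nat_lit 0x200004) (nat_lit 0) (p (nat_lit 0xd1) (nat_lit 0) (p (nat_lit 0x109) (nat_lit 1) (p (nat_lit 0x101) (nat_lit 0) (p (nat_lit 0x119) (nat_lit 0) (p (nat_lit 0xc9) (nat_lit 0) (p (nat_lit 0x89) (nat_lit 1) (p (nat_lit 0x41) (nat_lit 0) (p (nat_lit 0x8078907089a) (nat_lit 0) (p (nat_lit 0x7870886861a) (nat_lit 0) (p (nat_lit 0x800070806078a) (nat_lit 0) (p (nat_lit 0x800068785850a) (nat_lit 0) (p (nat_lit 0x587050682) (nat_lit 0) (p (nat_lit 0x506848402) (nat_lit 0) (p (nat_lit 0x160014) (nat_lit 0) (p (nat_lit 0x16000c) (nat_lit 0) (p (nat_lit 0x50612) (nat_lit 0) (p (nat_lit 0x40592) (nat_lit 0) (p (nat_lit 0x40492) (nat_lit 0) (p (nat_lit 0x30412)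 (nat_lit 0) (p (nat_lit 0x30212) (nat_lit 0) (p (nat_lit 0x20192) (nat_lit 0) (p (nat_lit 0x20092) (nat_lit 0) (p (nat_lit 0x10012) (nat_lit 0) pn))))))))))))))))))))))))))))) :=
  Cl.node (nat_lit 0x444aa) (nat_lit 12) (by decide +kernel) (ClAll.succ (ClAll.succ (ClAll.succ (ClAll.succ (ClAll.succ (ClAll.succ (ClAll.succ (ClAll.succ (ClAll.succ (ClAll.succ (ClAll.succ (ClAll.succ ClAll.zero s653) s654) s655) s656) s657) s658) s659) s660) s661) s662) s663) s664)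

def n315 : Cl (O (nat_lit 1)) (R (nat_lit 104465))
    (p (nat_lit 0x10800c) (nat_lit 0) (p (nat_lit 0x100004) (nat_lit 1) (p (nat_lit 0x380c2) (nat_lit 0) (p (nat_lit 0x44c2a) (nat_lit 0) (p (nat_lit 0x41) (nat_lit 0) (p (nat_lit 0x200004) (nat_lit 0) (p (nat_lit 0xd1) (nat_lit 0) (p (nat_lit 0x109) (nat_lit 1) (p (nat_lit 0x101) (nat_lit 0) (p (nat_lit 0x119) (nat_lit 0) (p (nat_lit 0xc9) (nat_lit 0) (p (nat_lit 0x89) (nat_lit 1) (p (nat_lit 0x41) (nat_lit 0) (p (nat_lit 0x8078907089a) (nat_lit 0) (p (nat_lit 0x7870886861a) (nat_lit 0) (p (nat_lit 0x800070806078a) (nat_lit 0) (p (nat_lit 0x800068785850a) (nat_lit 0) (p (nat_lit 0x587050682) (nat_lit 0) (p (nat_lit 0x506848402) (nat_lit 0) (p (nat_lit 0x160014) (nat_lit 0) (p (nat_lit 0x16000c) (nat_lit 0) (p (nat_lit 0x50612) (nat_lit 0) (p (nat_lit 0x40592) (nat_lit 0) (p (nat_lit 0x40492) (nat_lit 0) (p (nat_lit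 0x30412) (nat_lit 0) (p (nat_lit 0x30212) (nat_lit 0) (p (nat_lit 0x20192) (nat_lit 0) (p (nat_lit 0x20092) (nat_lit 0) (p (nat_lit 0x10012) (nat_lit 0) pn))))))))))))))))))))))))))))) :=
  Cl.node (nat_lit 0x108014) (nat_lit 2) (by decide +kernel) (ClAll.succ (ClAll.succ ClAll.zero n241) s667)

def n316 : Cl (O (nat_lit 1)) (R (nat_lit 104465))
    (p (nat_lit 0x58014) (nat_lit 0) (p (nat_lit 0xb0014) (nat_lit 0) (p (nat_lit 0x380c2) (nat_lit 0) (p (nat_lit 0x44c2a) (nat_lit 1) (p (nat_lit 0x41) (nat_lit 0) (p (nat_lit 0x200004) (nat_lit 0) (p (nat_lit 0xd1) (nat_lit 0) (p (nat_lit 0x109) (nat_lit 1) (p (nat_lit 0x101) (nat_lit 0) (p (nat_lit 0x119) (nat_lit 0) (p (nat_lit 0xc9) (nat_lit 0) (p (nat_lit 0x89) (nat_lit 1) (p (nat_lit 0x41) (nat_lit 0) (p (nat_lit 0x8078907089a) (nat_lit 0) (p (nat_lit 0x7870886861a) (nat_lit 0) (p (nat_lit 0x800070806078a) (nat_lit 0)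 (p (nat_lit 0x800068785850a) (nat_lit 0) (p (nat_lit 0x587050682) (nat_lit 0) (p (nat_lit 0x506848402) (nat_lit 0) (p (nat_lit 0x160014) (nat_lit 0) (p (nat_lit 0x16000c) (nat_lit 0) (p (nat_lit 0x50612) (nat_lit 0) (p (nat_lit 0x40592) (nat_lit 0) (p (nat_lit 0x40492) (nat_lit 0) (p (nat_lit 0x30412) (nat_lit 0) (p (nat_lit 0x30212) (nat_lit 0) (p (nat_lit 0x20192) (nat_lit 0) (p (nat_lit 0x20092) (nat_lit 0) (p (nat_lit 0x10012) (nat_lit 0) pn))))))))))))))))))))))))))))) :=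
  Cl.node (nat_lit 0xc1) (nat_lit 2) (by decide +kernel) (ClAll.succ (ClAll.succ ClAll.zero n242) n243)

def n317 : Cl (O (nat_lit 1)) (R (nat_lit 104465))
    (p (nat_lit 0x58014) (nat_lit 1) (p (nat_lit 0xb0014) (nat_lit 0) (p (nat_lit 0x380c2) (nat_lit 0) (p (nat_lit 0x44c2a) (nat_lit 1) (p (nat_lit 0x41) (nat_lit 0) (p (nat_lit 0x200004) (nat_lit 0) (p (nat_lit 0xd1) (nat_lit 0) (p (nat_lit 0x109) (nat_lit 1) (p (nat_lit 0x101) (nat_lit 0) (p (nat_lit 0x119) (nat_lit 0) (p (nat_lit 0xc9) (nat_lit 0) (p (nat_lit 0x89) (nat_lit 1) (p (nat_lit 0x41) (nat_lit 0) (p (nat_lit 0x8078907089a) (nat_lit 0) (p (nat_lit 0x7870886861a) (nat_lit 0) (p (nat_lit 0x800070806078a) (nat_lit 0) (p (nat_lit 0x800068785850a) (nat_lit 0) (p (nat_lit 0x587050682) (nat_lit 0) (p (nat_lit 0x506848402) (nat_lit 0) (p (nat_lit 0x160014) (nat_lit 0) (p (nat_lit 0x16000c) (nat_lit 0) (p (nat_lit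 0x50612) (nat_lit 0) (p (nat_lit 0x40592) (nat_lit 0) (p (nat_lit 0x40492) (nat_lit 0) (p (nat_lit 0x30412) (nat_lit 0) (p (nat_lit 0x30212) (nat_lit 0) (p (nat_lit 0x20192) (nat_lit 0) (p (nat_lit 0x20092) (nat_lit 0) (p (nat_lit 0x10012) (nat_lit 0) pn))))))))))))))))))))))))))))) :=
  Cl.node (nat_lit 0x10800c) (nat_lit 2) (by decide +kernel) (ClAll.succ (ClAll.succ ClAll.zero n244) s681)

def n318 : Cl (O (nat_lit 1)) (R (nat_lit 104465))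
    (p (nat_lit 0xb000c) (nat_lit 0) (p (nat_lit 0xb0014) (nat_lit 1) (p (nat_lit 0x380c2) (nat_lit 0) (p (nat_lit 0x44c2a) (nat_lit 1) (p (nat_lit 0x41) (nat_lit 0) (p (nat_lit 0x200004) (nat_lit 0) (p (nat_lit 0xd1) (nat_lit 0) (p (nat_lit 0x109) (nat_lit 1) (p (nat_lit 0x101) (nat_lit 0) (p (nat_lit 0x119) (nat_lit 0) (p (nat_lit 0xc9) (nat_lit 0) (p (nat_lit 0x89) (nat_lit 1) (p (nat_lit 0x41) (nat_lit 0) (p (nat_lit 0x8078907089a) (nat_lit 0) (p (nat_lit 0x7870886861a) (nat_lit 0) (p (nat_lit 0x800070806078a) (nat_lit 0) (p (nat_lit 0x800068785850a) (nat_lit 0) (p (nat_lit 0x587050682) (nat_lit 0) (p (nat_lit 0x506848402) (nat_lit 0) (p (nat_lit 0x160014) (nat_lit 0) (p (nat_lit 0x16000c) (nat_lit 0) (p (nat_lit 0x50612) (nat_lit 0) (p (nat_lit 0x40592) (nat_lit 0) (p (nat_lit 0x40492) (nat_lit 0) (p (nat_lit 0x30412) (nat_lit 0) (p (nat_lit 0x30212) (nat_lit 0)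 (p (nat_lit 0x20192) (nat_lit 0) (p (nat_lit 0x20092) (nat_lit 0) (p (nat_lit 0x10012) (nat_lit 0) pn))))))))))))))))))))))))))))) :=
  Cl.node (nat_lit 0x2a8258a8b89890a) (nat_lit 1) (by decide +kernel) (ClAll.succ ClAll.zero n245)

def n319 : Cl (O (nat_lit 1)) (R (nat_lit 104465))
    (p (nat_lit 0xb000c) (nat_lit 0) (p (nat_lit 0xc1) (nat_lit 0) (p (nat_lit 0x100004) (nat_lit 0) (p (nat_lit 0x200004) (nat_lit 0) (p (nat_lit 0x380c2) (nat_lit 0) (p (nat_lit 0x444aa) (nat_lit 7) (p (nat_lit 0xd1) (nat_lit 1) (p (nat_lit 0x109) (nat_lit 1) (p (nat_lit 0x101) (nat_lit 0) (p (nat_lit 0x119) (nat_lit 0) (p (nat_lit 0xc9) (nat_lit 0) (p (nat_lit 0x89) (nat_lit 1) (p (nat_lit 0x41) (nat_lit 0) (p (nat_lit 0x8078907089a) (nat_lit 0) (p (nat_lit 0x7870886861a) (nat_lit 0) (p (nat_lit 0x800070806078a) (nat_lit 0) (p (nat_lit 0x800068785850a) (nat_lit 0) (p (nat_lit 0x587050682)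 (nat_lit 0) (p (nat_lit 0x506848402) (nat_lit 0) (p (nat_lit 0x160014) (nat_lit 0) (p (nat_lit 0x16000c) (nat_lit 0) (p (nat_lit 0x50612) (nat_lit 0) (p (nat_lit 0x40592) (nat_lit 0) (p (nat_lit 0x40492) (nat_lit 0) (p (nat_lit 0x30412) (nat_lit 0) (p (nat_lit 0x30212) (nat_lit 0) (p (nat_lit 0x20192) (nat_lit 0) (p (nat_lit 0x20092) (nat_lit 0) (p (nat_lit 0x10012) (nat_lit 0) pn))))))))))))))))))))))))))))) :=
  Cl.node (nat_lit 0xc9) (nat_lit 2) (by decide +kernel) (ClAll.succ (ClAll.succ ClAll.zero n246) n247)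

def n320 : Cl (O (nat_lit 1)) (R (nat_lit 104465))
    (p (nat_lit 0x108014) (nat_lit 0) (p (nat_lit 0x10800c) (nat_lit 0) (p (nat_lit 0x100004) (nat_lit 1) (p (nat_lit 0x200004) (nat_lit 0) (p (nat_lit 0x380c2) (nat_lit 0) (p (nat_lit 0x444aa) (nat_lit 7) (p (nat_lit 0xd1) (nat_lit 1) (p (nat_lit 0x109) (nat_lit 1) (p (nat_lit 0x101) (nat_lit 0) (p (nat_lit 0x119) (nat_lit 0) (p (nat_lit 0xc9) (nat_lit 0) (p (nat_lit 0x89) (nat_lit 1) (p (nat_lit 0x41) (nat_lit 0) (p (nat_lit 0x8078907089a) (nat_lit 0) (p (nat_lit 0x7870886861a) (nat_lit 0) (p (nat_lit 0x800070806078a) (nat_lit 0) (p (nat_lit 0x800068785850a) (nat_lit 0) (p (nat_lit 0x587050682) (nat_lit 0) (p (nat_lit 0x506848402) (nat_lit 0) (p (nat_lit 0x160014) (nat_lit 0) (p (nat_lit 0x16000c) (nat_lit 0) (p (nat_lit 0x50612) (nat_lit 0) (p (nat_lit 0x40592) (nat_lit 0) (p (nat_lit 0x40492) (nat_lit 0) (p (nat_lit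 0x30412) (nat_lit 0) (p (nat_lit 0x30212) (nat_lit 0) (p (nat_lit 0x20192) (nat_lit 0) (p (nat_lit 0x20092) (nat_lit 0) (p (nat_lit 0x10012) (nat_lit 0) pn))))))))))))))))))))))))))))) :=
  Cl.node (nat_lit 0x8400c) (nat_lit 2) (by decide +kernel) (ClAll.succ (ClAll.succ ClAll.zero n248) s753)

def n321 : Cl (O (nat_lit 1)) (R (nat_lit 104465))
    (p (nat_lit 0xc1) (nat_lit 0) (p (nat_lit 0x100004) (nat_lit 0) (p (nat_lit 0x200004) (nat_lit 0) (p (nat_lit 0xb0014) (nat_lit 0) (p (nat_lit 0x380c2) (nat_lit 1) (p (nat_lit 0x444aa) (nat_lit 7) (p (nat_lit 0xd1) (nat_lit 1) (p (nat_lit 0x109) (nat_lit 1) (p (nat_lit 0x101) (nat_lit 0) (p (nat_lit 0x119) (nat_lit 0) (p (nat_lit 0xc9) (nat_lit 0) (p (nat_lit 0x89) (nat_lit 1) (p (nat_lit 0x41) (nat_lit 0) (p (nat_lit 0x8078907089a) (nat_lit 0) (p (nat_lit 0x7870886861a) (nat_lit 0) (p (nat_lit 0x800070806078a) (nat_lit 0)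 (p (nat_lit 0x800068785850a) (nat_lit 0) (p (nat_lit 0x587050682) (nat_lit 0) (p (nat_lit 0x506848402) (nat_lit 0) (p (nat_lit 0x160014) (nat_lit 0) (p (nat_lit 0x16000c) (nat_lit 0) (p (nat_lit 0x50612) (nat_lit 0) (p (nat_lit 0x40592) (nat_lit 0) (p (nat_lit 0x40492) (nat_lit 0) (p (nat_lit 0x30412) (nat_lit 0) (p (nat_lit 0x30212) (nat_lit 0) (p (nat_lit 0x20192) (nat_lit 0) (p (nat_lit 0x20092) (nat_lit 0) (p (nat_lit 0x10012) (nat_lit 0) pn))))))))))))))))))))))))))))) :=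
  Cl.node (nat_lit 0xc9) (nat_lit 2) (by decide +kernel) (ClAll.succ (ClAll.succ ClAll.zero n249) s771)

def n322 : Cl (O (nat_lit 1)) (R (nat_lit 104465))
    (p (nat_lit 0xc1) (nat_lit 1) (p (nat_lit 0x100004) (nat_lit 0) (p (nat_lit 0x200004) (nat_lit 0) (p (nat_lit 0xb0014) (nat_lit 0) (p (nat_lit 0x380c2) (nat_lit 1) (p (nat_lit 0x444aa) (nat_lit 7) (p (nat_lit 0xd1) (nat_lit 1) (p (nat_lit 0x109) (nat_lit 1) (p (nat_lit 0x101) (nat_lit 0) (p (nat_lit 0x119) (nat_lit 0) (p (nat_lit 0xc9) (nat_lit 0) (p (nat_lit 0x89) (nat_lit 1) (p (nat_lit 0x41) (nat_lit 0) (p (nat_lit 0x8078907089a) (nat_lit 0) (p (nat_lit 0x7870886861a) (nat_lit 0) (p (nat_lit 0x800070806078a) (nat_lit 0) (p (nat_lit 0x800068785850a) (nat_lit 0) (p (nat_lit 0x587050682) (nat_lit 0) (p (nat_lit 0x506848402) (nat_lit 0) (p (nat_lit 0x160014) (nat_lit 0) (p (nat_lit 0x16000c) (nat_lit 0) (p (nat_lit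 0x50612) (nat_lit 0) (p (nat_lit 0x40592) (nat_lit 0) (p (nat_lit 0x40492) (nat_lit 0) (p (nat_lit 0x30412) (nat_lit 0) (p (nat_lit 0x30212) (nat_lit 0) (p (nat_lit 0x20192) (nat_lit 0) (p (nat_lit 0x20092) (nat_lit 0) (p (nat_lit 0x10012) (nat_lit 0) pn))))))))))))))))))))))))))))) :=
  Cl.node (nat_lit 0x111) (nat_lit 2) (by decide +kernel) (ClAll.succ (ClAll.succ ClAll.zero s772) s773)

def n323 : Cl (O (nat_lit 1)) (R (nat_lit 104465))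
    (p (nat_lit 0x10800c) (nat_lit 0) (p (nat_lit 0x100004) (nat_lit 1) (p (nat_lit 0x200004) (nat_lit 0) (p (nat_lit 0xb0014) (nat_lit 0) (p (nat_lit 0x380c2) (nat_lit 1) (p (nat_lit 0x444aa) (nat_lit 7) (p (nat_lit 0xd1) (nat_lit 1) (p (nat_lit 0x109) (nat_lit 1) (p (nat_lit 0x101) (nat_lit 0) (p (nat_lit 0x119) (nat_lit 0) (p (nat_lit 0xc9) (nat_lit 0) (p (nat_lit 0x89) (nat_lit 1) (p (nat_lit 0x41) (nat_lit 0) (p (nat_lit 0x8078907089a) (nat_lit 0) (p (nat_lit 0x7870886861a) (nat_lit 0) (p (nat_lit 0x800070806078a) (nat_lit 0) (p (nat_lit 0x800068785850a) (nat_lit 0) (p (nat_lit 0x587050682) (nat_lit 0) (p (nat_lit 0x506848402) (nat_lit 0) (p (nat_lit 0x160014) (nat_lit 0) (p (nat_lit 0x16000c) (nat_lit 0) (p (nat_lit 0x50612) (nat_lit 0) (p (nat_lit 0x40592) (nat_lit 0) (p (nat_lit 0x40492) (nat_lit 0) (p (nat_lit 0x30412) (nat_lit 0) (p (nat_lit 0x30212) (nat_lit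 0) (p (nat_lit 0x20192) (nat_lit 0) (p (nat_lit 0x20092) (nat_lit 0) (p (nat_lit 0x10012) (nat_lit 0) pn))))))))))))))))))))))))))))) :=
  Cl.node (nat_lit 0x58014) (nat_lit 2) (by decide +kernel) (ClAll.succ (ClAll.succ ClAll.zero s774) s775)

def n324 : Cl (O (nat_lit 1)) (R (nat_lit 104465))
    (p (nat_lit 0x100004) (nat_lit 0) (p (nat_lit 0xb000c) (nat_lit 0) (p (nat_lit 0x1fc004) (nat_lit 0) (p (nat_lit 0xb0014) (nat_lit 1) (p (nat_lit 0x380c2) (nat_lit 1) (p (nat_lit 0x444aa) (nat_lit 7) (p (nat_lit 0xd1) (nat_lit 1) (p (nat_lit 0x109) (nat_lit 1) (p (nat_lit 0x101) (nat_lit 0) (p (nat_lit 0x119) (nat_lit 0) (p (nat_lit 0xc9) (nat_lit 0) (p (nat_lit 0x89) (nat_lit 1) (p (nat_lit 0x41) (nat_lit 0) (p (nat_lit 0x8078907089a) (nat_lit 0) (p (nat_lit 0x7870886861a) (nat_lit 0) (p (nat_lit 0x800070806078a) (nat_lit 0) (p (nat_lit 0x800068785850a) (nat_lit 0) (p (nat_lit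 0x587050682) (nat_lit 0) (p (nat_lit 0x506848402) (nat_lit 0) (p (nat_lit 0x160014) (nat_lit 0) (p (nat_lit 0x16000c) (nat_lit 0) (p (nat_lit 0x50612) (nat_lit 0) (p (nat_lit 0x40592) (nat_lit 0) (p (nat_lit 0x40492) (nat_lit 0) (p (nat_lit 0x30412) (nat_lit 0) (p (nat_lit 0x30212) (nat_lit 0) (p (nat_lit 0x20192) (nat_lit 0) (p (nat_lit 0x20092) (nat_lit 0) (p (nat_lit 0x10012) (nat_lit 0) pn))))))))))))))))))))))))))))) :=
  Cl.node (nat_lit 0x2680d0a8b89890a) (nat_lit 1) (by decide +kernel) (ClAll.succ ClAll.zero n250)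

def n325 : Cl (O (nat_lit 1)) (R (nat_lit 104465))
    (p (nat_lit 0xb000c) (nat_lit 0) (p (nat_lit 0xb0014) (nat_lit 1) (p (nat_lit 0x380c2) (nat_lit 0) (p (nat_lit 0x44c2a) (nat_lit 1) (p (nat_lit 0x109) (nat_lit 1) (p (nat_lit 0x200004) (nat_lit 0) (p (nat_lit 0xd1) (nat_lit 0) (p (nat_lit 0xc1) (nat_lit 0) (p (nat_lit 0x101) (nat_lit 1) (p (nat_lit 0x119) (nat_lit 0) (p (nat_lit 0xc9) (nat_lit 0) (p (nat_lit 0x89) (nat_lit 1) (p (nat_lit 0x41) (nat_lit 0) (p (nat_lit 0x8078907089a) (nat_lit 0) (p (nat_lit 0x7870886861a) (nat_lit 0) (p (nat_lit 0x800070806078a) (nat_lit 0) (p (nat_lit 0x800068785850a) (nat_lit 0) (p (nat_lit 0x587050682) (nat_lit 0) (p (nat_lit 0x506848402) (nat_lit 0) (p (nat_lit 0x160014) (nat_lit 0) (p (nat_lit 0x16000c) (nat_lit 0) (p (nat_lit 0x50612) (nat_lit 0) (p (nat_lit 0x40592) (nat_lit 0) (p (nat_lit 0x40492) (nat_lit 0) (p (nat_lit 0x30412)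 (nat_lit 0) (p (nat_lit 0x30212) (nat_lit 0) (p (nat_lit 0x20192) (nat_lit 0) (p (nat_lit 0x20092) (nat_lit 0) (p (nat_lit 0x10012) (nat_lit 0) pn))))))))))))))))))))))))))))) :=
  Cl.node (nat_lit 0x2a8258a8b89890a) (nat_lit 1) (by decide +kernel) (ClAll.succ ClAll.zero n251)

def n326 : Cl (O (nat_lit 1)) (R (nat_lit 104465))
    (p (nat_lit 0x119) (nat_lit 1) (p (nat_lit 0xc9) (nat_lit 0) (p (nat_lit 0x200004) (nat_lit 0) (p (nat_lit 0xb000c) (nat_lit 0) (p (nat_lit 0x380c2) (nat_lit 0) (p (nat_lit 0x444aa) (nat_lit 7) (p (nat_lit 0xd1) (nat_lit 1) (p (nat_lit 0xc1) (nat_lit 0) (p (nat_lit 0x101) (nat_lit 1) (p (nat_lit 0x119) (nat_lit 0) (p (nat_lit 0xc9) (nat_lit 0) (p (nat_lit 0x89) (nat_lit 1) (p (nat_lit 0x41) (nat_lit 0) (p (nat_lit 0x8078907089a) (nat_lit 0) (p (nat_lit 0x7870886861a) (nat_lit 0) (p (nat_lit 0x800070806078a) (nat_lit 0) (p (nat_lit 0x800068785850a)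 (nat_lit 0) (p (nat_lit 0x587050682) (nat_lit 0) (p (nat_lit 0x506848402) (nat_lit 0) (p (nat_lit 0x160014) (nat_lit 0) (p (nat_lit 0x16000c) (nat_lit 0) (p (nat_lit 0x50612) (nat_lit 0) (p (nat_lit 0x40592) (nat_lit 0) (p (nat_lit 0x40492) (nat_lit 0) (p (nat_lit 0x30412) (nat_lit 0) (p (nat_lit 0x30212) (nat_lit 0) (p (nat_lit 0x20192) (nat_lit 0) (p (nat_lit 0x20092) (nat_lit 0) (p (nat_lit 0x10012) (nat_lit 0) pn))))))))))))))))))))))))))))) :=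
  Cl.node (nat_lit 0x100004) (nat_lit 2) (by decide +kernel) (ClAll.succ (ClAll.succ ClAll.zero n252) s860)

def n327 : Cl (O (nat_lit 1)) (R (nat_lit 104465))
    (p (nat_lit 0x119) (nat_lit 1) (p (nat_lit 0xc9) (nat_lit 0) (p (nat_lit 0x100004) (nat_lit 0) (p (nat_lit 0x200004) (nat_lit 0) (p (nat_lit 0x380c2) (nat_lit 1) (p (nat_lit 0x444aa) (nat_lit 7) (p (nat_lit 0xd1) (nat_lit 1) (p (nat_lit 0xc1) (nat_lit 0) (p (nat_lit 0x101) (nat_lit 1) (p (nat_lit 0x119) (nat_lit 0) (p (nat_lit 0xc9) (nat_lit 0) (p (nat_lit 0x89) (nat_lit 1) (p (nat_lit 0x41) (nat_lit 0) (p (nat_lit 0x8078907089a) (nat_lit 0) (p (nat_lit 0x7870886861a) (nat_lit 0) (p (nat_lit 0x800070806078a) (nat_lit 0) (p (nat_lit 0x800068785850a) (nat_lit 0) (p (nat_lit 0x587050682) (nat_lit 0) (p (nat_lit 0x506848402) (nat_lit 0) (p (nat_lit 0x160014) (nat_lit 0) (p (nat_lit 0x16000c) (nat_lit 0) (p (nat_lit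 0x50612) (nat_lit 0) (p (nat_lit 0x40592) (nat_lit 0) (p (nat_lit 0x40492) (nat_lit 0) (p (nat_lit 0x30412) (nat_lit 0) (p (nat_lit 0x30212) (nat_lit 0) (p (nat_lit 0x20192) (nat_lit 0) (p (nat_lit 0x20092) (nat_lit 0) (p (nat_lit 0x10012) (nat_lit 0) pn))))))))))))))))))))))))))))) :=
  Cl.node (nat_lit 0xb000c) (nat_lit 2) (by decide +kernel) (ClAll.succ (ClAll.succ ClAll.zero n253) s878)

def n328 : Cl (O (nat_lit 1)) (R (nat_lit 104465))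
    (p (nat_lit 0x109) (nat_lit 0) (p (nat_lit 0x101) (nat_lit 0) (p (nat_lit 0x100004) (nat_lit 0) (p (nat_lit 0x200004) (nat_lit 0) (p (nat_lit 0x380c2) (nat_lit 0) (p (nat_lit 0x444aa) (nat_lit 7) (p (nat_lit 0x111) (nat_lit 1) (p (nat_lit 0xd1) (nat_lit 1) (p (nat_lit 0xc1) (nat_lit 0) (p (nat_lit 0x119) (nat_lit 1) (p (nat_lit 0xc9) (nat_lit 0) (p (nat_lit 0x89) (nat_lit 1) (p (nat_lit 0x41) (nat_lit 0) (p (nat_lit 0x8078907089a) (nat_lit 0) (p (nat_lit 0x7870886861a) (nat_lit 0) (p (nat_lit 0x800070806078a) (nat_lit 0) (p (nat_lit 0x800068785850a) (nat_lit 0) (p (nat_lit 0x587050682) (nat_lit 0) (p (nat_lit 0x506848402) (nat_lit 0) (p (nat_lit 0x160014) (nat_lit 0) (p (nat_lit 0x16000c) (nat_lit 0) (p (nat_lit 0x50612) (nat_lit 0) (p (nat_lit 0x40592) (nat_lit 0) (p (nat_lit 0x40492) (nat_lit 0) (p (nat_lit 0x30412) (nat_lit 0) (p (nat_lit 0x30212) (nat_lit 0)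 (p (nat_lit 0x20192) (nat_lit 0) (p (nat_lit 0x20092) (nat_lit 0) (p (nat_lit 0x10012) (nat_lit 0) pn))))))))))))))))))))))))))))) :=
  Cl.node (nat_lit 0x3cc2a) (nat_lit 12) (by decide +kernel) (ClAll.succ (ClAll.succ (ClAll.succ (ClAll.succ (ClAll.succ (ClAll.succ (ClAll.succ (ClAll.succ (ClAll.succ (ClAll.succ (ClAll.succ (ClAll.succ ClAll.zero s896) s897) n254) s903) s904) s905) s906) s907) s908) s909) s910) s911)

def n329 : Cl (O (nat_lit 1)) (R (nat_lit 104465))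
    (p (nat_lit 0x80004) (nat_lit 0) (p (nat_lit 0x109) (nat_lit 0) (p (nat_lit 0x100004) (nat_lit 0) (p (nat_lit 0x200004) (nat_lit 0) (p (nat_lit 0x380c2) (nat_lit 1) (p (nat_lit 0x444aa) (nat_lit 7) (p (nat_lit 0x111) (nat_lit 1) (p (nat_lit 0xd1) (nat_lit 1) (p (nat_lit 0xc1) (nat_lit 0) (p (nat_lit 0x119) (nat_lit 1) (p (nat_lit 0xc9) (nat_lit 0) (p (nat_lit 0x89) (nat_lit 1) (p (nat_lit 0x41) (nat_lit 0) (p (nat_lit 0x8078907089a) (nat_lit 0) (p (nat_lit 0x7870886861a) (nat_lit 0) (p (nat_lit 0x800070806078a) (nat_lit 0) (p (nat_lit 0x800068785850a) (nat_lit 0) (p (nat_lit 0x587050682) (nat_lit 0) (p (nat_lit 0x506848402) (nat_lit 0) (p (nat_lit 0x160014) (nat_lit 0) (p (nat_lit 0x16000c) (nat_lit 0) (p (nat_lit 0x50612) (nat_lit 0) (p (nat_lit 0x40592) (nat_lit 0) (p (nat_lit 0x40492) (nat_lit 0) (p (nat_lit 0x30412) (nat_lit 0) (p (nat_lit 0x30212) (nat_lit 0)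 (p (nat_lit 0x20192) (nat_lit 0) (p (nat_lit 0x20092) (nat_lit 0) (p (nat_lit 0x10012) (nat_lit 0) pn))))))))))))))))))))))))))))) :=
  Cl.node (nat_lit 0xb0014) (nat_lit 2) (by decide +kernel) (ClAll.succ (ClAll.succ ClAll.zero n255) s918)

def n330 : Cl (O (nat_lit 1)) (R (nat_lit 104465))
    (p (nat_lit 0x80004) (nat_lit 1) (p (nat_lit 0x109) (nat_lit 0) (p (nat_lit 0x100004) (nat_lit 0) (p (nat_lit 0x200004) (nat_lit 0) (p (nat_lit 0x380c2) (nat_lit 1) (p (nat_lit 0x444aa) (nat_lit 7) (p (nat_lit 0x111) (nat_lit 1) (p (nat_lit 0xd1) (nat_lit 1) (p (nat_lit 0xc1) (nat_lit 0) (p (nat_lit 0x119) (nat_lit 1) (p (nat_lit 0xc9) (nat_lit 0) (p (nat_lit 0x89) (nat_lit 1) (p (nat_lit 0x41) (nat_lit 0) (p (nat_lit 0x8078907089a) (nat_lit 0) (p (nat_lit 0x7870886861a) (nat_lit 0) (p (nat_lit 0x800070806078a) (nat_lit 0) (p (nat_lit 0x800068785850a) (nat_lit 0) (p (nat_lit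 0x587050682) (nat_lit 0) (p (nat_lit 0x506848402) (nat_lit 0) (p (nat_lit 0x160014) (nat_lit 0) (p (nat_lit 0x16000c) (nat_lit 0) (p (nat_lit 0x50612) (nat_lit 0) (p (nat_lit 0x40592) (nat_lit 0) (p (nat_lit 0x40492) (nat_lit 0) (p (nat_lit 0x30412) (nat_lit 0) (p (nat_lit 0x30212) (nat_lit 0) (p (nat_lit 0x20192) (nat_lit 0) (p (nat_lit 0x20092) (nat_lit 0) (p (nat_lit 0x10012) (nat_lit 0) pn))))))))))))))))))))))))))))) :=
  Cl.node (nat_lit 0x13400c) (nat_lit 2) (by decide +kernel) (ClAll.succ (ClAll.succ ClAll.zero n256) s922)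

def n331 : Cl (O (nat_lit 1)) (R (nat_lit 104465))
    (p (nat_lit 0x41) (nat_lit 1) (p (nat_lit 0x101) (nat_lit 1) (p (nat_lit 0xb0014) (nat_lit 0) (p (nat_lit 0x200004) (nat_lit 0) (p (nat_lit 0x380c2) (nat_lit 0) (p (nat_lit 0x44c2a) (nat_lit 0) (p (nat_lit 0x111) (nat_lit 0) (p (nat_lit 0x101) (nat_lit 0) (p (nat_lit 0xc1) (nat_lit 1) (p (nat_lit 0x119) (nat_lit 1) (p (nat_lit 0xc9) (nat_lit 0) (p (nat_lit 0x89) (nat_lit 1) (p (nat_lit 0x41) (nat_lit 0) (p (nat_lit 0x8078907089a) (nat_lit 0) (p (nat_lit 0x7870886861a) (nat_lit 0) (p (nat_lit 0x800070806078a) (nat_lit 0) (p (nat_lit 0x800068785850a) (nat_lit 0) (p (nat_lit 0x587050682) (nat_lit 0) (p (nat_lit 0x506848402) (nat_lit 0) (p (nat_lit 0x160014) (nat_lit 0) (p (nat_lit 0x16000c) (nat_lit 0) (p (nat_lit 0x50612) (nat_lit 0) (p (nat_lit 0x40592) (nat_lit 0) (p (nat_lit 0x40492) (nat_lit 0) (p (nat_lit 0x30412)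 (nat_lit 0) (p (nat_lit 0x30212) (nat_lit 0) (p (nat_lit 0x20192) (nat_lit 0) (p (nat_lit 0x20092) (nat_lit 0) (p (nat_lit 0x10012) (nat_lit 0) pn))))))))))))))))))))))))))))) :=
  Cl.node (nat_lit 0x81) (nat_lit 2) (by decide +kernel) (ClAll.succ (ClAll.succ ClAll.zero s932) n257)

def n332 : Cl (O (nat_lit 1)) (R (nat_lit 104465))
    (p (nat_lit 0x2a8258a8b89890a) (nat_lit 0) (p (nat_lit 0xb000c) (nat_lit 0) (p (nat_lit 0x1fc004) (nat_lit 0) (p (nat_lit 0xb0014) (nat_lit 1) (p (nat_lit 0x380c2) (nat_lit 0) (p (nat_lit 0x444aa) (nat_lit 7) (p (nat_lit 0x111) (nat_lit 1) (p (nat_lit 0x101) (nat_lit 0) (p (nat_lit 0xc1) (nat_lit 1) (p (nat_lit 0x119) (nat_lit 1) (p (nat_lit 0xc9) (nat_lit 0) (p (nat_lit 0x89) (nat_lit 1) (p (nat_lit 0x41) (nat_lit 0) (p (nat_lit 0x8078907089a) (nat_lit 0) (p (nat_lit 0x7870886861a) (nat_lit 0) (p (nat_lit 0x800070806078a) (nat_lit 0)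 (p (nat_lit 0x800068785850a) (nat_lit 0) (p (nat_lit 0x587050682) (nat_lit 0) (p (nat_lit 0x506848402) (nat_lit 0) (p (nat_lit 0x160014) (nat_lit 0) (p (nat_lit 0x16000c) (nat_lit 0) (p (nat_lit 0x50612) (nat_lit 0) (p (nat_lit 0x40592) (nat_lit 0) (p (nat_lit 0x40492) (nat_lit 0) (p (nat_lit 0x30412) (nat_lit 0) (p (nat_lit 0x30212) (nat_lit 0) (p (nat_lit 0x20192) (nat_lit 0) (p (nat_lit 0x20092) (nat_lit 0) (p (nat_lit 0x10012) (nat_lit 0) pn))))))))))))))))))))))))))))) :=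
  Cl.node (nat_lit 0x2a8258b0c0a0b8a) (nat_lit 1) (by decide +kernel) (ClAll.succ ClAll.zero n258)

def n333 : Cl (O (nat_lit 1)) (R (nat_lit 104465))
    (p (nat_lit 0xb000c) (nat_lit 0) (p (nat_lit 0x109) (nat_lit 0) (p (nat_lit 0x100004) (nat_lit 0) (p (nat_lit 0x200004) (nat_lit 0) (p (nat_lit 0x380c2) (nat_lit 1) (p (nat_lit 0x444aa) (nat_lit 7) (p (nat_lit 0x111) (nat_lit 1) (p (nat_lit 0x101) (nat_lit 0) (p (nat_lit 0xc1) (nat_lit 1) (p (nat_lit 0x119) (nat_lit 1) (p (nat_lit 0xc9) (nat_lit 0) (p (nat_lit 0x89) (nat_lit 1) (p (nat_lit 0x41) (nat_lit 0) (p (nat_lit 0x8078907089a) (nat_lit 0) (p (nat_lit 0x7870886861a) (nat_lit 0) (p (nat_lit 0x800070806078a) (nat_lit 0) (p (nat_lit 0x800068785850a) (nat_lit 0) (p (nat_lit 0x587050682) (nat_lit 0) (p (nat_lit 0x506848402) (nat_lit 0) (p (nat_lit 0x160014) (nat_lit 0) (p (nat_lit 0x16000c) (nat_lit 0) (p (nat_lit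 0x50612) (nat_lit 0) (p (nat_lit 0x40592) (nat_lit 0) (p (nat_lit 0x40492) (nat_lit 0) (p (nat_lit 0x30412) (nat_lit 0) (p (nat_lit 0x30212) (nat_lit 0) (p (nat_lit 0x20192) (nat_lit 0) (p (nat_lit 0x20092) (nat_lit 0) (p (nat_lit 0x10012) (nat_lit 0) pn))))))))))))))))))))))))))))) :=
  Cl.node (nat_lit 0x119) (nat_lit 2) (by decide +kernel) (ClAll.succ (ClAll.succ ClAll.zero s967) s968)

def n334 : Cl (O (nat_lit 1)) (R (nat_lit 104465))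
    (p (nat_lit 0x108014) (nat_lit 0) (p (nat_lit 0x100004) (nat_lit 1) (p (nat_lit 0xb000c) (nat_lit 0) (p (nat_lit 0x200004) (nat_lit 0) (p (nat_lit 0x380c2) (nat_lit 0) (p (nat_lit 0x444aa) (nat_lit 7) (p (nat_lit 0x119) (nat_lit 1) (p (nat_lit 0x111) (nat_lit 0) (p (nat_lit 0x101) (nat_lit 0) (p (nat_lit 0x109) (nat_lit 0) (p (nat_lit 0xc9) (nat_lit 1) (p (nat_lit 0x89) (nat_lit 1) (p (nat_lit 0x41) (nat_lit 0) (p (nat_lit 0x8078907089a) (nat_lit 0) (p (nat_lit 0x7870886861a) (nat_lit 0) (p (nat_lit 0x800070806078a) (nat_lit 0) (p (nat_lit 0x800068785850a) (nat_lit 0) (p (nat_lit 0x587050682) (nat_lit 0) (p (nat_lit 0x506848402) (nat_lit 0) (p (nat_lit 0x160014) (nat_lit 0) (p (nat_lit 0x16000c) (nat_lit 0) (p (nat_lit 0x50612) (nat_lit 0) (p (nat_lit 0x40592) (nat_lit 0) (p (nat_lit 0x40492) (nat_lit 0) (p (nat_lit 0x30412) (nat_lit 0) (p (nat_lit 0x30212) (nat_lit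 0) (p (nat_lit 0x20192) (nat_lit 0) (p (nat_lit 0x20092) (nat_lit 0) (p (nat_lit 0x10012) (nat_lit 0) pn))))))))))))))))))))))))))))) :=
  Cl.node (nat_lit 0x81) (nat_lit 2) (by decide +kernel) (ClAll.succ (ClAll.succ ClAll.zero n259) s1000)

def n335 : Cl (O (nat_lit 1)) (R (nat_lit 104465))
    (p (nat_lit 0x444aa) (nat_lit 7) (p (nat_lit 0xd1) (nat_lit 1) (p (nat_lit 0x200004) (nat_lit 0) (p (nat_lit 0x380c2) (nat_lit 0) (p (nat_lit 0x4c42a) (nat_lit 10) (p (nat_lit 0xc9) (nat_lit 0) (p (nat_lit 0x89) (nat_lit 1) (p (nat_lit 0x109) (nat_lit 1) (p (nat_lit 0x101) (nat_lit 0) (p (nat_lit 0x119) (nat_lit 0) (p (nat_lit 0xd1) (nat_lit 0) (p (nat_lit 0x81) (nat_lit 0) (p (nat_lit 0x41) (nat_lit 1) (p (nat_lit 0x8078907089a) (nat_lit 0) (p (nat_lit 0x7870886861a) (nat_lit 0) (p (nat_lit 0x800070806078a) (nat_lit 0) (p (nat_lit 0x800068785850a) (nat_lit 0) (p (nat_lit 0x587050682)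 (nat_lit 0) (p (nat_lit 0x506848402) (nat_lit 0) (p (nat_lit 0x160014) (nat_lit 0) (p (nat_lit 0x16000c) (nat_lit 0) (p (nat_lit 0x50612) (nat_lit 0) (p (nat_lit 0x40592) (nat_lit 0) (p (nat_lit 0x40492) (nat_lit 0) (p (nat_lit 0x30412) (nat_lit 0) (p (nat_lit 0x30212) (nat_lit 0) (p (nat_lit 0x20192) (nat_lit 0) (p (nat_lit 0x20092) (nat_lit 0) (p (nat_lit 0x10012) (nat_lit 0) pn))))))))))))))))))))))))))))) :=
  Cl.node (nat_lit 0x380c2) (nat_lit 2) (by decide +kernel) (ClAll.succ (ClAll.succ ClAll.zero n260) s1075)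

def n336 : Cl (O (nat_lit 1)) (R (nat_lit 104465))
    (p (nat_lit 0xd1) (nat_lit 1) (p (nat_lit 0x100004) (nat_lit 0) (p (nat_lit 0x200004) (nat_lit 0) (p (nat_lit 0x380c2) (nat_lit 0) (p (nat_lit 0x4c42a) (nat_lit 10) (p (nat_lit 0xc9) (nat_lit 0) (p (nat_lit 0x89) (nat_lit 1) (p (nat_lit 0xc1) (nat_lit 0) (p (nat_lit 0x101) (nat_lit 1) (p (nat_lit 0x119) (nat_lit 0) (p (nat_lit 0xd1) (nat_lit 0) (p (nat_lit 0x81) (nat_lit 0) (p (nat_lit 0x41) (nat_lit 1) (p (nat_lit 0x8078907089a) (nat_lit 0) (p (nat_lit 0x7870886861a) (nat_lit 0) (p (nat_lit 0x800070806078a) (nat_lit 0) (p (nat_lit 0x800068785850a) (nat_lit 0) (p (nat_lit 0x587050682) (nat_lit 0) (p (nat_lit 0x506848402) (nat_lit 0) (p (nat_lit 0x160014) (nat_lit 0) (p (nat_lit 0x16000c) (nat_lit 0) (p (nat_lit 0x50612) (nat_lit 0) (p (nat_lit 0x40592) (nat_lit 0) (p (nat_lit 0x40492) (nat_lit 0) (p (nat_lit 0x30412)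 (nat_lit 0) (p (nat_lit 0x30212) (nat_lit 0) (p (nat_lit 0x20192) (nat_lit 0) (p (nat_lit 0x20092) (nat_lit 0) (p (nat_lit 0x10012) (nat_lit 0) pn))))))))))))))))))))))))))))) :=
  Cl.node (nat_lit 0xb0014) (nat_lit 2) (by decide +kernel) (ClAll.succ (ClAll.succ ClAll.zero n261) s1129)

def n337 : Cl (O (nat_lit 1)) (R (nat_lit 104465))
    (p (nat_lit 0x109) (nat_lit 1) (p (nat_lit 0x101) (nat_lit 0) (p (nat_lit 0xb000c) (nat_lit 0) (p (nat_lit 0xb0014) (nat_lit 0) (p (nat_lit 0x380c2) (nat_lit 0) (p (nat_lit 0x3cc2a) (nat_lit 2) (p (nat_lit 0x89) (nat_lit 0) (p (nat_lit 0xc1) (nat_lit 1) (p (nat_lit 0x101) (nat_lit 1) (p (nat_lit 0x119) (nat_lit 0) (p (nat_lit 0xd1) (nat_lit 0) (p (nat_lit 0x81) (nat_lit 0) (p (nat_lit 0x41) (nat_lit 1) (p (nat_lit 0x8078907089a) (nat_lit 0) (p (nat_lit 0x7870886861a) (nat_lit 0) (p (nat_lit 0x800070806078a) (nat_lit 0) (p (nat_lit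 0x800068785850a) (nat_lit 0) (p (nat_lit 0x587050682) (nat_lit 0) (p (nat_lit 0x506848402) (nat_lit 0) (p (nat_lit 0x160014) (nat_lit 0) (p (nat_lit 0x16000c) (nat_lit 0) (p (nat_lit 0x50612) (nat_lit 0) (p (nat_lit 0x40592) (nat_lit 0) (p (nat_lit 0x40492) (nat_lit 0) (p (nat_lit 0x30412) (nat_lit 0) (p (nat_lit 0x30212) (nat_lit 0) (p (nat_lit 0x20192) (nat_lit 0) (p (nat_lit 0x20092) (nat_lit 0) (p (nat_lit 0x10012) (nat_lit 0) pn))))))))))))))))))))))))))))) :=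
  Cl.node (nat_lit 0xc9) (nat_lit 2) (by decide +kernel) (ClAll.succ (ClAll.succ ClAll.zero n262) n263)

def n338 : Cl (O (nat_lit 1)) (R (nat_lit 104465))
    (p (nat_lit 0x89) (nat_lit 1) (p (nat_lit 0x101) (nat_lit 1) (p (nat_lit 0xb000c) (nat_lit 0) (p (nat_lit 0xb0014) (nat_lit 0) (p (nat_lit 0x380c2) (nat_lit 0) (p (nat_lit 0x3cc2a) (nat_lit 2) (p (nat_lit 0x89) (nat_lit 0) (p (nat_lit 0xc1) (nat_lit 1) (p (nat_lit 0x101) (nat_lit 1) (p (nat_lit 0x119) (nat_lit 0) (p (nat_lit 0xd1) (nat_lit 0) (p (nat_lit 0x81) (nat_lit 0) (p (nat_lit 0x41) (nat_lit 1) (p (nat_lit 0x8078907089a) (nat_lit 0) (p (nat_lit 0x7870886861a) (nat_lit 0) (p (nat_lit 0x800070806078a) (nat_lit 0) (p (nat_lit 0x800068785850a) (nat_lit 0) (p (nat_lit 0x587050682) (nat_lit 0) (p (nat_lit 0x506848402) (nat_lit 0) (p (nat_lit 0x160014) (nat_lit 0) (p (nat_lit 0x16000c) (nat_lit 0) (p (nat_lit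 0x50612) (nat_lit 0) (p (nat_lit 0x40592) (nat_lit 0) (p (nat_lit 0x40492) (nat_lit 0) (p (nat_lit 0x30412) (nat_lit 0) (p (nat_lit 0x30212) (nat_lit 0) (p (nat_lit 0x20192) (nat_lit 0) (p (nat_lit 0x20092) (nat_lit 0) (p (nat_lit 0x10012) (nat_lit 0) pn))))))))))))))))))))))))))))) :=
  Cl.node (nat_lit 0x109) (nat_lit 2) (by decide +kernel) (ClAll.succ (ClAll.succ ClAll.zero s1168) n264)

def n339 : Cl (O (nat_lit 1)) (R (nat_lit 104465))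
    (p (nat_lit 0x100004) (nat_lit 0) (p (nat_lit 0x1fc004) (nat_lit 0) (p (nat_lit 0xb000c) (nat_lit 1) (p (nat_lit 0xb0014) (nat_lit 0) (p (nat_lit 0x380c2) (nat_lit 0) (p (nat_lit 0x3cc2a) (nat_lit 2) (p (nat_lit 0x89) (nat_lit 0) (p (nat_lit 0xc1) (nat_lit 1) (p (nat_lit 0x101) (nat_lit 1) (p (nat_lit 0x119) (nat_lit 0) (p (nat_lit 0xd1) (nat_lit 0) (p (nat_lit 0x81) (nat_lit 0) (p (nat_lit 0x41) (nat_lit 1) (p (nat_lit 0x8078907089a) (nat_lit 0) (p (nat_lit 0x7870886861a) (nat_lit 0) (p (nat_lit 0x800070806078a) (nat_lit 0) (p (nat_lit 0x800068785850a) (nat_lit 0) (p (nat_lit 0x587050682) (nat_lit 0) (p (nat_lit 0x506848402) (nat_lit 0) (p (nat_lit 0x160014) (nat_lit 0) (p (nat_lit 0x16000c) (nat_lit 0) (p (nat_lit 0x50612) (nat_lit 0) (p (nat_lit 0x40592) (nat_lit 0) (p (nat_lit 0x40492) (nat_lit 0) (p (nat_lit 0x30412) (nat_lit 0) (p (nat_lit 0x30212) (nat_lit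 0) (p (nat_lit 0x20192) (nat_lit 0) (p (nat_lit 0x20092) (nat_lit 0) (p (nat_lit 0x10012) (nat_lit 0) pn))))))))))))))))))))))))))))) :=
  Cl.node (nat_lit 0x2680d0a8b89890a) (nat_lit 1) (by decide +kernel) (ClAll.succ ClAll.zero n265)

def n340 : Cl (O (nat_lit 1)) (R (nat_lit 104465))
    (p (nat_lit 0x119) (nat_lit 1) (p (nat_lit 0x81) (nat_lit 0) (p (nat_lit 0xb000c) (nat_lit 0) (p (nat_lit 0x380c2) (nat_lit 0) (p (nat_lit 0x3c4aa) (nat_lit 8) (p (nat_lit 0x109) (nat_lit 1) (p (nat_lit 0x89) (nat_lit 1) (p (nat_lit 0x101) (nat_lit 0) (p (nat_lit 0xc1) (nat_lit 1) (p (nat_lit 0x119) (nat_lit 1) (p (nat_lit 0xd1) (nat_lit 0) (p (nat_lit 0x81) (nat_lit 0) (p (nat_lit 0x41) (nat_lit 1) (p (nat_lit 0x8078907089a) (nat_lit 0) (p (nat_lit 0x7870886861a) (nat_lit 0) (p (nat_lit 0x800070806078a) (nat_lit 0) (p (nat_lit 0x800068785850a) (nat_lit 0) (p (nat_lit 0x587050682)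 (nat_lit 0) (p (nat_lit 0x506848402) (nat_lit 0) (p (nat_lit 0x160014) (nat_lit 0) (p (nat_lit 0x16000c) (nat_lit 0) (p (nat_lit 0x50612) (nat_lit 0) (p (nat_lit 0x40592) (nat_lit 0) (p (nat_lit 0x40492) (nat_lit 0) (p (nat_lit 0x30412) (nat_lit 0) (p (nat_lit 0x30212) (nat_lit 0) (p (nat_lit 0x20192) (nat_lit 0) (p (nat_lit 0x20092) (nat_lit 0) (p (nat_lit 0x10012) (nat_lit 0) pn))))))))))))))))))))))))))))) :=
  Cl.node (nat_lit 0xc9) (nat_lit 2) (by decide +kernel) (ClAll.succ (ClAll.succ ClAll.zero s1285) n266)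

def n341 : Cl (O (nat_lit 1)) (R (nat_lit 104465))
    (p (nat_lit 0xb0014) (nat_lit 0) (p (nat_lit 0x1fc004) (nat_lit 0) (p (nat_lit 0xb000c) (nat_lit 1) (p (nat_lit 0x380c2) (nat_lit 0) (p (nat_lit 0x3c4aa) (nat_lit 8) (p (nat_lit 0x109) (nat_lit 1) (p (nat_lit 0x89) (nat_lit 1) (p (nat_lit 0x101) (nat_lit 0) (p (nat_lit 0xc1) (nat_lit 1) (p (nat_lit 0x119) (nat_lit 1) (p (nat_lit 0xd1) (nat_lit 0) (p (nat_lit 0x81) (nat_lit 0) (p (nat_lit 0x41) (nat_lit 1) (p (nat_lit 0x8078907089a) (nat_lit 0) (p (nat_lit 0x7870886861a) (nat_lit 0) (p (nat_lit 0x800070806078a) (nat_lit 0) (p (nat_lit 0x800068785850a) (nat_lit 0) (p (nat_lit 0x587050682) (nat_lit 0) (p (nat_lit 0x506848402) (nat_lit 0) (p (nat_lit 0x160014) (nat_lit 0) (p (nat_lit 0x16000c) (nat_lit 0) (p (nat_lit 0x50612) (nat_lit 0) (p (nat_lit 0x40592) (nat_lit 0) (p (nat_lit 0x40492) (nat_lit 0) (p (nat_lit 0x30412)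 (nat_lit 0) (p (nat_lit 0x30212) (nat_lit 0) (p (nat_lit 0x20192) (nat_lit 0) (p (nat_lit 0x20092) (nat_lit 0) (p (nat_lit 0x10012) (nat_lit 0) pn))))))))))))))))))))))))))))) :=
  Cl.node (nat_lit 0x2a8258a8b89890a) (nat_lit 1) (by decide +kernel) (ClAll.succ ClAll.zero n267)

def n342 : Cl (O (nat_lit 1)) (R (nat_lit 104465))
    (p (nat_lit 0x444aa) (nat_lit 7) (p (nat_lit 0x200004) (nat_lit 0) (p (nat_lit 0x380c2) (nat_lit 0) (p (nat_lit 0x4c42a) (nat_lit 10) (p (nat_lit 0x119) (nat_lit 0) (p (nat_lit 0xc9) (nat_lit 0) (p (nat_lit 0x89) (nat_lit 1) (p (nat_lit 0x109) (nat_lit 1) (p (nat_lit 0x101) (nat_lit 0) (p (nat_lit 0x111) (nat_lit 0) (p (nat_lit 0xd1) (nat_lit 1) (p (nat_lit 0x81) (nat_lit 0) (p (nat_lit 0x41) (nat_lit 1) (p (nat_lit 0x8078907089a) (nat_lit 0) (p (nat_lit 0x7870886861a) (nat_lit 0) (p (nat_lit 0x800070806078a) (nat_lit 0) (p (nat_lit 0x800068785850a)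 (nat_lit 0) (p (nat_lit 0x587050682) (nat_lit 0) (p (nat_lit 0x506848402) (nat_lit 0) (p (nat_lit 0x160014) (nat_lit 0) (p (nat_lit 0x16000c) (nat_lit 0) (p (nat_lit 0x50612) (nat_lit 0) (p (nat_lit 0x40592) (nat_lit 0) (p (nat_lit 0x40492) (nat_lit 0) (p (nat_lit 0x30412) (nat_lit 0) (p (nat_lit 0x30212) (nat_lit 0) (p (nat_lit 0x20192) (nat_lit 0) (p (nat_lit 0x20092) (nat_lit 0) (p (nat_lit 0x10012) (nat_lit 0) pn))))))))))))))))))))))))))))) :=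
  Cl.node (nat_lit 0x380c2) (nat_lit 2) (by decide +kernel) (ClAll.succ (ClAll.succ ClAll.zero s1381) s1382)

def n343 : Cl (O (nat_lit 1)) (R (nat_lit 104465))
    (p (nat_lit 0x100004) (nat_lit 0) (p (nat_lit 0x200004) (nat_lit 0) (p (nat_lit 0x380c2) (nat_lit 1) (p (nat_lit 0x4c42a) (nat_lit 10) (p (nat_lit 0x119) (nat_lit 0) (p (nat_lit 0xc9) (nat_lit 0) (p (nat_lit 0x89) (nat_lit 1) (p (nat_lit 0x109) (nat_lit 1) (p (nat_lit 0x101) (nat_lit 0) (p (nat_lit 0x111) (nat_lit 0) (p (nat_lit 0xd1) (nat_lit 1) (p (nat_lit 0x81) (nat_lit 0) (p (nat_lit 0x41) (nat_lit 1) (p (nat_lit 0x8078907089a) (nat_lit 0) (p (nat_lit 0x7870886861a) (nat_lit 0) (p (nat_lit 0x800070806078a) (nat_lit 0) (p (nat_lit 0x800068785850a) (nat_lit 0) (p (nat_lit 0x587050682) (nat_lit 0) (p (nat_lit 0x506848402) (nat_lit 0) (p (nat_lit 0x160014) (nat_lit 0) (p (nat_lit 0x16000c) (nat_lit 0) (p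 (nat_lit 0x50612) (nat_lit 0) (p (nat_lit 0x40592) (nat_lit 0) (p (nat_lit 0x40492) (nat_lit 0) (p (nat_lit 0x30412) (nat_lit 0) (p (nat_lit 0x30212) (nat_lit 0) (p (nat_lit 0x20192) (nat_lit 0) (p (nat_lit 0x20092) (nat_lit 0) (p (nat_lit 0x10012) (nat_lit 0) pn))))))))))))))))))))))))))))) :=
  Cl.node (nat_lit 0x109) (nat_lit 2) (by decide +kernel) (ClAll.succ (ClAll.succ ClAll.zero s1388) n268)

def n344 : Cl (O (nat_lit 1)) (R (nat_lit 104465))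
    (p (nat_lit 0x100004) (nat_lit 0) (p (nat_lit 0x200004) (nat_lit 0) (p (nat_lit 0x380c2) (nat_lit 0) (p (nat_lit 0x4c42a) (nat_lit 10) (p (nat_lit 0x119) (nat_lit 1) (p (nat_lit 0xc9) (nat_lit 0) (p (nat_lit 0x89) (nat_lit 1) (p (nat_lit 0x109) (nat_lit 1) (p (nat_lit 0x101) (nat_lit 0) (p (nat_lit 0x111) (nat_lit 0) (p (nat_lit 0xd1) (nat_lit 1) (p (nat_lit 0x81) (nat_lit 0) (p (nat_lit 0x41) (nat_lit 1) (p (nat_lit 0x8078907089a) (nat_lit 0) (p (nat_lit 0x7870886861a) (nat_lit 0) (p (nat_lit 0x800070806078a) (nat_lit 0) (p (nat_lit 0x800068785850a) (nat_lit 0) (p (nat_lit 0x587050682) (nat_lit 0) (p (nat_lit 0x506848402) (nat_lit 0) (p (nat_lit 0x160014) (nat_lit 0) (p (nat_lit 0x16000c) (nat_lit 0) (p (nat_lit 0x50612) (nat_lit 0) (p (nat_lit 0x40592) (nat_lit 0) (p (nat_lit 0x40492) (nat_lit 0) (p (nat_lit 0x30412) (nat_lit 0) (p (nat_lit 0x30212) (nat_lit 0)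 (p (nat_lit 0x20192) (nat_lit 0) (p (nat_lit 0x20092) (nat_lit 0) (p (nat_lit 0x10012) (nat_lit 0) pn))))))))))))))))))))))))))))) :=
  Cl.node (nat_lit 0xb0014) (nat_lit 2) (by decide +kernel) (ClAll.succ (ClAll.succ ClAll.zero n269) s1455)

def n345 : Cl (O (nat_lit 1)) (R (nat_lit 104465))
    (p (nat_lit 0x100004) (nat_lit 0) (p (nat_lit 0x200004) (nat_lit 0) (p (nat_lit 0x380c2) (nat_lit 1) (p (nat_lit 0x4c42a) (nat_lit 10) (p (nat_lit 0x119) (nat_lit 1) (p (nat_lit 0xc9) (nat_lit 0) (p (nat_lit 0x89) (nat_lit 1) (p (nat_lit 0x109) (nat_lit 1) (p (nat_lit 0x101) (nat_lit 0) (p (nat_lit 0x111) (nat_lit 0) (p (nat_lit 0xd1) (nat_lit 1) (p (nat_lit 0x81) (nat_lit 0) (p (nat_lit 0x41) (nat_lit 1) (p (nat_lit 0x8078907089a) (nat_lit 0) (p (nat_lit 0x7870886861a) (nat_lit 0) (p (nat_lit 0x800070806078a) (nat_lit 0) (p (nat_lit 0x800068785850a) (nat_lit 0) (p (nat_lit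 0x587050682) (nat_lit 0) (p (nat_lit 0x506848402) (nat_lit 0) (p (nat_lit 0x160014) (nat_lit 0) (p (nat_lit 0x16000c) (nat_lit 0) (p (nat_lit 0x50612) (nat_lit 0) (p (nat_lit 0x40592) (nat_lit 0) (p (nat_lit 0x40492) (nat_lit 0) (p (nat_lit 0x30412) (nat_lit 0) (p (nat_lit 0x30212) (nat_lit 0) (p (nat_lit 0x20192) (nat_lit 0) (p (nat_lit 0x20092) (nat_lit 0) (p (nat_lit 0x10012) (nat_lit 0) pn))))))))))))))))))))))))))))) :=
  Cl.node (nat_lit 0x3cc2a) (nat_lit 12) (by decide +kernel) (ClAll.succ (ClAll.succ (ClAll.succ (ClAll.succ (ClAll.succ (ClAll.succ (ClAll.succ (ClAll.succ (ClAll.succ (ClAll.succ (ClAll.succ (ClAll.succ ClAll.zero s1458) s1459) n270) s1470) s1471) s1472) s1473) s1474) s1475) s1476) s1477) s1478)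

def n346 : Cl (O (nat_lit 1)) (R (nat_lit 104465))
    (p (nat_lit 0x100004) (nat_lit 1) (p (nat_lit 0x200004) (nat_lit 0) (p (nat_lit 0x380c2) (nat_lit 1) (p (nat_lit 0x4c42a) (nat_lit 10) (p (nat_lit 0x119) (nat_lit 1) (p (nat_lit 0xc9) (nat_lit 0) (p (nat_lit 0x89) (nat_lit 1) (p (nat_lit 0x109) (nat_lit 1) (p (nat_lit 0x101) (nat_lit 0) (p (nat_lit 0x111) (nat_lit 0) (p (nat_lit 0xd1) (nat_lit 1) (p (nat_lit 0x81) (nat_lit 0) (p (nat_lit 0x41) (nat_lit 1) (p (nat_lit 0x8078907089a) (nat_lit 0) (p (nat_lit 0x7870886861a) (nat_lit 0) (p (nat_lit 0x800070806078a) (nat_lit 0) (p (nat_lit 0x800068785850a) (nat_lit 0) (p (nat_lit 0x587050682) (nat_lit 0) (p (nat_lit 0x506848402) (nat_lit 0) (p (nat_lit 0x160014) (nat_lit 0) (p (nat_lit 0x16000c) (nat_lit 0) (p (nat_lit 0x50612) (nat_lit 0) (p (nat_lit 0x40592) (nat_lit 0) (p (nat_lit 0x40492) (nat_lit 0) (p (nat_lit 0x30412)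 (nat_lit 0) (p (nat_lit 0x30212) (nat_lit 0) (p (nat_lit 0x20192) (nat_lit 0) (p (nat_lit 0x20092) (nat_lit 0) (p (nat_lit 0x10012) (nat_lit 0) pn))))))))))))))))))))))))))))) :=
  Cl.node (nat_lit 0x10800c) (nat_lit 2) (by decide +kernel) (ClAll.succ (ClAll.succ ClAll.zero n271) s1482)

def n347 : Cl (O (nat_lit 1)) (R (nat_lit 104465))
    (p (nat_lit 0xb000c) (nat_lit 0) (p (nat_lit 0x101) (nat_lit 0) (p (nat_lit 0xd1) (nat_lit 0) (p (nat_lit 0xb0014) (nat_lit 0) (p (nat_lit 0x380c2) (nat_lit 0) (p (nat_lit 0x3cc2a) (nat_lit 2) (p (nat_lit 0xc9) (nat_lit 0) (p (nat_lit 0x89) (nat_lit 1) (p (nat_lit 0x101) (nat_lit 1) (p (nat_lit 0x111) (nat_lit 0) (p (nat_lit 0xd1) (nat_lit 1) (p (nat_lit 0x81) (nat_lit 0) (p (nat_lit 0x41) (nat_lit 1) (p (nat_lit 0x8078907089a) (nat_lit 0) (p (nat_lit 0x7870886861a) (nat_lit 0) (p (nat_lit 0x800070806078a) (nat_lit 0) (p (nat_lit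 0x800068785850a) (nat_lit 0) (p (nat_lit 0x587050682) (nat_lit 0) (p (nat_lit 0x506848402) (nat_lit 0) (p (nat_lit 0x160014) (nat_lit 0) (p (nat_lit 0x16000c) (nat_lit 0) (p (nat_lit 0x50612) (nat_lit 0) (p (nat_lit 0x40592) (nat_lit 0) (p (nat_lit 0x40492) (nat_lit 0) (p (nat_lit 0x30412) (nat_lit 0) (p (nat_lit 0x30212) (nat_lit 0) (p (nat_lit 0x20192) (nat_lit 0) (p (nat_lit 0x20092) (nat_lit 0) (p (nat_lit 0x10012) (nat_lit 0) pn))))))))))))))))))))))))))))) :=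
  Cl.node (nat_lit 0x111) (nat_lit 2) (by decide +kernel) (ClAll.succ (ClAll.succ ClAll.zero n272) s1529)

def n348 : Cl (O (nat_lit 1)) (R (nat_lit 104465))
    (p (nat_lit 0xb000c) (nat_lit 1) (p (nat_lit 0x101) (nat_lit 0) (p (nat_lit 0xd1) (nat_lit 0) (p (nat_lit 0xb0014) (nat_lit 0) (p (nat_lit 0x380c2) (nat_lit 0) (p (nat_lit 0x3cc2a) (nat_lit 2) (p (nat_lit 0xc9) (nat_lit 0) (p (nat_lit 0x89) (nat_lit 1) (p (nat_lit 0x101) (nat_lit 1) (p (nat_lit 0x111) (nat_lit 0) (p (nat_lit 0xd1) (nat_lit 1) (p (nat_lit 0x81) (nat_lit 0) (p (nat_lit 0x41) (nat_lit 1) (p (nat_lit 0x8078907089a) (nat_lit 0) (p (nat_lit 0x7870886861a) (nat_lit 0) (p (nat_lit 0x800070806078a) (nat_lit 0) (p (nat_lit 0x800068785850a) (nat_lit 0) (p (nat_lit 0x587050682) (nat_lit 0) (p (nat_lit 0x506848402) (nat_lit 0) (p (nat_lit 0x160014) (nat_lit 0) (p (nat_lit 0x16000c) (nat_lit 0) (p (nat_lit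 0x50612) (nat_lit 0) (p (nat_lit 0x40592) (nat_lit 0) (p (nat_lit 0x40492) (nat_lit 0) (p (nat_lit 0x30412) (nat_lit 0) (p (nat_lit 0x30212) (nat_lit 0) (p (nat_lit 0x20192) (nat_lit 0) (p (nat_lit 0x20092) (nat_lit 0) (p (nat_lit 0x10012) (nat_lit 0) pn))))))))))))))))))))))))))))) :=
  Cl.node (nat_lit 0x1fc004) (nat_lit 2) (by decide +kernel) (ClAll.succ (ClAll.succ ClAll.zero n273) s1533)

def n349 : Cl (O (nat_lit 1)) (R (nat_lit 104465))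
    (p (nat_lit 0x380c2) (nat_lit 0) (p (nat_lit 0x3c4aa) (nat_lit 8) (p (nat_lit 0xd1) (nat_lit 1) (p (nat_lit 0xb0014) (nat_lit 0) (p (nat_lit 0x380c2) (nat_lit 0) (p (nat_lit 0x3cc2a) (nat_lit 2) (p (nat_lit 0xc9) (nat_lit 0) (p (nat_lit 0x89) (nat_lit 1) (p (nat_lit 0x101) (nat_lit 1) (p (nat_lit 0x111) (nat_lit 0) (p (nat_lit 0xd1) (nat_lit 1) (p (nat_lit 0x81) (nat_lit 0) (p (nat_lit 0x41) (nat_lit 1) (p (nat_lit 0x8078907089a) (nat_lit 0) (p (nat_lit 0x7870886861a) (nat_lit 0) (p (nat_lit 0x800070806078a) (nat_lit 0) (p (nat_lit 0x800068785850a) (nat_lit 0) (p (nat_lit 0x587050682) (nat_lit 0) (p (nat_lit 0x506848402) (nat_lit 0) (p (nat_lit 0x160014) (nat_lit 0) (p (nat_lit 0x16000c) (nat_lit 0) (p (nat_lit 0x50612) (nat_lit 0) (p (nat_lit 0x40592) (nat_lit 0) (p (nat_lit 0x40492) (nat_lit 0) (p (nat_lit 0x30412) (nat_lit 0) (p (nat_lit 0x30212) (nat_lit 0) (p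 (nat_lit 0x20192) (nat_lit 0) (p (nat_lit 0x20092) (nat_lit 0) (p (nat_lit 0x10012) (nat_lit 0) pn))))))))))))))))))))))))))))) :=
  Cl.node (nat_lit 0xc1) (nat_lit 2) (by decide +kernel) (ClAll.succ (ClAll.succ ClAll.zero s1543) s1544)

def n350 : Cl (O (nat_lit 1)) (R (nat_lit 104465))
    (p (nat_lit 0xc1) (nat_lit 0) (p (nat_lit 0xc9) (nat_lit 0) (p (nat_lit 0xb0014) (nat_lit 0) (p (nat_lit 0x380c2) (nat_lit 0) (p (nat_lit 0x3c4aa) (nat_lit 8) (p (nat_lit 0xd1) (nat_lit 1) (p (nat_lit 0x111) (nat_lit 1) (p (nat_lit 0x109) (nat_lit 0) (p (nat_lit 0x101) (nat_lit 0) (p (nat_lit 0x119) (nat_lit 0) (p (nat_lit 0xc1) (nat_lit 0) (p (nat_lit 0x81) (nat_lit 1) (p (nat_lit 0x41) (nat_lit 1) (p (nat_lit 0x8078907089a) (nat_lit 0) (p (nat_lit 0x7870886861a) (nat_lit 0) (p (nat_lit 0x800070806078a) (nat_lit 0) (p (nat_lit 0x800068785850a) (nat_lit 0) (p (nat_lit 0x587050682)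 (nat_lit 0) (p (nat_lit 0x506848402) (nat_lit 0) (p (nat_lit 0x160014) (nat_lit 0) (p (nat_lit 0x16000c) (nat_lit 0) (p (nat_lit 0x50612) (nat_lit 0) (p (nat_lit 0x40592) (nat_lit 0) (p (nat_lit 0x40492) (nat_lit 0) (p (nat_lit 0x30412) (nat_lit 0) (p (nat_lit 0x30212) (nat_lit 0) (p (nat_lit 0x20192) (nat_lit 0) (p (nat_lit 0x20092) (nat_lit 0) (p (nat_lit 0x10012) (nat_lit 0) pn))))))))))))))))))))))))))))) :=
  Cl.node (nat_lit 0x119) (nat_lit 2) (by decide +kernel) (ClAll.succ (ClAll.succ ClAll.zero n274) s1617)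

def n351 : Cl (O (nat_lit 1)) (R (nat_lit 104465))
    (p (nat_lit 0x2a8258a8b89890a) (nat_lit 0) (p (nat_lit 0xb0014) (nat_lit 0) (p (nat_lit 0x1fc004) (nat_lit 0) (p (nat_lit 0xb000c) (nat_lit 1) (p (nat_lit 0x380c2) (nat_lit 0) (p (nat_lit 0x44c2a) (nat_lit 1) (p (nat_lit 0xd1) (nat_lit 0) (p (nat_lit 0xc9) (nat_lit 0) (p (nat_lit 0x101) (nat_lit 1) (p (nat_lit 0x119) (nat_lit 0) (p (nat_lit 0xc1) (nat_lit 0) (p (nat_lit 0x81) (nat_lit 1) (p (nat_lit 0x41) (nat_lit 1) (p (nat_lit 0x8078907089a) (nat_lit 0) (p (nat_lit 0x7870886861a) (nat_lit 0) (p (nat_lit 0x800070806078a) (nat_lit 0) (p (nat_lit 0x800068785850a) (nat_lit 0) (p (nat_lit 0x587050682) (nat_lit 0) (p (nat_lit 0x506848402) (nat_lit 0) (p (nat_lit 0x160014) (nat_lit 0) (p (nat_lit 0x16000c) (nat_lit 0) (p (nat_lit 0x50612) (nat_lit 0) (p (nat_lit 0x40592) (nat_lit 0) (p (nat_lit 0x40492) (nat_lit 0) (p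 (nat_lit 0x30412) (nat_lit 0) (p (nat_lit 0x30212) (nat_lit 0) (p (nat_lit 0x20192) (nat_lit 0) (p (nat_lit 0x20092) (nat_lit 0) (p (nat_lit 0x10012) (nat_lit 0) pn))))))))))))))))))))))))))))) :=
  Cl.node (nat_lit 0x2a8258b0c0a0b8a) (nat_lit 1) (by decide +kernel) (ClAll.succ ClAll.zero n275)

def n352 : Cl (O (nat_lit 1)) (R (nat_lit 104465))
    (p (nat_lit 0xb000c) (nat_lit 0) (p (nat_lit 0xb0014) (nat_lit 0) (p (nat_lit 0x380c2) (nat_lit 0) (p (nat_lit 0x3cc2a) (nat_lit 2) (p (nat_lit 0x81) (nat_lit 0) (p (nat_lit 0xc9) (nat_lit 1) (p (nat_lit 0x109) (nat_lit 1) (p (nat_lit 0x101) (nat_lit 0) (p (nat_lit 0x119) (nat_lit 0) (p (nat_lit 0xd1) (nat_lit 0) (p (nat_lit 0x89) (nat_lit 0) (p (nat_lit 0x41) (nat_lit 0) (p (nat_lit 0x8078907089a) (nat_lit 0) (p (nat_lit 0x7870886861a) (nat_lit 0) (p (nat_lit 0x800070806078a) (nat_lit 0) (p (nat_lit 0x800068785850a) (nat_lit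 0) (p (nat_lit 0x587050682) (nat_lit 0) (p (nat_lit 0x506848402) (nat_lit 0) (p (nat_lit 0x160014) (nat_lit 0) (p (nat_lit 0x16000c) (nat_lit 0) (p (nat_lit 0x50612) (nat_lit 0) (p (nat_lit 0x40592) (nat_lit 0) (p (nat_lit 0x40492) (nat_lit 0) (p (nat_lit 0x30412) (nat_lit 0) (p (nat_lit 0x30212) (nat_lit 0) (p (nat_lit 0x20192) (nat_lit 0) (p (nat_lit 0x20092) (nat_lit 0) (p (nat_lit 0x10012) (nat_lit 0) pn)))))))))))))))))))))))))))) :=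
  Cl.node (nat_lit 0x111) (nat_lit 2) (by decide +kernel) (ClAll.succ (ClAll.succ ClAll.zero n276) s8)

def n353 : Cl (O (nat_lit 1)) (R (nat_lit 104465))
    (p (nat_lit 0x100004) (nat_lit 0) (p (nat_lit 0x200004) (nat_lit 0) (p (nat_lit 0x380c2) (nat_lit 0) (p (nat_lit 0x444aa) (nat_lit 7) (p (nat_lit 0x81) (nat_lit 1) (p (nat_lit 0xc9) (nat_lit 1) (p (nat_lit 0x109) (nat_lit 1) (p (nat_lit 0x101) (nat_lit 0) (p (nat_lit 0x119) (nat_lit 0) (p (nat_lit 0xd1) (nat_lit 0) (p (nat_lit 0x89) (nat_lit 0) (p (nat_lit 0x41) (nat_lit 0) (p (nat_lit 0x8078907089a) (nat_lit 0) (p (nat_lit 0x7870886861a) (nat_lit 0) (p (nat_lit 0x800070806078a) (nat_lit 0) (p (nat_lit 0x800068785850a) (nat_lit 0) (p (nat_lit 0x587050682) (nat_lit 0) (p (nat_lit 0x506848402) (nat_lit 0) (p (nat_lit 0x160014) (nat_lit 0) (p (nat_lit 0x16000c) (nat_lit 0) (p (nat_lit 0x50612) (nat_lit 0) (p (nat_lit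 0x40592) (nat_lit 0) (p (nat_lit 0x40492) (nat_lit 0) (p (nat_lit 0x30412) (nat_lit 0) (p (nat_lit 0x30212) (nat_lit 0) (p (nat_lit 0x20192) (nat_lit 0) (p (nat_lit 0x20092) (nat_lit 0) (p (nat_lit 0x10012) (nat_lit 0) pn)))))))))))))))))))))))))))) :=
  Cl.node (nat_lit 0x81) (nat_lit 2) (by decide +kernel) (ClAll.succ (ClAll.succ ClAll.zero n277) n278)

def n354 : Cl (O (nat_lit 1)) (R (nat_lit 104465))
    (p (nat_lit 0x100004) (nat_lit 1) (p (nat_lit 0x200004) (nat_lit 0) (p (nat_lit 0x380c2) (nat_lit 0) (p (nat_lit 0x444aa) (nat_lit 7) (p (nat_lit 0x81) (nat_lit 1) (p (nat_lit 0xc9) (nat_lit 1) (p (nat_lit 0x109) (nat_lit 1) (p (nat_lit 0x101) (nat_lit 0) (p (nat_lit 0x119) (nat_lit 0) (p (nat_lit 0xd1) (nat_lit 0) (p (nat_lit 0x89) (nat_lit 0) (p (nat_lit 0x41) (nat_lit 0) (p (nat_lit 0x8078907089a) (nat_lit 0) (p (nat_lit 0x7870886861a) (nat_lit 0) (p (nat_lit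 0x800070806078a) (nat_lit 0) (p (nat_lit 0x800068785850a) (nat_lit 0) (p (nat_lit 0x587050682) (nat_lit 0) (p (nat_lit 0x506848402) (nat_lit 0) (p (nat_lit 0x160014) (nat_lit 0) (p (nat_lit 0x16000c) (nat_lit 0) (p (nat_lit 0x50612) (nat_lit 0) (p (nat_lit 0x40592) (nat_lit 0) (p (nat_lit 0x40492) (nat_lit 0) (p (nat_lit 0x30412) (nat_lit 0) (p (nat_lit 0x30212) (nat_lit 0) (p (nat_lit 0x20192) (nat_lit 0) (p (nat_lit 0x20092) (nat_lit 0) (p (nat_lit 0x10012) (nat_lit 0) pn)))))))))))))))))))))))))))) :=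
  Cl.node (nat_lit 0x10800c) (nat_lit 2) (by decide +kernel) (ClAll.succ (ClAll.succ ClAll.zero n279) s65)

def n355 : Cl (O (nat_lit 1)) (R (nat_lit 104465))
    (p (nat_lit 0x100004) (nat_lit 0) (p (nat_lit 0x200004) (nat_lit 0) (p (nat_lit 0x380c2) (nat_lit 1) (p (nat_lit 0x444aa) (nat_lit 7) (p (nat_lit 0x81) (nat_lit 1) (p (nat_lit 0xc9) (nat_lit 1) (p (nat_lit 0x109) (nat_lit 1) (p (nat_lit 0x101) (nat_lit 0) (p (nat_lit 0x119) (nat_lit 0) (p (nat_lit 0xd1) (nat_lit 0) (p (nat_lit 0x89) (nat_lit 0) (p (nat_lit 0x41) (nat_lit 0) (p (nat_lit 0x8078907089a) (nat_lit 0) (p (nat_lit 0x7870886861a) (nat_lit 0) (p (nat_lit 0x800070806078a) (nat_lit 0) (p (nat_lit 0x800068785850a) (nat_lit 0) (p (nat_lit 0x587050682) (nat_lit 0) (p (nat_lit 0x506848402) (nat_lit 0) (p (nat_lit 0x160014) (nat_lit 0) (p (nat_lit 0x16000c) (nat_lit 0) (p (nat_lit 0x50612) (nat_lit 0) (p (nat_lit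 0x40592) (nat_lit 0) (p (nat_lit 0x40492) (nat_lit 0) (p (nat_lit 0x30412) (nat_lit 0) (p (nat_lit 0x30212) (nat_lit 0) (p (nat_lit 0x20192) (nat_lit 0) (p (nat_lit 0x20092) (nat_lit 0) (p (nat_lit 0x10012) (nat_lit 0) pn)))))))))))))))))))))))))))) :=
  Cl.node (nat_lit 0x81) (nat_lit 2) (by decide +kernel) (ClAll.succ (ClAll.succ ClAll.zero n280) n281)

def n356 : Cl (O (nat_lit 1)) (R (nat_lit 104465))
    (p (nat_lit 0x100004) (nat_lit 1) (p (nat_lit 0x200004) (nat_lit 0) (p (nat_lit 0x380c2) (nat_lit 1) (p (nat_lit 0x444aa) (nat_lit 7) (p (nat_lit 0x81) (nat_lit 1) (p (nat_lit 0xc9) (nat_lit 1) (p (nat_lit 0x109) (nat_lit 1) (p (nat_lit 0x101) (nat_lit 0) (p (nat_lit 0x119) (nat_lit 0) (p (nat_lit 0xd1) (nat_lit 0) (p (nat_lit 0x89) (nat_lit 0) (p (nat_lit 0x41) (nat_lit 0) (p (nat_lit 0x8078907089a) (nat_lit 0) (p (nat_lit 0x7870886861a) (nat_lit 0) (p (nat_lit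 0x800070806078a) (nat_lit 0) (p (nat_lit 0x800068785850a) (nat_lit 0) (p (nat_lit 0x587050682) (nat_lit 0) (p (nat_lit 0x506848402) (nat_lit 0) (p (nat_lit 0x160014) (nat_lit 0) (p (nat_lit 0x16000c) (nat_lit 0) (p (nat_lit 0x50612) (nat_lit 0) (p (nat_lit 0x40592) (nat_lit 0) (p (nat_lit 0x40492) (nat_lit 0) (p (nat_lit 0x30412) (nat_lit 0) (p (nat_lit 0x30212) (nat_lit 0) (p (nat_lit 0x20192) (nat_lit 0) (p (nat_lit 0x20092) (nat_lit 0) (p (nat_lit 0x10012) (nat_lit 0) pn)))))))))))))))))))))))))))) :=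
  Cl.node (nat_lit 0x10800c) (nat_lit 2) (by decide +kernel) (ClAll.succ (ClAll.succ ClAll.zero n282) s96)

def n357 : Cl (O (nat_lit 1)) (R (nat_lit 104465))
    (p (nat_lit 0x100004) (nat_lit 0) (p (nat_lit 0x200004) (nat_lit 0) (p (nat_lit 0x380c2) (nat_lit 0) (p (nat_lit 0x444aa) (nat_lit 7) (p (nat_lit 0x111) (nat_lit 0) (p (nat_lit 0xc9) (nat_lit 1) (p (nat_lit 0x81) (nat_lit 0) (p (nat_lit 0x101) (nat_lit 1) (p (nat_lit 0x119) (nat_lit 0) (p (nat_lit 0xd1) (nat_lit 0) (p (nat_lit 0x89) (nat_lit 0) (p (nat_lit 0x41) (nat_lit 0) (p (nat_lit 0x8078907089a) (nat_lit 0) (p (nat_lit 0x7870886861a) (nat_lit 0) (p (nat_lit 0x800070806078a) (nat_lit 0) (p (nat_lit 0x800068785850a) (nat_lit 0) (p (nat_lit 0x587050682) (nat_lit 0) (p (nat_lit 0x506848402) (nat_lit 0) (p (nat_lit 0x160014) (nat_lit 0) (p (nat_lit 0x16000c) (nat_lit 0) (p (nat_lit 0x50612) (nat_lit 0) (p (nat_lit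 0x40592) (nat_lit 0) (p (nat_lit 0x40492) (nat_lit 0) (p (nat_lit 0x30412) (nat_lit 0) (p (nat_lit 0x30212) (nat_lit 0) (p (nat_lit 0x20192) (nat_lit 0) (p (nat_lit 0x20092) (nat_lit 0) (p (nat_lit 0x10012) (nat_lit 0) pn)))))))))))))))))))))))))))) :=
  Cl.node (nat_lit 0x89) (nat_lit 2) (by decide +kernel) (ClAll.succ (ClAll.succ ClAll.zero n283) n284)

def n358 : Cl (O (nat_lit 1)) (R (nat_lit 104465))
    (p (nat_lit 0xb000c) (nat_lit 0) (p (nat_lit 0x200004) (nat_lit 0) (p (nat_lit 0x380c2) (nat_lit 1) (p (nat_lit 0x444aa) (nat_lit 7) (p (nat_lit 0x111) (nat_lit 0) (p (nat_lit 0xc9) (nat_lit 1) (p (nat_lit 0x81) (nat_lit 0) (p (nat_lit 0x101) (nat_lit 1) (p (nat_lit 0x119) (nat_lit 0) (p (nat_lit 0xd1) (nat_lit 0) (p (nat_lit 0x89) (nat_lit 0) (p (nat_lit 0x41) (nat_lit 0) (p (nat_lit 0x8078907089a) (nat_lit 0) (p (nat_lit 0x7870886861a) (nat_lit 0) (p (nat_lit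 0x800070806078a) (nat_lit 0) (p (nat_lit 0x800068785850a) (nat_lit 0) (p (nat_lit 0x587050682) (nat_lit 0) (p (nat_lit 0x506848402) (nat_lit 0) (p (nat_lit 0x160014) (nat_lit 0) (p (nat_lit 0x16000c) (nat_lit 0) (p (nat_lit 0x50612) (nat_lit 0) (p (nat_lit 0x40592) (nat_lit 0) (p (nat_lit 0x40492) (nat_lit 0) (p (nat_lit 0x30412) (nat_lit 0) (p (nat_lit 0x30212) (nat_lit 0) (p (nat_lit 0x20192) (nat_lit 0) (p (nat_lit 0x20092) (nat_lit 0) (p (nat_lit 0x10012) (nat_lit 0) pn)))))))))))))))))))))))))))) :=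
  Cl.node (nat_lit 0x100004) (nat_lit 2) (by decide +kernel) (ClAll.succ (ClAll.succ ClAll.zero n285) s166)

def n359 : Cl (O (nat_lit 1)) (R (nat_lit 104465))
    (p (nat_lit 0xb000c) (nat_lit 1) (p (nat_lit 0x200004) (nat_lit 0) (p (nat_lit 0x380c2) (nat_lit 1) (p (nat_lit 0x444aa) (nat_lit 7) (p (nat_lit 0x111) (nat_lit 0) (p (nat_lit 0xc9) (nat_lit 1) (p (nat_lit 0x81) (nat_lit 0) (p (nat_lit 0x101) (nat_lit 1) (p (nat_lit 0x119) (nat_lit 0) (p (nat_lit 0xd1) (nat_lit 0) (p (nat_lit 0x89) (nat_lit 0) (p (nat_lit 0x41) (nat_lit 0) (p (nat_lit 0x8078907089a) (nat_lit 0) (p (nat_lit 0x7870886861a) (nat_lit 0) (p (nat_lit 0x800070806078a) (nat_lit 0) (p (nat_lit 0x800068785850a) (nat_lit 0) (p (nat_lit 0x587050682) (nat_lit 0) (p (nat_lit 0x506848402) (nat_lit 0) (p (nat_lit 0x160014) (nat_lit 0) (p (nat_lit 0x16000c) (nat_lit 0) (p (nat_lit 0x50612) (nat_lit 0) (p (nat_lit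 0x40592) (nat_lit 0) (p (nat_lit 0x40492) (nat_lit 0) (p (nat_lit 0x30412) (nat_lit 0) (p (nat_lit 0x30212) (nat_lit 0) (p (nat_lit 0x20192) (nat_lit 0) (p (nat_lit 0x20092) (nat_lit 0) (p (nat_lit 0x10012) (nat_lit 0) pn)))))))))))))))))))))))))))) :=
  Cl.node (nat_lit 0xb0014) (nat_lit 2) (by decide +kernel) (ClAll.succ (ClAll.succ ClAll.zero n286) s169)

def n360 : Cl (O (nat_lit 1)) (R (nat_lit 104465))
    (p (nat_lit 0xb0014) (nat_lit 0) (p (nat_lit 0xb000c) (nat_lit 0) (p (nat_lit 0x380c2) (nat_lit 0) (p (nat_lit 0x3cc2a) (nat_lit 2) (p (nat_lit 0x111) (nat_lit 1) (p (nat_lit 0xc9) (nat_lit 1) (p (nat_lit 0x81) (nat_lit 0) (p (nat_lit 0x101) (nat_lit 1) (p (nat_lit 0x119) (nat_lit 0) (p (nat_lit 0xd1) (nat_lit 0) (p (nat_lit 0x89) (nat_lit 0) (p (nat_lit 0x41) (nat_lit 0) (p (nat_lit 0x8078907089a) (nat_lit 0) (p (nat_lit 0x7870886861a) (nat_lit 0) (p (nat_lit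 0x800070806078a) (nat_lit 0) (p (nat_lit 0x800068785850a) (nat_lit 0) (p (nat_lit 0x587050682) (nat_lit 0) (p (nat_lit 0x506848402) (nat_lit 0) (p (nat_lit 0x160014) (nat_lit 0) (p (nat_lit 0x16000c) (nat_lit 0) (p (nat_lit 0x50612) (nat_lit 0) (p (nat_lit 0x40592) (nat_lit 0) (p (nat_lit 0x40492) (nat_lit 0) (p (nat_lit 0x30412) (nat_lit 0) (p (nat_lit 0x30212) (nat_lit 0) (p (nat_lit 0x20192) (nat_lit 0) (p (nat_lit 0x20092) (nat_lit 0) (p (nat_lit 0x10012) (nat_lit 0) pn)))))))))))))))))))))))))))) :=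
  Cl.node (nat_lit 0x41) (nat_lit 2) (by decide +kernel) (ClAll.succ (ClAll.succ ClAll.zero n287) n288)

def n361 : Cl (O (nat_lit 1)) (R (nat_lit 104465))
    (p (nat_lit 0x1fc004) (nat_lit 0) (p (nat_lit 0xb000c) (nat_lit 1) (p (nat_lit 0x380c2) (nat_lit 0) (p (nat_lit 0x3cc2a) (nat_lit 2) (p (nat_lit 0x111) (nat_lit 1) (p (nat_lit 0xc9) (nat_lit 1) (p (nat_lit 0x81) (nat_lit 0) (p (nat_lit 0x101) (nat_lit 1) (p (nat_lit 0x119) (nat_lit 0) (p (nat_lit 0xd1) (nat_lit 0) (p (nat_lit 0x89) (nat_lit 0) (p (nat_lit 0x41) (nat_lit 0) (p (nat_lit 0x8078907089a) (nat_lit 0) (p (nat_lit 0x7870886861a) (nat_lit 0) (p (nat_lit 0x800070806078a) (nat_lit 0) (p (nat_lit 0x800068785850a) (nat_lit 0) (p (nat_lit 0x587050682) (nat_lit 0) (p (nat_lit 0x506848402) (nat_lit 0) (p (nat_lit 0x160014) (nat_lit 0) (p (nat_lit 0x16000c) (nat_lit 0) (p (nat_lit 0x50612) (nat_lit 0) (p (nat_lit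 0x40592) (nat_lit 0) (p (nat_lit 0x40492) (nat_lit 0) (p (nat_lit 0x30412) (nat_lit 0) (p (nat_lit 0x30212) (nat_lit 0) (p (nat_lit 0x20192) (nat_lit 0) (p (nat_lit 0x20092) (nat_lit 0) (p (nat_lit 0x10012) (nat_lit 0) pn)))))))))))))))))))))))))))) :=
  Cl.node (nat_lit 0xb0014) (nat_lit 2) (by decide +kernel) (ClAll.succ (ClAll.succ ClAll.zero n289) s185)

def n362 : Cl (O (nat_lit 1)) (R (nat_lit 104465))
    (p (nat_lit 0x100004) (nat_lit 0) (p (nat_lit 0x200004) (nat_lit 0) (p (nat_lit 0x380c2) (nat_lit 0) (p (nat_lit 0x444aa) (nat_lit 7) (p (nat_lit 0xc9) (nat_lit 1) (p (nat_lit 0xc1) (nat_lit 0) (p (nat_lit 0x81) (nat_lit 1) (p (nat_lit 0x101) (nat_lit 1) (p (nat_lit 0x119) (nat_lit 0) (p (nat_lit 0xd1) (nat_lit 0) (p (nat_lit 0x89) (nat_lit 0) (p (nat_lit 0x41) (nat_lit 0) (p (nat_lit 0x8078907089a) (nat_lit 0) (p (nat_lit 0x7870886861a) (nat_lit 0) (p (nat_lit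 0x800070806078a) (nat_lit 0) (p (nat_lit 0x800068785850a) (nat_lit 0) (p (nat_lit 0x587050682) (nat_lit 0) (p (nat_lit 0x506848402) (nat_lit 0) (p (nat_lit 0x160014) (nat_lit 0) (p (nat_lit 0x16000c) (nat_lit 0) (p (nat_lit 0x50612) (nat_lit 0) (p (nat_lit 0x40592) (nat_lit 0) (p (nat_lit 0x40492) (nat_lit 0) (p (nat_lit 0x30412) (nat_lit 0) (p (nat_lit 0x30212) (nat_lit 0) (p (nat_lit 0x20192) (nat_lit 0) (p (nat_lit 0x20092) (nat_lit 0) (p (nat_lit 0x10012) (nat_lit 0) pn)))))))))))))))))))))))))))) :=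
  Cl.node (nat_lit 0x119) (nat_lit 2) (by decide +kernel) (ClAll.succ (ClAll.succ ClAll.zero n290) n291)

def n363 : Cl (O (nat_lit 1)) (R (nat_lit 104465))
    (p (nat_lit 0x100004) (nat_lit 0) (p (nat_lit 0x200004) (nat_lit 0) (p (nat_lit 0x380c2) (nat_lit 1) (p (nat_lit 0x444aa) (nat_lit 7) (p (nat_lit 0xc9) (nat_lit 1) (p (nat_lit 0xc1) (nat_lit 0) (p (nat_lit 0x81) (nat_lit 1) (p (nat_lit 0x101) (nat_lit 1) (p (nat_lit 0x119) (nat_lit 0) (p (nat_lit 0xd1) (nat_lit 0) (p (nat_lit 0x89) (nat_lit 0) (p (nat_lit 0x41) (nat_lit 0) (p (nat_lit 0x8078907089a) (nat_lit 0) (p (nat_lit 0x7870886861a) (nat_lit 0) (p (nat_lit 0x800070806078a) (nat_lit 0) (p (nat_lit 0x800068785850a) (nat_lit 0) (p (nat_lit 0x587050682) (nat_lit 0) (p (nat_lit 0x506848402) (nat_lit 0) (p (nat_lit 0x160014) (nat_lit 0) (p (nat_lit 0x16000c) (nat_lit 0) (p (nat_lit 0x50612) (nat_lit 0) (p (nat_lit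 0x40592) (nat_lit 0) (p (nat_lit 0x40492) (nat_lit 0) (p (nat_lit 0x30412) (nat_lit 0) (p (nat_lit 0x30212) (nat_lit 0) (p (nat_lit 0x20192) (nat_lit 0) (p (nat_lit 0x20092) (nat_lit 0) (p (nat_lit 0x10012) (nat_lit 0) pn)))))))))))))))))))))))))))) :=
  Cl.node (nat_lit 0xc9) (nat_lit 2) (by decide +kernel) (ClAll.succ (ClAll.succ ClAll.zero n292) s225)

def n364 : Cl (O (nat_lit 1)) (R (nat_lit 104465))
    (p (nat_lit 0x41) (nat_lit 0) (p (nat_lit 0xb000c) (nat_lit 0) (p (nat_lit 0x101) (nat_lit 0) (p (nat_lit 0x380c2) (nat_lit 0) (p (nat_lit 0x3cc2a) (nat_lit 2) (p (nat_lit 0x109) (nat_lit 1) (p (nat_lit 0xc9) (nat_lit 1) (p (nat_lit 0xc1) (nat_lit 0) (p (nat_lit 0x119) (nat_lit 1) (p (nat_lit 0xd1) (nat_lit 0) (p (nat_lit 0x89) (nat_lit 0) (p (nat_lit 0x41) (nat_lit 0) (p (nat_lit 0x8078907089a) (nat_lit 0) (p (nat_lit 0x7870886861a) (nat_lit 0) (p (nat_lit 0x800070806078a)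 (nat_lit 0) (p (nat_lit 0x800068785850a) (nat_lit 0) (p (nat_lit 0x587050682) (nat_lit 0) (p (nat_lit 0x506848402) (nat_lit 0) (p (nat_lit 0x160014) (nat_lit 0) (p (nat_lit 0x16000c) (nat_lit 0) (p (nat_lit 0x50612) (nat_lit 0) (p (nat_lit 0x40592) (nat_lit 0) (p (nat_lit 0x40492) (nat_lit 0) (p (nat_lit 0x30412) (nat_lit 0) (p (nat_lit 0x30212) (nat_lit 0) (p (nat_lit 0x20192) (nat_lit 0) (p (nat_lit 0x20092) (nat_lit 0) (p (nat_lit 0x10012) (nat_lit 0) pn)))))))))))))))))))))))))))) :=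
  Cl.node (nat_lit 0xc9) (nat_lit 2) (by decide +kernel) (ClAll.succ (ClAll.succ ClAll.zero s238) n293)

def n365 : Cl (O (nat_lit 1)) (R (nat_lit 104465))
    (p (nat_lit 0x1fc004) (nat_lit 0) (p (nat_lit 0xb000c) (nat_lit 1) (p (nat_lit 0x101) (nat_lit 0) (p (nat_lit 0x380c2) (nat_lit 0) (p (nat_lit 0x3cc2a) (nat_lit 2) (p (nat_lit 0x109) (nat_lit 1) (p (nat_lit 0xc9) (nat_lit 1) (p (nat_lit 0xc1) (nat_lit 0) (p (nat_lit 0x119) (nat_lit 1) (p (nat_lit 0xd1) (nat_lit 0) (p (nat_lit 0x89) (nat_lit 0) (p (nat_lit 0x41) (nat_lit 0) (p (nat_lit 0x8078907089a) (nat_lit 0) (p (nat_lit 0x7870886861a) (nat_lit 0) (p (nat_lit 0x800070806078a) (nat_lit 0) (p (nat_lit 0x800068785850a) (nat_lit 0) (p (nat_lit 0x587050682) (nat_lit 0) (p (nat_lit 0x506848402) (nat_lit 0) (p (nat_lit 0x160014) (nat_lit 0) (p (nat_lit 0x16000c) (nat_lit 0) (p (nat_lit 0x50612) (nat_lit 0) (p (nat_lit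 0x40592) (nat_lit 0) (p (nat_lit 0x40492) (nat_lit 0) (p (nat_lit 0x30412) (nat_lit 0) (p (nat_lit 0x30212) (nat_lit 0) (p (nat_lit 0x20192) (nat_lit 0) (p (nat_lit 0x20092) (nat_lit 0) (p (nat_lit 0x10012) (nat_lit 0) pn)))))))))))))))))))))))))))) :=
  Cl.node (nat_lit 0xb0014) (nat_lit 2) (by decide +kernel) (ClAll.succ (ClAll.succ ClAll.zero n294) s257)

def n366 : Cl (O (nat_lit 1)) (R (nat_lit 104465))
    (p (nat_lit 0xb000c) (nat_lit 0) (p (nat_lit 0x41) (nat_lit 0) (p (nat_lit 0x101) (nat_lit 1) (p (nat_lit 0x380c2) (nat_lit 0) (p (nat_lit 0x3cc2a) (nat_lit 2) (p (nat_lit 0x109) (nat_lit 1) (p (nat_lit 0xc9) (nat_lit 1) (p (nat_lit 0xc1) (nat_lit 0) (p (nat_lit 0x119) (nat_lit 1) (p (nat_lit 0xd1) (nat_lit 0) (p (nat_lit 0x89) (nat_lit 0) (p (nat_lit 0x41) (nat_lit 0) (p (nat_lit 0x8078907089a) (nat_lit 0) (p (nat_lit 0x7870886861a) (nat_lit 0) (p (nat_lit 0x800070806078a)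 (nat_lit 0) (p (nat_lit 0x800068785850a) (nat_lit 0) (p (nat_lit 0x587050682) (nat_lit 0) (p (nat_lit 0x506848402) (nat_lit 0) (p (nat_lit 0x160014) (nat_lit 0) (p (nat_lit 0x16000c) (nat_lit 0) (p (nat_lit 0x50612) (nat_lit 0) (p (nat_lit 0x40592) (nat_lit 0) (p (nat_lit 0x40492) (nat_lit 0) (p (nat_lit 0x30412) (nat_lit 0) (p (nat_lit 0x30212) (nat_lit 0) (p (nat_lit 0x20192) (nat_lit 0) (p (nat_lit 0x20092) (nat_lit 0) (p (nat_lit 0x10012) (nat_lit 0) pn)))))))))))))))))))))))))))) :=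
  Cl.node (nat_lit 0x109) (nat_lit 2) (by decide +kernel) (ClAll.succ (ClAll.succ ClAll.zero s259) n295)

def n367 : Cl (O (nat_lit 1)) (R (nat_lit 104465))
    (p (nat_lit 0xb000c) (nat_lit 1) (p (nat_lit 0x41) (nat_lit 0) (p (nat_lit 0x101) (nat_lit 1) (p (nat_lit 0x380c2) (nat_lit 0) (p (nat_lit 0x3cc2a) (nat_lit 2) (p (nat_lit 0x109) (nat_lit 1) (p (nat_lit 0xc9) (nat_lit 1) (p (nat_lit 0xc1) (nat_lit 0) (p (nat_lit 0x119) (nat_lit 1) (p (nat_lit 0xd1) (nat_lit 0) (p (nat_lit 0x89) (nat_lit 0) (p (nat_lit 0x41) (nat_lit 0) (p (nat_lit 0x8078907089a) (nat_lit 0) (p (nat_lit 0x7870886861a) (nat_lit 0) (p (nat_lit 0x800070806078a) (nat_lit 0) (p (nat_lit 0x800068785850a) (nat_lit 0) (p (nat_lit 0x587050682) (nat_lit 0) (p (nat_lit 0x506848402) (nat_lit 0) (p (nat_lit 0x160014) (nat_lit 0) (p (nat_lit 0x16000c) (nat_lit 0) (p (nat_lit 0x50612) (nat_lit 0) (p (nat_lit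 0x40592) (nat_lit 0) (p (nat_lit 0x40492) (nat_lit 0) (p (nat_lit 0x30412) (nat_lit 0) (p (nat_lit 0x30212) (nat_lit 0) (p (nat_lit 0x20192) (nat_lit 0) (p (nat_lit 0x20092) (nat_lit 0) (p (nat_lit 0x10012) (nat_lit 0) pn)))))))))))))))))))))))))))) :=
  Cl.node (nat_lit 0x1fc004) (nat_lit 2) (by decide +kernel) (ClAll.succ (ClAll.succ ClAll.zero n296) s267)

def n368 : Cl (O (nat_lit 1)) (R (nat_lit 104465))
    (p (nat_lit 0x111) (nat_lit 0) (p (nat_lit 0xb000c) (nat_lit 0) (p (nat_lit 0xc9) (nat_lit 1) (p (nat_lit 0x380c2) (nat_lit 0) (p (nat_lit 0x3cc2a) (nat_lit 2) (p (nat_lit 0x109) (nat_lit 1) (p (nat_lit 0x81) (nat_lit 0) (p (nat_lit 0xc1) (nat_lit 1) (p (nat_lit 0x119) (nat_lit 1) (p (nat_lit 0xd1) (nat_lit 0) (p (nat_lit 0x89) (nat_lit 0) (p (nat_lit 0x41) (nat_lit 0) (p (nat_lit 0x8078907089a) (nat_lit 0) (p (nat_lit 0x7870886861a) (nat_lit 0) (p (nat_lit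 0x800070806078a) (nat_lit 0) (p (nat_lit 0x800068785850a) (nat_lit 0) (p (nat_lit 0x587050682) (nat_lit 0) (p (nat_lit 0x506848402) (nat_lit 0) (p (nat_lit 0x160014) (nat_lit 0) (p (nat_lit 0x16000c) (nat_lit 0) (p (nat_lit 0x50612) (nat_lit 0) (p (nat_lit 0x40592) (nat_lit 0) (p (nat_lit 0x40492) (nat_lit 0) (p (nat_lit 0x30412) (nat_lit 0) (p (nat_lit 0x30212) (nat_lit 0) (p (nat_lit 0x20192) (nat_lit 0) (p (nat_lit 0x20092) (nat_lit 0) (p (nat_lit 0x10012) (nat_lit 0) pn)))))))))))))))))))))))))))) :=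
  Cl.node (nat_lit 0xc9) (nat_lit 2) (by decide +kernel) (ClAll.succ (ClAll.succ ClAll.zero s282) n297)

def n369 : Cl (O (nat_lit 1)) (R (nat_lit 104465))
    (p (nat_lit 0x1fc004) (nat_lit 0) (p (nat_lit 0xb000c) (nat_lit 1) (p (nat_lit 0xc9) (nat_lit 1) (p (nat_lit 0x380c2) (nat_lit 0) (p (nat_lit 0x3cc2a) (nat_lit 2) (p (nat_lit 0x109) (nat_lit 1) (p (nat_lit 0x81) (nat_lit 0) (p (nat_lit 0xc1) (nat_lit 1) (p (nat_lit 0x119) (nat_lit 1) (p (nat_lit 0xd1) (nat_lit 0) (p (nat_lit 0x89) (nat_lit 0) (p (nat_lit 0x41) (nat_lit 0) (p (nat_lit 0x8078907089a) (nat_lit 0) (p (nat_lit 0x7870886861a) (nat_lit 0) (p (nat_lit 0x800070806078a) (nat_lit 0) (p (nat_lit 0x800068785850a) (nat_lit 0) (p (nat_lit 0x587050682) (nat_lit 0) (p (nat_lit 0x506848402) (nat_lit 0) (p (nat_lit 0x160014) (nat_lit 0) (p (nat_lit 0x16000c) (nat_lit 0) (p (nat_lit 0x50612) (nat_lit 0) (p (nat_lit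 0x40592) (nat_lit 0) (p (nat_lit 0x40492) (nat_lit 0) (p (nat_lit 0x30412) (nat_lit 0) (p (nat_lit 0x30212) (nat_lit 0) (p (nat_lit 0x20192) (nat_lit 0) (p (nat_lit 0x20092) (nat_lit 0) (p (nat_lit 0x10012) (nat_lit 0) pn)))))))))))))))))))))))))))) :=
  Cl.node (nat_lit 0xb0014) (nat_lit 2) (by decide +kernel) (ClAll.succ (ClAll.succ ClAll.zero n298) s290)

def n370 : Cl (O (nat_lit 1)) (R (nat_lit 104465))
    (p (nat_lit 0x100004) (nat_lit 0) (p (nat_lit 0x200004) (nat_lit 0) (p (nat_lit 0x380c2) (nat_lit 0) (p (nat_lit 0x444aa) (nat_lit 7) (p (nat_lit 0x109) (nat_lit 1) (p (nat_lit 0x101) (nat_lit 0) (p (nat_lit 0x81) (nat_lit 1) (p (nat_lit 0xc1) (nat_lit 1) (p (nat_lit 0x119) (nat_lit 1) (p (nat_lit 0xd1) (nat_lit 0) (p (nat_lit 0x89) (nat_lit 0) (p (nat_lit 0x41) (nat_lit 0) (p (nat_lit 0x8078907089a) (nat_lit 0) (p (nat_lit 0x7870886861a) (nat_lit 0) (p (nat_lit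 0x800070806078a) (nat_lit 0) (p (nat_lit 0x800068785850a) (nat_lit 0) (p (nat_lit 0x587050682) (nat_lit 0) (p (nat_lit 0x506848402) (nat_lit 0) (p (nat_lit 0x160014) (nat_lit 0) (p (nat_lit 0x16000c) (nat_lit 0) (p (nat_lit 0x50612) (nat_lit 0) (p (nat_lit 0x40592) (nat_lit 0) (p (nat_lit 0x40492) (nat_lit 0) (p (nat_lit 0x30412) (nat_lit 0) (p (nat_lit 0x30212) (nat_lit 0) (p (nat_lit 0x20192) (nat_lit 0) (p (nat_lit 0x20092) (nat_lit 0) (p (nat_lit 0x10012) (nat_lit 0) pn)))))))))))))))))))))))))))) :=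
  Cl.node (nat_lit 0x119) (nat_lit 2) (by decide +kernel) (ClAll.succ (ClAll.succ ClAll.zero n299) s324)

def n371 : Cl (O (nat_lit 1)) (R (nat_lit 104465))
    (p (nat_lit 0xb000c) (nat_lit 0) (p (nat_lit 0x200004) (nat_lit 0) (p (nat_lit 0x380c2) (nat_lit 1) (p (nat_lit 0x444aa) (nat_lit 7) (p (nat_lit 0x109) (nat_lit 1) (p (nat_lit 0x101) (nat_lit 0) (p (nat_lit 0x81) (nat_lit 1) (p (nat_lit 0xc1) (nat_lit 1) (p (nat_lit 0x119) (nat_lit 1) (p (nat_lit 0xd1) (nat_lit 0) (p (nat_lit 0x89) (nat_lit 0) (p (nat_lit 0x41) (nat_lit 0) (p (nat_lit 0x8078907089a) (nat_lit 0) (p (nat_lit 0x7870886861a) (nat_lit 0) (p (nat_lit 0x800070806078a) (nat_lit 0) (p (nat_lit 0x800068785850a) (nat_lit 0) (p (nat_lit 0x587050682) (nat_lit 0) (p (nat_lit 0x506848402) (nat_lit 0) (p (nat_lit 0x160014) (nat_lit 0) (p (nat_lit 0x16000c) (nat_lit 0) (p (nat_lit 0x50612) (nat_lit 0) (p (nat_lit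 0x40592) (nat_lit 0) (p (nat_lit 0x40492) (nat_lit 0) (p (nat_lit 0x30412) (nat_lit 0) (p (nat_lit 0x30212) (nat_lit 0) (p (nat_lit 0x20192) (nat_lit 0) (p (nat_lit 0x20092) (nat_lit 0) (p (nat_lit 0x10012) (nat_lit 0) pn)))))))))))))))))))))))))))) :=
  Cl.node (nat_lit 0x100004) (nat_lit 2) (by decide +kernel) (ClAll.succ (ClAll.succ ClAll.zero n300) s331)

def n372 : Cl (O (nat_lit 1)) (R (nat_lit 104465))
    (p (nat_lit 0xb0014) (nat_lit 0) (p (nat_lit 0x380c2) (nat_lit 0) (p (nat_lit 0x3cc2a) (nat_lit 1) (p (nat_lit 0x41) (nat_lit 0) (p (nat_lit 0x200004) (nat_lit 0) (p (nat_lit 0xc1) (nat_lit 1) (p (nat_lit 0x109) (nat_lit 1) (p (nat_lit 0x101) (nat_lit 0) (p (nat_lit 0x111) (nat_lit 0) (p (nat_lit 0xd1) (nat_lit 1) (p (nat_lit 0x89) (nat_lit 0) (p (nat_lit 0x41) (nat_lit 0) (p (nat_lit 0x8078907089a) (nat_lit 0) (p (nat_lit 0x7870886861a) (nat_lit 0) (p (nat_lit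 0x800070806078a) (nat_lit 0) (p (nat_lit 0x800068785850a) (nat_lit 0) (p (nat_lit 0x587050682) (nat_lit 0) (p (nat_lit 0x506848402) (nat_lit 0) (p (nat_lit 0x160014) (nat_lit 0) (p (nat_lit 0x16000c) (nat_lit 0) (p (nat_lit 0x50612) (nat_lit 0) (p (nat_lit 0x40592) (nat_lit 0) (p (nat_lit 0x40492) (nat_lit 0) (p (nat_lit 0x30412) (nat_lit 0) (p (nat_lit 0x30212) (nat_lit 0) (p (nat_lit 0x20192) (nat_lit 0) (p (nat_lit 0x20092) (nat_lit 0) (p (nat_lit 0x10012) (nat_lit 0) pn)))))))))))))))))))))))))))) :=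
  Cl.node (nat_lit 0x58014) (nat_lit 2) (by decide +kernel) (ClAll.succ (ClAll.succ ClAll.zero n301) s368)

def n373 : Cl (O (nat_lit 1)) (R (nat_lit 104465))
    (p (nat_lit 0x100004) (nat_lit 1) (p (nat_lit 0x380c2) (nat_lit 0) (p (nat_lit 0x3cc2a) (nat_lit 2) (p (nat_lit 0x41) (nat_lit 0) (p (nat_lit 0x200004) (nat_lit 0) (p (nat_lit 0xc1) (nat_lit 1) (p (nat_lit 0x109) (nat_lit 1) (p (nat_lit 0x101) (nat_lit 0) (p (nat_lit 0x111) (nat_lit 0) (p (nat_lit 0xd1) (nat_lit 1) (p (nat_lit 0x89) (nat_lit 0) (p (nat_lit 0x41) (nat_lit 0) (p (nat_lit 0x8078907089a) (nat_lit 0) (p (nat_lit 0x7870886861a) (nat_lit 0) (p (nat_lit 0x800070806078a) (nat_lit 0) (p (nat_lit 0x800068785850a) (nat_lit 0) (p (nat_lit 0x587050682) (nat_lit 0) (p (nat_lit 0x506848402) (nat_lit 0) (p (nat_lit 0x160014) (nat_lit 0) (p (nat_lit 0x16000c) (nat_lit 0) (p (nat_lit 0x50612) (nat_lit 0) (p (nat_lit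 0x40592) (nat_lit 0) (p (nat_lit 0x40492) (nat_lit 0) (p (nat_lit 0x30412) (nat_lit 0) (p (nat_lit 0x30212) (nat_lit 0) (p (nat_lit 0x20192) (nat_lit 0) (p (nat_lit 0x20092) (nat_lit 0) (p (nat_lit 0x10012) (nat_lit 0) pn)))))))))))))))))))))))))))) :=
  Cl.node (nat_lit 0x10800c) (nat_lit 2) (by decide +kernel) (ClAll.succ (ClAll.succ ClAll.zero n302) s374)

def n374 : Cl (O (nat_lit 1)) (R (nat_lit 104465))
    (p (nat_lit 0x100004) (nat_lit 0) (p (nat_lit 0x380c2) (nat_lit 0) (p (nat_lit 0x3cc2a) (nat_lit 2) (p (nat_lit 0x109) (nat_lit 1) (p (nat_lit 0x200004) (nat_lit 0) (p (nat_lit 0x119) (nat_lit 0) (p (nat_lit 0x81) (nat_lit 0) (p (nat_lit 0x101) (nat_lit 1) (p (nat_lit 0x111) (nat_lit 0) (p (nat_lit 0xd1) (nat_lit 1) (p (nat_lit 0x89) (nat_lit 0) (p (nat_lit 0x41) (nat_lit 0) (p (nat_lit 0x8078907089a) (nat_lit 0) (p (nat_lit 0x7870886861a) (nat_lit 0) (p (nat_lit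 0x800070806078a) (nat_lit 0) (p (nat_lit 0x800068785850a) (nat_lit 0) (p (nat_lit 0x587050682) (nat_lit 0) (p (nat_lit 0x506848402) (nat_lit 0) (p (nat_lit 0x160014) (nat_lit 0) (p (nat_lit 0x16000c) (nat_lit 0) (p (nat_lit 0x50612) (nat_lit 0) (p (nat_lit 0x40592) (nat_lit 0) (p (nat_lit 0x40492) (nat_lit 0) (p (nat_lit 0x30412) (nat_lit 0) (p (nat_lit 0x30212) (nat_lit 0) (p (nat_lit 0x20192) (nat_lit 0) (p (nat_lit 0x20092) (nat_lit 0) (p (nat_lit 0x10012) (nat_lit 0) pn)))))))))))))))))))))))))))) :=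
  Cl.node (nat_lit 0x80004) (nat_lit 2) (by decide +kernel) (ClAll.succ (ClAll.succ ClAll.zero s405) s406)

def n375 : Cl (O (nat_lit 1)) (R (nat_lit 104465))
    (p (nat_lit 0x4c42a) (nat_lit 10) (p (nat_lit 0xc9) (nat_lit 0) (p (nat_lit 0x380c2) (nat_lit 0) (p (nat_lit 0x444aa) (nat_lit 7) (p (nat_lit 0x119) (nat_lit 0) (p (nat_lit 0xc1) (nat_lit 0) (p (nat_lit 0x81) (nat_lit 1) (p (nat_lit 0x101) (nat_lit 1) (p (nat_lit 0x111) (nat_lit 0) (p (nat_lit 0xd1) (nat_lit 1) (p (nat_lit 0x89) (nat_lit 0) (p (nat_lit 0x41) (nat_lit 0) (p (nat_lit 0x8078907089a) (nat_lit 0) (p (nat_lit 0x7870886861a) (nat_lit 0) (p (nat_lit 0x800070806078a) (nat_lit 0) (p (nat_lit 0x800068785850a) (nat_lit 0) (p (nat_lit 0x587050682) (nat_lit 0) (p (nat_lit 0x506848402) (nat_lit 0) (p (nat_lit 0x160014) (nat_lit 0) (p (nat_lit 0x16000c) (nat_lit 0) (p (nat_lit 0x50612) (nat_lit 0) (p (nat_lit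 0x40592) (nat_lit 0) (p (nat_lit 0x40492) (nat_lit 0) (p (nat_lit 0x30412) (nat_lit 0) (p (nat_lit 0x30212) (nat_lit 0) (p (nat_lit 0x20192) (nat_lit 0) (p (nat_lit 0x20092) (nat_lit 0) (p (nat_lit 0x10012) (nat_lit 0) pn)))))))))))))))))))))))))))) :=
  Cl.node (nat_lit 0x380c2) (nat_lit 2) (by decide +kernel) (ClAll.succ (ClAll.succ ClAll.zero s451) n303)

def n376 : Cl (O (nat_lit 1)) (R (nat_lit 104465))
    (p (nat_lit 0xc9) (nat_lit 0) (p (nat_lit 0x200004) (nat_lit 0) (p (nat_lit 0x380c2) (nat_lit 1) (p (nat_lit 0x444aa) (nat_lit 7) (p (nat_lit 0x119) (nat_lit 0) (p (nat_lit 0xc1) (nat_lit 0) (p (nat_lit 0x81) (nat_lit 1) (p (nat_lit 0x101) (nat_lit 1) (p (nat_lit 0x111) (nat_lit 0) (p (nat_lit 0xd1) (nat_lit 1) (p (nat_lit 0x89) (nat_lit 0) (p (nat_lit 0x41) (nat_lit 0) (p (nat_lit 0x8078907089a) (nat_lit 0) (p (nat_lit 0x7870886861a) (nat_lit 0) (p (nat_lit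 0x800070806078a) (nat_lit 0) (p (nat_lit 0x800068785850a) (nat_lit 0) (p (nat_lit 0x587050682) (nat_lit 0) (p (nat_lit 0x506848402) (nat_lit 0) (p (nat_lit 0x160014) (nat_lit 0) (p (nat_lit 0x16000c) (nat_lit 0) (p (nat_lit 0x50612) (nat_lit 0) (p (nat_lit 0x40592) (nat_lit 0) (p (nat_lit 0x40492) (nat_lit 0) (p (nat_lit 0x30412) (nat_lit 0) (p (nat_lit 0x30212) (nat_lit 0) (p (nat_lit 0x20192) (nat_lit 0) (p (nat_lit 0x20092) (nat_lit 0) (p (nat_lit 0x10012) (nat_lit 0) pn)))))))))))))))))))))))))))) :=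
  Cl.node (nat_lit 0x119) (nat_lit 2) (by decide +kernel) (ClAll.succ (ClAll.succ ClAll.zero s458) n304)

def n377 : Cl (O (nat_lit 1)) (R (nat_lit 104465))
    (p (nat_lit 0x89) (nat_lit 0) (p (nat_lit 0xb0014) (nat_lit 0) (p (nat_lit 0x380c2) (nat_lit 0) (p (nat_lit 0x3cc2a) (nat_lit 2) (p (nat_lit 0x119) (nat_lit 1) (p (nat_lit 0xc1) (nat_lit 0) (p (nat_lit 0x81) (nat_lit 1) (p (nat_lit 0x101) (nat_lit 1) (p (nat_lit 0x111) (nat_lit 0) (p (nat_lit 0xd1) (nat_lit 1) (p (nat_lit 0x89) (nat_lit 0) (p (nat_lit 0x41) (nat_lit 0) (p (nat_lit 0x8078907089a) (nat_lit 0) (p (nat_lit 0x7870886861a) (nat_lit 0) (p (nat_lit 0x800070806078a) (nat_lit 0) (p (nat_lit 0x800068785850a) (nat_lit 0) (p (nat_lit 0x587050682) (nat_lit 0) (p (nat_lit 0x506848402) (nat_lit 0) (p (nat_lit 0x160014) (nat_lit 0) (p (nat_lit 0x16000c) (nat_lit 0) (p (nat_lit 0x50612) (nat_lit 0) (p (nat_lit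 0x40592) (nat_lit 0) (p (nat_lit 0x40492) (nat_lit 0) (p (nat_lit 0x30412) (nat_lit 0) (p (nat_lit 0x30212) (nat_lit 0) (p (nat_lit 0x20192) (nat_lit 0) (p (nat_lit 0x20092) (nat_lit 0) (p (nat_lit 0x10012) (nat_lit 0) pn)))))))))))))))))))))))))))) :=
  Cl.node (nat_lit 0x4c42a) (nat_lit 12) (by decide +kernel) (ClAll.succ (ClAll.succ (ClAll.succ (ClAll.succ (ClAll.succ (ClAll.succ (ClAll.succ (ClAll.succ (ClAll.succ (ClAll.succ (ClAll.succ (ClAll.succ ClAll.zero s469) s470) s471) s472) s473) s474) s475) s476) s477) s478) n305) n306)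

def n378 : Cl (O (nat_lit 1)) (R (nat_lit 104465))
    (p (nat_lit 0x89) (nat_lit 1) (p (nat_lit 0xb0014) (nat_lit 0) (p (nat_lit 0x380c2) (nat_lit 0) (p (nat_lit 0x3cc2a) (nat_lit 2) (p (nat_lit 0x119) (nat_lit 1) (p (nat_lit 0xc1) (nat_lit 0) (p (nat_lit 0x81) (nat_lit 1) (p (nat_lit 0x101) (nat_lit 1) (p (nat_lit 0x111) (nat_lit 0) (p (nat_lit 0xd1) (nat_lit 1) (p (nat_lit 0x89) (nat_lit 0) (p (nat_lit 0x41) (nat_lit 0) (p (nat_lit 0x8078907089a) (nat_lit 0) (p (nat_lit 0x7870886861a) (nat_lit 0) (p (nat_lit 0x800070806078a) (nat_lit 0) (p (nat_lit 0x800068785850a) (nat_lit 0) (p (nat_lit 0x587050682) (nat_lit 0) (p (nat_lit 0x506848402) (nat_lit 0) (p (nat_lit 0x160014) (nat_lit 0) (p (nat_lit 0x16000c) (nat_lit 0) (p (nat_lit 0x50612) (nat_lit 0) (p (nat_lit 0x40592) (nat_lit 0) (p (nat_lit 0x40492) (nat_lit 0) (p (nat_lit 0x30412) (nat_lit 0) (p (nat_lit 0x30212)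 (nat_lit 0) (p (nat_lit 0x20192) (nat_lit 0) (p (nat_lit 0x20092) (nat_lit 0) (p (nat_lit 0x10012) (nat_lit 0) pn)))))))))))))))))))))))))))) :=
  Cl.node (nat_lit 0xb000c) (nat_lit 2) (by decide +kernel) (ClAll.succ (ClAll.succ ClAll.zero n307) n308)

def n379 : Cl (O (nat_lit 1)) (R (nat_lit 104465))
    (p (nat_lit 0x100004) (nat_lit 0) (p (nat_lit 0x200004) (nat_lit 0) (p (nat_lit 0x380c2) (nat_lit 0) (p (nat_lit 0x444aa) (nat_lit 7) (p (nat_lit 0xd1) (nat_lit 1) (p (nat_lit 0x111) (nat_lit 1) (p (nat_lit 0x109) (nat_lit 0) (p (nat_lit 0x101) (nat_lit 0) (p (nat_lit 0x119) (nat_lit 0) (p (nat_lit 0xc9) (nat_lit 0) (p (nat_lit 0x89) (nat_lit 1) (p (nat_lit 0x41) (nat_lit 0) (p (nat_lit 0x8078907089a) (nat_lit 0) (p (nat_lit 0x7870886861a) (nat_lit 0) (p (nat_lit 0x800070806078a) (nat_lit 0) (p (nat_lit 0x800068785850a) (nat_lit 0) (p (nat_lit 0x587050682) (nat_lit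 0) (p (nat_lit 0x506848402) (nat_lit 0) (p (nat_lit 0x160014) (nat_lit 0) (p (nat_lit 0x16000c) (nat_lit 0) (p (nat_lit 0x50612) (nat_lit 0) (p (nat_lit 0x40592) (nat_lit 0) (p (nat_lit 0x40492) (nat_lit 0) (p (nat_lit 0x30412) (nat_lit 0) (p (nat_lit 0x30212) (nat_lit 0) (p (nat_lit 0x20192) (nat_lit 0) (p (nat_lit 0x20092) (nat_lit 0) (p (nat_lit 0x10012) (nat_lit 0) pn)))))))))))))))))))))))))))) :=
  Cl.node (nat_lit 0xb000c) (nat_lit 2) (by decide +kernel) (ClAll.succ (ClAll.succ ClAll.zero n309) n310)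

def n380 : Cl (O (nat_lit 1)) (R (nat_lit 104465))
    (p (nat_lit 0x100004) (nat_lit 1) (p (nat_lit 0x200004) (nat_lit 0) (p (nat_lit 0x380c2) (nat_lit 0) (p (nat_lit 0x444aa) (nat_lit 7) (p (nat_lit 0xd1) (nat_lit 1) (p (nat_lit 0x111) (nat_lit 1) (p (nat_lit 0x109) (nat_lit 0) (p (nat_lit 0x101) (nat_lit 0) (p (nat_lit 0x119) (nat_lit 0) (p (nat_lit 0xc9) (nat_lit 0) (p (nat_lit 0x89) (nat_lit 1) (p (nat_lit 0x41) (nat_lit 0) (p (nat_lit 0x8078907089a) (nat_lit 0) (p (nat_lit 0x7870886861a) (nat_lit 0) (p (nat_lit 0x800070806078a) (nat_lit 0) (p (nat_lit 0x800068785850a) (nat_lit 0) (p (nat_lit 0x587050682) (nat_lit 0) (p (nat_lit 0x506848402) (nat_lit 0) (p (nat_lit 0x160014) (nat_lit 0) (p (nat_lit 0x16000c) (nat_lit 0) (p (nat_lit 0x50612) (nat_lit 0) (p (nat_lit 0x40592) (nat_lit 0) (p (nat_lit 0x40492) (nat_lit 0) (p (nat_lit 0x30412) (nat_lit 0) (p (nat_lit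 0x30212) (nat_lit 0) (p (nat_lit 0x20192) (nat_lit 0) (p (nat_lit 0x20092) (nat_lit 0) (p (nat_lit 0x10012) (nat_lit 0) pn)))))))))))))))))))))))))))) :=
  Cl.node (nat_lit 0x10800c) (nat_lit 2) (by decide +kernel) (ClAll.succ (ClAll.succ ClAll.zero n311) s622)

def n381 : Cl (O (nat_lit 1)) (R (nat_lit 104465))
    (p (nat_lit 0x100004) (nat_lit 0) (p (nat_lit 0x200004) (nat_lit 0) (p (nat_lit 0x380c2) (nat_lit 1) (p (nat_lit 0x444aa) (nat_lit 7) (p (nat_lit 0xd1) (nat_lit 1) (p (nat_lit 0x111) (nat_lit 1) (p (nat_lit 0x109) (nat_lit 0) (p (nat_lit 0x101) (nat_lit 0) (p (nat_lit 0x119) (nat_lit 0) (p (nat_lit 0xc9) (nat_lit 0) (p (nat_lit 0x89) (nat_lit 1) (p (nat_lit 0x41) (nat_lit 0) (p (nat_lit 0x8078907089a) (nat_lit 0) (p (nat_lit 0x7870886861a) (nat_lit 0) (p (nat_lit 0x800070806078a) (nat_lit 0) (p (nat_lit 0x800068785850a) (nat_lit 0) (p (nat_lit 0x587050682)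 (nat_lit 0) (p (nat_lit 0x506848402) (nat_lit 0) (p (nat_lit 0x160014) (nat_lit 0) (p (nat_lit 0x16000c) (nat_lit 0) (p (nat_lit 0x50612) (nat_lit 0) (p (nat_lit 0x40592) (nat_lit 0) (p (nat_lit 0x40492) (nat_lit 0) (p (nat_lit 0x30412) (nat_lit 0) (p (nat_lit 0x30212) (nat_lit 0) (p (nat_lit 0x20192) (nat_lit 0) (p (nat_lit 0x20092) (nat_lit 0) (p (nat_lit 0x10012) (nat_lit 0) pn)))))))))))))))))))))))))))) :=
  Cl.node (nat_lit 0xb000c) (nat_lit 2) (by decide +kernel) (ClAll.succ (ClAll.succ ClAll.zero n312) n313)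

def n382 : Cl (O (nat_lit 1)) (R (nat_lit 104465))
    (p (nat_lit 0x100004) (nat_lit 0) (p (nat_lit 0x380c2) (nat_lit 0) (p (nat_lit 0x44c2a) (nat_lit 0) (p (nat_lit 0x41) (nat_lit 0) (p (nat_lit 0x200004) (nat_lit 0) (p (nat_lit 0xd1) (nat_lit 0) (p (nat_lit 0x109) (nat_lit 1) (p (nat_lit 0x101) (nat_lit 0) (p (nat_lit 0x119) (nat_lit 0) (p (nat_lit 0xc9) (nat_lit 0) (p (nat_lit 0x89) (nat_lit 1) (p (nat_lit 0x41) (nat_lit 0) (p (nat_lit 0x8078907089a) (nat_lit 0) (p (nat_lit 0x7870886861a) (nat_lit 0) (p (nat_lit 0x800070806078a) (nat_lit 0) (p (nat_lit 0x800068785850a) (nat_lit 0) (p (nat_lit 0x587050682) (nat_lit 0) (p (nat_lit 0x506848402) (nat_lit 0) (p (nat_lit 0x160014) (nat_lit 0) (p (nat_lit 0x16000c) (nat_lit 0) (p (nat_lit 0x50612) (nat_lit 0) (p (nat_lit 0x40592) (nat_lit 0) (p (nat_lit 0x40492) (nat_lit 0) (p (nat_lit 0x30412) (nat_lit 0) (p (nat_lit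 0x30212) (nat_lit 0) (p (nat_lit 0x20192) (nat_lit 0) (p (nat_lit 0x20092) (nat_lit 0) (p (nat_lit 0x10012) (nat_lit 0) pn)))))))))))))))))))))))))))) :=
  Cl.node (nat_lit 0xc1) (nat_lit 2) (by decide +kernel) (ClAll.succ (ClAll.succ ClAll.zero s652) n314)

def n383 : Cl (O (nat_lit 1)) (R (nat_lit 104465))
    (p (nat_lit 0x100004) (nat_lit 1) (p (nat_lit 0x380c2) (nat_lit 0) (p (nat_lit 0x44c2a) (nat_lit 0) (p (nat_lit 0x41) (nat_lit 0) (p (nat_lit 0x200004) (nat_lit 0) (p (nat_lit 0xd1) (nat_lit 0) (p (nat_lit 0x109) (nat_lit 1) (p (nat_lit 0x101) (nat_lit 0) (p (nat_lit 0x119) (nat_lit 0) (p (nat_lit 0xc9) (nat_lit 0) (p (nat_lit 0x89) (nat_lit 1) (p (nat_lit 0x41) (nat_lit 0) (p (nat_lit 0x8078907089a) (nat_lit 0) (p (nat_lit 0x7870886861a) (nat_lit 0) (p (nat_lit 0x800070806078a) (nat_lit 0) (p (nat_lit 0x800068785850a) (nat_lit 0) (p (nat_lit 0x587050682) (nat_lit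 0) (p (nat_lit 0x506848402) (nat_lit 0) (p (nat_lit 0x160014) (nat_lit 0) (p (nat_lit 0x16000c) (nat_lit 0) (p (nat_lit 0x50612) (nat_lit 0) (p (nat_lit 0x40592) (nat_lit 0) (p (nat_lit 0x40492) (nat_lit 0) (p (nat_lit 0x30412) (nat_lit 0) (p (nat_lit 0x30212) (nat_lit 0) (p (nat_lit 0x20192) (nat_lit 0) (p (nat_lit 0x20092) (nat_lit 0) (p (nat_lit 0x10012) (nat_lit 0) pn)))))))))))))))))))))))))))) :=
  Cl.node (nat_lit 0x10800c) (nat_lit 2) (by decide +kernel) (ClAll.succ (ClAll.succ ClAll.zero n315) s668)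

def n384 : Cl (O (nat_lit 1)) (R (nat_lit 104465))
    (p (nat_lit 0xb0014) (nat_lit 0) (p (nat_lit 0x380c2) (nat_lit 0) (p (nat_lit 0x44c2a) (nat_lit 1) (p (nat_lit 0x41) (nat_lit 0) (p (nat_lit 0x200004) (nat_lit 0) (p (nat_lit 0xd1) (nat_lit 0) (p (nat_lit 0x109) (nat_lit 1) (p (nat_lit 0x101) (nat_lit 0) (p (nat_lit 0x119) (nat_lit 0) (p (nat_lit 0xc9) (nat_lit 0) (p (nat_lit 0x89) (nat_lit 1) (p (nat_lit 0x41) (nat_lit 0) (p (nat_lit 0x8078907089a) (nat_lit 0) (p (nat_lit 0x7870886861a) (nat_lit 0) (p (nat_lit 0x800070806078a) (nat_lit 0) (p (nat_lit 0x800068785850a) (nat_lit 0) (p (nat_lit 0x587050682) (nat_lit 0) (p (nat_lit 0x506848402) (nat_lit 0) (p (nat_lit 0x160014) (nat_lit 0) (p (nat_lit 0x16000c) (nat_lit 0) (p (nat_lit 0x50612) (nat_lit 0) (p (nat_lit 0x40592) (nat_lit 0) (p (nat_lit 0x40492) (nat_lit 0) (p (nat_lit 0x30412) (nat_lit 0) (p (nat_lit 0x30212)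 (nat_lit 0) (p (nat_lit 0x20192) (nat_lit 0) (p (nat_lit 0x20092) (nat_lit 0) (p (nat_lit 0x10012) (nat_lit 0) pn)))))))))))))))))))))))))))) :=
  Cl.node (nat_lit 0x58014) (nat_lit 2) (by decide +kernel) (ClAll.succ (ClAll.succ ClAll.zero n316) n317)

def n385 : Cl (O (nat_lit 1)) (R (nat_lit 104465))
    (p (nat_lit 0xb0014) (nat_lit 1) (p (nat_lit 0x380c2) (nat_lit 0) (p (nat_lit 0x44c2a) (nat_lit 1) (p (nat_lit 0x41) (nat_lit 0) (p (nat_lit 0x200004) (nat_lit 0) (p (nat_lit 0xd1) (nat_lit 0) (p (nat_lit 0x109) (nat_lit 1) (p (nat_lit 0x101) (nat_lit 0) (p (nat_lit 0x119) (nat_lit 0) (p (nat_lit 0xc9) (nat_lit 0) (p (nat_lit 0x89) (nat_lit 1) (p (nat_lit 0x41) (nat_lit 0) (p (nat_lit 0x8078907089a) (nat_lit 0) (p (nat_lit 0x7870886861a) (nat_lit 0) (p (nat_lit 0x800070806078a) (nat_lit 0) (p (nat_lit 0x800068785850a) (nat_lit 0) (p (nat_lit 0x587050682) (nat_lit 0)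 (p (nat_lit 0x506848402) (nat_lit 0) (p (nat_lit 0x160014) (nat_lit 0) (p (nat_lit 0x16000c) (nat_lit 0) (p (nat_lit 0x50612) (nat_lit 0) (p (nat_lit 0x40592) (nat_lit 0) (p (nat_lit 0x40492) (nat_lit 0) (p (nat_lit 0x30412) (nat_lit 0) (p (nat_lit 0x30212) (nat_lit 0) (p (nat_lit 0x20192) (nat_lit 0) (p (nat_lit 0x20092) (nat_lit 0) (p (nat_lit 0x10012) (nat_lit 0) pn)))))))))))))))))))))))))))) :=
  Cl.node (nat_lit 0xb000c) (nat_lit 2) (by decide +kernel) (ClAll.succ (ClAll.succ ClAll.zero n318) s684)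

def n386 : Cl (O (nat_lit 1)) (R (nat_lit 104465))
    (p (nat_lit 0xb0014) (nat_lit 0) (p (nat_lit 0x380c2) (nat_lit 0) (p (nat_lit 0x4c42a) (nat_lit 9) (p (nat_lit 0x41) (nat_lit 1) (p (nat_lit 0x200004) (nat_lit 0) (p (nat_lit 0xd1) (nat_lit 0) (p (nat_lit 0x109) (nat_lit 1) (p (nat_lit 0x101) (nat_lit 0) (p (nat_lit 0x119) (nat_lit 0) (p (nat_lit 0xc9) (nat_lit 0) (p (nat_lit 0x89) (nat_lit 1) (p (nat_lit 0x41) (nat_lit 0) (p (nat_lit 0x8078907089a) (nat_lit 0) (p (nat_lit 0x7870886861a) (nat_lit 0) (p (nat_lit 0x800070806078a) (nat_lit 0) (p (nat_lit 0x800068785850a) (nat_lit 0) (p (nat_lit 0x587050682) (nat_lit 0) (p (nat_lit 0x506848402) (nat_lit 0) (p (nat_lit 0x160014) (nat_lit 0) (p (nat_lit 0x16000c) (nat_lit 0) (p (nat_lit 0x50612) (nat_lit 0) (p (nat_lit 0x40592) (nat_lit 0) (p (nat_lit 0x40492) (nat_lit 0) (p (nat_lit 0x30412) (nat_lit 0) (p (nat_lit 0x30212)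 (nat_lit 0) (p (nat_lit 0x20192) (nat_lit 0) (p (nat_lit 0x20092) (nat_lit 0) (p (nat_lit 0x10012) (nat_lit 0) pn)))))))))))))))))))))))))))) :=
  Cl.node (nat_lit 0x100004) (nat_lit 2) (by decide +kernel) (ClAll.succ (ClAll.succ ClAll.zero s704) s705)

def n387 : Cl (O (nat_lit 1)) (R (nat_lit 104465))
    (p (nat_lit 0xc1) (nat_lit 0) (p (nat_lit 0x100004) (nat_lit 0) (p (nat_lit 0x200004) (nat_lit 0) (p (nat_lit 0x380c2) (nat_lit 0) (p (nat_lit 0x444aa) (nat_lit 7) (p (nat_lit 0xd1) (nat_lit 1) (p (nat_lit 0x109) (nat_lit 1) (p (nat_lit 0x101) (nat_lit 0) (p (nat_lit 0x119) (nat_lit 0) (p (nat_lit 0xc9) (nat_lit 0) (p (nat_lit 0x89) (nat_lit 1) (p (nat_lit 0x41) (nat_lit 0) (p (nat_lit 0x8078907089a) (nat_lit 0) (p (nat_lit 0x7870886861a) (nat_lit 0) (p (nat_lit 0x800070806078a) (nat_lit 0) (p (nat_lit 0x800068785850a) (nat_lit 0) (p (nat_lit 0x587050682) (nat_lit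 0) (p (nat_lit 0x506848402) (nat_lit 0) (p (nat_lit 0x160014) (nat_lit 0) (p (nat_lit 0x16000c) (nat_lit 0) (p (nat_lit 0x50612) (nat_lit 0) (p (nat_lit 0x40592) (nat_lit 0) (p (nat_lit 0x40492) (nat_lit 0) (p (nat_lit 0x30412) (nat_lit 0) (p (nat_lit 0x30212) (nat_lit 0) (p (nat_lit 0x20192) (nat_lit 0) (p (nat_lit 0x20092) (nat_lit 0) (p (nat_lit 0x10012) (nat_lit 0) pn)))))))))))))))))))))))))))) :=
  Cl.node (nat_lit 0xb000c) (nat_lit 2) (by decide +kernel) (ClAll.succ (ClAll.succ ClAll.zero n319) s746)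

def n388 : Cl (O (nat_lit 1)) (R (nat_lit 104465))
    (p (nat_lit 0x10800c) (nat_lit 0) (p (nat_lit 0x100004) (nat_lit 1) (p (nat_lit 0x200004) (nat_lit 0) (p (nat_lit 0x380c2) (nat_lit 0) (p (nat_lit 0x444aa) (nat_lit 7) (p (nat_lit 0xd1) (nat_lit 1) (p (nat_lit 0x109) (nat_lit 1) (p (nat_lit 0x101) (nat_lit 0) (p (nat_lit 0x119) (nat_lit 0) (p (nat_lit 0xc9) (nat_lit 0) (p (nat_lit 0x89) (nat_lit 1) (p (nat_lit 0x41) (nat_lit 0) (p (nat_lit 0x8078907089a) (nat_lit 0) (p (nat_lit 0x7870886861a) (nat_lit 0) (p (nat_lit 0x800070806078a) (nat_lit 0) (p (nat_lit 0x800068785850a) (nat_lit 0) (p (nat_lit 0x587050682) (nat_lit 0) (p (nat_lit 0x506848402) (nat_lit 0) (p (nat_lit 0x160014) (nat_lit 0) (p (nat_lit 0x16000c) (nat_lit 0) (p (nat_lit 0x50612) (nat_lit 0) (p (nat_lit 0x40592) (nat_lit 0) (p (nat_lit 0x40492) (nat_lit 0) (p (nat_lit 0x30412) (nat_lit 0) (p (nat_lit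 0x30212) (nat_lit 0) (p (nat_lit 0x20192) (nat_lit 0) (p (nat_lit 0x20092) (nat_lit 0) (p (nat_lit 0x10012) (nat_lit 0) pn)))))))))))))))))))))))))))) :=
  Cl.node (nat_lit 0x108014) (nat_lit 2) (by decide +kernel) (ClAll.succ (ClAll.succ ClAll.zero n320) s754)

def n389 : Cl (O (nat_lit 1)) (R (nat_lit 104465))
    (p (nat_lit 0x100004) (nat_lit 0) (p (nat_lit 0x200004) (nat_lit 0) (p (nat_lit 0xb0014) (nat_lit 0) (p (nat_lit 0x380c2) (nat_lit 1) (p (nat_lit 0x444aa) (nat_lit 7) (p (nat_lit 0xd1) (nat_lit 1) (p (nat_lit 0x109) (nat_lit 1) (p (nat_lit 0x101) (nat_lit 0) (p (nat_lit 0x119) (nat_lit 0) (p (nat_lit 0xc9) (nat_lit 0) (p (nat_lit 0x89) (nat_lit 1) (p (nat_lit 0x41) (nat_lit 0) (p (nat_lit 0x8078907089a) (nat_lit 0) (p (nat_lit 0x7870886861a) (nat_lit 0) (p (nat_lit 0x800070806078a) (nat_lit 0) (p (nat_lit 0x800068785850a) (nat_lit 0) (p (nat_lit 0x587050682)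 (nat_lit 0) (p (nat_lit 0x506848402) (nat_lit 0) (p (nat_lit 0x160014) (nat_lit 0) (p (nat_lit 0x16000c) (nat_lit 0) (p (nat_lit 0x50612) (nat_lit 0) (p (nat_lit 0x40592) (nat_lit 0) (p (nat_lit 0x40492) (nat_lit 0) (p (nat_lit 0x30412) (nat_lit 0) (p (nat_lit 0x30212) (nat_lit 0) (p (nat_lit 0x20192) (nat_lit 0) (p (nat_lit 0x20092) (nat_lit 0) (p (nat_lit 0x10012) (nat_lit 0) pn)))))))))))))))))))))))))))) :=
  Cl.node (nat_lit 0xc1) (nat_lit 2) (by decide +kernel) (ClAll.succ (ClAll.succ ClAll.zero n321) n322)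

def n390 : Cl (O (nat_lit 1)) (R (nat_lit 104465))
    (p (nat_lit 0x100004) (nat_lit 1) (p (nat_lit 0x200004) (nat_lit 0) (p (nat_lit 0xb0014) (nat_lit 0) (p (nat_lit 0x380c2) (nat_lit 1) (p (nat_lit 0x444aa) (nat_lit 7) (p (nat_lit 0xd1) (nat_lit 1) (p (nat_lit 0x109) (nat_lit 1) (p (nat_lit 0x101) (nat_lit 0) (p (nat_lit 0x119) (nat_lit 0) (p (nat_lit 0xc9) (nat_lit 0) (p (nat_lit 0x89) (nat_lit 1) (p (nat_lit 0x41) (nat_lit 0) (p (nat_lit 0x8078907089a) (nat_lit 0) (p (nat_lit 0x7870886861a) (nat_lit 0) (p (nat_lit 0x800070806078a) (nat_lit 0) (p (nat_lit 0x800068785850a) (nat_lit 0) (p (nat_lit 0x587050682) (nat_lit 0) (p (nat_lit 0x506848402) (nat_lit 0) (p (nat_lit 0x160014) (nat_lit 0) (p (nat_lit 0x16000c) (nat_lit 0) (p (nat_lit 0x50612) (nat_lit 0) (p (nat_lit 0x40592) (nat_lit 0) (p (nat_lit 0x40492) (nat_lit 0) (p (nat_lit 0x30412) (nat_lit 0) (p (nat_lit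 0x30212) (nat_lit 0) (p (nat_lit 0x20192) (nat_lit 0) (p (nat_lit 0x20092) (nat_lit 0) (p (nat_lit 0x10012) (nat_lit 0) pn)))))))))))))))))))))))))))) :=
  Cl.node (nat_lit 0x10800c) (nat_lit 2) (by decide +kernel) (ClAll.succ (ClAll.succ ClAll.zero n323) s776)

def n391 : Cl (O (nat_lit 1)) (R (nat_lit 104465))
    (p (nat_lit 0xb000c) (nat_lit 0) (p (nat_lit 0x1fc004) (nat_lit 0) (p (nat_lit 0xb0014) (nat_lit 1) (p (nat_lit 0x380c2) (nat_lit 1) (p (nat_lit 0x444aa) (nat_lit 7) (p (nat_lit 0xd1) (nat_lit 1) (p (nat_lit 0x109) (nat_lit 1) (p (nat_lit 0x101) (nat_lit 0) (p (nat_lit 0x119) (nat_lit 0) (p (nat_lit 0xc9) (nat_lit 0) (p (nat_lit 0x89) (nat_lit 1) (p (nat_lit 0x41) (nat_lit 0) (p (nat_lit 0x8078907089a) (nat_lit 0) (p (nat_lit 0x7870886861a) (nat_lit 0) (p (nat_lit 0x800070806078a) (nat_lit 0) (p (nat_lit 0x800068785850a) (nat_lit 0) (p (nat_lit 0x587050682)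 (nat_lit 0) (p (nat_lit 0x506848402) (nat_lit 0) (p (nat_lit 0x160014) (nat_lit 0) (p (nat_lit 0x16000c) (nat_lit 0) (p (nat_lit 0x50612) (nat_lit 0) (p (nat_lit 0x40592) (nat_lit 0) (p (nat_lit 0x40492) (nat_lit 0) (p (nat_lit 0x30412) (nat_lit 0) (p (nat_lit 0x30212) (nat_lit 0) (p (nat_lit 0x20192) (nat_lit 0) (p (nat_lit 0x20092) (nat_lit 0) (p (nat_lit 0x10012) (nat_lit 0) pn)))))))))))))))))))))))))))) :=
  Cl.node (nat_lit 0x100004) (nat_lit 2) (by decide +kernel) (ClAll.succ (ClAll.succ ClAll.zero n324) s792)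

def n392 : Cl (O (nat_lit 1)) (R (nat_lit 104465))
    (p (nat_lit 0xb0014) (nat_lit 0) (p (nat_lit 0x380c2) (nat_lit 0) (p (nat_lit 0x4c42a) (nat_lit 9) (p (nat_lit 0x109) (nat_lit 0) (p (nat_lit 0x200004) (nat_lit 0) (p (nat_lit 0xd1) (nat_lit 0) (p (nat_lit 0xc1) (nat_lit 0) (p (nat_lit 0x101) (nat_lit 1) (p (nat_lit 0x119) (nat_lit 0) (p (nat_lit 0xc9) (nat_lit 0) (p (nat_lit 0x89) (nat_lit 1) (p (nat_lit 0x41) (nat_lit 0) (p (nat_lit 0x8078907089a) (nat_lit 0) (p (nat_lit 0x7870886861a) (nat_lit 0) (p (nat_lit 0x800070806078a) (nat_lit 0) (p (nat_lit 0x800068785850a) (nat_lit 0) (p (nat_lit 0x587050682) (nat_lit 0) (p (nat_lit 0x506848402) (nat_lit 0) (p (nat_lit 0x160014) (nat_lit 0) (p (nat_lit 0x16000c) (nat_lit 0) (p (nat_lit 0x50612) (nat_lit 0) (p (nat_lit 0x40592) (nat_lit 0) (p (nat_lit 0x40492) (nat_lit 0) (p (nat_lit 0x30412) (nat_lit 0) (p (nat_lit 0x30212)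 (nat_lit 0) (p (nat_lit 0x20192) (nat_lit 0) (p (nat_lit 0x20092) (nat_lit 0) (p (nat_lit 0x10012) (nat_lit 0) pn)))))))))))))))))))))))))))) :=
  Cl.node (nat_lit 0xb000c) (nat_lit 2) (by decide +kernel) (ClAll.succ (ClAll.succ ClAll.zero s808) s809)

def n393 : Cl (O (nat_lit 1)) (R (nat_lit 104465))
    (p (nat_lit 0x100004) (nat_lit 0) (p (nat_lit 0x380c2) (nat_lit 0) (p (nat_lit 0x44c2a) (nat_lit 0) (p (nat_lit 0x109) (nat_lit 1) (p (nat_lit 0x200004) (nat_lit 0) (p (nat_lit 0xd1) (nat_lit 0) (p (nat_lit 0xc1) (nat_lit 0) (p (nat_lit 0x101) (nat_lit 1) (p (nat_lit 0x119) (nat_lit 0) (p (nat_lit 0xc9) (nat_lit 0) (p (nat_lit 0x89) (nat_lit 1) (p (nat_lit 0x41) (nat_lit 0) (p (nat_lit 0x8078907089a) (nat_lit 0) (p (nat_lit 0x7870886861a) (nat_lit 0) (p (nat_lit 0x800070806078a) (nat_lit 0) (p (nat_lit 0x800068785850a) (nat_lit 0) (p (nat_lit 0x587050682) (nat_lit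 0) (p (nat_lit 0x506848402) (nat_lit 0) (p (nat_lit 0x160014) (nat_lit 0) (p (nat_lit 0x16000c) (nat_lit 0) (p (nat_lit 0x50612) (nat_lit 0) (p (nat_lit 0x40592) (nat_lit 0) (p (nat_lit 0x40492) (nat_lit 0) (p (nat_lit 0x30412) (nat_lit 0) (p (nat_lit 0x30212) (nat_lit 0) (p (nat_lit 0x20192) (nat_lit 0) (p (nat_lit 0x20092) (nat_lit 0) (p (nat_lit 0x10012) (nat_lit 0) pn)))))))))))))))))))))))))))) :=
  Cl.node (nat_lit 0x41) (nat_lit 2) (by decide +kernel) (ClAll.succ (ClAll.succ ClAll.zero s813) s814)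

def n394 : Cl (O (nat_lit 1)) (R (nat_lit 104465))
    (p (nat_lit 0xb0014) (nat_lit 0) (p (nat_lit 0x380c2) (nat_lit 0) (p (nat_lit 0x44c2a) (nat_lit 1) (p (nat_lit 0x109) (nat_lit 1) (p (nat_lit 0x200004) (nat_lit 0) (p (nat_lit 0xd1) (nat_lit 0) (p (nat_lit 0xc1) (nat_lit 0) (p (nat_lit 0x101) (nat_lit 1) (p (nat_lit 0x119) (nat_lit 0) (p (nat_lit 0xc9) (nat_lit 0) (p (nat_lit 0x89) (nat_lit 1) (p (nat_lit 0x41) (nat_lit 0) (p (nat_lit 0x8078907089a) (nat_lit 0) (p (nat_lit 0x7870886861a) (nat_lit 0) (p (nat_lit 0x800070806078a) (nat_lit 0) (p (nat_lit 0x800068785850a) (nat_lit 0) (p (nat_lit 0x587050682) (nat_lit 0) (p (nat_lit 0x506848402) (nat_lit 0) (p (nat_lit 0x160014) (nat_lit 0) (p (nat_lit 0x16000c) (nat_lit 0) (p (nat_lit 0x50612) (nat_lit 0) (p (nat_lit 0x40592) (nat_lit 0) (p (nat_lit 0x40492) (nat_lit 0) (p (nat_lit 0x30412) (nat_lit 0) (p (nat_lit 0x30212)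 (nat_lit 0) (p (nat_lit 0x20192) (nat_lit 0) (p (nat_lit 0x20092) (nat_lit 0) (p (nat_lit 0x10012) (nat_lit 0) pn)))))))))))))))))))))))))))) :=
  Cl.node (nat_lit 0xb000c) (nat_lit 2) (by decide +kernel) (ClAll.succ (ClAll.succ ClAll.zero s817) s818)

def n395 : Cl (O (nat_lit 1)) (R (nat_lit 104465))
    (p (nat_lit 0xb0014) (nat_lit 1) (p (nat_lit 0x380c2) (nat_lit 0) (p (nat_lit 0x44c2a) (nat_lit 1) (p (nat_lit 0x109) (nat_lit 1) (p (nat_lit 0x200004) (nat_lit 0) (p (nat_lit 0xd1) (nat_lit 0) (p (nat_lit 0xc1) (nat_lit 0) (p (nat_lit 0x101) (nat_lit 1) (p (nat_lit 0x119) (nat_lit 0) (p (nat_lit 0xc9) (nat_lit 0) (p (nat_lit 0x89) (nat_lit 1) (p (nat_lit 0x41) (nat_lit 0) (p (nat_lit 0x8078907089a) (nat_lit 0) (p (nat_lit 0x7870886861a) (nat_lit 0) (p (nat_lit 0x800070806078a) (nat_lit 0) (p (nat_lit 0x800068785850a) (nat_lit 0) (p (nat_lit 0x587050682) (nat_lit 0)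 (p (nat_lit 0x506848402) (nat_lit 0) (p (nat_lit 0x160014) (nat_lit 0) (p (nat_lit 0x16000c) (nat_lit 0) (p (nat_lit 0x50612) (nat_lit 0) (p (nat_lit 0x40592) (nat_lit 0) (p (nat_lit 0x40492) (nat_lit 0) (p (nat_lit 0x30412) (nat_lit 0) (p (nat_lit 0x30212) (nat_lit 0) (p (nat_lit 0x20192) (nat_lit 0) (p (nat_lit 0x20092) (nat_lit 0) (p (nat_lit 0x10012) (nat_lit 0) pn)))))))))))))))))))))))))))) :=
  Cl.node (nat_lit 0xb000c) (nat_lit 2) (by decide +kernel) (ClAll.succ (ClAll.succ ClAll.zero n325) s824)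

def n396 : Cl (O (nat_lit 1)) (R (nat_lit 104465))
    (p (nat_lit 0xc9) (nat_lit 0) (p (nat_lit 0x200004) (nat_lit 0) (p (nat_lit 0xb000c) (nat_lit 0) (p (nat_lit 0x380c2) (nat_lit 0) (p (nat_lit 0x444aa) (nat_lit 7) (p (nat_lit 0xd1) (nat_lit 1) (p (nat_lit 0xc1) (nat_lit 0) (p (nat_lit 0x101) (nat_lit 1) (p (nat_lit 0x119) (nat_lit 0) (p (nat_lit 0xc9) (nat_lit 0) (p (nat_lit 0x89) (nat_lit 1) (p (nat_lit 0x41) (nat_lit 0) (p (nat_lit 0x8078907089a) (nat_lit 0) (p (nat_lit 0x7870886861a) (nat_lit 0) (p (nat_lit 0x800070806078a) (nat_lit 0) (p (nat_lit 0x800068785850a) (nat_lit 0) (p (nat_lit 0x587050682) (nat_lit 0) (p (nat_lit 0x506848402) (nat_lit 0) (p (nat_lit 0x160014) (nat_lit 0) (p (nat_lit 0x16000c) (nat_lit 0) (p (nat_lit 0x50612) (nat_lit 0) (p (nat_lit 0x40592) (nat_lit 0) (p (nat_lit 0x40492) (nat_lit 0) (p (nat_lit 0x30412) (nat_lit 0) (p (nat_lit 0x30212)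 (nat_lit 0) (p (nat_lit 0x20192) (nat_lit 0) (p (nat_lit 0x20092) (nat_lit 0) (p (nat_lit 0x10012) (nat_lit 0) pn)))))))))))))))))))))))))))) :=
  Cl.node (nat_lit 0x119) (nat_lit 2) (by decide +kernel) (ClAll.succ (ClAll.succ ClAll.zero s846) n326)

def n397 : Cl (O (nat_lit 1)) (R (nat_lit 104465))
    (p (nat_lit 0xc9) (nat_lit 0) (p (nat_lit 0x100004) (nat_lit 0) (p (nat_lit 0x200004) (nat_lit 0) (p (nat_lit 0x380c2) (nat_lit 1) (p (nat_lit 0x444aa) (nat_lit 7) (p (nat_lit 0xd1) (nat_lit 1) (p (nat_lit 0xc1) (nat_lit 0) (p (nat_lit 0x101) (nat_lit 1) (p (nat_lit 0x119) (nat_lit 0) (p (nat_lit 0xc9) (nat_lit 0) (p (nat_lit 0x89) (nat_lit 1) (p (nat_lit 0x41) (nat_lit 0) (p (nat_lit 0x8078907089a) (nat_lit 0) (p (nat_lit 0x7870886861a) (nat_lit 0) (p (nat_lit 0x800070806078a) (nat_lit 0) (p (nat_lit 0x800068785850a) (nat_lit 0) (p (nat_lit 0x587050682) (nat_lit 0)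 (p (nat_lit 0x506848402) (nat_lit 0) (p (nat_lit 0x160014) (nat_lit 0) (p (nat_lit 0x16000c) (nat_lit 0) (p (nat_lit 0x50612) (nat_lit 0) (p (nat_lit 0x40592) (nat_lit 0) (p (nat_lit 0x40492) (nat_lit 0) (p (nat_lit 0x30412) (nat_lit 0) (p (nat_lit 0x30212) (nat_lit 0) (p (nat_lit 0x20192) (nat_lit 0) (p (nat_lit 0x20092) (nat_lit 0) (p (nat_lit 0x10012) (nat_lit 0) pn)))))))))))))))))))))))))))) :=
  Cl.node (nat_lit 0x119) (nat_lit 2) (by decide +kernel) (ClAll.succ (ClAll.succ ClAll.zero s864) n327)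

def n398 : Cl (O (nat_lit 1)) (R (nat_lit 104465))
    (p (nat_lit 0x101) (nat_lit 0) (p (nat_lit 0x100004) (nat_lit 0) (p (nat_lit 0x200004) (nat_lit 0) (p (nat_lit 0x380c2) (nat_lit 0) (p (nat_lit 0x444aa) (nat_lit 7) (p (nat_lit 0x111) (nat_lit 1) (p (nat_lit 0xd1) (nat_lit 1) (p (nat_lit 0xc1) (nat_lit 0) (p (nat_lit 0x119) (nat_lit 1) (p (nat_lit 0xc9) (nat_lit 0) (p (nat_lit 0x89) (nat_lit 1) (p (nat_lit 0x41) (nat_lit 0) (p (nat_lit 0x8078907089a) (nat_lit 0) (p (nat_lit 0x7870886861a) (nat_lit 0) (p (nat_lit 0x800070806078a) (nat_lit 0) (p (nat_lit 0x800068785850a) (nat_lit 0) (p (nat_lit 0x587050682) (nat_lit 0) (p (nat_lit 0x506848402) (nat_lit 0) (p (nat_lit 0x160014) (nat_lit 0) (p (nat_lit 0x16000c) (nat_lit 0) (p (nat_lit 0x50612) (nat_lit 0) (p (nat_lit 0x40592) (nat_lit 0) (p (nat_lit 0x40492) (nat_lit 0) (p (nat_lit 0x30412) (nat_lit 0) (p (nat_lit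 0x30212) (nat_lit 0) (p (nat_lit 0x20192) (nat_lit 0) (p (nat_lit 0x20092) (nat_lit 0) (p (nat_lit 0x10012) (nat_lit 0) pn)))))))))))))))))))))))))))) :=
  Cl.node (nat_lit 0x109) (nat_lit 2) (by decide +kernel) (ClAll.succ (ClAll.succ ClAll.zero n328) s912)

def n399 : Cl (O (nat_lit 1)) (R (nat_lit 104465))
    (p (nat_lit 0x109) (nat_lit 0) (p (nat_lit 0x100004) (nat_lit 0) (p (nat_lit 0x200004) (nat_lit 0) (p (nat_lit 0x380c2) (nat_lit 1) (p (nat_lit 0x444aa) (nat_lit 7) (p (nat_lit 0x111) (nat_lit 1) (p (nat_lit 0xd1) (nat_lit 1) (p (nat_lit 0xc1) (nat_lit 0) (p (nat_lit 0x119) (nat_lit 1) (p (nat_lit 0xc9) (nat_lit 0) (p (nat_lit 0x89) (nat_lit 1) (p (nat_lit 0x41) (nat_lit 0) (p (nat_lit 0x8078907089a) (nat_lit 0) (p (nat_lit 0x7870886861a) (nat_lit 0) (p (nat_lit 0x800070806078a) (nat_lit 0) (p (nat_lit 0x800068785850a) (nat_lit 0) (p (nat_lit 0x587050682) (nat_lit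 0) (p (nat_lit 0x506848402) (nat_lit 0) (p (nat_lit 0x160014) (nat_lit 0) (p (nat_lit 0x16000c) (nat_lit 0) (p (nat_lit 0x50612) (nat_lit 0) (p (nat_lit 0x40592) (nat_lit 0) (p (nat_lit 0x40492) (nat_lit 0) (p (nat_lit 0x30412) (nat_lit 0) (p (nat_lit 0x30212) (nat_lit 0) (p (nat_lit 0x20192) (nat_lit 0) (p (nat_lit 0x20092) (nat_lit 0) (p (nat_lit 0x10012) (nat_lit 0) pn)))))))))))))))))))))))))))) :=
  Cl.node (nat_lit 0x80004) (nat_lit 2) (by decide +kernel) (ClAll.succ (ClAll.succ ClAll.zero n329) n330)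

def n400 : Cl (O (nat_lit 1)) (R (nat_lit 104465))
    (p (nat_lit 0x101) (nat_lit 1) (p (nat_lit 0xb0014) (nat_lit 0) (p (nat_lit 0x200004) (nat_lit 0) (p (nat_lit 0x380c2) (nat_lit 0) (p (nat_lit 0x44c2a) (nat_lit 0) (p (nat_lit 0x111) (nat_lit 0) (p (nat_lit 0x101) (nat_lit 0) (p (nat_lit 0xc1) (nat_lit 1) (p (nat_lit 0x119) (nat_lit 1) (p (nat_lit 0xc9) (nat_lit 0) (p (nat_lit 0x89) (nat_lit 1) (p (nat_lit 0x41) (nat_lit 0) (p (nat_lit 0x8078907089a) (nat_lit 0) (p (nat_lit 0x7870886861a) (nat_lit 0) (p (nat_lit 0x800070806078a) (nat_lit 0) (p (nat_lit 0x800068785850a) (nat_lit 0) (p (nat_lit 0x587050682) (nat_lit 0) (p (nat_lit 0x506848402) (nat_lit 0) (p (nat_lit 0x160014) (nat_lit 0) (p (nat_lit 0x16000c) (nat_lit 0) (p (nat_lit 0x50612) (nat_lit 0) (p (nat_lit 0x40592) (nat_lit 0) (p (nat_lit 0x40492) (nat_lit 0) (p (nat_lit 0x30412) (nat_lit 0) (p (nat_lit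 0x30212) (nat_lit 0) (p (nat_lit 0x20192) (nat_lit 0) (p (nat_lit 0x20092) (nat_lit 0) (p (nat_lit 0x10012) (nat_lit 0) pn)))))))))))))))))))))))))))) :=
  Cl.node (nat_lit 0x41) (nat_lit 2) (by decide +kernel) (ClAll.succ (ClAll.succ ClAll.zero s931) n331)

def n401 : Cl (O (nat_lit 1)) (R (nat_lit 104465))
    (p (nat_lit 0x109) (nat_lit 0) (p (nat_lit 0x200004) (nat_lit 0) (p (nat_lit 0xb0014) (nat_lit 0) (p (nat_lit 0x380c2) (nat_lit 0) (p (nat_lit 0x444aa) (nat_lit 7) (p (nat_lit 0x111) (nat_lit 1) (p (nat_lit 0x101) (nat_lit 0) (p (nat_lit 0xc1) (nat_lit 1) (p (nat_lit 0x119) (nat_lit 1) (p (nat_lit 0xc9) (nat_lit 0) (p (nat_lit 0x89) (nat_lit 1) (p (nat_lit 0x41) (nat_lit 0) (p (nat_lit 0x8078907089a) (nat_lit 0) (p (nat_lit 0x7870886861a) (nat_lit 0) (p (nat_lit 0x800070806078a) (nat_lit 0) (p (nat_lit 0x800068785850a) (nat_lit 0) (p (nat_lit 0x587050682) (nat_lit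 0) (p (nat_lit 0x506848402) (nat_lit 0) (p (nat_lit 0x160014) (nat_lit 0) (p (nat_lit 0x16000c) (nat_lit 0) (p (nat_lit 0x50612) (nat_lit 0) (p (nat_lit 0x40592) (nat_lit 0) (p (nat_lit 0x40492) (nat_lit 0) (p (nat_lit 0x30412) (nat_lit 0) (p (nat_lit 0x30212) (nat_lit 0) (p (nat_lit 0x20192) (nat_lit 0) (p (nat_lit 0x20092) (nat_lit 0) (p (nat_lit 0x10012) (nat_lit 0) pn)))))))))))))))))))))))))))) :=
  Cl.node (nat_lit 0x111) (nat_lit 2) (by decide +kernel) (ClAll.succ (ClAll.succ ClAll.zero s958) s959)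

def n402 : Cl (O (nat_lit 1)) (R (nat_lit 104465))
    (p (nat_lit 0xb000c) (nat_lit 0) (p (nat_lit 0x1fc004) (nat_lit 0) (p (nat_lit 0xb0014) (nat_lit 1) (p (nat_lit 0x380c2) (nat_lit 0) (p (nat_lit 0x444aa) (nat_lit 7) (p (nat_lit 0x111) (nat_lit 1) (p (nat_lit 0x101) (nat_lit 0) (p (nat_lit 0xc1) (nat_lit 1) (p (nat_lit 0x119) (nat_lit 1) (p (nat_lit 0xc9) (nat_lit 0) (p (nat_lit 0x89) (nat_lit 1) (p (nat_lit 0x41) (nat_lit 0) (p (nat_lit 0x8078907089a) (nat_lit 0) (p (nat_lit 0x7870886861a) (nat_lit 0) (p (nat_lit 0x800070806078a) (nat_lit 0) (p (nat_lit 0x800068785850a) (nat_lit 0) (p (nat_lit 0x587050682) (nat_lit 0) (p (nat_lit 0x506848402) (nat_lit 0) (p (nat_lit 0x160014) (nat_lit 0) (p (nat_lit 0x16000c) (nat_lit 0) (p (nat_lit 0x50612) (nat_lit 0) (p (nat_lit 0x40592) (nat_lit 0) (p (nat_lit 0x40492) (nat_lit 0) (p (nat_lit 0x30412) (nat_lit 0) (p (nat_lit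 0x30212) (nat_lit 0) (p (nat_lit 0x20192) (nat_lit 0) (p (nat_lit 0x20092) (nat_lit 0) (p (nat_lit 0x10012) (nat_lit 0) pn)))))))))))))))))))))))))))) :=
  Cl.node (nat_lit 0x2a8258a8b89890a) (nat_lit 1) (by decide +kernel) (ClAll.succ ClAll.zero n332)

def n403 : Cl (O (nat_lit 1)) (R (nat_lit 104465))
    (p (nat_lit 0x109) (nat_lit 0) (p (nat_lit 0x100004) (nat_lit 0) (p (nat_lit 0x200004) (nat_lit 0) (p (nat_lit 0x380c2) (nat_lit 1) (p (nat_lit 0x444aa) (nat_lit 7) (p (nat_lit 0x111) (nat_lit 1) (p (nat_lit 0x101) (nat_lit 0) (p (nat_lit 0xc1) (nat_lit 1) (p (nat_lit 0x119) (nat_lit 1) (p (nat_lit 0xc9) (nat_lit 0) (p (nat_lit 0x89) (nat_lit 1) (p (nat_lit 0x41) (nat_lit 0) (p (nat_lit 0x8078907089a) (nat_lit 0) (p (nat_lit 0x7870886861a) (nat_lit 0) (p (nat_lit 0x800070806078a) (nat_lit 0) (p (nat_lit 0x800068785850a) (nat_lit 0) (p (nat_lit 0x587050682) (nat_lit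 0) (p (nat_lit 0x506848402) (nat_lit 0) (p (nat_lit 0x160014) (nat_lit 0) (p (nat_lit 0x16000c) (nat_lit 0) (p (nat_lit 0x50612) (nat_lit 0) (p (nat_lit 0x40592) (nat_lit 0) (p (nat_lit 0x40492) (nat_lit 0) (p (nat_lit 0x30412) (nat_lit 0) (p (nat_lit 0x30212) (nat_lit 0) (p (nat_lit 0x20192) (nat_lit 0) (p (nat_lit 0x20092) (nat_lit 0) (p (nat_lit 0x10012) (nat_lit 0) pn)))))))))))))))))))))))))))) :=
  Cl.node (nat_lit 0xb000c) (nat_lit 2) (by decide +kernel) (ClAll.succ (ClAll.succ ClAll.zero n333) s969)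

def n404 : Cl (O (nat_lit 1)) (R (nat_lit 104465))
    (p (nat_lit 0x100004) (nat_lit 1) (p (nat_lit 0xb000c) (nat_lit 0) (p (nat_lit 0x200004) (nat_lit 0) (p (nat_lit 0x380c2) (nat_lit 0) (p (nat_lit 0x444aa) (nat_lit 7) (p (nat_lit 0x119) (nat_lit 1) (p (nat_lit 0x111) (nat_lit 0) (p (nat_lit 0x101) (nat_lit 0) (p (nat_lit 0x109) (nat_lit 0) (p (nat_lit 0xc9) (nat_lit 1) (p (nat_lit 0x89) (nat_lit 1) (p (nat_lit 0x41) (nat_lit 0) (p (nat_lit 0x8078907089a) (nat_lit 0) (p (nat_lit 0x7870886861a) (nat_lit 0) (p (nat_lit 0x800070806078a) (nat_lit 0) (p (nat_lit 0x800068785850a) (nat_lit 0) (p (nat_lit 0x587050682) (nat_lit 0) (p (nat_lit 0x506848402) (nat_lit 0) (p (nat_lit 0x160014) (nat_lit 0) (p (nat_lit 0x16000c) (nat_lit 0) (p (nat_lit 0x50612) (nat_lit 0) (p (nat_lit 0x40592) (nat_lit 0) (p (nat_lit 0x40492) (nat_lit 0) (p (nat_lit 0x30412) (nat_lit 0) (p (nat_lit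 0x30212) (nat_lit 0) (p (nat_lit 0x20192) (nat_lit 0) (p (nat_lit 0x20092) (nat_lit 0) (p (nat_lit 0x10012) (nat_lit 0) pn)))))))))))))))))))))))))))) :=
  Cl.node (nat_lit 0x108014) (nat_lit 2) (by decide +kernel) (ClAll.succ (ClAll.succ ClAll.zero n334) s1001)

def n405 : Cl (O (nat_lit 1)) (R (nat_lit 104465))
    (p (nat_lit 0xd1) (nat_lit 1) (p (nat_lit 0x200004) (nat_lit 0) (p (nat_lit 0x380c2) (nat_lit 0) (p (nat_lit 0x4c42a) (nat_lit 10) (p (nat_lit 0xc9) (nat_lit 0) (p (nat_lit 0x89) (nat_lit 1) (p (nat_lit 0x109) (nat_lit 1) (p (nat_lit 0x101) (nat_lit 0) (p (nat_lit 0x119) (nat_lit 0) (p (nat_lit 0xd1) (nat_lit 0) (p (nat_lit 0x81) (nat_lit 0) (p (nat_lit 0x41) (nat_lit 1) (p (nat_lit 0x8078907089a) (nat_lit 0) (p (nat_lit 0x7870886861a) (nat_lit 0) (p (nat_lit 0x800070806078a) (nat_lit 0) (p (nat_lit 0x800068785850a) (nat_lit 0) (p (nat_lit 0x587050682) (nat_lit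 0) (p (nat_lit 0x506848402) (nat_lit 0) (p (nat_lit 0x160014) (nat_lit 0) (p (nat_lit 0x16000c) (nat_lit 0) (p (nat_lit 0x50612) (nat_lit 0) (p (nat_lit 0x40592) (nat_lit 0) (p (nat_lit 0x40492) (nat_lit 0) (p (nat_lit 0x30412) (nat_lit 0) (p (nat_lit 0x30212) (nat_lit 0) (p (nat_lit 0x20192) (nat_lit 0) (p (nat_lit 0x20092) (nat_lit 0) (p (nat_lit 0x10012) (nat_lit 0) pn)))))))))))))))))))))))))))) :=
  Cl.node (nat_lit 0x444aa) (nat_lit 12) (by decide +kernel) (ClAll.succ (ClAll.succ (ClAll.succ (ClAll.succ (ClAll.succ (ClAll.succ (ClAll.succ (ClAll.succ (ClAll.succ (ClAll.succ (ClAll.succ (ClAll.succ ClAll.zero s1066) s1067) s1068) s1069) s1070) s1071) s1072) n335) s1076) s1077) s1078) s1079)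

def n406 : Cl (O (nat_lit 1)) (R (nat_lit 104465))
    (p (nat_lit 0x100004) (nat_lit 0) (p (nat_lit 0x200004) (nat_lit 0) (p (nat_lit 0x380c2) (nat_lit 0) (p (nat_lit 0x4c42a) (nat_lit 10) (p (nat_lit 0xc9) (nat_lit 0) (p (nat_lit 0x89) (nat_lit 1) (p (nat_lit 0xc1) (nat_lit 0) (p (nat_lit 0x101) (nat_lit 1) (p (nat_lit 0x119) (nat_lit 0) (p (nat_lit 0xd1) (nat_lit 0) (p (nat_lit 0x81) (nat_lit 0) (p (nat_lit 0x41) (nat_lit 1) (p (nat_lit 0x8078907089a) (nat_lit 0) (p (nat_lit 0x7870886861a) (nat_lit 0) (p (nat_lit 0x800070806078a) (nat_lit 0) (p (nat_lit 0x800068785850a) (nat_lit 0) (p (nat_lit 0x587050682) (nat_lit 0) (p (nat_lit 0x506848402) (nat_lit 0) (p (nat_lit 0x160014) (nat_lit 0) (p (nat_lit 0x16000c) (nat_lit 0) (p (nat_lit 0x50612) (nat_lit 0) (p (nat_lit 0x40592) (nat_lit 0) (p (nat_lit 0x40492) (nat_lit 0) (p (nat_lit 0x30412) (nat_lit 0) (p (nat_lit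 0x30212) (nat_lit 0) (p (nat_lit 0x20192) (nat_lit 0) (p (nat_lit 0x20092) (nat_lit 0) (p (nat_lit 0x10012) (nat_lit 0) pn)))))))))))))))))))))))))))) :=
  Cl.node (nat_lit 0xd1) (nat_lit 2) (by decide +kernel) (ClAll.succ (ClAll.succ ClAll.zero s1122) n336)

def n407 : Cl (O (nat_lit 1)) (R (nat_lit 104465))
    (p (nat_lit 0x101) (nat_lit 0) (p (nat_lit 0xb000c) (nat_lit 0) (p (nat_lit 0xb0014) (nat_lit 0) (p (nat_lit 0x380c2) (nat_lit 0) (p (nat_lit 0x3cc2a) (nat_lit 2) (p (nat_lit 0x89) (nat_lit 0) (p (nat_lit 0xc1) (nat_lit 1) (p (nat_lit 0x101) (nat_lit 1) (p (nat_lit 0x119) (nat_lit 0) (p (nat_lit 0xd1) (nat_lit 0) (p (nat_lit 0x81) (nat_lit 0) (p (nat_lit 0x41) (nat_lit 1) (p (nat_lit 0x8078907089a) (nat_lit 0) (p (nat_lit 0x7870886861a) (nat_lit 0) (p (nat_lit 0x800070806078a) (nat_lit 0) (p (nat_lit 0x800068785850a) (nat_lit 0) (p (nat_lit 0x587050682) (nat_lit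 0) (p (nat_lit 0x506848402) (nat_lit 0) (p (nat_lit 0x160014) (nat_lit 0) (p (nat_lit 0x16000c) (nat_lit 0) (p (nat_lit 0x50612) (nat_lit 0) (p (nat_lit 0x40592) (nat_lit 0) (p (nat_lit 0x40492) (nat_lit 0) (p (nat_lit 0x30412) (nat_lit 0) (p (nat_lit 0x30212) (nat_lit 0) (p (nat_lit 0x20192) (nat_lit 0) (p (nat_lit 0x20092) (nat_lit 0) (p (nat_lit 0x10012) (nat_lit 0) pn)))))))))))))))))))))))))))) :=
  Cl.node (nat_lit 0x109) (nat_lit 2) (by decide +kernel) (ClAll.succ (ClAll.succ ClAll.zero s1155) n337)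

def n408 : Cl (O (nat_lit 1)) (R (nat_lit 104465))
    (p (nat_lit 0x101) (nat_lit 1) (p (nat_lit 0xb000c) (nat_lit 0) (p (nat_lit 0xb0014) (nat_lit 0) (p (nat_lit 0x380c2) (nat_lit 0) (p (nat_lit 0x3cc2a) (nat_lit 2) (p (nat_lit 0x89) (nat_lit 0) (p (nat_lit 0xc1) (nat_lit 1) (p (nat_lit 0x101) (nat_lit 1) (p (nat_lit 0x119) (nat_lit 0) (p (nat_lit 0xd1) (nat_lit 0) (p (nat_lit 0x81) (nat_lit 0) (p (nat_lit 0x41) (nat_lit 1) (p (nat_lit 0x8078907089a) (nat_lit 0) (p (nat_lit 0x7870886861a) (nat_lit 0) (p (nat_lit 0x800070806078a) (nat_lit 0) (p (nat_lit 0x800068785850a) (nat_lit 0) (p (nat_lit 0x587050682) (nat_lit 0) (p (nat_lit 0x506848402) (nat_lit 0) (p (nat_lit 0x160014) (nat_lit 0) (p (nat_lit 0x16000c) (nat_lit 0) (p (nat_lit 0x50612) (nat_lit 0) (p (nat_lit 0x40592) (nat_lit 0) (p (nat_lit 0x40492) (nat_lit 0) (p (nat_lit 0x30412) (nat_lit 0) (p (nat_lit 0x30212)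 (nat_lit 0) (p (nat_lit 0x20192) (nat_lit 0) (p (nat_lit 0x20092) (nat_lit 0) (p (nat_lit 0x10012) (nat_lit 0) pn)))))))))))))))))))))))))))) :=
  Cl.node (nat_lit 0x89) (nat_lit 2) (by decide +kernel) (ClAll.succ (ClAll.succ ClAll.zero s1167) n338)

def n409 : Cl (O (nat_lit 1)) (R (nat_lit 104465))
    (p (nat_lit 0x1fc004) (nat_lit 0) (p (nat_lit 0xb000c) (nat_lit 1) (p (nat_lit 0xb0014) (nat_lit 0) (p (nat_lit 0x380c2) (nat_lit 0) (p (nat_lit 0x3cc2a) (nat_lit 2) (p (nat_lit 0x89) (nat_lit 0) (p (nat_lit 0xc1) (nat_lit 1) (p (nat_lit 0x101) (nat_lit 1) (p (nat_lit 0x119) (nat_lit 0) (p (nat_lit 0xd1) (nat_lit 0) (p (nat_lit 0x81) (nat_lit 0) (p (nat_lit 0x41) (nat_lit 1) (p (nat_lit 0x8078907089a) (nat_lit 0) (p (nat_lit 0x7870886861a) (nat_lit 0) (p (nat_lit 0x800070806078a) (nat_lit 0) (p (nat_lit 0x800068785850a) (nat_lit 0) (p (nat_lit 0x587050682) (nat_lit 0)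 (p (nat_lit 0x506848402) (nat_lit 0) (p (nat_lit 0x160014) (nat_lit 0) (p (nat_lit 0x16000c) (nat_lit 0) (p (nat_lit 0x50612) (nat_lit 0) (p (nat_lit 0x40592) (nat_lit 0) (p (nat_lit 0x40492) (nat_lit 0) (p (nat_lit 0x30412) (nat_lit 0) (p (nat_lit 0x30212) (nat_lit 0) (p (nat_lit 0x20192) (nat_lit 0) (p (nat_lit 0x20092) (nat_lit 0) (p (nat_lit 0x10012) (nat_lit 0) pn)))))))))))))))))))))))))))) :=
  Cl.node (nat_lit 0x100004) (nat_lit 2) (by decide +kernel) (ClAll.succ (ClAll.succ ClAll.zero n339) s1174)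

def n410 : Cl (O (nat_lit 1)) (R (nat_lit 104465))
    (p (nat_lit 0xb0014) (nat_lit 0) (p (nat_lit 0xc9) (nat_lit 0) (p (nat_lit 0x101) (nat_lit 0) (p (nat_lit 0x380c2) (nat_lit 0) (p (nat_lit 0x3c4aa) (nat_lit 8) (p (nat_lit 0x89) (nat_lit 1) (p (nat_lit 0xc1) (nat_lit 1) (p (nat_lit 0x101) (nat_lit 1) (p (nat_lit 0x119) (nat_lit 0) (p (nat_lit 0xd1) (nat_lit 0) (p (nat_lit 0x81) (nat_lit 0) (p (nat_lit 0x41) (nat_lit 1) (p (nat_lit 0x8078907089a) (nat_lit 0) (p (nat_lit 0x7870886861a) (nat_lit 0) (p (nat_lit 0x800070806078a) (nat_lit 0) (p (nat_lit 0x800068785850a) (nat_lit 0) (p (nat_lit 0x587050682) (nat_lit 0) (p (nat_lit 0x506848402) (nat_lit 0) (p (nat_lit 0x160014) (nat_lit 0) (p (nat_lit 0x16000c) (nat_lit 0) (p (nat_lit 0x50612) (nat_lit 0) (p (nat_lit 0x40592) (nat_lit 0) (p (nat_lit 0x40492) (nat_lit 0) (p (nat_lit 0x30412) (nat_lit 0) (p (nat_lit 0x30212)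 (nat_lit 0) (p (nat_lit 0x20192) (nat_lit 0) (p (nat_lit 0x20092) (nat_lit 0) (p (nat_lit 0x10012) (nat_lit 0) pn)))))))))))))))))))))))))))) :=
  Cl.node (nat_lit 0xd1) (nat_lit 2) (by decide +kernel) (ClAll.succ (ClAll.succ ClAll.zero s1200) s1201)

def n411 : Cl (O (nat_lit 1)) (R (nat_lit 104465))
    (p (nat_lit 0xc9) (nat_lit 0) (p (nat_lit 0xc1) (nat_lit 0) (p (nat_lit 0x101) (nat_lit 1) (p (nat_lit 0x380c2) (nat_lit 0) (p (nat_lit 0x3c4aa) (nat_lit 8) (p (nat_lit 0x89) (nat_lit 1) (p (nat_lit 0xc1) (nat_lit 1) (p (nat_lit 0x101) (nat_lit 1) (p (nat_lit 0x119) (nat_lit 0) (p (nat_lit 0xd1) (nat_lit 0) (p (nat_lit 0x81) (nat_lit 0) (p (nat_lit 0x41) (nat_lit 1) (p (nat_lit 0x8078907089a) (nat_lit 0) (p (nat_lit 0x7870886861a) (nat_lit 0) (p (nat_lit 0x800070806078a) (nat_lit 0) (p (nat_lit 0x800068785850a) (nat_lit 0) (p (nat_lit 0x587050682) (nat_lit 0) (p (nat_lit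 0x506848402) (nat_lit 0) (p (nat_lit 0x160014) (nat_lit 0) (p (nat_lit 0x16000c) (nat_lit 0) (p (nat_lit 0x50612) (nat_lit 0) (p (nat_lit 0x40592) (nat_lit 0) (p (nat_lit 0x40492) (nat_lit 0) (p (nat_lit 0x30412) (nat_lit 0) (p (nat_lit 0x30212) (nat_lit 0) (p (nat_lit 0x20192) (nat_lit 0) (p (nat_lit 0x20092) (nat_lit 0) (p (nat_lit 0x10012) (nat_lit 0) pn)))))))))))))))))))))))))))) :=
  Cl.node (nat_lit 0xc9) (nat_lit 2) (by decide +kernel) (ClAll.succ (ClAll.succ ClAll.zero s1204) s1205)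

def n412 : Cl (O (nat_lit 1)) (R (nat_lit 104465))
    (p (nat_lit 0x109) (nat_lit 1) (p (nat_lit 0x200004) (nat_lit 0) (p (nat_lit 0x380c2) (nat_lit 0) (p (nat_lit 0x44c2a) (nat_lit 0) (p (nat_lit 0x109) (nat_lit 0) (p (nat_lit 0x89) (nat_lit 1) (p (nat_lit 0xc9) (nat_lit 1) (p (nat_lit 0xc1) (nat_lit 0) (p (nat_lit 0x119) (nat_lit 1) (p (nat_lit 0xd1) (nat_lit 0) (p (nat_lit 0x81) (nat_lit 0) (p (nat_lit 0x41) (nat_lit 1) (p (nat_lit 0x8078907089a) (nat_lit 0) (p (nat_lit 0x7870886861a) (nat_lit 0) (p (nat_lit 0x800070806078a) (nat_lit 0) (p (nat_lit 0x800068785850a) (nat_lit 0) (p (nat_lit 0x587050682) (nat_lit 0) (p (nat_lit 0x506848402) (nat_lit 0) (p (nat_lit 0x160014) (nat_lit 0) (p (nat_lit 0x16000c) (nat_lit 0) (p (nat_lit 0x50612) (nat_lit 0) (p (nat_lit 0x40592) (nat_lit 0) (p (nat_lit 0x40492) (nat_lit 0) (p (nat_lit 0x30412) (nat_lit 0) (p (nat_lit 0x30212)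 (nat_lit 0) (p (nat_lit 0x20192) (nat_lit 0) (p (nat_lit 0x20092) (nat_lit 0) (p (nat_lit 0x10012) (nat_lit 0) pn)))))))))))))))))))))))))))) :=
  Cl.node (nat_lit 0xb000c) (nat_lit 2) (by decide +kernel) (ClAll.succ (ClAll.succ ClAll.zero s1217) s1218)

def n413 : Cl (O (nat_lit 1)) (R (nat_lit 104465))
    (p (nat_lit 0xc9) (nat_lit 0) (p (nat_lit 0xb000c) (nat_lit 0) (p (nat_lit 0x380c2) (nat_lit 0) (p (nat_lit 0x3c4aa) (nat_lit 8) (p (nat_lit 0x109) (nat_lit 1) (p (nat_lit 0x89) (nat_lit 1) (p (nat_lit 0xc9) (nat_lit 1) (p (nat_lit 0xc1) (nat_lit 0) (p (nat_lit 0x119) (nat_lit 1) (p (nat_lit 0xd1) (nat_lit 0) (p (nat_lit 0x81) (nat_lit 0) (p (nat_lit 0x41) (nat_lit 1) (p (nat_lit 0x8078907089a) (nat_lit 0) (p (nat_lit 0x7870886861a) (nat_lit 0) (p (nat_lit 0x800070806078a) (nat_lit 0) (p (nat_lit 0x800068785850a) (nat_lit 0) (p (nat_lit 0x587050682) (nat_lit 0) (p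 (nat_lit 0x506848402) (nat_lit 0) (p (nat_lit 0x160014) (nat_lit 0) (p (nat_lit 0x16000c) (nat_lit 0) (p (nat_lit 0x50612) (nat_lit 0) (p (nat_lit 0x40592) (nat_lit 0) (p (nat_lit 0x40492) (nat_lit 0) (p (nat_lit 0x30412) (nat_lit 0) (p (nat_lit 0x30212) (nat_lit 0) (p (nat_lit 0x20192) (nat_lit 0) (p (nat_lit 0x20092) (nat_lit 0) (p (nat_lit 0x10012) (nat_lit 0) pn)))))))))))))))))))))))))))) :=
  Cl.node (nat_lit 0xd1) (nat_lit 2) (by decide +kernel) (ClAll.succ (ClAll.succ ClAll.zero s1241) s1242)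

def n414 : Cl (O (nat_lit 1)) (R (nat_lit 104465))
    (p (nat_lit 0x81) (nat_lit 0) (p (nat_lit 0xb000c) (nat_lit 0) (p (nat_lit 0x380c2) (nat_lit 0) (p (nat_lit 0x3c4aa) (nat_lit 8) (p (nat_lit 0x109) (nat_lit 1) (p (nat_lit 0x89) (nat_lit 1) (p (nat_lit 0x101) (nat_lit 0) (p (nat_lit 0xc1) (nat_lit 1) (p (nat_lit 0x119) (nat_lit 1) (p (nat_lit 0xd1) (nat_lit 0) (p (nat_lit 0x81) (nat_lit 0) (p (nat_lit 0x41) (nat_lit 1) (p (nat_lit 0x8078907089a) (nat_lit 0) (p (nat_lit 0x7870886861a) (nat_lit 0) (p (nat_lit 0x800070806078a) (nat_lit 0) (p (nat_lit 0x800068785850a) (nat_lit 0) (p (nat_lit 0x587050682) (nat_lit 0) (p (nat_lit 0x506848402) (nat_lit 0) (p (nat_lit 0x160014) (nat_lit 0) (p (nat_lit 0x16000c) (nat_lit 0) (p (nat_lit 0x50612) (nat_lit 0) (p (nat_lit 0x40592) (nat_lit 0) (p (nat_lit 0x40492) (nat_lit 0) (p (nat_lit 0x30412) (nat_lit 0) (p (nat_lit 0x30212)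 (nat_lit 0) (p (nat_lit 0x20192) (nat_lit 0) (p (nat_lit 0x20092) (nat_lit 0) (p (nat_lit 0x10012) (nat_lit 0) pn)))))))))))))))))))))))))))) :=
  Cl.node (nat_lit 0x119) (nat_lit 2) (by decide +kernel) (ClAll.succ (ClAll.succ ClAll.zero s1284) n340)

def n415 : Cl (O (nat_lit 1)) (R (nat_lit 104465))
    (p (nat_lit 0x1fc004) (nat_lit 0) (p (nat_lit 0xb000c) (nat_lit 1) (p (nat_lit 0x380c2) (nat_lit 0) (p (nat_lit 0x3c4aa) (nat_lit 8) (p (nat_lit 0x109) (nat_lit 1) (p (nat_lit 0x89) (nat_lit 1) (p (nat_lit 0x101) (nat_lit 0) (p (nat_lit 0xc1) (nat_lit 1) (p (nat_lit 0x119) (nat_lit 1) (p (nat_lit 0xd1) (nat_lit 0) (p (nat_lit 0x81) (nat_lit 0) (p (nat_lit 0x41) (nat_lit 1) (p (nat_lit 0x8078907089a) (nat_lit 0) (p (nat_lit 0x7870886861a) (nat_lit 0) (p (nat_lit 0x800070806078a) (nat_lit 0) (p (nat_lit 0x800068785850a) (nat_lit 0) (p (nat_lit 0x587050682) (nat_lit 0)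 (p (nat_lit 0x506848402) (nat_lit 0) (p (nat_lit 0x160014) (nat_lit 0) (p (nat_lit 0x16000c) (nat_lit 0) (p (nat_lit 0x50612) (nat_lit 0) (p (nat_lit 0x40592) (nat_lit 0) (p (nat_lit 0x40492) (nat_lit 0) (p (nat_lit 0x30412) (nat_lit 0) (p (nat_lit 0x30212) (nat_lit 0) (p (nat_lit 0x20192) (nat_lit 0) (p (nat_lit 0x20092) (nat_lit 0) (p (nat_lit 0x10012) (nat_lit 0) pn)))))))))))))))))))))))))))) :=
  Cl.node (nat_lit 0xb0014) (nat_lit 2) (by decide +kernel) (ClAll.succ (ClAll.succ ClAll.zero n341) s1303)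

def n416 : Cl (O (nat_lit 1)) (R (nat_lit 104465))
    (p (nat_lit 0x200004) (nat_lit 0) (p (nat_lit 0x380c2) (nat_lit 0) (p (nat_lit 0x4c42a) (nat_lit 10) (p (nat_lit 0x119) (nat_lit 0) (p (nat_lit 0xc9) (nat_lit 0) (p (nat_lit 0x89) (nat_lit 1) (p (nat_lit 0x109) (nat_lit 1) (p (nat_lit 0x101) (nat_lit 0) (p (nat_lit 0x111) (nat_lit 0) (p (nat_lit 0xd1) (nat_lit 1) (p (nat_lit 0x81) (nat_lit 0) (p (nat_lit 0x41) (nat_lit 1) (p (nat_lit 0x8078907089a) (nat_lit 0) (p (nat_lit 0x7870886861a) (nat_lit 0) (p (nat_lit 0x800070806078a) (nat_lit 0) (p (nat_lit 0x800068785850a) (nat_lit 0) (p (nat_lit 0x587050682) (nat_lit 0) (p (nat_lit 0x506848402) (nat_lit 0) (p (nat_lit 0x160014) (nat_lit 0) (p (nat_lit 0x16000c) (nat_lit 0) (p (nat_lit 0x50612) (nat_lit 0) (p (nat_lit 0x40592) (nat_lit 0) (p (nat_lit 0x40492) (nat_lit 0) (p (nat_lit 0x30412) (nat_lit 0) (p (nat_lit 0x30212)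 (nat_lit 0) (p (nat_lit 0x20192) (nat_lit 0) (p (nat_lit 0x20092) (nat_lit 0) (p (nat_lit 0x10012) (nat_lit 0) pn)))))))))))))))))))))))))))) :=
  Cl.node (nat_lit 0x444aa) (nat_lit 12) (by decide +kernel) (ClAll.succ (ClAll.succ (ClAll.succ (ClAll.succ (ClAll.succ (ClAll.succ (ClAll.succ (ClAll.succ (ClAll.succ (ClAll.succ (ClAll.succ (ClAll.succ ClAll.zero s1374) s1375) s1376) s1377) s1378) s1379) s1380) n342) s1383) s1384) s1385) s1386)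

def n417 : Cl (O (nat_lit 1)) (R (nat_lit 104465))
    (p (nat_lit 0x200004) (nat_lit 0) (p (nat_lit 0x380c2) (nat_lit 1) (p (nat_lit 0x4c42a) (nat_lit 10) (p (nat_lit 0x119) (nat_lit 0) (p (nat_lit 0xc9) (nat_lit 0) (p (nat_lit 0x89) (nat_lit 1) (p (nat_lit 0x109) (nat_lit 1) (p (nat_lit 0x101) (nat_lit 0) (p (nat_lit 0x111) (nat_lit 0) (p (nat_lit 0xd1) (nat_lit 1) (p (nat_lit 0x81) (nat_lit 0) (p (nat_lit 0x41) (nat_lit 1) (p (nat_lit 0x8078907089a) (nat_lit 0) (p (nat_lit 0x7870886861a) (nat_lit 0) (p (nat_lit 0x800070806078a) (nat_lit 0) (p (nat_lit 0x800068785850a) (nat_lit 0) (p (nat_lit 0x587050682) (nat_lit 0) (p (nat_lit 0x506848402) (nat_lit 0) (p (nat_lit 0x160014) (nat_lit 0) (p (nat_lit 0x16000c) (nat_lit 0) (p (nat_lit 0x50612) (nat_lit 0) (p (nat_lit 0x40592) (nat_lit 0) (p (nat_lit 0x40492) (nat_lit 0) (p (nat_lit 0x30412) (nat_lit 0) (p (nat_lit 0x30212)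 (nat_lit 0) (p (nat_lit 0x20192) (nat_lit 0) (p (nat_lit 0x20092) (nat_lit 0) (p (nat_lit 0x10012) (nat_lit 0) pn)))))))))))))))))))))))))))) :=
  Cl.node (nat_lit 0x100004) (nat_lit 2) (by decide +kernel) (ClAll.succ (ClAll.succ ClAll.zero n343) s1403)

def n418 : Cl (O (nat_lit 1)) (R (nat_lit 104465))
    (p (nat_lit 0x200004) (nat_lit 0) (p (nat_lit 0x380c2) (nat_lit 0) (p (nat_lit 0x4c42a) (nat_lit 10) (p (nat_lit 0x119) (nat_lit 1) (p (nat_lit 0xc9) (nat_lit 0) (p (nat_lit 0x89) (nat_lit 1) (p (nat_lit 0x109) (nat_lit 1) (p (nat_lit 0x101) (nat_lit 0) (p (nat_lit 0x111) (nat_lit 0) (p (nat_lit 0xd1) (nat_lit 1) (p (nat_lit 0x81) (nat_lit 0) (p (nat_lit 0x41) (nat_lit 1) (p (nat_lit 0x8078907089a) (nat_lit 0) (p (nat_lit 0x7870886861a) (nat_lit 0) (p (nat_lit 0x800070806078a) (nat_lit 0) (p (nat_lit 0x800068785850a) (nat_lit 0) (p (nat_lit 0x587050682) (nat_lit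 0) (p (nat_lit 0x506848402) (nat_lit 0) (p (nat_lit 0x160014) (nat_lit 0) (p (nat_lit 0x16000c) (nat_lit 0) (p (nat_lit 0x50612) (nat_lit 0) (p (nat_lit 0x40592) (nat_lit 0) (p (nat_lit 0x40492) (nat_lit 0) (p (nat_lit 0x30412) (nat_lit 0) (p (nat_lit 0x30212) (nat_lit 0) (p (nat_lit 0x20192) (nat_lit 0) (p (nat_lit 0x20092) (nat_lit 0) (p (nat_lit 0x10012) (nat_lit 0) pn)))))))))))))))))))))))))))) :=
  Cl.node (nat_lit 0x100004) (nat_lit 2) (by decide +kernel) (ClAll.succ (ClAll.succ ClAll.zero n344) s1456)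

def n419 : Cl (O (nat_lit 1)) (R (nat_lit 104465))
    (p (nat_lit 0x200004) (nat_lit 0) (p (nat_lit 0x380c2) (nat_lit 1) (p (nat_lit 0x4c42a) (nat_lit 10) (p (nat_lit 0x119) (nat_lit 1) (p (nat_lit 0xc9) (nat_lit 0) (p (nat_lit 0x89) (nat_lit 1) (p (nat_lit 0x109) (nat_lit 1) (p (nat_lit 0x101) (nat_lit 0) (p (nat_lit 0x111) (nat_lit 0) (p (nat_lit 0xd1) (nat_lit 1) (p (nat_lit 0x81) (nat_lit 0) (p (nat_lit 0x41) (nat_lit 1) (p (nat_lit 0x8078907089a) (nat_lit 0) (p (nat_lit 0x7870886861a) (nat_lit 0) (p (nat_lit 0x800070806078a) (nat_lit 0) (p (nat_lit 0x800068785850a) (nat_lit 0) (p (nat_lit 0x587050682) (nat_lit 0) (p (nat_lit 0x506848402) (nat_lit 0) (p (nat_lit 0x160014) (nat_lit 0) (p (nat_lit 0x16000c) (nat_lit 0) (p (nat_lit 0x50612) (nat_lit 0) (p (nat_lit 0x40592) (nat_lit 0) (p (nat_lit 0x40492) (nat_lit 0) (p (nat_lit 0x30412) (nat_lit 0) (p (nat_lit 0x30212)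 (nat_lit 0) (p (nat_lit 0x20192) (nat_lit 0) (p (nat_lit 0x20092) (nat_lit 0) (p (nat_lit 0x10012) (nat_lit 0) pn)))))))))))))))))))))))))))) :=
  Cl.node (nat_lit 0x100004) (nat_lit 2) (by decide +kernel) (ClAll.succ (ClAll.succ ClAll.zero n345) n346)

def n420 : Cl (O (nat_lit 1)) (R (nat_lit 104465))
    (p (nat_lit 0xb0014) (nat_lit 0) (p (nat_lit 0x89) (nat_lit 1) (p (nat_lit 0xb000c) (nat_lit 0) (p (nat_lit 0xc9) (nat_lit 1) (p (nat_lit 0x380c2) (nat_lit 0) (p (nat_lit 0x3cc2a) (nat_lit 2) (p (nat_lit 0x89) (nat_lit 0) (p (nat_lit 0x101) (nat_lit 1) (p (nat_lit 0x111) (nat_lit 0) (p (nat_lit 0xd1) (nat_lit 1) (p (nat_lit 0x81) (nat_lit 0) (p (nat_lit 0x41) (nat_lit 1) (p (nat_lit 0x8078907089a) (nat_lit 0) (p (nat_lit 0x7870886861a) (nat_lit 0) (p (nat_lit 0x800070806078a) (nat_lit 0) (p (nat_lit 0x800068785850a) (nat_lit 0) (p (nat_lit 0x587050682) (nat_lit 0)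 (p (nat_lit 0x506848402) (nat_lit 0) (p (nat_lit 0x160014) (nat_lit 0) (p (nat_lit 0x16000c) (nat_lit 0) (p (nat_lit 0x50612) (nat_lit 0) (p (nat_lit 0x40592) (nat_lit 0) (p (nat_lit 0x40492) (nat_lit 0) (p (nat_lit 0x30412) (nat_lit 0) (p (nat_lit 0x30212) (nat_lit 0) (p (nat_lit 0x20192) (nat_lit 0) (p (nat_lit 0x20092) (nat_lit 0) (p (nat_lit 0x10012) (nat_lit 0) pn)))))))))))))))))))))))))))) :=
  Cl.node (nat_lit 0xc9) (nat_lit 2) (by decide +kernel) (ClAll.succ (ClAll.succ ClAll.zero s1506) s1507)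

def n421 : Cl (O (nat_lit 1)) (R (nat_lit 104465))
    (p (nat_lit 0x101) (nat_lit 0) (p (nat_lit 0xd1) (nat_lit 0) (p (nat_lit 0xb0014) (nat_lit 0) (p (nat_lit 0x380c2) (nat_lit 0) (p (nat_lit 0x3cc2a) (nat_lit 2) (p (nat_lit 0xc9) (nat_lit 0) (p (nat_lit 0x89) (nat_lit 1) (p (nat_lit 0x101) (nat_lit 1) (p (nat_lit 0x111) (nat_lit 0) (p (nat_lit 0xd1) (nat_lit 1) (p (nat_lit 0x81) (nat_lit 0) (p (nat_lit 0x41) (nat_lit 1) (p (nat_lit 0x8078907089a) (nat_lit 0) (p (nat_lit 0x7870886861a) (nat_lit 0) (p (nat_lit 0x800070806078a) (nat_lit 0) (p (nat_lit 0x800068785850a) (nat_lit 0) (p (nat_lit 0x587050682) (nat_lit 0) (p (nat_lit 0x506848402) (nat_lit 0) (p (nat_lit 0x160014) (nat_lit 0) (p (nat_lit 0x16000c) (nat_lit 0) (p (nat_lit 0x50612) (nat_lit 0) (p (nat_lit 0x40592) (nat_lit 0) (p (nat_lit 0x40492) (nat_lit 0) (p (nat_lit 0x30412) (nat_lit 0) (p (nat_lit 0x30212)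 (nat_lit 0) (p (nat_lit 0x20192) (nat_lit 0) (p (nat_lit 0x20092) (nat_lit 0) (p (nat_lit 0x10012) (nat_lit 0) pn)))))))))))))))))))))))))))) :=
  Cl.node (nat_lit 0xb000c) (nat_lit 2) (by decide +kernel) (ClAll.succ (ClAll.succ ClAll.zero n347) n348)

def n422 : Cl (O (nat_lit 1)) (R (nat_lit 104465))
    (p (nat_lit 0x3c4aa) (nat_lit 8) (p (nat_lit 0xd1) (nat_lit 1) (p (nat_lit 0xb0014) (nat_lit 0) (p (nat_lit 0x380c2) (nat_lit 0) (p (nat_lit 0x3cc2a) (nat_lit 2) (p (nat_lit 0xc9) (nat_lit 0) (p (nat_lit 0x89) (nat_lit 1) (p (nat_lit 0x101) (nat_lit 1) (p (nat_lit 0x111) (nat_lit 0) (p (nat_lit 0xd1) (nat_lit 1) (p (nat_lit 0x81) (nat_lit 0) (p (nat_lit 0x41) (nat_lit 1) (p (nat_lit 0x8078907089a) (nat_lit 0) (p (nat_lit 0x7870886861a) (nat_lit 0) (p (nat_lit 0x800070806078a) (nat_lit 0) (p (nat_lit 0x800068785850a) (nat_lit 0) (p (nat_lit 0x587050682) (nat_lit 0)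 (p (nat_lit 0x506848402) (nat_lit 0) (p (nat_lit 0x160014) (nat_lit 0) (p (nat_lit 0x16000c) (nat_lit 0) (p (nat_lit 0x50612) (nat_lit 0) (p (nat_lit 0x40592) (nat_lit 0) (p (nat_lit 0x40492) (nat_lit 0) (p (nat_lit 0x30412) (nat_lit 0) (p (nat_lit 0x30212) (nat_lit 0) (p (nat_lit 0x20192) (nat_lit 0) (p (nat_lit 0x20092) (nat_lit 0) (p (nat_lit 0x10012) (nat_lit 0) pn)))))))))))))))))))))))))))) :=
  Cl.node (nat_lit 0x380c2) (nat_lit 2) (by decide +kernel) (ClAll.succ (ClAll.succ ClAll.zero n349) s1545)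

def n423 : Cl (O (nat_lit 1)) (R (nat_lit 104465))
    (p (nat_lit 0xc9) (nat_lit 0) (p (nat_lit 0xb0014) (nat_lit 0) (p (nat_lit 0x380c2) (nat_lit 0) (p (nat_lit 0x3c4aa) (nat_lit 8) (p (nat_lit 0xd1) (nat_lit 1) (p (nat_lit 0x111) (nat_lit 1) (p (nat_lit 0x109) (nat_lit 0) (p (nat_lit 0x101) (nat_lit 0) (p (nat_lit 0x119) (nat_lit 0) (p (nat_lit 0xc1) (nat_lit 0) (p (nat_lit 0x81) (nat_lit 1) (p (nat_lit 0x41) (nat_lit 1) (p (nat_lit 0x8078907089a) (nat_lit 0) (p (nat_lit 0x7870886861a) (nat_lit 0) (p (nat_lit 0x800070806078a) (nat_lit 0) (p (nat_lit 0x800068785850a) (nat_lit 0) (p (nat_lit 0x587050682) (nat_lit 0) (p (nat_lit 0x506848402) (nat_lit 0) (p (nat_lit 0x160014) (nat_lit 0) (p (nat_lit 0x16000c) (nat_lit 0) (p (nat_lit 0x50612) (nat_lit 0) (p (nat_lit 0x40592) (nat_lit 0) (p (nat_lit 0x40492) (nat_lit 0) (p (nat_lit 0x30412) (nat_lit 0) (p (nat_lit 0x30212)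 (nat_lit 0) (p (nat_lit 0x20192) (nat_lit 0) (p (nat_lit 0x20092) (nat_lit 0) (p (nat_lit 0x10012) (nat_lit 0) pn)))))))))))))))))))))))))))) :=
  Cl.node (nat_lit 0xc1) (nat_lit 2) (by decide +kernel) (ClAll.succ (ClAll.succ ClAll.zero n350) s1618)

def n424 : Cl (O (nat_lit 1)) (R (nat_lit 104465))
    (p (nat_lit 0xc9) (nat_lit 1) (p (nat_lit 0xb000c) (nat_lit 0) (p (nat_lit 0x200004) (nat_lit 0) (p (nat_lit 0x380c2) (nat_lit 0) (p (nat_lit 0x44c2a) (nat_lit 0) (p (nat_lit 0xd1) (nat_lit 0) (p (nat_lit 0xc9) (nat_lit 0) (p (nat_lit 0x101) (nat_lit 1) (p (nat_lit 0x119) (nat_lit 0) (p (nat_lit 0xc1) (nat_lit 0) (p (nat_lit 0x81) (nat_lit 1) (p (nat_lit 0x41) (nat_lit 1) (p (nat_lit 0x8078907089a) (nat_lit 0) (p (nat_lit 0x7870886861a) (nat_lit 0) (p (nat_lit 0x800070806078a) (nat_lit 0) (p (nat_lit 0x800068785850a) (nat_lit 0) (p (nat_lit 0x587050682) (nat_lit 0) (p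 (nat_lit 0x506848402) (nat_lit 0) (p (nat_lit 0x160014) (nat_lit 0) (p (nat_lit 0x16000c) (nat_lit 0) (p (nat_lit 0x50612) (nat_lit 0) (p (nat_lit 0x40592) (nat_lit 0) (p (nat_lit 0x40492) (nat_lit 0) (p (nat_lit 0x30412) (nat_lit 0) (p (nat_lit 0x30212) (nat_lit 0) (p (nat_lit 0x20192) (nat_lit 0) (p (nat_lit 0x20092) (nat_lit 0) (p (nat_lit 0x10012) (nat_lit 0) pn)))))))))))))))))))))))))))) :=
  Cl.node (nat_lit 0x3c4aa) (nat_lit 12) (by decide +kernel) (ClAll.succ (ClAll.succ (ClAll.succ (ClAll.succ (ClAll.succ (ClAll.succ (ClAll.succ (ClAll.succ (ClAll.succ (ClAll.succ (ClAll.succ (ClAll.succ ClAll.zero s1643) s1644) s1645) s1646) s1647) s1648) s1649) s1650) s1651) s1652) s1653) s1654)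

def n425 : Cl (O (nat_lit 1)) (R (nat_lit 104465))
    (p (nat_lit 0xb0014) (nat_lit 0) (p (nat_lit 0x1fc004) (nat_lit 0) (p (nat_lit 0xb000c) (nat_lit 1) (p (nat_lit 0x380c2) (nat_lit 0) (p (nat_lit 0x44c2a) (nat_lit 1) (p (nat_lit 0xd1) (nat_lit 0) (p (nat_lit 0xc9) (nat_lit 0) (p (nat_lit 0x101) (nat_lit 1) (p (nat_lit 0x119) (nat_lit 0) (p (nat_lit 0xc1) (nat_lit 0) (p (nat_lit 0x81) (nat_lit 1) (p (nat_lit 0x41) (nat_lit 1) (p (nat_lit 0x8078907089a) (nat_lit 0) (p (nat_lit 0x7870886861a) (nat_lit 0) (p (nat_lit 0x800070806078a) (nat_lit 0) (p (nat_lit 0x800068785850a) (nat_lit 0) (p (nat_lit 0x587050682) (nat_lit 0) (p (nat_lit 0x506848402) (nat_lit 0) (p (nat_lit 0x160014) (nat_lit 0) (p (nat_lit 0x16000c) (nat_lit 0) (p (nat_lit 0x50612) (nat_lit 0) (p (nat_lit 0x40592) (nat_lit 0) (p (nat_lit 0x40492) (nat_lit 0) (p (nat_lit 0x30412) (nat_lit 0) (p (nat_lit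 0x30212) (nat_lit 0) (p (nat_lit 0x20192) (nat_lit 0) (p (nat_lit 0x20092) (nat_lit 0) (p (nat_lit 0x10012) (nat_lit 0) pn)))))))))))))))))))))))))))) :=
  Cl.node (nat_lit 0x2a8258a8b89890a) (nat_lit 1) (by decide +kernel) (ClAll.succ ClAll.zero n351)

def n426 : Cl (O (nat_lit 1)) (R (nat_lit 104465))
    (p (nat_lit 0xb0014) (nat_lit 0) (p (nat_lit 0x380c2) (nat_lit 0) (p (nat_lit 0x3cc2a) (nat_lit 2) (p (nat_lit 0x81) (nat_lit 0) (p (nat_lit 0xc9) (nat_lit 1) (p (nat_lit 0x109) (nat_lit 1) (p (nat_lit 0x101) (nat_lit 0) (p (nat_lit 0x119) (nat_lit 0) (p (nat_lit 0xd1) (nat_lit 0) (p (nat_lit 0x89) (nat_lit 0) (p (nat_lit 0x41) (nat_lit 0) (p (nat_lit 0x8078907089a) (nat_lit 0) (p (nat_lit 0x7870886861a) (nat_lit 0) (p (nat_lit 0x800070806078a) (nat_lit 0) (p (nat_lit 0x800068785850a) (nat_lit 0) (p (nat_lit 0x587050682) (nat_lit 0) (p (nat_lit 0x506848402) (nat_lit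 0) (p (nat_lit 0x160014) (nat_lit 0) (p (nat_lit 0x16000c) (nat_lit 0) (p (nat_lit 0x50612) (nat_lit 0) (p (nat_lit 0x40592) (nat_lit 0) (p (nat_lit 0x40492) (nat_lit 0) (p (nat_lit 0x30412) (nat_lit 0) (p (nat_lit 0x30212) (nat_lit 0) (p (nat_lit 0x20192) (nat_lit 0) (p (nat_lit 0x20092) (nat_lit 0) (p (nat_lit 0x10012) (nat_lit 0) pn))))))))))))))))))))))))))) :=
  Cl.node (nat_lit 0xb000c) (nat_lit 2) (by decide +kernel) (ClAll.succ (ClAll.succ ClAll.zero n352) s9)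

def n427 : Cl (O (nat_lit 1)) (R (nat_lit 104465))
    (p (nat_lit 0x200004) (nat_lit 0) (p (nat_lit 0x380c2) (nat_lit 0) (p (nat_lit 0x444aa) (nat_lit 7) (p (nat_lit 0x81) (nat_lit 1) (p (nat_lit 0xc9) (nat_lit 1) (p (nat_lit 0x109) (nat_lit 1) (p (nat_lit 0x101) (nat_lit 0) (p (nat_lit 0x119) (nat_lit 0) (p (nat_lit 0xd1) (nat_lit 0) (p (nat_lit 0x89) (nat_lit 0) (p (nat_lit 0x41) (nat_lit 0) (p (nat_lit 0x8078907089a) (nat_lit 0) (p (nat_lit 0x7870886861a) (nat_lit 0) (p (nat_lit 0x800070806078a) (nat_lit 0) (p (nat_lit 0x800068785850a) (nat_lit 0) (p (nat_lit 0x587050682) (nat_lit 0) (p (nat_lit 0x506848402) (nat_lit 0) (p (nat_lit 0x160014) (nat_lit 0) (p (nat_lit 0x16000c) (nat_lit 0) (p (nat_lit 0x50612) (nat_lit 0) (p (nat_lit 0x40592) (nat_lit 0) (p (nat_lit 0x40492) (nat_lit 0) (p (nat_lit 0x30412) (nat_lit 0) (p (nat_lit 0x30212) (nat_lit 0) (p (nat_lit 0x20192)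 (nat_lit 0) (p (nat_lit 0x20092) (nat_lit 0) (p (nat_lit 0x10012) (nat_lit 0) pn))))))))))))))))))))))))))) :=
  Cl.node (nat_lit 0x100004) (nat_lit 2) (by decide +kernel) (ClAll.succ (ClAll.succ ClAll.zero n353) n354)

def n428 : Cl (O (nat_lit 1)) (R (nat_lit 104465))
    (p (nat_lit 0x200004) (nat_lit 0) (p (nat_lit 0x380c2) (nat_lit 1) (p (nat_lit 0x444aa) (nat_lit 7) (p (nat_lit 0x81) (nat_lit 1) (p (nat_lit 0xc9) (nat_lit 1) (p (nat_lit 0x109) (nat_lit 1) (p (nat_lit 0x101) (nat_lit 0) (p (nat_lit 0x119) (nat_lit 0) (p (nat_lit 0xd1) (nat_lit 0) (p (nat_lit 0x89) (nat_lit 0) (p (nat_lit 0x41) (nat_lit 0) (p (nat_lit 0x8078907089a) (nat_lit 0) (p (nat_lit 0x7870886861a) (nat_lit 0) (p (nat_lit 0x800070806078a) (nat_lit 0) (p (nat_lit 0x800068785850a) (nat_lit 0) (p (nat_lit 0x587050682) (nat_lit 0) (p (nat_lit 0x506848402) (nat_lit 0) (p (nat_lit 0x160014) (nat_lit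 0) (p (nat_lit 0x16000c) (nat_lit 0) (p (nat_lit 0x50612) (nat_lit 0) (p (nat_lit 0x40592) (nat_lit 0) (p (nat_lit 0x40492) (nat_lit 0) (p (nat_lit 0x30412) (nat_lit 0) (p (nat_lit 0x30212) (nat_lit 0) (p (nat_lit 0x20192) (nat_lit 0) (p (nat_lit 0x20092) (nat_lit 0) (p (nat_lit 0x10012) (nat_lit 0) pn))))))))))))))))))))))))))) :=
  Cl.node (nat_lit 0x100004) (nat_lit 2) (by decide +kernel) (ClAll.succ (ClAll.succ ClAll.zero n355) n356)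

def n429 : Cl (O (nat_lit 1)) (R (nat_lit 104465))
    (p (nat_lit 0x200004) (nat_lit 0) (p (nat_lit 0x380c2) (nat_lit 0) (p (nat_lit 0x444aa) (nat_lit 7) (p (nat_lit 0x111) (nat_lit 0) (p (nat_lit 0xc9) (nat_lit 1) (p (nat_lit 0x81) (nat_lit 0) (p (nat_lit 0x101) (nat_lit 1) (p (nat_lit 0x119) (nat_lit 0) (p (nat_lit 0xd1) (nat_lit 0) (p (nat_lit 0x89) (nat_lit 0) (p (nat_lit 0x41) (nat_lit 0) (p (nat_lit 0x8078907089a) (nat_lit 0) (p (nat_lit 0x7870886861a) (nat_lit 0) (p (nat_lit 0x800070806078a) (nat_lit 0) (p (nat_lit 0x800068785850a) (nat_lit 0) (p (nat_lit 0x587050682) (nat_lit 0) (p (nat_lit 0x506848402) (nat_lit 0) (p (nat_lit 0x160014) (nat_lit 0) (p (nat_lit 0x16000c) (nat_lit 0) (p (nat_lit 0x50612) (nat_lit 0) (p (nat_lit 0x40592) (nat_lit 0) (p (nat_lit 0x40492) (nat_lit 0) (p (nat_lit 0x30412) (nat_lit 0) (p (nat_lit 0x30212) (nat_lit 0) (p (nat_lit 0x20192)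 (nat_lit 0) (p (nat_lit 0x20092) (nat_lit 0) (p (nat_lit 0x10012) (nat_lit 0) pn))))))))))))))))))))))))))) :=
  Cl.node (nat_lit 0x100004) (nat_lit 2) (by decide +kernel) (ClAll.succ (ClAll.succ ClAll.zero n357) s149)

def n430 : Cl (O (nat_lit 1)) (R (nat_lit 104465))
    (p (nat_lit 0x200004) (nat_lit 0) (p (nat_lit 0x380c2) (nat_lit 1) (p (nat_lit 0x444aa) (nat_lit 7) (p (nat_lit 0x111) (nat_lit 0) (p (nat_lit 0xc9) (nat_lit 1) (p (nat_lit 0x81) (nat_lit 0) (p (nat_lit 0x101) (nat_lit 1) (p (nat_lit 0x119) (nat_lit 0) (p (nat_lit 0xd1) (nat_lit 0) (p (nat_lit 0x89) (nat_lit 0) (p (nat_lit 0x41) (nat_lit 0) (p (nat_lit 0x8078907089a) (nat_lit 0) (p (nat_lit 0x7870886861a) (nat_lit 0) (p (nat_lit 0x800070806078a) (nat_lit 0) (p (nat_lit 0x800068785850a) (nat_lit 0) (p (nat_lit 0x587050682) (nat_lit 0) (p (nat_lit 0x506848402) (nat_lit 0) (p (nat_lit 0x160014) (nat_lit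 0) (p (nat_lit 0x16000c) (nat_lit 0) (p (nat_lit 0x50612) (nat_lit 0) (p (nat_lit 0x40592) (nat_lit 0) (p (nat_lit 0x40492) (nat_lit 0) (p (nat_lit 0x30412) (nat_lit 0) (p (nat_lit 0x30212) (nat_lit 0) (p (nat_lit 0x20192) (nat_lit 0) (p (nat_lit 0x20092) (nat_lit 0) (p (nat_lit 0x10012) (nat_lit 0) pn))))))))))))))))))))))))))) :=
  Cl.node (nat_lit 0xb000c) (nat_lit 2) (by decide +kernel) (ClAll.succ (ClAll.succ ClAll.zero n358) n359)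

def n431 : Cl (O (nat_lit 1)) (R (nat_lit 104465))
    (p (nat_lit 0xb000c) (nat_lit 0) (p (nat_lit 0x380c2) (nat_lit 0) (p (nat_lit 0x3cc2a) (nat_lit 2) (p (nat_lit 0x111) (nat_lit 1) (p (nat_lit 0xc9) (nat_lit 1) (p (nat_lit 0x81) (nat_lit 0) (p (nat_lit 0x101) (nat_lit 1) (p (nat_lit 0x119) (nat_lit 0) (p (nat_lit 0xd1) (nat_lit 0) (p (nat_lit 0x89) (nat_lit 0) (p (nat_lit 0x41) (nat_lit 0) (p (nat_lit 0x8078907089a) (nat_lit 0) (p (nat_lit 0x7870886861a) (nat_lit 0) (p (nat_lit 0x800070806078a) (nat_lit 0) (p (nat_lit 0x800068785850a) (nat_lit 0) (p (nat_lit 0x587050682) (nat_lit 0) (p (nat_lit 0x506848402) (nat_lit 0) (p (nat_lit 0x160014) (nat_lit 0) (p (nat_lit 0x16000c) (nat_lit 0) (p (nat_lit 0x50612) (nat_lit 0) (p (nat_lit 0x40592) (nat_lit 0) (p (nat_lit 0x40492) (nat_lit 0) (p (nat_lit 0x30412) (nat_lit 0) (p (nat_lit 0x30212) (nat_lit 0) (p (nat_lit 0x20192)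 (nat_lit 0) (p (nat_lit 0x20092) (nat_lit 0) (p (nat_lit 0x10012) (nat_lit 0) pn))))))))))))))))))))))))))) :=
  Cl.node (nat_lit 0xb0014) (nat_lit 2) (by decide +kernel) (ClAll.succ (ClAll.succ ClAll.zero n360) s182)

def n432 : Cl (O (nat_lit 1)) (R (nat_lit 104465))
    (p (nat_lit 0xb000c) (nat_lit 1) (p (nat_lit 0x380c2) (nat_lit 0) (p (nat_lit 0x3cc2a) (nat_lit 2) (p (nat_lit 0x111) (nat_lit 1) (p (nat_lit 0xc9) (nat_lit 1) (p (nat_lit 0x81) (nat_lit 0) (p (nat_lit 0x101) (nat_lit 1) (p (nat_lit 0x119) (nat_lit 0) (p (nat_lit 0xd1) (nat_lit 0) (p (nat_lit 0x89) (nat_lit 0) (p (nat_lit 0x41) (nat_lit 0) (p (nat_lit 0x8078907089a) (nat_lit 0) (p (nat_lit 0x7870886861a) (nat_lit 0) (p (nat_lit 0x800070806078a) (nat_lit 0) (p (nat_lit 0x800068785850a) (nat_lit 0) (p (nat_lit 0x587050682) (nat_lit 0) (p (nat_lit 0x506848402) (nat_lit 0) (p (nat_lit 0x160014) (nat_lit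 0) (p (nat_lit 0x16000c) (nat_lit 0) (p (nat_lit 0x50612) (nat_lit 0) (p (nat_lit 0x40592) (nat_lit 0) (p (nat_lit 0x40492) (nat_lit 0) (p (nat_lit 0x30412) (nat_lit 0) (p (nat_lit 0x30212) (nat_lit 0) (p (nat_lit 0x20192) (nat_lit 0) (p (nat_lit 0x20092) (nat_lit 0) (p (nat_lit 0x10012) (nat_lit 0) pn))))))))))))))))))))))))))) :=
  Cl.node (nat_lit 0x1fc004) (nat_lit 2) (by decide +kernel) (ClAll.succ (ClAll.succ ClAll.zero n361) s186)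

def n433 : Cl (O (nat_lit 1)) (R (nat_lit 104465))
    (p (nat_lit 0x200004) (nat_lit 0) (p (nat_lit 0x380c2) (nat_lit 0) (p (nat_lit 0x444aa) (nat_lit 7) (p (nat_lit 0xc9) (nat_lit 1) (p (nat_lit 0xc1) (nat_lit 0) (p (nat_lit 0x81) (nat_lit 1) (p (nat_lit 0x101) (nat_lit 1) (p (nat_lit 0x119) (nat_lit 0) (p (nat_lit 0xd1) (nat_lit 0) (p (nat_lit 0x89) (nat_lit 0) (p (nat_lit 0x41) (nat_lit 0) (p (nat_lit 0x8078907089a) (nat_lit 0) (p (nat_lit 0x7870886861a) (nat_lit 0) (p (nat_lit 0x800070806078a) (nat_lit 0) (p (nat_lit 0x800068785850a) (nat_lit 0) (p (nat_lit 0x587050682) (nat_lit 0) (p (nat_lit 0x506848402) (nat_lit 0) (p (nat_lit 0x160014) (nat_lit 0) (p (nat_lit 0x16000c) (nat_lit 0) (p (nat_lit 0x50612) (nat_lit 0) (p (nat_lit 0x40592) (nat_lit 0) (p (nat_lit 0x40492) (nat_lit 0) (p (nat_lit 0x30412) (nat_lit 0) (p (nat_lit 0x30212) (nat_lit 0) (p (nat_lit 0x20192)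 (nat_lit 0) (p (nat_lit 0x20092) (nat_lit 0) (p (nat_lit 0x10012) (nat_lit 0) pn))))))))))))))))))))))))))) :=
  Cl.node (nat_lit 0x100004) (nat_lit 2) (by decide +kernel) (ClAll.succ (ClAll.succ ClAll.zero n362) s221)

def n434 : Cl (O (nat_lit 1)) (R (nat_lit 104465))
    (p (nat_lit 0x200004) (nat_lit 0) (p (nat_lit 0x380c2) (nat_lit 1) (p (nat_lit 0x444aa) (nat_lit 7) (p (nat_lit 0xc9) (nat_lit 1) (p (nat_lit 0xc1) (nat_lit 0) (p (nat_lit 0x81) (nat_lit 1) (p (nat_lit 0x101) (nat_lit 1) (p (nat_lit 0x119) (nat_lit 0) (p (nat_lit 0xd1) (nat_lit 0) (p (nat_lit 0x89) (nat_lit 0) (p (nat_lit 0x41) (nat_lit 0) (p (nat_lit 0x8078907089a) (nat_lit 0) (p (nat_lit 0x7870886861a) (nat_lit 0) (p (nat_lit 0x800070806078a) (nat_lit 0) (p (nat_lit 0x800068785850a) (nat_lit 0) (p (nat_lit 0x587050682) (nat_lit 0) (p (nat_lit 0x506848402) (nat_lit 0) (p (nat_lit 0x160014) (nat_lit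 0) (p (nat_lit 0x16000c) (nat_lit 0) (p (nat_lit 0x50612) (nat_lit 0) (p (nat_lit 0x40592) (nat_lit 0) (p (nat_lit 0x40492) (nat_lit 0) (p (nat_lit 0x30412) (nat_lit 0) (p (nat_lit 0x30212) (nat_lit 0) (p (nat_lit 0x20192) (nat_lit 0) (p (nat_lit 0x20092) (nat_lit 0) (p (nat_lit 0x10012) (nat_lit 0) pn))))))))))))))))))))))))))) :=
  Cl.node (nat_lit 0x100004) (nat_lit 2) (by decide +kernel) (ClAll.succ (ClAll.succ ClAll.zero n363) s226)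

def n435 : Cl (O (nat_lit 1)) (R (nat_lit 104465))
    (p (nat_lit 0xb000c) (nat_lit 0) (p (nat_lit 0x101) (nat_lit 0) (p (nat_lit 0x380c2) (nat_lit 0) (p (nat_lit 0x3cc2a) (nat_lit 2) (p (nat_lit 0x109) (nat_lit 1) (p (nat_lit 0xc9) (nat_lit 1) (p (nat_lit 0xc1) (nat_lit 0) (p (nat_lit 0x119) (nat_lit 1) (p (nat_lit 0xd1) (nat_lit 0) (p (nat_lit 0x89) (nat_lit 0) (p (nat_lit 0x41) (nat_lit 0) (p (nat_lit 0x8078907089a) (nat_lit 0) (p (nat_lit 0x7870886861a) (nat_lit 0) (p (nat_lit 0x800070806078a) (nat_lit 0) (p (nat_lit 0x800068785850a) (nat_lit 0) (p (nat_lit 0x587050682) (nat_lit 0) (p (nat_lit 0x506848402) (nat_lit 0) (p (nat_lit 0x160014) (nat_lit 0) (p (nat_lit 0x16000c) (nat_lit 0) (p (nat_lit 0x50612) (nat_lit 0) (p (nat_lit 0x40592) (nat_lit 0) (p (nat_lit 0x40492) (nat_lit 0) (p (nat_lit 0x30412) (nat_lit 0) (p (nat_lit 0x30212) (nat_lit 0) (p (nat_lit 0x20192)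 (nat_lit 0) (p (nat_lit 0x20092) (nat_lit 0) (p (nat_lit 0x10012) (nat_lit 0) pn))))))))))))))))))))))))))) :=
  Cl.node (nat_lit 0x41) (nat_lit 2) (by decide +kernel) (ClAll.succ (ClAll.succ ClAll.zero n364) s245)

def n436 : Cl (O (nat_lit 1)) (R (nat_lit 104465))
    (p (nat_lit 0xb000c) (nat_lit 1) (p (nat_lit 0x101) (nat_lit 0) (p (nat_lit 0x380c2) (nat_lit 0) (p (nat_lit 0x3cc2a) (nat_lit 2) (p (nat_lit 0x109) (nat_lit 1) (p (nat_lit 0xc9) (nat_lit 1) (p (nat_lit 0xc1) (nat_lit 0) (p (nat_lit 0x119) (nat_lit 1) (p (nat_lit 0xd1) (nat_lit 0) (p (nat_lit 0x89) (nat_lit 0) (p (nat_lit 0x41) (nat_lit 0) (p (nat_lit 0x8078907089a) (nat_lit 0) (p (nat_lit 0x7870886861a) (nat_lit 0) (p (nat_lit 0x800070806078a) (nat_lit 0) (p (nat_lit 0x800068785850a) (nat_lit 0) (p (nat_lit 0x587050682) (nat_lit 0) (p (nat_lit 0x506848402) (nat_lit 0) (p (nat_lit 0x160014) (nat_lit 0)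 (p (nat_lit 0x16000c) (nat_lit 0) (p (nat_lit 0x50612) (nat_lit 0) (p (nat_lit 0x40592) (nat_lit 0) (p (nat_lit 0x40492) (nat_lit 0) (p (nat_lit 0x30412) (nat_lit 0) (p (nat_lit 0x30212) (nat_lit 0) (p (nat_lit 0x20192) (nat_lit 0) (p (nat_lit 0x20092) (nat_lit 0) (p (nat_lit 0x10012) (nat_lit 0) pn))))))))))))))))))))))))))) :=
  Cl.node (nat_lit 0x1fc004) (nat_lit 2) (by decide +kernel) (ClAll.succ (ClAll.succ ClAll.zero n365) s258)

def n437 : Cl (O (nat_lit 1)) (R (nat_lit 104465))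
    (p (nat_lit 0x41) (nat_lit 0) (p (nat_lit 0x101) (nat_lit 1) (p (nat_lit 0x380c2) (nat_lit 0) (p (nat_lit 0x3cc2a) (nat_lit 2) (p (nat_lit 0x109) (nat_lit 1) (p (nat_lit 0xc9) (nat_lit 1) (p (nat_lit 0xc1) (nat_lit 0) (p (nat_lit 0x119) (nat_lit 1) (p (nat_lit 0xd1) (nat_lit 0) (p (nat_lit 0x89) (nat_lit 0) (p (nat_lit 0x41) (nat_lit 0) (p (nat_lit 0x8078907089a) (nat_lit 0) (p (nat_lit 0x7870886861a) (nat_lit 0) (p (nat_lit 0x800070806078a) (nat_lit 0) (p (nat_lit 0x800068785850a) (nat_lit 0) (p (nat_lit 0x587050682) (nat_lit 0) (p (nat_lit 0x506848402) (nat_lit 0) (p (nat_lit 0x160014) (nat_lit 0) (p (nat_lit 0x16000c) (nat_lit 0) (p (nat_lit 0x50612) (nat_lit 0) (p (nat_lit 0x40592) (nat_lit 0) (p (nat_lit 0x40492) (nat_lit 0) (p (nat_lit 0x30412) (nat_lit 0) (p (nat_lit 0x30212) (nat_lit 0) (p (nat_lit 0x20192) (nat_lit 0) (p (nat_lit 0x20092) (nat_lit 0) (p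 (nat_lit 0x10012) (nat_lit 0) pn))))))))))))))))))))))))))) :=
  Cl.node (nat_lit 0xb000c) (nat_lit 2) (by decide +kernel) (ClAll.succ (ClAll.succ ClAll.zero n366) n367)

def n438 : Cl (O (nat_lit 1)) (R (nat_lit 104465))
    (p (nat_lit 0xb000c) (nat_lit 0) (p (nat_lit 0xc9) (nat_lit 1) (p (nat_lit 0x380c2) (nat_lit 0) (p (nat_lit 0x3cc2a) (nat_lit 2) (p (nat_lit 0x109) (nat_lit 1) (p (nat_lit 0x81) (nat_lit 0) (p (nat_lit 0xc1) (nat_lit 1) (p (nat_lit 0x119) (nat_lit 1) (p (nat_lit 0xd1) (nat_lit 0) (p (nat_lit 0x89) (nat_lit 0) (p (nat_lit 0x41) (nat_lit 0) (p (nat_lit 0x8078907089a) (nat_lit 0) (p (nat_lit 0x7870886861a) (nat_lit 0) (p (nat_lit 0x800070806078a) (nat_lit 0) (p (nat_lit 0x800068785850a) (nat_lit 0) (p (nat_lit 0x587050682) (nat_lit 0) (p (nat_lit 0x506848402) (nat_lit 0) (p (nat_lit 0x160014) (nat_lit 0) (p (nat_lit 0x16000c) (nat_lit 0) (p (nat_lit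 0x50612) (nat_lit 0) (p (nat_lit 0x40592) (nat_lit 0) (p (nat_lit 0x40492) (nat_lit 0) (p (nat_lit 0x30412) (nat_lit 0) (p (nat_lit 0x30212) (nat_lit 0) (p (nat_lit 0x20192) (nat_lit 0) (p (nat_lit 0x20092) (nat_lit 0) (p (nat_lit 0x10012) (nat_lit 0) pn))))))))))))))))))))))))))) :=
  Cl.node (nat_lit 0x111) (nat_lit 2) (by decide +kernel) (ClAll.succ (ClAll.succ ClAll.zero n368) s287)

def n439 : Cl (O (nat_lit 1)) (R (nat_lit 104465))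
    (p (nat_lit 0xb000c) (nat_lit 1) (p (nat_lit 0xc9) (nat_lit 1) (p (nat_lit 0x380c2) (nat_lit 0) (p (nat_lit 0x3cc2a) (nat_lit 2) (p (nat_lit 0x109) (nat_lit 1) (p (nat_lit 0x81) (nat_lit 0) (p (nat_lit 0xc1) (nat_lit 1) (p (nat_lit 0x119) (nat_lit 1) (p (nat_lit 0xd1) (nat_lit 0) (p (nat_lit 0x89) (nat_lit 0) (p (nat_lit 0x41) (nat_lit 0) (p (nat_lit 0x8078907089a) (nat_lit 0) (p (nat_lit 0x7870886861a) (nat_lit 0) (p (nat_lit 0x800070806078a) (nat_lit 0) (p (nat_lit 0x800068785850a) (nat_lit 0) (p (nat_lit 0x587050682) (nat_lit 0) (p (nat_lit 0x506848402) (nat_lit 0) (p (nat_lit 0x160014) (nat_lit 0) (p (nat_lit 0x16000c) (nat_lit 0) (p (nat_lit 0x50612) (nat_lit 0) (p (nat_lit 0x40592) (nat_lit 0) (p (nat_lit 0x40492) (nat_lit 0) (p (nat_lit 0x30412) (nat_lit 0) (p (nat_lit 0x30212) (nat_lit 0) (p (nat_lit 0x20192) (nat_lit 0) (p (nat_lit 0x20092) (nat_lit 0) (p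 (nat_lit 0x10012) (nat_lit 0) pn))))))))))))))))))))))))))) :=
  Cl.node (nat_lit 0x1fc004) (nat_lit 2) (by decide +kernel) (ClAll.succ (ClAll.succ ClAll.zero n369) s291)

def n440 : Cl (O (nat_lit 1)) (R (nat_lit 104465))
    (p (nat_lit 0x200004) (nat_lit 0) (p (nat_lit 0x380c2) (nat_lit 0) (p (nat_lit 0x444aa) (nat_lit 7) (p (nat_lit 0x109) (nat_lit 1) (p (nat_lit 0x101) (nat_lit 0) (p (nat_lit 0x81) (nat_lit 1) (p (nat_lit 0xc1) (nat_lit 1) (p (nat_lit 0x119) (nat_lit 1) (p (nat_lit 0xd1) (nat_lit 0) (p (nat_lit 0x89) (nat_lit 0) (p (nat_lit 0x41) (nat_lit 0) (p (nat_lit 0x8078907089a) (nat_lit 0) (p (nat_lit 0x7870886861a) (nat_lit 0) (p (nat_lit 0x800070806078a) (nat_lit 0) (p (nat_lit 0x800068785850a) (nat_lit 0) (p (nat_lit 0x587050682) (nat_lit 0) (p (nat_lit 0x506848402) (nat_lit 0) (p (nat_lit 0x160014) (nat_lit 0) (p (nat_lit 0x16000c) (nat_lit 0) (p (nat_lit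 0x50612) (nat_lit 0) (p (nat_lit 0x40592) (nat_lit 0) (p (nat_lit 0x40492) (nat_lit 0) (p (nat_lit 0x30412) (nat_lit 0) (p (nat_lit 0x30212) (nat_lit 0) (p (nat_lit 0x20192) (nat_lit 0) (p (nat_lit 0x20092) (nat_lit 0) (p (nat_lit 0x10012) (nat_lit 0) pn))))))))))))))))))))))))))) :=
  Cl.node (nat_lit 0x100004) (nat_lit 2) (by decide +kernel) (ClAll.succ (ClAll.succ ClAll.zero n370) s325)

def n441 : Cl (O (nat_lit 1)) (R (nat_lit 104465))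
    (p (nat_lit 0x200004) (nat_lit 0) (p (nat_lit 0x380c2) (nat_lit 1) (p (nat_lit 0x444aa) (nat_lit 7) (p (nat_lit 0x109) (nat_lit 1) (p (nat_lit 0x101) (nat_lit 0) (p (nat_lit 0x81) (nat_lit 1) (p (nat_lit 0xc1) (nat_lit 1) (p (nat_lit 0x119) (nat_lit 1) (p (nat_lit 0xd1) (nat_lit 0) (p (nat_lit 0x89) (nat_lit 0) (p (nat_lit 0x41) (nat_lit 0) (p (nat_lit 0x8078907089a) (nat_lit 0) (p (nat_lit 0x7870886861a) (nat_lit 0) (p (nat_lit 0x800070806078a) (nat_lit 0) (p (nat_lit 0x800068785850a) (nat_lit 0) (p (nat_lit 0x587050682) (nat_lit 0) (p (nat_lit 0x506848402) (nat_lit 0) (p (nat_lit 0x160014) (nat_lit 0) (p (nat_lit 0x16000c) (nat_lit 0) (p (nat_lit 0x50612) (nat_lit 0) (p (nat_lit 0x40592) (nat_lit 0) (p (nat_lit 0x40492) (nat_lit 0) (p (nat_lit 0x30412) (nat_lit 0) (p (nat_lit 0x30212) (nat_lit 0) (p (nat_lit 0x20192) (nat_lit 0) (p (nat_lit 0x20092) (nat_lit 0)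 (p (nat_lit 0x10012) (nat_lit 0) pn))))))))))))))))))))))))))) :=
  Cl.node (nat_lit 0xb000c) (nat_lit 2) (by decide +kernel) (ClAll.succ (ClAll.succ ClAll.zero n371) s332)

def n442 : Cl (O (nat_lit 1)) (R (nat_lit 104465))
    (p (nat_lit 0x380c2) (nat_lit 0) (p (nat_lit 0x3cc2a) (nat_lit 1) (p (nat_lit 0x41) (nat_lit 0) (p (nat_lit 0x200004) (nat_lit 0) (p (nat_lit 0xc1) (nat_lit 1) (p (nat_lit 0x109) (nat_lit 1) (p (nat_lit 0x101) (nat_lit 0) (p (nat_lit 0x111) (nat_lit 0) (p (nat_lit 0xd1) (nat_lit 1) (p (nat_lit 0x89) (nat_lit 0) (p (nat_lit 0x41) (nat_lit 0) (p (nat_lit 0x8078907089a) (nat_lit 0) (p (nat_lit 0x7870886861a) (nat_lit 0) (p (nat_lit 0x800070806078a) (nat_lit 0) (p (nat_lit 0x800068785850a) (nat_lit 0) (p (nat_lit 0x587050682) (nat_lit 0) (p (nat_lit 0x506848402) (nat_lit 0) (p (nat_lit 0x160014) (nat_lit 0) (p (nat_lit 0x16000c) (nat_lit 0) (p (nat_lit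 0x50612) (nat_lit 0) (p (nat_lit 0x40592) (nat_lit 0) (p (nat_lit 0x40492) (nat_lit 0) (p (nat_lit 0x30412) (nat_lit 0) (p (nat_lit 0x30212) (nat_lit 0) (p (nat_lit 0x20192) (nat_lit 0) (p (nat_lit 0x20092) (nat_lit 0) (p (nat_lit 0x10012) (nat_lit 0) pn))))))))))))))))))))))))))) :=
  Cl.node (nat_lit 0xb0014) (nat_lit 2) (by decide +kernel) (ClAll.succ (ClAll.succ ClAll.zero n372) s369)

def n443 : Cl (O (nat_lit 1)) (R (nat_lit 104465))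
    (p (nat_lit 0x380c2) (nat_lit 0) (p (nat_lit 0x3cc2a) (nat_lit 2) (p (nat_lit 0x41) (nat_lit 0) (p (nat_lit 0x200004) (nat_lit 0) (p (nat_lit 0xc1) (nat_lit 1) (p (nat_lit 0x109) (nat_lit 1) (p (nat_lit 0x101) (nat_lit 0) (p (nat_lit 0x111) (nat_lit 0) (p (nat_lit 0xd1) (nat_lit 1) (p (nat_lit 0x89) (nat_lit 0) (p (nat_lit 0x41) (nat_lit 0) (p (nat_lit 0x8078907089a) (nat_lit 0) (p (nat_lit 0x7870886861a) (nat_lit 0) (p (nat_lit 0x800070806078a) (nat_lit 0) (p (nat_lit 0x800068785850a) (nat_lit 0) (p (nat_lit 0x587050682) (nat_lit 0) (p (nat_lit 0x506848402) (nat_lit 0) (p (nat_lit 0x160014) (nat_lit 0) (p (nat_lit 0x16000c) (nat_lit 0) (p (nat_lit 0x50612) (nat_lit 0) (p (nat_lit 0x40592) (nat_lit 0) (p (nat_lit 0x40492) (nat_lit 0) (p (nat_lit 0x30412) (nat_lit 0) (p (nat_lit 0x30212) (nat_lit 0) (p (nat_lit 0x20192) (nat_lit 0) (p (nat_lit 0x20092) (nat_lit 0)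 (p (nat_lit 0x10012) (nat_lit 0) pn))))))))))))))))))))))))))) :=
  Cl.node (nat_lit 0x100004) (nat_lit 2) (by decide +kernel) (ClAll.succ (ClAll.succ ClAll.zero s370) n373)

def n444 : Cl (O (nat_lit 1)) (R (nat_lit 104465))
    (p (nat_lit 0x41) (nat_lit 0) (p (nat_lit 0xb0014) (nat_lit 0) (p (nat_lit 0xb000c) (nat_lit 0) (p (nat_lit 0x200004) (nat_lit 1) (p (nat_lit 0xc1) (nat_lit 1) (p (nat_lit 0x109) (nat_lit 1) (p (nat_lit 0x101) (nat_lit 0) (p (nat_lit 0x111) (nat_lit 0) (p (nat_lit 0xd1) (nat_lit 1) (p (nat_lit 0x89) (nat_lit 0) (p (nat_lit 0x41) (nat_lit 0) (p (nat_lit 0x8078907089a) (nat_lit 0) (p (nat_lit 0x7870886861a) (nat_lit 0) (p (nat_lit 0x800070806078a) (nat_lit 0) (p (nat_lit 0x800068785850a) (nat_lit 0) (p (nat_lit 0x587050682) (nat_lit 0) (p (nat_lit 0x506848402) (nat_lit 0) (p (nat_lit 0x160014) (nat_lit 0) (p (nat_lit 0x16000c) (nat_lit 0) (p (nat_lit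 0x50612) (nat_lit 0) (p (nat_lit 0x40592) (nat_lit 0) (p (nat_lit 0x40492) (nat_lit 0) (p (nat_lit 0x30412) (nat_lit 0) (p (nat_lit 0x30212) (nat_lit 0) (p (nat_lit 0x20192) (nat_lit 0) (p (nat_lit 0x20092) (nat_lit 0) (p (nat_lit 0x10012) (nat_lit 0) pn))))))))))))))))))))))))))) :=
  Cl.node (nat_lit 0x3cc2a) (nat_lit 12) (by decide +kernel) (ClAll.succ (ClAll.succ (ClAll.succ (ClAll.succ (ClAll.succ (ClAll.succ (ClAll.succ (ClAll.succ (ClAll.succ (ClAll.succ (ClAll.succ (ClAll.succ ClAll.zero s385) s386) s387) s388) s389) s390) s391) s392) s393) s394) s395) s396)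

def n445 : Cl (O (nat_lit 1)) (R (nat_lit 104465))
    (p (nat_lit 0x380c2) (nat_lit 0) (p (nat_lit 0x3cc2a) (nat_lit 1) (p (nat_lit 0x109) (nat_lit 1) (p (nat_lit 0x200004) (nat_lit 0) (p (nat_lit 0x119) (nat_lit 0) (p (nat_lit 0x81) (nat_lit 0) (p (nat_lit 0x101) (nat_lit 1) (p (nat_lit 0x111) (nat_lit 0) (p (nat_lit 0xd1) (nat_lit 1) (p (nat_lit 0x89) (nat_lit 0) (p (nat_lit 0x41) (nat_lit 0) (p (nat_lit 0x8078907089a) (nat_lit 0) (p (nat_lit 0x7870886861a) (nat_lit 0) (p (nat_lit 0x800070806078a) (nat_lit 0) (p (nat_lit 0x800068785850a) (nat_lit 0) (p (nat_lit 0x587050682) (nat_lit 0) (p (nat_lit 0x506848402) (nat_lit 0) (p (nat_lit 0x160014) (nat_lit 0) (p (nat_lit 0x16000c) (nat_lit 0) (p (nat_lit 0x50612) (nat_lit 0) (p (nat_lit 0x40592) (nat_lit 0) (p (nat_lit 0x40492) (nat_lit 0) (p (nat_lit 0x30412) (nat_lit 0) (p (nat_lit 0x30212) (nat_lit 0) (p (nat_lit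 0x20192) (nat_lit 0) (p (nat_lit 0x20092) (nat_lit 0) (p (nat_lit 0x10012) (nat_lit 0) pn))))))))))))))))))))))))))) :=
  Cl.node (nat_lit 0xb0014) (nat_lit 2) (by decide +kernel) (ClAll.succ (ClAll.succ ClAll.zero s403) s404)

def n446 : Cl (O (nat_lit 1)) (R (nat_lit 104465))
    (p (nat_lit 0x380c2) (nat_lit 0) (p (nat_lit 0x3cc2a) (nat_lit 2) (p (nat_lit 0x109) (nat_lit 1) (p (nat_lit 0x200004) (nat_lit 0) (p (nat_lit 0x119) (nat_lit 0) (p (nat_lit 0x81) (nat_lit 0) (p (nat_lit 0x101) (nat_lit 1) (p (nat_lit 0x111) (nat_lit 0) (p (nat_lit 0xd1) (nat_lit 1) (p (nat_lit 0x89) (nat_lit 0) (p (nat_lit 0x41) (nat_lit 0) (p (nat_lit 0x8078907089a) (nat_lit 0) (p (nat_lit 0x7870886861a) (nat_lit 0) (p (nat_lit 0x800070806078a) (nat_lit 0) (p (nat_lit 0x800068785850a) (nat_lit 0) (p (nat_lit 0x587050682) (nat_lit 0) (p (nat_lit 0x506848402) (nat_lit 0) (p (nat_lit 0x160014)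 (nat_lit 0) (p (nat_lit 0x16000c) (nat_lit 0) (p (nat_lit 0x50612) (nat_lit 0) (p (nat_lit 0x40592) (nat_lit 0) (p (nat_lit 0x40492) (nat_lit 0) (p (nat_lit 0x30412) (nat_lit 0) (p (nat_lit 0x30212) (nat_lit 0) (p (nat_lit 0x20192) (nat_lit 0) (p (nat_lit 0x20092) (nat_lit 0) (p (nat_lit 0x10012) (nat_lit 0) pn))))))))))))))))))))))))))) :=
  Cl.node (nat_lit 0x100004) (nat_lit 2) (by decide +kernel) (ClAll.succ (ClAll.succ ClAll.zero n374) s407)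

def n447 : Cl (O (nat_lit 1)) (R (nat_lit 104465))
    (p (nat_lit 0xb0014) (nat_lit 0) (p (nat_lit 0x41) (nat_lit 1) (p (nat_lit 0x380c2) (nat_lit 0) (p (nat_lit 0x3cc2a) (nat_lit 2) (p (nat_lit 0x119) (nat_lit 1) (p (nat_lit 0x81) (nat_lit 0) (p (nat_lit 0x101) (nat_lit 1) (p (nat_lit 0x111) (nat_lit 0) (p (nat_lit 0xd1) (nat_lit 1) (p (nat_lit 0x89) (nat_lit 0) (p (nat_lit 0x41) (nat_lit 0) (p (nat_lit 0x8078907089a) (nat_lit 0) (p (nat_lit 0x7870886861a) (nat_lit 0) (p (nat_lit 0x800070806078a) (nat_lit 0) (p (nat_lit 0x800068785850a) (nat_lit 0) (p (nat_lit 0x587050682) (nat_lit 0) (p (nat_lit 0x506848402) (nat_lit 0) (p (nat_lit 0x160014) (nat_lit 0) (p (nat_lit 0x16000c) (nat_lit 0) (p (nat_lit 0x50612) (nat_lit 0) (p (nat_lit 0x40592) (nat_lit 0) (p (nat_lit 0x40492) (nat_lit 0) (p (nat_lit 0x30412) (nat_lit 0) (p (nat_lit 0x30212) (nat_lit 0) (p (nat_lit 0x20192)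 (nat_lit 0) (p (nat_lit 0x20092) (nat_lit 0) (p (nat_lit 0x10012) (nat_lit 0) pn))))))))))))))))))))))))))) :=
  Cl.node (nat_lit 0x81) (nat_lit 2) (by decide +kernel) (ClAll.succ (ClAll.succ ClAll.zero s422) s423)

def n448 : Cl (O (nat_lit 1)) (R (nat_lit 104465))
    (p (nat_lit 0xc9) (nat_lit 0) (p (nat_lit 0x380c2) (nat_lit 0) (p (nat_lit 0x444aa) (nat_lit 7) (p (nat_lit 0x119) (nat_lit 0) (p (nat_lit 0xc1) (nat_lit 0) (p (nat_lit 0x81) (nat_lit 1) (p (nat_lit 0x101) (nat_lit 1) (p (nat_lit 0x111) (nat_lit 0) (p (nat_lit 0xd1) (nat_lit 1) (p (nat_lit 0x89) (nat_lit 0) (p (nat_lit 0x41) (nat_lit 0) (p (nat_lit 0x8078907089a) (nat_lit 0) (p (nat_lit 0x7870886861a) (nat_lit 0) (p (nat_lit 0x800070806078a) (nat_lit 0) (p (nat_lit 0x800068785850a) (nat_lit 0) (p (nat_lit 0x587050682) (nat_lit 0) (p (nat_lit 0x506848402) (nat_lit 0) (p (nat_lit 0x160014) (nat_lit 0) (p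 (nat_lit 0x16000c) (nat_lit 0) (p (nat_lit 0x50612) (nat_lit 0) (p (nat_lit 0x40592) (nat_lit 0) (p (nat_lit 0x40492) (nat_lit 0) (p (nat_lit 0x30412) (nat_lit 0) (p (nat_lit 0x30212) (nat_lit 0) (p (nat_lit 0x20192) (nat_lit 0) (p (nat_lit 0x20092) (nat_lit 0) (p (nat_lit 0x10012) (nat_lit 0) pn))))))))))))))))))))))))))) :=
  Cl.node (nat_lit 0x4c42a) (nat_lit 12) (by decide +kernel) (ClAll.succ (ClAll.succ (ClAll.succ (ClAll.succ (ClAll.succ (ClAll.succ (ClAll.succ (ClAll.succ (ClAll.succ (ClAll.succ (ClAll.succ (ClAll.succ ClAll.zero s441) s442) s443) s444) s445) s446) s447) s448) s449) s450) n375) s456)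

def n449 : Cl (O (nat_lit 1)) (R (nat_lit 104465))
    (p (nat_lit 0x200004) (nat_lit 0) (p (nat_lit 0x380c2) (nat_lit 1) (p (nat_lit 0x444aa) (nat_lit 7) (p (nat_lit 0x119) (nat_lit 0) (p (nat_lit 0xc1) (nat_lit 0) (p (nat_lit 0x81) (nat_lit 1) (p (nat_lit 0x101) (nat_lit 1) (p (nat_lit 0x111) (nat_lit 0) (p (nat_lit 0xd1) (nat_lit 1) (p (nat_lit 0x89) (nat_lit 0) (p (nat_lit 0x41) (nat_lit 0) (p (nat_lit 0x8078907089a) (nat_lit 0) (p (nat_lit 0x7870886861a) (nat_lit 0) (p (nat_lit 0x800070806078a) (nat_lit 0) (p (nat_lit 0x800068785850a) (nat_lit 0) (p (nat_lit 0x587050682) (nat_lit 0) (p (nat_lit 0x506848402) (nat_lit 0) (p (nat_lit 0x160014) (nat_lit 0) (p (nat_lit 0x16000c) (nat_lit 0) (p (nat_lit 0x50612) (nat_lit 0) (p (nat_lit 0x40592) (nat_lit 0) (p (nat_lit 0x40492) (nat_lit 0) (p (nat_lit 0x30412) (nat_lit 0) (p (nat_lit 0x30212) (nat_lit 0) (p (nat_lit 0x20192)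 (nat_lit 0) (p (nat_lit 0x20092) (nat_lit 0) (p (nat_lit 0x10012) (nat_lit 0) pn))))))))))))))))))))))))))) :=
  Cl.node (nat_lit 0xc9) (nat_lit 2) (by decide +kernel) (ClAll.succ (ClAll.succ ClAll.zero n376) s461)

def n450 : Cl (O (nat_lit 1)) (R (nat_lit 104465))
    (p (nat_lit 0xb0014) (nat_lit 0) (p (nat_lit 0x380c2) (nat_lit 0) (p (nat_lit 0x3cc2a) (nat_lit 2) (p (nat_lit 0x119) (nat_lit 1) (p (nat_lit 0xc1) (nat_lit 0) (p (nat_lit 0x81) (nat_lit 1) (p (nat_lit 0x101) (nat_lit 1) (p (nat_lit 0x111) (nat_lit 0) (p (nat_lit 0xd1) (nat_lit 1) (p (nat_lit 0x89) (nat_lit 0) (p (nat_lit 0x41) (nat_lit 0) (p (nat_lit 0x8078907089a) (nat_lit 0) (p (nat_lit 0x7870886861a) (nat_lit 0) (p (nat_lit 0x800070806078a) (nat_lit 0) (p (nat_lit 0x800068785850a) (nat_lit 0) (p (nat_lit 0x587050682) (nat_lit 0) (p (nat_lit 0x506848402) (nat_lit 0) (p (nat_lit 0x160014) (nat_lit 0)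 (p (nat_lit 0x16000c) (nat_lit 0) (p (nat_lit 0x50612) (nat_lit 0) (p (nat_lit 0x40592) (nat_lit 0) (p (nat_lit 0x40492) (nat_lit 0) (p (nat_lit 0x30412) (nat_lit 0) (p (nat_lit 0x30212) (nat_lit 0) (p (nat_lit 0x20192) (nat_lit 0) (p (nat_lit 0x20092) (nat_lit 0) (p (nat_lit 0x10012) (nat_lit 0) pn))))))))))))))))))))))))))) :=
  Cl.node (nat_lit 0x89) (nat_lit 2) (by decide +kernel) (ClAll.succ (ClAll.succ ClAll.zero n377) n378)

def n451 : Cl (O (nat_lit 1)) (R (nat_lit 104465))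
    (p (nat_lit 0x200004) (nat_lit 0) (p (nat_lit 0x380c2) (nat_lit 0) (p (nat_lit 0x444aa) (nat_lit 7) (p (nat_lit 0xd1) (nat_lit 1) (p (nat_lit 0x111) (nat_lit 1) (p (nat_lit 0x109) (nat_lit 0) (p (nat_lit 0x101) (nat_lit 0) (p (nat_lit 0x119) (nat_lit 0) (p (nat_lit 0xc9) (nat_lit 0) (p (nat_lit 0x89) (nat_lit 1) (p (nat_lit 0x41) (nat_lit 0) (p (nat_lit 0x8078907089a) (nat_lit 0) (p (nat_lit 0x7870886861a) (nat_lit 0) (p (nat_lit 0x800070806078a) (nat_lit 0) (p (nat_lit 0x800068785850a) (nat_lit 0) (p (nat_lit 0x587050682) (nat_lit 0) (p (nat_lit 0x506848402) (nat_lit 0) (p (nat_lit 0x160014) (nat_lit 0) (p (nat_lit 0x16000c) (nat_lit 0) (p (nat_lit 0x50612) (nat_lit 0) (p (nat_lit 0x40592) (nat_lit 0) (p (nat_lit 0x40492) (nat_lit 0) (p (nat_lit 0x30412) (nat_lit 0) (p (nat_lit 0x30212) (nat_lit 0) (p (nat_lit 0x20192) (nat_lit 0) (p (nat_lit 0x20092) (nat_lit 0)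 (p (nat_lit 0x10012) (nat_lit 0) pn))))))))))))))))))))))))))) :=
  Cl.node (nat_lit 0x100004) (nat_lit 2) (by decide +kernel) (ClAll.succ (ClAll.succ ClAll.zero n379) n380)

def n452 : Cl (O (nat_lit 1)) (R (nat_lit 104465))
    (p (nat_lit 0x200004) (nat_lit 0) (p (nat_lit 0x380c2) (nat_lit 1) (p (nat_lit 0x444aa) (nat_lit 7) (p (nat_lit 0xd1) (nat_lit 1) (p (nat_lit 0x111) (nat_lit 1) (p (nat_lit 0x109) (nat_lit 0) (p (nat_lit 0x101) (nat_lit 0) (p (nat_lit 0x119) (nat_lit 0) (p (nat_lit 0xc9) (nat_lit 0) (p (nat_lit 0x89) (nat_lit 1) (p (nat_lit 0x41) (nat_lit 0) (p (nat_lit 0x8078907089a) (nat_lit 0) (p (nat_lit 0x7870886861a) (nat_lit 0) (p (nat_lit 0x800070806078a) (nat_lit 0) (p (nat_lit 0x800068785850a) (nat_lit 0) (p (nat_lit 0x587050682) (nat_lit 0) (p (nat_lit 0x506848402) (nat_lit 0) (p (nat_lit 0x160014) (nat_lit 0) (p (nat_lit 0x16000c) (nat_lit 0) (p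 (nat_lit 0x50612) (nat_lit 0) (p (nat_lit 0x40592) (nat_lit 0) (p (nat_lit 0x40492) (nat_lit 0) (p (nat_lit 0x30412) (nat_lit 0) (p (nat_lit 0x30212) (nat_lit 0) (p (nat_lit 0x20192) (nat_lit 0) (p (nat_lit 0x20092) (nat_lit 0) (p (nat_lit 0x10012) (nat_lit 0) pn))))))))))))))))))))))))))) :=
  Cl.node (nat_lit 0x100004) (nat_lit 2) (by decide +kernel) (ClAll.succ (ClAll.succ ClAll.zero n381) s646)

def n453 : Cl (O (nat_lit 1)) (R (nat_lit 104465))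
    (p (nat_lit 0x380c2) (nat_lit 0) (p (nat_lit 0x44c2a) (nat_lit 0) (p (nat_lit 0x41) (nat_lit 0) (p (nat_lit 0x200004) (nat_lit 0) (p (nat_lit 0xd1) (nat_lit 0) (p (nat_lit 0x109) (nat_lit 1) (p (nat_lit 0x101) (nat_lit 0) (p (nat_lit 0x119) (nat_lit 0) (p (nat_lit 0xc9) (nat_lit 0) (p (nat_lit 0x89) (nat_lit 1) (p (nat_lit 0x41) (nat_lit 0) (p (nat_lit 0x8078907089a) (nat_lit 0) (p (nat_lit 0x7870886861a) (nat_lit 0) (p (nat_lit 0x800070806078a) (nat_lit 0) (p (nat_lit 0x800068785850a) (nat_lit 0) (p (nat_lit 0x587050682) (nat_lit 0) (p (nat_lit 0x506848402) (nat_lit 0) (p (nat_lit 0x160014) (nat_lit 0) (p (nat_lit 0x16000c) (nat_lit 0) (p (nat_lit 0x50612) (nat_lit 0) (p (nat_lit 0x40592) (nat_lit 0) (p (nat_lit 0x40492) (nat_lit 0) (p (nat_lit 0x30412) (nat_lit 0) (p (nat_lit 0x30212) (nat_lit 0) (p (nat_lit 0x20192) (nat_lit 0) (p (nat_lit 0x20092) (nat_lit 0)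 (p (nat_lit 0x10012) (nat_lit 0) pn))))))))))))))))))))))))))) :=
  Cl.node (nat_lit 0x100004) (nat_lit 2) (by decide +kernel) (ClAll.succ (ClAll.succ ClAll.zero n382) n383)

def n454 : Cl (O (nat_lit 1)) (R (nat_lit 104465))
    (p (nat_lit 0x380c2) (nat_lit 0) (p (nat_lit 0x44c2a) (nat_lit 1) (p (nat_lit 0x41) (nat_lit 0) (p (nat_lit 0x200004) (nat_lit 0) (p (nat_lit 0xd1) (nat_lit 0) (p (nat_lit 0x109) (nat_lit 1) (p (nat_lit 0x101) (nat_lit 0) (p (nat_lit 0x119) (nat_lit 0) (p (nat_lit 0xc9) (nat_lit 0) (p (nat_lit 0x89) (nat_lit 1) (p (nat_lit 0x41) (nat_lit 0) (p (nat_lit 0x8078907089a) (nat_lit 0) (p (nat_lit 0x7870886861a) (nat_lit 0) (p (nat_lit 0x800070806078a) (nat_lit 0) (p (nat_lit 0x800068785850a) (nat_lit 0) (p (nat_lit 0x587050682) (nat_lit 0) (p (nat_lit 0x506848402) (nat_lit 0) (p (nat_lit 0x160014) (nat_lit 0) (p (nat_lit 0x16000c) (nat_lit 0) (p (nat_lit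 0x50612) (nat_lit 0) (p (nat_lit 0x40592) (nat_lit 0) (p (nat_lit 0x40492) (nat_lit 0) (p (nat_lit 0x30412) (nat_lit 0) (p (nat_lit 0x30212) (nat_lit 0) (p (nat_lit 0x20192) (nat_lit 0) (p (nat_lit 0x20092) (nat_lit 0) (p (nat_lit 0x10012) (nat_lit 0) pn))))))))))))))))))))))))))) :=
  Cl.node (nat_lit 0xb0014) (nat_lit 2) (by decide +kernel) (ClAll.succ (ClAll.succ ClAll.zero n384) n385)

def n455 : Cl (O (nat_lit 1)) (R (nat_lit 104465))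
    (p (nat_lit 0x380c2) (nat_lit 0) (p (nat_lit 0x4c42a) (nat_lit 9) (p (nat_lit 0x41) (nat_lit 1) (p (nat_lit 0x200004) (nat_lit 0) (p (nat_lit 0xd1) (nat_lit 0) (p (nat_lit 0x109) (nat_lit 1) (p (nat_lit 0x101) (nat_lit 0) (p (nat_lit 0x119) (nat_lit 0) (p (nat_lit 0xc9) (nat_lit 0) (p (nat_lit 0x89) (nat_lit 1) (p (nat_lit 0x41) (nat_lit 0) (p (nat_lit 0x8078907089a) (nat_lit 0) (p (nat_lit 0x7870886861a) (nat_lit 0) (p (nat_lit 0x800070806078a) (nat_lit 0) (p (nat_lit 0x800068785850a) (nat_lit 0) (p (nat_lit 0x587050682) (nat_lit 0) (p (nat_lit 0x506848402) (nat_lit 0) (p (nat_lit 0x160014) (nat_lit 0) (p (nat_lit 0x16000c) (nat_lit 0) (p (nat_lit 0x50612) (nat_lit 0) (p (nat_lit 0x40592) (nat_lit 0) (p (nat_lit 0x40492) (nat_lit 0) (p (nat_lit 0x30412) (nat_lit 0) (p (nat_lit 0x30212) (nat_lit 0) (p (nat_lit 0x20192) (nat_lit 0) (p (nat_lit 0x20092) (nat_lit 0)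 (p (nat_lit 0x10012) (nat_lit 0) pn))))))))))))))))))))))))))) :=
  Cl.node (nat_lit 0xb0014) (nat_lit 2) (by decide +kernel) (ClAll.succ (ClAll.succ ClAll.zero n386) s706)

def n456 : Cl (O (nat_lit 1)) (R (nat_lit 104465))
    (p (nat_lit 0x41) (nat_lit 0) (p (nat_lit 0xb0014) (nat_lit 0) (p (nat_lit 0xb000c) (nat_lit 0) (p (nat_lit 0x200004) (nat_lit 1) (p (nat_lit 0xd1) (nat_lit 0) (p (nat_lit 0x109) (nat_lit 1) (p (nat_lit 0x101) (nat_lit 0) (p (nat_lit 0x119) (nat_lit 0) (p (nat_lit 0xc9) (nat_lit 0) (p (nat_lit 0x89) (nat_lit 1) (p (nat_lit 0x41) (nat_lit 0) (p (nat_lit 0x8078907089a) (nat_lit 0) (p (nat_lit 0x7870886861a) (nat_lit 0) (p (nat_lit 0x800070806078a) (nat_lit 0) (p (nat_lit 0x800068785850a) (nat_lit 0) (p (nat_lit 0x587050682) (nat_lit 0) (p (nat_lit 0x506848402) (nat_lit 0) (p (nat_lit 0x160014) (nat_lit 0) (p (nat_lit 0x16000c) (nat_lit 0) (p (nat_lit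 0x50612) (nat_lit 0) (p (nat_lit 0x40592) (nat_lit 0) (p (nat_lit 0x40492) (nat_lit 0) (p (nat_lit 0x30412) (nat_lit 0) (p (nat_lit 0x30212) (nat_lit 0) (p (nat_lit 0x20192) (nat_lit 0) (p (nat_lit 0x20092) (nat_lit 0) (p (nat_lit 0x10012) (nat_lit 0) pn))))))))))))))))))))))))))) :=
  Cl.node (nat_lit 0x44c2a) (nat_lit 12) (by decide +kernel) (ClAll.succ (ClAll.succ (ClAll.succ (ClAll.succ (ClAll.succ (ClAll.succ (ClAll.succ (ClAll.succ (ClAll.succ (ClAll.succ (ClAll.succ (ClAll.succ ClAll.zero s709) s710) s711) s712) s713) s714) s715) s716) s717) s718) s719) s720)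

def n457 : Cl (O (nat_lit 1)) (R (nat_lit 104465))
    (p (nat_lit 0x100004) (nat_lit 0) (p (nat_lit 0x200004) (nat_lit 0) (p (nat_lit 0x380c2) (nat_lit 0) (p (nat_lit 0x444aa) (nat_lit 7) (p (nat_lit 0xd1) (nat_lit 1) (p (nat_lit 0x109) (nat_lit 1) (p (nat_lit 0x101) (nat_lit 0) (p (nat_lit 0x119) (nat_lit 0) (p (nat_lit 0xc9) (nat_lit 0) (p (nat_lit 0x89) (nat_lit 1) (p (nat_lit 0x41) (nat_lit 0) (p (nat_lit 0x8078907089a) (nat_lit 0) (p (nat_lit 0x7870886861a) (nat_lit 0) (p (nat_lit 0x800070806078a) (nat_lit 0) (p (nat_lit 0x800068785850a) (nat_lit 0) (p (nat_lit 0x587050682) (nat_lit 0) (p (nat_lit 0x506848402) (nat_lit 0) (p (nat_lit 0x160014) (nat_lit 0) (p (nat_lit 0x16000c) (nat_lit 0) (p (nat_lit 0x50612) (nat_lit 0) (p (nat_lit 0x40592) (nat_lit 0) (p (nat_lit 0x40492) (nat_lit 0) (p (nat_lit 0x30412) (nat_lit 0) (p (nat_lit 0x30212) (nat_lit 0) (p (nat_lit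 0x20192) (nat_lit 0) (p (nat_lit 0x20092) (nat_lit 0) (p (nat_lit 0x10012) (nat_lit 0) pn))))))))))))))))))))))))))) :=
  Cl.node (nat_lit 0xc1) (nat_lit 2) (by decide +kernel) (ClAll.succ (ClAll.succ ClAll.zero n387) s747)

def n458 : Cl (O (nat_lit 1)) (R (nat_lit 104465))
    (p (nat_lit 0x100004) (nat_lit 1) (p (nat_lit 0x200004) (nat_lit 0) (p (nat_lit 0x380c2) (nat_lit 0) (p (nat_lit 0x444aa) (nat_lit 7) (p (nat_lit 0xd1) (nat_lit 1) (p (nat_lit 0x109) (nat_lit 1) (p (nat_lit 0x101) (nat_lit 0) (p (nat_lit 0x119) (nat_lit 0) (p (nat_lit 0xc9) (nat_lit 0) (p (nat_lit 0x89) (nat_lit 1) (p (nat_lit 0x41) (nat_lit 0) (p (nat_lit 0x8078907089a) (nat_lit 0) (p (nat_lit 0x7870886861a) (nat_lit 0) (p (nat_lit 0x800070806078a) (nat_lit 0) (p (nat_lit 0x800068785850a) (nat_lit 0) (p (nat_lit 0x587050682) (nat_lit 0) (p (nat_lit 0x506848402) (nat_lit 0) (p (nat_lit 0x160014)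 (nat_lit 0) (p (nat_lit 0x16000c) (nat_lit 0) (p (nat_lit 0x50612) (nat_lit 0) (p (nat_lit 0x40592) (nat_lit 0) (p (nat_lit 0x40492) (nat_lit 0) (p (nat_lit 0x30412) (nat_lit 0) (p (nat_lit 0x30212) (nat_lit 0) (p (nat_lit 0x20192) (nat_lit 0) (p (nat_lit 0x20092) (nat_lit 0) (p (nat_lit 0x10012) (nat_lit 0) pn))))))))))))))))))))))))))) :=
  Cl.node (nat_lit 0x10800c) (nat_lit 2) (by decide +kernel) (ClAll.succ (ClAll.succ ClAll.zero n388) s755)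

def n459 : Cl (O (nat_lit 1)) (R (nat_lit 104465))
    (p (nat_lit 0x200004) (nat_lit 0) (p (nat_lit 0xb0014) (nat_lit 0) (p (nat_lit 0x380c2) (nat_lit 1) (p (nat_lit 0x444aa) (nat_lit 7) (p (nat_lit 0xd1) (nat_lit 1) (p (nat_lit 0x109) (nat_lit 1) (p (nat_lit 0x101) (nat_lit 0) (p (nat_lit 0x119) (nat_lit 0) (p (nat_lit 0xc9) (nat_lit 0) (p (nat_lit 0x89) (nat_lit 1) (p (nat_lit 0x41) (nat_lit 0) (p (nat_lit 0x8078907089a) (nat_lit 0) (p (nat_lit 0x7870886861a) (nat_lit 0) (p (nat_lit 0x800070806078a) (nat_lit 0) (p (nat_lit 0x800068785850a) (nat_lit 0) (p (nat_lit 0x587050682) (nat_lit 0) (p (nat_lit 0x506848402) (nat_lit 0) (p (nat_lit 0x160014) (nat_lit 0) (p (nat_lit 0x16000c) (nat_lit 0) (p (nat_lit 0x50612) (nat_lit 0) (p (nat_lit 0x40592) (nat_lit 0) (p (nat_lit 0x40492) (nat_lit 0) (p (nat_lit 0x30412) (nat_lit 0) (p (nat_lit 0x30212) (nat_lit 0) (p (nat_lit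 0x20192) (nat_lit 0) (p (nat_lit 0x20092) (nat_lit 0) (p (nat_lit 0x10012) (nat_lit 0) pn))))))))))))))))))))))))))) :=
  Cl.node (nat_lit 0x100004) (nat_lit 2) (by decide +kernel) (ClAll.succ (ClAll.succ ClAll.zero n389) n390)

def n460 : Cl (O (nat_lit 1)) (R (nat_lit 104465))
    (p (nat_lit 0x1fc004) (nat_lit 0) (p (nat_lit 0xb0014) (nat_lit 1) (p (nat_lit 0x380c2) (nat_lit 1) (p (nat_lit 0x444aa) (nat_lit 7) (p (nat_lit 0xd1) (nat_lit 1) (p (nat_lit 0x109) (nat_lit 1) (p (nat_lit 0x101) (nat_lit 0) (p (nat_lit 0x119) (nat_lit 0) (p (nat_lit 0xc9) (nat_lit 0) (p (nat_lit 0x89) (nat_lit 1) (p (nat_lit 0x41) (nat_lit 0) (p (nat_lit 0x8078907089a) (nat_lit 0) (p (nat_lit 0x7870886861a) (nat_lit 0) (p (nat_lit 0x800070806078a) (nat_lit 0) (p (nat_lit 0x800068785850a) (nat_lit 0) (p (nat_lit 0x587050682) (nat_lit 0) (p (nat_lit 0x506848402) (nat_lit 0) (p (nat_lit 0x160014)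 (nat_lit 0) (p (nat_lit 0x16000c) (nat_lit 0) (p (nat_lit 0x50612) (nat_lit 0) (p (nat_lit 0x40592) (nat_lit 0) (p (nat_lit 0x40492) (nat_lit 0) (p (nat_lit 0x30412) (nat_lit 0) (p (nat_lit 0x30212) (nat_lit 0) (p (nat_lit 0x20192) (nat_lit 0) (p (nat_lit 0x20092) (nat_lit 0) (p (nat_lit 0x10012) (nat_lit 0) pn))))))))))))))))))))))))))) :=
  Cl.node (nat_lit 0xb000c) (nat_lit 2) (by decide +kernel) (ClAll.succ (ClAll.succ ClAll.zero n391) s793)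

def n461 : Cl (O (nat_lit 1)) (R (nat_lit 104465))
    (p (nat_lit 0x380c2) (nat_lit 0) (p (nat_lit 0x4c42a) (nat_lit 9) (p (nat_lit 0x109) (nat_lit 0) (p (nat_lit 0x200004) (nat_lit 0) (p (nat_lit 0xd1) (nat_lit 0) (p (nat_lit 0xc1) (nat_lit 0) (p (nat_lit 0x101) (nat_lit 1) (p (nat_lit 0x119) (nat_lit 0) (p (nat_lit 0xc9) (nat_lit 0) (p (nat_lit 0x89) (nat_lit 1) (p (nat_lit 0x41) (nat_lit 0) (p (nat_lit 0x8078907089a) (nat_lit 0) (p (nat_lit 0x7870886861a) (nat_lit 0) (p (nat_lit 0x800070806078a) (nat_lit 0) (p (nat_lit 0x800068785850a) (nat_lit 0) (p (nat_lit 0x587050682) (nat_lit 0) (p (nat_lit 0x506848402) (nat_lit 0) (p (nat_lit 0x160014) (nat_lit 0) (p (nat_lit 0x16000c) (nat_lit 0) (p (nat_lit 0x50612) (nat_lit 0) (p (nat_lit 0x40592) (nat_lit 0) (p (nat_lit 0x40492) (nat_lit 0) (p (nat_lit 0x30412) (nat_lit 0) (p (nat_lit 0x30212) (nat_lit 0) (p (nat_lit 0x20192)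 (nat_lit 0) (p (nat_lit 0x20092) (nat_lit 0) (p (nat_lit 0x10012) (nat_lit 0) pn))))))))))))))))))))))))))) :=
  Cl.node (nat_lit 0xb0014) (nat_lit 2) (by decide +kernel) (ClAll.succ (ClAll.succ ClAll.zero n392) s810)

def n462 : Cl (O (nat_lit 1)) (R (nat_lit 104465))
    (p (nat_lit 0x380c2) (nat_lit 0) (p (nat_lit 0x44c2a) (nat_lit 0) (p (nat_lit 0x109) (nat_lit 1) (p (nat_lit 0x200004) (nat_lit 0) (p (nat_lit 0xd1) (nat_lit 0) (p (nat_lit 0xc1) (nat_lit 0) (p (nat_lit 0x101) (nat_lit 1) (p (nat_lit 0x119) (nat_lit 0) (p (nat_lit 0xc9) (nat_lit 0) (p (nat_lit 0x89) (nat_lit 1) (p (nat_lit 0x41) (nat_lit 0) (p (nat_lit 0x8078907089a) (nat_lit 0) (p (nat_lit 0x7870886861a) (nat_lit 0) (p (nat_lit 0x800070806078a) (nat_lit 0) (p (nat_lit 0x800068785850a) (nat_lit 0) (p (nat_lit 0x587050682) (nat_lit 0) (p (nat_lit 0x506848402) (nat_lit 0) (p (nat_lit 0x160014) (nat_lit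 0) (p (nat_lit 0x16000c) (nat_lit 0) (p (nat_lit 0x50612) (nat_lit 0) (p (nat_lit 0x40592) (nat_lit 0) (p (nat_lit 0x40492) (nat_lit 0) (p (nat_lit 0x30412) (nat_lit 0) (p (nat_lit 0x30212) (nat_lit 0) (p (nat_lit 0x20192) (nat_lit 0) (p (nat_lit 0x20092) (nat_lit 0) (p (nat_lit 0x10012) (nat_lit 0) pn))))))))))))))))))))))))))) :=
  Cl.node (nat_lit 0x100004) (nat_lit 2) (by decide +kernel) (ClAll.succ (ClAll.succ ClAll.zero n393) s815)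

def n463 : Cl (O (nat_lit 1)) (R (nat_lit 104465))
    (p (nat_lit 0x380c2) (nat_lit 0) (p (nat_lit 0x44c2a) (nat_lit 1) (p (nat_lit 0x109) (nat_lit 1) (p (nat_lit 0x200004) (nat_lit 0) (p (nat_lit 0xd1) (nat_lit 0) (p (nat_lit 0xc1) (nat_lit 0) (p (nat_lit 0x101) (nat_lit 1) (p (nat_lit 0x119) (nat_lit 0) (p (nat_lit 0xc9) (nat_lit 0) (p (nat_lit 0x89) (nat_lit 1) (p (nat_lit 0x41) (nat_lit 0) (p (nat_lit 0x8078907089a) (nat_lit 0) (p (nat_lit 0x7870886861a) (nat_lit 0) (p (nat_lit 0x800070806078a) (nat_lit 0) (p (nat_lit 0x800068785850a) (nat_lit 0) (p (nat_lit 0x587050682) (nat_lit 0) (p (nat_lit 0x506848402) (nat_lit 0) (p (nat_lit 0x160014) (nat_lit 0) (p (nat_lit 0x16000c) (nat_lit 0) (p (nat_lit 0x50612) (nat_lit 0) (p (nat_lit 0x40592) (nat_lit 0) (p (nat_lit 0x40492) (nat_lit 0) (p (nat_lit 0x30412) (nat_lit 0) (p (nat_lit 0x30212) (nat_lit 0) (p (nat_lit 0x20192)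 (nat_lit 0) (p (nat_lit 0x20092) (nat_lit 0) (p (nat_lit 0x10012) (nat_lit 0) pn))))))))))))))))))))))))))) :=
  Cl.node (nat_lit 0xb0014) (nat_lit 2) (by decide +kernel) (ClAll.succ (ClAll.succ ClAll.zero n394) n395)

def n464 : Cl (O (nat_lit 1)) (R (nat_lit 104465))
    (p (nat_lit 0x200004) (nat_lit 0) (p (nat_lit 0xb000c) (nat_lit 0) (p (nat_lit 0x380c2) (nat_lit 0) (p (nat_lit 0x444aa) (nat_lit 7) (p (nat_lit 0xd1) (nat_lit 1) (p (nat_lit 0xc1) (nat_lit 0) (p (nat_lit 0x101) (nat_lit 1) (p (nat_lit 0x119) (nat_lit 0) (p (nat_lit 0xc9) (nat_lit 0) (p (nat_lit 0x89) (nat_lit 1) (p (nat_lit 0x41) (nat_lit 0) (p (nat_lit 0x8078907089a) (nat_lit 0) (p (nat_lit 0x7870886861a) (nat_lit 0) (p (nat_lit 0x800070806078a) (nat_lit 0) (p (nat_lit 0x800068785850a) (nat_lit 0) (p (nat_lit 0x587050682) (nat_lit 0) (p (nat_lit 0x506848402) (nat_lit 0) (p (nat_lit 0x160014) (nat_lit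 0) (p (nat_lit 0x16000c) (nat_lit 0) (p (nat_lit 0x50612) (nat_lit 0) (p (nat_lit 0x40592) (nat_lit 0) (p (nat_lit 0x40492) (nat_lit 0) (p (nat_lit 0x30412) (nat_lit 0) (p (nat_lit 0x30212) (nat_lit 0) (p (nat_lit 0x20192) (nat_lit 0) (p (nat_lit 0x20092) (nat_lit 0) (p (nat_lit 0x10012) (nat_lit 0) pn))))))))))))))))))))))))))) :=
  Cl.node (nat_lit 0xc9) (nat_lit 2) (by decide +kernel) (ClAll.succ (ClAll.succ ClAll.zero n396) s861)

def n465 : Cl (O (nat_lit 1)) (R (nat_lit 104465))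
    (p (nat_lit 0x100004) (nat_lit 0) (p (nat_lit 0x200004) (nat_lit 0) (p (nat_lit 0x380c2) (nat_lit 1) (p (nat_lit 0x444aa) (nat_lit 7) (p (nat_lit 0xd1) (nat_lit 1) (p (nat_lit 0xc1) (nat_lit 0) (p (nat_lit 0x101) (nat_lit 1) (p (nat_lit 0x119) (nat_lit 0) (p (nat_lit 0xc9) (nat_lit 0) (p (nat_lit 0x89) (nat_lit 1) (p (nat_lit 0x41) (nat_lit 0) (p (nat_lit 0x8078907089a) (nat_lit 0) (p (nat_lit 0x7870886861a) (nat_lit 0) (p (nat_lit 0x800070806078a) (nat_lit 0) (p (nat_lit 0x800068785850a) (nat_lit 0) (p (nat_lit 0x587050682) (nat_lit 0) (p (nat_lit 0x506848402) (nat_lit 0) (p (nat_lit 0x160014) (nat_lit 0) (p (nat_lit 0x16000c) (nat_lit 0) (p (nat_lit 0x50612) (nat_lit 0) (p (nat_lit 0x40592) (nat_lit 0) (p (nat_lit 0x40492) (nat_lit 0) (p (nat_lit 0x30412) (nat_lit 0) (p (nat_lit 0x30212) (nat_lit 0) (p (nat_lit 0x20192) (nat_lit 0) (p (nat_lit 0x20092) (nat_lit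 0) (p (nat_lit 0x10012) (nat_lit 0) pn))))))))))))))))))))))))))) :=
  Cl.node (nat_lit 0xc9) (nat_lit 2) (by decide +kernel) (ClAll.succ (ClAll.succ ClAll.zero n397) s879)

def n466 : Cl (O (nat_lit 1)) (R (nat_lit 104465))
    (p (nat_lit 0x100004) (nat_lit 0) (p (nat_lit 0x200004) (nat_lit 0) (p (nat_lit 0x380c2) (nat_lit 0) (p (nat_lit 0x444aa) (nat_lit 7) (p (nat_lit 0x111) (nat_lit 1) (p (nat_lit 0xd1) (nat_lit 1) (p (nat_lit 0xc1) (nat_lit 0) (p (nat_lit 0x119) (nat_lit 1) (p (nat_lit 0xc9) (nat_lit 0) (p (nat_lit 0x89) (nat_lit 1) (p (nat_lit 0x41) (nat_lit 0) (p (nat_lit 0x8078907089a) (nat_lit 0) (p (nat_lit 0x7870886861a) (nat_lit 0) (p (nat_lit 0x800070806078a) (nat_lit 0) (p (nat_lit 0x800068785850a) (nat_lit 0) (p (nat_lit 0x587050682) (nat_lit 0) (p (nat_lit 0x506848402) (nat_lit 0) (p (nat_lit 0x160014) (nat_lit 0) (p (nat_lit 0x16000c) (nat_lit 0) (p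 (nat_lit 0x50612) (nat_lit 0) (p (nat_lit 0x40592) (nat_lit 0) (p (nat_lit 0x40492) (nat_lit 0) (p (nat_lit 0x30412) (nat_lit 0) (p (nat_lit 0x30212) (nat_lit 0) (p (nat_lit 0x20192) (nat_lit 0) (p (nat_lit 0x20092) (nat_lit 0) (p (nat_lit 0x10012) (nat_lit 0) pn))))))))))))))))))))))))))) :=
  Cl.node (nat_lit 0x101) (nat_lit 2) (by decide +kernel) (ClAll.succ (ClAll.succ ClAll.zero n398) s913)

def n467 : Cl (O (nat_lit 1)) (R (nat_lit 104465))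
    (p (nat_lit 0x100004) (nat_lit 0) (p (nat_lit 0x200004) (nat_lit 0) (p (nat_lit 0x380c2) (nat_lit 1) (p (nat_lit 0x444aa) (nat_lit 7) (p (nat_lit 0x111) (nat_lit 1) (p (nat_lit 0xd1) (nat_lit 1) (p (nat_lit 0xc1) (nat_lit 0) (p (nat_lit 0x119) (nat_lit 1) (p (nat_lit 0xc9) (nat_lit 0) (p (nat_lit 0x89) (nat_lit 1) (p (nat_lit 0x41) (nat_lit 0) (p (nat_lit 0x8078907089a) (nat_lit 0) (p (nat_lit 0x7870886861a) (nat_lit 0) (p (nat_lit 0x800070806078a) (nat_lit 0) (p (nat_lit 0x800068785850a) (nat_lit 0) (p (nat_lit 0x587050682) (nat_lit 0) (p (nat_lit 0x506848402) (nat_lit 0) (p (nat_lit 0x160014) (nat_lit 0) (p (nat_lit 0x16000c) (nat_lit 0) (p (nat_lit 0x50612) (nat_lit 0) (p (nat_lit 0x40592) (nat_lit 0) (p (nat_lit 0x40492) (nat_lit 0) (p (nat_lit 0x30412) (nat_lit 0) (p (nat_lit 0x30212) (nat_lit 0) (p (nat_lit 0x20192) (nat_lit 0) (p (nat_lit 0x20092) (nat_lit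 0) (p (nat_lit 0x10012) (nat_lit 0) pn))))))))))))))))))))))))))) :=
  Cl.node (nat_lit 0x109) (nat_lit 2) (by decide +kernel) (ClAll.succ (ClAll.succ ClAll.zero n399) s923)

def n468 : Cl (O (nat_lit 1)) (R (nat_lit 104465))
    (p (nat_lit 0xb0014) (nat_lit 0) (p (nat_lit 0x200004) (nat_lit 0) (p (nat_lit 0x380c2) (nat_lit 0) (p (nat_lit 0x44c2a) (nat_lit 0) (p (nat_lit 0x111) (nat_lit 0) (p (nat_lit 0x101) (nat_lit 0) (p (nat_lit 0xc1) (nat_lit 1) (p (nat_lit 0x119) (nat_lit 1) (p (nat_lit 0xc9) (nat_lit 0) (p (nat_lit 0x89) (nat_lit 1) (p (nat_lit 0x41) (nat_lit 0) (p (nat_lit 0x8078907089a) (nat_lit 0) (p (nat_lit 0x7870886861a) (nat_lit 0) (p (nat_lit 0x800070806078a) (nat_lit 0) (p (nat_lit 0x800068785850a) (nat_lit 0) (p (nat_lit 0x587050682) (nat_lit 0) (p (nat_lit 0x506848402) (nat_lit 0) (p (nat_lit 0x160014) (nat_lit 0) (p (nat_lit 0x16000c) (nat_lit 0) (p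 (nat_lit 0x50612) (nat_lit 0) (p (nat_lit 0x40592) (nat_lit 0) (p (nat_lit 0x40492) (nat_lit 0) (p (nat_lit 0x30412) (nat_lit 0) (p (nat_lit 0x30212) (nat_lit 0) (p (nat_lit 0x20192) (nat_lit 0) (p (nat_lit 0x20092) (nat_lit 0) (p (nat_lit 0x10012) (nat_lit 0) pn))))))))))))))))))))))))))) :=
  Cl.node (nat_lit 0x101) (nat_lit 2) (by decide +kernel) (ClAll.succ (ClAll.succ ClAll.zero s930) n400)

def n469 : Cl (O (nat_lit 1)) (R (nat_lit 104465))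
    (p (nat_lit 0x200004) (nat_lit 0) (p (nat_lit 0xb0014) (nat_lit 0) (p (nat_lit 0x380c2) (nat_lit 0) (p (nat_lit 0x444aa) (nat_lit 7) (p (nat_lit 0x111) (nat_lit 1) (p (nat_lit 0x101) (nat_lit 0) (p (nat_lit 0xc1) (nat_lit 1) (p (nat_lit 0x119) (nat_lit 1) (p (nat_lit 0xc9) (nat_lit 0) (p (nat_lit 0x89) (nat_lit 1) (p (nat_lit 0x41) (nat_lit 0) (p (nat_lit 0x8078907089a) (nat_lit 0) (p (nat_lit 0x7870886861a) (nat_lit 0) (p (nat_lit 0x800070806078a) (nat_lit 0) (p (nat_lit 0x800068785850a) (nat_lit 0) (p (nat_lit 0x587050682) (nat_lit 0) (p (nat_lit 0x506848402) (nat_lit 0) (p (nat_lit 0x160014) (nat_lit 0) (p (nat_lit 0x16000c) (nat_lit 0) (p (nat_lit 0x50612) (nat_lit 0) (p (nat_lit 0x40592) (nat_lit 0) (p (nat_lit 0x40492) (nat_lit 0) (p (nat_lit 0x30412) (nat_lit 0) (p (nat_lit 0x30212) (nat_lit 0) (p (nat_lit 0x20192) (nat_lit 0) (p (nat_lit 0x20092) (nat_lit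 0) (p (nat_lit 0x10012) (nat_lit 0) pn))))))))))))))))))))))))))) :=
  Cl.node (nat_lit 0x109) (nat_lit 2) (by decide +kernel) (ClAll.succ (ClAll.succ ClAll.zero n401) s960)

def n470 : Cl (O (nat_lit 1)) (R (nat_lit 104465))
    (p (nat_lit 0x1fc004) (nat_lit 0) (p (nat_lit 0xb0014) (nat_lit 1) (p (nat_lit 0x380c2) (nat_lit 0) (p (nat_lit 0x444aa) (nat_lit 7) (p (nat_lit 0x111) (nat_lit 1) (p (nat_lit 0x101) (nat_lit 0) (p (nat_lit 0xc1) (nat_lit 1) (p (nat_lit 0x119) (nat_lit 1) (p (nat_lit 0xc9) (nat_lit 0) (p (nat_lit 0x89) (nat_lit 1) (p (nat_lit 0x41) (nat_lit 0) (p (nat_lit 0x8078907089a) (nat_lit 0) (p (nat_lit 0x7870886861a) (nat_lit 0) (p (nat_lit 0x800070806078a) (nat_lit 0) (p (nat_lit 0x800068785850a) (nat_lit 0) (p (nat_lit 0x587050682) (nat_lit 0) (p (nat_lit 0x506848402) (nat_lit 0) (p (nat_lit 0x160014) (nat_lit 0) (p (nat_lit 0x16000c) (nat_lit 0) (p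 (nat_lit 0x50612) (nat_lit 0) (p (nat_lit 0x40592) (nat_lit 0) (p (nat_lit 0x40492) (nat_lit 0) (p (nat_lit 0x30412) (nat_lit 0) (p (nat_lit 0x30212) (nat_lit 0) (p (nat_lit 0x20192) (nat_lit 0) (p (nat_lit 0x20092) (nat_lit 0) (p (nat_lit 0x10012) (nat_lit 0) pn))))))))))))))))))))))))))) :=
  Cl.node (nat_lit 0xb000c) (nat_lit 2) (by decide +kernel) (ClAll.succ (ClAll.succ ClAll.zero n402) s965)

def n471 : Cl (O (nat_lit 1)) (R (nat_lit 104465))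
    (p (nat_lit 0x100004) (nat_lit 0) (p (nat_lit 0x200004) (nat_lit 0) (p (nat_lit 0x380c2) (nat_lit 1) (p (nat_lit 0x444aa) (nat_lit 7) (p (nat_lit 0x111) (nat_lit 1) (p (nat_lit 0x101) (nat_lit 0) (p (nat_lit 0xc1) (nat_lit 1) (p (nat_lit 0x119) (nat_lit 1) (p (nat_lit 0xc9) (nat_lit 0) (p (nat_lit 0x89) (nat_lit 1) (p (nat_lit 0x41) (nat_lit 0) (p (nat_lit 0x8078907089a) (nat_lit 0) (p (nat_lit 0x7870886861a) (nat_lit 0) (p (nat_lit 0x800070806078a) (nat_lit 0) (p (nat_lit 0x800068785850a) (nat_lit 0) (p (nat_lit 0x587050682) (nat_lit 0) (p (nat_lit 0x506848402) (nat_lit 0) (p (nat_lit 0x160014) (nat_lit 0) (p (nat_lit 0x16000c) (nat_lit 0) (p (nat_lit 0x50612) (nat_lit 0) (p (nat_lit 0x40592) (nat_lit 0) (p (nat_lit 0x40492) (nat_lit 0) (p (nat_lit 0x30412) (nat_lit 0) (p (nat_lit 0x30212) (nat_lit 0) (p (nat_lit 0x20192) (nat_lit 0) (p (nat_lit 0x20092) (nat_lit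 0) (p (nat_lit 0x10012) (nat_lit 0) pn))))))))))))))))))))))))))) :=
  Cl.node (nat_lit 0x109) (nat_lit 2) (by decide +kernel) (ClAll.succ (ClAll.succ ClAll.zero n403) s970)

def n472 : Cl (O (nat_lit 1)) (R (nat_lit 104465))
    (p (nat_lit 0xb000c) (nat_lit 0) (p (nat_lit 0x200004) (nat_lit 0) (p (nat_lit 0x380c2) (nat_lit 0) (p (nat_lit 0x444aa) (nat_lit 7) (p (nat_lit 0x119) (nat_lit 1) (p (nat_lit 0x111) (nat_lit 0) (p (nat_lit 0x101) (nat_lit 0) (p (nat_lit 0x109) (nat_lit 0) (p (nat_lit 0xc9) (nat_lit 1) (p (nat_lit 0x89) (nat_lit 1) (p (nat_lit 0x41) (nat_lit 0) (p (nat_lit 0x8078907089a) (nat_lit 0) (p (nat_lit 0x7870886861a) (nat_lit 0) (p (nat_lit 0x800070806078a) (nat_lit 0) (p (nat_lit 0x800068785850a) (nat_lit 0) (p (nat_lit 0x587050682) (nat_lit 0) (p (nat_lit 0x506848402) (nat_lit 0) (p (nat_lit 0x160014) (nat_lit 0) (p (nat_lit 0x16000c) (nat_lit 0)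 (p (nat_lit 0x50612) (nat_lit 0) (p (nat_lit 0x40592) (nat_lit 0) (p (nat_lit 0x40492) (nat_lit 0) (p (nat_lit 0x30412) (nat_lit 0) (p (nat_lit 0x30212) (nat_lit 0) (p (nat_lit 0x20192) (nat_lit 0) (p (nat_lit 0x20092) (nat_lit 0) (p (nat_lit 0x10012) (nat_lit 0) pn))))))))))))))))))))))))))) :=
  Cl.node (nat_lit 0x100004) (nat_lit 2) (by decide +kernel) (ClAll.succ (ClAll.succ ClAll.zero s997) n404)

def n473 : Cl (O (nat_lit 1)) (R (nat_lit 104465))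
    (p (nat_lit 0x200004) (nat_lit 0) (p (nat_lit 0x380c2) (nat_lit 1) (p (nat_lit 0x4c42a) (nat_lit 10) (p (nat_lit 0x111) (nat_lit 0) (p (nat_lit 0x89) (nat_lit 0) (p (nat_lit 0x109) (nat_lit 1) (p (nat_lit 0x101) (nat_lit 0) (p (nat_lit 0x119) (nat_lit 0) (p (nat_lit 0xd1) (nat_lit 0) (p (nat_lit 0x81) (nat_lit 0) (p (nat_lit 0x41) (nat_lit 1) (p (nat_lit 0x8078907089a) (nat_lit 0) (p (nat_lit 0x7870886861a) (nat_lit 0) (p (nat_lit 0x800070806078a) (nat_lit 0) (p (nat_lit 0x800068785850a) (nat_lit 0) (p (nat_lit 0x587050682) (nat_lit 0) (p (nat_lit 0x506848402) (nat_lit 0) (p (nat_lit 0x160014) (nat_lit 0) (p (nat_lit 0x16000c) (nat_lit 0) (p (nat_lit 0x50612) (nat_lit 0) (p (nat_lit 0x40592) (nat_lit 0) (p (nat_lit 0x40492) (nat_lit 0) (p (nat_lit 0x30412) (nat_lit 0) (p (nat_lit 0x30212) (nat_lit 0) (p (nat_lit 0x20192) (nat_lit 0) (p (nat_lit 0x20092) (nat_lit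 0) (p (nat_lit 0x10012) (nat_lit 0) pn))))))))))))))))))))))))))) :=
  Cl.node (nat_lit 0xc9) (nat_lit 2) (by decide +kernel) (ClAll.succ (ClAll.succ ClAll.zero s1035) s1036)

def n474 : Cl (O (nat_lit 1)) (R (nat_lit 104465))
    (p (nat_lit 0x200004) (nat_lit 0) (p (nat_lit 0x380c2) (nat_lit 1) (p (nat_lit 0x4c42a) (nat_lit 10) (p (nat_lit 0x111) (nat_lit 1) (p (nat_lit 0x89) (nat_lit 0) (p (nat_lit 0x109) (nat_lit 1) (p (nat_lit 0x101) (nat_lit 0) (p (nat_lit 0x119) (nat_lit 0) (p (nat_lit 0xd1) (nat_lit 0) (p (nat_lit 0x81) (nat_lit 0) (p (nat_lit 0x41) (nat_lit 1) (p (nat_lit 0x8078907089a) (nat_lit 0) (p (nat_lit 0x7870886861a) (nat_lit 0) (p (nat_lit 0x800070806078a) (nat_lit 0) (p (nat_lit 0x800068785850a) (nat_lit 0) (p (nat_lit 0x587050682) (nat_lit 0) (p (nat_lit 0x506848402) (nat_lit 0) (p (nat_lit 0x160014) (nat_lit 0) (p (nat_lit 0x16000c) (nat_lit 0) (p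 (nat_lit 0x50612) (nat_lit 0) (p (nat_lit 0x40592) (nat_lit 0) (p (nat_lit 0x40492) (nat_lit 0) (p (nat_lit 0x30412) (nat_lit 0) (p (nat_lit 0x30212) (nat_lit 0) (p (nat_lit 0x20192) (nat_lit 0) (p (nat_lit 0x20092) (nat_lit 0) (p (nat_lit 0x10012) (nat_lit 0) pn))))))))))))))))))))))))))) :=
  Cl.node (nat_lit 0x100004) (nat_lit 2) (by decide +kernel) (ClAll.succ (ClAll.succ ClAll.zero s1051) s1052)

def n475 : Cl (O (nat_lit 1)) (R (nat_lit 104465))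
    (p (nat_lit 0x200004) (nat_lit 0) (p (nat_lit 0x380c2) (nat_lit 0) (p (nat_lit 0x4c42a) (nat_lit 10) (p (nat_lit 0xc9) (nat_lit 0) (p (nat_lit 0x89) (nat_lit 1) (p (nat_lit 0x109) (nat_lit 1) (p (nat_lit 0x101) (nat_lit 0) (p (nat_lit 0x119) (nat_lit 0) (p (nat_lit 0xd1) (nat_lit 0) (p (nat_lit 0x81) (nat_lit 0) (p (nat_lit 0x41) (nat_lit 1) (p (nat_lit 0x8078907089a) (nat_lit 0) (p (nat_lit 0x7870886861a) (nat_lit 0) (p (nat_lit 0x800070806078a) (nat_lit 0) (p (nat_lit 0x800068785850a) (nat_lit 0) (p (nat_lit 0x587050682) (nat_lit 0) (p (nat_lit 0x506848402) (nat_lit 0) (p (nat_lit 0x160014) (nat_lit 0) (p (nat_lit 0x16000c) (nat_lit 0) (p (nat_lit 0x50612) (nat_lit 0) (p (nat_lit 0x40592) (nat_lit 0) (p (nat_lit 0x40492) (nat_lit 0) (p (nat_lit 0x30412) (nat_lit 0) (p (nat_lit 0x30212) (nat_lit 0) (p (nat_lit 0x20192) (nat_lit 0) (p (nat_lit 0x20092) (nat_lit 0)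 (p (nat_lit 0x10012) (nat_lit 0) pn))))))))))))))))))))))))))) :=
  Cl.node (nat_lit 0xd1) (nat_lit 2) (by decide +kernel) (ClAll.succ (ClAll.succ ClAll.zero s1065) n405)

def n476 : Cl (O (nat_lit 1)) (R (nat_lit 104465))
    (p (nat_lit 0x200004) (nat_lit 0) (p (nat_lit 0x380c2) (nat_lit 0) (p (nat_lit 0x4c42a) (nat_lit 10) (p (nat_lit 0xc9) (nat_lit 0) (p (nat_lit 0x89) (nat_lit 1) (p (nat_lit 0xc1) (nat_lit 0) (p (nat_lit 0x101) (nat_lit 1) (p (nat_lit 0x119) (nat_lit 0) (p (nat_lit 0xd1) (nat_lit 0) (p (nat_lit 0x81) (nat_lit 0) (p (nat_lit 0x41) (nat_lit 1) (p (nat_lit 0x8078907089a) (nat_lit 0) (p (nat_lit 0x7870886861a) (nat_lit 0) (p (nat_lit 0x800070806078a) (nat_lit 0) (p (nat_lit 0x800068785850a) (nat_lit 0) (p (nat_lit 0x587050682) (nat_lit 0) (p (nat_lit 0x506848402) (nat_lit 0) (p (nat_lit 0x160014) (nat_lit 0) (p (nat_lit 0x16000c) (nat_lit 0) (p (nat_lit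 0x50612) (nat_lit 0) (p (nat_lit 0x40592) (nat_lit 0) (p (nat_lit 0x40492) (nat_lit 0) (p (nat_lit 0x30412) (nat_lit 0) (p (nat_lit 0x30212) (nat_lit 0) (p (nat_lit 0x20192) (nat_lit 0) (p (nat_lit 0x20092) (nat_lit 0) (p (nat_lit 0x10012) (nat_lit 0) pn))))))))))))))))))))))))))) :=
  Cl.node (nat_lit 0x100004) (nat_lit 2) (by decide +kernel) (ClAll.succ (ClAll.succ ClAll.zero n406) s1130)

def n477 : Cl (O (nat_lit 1)) (R (nat_lit 104465))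
    (p (nat_lit 0x200004) (nat_lit 0) (p (nat_lit 0x380c2) (nat_lit 1) (p (nat_lit 0x4c42a) (nat_lit 10) (p (nat_lit 0xc9) (nat_lit 0) (p (nat_lit 0x89) (nat_lit 1) (p (nat_lit 0xc1) (nat_lit 0) (p (nat_lit 0x101) (nat_lit 1) (p (nat_lit 0x119) (nat_lit 0) (p (nat_lit 0xd1) (nat_lit 0) (p (nat_lit 0x81) (nat_lit 0) (p (nat_lit 0x41) (nat_lit 1) (p (nat_lit 0x8078907089a) (nat_lit 0) (p (nat_lit 0x7870886861a) (nat_lit 0) (p (nat_lit 0x800070806078a) (nat_lit 0) (p (nat_lit 0x800068785850a) (nat_lit 0) (p (nat_lit 0x587050682) (nat_lit 0) (p (nat_lit 0x506848402) (nat_lit 0) (p (nat_lit 0x160014) (nat_lit 0) (p (nat_lit 0x16000c) (nat_lit 0) (p (nat_lit 0x50612) (nat_lit 0) (p (nat_lit 0x40592) (nat_lit 0) (p (nat_lit 0x40492) (nat_lit 0) (p (nat_lit 0x30412) (nat_lit 0) (p (nat_lit 0x30212) (nat_lit 0) (p (nat_lit 0x20192) (nat_lit 0) (p (nat_lit 0x20092) (nat_lit 0)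 (p (nat_lit 0x10012) (nat_lit 0) pn))))))))))))))))))))))))))) :=
  Cl.node (nat_lit 0x100004) (nat_lit 2) (by decide +kernel) (ClAll.succ (ClAll.succ ClAll.zero s1132) s1133)

def n478 : Cl (O (nat_lit 1)) (R (nat_lit 104465))
    (p (nat_lit 0x200004) (nat_lit 0) (p (nat_lit 0x380c2) (nat_lit 0) (p (nat_lit 0x4c42a) (nat_lit 10) (p (nat_lit 0xc9) (nat_lit 1) (p (nat_lit 0x89) (nat_lit 1) (p (nat_lit 0xc1) (nat_lit 0) (p (nat_lit 0x101) (nat_lit 1) (p (nat_lit 0x119) (nat_lit 0) (p (nat_lit 0xd1) (nat_lit 0) (p (nat_lit 0x81) (nat_lit 0) (p (nat_lit 0x41) (nat_lit 1) (p (nat_lit 0x8078907089a) (nat_lit 0) (p (nat_lit 0x7870886861a) (nat_lit 0) (p (nat_lit 0x800070806078a) (nat_lit 0) (p (nat_lit 0x800068785850a) (nat_lit 0) (p (nat_lit 0x587050682) (nat_lit 0) (p (nat_lit 0x506848402) (nat_lit 0) (p (nat_lit 0x160014) (nat_lit 0) (p (nat_lit 0x16000c) (nat_lit 0) (p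 (nat_lit 0x50612) (nat_lit 0) (p (nat_lit 0x40592) (nat_lit 0) (p (nat_lit 0x40492) (nat_lit 0) (p (nat_lit 0x30412) (nat_lit 0) (p (nat_lit 0x30212) (nat_lit 0) (p (nat_lit 0x20192) (nat_lit 0) (p (nat_lit 0x20092) (nat_lit 0) (p (nat_lit 0x10012) (nat_lit 0) pn))))))))))))))))))))))))))) :=
  Cl.node (nat_lit 0x100004) (nat_lit 2) (by decide +kernel) (ClAll.succ (ClAll.succ ClAll.zero s1146) s1147)

def n479 : Cl (O (nat_lit 1)) (R (nat_lit 104465))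
    (p (nat_lit 0x200004) (nat_lit 0) (p (nat_lit 0x380c2) (nat_lit 1) (p (nat_lit 0x4c42a) (nat_lit 10) (p (nat_lit 0xc9) (nat_lit 1) (p (nat_lit 0x89) (nat_lit 1) (p (nat_lit 0xc1) (nat_lit 0) (p (nat_lit 0x101) (nat_lit 1) (p (nat_lit 0x119) (nat_lit 0) (p (nat_lit 0xd1) (nat_lit 0) (p (nat_lit 0x81) (nat_lit 0) (p (nat_lit 0x41) (nat_lit 1) (p (nat_lit 0x8078907089a) (nat_lit 0) (p (nat_lit 0x7870886861a) (nat_lit 0) (p (nat_lit 0x800070806078a) (nat_lit 0) (p (nat_lit 0x800068785850a) (nat_lit 0) (p (nat_lit 0x587050682) (nat_lit 0) (p (nat_lit 0x506848402) (nat_lit 0) (p (nat_lit 0x160014) (nat_lit 0) (p (nat_lit 0x16000c) (nat_lit 0) (p (nat_lit 0x50612) (nat_lit 0) (p (nat_lit 0x40592) (nat_lit 0) (p (nat_lit 0x40492) (nat_lit 0) (p (nat_lit 0x30412) (nat_lit 0) (p (nat_lit 0x30212) (nat_lit 0) (p (nat_lit 0x20192) (nat_lit 0) (p (nat_lit 0x20092) (nat_lit 0)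 (p (nat_lit 0x10012) (nat_lit 0) pn))))))))))))))))))))))))))) :=
  Cl.node (nat_lit 0x100004) (nat_lit 2) (by decide +kernel) (ClAll.succ (ClAll.succ ClAll.zero s1149) s1150)

def n480 : Cl (O (nat_lit 1)) (R (nat_lit 104465))
    (p (nat_lit 0xb000c) (nat_lit 0) (p (nat_lit 0xb0014) (nat_lit 0) (p (nat_lit 0x380c2) (nat_lit 0) (p (nat_lit 0x3cc2a) (nat_lit 2) (p (nat_lit 0x89) (nat_lit 0) (p (nat_lit 0xc1) (nat_lit 1) (p (nat_lit 0x101) (nat_lit 1) (p (nat_lit 0x119) (nat_lit 0) (p (nat_lit 0xd1) (nat_lit 0) (p (nat_lit 0x81) (nat_lit 0) (p (nat_lit 0x41) (nat_lit 1) (p (nat_lit 0x8078907089a) (nat_lit 0) (p (nat_lit 0x7870886861a) (nat_lit 0) (p (nat_lit 0x800070806078a) (nat_lit 0) (p (nat_lit 0x800068785850a) (nat_lit 0) (p (nat_lit 0x587050682) (nat_lit 0) (p (nat_lit 0x506848402) (nat_lit 0) (p (nat_lit 0x160014) (nat_lit 0) (p (nat_lit 0x16000c) (nat_lit 0) (p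 (nat_lit 0x50612) (nat_lit 0) (p (nat_lit 0x40592) (nat_lit 0) (p (nat_lit 0x40492) (nat_lit 0) (p (nat_lit 0x30412) (nat_lit 0) (p (nat_lit 0x30212) (nat_lit 0) (p (nat_lit 0x20192) (nat_lit 0) (p (nat_lit 0x20092) (nat_lit 0) (p (nat_lit 0x10012) (nat_lit 0) pn))))))))))))))))))))))))))) :=
  Cl.node (nat_lit 0x101) (nat_lit 2) (by decide +kernel) (ClAll.succ (ClAll.succ ClAll.zero n407) n408)

def n481 : Cl (O (nat_lit 1)) (R (nat_lit 104465))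
    (p (nat_lit 0xb000c) (nat_lit 1) (p (nat_lit 0xb0014) (nat_lit 0) (p (nat_lit 0x380c2) (nat_lit 0) (p (nat_lit 0x3cc2a) (nat_lit 2) (p (nat_lit 0x89) (nat_lit 0) (p (nat_lit 0xc1) (nat_lit 1) (p (nat_lit 0x101) (nat_lit 1) (p (nat_lit 0x119) (nat_lit 0) (p (nat_lit 0xd1) (nat_lit 0) (p (nat_lit 0x81) (nat_lit 0) (p (nat_lit 0x41) (nat_lit 1) (p (nat_lit 0x8078907089a) (nat_lit 0) (p (nat_lit 0x7870886861a) (nat_lit 0) (p (nat_lit 0x800070806078a) (nat_lit 0) (p (nat_lit 0x800068785850a) (nat_lit 0) (p (nat_lit 0x587050682) (nat_lit 0) (p (nat_lit 0x506848402) (nat_lit 0) (p (nat_lit 0x160014) (nat_lit 0) (p (nat_lit 0x16000c) (nat_lit 0) (p (nat_lit 0x50612) (nat_lit 0) (p (nat_lit 0x40592) (nat_lit 0) (p (nat_lit 0x40492) (nat_lit 0) (p (nat_lit 0x30412) (nat_lit 0) (p (nat_lit 0x30212) (nat_lit 0) (p (nat_lit 0x20192) (nat_lit 0) (p (nat_lit 0x20092) (nat_lit 0)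 (p (nat_lit 0x10012) (nat_lit 0) pn))))))))))))))))))))))))))) :=
  Cl.node (nat_lit 0x1fc004) (nat_lit 2) (by decide +kernel) (ClAll.succ (ClAll.succ ClAll.zero n409) s1175)

def n482 : Cl (O (nat_lit 1)) (R (nat_lit 104465))
    (p (nat_lit 0x200004) (nat_lit 0) (p (nat_lit 0xb0014) (nat_lit 0) (p (nat_lit 0x380c2) (nat_lit 1) (p (nat_lit 0x3c4aa) (nat_lit 7) (p (nat_lit 0x89) (nat_lit 1) (p (nat_lit 0xc1) (nat_lit 1) (p (nat_lit 0x101) (nat_lit 1) (p (nat_lit 0x119) (nat_lit 0) (p (nat_lit 0xd1) (nat_lit 0) (p (nat_lit 0x81) (nat_lit 0) (p (nat_lit 0x41) (nat_lit 1) (p (nat_lit 0x8078907089a) (nat_lit 0) (p (nat_lit 0x7870886861a) (nat_lit 0) (p (nat_lit 0x800070806078a) (nat_lit 0) (p (nat_lit 0x800068785850a) (nat_lit 0) (p (nat_lit 0x587050682) (nat_lit 0) (p (nat_lit 0x506848402) (nat_lit 0) (p (nat_lit 0x160014) (nat_lit 0) (p (nat_lit 0x16000c) (nat_lit 0) (p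 (nat_lit 0x50612) (nat_lit 0) (p (nat_lit 0x40592) (nat_lit 0) (p (nat_lit 0x40492) (nat_lit 0) (p (nat_lit 0x30412) (nat_lit 0) (p (nat_lit 0x30212) (nat_lit 0) (p (nat_lit 0x20192) (nat_lit 0) (p (nat_lit 0x20092) (nat_lit 0) (p (nat_lit 0x10012) (nat_lit 0) pn))))))))))))))))))))))))))) :=
  Cl.node (nat_lit 0x81) (nat_lit 2) (by decide +kernel) (ClAll.succ (ClAll.succ ClAll.zero s1196) s1197)

def n483 : Cl (O (nat_lit 1)) (R (nat_lit 104465))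
    (p (nat_lit 0xc9) (nat_lit 0) (p (nat_lit 0x101) (nat_lit 0) (p (nat_lit 0x380c2) (nat_lit 0) (p (nat_lit 0x3c4aa) (nat_lit 8) (p (nat_lit 0x89) (nat_lit 1) (p (nat_lit 0xc1) (nat_lit 1) (p (nat_lit 0x101) (nat_lit 1) (p (nat_lit 0x119) (nat_lit 0) (p (nat_lit 0xd1) (nat_lit 0) (p (nat_lit 0x81) (nat_lit 0) (p (nat_lit 0x41) (nat_lit 1) (p (nat_lit 0x8078907089a) (nat_lit 0) (p (nat_lit 0x7870886861a) (nat_lit 0) (p (nat_lit 0x800070806078a) (nat_lit 0) (p (nat_lit 0x800068785850a) (nat_lit 0) (p (nat_lit 0x587050682) (nat_lit 0) (p (nat_lit 0x506848402) (nat_lit 0) (p (nat_lit 0x160014) (nat_lit 0) (p (nat_lit 0x16000c) (nat_lit 0) (p (nat_lit 0x50612) (nat_lit 0) (p (nat_lit 0x40592) (nat_lit 0) (p (nat_lit 0x40492) (nat_lit 0) (p (nat_lit 0x30412) (nat_lit 0) (p (nat_lit 0x30212) (nat_lit 0) (p (nat_lit 0x20192) (nat_lit 0) (p (nat_lit 0x20092) (nat_lit 0) (p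 (nat_lit 0x10012) (nat_lit 0) pn))))))))))))))))))))))))))) :=
  Cl.node (nat_lit 0xb0014) (nat_lit 2) (by decide +kernel) (ClAll.succ (ClAll.succ ClAll.zero n410) s1202)

def n484 : Cl (O (nat_lit 1)) (R (nat_lit 104465))
    (p (nat_lit 0xc1) (nat_lit 0) (p (nat_lit 0x101) (nat_lit 1) (p (nat_lit 0x380c2) (nat_lit 0) (p (nat_lit 0x3c4aa) (nat_lit 8) (p (nat_lit 0x89) (nat_lit 1) (p (nat_lit 0xc1) (nat_lit 1) (p (nat_lit 0x101) (nat_lit 1) (p (nat_lit 0x119) (nat_lit 0) (p (nat_lit 0xd1) (nat_lit 0) (p (nat_lit 0x81) (nat_lit 0) (p (nat_lit 0x41) (nat_lit 1) (p (nat_lit 0x8078907089a) (nat_lit 0) (p (nat_lit 0x7870886861a) (nat_lit 0) (p (nat_lit 0x800070806078a) (nat_lit 0) (p (nat_lit 0x800068785850a) (nat_lit 0) (p (nat_lit 0x587050682) (nat_lit 0) (p (nat_lit 0x506848402) (nat_lit 0) (p (nat_lit 0x160014) (nat_lit 0) (p (nat_lit 0x16000c) (nat_lit 0) (p (nat_lit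 0x50612) (nat_lit 0) (p (nat_lit 0x40592) (nat_lit 0) (p (nat_lit 0x40492) (nat_lit 0) (p (nat_lit 0x30412) (nat_lit 0) (p (nat_lit 0x30212) (nat_lit 0) (p (nat_lit 0x20192) (nat_lit 0) (p (nat_lit 0x20092) (nat_lit 0) (p (nat_lit 0x10012) (nat_lit 0) pn))))))))))))))))))))))))))) :=
  Cl.node (nat_lit 0xc9) (nat_lit 2) (by decide +kernel) (ClAll.succ (ClAll.succ ClAll.zero n411) s1206)

def n485 : Cl (O (nat_lit 1)) (R (nat_lit 104465))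
    (p (nat_lit 0x200004) (nat_lit 0) (p (nat_lit 0x380c2) (nat_lit 0) (p (nat_lit 0x44c2a) (nat_lit 0) (p (nat_lit 0x109) (nat_lit 0) (p (nat_lit 0x89) (nat_lit 1) (p (nat_lit 0xc9) (nat_lit 1) (p (nat_lit 0xc1) (nat_lit 0) (p (nat_lit 0x119) (nat_lit 1) (p (nat_lit 0xd1) (nat_lit 0) (p (nat_lit 0x81) (nat_lit 0) (p (nat_lit 0x41) (nat_lit 1) (p (nat_lit 0x8078907089a) (nat_lit 0) (p (nat_lit 0x7870886861a) (nat_lit 0) (p (nat_lit 0x800070806078a) (nat_lit 0) (p (nat_lit 0x800068785850a) (nat_lit 0) (p (nat_lit 0x587050682) (nat_lit 0) (p (nat_lit 0x506848402) (nat_lit 0) (p (nat_lit 0x160014) (nat_lit 0) (p (nat_lit 0x16000c) (nat_lit 0) (p (nat_lit 0x50612) (nat_lit 0) (p (nat_lit 0x40592) (nat_lit 0) (p (nat_lit 0x40492) (nat_lit 0) (p (nat_lit 0x30412) (nat_lit 0) (p (nat_lit 0x30212) (nat_lit 0) (p (nat_lit 0x20192) (nat_lit 0) (p (nat_lit 0x20092) (nat_lit 0)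 (p (nat_lit 0x10012) (nat_lit 0) pn))))))))))))))))))))))))))) :=
  Cl.node (nat_lit 0x109) (nat_lit 2) (by decide +kernel) (ClAll.succ (ClAll.succ ClAll.zero s1216) n412)

def n486 : Cl (O (nat_lit 1)) (R (nat_lit 104465))
    (p (nat_lit 0xb000c) (nat_lit 0) (p (nat_lit 0x380c2) (nat_lit 0) (p (nat_lit 0x3c4aa) (nat_lit 8) (p (nat_lit 0x109) (nat_lit 1) (p (nat_lit 0x89) (nat_lit 1) (p (nat_lit 0xc9) (nat_lit 1) (p (nat_lit 0xc1) (nat_lit 0) (p (nat_lit 0x119) (nat_lit 1) (p (nat_lit 0xd1) (nat_lit 0) (p (nat_lit 0x81) (nat_lit 0) (p (nat_lit 0x41) (nat_lit 1) (p (nat_lit 0x8078907089a) (nat_lit 0) (p (nat_lit 0x7870886861a) (nat_lit 0) (p (nat_lit 0x800070806078a) (nat_lit 0) (p (nat_lit 0x800068785850a) (nat_lit 0) (p (nat_lit 0x587050682) (nat_lit 0) (p (nat_lit 0x506848402) (nat_lit 0) (p (nat_lit 0x160014) (nat_lit 0) (p (nat_lit 0x16000c) (nat_lit 0) (p (nat_lit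 0x50612) (nat_lit 0) (p (nat_lit 0x40592) (nat_lit 0) (p (nat_lit 0x40492) (nat_lit 0) (p (nat_lit 0x30412) (nat_lit 0) (p (nat_lit 0x30212) (nat_lit 0) (p (nat_lit 0x20192) (nat_lit 0) (p (nat_lit 0x20092) (nat_lit 0) (p (nat_lit 0x10012) (nat_lit 0) pn))))))))))))))))))))))))))) :=
  Cl.node (nat_lit 0xc9) (nat_lit 2) (by decide +kernel) (ClAll.succ (ClAll.succ ClAll.zero n413) s1243)

def n487 : Cl (O (nat_lit 1)) (R (nat_lit 104465))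
    (p (nat_lit 0x200004) (nat_lit 0) (p (nat_lit 0x380c2) (nat_lit 0) (p (nat_lit 0x44c2a) (nat_lit 0) (p (nat_lit 0x109) (nat_lit 0) (p (nat_lit 0x89) (nat_lit 1) (p (nat_lit 0x101) (nat_lit 0) (p (nat_lit 0xc1) (nat_lit 1) (p (nat_lit 0x119) (nat_lit 1) (p (nat_lit 0xd1) (nat_lit 0) (p (nat_lit 0x81) (nat_lit 0) (p (nat_lit 0x41) (nat_lit 1) (p (nat_lit 0x8078907089a) (nat_lit 0) (p (nat_lit 0x7870886861a) (nat_lit 0) (p (nat_lit 0x800070806078a) (nat_lit 0) (p (nat_lit 0x800068785850a) (nat_lit 0) (p (nat_lit 0x587050682) (nat_lit 0) (p (nat_lit 0x506848402) (nat_lit 0) (p (nat_lit 0x160014) (nat_lit 0) (p (nat_lit 0x16000c) (nat_lit 0) (p (nat_lit 0x50612) (nat_lit 0) (p (nat_lit 0x40592) (nat_lit 0) (p (nat_lit 0x40492) (nat_lit 0) (p (nat_lit 0x30412) (nat_lit 0) (p (nat_lit 0x30212) (nat_lit 0) (p (nat_lit 0x20192) (nat_lit 0) (p (nat_lit 0x20092) (nat_lit 0)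 (p (nat_lit 0x10012) (nat_lit 0) pn))))))))))))))))))))))))))) :=
  Cl.node (nat_lit 0x4c42a) (nat_lit 12) (by decide +kernel) (ClAll.succ (ClAll.succ (ClAll.succ (ClAll.succ (ClAll.succ (ClAll.succ (ClAll.succ (ClAll.succ (ClAll.succ (ClAll.succ (ClAll.succ (ClAll.succ ClAll.zero s1250) s1251) s1252) s1253) s1254) s1255) s1256) s1257) s1258) s1259) s1260) s1261)

def n488 : Cl (O (nat_lit 1)) (R (nat_lit 104465))
    (p (nat_lit 0xb000c) (nat_lit 0) (p (nat_lit 0x380c2) (nat_lit 0) (p (nat_lit 0x3c4aa) (nat_lit 8) (p (nat_lit 0x109) (nat_lit 1) (p (nat_lit 0x89) (nat_lit 1) (p (nat_lit 0x101) (nat_lit 0) (p (nat_lit 0xc1) (nat_lit 1) (p (nat_lit 0x119) (nat_lit 1) (p (nat_lit 0xd1) (nat_lit 0) (p (nat_lit 0x81) (nat_lit 0) (p (nat_lit 0x41) (nat_lit 1) (p (nat_lit 0x8078907089a) (nat_lit 0) (p (nat_lit 0x7870886861a) (nat_lit 0) (p (nat_lit 0x800070806078a) (nat_lit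 0) (p (nat_lit 0x800068785850a) (nat_lit 0) (p (nat_lit 0x587050682) (nat_lit 0) (p (nat_lit 0x506848402) (nat_lit 0) (p (nat_lit 0x160014) (nat_lit 0) (p (nat_lit 0x16000c) (nat_lit 0) (p (nat_lit 0x50612) (nat_lit 0) (p (nat_lit 0x40592) (nat_lit 0) (p (nat_lit 0x40492) (nat_lit 0) (p (nat_lit 0x30412) (nat_lit 0) (p (nat_lit 0x30212) (nat_lit 0) (p (nat_lit 0x20192) (nat_lit 0) (p (nat_lit 0x20092) (nat_lit 0) (p (nat_lit 0x10012) (nat_lit 0) pn))))))))))))))))))))))))))) :=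
  Cl.node (nat_lit 0x81) (nat_lit 2) (by decide +kernel) (ClAll.succ (ClAll.succ ClAll.zero n414) s1299)

def n489 : Cl (O (nat_lit 1)) (R (nat_lit 104465))
    (p (nat_lit 0xb000c) (nat_lit 1) (p (nat_lit 0x380c2) (nat_lit 0) (p (nat_lit 0x3c4aa) (nat_lit 8) (p (nat_lit 0x109) (nat_lit 1) (p (nat_lit 0x89) (nat_lit 1) (p (nat_lit 0x101) (nat_lit 0) (p (nat_lit 0xc1) (nat_lit 1) (p (nat_lit 0x119) (nat_lit 1) (p (nat_lit 0xd1) (nat_lit 0) (p (nat_lit 0x81) (nat_lit 0) (p (nat_lit 0x41) (nat_lit 1) (p (nat_lit 0x8078907089a) (nat_lit 0) (p (nat_lit 0x7870886861a) (nat_lit 0) (p (nat_lit 0x800070806078a) (nat_lit 0) (p (nat_lit 0x800068785850a) (nat_lit 0) (p (nat_lit 0x587050682) (nat_lit 0) (p (nat_lit 0x506848402) (nat_lit 0) (p (nat_lit 0x160014) (nat_lit 0) (p (nat_lit 0x16000c) (nat_lit 0) (p (nat_lit 0x50612) (nat_lit 0) (p (nat_lit 0x40592) (nat_lit 0) (p (nat_lit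 0x40492) (nat_lit 0) (p (nat_lit 0x30412) (nat_lit 0) (p (nat_lit 0x30212) (nat_lit 0) (p (nat_lit 0x20192) (nat_lit 0) (p (nat_lit 0x20092) (nat_lit 0) (p (nat_lit 0x10012) (nat_lit 0) pn))))))))))))))))))))))))))) :=
  Cl.node (nat_lit 0x1fc004) (nat_lit 2) (by decide +kernel) (ClAll.succ (ClAll.succ ClAll.zero n415) s1304)

def n490 : Cl (O (nat_lit 1)) (R (nat_lit 104465))
    (p (nat_lit 0x101) (nat_lit 0) (p (nat_lit 0x81) (nat_lit 1) (p (nat_lit 0x380c2) (nat_lit 0) (p (nat_lit 0x3c4aa) (nat_lit 8) (p (nat_lit 0x89) (nat_lit 1) (p (nat_lit 0x101) (nat_lit 1) (p (nat_lit 0xc1) (nat_lit 1) (p (nat_lit 0x119) (nat_lit 1) (p (nat_lit 0xd1) (nat_lit 0) (p (nat_lit 0x81) (nat_lit 0) (p (nat_lit 0x41) (nat_lit 1) (p (nat_lit 0x8078907089a) (nat_lit 0) (p (nat_lit 0x7870886861a) (nat_lit 0) (p (nat_lit 0x800070806078a) (nat_lit 0) (p (nat_lit 0x800068785850a) (nat_lit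 0) (p (nat_lit 0x587050682) (nat_lit 0) (p (nat_lit 0x506848402) (nat_lit 0) (p (nat_lit 0x160014) (nat_lit 0) (p (nat_lit 0x16000c) (nat_lit 0) (p (nat_lit 0x50612) (nat_lit 0) (p (nat_lit 0x40592) (nat_lit 0) (p (nat_lit 0x40492) (nat_lit 0) (p (nat_lit 0x30412) (nat_lit 0) (p (nat_lit 0x30212) (nat_lit 0) (p (nat_lit 0x20192) (nat_lit 0) (p (nat_lit 0x20092) (nat_lit 0) (p (nat_lit 0x10012) (nat_lit 0) pn))))))))))))))))))))))))))) :=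
  Cl.node (nat_lit 0x4c42a) (nat_lit 12) (by decide +kernel) (ClAll.succ (ClAll.succ (ClAll.succ (ClAll.succ (ClAll.succ (ClAll.succ (ClAll.succ (ClAll.succ (ClAll.succ (ClAll.succ (ClAll.succ (ClAll.succ ClAll.zero s1333) s1334) s1335) s1336) s1337) s1338) s1339) s1340) s1341) s1342) s1343) s1344)

def n491 : Cl (O (nat_lit 1)) (R (nat_lit 104465))
    (p (nat_lit 0x380c2) (nat_lit 0) (p (nat_lit 0x4c42a) (nat_lit 10) (p (nat_lit 0x119) (nat_lit 0) (p (nat_lit 0xc9) (nat_lit 0) (p (nat_lit 0x89) (nat_lit 1) (p (nat_lit 0x109) (nat_lit 1) (p (nat_lit 0x101) (nat_lit 0) (p (nat_lit 0x111) (nat_lit 0) (p (nat_lit 0xd1) (nat_lit 1) (p (nat_lit 0x81) (nat_lit 0) (p (nat_lit 0x41) (nat_lit 1) (p (nat_lit 0x8078907089a) (nat_lit 0) (p (nat_lit 0x7870886861a) (nat_lit 0) (p (nat_lit 0x800070806078a) (nat_lit 0) (p (nat_lit 0x800068785850a) (nat_lit 0) (p (nat_lit 0x587050682)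 (nat_lit 0) (p (nat_lit 0x506848402) (nat_lit 0) (p (nat_lit 0x160014) (nat_lit 0) (p (nat_lit 0x16000c) (nat_lit 0) (p (nat_lit 0x50612) (nat_lit 0) (p (nat_lit 0x40592) (nat_lit 0) (p (nat_lit 0x40492) (nat_lit 0) (p (nat_lit 0x30412) (nat_lit 0) (p (nat_lit 0x30212) (nat_lit 0) (p (nat_lit 0x20192) (nat_lit 0) (p (nat_lit 0x20092) (nat_lit 0) (p (nat_lit 0x10012) (nat_lit 0) pn))))))))))))))))))))))))))) :=
  Cl.node (nat_lit 0x200004) (nat_lit 2) (by decide +kernel) (ClAll.succ (ClAll.succ ClAll.zero n416) s1387)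

def n492 : Cl (O (nat_lit 1)) (R (nat_lit 104465))
    (p (nat_lit 0x380c2) (nat_lit 1) (p (nat_lit 0x4c42a) (nat_lit 10) (p (nat_lit 0x119) (nat_lit 0) (p (nat_lit 0xc9) (nat_lit 0) (p (nat_lit 0x89) (nat_lit 1) (p (nat_lit 0x109) (nat_lit 1) (p (nat_lit 0x101) (nat_lit 0) (p (nat_lit 0x111) (nat_lit 0) (p (nat_lit 0xd1) (nat_lit 1) (p (nat_lit 0x81) (nat_lit 0) (p (nat_lit 0x41) (nat_lit 1) (p (nat_lit 0x8078907089a) (nat_lit 0) (p (nat_lit 0x7870886861a) (nat_lit 0) (p (nat_lit 0x800070806078a) (nat_lit 0) (p (nat_lit 0x800068785850a) (nat_lit 0) (p (nat_lit 0x587050682) (nat_lit 0) (p (nat_lit 0x506848402) (nat_lit 0) (p (nat_lit 0x160014) (nat_lit 0) (p (nat_lit 0x16000c) (nat_lit 0) (p (nat_lit 0x50612) (nat_lit 0) (p (nat_lit 0x40592) (nat_lit 0) (p (nat_lit 0x40492) (nat_lit 0) (p (nat_lit 0x30412) (nat_lit 0) (p (nat_lit 0x30212) (nat_lit 0) (p (nat_lit 0x20192)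 (nat_lit 0) (p (nat_lit 0x20092) (nat_lit 0) (p (nat_lit 0x10012) (nat_lit 0) pn))))))))))))))))))))))))))) :=
  Cl.node (nat_lit 0x200004) (nat_lit 2) (by decide +kernel) (ClAll.succ (ClAll.succ ClAll.zero n417) s1404)

def n493 : Cl (O (nat_lit 1)) (R (nat_lit 104465))
    (p (nat_lit 0x380c2) (nat_lit 0) (p (nat_lit 0x4c42a) (nat_lit 10) (p (nat_lit 0x119) (nat_lit 1) (p (nat_lit 0xc9) (nat_lit 0) (p (nat_lit 0x89) (nat_lit 1) (p (nat_lit 0x109) (nat_lit 1) (p (nat_lit 0x101) (nat_lit 0) (p (nat_lit 0x111) (nat_lit 0) (p (nat_lit 0xd1) (nat_lit 1) (p (nat_lit 0x81) (nat_lit 0) (p (nat_lit 0x41) (nat_lit 1) (p (nat_lit 0x8078907089a) (nat_lit 0) (p (nat_lit 0x7870886861a) (nat_lit 0) (p (nat_lit 0x800070806078a) (nat_lit 0) (p (nat_lit 0x800068785850a) (nat_lit 0) (p (nat_lit 0x587050682) (nat_lit 0) (p (nat_lit 0x506848402) (nat_lit 0) (p (nat_lit 0x160014) (nat_lit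 0) (p (nat_lit 0x16000c) (nat_lit 0) (p (nat_lit 0x50612) (nat_lit 0) (p (nat_lit 0x40592) (nat_lit 0) (p (nat_lit 0x40492) (nat_lit 0) (p (nat_lit 0x30412) (nat_lit 0) (p (nat_lit 0x30212) (nat_lit 0) (p (nat_lit 0x20192) (nat_lit 0) (p (nat_lit 0x20092) (nat_lit 0) (p (nat_lit 0x10012) (nat_lit 0) pn))))))))))))))))))))))))))) :=
  Cl.node (nat_lit 0x200004) (nat_lit 2) (by decide +kernel) (ClAll.succ (ClAll.succ ClAll.zero n418) s1457)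

def n494 : Cl (O (nat_lit 1)) (R (nat_lit 104465))
    (p (nat_lit 0x380c2) (nat_lit 1) (p (nat_lit 0x4c42a) (nat_lit 10) (p (nat_lit 0x119) (nat_lit 1) (p (nat_lit 0xc9) (nat_lit 0) (p (nat_lit 0x89) (nat_lit 1) (p (nat_lit 0x109) (nat_lit 1) (p (nat_lit 0x101) (nat_lit 0) (p (nat_lit 0x111) (nat_lit 0) (p (nat_lit 0xd1) (nat_lit 1) (p (nat_lit 0x81) (nat_lit 0) (p (nat_lit 0x41) (nat_lit 1) (p (nat_lit 0x8078907089a) (nat_lit 0) (p (nat_lit 0x7870886861a) (nat_lit 0) (p (nat_lit 0x800070806078a) (nat_lit 0) (p (nat_lit 0x800068785850a) (nat_lit 0) (p (nat_lit 0x587050682) (nat_lit 0) (p (nat_lit 0x506848402) (nat_lit 0) (p (nat_lit 0x160014) (nat_lit 0) (p (nat_lit 0x16000c) (nat_lit 0) (p (nat_lit 0x50612) (nat_lit 0) (p (nat_lit 0x40592) (nat_lit 0) (p (nat_lit 0x40492) (nat_lit 0) (p (nat_lit 0x30412) (nat_lit 0) (p (nat_lit 0x30212) (nat_lit 0) (p (nat_lit 0x20192)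 (nat_lit 0) (p (nat_lit 0x20092) (nat_lit 0) (p (nat_lit 0x10012) (nat_lit 0) pn))))))))))))))))))))))))))) :=
  Cl.node (nat_lit 0x200004) (nat_lit 2) (by decide +kernel) (ClAll.succ (ClAll.succ ClAll.zero n419) s1483)

def n495 : Cl (O (nat_lit 1)) (R (nat_lit 104465))
    (p (nat_lit 0x89) (nat_lit 1) (p (nat_lit 0xb000c) (nat_lit 0) (p (nat_lit 0xc9) (nat_lit 1) (p (nat_lit 0x380c2) (nat_lit 0) (p (nat_lit 0x3cc2a) (nat_lit 2) (p (nat_lit 0x89) (nat_lit 0) (p (nat_lit 0x101) (nat_lit 1) (p (nat_lit 0x111) (nat_lit 0) (p (nat_lit 0xd1) (nat_lit 1) (p (nat_lit 0x81) (nat_lit 0) (p (nat_lit 0x41) (nat_lit 1) (p (nat_lit 0x8078907089a) (nat_lit 0) (p (nat_lit 0x7870886861a) (nat_lit 0) (p (nat_lit 0x800070806078a) (nat_lit 0) (p (nat_lit 0x800068785850a) (nat_lit 0) (p (nat_lit 0x587050682) (nat_lit 0) (p (nat_lit 0x506848402) (nat_lit 0) (p (nat_lit 0x160014) (nat_lit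 0) (p (nat_lit 0x16000c) (nat_lit 0) (p (nat_lit 0x50612) (nat_lit 0) (p (nat_lit 0x40592) (nat_lit 0) (p (nat_lit 0x40492) (nat_lit 0) (p (nat_lit 0x30412) (nat_lit 0) (p (nat_lit 0x30212) (nat_lit 0) (p (nat_lit 0x20192) (nat_lit 0) (p (nat_lit 0x20092) (nat_lit 0) (p (nat_lit 0x10012) (nat_lit 0) pn))))))))))))))))))))))))))) :=
  Cl.node (nat_lit 0xb0014) (nat_lit 2) (by decide +kernel) (ClAll.succ (ClAll.succ ClAll.zero n420) s1508)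

def n496 : Cl (O (nat_lit 1)) (R (nat_lit 104465))
    (p (nat_lit 0xd1) (nat_lit 0) (p (nat_lit 0xb0014) (nat_lit 0) (p (nat_lit 0x380c2) (nat_lit 0) (p (nat_lit 0x3cc2a) (nat_lit 2) (p (nat_lit 0xc9) (nat_lit 0) (p (nat_lit 0x89) (nat_lit 1) (p (nat_lit 0x101) (nat_lit 1) (p (nat_lit 0x111) (nat_lit 0) (p (nat_lit 0xd1) (nat_lit 1) (p (nat_lit 0x81) (nat_lit 0) (p (nat_lit 0x41) (nat_lit 1) (p (nat_lit 0x8078907089a) (nat_lit 0) (p (nat_lit 0x7870886861a) (nat_lit 0) (p (nat_lit 0x800070806078a) (nat_lit 0) (p (nat_lit 0x800068785850a) (nat_lit 0) (p (nat_lit 0x587050682) (nat_lit 0) (p (nat_lit 0x506848402) (nat_lit 0) (p (nat_lit 0x160014) (nat_lit 0) (p (nat_lit 0x16000c) (nat_lit 0) (p (nat_lit 0x50612) (nat_lit 0) (p (nat_lit 0x40592) (nat_lit 0) (p (nat_lit 0x40492) (nat_lit 0) (p (nat_lit 0x30412) (nat_lit 0) (p (nat_lit 0x30212) (nat_lit 0) (p (nat_lit 0x20192)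 (nat_lit 0) (p (nat_lit 0x20092) (nat_lit 0) (p (nat_lit 0x10012) (nat_lit 0) pn))))))))))))))))))))))))))) :=
  Cl.node (nat_lit 0x101) (nat_lit 2) (by decide +kernel) (ClAll.succ (ClAll.succ ClAll.zero n421) s1534)

def n497 : Cl (O (nat_lit 1)) (R (nat_lit 104465))
    (p (nat_lit 0xd1) (nat_lit 1) (p (nat_lit 0xb0014) (nat_lit 0) (p (nat_lit 0x380c2) (nat_lit 0) (p (nat_lit 0x3cc2a) (nat_lit 2) (p (nat_lit 0xc9) (nat_lit 0) (p (nat_lit 0x89) (nat_lit 1) (p (nat_lit 0x101) (nat_lit 1) (p (nat_lit 0x111) (nat_lit 0) (p (nat_lit 0xd1) (nat_lit 1) (p (nat_lit 0x81) (nat_lit 0) (p (nat_lit 0x41) (nat_lit 1) (p (nat_lit 0x8078907089a) (nat_lit 0) (p (nat_lit 0x7870886861a) (nat_lit 0) (p (nat_lit 0x800070806078a) (nat_lit 0) (p (nat_lit 0x800068785850a) (nat_lit 0) (p (nat_lit 0x587050682) (nat_lit 0) (p (nat_lit 0x506848402) (nat_lit 0) (p (nat_lit 0x160014) (nat_lit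 0) (p (nat_lit 0x16000c) (nat_lit 0) (p (nat_lit 0x50612) (nat_lit 0) (p (nat_lit 0x40592) (nat_lit 0) (p (nat_lit 0x40492) (nat_lit 0) (p (nat_lit 0x30412) (nat_lit 0) (p (nat_lit 0x30212) (nat_lit 0) (p (nat_lit 0x20192) (nat_lit 0) (p (nat_lit 0x20092) (nat_lit 0) (p (nat_lit 0x10012) (nat_lit 0) pn))))))))))))))))))))))))))) :=
  Cl.node (nat_lit 0x3c4aa) (nat_lit 12) (by decide +kernel) (ClAll.succ (ClAll.succ (ClAll.succ (ClAll.succ (ClAll.succ (ClAll.succ (ClAll.succ (ClAll.succ (ClAll.succ (ClAll.succ (ClAll.succ (ClAll.succ ClAll.zero s1535) s1536) s1537) s1538) s1539) s1540) s1541) s1542) n422) s1546) s1547) s1548)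

def n498 : Cl (O (nat_lit 1)) (R (nat_lit 104465))
    (p (nat_lit 0x200004) (nat_lit 0) (p (nat_lit 0x380c2) (nat_lit 0) (p (nat_lit 0x3c4aa) (nat_lit 7) (p (nat_lit 0xd1) (nat_lit 1) (p (nat_lit 0x111) (nat_lit 1) (p (nat_lit 0x109) (nat_lit 0) (p (nat_lit 0x101) (nat_lit 0) (p (nat_lit 0x119) (nat_lit 0) (p (nat_lit 0xc1) (nat_lit 0) (p (nat_lit 0x81) (nat_lit 1) (p (nat_lit 0x41) (nat_lit 1) (p (nat_lit 0x8078907089a) (nat_lit 0) (p (nat_lit 0x7870886861a) (nat_lit 0) (p (nat_lit 0x800070806078a) (nat_lit 0) (p (nat_lit 0x800068785850a) (nat_lit 0) (p (nat_lit 0x587050682) (nat_lit 0) (p (nat_lit 0x506848402) (nat_lit 0) (p (nat_lit 0x160014) (nat_lit 0) (p (nat_lit 0x16000c) (nat_lit 0) (p (nat_lit 0x50612) (nat_lit 0) (p (nat_lit 0x40592) (nat_lit 0) (p (nat_lit 0x40492) (nat_lit 0) (p (nat_lit 0x30412) (nat_lit 0) (p (nat_lit 0x30212) (nat_lit 0) (p (nat_lit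 0x20192) (nat_lit 0) (p (nat_lit 0x20092) (nat_lit 0) (p (nat_lit 0x10012) (nat_lit 0) pn))))))))))))))))))))))))))) :=
  Cl.node (nat_lit 0x100004) (nat_lit 2) (by decide +kernel) (ClAll.succ (ClAll.succ ClAll.zero s1610) s1611)

def n499 : Cl (O (nat_lit 1)) (R (nat_lit 104465))
    (p (nat_lit 0xb0014) (nat_lit 0) (p (nat_lit 0x380c2) (nat_lit 0) (p (nat_lit 0x3c4aa) (nat_lit 8) (p (nat_lit 0xd1) (nat_lit 1) (p (nat_lit 0x111) (nat_lit 1) (p (nat_lit 0x109) (nat_lit 0) (p (nat_lit 0x101) (nat_lit 0) (p (nat_lit 0x119) (nat_lit 0) (p (nat_lit 0xc1) (nat_lit 0) (p (nat_lit 0x81) (nat_lit 1) (p (nat_lit 0x41) (nat_lit 1) (p (nat_lit 0x8078907089a) (nat_lit 0) (p (nat_lit 0x7870886861a) (nat_lit 0) (p (nat_lit 0x800070806078a) (nat_lit 0) (p (nat_lit 0x800068785850a) (nat_lit 0) (p (nat_lit 0x587050682) (nat_lit 0) (p (nat_lit 0x506848402) (nat_lit 0) (p (nat_lit 0x160014)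 (nat_lit 0) (p (nat_lit 0x16000c) (nat_lit 0) (p (nat_lit 0x50612) (nat_lit 0) (p (nat_lit 0x40592) (nat_lit 0) (p (nat_lit 0x40492) (nat_lit 0) (p (nat_lit 0x30412) (nat_lit 0) (p (nat_lit 0x30212) (nat_lit 0) (p (nat_lit 0x20192) (nat_lit 0) (p (nat_lit 0x20092) (nat_lit 0) (p (nat_lit 0x10012) (nat_lit 0) pn))))))))))))))))))))))))))) :=
  Cl.node (nat_lit 0xc9) (nat_lit 2) (by decide +kernel) (ClAll.succ (ClAll.succ ClAll.zero n423) s1619)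

def n500 : Cl (O (nat_lit 1)) (R (nat_lit 104465))
    (p (nat_lit 0xb000c) (nat_lit 0) (p (nat_lit 0x200004) (nat_lit 0) (p (nat_lit 0x380c2) (nat_lit 0) (p (nat_lit 0x44c2a) (nat_lit 0) (p (nat_lit 0xd1) (nat_lit 0) (p (nat_lit 0xc9) (nat_lit 0) (p (nat_lit 0x101) (nat_lit 1) (p (nat_lit 0x119) (nat_lit 0) (p (nat_lit 0xc1) (nat_lit 0) (p (nat_lit 0x81) (nat_lit 1) (p (nat_lit 0x41) (nat_lit 1) (p (nat_lit 0x8078907089a) (nat_lit 0) (p (nat_lit 0x7870886861a) (nat_lit 0) (p (nat_lit 0x800070806078a) (nat_lit 0) (p (nat_lit 0x800068785850a) (nat_lit 0) (p (nat_lit 0x587050682) (nat_lit 0) (p (nat_lit 0x506848402) (nat_lit 0) (p (nat_lit 0x160014) (nat_lit 0) (p (nat_lit 0x16000c) (nat_lit 0) (p (nat_lit 0x50612) (nat_lit 0) (p (nat_lit 0x40592) (nat_lit 0) (p (nat_lit 0x40492) (nat_lit 0) (p (nat_lit 0x30412) (nat_lit 0) (p (nat_lit 0x30212) (nat_lit 0) (p (nat_lit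 0x20192) (nat_lit 0) (p (nat_lit 0x20092) (nat_lit 0) (p (nat_lit 0x10012) (nat_lit 0) pn))))))))))))))))))))))))))) :=
  Cl.node (nat_lit 0xc9) (nat_lit 2) (by decide +kernel) (ClAll.succ (ClAll.succ ClAll.zero s1642) n424)

def n501 : Cl (O (nat_lit 1)) (R (nat_lit 104465))
    (p (nat_lit 0xc9) (nat_lit 1) (p (nat_lit 0x200004) (nat_lit 0) (p (nat_lit 0x380c2) (nat_lit 1) (p (nat_lit 0x44c2a) (nat_lit 0) (p (nat_lit 0xd1) (nat_lit 0) (p (nat_lit 0xc9) (nat_lit 0) (p (nat_lit 0x101) (nat_lit 1) (p (nat_lit 0x119) (nat_lit 0) (p (nat_lit 0xc1) (nat_lit 0) (p (nat_lit 0x81) (nat_lit 1) (p (nat_lit 0x41) (nat_lit 1) (p (nat_lit 0x8078907089a) (nat_lit 0) (p (nat_lit 0x7870886861a) (nat_lit 0) (p (nat_lit 0x800070806078a) (nat_lit 0) (p (nat_lit 0x800068785850a) (nat_lit 0) (p (nat_lit 0x587050682) (nat_lit 0) (p (nat_lit 0x506848402) (nat_lit 0) (p (nat_lit 0x160014)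 (nat_lit 0) (p (nat_lit 0x16000c) (nat_lit 0) (p (nat_lit 0x50612) (nat_lit 0) (p (nat_lit 0x40592) (nat_lit 0) (p (nat_lit 0x40492) (nat_lit 0) (p (nat_lit 0x30412) (nat_lit 0) (p (nat_lit 0x30212) (nat_lit 0) (p (nat_lit 0x20192) (nat_lit 0) (p (nat_lit 0x20092) (nat_lit 0) (p (nat_lit 0x10012) (nat_lit 0) pn))))))))))))))))))))))))))) :=
  Cl.node (nat_lit 0xb000c) (nat_lit 2) (by decide +kernel) (ClAll.succ (ClAll.succ ClAll.zero s1658) s1659)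

def n502 : Cl (O (nat_lit 1)) (R (nat_lit 104465))
    (p (nat_lit 0x1fc004) (nat_lit 0) (p (nat_lit 0xb000c) (nat_lit 1) (p (nat_lit 0x380c2) (nat_lit 0) (p (nat_lit 0x44c2a) (nat_lit 1) (p (nat_lit 0xd1) (nat_lit 0) (p (nat_lit 0xc9) (nat_lit 0) (p (nat_lit 0x101) (nat_lit 1) (p (nat_lit 0x119) (nat_lit 0) (p (nat_lit 0xc1) (nat_lit 0) (p (nat_lit 0x81) (nat_lit 1) (p (nat_lit 0x41) (nat_lit 1) (p (nat_lit 0x8078907089a) (nat_lit 0) (p (nat_lit 0x7870886861a) (nat_lit 0) (p (nat_lit 0x800070806078a) (nat_lit 0) (p (nat_lit 0x800068785850a) (nat_lit 0) (p (nat_lit 0x587050682) (nat_lit 0) (p (nat_lit 0x506848402) (nat_lit 0) (p (nat_lit 0x160014) (nat_lit 0) (p (nat_lit 0x16000c) (nat_lit 0) (p (nat_lit 0x50612) (nat_lit 0) (p (nat_lit 0x40592) (nat_lit 0) (p (nat_lit 0x40492) (nat_lit 0) (p (nat_lit 0x30412) (nat_lit 0) (p (nat_lit 0x30212) (nat_lit 0) (p (nat_lit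 0x20192) (nat_lit 0) (p (nat_lit 0x20092) (nat_lit 0) (p (nat_lit 0x10012) (nat_lit 0) pn))))))))))))))))))))))))))) :=
  Cl.node (nat_lit 0xb0014) (nat_lit 2) (by decide +kernel) (ClAll.succ (ClAll.succ ClAll.zero n425) s1665)

def n503 : Cl (O (nat_lit 1)) (R (nat_lit 104465))
    (p (nat_lit 0x380c2) (nat_lit 0) (p (nat_lit 0x3cc2a) (nat_lit 2) (p (nat_lit 0x81) (nat_lit 0) (p (nat_lit 0xc9) (nat_lit 1) (p (nat_lit 0x109) (nat_lit 1) (p (nat_lit 0x101) (nat_lit 0) (p (nat_lit 0x119) (nat_lit 0) (p (nat_lit 0xd1) (nat_lit 0) (p (nat_lit 0x89) (nat_lit 0) (p (nat_lit 0x41) (nat_lit 0) (p (nat_lit 0x8078907089a) (nat_lit 0) (p (nat_lit 0x7870886861a) (nat_lit 0) (p (nat_lit 0x800070806078a) (nat_lit 0) (p (nat_lit 0x800068785850a) (nat_lit 0) (p (nat_lit 0x587050682) (nat_lit 0) (p (nat_lit 0x506848402) (nat_lit 0) (p (nat_lit 0x160014) (nat_lit 0) (p (nat_lit 0x16000c)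 (nat_lit 0) (p (nat_lit 0x50612) (nat_lit 0) (p (nat_lit 0x40592) (nat_lit 0) (p (nat_lit 0x40492) (nat_lit 0) (p (nat_lit 0x30412) (nat_lit 0) (p (nat_lit 0x30212) (nat_lit 0) (p (nat_lit 0x20192) (nat_lit 0) (p (nat_lit 0x20092) (nat_lit 0) (p (nat_lit 0x10012) (nat_lit 0) pn)))))))))))))))))))))))))) :=
  Cl.node (nat_lit 0xb0014) (nat_lit 2) (by decide +kernel) (ClAll.succ (ClAll.succ ClAll.zero n426) s10)

def n504 : Cl (O (nat_lit 1)) (R (nat_lit 104465))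
    (p (nat_lit 0x380c2) (nat_lit 0) (p (nat_lit 0x444aa) (nat_lit 7) (p (nat_lit 0x81) (nat_lit 1) (p (nat_lit 0xc9) (nat_lit 1) (p (nat_lit 0x109) (nat_lit 1) (p (nat_lit 0x101) (nat_lit 0) (p (nat_lit 0x119) (nat_lit 0) (p (nat_lit 0xd1) (nat_lit 0) (p (nat_lit 0x89) (nat_lit 0) (p (nat_lit 0x41) (nat_lit 0) (p (nat_lit 0x8078907089a) (nat_lit 0) (p (nat_lit 0x7870886861a) (nat_lit 0) (p (nat_lit 0x800070806078a) (nat_lit 0) (p (nat_lit 0x800068785850a) (nat_lit 0) (p (nat_lit 0x587050682) (nat_lit 0) (p (nat_lit 0x506848402) (nat_lit 0) (p (nat_lit 0x160014) (nat_lit 0) (p (nat_lit 0x16000c) (nat_lit 0) (p (nat_lit 0x50612) (nat_lit 0) (p (nat_lit 0x40592) (nat_lit 0) (p (nat_lit 0x40492) (nat_lit 0) (p (nat_lit 0x30412) (nat_lit 0) (p (nat_lit 0x30212) (nat_lit 0) (p (nat_lit 0x20192) (nat_lit 0) (p (nat_lit 0x20092) (nat_lit 0) (p (nat_lit 0x10012) (nat_lit 0)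 pn)))))))))))))))))))))))))) :=
  Cl.node (nat_lit 0x200004) (nat_lit 2) (by decide +kernel) (ClAll.succ (ClAll.succ ClAll.zero n427) s66)

def n505 : Cl (O (nat_lit 1)) (R (nat_lit 104465))
    (p (nat_lit 0x380c2) (nat_lit 1) (p (nat_lit 0x444aa) (nat_lit 7) (p (nat_lit 0x81) (nat_lit 1) (p (nat_lit 0xc9) (nat_lit 1) (p (nat_lit 0x109) (nat_lit 1) (p (nat_lit 0x101) (nat_lit 0) (p (nat_lit 0x119) (nat_lit 0) (p (nat_lit 0xd1) (nat_lit 0) (p (nat_lit 0x89) (nat_lit 0) (p (nat_lit 0x41) (nat_lit 0) (p (nat_lit 0x8078907089a) (nat_lit 0) (p (nat_lit 0x7870886861a) (nat_lit 0) (p (nat_lit 0x800070806078a) (nat_lit 0) (p (nat_lit 0x800068785850a) (nat_lit 0) (p (nat_lit 0x587050682) (nat_lit 0) (p (nat_lit 0x506848402) (nat_lit 0) (p (nat_lit 0x160014) (nat_lit 0) (p (nat_lit 0x16000c) (nat_lit 0) (p (nat_lit 0x50612) (nat_lit 0) (p (nat_lit 0x40592) (nat_lit 0) (p (nat_lit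 0x40492) (nat_lit 0) (p (nat_lit 0x30412) (nat_lit 0) (p (nat_lit 0x30212) (nat_lit 0) (p (nat_lit 0x20192) (nat_lit 0) (p (nat_lit 0x20092) (nat_lit 0) (p (nat_lit 0x10012) (nat_lit 0) pn)))))))))))))))))))))))))) :=
  Cl.node (nat_lit 0x200004) (nat_lit 2) (by decide +kernel) (ClAll.succ (ClAll.succ ClAll.zero n428) s97)

def n506 : Cl (O (nat_lit 1)) (R (nat_lit 104465))
    (p (nat_lit 0x380c2) (nat_lit 0) (p (nat_lit 0x444aa) (nat_lit 7) (p (nat_lit 0x111) (nat_lit 0) (p (nat_lit 0xc9) (nat_lit 1) (p (nat_lit 0x81) (nat_lit 0) (p (nat_lit 0x101) (nat_lit 1) (p (nat_lit 0x119) (nat_lit 0) (p (nat_lit 0xd1) (nat_lit 0) (p (nat_lit 0x89) (nat_lit 0) (p (nat_lit 0x41) (nat_lit 0) (p (nat_lit 0x8078907089a) (nat_lit 0) (p (nat_lit 0x7870886861a) (nat_lit 0) (p (nat_lit 0x800070806078a) (nat_lit 0) (p (nat_lit 0x800068785850a) (nat_lit 0) (p (nat_lit 0x587050682) (nat_lit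 0) (p (nat_lit 0x506848402) (nat_lit 0) (p (nat_lit 0x160014) (nat_lit 0) (p (nat_lit 0x16000c) (nat_lit 0) (p (nat_lit 0x50612) (nat_lit 0) (p (nat_lit 0x40592) (nat_lit 0) (p (nat_lit 0x40492) (nat_lit 0) (p (nat_lit 0x30412) (nat_lit 0) (p (nat_lit 0x30212) (nat_lit 0) (p (nat_lit 0x20192) (nat_lit 0) (p (nat_lit 0x20092) (nat_lit 0) (p (nat_lit 0x10012) (nat_lit 0) pn)))))))))))))))))))))))))) :=
  Cl.node (nat_lit 0x200004) (nat_lit 2) (by decide +kernel) (ClAll.succ (ClAll.succ ClAll.zero n429) s150)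

def n507 : Cl (O (nat_lit 1)) (R (nat_lit 104465))
    (p (nat_lit 0x380c2) (nat_lit 1) (p (nat_lit 0x444aa) (nat_lit 7) (p (nat_lit 0x111) (nat_lit 0) (p (nat_lit 0xc9) (nat_lit 1) (p (nat_lit 0x81) (nat_lit 0) (p (nat_lit 0x101) (nat_lit 1) (p (nat_lit 0x119) (nat_lit 0) (p (nat_lit 0xd1) (nat_lit 0) (p (nat_lit 0x89) (nat_lit 0) (p (nat_lit 0x41) (nat_lit 0) (p (nat_lit 0x8078907089a) (nat_lit 0) (p (nat_lit 0x7870886861a) (nat_lit 0) (p (nat_lit 0x800070806078a) (nat_lit 0) (p (nat_lit 0x800068785850a) (nat_lit 0) (p (nat_lit 0x587050682) (nat_lit 0) (p (nat_lit 0x506848402) (nat_lit 0) (p (nat_lit 0x160014) (nat_lit 0) (p (nat_lit 0x16000c) (nat_lit 0) (p (nat_lit 0x50612) (nat_lit 0) (p (nat_lit 0x40592) (nat_lit 0) (p (nat_lit 0x40492) (nat_lit 0) (p (nat_lit 0x30412) (nat_lit 0) (p (nat_lit 0x30212) (nat_lit 0) (p (nat_lit 0x20192) (nat_lit 0) (p (nat_lit 0x20092)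 (nat_lit 0) (p (nat_lit 0x10012) (nat_lit 0) pn)))))))))))))))))))))))))) :=
  Cl.node (nat_lit 0x200004) (nat_lit 2) (by decide +kernel) (ClAll.succ (ClAll.succ ClAll.zero n430) s170)

def n508 : Cl (O (nat_lit 1)) (R (nat_lit 104465))
    (p (nat_lit 0x380c2) (nat_lit 0) (p (nat_lit 0x3cc2a) (nat_lit 2) (p (nat_lit 0x111) (nat_lit 1) (p (nat_lit 0xc9) (nat_lit 1) (p (nat_lit 0x81) (nat_lit 0) (p (nat_lit 0x101) (nat_lit 1) (p (nat_lit 0x119) (nat_lit 0) (p (nat_lit 0xd1) (nat_lit 0) (p (nat_lit 0x89) (nat_lit 0) (p (nat_lit 0x41) (nat_lit 0) (p (nat_lit 0x8078907089a) (nat_lit 0) (p (nat_lit 0x7870886861a) (nat_lit 0) (p (nat_lit 0x800070806078a) (nat_lit 0) (p (nat_lit 0x800068785850a) (nat_lit 0) (p (nat_lit 0x587050682) (nat_lit 0) (p (nat_lit 0x506848402) (nat_lit 0) (p (nat_lit 0x160014) (nat_lit 0) (p (nat_lit 0x16000c) (nat_lit 0) (p (nat_lit 0x50612) (nat_lit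 0) (p (nat_lit 0x40592) (nat_lit 0) (p (nat_lit 0x40492) (nat_lit 0) (p (nat_lit 0x30412) (nat_lit 0) (p (nat_lit 0x30212) (nat_lit 0) (p (nat_lit 0x20192) (nat_lit 0) (p (nat_lit 0x20092) (nat_lit 0) (p (nat_lit 0x10012) (nat_lit 0) pn)))))))))))))))))))))))))) :=
  Cl.node (nat_lit 0xb000c) (nat_lit 2) (by decide +kernel) (ClAll.succ (ClAll.succ ClAll.zero n431) n432)

def n509 : Cl (O (nat_lit 1)) (R (nat_lit 104465))
    (p (nat_lit 0x380c2) (nat_lit 0) (p (nat_lit 0x444aa) (nat_lit 7) (p (nat_lit 0xc9) (nat_lit 1) (p (nat_lit 0xc1) (nat_lit 0) (p (nat_lit 0x81) (nat_lit 1) (p (nat_lit 0x101) (nat_lit 1) (p (nat_lit 0x119) (nat_lit 0) (p (nat_lit 0xd1) (nat_lit 0) (p (nat_lit 0x89) (nat_lit 0) (p (nat_lit 0x41) (nat_lit 0) (p (nat_lit 0x8078907089a) (nat_lit 0) (p (nat_lit 0x7870886861a) (nat_lit 0) (p (nat_lit 0x800070806078a) (nat_lit 0) (p (nat_lit 0x800068785850a)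 (nat_lit 0) (p (nat_lit 0x587050682) (nat_lit 0) (p (nat_lit 0x506848402) (nat_lit 0) (p (nat_lit 0x160014) (nat_lit 0) (p (nat_lit 0x16000c) (nat_lit 0) (p (nat_lit 0x50612) (nat_lit 0) (p (nat_lit 0x40592) (nat_lit 0) (p (nat_lit 0x40492) (nat_lit 0) (p (nat_lit 0x30412) (nat_lit 0) (p (nat_lit 0x30212) (nat_lit 0) (p (nat_lit 0x20192) (nat_lit 0) (p (nat_lit 0x20092) (nat_lit 0) (p (nat_lit 0x10012) (nat_lit 0) pn)))))))))))))))))))))))))) :=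
  Cl.node (nat_lit 0x200004) (nat_lit 2) (by decide +kernel) (ClAll.succ (ClAll.succ ClAll.zero n433) s222)

def n510 : Cl (O (nat_lit 1)) (R (nat_lit 104465))
    (p (nat_lit 0x380c2) (nat_lit 1) (p (nat_lit 0x444aa) (nat_lit 7) (p (nat_lit 0xc9) (nat_lit 1) (p (nat_lit 0xc1) (nat_lit 0) (p (nat_lit 0x81) (nat_lit 1) (p (nat_lit 0x101) (nat_lit 1) (p (nat_lit 0x119) (nat_lit 0) (p (nat_lit 0xd1) (nat_lit 0) (p (nat_lit 0x89) (nat_lit 0) (p (nat_lit 0x41) (nat_lit 0) (p (nat_lit 0x8078907089a) (nat_lit 0) (p (nat_lit 0x7870886861a) (nat_lit 0) (p (nat_lit 0x800070806078a) (nat_lit 0) (p (nat_lit 0x800068785850a) (nat_lit 0) (p (nat_lit 0x587050682) (nat_lit 0) (p (nat_lit 0x506848402) (nat_lit 0) (p (nat_lit 0x160014) (nat_lit 0) (p (nat_lit 0x16000c) (nat_lit 0) (p (nat_lit 0x50612) (nat_lit 0) (p (nat_lit 0x40592) (nat_lit 0) (p (nat_lit 0x40492) (nat_lit 0) (p (nat_lit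 0x30412) (nat_lit 0) (p (nat_lit 0x30212) (nat_lit 0) (p (nat_lit 0x20192) (nat_lit 0) (p (nat_lit 0x20092) (nat_lit 0) (p (nat_lit 0x10012) (nat_lit 0) pn)))))))))))))))))))))))))) :=
  Cl.node (nat_lit 0x200004) (nat_lit 2) (by decide +kernel) (ClAll.succ (ClAll.succ ClAll.zero n434) s227)

def n511 : Cl (O (nat_lit 1)) (R (nat_lit 104465))
    (p (nat_lit 0x101) (nat_lit 0) (p (nat_lit 0x380c2) (nat_lit 0) (p (nat_lit 0x3cc2a) (nat_lit 2) (p (nat_lit 0x109) (nat_lit 1) (p (nat_lit 0xc9) (nat_lit 1) (p (nat_lit 0xc1) (nat_lit 0) (p (nat_lit 0x119) (nat_lit 1) (p (nat_lit 0xd1) (nat_lit 0) (p (nat_lit 0x89) (nat_lit 0) (p (nat_lit 0x41) (nat_lit 0) (p (nat_lit 0x8078907089a) (nat_lit 0) (p (nat_lit 0x7870886861a) (nat_lit 0) (p (nat_lit 0x800070806078a) (nat_lit 0) (p (nat_lit 0x800068785850a) (nat_lit 0) (p (nat_lit 0x587050682) (nat_lit 0) (p (nat_lit 0x506848402)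 (nat_lit 0) (p (nat_lit 0x160014) (nat_lit 0) (p (nat_lit 0x16000c) (nat_lit 0) (p (nat_lit 0x50612) (nat_lit 0) (p (nat_lit 0x40592) (nat_lit 0) (p (nat_lit 0x40492) (nat_lit 0) (p (nat_lit 0x30412) (nat_lit 0) (p (nat_lit 0x30212) (nat_lit 0) (p (nat_lit 0x20192) (nat_lit 0) (p (nat_lit 0x20092) (nat_lit 0) (p (nat_lit 0x10012) (nat_lit 0) pn)))))))))))))))))))))))))) :=
  Cl.node (nat_lit 0xb000c) (nat_lit 2) (by decide +kernel) (ClAll.succ (ClAll.succ ClAll.zero n435) n436)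

def n512 : Cl (O (nat_lit 1)) (R (nat_lit 104465))
    (p (nat_lit 0x101) (nat_lit 1) (p (nat_lit 0x380c2) (nat_lit 0) (p (nat_lit 0x3cc2a) (nat_lit 2) (p (nat_lit 0x109) (nat_lit 1) (p (nat_lit 0xc9) (nat_lit 1) (p (nat_lit 0xc1) (nat_lit 0) (p (nat_lit 0x119) (nat_lit 1) (p (nat_lit 0xd1) (nat_lit 0) (p (nat_lit 0x89) (nat_lit 0) (p (nat_lit 0x41) (nat_lit 0) (p (nat_lit 0x8078907089a) (nat_lit 0) (p (nat_lit 0x7870886861a) (nat_lit 0) (p (nat_lit 0x800070806078a) (nat_lit 0) (p (nat_lit 0x800068785850a) (nat_lit 0) (p (nat_lit 0x587050682) (nat_lit 0) (p (nat_lit 0x506848402) (nat_lit 0) (p (nat_lit 0x160014) (nat_lit 0) (p (nat_lit 0x16000c) (nat_lit 0) (p (nat_lit 0x50612) (nat_lit 0) (p (nat_lit 0x40592) (nat_lit 0) (p (nat_lit 0x40492) (nat_lit 0) (p (nat_lit 0x30412) (nat_lit 0) (p (nat_lit 0x30212) (nat_lit 0) (p (nat_lit 0x20192) (nat_lit 0) (p (nat_lit 0x20092)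 (nat_lit 0) (p (nat_lit 0x10012) (nat_lit 0) pn)))))))))))))))))))))))))) :=
  Cl.node (nat_lit 0x41) (nat_lit 2) (by decide +kernel) (ClAll.succ (ClAll.succ ClAll.zero n437) s268)

def n513 : Cl (O (nat_lit 1)) (R (nat_lit 104465))
    (p (nat_lit 0xc9) (nat_lit 1) (p (nat_lit 0x380c2) (nat_lit 0) (p (nat_lit 0x3cc2a) (nat_lit 2) (p (nat_lit 0x109) (nat_lit 1) (p (nat_lit 0x81) (nat_lit 0) (p (nat_lit 0xc1) (nat_lit 1) (p (nat_lit 0x119) (nat_lit 1) (p (nat_lit 0xd1) (nat_lit 0) (p (nat_lit 0x89) (nat_lit 0) (p (nat_lit 0x41) (nat_lit 0) (p (nat_lit 0x8078907089a) (nat_lit 0) (p (nat_lit 0x7870886861a) (nat_lit 0) (p (nat_lit 0x800070806078a) (nat_lit 0) (p (nat_lit 0x800068785850a) (nat_lit 0) (p (nat_lit 0x587050682) (nat_lit 0) (p (nat_lit 0x506848402) (nat_lit 0) (p (nat_lit 0x160014) (nat_lit 0) (p (nat_lit 0x16000c) (nat_lit 0) (p (nat_lit 0x50612) (nat_lit 0)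 (p (nat_lit 0x40592) (nat_lit 0) (p (nat_lit 0x40492) (nat_lit 0) (p (nat_lit 0x30412) (nat_lit 0) (p (nat_lit 0x30212) (nat_lit 0) (p (nat_lit 0x20192) (nat_lit 0) (p (nat_lit 0x20092) (nat_lit 0) (p (nat_lit 0x10012) (nat_lit 0) pn)))))))))))))))))))))))))) :=
  Cl.node (nat_lit 0xb000c) (nat_lit 2) (by decide +kernel) (ClAll.succ (ClAll.succ ClAll.zero n438) n439)

def n514 : Cl (O (nat_lit 1)) (R (nat_lit 104465))
    (p (nat_lit 0x380c2) (nat_lit 0) (p (nat_lit 0x44c2a) (nat_lit 0) (p (nat_lit 0x109) (nat_lit 0) (p (nat_lit 0x101) (nat_lit 0) (p (nat_lit 0x81) (nat_lit 1) (p (nat_lit 0xc1) (nat_lit 1) (p (nat_lit 0x119) (nat_lit 1) (p (nat_lit 0xd1) (nat_lit 0) (p (nat_lit 0x89) (nat_lit 0) (p (nat_lit 0x41) (nat_lit 0) (p (nat_lit 0x8078907089a) (nat_lit 0) (p (nat_lit 0x7870886861a) (nat_lit 0) (p (nat_lit 0x800070806078a) (nat_lit 0) (p (nat_lit 0x800068785850a)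 (nat_lit 0) (p (nat_lit 0x587050682) (nat_lit 0) (p (nat_lit 0x506848402) (nat_lit 0) (p (nat_lit 0x160014) (nat_lit 0) (p (nat_lit 0x16000c) (nat_lit 0) (p (nat_lit 0x50612) (nat_lit 0) (p (nat_lit 0x40592) (nat_lit 0) (p (nat_lit 0x40492) (nat_lit 0) (p (nat_lit 0x30412) (nat_lit 0) (p (nat_lit 0x30212) (nat_lit 0) (p (nat_lit 0x20192) (nat_lit 0) (p (nat_lit 0x20092) (nat_lit 0) (p (nat_lit 0x10012) (nat_lit 0) pn)))))))))))))))))))))))))) :=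
  Cl.node (nat_lit 0x200004) (nat_lit 2) (by decide +kernel) (ClAll.succ (ClAll.succ ClAll.zero s301) s302)

def n515 : Cl (O (nat_lit 1)) (R (nat_lit 104465))
    (p (nat_lit 0x380c2) (nat_lit 0) (p (nat_lit 0x444aa) (nat_lit 7) (p (nat_lit 0x109) (nat_lit 1) (p (nat_lit 0x101) (nat_lit 0) (p (nat_lit 0x81) (nat_lit 1) (p (nat_lit 0xc1) (nat_lit 1) (p (nat_lit 0x119) (nat_lit 1) (p (nat_lit 0xd1) (nat_lit 0) (p (nat_lit 0x89) (nat_lit 0) (p (nat_lit 0x41) (nat_lit 0) (p (nat_lit 0x8078907089a) (nat_lit 0) (p (nat_lit 0x7870886861a) (nat_lit 0) (p (nat_lit 0x800070806078a) (nat_lit 0) (p (nat_lit 0x800068785850a) (nat_lit 0) (p (nat_lit 0x587050682) (nat_lit 0) (p (nat_lit 0x506848402) (nat_lit 0) (p (nat_lit 0x160014) (nat_lit 0) (p (nat_lit 0x16000c) (nat_lit 0) (p (nat_lit 0x50612) (nat_lit 0) (p (nat_lit 0x40592) (nat_lit 0) (p (nat_lit 0x40492) (nat_lit 0) (p (nat_lit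 0x30412) (nat_lit 0) (p (nat_lit 0x30212) (nat_lit 0) (p (nat_lit 0x20192) (nat_lit 0) (p (nat_lit 0x20092) (nat_lit 0) (p (nat_lit 0x10012) (nat_lit 0) pn)))))))))))))))))))))))))) :=
  Cl.node (nat_lit 0x200004) (nat_lit 2) (by decide +kernel) (ClAll.succ (ClAll.succ ClAll.zero n440) s326)

def n516 : Cl (O (nat_lit 1)) (R (nat_lit 104465))
    (p (nat_lit 0x380c2) (nat_lit 1) (p (nat_lit 0x444aa) (nat_lit 7) (p (nat_lit 0x109) (nat_lit 1) (p (nat_lit 0x101) (nat_lit 0) (p (nat_lit 0x81) (nat_lit 1) (p (nat_lit 0xc1) (nat_lit 1) (p (nat_lit 0x119) (nat_lit 1) (p (nat_lit 0xd1) (nat_lit 0) (p (nat_lit 0x89) (nat_lit 0) (p (nat_lit 0x41) (nat_lit 0) (p (nat_lit 0x8078907089a) (nat_lit 0) (p (nat_lit 0x7870886861a) (nat_lit 0) (p (nat_lit 0x800070806078a) (nat_lit 0) (p (nat_lit 0x800068785850a) (nat_lit 0) (p (nat_lit 0x587050682) (nat_lit 0) (p (nat_lit 0x506848402)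 (nat_lit 0) (p (nat_lit 0x160014) (nat_lit 0) (p (nat_lit 0x16000c) (nat_lit 0) (p (nat_lit 0x50612) (nat_lit 0) (p (nat_lit 0x40592) (nat_lit 0) (p (nat_lit 0x40492) (nat_lit 0) (p (nat_lit 0x30412) (nat_lit 0) (p (nat_lit 0x30212) (nat_lit 0) (p (nat_lit 0x20192) (nat_lit 0) (p (nat_lit 0x20092) (nat_lit 0) (p (nat_lit 0x10012) (nat_lit 0) pn)))))))))))))))))))))))))) :=
  Cl.node (nat_lit 0x200004) (nat_lit 2) (by decide +kernel) (ClAll.succ (ClAll.succ ClAll.zero n441) s333)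

def n517 : Cl (O (nat_lit 1)) (R (nat_lit 104465))
    (p (nat_lit 0x3cc2a) (nat_lit 0) (p (nat_lit 0x41) (nat_lit 0) (p (nat_lit 0x200004) (nat_lit 0) (p (nat_lit 0xc1) (nat_lit 1) (p (nat_lit 0x109) (nat_lit 1) (p (nat_lit 0x101) (nat_lit 0) (p (nat_lit 0x111) (nat_lit 0) (p (nat_lit 0xd1) (nat_lit 1) (p (nat_lit 0x89) (nat_lit 0) (p (nat_lit 0x41) (nat_lit 0) (p (nat_lit 0x8078907089a) (nat_lit 0) (p (nat_lit 0x7870886861a) (nat_lit 0) (p (nat_lit 0x800070806078a) (nat_lit 0) (p (nat_lit 0x800068785850a) (nat_lit 0) (p (nat_lit 0x587050682) (nat_lit 0) (p (nat_lit 0x506848402) (nat_lit 0) (p (nat_lit 0x160014) (nat_lit 0) (p (nat_lit 0x16000c) (nat_lit 0) (p (nat_lit 0x50612) (nat_lit 0) (p (nat_lit 0x40592) (nat_lit 0) (p (nat_lit 0x40492) (nat_lit 0) (p (nat_lit 0x30412) (nat_lit 0) (p (nat_lit 0x30212) (nat_lit 0) (p (nat_lit 0x20192) (nat_lit 0) (p (nat_lit 0x20092)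 (nat_lit 0) (p (nat_lit 0x10012) (nat_lit 0) pn)))))))))))))))))))))))))) :=
  Cl.node (nat_lit 0x380c2) (nat_lit 2) (by decide +kernel) (ClAll.succ (ClAll.succ ClAll.zero s364) s365)

def n518 : Cl (O (nat_lit 1)) (R (nat_lit 104465))
    (p (nat_lit 0x3cc2a) (nat_lit 1) (p (nat_lit 0x41) (nat_lit 0) (p (nat_lit 0x200004) (nat_lit 0) (p (nat_lit 0xc1) (nat_lit 1) (p (nat_lit 0x109) (nat_lit 1) (p (nat_lit 0x101) (nat_lit 0) (p (nat_lit 0x111) (nat_lit 0) (p (nat_lit 0xd1) (nat_lit 1) (p (nat_lit 0x89) (nat_lit 0) (p (nat_lit 0x41) (nat_lit 0) (p (nat_lit 0x8078907089a) (nat_lit 0) (p (nat_lit 0x7870886861a) (nat_lit 0) (p (nat_lit 0x800070806078a) (nat_lit 0) (p (nat_lit 0x800068785850a) (nat_lit 0) (p (nat_lit 0x587050682) (nat_lit 0) (p (nat_lit 0x506848402) (nat_lit 0) (p (nat_lit 0x160014) (nat_lit 0) (p (nat_lit 0x16000c) (nat_lit 0) (p (nat_lit 0x50612) (nat_lit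 0) (p (nat_lit 0x40592) (nat_lit 0) (p (nat_lit 0x40492) (nat_lit 0) (p (nat_lit 0x30412) (nat_lit 0) (p (nat_lit 0x30212) (nat_lit 0) (p (nat_lit 0x20192) (nat_lit 0) (p (nat_lit 0x20092) (nat_lit 0) (p (nat_lit 0x10012) (nat_lit 0) pn)))))))))))))))))))))))))) :=
  Cl.node (nat_lit 0x380c2) (nat_lit 1) (by decide +kernel) (ClAll.succ ClAll.zero n442)

def n519 : Cl (O (nat_lit 1)) (R (nat_lit 104465))
    (p (nat_lit 0x3cc2a) (nat_lit 2) (p (nat_lit 0x41) (nat_lit 0) (p (nat_lit 0x200004) (nat_lit 0) (p (nat_lit 0xc1) (nat_lit 1) (p (nat_lit 0x109) (nat_lit 1) (p (nat_lit 0x101) (nat_lit 0) (p (nat_lit 0x111) (nat_lit 0) (p (nat_lit 0xd1) (nat_lit 1) (p (nat_lit 0x89) (nat_lit 0) (p (nat_lit 0x41) (nat_lit 0) (p (nat_lit 0x8078907089a) (nat_lit 0) (p (nat_lit 0x7870886861a) (nat_lit 0) (p (nat_lit 0x800070806078a) (nat_lit 0) (p (nat_lit 0x800068785850a) (nat_lit 0)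 (p (nat_lit 0x587050682) (nat_lit 0) (p (nat_lit 0x506848402) (nat_lit 0) (p (nat_lit 0x160014) (nat_lit 0) (p (nat_lit 0x16000c) (nat_lit 0) (p (nat_lit 0x50612) (nat_lit 0) (p (nat_lit 0x40592) (nat_lit 0) (p (nat_lit 0x40492) (nat_lit 0) (p (nat_lit 0x30412) (nat_lit 0) (p (nat_lit 0x30212) (nat_lit 0) (p (nat_lit 0x20192) (nat_lit 0) (p (nat_lit 0x20092) (nat_lit 0) (p (nat_lit 0x10012) (nat_lit 0) pn)))))))))))))))))))))))))) :=
  Cl.node (nat_lit 0x380c2) (nat_lit 1) (by decide +kernel) (ClAll.succ ClAll.zero n443)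

def n520 : Cl (O (nat_lit 1)) (R (nat_lit 104465))
    (p (nat_lit 0xb0014) (nat_lit 0) (p (nat_lit 0xb000c) (nat_lit 0) (p (nat_lit 0x200004) (nat_lit 1) (p (nat_lit 0xc1) (nat_lit 1) (p (nat_lit 0x109) (nat_lit 1) (p (nat_lit 0x101) (nat_lit 0) (p (nat_lit 0x111) (nat_lit 0) (p (nat_lit 0xd1) (nat_lit 1) (p (nat_lit 0x89) (nat_lit 0) (p (nat_lit 0x41) (nat_lit 0) (p (nat_lit 0x8078907089a) (nat_lit 0) (p (nat_lit 0x7870886861a) (nat_lit 0) (p (nat_lit 0x800070806078a) (nat_lit 0) (p (nat_lit 0x800068785850a) (nat_lit 0) (p (nat_lit 0x587050682) (nat_lit 0) (p (nat_lit 0x506848402) (nat_lit 0) (p (nat_lit 0x160014) (nat_lit 0) (p (nat_lit 0x16000c) (nat_lit 0) (p (nat_lit 0x50612) (nat_lit 0) (p (nat_lit 0x40592) (nat_lit 0) (p (nat_lit 0x40492) (nat_lit 0) (p (nat_lit 0x30412) (nat_lit 0) (p (nat_lit 0x30212) (nat_lit 0) (p (nat_lit 0x20192) (nat_lit 0) (p (nat_lit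 0x20092) (nat_lit 0) (p (nat_lit 0x10012) (nat_lit 0) pn)))))))))))))))))))))))))) :=
  Cl.node (nat_lit 0x41) (nat_lit 2) (by decide +kernel) (ClAll.succ (ClAll.succ ClAll.zero n444) s397)

def n521 : Cl (O (nat_lit 1)) (R (nat_lit 104465))
    (p (nat_lit 0x3cc2a) (nat_lit 0) (p (nat_lit 0x109) (nat_lit 1) (p (nat_lit 0x200004) (nat_lit 0) (p (nat_lit 0x119) (nat_lit 0) (p (nat_lit 0x81) (nat_lit 0) (p (nat_lit 0x101) (nat_lit 1) (p (nat_lit 0x111) (nat_lit 0) (p (nat_lit 0xd1) (nat_lit 1) (p (nat_lit 0x89) (nat_lit 0) (p (nat_lit 0x41) (nat_lit 0) (p (nat_lit 0x8078907089a) (nat_lit 0) (p (nat_lit 0x7870886861a) (nat_lit 0) (p (nat_lit 0x800070806078a) (nat_lit 0) (p (nat_lit 0x800068785850a) (nat_lit 0) (p (nat_lit 0x587050682) (nat_lit 0) (p (nat_lit 0x506848402) (nat_lit 0) (p (nat_lit 0x160014) (nat_lit 0) (p (nat_lit 0x16000c) (nat_lit 0) (p (nat_lit 0x50612)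 (nat_lit 0) (p (nat_lit 0x40592) (nat_lit 0) (p (nat_lit 0x40492) (nat_lit 0) (p (nat_lit 0x30412) (nat_lit 0) (p (nat_lit 0x30212) (nat_lit 0) (p (nat_lit 0x20192) (nat_lit 0) (p (nat_lit 0x20092) (nat_lit 0) (p (nat_lit 0x10012) (nat_lit 0) pn)))))))))))))))))))))))))) :=
  Cl.node (nat_lit 0x380c2) (nat_lit 2) (by decide +kernel) (ClAll.succ (ClAll.succ ClAll.zero s401) s402)

def n522 : Cl (O (nat_lit 1)) (R (nat_lit 104465))
    (p (nat_lit 0x3cc2a) (nat_lit 1) (p (nat_lit 0x109) (nat_lit 1) (p (nat_lit 0x200004) (nat_lit 0) (p (nat_lit 0x119) (nat_lit 0) (p (nat_lit 0x81) (nat_lit 0) (p (nat_lit 0x101) (nat_lit 1) (p (nat_lit 0x111) (nat_lit 0) (p (nat_lit 0xd1) (nat_lit 1) (p (nat_lit 0x89) (nat_lit 0) (p (nat_lit 0x41) (nat_lit 0) (p (nat_lit 0x8078907089a) (nat_lit 0) (p (nat_lit 0x7870886861a) (nat_lit 0) (p (nat_lit 0x800070806078a) (nat_lit 0) (p (nat_lit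 0x800068785850a) (nat_lit 0) (p (nat_lit 0x587050682) (nat_lit 0) (p (nat_lit 0x506848402) (nat_lit 0) (p (nat_lit 0x160014) (nat_lit 0) (p (nat_lit 0x16000c) (nat_lit 0) (p (nat_lit 0x50612) (nat_lit 0) (p (nat_lit 0x40592) (nat_lit 0) (p (nat_lit 0x40492) (nat_lit 0) (p (nat_lit 0x30412) (nat_lit 0) (p (nat_lit 0x30212) (nat_lit 0) (p (nat_lit 0x20192) (nat_lit 0) (p (nat_lit 0x20092) (nat_lit 0) (p (nat_lit 0x10012) (nat_lit 0) pn)))))))))))))))))))))))))) :=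
  Cl.node (nat_lit 0x380c2) (nat_lit 1) (by decide +kernel) (ClAll.succ ClAll.zero n445)

def n523 : Cl (O (nat_lit 1)) (R (nat_lit 104465))
    (p (nat_lit 0x3cc2a) (nat_lit 2) (p (nat_lit 0x109) (nat_lit 1) (p (nat_lit 0x200004) (nat_lit 0) (p (nat_lit 0x119) (nat_lit 0) (p (nat_lit 0x81) (nat_lit 0) (p (nat_lit 0x101) (nat_lit 1) (p (nat_lit 0x111) (nat_lit 0) (p (nat_lit 0xd1) (nat_lit 1) (p (nat_lit 0x89) (nat_lit 0) (p (nat_lit 0x41) (nat_lit 0) (p (nat_lit 0x8078907089a) (nat_lit 0) (p (nat_lit 0x7870886861a) (nat_lit 0) (p (nat_lit 0x800070806078a) (nat_lit 0) (p (nat_lit 0x800068785850a) (nat_lit 0) (p (nat_lit 0x587050682) (nat_lit 0) (p (nat_lit 0x506848402) (nat_lit 0) (p (nat_lit 0x160014) (nat_lit 0) (p (nat_lit 0x16000c) (nat_lit 0) (p (nat_lit 0x50612) (nat_lit 0) (p (nat_lit 0x40592) (nat_lit 0) (p (nat_lit 0x40492) (nat_lit 0) (p (nat_lit 0x30412) (nat_lit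 0) (p (nat_lit 0x30212) (nat_lit 0) (p (nat_lit 0x20192) (nat_lit 0) (p (nat_lit 0x20092) (nat_lit 0) (p (nat_lit 0x10012) (nat_lit 0) pn)))))))))))))))))))))))))) :=
  Cl.node (nat_lit 0x380c2) (nat_lit 1) (by decide +kernel) (ClAll.succ ClAll.zero n446)

def n524 : Cl (O (nat_lit 1)) (R (nat_lit 104465))
    (p (nat_lit 0x41) (nat_lit 1) (p (nat_lit 0x380c2) (nat_lit 0) (p (nat_lit 0x3cc2a) (nat_lit 2) (p (nat_lit 0x119) (nat_lit 1) (p (nat_lit 0x81) (nat_lit 0) (p (nat_lit 0x101) (nat_lit 1) (p (nat_lit 0x111) (nat_lit 0) (p (nat_lit 0xd1) (nat_lit 1) (p (nat_lit 0x89) (nat_lit 0) (p (nat_lit 0x41) (nat_lit 0) (p (nat_lit 0x8078907089a) (nat_lit 0) (p (nat_lit 0x7870886861a) (nat_lit 0) (p (nat_lit 0x800070806078a) (nat_lit 0) (p (nat_lit 0x800068785850a) (nat_lit 0) (p (nat_lit 0x587050682) (nat_lit 0) (p (nat_lit 0x506848402) (nat_lit 0) (p (nat_lit 0x160014) (nat_lit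 0) (p (nat_lit 0x16000c) (nat_lit 0) (p (nat_lit 0x50612) (nat_lit 0) (p (nat_lit 0x40592) (nat_lit 0) (p (nat_lit 0x40492) (nat_lit 0) (p (nat_lit 0x30412) (nat_lit 0) (p (nat_lit 0x30212) (nat_lit 0) (p (nat_lit 0x20192) (nat_lit 0) (p (nat_lit 0x20092) (nat_lit 0) (p (nat_lit 0x10012) (nat_lit 0) pn)))))))))))))))))))))))))) :=
  Cl.node (nat_lit 0xb0014) (nat_lit 2) (by decide +kernel) (ClAll.succ (ClAll.succ ClAll.zero n447) s424)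

def n525 : Cl (O (nat_lit 1)) (R (nat_lit 104465))
    (p (nat_lit 0x380c2) (nat_lit 0) (p (nat_lit 0x444aa) (nat_lit 7) (p (nat_lit 0x119) (nat_lit 0) (p (nat_lit 0xc1) (nat_lit 0) (p (nat_lit 0x81) (nat_lit 1) (p (nat_lit 0x101) (nat_lit 1) (p (nat_lit 0x111) (nat_lit 0) (p (nat_lit 0xd1) (nat_lit 1) (p (nat_lit 0x89) (nat_lit 0) (p (nat_lit 0x41) (nat_lit 0) (p (nat_lit 0x8078907089a) (nat_lit 0) (p (nat_lit 0x7870886861a) (nat_lit 0) (p (nat_lit 0x800070806078a) (nat_lit 0) (p (nat_lit 0x800068785850a) (nat_lit 0) (p (nat_lit 0x587050682) (nat_lit 0) (p (nat_lit 0x506848402) (nat_lit 0) (p (nat_lit 0x160014) (nat_lit 0) (p (nat_lit 0x16000c) (nat_lit 0) (p (nat_lit 0x50612) (nat_lit 0) (p (nat_lit 0x40592) (nat_lit 0) (p (nat_lit 0x40492) (nat_lit 0) (p (nat_lit 0x30412) (nat_lit 0) (p (nat_lit 0x30212) (nat_lit 0) (p (nat_lit 0x20192) (nat_lit 0) (p (nat_lit 0x20092)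 (nat_lit 0) (p (nat_lit 0x10012) (nat_lit 0) pn)))))))))))))))))))))))))) :=
  Cl.node (nat_lit 0xc9) (nat_lit 2) (by decide +kernel) (ClAll.succ (ClAll.succ ClAll.zero n448) s457)

def n526 : Cl (O (nat_lit 1)) (R (nat_lit 104465))
    (p (nat_lit 0x380c2) (nat_lit 1) (p (nat_lit 0x444aa) (nat_lit 7) (p (nat_lit 0x119) (nat_lit 0) (p (nat_lit 0xc1) (nat_lit 0) (p (nat_lit 0x81) (nat_lit 1) (p (nat_lit 0x101) (nat_lit 1) (p (nat_lit 0x111) (nat_lit 0) (p (nat_lit 0xd1) (nat_lit 1) (p (nat_lit 0x89) (nat_lit 0) (p (nat_lit 0x41) (nat_lit 0) (p (nat_lit 0x8078907089a) (nat_lit 0) (p (nat_lit 0x7870886861a) (nat_lit 0) (p (nat_lit 0x800070806078a) (nat_lit 0) (p (nat_lit 0x800068785850a) (nat_lit 0) (p (nat_lit 0x587050682) (nat_lit 0) (p (nat_lit 0x506848402) (nat_lit 0) (p (nat_lit 0x160014) (nat_lit 0) (p (nat_lit 0x16000c) (nat_lit 0) (p (nat_lit 0x50612) (nat_lit 0)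 (p (nat_lit 0x40592) (nat_lit 0) (p (nat_lit 0x40492) (nat_lit 0) (p (nat_lit 0x30412) (nat_lit 0) (p (nat_lit 0x30212) (nat_lit 0) (p (nat_lit 0x20192) (nat_lit 0) (p (nat_lit 0x20092) (nat_lit 0) (p (nat_lit 0x10012) (nat_lit 0) pn)))))))))))))))))))))))))) :=
  Cl.node (nat_lit 0x200004) (nat_lit 2) (by decide +kernel) (ClAll.succ (ClAll.succ ClAll.zero n449) s462)

def n527 : Cl (O (nat_lit 1)) (R (nat_lit 104465))
    (p (nat_lit 0x380c2) (nat_lit 0) (p (nat_lit 0x3cc2a) (nat_lit 2) (p (nat_lit 0x119) (nat_lit 1) (p (nat_lit 0xc1) (nat_lit 0) (p (nat_lit 0x81) (nat_lit 1) (p (nat_lit 0x101) (nat_lit 1) (p (nat_lit 0x111) (nat_lit 0) (p (nat_lit 0xd1) (nat_lit 1) (p (nat_lit 0x89) (nat_lit 0) (p (nat_lit 0x41) (nat_lit 0) (p (nat_lit 0x8078907089a) (nat_lit 0) (p (nat_lit 0x7870886861a) (nat_lit 0) (p (nat_lit 0x800070806078a) (nat_lit 0) (p (nat_lit 0x800068785850a)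 (nat_lit 0) (p (nat_lit 0x587050682) (nat_lit 0) (p (nat_lit 0x506848402) (nat_lit 0) (p (nat_lit 0x160014) (nat_lit 0) (p (nat_lit 0x16000c) (nat_lit 0) (p (nat_lit 0x50612) (nat_lit 0) (p (nat_lit 0x40592) (nat_lit 0) (p (nat_lit 0x40492) (nat_lit 0) (p (nat_lit 0x30412) (nat_lit 0) (p (nat_lit 0x30212) (nat_lit 0) (p (nat_lit 0x20192) (nat_lit 0) (p (nat_lit 0x20092) (nat_lit 0) (p (nat_lit 0x10012) (nat_lit 0) pn)))))))))))))))))))))))))) :=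
  Cl.node (nat_lit 0xb0014) (nat_lit 2) (by decide +kernel) (ClAll.succ (ClAll.succ ClAll.zero n450) s502)

def n528 : Cl (O (nat_lit 1)) (R (nat_lit 104465))
    (p (nat_lit 0xb0014) (nat_lit 0) (p (nat_lit 0x380c2) (nat_lit 0) (p (nat_lit 0x3cc2a) (nat_lit 2) (p (nat_lit 0x101) (nat_lit 0) (p (nat_lit 0xc1) (nat_lit 1) (p (nat_lit 0x81) (nat_lit 1) (p (nat_lit 0x111) (nat_lit 1) (p (nat_lit 0xd1) (nat_lit 1) (p (nat_lit 0x89) (nat_lit 0) (p (nat_lit 0x41) (nat_lit 0) (p (nat_lit 0x8078907089a) (nat_lit 0) (p (nat_lit 0x7870886861a) (nat_lit 0) (p (nat_lit 0x800070806078a) (nat_lit 0) (p (nat_lit 0x800068785850a) (nat_lit 0) (p (nat_lit 0x587050682) (nat_lit 0) (p (nat_lit 0x506848402) (nat_lit 0) (p (nat_lit 0x160014) (nat_lit 0) (p (nat_lit 0x16000c) (nat_lit 0) (p (nat_lit 0x50612) (nat_lit 0) (p (nat_lit 0x40592) (nat_lit 0) (p (nat_lit 0x40492) (nat_lit 0) (p (nat_lit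 0x30412) (nat_lit 0) (p (nat_lit 0x30212) (nat_lit 0) (p (nat_lit 0x20192) (nat_lit 0) (p (nat_lit 0x20092) (nat_lit 0) (p (nat_lit 0x10012) (nat_lit 0) pn)))))))))))))))))))))))))) :=
  Cl.node (nat_lit 0x41) (nat_lit 2) (by decide +kernel) (ClAll.succ (ClAll.succ ClAll.zero s517) s518)

def n529 : Cl (O (nat_lit 1)) (R (nat_lit 104465))
    (p (nat_lit 0x380c2) (nat_lit 0) (p (nat_lit 0x444aa) (nat_lit 7) (p (nat_lit 0xd1) (nat_lit 1) (p (nat_lit 0x111) (nat_lit 1) (p (nat_lit 0x109) (nat_lit 0) (p (nat_lit 0x101) (nat_lit 0) (p (nat_lit 0x119) (nat_lit 0) (p (nat_lit 0xc9) (nat_lit 0) (p (nat_lit 0x89) (nat_lit 1) (p (nat_lit 0x41) (nat_lit 0) (p (nat_lit 0x8078907089a) (nat_lit 0) (p (nat_lit 0x7870886861a) (nat_lit 0) (p (nat_lit 0x800070806078a) (nat_lit 0) (p (nat_lit 0x800068785850a) (nat_lit 0) (p (nat_lit 0x587050682) (nat_lit 0) (p (nat_lit 0x506848402) (nat_lit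 0) (p (nat_lit 0x160014) (nat_lit 0) (p (nat_lit 0x16000c) (nat_lit 0) (p (nat_lit 0x50612) (nat_lit 0) (p (nat_lit 0x40592) (nat_lit 0) (p (nat_lit 0x40492) (nat_lit 0) (p (nat_lit 0x30412) (nat_lit 0) (p (nat_lit 0x30212) (nat_lit 0) (p (nat_lit 0x20192) (nat_lit 0) (p (nat_lit 0x20092) (nat_lit 0) (p (nat_lit 0x10012) (nat_lit 0) pn)))))))))))))))))))))))))) :=
  Cl.node (nat_lit 0x200004) (nat_lit 2) (by decide +kernel) (ClAll.succ (ClAll.succ ClAll.zero n451) s623)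

def n530 : Cl (O (nat_lit 1)) (R (nat_lit 104465))
    (p (nat_lit 0x380c2) (nat_lit 1) (p (nat_lit 0x444aa) (nat_lit 7) (p (nat_lit 0xd1) (nat_lit 1) (p (nat_lit 0x111) (nat_lit 1) (p (nat_lit 0x109) (nat_lit 0) (p (nat_lit 0x101) (nat_lit 0) (p (nat_lit 0x119) (nat_lit 0) (p (nat_lit 0xc9) (nat_lit 0) (p (nat_lit 0x89) (nat_lit 1) (p (nat_lit 0x41) (nat_lit 0) (p (nat_lit 0x8078907089a) (nat_lit 0) (p (nat_lit 0x7870886861a) (nat_lit 0) (p (nat_lit 0x800070806078a) (nat_lit 0) (p (nat_lit 0x800068785850a) (nat_lit 0) (p (nat_lit 0x587050682) (nat_lit 0) (p (nat_lit 0x506848402) (nat_lit 0) (p (nat_lit 0x160014) (nat_lit 0) (p (nat_lit 0x16000c) (nat_lit 0) (p (nat_lit 0x50612) (nat_lit 0) (p (nat_lit 0x40592) (nat_lit 0) (p (nat_lit 0x40492) (nat_lit 0) (p (nat_lit 0x30412) (nat_lit 0) (p (nat_lit 0x30212) (nat_lit 0) (p (nat_lit 0x20192) (nat_lit 0) (p (nat_lit 0x20092)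 (nat_lit 0) (p (nat_lit 0x10012) (nat_lit 0) pn)))))))))))))))))))))))))) :=
  Cl.node (nat_lit 0x200004) (nat_lit 2) (by decide +kernel) (ClAll.succ (ClAll.succ ClAll.zero n452) s647)

def n531 : Cl (O (nat_lit 1)) (R (nat_lit 104465))
    (p (nat_lit 0x44c2a) (nat_lit 0) (p (nat_lit 0x41) (nat_lit 0) (p (nat_lit 0x200004) (nat_lit 0) (p (nat_lit 0xd1) (nat_lit 0) (p (nat_lit 0x109) (nat_lit 1) (p (nat_lit 0x101) (nat_lit 0) (p (nat_lit 0x119) (nat_lit 0) (p (nat_lit 0xc9) (nat_lit 0) (p (nat_lit 0x89) (nat_lit 1) (p (nat_lit 0x41) (nat_lit 0) (p (nat_lit 0x8078907089a) (nat_lit 0) (p (nat_lit 0x7870886861a) (nat_lit 0) (p (nat_lit 0x800070806078a) (nat_lit 0) (p (nat_lit 0x800068785850a) (nat_lit 0) (p (nat_lit 0x587050682) (nat_lit 0) (p (nat_lit 0x506848402) (nat_lit 0) (p (nat_lit 0x160014) (nat_lit 0) (p (nat_lit 0x16000c) (nat_lit 0) (p (nat_lit 0x50612) (nat_lit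 0) (p (nat_lit 0x40592) (nat_lit 0) (p (nat_lit 0x40492) (nat_lit 0) (p (nat_lit 0x30412) (nat_lit 0) (p (nat_lit 0x30212) (nat_lit 0) (p (nat_lit 0x20192) (nat_lit 0) (p (nat_lit 0x20092) (nat_lit 0) (p (nat_lit 0x10012) (nat_lit 0) pn)))))))))))))))))))))))))) :=
  Cl.node (nat_lit 0x380c2) (nat_lit 2) (by decide +kernel) (ClAll.succ (ClAll.succ ClAll.zero n453) s669)

def n532 : Cl (O (nat_lit 1)) (R (nat_lit 104465))
    (p (nat_lit 0x44c2a) (nat_lit 1) (p (nat_lit 0x41) (nat_lit 0) (p (nat_lit 0x200004) (nat_lit 0) (p (nat_lit 0xd1) (nat_lit 0) (p (nat_lit 0x109) (nat_lit 1) (p (nat_lit 0x101) (nat_lit 0) (p (nat_lit 0x119) (nat_lit 0) (p (nat_lit 0xc9) (nat_lit 0) (p (nat_lit 0x89) (nat_lit 1) (p (nat_lit 0x41) (nat_lit 0) (p (nat_lit 0x8078907089a) (nat_lit 0) (p (nat_lit 0x7870886861a) (nat_lit 0) (p (nat_lit 0x800070806078a) (nat_lit 0) (p (nat_lit 0x800068785850a)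 (nat_lit 0) (p (nat_lit 0x587050682) (nat_lit 0) (p (nat_lit 0x506848402) (nat_lit 0) (p (nat_lit 0x160014) (nat_lit 0) (p (nat_lit 0x16000c) (nat_lit 0) (p (nat_lit 0x50612) (nat_lit 0) (p (nat_lit 0x40592) (nat_lit 0) (p (nat_lit 0x40492) (nat_lit 0) (p (nat_lit 0x30412) (nat_lit 0) (p (nat_lit 0x30212) (nat_lit 0) (p (nat_lit 0x20192) (nat_lit 0) (p (nat_lit 0x20092) (nat_lit 0) (p (nat_lit 0x10012) (nat_lit 0) pn)))))))))))))))))))))))))) :=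
  Cl.node (nat_lit 0x380c2) (nat_lit 1) (by decide +kernel) (ClAll.succ ClAll.zero n454)

def n533 : Cl (O (nat_lit 1)) (R (nat_lit 104465))
    (p (nat_lit 0x4c42a) (nat_lit 9) (p (nat_lit 0x41) (nat_lit 1) (p (nat_lit 0x200004) (nat_lit 0) (p (nat_lit 0xd1) (nat_lit 0) (p (nat_lit 0x109) (nat_lit 1) (p (nat_lit 0x101) (nat_lit 0) (p (nat_lit 0x119) (nat_lit 0) (p (nat_lit 0xc9) (nat_lit 0) (p (nat_lit 0x89) (nat_lit 1) (p (nat_lit 0x41) (nat_lit 0) (p (nat_lit 0x8078907089a) (nat_lit 0) (p (nat_lit 0x7870886861a) (nat_lit 0) (p (nat_lit 0x800070806078a) (nat_lit 0) (p (nat_lit 0x800068785850a) (nat_lit 0) (p (nat_lit 0x587050682) (nat_lit 0) (p (nat_lit 0x506848402) (nat_lit 0) (p (nat_lit 0x160014) (nat_lit 0) (p (nat_lit 0x16000c) (nat_lit 0) (p (nat_lit 0x50612) (nat_lit 0) (p (nat_lit 0x40592) (nat_lit 0) (p (nat_lit 0x40492) (nat_lit 0) (p (nat_lit 0x30412) (nat_lit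 0) (p (nat_lit 0x30212) (nat_lit 0) (p (nat_lit 0x20192) (nat_lit 0) (p (nat_lit 0x20092) (nat_lit 0) (p (nat_lit 0x10012) (nat_lit 0) pn)))))))))))))))))))))))))) :=
  Cl.node (nat_lit 0x380c2) (nat_lit 1) (by decide +kernel) (ClAll.succ ClAll.zero n455)

def n534 : Cl (O (nat_lit 1)) (R (nat_lit 104465))
    (p (nat_lit 0xb0014) (nat_lit 0) (p (nat_lit 0xb000c) (nat_lit 0) (p (nat_lit 0x200004) (nat_lit 1) (p (nat_lit 0xd1) (nat_lit 0) (p (nat_lit 0x109) (nat_lit 1) (p (nat_lit 0x101) (nat_lit 0) (p (nat_lit 0x119) (nat_lit 0) (p (nat_lit 0xc9) (nat_lit 0) (p (nat_lit 0x89) (nat_lit 1) (p (nat_lit 0x41) (nat_lit 0) (p (nat_lit 0x8078907089a) (nat_lit 0) (p (nat_lit 0x7870886861a) (nat_lit 0) (p (nat_lit 0x800070806078a) (nat_lit 0) (p (nat_lit 0x800068785850a) (nat_lit 0) (p (nat_lit 0x587050682) (nat_lit 0) (p (nat_lit 0x506848402) (nat_lit 0) (p (nat_lit 0x160014)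 (nat_lit 0) (p (nat_lit 0x16000c) (nat_lit 0) (p (nat_lit 0x50612) (nat_lit 0) (p (nat_lit 0x40592) (nat_lit 0) (p (nat_lit 0x40492) (nat_lit 0) (p (nat_lit 0x30412) (nat_lit 0) (p (nat_lit 0x30212) (nat_lit 0) (p (nat_lit 0x20192) (nat_lit 0) (p (nat_lit 0x20092) (nat_lit 0) (p (nat_lit 0x10012) (nat_lit 0) pn)))))))))))))))))))))))))) :=
  Cl.node (nat_lit 0x41) (nat_lit 2) (by decide +kernel) (ClAll.succ (ClAll.succ ClAll.zero n456) s721)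

def n535 : Cl (O (nat_lit 1)) (R (nat_lit 104465))
    (p (nat_lit 0x200004) (nat_lit 0) (p (nat_lit 0x380c2) (nat_lit 0) (p (nat_lit 0x444aa) (nat_lit 7) (p (nat_lit 0xd1) (nat_lit 1) (p (nat_lit 0x109) (nat_lit 1) (p (nat_lit 0x101) (nat_lit 0) (p (nat_lit 0x119) (nat_lit 0) (p (nat_lit 0xc9) (nat_lit 0) (p (nat_lit 0x89) (nat_lit 1) (p (nat_lit 0x41) (nat_lit 0) (p (nat_lit 0x8078907089a) (nat_lit 0) (p (nat_lit 0x7870886861a) (nat_lit 0) (p (nat_lit 0x800070806078a) (nat_lit 0) (p (nat_lit 0x800068785850a) (nat_lit 0) (p (nat_lit 0x587050682) (nat_lit 0) (p (nat_lit 0x506848402) (nat_lit 0) (p (nat_lit 0x160014) (nat_lit 0) (p (nat_lit 0x16000c) (nat_lit 0) (p (nat_lit 0x50612) (nat_lit 0) (p (nat_lit 0x40592) (nat_lit 0) (p (nat_lit 0x40492) (nat_lit 0) (p (nat_lit 0x30412) (nat_lit 0) (p (nat_lit 0x30212) (nat_lit 0) (p (nat_lit 0x20192) (nat_lit 0) (p (nat_lit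 0x20092) (nat_lit 0) (p (nat_lit 0x10012) (nat_lit 0) pn)))))))))))))))))))))))))) :=
  Cl.node (nat_lit 0x100004) (nat_lit 2) (by decide +kernel) (ClAll.succ (ClAll.succ ClAll.zero n457) n458)

def n536 : Cl (O (nat_lit 1)) (R (nat_lit 104465))
    (p (nat_lit 0xb0014) (nat_lit 0) (p (nat_lit 0x380c2) (nat_lit 1) (p (nat_lit 0x444aa) (nat_lit 7) (p (nat_lit 0xd1) (nat_lit 1) (p (nat_lit 0x109) (nat_lit 1) (p (nat_lit 0x101) (nat_lit 0) (p (nat_lit 0x119) (nat_lit 0) (p (nat_lit 0xc9) (nat_lit 0) (p (nat_lit 0x89) (nat_lit 1) (p (nat_lit 0x41) (nat_lit 0) (p (nat_lit 0x8078907089a) (nat_lit 0) (p (nat_lit 0x7870886861a) (nat_lit 0) (p (nat_lit 0x800070806078a) (nat_lit 0) (p (nat_lit 0x800068785850a) (nat_lit 0) (p (nat_lit 0x587050682) (nat_lit 0) (p (nat_lit 0x506848402) (nat_lit 0) (p (nat_lit 0x160014) (nat_lit 0) (p (nat_lit 0x16000c) (nat_lit 0) (p (nat_lit 0x50612)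 (nat_lit 0) (p (nat_lit 0x40592) (nat_lit 0) (p (nat_lit 0x40492) (nat_lit 0) (p (nat_lit 0x30412) (nat_lit 0) (p (nat_lit 0x30212) (nat_lit 0) (p (nat_lit 0x20192) (nat_lit 0) (p (nat_lit 0x20092) (nat_lit 0) (p (nat_lit 0x10012) (nat_lit 0) pn)))))))))))))))))))))))))) :=
  Cl.node (nat_lit 0x200004) (nat_lit 2) (by decide +kernel) (ClAll.succ (ClAll.succ ClAll.zero n459) s777)

def n537 : Cl (O (nat_lit 1)) (R (nat_lit 104465))
    (p (nat_lit 0xb0014) (nat_lit 1) (p (nat_lit 0x380c2) (nat_lit 1) (p (nat_lit 0x444aa) (nat_lit 7) (p (nat_lit 0xd1) (nat_lit 1) (p (nat_lit 0x109) (nat_lit 1) (p (nat_lit 0x101) (nat_lit 0) (p (nat_lit 0x119) (nat_lit 0) (p (nat_lit 0xc9) (nat_lit 0) (p (nat_lit 0x89) (nat_lit 1) (p (nat_lit 0x41) (nat_lit 0) (p (nat_lit 0x8078907089a) (nat_lit 0) (p (nat_lit 0x7870886861a) (nat_lit 0) (p (nat_lit 0x800070806078a) (nat_lit 0) (p (nat_lit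 0x800068785850a) (nat_lit 0) (p (nat_lit 0x587050682) (nat_lit 0) (p (nat_lit 0x506848402) (nat_lit 0) (p (nat_lit 0x160014) (nat_lit 0) (p (nat_lit 0x16000c) (nat_lit 0) (p (nat_lit 0x50612) (nat_lit 0) (p (nat_lit 0x40592) (nat_lit 0) (p (nat_lit 0x40492) (nat_lit 0) (p (nat_lit 0x30412) (nat_lit 0) (p (nat_lit 0x30212) (nat_lit 0) (p (nat_lit 0x20192) (nat_lit 0) (p (nat_lit 0x20092) (nat_lit 0) (p (nat_lit 0x10012) (nat_lit 0) pn)))))))))))))))))))))))))) :=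
  Cl.node (nat_lit 0x1fc004) (nat_lit 2) (by decide +kernel) (ClAll.succ (ClAll.succ ClAll.zero n460) s794)

def n538 : Cl (O (nat_lit 1)) (R (nat_lit 104465))
    (p (nat_lit 0x4c42a) (nat_lit 9) (p (nat_lit 0x109) (nat_lit 0) (p (nat_lit 0x200004) (nat_lit 0) (p (nat_lit 0xd1) (nat_lit 0) (p (nat_lit 0xc1) (nat_lit 0) (p (nat_lit 0x101) (nat_lit 1) (p (nat_lit 0x119) (nat_lit 0) (p (nat_lit 0xc9) (nat_lit 0) (p (nat_lit 0x89) (nat_lit 1) (p (nat_lit 0x41) (nat_lit 0) (p (nat_lit 0x8078907089a) (nat_lit 0) (p (nat_lit 0x7870886861a) (nat_lit 0) (p (nat_lit 0x800070806078a) (nat_lit 0) (p (nat_lit 0x800068785850a) (nat_lit 0) (p (nat_lit 0x587050682) (nat_lit 0) (p (nat_lit 0x506848402) (nat_lit 0) (p (nat_lit 0x160014) (nat_lit 0) (p (nat_lit 0x16000c) (nat_lit 0) (p (nat_lit 0x50612) (nat_lit 0) (p (nat_lit 0x40592) (nat_lit 0) (p (nat_lit 0x40492) (nat_lit 0) (p (nat_lit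 0x30412) (nat_lit 0) (p (nat_lit 0x30212) (nat_lit 0) (p (nat_lit 0x20192) (nat_lit 0) (p (nat_lit 0x20092) (nat_lit 0) (p (nat_lit 0x10012) (nat_lit 0) pn)))))))))))))))))))))))))) :=
  Cl.node (nat_lit 0x380c2) (nat_lit 1) (by decide +kernel) (ClAll.succ ClAll.zero n461)

def n539 : Cl (O (nat_lit 1)) (R (nat_lit 104465))
    (p (nat_lit 0x44c2a) (nat_lit 0) (p (nat_lit 0x109) (nat_lit 1) (p (nat_lit 0x200004) (nat_lit 0) (p (nat_lit 0xd1) (nat_lit 0) (p (nat_lit 0xc1) (nat_lit 0) (p (nat_lit 0x101) (nat_lit 1) (p (nat_lit 0x119) (nat_lit 0) (p (nat_lit 0xc9) (nat_lit 0) (p (nat_lit 0x89) (nat_lit 1) (p (nat_lit 0x41) (nat_lit 0) (p (nat_lit 0x8078907089a) (nat_lit 0) (p (nat_lit 0x7870886861a) (nat_lit 0) (p (nat_lit 0x800070806078a) (nat_lit 0) (p (nat_lit 0x800068785850a) (nat_lit 0) (p (nat_lit 0x587050682) (nat_lit 0) (p (nat_lit 0x506848402) (nat_lit 0) (p (nat_lit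 0x160014) (nat_lit 0) (p (nat_lit 0x16000c) (nat_lit 0) (p (nat_lit 0x50612) (nat_lit 0) (p (nat_lit 0x40592) (nat_lit 0) (p (nat_lit 0x40492) (nat_lit 0) (p (nat_lit 0x30412) (nat_lit 0) (p (nat_lit 0x30212) (nat_lit 0) (p (nat_lit 0x20192) (nat_lit 0) (p (nat_lit 0x20092) (nat_lit 0) (p (nat_lit 0x10012) (nat_lit 0) pn)))))))))))))))))))))))))) :=
  Cl.node (nat_lit 0x380c2) (nat_lit 2) (by decide +kernel) (ClAll.succ (ClAll.succ ClAll.zero n462) s816)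

def n540 : Cl (O (nat_lit 1)) (R (nat_lit 104465))
    (p (nat_lit 0x44c2a) (nat_lit 1) (p (nat_lit 0x109) (nat_lit 1) (p (nat_lit 0x200004) (nat_lit 0) (p (nat_lit 0xd1) (nat_lit 0) (p (nat_lit 0xc1) (nat_lit 0) (p (nat_lit 0x101) (nat_lit 1) (p (nat_lit 0x119) (nat_lit 0) (p (nat_lit 0xc9) (nat_lit 0) (p (nat_lit 0x89) (nat_lit 1) (p (nat_lit 0x41) (nat_lit 0) (p (nat_lit 0x8078907089a) (nat_lit 0) (p (nat_lit 0x7870886861a) (nat_lit 0) (p (nat_lit 0x800070806078a) (nat_lit 0) (p (nat_lit 0x800068785850a) (nat_lit 0) (p (nat_lit 0x587050682) (nat_lit 0) (p (nat_lit 0x506848402) (nat_lit 0) (p (nat_lit 0x160014) (nat_lit 0) (p (nat_lit 0x16000c) (nat_lit 0) (p (nat_lit 0x50612) (nat_lit 0) (p (nat_lit 0x40592) (nat_lit 0) (p (nat_lit 0x40492) (nat_lit 0) (p (nat_lit 0x30412) (nat_lit 0) (p (nat_lit 0x30212) (nat_lit 0) (p (nat_lit 0x20192) (nat_lit 0) (p (nat_lit 0x20092)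 (nat_lit 0) (p (nat_lit 0x10012) (nat_lit 0) pn)))))))))))))))))))))))))) :=
  Cl.node (nat_lit 0x380c2) (nat_lit 1) (by decide +kernel) (ClAll.succ ClAll.zero n463)

def n541 : Cl (O (nat_lit 1)) (R (nat_lit 104465))
    (p (nat_lit 0xb0014) (nat_lit 0) (p (nat_lit 0xb000c) (nat_lit 0) (p (nat_lit 0x200004) (nat_lit 1) (p (nat_lit 0xd1) (nat_lit 0) (p (nat_lit 0xc1) (nat_lit 0) (p (nat_lit 0x101) (nat_lit 1) (p (nat_lit 0x119) (nat_lit 0) (p (nat_lit 0xc9) (nat_lit 0) (p (nat_lit 0x89) (nat_lit 1) (p (nat_lit 0x41) (nat_lit 0) (p (nat_lit 0x8078907089a) (nat_lit 0) (p (nat_lit 0x7870886861a) (nat_lit 0) (p (nat_lit 0x800070806078a) (nat_lit 0) (p (nat_lit 0x800068785850a) (nat_lit 0) (p (nat_lit 0x587050682) (nat_lit 0) (p (nat_lit 0x506848402) (nat_lit 0) (p (nat_lit 0x160014) (nat_lit 0) (p (nat_lit 0x16000c) (nat_lit 0) (p (nat_lit 0x50612) (nat_lit 0) (p (nat_lit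 0x40592) (nat_lit 0) (p (nat_lit 0x40492) (nat_lit 0) (p (nat_lit 0x30412) (nat_lit 0) (p (nat_lit 0x30212) (nat_lit 0) (p (nat_lit 0x20192) (nat_lit 0) (p (nat_lit 0x20092) (nat_lit 0) (p (nat_lit 0x10012) (nat_lit 0) pn)))))))))))))))))))))))))) :=
  Cl.node (nat_lit 0x109) (nat_lit 2) (by decide +kernel) (ClAll.succ (ClAll.succ ClAll.zero s835) s836)

def n542 : Cl (O (nat_lit 1)) (R (nat_lit 104465))
    (p (nat_lit 0xb000c) (nat_lit 0) (p (nat_lit 0x380c2) (nat_lit 0) (p (nat_lit 0x444aa) (nat_lit 7) (p (nat_lit 0xd1) (nat_lit 1) (p (nat_lit 0xc1) (nat_lit 0) (p (nat_lit 0x101) (nat_lit 1) (p (nat_lit 0x119) (nat_lit 0) (p (nat_lit 0xc9) (nat_lit 0) (p (nat_lit 0x89) (nat_lit 1) (p (nat_lit 0x41) (nat_lit 0) (p (nat_lit 0x8078907089a) (nat_lit 0) (p (nat_lit 0x7870886861a) (nat_lit 0) (p (nat_lit 0x800070806078a) (nat_lit 0) (p (nat_lit 0x800068785850a) (nat_lit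 0) (p (nat_lit 0x587050682) (nat_lit 0) (p (nat_lit 0x506848402) (nat_lit 0) (p (nat_lit 0x160014) (nat_lit 0) (p (nat_lit 0x16000c) (nat_lit 0) (p (nat_lit 0x50612) (nat_lit 0) (p (nat_lit 0x40592) (nat_lit 0) (p (nat_lit 0x40492) (nat_lit 0) (p (nat_lit 0x30412) (nat_lit 0) (p (nat_lit 0x30212) (nat_lit 0) (p (nat_lit 0x20192) (nat_lit 0) (p (nat_lit 0x20092) (nat_lit 0) (p (nat_lit 0x10012) (nat_lit 0) pn)))))))))))))))))))))))))) :=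
  Cl.node (nat_lit 0x200004) (nat_lit 2) (by decide +kernel) (ClAll.succ (ClAll.succ ClAll.zero n464) s862)

def n543 : Cl (O (nat_lit 1)) (R (nat_lit 104465))
    (p (nat_lit 0x200004) (nat_lit 0) (p (nat_lit 0x380c2) (nat_lit 1) (p (nat_lit 0x444aa) (nat_lit 7) (p (nat_lit 0xd1) (nat_lit 1) (p (nat_lit 0xc1) (nat_lit 0) (p (nat_lit 0x101) (nat_lit 1) (p (nat_lit 0x119) (nat_lit 0) (p (nat_lit 0xc9) (nat_lit 0) (p (nat_lit 0x89) (nat_lit 1) (p (nat_lit 0x41) (nat_lit 0) (p (nat_lit 0x8078907089a) (nat_lit 0) (p (nat_lit 0x7870886861a) (nat_lit 0) (p (nat_lit 0x800070806078a) (nat_lit 0) (p (nat_lit 0x800068785850a) (nat_lit 0) (p (nat_lit 0x587050682) (nat_lit 0) (p (nat_lit 0x506848402) (nat_lit 0) (p (nat_lit 0x160014) (nat_lit 0) (p (nat_lit 0x16000c) (nat_lit 0) (p (nat_lit 0x50612) (nat_lit 0) (p (nat_lit 0x40592) (nat_lit 0) (p (nat_lit 0x40492) (nat_lit 0) (p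 (nat_lit 0x30412) (nat_lit 0) (p (nat_lit 0x30212) (nat_lit 0) (p (nat_lit 0x20192) (nat_lit 0) (p (nat_lit 0x20092) (nat_lit 0) (p (nat_lit 0x10012) (nat_lit 0) pn)))))))))))))))))))))))))) :=
  Cl.node (nat_lit 0x100004) (nat_lit 2) (by decide +kernel) (ClAll.succ (ClAll.succ ClAll.zero n465) s880)

def n544 : Cl (O (nat_lit 1)) (R (nat_lit 104465))
    (p (nat_lit 0x200004) (nat_lit 0) (p (nat_lit 0x380c2) (nat_lit 0) (p (nat_lit 0x444aa) (nat_lit 7) (p (nat_lit 0x111) (nat_lit 1) (p (nat_lit 0xd1) (nat_lit 1) (p (nat_lit 0xc1) (nat_lit 0) (p (nat_lit 0x119) (nat_lit 1) (p (nat_lit 0xc9) (nat_lit 0) (p (nat_lit 0x89) (nat_lit 1) (p (nat_lit 0x41) (nat_lit 0) (p (nat_lit 0x8078907089a) (nat_lit 0) (p (nat_lit 0x7870886861a) (nat_lit 0) (p (nat_lit 0x800070806078a) (nat_lit 0) (p (nat_lit 0x800068785850a) (nat_lit 0) (p (nat_lit 0x587050682) (nat_lit 0) (p (nat_lit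 0x506848402) (nat_lit 0) (p (nat_lit 0x160014) (nat_lit 0) (p (nat_lit 0x16000c) (nat_lit 0) (p (nat_lit 0x50612) (nat_lit 0) (p (nat_lit 0x40592) (nat_lit 0) (p (nat_lit 0x40492) (nat_lit 0) (p (nat_lit 0x30412) (nat_lit 0) (p (nat_lit 0x30212) (nat_lit 0) (p (nat_lit 0x20192) (nat_lit 0) (p (nat_lit 0x20092) (nat_lit 0) (p (nat_lit 0x10012) (nat_lit 0) pn)))))))))))))))))))))))))) :=
  Cl.node (nat_lit 0x100004) (nat_lit 2) (by decide +kernel) (ClAll.succ (ClAll.succ ClAll.zero n466) s914)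

def n545 : Cl (O (nat_lit 1)) (R (nat_lit 104465))
    (p (nat_lit 0x200004) (nat_lit 0) (p (nat_lit 0x380c2) (nat_lit 1) (p (nat_lit 0x444aa) (nat_lit 7) (p (nat_lit 0x111) (nat_lit 1) (p (nat_lit 0xd1) (nat_lit 1) (p (nat_lit 0xc1) (nat_lit 0) (p (nat_lit 0x119) (nat_lit 1) (p (nat_lit 0xc9) (nat_lit 0) (p (nat_lit 0x89) (nat_lit 1) (p (nat_lit 0x41) (nat_lit 0) (p (nat_lit 0x8078907089a) (nat_lit 0) (p (nat_lit 0x7870886861a) (nat_lit 0) (p (nat_lit 0x800070806078a) (nat_lit 0) (p (nat_lit 0x800068785850a) (nat_lit 0) (p (nat_lit 0x587050682) (nat_lit 0) (p (nat_lit 0x506848402) (nat_lit 0) (p (nat_lit 0x160014) (nat_lit 0) (p (nat_lit 0x16000c) (nat_lit 0) (p (nat_lit 0x50612) (nat_lit 0) (p (nat_lit 0x40592) (nat_lit 0) (p (nat_lit 0x40492) (nat_lit 0) (p (nat_lit 0x30412) (nat_lit 0) (p (nat_lit 0x30212) (nat_lit 0) (p (nat_lit 0x20192) (nat_lit 0) (p (nat_lit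 0x20092) (nat_lit 0) (p (nat_lit 0x10012) (nat_lit 0) pn)))))))))))))))))))))))))) :=
  Cl.node (nat_lit 0x100004) (nat_lit 2) (by decide +kernel) (ClAll.succ (ClAll.succ ClAll.zero n467) s924)

def n546 : Cl (O (nat_lit 1)) (R (nat_lit 104465))
    (p (nat_lit 0x200004) (nat_lit 0) (p (nat_lit 0x380c2) (nat_lit 0) (p (nat_lit 0x44c2a) (nat_lit 0) (p (nat_lit 0x111) (nat_lit 0) (p (nat_lit 0x101) (nat_lit 0) (p (nat_lit 0xc1) (nat_lit 1) (p (nat_lit 0x119) (nat_lit 1) (p (nat_lit 0xc9) (nat_lit 0) (p (nat_lit 0x89) (nat_lit 1) (p (nat_lit 0x41) (nat_lit 0) (p (nat_lit 0x8078907089a) (nat_lit 0) (p (nat_lit 0x7870886861a) (nat_lit 0) (p (nat_lit 0x800070806078a) (nat_lit 0) (p (nat_lit 0x800068785850a) (nat_lit 0) (p (nat_lit 0x587050682) (nat_lit 0) (p (nat_lit 0x506848402) (nat_lit 0) (p (nat_lit 0x160014) (nat_lit 0) (p (nat_lit 0x16000c) (nat_lit 0) (p (nat_lit 0x50612)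 (nat_lit 0) (p (nat_lit 0x40592) (nat_lit 0) (p (nat_lit 0x40492) (nat_lit 0) (p (nat_lit 0x30412) (nat_lit 0) (p (nat_lit 0x30212) (nat_lit 0) (p (nat_lit 0x20192) (nat_lit 0) (p (nat_lit 0x20092) (nat_lit 0) (p (nat_lit 0x10012) (nat_lit 0) pn)))))))))))))))))))))))))) :=
  Cl.node (nat_lit 0xb0014) (nat_lit 2) (by decide +kernel) (ClAll.succ (ClAll.succ ClAll.zero n468) s935)

def n547 : Cl (O (nat_lit 1)) (R (nat_lit 104465))
    (p (nat_lit 0xb000c) (nat_lit 0) (p (nat_lit 0x380c2) (nat_lit 0) (p (nat_lit 0x44c2a) (nat_lit 1) (p (nat_lit 0x111) (nat_lit 0) (p (nat_lit 0x101) (nat_lit 0) (p (nat_lit 0xc1) (nat_lit 1) (p (nat_lit 0x119) (nat_lit 1) (p (nat_lit 0xc9) (nat_lit 0) (p (nat_lit 0x89) (nat_lit 1) (p (nat_lit 0x41) (nat_lit 0) (p (nat_lit 0x8078907089a) (nat_lit 0) (p (nat_lit 0x7870886861a) (nat_lit 0) (p (nat_lit 0x800070806078a) (nat_lit 0) (p (nat_lit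 0x800068785850a) (nat_lit 0) (p (nat_lit 0x587050682) (nat_lit 0) (p (nat_lit 0x506848402) (nat_lit 0) (p (nat_lit 0x160014) (nat_lit 0) (p (nat_lit 0x16000c) (nat_lit 0) (p (nat_lit 0x50612) (nat_lit 0) (p (nat_lit 0x40592) (nat_lit 0) (p (nat_lit 0x40492) (nat_lit 0) (p (nat_lit 0x30412) (nat_lit 0) (p (nat_lit 0x30212) (nat_lit 0) (p (nat_lit 0x20192) (nat_lit 0) (p (nat_lit 0x20092) (nat_lit 0) (p (nat_lit 0x10012) (nat_lit 0) pn)))))))))))))))))))))))))) :=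
  Cl.node (nat_lit 0x101) (nat_lit 2) (by decide +kernel) (ClAll.succ (ClAll.succ ClAll.zero s938) s939)

def n548 : Cl (O (nat_lit 1)) (R (nat_lit 104465))
    (p (nat_lit 0xb0014) (nat_lit 0) (p (nat_lit 0x380c2) (nat_lit 0) (p (nat_lit 0x444aa) (nat_lit 7) (p (nat_lit 0x111) (nat_lit 1) (p (nat_lit 0x101) (nat_lit 0) (p (nat_lit 0xc1) (nat_lit 1) (p (nat_lit 0x119) (nat_lit 1) (p (nat_lit 0xc9) (nat_lit 0) (p (nat_lit 0x89) (nat_lit 1) (p (nat_lit 0x41) (nat_lit 0) (p (nat_lit 0x8078907089a) (nat_lit 0) (p (nat_lit 0x7870886861a) (nat_lit 0) (p (nat_lit 0x800070806078a) (nat_lit 0) (p (nat_lit 0x800068785850a) (nat_lit 0) (p (nat_lit 0x587050682) (nat_lit 0) (p (nat_lit 0x506848402) (nat_lit 0) (p (nat_lit 0x160014) (nat_lit 0) (p (nat_lit 0x16000c) (nat_lit 0) (p (nat_lit 0x50612) (nat_lit 0) (p (nat_lit 0x40592) (nat_lit 0) (p (nat_lit 0x40492) (nat_lit 0) (p (nat_lit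 0x30412) (nat_lit 0) (p (nat_lit 0x30212) (nat_lit 0) (p (nat_lit 0x20192) (nat_lit 0) (p (nat_lit 0x20092) (nat_lit 0) (p (nat_lit 0x10012) (nat_lit 0) pn)))))))))))))))))))))))))) :=
  Cl.node (nat_lit 0x200004) (nat_lit 2) (by decide +kernel) (ClAll.succ (ClAll.succ ClAll.zero n469) s961)

def n549 : Cl (O (nat_lit 1)) (R (nat_lit 104465))
    (p (nat_lit 0xb0014) (nat_lit 1) (p (nat_lit 0x380c2) (nat_lit 0) (p (nat_lit 0x444aa) (nat_lit 7) (p (nat_lit 0x111) (nat_lit 1) (p (nat_lit 0x101) (nat_lit 0) (p (nat_lit 0xc1) (nat_lit 1) (p (nat_lit 0x119) (nat_lit 1) (p (nat_lit 0xc9) (nat_lit 0) (p (nat_lit 0x89) (nat_lit 1) (p (nat_lit 0x41) (nat_lit 0) (p (nat_lit 0x8078907089a) (nat_lit 0) (p (nat_lit 0x7870886861a) (nat_lit 0) (p (nat_lit 0x800070806078a) (nat_lit 0) (p (nat_lit 0x800068785850a) (nat_lit 0) (p (nat_lit 0x587050682) (nat_lit 0) (p (nat_lit 0x506848402)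 (nat_lit 0) (p (nat_lit 0x160014) (nat_lit 0) (p (nat_lit 0x16000c) (nat_lit 0) (p (nat_lit 0x50612) (nat_lit 0) (p (nat_lit 0x40592) (nat_lit 0) (p (nat_lit 0x40492) (nat_lit 0) (p (nat_lit 0x30412) (nat_lit 0) (p (nat_lit 0x30212) (nat_lit 0) (p (nat_lit 0x20192) (nat_lit 0) (p (nat_lit 0x20092) (nat_lit 0) (p (nat_lit 0x10012) (nat_lit 0) pn)))))))))))))))))))))))))) :=
  Cl.node (nat_lit 0x1fc004) (nat_lit 2) (by decide +kernel) (ClAll.succ (ClAll.succ ClAll.zero n470) s966)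

def n550 : Cl (O (nat_lit 1)) (R (nat_lit 104465))
    (p (nat_lit 0x200004) (nat_lit 0) (p (nat_lit 0x380c2) (nat_lit 1) (p (nat_lit 0x444aa) (nat_lit 7) (p (nat_lit 0x111) (nat_lit 1) (p (nat_lit 0x101) (nat_lit 0) (p (nat_lit 0xc1) (nat_lit 1) (p (nat_lit 0x119) (nat_lit 1) (p (nat_lit 0xc9) (nat_lit 0) (p (nat_lit 0x89) (nat_lit 1) (p (nat_lit 0x41) (nat_lit 0) (p (nat_lit 0x8078907089a) (nat_lit 0) (p (nat_lit 0x7870886861a) (nat_lit 0) (p (nat_lit 0x800070806078a) (nat_lit 0) (p (nat_lit 0x800068785850a) (nat_lit 0) (p (nat_lit 0x587050682) (nat_lit 0) (p (nat_lit 0x506848402) (nat_lit 0) (p (nat_lit 0x160014) (nat_lit 0) (p (nat_lit 0x16000c) (nat_lit 0) (p (nat_lit 0x50612) (nat_lit 0) (p (nat_lit 0x40592) (nat_lit 0) (p (nat_lit 0x40492) (nat_lit 0) (p (nat_lit 0x30412) (nat_lit 0) (p (nat_lit 0x30212) (nat_lit 0) (p (nat_lit 0x20192) (nat_lit 0) (p (nat_lit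 0x20092) (nat_lit 0) (p (nat_lit 0x10012) (nat_lit 0) pn)))))))))))))))))))))))))) :=
  Cl.node (nat_lit 0x100004) (nat_lit 2) (by decide +kernel) (ClAll.succ (ClAll.succ ClAll.zero n471) s971)

def n551 : Cl (O (nat_lit 1)) (R (nat_lit 104465))
    (p (nat_lit 0x200004) (nat_lit 0) (p (nat_lit 0x380c2) (nat_lit 0) (p (nat_lit 0x444aa) (nat_lit 7) (p (nat_lit 0x119) (nat_lit 1) (p (nat_lit 0x111) (nat_lit 0) (p (nat_lit 0x101) (nat_lit 0) (p (nat_lit 0x109) (nat_lit 0) (p (nat_lit 0xc9) (nat_lit 1) (p (nat_lit 0x89) (nat_lit 1) (p (nat_lit 0x41) (nat_lit 0) (p (nat_lit 0x8078907089a) (nat_lit 0) (p (nat_lit 0x7870886861a) (nat_lit 0) (p (nat_lit 0x800070806078a) (nat_lit 0) (p (nat_lit 0x800068785850a) (nat_lit 0) (p (nat_lit 0x587050682) (nat_lit 0) (p (nat_lit 0x506848402) (nat_lit 0) (p (nat_lit 0x160014) (nat_lit 0) (p (nat_lit 0x16000c) (nat_lit 0) (p (nat_lit 0x50612)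 (nat_lit 0) (p (nat_lit 0x40592) (nat_lit 0) (p (nat_lit 0x40492) (nat_lit 0) (p (nat_lit 0x30412) (nat_lit 0) (p (nat_lit 0x30212) (nat_lit 0) (p (nat_lit 0x20192) (nat_lit 0) (p (nat_lit 0x20092) (nat_lit 0) (p (nat_lit 0x10012) (nat_lit 0) pn)))))))))))))))))))))))))) :=
  Cl.node (nat_lit 0xb000c) (nat_lit 2) (by decide +kernel) (ClAll.succ (ClAll.succ ClAll.zero n472) s1002)

def n552 : Cl (O (nat_lit 1)) (R (nat_lit 104465))
    (p (nat_lit 0x380c2) (nat_lit 1) (p (nat_lit 0x4c42a) (nat_lit 10) (p (nat_lit 0x111) (nat_lit 0) (p (nat_lit 0x89) (nat_lit 0) (p (nat_lit 0x109) (nat_lit 1) (p (nat_lit 0x101) (nat_lit 0) (p (nat_lit 0x119) (nat_lit 0) (p (nat_lit 0xd1) (nat_lit 0) (p (nat_lit 0x81) (nat_lit 0) (p (nat_lit 0x41) (nat_lit 1) (p (nat_lit 0x8078907089a) (nat_lit 0) (p (nat_lit 0x7870886861a) (nat_lit 0) (p (nat_lit 0x800070806078a) (nat_lit 0) (p (nat_lit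 0x800068785850a) (nat_lit 0) (p (nat_lit 0x587050682) (nat_lit 0) (p (nat_lit 0x506848402) (nat_lit 0) (p (nat_lit 0x160014) (nat_lit 0) (p (nat_lit 0x16000c) (nat_lit 0) (p (nat_lit 0x50612) (nat_lit 0) (p (nat_lit 0x40592) (nat_lit 0) (p (nat_lit 0x40492) (nat_lit 0) (p (nat_lit 0x30412) (nat_lit 0) (p (nat_lit 0x30212) (nat_lit 0) (p (nat_lit 0x20192) (nat_lit 0) (p (nat_lit 0x20092) (nat_lit 0) (p (nat_lit 0x10012) (nat_lit 0) pn)))))))))))))))))))))))))) :=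
  Cl.node (nat_lit 0x200004) (nat_lit 2) (by decide +kernel) (ClAll.succ (ClAll.succ ClAll.zero n473) s1037)

def n553 : Cl (O (nat_lit 1)) (R (nat_lit 104465))
    (p (nat_lit 0x380c2) (nat_lit 0) (p (nat_lit 0x4c42a) (nat_lit 10) (p (nat_lit 0x111) (nat_lit 1) (p (nat_lit 0x89) (nat_lit 0) (p (nat_lit 0x109) (nat_lit 1) (p (nat_lit 0x101) (nat_lit 0) (p (nat_lit 0x119) (nat_lit 0) (p (nat_lit 0xd1) (nat_lit 0) (p (nat_lit 0x81) (nat_lit 0) (p (nat_lit 0x41) (nat_lit 1) (p (nat_lit 0x8078907089a) (nat_lit 0) (p (nat_lit 0x7870886861a) (nat_lit 0) (p (nat_lit 0x800070806078a) (nat_lit 0) (p (nat_lit 0x800068785850a) (nat_lit 0) (p (nat_lit 0x587050682) (nat_lit 0) (p (nat_lit 0x506848402) (nat_lit 0) (p (nat_lit 0x160014) (nat_lit 0) (p (nat_lit 0x16000c) (nat_lit 0) (p (nat_lit 0x50612) (nat_lit 0) (p (nat_lit 0x40592) (nat_lit 0) (p (nat_lit 0x40492) (nat_lit 0) (p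 (nat_lit 0x30412) (nat_lit 0) (p (nat_lit 0x30212) (nat_lit 0) (p (nat_lit 0x20192) (nat_lit 0) (p (nat_lit 0x20092) (nat_lit 0) (p (nat_lit 0x10012) (nat_lit 0) pn)))))))))))))))))))))))))) :=
  Cl.node (nat_lit 0x200004) (nat_lit 2) (by decide +kernel) (ClAll.succ (ClAll.succ ClAll.zero s1049) s1050)

def n554 : Cl (O (nat_lit 1)) (R (nat_lit 104465))
    (p (nat_lit 0x380c2) (nat_lit 1) (p (nat_lit 0x4c42a) (nat_lit 10) (p (nat_lit 0x111) (nat_lit 1) (p (nat_lit 0x89) (nat_lit 0) (p (nat_lit 0x109) (nat_lit 1) (p (nat_lit 0x101) (nat_lit 0) (p (nat_lit 0x119) (nat_lit 0) (p (nat_lit 0xd1) (nat_lit 0) (p (nat_lit 0x81) (nat_lit 0) (p (nat_lit 0x41) (nat_lit 1) (p (nat_lit 0x8078907089a) (nat_lit 0) (p (nat_lit 0x7870886861a) (nat_lit 0) (p (nat_lit 0x800070806078a) (nat_lit 0) (p (nat_lit 0x800068785850a) (nat_lit 0) (p (nat_lit 0x587050682) (nat_lit 0) (p (nat_lit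 0x506848402) (nat_lit 0) (p (nat_lit 0x160014) (nat_lit 0) (p (nat_lit 0x16000c) (nat_lit 0) (p (nat_lit 0x50612) (nat_lit 0) (p (nat_lit 0x40592) (nat_lit 0) (p (nat_lit 0x40492) (nat_lit 0) (p (nat_lit 0x30412) (nat_lit 0) (p (nat_lit 0x30212) (nat_lit 0) (p (nat_lit 0x20192) (nat_lit 0) (p (nat_lit 0x20092) (nat_lit 0) (p (nat_lit 0x10012) (nat_lit 0) pn)))))))))))))))))))))))))) :=
  Cl.node (nat_lit 0x200004) (nat_lit 2) (by decide +kernel) (ClAll.succ (ClAll.succ ClAll.zero n474) s1053)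

def n555 : Cl (O (nat_lit 1)) (R (nat_lit 104465))
    (p (nat_lit 0x380c2) (nat_lit 0) (p (nat_lit 0x4c42a) (nat_lit 10) (p (nat_lit 0xc9) (nat_lit 0) (p (nat_lit 0x89) (nat_lit 1) (p (nat_lit 0x109) (nat_lit 1) (p (nat_lit 0x101) (nat_lit 0) (p (nat_lit 0x119) (nat_lit 0) (p (nat_lit 0xd1) (nat_lit 0) (p (nat_lit 0x81) (nat_lit 0) (p (nat_lit 0x41) (nat_lit 1) (p (nat_lit 0x8078907089a) (nat_lit 0) (p (nat_lit 0x7870886861a) (nat_lit 0) (p (nat_lit 0x800070806078a) (nat_lit 0) (p (nat_lit 0x800068785850a) (nat_lit 0) (p (nat_lit 0x587050682) (nat_lit 0) (p (nat_lit 0x506848402) (nat_lit 0) (p (nat_lit 0x160014) (nat_lit 0) (p (nat_lit 0x16000c) (nat_lit 0) (p (nat_lit 0x50612) (nat_lit 0) (p (nat_lit 0x40592) (nat_lit 0) (p (nat_lit 0x40492) (nat_lit 0) (p (nat_lit 0x30412) (nat_lit 0) (p (nat_lit 0x30212) (nat_lit 0) (p (nat_lit 0x20192) (nat_lit 0) (p (nat_lit 0x20092)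 (nat_lit 0) (p (nat_lit 0x10012) (nat_lit 0) pn)))))))))))))))))))))))))) :=
  Cl.node (nat_lit 0x200004) (nat_lit 2) (by decide +kernel) (ClAll.succ (ClAll.succ ClAll.zero n475) s1080)

def n556 : Cl (O (nat_lit 1)) (R (nat_lit 104465))
    (p (nat_lit 0x200004) (nat_lit 0) (p (nat_lit 0x380c2) (nat_lit 1) (p (nat_lit 0x4c42a) (nat_lit 10) (p (nat_lit 0x89) (nat_lit 0) (p (nat_lit 0xc1) (nat_lit 0) (p (nat_lit 0x101) (nat_lit 1) (p (nat_lit 0x119) (nat_lit 0) (p (nat_lit 0xd1) (nat_lit 0) (p (nat_lit 0x81) (nat_lit 0) (p (nat_lit 0x41) (nat_lit 1) (p (nat_lit 0x8078907089a) (nat_lit 0) (p (nat_lit 0x7870886861a) (nat_lit 0) (p (nat_lit 0x800070806078a) (nat_lit 0) (p (nat_lit 0x800068785850a) (nat_lit 0) (p (nat_lit 0x587050682) (nat_lit 0) (p (nat_lit 0x506848402) (nat_lit 0) (p (nat_lit 0x160014) (nat_lit 0) (p (nat_lit 0x16000c) (nat_lit 0) (p (nat_lit 0x50612) (nat_lit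 0) (p (nat_lit 0x40592) (nat_lit 0) (p (nat_lit 0x40492) (nat_lit 0) (p (nat_lit 0x30412) (nat_lit 0) (p (nat_lit 0x30212) (nat_lit 0) (p (nat_lit 0x20192) (nat_lit 0) (p (nat_lit 0x20092) (nat_lit 0) (p (nat_lit 0x10012) (nat_lit 0) pn)))))))))))))))))))))))))) :=
  Cl.node (nat_lit 0x100004) (nat_lit 2) (by decide +kernel) (ClAll.succ (ClAll.succ ClAll.zero s1108) s1109)

def n557 : Cl (O (nat_lit 1)) (R (nat_lit 104465))
    (p (nat_lit 0x380c2) (nat_lit 0) (p (nat_lit 0x4c42a) (nat_lit 10) (p (nat_lit 0xc9) (nat_lit 0) (p (nat_lit 0x89) (nat_lit 1) (p (nat_lit 0xc1) (nat_lit 0) (p (nat_lit 0x101) (nat_lit 1) (p (nat_lit 0x119) (nat_lit 0) (p (nat_lit 0xd1) (nat_lit 0) (p (nat_lit 0x81) (nat_lit 0) (p (nat_lit 0x41) (nat_lit 1) (p (nat_lit 0x8078907089a) (nat_lit 0) (p (nat_lit 0x7870886861a) (nat_lit 0) (p (nat_lit 0x800070806078a) (nat_lit 0) (p (nat_lit 0x800068785850a)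 (nat_lit 0) (p (nat_lit 0x587050682) (nat_lit 0) (p (nat_lit 0x506848402) (nat_lit 0) (p (nat_lit 0x160014) (nat_lit 0) (p (nat_lit 0x16000c) (nat_lit 0) (p (nat_lit 0x50612) (nat_lit 0) (p (nat_lit 0x40592) (nat_lit 0) (p (nat_lit 0x40492) (nat_lit 0) (p (nat_lit 0x30412) (nat_lit 0) (p (nat_lit 0x30212) (nat_lit 0) (p (nat_lit 0x20192) (nat_lit 0) (p (nat_lit 0x20092) (nat_lit 0) (p (nat_lit 0x10012) (nat_lit 0) pn)))))))))))))))))))))))))) :=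
  Cl.node (nat_lit 0x200004) (nat_lit 2) (by decide +kernel) (ClAll.succ (ClAll.succ ClAll.zero n476) s1131)

def n558 : Cl (O (nat_lit 1)) (R (nat_lit 104465))
    (p (nat_lit 0x380c2) (nat_lit 1) (p (nat_lit 0x4c42a) (nat_lit 10) (p (nat_lit 0xc9) (nat_lit 0) (p (nat_lit 0x89) (nat_lit 1) (p (nat_lit 0xc1) (nat_lit 0) (p (nat_lit 0x101) (nat_lit 1) (p (nat_lit 0x119) (nat_lit 0) (p (nat_lit 0xd1) (nat_lit 0) (p (nat_lit 0x81) (nat_lit 0) (p (nat_lit 0x41) (nat_lit 1) (p (nat_lit 0x8078907089a) (nat_lit 0) (p (nat_lit 0x7870886861a) (nat_lit 0) (p (nat_lit 0x800070806078a) (nat_lit 0) (p (nat_lit 0x800068785850a) (nat_lit 0) (p (nat_lit 0x587050682) (nat_lit 0) (p (nat_lit 0x506848402) (nat_lit 0) (p (nat_lit 0x160014) (nat_lit 0) (p (nat_lit 0x16000c) (nat_lit 0) (p (nat_lit 0x50612) (nat_lit 0) (p (nat_lit 0x40592) (nat_lit 0) (p (nat_lit 0x40492) (nat_lit 0) (p (nat_lit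 0x30412) (nat_lit 0) (p (nat_lit 0x30212) (nat_lit 0) (p (nat_lit 0x20192) (nat_lit 0) (p (nat_lit 0x20092) (nat_lit 0) (p (nat_lit 0x10012) (nat_lit 0) pn)))))))))))))))))))))))))) :=
  Cl.node (nat_lit 0x200004) (nat_lit 2) (by decide +kernel) (ClAll.succ (ClAll.succ ClAll.zero n477) s1134)

def n559 : Cl (O (nat_lit 1)) (R (nat_lit 104465))
    (p (nat_lit 0x380c2) (nat_lit 0) (p (nat_lit 0x4c42a) (nat_lit 10) (p (nat_lit 0xc9) (nat_lit 1) (p (nat_lit 0x89) (nat_lit 1) (p (nat_lit 0xc1) (nat_lit 0) (p (nat_lit 0x101) (nat_lit 1) (p (nat_lit 0x119) (nat_lit 0) (p (nat_lit 0xd1) (nat_lit 0) (p (nat_lit 0x81) (nat_lit 0) (p (nat_lit 0x41) (nat_lit 1) (p (nat_lit 0x8078907089a) (nat_lit 0) (p (nat_lit 0x7870886861a) (nat_lit 0) (p (nat_lit 0x800070806078a) (nat_lit 0) (p (nat_lit 0x800068785850a) (nat_lit 0) (p (nat_lit 0x587050682) (nat_lit 0) (p (nat_lit 0x506848402)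 (nat_lit 0) (p (nat_lit 0x160014) (nat_lit 0) (p (nat_lit 0x16000c) (nat_lit 0) (p (nat_lit 0x50612) (nat_lit 0) (p (nat_lit 0x40592) (nat_lit 0) (p (nat_lit 0x40492) (nat_lit 0) (p (nat_lit 0x30412) (nat_lit 0) (p (nat_lit 0x30212) (nat_lit 0) (p (nat_lit 0x20192) (nat_lit 0) (p (nat_lit 0x20092) (nat_lit 0) (p (nat_lit 0x10012) (nat_lit 0) pn)))))))))))))))))))))))))) :=
  Cl.node (nat_lit 0x200004) (nat_lit 2) (by decide +kernel) (ClAll.succ (ClAll.succ ClAll.zero n478) s1148)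

def n560 : Cl (O (nat_lit 1)) (R (nat_lit 104465))
    (p (nat_lit 0x380c2) (nat_lit 1) (p (nat_lit 0x4c42a) (nat_lit 10) (p (nat_lit 0xc9) (nat_lit 1) (p (nat_lit 0x89) (nat_lit 1) (p (nat_lit 0xc1) (nat_lit 0) (p (nat_lit 0x101) (nat_lit 1) (p (nat_lit 0x119) (nat_lit 0) (p (nat_lit 0xd1) (nat_lit 0) (p (nat_lit 0x81) (nat_lit 0) (p (nat_lit 0x41) (nat_lit 1) (p (nat_lit 0x8078907089a) (nat_lit 0) (p (nat_lit 0x7870886861a) (nat_lit 0) (p (nat_lit 0x800070806078a) (nat_lit 0) (p (nat_lit 0x800068785850a) (nat_lit 0) (p (nat_lit 0x587050682) (nat_lit 0) (p (nat_lit 0x506848402) (nat_lit 0) (p (nat_lit 0x160014) (nat_lit 0) (p (nat_lit 0x16000c) (nat_lit 0) (p (nat_lit 0x50612) (nat_lit 0) (p (nat_lit 0x40592) (nat_lit 0) (p (nat_lit 0x40492) (nat_lit 0) (p (nat_lit 0x30412) (nat_lit 0) (p (nat_lit 0x30212) (nat_lit 0) (p (nat_lit 0x20192) (nat_lit 0) (p (nat_lit 0x20092)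 (nat_lit 0) (p (nat_lit 0x10012) (nat_lit 0) pn)))))))))))))))))))))))))) :=
  Cl.node (nat_lit 0x200004) (nat_lit 2) (by decide +kernel) (ClAll.succ (ClAll.succ ClAll.zero n479) s1151)

def n561 : Cl (O (nat_lit 1)) (R (nat_lit 104465))
    (p (nat_lit 0xb0014) (nat_lit 0) (p (nat_lit 0x380c2) (nat_lit 0) (p (nat_lit 0x3cc2a) (nat_lit 2) (p (nat_lit 0x89) (nat_lit 0) (p (nat_lit 0xc1) (nat_lit 1) (p (nat_lit 0x101) (nat_lit 1) (p (nat_lit 0x119) (nat_lit 0) (p (nat_lit 0xd1) (nat_lit 0) (p (nat_lit 0x81) (nat_lit 0) (p (nat_lit 0x41) (nat_lit 1) (p (nat_lit 0x8078907089a) (nat_lit 0) (p (nat_lit 0x7870886861a) (nat_lit 0) (p (nat_lit 0x800070806078a) (nat_lit 0) (p (nat_lit 0x800068785850a) (nat_lit 0) (p (nat_lit 0x587050682) (nat_lit 0) (p (nat_lit 0x506848402) (nat_lit 0) (p (nat_lit 0x160014) (nat_lit 0) (p (nat_lit 0x16000c) (nat_lit 0) (p (nat_lit 0x50612) (nat_lit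 0) (p (nat_lit 0x40592) (nat_lit 0) (p (nat_lit 0x40492) (nat_lit 0) (p (nat_lit 0x30412) (nat_lit 0) (p (nat_lit 0x30212) (nat_lit 0) (p (nat_lit 0x20192) (nat_lit 0) (p (nat_lit 0x20092) (nat_lit 0) (p (nat_lit 0x10012) (nat_lit 0) pn)))))))))))))))))))))))))) :=
  Cl.node (nat_lit 0xb000c) (nat_lit 2) (by decide +kernel) (ClAll.succ (ClAll.succ ClAll.zero n480) n481)

def n562 : Cl (O (nat_lit 1)) (R (nat_lit 104465))
    (p (nat_lit 0x200004) (nat_lit 0) (p (nat_lit 0x380c2) (nat_lit 0) (p (nat_lit 0x3c4aa) (nat_lit 7) (p (nat_lit 0x89) (nat_lit 1) (p (nat_lit 0xc1) (nat_lit 1) (p (nat_lit 0x101) (nat_lit 1) (p (nat_lit 0x119) (nat_lit 0) (p (nat_lit 0xd1) (nat_lit 0) (p (nat_lit 0x81) (nat_lit 0) (p (nat_lit 0x41) (nat_lit 1) (p (nat_lit 0x8078907089a) (nat_lit 0) (p (nat_lit 0x7870886861a) (nat_lit 0) (p (nat_lit 0x800070806078a) (nat_lit 0) (p (nat_lit 0x800068785850a)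 (nat_lit 0) (p (nat_lit 0x587050682) (nat_lit 0) (p (nat_lit 0x506848402) (nat_lit 0) (p (nat_lit 0x160014) (nat_lit 0) (p (nat_lit 0x16000c) (nat_lit 0) (p (nat_lit 0x50612) (nat_lit 0) (p (nat_lit 0x40592) (nat_lit 0) (p (nat_lit 0x40492) (nat_lit 0) (p (nat_lit 0x30412) (nat_lit 0) (p (nat_lit 0x30212) (nat_lit 0) (p (nat_lit 0x20192) (nat_lit 0) (p (nat_lit 0x20092) (nat_lit 0) (p (nat_lit 0x10012) (nat_lit 0) pn)))))))))))))))))))))))))) :=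
  Cl.node (nat_lit 0xb0014) (nat_lit 2) (by decide +kernel) (ClAll.succ (ClAll.succ ClAll.zero s1193) s1194)

def n563 : Cl (O (nat_lit 1)) (R (nat_lit 104465))
    (p (nat_lit 0xb0014) (nat_lit 0) (p (nat_lit 0x380c2) (nat_lit 1) (p (nat_lit 0x3c4aa) (nat_lit 7) (p (nat_lit 0x89) (nat_lit 1) (p (nat_lit 0xc1) (nat_lit 1) (p (nat_lit 0x101) (nat_lit 1) (p (nat_lit 0x119) (nat_lit 0) (p (nat_lit 0xd1) (nat_lit 0) (p (nat_lit 0x81) (nat_lit 0) (p (nat_lit 0x41) (nat_lit 1) (p (nat_lit 0x8078907089a) (nat_lit 0) (p (nat_lit 0x7870886861a) (nat_lit 0) (p (nat_lit 0x800070806078a) (nat_lit 0) (p (nat_lit 0x800068785850a) (nat_lit 0) (p (nat_lit 0x587050682) (nat_lit 0) (p (nat_lit 0x506848402) (nat_lit 0) (p (nat_lit 0x160014) (nat_lit 0) (p (nat_lit 0x16000c) (nat_lit 0) (p (nat_lit 0x50612) (nat_lit 0) (p (nat_lit 0x40592) (nat_lit 0) (p (nat_lit 0x40492) (nat_lit 0) (p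 (nat_lit 0x30412) (nat_lit 0) (p (nat_lit 0x30212) (nat_lit 0) (p (nat_lit 0x20192) (nat_lit 0) (p (nat_lit 0x20092) (nat_lit 0) (p (nat_lit 0x10012) (nat_lit 0) pn)))))))))))))))))))))))))) :=
  Cl.node (nat_lit 0x200004) (nat_lit 2) (by decide +kernel) (ClAll.succ (ClAll.succ ClAll.zero n482) s1198)

def n564 : Cl (O (nat_lit 1)) (R (nat_lit 104465))
    (p (nat_lit 0x101) (nat_lit 0) (p (nat_lit 0x380c2) (nat_lit 0) (p (nat_lit 0x3c4aa) (nat_lit 8) (p (nat_lit 0x89) (nat_lit 1) (p (nat_lit 0xc1) (nat_lit 1) (p (nat_lit 0x101) (nat_lit 1) (p (nat_lit 0x119) (nat_lit 0) (p (nat_lit 0xd1) (nat_lit 0) (p (nat_lit 0x81) (nat_lit 0) (p (nat_lit 0x41) (nat_lit 1) (p (nat_lit 0x8078907089a) (nat_lit 0) (p (nat_lit 0x7870886861a) (nat_lit 0) (p (nat_lit 0x800070806078a) (nat_lit 0) (p (nat_lit 0x800068785850a) (nat_lit 0) (p (nat_lit 0x587050682) (nat_lit 0) (p (nat_lit 0x506848402)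 (nat_lit 0) (p (nat_lit 0x160014) (nat_lit 0) (p (nat_lit 0x16000c) (nat_lit 0) (p (nat_lit 0x50612) (nat_lit 0) (p (nat_lit 0x40592) (nat_lit 0) (p (nat_lit 0x40492) (nat_lit 0) (p (nat_lit 0x30412) (nat_lit 0) (p (nat_lit 0x30212) (nat_lit 0) (p (nat_lit 0x20192) (nat_lit 0) (p (nat_lit 0x20092) (nat_lit 0) (p (nat_lit 0x10012) (nat_lit 0) pn)))))))))))))))))))))))))) :=
  Cl.node (nat_lit 0xc9) (nat_lit 2) (by decide +kernel) (ClAll.succ (ClAll.succ ClAll.zero n483) s1203)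

def n565 : Cl (O (nat_lit 1)) (R (nat_lit 104465))
    (p (nat_lit 0x101) (nat_lit 1) (p (nat_lit 0x380c2) (nat_lit 0) (p (nat_lit 0x3c4aa) (nat_lit 8) (p (nat_lit 0x89) (nat_lit 1) (p (nat_lit 0xc1) (nat_lit 1) (p (nat_lit 0x101) (nat_lit 1) (p (nat_lit 0x119) (nat_lit 0) (p (nat_lit 0xd1) (nat_lit 0) (p (nat_lit 0x81) (nat_lit 0) (p (nat_lit 0x41) (nat_lit 1) (p (nat_lit 0x8078907089a) (nat_lit 0) (p (nat_lit 0x7870886861a) (nat_lit 0) (p (nat_lit 0x800070806078a) (nat_lit 0) (p (nat_lit 0x800068785850a) (nat_lit 0) (p (nat_lit 0x587050682) (nat_lit 0) (p (nat_lit 0x506848402) (nat_lit 0) (p (nat_lit 0x160014) (nat_lit 0) (p (nat_lit 0x16000c) (nat_lit 0) (p (nat_lit 0x50612) (nat_lit 0) (p (nat_lit 0x40592) (nat_lit 0) (p (nat_lit 0x40492) (nat_lit 0) (p (nat_lit 0x30412) (nat_lit 0) (p (nat_lit 0x30212) (nat_lit 0) (p (nat_lit 0x20192) (nat_lit 0) (p (nat_lit 0x20092)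 (nat_lit 0) (p (nat_lit 0x10012) (nat_lit 0) pn)))))))))))))))))))))))))) :=
  Cl.node (nat_lit 0xc1) (nat_lit 2) (by decide +kernel) (ClAll.succ (ClAll.succ ClAll.zero n484) s1207)

def n566 : Cl (O (nat_lit 1)) (R (nat_lit 104465))
    (p (nat_lit 0xb0014) (nat_lit 0) (p (nat_lit 0x380c2) (nat_lit 1) (p (nat_lit 0x3c4aa) (nat_lit 8) (p (nat_lit 0x89) (nat_lit 1) (p (nat_lit 0xc1) (nat_lit 1) (p (nat_lit 0x101) (nat_lit 1) (p (nat_lit 0x119) (nat_lit 0) (p (nat_lit 0xd1) (nat_lit 0) (p (nat_lit 0x81) (nat_lit 0) (p (nat_lit 0x41) (nat_lit 1) (p (nat_lit 0x8078907089a) (nat_lit 0) (p (nat_lit 0x7870886861a) (nat_lit 0) (p (nat_lit 0x800070806078a) (nat_lit 0) (p (nat_lit 0x800068785850a) (nat_lit 0) (p (nat_lit 0x587050682) (nat_lit 0) (p (nat_lit 0x506848402) (nat_lit 0) (p (nat_lit 0x160014) (nat_lit 0) (p (nat_lit 0x16000c) (nat_lit 0) (p (nat_lit 0x50612) (nat_lit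 0) (p (nat_lit 0x40592) (nat_lit 0) (p (nat_lit 0x40492) (nat_lit 0) (p (nat_lit 0x30412) (nat_lit 0) (p (nat_lit 0x30212) (nat_lit 0) (p (nat_lit 0x20192) (nat_lit 0) (p (nat_lit 0x20092) (nat_lit 0) (p (nat_lit 0x10012) (nat_lit 0) pn)))))))))))))))))))))))))) :=
  Cl.node (nat_lit 0xc9) (nat_lit 2) (by decide +kernel) (ClAll.succ (ClAll.succ ClAll.zero s1208) s1209)

def n567 : Cl (O (nat_lit 1)) (R (nat_lit 104465))
    (p (nat_lit 0x380c2) (nat_lit 0) (p (nat_lit 0x44c2a) (nat_lit 0) (p (nat_lit 0x109) (nat_lit 0) (p (nat_lit 0x89) (nat_lit 1) (p (nat_lit 0xc9) (nat_lit 1) (p (nat_lit 0xc1) (nat_lit 0) (p (nat_lit 0x119) (nat_lit 1) (p (nat_lit 0xd1) (nat_lit 0) (p (nat_lit 0x81) (nat_lit 0) (p (nat_lit 0x41) (nat_lit 1) (p (nat_lit 0x8078907089a) (nat_lit 0) (p (nat_lit 0x7870886861a) (nat_lit 0) (p (nat_lit 0x800070806078a) (nat_lit 0) (p (nat_lit 0x800068785850a)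 (nat_lit 0) (p (nat_lit 0x587050682) (nat_lit 0) (p (nat_lit 0x506848402) (nat_lit 0) (p (nat_lit 0x160014) (nat_lit 0) (p (nat_lit 0x16000c) (nat_lit 0) (p (nat_lit 0x50612) (nat_lit 0) (p (nat_lit 0x40592) (nat_lit 0) (p (nat_lit 0x40492) (nat_lit 0) (p (nat_lit 0x30412) (nat_lit 0) (p (nat_lit 0x30212) (nat_lit 0) (p (nat_lit 0x20192) (nat_lit 0) (p (nat_lit 0x20092) (nat_lit 0) (p (nat_lit 0x10012) (nat_lit 0) pn)))))))))))))))))))))))))) :=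
  Cl.node (nat_lit 0x200004) (nat_lit 2) (by decide +kernel) (ClAll.succ (ClAll.succ ClAll.zero n485) s1219)

def n568 : Cl (O (nat_lit 1)) (R (nat_lit 104465))
    (p (nat_lit 0x380c2) (nat_lit 0) (p (nat_lit 0x44c2a) (nat_lit 1) (p (nat_lit 0x109) (nat_lit 0) (p (nat_lit 0x89) (nat_lit 1) (p (nat_lit 0xc9) (nat_lit 1) (p (nat_lit 0xc1) (nat_lit 0) (p (nat_lit 0x119) (nat_lit 1) (p (nat_lit 0xd1) (nat_lit 0) (p (nat_lit 0x81) (nat_lit 0) (p (nat_lit 0x41) (nat_lit 1) (p (nat_lit 0x8078907089a) (nat_lit 0) (p (nat_lit 0x7870886861a) (nat_lit 0) (p (nat_lit 0x800070806078a) (nat_lit 0) (p (nat_lit 0x800068785850a) (nat_lit 0) (p (nat_lit 0x587050682) (nat_lit 0) (p (nat_lit 0x506848402) (nat_lit 0) (p (nat_lit 0x160014) (nat_lit 0) (p (nat_lit 0x16000c) (nat_lit 0) (p (nat_lit 0x50612) (nat_lit 0) (p (nat_lit 0x40592) (nat_lit 0) (p (nat_lit 0x40492) (nat_lit 0) (p (nat_lit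 0x30412) (nat_lit 0) (p (nat_lit 0x30212) (nat_lit 0) (p (nat_lit 0x20192) (nat_lit 0) (p (nat_lit 0x20092) (nat_lit 0) (p (nat_lit 0x10012) (nat_lit 0) pn)))))))))))))))))))))))))) :=
  Cl.node (nat_lit 0xb000c) (nat_lit 2) (by decide +kernel) (ClAll.succ (ClAll.succ ClAll.zero s1221) s1222)

def n569 : Cl (O (nat_lit 1)) (R (nat_lit 104465))
    (p (nat_lit 0x380c2) (nat_lit 0) (p (nat_lit 0x3c4aa) (nat_lit 8) (p (nat_lit 0x109) (nat_lit 1) (p (nat_lit 0x89) (nat_lit 1) (p (nat_lit 0xc9) (nat_lit 1) (p (nat_lit 0xc1) (nat_lit 0) (p (nat_lit 0x119) (nat_lit 1) (p (nat_lit 0xd1) (nat_lit 0) (p (nat_lit 0x81) (nat_lit 0) (p (nat_lit 0x41) (nat_lit 1) (p (nat_lit 0x8078907089a) (nat_lit 0) (p (nat_lit 0x7870886861a) (nat_lit 0) (p (nat_lit 0x800070806078a) (nat_lit 0) (p (nat_lit 0x800068785850a) (nat_lit 0) (p (nat_lit 0x587050682) (nat_lit 0) (p (nat_lit 0x506848402)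 (nat_lit 0) (p (nat_lit 0x160014) (nat_lit 0) (p (nat_lit 0x16000c) (nat_lit 0) (p (nat_lit 0x50612) (nat_lit 0) (p (nat_lit 0x40592) (nat_lit 0) (p (nat_lit 0x40492) (nat_lit 0) (p (nat_lit 0x30412) (nat_lit 0) (p (nat_lit 0x30212) (nat_lit 0) (p (nat_lit 0x20192) (nat_lit 0) (p (nat_lit 0x20092) (nat_lit 0) (p (nat_lit 0x10012) (nat_lit 0) pn)))))))))))))))))))))))))) :=
  Cl.node (nat_lit 0xb000c) (nat_lit 2) (by decide +kernel) (ClAll.succ (ClAll.succ ClAll.zero n486) s1244)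

def n570 : Cl (O (nat_lit 1)) (R (nat_lit 104465))
    (p (nat_lit 0x380c2) (nat_lit 0) (p (nat_lit 0x44c2a) (nat_lit 0) (p (nat_lit 0x109) (nat_lit 0) (p (nat_lit 0x89) (nat_lit 1) (p (nat_lit 0x101) (nat_lit 0) (p (nat_lit 0xc1) (nat_lit 1) (p (nat_lit 0x119) (nat_lit 1) (p (nat_lit 0xd1) (nat_lit 0) (p (nat_lit 0x81) (nat_lit 0) (p (nat_lit 0x41) (nat_lit 1) (p (nat_lit 0x8078907089a) (nat_lit 0) (p (nat_lit 0x7870886861a) (nat_lit 0) (p (nat_lit 0x800070806078a) (nat_lit 0) (p (nat_lit 0x800068785850a) (nat_lit 0) (p (nat_lit 0x587050682) (nat_lit 0) (p (nat_lit 0x506848402) (nat_lit 0) (p (nat_lit 0x160014) (nat_lit 0) (p (nat_lit 0x16000c) (nat_lit 0) (p (nat_lit 0x50612) (nat_lit 0) (p (nat_lit 0x40592) (nat_lit 0) (p (nat_lit 0x40492) (nat_lit 0) (p (nat_lit 0x30412) (nat_lit 0) (p (nat_lit 0x30212) (nat_lit 0) (p (nat_lit 0x20192) (nat_lit 0) (p (nat_lit 0x20092)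 (nat_lit 0) (p (nat_lit 0x10012) (nat_lit 0) pn)))))))))))))))))))))))))) :=
  Cl.node (nat_lit 0x200004) (nat_lit 2) (by decide +kernel) (ClAll.succ (ClAll.succ ClAll.zero n487) s1262)

def n571 : Cl (O (nat_lit 1)) (R (nat_lit 104465))
    (p (nat_lit 0x380c2) (nat_lit 0) (p (nat_lit 0x3c4aa) (nat_lit 8) (p (nat_lit 0x109) (nat_lit 1) (p (nat_lit 0x89) (nat_lit 1) (p (nat_lit 0x101) (nat_lit 0) (p (nat_lit 0xc1) (nat_lit 1) (p (nat_lit 0x119) (nat_lit 1) (p (nat_lit 0xd1) (nat_lit 0) (p (nat_lit 0x81) (nat_lit 0) (p (nat_lit 0x41) (nat_lit 1) (p (nat_lit 0x8078907089a) (nat_lit 0) (p (nat_lit 0x7870886861a) (nat_lit 0) (p (nat_lit 0x800070806078a) (nat_lit 0) (p (nat_lit 0x800068785850a) (nat_lit 0) (p (nat_lit 0x587050682) (nat_lit 0) (p (nat_lit 0x506848402) (nat_lit 0) (p (nat_lit 0x160014) (nat_lit 0) (p (nat_lit 0x16000c) (nat_lit 0) (p (nat_lit 0x50612) (nat_lit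 0) (p (nat_lit 0x40592) (nat_lit 0) (p (nat_lit 0x40492) (nat_lit 0) (p (nat_lit 0x30412) (nat_lit 0) (p (nat_lit 0x30212) (nat_lit 0) (p (nat_lit 0x20192) (nat_lit 0) (p (nat_lit 0x20092) (nat_lit 0) (p (nat_lit 0x10012) (nat_lit 0) pn)))))))))))))))))))))))))) :=
  Cl.node (nat_lit 0xb000c) (nat_lit 2) (by decide +kernel) (ClAll.succ (ClAll.succ ClAll.zero n488) n489)

def n572 : Cl (O (nat_lit 1)) (R (nat_lit 104465))
    (p (nat_lit 0x81) (nat_lit 0) (p (nat_lit 0x380c2) (nat_lit 0) (p (nat_lit 0x3c4aa) (nat_lit 8) (p (nat_lit 0x89) (nat_lit 1) (p (nat_lit 0x101) (nat_lit 1) (p (nat_lit 0xc1) (nat_lit 1) (p (nat_lit 0x119) (nat_lit 1) (p (nat_lit 0xd1) (nat_lit 0) (p (nat_lit 0x81) (nat_lit 0) (p (nat_lit 0x41) (nat_lit 1) (p (nat_lit 0x8078907089a) (nat_lit 0) (p (nat_lit 0x7870886861a) (nat_lit 0) (p (nat_lit 0x800070806078a) (nat_lit 0) (p (nat_lit 0x800068785850a)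 (nat_lit 0) (p (nat_lit 0x587050682) (nat_lit 0) (p (nat_lit 0x506848402) (nat_lit 0) (p (nat_lit 0x160014) (nat_lit 0) (p (nat_lit 0x16000c) (nat_lit 0) (p (nat_lit 0x50612) (nat_lit 0) (p (nat_lit 0x40592) (nat_lit 0) (p (nat_lit 0x40492) (nat_lit 0) (p (nat_lit 0x30412) (nat_lit 0) (p (nat_lit 0x30212) (nat_lit 0) (p (nat_lit 0x20192) (nat_lit 0) (p (nat_lit 0x20092) (nat_lit 0) (p (nat_lit 0x10012) (nat_lit 0) pn)))))))))))))))))))))))))) :=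
  Cl.node (nat_lit 0xb0014) (nat_lit 2) (by decide +kernel) (ClAll.succ (ClAll.succ ClAll.zero s1331) s1332)

def n573 : Cl (O (nat_lit 1)) (R (nat_lit 104465))
    (p (nat_lit 0x81) (nat_lit 1) (p (nat_lit 0x380c2) (nat_lit 0) (p (nat_lit 0x3c4aa) (nat_lit 8) (p (nat_lit 0x89) (nat_lit 1) (p (nat_lit 0x101) (nat_lit 1) (p (nat_lit 0xc1) (nat_lit 1) (p (nat_lit 0x119) (nat_lit 1) (p (nat_lit 0xd1) (nat_lit 0) (p (nat_lit 0x81) (nat_lit 0) (p (nat_lit 0x41) (nat_lit 1) (p (nat_lit 0x8078907089a) (nat_lit 0) (p (nat_lit 0x7870886861a) (nat_lit 0) (p (nat_lit 0x800070806078a) (nat_lit 0) (p (nat_lit 0x800068785850a) (nat_lit 0) (p (nat_lit 0x587050682) (nat_lit 0) (p (nat_lit 0x506848402) (nat_lit 0) (p (nat_lit 0x160014) (nat_lit 0) (p (nat_lit 0x16000c) (nat_lit 0) (p (nat_lit 0x50612) (nat_lit 0) (p (nat_lit 0x40592) (nat_lit 0) (p (nat_lit 0x40492) (nat_lit 0) (p (nat_lit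 0x30412) (nat_lit 0) (p (nat_lit 0x30212) (nat_lit 0) (p (nat_lit 0x20192) (nat_lit 0) (p (nat_lit 0x20092) (nat_lit 0) (p (nat_lit 0x10012) (nat_lit 0) pn)))))))))))))))))))))))))) :=
  Cl.node (nat_lit 0x101) (nat_lit 2) (by decide +kernel) (ClAll.succ (ClAll.succ ClAll.zero n490) s1345)

def n574 : Cl (O (nat_lit 1)) (R (nat_lit 104465))
    (p (nat_lit 0x4c42a) (nat_lit 10) (p (nat_lit 0x119) (nat_lit 0) (p (nat_lit 0xc9) (nat_lit 0) (p (nat_lit 0x89) (nat_lit 1) (p (nat_lit 0x109) (nat_lit 1) (p (nat_lit 0x101) (nat_lit 0) (p (nat_lit 0x111) (nat_lit 0) (p (nat_lit 0xd1) (nat_lit 1) (p (nat_lit 0x81) (nat_lit 0) (p (nat_lit 0x41) (nat_lit 1) (p (nat_lit 0x8078907089a) (nat_lit 0) (p (nat_lit 0x7870886861a) (nat_lit 0) (p (nat_lit 0x800070806078a) (nat_lit 0) (p (nat_lit 0x800068785850a) (nat_lit 0) (p (nat_lit 0x587050682) (nat_lit 0) (p (nat_lit 0x506848402) (nat_lit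 0) (p (nat_lit 0x160014) (nat_lit 0) (p (nat_lit 0x16000c) (nat_lit 0) (p (nat_lit 0x50612) (nat_lit 0) (p (nat_lit 0x40592) (nat_lit 0) (p (nat_lit 0x40492) (nat_lit 0) (p (nat_lit 0x30412) (nat_lit 0) (p (nat_lit 0x30212) (nat_lit 0) (p (nat_lit 0x20192) (nat_lit 0) (p (nat_lit 0x20092) (nat_lit 0) (p (nat_lit 0x10012) (nat_lit 0) pn)))))))))))))))))))))))))) :=
  Cl.node (nat_lit 0x380c2) (nat_lit 2) (by decide +kernel) (ClAll.succ (ClAll.succ ClAll.zero n491) n492)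

def n575 : Cl (O (nat_lit 1)) (R (nat_lit 104465))
    (p (nat_lit 0x4c42a) (nat_lit 10) (p (nat_lit 0x119) (nat_lit 1) (p (nat_lit 0xc9) (nat_lit 0) (p (nat_lit 0x89) (nat_lit 1) (p (nat_lit 0x109) (nat_lit 1) (p (nat_lit 0x101) (nat_lit 0) (p (nat_lit 0x111) (nat_lit 0) (p (nat_lit 0xd1) (nat_lit 1) (p (nat_lit 0x81) (nat_lit 0) (p (nat_lit 0x41) (nat_lit 1) (p (nat_lit 0x8078907089a) (nat_lit 0) (p (nat_lit 0x7870886861a) (nat_lit 0) (p (nat_lit 0x800070806078a) (nat_lit 0) (p (nat_lit 0x800068785850a) (nat_lit 0) (p (nat_lit 0x587050682) (nat_lit 0) (p (nat_lit 0x506848402) (nat_lit 0) (p (nat_lit 0x160014) (nat_lit 0) (p (nat_lit 0x16000c) (nat_lit 0) (p (nat_lit 0x50612) (nat_lit 0) (p (nat_lit 0x40592) (nat_lit 0) (p (nat_lit 0x40492) (nat_lit 0) (p (nat_lit 0x30412) (nat_lit 0) (p (nat_lit 0x30212) (nat_lit 0) (p (nat_lit 0x20192) (nat_lit 0) (p (nat_lit 0x20092)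 (nat_lit 0) (p (nat_lit 0x10012) (nat_lit 0) pn)))))))))))))))))))))))))) :=
  Cl.node (nat_lit 0x380c2) (nat_lit 2) (by decide +kernel) (ClAll.succ (ClAll.succ ClAll.zero n493) n494)

def n576 : Cl (O (nat_lit 1)) (R (nat_lit 104465))
    (p (nat_lit 0xb000c) (nat_lit 0) (p (nat_lit 0xc9) (nat_lit 1) (p (nat_lit 0x380c2) (nat_lit 0) (p (nat_lit 0x3cc2a) (nat_lit 2) (p (nat_lit 0x89) (nat_lit 0) (p (nat_lit 0x101) (nat_lit 1) (p (nat_lit 0x111) (nat_lit 0) (p (nat_lit 0xd1) (nat_lit 1) (p (nat_lit 0x81) (nat_lit 0) (p (nat_lit 0x41) (nat_lit 1) (p (nat_lit 0x8078907089a) (nat_lit 0) (p (nat_lit 0x7870886861a) (nat_lit 0) (p (nat_lit 0x800070806078a) (nat_lit 0) (p (nat_lit 0x800068785850a) (nat_lit 0) (p (nat_lit 0x587050682) (nat_lit 0) (p (nat_lit 0x506848402) (nat_lit 0) (p (nat_lit 0x160014) (nat_lit 0) (p (nat_lit 0x16000c) (nat_lit 0) (p (nat_lit 0x50612) (nat_lit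 0) (p (nat_lit 0x40592) (nat_lit 0) (p (nat_lit 0x40492) (nat_lit 0) (p (nat_lit 0x30412) (nat_lit 0) (p (nat_lit 0x30212) (nat_lit 0) (p (nat_lit 0x20192) (nat_lit 0) (p (nat_lit 0x20092) (nat_lit 0) (p (nat_lit 0x10012) (nat_lit 0) pn)))))))))))))))))))))))))) :=
  Cl.node (nat_lit 0x89) (nat_lit 2) (by decide +kernel) (ClAll.succ (ClAll.succ ClAll.zero s1505) n495)

def n577 : Cl (O (nat_lit 1)) (R (nat_lit 104465))
    (p (nat_lit 0xb0014) (nat_lit 0) (p (nat_lit 0x380c2) (nat_lit 0) (p (nat_lit 0x3cc2a) (nat_lit 2) (p (nat_lit 0xc9) (nat_lit 0) (p (nat_lit 0x89) (nat_lit 1) (p (nat_lit 0x101) (nat_lit 1) (p (nat_lit 0x111) (nat_lit 0) (p (nat_lit 0xd1) (nat_lit 1) (p (nat_lit 0x81) (nat_lit 0) (p (nat_lit 0x41) (nat_lit 1) (p (nat_lit 0x8078907089a) (nat_lit 0) (p (nat_lit 0x7870886861a) (nat_lit 0) (p (nat_lit 0x800070806078a) (nat_lit 0) (p (nat_lit 0x800068785850a)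 (nat_lit 0) (p (nat_lit 0x587050682) (nat_lit 0) (p (nat_lit 0x506848402) (nat_lit 0) (p (nat_lit 0x160014) (nat_lit 0) (p (nat_lit 0x16000c) (nat_lit 0) (p (nat_lit 0x50612) (nat_lit 0) (p (nat_lit 0x40592) (nat_lit 0) (p (nat_lit 0x40492) (nat_lit 0) (p (nat_lit 0x30412) (nat_lit 0) (p (nat_lit 0x30212) (nat_lit 0) (p (nat_lit 0x20192) (nat_lit 0) (p (nat_lit 0x20092) (nat_lit 0) (p (nat_lit 0x10012) (nat_lit 0) pn)))))))))))))))))))))))))) :=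
  Cl.node (nat_lit 0xd1) (nat_lit 2) (by decide +kernel) (ClAll.succ (ClAll.succ ClAll.zero n496) n497)

def n578 : Cl (O (nat_lit 1)) (R (nat_lit 104465))
    (p (nat_lit 0xb0014) (nat_lit 0) (p (nat_lit 0x380c2) (nat_lit 0) (p (nat_lit 0x3cc2a) (nat_lit 2) (p (nat_lit 0x109) (nat_lit 0) (p (nat_lit 0xc9) (nat_lit 1) (p (nat_lit 0x89) (nat_lit 1) (p (nat_lit 0x111) (nat_lit 1) (p (nat_lit 0xd1) (nat_lit 1) (p (nat_lit 0x81) (nat_lit 0) (p (nat_lit 0x41) (nat_lit 1) (p (nat_lit 0x8078907089a) (nat_lit 0) (p (nat_lit 0x7870886861a) (nat_lit 0) (p (nat_lit 0x800070806078a) (nat_lit 0) (p (nat_lit 0x800068785850a) (nat_lit 0) (p (nat_lit 0x587050682) (nat_lit 0) (p (nat_lit 0x506848402) (nat_lit 0) (p (nat_lit 0x160014) (nat_lit 0) (p (nat_lit 0x16000c) (nat_lit 0) (p (nat_lit 0x50612) (nat_lit 0) (p (nat_lit 0x40592) (nat_lit 0) (p (nat_lit 0x40492) (nat_lit 0) (p (nat_lit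 0x30412) (nat_lit 0) (p (nat_lit 0x30212) (nat_lit 0) (p (nat_lit 0x20192) (nat_lit 0) (p (nat_lit 0x20092) (nat_lit 0) (p (nat_lit 0x10012) (nat_lit 0) pn)))))))))))))))))))))))))) :=
  Cl.node (nat_lit 0x109) (nat_lit 2) (by decide +kernel) (ClAll.succ (ClAll.succ ClAll.zero s1576) s1577)

def n579 : Cl (O (nat_lit 1)) (R (nat_lit 104465))
    (p (nat_lit 0x380c2) (nat_lit 0) (p (nat_lit 0x3c4aa) (nat_lit 7) (p (nat_lit 0xd1) (nat_lit 1) (p (nat_lit 0x111) (nat_lit 1) (p (nat_lit 0x109) (nat_lit 0) (p (nat_lit 0x101) (nat_lit 0) (p (nat_lit 0x119) (nat_lit 0) (p (nat_lit 0xc1) (nat_lit 0) (p (nat_lit 0x81) (nat_lit 1) (p (nat_lit 0x41) (nat_lit 1) (p (nat_lit 0x8078907089a) (nat_lit 0) (p (nat_lit 0x7870886861a) (nat_lit 0) (p (nat_lit 0x800070806078a) (nat_lit 0) (p (nat_lit 0x800068785850a) (nat_lit 0) (p (nat_lit 0x587050682) (nat_lit 0) (p (nat_lit 0x506848402)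 (nat_lit 0) (p (nat_lit 0x160014) (nat_lit 0) (p (nat_lit 0x16000c) (nat_lit 0) (p (nat_lit 0x50612) (nat_lit 0) (p (nat_lit 0x40592) (nat_lit 0) (p (nat_lit 0x40492) (nat_lit 0) (p (nat_lit 0x30412) (nat_lit 0) (p (nat_lit 0x30212) (nat_lit 0) (p (nat_lit 0x20192) (nat_lit 0) (p (nat_lit 0x20092) (nat_lit 0) (p (nat_lit 0x10012) (nat_lit 0) pn)))))))))))))))))))))))))) :=
  Cl.node (nat_lit 0x200004) (nat_lit 2) (by decide +kernel) (ClAll.succ (ClAll.succ ClAll.zero n498) s1612)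

def n580 : Cl (O (nat_lit 1)) (R (nat_lit 104465))
    (p (nat_lit 0x380c2) (nat_lit 1) (p (nat_lit 0x3c4aa) (nat_lit 7) (p (nat_lit 0xd1) (nat_lit 1) (p (nat_lit 0x111) (nat_lit 1) (p (nat_lit 0x109) (nat_lit 0) (p (nat_lit 0x101) (nat_lit 0) (p (nat_lit 0x119) (nat_lit 0) (p (nat_lit 0xc1) (nat_lit 0) (p (nat_lit 0x81) (nat_lit 1) (p (nat_lit 0x41) (nat_lit 1) (p (nat_lit 0x8078907089a) (nat_lit 0) (p (nat_lit 0x7870886861a) (nat_lit 0) (p (nat_lit 0x800070806078a) (nat_lit 0) (p (nat_lit 0x800068785850a) (nat_lit 0) (p (nat_lit 0x587050682) (nat_lit 0) (p (nat_lit 0x506848402) (nat_lit 0) (p (nat_lit 0x160014) (nat_lit 0) (p (nat_lit 0x16000c) (nat_lit 0) (p (nat_lit 0x50612) (nat_lit 0) (p (nat_lit 0x40592) (nat_lit 0) (p (nat_lit 0x40492) (nat_lit 0) (p (nat_lit 0x30412) (nat_lit 0) (p (nat_lit 0x30212) (nat_lit 0) (p (nat_lit 0x20192) (nat_lit 0) (p (nat_lit 0x20092)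 (nat_lit 0) (p (nat_lit 0x10012) (nat_lit 0) pn)))))))))))))))))))))))))) :=
  Cl.node (nat_lit 0x200004) (nat_lit 2) (by decide +kernel) (ClAll.succ (ClAll.succ ClAll.zero s1613) s1614)

def n581 : Cl (O (nat_lit 1)) (R (nat_lit 104465))
    (p (nat_lit 0x380c2) (nat_lit 0) (p (nat_lit 0x3c4aa) (nat_lit 8) (p (nat_lit 0xd1) (nat_lit 1) (p (nat_lit 0x111) (nat_lit 1) (p (nat_lit 0x109) (nat_lit 0) (p (nat_lit 0x101) (nat_lit 0) (p (nat_lit 0x119) (nat_lit 0) (p (nat_lit 0xc1) (nat_lit 0) (p (nat_lit 0x81) (nat_lit 1) (p (nat_lit 0x41) (nat_lit 1) (p (nat_lit 0x8078907089a) (nat_lit 0) (p (nat_lit 0x7870886861a) (nat_lit 0) (p (nat_lit 0x800070806078a) (nat_lit 0) (p (nat_lit 0x800068785850a) (nat_lit 0) (p (nat_lit 0x587050682) (nat_lit 0) (p (nat_lit 0x506848402) (nat_lit 0) (p (nat_lit 0x160014) (nat_lit 0) (p (nat_lit 0x16000c) (nat_lit 0) (p (nat_lit 0x50612) (nat_lit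 0) (p (nat_lit 0x40592) (nat_lit 0) (p (nat_lit 0x40492) (nat_lit 0) (p (nat_lit 0x30412) (nat_lit 0) (p (nat_lit 0x30212) (nat_lit 0) (p (nat_lit 0x20192) (nat_lit 0) (p (nat_lit 0x20092) (nat_lit 0) (p (nat_lit 0x10012) (nat_lit 0) pn)))))))))))))))))))))))))) :=
  Cl.node (nat_lit 0xb0014) (nat_lit 2) (by decide +kernel) (ClAll.succ (ClAll.succ ClAll.zero n499) s1620)

def n582 : Cl (O (nat_lit 1)) (R (nat_lit 104465))
    (p (nat_lit 0x380c2) (nat_lit 0) (p (nat_lit 0x3c4aa) (nat_lit 8) (p (nat_lit 0xd1) (nat_lit 1) (p (nat_lit 0xc9) (nat_lit 0) (p (nat_lit 0x109) (nat_lit 1) (p (nat_lit 0x101) (nat_lit 0) (p (nat_lit 0x119) (nat_lit 0) (p (nat_lit 0xc1) (nat_lit 0) (p (nat_lit 0x81) (nat_lit 1) (p (nat_lit 0x41) (nat_lit 1) (p (nat_lit 0x8078907089a) (nat_lit 0) (p (nat_lit 0x7870886861a) (nat_lit 0) (p (nat_lit 0x800070806078a) (nat_lit 0) (p (nat_lit 0x800068785850a)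 (nat_lit 0) (p (nat_lit 0x587050682) (nat_lit 0) (p (nat_lit 0x506848402) (nat_lit 0) (p (nat_lit 0x160014) (nat_lit 0) (p (nat_lit 0x16000c) (nat_lit 0) (p (nat_lit 0x50612) (nat_lit 0) (p (nat_lit 0x40592) (nat_lit 0) (p (nat_lit 0x40492) (nat_lit 0) (p (nat_lit 0x30412) (nat_lit 0) (p (nat_lit 0x30212) (nat_lit 0) (p (nat_lit 0x20192) (nat_lit 0) (p (nat_lit 0x20092) (nat_lit 0) (p (nat_lit 0x10012) (nat_lit 0) pn)))))))))))))))))))))))))) :=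
  Cl.node (nat_lit 0xb0014) (nat_lit 2) (by decide +kernel) (ClAll.succ (ClAll.succ ClAll.zero s1635) s1636)

def n583 : Cl (O (nat_lit 1)) (R (nat_lit 104465))
    (p (nat_lit 0x200004) (nat_lit 0) (p (nat_lit 0x380c2) (nat_lit 0) (p (nat_lit 0x44c2a) (nat_lit 0) (p (nat_lit 0xd1) (nat_lit 0) (p (nat_lit 0xc9) (nat_lit 0) (p (nat_lit 0x101) (nat_lit 1) (p (nat_lit 0x119) (nat_lit 0) (p (nat_lit 0xc1) (nat_lit 0) (p (nat_lit 0x81) (nat_lit 1) (p (nat_lit 0x41) (nat_lit 1) (p (nat_lit 0x8078907089a) (nat_lit 0) (p (nat_lit 0x7870886861a) (nat_lit 0) (p (nat_lit 0x800070806078a) (nat_lit 0) (p (nat_lit 0x800068785850a) (nat_lit 0) (p (nat_lit 0x587050682) (nat_lit 0) (p (nat_lit 0x506848402) (nat_lit 0) (p (nat_lit 0x160014) (nat_lit 0) (p (nat_lit 0x16000c) (nat_lit 0) (p (nat_lit 0x50612) (nat_lit 0) (p (nat_lit 0x40592) (nat_lit 0) (p (nat_lit 0x40492) (nat_lit 0) (p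 (nat_lit 0x30412) (nat_lit 0) (p (nat_lit 0x30212) (nat_lit 0) (p (nat_lit 0x20192) (nat_lit 0) (p (nat_lit 0x20092) (nat_lit 0) (p (nat_lit 0x10012) (nat_lit 0) pn)))))))))))))))))))))))))) :=
  Cl.node (nat_lit 0xb000c) (nat_lit 2) (by decide +kernel) (ClAll.succ (ClAll.succ ClAll.zero n500) s1655)

def n584 : Cl (O (nat_lit 1)) (R (nat_lit 104465))
    (p (nat_lit 0x200004) (nat_lit 0) (p (nat_lit 0x380c2) (nat_lit 1) (p (nat_lit 0x44c2a) (nat_lit 0) (p (nat_lit 0xd1) (nat_lit 0) (p (nat_lit 0xc9) (nat_lit 0) (p (nat_lit 0x101) (nat_lit 1) (p (nat_lit 0x119) (nat_lit 0) (p (nat_lit 0xc1) (nat_lit 0) (p (nat_lit 0x81) (nat_lit 1) (p (nat_lit 0x41) (nat_lit 1) (p (nat_lit 0x8078907089a) (nat_lit 0) (p (nat_lit 0x7870886861a) (nat_lit 0) (p (nat_lit 0x800070806078a) (nat_lit 0) (p (nat_lit 0x800068785850a) (nat_lit 0) (p (nat_lit 0x587050682) (nat_lit 0) (p (nat_lit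 0x506848402) (nat_lit 0) (p (nat_lit 0x160014) (nat_lit 0) (p (nat_lit 0x16000c) (nat_lit 0) (p (nat_lit 0x50612) (nat_lit 0) (p (nat_lit 0x40592) (nat_lit 0) (p (nat_lit 0x40492) (nat_lit 0) (p (nat_lit 0x30412) (nat_lit 0) (p (nat_lit 0x30212) (nat_lit 0) (p (nat_lit 0x20192) (nat_lit 0) (p (nat_lit 0x20092) (nat_lit 0) (p (nat_lit 0x10012) (nat_lit 0) pn)))))))))))))))))))))))))) :=
  Cl.node (nat_lit 0xc9) (nat_lit 2) (by decide +kernel) (ClAll.succ (ClAll.succ ClAll.zero s1657) n501)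

def n585 : Cl (O (nat_lit 1)) (R (nat_lit 104465))
    (p (nat_lit 0xb000c) (nat_lit 0) (p (nat_lit 0x380c2) (nat_lit 0) (p (nat_lit 0x44c2a) (nat_lit 1) (p (nat_lit 0xd1) (nat_lit 0) (p (nat_lit 0xc9) (nat_lit 0) (p (nat_lit 0x101) (nat_lit 1) (p (nat_lit 0x119) (nat_lit 0) (p (nat_lit 0xc1) (nat_lit 0) (p (nat_lit 0x81) (nat_lit 1) (p (nat_lit 0x41) (nat_lit 1) (p (nat_lit 0x8078907089a) (nat_lit 0) (p (nat_lit 0x7870886861a) (nat_lit 0) (p (nat_lit 0x800070806078a) (nat_lit 0) (p (nat_lit 0x800068785850a) (nat_lit 0) (p (nat_lit 0x587050682) (nat_lit 0) (p (nat_lit 0x506848402) (nat_lit 0) (p (nat_lit 0x160014) (nat_lit 0) (p (nat_lit 0x16000c) (nat_lit 0) (p (nat_lit 0x50612) (nat_lit 0) (p (nat_lit 0x40592) (nat_lit 0) (p (nat_lit 0x40492) (nat_lit 0) (p (nat_lit 0x30412) (nat_lit 0) (p (nat_lit 0x30212) (nat_lit 0) (p (nat_lit 0x20192) (nat_lit 0) (p (nat_lit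 0x20092) (nat_lit 0) (p (nat_lit 0x10012) (nat_lit 0) pn)))))))))))))))))))))))))) :=
  Cl.node (nat_lit 0xb0014) (nat_lit 2) (by decide +kernel) (ClAll.succ (ClAll.succ ClAll.zero s1661) s1662)

def n586 : Cl (O (nat_lit 1)) (R (nat_lit 104465))
    (p (nat_lit 0xb000c) (nat_lit 1) (p (nat_lit 0x380c2) (nat_lit 0) (p (nat_lit 0x44c2a) (nat_lit 1) (p (nat_lit 0xd1) (nat_lit 0) (p (nat_lit 0xc9) (nat_lit 0) (p (nat_lit 0x101) (nat_lit 1) (p (nat_lit 0x119) (nat_lit 0) (p (nat_lit 0xc1) (nat_lit 0) (p (nat_lit 0x81) (nat_lit 1) (p (nat_lit 0x41) (nat_lit 1) (p (nat_lit 0x8078907089a) (nat_lit 0) (p (nat_lit 0x7870886861a) (nat_lit 0) (p (nat_lit 0x800070806078a) (nat_lit 0) (p (nat_lit 0x800068785850a) (nat_lit 0) (p (nat_lit 0x587050682) (nat_lit 0) (p (nat_lit 0x506848402) (nat_lit 0) (p (nat_lit 0x160014) (nat_lit 0) (p (nat_lit 0x16000c) (nat_lit 0) (p (nat_lit 0x50612)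 (nat_lit 0) (p (nat_lit 0x40592) (nat_lit 0) (p (nat_lit 0x40492) (nat_lit 0) (p (nat_lit 0x30412) (nat_lit 0) (p (nat_lit 0x30212) (nat_lit 0) (p (nat_lit 0x20192) (nat_lit 0) (p (nat_lit 0x20092) (nat_lit 0) (p (nat_lit 0x10012) (nat_lit 0) pn)))))))))))))))))))))))))) :=
  Cl.node (nat_lit 0x1fc004) (nat_lit 2) (by decide +kernel) (ClAll.succ (ClAll.succ ClAll.zero n502) s1666)

def n587 : Cl (O (nat_lit 1)) (R (nat_lit 104465))
    (p (nat_lit 0x200004) (nat_lit 0) (p (nat_lit 0x380c2) (nat_lit 1) (p (nat_lit 0x3c4aa) (nat_lit 7) (p (nat_lit 0xd1) (nat_lit 1) (p (nat_lit 0xc9) (nat_lit 0) (p (nat_lit 0x101) (nat_lit 1) (p (nat_lit 0x119) (nat_lit 0) (p (nat_lit 0xc1) (nat_lit 0) (p (nat_lit 0x81) (nat_lit 1) (p (nat_lit 0x41) (nat_lit 1) (p (nat_lit 0x8078907089a) (nat_lit 0) (p (nat_lit 0x7870886861a) (nat_lit 0) (p (nat_lit 0x800070806078a) (nat_lit 0) (p (nat_lit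 0x800068785850a) (nat_lit 0) (p (nat_lit 0x587050682) (nat_lit 0) (p (nat_lit 0x506848402) (nat_lit 0) (p (nat_lit 0x160014) (nat_lit 0) (p (nat_lit 0x16000c) (nat_lit 0) (p (nat_lit 0x50612) (nat_lit 0) (p (nat_lit 0x40592) (nat_lit 0) (p (nat_lit 0x40492) (nat_lit 0) (p (nat_lit 0x30412) (nat_lit 0) (p (nat_lit 0x30212) (nat_lit 0) (p (nat_lit 0x20192) (nat_lit 0) (p (nat_lit 0x20092) (nat_lit 0) (p (nat_lit 0x10012) (nat_lit 0) pn)))))))))))))))))))))))))) :=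
  Cl.node (nat_lit 0x100004) (nat_lit 2) (by decide +kernel) (ClAll.succ (ClAll.succ ClAll.zero s1685) s1686)

def n588 : Cl (O (nat_lit 1)) (R (nat_lit 104465))
    (p (nat_lit 0x200004) (nat_lit 0) (p (nat_lit 0x380c2) (nat_lit 0) (p (nat_lit 0x44c2a) (nat_lit 0) (p (nat_lit 0x111) (nat_lit 0) (p (nat_lit 0x109) (nat_lit 0) (p (nat_lit 0xc9) (nat_lit 1) (p (nat_lit 0x119) (nat_lit 1) (p (nat_lit 0xc1) (nat_lit 0) (p (nat_lit 0x81) (nat_lit 1) (p (nat_lit 0x41) (nat_lit 1) (p (nat_lit 0x8078907089a) (nat_lit 0) (p (nat_lit 0x7870886861a) (nat_lit 0) (p (nat_lit 0x800070806078a) (nat_lit 0) (p (nat_lit 0x800068785850a) (nat_lit 0) (p (nat_lit 0x587050682) (nat_lit 0) (p (nat_lit 0x506848402) (nat_lit 0) (p (nat_lit 0x160014) (nat_lit 0) (p (nat_lit 0x16000c) (nat_lit 0) (p (nat_lit 0x50612) (nat_lit 0) (p (nat_lit 0x40592) (nat_lit 0) (p (nat_lit 0x40492) (nat_lit 0)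 (p (nat_lit 0x30412) (nat_lit 0) (p (nat_lit 0x30212) (nat_lit 0) (p (nat_lit 0x20192) (nat_lit 0) (p (nat_lit 0x20092) (nat_lit 0) (p (nat_lit 0x10012) (nat_lit 0) pn)))))))))))))))))))))))))) :=
  Cl.node (nat_lit 0xb000c) (nat_lit 2) (by decide +kernel) (ClAll.succ (ClAll.succ ClAll.zero s1722) s1723)

def n589 : Cl (O (nat_lit 1)) (R (nat_lit 104465))
    (p (nat_lit 0x200004) (nat_lit 0) (p (nat_lit 0x380c2) (nat_lit 0) (p (nat_lit 0x44c2a) (nat_lit 1) (p (nat_lit 0x111) (nat_lit 0) (p (nat_lit 0x109) (nat_lit 0) (p (nat_lit 0xc9) (nat_lit 1) (p (nat_lit 0x119) (nat_lit 1) (p (nat_lit 0xc1) (nat_lit 0) (p (nat_lit 0x81) (nat_lit 1) (p (nat_lit 0x41) (nat_lit 1) (p (nat_lit 0x8078907089a) (nat_lit 0) (p (nat_lit 0x7870886861a) (nat_lit 0) (p (nat_lit 0x800070806078a) (nat_lit 0) (p (nat_lit 0x800068785850a) (nat_lit 0) (p (nat_lit 0x587050682) (nat_lit 0) (p (nat_lit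 0x506848402) (nat_lit 0) (p (nat_lit 0x160014) (nat_lit 0) (p (nat_lit 0x16000c) (nat_lit 0) (p (nat_lit 0x50612) (nat_lit 0) (p (nat_lit 0x40592) (nat_lit 0) (p (nat_lit 0x40492) (nat_lit 0) (p (nat_lit 0x30412) (nat_lit 0) (p (nat_lit 0x30212) (nat_lit 0) (p (nat_lit 0x20192) (nat_lit 0) (p (nat_lit 0x20092) (nat_lit 0) (p (nat_lit 0x10012) (nat_lit 0) pn)))))))))))))))))))))))))) :=
  Cl.node (nat_lit 0x109) (nat_lit 2) (by decide +kernel) (ClAll.succ (ClAll.succ ClAll.zero s1726) s1727)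

def n590 : Cl (O (nat_lit 1)) (R (nat_lit 104465))
    (p (nat_lit 0xd1) (nat_lit 0) (p (nat_lit 0x380c2) (nat_lit 0) (p (nat_lit 0x3c4aa) (nat_lit 8) (p (nat_lit 0x111) (nat_lit 1) (p (nat_lit 0x109) (nat_lit 0) (p (nat_lit 0xc9) (nat_lit 1) (p (nat_lit 0x119) (nat_lit 1) (p (nat_lit 0xc1) (nat_lit 0) (p (nat_lit 0x81) (nat_lit 1) (p (nat_lit 0x41) (nat_lit 1) (p (nat_lit 0x8078907089a) (nat_lit 0) (p (nat_lit 0x7870886861a) (nat_lit 0) (p (nat_lit 0x800070806078a) (nat_lit 0) (p (nat_lit 0x800068785850a) (nat_lit 0) (p (nat_lit 0x587050682) (nat_lit 0) (p (nat_lit 0x506848402) (nat_lit 0) (p (nat_lit 0x160014) (nat_lit 0) (p (nat_lit 0x16000c) (nat_lit 0) (p (nat_lit 0x50612) (nat_lit 0) (p (nat_lit 0x40592) (nat_lit 0) (p (nat_lit 0x40492) (nat_lit 0) (p (nat_lit 0x30412) (nat_lit 0) (p (nat_lit 0x30212) (nat_lit 0) (p (nat_lit 0x20192) (nat_lit 0) (p (nat_lit 0x20092)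 (nat_lit 0) (p (nat_lit 0x10012) (nat_lit 0) pn)))))))))))))))))))))))))) :=
  Cl.node (nat_lit 0x119) (nat_lit 2) (by decide +kernel) (ClAll.succ (ClAll.succ ClAll.zero s1748) s1749)

def n591 : Cl (O (nat_lit 1)) (R (nat_lit 104465))
    (p (nat_lit 0x3cc2a) (nat_lit 0) (p (nat_lit 0x81) (nat_lit 0) (p (nat_lit 0xc9) (nat_lit 1) (p (nat_lit 0x109) (nat_lit 1) (p (nat_lit 0x101) (nat_lit 0) (p (nat_lit 0x119) (nat_lit 0) (p (nat_lit 0xd1) (nat_lit 0) (p (nat_lit 0x89) (nat_lit 0) (p (nat_lit 0x41) (nat_lit 0) (p (nat_lit 0x8078907089a) (nat_lit 0) (p (nat_lit 0x7870886861a) (nat_lit 0) (p (nat_lit 0x800070806078a) (nat_lit 0) (p (nat_lit 0x800068785850a) (nat_lit 0) (p (nat_lit 0x587050682) (nat_lit 0) (p (nat_lit 0x506848402) (nat_lit 0) (p (nat_lit 0x160014) (nat_lit 0) (p (nat_lit 0x16000c) (nat_lit 0) (p (nat_lit 0x50612) (nat_lit 0) (p (nat_lit 0x40592) (nat_lit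 0) (p (nat_lit 0x40492) (nat_lit 0) (p (nat_lit 0x30412) (nat_lit 0) (p (nat_lit 0x30212) (nat_lit 0) (p (nat_lit 0x20192) (nat_lit 0) (p (nat_lit 0x20092) (nat_lit 0) (p (nat_lit 0x10012) (nat_lit 0) pn))))))))))))))))))))))))) :=
  Cl.node (nat_lit 0x380c2) (nat_lit 2) (by decide +kernel) (ClAll.succ (ClAll.succ ClAll.zero s3) s4)

def n592 : Cl (O (nat_lit 1)) (R (nat_lit 104465))
    (p (nat_lit 0x3cc2a) (nat_lit 2) (p (nat_lit 0x81) (nat_lit 0) (p (nat_lit 0xc9) (nat_lit 1) (p (nat_lit 0x109) (nat_lit 1) (p (nat_lit 0x101) (nat_lit 0) (p (nat_lit 0x119) (nat_lit 0) (p (nat_lit 0xd1) (nat_lit 0) (p (nat_lit 0x89) (nat_lit 0) (p (nat_lit 0x41) (nat_lit 0) (p (nat_lit 0x8078907089a) (nat_lit 0) (p (nat_lit 0x7870886861a) (nat_lit 0) (p (nat_lit 0x800070806078a) (nat_lit 0) (p (nat_lit 0x800068785850a) (nat_lit 0) (p (nat_lit 0x587050682) (nat_lit 0) (p (nat_lit 0x506848402)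 (nat_lit 0) (p (nat_lit 0x160014) (nat_lit 0) (p (nat_lit 0x16000c) (nat_lit 0) (p (nat_lit 0x50612) (nat_lit 0) (p (nat_lit 0x40592) (nat_lit 0) (p (nat_lit 0x40492) (nat_lit 0) (p (nat_lit 0x30412) (nat_lit 0) (p (nat_lit 0x30212) (nat_lit 0) (p (nat_lit 0x20192) (nat_lit 0) (p (nat_lit 0x20092) (nat_lit 0) (p (nat_lit 0x10012) (nat_lit 0) pn))))))))))))))))))))))))) :=
  Cl.node (nat_lit 0x380c2) (nat_lit 1) (by decide +kernel) (ClAll.succ ClAll.zero n503)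

def n593 : Cl (O (nat_lit 1)) (R (nat_lit 104465))
    (p (nat_lit 0x444aa) (nat_lit 7) (p (nat_lit 0x81) (nat_lit 1) (p (nat_lit 0xc9) (nat_lit 1) (p (nat_lit 0x109) (nat_lit 1) (p (nat_lit 0x101) (nat_lit 0) (p (nat_lit 0x119) (nat_lit 0) (p (nat_lit 0xd1) (nat_lit 0) (p (nat_lit 0x89) (nat_lit 0) (p (nat_lit 0x41) (nat_lit 0) (p (nat_lit 0x8078907089a) (nat_lit 0) (p (nat_lit 0x7870886861a) (nat_lit 0) (p (nat_lit 0x800070806078a) (nat_lit 0) (p (nat_lit 0x800068785850a) (nat_lit 0) (p (nat_lit 0x587050682) (nat_lit 0) (p (nat_lit 0x506848402) (nat_lit 0) (p (nat_lit 0x160014) (nat_lit 0) (p (nat_lit 0x16000c) (nat_lit 0) (p (nat_lit 0x50612) (nat_lit 0) (p (nat_lit 0x40592) (nat_lit 0) (p (nat_lit 0x40492) (nat_lit 0) (p (nat_lit 0x30412) (nat_lit 0) (p (nat_lit 0x30212) (nat_lit 0) (p (nat_lit 0x20192) (nat_lit 0) (p (nat_lit 0x20092) (nat_lit 0) (p (nat_lit 0x10012)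 (nat_lit 0) pn))))))))))))))))))))))))) :=
  Cl.node (nat_lit 0x380c2) (nat_lit 2) (by decide +kernel) (ClAll.succ (ClAll.succ ClAll.zero n504) n505)

def n594 : Cl (O (nat_lit 1)) (R (nat_lit 104465))
    (p (nat_lit 0x4c42a) (nat_lit 10) (p (nat_lit 0x111) (nat_lit 0) (p (nat_lit 0xc9) (nat_lit 0) (p (nat_lit 0x81) (nat_lit 0) (p (nat_lit 0x101) (nat_lit 1) (p (nat_lit 0x119) (nat_lit 0) (p (nat_lit 0xd1) (nat_lit 0) (p (nat_lit 0x89) (nat_lit 0) (p (nat_lit 0x41) (nat_lit 0) (p (nat_lit 0x8078907089a) (nat_lit 0) (p (nat_lit 0x7870886861a) (nat_lit 0) (p (nat_lit 0x800070806078a) (nat_lit 0) (p (nat_lit 0x800068785850a) (nat_lit 0) (p (nat_lit 0x587050682) (nat_lit 0) (p (nat_lit 0x506848402) (nat_lit 0) (p (nat_lit 0x160014) (nat_lit 0) (p (nat_lit 0x16000c) (nat_lit 0) (p (nat_lit 0x50612) (nat_lit 0) (p (nat_lit 0x40592) (nat_lit 0) (p (nat_lit 0x40492) (nat_lit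 0) (p (nat_lit 0x30412) (nat_lit 0) (p (nat_lit 0x30212) (nat_lit 0) (p (nat_lit 0x20192) (nat_lit 0) (p (nat_lit 0x20092) (nat_lit 0) (p (nat_lit 0x10012) (nat_lit 0) pn))))))))))))))))))))))))) :=
  Cl.node (nat_lit 0x380c2) (nat_lit 2) (by decide +kernel) (ClAll.succ (ClAll.succ ClAll.zero s112) s113)

def n595 : Cl (O (nat_lit 1)) (R (nat_lit 104465))
    (p (nat_lit 0x444aa) (nat_lit 7) (p (nat_lit 0x111) (nat_lit 0) (p (nat_lit 0xc9) (nat_lit 1) (p (nat_lit 0x81) (nat_lit 0) (p (nat_lit 0x101) (nat_lit 1) (p (nat_lit 0x119) (nat_lit 0) (p (nat_lit 0xd1) (nat_lit 0) (p (nat_lit 0x89) (nat_lit 0) (p (nat_lit 0x41) (nat_lit 0) (p (nat_lit 0x8078907089a) (nat_lit 0) (p (nat_lit 0x7870886861a) (nat_lit 0) (p (nat_lit 0x800070806078a) (nat_lit 0) (p (nat_lit 0x800068785850a) (nat_lit 0) (p (nat_lit 0x587050682) (nat_lit 0) (p (nat_lit 0x506848402) (nat_lit 0) (p (nat_lit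 0x160014) (nat_lit 0) (p (nat_lit 0x16000c) (nat_lit 0) (p (nat_lit 0x50612) (nat_lit 0) (p (nat_lit 0x40592) (nat_lit 0) (p (nat_lit 0x40492) (nat_lit 0) (p (nat_lit 0x30412) (nat_lit 0) (p (nat_lit 0x30212) (nat_lit 0) (p (nat_lit 0x20192) (nat_lit 0) (p (nat_lit 0x20092) (nat_lit 0) (p (nat_lit 0x10012) (nat_lit 0) pn))))))))))))))))))))))))) :=
  Cl.node (nat_lit 0x380c2) (nat_lit 2) (by decide +kernel) (ClAll.succ (ClAll.succ ClAll.zero n506) n507)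

def n596 : Cl (O (nat_lit 1)) (R (nat_lit 104465))
    (p (nat_lit 0x3cc2a) (nat_lit 2) (p (nat_lit 0x111) (nat_lit 1) (p (nat_lit 0xc9) (nat_lit 1) (p (nat_lit 0x81) (nat_lit 0) (p (nat_lit 0x101) (nat_lit 1) (p (nat_lit 0x119) (nat_lit 0) (p (nat_lit 0xd1) (nat_lit 0) (p (nat_lit 0x89) (nat_lit 0) (p (nat_lit 0x41) (nat_lit 0) (p (nat_lit 0x8078907089a) (nat_lit 0) (p (nat_lit 0x7870886861a) (nat_lit 0) (p (nat_lit 0x800070806078a) (nat_lit 0) (p (nat_lit 0x800068785850a) (nat_lit 0) (p (nat_lit 0x587050682) (nat_lit 0) (p (nat_lit 0x506848402) (nat_lit 0) (p (nat_lit 0x160014) (nat_lit 0) (p (nat_lit 0x16000c) (nat_lit 0) (p (nat_lit 0x50612) (nat_lit 0) (p (nat_lit 0x40592) (nat_lit 0) (p (nat_lit 0x40492) (nat_lit 0) (p (nat_lit 0x30412) (nat_lit 0) (p (nat_lit 0x30212) (nat_lit 0) (p (nat_lit 0x20192) (nat_lit 0) (p (nat_lit 0x20092) (nat_lit 0) (p (nat_lit 0x10012)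 (nat_lit 0) pn))))))))))))))))))))))))) :=
  Cl.node (nat_lit 0x380c2) (nat_lit 1) (by decide +kernel) (ClAll.succ ClAll.zero n508)

def n597 : Cl (O (nat_lit 1)) (R (nat_lit 104465))
    (p (nat_lit 0x4c42a) (nat_lit 10) (p (nat_lit 0xc9) (nat_lit 0) (p (nat_lit 0xc1) (nat_lit 0) (p (nat_lit 0x81) (nat_lit 1) (p (nat_lit 0x101) (nat_lit 1) (p (nat_lit 0x119) (nat_lit 0) (p (nat_lit 0xd1) (nat_lit 0) (p (nat_lit 0x89) (nat_lit 0) (p (nat_lit 0x41) (nat_lit 0) (p (nat_lit 0x8078907089a) (nat_lit 0) (p (nat_lit 0x7870886861a) (nat_lit 0) (p (nat_lit 0x800070806078a) (nat_lit 0) (p (nat_lit 0x800068785850a) (nat_lit 0) (p (nat_lit 0x587050682) (nat_lit 0) (p (nat_lit 0x506848402) (nat_lit 0) (p (nat_lit 0x160014) (nat_lit 0) (p (nat_lit 0x16000c) (nat_lit 0) (p (nat_lit 0x50612) (nat_lit 0) (p (nat_lit 0x40592) (nat_lit 0) (p (nat_lit 0x40492) (nat_lit 0) (p (nat_lit 0x30412)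 (nat_lit 0) (p (nat_lit 0x30212) (nat_lit 0) (p (nat_lit 0x20192) (nat_lit 0) (p (nat_lit 0x20092) (nat_lit 0) (p (nat_lit 0x10012) (nat_lit 0) pn))))))))))))))))))))))))) :=
  Cl.node (nat_lit 0x380c2) (nat_lit 2) (by decide +kernel) (ClAll.succ (ClAll.succ ClAll.zero s206) s207)

def n598 : Cl (O (nat_lit 1)) (R (nat_lit 104465))
    (p (nat_lit 0x444aa) (nat_lit 7) (p (nat_lit 0xc9) (nat_lit 1) (p (nat_lit 0xc1) (nat_lit 0) (p (nat_lit 0x81) (nat_lit 1) (p (nat_lit 0x101) (nat_lit 1) (p (nat_lit 0x119) (nat_lit 0) (p (nat_lit 0xd1) (nat_lit 0) (p (nat_lit 0x89) (nat_lit 0) (p (nat_lit 0x41) (nat_lit 0) (p (nat_lit 0x8078907089a) (nat_lit 0) (p (nat_lit 0x7870886861a) (nat_lit 0) (p (nat_lit 0x800070806078a) (nat_lit 0) (p (nat_lit 0x800068785850a) (nat_lit 0) (p (nat_lit 0x587050682) (nat_lit 0) (p (nat_lit 0x506848402) (nat_lit 0) (p (nat_lit 0x160014) (nat_lit 0)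 (p (nat_lit 0x16000c) (nat_lit 0) (p (nat_lit 0x50612) (nat_lit 0) (p (nat_lit 0x40592) (nat_lit 0) (p (nat_lit 0x40492) (nat_lit 0) (p (nat_lit 0x30412) (nat_lit 0) (p (nat_lit 0x30212) (nat_lit 0) (p (nat_lit 0x20192) (nat_lit 0) (p (nat_lit 0x20092) (nat_lit 0) (p (nat_lit 0x10012) (nat_lit 0) pn))))))))))))))))))))))))) :=
  Cl.node (nat_lit 0x380c2) (nat_lit 2) (by decide +kernel) (ClAll.succ (ClAll.succ ClAll.zero n509) n510)

def n599 : Cl (O (nat_lit 1)) (R (nat_lit 104465))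
    (p (nat_lit 0x380c2) (nat_lit 0) (p (nat_lit 0x3cc2a) (nat_lit 2) (p (nat_lit 0x109) (nat_lit 1) (p (nat_lit 0xc9) (nat_lit 1) (p (nat_lit 0xc1) (nat_lit 0) (p (nat_lit 0x119) (nat_lit 1) (p (nat_lit 0xd1) (nat_lit 0) (p (nat_lit 0x89) (nat_lit 0) (p (nat_lit 0x41) (nat_lit 0) (p (nat_lit 0x8078907089a) (nat_lit 0) (p (nat_lit 0x7870886861a) (nat_lit 0) (p (nat_lit 0x800070806078a) (nat_lit 0) (p (nat_lit 0x800068785850a) (nat_lit 0) (p (nat_lit 0x587050682) (nat_lit 0) (p (nat_lit 0x506848402) (nat_lit 0) (p (nat_lit 0x160014) (nat_lit 0) (p (nat_lit 0x16000c) (nat_lit 0) (p (nat_lit 0x50612) (nat_lit 0) (p (nat_lit 0x40592) (nat_lit 0) (p (nat_lit 0x40492) (nat_lit 0) (p (nat_lit 0x30412) (nat_lit 0) (p (nat_lit 0x30212) (nat_lit 0) (p (nat_lit 0x20192) (nat_lit 0) (p (nat_lit 0x20092) (nat_lit 0) (p (nat_lit 0x10012) (nat_lit 0) pn))))))))))))))))))))))))) :=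
  Cl.node (nat_lit 0x101) (nat_lit 2) (by decide +kernel) (ClAll.succ (ClAll.succ ClAll.zero n511) n512)

def n600 : Cl (O (nat_lit 1)) (R (nat_lit 104465))
    (p (nat_lit 0x380c2) (nat_lit 0) (p (nat_lit 0x3cc2a) (nat_lit 2) (p (nat_lit 0x109) (nat_lit 1) (p (nat_lit 0x81) (nat_lit 0) (p (nat_lit 0xc1) (nat_lit 1) (p (nat_lit 0x119) (nat_lit 1) (p (nat_lit 0xd1) (nat_lit 0) (p (nat_lit 0x89) (nat_lit 0) (p (nat_lit 0x41) (nat_lit 0) (p (nat_lit 0x8078907089a) (nat_lit 0) (p (nat_lit 0x7870886861a) (nat_lit 0) (p (nat_lit 0x800070806078a) (nat_lit 0) (p (nat_lit 0x800068785850a) (nat_lit 0) (p (nat_lit 0x587050682) (nat_lit 0) (p (nat_lit 0x506848402) (nat_lit 0) (p (nat_lit 0x160014) (nat_lit 0) (p (nat_lit 0x16000c) (nat_lit 0) (p (nat_lit 0x50612) (nat_lit 0) (p (nat_lit 0x40592) (nat_lit 0) (p (nat_lit 0x40492) (nat_lit 0) (p (nat_lit 0x30412) (nat_lit 0) (p (nat_lit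 0x30212) (nat_lit 0) (p (nat_lit 0x20192) (nat_lit 0) (p (nat_lit 0x20092) (nat_lit 0) (p (nat_lit 0x10012) (nat_lit 0) pn))))))))))))))))))))))))) :=
  Cl.node (nat_lit 0xc9) (nat_lit 2) (by decide +kernel) (ClAll.succ (ClAll.succ ClAll.zero s281) n513)

def n601 : Cl (O (nat_lit 1)) (R (nat_lit 104465))
    (p (nat_lit 0x44c2a) (nat_lit 0) (p (nat_lit 0x109) (nat_lit 0) (p (nat_lit 0x101) (nat_lit 0) (p (nat_lit 0x81) (nat_lit 1) (p (nat_lit 0xc1) (nat_lit 1) (p (nat_lit 0x119) (nat_lit 1) (p (nat_lit 0xd1) (nat_lit 0) (p (nat_lit 0x89) (nat_lit 0) (p (nat_lit 0x41) (nat_lit 0) (p (nat_lit 0x8078907089a) (nat_lit 0) (p (nat_lit 0x7870886861a) (nat_lit 0) (p (nat_lit 0x800070806078a) (nat_lit 0) (p (nat_lit 0x800068785850a) (nat_lit 0) (p (nat_lit 0x587050682) (nat_lit 0) (p (nat_lit 0x506848402) (nat_lit 0) (p (nat_lit 0x160014) (nat_lit 0) (p (nat_lit 0x16000c) (nat_lit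 0) (p (nat_lit 0x50612) (nat_lit 0) (p (nat_lit 0x40592) (nat_lit 0) (p (nat_lit 0x40492) (nat_lit 0) (p (nat_lit 0x30412) (nat_lit 0) (p (nat_lit 0x30212) (nat_lit 0) (p (nat_lit 0x20192) (nat_lit 0) (p (nat_lit 0x20092) (nat_lit 0) (p (nat_lit 0x10012) (nat_lit 0) pn))))))))))))))))))))))))) :=
  Cl.node (nat_lit 0x380c2) (nat_lit 2) (by decide +kernel) (ClAll.succ (ClAll.succ ClAll.zero n514) s303)

def n602 : Cl (O (nat_lit 1)) (R (nat_lit 104465))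
    (p (nat_lit 0x444aa) (nat_lit 7) (p (nat_lit 0x109) (nat_lit 1) (p (nat_lit 0x101) (nat_lit 0) (p (nat_lit 0x81) (nat_lit 1) (p (nat_lit 0xc1) (nat_lit 1) (p (nat_lit 0x119) (nat_lit 1) (p (nat_lit 0xd1) (nat_lit 0) (p (nat_lit 0x89) (nat_lit 0) (p (nat_lit 0x41) (nat_lit 0) (p (nat_lit 0x8078907089a) (nat_lit 0) (p (nat_lit 0x7870886861a) (nat_lit 0) (p (nat_lit 0x800070806078a) (nat_lit 0) (p (nat_lit 0x800068785850a) (nat_lit 0) (p (nat_lit 0x587050682) (nat_lit 0) (p (nat_lit 0x506848402) (nat_lit 0) (p (nat_lit 0x160014) (nat_lit 0) (p (nat_lit 0x16000c) (nat_lit 0) (p (nat_lit 0x50612) (nat_lit 0) (p (nat_lit 0x40592) (nat_lit 0) (p (nat_lit 0x40492) (nat_lit 0) (p (nat_lit 0x30412) (nat_lit 0) (p (nat_lit 0x30212) (nat_lit 0) (p (nat_lit 0x20192) (nat_lit 0) (p (nat_lit 0x20092) (nat_lit 0) (p (nat_lit 0x10012) (nat_lit 0) pn))))))))))))))))))))))))) :=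
  Cl.node (nat_lit 0x380c2) (nat_lit 2) (by decide +kernel) (ClAll.succ (ClAll.succ ClAll.zero n515) n516)

def n603 : Cl (O (nat_lit 1)) (R (nat_lit 104465))
    (p (nat_lit 0x380c2) (nat_lit 0) (p (nat_lit 0x3cc2a) (nat_lit 2) (p (nat_lit 0xc1) (nat_lit 0) (p (nat_lit 0x109) (nat_lit 1) (p (nat_lit 0x101) (nat_lit 0) (p (nat_lit 0x111) (nat_lit 0) (p (nat_lit 0xd1) (nat_lit 1) (p (nat_lit 0x89) (nat_lit 0) (p (nat_lit 0x41) (nat_lit 0) (p (nat_lit 0x8078907089a) (nat_lit 0) (p (nat_lit 0x7870886861a) (nat_lit 0) (p (nat_lit 0x800070806078a) (nat_lit 0) (p (nat_lit 0x800068785850a) (nat_lit 0) (p (nat_lit 0x587050682) (nat_lit 0) (p (nat_lit 0x506848402) (nat_lit 0) (p (nat_lit 0x160014) (nat_lit 0) (p (nat_lit 0x16000c) (nat_lit 0) (p (nat_lit 0x50612) (nat_lit 0) (p (nat_lit 0x40592) (nat_lit 0) (p (nat_lit 0x40492) (nat_lit 0) (p (nat_lit 0x30412) (nat_lit 0) (p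 (nat_lit 0x30212) (nat_lit 0) (p (nat_lit 0x20192) (nat_lit 0) (p (nat_lit 0x20092) (nat_lit 0) (p (nat_lit 0x10012) (nat_lit 0) pn))))))))))))))))))))))))) :=
  Cl.node (nat_lit 0xb0014) (nat_lit 2) (by decide +kernel) (ClAll.succ (ClAll.succ ClAll.zero s353) s354)

def n604 : Cl (O (nat_lit 1)) (R (nat_lit 104465))
    (p (nat_lit 0x41) (nat_lit 0) (p (nat_lit 0x200004) (nat_lit 0) (p (nat_lit 0xc1) (nat_lit 1) (p (nat_lit 0x109) (nat_lit 1) (p (nat_lit 0x101) (nat_lit 0) (p (nat_lit 0x111) (nat_lit 0) (p (nat_lit 0xd1) (nat_lit 1) (p (nat_lit 0x89) (nat_lit 0) (p (nat_lit 0x41) (nat_lit 0) (p (nat_lit 0x8078907089a) (nat_lit 0) (p (nat_lit 0x7870886861a) (nat_lit 0) (p (nat_lit 0x800070806078a) (nat_lit 0) (p (nat_lit 0x800068785850a) (nat_lit 0) (p (nat_lit 0x587050682) (nat_lit 0) (p (nat_lit 0x506848402) (nat_lit 0) (p (nat_lit 0x160014) (nat_lit 0) (p (nat_lit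 0x16000c) (nat_lit 0) (p (nat_lit 0x50612) (nat_lit 0) (p (nat_lit 0x40592) (nat_lit 0) (p (nat_lit 0x40492) (nat_lit 0) (p (nat_lit 0x30412) (nat_lit 0) (p (nat_lit 0x30212) (nat_lit 0) (p (nat_lit 0x20192) (nat_lit 0) (p (nat_lit 0x20092) (nat_lit 0) (p (nat_lit 0x10012) (nat_lit 0) pn))))))))))))))))))))))))) :=
  Cl.node (nat_lit 0x3cc2a) (nat_lit 12) (by decide +kernel) (ClAll.succ (ClAll.succ (ClAll.succ (ClAll.succ (ClAll.succ (ClAll.succ (ClAll.succ (ClAll.succ (ClAll.succ (ClAll.succ (ClAll.succ (ClAll.succ ClAll.zero n517) n518) n519) s375) s376) s377) s378) s379) s380) s381) s382) s383)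

def n605 : Cl (O (nat_lit 1)) (R (nat_lit 104465))
    (p (nat_lit 0xb000c) (nat_lit 0) (p (nat_lit 0x200004) (nat_lit 1) (p (nat_lit 0xc1) (nat_lit 1) (p (nat_lit 0x109) (nat_lit 1) (p (nat_lit 0x101) (nat_lit 0) (p (nat_lit 0x111) (nat_lit 0) (p (nat_lit 0xd1) (nat_lit 1) (p (nat_lit 0x89) (nat_lit 0) (p (nat_lit 0x41) (nat_lit 0) (p (nat_lit 0x8078907089a) (nat_lit 0) (p (nat_lit 0x7870886861a) (nat_lit 0) (p (nat_lit 0x800070806078a) (nat_lit 0) (p (nat_lit 0x800068785850a) (nat_lit 0) (p (nat_lit 0x587050682) (nat_lit 0) (p (nat_lit 0x506848402) (nat_lit 0) (p (nat_lit 0x160014) (nat_lit 0) (p (nat_lit 0x16000c) (nat_lit 0) (p (nat_lit 0x50612) (nat_lit 0) (p (nat_lit 0x40592) (nat_lit 0) (p (nat_lit 0x40492) (nat_lit 0) (p (nat_lit 0x30412) (nat_lit 0) (p (nat_lit 0x30212) (nat_lit 0) (p (nat_lit 0x20192) (nat_lit 0) (p (nat_lit 0x20092) (nat_lit 0) (p (nat_lit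 0x10012) (nat_lit 0) pn))))))))))))))))))))))))) :=
  Cl.node (nat_lit 0xb0014) (nat_lit 2) (by decide +kernel) (ClAll.succ (ClAll.succ ClAll.zero n520) s398)

def n606 : Cl (O (nat_lit 1)) (R (nat_lit 104465))
    (p (nat_lit 0x109) (nat_lit 1) (p (nat_lit 0x200004) (nat_lit 0) (p (nat_lit 0x119) (nat_lit 0) (p (nat_lit 0x81) (nat_lit 0) (p (nat_lit 0x101) (nat_lit 1) (p (nat_lit 0x111) (nat_lit 0) (p (nat_lit 0xd1) (nat_lit 1) (p (nat_lit 0x89) (nat_lit 0) (p (nat_lit 0x41) (nat_lit 0) (p (nat_lit 0x8078907089a) (nat_lit 0) (p (nat_lit 0x7870886861a) (nat_lit 0) (p (nat_lit 0x800070806078a) (nat_lit 0) (p (nat_lit 0x800068785850a) (nat_lit 0) (p (nat_lit 0x587050682) (nat_lit 0) (p (nat_lit 0x506848402) (nat_lit 0) (p (nat_lit 0x160014) (nat_lit 0) (p (nat_lit 0x16000c) (nat_lit 0) (p (nat_lit 0x50612) (nat_lit 0) (p (nat_lit 0x40592) (nat_lit 0) (p (nat_lit 0x40492)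 (nat_lit 0) (p (nat_lit 0x30412) (nat_lit 0) (p (nat_lit 0x30212) (nat_lit 0) (p (nat_lit 0x20192) (nat_lit 0) (p (nat_lit 0x20092) (nat_lit 0) (p (nat_lit 0x10012) (nat_lit 0) pn))))))))))))))))))))))))) :=
  Cl.node (nat_lit 0x3cc2a) (nat_lit 12) (by decide +kernel) (ClAll.succ (ClAll.succ (ClAll.succ (ClAll.succ (ClAll.succ (ClAll.succ (ClAll.succ (ClAll.succ (ClAll.succ (ClAll.succ (ClAll.succ (ClAll.succ ClAll.zero n521) n522) n523) s408) s409) s410) s411) s412) s413) s414) s415) s416)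

def n607 : Cl (O (nat_lit 1)) (R (nat_lit 104465))
    (p (nat_lit 0x380c2) (nat_lit 0) (p (nat_lit 0x3cc2a) (nat_lit 2) (p (nat_lit 0x119) (nat_lit 1) (p (nat_lit 0x81) (nat_lit 0) (p (nat_lit 0x101) (nat_lit 1) (p (nat_lit 0x111) (nat_lit 0) (p (nat_lit 0xd1) (nat_lit 1) (p (nat_lit 0x89) (nat_lit 0) (p (nat_lit 0x41) (nat_lit 0) (p (nat_lit 0x8078907089a) (nat_lit 0) (p (nat_lit 0x7870886861a) (nat_lit 0) (p (nat_lit 0x800070806078a) (nat_lit 0) (p (nat_lit 0x800068785850a) (nat_lit 0) (p (nat_lit 0x587050682) (nat_lit 0) (p (nat_lit 0x506848402) (nat_lit 0) (p (nat_lit 0x160014) (nat_lit 0) (p (nat_lit 0x16000c) (nat_lit 0) (p (nat_lit 0x50612) (nat_lit 0) (p (nat_lit 0x40592) (nat_lit 0) (p (nat_lit 0x40492) (nat_lit 0) (p (nat_lit 0x30412) (nat_lit 0) (p (nat_lit 0x30212) (nat_lit 0) (p (nat_lit 0x20192) (nat_lit 0) (p (nat_lit 0x20092) (nat_lit 0) (p (nat_lit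 0x10012) (nat_lit 0) pn))))))))))))))))))))))))) :=
  Cl.node (nat_lit 0x41) (nat_lit 2) (by decide +kernel) (ClAll.succ (ClAll.succ ClAll.zero s421) n524)

def n608 : Cl (O (nat_lit 1)) (R (nat_lit 104465))
    (p (nat_lit 0x444aa) (nat_lit 7) (p (nat_lit 0x119) (nat_lit 0) (p (nat_lit 0xc1) (nat_lit 0) (p (nat_lit 0x81) (nat_lit 1) (p (nat_lit 0x101) (nat_lit 1) (p (nat_lit 0x111) (nat_lit 0) (p (nat_lit 0xd1) (nat_lit 1) (p (nat_lit 0x89) (nat_lit 0) (p (nat_lit 0x41) (nat_lit 0) (p (nat_lit 0x8078907089a) (nat_lit 0) (p (nat_lit 0x7870886861a) (nat_lit 0) (p (nat_lit 0x800070806078a) (nat_lit 0) (p (nat_lit 0x800068785850a) (nat_lit 0) (p (nat_lit 0x587050682) (nat_lit 0) (p (nat_lit 0x506848402) (nat_lit 0) (p (nat_lit 0x160014) (nat_lit 0) (p (nat_lit 0x16000c) (nat_lit 0) (p (nat_lit 0x50612) (nat_lit 0) (p (nat_lit 0x40592) (nat_lit 0) (p (nat_lit 0x40492) (nat_lit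 0) (p (nat_lit 0x30412) (nat_lit 0) (p (nat_lit 0x30212) (nat_lit 0) (p (nat_lit 0x20192) (nat_lit 0) (p (nat_lit 0x20092) (nat_lit 0) (p (nat_lit 0x10012) (nat_lit 0) pn))))))))))))))))))))))))) :=
  Cl.node (nat_lit 0x380c2) (nat_lit 2) (by decide +kernel) (ClAll.succ (ClAll.succ ClAll.zero n525) n526)

def n609 : Cl (O (nat_lit 1)) (R (nat_lit 104465))
    (p (nat_lit 0x3cc2a) (nat_lit 2) (p (nat_lit 0x119) (nat_lit 1) (p (nat_lit 0xc1) (nat_lit 0) (p (nat_lit 0x81) (nat_lit 1) (p (nat_lit 0x101) (nat_lit 1) (p (nat_lit 0x111) (nat_lit 0) (p (nat_lit 0xd1) (nat_lit 1) (p (nat_lit 0x89) (nat_lit 0) (p (nat_lit 0x41) (nat_lit 0) (p (nat_lit 0x8078907089a) (nat_lit 0) (p (nat_lit 0x7870886861a) (nat_lit 0) (p (nat_lit 0x800070806078a) (nat_lit 0) (p (nat_lit 0x800068785850a) (nat_lit 0) (p (nat_lit 0x587050682) (nat_lit 0) (p (nat_lit 0x506848402) (nat_lit 0) (p (nat_lit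 0x160014) (nat_lit 0) (p (nat_lit 0x16000c) (nat_lit 0) (p (nat_lit 0x50612) (nat_lit 0) (p (nat_lit 0x40592) (nat_lit 0) (p (nat_lit 0x40492) (nat_lit 0) (p (nat_lit 0x30412) (nat_lit 0) (p (nat_lit 0x30212) (nat_lit 0) (p (nat_lit 0x20192) (nat_lit 0) (p (nat_lit 0x20092) (nat_lit 0) (p (nat_lit 0x10012) (nat_lit 0) pn))))))))))))))))))))))))) :=
  Cl.node (nat_lit 0x380c2) (nat_lit 1) (by decide +kernel) (ClAll.succ ClAll.zero n527)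

def n610 : Cl (O (nat_lit 1)) (R (nat_lit 104465))
    (p (nat_lit 0x380c2) (nat_lit 0) (p (nat_lit 0x3cc2a) (nat_lit 2) (p (nat_lit 0x101) (nat_lit 0) (p (nat_lit 0xc1) (nat_lit 1) (p (nat_lit 0x81) (nat_lit 1) (p (nat_lit 0x111) (nat_lit 1) (p (nat_lit 0xd1) (nat_lit 1) (p (nat_lit 0x89) (nat_lit 0) (p (nat_lit 0x41) (nat_lit 0) (p (nat_lit 0x8078907089a) (nat_lit 0) (p (nat_lit 0x7870886861a) (nat_lit 0) (p (nat_lit 0x800070806078a) (nat_lit 0) (p (nat_lit 0x800068785850a) (nat_lit 0) (p (nat_lit 0x587050682) (nat_lit 0) (p (nat_lit 0x506848402) (nat_lit 0) (p (nat_lit 0x160014) (nat_lit 0) (p (nat_lit 0x16000c) (nat_lit 0) (p (nat_lit 0x50612) (nat_lit 0) (p (nat_lit 0x40592) (nat_lit 0) (p (nat_lit 0x40492) (nat_lit 0) (p (nat_lit 0x30412) (nat_lit 0) (p (nat_lit 0x30212) (nat_lit 0) (p (nat_lit 0x20192) (nat_lit 0) (p (nat_lit 0x20092) (nat_lit 0) (p (nat_lit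 0x10012) (nat_lit 0) pn))))))))))))))))))))))))) :=
  Cl.node (nat_lit 0xb0014) (nat_lit 2) (by decide +kernel) (ClAll.succ (ClAll.succ ClAll.zero n528) s519)

def n611 : Cl (O (nat_lit 1)) (R (nat_lit 104465))
    (p (nat_lit 0x444aa) (nat_lit 0) (p (nat_lit 0xd1) (nat_lit 1) (p (nat_lit 0x111) (nat_lit 1) (p (nat_lit 0x109) (nat_lit 0) (p (nat_lit 0x101) (nat_lit 0) (p (nat_lit 0x119) (nat_lit 0) (p (nat_lit 0xc9) (nat_lit 0) (p (nat_lit 0x89) (nat_lit 1) (p (nat_lit 0x41) (nat_lit 0) (p (nat_lit 0x8078907089a) (nat_lit 0) (p (nat_lit 0x7870886861a) (nat_lit 0) (p (nat_lit 0x800070806078a) (nat_lit 0) (p (nat_lit 0x800068785850a) (nat_lit 0) (p (nat_lit 0x587050682) (nat_lit 0) (p (nat_lit 0x506848402) (nat_lit 0) (p (nat_lit 0x160014) (nat_lit 0) (p (nat_lit 0x16000c) (nat_lit 0) (p (nat_lit 0x50612) (nat_lit 0) (p (nat_lit 0x40592) (nat_lit 0) (p (nat_lit 0x40492)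 (nat_lit 0) (p (nat_lit 0x30412) (nat_lit 0) (p (nat_lit 0x30212) (nat_lit 0) (p (nat_lit 0x20192) (nat_lit 0) (p (nat_lit 0x20092) (nat_lit 0) (p (nat_lit 0x10012) (nat_lit 0) pn))))))))))))))))))))))))) :=
  Cl.node (nat_lit 0x380c2) (nat_lit 2) (by decide +kernel) (ClAll.succ (ClAll.succ ClAll.zero s532) s533)

def n612 : Cl (O (nat_lit 1)) (R (nat_lit 104465))
    (p (nat_lit 0x444aa) (nat_lit 7) (p (nat_lit 0xd1) (nat_lit 1) (p (nat_lit 0x111) (nat_lit 1) (p (nat_lit 0x109) (nat_lit 0) (p (nat_lit 0x101) (nat_lit 0) (p (nat_lit 0x119) (nat_lit 0) (p (nat_lit 0xc9) (nat_lit 0) (p (nat_lit 0x89) (nat_lit 1) (p (nat_lit 0x41) (nat_lit 0) (p (nat_lit 0x8078907089a) (nat_lit 0) (p (nat_lit 0x7870886861a) (nat_lit 0) (p (nat_lit 0x800070806078a) (nat_lit 0) (p (nat_lit 0x800068785850a) (nat_lit 0) (p (nat_lit 0x587050682) (nat_lit 0) (p (nat_lit 0x506848402) (nat_lit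 0) (p (nat_lit 0x160014) (nat_lit 0) (p (nat_lit 0x16000c) (nat_lit 0) (p (nat_lit 0x50612) (nat_lit 0) (p (nat_lit 0x40592) (nat_lit 0) (p (nat_lit 0x40492) (nat_lit 0) (p (nat_lit 0x30412) (nat_lit 0) (p (nat_lit 0x30212) (nat_lit 0) (p (nat_lit 0x20192) (nat_lit 0) (p (nat_lit 0x20092) (nat_lit 0) (p (nat_lit 0x10012) (nat_lit 0) pn))))))))))))))))))))))))) :=
  Cl.node (nat_lit 0x380c2) (nat_lit 2) (by decide +kernel) (ClAll.succ (ClAll.succ ClAll.zero n529) n530)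

def n613 : Cl (O (nat_lit 1)) (R (nat_lit 104465))
    (p (nat_lit 0x41) (nat_lit 0) (p (nat_lit 0x200004) (nat_lit 0) (p (nat_lit 0xd1) (nat_lit 0) (p (nat_lit 0x109) (nat_lit 1) (p (nat_lit 0x101) (nat_lit 0) (p (nat_lit 0x119) (nat_lit 0) (p (nat_lit 0xc9) (nat_lit 0) (p (nat_lit 0x89) (nat_lit 1) (p (nat_lit 0x41) (nat_lit 0) (p (nat_lit 0x8078907089a) (nat_lit 0) (p (nat_lit 0x7870886861a) (nat_lit 0) (p (nat_lit 0x800070806078a) (nat_lit 0) (p (nat_lit 0x800068785850a) (nat_lit 0) (p (nat_lit 0x587050682) (nat_lit 0) (p (nat_lit 0x506848402) (nat_lit 0) (p (nat_lit 0x160014) (nat_lit 0) (p (nat_lit 0x16000c) (nat_lit 0) (p (nat_lit 0x50612) (nat_lit 0) (p (nat_lit 0x40592) (nat_lit 0) (p (nat_lit 0x40492) (nat_lit 0) (p (nat_lit 0x30412) (nat_lit 0) (p (nat_lit 0x30212) (nat_lit 0) (p (nat_lit 0x20192) (nat_lit 0) (p (nat_lit 0x20092) (nat_lit 0) (p (nat_lit 0x10012)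 (nat_lit 0) pn))))))))))))))))))))))))) :=
  Cl.node (nat_lit 0x44c2a) (nat_lit 12) (by decide +kernel) (ClAll.succ (ClAll.succ (ClAll.succ (ClAll.succ (ClAll.succ (ClAll.succ (ClAll.succ (ClAll.succ (ClAll.succ (ClAll.succ (ClAll.succ (ClAll.succ ClAll.zero n531) n532) s685) s686) s687) s688) s689) s690) s691) s692) s693) s694)

def n614 : Cl (O (nat_lit 1)) (R (nat_lit 104465))
    (p (nat_lit 0x41) (nat_lit 1) (p (nat_lit 0x200004) (nat_lit 0) (p (nat_lit 0xd1) (nat_lit 0) (p (nat_lit 0x109) (nat_lit 1) (p (nat_lit 0x101) (nat_lit 0) (p (nat_lit 0x119) (nat_lit 0) (p (nat_lit 0xc9) (nat_lit 0) (p (nat_lit 0x89) (nat_lit 1) (p (nat_lit 0x41) (nat_lit 0) (p (nat_lit 0x8078907089a) (nat_lit 0) (p (nat_lit 0x7870886861a) (nat_lit 0) (p (nat_lit 0x800070806078a) (nat_lit 0) (p (nat_lit 0x800068785850a) (nat_lit 0) (p (nat_lit 0x587050682) (nat_lit 0) (p (nat_lit 0x506848402)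 (nat_lit 0) (p (nat_lit 0x160014) (nat_lit 0) (p (nat_lit 0x16000c) (nat_lit 0) (p (nat_lit 0x50612) (nat_lit 0) (p (nat_lit 0x40592) (nat_lit 0) (p (nat_lit 0x40492) (nat_lit 0) (p (nat_lit 0x30412) (nat_lit 0) (p (nat_lit 0x30212) (nat_lit 0) (p (nat_lit 0x20192) (nat_lit 0) (p (nat_lit 0x20092) (nat_lit 0) (p (nat_lit 0x10012) (nat_lit 0) pn))))))))))))))))))))))))) :=
  Cl.node (nat_lit 0x4c42a) (nat_lit 12) (by decide +kernel) (ClAll.succ (ClAll.succ (ClAll.succ (ClAll.succ (ClAll.succ (ClAll.succ (ClAll.succ (ClAll.succ (ClAll.succ (ClAll.succ (ClAll.succ (ClAll.succ ClAll.zero s695) s696) s697) s698) s699) s700) s701) s702) s703) n533) s707) s708)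

def n615 : Cl (O (nat_lit 1)) (R (nat_lit 104465))
    (p (nat_lit 0xb000c) (nat_lit 0) (p (nat_lit 0x200004) (nat_lit 1) (p (nat_lit 0xd1) (nat_lit 0) (p (nat_lit 0x109) (nat_lit 1) (p (nat_lit 0x101) (nat_lit 0) (p (nat_lit 0x119) (nat_lit 0) (p (nat_lit 0xc9) (nat_lit 0) (p (nat_lit 0x89) (nat_lit 1) (p (nat_lit 0x41) (nat_lit 0) (p (nat_lit 0x8078907089a) (nat_lit 0) (p (nat_lit 0x7870886861a) (nat_lit 0) (p (nat_lit 0x800070806078a) (nat_lit 0) (p (nat_lit 0x800068785850a) (nat_lit 0) (p (nat_lit 0x587050682) (nat_lit 0) (p (nat_lit 0x506848402) (nat_lit 0) (p (nat_lit 0x160014) (nat_lit 0) (p (nat_lit 0x16000c) (nat_lit 0) (p (nat_lit 0x50612) (nat_lit 0) (p (nat_lit 0x40592) (nat_lit 0) (p (nat_lit 0x40492) (nat_lit 0) (p (nat_lit 0x30412) (nat_lit 0) (p (nat_lit 0x30212) (nat_lit 0) (p (nat_lit 0x20192) (nat_lit 0) (p (nat_lit 0x20092) (nat_lit 0) (p (nat_lit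 0x10012) (nat_lit 0) pn))))))))))))))))))))))))) :=
  Cl.node (nat_lit 0xb0014) (nat_lit 2) (by decide +kernel) (ClAll.succ (ClAll.succ ClAll.zero n534) s722)

def n616 : Cl (O (nat_lit 1)) (R (nat_lit 104465))
    (p (nat_lit 0x380c2) (nat_lit 0) (p (nat_lit 0x444aa) (nat_lit 7) (p (nat_lit 0xd1) (nat_lit 1) (p (nat_lit 0x109) (nat_lit 1) (p (nat_lit 0x101) (nat_lit 0) (p (nat_lit 0x119) (nat_lit 0) (p (nat_lit 0xc9) (nat_lit 0) (p (nat_lit 0x89) (nat_lit 1) (p (nat_lit 0x41) (nat_lit 0) (p (nat_lit 0x8078907089a) (nat_lit 0) (p (nat_lit 0x7870886861a) (nat_lit 0) (p (nat_lit 0x800070806078a) (nat_lit 0) (p (nat_lit 0x800068785850a) (nat_lit 0) (p (nat_lit 0x587050682) (nat_lit 0) (p (nat_lit 0x506848402) (nat_lit 0) (p (nat_lit 0x160014) (nat_lit 0) (p (nat_lit 0x16000c) (nat_lit 0) (p (nat_lit 0x50612) (nat_lit 0) (p (nat_lit 0x40592) (nat_lit 0) (p (nat_lit 0x40492)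 (nat_lit 0) (p (nat_lit 0x30412) (nat_lit 0) (p (nat_lit 0x30212) (nat_lit 0) (p (nat_lit 0x20192) (nat_lit 0) (p (nat_lit 0x20092) (nat_lit 0) (p (nat_lit 0x10012) (nat_lit 0) pn))))))))))))))))))))))))) :=
  Cl.node (nat_lit 0x200004) (nat_lit 2) (by decide +kernel) (ClAll.succ (ClAll.succ ClAll.zero n535) s756)

def n617 : Cl (O (nat_lit 1)) (R (nat_lit 104465))
    (p (nat_lit 0x380c2) (nat_lit 1) (p (nat_lit 0x444aa) (nat_lit 7) (p (nat_lit 0xd1) (nat_lit 1) (p (nat_lit 0x109) (nat_lit 1) (p (nat_lit 0x101) (nat_lit 0) (p (nat_lit 0x119) (nat_lit 0) (p (nat_lit 0xc9) (nat_lit 0) (p (nat_lit 0x89) (nat_lit 1) (p (nat_lit 0x41) (nat_lit 0) (p (nat_lit 0x8078907089a) (nat_lit 0) (p (nat_lit 0x7870886861a) (nat_lit 0) (p (nat_lit 0x800070806078a) (nat_lit 0) (p (nat_lit 0x800068785850a) (nat_lit 0) (p (nat_lit 0x587050682) (nat_lit 0) (p (nat_lit 0x506848402) (nat_lit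 0) (p (nat_lit 0x160014) (nat_lit 0) (p (nat_lit 0x16000c) (nat_lit 0) (p (nat_lit 0x50612) (nat_lit 0) (p (nat_lit 0x40592) (nat_lit 0) (p (nat_lit 0x40492) (nat_lit 0) (p (nat_lit 0x30412) (nat_lit 0) (p (nat_lit 0x30212) (nat_lit 0) (p (nat_lit 0x20192) (nat_lit 0) (p (nat_lit 0x20092) (nat_lit 0) (p (nat_lit 0x10012) (nat_lit 0) pn))))))))))))))))))))))))) :=
  Cl.node (nat_lit 0xb0014) (nat_lit 2) (by decide +kernel) (ClAll.succ (ClAll.succ ClAll.zero n536) n537)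

def n618 : Cl (O (nat_lit 1)) (R (nat_lit 104465))
    (p (nat_lit 0x109) (nat_lit 0) (p (nat_lit 0x200004) (nat_lit 0) (p (nat_lit 0xd1) (nat_lit 0) (p (nat_lit 0xc1) (nat_lit 0) (p (nat_lit 0x101) (nat_lit 1) (p (nat_lit 0x119) (nat_lit 0) (p (nat_lit 0xc9) (nat_lit 0) (p (nat_lit 0x89) (nat_lit 1) (p (nat_lit 0x41) (nat_lit 0) (p (nat_lit 0x8078907089a) (nat_lit 0) (p (nat_lit 0x7870886861a) (nat_lit 0) (p (nat_lit 0x800070806078a) (nat_lit 0) (p (nat_lit 0x800068785850a) (nat_lit 0) (p (nat_lit 0x587050682) (nat_lit 0) (p (nat_lit 0x506848402) (nat_lit 0) (p (nat_lit 0x160014) (nat_lit 0) (p (nat_lit 0x16000c) (nat_lit 0) (p (nat_lit 0x50612) (nat_lit 0) (p (nat_lit 0x40592) (nat_lit 0) (p (nat_lit 0x40492) (nat_lit 0) (p (nat_lit 0x30412) (nat_lit 0) (p (nat_lit 0x30212) (nat_lit 0) (p (nat_lit 0x20192) (nat_lit 0) (p (nat_lit 0x20092) (nat_lit 0) (p (nat_lit 0x10012)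 (nat_lit 0) pn))))))))))))))))))))))))) :=
  Cl.node (nat_lit 0x4c42a) (nat_lit 12) (by decide +kernel) (ClAll.succ (ClAll.succ (ClAll.succ (ClAll.succ (ClAll.succ (ClAll.succ (ClAll.succ (ClAll.succ (ClAll.succ (ClAll.succ (ClAll.succ (ClAll.succ ClAll.zero s799) s800) s801) s802) s803) s804) s805) s806) s807) n538) s811) s812)

def n619 : Cl (O (nat_lit 1)) (R (nat_lit 104465))
    (p (nat_lit 0x109) (nat_lit 1) (p (nat_lit 0x200004) (nat_lit 0) (p (nat_lit 0xd1) (nat_lit 0) (p (nat_lit 0xc1) (nat_lit 0) (p (nat_lit 0x101) (nat_lit 1) (p (nat_lit 0x119) (nat_lit 0) (p (nat_lit 0xc9) (nat_lit 0) (p (nat_lit 0x89) (nat_lit 1) (p (nat_lit 0x41) (nat_lit 0) (p (nat_lit 0x8078907089a) (nat_lit 0) (p (nat_lit 0x7870886861a) (nat_lit 0) (p (nat_lit 0x800070806078a) (nat_lit 0) (p (nat_lit 0x800068785850a) (nat_lit 0) (p (nat_lit 0x587050682) (nat_lit 0) (p (nat_lit 0x506848402)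 (nat_lit 0) (p (nat_lit 0x160014) (nat_lit 0) (p (nat_lit 0x16000c) (nat_lit 0) (p (nat_lit 0x50612) (nat_lit 0) (p (nat_lit 0x40592) (nat_lit 0) (p (nat_lit 0x40492) (nat_lit 0) (p (nat_lit 0x30412) (nat_lit 0) (p (nat_lit 0x30212) (nat_lit 0) (p (nat_lit 0x20192) (nat_lit 0) (p (nat_lit 0x20092) (nat_lit 0) (p (nat_lit 0x10012) (nat_lit 0) pn))))))))))))))))))))))))) :=
  Cl.node (nat_lit 0x44c2a) (nat_lit 12) (by decide +kernel) (ClAll.succ (ClAll.succ (ClAll.succ (ClAll.succ (ClAll.succ (ClAll.succ (ClAll.succ (ClAll.succ (ClAll.succ (ClAll.succ (ClAll.succ (ClAll.succ ClAll.zero n539) n540) s825) s826) s827) s828) s829) s830) s831) s832) s833) s834)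

def n620 : Cl (O (nat_lit 1)) (R (nat_lit 104465))
    (p (nat_lit 0xb000c) (nat_lit 0) (p (nat_lit 0x200004) (nat_lit 1) (p (nat_lit 0xd1) (nat_lit 0) (p (nat_lit 0xc1) (nat_lit 0) (p (nat_lit 0x101) (nat_lit 1) (p (nat_lit 0x119) (nat_lit 0) (p (nat_lit 0xc9) (nat_lit 0) (p (nat_lit 0x89) (nat_lit 1) (p (nat_lit 0x41) (nat_lit 0) (p (nat_lit 0x8078907089a) (nat_lit 0) (p (nat_lit 0x7870886861a) (nat_lit 0) (p (nat_lit 0x800070806078a) (nat_lit 0) (p (nat_lit 0x800068785850a) (nat_lit 0) (p (nat_lit 0x587050682) (nat_lit 0) (p (nat_lit 0x506848402) (nat_lit 0) (p (nat_lit 0x160014) (nat_lit 0) (p (nat_lit 0x16000c) (nat_lit 0) (p (nat_lit 0x50612) (nat_lit 0) (p (nat_lit 0x40592) (nat_lit 0) (p (nat_lit 0x40492) (nat_lit 0) (p (nat_lit 0x30412) (nat_lit 0) (p (nat_lit 0x30212) (nat_lit 0) (p (nat_lit 0x20192) (nat_lit 0) (p (nat_lit 0x20092) (nat_lit 0) (p (nat_lit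 0x10012) (nat_lit 0) pn))))))))))))))))))))))))) :=
  Cl.node (nat_lit 0xb0014) (nat_lit 2) (by decide +kernel) (ClAll.succ (ClAll.succ ClAll.zero n541) s837)

def n621 : Cl (O (nat_lit 1)) (R (nat_lit 104465))
    (p (nat_lit 0x380c2) (nat_lit 0) (p (nat_lit 0x444aa) (nat_lit 7) (p (nat_lit 0xd1) (nat_lit 1) (p (nat_lit 0xc1) (nat_lit 0) (p (nat_lit 0x101) (nat_lit 1) (p (nat_lit 0x119) (nat_lit 0) (p (nat_lit 0xc9) (nat_lit 0) (p (nat_lit 0x89) (nat_lit 1) (p (nat_lit 0x41) (nat_lit 0) (p (nat_lit 0x8078907089a) (nat_lit 0) (p (nat_lit 0x7870886861a) (nat_lit 0) (p (nat_lit 0x800070806078a) (nat_lit 0) (p (nat_lit 0x800068785850a) (nat_lit 0) (p (nat_lit 0x587050682) (nat_lit 0) (p (nat_lit 0x506848402) (nat_lit 0) (p (nat_lit 0x160014) (nat_lit 0) (p (nat_lit 0x16000c) (nat_lit 0) (p (nat_lit 0x50612) (nat_lit 0) (p (nat_lit 0x40592) (nat_lit 0) (p (nat_lit 0x40492)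 (nat_lit 0) (p (nat_lit 0x30412) (nat_lit 0) (p (nat_lit 0x30212) (nat_lit 0) (p (nat_lit 0x20192) (nat_lit 0) (p (nat_lit 0x20092) (nat_lit 0) (p (nat_lit 0x10012) (nat_lit 0) pn))))))))))))))))))))))))) :=
  Cl.node (nat_lit 0xb000c) (nat_lit 2) (by decide +kernel) (ClAll.succ (ClAll.succ ClAll.zero n542) s863)

def n622 : Cl (O (nat_lit 1)) (R (nat_lit 104465))
    (p (nat_lit 0x380c2) (nat_lit 1) (p (nat_lit 0x444aa) (nat_lit 7) (p (nat_lit 0xd1) (nat_lit 1) (p (nat_lit 0xc1) (nat_lit 0) (p (nat_lit 0x101) (nat_lit 1) (p (nat_lit 0x119) (nat_lit 0) (p (nat_lit 0xc9) (nat_lit 0) (p (nat_lit 0x89) (nat_lit 1) (p (nat_lit 0x41) (nat_lit 0) (p (nat_lit 0x8078907089a) (nat_lit 0) (p (nat_lit 0x7870886861a) (nat_lit 0) (p (nat_lit 0x800070806078a) (nat_lit 0) (p (nat_lit 0x800068785850a) (nat_lit 0) (p (nat_lit 0x587050682) (nat_lit 0) (p (nat_lit 0x506848402) (nat_lit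 0) (p (nat_lit 0x160014) (nat_lit 0) (p (nat_lit 0x16000c) (nat_lit 0) (p (nat_lit 0x50612) (nat_lit 0) (p (nat_lit 0x40592) (nat_lit 0) (p (nat_lit 0x40492) (nat_lit 0) (p (nat_lit 0x30412) (nat_lit 0) (p (nat_lit 0x30212) (nat_lit 0) (p (nat_lit 0x20192) (nat_lit 0) (p (nat_lit 0x20092) (nat_lit 0) (p (nat_lit 0x10012) (nat_lit 0) pn))))))))))))))))))))))))) :=
  Cl.node (nat_lit 0x200004) (nat_lit 2) (by decide +kernel) (ClAll.succ (ClAll.succ ClAll.zero n543) s881)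

def n623 : Cl (O (nat_lit 1)) (R (nat_lit 104465))
    (p (nat_lit 0x380c2) (nat_lit 0) (p (nat_lit 0x444aa) (nat_lit 7) (p (nat_lit 0x111) (nat_lit 1) (p (nat_lit 0xd1) (nat_lit 1) (p (nat_lit 0xc1) (nat_lit 0) (p (nat_lit 0x119) (nat_lit 1) (p (nat_lit 0xc9) (nat_lit 0) (p (nat_lit 0x89) (nat_lit 1) (p (nat_lit 0x41) (nat_lit 0) (p (nat_lit 0x8078907089a) (nat_lit 0) (p (nat_lit 0x7870886861a) (nat_lit 0) (p (nat_lit 0x800070806078a) (nat_lit 0) (p (nat_lit 0x800068785850a) (nat_lit 0) (p (nat_lit 0x587050682) (nat_lit 0) (p (nat_lit 0x506848402) (nat_lit 0) (p (nat_lit 0x160014) (nat_lit 0) (p (nat_lit 0x16000c) (nat_lit 0) (p (nat_lit 0x50612) (nat_lit 0) (p (nat_lit 0x40592) (nat_lit 0) (p (nat_lit 0x40492) (nat_lit 0) (p (nat_lit 0x30412) (nat_lit 0) (p (nat_lit 0x30212) (nat_lit 0) (p (nat_lit 0x20192) (nat_lit 0) (p (nat_lit 0x20092) (nat_lit 0) (p (nat_lit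 0x10012) (nat_lit 0) pn))))))))))))))))))))))))) :=
  Cl.node (nat_lit 0x200004) (nat_lit 2) (by decide +kernel) (ClAll.succ (ClAll.succ ClAll.zero n544) s915)

def n624 : Cl (O (nat_lit 1)) (R (nat_lit 104465))
    (p (nat_lit 0x380c2) (nat_lit 1) (p (nat_lit 0x444aa) (nat_lit 7) (p (nat_lit 0x111) (nat_lit 1) (p (nat_lit 0xd1) (nat_lit 1) (p (nat_lit 0xc1) (nat_lit 0) (p (nat_lit 0x119) (nat_lit 1) (p (nat_lit 0xc9) (nat_lit 0) (p (nat_lit 0x89) (nat_lit 1) (p (nat_lit 0x41) (nat_lit 0) (p (nat_lit 0x8078907089a) (nat_lit 0) (p (nat_lit 0x7870886861a) (nat_lit 0) (p (nat_lit 0x800070806078a) (nat_lit 0) (p (nat_lit 0x800068785850a) (nat_lit 0) (p (nat_lit 0x587050682) (nat_lit 0) (p (nat_lit 0x506848402) (nat_lit 0) (p (nat_lit 0x160014) (nat_lit 0) (p (nat_lit 0x16000c) (nat_lit 0) (p (nat_lit 0x50612) (nat_lit 0) (p (nat_lit 0x40592) (nat_lit 0) (p (nat_lit 0x40492)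 (nat_lit 0) (p (nat_lit 0x30412) (nat_lit 0) (p (nat_lit 0x30212) (nat_lit 0) (p (nat_lit 0x20192) (nat_lit 0) (p (nat_lit 0x20092) (nat_lit 0) (p (nat_lit 0x10012) (nat_lit 0) pn))))))))))))))))))))))))) :=
  Cl.node (nat_lit 0x200004) (nat_lit 2) (by decide +kernel) (ClAll.succ (ClAll.succ ClAll.zero n545) s925)

def n625 : Cl (O (nat_lit 1)) (R (nat_lit 104465))
    (p (nat_lit 0x380c2) (nat_lit 0) (p (nat_lit 0x44c2a) (nat_lit 0) (p (nat_lit 0x111) (nat_lit 0) (p (nat_lit 0x101) (nat_lit 0) (p (nat_lit 0xc1) (nat_lit 1) (p (nat_lit 0x119) (nat_lit 1) (p (nat_lit 0xc9) (nat_lit 0) (p (nat_lit 0x89) (nat_lit 1) (p (nat_lit 0x41) (nat_lit 0) (p (nat_lit 0x8078907089a) (nat_lit 0) (p (nat_lit 0x7870886861a) (nat_lit 0) (p (nat_lit 0x800070806078a) (nat_lit 0) (p (nat_lit 0x800068785850a) (nat_lit 0) (p (nat_lit 0x587050682) (nat_lit 0) (p (nat_lit 0x506848402) (nat_lit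 0) (p (nat_lit 0x160014) (nat_lit 0) (p (nat_lit 0x16000c) (nat_lit 0) (p (nat_lit 0x50612) (nat_lit 0) (p (nat_lit 0x40592) (nat_lit 0) (p (nat_lit 0x40492) (nat_lit 0) (p (nat_lit 0x30412) (nat_lit 0) (p (nat_lit 0x30212) (nat_lit 0) (p (nat_lit 0x20192) (nat_lit 0) (p (nat_lit 0x20092) (nat_lit 0) (p (nat_lit 0x10012) (nat_lit 0) pn))))))))))))))))))))))))) :=
  Cl.node (nat_lit 0x200004) (nat_lit 2) (by decide +kernel) (ClAll.succ (ClAll.succ ClAll.zero n546) s936)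

def n626 : Cl (O (nat_lit 1)) (R (nat_lit 104465))
    (p (nat_lit 0x380c2) (nat_lit 0) (p (nat_lit 0x44c2a) (nat_lit 1) (p (nat_lit 0x111) (nat_lit 0) (p (nat_lit 0x101) (nat_lit 0) (p (nat_lit 0xc1) (nat_lit 1) (p (nat_lit 0x119) (nat_lit 1) (p (nat_lit 0xc9) (nat_lit 0) (p (nat_lit 0x89) (nat_lit 1) (p (nat_lit 0x41) (nat_lit 0) (p (nat_lit 0x8078907089a) (nat_lit 0) (p (nat_lit 0x7870886861a) (nat_lit 0) (p (nat_lit 0x800070806078a) (nat_lit 0) (p (nat_lit 0x800068785850a) (nat_lit 0) (p (nat_lit 0x587050682) (nat_lit 0) (p (nat_lit 0x506848402) (nat_lit 0) (p (nat_lit 0x160014) (nat_lit 0) (p (nat_lit 0x16000c) (nat_lit 0) (p (nat_lit 0x50612) (nat_lit 0) (p (nat_lit 0x40592) (nat_lit 0) (p (nat_lit 0x40492) (nat_lit 0) (p (nat_lit 0x30412) (nat_lit 0) (p (nat_lit 0x30212) (nat_lit 0) (p (nat_lit 0x20192) (nat_lit 0) (p (nat_lit 0x20092) (nat_lit 0) (p (nat_lit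 0x10012) (nat_lit 0) pn))))))))))))))))))))))))) :=
  Cl.node (nat_lit 0xb000c) (nat_lit 2) (by decide +kernel) (ClAll.succ (ClAll.succ ClAll.zero n547) s940)

def n627 : Cl (O (nat_lit 1)) (R (nat_lit 104465))
    (p (nat_lit 0x380c2) (nat_lit 0) (p (nat_lit 0x444aa) (nat_lit 7) (p (nat_lit 0x111) (nat_lit 1) (p (nat_lit 0x101) (nat_lit 0) (p (nat_lit 0xc1) (nat_lit 1) (p (nat_lit 0x119) (nat_lit 1) (p (nat_lit 0xc9) (nat_lit 0) (p (nat_lit 0x89) (nat_lit 1) (p (nat_lit 0x41) (nat_lit 0) (p (nat_lit 0x8078907089a) (nat_lit 0) (p (nat_lit 0x7870886861a) (nat_lit 0) (p (nat_lit 0x800070806078a) (nat_lit 0) (p (nat_lit 0x800068785850a) (nat_lit 0) (p (nat_lit 0x587050682) (nat_lit 0) (p (nat_lit 0x506848402) (nat_lit 0) (p (nat_lit 0x160014) (nat_lit 0) (p (nat_lit 0x16000c) (nat_lit 0) (p (nat_lit 0x50612) (nat_lit 0) (p (nat_lit 0x40592) (nat_lit 0) (p (nat_lit 0x40492)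 (nat_lit 0) (p (nat_lit 0x30412) (nat_lit 0) (p (nat_lit 0x30212) (nat_lit 0) (p (nat_lit 0x20192) (nat_lit 0) (p (nat_lit 0x20092) (nat_lit 0) (p (nat_lit 0x10012) (nat_lit 0) pn))))))))))))))))))))))))) :=
  Cl.node (nat_lit 0xb0014) (nat_lit 2) (by decide +kernel) (ClAll.succ (ClAll.succ ClAll.zero n548) n549)

def n628 : Cl (O (nat_lit 1)) (R (nat_lit 104465))
    (p (nat_lit 0x380c2) (nat_lit 1) (p (nat_lit 0x444aa) (nat_lit 7) (p (nat_lit 0x111) (nat_lit 1) (p (nat_lit 0x101) (nat_lit 0) (p (nat_lit 0xc1) (nat_lit 1) (p (nat_lit 0x119) (nat_lit 1) (p (nat_lit 0xc9) (nat_lit 0) (p (nat_lit 0x89) (nat_lit 1) (p (nat_lit 0x41) (nat_lit 0) (p (nat_lit 0x8078907089a) (nat_lit 0) (p (nat_lit 0x7870886861a) (nat_lit 0) (p (nat_lit 0x800070806078a) (nat_lit 0) (p (nat_lit 0x800068785850a) (nat_lit 0) (p (nat_lit 0x587050682) (nat_lit 0) (p (nat_lit 0x506848402) (nat_lit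 0) (p (nat_lit 0x160014) (nat_lit 0) (p (nat_lit 0x16000c) (nat_lit 0) (p (nat_lit 0x50612) (nat_lit 0) (p (nat_lit 0x40592) (nat_lit 0) (p (nat_lit 0x40492) (nat_lit 0) (p (nat_lit 0x30412) (nat_lit 0) (p (nat_lit 0x30212) (nat_lit 0) (p (nat_lit 0x20192) (nat_lit 0) (p (nat_lit 0x20092) (nat_lit 0) (p (nat_lit 0x10012) (nat_lit 0) pn))))))))))))))))))))))))) :=
  Cl.node (nat_lit 0x200004) (nat_lit 2) (by decide +kernel) (ClAll.succ (ClAll.succ ClAll.zero n550) s972)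

def n629 : Cl (O (nat_lit 1)) (R (nat_lit 104465))
    (p (nat_lit 0x380c2) (nat_lit 0) (p (nat_lit 0x444aa) (nat_lit 7) (p (nat_lit 0x119) (nat_lit 1) (p (nat_lit 0x111) (nat_lit 0) (p (nat_lit 0x101) (nat_lit 0) (p (nat_lit 0x109) (nat_lit 0) (p (nat_lit 0xc9) (nat_lit 1) (p (nat_lit 0x89) (nat_lit 1) (p (nat_lit 0x41) (nat_lit 0) (p (nat_lit 0x8078907089a) (nat_lit 0) (p (nat_lit 0x7870886861a) (nat_lit 0) (p (nat_lit 0x800070806078a) (nat_lit 0) (p (nat_lit 0x800068785850a) (nat_lit 0) (p (nat_lit 0x587050682) (nat_lit 0) (p (nat_lit 0x506848402) (nat_lit 0) (p (nat_lit 0x160014) (nat_lit 0) (p (nat_lit 0x16000c) (nat_lit 0) (p (nat_lit 0x50612) (nat_lit 0) (p (nat_lit 0x40592) (nat_lit 0) (p (nat_lit 0x40492) (nat_lit 0) (p (nat_lit 0x30412) (nat_lit 0) (p (nat_lit 0x30212) (nat_lit 0) (p (nat_lit 0x20192) (nat_lit 0) (p (nat_lit 0x20092) (nat_lit 0) (p (nat_lit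 0x10012) (nat_lit 0) pn))))))))))))))))))))))))) :=
  Cl.node (nat_lit 0x200004) (nat_lit 2) (by decide +kernel) (ClAll.succ (ClAll.succ ClAll.zero n551) s1003)

def n630 : Cl (O (nat_lit 1)) (R (nat_lit 104465))
    (p (nat_lit 0x4c42a) (nat_lit 10) (p (nat_lit 0x111) (nat_lit 0) (p (nat_lit 0x89) (nat_lit 0) (p (nat_lit 0x109) (nat_lit 1) (p (nat_lit 0x101) (nat_lit 0) (p (nat_lit 0x119) (nat_lit 0) (p (nat_lit 0xd1) (nat_lit 0) (p (nat_lit 0x81) (nat_lit 0) (p (nat_lit 0x41) (nat_lit 1) (p (nat_lit 0x8078907089a) (nat_lit 0) (p (nat_lit 0x7870886861a) (nat_lit 0) (p (nat_lit 0x800070806078a) (nat_lit 0) (p (nat_lit 0x800068785850a) (nat_lit 0) (p (nat_lit 0x587050682) (nat_lit 0) (p (nat_lit 0x506848402) (nat_lit 0) (p (nat_lit 0x160014) (nat_lit 0) (p (nat_lit 0x16000c) (nat_lit 0) (p (nat_lit 0x50612) (nat_lit 0) (p (nat_lit 0x40592) (nat_lit 0) (p (nat_lit 0x40492)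 (nat_lit 0) (p (nat_lit 0x30412) (nat_lit 0) (p (nat_lit 0x30212) (nat_lit 0) (p (nat_lit 0x20192) (nat_lit 0) (p (nat_lit 0x20092) (nat_lit 0) (p (nat_lit 0x10012) (nat_lit 0) pn))))))))))))))))))))))))) :=
  Cl.node (nat_lit 0x380c2) (nat_lit 2) (by decide +kernel) (ClAll.succ (ClAll.succ ClAll.zero s1034) n552)

def n631 : Cl (O (nat_lit 1)) (R (nat_lit 104465))
    (p (nat_lit 0x4c42a) (nat_lit 10) (p (nat_lit 0x111) (nat_lit 1) (p (nat_lit 0x89) (nat_lit 0) (p (nat_lit 0x109) (nat_lit 1) (p (nat_lit 0x101) (nat_lit 0) (p (nat_lit 0x119) (nat_lit 0) (p (nat_lit 0xd1) (nat_lit 0) (p (nat_lit 0x81) (nat_lit 0) (p (nat_lit 0x41) (nat_lit 1) (p (nat_lit 0x8078907089a) (nat_lit 0) (p (nat_lit 0x7870886861a) (nat_lit 0) (p (nat_lit 0x800070806078a) (nat_lit 0) (p (nat_lit 0x800068785850a) (nat_lit 0) (p (nat_lit 0x587050682) (nat_lit 0) (p (nat_lit 0x506848402) (nat_lit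 0) (p (nat_lit 0x160014) (nat_lit 0) (p (nat_lit 0x16000c) (nat_lit 0) (p (nat_lit 0x50612) (nat_lit 0) (p (nat_lit 0x40592) (nat_lit 0) (p (nat_lit 0x40492) (nat_lit 0) (p (nat_lit 0x30412) (nat_lit 0) (p (nat_lit 0x30212) (nat_lit 0) (p (nat_lit 0x20192) (nat_lit 0) (p (nat_lit 0x20092) (nat_lit 0) (p (nat_lit 0x10012) (nat_lit 0) pn))))))))))))))))))))))))) :=
  Cl.node (nat_lit 0x380c2) (nat_lit 2) (by decide +kernel) (ClAll.succ (ClAll.succ ClAll.zero n553) n554)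

def n632 : Cl (O (nat_lit 1)) (R (nat_lit 104465))
    (p (nat_lit 0x4c42a) (nat_lit 10) (p (nat_lit 0xc9) (nat_lit 0) (p (nat_lit 0x89) (nat_lit 1) (p (nat_lit 0x109) (nat_lit 1) (p (nat_lit 0x101) (nat_lit 0) (p (nat_lit 0x119) (nat_lit 0) (p (nat_lit 0xd1) (nat_lit 0) (p (nat_lit 0x81) (nat_lit 0) (p (nat_lit 0x41) (nat_lit 1) (p (nat_lit 0x8078907089a) (nat_lit 0) (p (nat_lit 0x7870886861a) (nat_lit 0) (p (nat_lit 0x800070806078a) (nat_lit 0) (p (nat_lit 0x800068785850a) (nat_lit 0) (p (nat_lit 0x587050682) (nat_lit 0) (p (nat_lit 0x506848402) (nat_lit 0) (p (nat_lit 0x160014) (nat_lit 0) (p (nat_lit 0x16000c) (nat_lit 0) (p (nat_lit 0x50612) (nat_lit 0) (p (nat_lit 0x40592) (nat_lit 0) (p (nat_lit 0x40492) (nat_lit 0) (p (nat_lit 0x30412) (nat_lit 0) (p (nat_lit 0x30212) (nat_lit 0) (p (nat_lit 0x20192) (nat_lit 0) (p (nat_lit 0x20092) (nat_lit 0) (p (nat_lit 0x10012)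 (nat_lit 0) pn))))))))))))))))))))))))) :=
  Cl.node (nat_lit 0x380c2) (nat_lit 2) (by decide +kernel) (ClAll.succ (ClAll.succ ClAll.zero n555) s1081)

def n633 : Cl (O (nat_lit 1)) (R (nat_lit 104465))
    (p (nat_lit 0x4c42a) (nat_lit 10) (p (nat_lit 0xc9) (nat_lit 1) (p (nat_lit 0x89) (nat_lit 1) (p (nat_lit 0x109) (nat_lit 1) (p (nat_lit 0x101) (nat_lit 0) (p (nat_lit 0x119) (nat_lit 0) (p (nat_lit 0xd1) (nat_lit 0) (p (nat_lit 0x81) (nat_lit 0) (p (nat_lit 0x41) (nat_lit 1) (p (nat_lit 0x8078907089a) (nat_lit 0) (p (nat_lit 0x7870886861a) (nat_lit 0) (p (nat_lit 0x800070806078a) (nat_lit 0) (p (nat_lit 0x800068785850a) (nat_lit 0) (p (nat_lit 0x587050682) (nat_lit 0) (p (nat_lit 0x506848402) (nat_lit 0) (p (nat_lit 0x160014) (nat_lit 0) (p (nat_lit 0x16000c) (nat_lit 0) (p (nat_lit 0x50612) (nat_lit 0) (p (nat_lit 0x40592) (nat_lit 0) (p (nat_lit 0x40492) (nat_lit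 0) (p (nat_lit 0x30412) (nat_lit 0) (p (nat_lit 0x30212) (nat_lit 0) (p (nat_lit 0x20192) (nat_lit 0) (p (nat_lit 0x20092) (nat_lit 0) (p (nat_lit 0x10012) (nat_lit 0) pn))))))))))))))))))))))))) :=
  Cl.node (nat_lit 0x380c2) (nat_lit 2) (by decide +kernel) (ClAll.succ (ClAll.succ ClAll.zero s1093) s1094)

def n634 : Cl (O (nat_lit 1)) (R (nat_lit 104465))
    (p (nat_lit 0x380c2) (nat_lit 0) (p (nat_lit 0x4c42a) (nat_lit 10) (p (nat_lit 0x89) (nat_lit 0) (p (nat_lit 0xc1) (nat_lit 0) (p (nat_lit 0x101) (nat_lit 1) (p (nat_lit 0x119) (nat_lit 0) (p (nat_lit 0xd1) (nat_lit 0) (p (nat_lit 0x81) (nat_lit 0) (p (nat_lit 0x41) (nat_lit 1) (p (nat_lit 0x8078907089a) (nat_lit 0) (p (nat_lit 0x7870886861a) (nat_lit 0) (p (nat_lit 0x800070806078a) (nat_lit 0) (p (nat_lit 0x800068785850a) (nat_lit 0) (p (nat_lit 0x587050682) (nat_lit 0) (p (nat_lit 0x506848402) (nat_lit 0) (p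 (nat_lit 0x160014) (nat_lit 0) (p (nat_lit 0x16000c) (nat_lit 0) (p (nat_lit 0x50612) (nat_lit 0) (p (nat_lit 0x40592) (nat_lit 0) (p (nat_lit 0x40492) (nat_lit 0) (p (nat_lit 0x30412) (nat_lit 0) (p (nat_lit 0x30212) (nat_lit 0) (p (nat_lit 0x20192) (nat_lit 0) (p (nat_lit 0x20092) (nat_lit 0) (p (nat_lit 0x10012) (nat_lit 0) pn))))))))))))))))))))))))) :=
  Cl.node (nat_lit 0xb000c) (nat_lit 2) (by decide +kernel) (ClAll.succ (ClAll.succ ClAll.zero s1106) s1107)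

def n635 : Cl (O (nat_lit 1)) (R (nat_lit 104465))
    (p (nat_lit 0x380c2) (nat_lit 1) (p (nat_lit 0x4c42a) (nat_lit 10) (p (nat_lit 0x89) (nat_lit 0) (p (nat_lit 0xc1) (nat_lit 0) (p (nat_lit 0x101) (nat_lit 1) (p (nat_lit 0x119) (nat_lit 0) (p (nat_lit 0xd1) (nat_lit 0) (p (nat_lit 0x81) (nat_lit 0) (p (nat_lit 0x41) (nat_lit 1) (p (nat_lit 0x8078907089a) (nat_lit 0) (p (nat_lit 0x7870886861a) (nat_lit 0) (p (nat_lit 0x800070806078a) (nat_lit 0) (p (nat_lit 0x800068785850a) (nat_lit 0) (p (nat_lit 0x587050682) (nat_lit 0) (p (nat_lit 0x506848402) (nat_lit 0) (p (nat_lit 0x160014) (nat_lit 0) (p (nat_lit 0x16000c) (nat_lit 0) (p (nat_lit 0x50612) (nat_lit 0) (p (nat_lit 0x40592) (nat_lit 0) (p (nat_lit 0x40492) (nat_lit 0) (p (nat_lit 0x30412) (nat_lit 0) (p (nat_lit 0x30212) (nat_lit 0) (p (nat_lit 0x20192) (nat_lit 0) (p (nat_lit 0x20092) (nat_lit 0) (p (nat_lit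 0x10012) (nat_lit 0) pn))))))))))))))))))))))))) :=
  Cl.node (nat_lit 0x200004) (nat_lit 2) (by decide +kernel) (ClAll.succ (ClAll.succ ClAll.zero n556) s1110)

def n636 : Cl (O (nat_lit 1)) (R (nat_lit 104465))
    (p (nat_lit 0x4c42a) (nat_lit 10) (p (nat_lit 0xc9) (nat_lit 0) (p (nat_lit 0x89) (nat_lit 1) (p (nat_lit 0xc1) (nat_lit 0) (p (nat_lit 0x101) (nat_lit 1) (p (nat_lit 0x119) (nat_lit 0) (p (nat_lit 0xd1) (nat_lit 0) (p (nat_lit 0x81) (nat_lit 0) (p (nat_lit 0x41) (nat_lit 1) (p (nat_lit 0x8078907089a) (nat_lit 0) (p (nat_lit 0x7870886861a) (nat_lit 0) (p (nat_lit 0x800070806078a) (nat_lit 0) (p (nat_lit 0x800068785850a) (nat_lit 0) (p (nat_lit 0x587050682) (nat_lit 0) (p (nat_lit 0x506848402) (nat_lit 0) (p (nat_lit 0x160014) (nat_lit 0) (p (nat_lit 0x16000c) (nat_lit 0) (p (nat_lit 0x50612) (nat_lit 0) (p (nat_lit 0x40592) (nat_lit 0) (p (nat_lit 0x40492)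 (nat_lit 0) (p (nat_lit 0x30412) (nat_lit 0) (p (nat_lit 0x30212) (nat_lit 0) (p (nat_lit 0x20192) (nat_lit 0) (p (nat_lit 0x20092) (nat_lit 0) (p (nat_lit 0x10012) (nat_lit 0) pn))))))))))))))))))))))))) :=
  Cl.node (nat_lit 0x380c2) (nat_lit 2) (by decide +kernel) (ClAll.succ (ClAll.succ ClAll.zero n557) n558)

def n637 : Cl (O (nat_lit 1)) (R (nat_lit 104465))
    (p (nat_lit 0x4c42a) (nat_lit 10) (p (nat_lit 0xc9) (nat_lit 1) (p (nat_lit 0x89) (nat_lit 1) (p (nat_lit 0xc1) (nat_lit 0) (p (nat_lit 0x101) (nat_lit 1) (p (nat_lit 0x119) (nat_lit 0) (p (nat_lit 0xd1) (nat_lit 0) (p (nat_lit 0x81) (nat_lit 0) (p (nat_lit 0x41) (nat_lit 1) (p (nat_lit 0x8078907089a) (nat_lit 0) (p (nat_lit 0x7870886861a) (nat_lit 0) (p (nat_lit 0x800070806078a) (nat_lit 0) (p (nat_lit 0x800068785850a) (nat_lit 0) (p (nat_lit 0x587050682) (nat_lit 0) (p (nat_lit 0x506848402) (nat_lit 0)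 (p (nat_lit 0x160014) (nat_lit 0) (p (nat_lit 0x16000c) (nat_lit 0) (p (nat_lit 0x50612) (nat_lit 0) (p (nat_lit 0x40592) (nat_lit 0) (p (nat_lit 0x40492) (nat_lit 0) (p (nat_lit 0x30412) (nat_lit 0) (p (nat_lit 0x30212) (nat_lit 0) (p (nat_lit 0x20192) (nat_lit 0) (p (nat_lit 0x20092) (nat_lit 0) (p (nat_lit 0x10012) (nat_lit 0) pn))))))))))))))))))))))))) :=
  Cl.node (nat_lit 0x380c2) (nat_lit 2) (by decide +kernel) (ClAll.succ (ClAll.succ ClAll.zero n559) n560)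

def n638 : Cl (O (nat_lit 1)) (R (nat_lit 104465))
    (p (nat_lit 0x380c2) (nat_lit 0) (p (nat_lit 0x3cc2a) (nat_lit 2) (p (nat_lit 0x89) (nat_lit 0) (p (nat_lit 0xc1) (nat_lit 1) (p (nat_lit 0x101) (nat_lit 1) (p (nat_lit 0x119) (nat_lit 0) (p (nat_lit 0xd1) (nat_lit 0) (p (nat_lit 0x81) (nat_lit 0) (p (nat_lit 0x41) (nat_lit 1) (p (nat_lit 0x8078907089a) (nat_lit 0) (p (nat_lit 0x7870886861a) (nat_lit 0) (p (nat_lit 0x800070806078a) (nat_lit 0) (p (nat_lit 0x800068785850a) (nat_lit 0) (p (nat_lit 0x587050682) (nat_lit 0) (p (nat_lit 0x506848402) (nat_lit 0) (p (nat_lit 0x160014) (nat_lit 0) (p (nat_lit 0x16000c) (nat_lit 0) (p (nat_lit 0x50612) (nat_lit 0) (p (nat_lit 0x40592) (nat_lit 0) (p (nat_lit 0x40492) (nat_lit 0) (p (nat_lit 0x30412) (nat_lit 0) (p (nat_lit 0x30212) (nat_lit 0) (p (nat_lit 0x20192) (nat_lit 0) (p (nat_lit 0x20092) (nat_lit 0) (p (nat_lit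 0x10012) (nat_lit 0) pn))))))))))))))))))))))))) :=
  Cl.node (nat_lit 0xb0014) (nat_lit 2) (by decide +kernel) (ClAll.succ (ClAll.succ ClAll.zero n561) s1176)

def n639 : Cl (O (nat_lit 1)) (R (nat_lit 104465))
    (p (nat_lit 0x380c2) (nat_lit 0) (p (nat_lit 0x3c4aa) (nat_lit 7) (p (nat_lit 0x89) (nat_lit 1) (p (nat_lit 0xc1) (nat_lit 1) (p (nat_lit 0x101) (nat_lit 1) (p (nat_lit 0x119) (nat_lit 0) (p (nat_lit 0xd1) (nat_lit 0) (p (nat_lit 0x81) (nat_lit 0) (p (nat_lit 0x41) (nat_lit 1) (p (nat_lit 0x8078907089a) (nat_lit 0) (p (nat_lit 0x7870886861a) (nat_lit 0) (p (nat_lit 0x800070806078a) (nat_lit 0) (p (nat_lit 0x800068785850a) (nat_lit 0) (p (nat_lit 0x587050682) (nat_lit 0) (p (nat_lit 0x506848402) (nat_lit 0) (p (nat_lit 0x160014) (nat_lit 0) (p (nat_lit 0x16000c) (nat_lit 0) (p (nat_lit 0x50612) (nat_lit 0) (p (nat_lit 0x40592) (nat_lit 0) (p (nat_lit 0x40492)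 (nat_lit 0) (p (nat_lit 0x30412) (nat_lit 0) (p (nat_lit 0x30212) (nat_lit 0) (p (nat_lit 0x20192) (nat_lit 0) (p (nat_lit 0x20092) (nat_lit 0) (p (nat_lit 0x10012) (nat_lit 0) pn))))))))))))))))))))))))) :=
  Cl.node (nat_lit 0x200004) (nat_lit 2) (by decide +kernel) (ClAll.succ (ClAll.succ ClAll.zero n562) s1195)

def n640 : Cl (O (nat_lit 1)) (R (nat_lit 104465))
    (p (nat_lit 0x380c2) (nat_lit 1) (p (nat_lit 0x3c4aa) (nat_lit 7) (p (nat_lit 0x89) (nat_lit 1) (p (nat_lit 0xc1) (nat_lit 1) (p (nat_lit 0x101) (nat_lit 1) (p (nat_lit 0x119) (nat_lit 0) (p (nat_lit 0xd1) (nat_lit 0) (p (nat_lit 0x81) (nat_lit 0) (p (nat_lit 0x41) (nat_lit 1) (p (nat_lit 0x8078907089a) (nat_lit 0) (p (nat_lit 0x7870886861a) (nat_lit 0) (p (nat_lit 0x800070806078a) (nat_lit 0) (p (nat_lit 0x800068785850a) (nat_lit 0) (p (nat_lit 0x587050682) (nat_lit 0) (p (nat_lit 0x506848402) (nat_lit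 0) (p (nat_lit 0x160014) (nat_lit 0) (p (nat_lit 0x16000c) (nat_lit 0) (p (nat_lit 0x50612) (nat_lit 0) (p (nat_lit 0x40592) (nat_lit 0) (p (nat_lit 0x40492) (nat_lit 0) (p (nat_lit 0x30412) (nat_lit 0) (p (nat_lit 0x30212) (nat_lit 0) (p (nat_lit 0x20192) (nat_lit 0) (p (nat_lit 0x20092) (nat_lit 0) (p (nat_lit 0x10012) (nat_lit 0) pn))))))))))))))))))))))))) :=
  Cl.node (nat_lit 0xb0014) (nat_lit 2) (by decide +kernel) (ClAll.succ (ClAll.succ ClAll.zero n563) s1199)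

def n641 : Cl (O (nat_lit 1)) (R (nat_lit 104465))
    (p (nat_lit 0x380c2) (nat_lit 0) (p (nat_lit 0x3c4aa) (nat_lit 8) (p (nat_lit 0x89) (nat_lit 1) (p (nat_lit 0xc1) (nat_lit 1) (p (nat_lit 0x101) (nat_lit 1) (p (nat_lit 0x119) (nat_lit 0) (p (nat_lit 0xd1) (nat_lit 0) (p (nat_lit 0x81) (nat_lit 0) (p (nat_lit 0x41) (nat_lit 1) (p (nat_lit 0x8078907089a) (nat_lit 0) (p (nat_lit 0x7870886861a) (nat_lit 0) (p (nat_lit 0x800070806078a) (nat_lit 0) (p (nat_lit 0x800068785850a) (nat_lit 0) (p (nat_lit 0x587050682) (nat_lit 0) (p (nat_lit 0x506848402) (nat_lit 0) (p (nat_lit 0x160014) (nat_lit 0) (p (nat_lit 0x16000c) (nat_lit 0) (p (nat_lit 0x50612) (nat_lit 0) (p (nat_lit 0x40592) (nat_lit 0) (p (nat_lit 0x40492) (nat_lit 0) (p (nat_lit 0x30412) (nat_lit 0) (p (nat_lit 0x30212) (nat_lit 0) (p (nat_lit 0x20192) (nat_lit 0) (p (nat_lit 0x20092) (nat_lit 0) (p (nat_lit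 0x10012) (nat_lit 0) pn))))))))))))))))))))))))) :=
  Cl.node (nat_lit 0x101) (nat_lit 2) (by decide +kernel) (ClAll.succ (ClAll.succ ClAll.zero n564) n565)

def n642 : Cl (O (nat_lit 1)) (R (nat_lit 104465))
    (p (nat_lit 0x380c2) (nat_lit 1) (p (nat_lit 0x3c4aa) (nat_lit 8) (p (nat_lit 0x89) (nat_lit 1) (p (nat_lit 0xc1) (nat_lit 1) (p (nat_lit 0x101) (nat_lit 1) (p (nat_lit 0x119) (nat_lit 0) (p (nat_lit 0xd1) (nat_lit 0) (p (nat_lit 0x81) (nat_lit 0) (p (nat_lit 0x41) (nat_lit 1) (p (nat_lit 0x8078907089a) (nat_lit 0) (p (nat_lit 0x7870886861a) (nat_lit 0) (p (nat_lit 0x800070806078a) (nat_lit 0) (p (nat_lit 0x800068785850a) (nat_lit 0) (p (nat_lit 0x587050682) (nat_lit 0) (p (nat_lit 0x506848402) (nat_lit 0) (p (nat_lit 0x160014) (nat_lit 0) (p (nat_lit 0x16000c) (nat_lit 0) (p (nat_lit 0x50612) (nat_lit 0) (p (nat_lit 0x40592) (nat_lit 0) (p (nat_lit 0x40492)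 (nat_lit 0) (p (nat_lit 0x30412) (nat_lit 0) (p (nat_lit 0x30212) (nat_lit 0) (p (nat_lit 0x20192) (nat_lit 0) (p (nat_lit 0x20092) (nat_lit 0) (p (nat_lit 0x10012) (nat_lit 0) pn))))))))))))))))))))))))) :=
  Cl.node (nat_lit 0xb0014) (nat_lit 2) (by decide +kernel) (ClAll.succ (ClAll.succ ClAll.zero n566) s1210)

def n643 : Cl (O (nat_lit 1)) (R (nat_lit 104465))
    (p (nat_lit 0x44c2a) (nat_lit 0) (p (nat_lit 0x109) (nat_lit 0) (p (nat_lit 0x89) (nat_lit 1) (p (nat_lit 0xc9) (nat_lit 1) (p (nat_lit 0xc1) (nat_lit 0) (p (nat_lit 0x119) (nat_lit 1) (p (nat_lit 0xd1) (nat_lit 0) (p (nat_lit 0x81) (nat_lit 0) (p (nat_lit 0x41) (nat_lit 1) (p (nat_lit 0x8078907089a) (nat_lit 0) (p (nat_lit 0x7870886861a) (nat_lit 0) (p (nat_lit 0x800070806078a) (nat_lit 0) (p (nat_lit 0x800068785850a) (nat_lit 0) (p (nat_lit 0x587050682) (nat_lit 0) (p (nat_lit 0x506848402) (nat_lit 0)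 (p (nat_lit 0x160014) (nat_lit 0) (p (nat_lit 0x16000c) (nat_lit 0) (p (nat_lit 0x50612) (nat_lit 0) (p (nat_lit 0x40592) (nat_lit 0) (p (nat_lit 0x40492) (nat_lit 0) (p (nat_lit 0x30412) (nat_lit 0) (p (nat_lit 0x30212) (nat_lit 0) (p (nat_lit 0x20192) (nat_lit 0) (p (nat_lit 0x20092) (nat_lit 0) (p (nat_lit 0x10012) (nat_lit 0) pn))))))))))))))))))))))))) :=
  Cl.node (nat_lit 0x380c2) (nat_lit 2) (by decide +kernel) (ClAll.succ (ClAll.succ ClAll.zero n567) s1220)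

def n644 : Cl (O (nat_lit 1)) (R (nat_lit 104465))
    (p (nat_lit 0x44c2a) (nat_lit 1) (p (nat_lit 0x109) (nat_lit 0) (p (nat_lit 0x89) (nat_lit 1) (p (nat_lit 0xc9) (nat_lit 1) (p (nat_lit 0xc1) (nat_lit 0) (p (nat_lit 0x119) (nat_lit 1) (p (nat_lit 0xd1) (nat_lit 0) (p (nat_lit 0x81) (nat_lit 0) (p (nat_lit 0x41) (nat_lit 1) (p (nat_lit 0x8078907089a) (nat_lit 0) (p (nat_lit 0x7870886861a) (nat_lit 0) (p (nat_lit 0x800070806078a) (nat_lit 0) (p (nat_lit 0x800068785850a) (nat_lit 0) (p (nat_lit 0x587050682) (nat_lit 0) (p (nat_lit 0x506848402) (nat_lit 0) (p (nat_lit 0x160014) (nat_lit 0) (p (nat_lit 0x16000c) (nat_lit 0) (p (nat_lit 0x50612) (nat_lit 0) (p (nat_lit 0x40592) (nat_lit 0) (p (nat_lit 0x40492) (nat_lit 0) (p (nat_lit 0x30412) (nat_lit 0) (p (nat_lit 0x30212) (nat_lit 0) (p (nat_lit 0x20192) (nat_lit 0) (p (nat_lit 0x20092) (nat_lit 0) (p (nat_lit 0x10012)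 (nat_lit 0) pn))))))))))))))))))))))))) :=
  Cl.node (nat_lit 0x380c2) (nat_lit 1) (by decide +kernel) (ClAll.succ ClAll.zero n568)

def n645 : Cl (O (nat_lit 1)) (R (nat_lit 104465))
    (p (nat_lit 0x3c4aa) (nat_lit 8) (p (nat_lit 0x109) (nat_lit 1) (p (nat_lit 0x89) (nat_lit 1) (p (nat_lit 0xc9) (nat_lit 1) (p (nat_lit 0xc1) (nat_lit 0) (p (nat_lit 0x119) (nat_lit 1) (p (nat_lit 0xd1) (nat_lit 0) (p (nat_lit 0x81) (nat_lit 0) (p (nat_lit 0x41) (nat_lit 1) (p (nat_lit 0x8078907089a) (nat_lit 0) (p (nat_lit 0x7870886861a) (nat_lit 0) (p (nat_lit 0x800070806078a) (nat_lit 0) (p (nat_lit 0x800068785850a) (nat_lit 0) (p (nat_lit 0x587050682) (nat_lit 0) (p (nat_lit 0x506848402) (nat_lit 0) (p (nat_lit 0x160014) (nat_lit 0) (p (nat_lit 0x16000c) (nat_lit 0) (p (nat_lit 0x50612) (nat_lit 0) (p (nat_lit 0x40592) (nat_lit 0) (p (nat_lit 0x40492) (nat_lit 0) (p (nat_lit 0x30412)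 (nat_lit 0) (p (nat_lit 0x30212) (nat_lit 0) (p (nat_lit 0x20192) (nat_lit 0) (p (nat_lit 0x20092) (nat_lit 0) (p (nat_lit 0x10012) (nat_lit 0) pn))))))))))))))))))))))))) :=
  Cl.node (nat_lit 0x380c2) (nat_lit 2) (by decide +kernel) (ClAll.succ (ClAll.succ ClAll.zero n569) s1245)

def n646 : Cl (O (nat_lit 1)) (R (nat_lit 104465))
    (p (nat_lit 0x44c2a) (nat_lit 0) (p (nat_lit 0x109) (nat_lit 0) (p (nat_lit 0x89) (nat_lit 1) (p (nat_lit 0x101) (nat_lit 0) (p (nat_lit 0xc1) (nat_lit 1) (p (nat_lit 0x119) (nat_lit 1) (p (nat_lit 0xd1) (nat_lit 0) (p (nat_lit 0x81) (nat_lit 0) (p (nat_lit 0x41) (nat_lit 1) (p (nat_lit 0x8078907089a) (nat_lit 0) (p (nat_lit 0x7870886861a) (nat_lit 0) (p (nat_lit 0x800070806078a) (nat_lit 0) (p (nat_lit 0x800068785850a) (nat_lit 0) (p (nat_lit 0x587050682) (nat_lit 0) (p (nat_lit 0x506848402) (nat_lit 0) (p (nat_lit 0x160014) (nat_lit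 0) (p (nat_lit 0x16000c) (nat_lit 0) (p (nat_lit 0x50612) (nat_lit 0) (p (nat_lit 0x40592) (nat_lit 0) (p (nat_lit 0x40492) (nat_lit 0) (p (nat_lit 0x30412) (nat_lit 0) (p (nat_lit 0x30212) (nat_lit 0) (p (nat_lit 0x20192) (nat_lit 0) (p (nat_lit 0x20092) (nat_lit 0) (p (nat_lit 0x10012) (nat_lit 0) pn))))))))))))))))))))))))) :=
  Cl.node (nat_lit 0x380c2) (nat_lit 2) (by decide +kernel) (ClAll.succ (ClAll.succ ClAll.zero n570) s1263)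

def n647 : Cl (O (nat_lit 1)) (R (nat_lit 104465))
    (p (nat_lit 0x3c4aa) (nat_lit 7) (p (nat_lit 0x109) (nat_lit 1) (p (nat_lit 0x89) (nat_lit 1) (p (nat_lit 0x101) (nat_lit 0) (p (nat_lit 0xc1) (nat_lit 1) (p (nat_lit 0x119) (nat_lit 1) (p (nat_lit 0xd1) (nat_lit 0) (p (nat_lit 0x81) (nat_lit 0) (p (nat_lit 0x41) (nat_lit 1) (p (nat_lit 0x8078907089a) (nat_lit 0) (p (nat_lit 0x7870886861a) (nat_lit 0) (p (nat_lit 0x800070806078a) (nat_lit 0) (p (nat_lit 0x800068785850a) (nat_lit 0) (p (nat_lit 0x587050682) (nat_lit 0) (p (nat_lit 0x506848402) (nat_lit 0) (p (nat_lit 0x160014) (nat_lit 0) (p (nat_lit 0x16000c) (nat_lit 0) (p (nat_lit 0x50612) (nat_lit 0) (p (nat_lit 0x40592) (nat_lit 0) (p (nat_lit 0x40492) (nat_lit 0) (p (nat_lit 0x30412) (nat_lit 0) (p (nat_lit 0x30212) (nat_lit 0) (p (nat_lit 0x20192) (nat_lit 0) (p (nat_lit 0x20092) (nat_lit 0) (p (nat_lit 0x10012)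 (nat_lit 0) pn))))))))))))))))))))))))) :=
  Cl.node (nat_lit 0x380c2) (nat_lit 2) (by decide +kernel) (ClAll.succ (ClAll.succ ClAll.zero s1282) s1283)

def n648 : Cl (O (nat_lit 1)) (R (nat_lit 104465))
    (p (nat_lit 0x3c4aa) (nat_lit 8) (p (nat_lit 0x109) (nat_lit 1) (p (nat_lit 0x89) (nat_lit 1) (p (nat_lit 0x101) (nat_lit 0) (p (nat_lit 0xc1) (nat_lit 1) (p (nat_lit 0x119) (nat_lit 1) (p (nat_lit 0xd1) (nat_lit 0) (p (nat_lit 0x81) (nat_lit 0) (p (nat_lit 0x41) (nat_lit 1) (p (nat_lit 0x8078907089a) (nat_lit 0) (p (nat_lit 0x7870886861a) (nat_lit 0) (p (nat_lit 0x800070806078a) (nat_lit 0) (p (nat_lit 0x800068785850a) (nat_lit 0) (p (nat_lit 0x587050682) (nat_lit 0) (p (nat_lit 0x506848402) (nat_lit 0) (p (nat_lit 0x160014) (nat_lit 0) (p (nat_lit 0x16000c) (nat_lit 0) (p (nat_lit 0x50612) (nat_lit 0) (p (nat_lit 0x40592) (nat_lit 0) (p (nat_lit 0x40492) (nat_lit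 0) (p (nat_lit 0x30412) (nat_lit 0) (p (nat_lit 0x30212) (nat_lit 0) (p (nat_lit 0x20192) (nat_lit 0) (p (nat_lit 0x20092) (nat_lit 0) (p (nat_lit 0x10012) (nat_lit 0) pn))))))))))))))))))))))))) :=
  Cl.node (nat_lit 0x380c2) (nat_lit 2) (by decide +kernel) (ClAll.succ (ClAll.succ ClAll.zero n571) s1305)

def n649 : Cl (O (nat_lit 1)) (R (nat_lit 104465))
    (p (nat_lit 0x380c2) (nat_lit 0) (p (nat_lit 0x3cc2a) (nat_lit 2) (p (nat_lit 0x89) (nat_lit 0) (p (nat_lit 0x101) (nat_lit 1) (p (nat_lit 0xc1) (nat_lit 1) (p (nat_lit 0x119) (nat_lit 1) (p (nat_lit 0xd1) (nat_lit 0) (p (nat_lit 0x81) (nat_lit 0) (p (nat_lit 0x41) (nat_lit 1) (p (nat_lit 0x8078907089a) (nat_lit 0) (p (nat_lit 0x7870886861a) (nat_lit 0) (p (nat_lit 0x800070806078a) (nat_lit 0) (p (nat_lit 0x800068785850a) (nat_lit 0) (p (nat_lit 0x587050682) (nat_lit 0) (p (nat_lit 0x506848402) (nat_lit 0) (p (nat_lit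 0x160014) (nat_lit 0) (p (nat_lit 0x16000c) (nat_lit 0) (p (nat_lit 0x50612) (nat_lit 0) (p (nat_lit 0x40592) (nat_lit 0) (p (nat_lit 0x40492) (nat_lit 0) (p (nat_lit 0x30412) (nat_lit 0) (p (nat_lit 0x30212) (nat_lit 0) (p (nat_lit 0x20192) (nat_lit 0) (p (nat_lit 0x20092) (nat_lit 0) (p (nat_lit 0x10012) (nat_lit 0) pn))))))))))))))))))))))))) :=
  Cl.node (nat_lit 0xb000c) (nat_lit 2) (by decide +kernel) (ClAll.succ (ClAll.succ ClAll.zero s1311) s1312)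

def n650 : Cl (O (nat_lit 1)) (R (nat_lit 104465))
    (p (nat_lit 0x380c2) (nat_lit 0) (p (nat_lit 0x3c4aa) (nat_lit 8) (p (nat_lit 0x89) (nat_lit 1) (p (nat_lit 0x101) (nat_lit 1) (p (nat_lit 0xc1) (nat_lit 1) (p (nat_lit 0x119) (nat_lit 1) (p (nat_lit 0xd1) (nat_lit 0) (p (nat_lit 0x81) (nat_lit 0) (p (nat_lit 0x41) (nat_lit 1) (p (nat_lit 0x8078907089a) (nat_lit 0) (p (nat_lit 0x7870886861a) (nat_lit 0) (p (nat_lit 0x800070806078a) (nat_lit 0) (p (nat_lit 0x800068785850a) (nat_lit 0) (p (nat_lit 0x587050682) (nat_lit 0) (p (nat_lit 0x506848402) (nat_lit 0) (p (nat_lit 0x160014) (nat_lit 0) (p (nat_lit 0x16000c) (nat_lit 0) (p (nat_lit 0x50612) (nat_lit 0) (p (nat_lit 0x40592) (nat_lit 0) (p (nat_lit 0x40492) (nat_lit 0) (p (nat_lit 0x30412) (nat_lit 0) (p (nat_lit 0x30212) (nat_lit 0) (p (nat_lit 0x20192) (nat_lit 0) (p (nat_lit 0x20092) (nat_lit 0) (p (nat_lit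 0x10012) (nat_lit 0) pn))))))))))))))))))))))))) :=
  Cl.node (nat_lit 0x81) (nat_lit 2) (by decide +kernel) (ClAll.succ (ClAll.succ ClAll.zero n572) n573)

def n651 : Cl (O (nat_lit 1)) (R (nat_lit 104465))
    (p (nat_lit 0x119) (nat_lit 0) (p (nat_lit 0xc9) (nat_lit 0) (p (nat_lit 0x89) (nat_lit 1) (p (nat_lit 0x109) (nat_lit 1) (p (nat_lit 0x101) (nat_lit 0) (p (nat_lit 0x111) (nat_lit 0) (p (nat_lit 0xd1) (nat_lit 1) (p (nat_lit 0x81) (nat_lit 0) (p (nat_lit 0x41) (nat_lit 1) (p (nat_lit 0x8078907089a) (nat_lit 0) (p (nat_lit 0x7870886861a) (nat_lit 0) (p (nat_lit 0x800070806078a) (nat_lit 0) (p (nat_lit 0x800068785850a) (nat_lit 0) (p (nat_lit 0x587050682) (nat_lit 0) (p (nat_lit 0x506848402) (nat_lit 0) (p (nat_lit 0x160014) (nat_lit 0) (p (nat_lit 0x16000c) (nat_lit 0) (p (nat_lit 0x50612) (nat_lit 0) (p (nat_lit 0x40592) (nat_lit 0) (p (nat_lit 0x40492) (nat_lit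 0) (p (nat_lit 0x30412) (nat_lit 0) (p (nat_lit 0x30212) (nat_lit 0) (p (nat_lit 0x20192) (nat_lit 0) (p (nat_lit 0x20092) (nat_lit 0) (p (nat_lit 0x10012) (nat_lit 0) pn))))))))))))))))))))))))) :=
  Cl.node (nat_lit 0x4c42a) (nat_lit 12) (by decide +kernel) (ClAll.succ (ClAll.succ (ClAll.succ (ClAll.succ (ClAll.succ (ClAll.succ (ClAll.succ (ClAll.succ (ClAll.succ (ClAll.succ (ClAll.succ (ClAll.succ ClAll.zero s1364) s1365) s1366) s1367) s1368) s1369) s1370) s1371) s1372) s1373) n574) s1405)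

def n652 : Cl (O (nat_lit 1)) (R (nat_lit 104465))
    (p (nat_lit 0x119) (nat_lit 1) (p (nat_lit 0xc9) (nat_lit 0) (p (nat_lit 0x89) (nat_lit 1) (p (nat_lit 0x109) (nat_lit 1) (p (nat_lit 0x101) (nat_lit 0) (p (nat_lit 0x111) (nat_lit 0) (p (nat_lit 0xd1) (nat_lit 1) (p (nat_lit 0x81) (nat_lit 0) (p (nat_lit 0x41) (nat_lit 1) (p (nat_lit 0x8078907089a) (nat_lit 0) (p (nat_lit 0x7870886861a) (nat_lit 0) (p (nat_lit 0x800070806078a) (nat_lit 0) (p (nat_lit 0x800068785850a) (nat_lit 0) (p (nat_lit 0x587050682) (nat_lit 0) (p (nat_lit 0x506848402) (nat_lit 0) (p (nat_lit 0x160014) (nat_lit 0) (p (nat_lit 0x16000c) (nat_lit 0) (p (nat_lit 0x50612) (nat_lit 0) (p (nat_lit 0x40592) (nat_lit 0) (p (nat_lit 0x40492) (nat_lit 0) (p (nat_lit 0x30412) (nat_lit 0) (p (nat_lit 0x30212) (nat_lit 0) (p (nat_lit 0x20192) (nat_lit 0) (p (nat_lit 0x20092) (nat_lit 0) (p (nat_lit 0x10012)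 (nat_lit 0) pn))))))))))))))))))))))))) :=
  Cl.node (nat_lit 0x4c42a) (nat_lit 12) (by decide +kernel) (ClAll.succ (ClAll.succ (ClAll.succ (ClAll.succ (ClAll.succ (ClAll.succ (ClAll.succ (ClAll.succ (ClAll.succ (ClAll.succ (ClAll.succ (ClAll.succ ClAll.zero s1406) s1407) s1408) s1409) s1410) s1411) s1412) s1413) s1414) s1415) n575) s1484)

def n653 : Cl (O (nat_lit 1)) (R (nat_lit 104465))
    (p (nat_lit 0x4c42a) (nat_lit 10) (p (nat_lit 0xc9) (nat_lit 1) (p (nat_lit 0x89) (nat_lit 1) (p (nat_lit 0x109) (nat_lit 1) (p (nat_lit 0x101) (nat_lit 0) (p (nat_lit 0x111) (nat_lit 0) (p (nat_lit 0xd1) (nat_lit 1) (p (nat_lit 0x81) (nat_lit 0) (p (nat_lit 0x41) (nat_lit 1) (p (nat_lit 0x8078907089a) (nat_lit 0) (p (nat_lit 0x7870886861a) (nat_lit 0) (p (nat_lit 0x800070806078a) (nat_lit 0) (p (nat_lit 0x800068785850a) (nat_lit 0) (p (nat_lit 0x587050682) (nat_lit 0) (p (nat_lit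 0x506848402) (nat_lit 0) (p (nat_lit 0x160014) (nat_lit 0) (p (nat_lit 0x16000c) (nat_lit 0) (p (nat_lit 0x50612) (nat_lit 0) (p (nat_lit 0x40592) (nat_lit 0) (p (nat_lit 0x40492) (nat_lit 0) (p (nat_lit 0x30412) (nat_lit 0) (p (nat_lit 0x30212) (nat_lit 0) (p (nat_lit 0x20192) (nat_lit 0) (p (nat_lit 0x20092) (nat_lit 0) (p (nat_lit 0x10012) (nat_lit 0) pn))))))))))))))))))))))))) :=
  Cl.node (nat_lit 0x380c2) (nat_lit 2) (by decide +kernel) (ClAll.succ (ClAll.succ ClAll.zero s1495) s1496)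

def n654 : Cl (O (nat_lit 1)) (R (nat_lit 104465))
    (p (nat_lit 0xc9) (nat_lit 1) (p (nat_lit 0x380c2) (nat_lit 0) (p (nat_lit 0x3cc2a) (nat_lit 1) (p (nat_lit 0x89) (nat_lit 0) (p (nat_lit 0x101) (nat_lit 1) (p (nat_lit 0x111) (nat_lit 0) (p (nat_lit 0xd1) (nat_lit 1) (p (nat_lit 0x81) (nat_lit 0) (p (nat_lit 0x41) (nat_lit 1) (p (nat_lit 0x8078907089a) (nat_lit 0) (p (nat_lit 0x7870886861a) (nat_lit 0) (p (nat_lit 0x800070806078a) (nat_lit 0) (p (nat_lit 0x800068785850a) (nat_lit 0) (p (nat_lit 0x587050682) (nat_lit 0) (p (nat_lit 0x506848402) (nat_lit 0) (p (nat_lit 0x160014) (nat_lit 0) (p (nat_lit 0x16000c) (nat_lit 0) (p (nat_lit 0x50612) (nat_lit 0) (p (nat_lit 0x40592) (nat_lit 0) (p (nat_lit 0x40492) (nat_lit 0) (p (nat_lit 0x30412) (nat_lit 0) (p (nat_lit 0x30212) (nat_lit 0) (p (nat_lit 0x20192) (nat_lit 0) (p (nat_lit 0x20092) (nat_lit 0) (p (nat_lit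 0x10012) (nat_lit 0) pn))))))))))))))))))))))))) :=
  Cl.node (nat_lit 0xb000c) (nat_lit 2) (by decide +kernel) (ClAll.succ (ClAll.succ ClAll.zero s1502) s1503)

def n655 : Cl (O (nat_lit 1)) (R (nat_lit 104465))
    (p (nat_lit 0xc9) (nat_lit 1) (p (nat_lit 0x380c2) (nat_lit 0) (p (nat_lit 0x3cc2a) (nat_lit 2) (p (nat_lit 0x89) (nat_lit 0) (p (nat_lit 0x101) (nat_lit 1) (p (nat_lit 0x111) (nat_lit 0) (p (nat_lit 0xd1) (nat_lit 1) (p (nat_lit 0x81) (nat_lit 0) (p (nat_lit 0x41) (nat_lit 1) (p (nat_lit 0x8078907089a) (nat_lit 0) (p (nat_lit 0x7870886861a) (nat_lit 0) (p (nat_lit 0x800070806078a) (nat_lit 0) (p (nat_lit 0x800068785850a) (nat_lit 0) (p (nat_lit 0x587050682) (nat_lit 0) (p (nat_lit 0x506848402) (nat_lit 0) (p (nat_lit 0x160014) (nat_lit 0) (p (nat_lit 0x16000c) (nat_lit 0) (p (nat_lit 0x50612) (nat_lit 0) (p (nat_lit 0x40592) (nat_lit 0) (p (nat_lit 0x40492)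 (nat_lit 0) (p (nat_lit 0x30412) (nat_lit 0) (p (nat_lit 0x30212) (nat_lit 0) (p (nat_lit 0x20192) (nat_lit 0) (p (nat_lit 0x20092) (nat_lit 0) (p (nat_lit 0x10012) (nat_lit 0) pn))))))))))))))))))))))))) :=
  Cl.node (nat_lit 0xb000c) (nat_lit 2) (by decide +kernel) (ClAll.succ (ClAll.succ ClAll.zero n576) s1509)

def n656 : Cl (O (nat_lit 1)) (R (nat_lit 104465))
    (p (nat_lit 0x380c2) (nat_lit 1) (p (nat_lit 0x3cc2a) (nat_lit 0) (p (nat_lit 0xc9) (nat_lit 0) (p (nat_lit 0x89) (nat_lit 1) (p (nat_lit 0x101) (nat_lit 1) (p (nat_lit 0x111) (nat_lit 0) (p (nat_lit 0xd1) (nat_lit 1) (p (nat_lit 0x81) (nat_lit 0) (p (nat_lit 0x41) (nat_lit 1) (p (nat_lit 0x8078907089a) (nat_lit 0) (p (nat_lit 0x7870886861a) (nat_lit 0) (p (nat_lit 0x800070806078a) (nat_lit 0) (p (nat_lit 0x800068785850a) (nat_lit 0) (p (nat_lit 0x587050682) (nat_lit 0) (p (nat_lit 0x506848402) (nat_lit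 0) (p (nat_lit 0x160014) (nat_lit 0) (p (nat_lit 0x16000c) (nat_lit 0) (p (nat_lit 0x50612) (nat_lit 0) (p (nat_lit 0x40592) (nat_lit 0) (p (nat_lit 0x40492) (nat_lit 0) (p (nat_lit 0x30412) (nat_lit 0) (p (nat_lit 0x30212) (nat_lit 0) (p (nat_lit 0x20192) (nat_lit 0) (p (nat_lit 0x20092) (nat_lit 0) (p (nat_lit 0x10012) (nat_lit 0) pn))))))))))))))))))))))))) :=
  Cl.node (nat_lit 0x200004) (nat_lit 2) (by decide +kernel) (ClAll.succ (ClAll.succ ClAll.zero s1520) s1521)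

def n657 : Cl (O (nat_lit 1)) (R (nat_lit 104465))
    (p (nat_lit 0x380c2) (nat_lit 0) (p (nat_lit 0x3cc2a) (nat_lit 1) (p (nat_lit 0xc9) (nat_lit 0) (p (nat_lit 0x89) (nat_lit 1) (p (nat_lit 0x101) (nat_lit 1) (p (nat_lit 0x111) (nat_lit 0) (p (nat_lit 0xd1) (nat_lit 1) (p (nat_lit 0x81) (nat_lit 0) (p (nat_lit 0x41) (nat_lit 1) (p (nat_lit 0x8078907089a) (nat_lit 0) (p (nat_lit 0x7870886861a) (nat_lit 0) (p (nat_lit 0x800070806078a) (nat_lit 0) (p (nat_lit 0x800068785850a) (nat_lit 0) (p (nat_lit 0x587050682) (nat_lit 0) (p (nat_lit 0x506848402) (nat_lit 0) (p (nat_lit 0x160014) (nat_lit 0) (p (nat_lit 0x16000c) (nat_lit 0) (p (nat_lit 0x50612) (nat_lit 0) (p (nat_lit 0x40592) (nat_lit 0) (p (nat_lit 0x40492) (nat_lit 0) (p (nat_lit 0x30412) (nat_lit 0) (p (nat_lit 0x30212) (nat_lit 0) (p (nat_lit 0x20192) (nat_lit 0) (p (nat_lit 0x20092) (nat_lit 0) (p (nat_lit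 0x10012) (nat_lit 0) pn))))))))))))))))))))))))) :=
  Cl.node (nat_lit 0x101) (nat_lit 2) (by decide +kernel) (ClAll.succ (ClAll.succ ClAll.zero s1522) s1523)

def n658 : Cl (O (nat_lit 1)) (R (nat_lit 104465))
    (p (nat_lit 0x380c2) (nat_lit 0) (p (nat_lit 0x3cc2a) (nat_lit 2) (p (nat_lit 0xc9) (nat_lit 0) (p (nat_lit 0x89) (nat_lit 1) (p (nat_lit 0x101) (nat_lit 1) (p (nat_lit 0x111) (nat_lit 0) (p (nat_lit 0xd1) (nat_lit 1) (p (nat_lit 0x81) (nat_lit 0) (p (nat_lit 0x41) (nat_lit 1) (p (nat_lit 0x8078907089a) (nat_lit 0) (p (nat_lit 0x7870886861a) (nat_lit 0) (p (nat_lit 0x800070806078a) (nat_lit 0) (p (nat_lit 0x800068785850a) (nat_lit 0) (p (nat_lit 0x587050682) (nat_lit 0) (p (nat_lit 0x506848402) (nat_lit 0) (p (nat_lit 0x160014) (nat_lit 0) (p (nat_lit 0x16000c) (nat_lit 0) (p (nat_lit 0x50612) (nat_lit 0) (p (nat_lit 0x40592) (nat_lit 0) (p (nat_lit 0x40492)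 (nat_lit 0) (p (nat_lit 0x30412) (nat_lit 0) (p (nat_lit 0x30212) (nat_lit 0) (p (nat_lit 0x20192) (nat_lit 0) (p (nat_lit 0x20092) (nat_lit 0) (p (nat_lit 0x10012) (nat_lit 0) pn))))))))))))))))))))))))) :=
  Cl.node (nat_lit 0xb0014) (nat_lit 2) (by decide +kernel) (ClAll.succ (ClAll.succ ClAll.zero n577) s1549)

def n659 : Cl (O (nat_lit 1)) (R (nat_lit 104465))
    (p (nat_lit 0x380c2) (nat_lit 0) (p (nat_lit 0x3cc2a) (nat_lit 2) (p (nat_lit 0x109) (nat_lit 0) (p (nat_lit 0xc9) (nat_lit 1) (p (nat_lit 0x89) (nat_lit 1) (p (nat_lit 0x111) (nat_lit 1) (p (nat_lit 0xd1) (nat_lit 1) (p (nat_lit 0x81) (nat_lit 0) (p (nat_lit 0x41) (nat_lit 1) (p (nat_lit 0x8078907089a) (nat_lit 0) (p (nat_lit 0x7870886861a) (nat_lit 0) (p (nat_lit 0x800070806078a) (nat_lit 0) (p (nat_lit 0x800068785850a) (nat_lit 0) (p (nat_lit 0x587050682) (nat_lit 0) (p (nat_lit 0x506848402) (nat_lit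 0) (p (nat_lit 0x160014) (nat_lit 0) (p (nat_lit 0x16000c) (nat_lit 0) (p (nat_lit 0x50612) (nat_lit 0) (p (nat_lit 0x40592) (nat_lit 0) (p (nat_lit 0x40492) (nat_lit 0) (p (nat_lit 0x30412) (nat_lit 0) (p (nat_lit 0x30212) (nat_lit 0) (p (nat_lit 0x20192) (nat_lit 0) (p (nat_lit 0x20092) (nat_lit 0) (p (nat_lit 0x10012) (nat_lit 0) pn))))))))))))))))))))))))) :=
  Cl.node (nat_lit 0xb0014) (nat_lit 2) (by decide +kernel) (ClAll.succ (ClAll.succ ClAll.zero n578) s1578)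

def n660 : Cl (O (nat_lit 1)) (R (nat_lit 104465))
    (p (nat_lit 0x3c4aa) (nat_lit 7) (p (nat_lit 0xd1) (nat_lit 1) (p (nat_lit 0x111) (nat_lit 1) (p (nat_lit 0x109) (nat_lit 0) (p (nat_lit 0x101) (nat_lit 0) (p (nat_lit 0x119) (nat_lit 0) (p (nat_lit 0xc1) (nat_lit 0) (p (nat_lit 0x81) (nat_lit 1) (p (nat_lit 0x41) (nat_lit 1) (p (nat_lit 0x8078907089a) (nat_lit 0) (p (nat_lit 0x7870886861a) (nat_lit 0) (p (nat_lit 0x800070806078a) (nat_lit 0) (p (nat_lit 0x800068785850a) (nat_lit 0) (p (nat_lit 0x587050682) (nat_lit 0) (p (nat_lit 0x506848402) (nat_lit 0) (p (nat_lit 0x160014) (nat_lit 0) (p (nat_lit 0x16000c) (nat_lit 0) (p (nat_lit 0x50612) (nat_lit 0) (p (nat_lit 0x40592) (nat_lit 0) (p (nat_lit 0x40492) (nat_lit 0) (p (nat_lit 0x30412) (nat_lit 0) (p (nat_lit 0x30212) (nat_lit 0) (p (nat_lit 0x20192) (nat_lit 0) (p (nat_lit 0x20092) (nat_lit 0) (p (nat_lit 0x10012)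 (nat_lit 0) pn))))))))))))))))))))))))) :=
  Cl.node (nat_lit 0x380c2) (nat_lit 2) (by decide +kernel) (ClAll.succ (ClAll.succ ClAll.zero n579) n580)

def n661 : Cl (O (nat_lit 1)) (R (nat_lit 104465))
    (p (nat_lit 0x3c4aa) (nat_lit 8) (p (nat_lit 0xd1) (nat_lit 1) (p (nat_lit 0x111) (nat_lit 1) (p (nat_lit 0x109) (nat_lit 0) (p (nat_lit 0x101) (nat_lit 0) (p (nat_lit 0x119) (nat_lit 0) (p (nat_lit 0xc1) (nat_lit 0) (p (nat_lit 0x81) (nat_lit 1) (p (nat_lit 0x41) (nat_lit 1) (p (nat_lit 0x8078907089a) (nat_lit 0) (p (nat_lit 0x7870886861a) (nat_lit 0) (p (nat_lit 0x800070806078a) (nat_lit 0) (p (nat_lit 0x800068785850a) (nat_lit 0) (p (nat_lit 0x587050682) (nat_lit 0) (p (nat_lit 0x506848402) (nat_lit 0) (p (nat_lit 0x160014) (nat_lit 0) (p (nat_lit 0x16000c) (nat_lit 0) (p (nat_lit 0x50612) (nat_lit 0) (p (nat_lit 0x40592) (nat_lit 0) (p (nat_lit 0x40492) (nat_lit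 0) (p (nat_lit 0x30412) (nat_lit 0) (p (nat_lit 0x30212) (nat_lit 0) (p (nat_lit 0x20192) (nat_lit 0) (p (nat_lit 0x20092) (nat_lit 0) (p (nat_lit 0x10012) (nat_lit 0) pn))))))))))))))))))))))))) :=
  Cl.node (nat_lit 0x380c2) (nat_lit 2) (by decide +kernel) (ClAll.succ (ClAll.succ ClAll.zero n581) s1621)

def n662 : Cl (O (nat_lit 1)) (R (nat_lit 104465))
    (p (nat_lit 0x3c4aa) (nat_lit 7) (p (nat_lit 0xd1) (nat_lit 1) (p (nat_lit 0xc9) (nat_lit 0) (p (nat_lit 0x109) (nat_lit 1) (p (nat_lit 0x101) (nat_lit 0) (p (nat_lit 0x119) (nat_lit 0) (p (nat_lit 0xc1) (nat_lit 0) (p (nat_lit 0x81) (nat_lit 1) (p (nat_lit 0x41) (nat_lit 1) (p (nat_lit 0x8078907089a) (nat_lit 0) (p (nat_lit 0x7870886861a) (nat_lit 0) (p (nat_lit 0x800070806078a) (nat_lit 0) (p (nat_lit 0x800068785850a) (nat_lit 0) (p (nat_lit 0x587050682) (nat_lit 0) (p (nat_lit 0x506848402) (nat_lit 0) (p (nat_lit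 0x160014) (nat_lit 0) (p (nat_lit 0x16000c) (nat_lit 0) (p (nat_lit 0x50612) (nat_lit 0) (p (nat_lit 0x40592) (nat_lit 0) (p (nat_lit 0x40492) (nat_lit 0) (p (nat_lit 0x30412) (nat_lit 0) (p (nat_lit 0x30212) (nat_lit 0) (p (nat_lit 0x20192) (nat_lit 0) (p (nat_lit 0x20092) (nat_lit 0) (p (nat_lit 0x10012) (nat_lit 0) pn))))))))))))))))))))))))) :=
  Cl.node (nat_lit 0x380c2) (nat_lit 2) (by decide +kernel) (ClAll.succ (ClAll.succ ClAll.zero s1633) s1634)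

def n663 : Cl (O (nat_lit 1)) (R (nat_lit 104465))
    (p (nat_lit 0x3c4aa) (nat_lit 8) (p (nat_lit 0xd1) (nat_lit 1) (p (nat_lit 0xc9) (nat_lit 0) (p (nat_lit 0x109) (nat_lit 1) (p (nat_lit 0x101) (nat_lit 0) (p (nat_lit 0x119) (nat_lit 0) (p (nat_lit 0xc1) (nat_lit 0) (p (nat_lit 0x81) (nat_lit 1) (p (nat_lit 0x41) (nat_lit 1) (p (nat_lit 0x8078907089a) (nat_lit 0) (p (nat_lit 0x7870886861a) (nat_lit 0) (p (nat_lit 0x800070806078a) (nat_lit 0) (p (nat_lit 0x800068785850a) (nat_lit 0) (p (nat_lit 0x587050682) (nat_lit 0) (p (nat_lit 0x506848402) (nat_lit 0) (p (nat_lit 0x160014) (nat_lit 0) (p (nat_lit 0x16000c) (nat_lit 0) (p (nat_lit 0x50612) (nat_lit 0) (p (nat_lit 0x40592) (nat_lit 0) (p (nat_lit 0x40492) (nat_lit 0) (p (nat_lit 0x30412) (nat_lit 0) (p (nat_lit 0x30212) (nat_lit 0) (p (nat_lit 0x20192) (nat_lit 0) (p (nat_lit 0x20092) (nat_lit 0) (p (nat_lit 0x10012)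 (nat_lit 0) pn))))))))))))))))))))))))) :=
  Cl.node (nat_lit 0x380c2) (nat_lit 2) (by decide +kernel) (ClAll.succ (ClAll.succ ClAll.zero n582) s1637)

def n664 : Cl (O (nat_lit 1)) (R (nat_lit 104465))
    (p (nat_lit 0x380c2) (nat_lit 0) (p (nat_lit 0x44c2a) (nat_lit 0) (p (nat_lit 0xd1) (nat_lit 0) (p (nat_lit 0xc9) (nat_lit 0) (p (nat_lit 0x101) (nat_lit 1) (p (nat_lit 0x119) (nat_lit 0) (p (nat_lit 0xc1) (nat_lit 0) (p (nat_lit 0x81) (nat_lit 1) (p (nat_lit 0x41) (nat_lit 1) (p (nat_lit 0x8078907089a) (nat_lit 0) (p (nat_lit 0x7870886861a) (nat_lit 0) (p (nat_lit 0x800070806078a) (nat_lit 0) (p (nat_lit 0x800068785850a) (nat_lit 0) (p (nat_lit 0x587050682) (nat_lit 0) (p (nat_lit 0x506848402) (nat_lit 0) (p (nat_lit 0x160014) (nat_lit 0) (p (nat_lit 0x16000c) (nat_lit 0) (p (nat_lit 0x50612) (nat_lit 0) (p (nat_lit 0x40592) (nat_lit 0) (p (nat_lit 0x40492) (nat_lit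 0) (p (nat_lit 0x30412) (nat_lit 0) (p (nat_lit 0x30212) (nat_lit 0) (p (nat_lit 0x20192) (nat_lit 0) (p (nat_lit 0x20092) (nat_lit 0) (p (nat_lit 0x10012) (nat_lit 0) pn))))))))))))))))))))))))) :=
  Cl.node (nat_lit 0x200004) (nat_lit 2) (by decide +kernel) (ClAll.succ (ClAll.succ ClAll.zero n583) s1656)

def n665 : Cl (O (nat_lit 1)) (R (nat_lit 104465))
    (p (nat_lit 0x380c2) (nat_lit 1) (p (nat_lit 0x44c2a) (nat_lit 0) (p (nat_lit 0xd1) (nat_lit 0) (p (nat_lit 0xc9) (nat_lit 0) (p (nat_lit 0x101) (nat_lit 1) (p (nat_lit 0x119) (nat_lit 0) (p (nat_lit 0xc1) (nat_lit 0) (p (nat_lit 0x81) (nat_lit 1) (p (nat_lit 0x41) (nat_lit 1) (p (nat_lit 0x8078907089a) (nat_lit 0) (p (nat_lit 0x7870886861a) (nat_lit 0) (p (nat_lit 0x800070806078a) (nat_lit 0) (p (nat_lit 0x800068785850a) (nat_lit 0) (p (nat_lit 0x587050682) (nat_lit 0) (p (nat_lit 0x506848402) (nat_lit 0) (p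 (nat_lit 0x160014) (nat_lit 0) (p (nat_lit 0x16000c) (nat_lit 0) (p (nat_lit 0x50612) (nat_lit 0) (p (nat_lit 0x40592) (nat_lit 0) (p (nat_lit 0x40492) (nat_lit 0) (p (nat_lit 0x30412) (nat_lit 0) (p (nat_lit 0x30212) (nat_lit 0) (p (nat_lit 0x20192) (nat_lit 0) (p (nat_lit 0x20092) (nat_lit 0) (p (nat_lit 0x10012) (nat_lit 0) pn))))))))))))))))))))))))) :=
  Cl.node (nat_lit 0x200004) (nat_lit 2) (by decide +kernel) (ClAll.succ (ClAll.succ ClAll.zero n584) s1660)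

def n666 : Cl (O (nat_lit 1)) (R (nat_lit 104465))
    (p (nat_lit 0x380c2) (nat_lit 0) (p (nat_lit 0x44c2a) (nat_lit 1) (p (nat_lit 0xd1) (nat_lit 0) (p (nat_lit 0xc9) (nat_lit 0) (p (nat_lit 0x101) (nat_lit 1) (p (nat_lit 0x119) (nat_lit 0) (p (nat_lit 0xc1) (nat_lit 0) (p (nat_lit 0x81) (nat_lit 1) (p (nat_lit 0x41) (nat_lit 1) (p (nat_lit 0x8078907089a) (nat_lit 0) (p (nat_lit 0x7870886861a) (nat_lit 0) (p (nat_lit 0x800070806078a) (nat_lit 0) (p (nat_lit 0x800068785850a) (nat_lit 0) (p (nat_lit 0x587050682) (nat_lit 0) (p (nat_lit 0x506848402) (nat_lit 0) (p (nat_lit 0x160014) (nat_lit 0) (p (nat_lit 0x16000c) (nat_lit 0) (p (nat_lit 0x50612) (nat_lit 0) (p (nat_lit 0x40592) (nat_lit 0) (p (nat_lit 0x40492) (nat_lit 0) (p (nat_lit 0x30412) (nat_lit 0) (p (nat_lit 0x30212) (nat_lit 0) (p (nat_lit 0x20192) (nat_lit 0) (p (nat_lit 0x20092) (nat_lit 0) (p (nat_lit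 0x10012) (nat_lit 0) pn))))))))))))))))))))))))) :=
  Cl.node (nat_lit 0xb000c) (nat_lit 2) (by decide +kernel) (ClAll.succ (ClAll.succ ClAll.zero n585) n586)

def n667 : Cl (O (nat_lit 1)) (R (nat_lit 104465))
    (p (nat_lit 0x380c2) (nat_lit 1) (p (nat_lit 0x3c4aa) (nat_lit 7) (p (nat_lit 0xd1) (nat_lit 1) (p (nat_lit 0xc9) (nat_lit 0) (p (nat_lit 0x101) (nat_lit 1) (p (nat_lit 0x119) (nat_lit 0) (p (nat_lit 0xc1) (nat_lit 0) (p (nat_lit 0x81) (nat_lit 1) (p (nat_lit 0x41) (nat_lit 1) (p (nat_lit 0x8078907089a) (nat_lit 0) (p (nat_lit 0x7870886861a) (nat_lit 0) (p (nat_lit 0x800070806078a) (nat_lit 0) (p (nat_lit 0x800068785850a) (nat_lit 0) (p (nat_lit 0x587050682) (nat_lit 0) (p (nat_lit 0x506848402) (nat_lit 0) (p (nat_lit 0x160014) (nat_lit 0) (p (nat_lit 0x16000c) (nat_lit 0) (p (nat_lit 0x50612) (nat_lit 0) (p (nat_lit 0x40592) (nat_lit 0) (p (nat_lit 0x40492)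 (nat_lit 0) (p (nat_lit 0x30412) (nat_lit 0) (p (nat_lit 0x30212) (nat_lit 0) (p (nat_lit 0x20192) (nat_lit 0) (p (nat_lit 0x20092) (nat_lit 0) (p (nat_lit 0x10012) (nat_lit 0) pn))))))))))))))))))))))))) :=
  Cl.node (nat_lit 0x200004) (nat_lit 2) (by decide +kernel) (ClAll.succ (ClAll.succ ClAll.zero n587) s1687)

def n668 : Cl (O (nat_lit 1)) (R (nat_lit 104465))
    (p (nat_lit 0x380c2) (nat_lit 0) (p (nat_lit 0x3c4aa) (nat_lit 8) (p (nat_lit 0xd1) (nat_lit 1) (p (nat_lit 0xc9) (nat_lit 0) (p (nat_lit 0x101) (nat_lit 1) (p (nat_lit 0x119) (nat_lit 0) (p (nat_lit 0xc1) (nat_lit 0) (p (nat_lit 0x81) (nat_lit 1) (p (nat_lit 0x41) (nat_lit 1) (p (nat_lit 0x8078907089a) (nat_lit 0) (p (nat_lit 0x7870886861a) (nat_lit 0) (p (nat_lit 0x800070806078a) (nat_lit 0) (p (nat_lit 0x800068785850a) (nat_lit 0) (p (nat_lit 0x587050682) (nat_lit 0) (p (nat_lit 0x506848402) (nat_lit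 0) (p (nat_lit 0x160014) (nat_lit 0) (p (nat_lit 0x16000c) (nat_lit 0) (p (nat_lit 0x50612) (nat_lit 0) (p (nat_lit 0x40592) (nat_lit 0) (p (nat_lit 0x40492) (nat_lit 0) (p (nat_lit 0x30412) (nat_lit 0) (p (nat_lit 0x30212) (nat_lit 0) (p (nat_lit 0x20192) (nat_lit 0) (p (nat_lit 0x20092) (nat_lit 0) (p (nat_lit 0x10012) (nat_lit 0) pn))))))))))))))))))))))))) :=
  Cl.node (nat_lit 0x101) (nat_lit 2) (by decide +kernel) (ClAll.succ (ClAll.succ ClAll.zero s1688) s1689)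

def n669 : Cl (O (nat_lit 1)) (R (nat_lit 104465))
    (p (nat_lit 0x380c2) (nat_lit 0) (p (nat_lit 0x3c4aa) (nat_lit 8) (p (nat_lit 0x111) (nat_lit 1) (p (nat_lit 0xd1) (nat_lit 1) (p (nat_lit 0xc9) (nat_lit 0) (p (nat_lit 0x119) (nat_lit 1) (p (nat_lit 0xc1) (nat_lit 0) (p (nat_lit 0x81) (nat_lit 1) (p (nat_lit 0x41) (nat_lit 1) (p (nat_lit 0x8078907089a) (nat_lit 0) (p (nat_lit 0x7870886861a) (nat_lit 0) (p (nat_lit 0x800070806078a) (nat_lit 0) (p (nat_lit 0x800068785850a) (nat_lit 0) (p (nat_lit 0x587050682) (nat_lit 0) (p (nat_lit 0x506848402) (nat_lit 0) (p (nat_lit 0x160014) (nat_lit 0) (p (nat_lit 0x16000c) (nat_lit 0) (p (nat_lit 0x50612) (nat_lit 0) (p (nat_lit 0x40592) (nat_lit 0) (p (nat_lit 0x40492) (nat_lit 0) (p (nat_lit 0x30412) (nat_lit 0) (p (nat_lit 0x30212) (nat_lit 0) (p (nat_lit 0x20192) (nat_lit 0) (p (nat_lit 0x20092) (nat_lit 0) (p (nat_lit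 0x10012) (nat_lit 0) pn))))))))))))))))))))))))) :=
  Cl.node (nat_lit 0x109) (nat_lit 2) (by decide +kernel) (ClAll.succ (ClAll.succ ClAll.zero s1716) s1717)

def n670 : Cl (O (nat_lit 1)) (R (nat_lit 104465))
    (p (nat_lit 0x380c2) (nat_lit 0) (p (nat_lit 0x44c2a) (nat_lit 0) (p (nat_lit 0x111) (nat_lit 0) (p (nat_lit 0x109) (nat_lit 0) (p (nat_lit 0xc9) (nat_lit 1) (p (nat_lit 0x119) (nat_lit 1) (p (nat_lit 0xc1) (nat_lit 0) (p (nat_lit 0x81) (nat_lit 1) (p (nat_lit 0x41) (nat_lit 1) (p (nat_lit 0x8078907089a) (nat_lit 0) (p (nat_lit 0x7870886861a) (nat_lit 0) (p (nat_lit 0x800070806078a) (nat_lit 0) (p (nat_lit 0x800068785850a) (nat_lit 0) (p (nat_lit 0x587050682) (nat_lit 0) (p (nat_lit 0x506848402) (nat_lit 0) (p (nat_lit 0x160014) (nat_lit 0) (p (nat_lit 0x16000c) (nat_lit 0) (p (nat_lit 0x50612) (nat_lit 0) (p (nat_lit 0x40592) (nat_lit 0) (p (nat_lit 0x40492)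 (nat_lit 0) (p (nat_lit 0x30412) (nat_lit 0) (p (nat_lit 0x30212) (nat_lit 0) (p (nat_lit 0x20192) (nat_lit 0) (p (nat_lit 0x20092) (nat_lit 0) (p (nat_lit 0x10012) (nat_lit 0) pn))))))))))))))))))))))))) :=
  Cl.node (nat_lit 0x200004) (nat_lit 2) (by decide +kernel) (ClAll.succ (ClAll.succ ClAll.zero n588) s1724)

def n671 : Cl (O (nat_lit 1)) (R (nat_lit 104465))
    (p (nat_lit 0x380c2) (nat_lit 0) (p (nat_lit 0x44c2a) (nat_lit 1) (p (nat_lit 0x111) (nat_lit 0) (p (nat_lit 0x109) (nat_lit 0) (p (nat_lit 0xc9) (nat_lit 1) (p (nat_lit 0x119) (nat_lit 1) (p (nat_lit 0xc1) (nat_lit 0) (p (nat_lit 0x81) (nat_lit 1) (p (nat_lit 0x41) (nat_lit 1) (p (nat_lit 0x8078907089a) (nat_lit 0) (p (nat_lit 0x7870886861a) (nat_lit 0) (p (nat_lit 0x800070806078a) (nat_lit 0) (p (nat_lit 0x800068785850a) (nat_lit 0) (p (nat_lit 0x587050682) (nat_lit 0) (p (nat_lit 0x506848402) (nat_lit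 0) (p (nat_lit 0x160014) (nat_lit 0) (p (nat_lit 0x16000c) (nat_lit 0) (p (nat_lit 0x50612) (nat_lit 0) (p (nat_lit 0x40592) (nat_lit 0) (p (nat_lit 0x40492) (nat_lit 0) (p (nat_lit 0x30412) (nat_lit 0) (p (nat_lit 0x30212) (nat_lit 0) (p (nat_lit 0x20192) (nat_lit 0) (p (nat_lit 0x20092) (nat_lit 0) (p (nat_lit 0x10012) (nat_lit 0) pn))))))))))))))))))))))))) :=
  Cl.node (nat_lit 0x200004) (nat_lit 2) (by decide +kernel) (ClAll.succ (ClAll.succ ClAll.zero n589) s1728)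

def n672 : Cl (O (nat_lit 1)) (R (nat_lit 104465))
    (p (nat_lit 0x380c2) (nat_lit 0) (p (nat_lit 0x3c4aa) (nat_lit 8) (p (nat_lit 0x111) (nat_lit 1) (p (nat_lit 0x109) (nat_lit 0) (p (nat_lit 0xc9) (nat_lit 1) (p (nat_lit 0x119) (nat_lit 1) (p (nat_lit 0xc1) (nat_lit 0) (p (nat_lit 0x81) (nat_lit 1) (p (nat_lit 0x41) (nat_lit 1) (p (nat_lit 0x8078907089a) (nat_lit 0) (p (nat_lit 0x7870886861a) (nat_lit 0) (p (nat_lit 0x800070806078a) (nat_lit 0) (p (nat_lit 0x800068785850a) (nat_lit 0) (p (nat_lit 0x587050682) (nat_lit 0) (p (nat_lit 0x506848402) (nat_lit 0) (p (nat_lit 0x160014) (nat_lit 0) (p (nat_lit 0x16000c) (nat_lit 0) (p (nat_lit 0x50612) (nat_lit 0) (p (nat_lit 0x40592) (nat_lit 0) (p (nat_lit 0x40492) (nat_lit 0) (p (nat_lit 0x30412) (nat_lit 0) (p (nat_lit 0x30212) (nat_lit 0) (p (nat_lit 0x20192) (nat_lit 0) (p (nat_lit 0x20092) (nat_lit 0) (p (nat_lit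 0x10012) (nat_lit 0) pn))))))))))))))))))))))))) :=
  Cl.node (nat_lit 0xd1) (nat_lit 2) (by decide +kernel) (ClAll.succ (ClAll.succ ClAll.zero n590) s1750)

def n673 : Cl (O (nat_lit 1)) (R (nat_lit 104465))
    (p (nat_lit 0x81) (nat_lit 0) (p (nat_lit 0xc9) (nat_lit 1) (p (nat_lit 0x109) (nat_lit 1) (p (nat_lit 0x101) (nat_lit 0) (p (nat_lit 0x119) (nat_lit 0) (p (nat_lit 0xd1) (nat_lit 0) (p (nat_lit 0x89) (nat_lit 0) (p (nat_lit 0x41) (nat_lit 0) (p (nat_lit 0x8078907089a) (nat_lit 0) (p (nat_lit 0x7870886861a) (nat_lit 0) (p (nat_lit 0x800070806078a) (nat_lit 0) (p (nat_lit 0x800068785850a) (nat_lit 0) (p (nat_lit 0x587050682) (nat_lit 0) (p (nat_lit 0x506848402) (nat_lit 0) (p (nat_lit 0x160014) (nat_lit 0) (p (nat_lit 0x16000c) (nat_lit 0) (p (nat_lit 0x50612) (nat_lit 0) (p (nat_lit 0x40592) (nat_lit 0) (p (nat_lit 0x40492) (nat_lit 0) (p (nat_lit 0x30412) (nat_lit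 0) (p (nat_lit 0x30212) (nat_lit 0) (p (nat_lit 0x20192) (nat_lit 0) (p (nat_lit 0x20092) (nat_lit 0) (p (nat_lit 0x10012) (nat_lit 0) pn)))))))))))))))))))))))) :=
  Cl.node (nat_lit 0x3cc2a) (nat_lit 12) (by decide +kernel) (ClAll.succ (ClAll.succ (ClAll.succ (ClAll.succ (ClAll.succ (ClAll.succ (ClAll.succ (ClAll.succ (ClAll.succ (ClAll.succ (ClAll.succ (ClAll.succ ClAll.zero n591) s5) n592) s11) s12) s13) s14) s15) s16) s17) s18) s19)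

def n674 : Cl (O (nat_lit 1)) (R (nat_lit 104465))
    (p (nat_lit 0x81) (nat_lit 1) (p (nat_lit 0xc9) (nat_lit 1) (p (nat_lit 0x109) (nat_lit 1) (p (nat_lit 0x101) (nat_lit 0) (p (nat_lit 0x119) (nat_lit 0) (p (nat_lit 0xd1) (nat_lit 0) (p (nat_lit 0x89) (nat_lit 0) (p (nat_lit 0x41) (nat_lit 0) (p (nat_lit 0x8078907089a) (nat_lit 0) (p (nat_lit 0x7870886861a) (nat_lit 0) (p (nat_lit 0x800070806078a) (nat_lit 0) (p (nat_lit 0x800068785850a) (nat_lit 0) (p (nat_lit 0x587050682) (nat_lit 0) (p (nat_lit 0x506848402) (nat_lit 0) (p (nat_lit 0x160014) (nat_lit 0) (p (nat_lit 0x16000c) (nat_lit 0) (p (nat_lit 0x50612) (nat_lit 0) (p (nat_lit 0x40592) (nat_lit 0) (p (nat_lit 0x40492) (nat_lit 0) (p (nat_lit 0x30412) (nat_lit 0) (p (nat_lit 0x30212) (nat_lit 0) (p (nat_lit 0x20192) (nat_lit 0) (p (nat_lit 0x20092) (nat_lit 0) (p (nat_lit 0x10012) (nat_lit 0) pn))))))))))))))))))))))))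 :=
  Cl.node (nat_lit 0x444aa) (nat_lit 12) (by decide +kernel) (ClAll.succ (ClAll.succ (ClAll.succ (ClAll.succ (ClAll.succ (ClAll.succ (ClAll.succ (ClAll.succ (ClAll.succ (ClAll.succ (ClAll.succ (ClAll.succ ClAll.zero s20) s21) s22) s23) s24) s25) s26) n593) s98) s99) s100) s101)

def n675 : Cl (O (nat_lit 1)) (R (nat_lit 104465))
    (p (nat_lit 0x111) (nat_lit 0) (p (nat_lit 0xc9) (nat_lit 0) (p (nat_lit 0x81) (nat_lit 0) (p (nat_lit 0x101) (nat_lit 1) (p (nat_lit 0x119) (nat_lit 0) (p (nat_lit 0xd1) (nat_lit 0) (p (nat_lit 0x89) (nat_lit 0) (p (nat_lit 0x41) (nat_lit 0) (p (nat_lit 0x8078907089a) (nat_lit 0) (p (nat_lit 0x7870886861a) (nat_lit 0) (p (nat_lit 0x800070806078a) (nat_lit 0) (p (nat_lit 0x800068785850a) (nat_lit 0) (p (nat_lit 0x587050682) (nat_lit 0) (p (nat_lit 0x506848402) (nat_lit 0) (p (nat_lit 0x160014) (nat_lit 0) (p (nat_lit 0x16000c) (nat_lit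 0) (p (nat_lit 0x50612) (nat_lit 0) (p (nat_lit 0x40592) (nat_lit 0) (p (nat_lit 0x40492) (nat_lit 0) (p (nat_lit 0x30412) (nat_lit 0) (p (nat_lit 0x30212) (nat_lit 0) (p (nat_lit 0x20192) (nat_lit 0) (p (nat_lit 0x20092) (nat_lit 0) (p (nat_lit 0x10012) (nat_lit 0) pn)))))))))))))))))))))))) :=
  Cl.node (nat_lit 0x4c42a) (nat_lit 12) (by decide +kernel) (ClAll.succ (ClAll.succ (ClAll.succ (ClAll.succ (ClAll.succ (ClAll.succ (ClAll.succ (ClAll.succ (ClAll.succ (ClAll.succ (ClAll.succ (ClAll.succ ClAll.zero s102) s103) s104) s105) s106) s107) s108) s109) s110) s111) n594) s114)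

def n676 : Cl (O (nat_lit 1)) (R (nat_lit 104465))
    (p (nat_lit 0x111) (nat_lit 0) (p (nat_lit 0xc9) (nat_lit 1) (p (nat_lit 0x81) (nat_lit 0) (p (nat_lit 0x101) (nat_lit 1) (p (nat_lit 0x119) (nat_lit 0) (p (nat_lit 0xd1) (nat_lit 0) (p (nat_lit 0x89) (nat_lit 0) (p (nat_lit 0x41) (nat_lit 0) (p (nat_lit 0x8078907089a) (nat_lit 0) (p (nat_lit 0x7870886861a) (nat_lit 0) (p (nat_lit 0x800070806078a) (nat_lit 0) (p (nat_lit 0x800068785850a) (nat_lit 0) (p (nat_lit 0x587050682) (nat_lit 0) (p (nat_lit 0x506848402) (nat_lit 0) (p (nat_lit 0x160014) (nat_lit 0) (p (nat_lit 0x16000c) (nat_lit 0) (p (nat_lit 0x50612) (nat_lit 0) (p (nat_lit 0x40592) (nat_lit 0) (p (nat_lit 0x40492) (nat_lit 0) (p (nat_lit 0x30412) (nat_lit 0) (p (nat_lit 0x30212) (nat_lit 0) (p (nat_lit 0x20192) (nat_lit 0) (p (nat_lit 0x20092) (nat_lit 0) (p (nat_lit 0x10012) (nat_lit 0) pn))))))))))))))))))))))))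 :=
  Cl.node (nat_lit 0x444aa) (nat_lit 12) (by decide +kernel) (ClAll.succ (ClAll.succ (ClAll.succ (ClAll.succ (ClAll.succ (ClAll.succ (ClAll.succ (ClAll.succ (ClAll.succ (ClAll.succ (ClAll.succ (ClAll.succ ClAll.zero s116) s117) s118) s119) s120) s121) s122) n595) s171) s172) s173) s174)

def n677 : Cl (O (nat_lit 1)) (R (nat_lit 104465))
    (p (nat_lit 0x111) (nat_lit 1) (p (nat_lit 0xc9) (nat_lit 1) (p (nat_lit 0x81) (nat_lit 0) (p (nat_lit 0x101) (nat_lit 1) (p (nat_lit 0x119) (nat_lit 0) (p (nat_lit 0xd1) (nat_lit 0) (p (nat_lit 0x89) (nat_lit 0) (p (nat_lit 0x41) (nat_lit 0) (p (nat_lit 0x8078907089a) (nat_lit 0) (p (nat_lit 0x7870886861a) (nat_lit 0) (p (nat_lit 0x800070806078a) (nat_lit 0) (p (nat_lit 0x800068785850a) (nat_lit 0) (p (nat_lit 0x587050682) (nat_lit 0) (p (nat_lit 0x506848402) (nat_lit 0) (p (nat_lit 0x160014) (nat_lit 0) (p (nat_lit 0x16000c)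 (nat_lit 0) (p (nat_lit 0x50612) (nat_lit 0) (p (nat_lit 0x40592) (nat_lit 0) (p (nat_lit 0x40492) (nat_lit 0) (p (nat_lit 0x30412) (nat_lit 0) (p (nat_lit 0x30212) (nat_lit 0) (p (nat_lit 0x20192) (nat_lit 0) (p (nat_lit 0x20092) (nat_lit 0) (p (nat_lit 0x10012) (nat_lit 0) pn)))))))))))))))))))))))) :=
  Cl.node (nat_lit 0x3cc2a) (nat_lit 12) (by decide +kernel) (ClAll.succ (ClAll.succ (ClAll.succ (ClAll.succ (ClAll.succ (ClAll.succ (ClAll.succ (ClAll.succ (ClAll.succ (ClAll.succ (ClAll.succ (ClAll.succ ClAll.zero s175) s176) n596) s187) s188) s189) s190) s191) s192) s193) s194) s195)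

def n678 : Cl (O (nat_lit 1)) (R (nat_lit 104465))
    (p (nat_lit 0xc9) (nat_lit 0) (p (nat_lit 0xc1) (nat_lit 0) (p (nat_lit 0x81) (nat_lit 1) (p (nat_lit 0x101) (nat_lit 1) (p (nat_lit 0x119) (nat_lit 0) (p (nat_lit 0xd1) (nat_lit 0) (p (nat_lit 0x89) (nat_lit 0) (p (nat_lit 0x41) (nat_lit 0) (p (nat_lit 0x8078907089a) (nat_lit 0) (p (nat_lit 0x7870886861a) (nat_lit 0) (p (nat_lit 0x800070806078a) (nat_lit 0) (p (nat_lit 0x800068785850a) (nat_lit 0) (p (nat_lit 0x587050682) (nat_lit 0) (p (nat_lit 0x506848402) (nat_lit 0) (p (nat_lit 0x160014) (nat_lit 0) (p (nat_lit 0x16000c) (nat_lit 0) (p (nat_lit 0x50612) (nat_lit 0) (p (nat_lit 0x40592) (nat_lit 0) (p (nat_lit 0x40492) (nat_lit 0) (p (nat_lit 0x30412) (nat_lit 0) (p (nat_lit 0x30212) (nat_lit 0) (p (nat_lit 0x20192) (nat_lit 0) (p (nat_lit 0x20092) (nat_lit 0) (p (nat_lit 0x10012) (nat_lit 0) pn))))))))))))))))))))))))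 :=
  Cl.node (nat_lit 0x4c42a) (nat_lit 12) (by decide +kernel) (ClAll.succ (ClAll.succ (ClAll.succ (ClAll.succ (ClAll.succ (ClAll.succ (ClAll.succ (ClAll.succ (ClAll.succ (ClAll.succ (ClAll.succ (ClAll.succ ClAll.zero s196) s197) s198) s199) s200) s201) s202) s203) s204) s205) n597) s208)

def n679 : Cl (O (nat_lit 1)) (R (nat_lit 104465))
    (p (nat_lit 0xc9) (nat_lit 1) (p (nat_lit 0xc1) (nat_lit 0) (p (nat_lit 0x81) (nat_lit 1) (p (nat_lit 0x101) (nat_lit 1) (p (nat_lit 0x119) (nat_lit 0) (p (nat_lit 0xd1) (nat_lit 0) (p (nat_lit 0x89) (nat_lit 0) (p (nat_lit 0x41) (nat_lit 0) (p (nat_lit 0x8078907089a) (nat_lit 0) (p (nat_lit 0x7870886861a) (nat_lit 0) (p (nat_lit 0x800070806078a) (nat_lit 0) (p (nat_lit 0x800068785850a) (nat_lit 0) (p (nat_lit 0x587050682) (nat_lit 0) (p (nat_lit 0x506848402) (nat_lit 0) (p (nat_lit 0x160014) (nat_lit 0) (p (nat_lit 0x16000c)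 (nat_lit 0) (p (nat_lit 0x50612) (nat_lit 0) (p (nat_lit 0x40592) (nat_lit 0) (p (nat_lit 0x40492) (nat_lit 0) (p (nat_lit 0x30412) (nat_lit 0) (p (nat_lit 0x30212) (nat_lit 0) (p (nat_lit 0x20192) (nat_lit 0) (p (nat_lit 0x20092) (nat_lit 0) (p (nat_lit 0x10012) (nat_lit 0) pn)))))))))))))))))))))))) :=
  Cl.node (nat_lit 0x444aa) (nat_lit 12) (by decide +kernel) (ClAll.succ (ClAll.succ (ClAll.succ (ClAll.succ (ClAll.succ (ClAll.succ (ClAll.succ (ClAll.succ (ClAll.succ (ClAll.succ (ClAll.succ (ClAll.succ ClAll.zero s209) s210) s211) s212) s213) s214) s215) n598) s228) s229) s230) s231)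

def n680 : Cl (O (nat_lit 1)) (R (nat_lit 104465))
    (p (nat_lit 0x3cc2a) (nat_lit 0) (p (nat_lit 0x109) (nat_lit 1) (p (nat_lit 0xc9) (nat_lit 1) (p (nat_lit 0xc1) (nat_lit 0) (p (nat_lit 0x119) (nat_lit 1) (p (nat_lit 0xd1) (nat_lit 0) (p (nat_lit 0x89) (nat_lit 0) (p (nat_lit 0x41) (nat_lit 0) (p (nat_lit 0x8078907089a) (nat_lit 0) (p (nat_lit 0x7870886861a) (nat_lit 0) (p (nat_lit 0x800070806078a) (nat_lit 0) (p (nat_lit 0x800068785850a) (nat_lit 0) (p (nat_lit 0x587050682) (nat_lit 0) (p (nat_lit 0x506848402) (nat_lit 0) (p (nat_lit 0x160014) (nat_lit 0) (p (nat_lit 0x16000c) (nat_lit 0) (p (nat_lit 0x50612) (nat_lit 0) (p (nat_lit 0x40592) (nat_lit 0) (p (nat_lit 0x40492) (nat_lit 0) (p (nat_lit 0x30412) (nat_lit 0) (p (nat_lit 0x30212) (nat_lit 0) (p (nat_lit 0x20192) (nat_lit 0) (p (nat_lit 0x20092) (nat_lit 0) (p (nat_lit 0x10012) (nat_lit 0) pn))))))))))))))))))))))))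 :=
  Cl.node (nat_lit 0x380c2) (nat_lit 2) (by decide +kernel) (ClAll.succ (ClAll.succ ClAll.zero s235) s236)

def n681 : Cl (O (nat_lit 1)) (R (nat_lit 104465))
    (p (nat_lit 0x3cc2a) (nat_lit 2) (p (nat_lit 0x109) (nat_lit 1) (p (nat_lit 0xc9) (nat_lit 1) (p (nat_lit 0xc1) (nat_lit 0) (p (nat_lit 0x119) (nat_lit 1) (p (nat_lit 0xd1) (nat_lit 0) (p (nat_lit 0x89) (nat_lit 0) (p (nat_lit 0x41) (nat_lit 0) (p (nat_lit 0x8078907089a) (nat_lit 0) (p (nat_lit 0x7870886861a) (nat_lit 0) (p (nat_lit 0x800070806078a) (nat_lit 0) (p (nat_lit 0x800068785850a) (nat_lit 0) (p (nat_lit 0x587050682) (nat_lit 0) (p (nat_lit 0x506848402) (nat_lit 0) (p (nat_lit 0x160014) (nat_lit 0) (p (nat_lit 0x16000c) (nat_lit 0) (p (nat_lit 0x50612) (nat_lit 0) (p (nat_lit 0x40592) (nat_lit 0) (p (nat_lit 0x40492) (nat_lit 0) (p (nat_lit 0x30412) (nat_lit 0) (p (nat_lit 0x30212) (nat_lit 0) (p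 (nat_lit 0x20192) (nat_lit 0) (p (nat_lit 0x20092) (nat_lit 0) (p (nat_lit 0x10012) (nat_lit 0) pn)))))))))))))))))))))))) :=
  Cl.node (nat_lit 0x380c2) (nat_lit 1) (by decide +kernel) (ClAll.succ ClAll.zero n599)

def n682 : Cl (O (nat_lit 1)) (R (nat_lit 104465))
    (p (nat_lit 0x3cc2a) (nat_lit 2) (p (nat_lit 0x109) (nat_lit 1) (p (nat_lit 0x81) (nat_lit 0) (p (nat_lit 0xc1) (nat_lit 1) (p (nat_lit 0x119) (nat_lit 1) (p (nat_lit 0xd1) (nat_lit 0) (p (nat_lit 0x89) (nat_lit 0) (p (nat_lit 0x41) (nat_lit 0) (p (nat_lit 0x8078907089a) (nat_lit 0) (p (nat_lit 0x7870886861a) (nat_lit 0) (p (nat_lit 0x800070806078a) (nat_lit 0) (p (nat_lit 0x800068785850a) (nat_lit 0) (p (nat_lit 0x587050682) (nat_lit 0) (p (nat_lit 0x506848402) (nat_lit 0) (p (nat_lit 0x160014) (nat_lit 0) (p (nat_lit 0x16000c) (nat_lit 0) (p (nat_lit 0x50612) (nat_lit 0) (p (nat_lit 0x40592) (nat_lit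 0) (p (nat_lit 0x40492) (nat_lit 0) (p (nat_lit 0x30412) (nat_lit 0) (p (nat_lit 0x30212) (nat_lit 0) (p (nat_lit 0x20192) (nat_lit 0) (p (nat_lit 0x20092) (nat_lit 0) (p (nat_lit 0x10012) (nat_lit 0) pn)))))))))))))))))))))))) :=
  Cl.node (nat_lit 0x380c2) (nat_lit 1) (by decide +kernel) (ClAll.succ ClAll.zero n600)

def n683 : Cl (O (nat_lit 1)) (R (nat_lit 104465))
    (p (nat_lit 0x109) (nat_lit 0) (p (nat_lit 0x101) (nat_lit 0) (p (nat_lit 0x81) (nat_lit 1) (p (nat_lit 0xc1) (nat_lit 1) (p (nat_lit 0x119) (nat_lit 1) (p (nat_lit 0xd1) (nat_lit 0) (p (nat_lit 0x89) (nat_lit 0) (p (nat_lit 0x41) (nat_lit 0) (p (nat_lit 0x8078907089a) (nat_lit 0) (p (nat_lit 0x7870886861a) (nat_lit 0) (p (nat_lit 0x800070806078a) (nat_lit 0) (p (nat_lit 0x800068785850a) (nat_lit 0) (p (nat_lit 0x587050682) (nat_lit 0) (p (nat_lit 0x506848402) (nat_lit 0) (p (nat_lit 0x160014) (nat_lit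 0) (p (nat_lit 0x16000c) (nat_lit 0) (p (nat_lit 0x50612) (nat_lit 0) (p (nat_lit 0x40592) (nat_lit 0) (p (nat_lit 0x40492) (nat_lit 0) (p (nat_lit 0x30412) (nat_lit 0) (p (nat_lit 0x30212) (nat_lit 0) (p (nat_lit 0x20192) (nat_lit 0) (p (nat_lit 0x20092) (nat_lit 0) (p (nat_lit 0x10012) (nat_lit 0) pn)))))))))))))))))))))))) :=
  Cl.node (nat_lit 0x44c2a) (nat_lit 12) (by decide +kernel) (ClAll.succ (ClAll.succ (ClAll.succ (ClAll.succ (ClAll.succ (ClAll.succ (ClAll.succ (ClAll.succ (ClAll.succ (ClAll.succ (ClAll.succ (ClAll.succ ClAll.zero n601) s304) s305) s306) s307) s308) s309) s310) s311) s312) s313) s314)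

def n684 : Cl (O (nat_lit 1)) (R (nat_lit 104465))
    (p (nat_lit 0x109) (nat_lit 1) (p (nat_lit 0x101) (nat_lit 0) (p (nat_lit 0x81) (nat_lit 1) (p (nat_lit 0xc1) (nat_lit 1) (p (nat_lit 0x119) (nat_lit 1) (p (nat_lit 0xd1) (nat_lit 0) (p (nat_lit 0x89) (nat_lit 0) (p (nat_lit 0x41) (nat_lit 0) (p (nat_lit 0x8078907089a) (nat_lit 0) (p (nat_lit 0x7870886861a) (nat_lit 0) (p (nat_lit 0x800070806078a) (nat_lit 0) (p (nat_lit 0x800068785850a) (nat_lit 0) (p (nat_lit 0x587050682) (nat_lit 0) (p (nat_lit 0x506848402) (nat_lit 0) (p (nat_lit 0x160014) (nat_lit 0) (p (nat_lit 0x16000c) (nat_lit 0) (p (nat_lit 0x50612) (nat_lit 0) (p (nat_lit 0x40592) (nat_lit 0) (p (nat_lit 0x40492) (nat_lit 0) (p (nat_lit 0x30412) (nat_lit 0) (p (nat_lit 0x30212) (nat_lit 0) (p (nat_lit 0x20192) (nat_lit 0) (p (nat_lit 0x20092) (nat_lit 0) (p (nat_lit 0x10012) (nat_lit 0) pn))))))))))))))))))))))))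 :=
  Cl.node (nat_lit 0x444aa) (nat_lit 12) (by decide +kernel) (ClAll.succ (ClAll.succ (ClAll.succ (ClAll.succ (ClAll.succ (ClAll.succ (ClAll.succ (ClAll.succ (ClAll.succ (ClAll.succ (ClAll.succ (ClAll.succ ClAll.zero s315) s316) s317) s318) s319) s320) s321) n602) s334) s335) s336) s337)

def n685 : Cl (O (nat_lit 1)) (R (nat_lit 104465))
    (p (nat_lit 0x3cc2a) (nat_lit 2) (p (nat_lit 0xc1) (nat_lit 0) (p (nat_lit 0x109) (nat_lit 1) (p (nat_lit 0x101) (nat_lit 0) (p (nat_lit 0x111) (nat_lit 0) (p (nat_lit 0xd1) (nat_lit 1) (p (nat_lit 0x89) (nat_lit 0) (p (nat_lit 0x41) (nat_lit 0) (p (nat_lit 0x8078907089a) (nat_lit 0) (p (nat_lit 0x7870886861a) (nat_lit 0) (p (nat_lit 0x800070806078a) (nat_lit 0) (p (nat_lit 0x800068785850a) (nat_lit 0) (p (nat_lit 0x587050682) (nat_lit 0) (p (nat_lit 0x506848402) (nat_lit 0) (p (nat_lit 0x160014) (nat_lit 0) (p (nat_lit 0x16000c)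 (nat_lit 0) (p (nat_lit 0x50612) (nat_lit 0) (p (nat_lit 0x40592) (nat_lit 0) (p (nat_lit 0x40492) (nat_lit 0) (p (nat_lit 0x30412) (nat_lit 0) (p (nat_lit 0x30212) (nat_lit 0) (p (nat_lit 0x20192) (nat_lit 0) (p (nat_lit 0x20092) (nat_lit 0) (p (nat_lit 0x10012) (nat_lit 0) pn)))))))))))))))))))))))) :=
  Cl.node (nat_lit 0x380c2) (nat_lit 1) (by decide +kernel) (ClAll.succ ClAll.zero n603)

def n686 : Cl (O (nat_lit 1)) (R (nat_lit 104465))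
    (p (nat_lit 0x200004) (nat_lit 0) (p (nat_lit 0xc1) (nat_lit 1) (p (nat_lit 0x109) (nat_lit 1) (p (nat_lit 0x101) (nat_lit 0) (p (nat_lit 0x111) (nat_lit 0) (p (nat_lit 0xd1) (nat_lit 1) (p (nat_lit 0x89) (nat_lit 0) (p (nat_lit 0x41) (nat_lit 0) (p (nat_lit 0x8078907089a) (nat_lit 0) (p (nat_lit 0x7870886861a) (nat_lit 0) (p (nat_lit 0x800070806078a) (nat_lit 0) (p (nat_lit 0x800068785850a) (nat_lit 0) (p (nat_lit 0x587050682) (nat_lit 0) (p (nat_lit 0x506848402) (nat_lit 0) (p (nat_lit 0x160014) (nat_lit 0) (p (nat_lit 0x16000c) (nat_lit 0) (p (nat_lit 0x50612) (nat_lit 0) (p (nat_lit 0x40592) (nat_lit 0) (p (nat_lit 0x40492) (nat_lit 0) (p (nat_lit 0x30412) (nat_lit 0) (p (nat_lit 0x30212) (nat_lit 0) (p (nat_lit 0x20192) (nat_lit 0) (p (nat_lit 0x20092) (nat_lit 0) (p (nat_lit 0x10012) (nat_lit 0) pn)))))))))))))))))))))))) :=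
  Cl.node (nat_lit 0x41) (nat_lit 2) (by decide +kernel) (ClAll.succ (ClAll.succ ClAll.zero n604) s384)

def n687 : Cl (O (nat_lit 1)) (R (nat_lit 104465))
    (p (nat_lit 0x200004) (nat_lit 1) (p (nat_lit 0xc1) (nat_lit 1) (p (nat_lit 0x109) (nat_lit 1) (p (nat_lit 0x101) (nat_lit 0) (p (nat_lit 0x111) (nat_lit 0) (p (nat_lit 0xd1) (nat_lit 1) (p (nat_lit 0x89) (nat_lit 0) (p (nat_lit 0x41) (nat_lit 0) (p (nat_lit 0x8078907089a) (nat_lit 0) (p (nat_lit 0x7870886861a) (nat_lit 0) (p (nat_lit 0x800070806078a) (nat_lit 0) (p (nat_lit 0x800068785850a) (nat_lit 0) (p (nat_lit 0x587050682) (nat_lit 0) (p (nat_lit 0x506848402) (nat_lit 0) (p (nat_lit 0x160014) (nat_lit 0) (p (nat_lit 0x16000c) (nat_lit 0) (p (nat_lit 0x50612) (nat_lit 0) (p (nat_lit 0x40592) (nat_lit 0) (p (nat_lit 0x40492) (nat_lit 0) (p (nat_lit 0x30412) (nat_lit 0) (p (nat_lit 0x30212) (nat_lit 0) (p (nat_lit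 0x20192) (nat_lit 0) (p (nat_lit 0x20092) (nat_lit 0) (p (nat_lit 0x10012) (nat_lit 0) pn)))))))))))))))))))))))) :=
  Cl.node (nat_lit 0xb000c) (nat_lit 2) (by decide +kernel) (ClAll.succ (ClAll.succ ClAll.zero n605) s399)

def n688 : Cl (O (nat_lit 1)) (R (nat_lit 104465))
    (p (nat_lit 0x200004) (nat_lit 0) (p (nat_lit 0x119) (nat_lit 0) (p (nat_lit 0x81) (nat_lit 0) (p (nat_lit 0x101) (nat_lit 1) (p (nat_lit 0x111) (nat_lit 0) (p (nat_lit 0xd1) (nat_lit 1) (p (nat_lit 0x89) (nat_lit 0) (p (nat_lit 0x41) (nat_lit 0) (p (nat_lit 0x8078907089a) (nat_lit 0) (p (nat_lit 0x7870886861a) (nat_lit 0) (p (nat_lit 0x800070806078a) (nat_lit 0) (p (nat_lit 0x800068785850a) (nat_lit 0) (p (nat_lit 0x587050682) (nat_lit 0) (p (nat_lit 0x506848402) (nat_lit 0) (p (nat_lit 0x160014) (nat_lit 0) (p (nat_lit 0x16000c) (nat_lit 0) (p (nat_lit 0x50612) (nat_lit 0) (p (nat_lit 0x40592)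 (nat_lit 0) (p (nat_lit 0x40492) (nat_lit 0) (p (nat_lit 0x30412) (nat_lit 0) (p (nat_lit 0x30212) (nat_lit 0) (p (nat_lit 0x20192) (nat_lit 0) (p (nat_lit 0x20092) (nat_lit 0) (p (nat_lit 0x10012) (nat_lit 0) pn)))))))))))))))))))))))) :=
  Cl.node (nat_lit 0x109) (nat_lit 2) (by decide +kernel) (ClAll.succ (ClAll.succ ClAll.zero s400) n606)

def n689 : Cl (O (nat_lit 1)) (R (nat_lit 104465))
    (p (nat_lit 0x3cc2a) (nat_lit 0) (p (nat_lit 0x119) (nat_lit 1) (p (nat_lit 0x81) (nat_lit 0) (p (nat_lit 0x101) (nat_lit 1) (p (nat_lit 0x111) (nat_lit 0) (p (nat_lit 0xd1) (nat_lit 1) (p (nat_lit 0x89) (nat_lit 0) (p (nat_lit 0x41) (nat_lit 0) (p (nat_lit 0x8078907089a) (nat_lit 0) (p (nat_lit 0x7870886861a) (nat_lit 0) (p (nat_lit 0x800070806078a) (nat_lit 0) (p (nat_lit 0x800068785850a) (nat_lit 0) (p (nat_lit 0x587050682) (nat_lit 0) (p (nat_lit 0x506848402) (nat_lit 0)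 (p (nat_lit 0x160014) (nat_lit 0) (p (nat_lit 0x16000c) (nat_lit 0) (p (nat_lit 0x50612) (nat_lit 0) (p (nat_lit 0x40592) (nat_lit 0) (p (nat_lit 0x40492) (nat_lit 0) (p (nat_lit 0x30412) (nat_lit 0) (p (nat_lit 0x30212) (nat_lit 0) (p (nat_lit 0x20192) (nat_lit 0) (p (nat_lit 0x20092) (nat_lit 0) (p (nat_lit 0x10012) (nat_lit 0) pn)))))))))))))))))))))))) :=
  Cl.node (nat_lit 0x380c2) (nat_lit 2) (by decide +kernel) (ClAll.succ (ClAll.succ ClAll.zero s418) s419)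

def n690 : Cl (O (nat_lit 1)) (R (nat_lit 104465))
    (p (nat_lit 0x3cc2a) (nat_lit 2) (p (nat_lit 0x119) (nat_lit 1) (p (nat_lit 0x81) (nat_lit 0) (p (nat_lit 0x101) (nat_lit 1) (p (nat_lit 0x111) (nat_lit 0) (p (nat_lit 0xd1) (nat_lit 1) (p (nat_lit 0x89) (nat_lit 0) (p (nat_lit 0x41) (nat_lit 0) (p (nat_lit 0x8078907089a) (nat_lit 0) (p (nat_lit 0x7870886861a) (nat_lit 0) (p (nat_lit 0x800070806078a) (nat_lit 0) (p (nat_lit 0x800068785850a) (nat_lit 0) (p (nat_lit 0x587050682) (nat_lit 0) (p (nat_lit 0x506848402) (nat_lit 0) (p (nat_lit 0x160014) (nat_lit 0) (p (nat_lit 0x16000c) (nat_lit 0) (p (nat_lit 0x50612) (nat_lit 0) (p (nat_lit 0x40592) (nat_lit 0) (p (nat_lit 0x40492) (nat_lit 0) (p (nat_lit 0x30412) (nat_lit 0) (p (nat_lit 0x30212) (nat_lit 0) (p (nat_lit 0x20192) (nat_lit 0) (p (nat_lit 0x20092) (nat_lit 0) (p (nat_lit 0x10012) (nat_lit 0) pn))))))))))))))))))))))))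 :=
  Cl.node (nat_lit 0x380c2) (nat_lit 1) (by decide +kernel) (ClAll.succ ClAll.zero n607)

def n691 : Cl (O (nat_lit 1)) (R (nat_lit 104465))
    (p (nat_lit 0x119) (nat_lit 0) (p (nat_lit 0xc1) (nat_lit 0) (p (nat_lit 0x81) (nat_lit 1) (p (nat_lit 0x101) (nat_lit 1) (p (nat_lit 0x111) (nat_lit 0) (p (nat_lit 0xd1) (nat_lit 1) (p (nat_lit 0x89) (nat_lit 0) (p (nat_lit 0x41) (nat_lit 0) (p (nat_lit 0x8078907089a) (nat_lit 0) (p (nat_lit 0x7870886861a) (nat_lit 0) (p (nat_lit 0x800070806078a) (nat_lit 0) (p (nat_lit 0x800068785850a) (nat_lit 0) (p (nat_lit 0x587050682) (nat_lit 0) (p (nat_lit 0x506848402) (nat_lit 0) (p (nat_lit 0x160014) (nat_lit 0) (p (nat_lit 0x16000c) (nat_lit 0) (p (nat_lit 0x50612) (nat_lit 0) (p (nat_lit 0x40592) (nat_lit 0) (p (nat_lit 0x40492) (nat_lit 0) (p (nat_lit 0x30412) (nat_lit 0) (p (nat_lit 0x30212) (nat_lit 0) (p (nat_lit 0x20192)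 (nat_lit 0) (p (nat_lit 0x20092) (nat_lit 0) (p (nat_lit 0x10012) (nat_lit 0) pn)))))))))))))))))))))))) :=
  Cl.node (nat_lit 0x444aa) (nat_lit 12) (by decide +kernel) (ClAll.succ (ClAll.succ (ClAll.succ (ClAll.succ (ClAll.succ (ClAll.succ (ClAll.succ (ClAll.succ (ClAll.succ (ClAll.succ (ClAll.succ (ClAll.succ ClAll.zero s434) s435) s436) s437) s438) s439) s440) n608) s463) s464) s465) s466)

def n692 : Cl (O (nat_lit 1)) (R (nat_lit 104465))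
    (p (nat_lit 0x119) (nat_lit 1) (p (nat_lit 0xc1) (nat_lit 0) (p (nat_lit 0x81) (nat_lit 1) (p (nat_lit 0x101) (nat_lit 1) (p (nat_lit 0x111) (nat_lit 0) (p (nat_lit 0xd1) (nat_lit 1) (p (nat_lit 0x89) (nat_lit 0) (p (nat_lit 0x41) (nat_lit 0) (p (nat_lit 0x8078907089a) (nat_lit 0) (p (nat_lit 0x7870886861a) (nat_lit 0) (p (nat_lit 0x800070806078a) (nat_lit 0) (p (nat_lit 0x800068785850a) (nat_lit 0) (p (nat_lit 0x587050682) (nat_lit 0) (p (nat_lit 0x506848402) (nat_lit 0) (p (nat_lit 0x160014) (nat_lit 0) (p (nat_lit 0x16000c) (nat_lit 0) (p (nat_lit 0x50612) (nat_lit 0) (p (nat_lit 0x40592) (nat_lit 0) (p (nat_lit 0x40492) (nat_lit 0) (p (nat_lit 0x30412) (nat_lit 0) (p (nat_lit 0x30212) (nat_lit 0) (p (nat_lit 0x20192) (nat_lit 0) (p (nat_lit 0x20092) (nat_lit 0) (p (nat_lit 0x10012) (nat_lit 0) pn)))))))))))))))))))))))) :=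
  Cl.node (nat_lit 0x3cc2a) (nat_lit 12) (by decide +kernel) (ClAll.succ (ClAll.succ (ClAll.succ (ClAll.succ (ClAll.succ (ClAll.succ (ClAll.succ (ClAll.succ (ClAll.succ (ClAll.succ (ClAll.succ (ClAll.succ ClAll.zero s467) s468) n609) s503) s504) s505) s506) s507) s508) s509) s510) s511)

def n693 : Cl (O (nat_lit 1)) (R (nat_lit 104465))
    (p (nat_lit 0x3cc2a) (nat_lit 2) (p (nat_lit 0x101) (nat_lit 0) (p (nat_lit 0xc1) (nat_lit 1) (p (nat_lit 0x81) (nat_lit 1) (p (nat_lit 0x111) (nat_lit 1) (p (nat_lit 0xd1) (nat_lit 1) (p (nat_lit 0x89) (nat_lit 0) (p (nat_lit 0x41) (nat_lit 0) (p (nat_lit 0x8078907089a) (nat_lit 0) (p (nat_lit 0x7870886861a) (nat_lit 0) (p (nat_lit 0x800070806078a) (nat_lit 0) (p (nat_lit 0x800068785850a) (nat_lit 0) (p (nat_lit 0x587050682) (nat_lit 0) (p (nat_lit 0x506848402) (nat_lit 0) (p (nat_lit 0x160014) (nat_lit 0) (p (nat_lit 0x16000c)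 (nat_lit 0) (p (nat_lit 0x50612) (nat_lit 0) (p (nat_lit 0x40592) (nat_lit 0) (p (nat_lit 0x40492) (nat_lit 0) (p (nat_lit 0x30412) (nat_lit 0) (p (nat_lit 0x30212) (nat_lit 0) (p (nat_lit 0x20192) (nat_lit 0) (p (nat_lit 0x20092) (nat_lit 0) (p (nat_lit 0x10012) (nat_lit 0) pn)))))))))))))))))))))))) :=
  Cl.node (nat_lit 0x380c2) (nat_lit 1) (by decide +kernel) (ClAll.succ ClAll.zero n610)

def n694 : Cl (O (nat_lit 1)) (R (nat_lit 104465))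
    (p (nat_lit 0xd1) (nat_lit 1) (p (nat_lit 0x111) (nat_lit 1) (p (nat_lit 0x109) (nat_lit 0) (p (nat_lit 0x101) (nat_lit 0) (p (nat_lit 0x119) (nat_lit 0) (p (nat_lit 0xc9) (nat_lit 0) (p (nat_lit 0x89) (nat_lit 1) (p (nat_lit 0x41) (nat_lit 0) (p (nat_lit 0x8078907089a) (nat_lit 0) (p (nat_lit 0x7870886861a) (nat_lit 0) (p (nat_lit 0x800070806078a) (nat_lit 0) (p (nat_lit 0x800068785850a) (nat_lit 0) (p (nat_lit 0x587050682) (nat_lit 0) (p (nat_lit 0x506848402) (nat_lit 0) (p (nat_lit 0x160014) (nat_lit 0) (p (nat_lit 0x16000c) (nat_lit 0) (p (nat_lit 0x50612) (nat_lit 0) (p (nat_lit 0x40592) (nat_lit 0) (p (nat_lit 0x40492) (nat_lit 0) (p (nat_lit 0x30412) (nat_lit 0) (p (nat_lit 0x30212) (nat_lit 0) (p (nat_lit 0x20192) (nat_lit 0) (p (nat_lit 0x20092) (nat_lit 0) (p (nat_lit 0x10012) (nat_lit 0) pn)))))))))))))))))))))))) :=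
  Cl.node (nat_lit 0x444aa) (nat_lit 12) (by decide +kernel) (ClAll.succ (ClAll.succ (ClAll.succ (ClAll.succ (ClAll.succ (ClAll.succ (ClAll.succ (ClAll.succ (ClAll.succ (ClAll.succ (ClAll.succ (ClAll.succ ClAll.zero n611) s534) s535) s536) s537) s538) s539) n612) s648) s649) s650) s651)

def n695 : Cl (O (nat_lit 1)) (R (nat_lit 104465))
    (p (nat_lit 0x200004) (nat_lit 0) (p (nat_lit 0xd1) (nat_lit 0) (p (nat_lit 0x109) (nat_lit 1) (p (nat_lit 0x101) (nat_lit 0) (p (nat_lit 0x119) (nat_lit 0) (p (nat_lit 0xc9) (nat_lit 0) (p (nat_lit 0x89) (nat_lit 1) (p (nat_lit 0x41) (nat_lit 0) (p (nat_lit 0x8078907089a) (nat_lit 0) (p (nat_lit 0x7870886861a) (nat_lit 0) (p (nat_lit 0x800070806078a) (nat_lit 0) (p (nat_lit 0x800068785850a) (nat_lit 0) (p (nat_lit 0x587050682) (nat_lit 0) (p (nat_lit 0x506848402) (nat_lit 0) (p (nat_lit 0x160014) (nat_lit 0) (p (nat_lit 0x16000c)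 (nat_lit 0) (p (nat_lit 0x50612) (nat_lit 0) (p (nat_lit 0x40592) (nat_lit 0) (p (nat_lit 0x40492) (nat_lit 0) (p (nat_lit 0x30412) (nat_lit 0) (p (nat_lit 0x30212) (nat_lit 0) (p (nat_lit 0x20192) (nat_lit 0) (p (nat_lit 0x20092) (nat_lit 0) (p (nat_lit 0x10012) (nat_lit 0) pn)))))))))))))))))))))))) :=
  Cl.node (nat_lit 0x41) (nat_lit 2) (by decide +kernel) (ClAll.succ (ClAll.succ ClAll.zero n613) n614)

def n696 : Cl (O (nat_lit 1)) (R (nat_lit 104465))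
    (p (nat_lit 0x200004) (nat_lit 1) (p (nat_lit 0xd1) (nat_lit 0) (p (nat_lit 0x109) (nat_lit 1) (p (nat_lit 0x101) (nat_lit 0) (p (nat_lit 0x119) (nat_lit 0) (p (nat_lit 0xc9) (nat_lit 0) (p (nat_lit 0x89) (nat_lit 1) (p (nat_lit 0x41) (nat_lit 0) (p (nat_lit 0x8078907089a) (nat_lit 0) (p (nat_lit 0x7870886861a) (nat_lit 0) (p (nat_lit 0x800070806078a) (nat_lit 0) (p (nat_lit 0x800068785850a) (nat_lit 0) (p (nat_lit 0x587050682) (nat_lit 0) (p (nat_lit 0x506848402) (nat_lit 0) (p (nat_lit 0x160014) (nat_lit 0) (p (nat_lit 0x16000c) (nat_lit 0) (p (nat_lit 0x50612) (nat_lit 0) (p (nat_lit 0x40592) (nat_lit 0) (p (nat_lit 0x40492) (nat_lit 0) (p (nat_lit 0x30412) (nat_lit 0) (p (nat_lit 0x30212) (nat_lit 0) (p (nat_lit 0x20192) (nat_lit 0) (p (nat_lit 0x20092) (nat_lit 0) (p (nat_lit 0x10012) (nat_lit 0) pn)))))))))))))))))))))))) :=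
  Cl.node (nat_lit 0xb000c) (nat_lit 2) (by decide +kernel) (ClAll.succ (ClAll.succ ClAll.zero n615) s723)

def n697 : Cl (O (nat_lit 1)) (R (nat_lit 104465))
    (p (nat_lit 0x444aa) (nat_lit 7) (p (nat_lit 0xd1) (nat_lit 1) (p (nat_lit 0x109) (nat_lit 1) (p (nat_lit 0x101) (nat_lit 0) (p (nat_lit 0x119) (nat_lit 0) (p (nat_lit 0xc9) (nat_lit 0) (p (nat_lit 0x89) (nat_lit 1) (p (nat_lit 0x41) (nat_lit 0) (p (nat_lit 0x8078907089a) (nat_lit 0) (p (nat_lit 0x7870886861a) (nat_lit 0) (p (nat_lit 0x800070806078a) (nat_lit 0) (p (nat_lit 0x800068785850a) (nat_lit 0) (p (nat_lit 0x587050682) (nat_lit 0) (p (nat_lit 0x506848402) (nat_lit 0) (p (nat_lit 0x160014) (nat_lit 0) (p (nat_lit 0x16000c) (nat_lit 0) (p (nat_lit 0x50612) (nat_lit 0) (p (nat_lit 0x40592) (nat_lit 0) (p (nat_lit 0x40492) (nat_lit 0) (p (nat_lit 0x30412) (nat_lit 0) (p (nat_lit 0x30212) (nat_lit 0) (p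 (nat_lit 0x20192) (nat_lit 0) (p (nat_lit 0x20092) (nat_lit 0) (p (nat_lit 0x10012) (nat_lit 0) pn)))))))))))))))))))))))) :=
  Cl.node (nat_lit 0x380c2) (nat_lit 2) (by decide +kernel) (ClAll.succ (ClAll.succ ClAll.zero n616) n617)

def n698 : Cl (O (nat_lit 1)) (R (nat_lit 104465))
    (p (nat_lit 0x200004) (nat_lit 0) (p (nat_lit 0xd1) (nat_lit 0) (p (nat_lit 0xc1) (nat_lit 0) (p (nat_lit 0x101) (nat_lit 1) (p (nat_lit 0x119) (nat_lit 0) (p (nat_lit 0xc9) (nat_lit 0) (p (nat_lit 0x89) (nat_lit 1) (p (nat_lit 0x41) (nat_lit 0) (p (nat_lit 0x8078907089a) (nat_lit 0) (p (nat_lit 0x7870886861a) (nat_lit 0) (p (nat_lit 0x800070806078a) (nat_lit 0) (p (nat_lit 0x800068785850a) (nat_lit 0) (p (nat_lit 0x587050682) (nat_lit 0) (p (nat_lit 0x506848402) (nat_lit 0) (p (nat_lit 0x160014) (nat_lit 0) (p (nat_lit 0x16000c) (nat_lit 0) (p (nat_lit 0x50612) (nat_lit 0) (p (nat_lit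 0x40592) (nat_lit 0) (p (nat_lit 0x40492) (nat_lit 0) (p (nat_lit 0x30412) (nat_lit 0) (p (nat_lit 0x30212) (nat_lit 0) (p (nat_lit 0x20192) (nat_lit 0) (p (nat_lit 0x20092) (nat_lit 0) (p (nat_lit 0x10012) (nat_lit 0) pn)))))))))))))))))))))))) :=
  Cl.node (nat_lit 0x109) (nat_lit 2) (by decide +kernel) (ClAll.succ (ClAll.succ ClAll.zero n618) n619)

def n699 : Cl (O (nat_lit 1)) (R (nat_lit 104465))
    (p (nat_lit 0x200004) (nat_lit 1) (p (nat_lit 0xd1) (nat_lit 0) (p (nat_lit 0xc1) (nat_lit 0) (p (nat_lit 0x101) (nat_lit 1) (p (nat_lit 0x119) (nat_lit 0) (p (nat_lit 0xc9) (nat_lit 0) (p (nat_lit 0x89) (nat_lit 1) (p (nat_lit 0x41) (nat_lit 0) (p (nat_lit 0x8078907089a) (nat_lit 0) (p (nat_lit 0x7870886861a) (nat_lit 0) (p (nat_lit 0x800070806078a) (nat_lit 0) (p (nat_lit 0x800068785850a) (nat_lit 0) (p (nat_lit 0x587050682) (nat_lit 0) (p (nat_lit 0x506848402) (nat_lit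 0) (p (nat_lit 0x160014) (nat_lit 0) (p (nat_lit 0x16000c) (nat_lit 0) (p (nat_lit 0x50612) (nat_lit 0) (p (nat_lit 0x40592) (nat_lit 0) (p (nat_lit 0x40492) (nat_lit 0) (p (nat_lit 0x30412) (nat_lit 0) (p (nat_lit 0x30212) (nat_lit 0) (p (nat_lit 0x20192) (nat_lit 0) (p (nat_lit 0x20092) (nat_lit 0) (p (nat_lit 0x10012) (nat_lit 0) pn)))))))))))))))))))))))) :=
  Cl.node (nat_lit 0xb000c) (nat_lit 2) (by decide +kernel) (ClAll.succ (ClAll.succ ClAll.zero n620) s838)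

def n700 : Cl (O (nat_lit 1)) (R (nat_lit 104465))
    (p (nat_lit 0x444aa) (nat_lit 7) (p (nat_lit 0xd1) (nat_lit 1) (p (nat_lit 0xc1) (nat_lit 0) (p (nat_lit 0x101) (nat_lit 1) (p (nat_lit 0x119) (nat_lit 0) (p (nat_lit 0xc9) (nat_lit 0) (p (nat_lit 0x89) (nat_lit 1) (p (nat_lit 0x41) (nat_lit 0) (p (nat_lit 0x8078907089a) (nat_lit 0) (p (nat_lit 0x7870886861a) (nat_lit 0) (p (nat_lit 0x800070806078a) (nat_lit 0) (p (nat_lit 0x800068785850a) (nat_lit 0) (p (nat_lit 0x587050682) (nat_lit 0) (p (nat_lit 0x506848402) (nat_lit 0) (p (nat_lit 0x160014) (nat_lit 0) (p (nat_lit 0x16000c) (nat_lit 0) (p (nat_lit 0x50612) (nat_lit 0) (p (nat_lit 0x40592) (nat_lit 0) (p (nat_lit 0x40492) (nat_lit 0) (p (nat_lit 0x30412) (nat_lit 0) (p (nat_lit 0x30212) (nat_lit 0) (p (nat_lit 0x20192) (nat_lit 0) (p (nat_lit 0x20092) (nat_lit 0) (p (nat_lit 0x10012) (nat_lit 0) pn))))))))))))))))))))))))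 :=
  Cl.node (nat_lit 0x380c2) (nat_lit 2) (by decide +kernel) (ClAll.succ (ClAll.succ ClAll.zero n621) n622)

def n701 : Cl (O (nat_lit 1)) (R (nat_lit 104465))
    (p (nat_lit 0x444aa) (nat_lit 7) (p (nat_lit 0x111) (nat_lit 1) (p (nat_lit 0xd1) (nat_lit 1) (p (nat_lit 0xc1) (nat_lit 0) (p (nat_lit 0x119) (nat_lit 1) (p (nat_lit 0xc9) (nat_lit 0) (p (nat_lit 0x89) (nat_lit 1) (p (nat_lit 0x41) (nat_lit 0) (p (nat_lit 0x8078907089a) (nat_lit 0) (p (nat_lit 0x7870886861a) (nat_lit 0) (p (nat_lit 0x800070806078a) (nat_lit 0) (p (nat_lit 0x800068785850a) (nat_lit 0) (p (nat_lit 0x587050682) (nat_lit 0) (p (nat_lit 0x506848402) (nat_lit 0) (p (nat_lit 0x160014) (nat_lit 0) (p (nat_lit 0x16000c) (nat_lit 0) (p (nat_lit 0x50612) (nat_lit 0) (p (nat_lit 0x40592) (nat_lit 0) (p (nat_lit 0x40492) (nat_lit 0) (p (nat_lit 0x30412) (nat_lit 0) (p (nat_lit 0x30212) (nat_lit 0) (p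 (nat_lit 0x20192) (nat_lit 0) (p (nat_lit 0x20092) (nat_lit 0) (p (nat_lit 0x10012) (nat_lit 0) pn)))))))))))))))))))))))) :=
  Cl.node (nat_lit 0x380c2) (nat_lit 2) (by decide +kernel) (ClAll.succ (ClAll.succ ClAll.zero n623) n624)

def n702 : Cl (O (nat_lit 1)) (R (nat_lit 104465))
    (p (nat_lit 0x44c2a) (nat_lit 0) (p (nat_lit 0x111) (nat_lit 0) (p (nat_lit 0x101) (nat_lit 0) (p (nat_lit 0xc1) (nat_lit 1) (p (nat_lit 0x119) (nat_lit 1) (p (nat_lit 0xc9) (nat_lit 0) (p (nat_lit 0x89) (nat_lit 1) (p (nat_lit 0x41) (nat_lit 0) (p (nat_lit 0x8078907089a) (nat_lit 0) (p (nat_lit 0x7870886861a) (nat_lit 0) (p (nat_lit 0x800070806078a) (nat_lit 0) (p (nat_lit 0x800068785850a) (nat_lit 0) (p (nat_lit 0x587050682) (nat_lit 0) (p (nat_lit 0x506848402) (nat_lit 0) (p (nat_lit 0x160014) (nat_lit 0) (p (nat_lit 0x16000c) (nat_lit 0) (p (nat_lit 0x50612) (nat_lit 0) (p (nat_lit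 0x40592) (nat_lit 0) (p (nat_lit 0x40492) (nat_lit 0) (p (nat_lit 0x30412) (nat_lit 0) (p (nat_lit 0x30212) (nat_lit 0) (p (nat_lit 0x20192) (nat_lit 0) (p (nat_lit 0x20092) (nat_lit 0) (p (nat_lit 0x10012) (nat_lit 0) pn)))))))))))))))))))))))) :=
  Cl.node (nat_lit 0x380c2) (nat_lit 2) (by decide +kernel) (ClAll.succ (ClAll.succ ClAll.zero n625) s937)

def n703 : Cl (O (nat_lit 1)) (R (nat_lit 104465))
    (p (nat_lit 0x44c2a) (nat_lit 1) (p (nat_lit 0x111) (nat_lit 0) (p (nat_lit 0x101) (nat_lit 0) (p (nat_lit 0xc1) (nat_lit 1) (p (nat_lit 0x119) (nat_lit 1) (p (nat_lit 0xc9) (nat_lit 0) (p (nat_lit 0x89) (nat_lit 1) (p (nat_lit 0x41) (nat_lit 0) (p (nat_lit 0x8078907089a) (nat_lit 0) (p (nat_lit 0x7870886861a) (nat_lit 0) (p (nat_lit 0x800070806078a) (nat_lit 0) (p (nat_lit 0x800068785850a) (nat_lit 0) (p (nat_lit 0x587050682) (nat_lit 0) (p (nat_lit 0x506848402)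 (nat_lit 0) (p (nat_lit 0x160014) (nat_lit 0) (p (nat_lit 0x16000c) (nat_lit 0) (p (nat_lit 0x50612) (nat_lit 0) (p (nat_lit 0x40592) (nat_lit 0) (p (nat_lit 0x40492) (nat_lit 0) (p (nat_lit 0x30412) (nat_lit 0) (p (nat_lit 0x30212) (nat_lit 0) (p (nat_lit 0x20192) (nat_lit 0) (p (nat_lit 0x20092) (nat_lit 0) (p (nat_lit 0x10012) (nat_lit 0) pn)))))))))))))))))))))))) :=
  Cl.node (nat_lit 0x380c2) (nat_lit 1) (by decide +kernel) (ClAll.succ ClAll.zero n626)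

def n704 : Cl (O (nat_lit 1)) (R (nat_lit 104465))
    (p (nat_lit 0x444aa) (nat_lit 7) (p (nat_lit 0x111) (nat_lit 1) (p (nat_lit 0x101) (nat_lit 0) (p (nat_lit 0xc1) (nat_lit 1) (p (nat_lit 0x119) (nat_lit 1) (p (nat_lit 0xc9) (nat_lit 0) (p (nat_lit 0x89) (nat_lit 1) (p (nat_lit 0x41) (nat_lit 0) (p (nat_lit 0x8078907089a) (nat_lit 0) (p (nat_lit 0x7870886861a) (nat_lit 0) (p (nat_lit 0x800070806078a) (nat_lit 0) (p (nat_lit 0x800068785850a) (nat_lit 0) (p (nat_lit 0x587050682) (nat_lit 0) (p (nat_lit 0x506848402) (nat_lit 0) (p (nat_lit 0x160014) (nat_lit 0) (p (nat_lit 0x16000c) (nat_lit 0) (p (nat_lit 0x50612) (nat_lit 0) (p (nat_lit 0x40592) (nat_lit 0) (p (nat_lit 0x40492) (nat_lit 0) (p (nat_lit 0x30412) (nat_lit 0) (p (nat_lit 0x30212) (nat_lit 0) (p (nat_lit 0x20192) (nat_lit 0) (p (nat_lit 0x20092) (nat_lit 0) (p (nat_lit 0x10012) (nat_lit 0) pn))))))))))))))))))))))))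 :=
  Cl.node (nat_lit 0x380c2) (nat_lit 2) (by decide +kernel) (ClAll.succ (ClAll.succ ClAll.zero n627) n628)

def n705 : Cl (O (nat_lit 1)) (R (nat_lit 104465))
    (p (nat_lit 0x444aa) (nat_lit 7) (p (nat_lit 0x119) (nat_lit 1) (p (nat_lit 0x111) (nat_lit 0) (p (nat_lit 0x101) (nat_lit 0) (p (nat_lit 0x109) (nat_lit 0) (p (nat_lit 0xc9) (nat_lit 1) (p (nat_lit 0x89) (nat_lit 1) (p (nat_lit 0x41) (nat_lit 0) (p (nat_lit 0x8078907089a) (nat_lit 0) (p (nat_lit 0x7870886861a) (nat_lit 0) (p (nat_lit 0x800070806078a) (nat_lit 0) (p (nat_lit 0x800068785850a) (nat_lit 0) (p (nat_lit 0x587050682) (nat_lit 0) (p (nat_lit 0x506848402) (nat_lit 0) (p (nat_lit 0x160014) (nat_lit 0) (p (nat_lit 0x16000c) (nat_lit 0) (p (nat_lit 0x50612) (nat_lit 0) (p (nat_lit 0x40592) (nat_lit 0) (p (nat_lit 0x40492) (nat_lit 0) (p (nat_lit 0x30412) (nat_lit 0) (p (nat_lit 0x30212) (nat_lit 0)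 (p (nat_lit 0x20192) (nat_lit 0) (p (nat_lit 0x20092) (nat_lit 0) (p (nat_lit 0x10012) (nat_lit 0) pn)))))))))))))))))))))))) :=
  Cl.node (nat_lit 0x380c2) (nat_lit 2) (by decide +kernel) (ClAll.succ (ClAll.succ ClAll.zero n629) s1004)

def n706 : Cl (O (nat_lit 1)) (R (nat_lit 104465))
    (p (nat_lit 0x111) (nat_lit 0) (p (nat_lit 0x89) (nat_lit 0) (p (nat_lit 0x109) (nat_lit 1) (p (nat_lit 0x101) (nat_lit 0) (p (nat_lit 0x119) (nat_lit 0) (p (nat_lit 0xd1) (nat_lit 0) (p (nat_lit 0x81) (nat_lit 0) (p (nat_lit 0x41) (nat_lit 1) (p (nat_lit 0x8078907089a) (nat_lit 0) (p (nat_lit 0x7870886861a) (nat_lit 0) (p (nat_lit 0x800070806078a) (nat_lit 0) (p (nat_lit 0x800068785850a) (nat_lit 0) (p (nat_lit 0x587050682) (nat_lit 0) (p (nat_lit 0x506848402) (nat_lit 0) (p (nat_lit 0x160014) (nat_lit 0) (p (nat_lit 0x16000c) (nat_lit 0) (p (nat_lit 0x50612) (nat_lit 0) (p (nat_lit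 0x40592) (nat_lit 0) (p (nat_lit 0x40492) (nat_lit 0) (p (nat_lit 0x30412) (nat_lit 0) (p (nat_lit 0x30212) (nat_lit 0) (p (nat_lit 0x20192) (nat_lit 0) (p (nat_lit 0x20092) (nat_lit 0) (p (nat_lit 0x10012) (nat_lit 0) pn)))))))))))))))))))))))) :=
  Cl.node (nat_lit 0x4c42a) (nat_lit 12) (by decide +kernel) (ClAll.succ (ClAll.succ (ClAll.succ (ClAll.succ (ClAll.succ (ClAll.succ (ClAll.succ (ClAll.succ (ClAll.succ (ClAll.succ (ClAll.succ (ClAll.succ ClAll.zero s1024) s1025) s1026) s1027) s1028) s1029) s1030) s1031) s1032) s1033) n630) s1038)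

def n707 : Cl (O (nat_lit 1)) (R (nat_lit 104465))
    (p (nat_lit 0x111) (nat_lit 1) (p (nat_lit 0x89) (nat_lit 0) (p (nat_lit 0x109) (nat_lit 1) (p (nat_lit 0x101) (nat_lit 0) (p (nat_lit 0x119) (nat_lit 0) (p (nat_lit 0xd1) (nat_lit 0) (p (nat_lit 0x81) (nat_lit 0) (p (nat_lit 0x41) (nat_lit 1) (p (nat_lit 0x8078907089a) (nat_lit 0) (p (nat_lit 0x7870886861a) (nat_lit 0) (p (nat_lit 0x800070806078a) (nat_lit 0) (p (nat_lit 0x800068785850a) (nat_lit 0) (p (nat_lit 0x587050682) (nat_lit 0) (p (nat_lit 0x506848402) (nat_lit 0) (p (nat_lit 0x160014) (nat_lit 0) (p (nat_lit 0x16000c) (nat_lit 0) (p (nat_lit 0x50612) (nat_lit 0) (p (nat_lit 0x40592) (nat_lit 0) (p (nat_lit 0x40492) (nat_lit 0) (p (nat_lit 0x30412) (nat_lit 0) (p (nat_lit 0x30212) (nat_lit 0) (p (nat_lit 0x20192) (nat_lit 0) (p (nat_lit 0x20092) (nat_lit 0) (p (nat_lit 0x10012) (nat_lit 0) pn))))))))))))))))))))))))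 :=
  Cl.node (nat_lit 0x4c42a) (nat_lit 12) (by decide +kernel) (ClAll.succ (ClAll.succ (ClAll.succ (ClAll.succ (ClAll.succ (ClAll.succ (ClAll.succ (ClAll.succ (ClAll.succ (ClAll.succ (ClAll.succ (ClAll.succ ClAll.zero s1039) s1040) s1041) s1042) s1043) s1044) s1045) s1046) s1047) s1048) n631) s1054)

def n708 : Cl (O (nat_lit 1)) (R (nat_lit 104465))
    (p (nat_lit 0xc9) (nat_lit 0) (p (nat_lit 0x89) (nat_lit 1) (p (nat_lit 0x109) (nat_lit 1) (p (nat_lit 0x101) (nat_lit 0) (p (nat_lit 0x119) (nat_lit 0) (p (nat_lit 0xd1) (nat_lit 0) (p (nat_lit 0x81) (nat_lit 0) (p (nat_lit 0x41) (nat_lit 1) (p (nat_lit 0x8078907089a) (nat_lit 0) (p (nat_lit 0x7870886861a) (nat_lit 0) (p (nat_lit 0x800070806078a) (nat_lit 0) (p (nat_lit 0x800068785850a) (nat_lit 0) (p (nat_lit 0x587050682) (nat_lit 0) (p (nat_lit 0x506848402) (nat_lit 0) (p (nat_lit 0x160014) (nat_lit 0) (p (nat_lit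 0x16000c) (nat_lit 0) (p (nat_lit 0x50612) (nat_lit 0) (p (nat_lit 0x40592) (nat_lit 0) (p (nat_lit 0x40492) (nat_lit 0) (p (nat_lit 0x30412) (nat_lit 0) (p (nat_lit 0x30212) (nat_lit 0) (p (nat_lit 0x20192) (nat_lit 0) (p (nat_lit 0x20092) (nat_lit 0) (p (nat_lit 0x10012) (nat_lit 0) pn)))))))))))))))))))))))) :=
  Cl.node (nat_lit 0x4c42a) (nat_lit 12) (by decide +kernel) (ClAll.succ (ClAll.succ (ClAll.succ (ClAll.succ (ClAll.succ (ClAll.succ (ClAll.succ (ClAll.succ (ClAll.succ (ClAll.succ (ClAll.succ (ClAll.succ ClAll.zero s1055) s1056) s1057) s1058) s1059) s1060) s1061) s1062) s1063) s1064) n632) s1082)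

def n709 : Cl (O (nat_lit 1)) (R (nat_lit 104465))
    (p (nat_lit 0xc9) (nat_lit 1) (p (nat_lit 0x89) (nat_lit 1) (p (nat_lit 0x109) (nat_lit 1) (p (nat_lit 0x101) (nat_lit 0) (p (nat_lit 0x119) (nat_lit 0) (p (nat_lit 0xd1) (nat_lit 0) (p (nat_lit 0x81) (nat_lit 0) (p (nat_lit 0x41) (nat_lit 1) (p (nat_lit 0x8078907089a) (nat_lit 0) (p (nat_lit 0x7870886861a) (nat_lit 0) (p (nat_lit 0x800070806078a) (nat_lit 0) (p (nat_lit 0x800068785850a) (nat_lit 0) (p (nat_lit 0x587050682) (nat_lit 0) (p (nat_lit 0x506848402) (nat_lit 0) (p (nat_lit 0x160014) (nat_lit 0) (p (nat_lit 0x16000c) (nat_lit 0) (p (nat_lit 0x50612) (nat_lit 0) (p (nat_lit 0x40592) (nat_lit 0) (p (nat_lit 0x40492) (nat_lit 0) (p (nat_lit 0x30412) (nat_lit 0) (p (nat_lit 0x30212) (nat_lit 0) (p (nat_lit 0x20192) (nat_lit 0) (p (nat_lit 0x20092) (nat_lit 0) (p (nat_lit 0x10012) (nat_lit 0) pn))))))))))))))))))))))))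 :=
  Cl.node (nat_lit 0x4c42a) (nat_lit 12) (by decide +kernel) (ClAll.succ (ClAll.succ (ClAll.succ (ClAll.succ (ClAll.succ (ClAll.succ (ClAll.succ (ClAll.succ (ClAll.succ (ClAll.succ (ClAll.succ (ClAll.succ ClAll.zero s1083) s1084) s1085) s1086) s1087) s1088) s1089) s1090) s1091) s1092) n633) s1095)

def n710 : Cl (O (nat_lit 1)) (R (nat_lit 104465))
    (p (nat_lit 0x4c42a) (nat_lit 10) (p (nat_lit 0x89) (nat_lit 0) (p (nat_lit 0xc1) (nat_lit 0) (p (nat_lit 0x101) (nat_lit 1) (p (nat_lit 0x119) (nat_lit 0) (p (nat_lit 0xd1) (nat_lit 0) (p (nat_lit 0x81) (nat_lit 0) (p (nat_lit 0x41) (nat_lit 1) (p (nat_lit 0x8078907089a) (nat_lit 0) (p (nat_lit 0x7870886861a) (nat_lit 0) (p (nat_lit 0x800070806078a) (nat_lit 0) (p (nat_lit 0x800068785850a) (nat_lit 0) (p (nat_lit 0x587050682) (nat_lit 0) (p (nat_lit 0x506848402) (nat_lit 0) (p (nat_lit 0x160014) (nat_lit 0) (p (nat_lit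 0x16000c) (nat_lit 0) (p (nat_lit 0x50612) (nat_lit 0) (p (nat_lit 0x40592) (nat_lit 0) (p (nat_lit 0x40492) (nat_lit 0) (p (nat_lit 0x30412) (nat_lit 0) (p (nat_lit 0x30212) (nat_lit 0) (p (nat_lit 0x20192) (nat_lit 0) (p (nat_lit 0x20092) (nat_lit 0) (p (nat_lit 0x10012) (nat_lit 0) pn)))))))))))))))))))))))) :=
  Cl.node (nat_lit 0x380c2) (nat_lit 2) (by decide +kernel) (ClAll.succ (ClAll.succ ClAll.zero n634) n635)

def n711 : Cl (O (nat_lit 1)) (R (nat_lit 104465))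
    (p (nat_lit 0xc9) (nat_lit 0) (p (nat_lit 0x89) (nat_lit 1) (p (nat_lit 0xc1) (nat_lit 0) (p (nat_lit 0x101) (nat_lit 1) (p (nat_lit 0x119) (nat_lit 0) (p (nat_lit 0xd1) (nat_lit 0) (p (nat_lit 0x81) (nat_lit 0) (p (nat_lit 0x41) (nat_lit 1) (p (nat_lit 0x8078907089a) (nat_lit 0) (p (nat_lit 0x7870886861a) (nat_lit 0) (p (nat_lit 0x800070806078a) (nat_lit 0) (p (nat_lit 0x800068785850a) (nat_lit 0) (p (nat_lit 0x587050682) (nat_lit 0) (p (nat_lit 0x506848402) (nat_lit 0) (p (nat_lit 0x160014) (nat_lit 0) (p (nat_lit 0x16000c) (nat_lit 0) (p (nat_lit 0x50612) (nat_lit 0) (p (nat_lit 0x40592) (nat_lit 0) (p (nat_lit 0x40492) (nat_lit 0) (p (nat_lit 0x30412) (nat_lit 0) (p (nat_lit 0x30212) (nat_lit 0) (p (nat_lit 0x20192) (nat_lit 0) (p (nat_lit 0x20092) (nat_lit 0) (p (nat_lit 0x10012) (nat_lit 0) pn)))))))))))))))))))))))) :=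
  Cl.node (nat_lit 0x4c42a) (nat_lit 12) (by decide +kernel) (ClAll.succ (ClAll.succ (ClAll.succ (ClAll.succ (ClAll.succ (ClAll.succ (ClAll.succ (ClAll.succ (ClAll.succ (ClAll.succ (ClAll.succ (ClAll.succ ClAll.zero s1112) s1113) s1114) s1115) s1116) s1117) s1118) s1119) s1120) s1121) n636) s1135)

def n712 : Cl (O (nat_lit 1)) (R (nat_lit 104465))
    (p (nat_lit 0xc9) (nat_lit 1) (p (nat_lit 0x89) (nat_lit 1) (p (nat_lit 0xc1) (nat_lit 0) (p (nat_lit 0x101) (nat_lit 1) (p (nat_lit 0x119) (nat_lit 0) (p (nat_lit 0xd1) (nat_lit 0) (p (nat_lit 0x81) (nat_lit 0) (p (nat_lit 0x41) (nat_lit 1) (p (nat_lit 0x8078907089a) (nat_lit 0) (p (nat_lit 0x7870886861a) (nat_lit 0) (p (nat_lit 0x800070806078a) (nat_lit 0) (p (nat_lit 0x800068785850a) (nat_lit 0) (p (nat_lit 0x587050682) (nat_lit 0) (p (nat_lit 0x506848402) (nat_lit 0) (p (nat_lit 0x160014) (nat_lit 0) (p (nat_lit 0x16000c)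 (nat_lit 0) (p (nat_lit 0x50612) (nat_lit 0) (p (nat_lit 0x40592) (nat_lit 0) (p (nat_lit 0x40492) (nat_lit 0) (p (nat_lit 0x30412) (nat_lit 0) (p (nat_lit 0x30212) (nat_lit 0) (p (nat_lit 0x20192) (nat_lit 0) (p (nat_lit 0x20092) (nat_lit 0) (p (nat_lit 0x10012) (nat_lit 0) pn)))))))))))))))))))))))) :=
  Cl.node (nat_lit 0x4c42a) (nat_lit 12) (by decide +kernel) (ClAll.succ (ClAll.succ (ClAll.succ (ClAll.succ (ClAll.succ (ClAll.succ (ClAll.succ (ClAll.succ (ClAll.succ (ClAll.succ (ClAll.succ (ClAll.succ ClAll.zero s1136) s1137) s1138) s1139) s1140) s1141) s1142) s1143) s1144) s1145) n637) s1152)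

def n713 : Cl (O (nat_lit 1)) (R (nat_lit 104465))
    (p (nat_lit 0x3cc2a) (nat_lit 2) (p (nat_lit 0x89) (nat_lit 0) (p (nat_lit 0xc1) (nat_lit 1) (p (nat_lit 0x101) (nat_lit 1) (p (nat_lit 0x119) (nat_lit 0) (p (nat_lit 0xd1) (nat_lit 0) (p (nat_lit 0x81) (nat_lit 0) (p (nat_lit 0x41) (nat_lit 1) (p (nat_lit 0x8078907089a) (nat_lit 0) (p (nat_lit 0x7870886861a) (nat_lit 0) (p (nat_lit 0x800070806078a) (nat_lit 0) (p (nat_lit 0x800068785850a) (nat_lit 0) (p (nat_lit 0x587050682) (nat_lit 0) (p (nat_lit 0x506848402) (nat_lit 0) (p (nat_lit 0x160014) (nat_lit 0) (p (nat_lit 0x16000c) (nat_lit 0) (p (nat_lit 0x50612) (nat_lit 0) (p (nat_lit 0x40592) (nat_lit 0) (p (nat_lit 0x40492) (nat_lit 0) (p (nat_lit 0x30412) (nat_lit 0) (p (nat_lit 0x30212) (nat_lit 0) (p (nat_lit 0x20192) (nat_lit 0) (p (nat_lit 0x20092) (nat_lit 0) (p (nat_lit 0x10012) (nat_lit 0) pn))))))))))))))))))))))))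 :=
  Cl.node (nat_lit 0x380c2) (nat_lit 1) (by decide +kernel) (ClAll.succ ClAll.zero n638)

def n714 : Cl (O (nat_lit 1)) (R (nat_lit 104465))
    (p (nat_lit 0x3c4aa) (nat_lit 7) (p (nat_lit 0x89) (nat_lit 1) (p (nat_lit 0xc1) (nat_lit 1) (p (nat_lit 0x101) (nat_lit 1) (p (nat_lit 0x119) (nat_lit 0) (p (nat_lit 0xd1) (nat_lit 0) (p (nat_lit 0x81) (nat_lit 0) (p (nat_lit 0x41) (nat_lit 1) (p (nat_lit 0x8078907089a) (nat_lit 0) (p (nat_lit 0x7870886861a) (nat_lit 0) (p (nat_lit 0x800070806078a) (nat_lit 0) (p (nat_lit 0x800068785850a) (nat_lit 0) (p (nat_lit 0x587050682) (nat_lit 0) (p (nat_lit 0x506848402) (nat_lit 0) (p (nat_lit 0x160014) (nat_lit 0) (p (nat_lit 0x16000c) (nat_lit 0) (p (nat_lit 0x50612) (nat_lit 0) (p (nat_lit 0x40592) (nat_lit 0) (p (nat_lit 0x40492) (nat_lit 0) (p (nat_lit 0x30412) (nat_lit 0) (p (nat_lit 0x30212) (nat_lit 0) (p (nat_lit 0x20192)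 (nat_lit 0) (p (nat_lit 0x20092) (nat_lit 0) (p (nat_lit 0x10012) (nat_lit 0) pn)))))))))))))))))))))))) :=
  Cl.node (nat_lit 0x380c2) (nat_lit 2) (by decide +kernel) (ClAll.succ (ClAll.succ ClAll.zero n639) n640)

def n715 : Cl (O (nat_lit 1)) (R (nat_lit 104465))
    (p (nat_lit 0x3c4aa) (nat_lit 8) (p (nat_lit 0x89) (nat_lit 1) (p (nat_lit 0xc1) (nat_lit 1) (p (nat_lit 0x101) (nat_lit 1) (p (nat_lit 0x119) (nat_lit 0) (p (nat_lit 0xd1) (nat_lit 0) (p (nat_lit 0x81) (nat_lit 0) (p (nat_lit 0x41) (nat_lit 1) (p (nat_lit 0x8078907089a) (nat_lit 0) (p (nat_lit 0x7870886861a) (nat_lit 0) (p (nat_lit 0x800070806078a) (nat_lit 0) (p (nat_lit 0x800068785850a) (nat_lit 0) (p (nat_lit 0x587050682) (nat_lit 0) (p (nat_lit 0x506848402) (nat_lit 0) (p (nat_lit 0x160014) (nat_lit 0) (p (nat_lit 0x16000c) (nat_lit 0) (p (nat_lit 0x50612) (nat_lit 0) (p (nat_lit 0x40592) (nat_lit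 0) (p (nat_lit 0x40492) (nat_lit 0) (p (nat_lit 0x30412) (nat_lit 0) (p (nat_lit 0x30212) (nat_lit 0) (p (nat_lit 0x20192) (nat_lit 0) (p (nat_lit 0x20092) (nat_lit 0) (p (nat_lit 0x10012) (nat_lit 0) pn)))))))))))))))))))))))) :=
  Cl.node (nat_lit 0x380c2) (nat_lit 2) (by decide +kernel) (ClAll.succ (ClAll.succ ClAll.zero n641) n642)

def n716 : Cl (O (nat_lit 1)) (R (nat_lit 104465))
    (p (nat_lit 0x109) (nat_lit 0) (p (nat_lit 0x89) (nat_lit 1) (p (nat_lit 0xc9) (nat_lit 1) (p (nat_lit 0xc1) (nat_lit 0) (p (nat_lit 0x119) (nat_lit 1) (p (nat_lit 0xd1) (nat_lit 0) (p (nat_lit 0x81) (nat_lit 0) (p (nat_lit 0x41) (nat_lit 1) (p (nat_lit 0x8078907089a) (nat_lit 0) (p (nat_lit 0x7870886861a) (nat_lit 0) (p (nat_lit 0x800070806078a) (nat_lit 0) (p (nat_lit 0x800068785850a) (nat_lit 0) (p (nat_lit 0x587050682) (nat_lit 0) (p (nat_lit 0x506848402) (nat_lit 0) (p (nat_lit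 0x160014) (nat_lit 0) (p (nat_lit 0x16000c) (nat_lit 0) (p (nat_lit 0x50612) (nat_lit 0) (p (nat_lit 0x40592) (nat_lit 0) (p (nat_lit 0x40492) (nat_lit 0) (p (nat_lit 0x30412) (nat_lit 0) (p (nat_lit 0x30212) (nat_lit 0) (p (nat_lit 0x20192) (nat_lit 0) (p (nat_lit 0x20092) (nat_lit 0) (p (nat_lit 0x10012) (nat_lit 0) pn)))))))))))))))))))))))) :=
  Cl.node (nat_lit 0x44c2a) (nat_lit 12) (by decide +kernel) (ClAll.succ (ClAll.succ (ClAll.succ (ClAll.succ (ClAll.succ (ClAll.succ (ClAll.succ (ClAll.succ (ClAll.succ (ClAll.succ (ClAll.succ (ClAll.succ ClAll.zero n643) n644) s1223) s1224) s1225) s1226) s1227) s1228) s1229) s1230) s1231) s1232)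

def n717 : Cl (O (nat_lit 1)) (R (nat_lit 104465))
    (p (nat_lit 0x109) (nat_lit 1) (p (nat_lit 0x89) (nat_lit 1) (p (nat_lit 0xc9) (nat_lit 1) (p (nat_lit 0xc1) (nat_lit 0) (p (nat_lit 0x119) (nat_lit 1) (p (nat_lit 0xd1) (nat_lit 0) (p (nat_lit 0x81) (nat_lit 0) (p (nat_lit 0x41) (nat_lit 1) (p (nat_lit 0x8078907089a) (nat_lit 0) (p (nat_lit 0x7870886861a) (nat_lit 0) (p (nat_lit 0x800070806078a) (nat_lit 0) (p (nat_lit 0x800068785850a) (nat_lit 0) (p (nat_lit 0x587050682) (nat_lit 0) (p (nat_lit 0x506848402) (nat_lit 0) (p (nat_lit 0x160014) (nat_lit 0) (p (nat_lit 0x16000c) (nat_lit 0) (p (nat_lit 0x50612) (nat_lit 0) (p (nat_lit 0x40592) (nat_lit 0) (p (nat_lit 0x40492) (nat_lit 0) (p (nat_lit 0x30412) (nat_lit 0) (p (nat_lit 0x30212) (nat_lit 0) (p (nat_lit 0x20192) (nat_lit 0) (p (nat_lit 0x20092) (nat_lit 0) (p (nat_lit 0x10012) (nat_lit 0) pn))))))))))))))))))))))))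 :=
  Cl.node (nat_lit 0x3c4aa) (nat_lit 12) (by decide +kernel) (ClAll.succ (ClAll.succ (ClAll.succ (ClAll.succ (ClAll.succ (ClAll.succ (ClAll.succ (ClAll.succ (ClAll.succ (ClAll.succ (ClAll.succ (ClAll.succ ClAll.zero s1233) s1234) s1235) s1236) s1237) s1238) s1239) s1240) n645) s1246) s1247) s1248)

def n718 : Cl (O (nat_lit 1)) (R (nat_lit 104465))
    (p (nat_lit 0x109) (nat_lit 0) (p (nat_lit 0x89) (nat_lit 1) (p (nat_lit 0x101) (nat_lit 0) (p (nat_lit 0xc1) (nat_lit 1) (p (nat_lit 0x119) (nat_lit 1) (p (nat_lit 0xd1) (nat_lit 0) (p (nat_lit 0x81) (nat_lit 0) (p (nat_lit 0x41) (nat_lit 1) (p (nat_lit 0x8078907089a) (nat_lit 0) (p (nat_lit 0x7870886861a) (nat_lit 0) (p (nat_lit 0x800070806078a) (nat_lit 0) (p (nat_lit 0x800068785850a) (nat_lit 0) (p (nat_lit 0x587050682) (nat_lit 0) (p (nat_lit 0x506848402) (nat_lit 0) (p (nat_lit 0x160014) (nat_lit 0) (p (nat_lit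 0x16000c) (nat_lit 0) (p (nat_lit 0x50612) (nat_lit 0) (p (nat_lit 0x40592) (nat_lit 0) (p (nat_lit 0x40492) (nat_lit 0) (p (nat_lit 0x30412) (nat_lit 0) (p (nat_lit 0x30212) (nat_lit 0) (p (nat_lit 0x20192) (nat_lit 0) (p (nat_lit 0x20092) (nat_lit 0) (p (nat_lit 0x10012) (nat_lit 0) pn)))))))))))))))))))))))) :=
  Cl.node (nat_lit 0x44c2a) (nat_lit 12) (by decide +kernel) (ClAll.succ (ClAll.succ (ClAll.succ (ClAll.succ (ClAll.succ (ClAll.succ (ClAll.succ (ClAll.succ (ClAll.succ (ClAll.succ (ClAll.succ (ClAll.succ ClAll.zero n646) s1264) s1265) s1266) s1267) s1268) s1269) s1270) s1271) s1272) s1273) s1274)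

def n719 : Cl (O (nat_lit 1)) (R (nat_lit 104465))
    (p (nat_lit 0x109) (nat_lit 1) (p (nat_lit 0x89) (nat_lit 1) (p (nat_lit 0x101) (nat_lit 0) (p (nat_lit 0xc1) (nat_lit 1) (p (nat_lit 0x119) (nat_lit 1) (p (nat_lit 0xd1) (nat_lit 0) (p (nat_lit 0x81) (nat_lit 0) (p (nat_lit 0x41) (nat_lit 1) (p (nat_lit 0x8078907089a) (nat_lit 0) (p (nat_lit 0x7870886861a) (nat_lit 0) (p (nat_lit 0x800070806078a) (nat_lit 0) (p (nat_lit 0x800068785850a) (nat_lit 0) (p (nat_lit 0x587050682) (nat_lit 0) (p (nat_lit 0x506848402) (nat_lit 0) (p (nat_lit 0x160014) (nat_lit 0) (p (nat_lit 0x16000c) (nat_lit 0) (p (nat_lit 0x50612) (nat_lit 0) (p (nat_lit 0x40592) (nat_lit 0) (p (nat_lit 0x40492) (nat_lit 0) (p (nat_lit 0x30412) (nat_lit 0) (p (nat_lit 0x30212) (nat_lit 0) (p (nat_lit 0x20192) (nat_lit 0) (p (nat_lit 0x20092) (nat_lit 0) (p (nat_lit 0x10012) (nat_lit 0) pn))))))))))))))))))))))))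 :=
  Cl.node (nat_lit 0x3c4aa) (nat_lit 12) (by decide +kernel) (ClAll.succ (ClAll.succ (ClAll.succ (ClAll.succ (ClAll.succ (ClAll.succ (ClAll.succ (ClAll.succ (ClAll.succ (ClAll.succ (ClAll.succ (ClAll.succ ClAll.zero s1275) s1276) s1277) s1278) s1279) s1280) s1281) n647) n648) s1306) s1307) s1308)

def n720 : Cl (O (nat_lit 1)) (R (nat_lit 104465))
    (p (nat_lit 0x3cc2a) (nat_lit 2) (p (nat_lit 0x89) (nat_lit 0) (p (nat_lit 0x101) (nat_lit 1) (p (nat_lit 0xc1) (nat_lit 1) (p (nat_lit 0x119) (nat_lit 1) (p (nat_lit 0xd1) (nat_lit 0) (p (nat_lit 0x81) (nat_lit 0) (p (nat_lit 0x41) (nat_lit 1) (p (nat_lit 0x8078907089a) (nat_lit 0) (p (nat_lit 0x7870886861a) (nat_lit 0) (p (nat_lit 0x800070806078a) (nat_lit 0) (p (nat_lit 0x800068785850a) (nat_lit 0) (p (nat_lit 0x587050682) (nat_lit 0) (p (nat_lit 0x506848402) (nat_lit 0) (p (nat_lit 0x160014) (nat_lit 0) (p (nat_lit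 0x16000c) (nat_lit 0) (p (nat_lit 0x50612) (nat_lit 0) (p (nat_lit 0x40592) (nat_lit 0) (p (nat_lit 0x40492) (nat_lit 0) (p (nat_lit 0x30412) (nat_lit 0) (p (nat_lit 0x30212) (nat_lit 0) (p (nat_lit 0x20192) (nat_lit 0) (p (nat_lit 0x20092) (nat_lit 0) (p (nat_lit 0x10012) (nat_lit 0) pn)))))))))))))))))))))))) :=
  Cl.node (nat_lit 0x380c2) (nat_lit 1) (by decide +kernel) (ClAll.succ ClAll.zero n649)

def n721 : Cl (O (nat_lit 1)) (R (nat_lit 104465))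
    (p (nat_lit 0x3c4aa) (nat_lit 7) (p (nat_lit 0x89) (nat_lit 1) (p (nat_lit 0x101) (nat_lit 1) (p (nat_lit 0xc1) (nat_lit 1) (p (nat_lit 0x119) (nat_lit 1) (p (nat_lit 0xd1) (nat_lit 0) (p (nat_lit 0x81) (nat_lit 0) (p (nat_lit 0x41) (nat_lit 1) (p (nat_lit 0x8078907089a) (nat_lit 0) (p (nat_lit 0x7870886861a) (nat_lit 0) (p (nat_lit 0x800070806078a) (nat_lit 0) (p (nat_lit 0x800068785850a) (nat_lit 0) (p (nat_lit 0x587050682) (nat_lit 0) (p (nat_lit 0x506848402) (nat_lit 0) (p (nat_lit 0x160014) (nat_lit 0) (p (nat_lit 0x16000c) (nat_lit 0) (p (nat_lit 0x50612) (nat_lit 0) (p (nat_lit 0x40592) (nat_lit 0) (p (nat_lit 0x40492) (nat_lit 0) (p (nat_lit 0x30412) (nat_lit 0) (p (nat_lit 0x30212) (nat_lit 0) (p (nat_lit 0x20192) (nat_lit 0) (p (nat_lit 0x20092) (nat_lit 0) (p (nat_lit 0x10012) (nat_lit 0) pn)))))))))))))))))))))))) :=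
  Cl.node (nat_lit 0x380c2) (nat_lit 2) (by decide +kernel) (ClAll.succ (ClAll.succ ClAll.zero s1329) s1330)

def n722 : Cl (O (nat_lit 1)) (R (nat_lit 104465))
    (p (nat_lit 0x3c4aa) (nat_lit 8) (p (nat_lit 0x89) (nat_lit 1) (p (nat_lit 0x101) (nat_lit 1) (p (nat_lit 0xc1) (nat_lit 1) (p (nat_lit 0x119) (nat_lit 1) (p (nat_lit 0xd1) (nat_lit 0) (p (nat_lit 0x81) (nat_lit 0) (p (nat_lit 0x41) (nat_lit 1) (p (nat_lit 0x8078907089a) (nat_lit 0) (p (nat_lit 0x7870886861a) (nat_lit 0) (p (nat_lit 0x800070806078a) (nat_lit 0) (p (nat_lit 0x800068785850a) (nat_lit 0) (p (nat_lit 0x587050682) (nat_lit 0) (p (nat_lit 0x506848402) (nat_lit 0) (p (nat_lit 0x160014) (nat_lit 0) (p (nat_lit 0x16000c) (nat_lit 0) (p (nat_lit 0x50612) (nat_lit 0) (p (nat_lit 0x40592) (nat_lit 0) (p (nat_lit 0x40492) (nat_lit 0) (p (nat_lit 0x30412) (nat_lit 0) (p (nat_lit 0x30212) (nat_lit 0) (p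 (nat_lit 0x20192) (nat_lit 0) (p (nat_lit 0x20092) (nat_lit 0) (p (nat_lit 0x10012) (nat_lit 0) pn)))))))))))))))))))))))) :=
  Cl.node (nat_lit 0x380c2) (nat_lit 2) (by decide +kernel) (ClAll.succ (ClAll.succ ClAll.zero n650) s1346)

def n723 : Cl (O (nat_lit 1)) (R (nat_lit 104465))
    (p (nat_lit 0x119) (nat_lit 1) (p (nat_lit 0x89) (nat_lit 0) (p (nat_lit 0x109) (nat_lit 1) (p (nat_lit 0x101) (nat_lit 0) (p (nat_lit 0x111) (nat_lit 0) (p (nat_lit 0xd1) (nat_lit 1) (p (nat_lit 0x81) (nat_lit 0) (p (nat_lit 0x41) (nat_lit 1) (p (nat_lit 0x8078907089a) (nat_lit 0) (p (nat_lit 0x7870886861a) (nat_lit 0) (p (nat_lit 0x800070806078a) (nat_lit 0) (p (nat_lit 0x800068785850a) (nat_lit 0) (p (nat_lit 0x587050682) (nat_lit 0) (p (nat_lit 0x506848402) (nat_lit 0) (p (nat_lit 0x160014) (nat_lit 0) (p (nat_lit 0x16000c) (nat_lit 0) (p (nat_lit 0x50612) (nat_lit 0) (p (nat_lit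 0x40592) (nat_lit 0) (p (nat_lit 0x40492) (nat_lit 0) (p (nat_lit 0x30412) (nat_lit 0) (p (nat_lit 0x30212) (nat_lit 0) (p (nat_lit 0x20192) (nat_lit 0) (p (nat_lit 0x20092) (nat_lit 0) (p (nat_lit 0x10012) (nat_lit 0) pn)))))))))))))))))))))))) :=
  Cl.node (nat_lit 0x4c42a) (nat_lit 12) (by decide +kernel) (ClAll.succ (ClAll.succ (ClAll.succ (ClAll.succ (ClAll.succ (ClAll.succ (ClAll.succ (ClAll.succ (ClAll.succ (ClAll.succ (ClAll.succ (ClAll.succ ClAll.zero s1352) s1353) s1354) s1355) s1356) s1357) s1358) s1359) s1360) s1361) s1362) s1363)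

def n724 : Cl (O (nat_lit 1)) (R (nat_lit 104465))
    (p (nat_lit 0xc9) (nat_lit 0) (p (nat_lit 0x89) (nat_lit 1) (p (nat_lit 0x109) (nat_lit 1) (p (nat_lit 0x101) (nat_lit 0) (p (nat_lit 0x111) (nat_lit 0) (p (nat_lit 0xd1) (nat_lit 1) (p (nat_lit 0x81) (nat_lit 0) (p (nat_lit 0x41) (nat_lit 1) (p (nat_lit 0x8078907089a) (nat_lit 0) (p (nat_lit 0x7870886861a) (nat_lit 0) (p (nat_lit 0x800070806078a) (nat_lit 0) (p (nat_lit 0x800068785850a) (nat_lit 0) (p (nat_lit 0x587050682) (nat_lit 0) (p (nat_lit 0x506848402) (nat_lit 0) (p (nat_lit 0x160014) (nat_lit 0) (p (nat_lit 0x16000c) (nat_lit 0) (p (nat_lit 0x50612) (nat_lit 0) (p (nat_lit 0x40592) (nat_lit 0) (p (nat_lit 0x40492) (nat_lit 0) (p (nat_lit 0x30412) (nat_lit 0) (p (nat_lit 0x30212) (nat_lit 0) (p (nat_lit 0x20192) (nat_lit 0) (p (nat_lit 0x20092) (nat_lit 0) (p (nat_lit 0x10012) (nat_lit 0) pn))))))))))))))))))))))))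 :=
  Cl.node (nat_lit 0x119) (nat_lit 2) (by decide +kernel) (ClAll.succ (ClAll.succ ClAll.zero n651) n652)

def n725 : Cl (O (nat_lit 1)) (R (nat_lit 104465))
    (p (nat_lit 0xc9) (nat_lit 1) (p (nat_lit 0x89) (nat_lit 1) (p (nat_lit 0x109) (nat_lit 1) (p (nat_lit 0x101) (nat_lit 0) (p (nat_lit 0x111) (nat_lit 0) (p (nat_lit 0xd1) (nat_lit 1) (p (nat_lit 0x81) (nat_lit 0) (p (nat_lit 0x41) (nat_lit 1) (p (nat_lit 0x8078907089a) (nat_lit 0) (p (nat_lit 0x7870886861a) (nat_lit 0) (p (nat_lit 0x800070806078a) (nat_lit 0) (p (nat_lit 0x800068785850a) (nat_lit 0) (p (nat_lit 0x587050682) (nat_lit 0) (p (nat_lit 0x506848402) (nat_lit 0) (p (nat_lit 0x160014) (nat_lit 0) (p (nat_lit 0x16000c) (nat_lit 0) (p (nat_lit 0x50612) (nat_lit 0) (p (nat_lit 0x40592) (nat_lit 0) (p (nat_lit 0x40492) (nat_lit 0) (p (nat_lit 0x30412) (nat_lit 0) (p (nat_lit 0x30212) (nat_lit 0) (p (nat_lit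 0x20192) (nat_lit 0) (p (nat_lit 0x20092) (nat_lit 0) (p (nat_lit 0x10012) (nat_lit 0) pn)))))))))))))))))))))))) :=
  Cl.node (nat_lit 0x4c42a) (nat_lit 12) (by decide +kernel) (ClAll.succ (ClAll.succ (ClAll.succ (ClAll.succ (ClAll.succ (ClAll.succ (ClAll.succ (ClAll.succ (ClAll.succ (ClAll.succ (ClAll.succ (ClAll.succ ClAll.zero s1485) s1486) s1487) s1488) s1489) s1490) s1491) s1492) s1493) s1494) n653) s1497)

def n726 : Cl (O (nat_lit 1)) (R (nat_lit 104465))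
    (p (nat_lit 0x380c2) (nat_lit 1) (p (nat_lit 0x3cc2a) (nat_lit 0) (p (nat_lit 0x89) (nat_lit 0) (p (nat_lit 0x101) (nat_lit 1) (p (nat_lit 0x111) (nat_lit 0) (p (nat_lit 0xd1) (nat_lit 1) (p (nat_lit 0x81) (nat_lit 0) (p (nat_lit 0x41) (nat_lit 1) (p (nat_lit 0x8078907089a) (nat_lit 0) (p (nat_lit 0x7870886861a) (nat_lit 0) (p (nat_lit 0x800070806078a) (nat_lit 0) (p (nat_lit 0x800068785850a) (nat_lit 0) (p (nat_lit 0x587050682) (nat_lit 0) (p (nat_lit 0x506848402) (nat_lit 0) (p (nat_lit 0x160014) (nat_lit 0) (p (nat_lit 0x16000c) (nat_lit 0) (p (nat_lit 0x50612) (nat_lit 0) (p (nat_lit 0x40592) (nat_lit 0) (p (nat_lit 0x40492) (nat_lit 0) (p (nat_lit 0x30412) (nat_lit 0) (p (nat_lit 0x30212) (nat_lit 0) (p (nat_lit 0x20192) (nat_lit 0) (p (nat_lit 0x20092) (nat_lit 0) (p (nat_lit 0x10012) (nat_lit 0) pn)))))))))))))))))))))))) :=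
  Cl.node (nat_lit 0x200004) (nat_lit 2) (by decide +kernel) (ClAll.succ (ClAll.succ ClAll.zero s1499) s1500)

def n727 : Cl (O (nat_lit 1)) (R (nat_lit 104465))
    (p (nat_lit 0x380c2) (nat_lit 0) (p (nat_lit 0x3cc2a) (nat_lit 1) (p (nat_lit 0x89) (nat_lit 0) (p (nat_lit 0x101) (nat_lit 1) (p (nat_lit 0x111) (nat_lit 0) (p (nat_lit 0xd1) (nat_lit 1) (p (nat_lit 0x81) (nat_lit 0) (p (nat_lit 0x41) (nat_lit 1) (p (nat_lit 0x8078907089a) (nat_lit 0) (p (nat_lit 0x7870886861a) (nat_lit 0) (p (nat_lit 0x800070806078a) (nat_lit 0) (p (nat_lit 0x800068785850a) (nat_lit 0) (p (nat_lit 0x587050682) (nat_lit 0) (p (nat_lit 0x506848402) (nat_lit 0) (p (nat_lit 0x160014) (nat_lit 0) (p (nat_lit 0x16000c) (nat_lit 0) (p (nat_lit 0x50612) (nat_lit 0) (p (nat_lit 0x40592) (nat_lit 0) (p (nat_lit 0x40492) (nat_lit 0) (p (nat_lit 0x30412) (nat_lit 0) (p (nat_lit 0x30212) (nat_lit 0)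 (p (nat_lit 0x20192) (nat_lit 0) (p (nat_lit 0x20092) (nat_lit 0) (p (nat_lit 0x10012) (nat_lit 0) pn)))))))))))))))))))))))) :=
  Cl.node (nat_lit 0xc9) (nat_lit 2) (by decide +kernel) (ClAll.succ (ClAll.succ ClAll.zero s1501) n654)

def n728 : Cl (O (nat_lit 1)) (R (nat_lit 104465))
    (p (nat_lit 0x380c2) (nat_lit 0) (p (nat_lit 0x3cc2a) (nat_lit 2) (p (nat_lit 0x89) (nat_lit 0) (p (nat_lit 0x101) (nat_lit 1) (p (nat_lit 0x111) (nat_lit 0) (p (nat_lit 0xd1) (nat_lit 1) (p (nat_lit 0x81) (nat_lit 0) (p (nat_lit 0x41) (nat_lit 1) (p (nat_lit 0x8078907089a) (nat_lit 0) (p (nat_lit 0x7870886861a) (nat_lit 0) (p (nat_lit 0x800070806078a) (nat_lit 0) (p (nat_lit 0x800068785850a) (nat_lit 0) (p (nat_lit 0x587050682) (nat_lit 0) (p (nat_lit 0x506848402) (nat_lit 0) (p (nat_lit 0x160014) (nat_lit 0) (p (nat_lit 0x16000c) (nat_lit 0) (p (nat_lit 0x50612) (nat_lit 0) (p (nat_lit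 0x40592) (nat_lit 0) (p (nat_lit 0x40492) (nat_lit 0) (p (nat_lit 0x30412) (nat_lit 0) (p (nat_lit 0x30212) (nat_lit 0) (p (nat_lit 0x20192) (nat_lit 0) (p (nat_lit 0x20092) (nat_lit 0) (p (nat_lit 0x10012) (nat_lit 0) pn)))))))))))))))))))))))) :=
  Cl.node (nat_lit 0xc9) (nat_lit 2) (by decide +kernel) (ClAll.succ (ClAll.succ ClAll.zero s1504) n655)

def n729 : Cl (O (nat_lit 1)) (R (nat_lit 104465))
    (p (nat_lit 0x3cc2a) (nat_lit 0) (p (nat_lit 0xc9) (nat_lit 0) (p (nat_lit 0x89) (nat_lit 1) (p (nat_lit 0x101) (nat_lit 1) (p (nat_lit 0x111) (nat_lit 0) (p (nat_lit 0xd1) (nat_lit 1) (p (nat_lit 0x81) (nat_lit 0) (p (nat_lit 0x41) (nat_lit 1) (p (nat_lit 0x8078907089a) (nat_lit 0) (p (nat_lit 0x7870886861a) (nat_lit 0) (p (nat_lit 0x800070806078a) (nat_lit 0) (p (nat_lit 0x800068785850a) (nat_lit 0) (p (nat_lit 0x587050682) (nat_lit 0) (p (nat_lit 0x506848402) (nat_lit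 0) (p (nat_lit 0x160014) (nat_lit 0) (p (nat_lit 0x16000c) (nat_lit 0) (p (nat_lit 0x50612) (nat_lit 0) (p (nat_lit 0x40592) (nat_lit 0) (p (nat_lit 0x40492) (nat_lit 0) (p (nat_lit 0x30412) (nat_lit 0) (p (nat_lit 0x30212) (nat_lit 0) (p (nat_lit 0x20192) (nat_lit 0) (p (nat_lit 0x20092) (nat_lit 0) (p (nat_lit 0x10012) (nat_lit 0) pn)))))))))))))))))))))))) :=
  Cl.node (nat_lit 0x380c2) (nat_lit 2) (by decide +kernel) (ClAll.succ (ClAll.succ ClAll.zero s1519) n656)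

def n730 : Cl (O (nat_lit 1)) (R (nat_lit 104465))
    (p (nat_lit 0x3cc2a) (nat_lit 1) (p (nat_lit 0xc9) (nat_lit 0) (p (nat_lit 0x89) (nat_lit 1) (p (nat_lit 0x101) (nat_lit 1) (p (nat_lit 0x111) (nat_lit 0) (p (nat_lit 0xd1) (nat_lit 1) (p (nat_lit 0x81) (nat_lit 0) (p (nat_lit 0x41) (nat_lit 1) (p (nat_lit 0x8078907089a) (nat_lit 0) (p (nat_lit 0x7870886861a) (nat_lit 0) (p (nat_lit 0x800070806078a) (nat_lit 0) (p (nat_lit 0x800068785850a) (nat_lit 0) (p (nat_lit 0x587050682) (nat_lit 0) (p (nat_lit 0x506848402) (nat_lit 0) (p (nat_lit 0x160014) (nat_lit 0) (p (nat_lit 0x16000c) (nat_lit 0) (p (nat_lit 0x50612) (nat_lit 0) (p (nat_lit 0x40592) (nat_lit 0) (p (nat_lit 0x40492) (nat_lit 0) (p (nat_lit 0x30412) (nat_lit 0) (p (nat_lit 0x30212) (nat_lit 0) (p (nat_lit 0x20192) (nat_lit 0) (p (nat_lit 0x20092) (nat_lit 0) (p (nat_lit 0x10012) (nat_lit 0) pn))))))))))))))))))))))))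 :=
  Cl.node (nat_lit 0x380c2) (nat_lit 1) (by decide +kernel) (ClAll.succ ClAll.zero n657)

def n731 : Cl (O (nat_lit 1)) (R (nat_lit 104465))
    (p (nat_lit 0x3cc2a) (nat_lit 2) (p (nat_lit 0xc9) (nat_lit 0) (p (nat_lit 0x89) (nat_lit 1) (p (nat_lit 0x101) (nat_lit 1) (p (nat_lit 0x111) (nat_lit 0) (p (nat_lit 0xd1) (nat_lit 1) (p (nat_lit 0x81) (nat_lit 0) (p (nat_lit 0x41) (nat_lit 1) (p (nat_lit 0x8078907089a) (nat_lit 0) (p (nat_lit 0x7870886861a) (nat_lit 0) (p (nat_lit 0x800070806078a) (nat_lit 0) (p (nat_lit 0x800068785850a) (nat_lit 0) (p (nat_lit 0x587050682) (nat_lit 0) (p (nat_lit 0x506848402) (nat_lit 0) (p (nat_lit 0x160014) (nat_lit 0) (p (nat_lit 0x16000c) (nat_lit 0) (p (nat_lit 0x50612) (nat_lit 0) (p (nat_lit 0x40592) (nat_lit 0) (p (nat_lit 0x40492) (nat_lit 0) (p (nat_lit 0x30412) (nat_lit 0) (p (nat_lit 0x30212) (nat_lit 0) (p (nat_lit 0x20192)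 (nat_lit 0) (p (nat_lit 0x20092) (nat_lit 0) (p (nat_lit 0x10012) (nat_lit 0) pn)))))))))))))))))))))))) :=
  Cl.node (nat_lit 0x380c2) (nat_lit 1) (by decide +kernel) (ClAll.succ ClAll.zero n658)

def n732 : Cl (O (nat_lit 1)) (R (nat_lit 104465))
    (p (nat_lit 0x3c4aa) (nat_lit 8) (p (nat_lit 0xc9) (nat_lit 1) (p (nat_lit 0x89) (nat_lit 1) (p (nat_lit 0x101) (nat_lit 1) (p (nat_lit 0x111) (nat_lit 0) (p (nat_lit 0xd1) (nat_lit 1) (p (nat_lit 0x81) (nat_lit 0) (p (nat_lit 0x41) (nat_lit 1) (p (nat_lit 0x8078907089a) (nat_lit 0) (p (nat_lit 0x7870886861a) (nat_lit 0) (p (nat_lit 0x800070806078a) (nat_lit 0) (p (nat_lit 0x800068785850a) (nat_lit 0) (p (nat_lit 0x587050682) (nat_lit 0) (p (nat_lit 0x506848402) (nat_lit 0) (p (nat_lit 0x160014) (nat_lit 0) (p (nat_lit 0x16000c) (nat_lit 0) (p (nat_lit 0x50612) (nat_lit 0) (p (nat_lit 0x40592) (nat_lit 0) (p (nat_lit 0x40492)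 (nat_lit 0) (p (nat_lit 0x30412) (nat_lit 0) (p (nat_lit 0x30212) (nat_lit 0) (p (nat_lit 0x20192) (nat_lit 0) (p (nat_lit 0x20092) (nat_lit 0) (p (nat_lit 0x10012) (nat_lit 0) pn)))))))))))))))))))))))) :=
  Cl.node (nat_lit 0x380c2) (nat_lit 2) (by decide +kernel) (ClAll.succ (ClAll.succ ClAll.zero s1567) s1568)

def n733 : Cl (O (nat_lit 1)) (R (nat_lit 104465))
    (p (nat_lit 0x3cc2a) (nat_lit 2) (p (nat_lit 0x109) (nat_lit 0) (p (nat_lit 0xc9) (nat_lit 1) (p (nat_lit 0x89) (nat_lit 1) (p (nat_lit 0x111) (nat_lit 1) (p (nat_lit 0xd1) (nat_lit 1) (p (nat_lit 0x81) (nat_lit 0) (p (nat_lit 0x41) (nat_lit 1) (p (nat_lit 0x8078907089a) (nat_lit 0) (p (nat_lit 0x7870886861a) (nat_lit 0) (p (nat_lit 0x800070806078a) (nat_lit 0) (p (nat_lit 0x800068785850a) (nat_lit 0) (p (nat_lit 0x587050682) (nat_lit 0) (p (nat_lit 0x506848402) (nat_lit 0) (p (nat_lit 0x160014) (nat_lit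 0) (p (nat_lit 0x16000c) (nat_lit 0) (p (nat_lit 0x50612) (nat_lit 0) (p (nat_lit 0x40592) (nat_lit 0) (p (nat_lit 0x40492) (nat_lit 0) (p (nat_lit 0x30412) (nat_lit 0) (p (nat_lit 0x30212) (nat_lit 0) (p (nat_lit 0x20192) (nat_lit 0) (p (nat_lit 0x20092) (nat_lit 0) (p (nat_lit 0x10012) (nat_lit 0) pn)))))))))))))))))))))))) :=
  Cl.node (nat_lit 0x380c2) (nat_lit 1) (by decide +kernel) (ClAll.succ ClAll.zero n659)

def n734 : Cl (O (nat_lit 1)) (R (nat_lit 104465))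
    (p (nat_lit 0x3c4aa) (nat_lit 8) (p (nat_lit 0x109) (nat_lit 1) (p (nat_lit 0xc9) (nat_lit 1) (p (nat_lit 0x89) (nat_lit 1) (p (nat_lit 0x111) (nat_lit 1) (p (nat_lit 0xd1) (nat_lit 1) (p (nat_lit 0x81) (nat_lit 0) (p (nat_lit 0x41) (nat_lit 1) (p (nat_lit 0x8078907089a) (nat_lit 0) (p (nat_lit 0x7870886861a) (nat_lit 0) (p (nat_lit 0x800070806078a) (nat_lit 0) (p (nat_lit 0x800068785850a) (nat_lit 0) (p (nat_lit 0x587050682) (nat_lit 0) (p (nat_lit 0x506848402) (nat_lit 0) (p (nat_lit 0x160014) (nat_lit 0) (p (nat_lit 0x16000c) (nat_lit 0) (p (nat_lit 0x50612) (nat_lit 0) (p (nat_lit 0x40592) (nat_lit 0) (p (nat_lit 0x40492) (nat_lit 0) (p (nat_lit 0x30412) (nat_lit 0) (p (nat_lit 0x30212) (nat_lit 0) (p (nat_lit 0x20192) (nat_lit 0) (p (nat_lit 0x20092) (nat_lit 0) (p (nat_lit 0x10012) (nat_lit 0) pn)))))))))))))))))))))))) :=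
  Cl.node (nat_lit 0x380c2) (nat_lit 2) (by decide +kernel) (ClAll.succ (ClAll.succ ClAll.zero s1596) s1597)

def n735 : Cl (O (nat_lit 1)) (R (nat_lit 104465))
    (p (nat_lit 0xd1) (nat_lit 1) (p (nat_lit 0x111) (nat_lit 1) (p (nat_lit 0x109) (nat_lit 0) (p (nat_lit 0x101) (nat_lit 0) (p (nat_lit 0x119) (nat_lit 0) (p (nat_lit 0xc1) (nat_lit 0) (p (nat_lit 0x81) (nat_lit 1) (p (nat_lit 0x41) (nat_lit 1) (p (nat_lit 0x8078907089a) (nat_lit 0) (p (nat_lit 0x7870886861a) (nat_lit 0) (p (nat_lit 0x800070806078a) (nat_lit 0) (p (nat_lit 0x800068785850a) (nat_lit 0) (p (nat_lit 0x587050682) (nat_lit 0) (p (nat_lit 0x506848402) (nat_lit 0) (p (nat_lit 0x160014) (nat_lit 0) (p (nat_lit 0x16000c) (nat_lit 0) (p (nat_lit 0x50612) (nat_lit 0) (p (nat_lit 0x40592) (nat_lit 0) (p (nat_lit 0x40492) (nat_lit 0) (p (nat_lit 0x30412) (nat_lit 0) (p (nat_lit 0x30212) (nat_lit 0) (p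 (nat_lit 0x20192) (nat_lit 0) (p (nat_lit 0x20092) (nat_lit 0) (p (nat_lit 0x10012) (nat_lit 0) pn)))))))))))))))))))))))) :=
  Cl.node (nat_lit 0x3c4aa) (nat_lit 12) (by decide +kernel) (ClAll.succ (ClAll.succ (ClAll.succ (ClAll.succ (ClAll.succ (ClAll.succ (ClAll.succ (ClAll.succ (ClAll.succ (ClAll.succ (ClAll.succ (ClAll.succ ClAll.zero s1603) s1604) s1605) s1606) s1607) s1608) s1609) n660) n661) s1622) s1623) s1624)

def n736 : Cl (O (nat_lit 1)) (R (nat_lit 104465))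
    (p (nat_lit 0xd1) (nat_lit 1) (p (nat_lit 0xc9) (nat_lit 0) (p (nat_lit 0x109) (nat_lit 1) (p (nat_lit 0x101) (nat_lit 0) (p (nat_lit 0x119) (nat_lit 0) (p (nat_lit 0xc1) (nat_lit 0) (p (nat_lit 0x81) (nat_lit 1) (p (nat_lit 0x41) (nat_lit 1) (p (nat_lit 0x8078907089a) (nat_lit 0) (p (nat_lit 0x7870886861a) (nat_lit 0) (p (nat_lit 0x800070806078a) (nat_lit 0) (p (nat_lit 0x800068785850a) (nat_lit 0) (p (nat_lit 0x587050682) (nat_lit 0) (p (nat_lit 0x506848402) (nat_lit 0) (p (nat_lit 0x160014) (nat_lit 0) (p (nat_lit 0x16000c) (nat_lit 0) (p (nat_lit 0x50612) (nat_lit 0) (p (nat_lit 0x40592) (nat_lit 0) (p (nat_lit 0x40492) (nat_lit 0) (p (nat_lit 0x30412) (nat_lit 0) (p (nat_lit 0x30212) (nat_lit 0) (p (nat_lit 0x20192) (nat_lit 0) (p (nat_lit 0x20092) (nat_lit 0) (p (nat_lit 0x10012) (nat_lit 0) pn)))))))))))))))))))))))) :=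
  Cl.node (nat_lit 0x3c4aa) (nat_lit 12) (by decide +kernel) (ClAll.succ (ClAll.succ (ClAll.succ (ClAll.succ (ClAll.succ (ClAll.succ (ClAll.succ (ClAll.succ (ClAll.succ (ClAll.succ (ClAll.succ (ClAll.succ ClAll.zero s1626) s1627) s1628) s1629) s1630) s1631) s1632) n662) n663) s1638) s1639) s1640)

def n737 : Cl (O (nat_lit 1)) (R (nat_lit 104465))
    (p (nat_lit 0x44c2a) (nat_lit 0) (p (nat_lit 0xd1) (nat_lit 0) (p (nat_lit 0xc9) (nat_lit 0) (p (nat_lit 0x101) (nat_lit 1) (p (nat_lit 0x119) (nat_lit 0) (p (nat_lit 0xc1) (nat_lit 0) (p (nat_lit 0x81) (nat_lit 1) (p (nat_lit 0x41) (nat_lit 1) (p (nat_lit 0x8078907089a) (nat_lit 0) (p (nat_lit 0x7870886861a) (nat_lit 0) (p (nat_lit 0x800070806078a) (nat_lit 0) (p (nat_lit 0x800068785850a) (nat_lit 0) (p (nat_lit 0x587050682) (nat_lit 0) (p (nat_lit 0x506848402) (nat_lit 0) (p (nat_lit 0x160014) (nat_lit 0) (p (nat_lit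 0x16000c) (nat_lit 0) (p (nat_lit 0x50612) (nat_lit 0) (p (nat_lit 0x40592) (nat_lit 0) (p (nat_lit 0x40492) (nat_lit 0) (p (nat_lit 0x30412) (nat_lit 0) (p (nat_lit 0x30212) (nat_lit 0) (p (nat_lit 0x20192) (nat_lit 0) (p (nat_lit 0x20092) (nat_lit 0) (p (nat_lit 0x10012) (nat_lit 0) pn)))))))))))))))))))))))) :=
  Cl.node (nat_lit 0x380c2) (nat_lit 2) (by decide +kernel) (ClAll.succ (ClAll.succ ClAll.zero n664) n665)

def n738 : Cl (O (nat_lit 1)) (R (nat_lit 104465))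
    (p (nat_lit 0x44c2a) (nat_lit 1) (p (nat_lit 0xd1) (nat_lit 0) (p (nat_lit 0xc9) (nat_lit 0) (p (nat_lit 0x101) (nat_lit 1) (p (nat_lit 0x119) (nat_lit 0) (p (nat_lit 0xc1) (nat_lit 0) (p (nat_lit 0x81) (nat_lit 1) (p (nat_lit 0x41) (nat_lit 1) (p (nat_lit 0x8078907089a) (nat_lit 0) (p (nat_lit 0x7870886861a) (nat_lit 0) (p (nat_lit 0x800070806078a) (nat_lit 0) (p (nat_lit 0x800068785850a) (nat_lit 0) (p (nat_lit 0x587050682) (nat_lit 0) (p (nat_lit 0x506848402) (nat_lit 0) (p (nat_lit 0x160014) (nat_lit 0) (p (nat_lit 0x16000c) (nat_lit 0) (p (nat_lit 0x50612) (nat_lit 0) (p (nat_lit 0x40592) (nat_lit 0) (p (nat_lit 0x40492) (nat_lit 0) (p (nat_lit 0x30412) (nat_lit 0) (p (nat_lit 0x30212) (nat_lit 0) (p (nat_lit 0x20192) (nat_lit 0) (p (nat_lit 0x20092) (nat_lit 0) (p (nat_lit 0x10012) (nat_lit 0) pn)))))))))))))))))))))))) :=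
  Cl.node (nat_lit 0x380c2) (nat_lit 1) (by decide +kernel) (ClAll.succ ClAll.zero n666)

def n739 : Cl (O (nat_lit 1)) (R (nat_lit 104465))
    (p (nat_lit 0x3c4aa) (nat_lit 7) (p (nat_lit 0xd1) (nat_lit 1) (p (nat_lit 0xc9) (nat_lit 0) (p (nat_lit 0x101) (nat_lit 1) (p (nat_lit 0x119) (nat_lit 0) (p (nat_lit 0xc1) (nat_lit 0) (p (nat_lit 0x81) (nat_lit 1) (p (nat_lit 0x41) (nat_lit 1) (p (nat_lit 0x8078907089a) (nat_lit 0) (p (nat_lit 0x7870886861a) (nat_lit 0) (p (nat_lit 0x800070806078a) (nat_lit 0) (p (nat_lit 0x800068785850a) (nat_lit 0) (p (nat_lit 0x587050682) (nat_lit 0) (p (nat_lit 0x506848402) (nat_lit 0) (p (nat_lit 0x160014) (nat_lit 0) (p (nat_lit 0x16000c) (nat_lit 0) (p (nat_lit 0x50612) (nat_lit 0) (p (nat_lit 0x40592) (nat_lit 0) (p (nat_lit 0x40492) (nat_lit 0) (p (nat_lit 0x30412) (nat_lit 0) (p (nat_lit 0x30212) (nat_lit 0) (p (nat_lit 0x20192) (nat_lit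 0) (p (nat_lit 0x20092) (nat_lit 0) (p (nat_lit 0x10012) (nat_lit 0) pn)))))))))))))))))))))))) :=
  Cl.node (nat_lit 0x380c2) (nat_lit 2) (by decide +kernel) (ClAll.succ (ClAll.succ ClAll.zero s1684) n667)

def n740 : Cl (O (nat_lit 1)) (R (nat_lit 104465))
    (p (nat_lit 0x3c4aa) (nat_lit 8) (p (nat_lit 0xd1) (nat_lit 1) (p (nat_lit 0xc9) (nat_lit 0) (p (nat_lit 0x101) (nat_lit 1) (p (nat_lit 0x119) (nat_lit 0) (p (nat_lit 0xc1) (nat_lit 0) (p (nat_lit 0x81) (nat_lit 1) (p (nat_lit 0x41) (nat_lit 1) (p (nat_lit 0x8078907089a) (nat_lit 0) (p (nat_lit 0x7870886861a) (nat_lit 0) (p (nat_lit 0x800070806078a) (nat_lit 0) (p (nat_lit 0x800068785850a) (nat_lit 0) (p (nat_lit 0x587050682) (nat_lit 0) (p (nat_lit 0x506848402) (nat_lit 0) (p (nat_lit 0x160014) (nat_lit 0) (p (nat_lit 0x16000c) (nat_lit 0) (p (nat_lit 0x50612) (nat_lit 0) (p (nat_lit 0x40592) (nat_lit 0) (p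 (nat_lit 0x40492) (nat_lit 0) (p (nat_lit 0x30412) (nat_lit 0) (p (nat_lit 0x30212) (nat_lit 0) (p (nat_lit 0x20192) (nat_lit 0) (p (nat_lit 0x20092) (nat_lit 0) (p (nat_lit 0x10012) (nat_lit 0) pn)))))))))))))))))))))))) :=
  Cl.node (nat_lit 0x380c2) (nat_lit 2) (by decide +kernel) (ClAll.succ (ClAll.succ ClAll.zero n668) s1690)

def n741 : Cl (O (nat_lit 1)) (R (nat_lit 104465))
    (p (nat_lit 0x3c4aa) (nat_lit 8) (p (nat_lit 0x111) (nat_lit 1) (p (nat_lit 0xd1) (nat_lit 1) (p (nat_lit 0xc9) (nat_lit 0) (p (nat_lit 0x119) (nat_lit 1) (p (nat_lit 0xc1) (nat_lit 0) (p (nat_lit 0x81) (nat_lit 1) (p (nat_lit 0x41) (nat_lit 1) (p (nat_lit 0x8078907089a) (nat_lit 0) (p (nat_lit 0x7870886861a) (nat_lit 0) (p (nat_lit 0x800070806078a) (nat_lit 0) (p (nat_lit 0x800068785850a) (nat_lit 0) (p (nat_lit 0x587050682) (nat_lit 0) (p (nat_lit 0x506848402) (nat_lit 0) (p (nat_lit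 0x160014) (nat_lit 0) (p (nat_lit 0x16000c) (nat_lit 0) (p (nat_lit 0x50612) (nat_lit 0) (p (nat_lit 0x40592) (nat_lit 0) (p (nat_lit 0x40492) (nat_lit 0) (p (nat_lit 0x30412) (nat_lit 0) (p (nat_lit 0x30212) (nat_lit 0) (p (nat_lit 0x20192) (nat_lit 0) (p (nat_lit 0x20092) (nat_lit 0) (p (nat_lit 0x10012) (nat_lit 0) pn)))))))))))))))))))))))) :=
  Cl.node (nat_lit 0x380c2) (nat_lit 2) (by decide +kernel) (ClAll.succ (ClAll.succ ClAll.zero n669) s1718)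

def n742 : Cl (O (nat_lit 1)) (R (nat_lit 104465))
    (p (nat_lit 0x44c2a) (nat_lit 0) (p (nat_lit 0x111) (nat_lit 0) (p (nat_lit 0x109) (nat_lit 0) (p (nat_lit 0xc9) (nat_lit 1) (p (nat_lit 0x119) (nat_lit 1) (p (nat_lit 0xc1) (nat_lit 0) (p (nat_lit 0x81) (nat_lit 1) (p (nat_lit 0x41) (nat_lit 1) (p (nat_lit 0x8078907089a) (nat_lit 0) (p (nat_lit 0x7870886861a) (nat_lit 0) (p (nat_lit 0x800070806078a) (nat_lit 0) (p (nat_lit 0x800068785850a) (nat_lit 0) (p (nat_lit 0x587050682) (nat_lit 0) (p (nat_lit 0x506848402) (nat_lit 0) (p (nat_lit 0x160014) (nat_lit 0) (p (nat_lit 0x16000c) (nat_lit 0) (p (nat_lit 0x50612) (nat_lit 0) (p (nat_lit 0x40592) (nat_lit 0) (p (nat_lit 0x40492) (nat_lit 0) (p (nat_lit 0x30412) (nat_lit 0) (p (nat_lit 0x30212) (nat_lit 0) (p (nat_lit 0x20192) (nat_lit 0) (p (nat_lit 0x20092) (nat_lit 0) (p (nat_lit 0x10012) (nat_lit 0) pn))))))))))))))))))))))))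 :=
  Cl.node (nat_lit 0x380c2) (nat_lit 2) (by decide +kernel) (ClAll.succ (ClAll.succ ClAll.zero n670) s1725)

def n743 : Cl (O (nat_lit 1)) (R (nat_lit 104465))
    (p (nat_lit 0x44c2a) (nat_lit 1) (p (nat_lit 0x111) (nat_lit 0) (p (nat_lit 0x109) (nat_lit 0) (p (nat_lit 0xc9) (nat_lit 1) (p (nat_lit 0x119) (nat_lit 1) (p (nat_lit 0xc1) (nat_lit 0) (p (nat_lit 0x81) (nat_lit 1) (p (nat_lit 0x41) (nat_lit 1) (p (nat_lit 0x8078907089a) (nat_lit 0) (p (nat_lit 0x7870886861a) (nat_lit 0) (p (nat_lit 0x800070806078a) (nat_lit 0) (p (nat_lit 0x800068785850a) (nat_lit 0) (p (nat_lit 0x587050682) (nat_lit 0) (p (nat_lit 0x506848402) (nat_lit 0) (p (nat_lit 0x160014) (nat_lit 0) (p (nat_lit 0x16000c) (nat_lit 0) (p (nat_lit 0x50612) (nat_lit 0) (p (nat_lit 0x40592) (nat_lit 0) (p (nat_lit 0x40492) (nat_lit 0) (p (nat_lit 0x30412) (nat_lit 0) (p (nat_lit 0x30212) (nat_lit 0)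 (p (nat_lit 0x20192) (nat_lit 0) (p (nat_lit 0x20092) (nat_lit 0) (p (nat_lit 0x10012) (nat_lit 0) pn)))))))))))))))))))))))) :=
  Cl.node (nat_lit 0x380c2) (nat_lit 1) (by decide +kernel) (ClAll.succ ClAll.zero n671)

def n744 : Cl (O (nat_lit 1)) (R (nat_lit 104465))
    (p (nat_lit 0x3c4aa) (nat_lit 7) (p (nat_lit 0x111) (nat_lit 1) (p (nat_lit 0x109) (nat_lit 0) (p (nat_lit 0xc9) (nat_lit 1) (p (nat_lit 0x119) (nat_lit 1) (p (nat_lit 0xc1) (nat_lit 0) (p (nat_lit 0x81) (nat_lit 1) (p (nat_lit 0x41) (nat_lit 1) (p (nat_lit 0x8078907089a) (nat_lit 0) (p (nat_lit 0x7870886861a) (nat_lit 0) (p (nat_lit 0x800070806078a) (nat_lit 0) (p (nat_lit 0x800068785850a) (nat_lit 0) (p (nat_lit 0x587050682) (nat_lit 0) (p (nat_lit 0x506848402) (nat_lit 0) (p (nat_lit 0x160014) (nat_lit 0) (p (nat_lit 0x16000c) (nat_lit 0) (p (nat_lit 0x50612) (nat_lit 0) (p (nat_lit 0x40592) (nat_lit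 0) (p (nat_lit 0x40492) (nat_lit 0) (p (nat_lit 0x30412) (nat_lit 0) (p (nat_lit 0x30212) (nat_lit 0) (p (nat_lit 0x20192) (nat_lit 0) (p (nat_lit 0x20092) (nat_lit 0) (p (nat_lit 0x10012) (nat_lit 0) pn)))))))))))))))))))))))) :=
  Cl.node (nat_lit 0x380c2) (nat_lit 2) (by decide +kernel) (ClAll.succ (ClAll.succ ClAll.zero s1746) s1747)

def n745 : Cl (O (nat_lit 1)) (R (nat_lit 104465))
    (p (nat_lit 0x3c4aa) (nat_lit 8) (p (nat_lit 0x111) (nat_lit 1) (p (nat_lit 0x109) (nat_lit 0) (p (nat_lit 0xc9) (nat_lit 1) (p (nat_lit 0x119) (nat_lit 1) (p (nat_lit 0xc1) (nat_lit 0) (p (nat_lit 0x81) (nat_lit 1) (p (nat_lit 0x41) (nat_lit 1) (p (nat_lit 0x8078907089a) (nat_lit 0) (p (nat_lit 0x7870886861a) (nat_lit 0) (p (nat_lit 0x800070806078a) (nat_lit 0) (p (nat_lit 0x800068785850a) (nat_lit 0) (p (nat_lit 0x587050682) (nat_lit 0) (p (nat_lit 0x506848402) (nat_lit 0) (p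 (nat_lit 0x160014) (nat_lit 0) (p (nat_lit 0x16000c) (nat_lit 0) (p (nat_lit 0x50612) (nat_lit 0) (p (nat_lit 0x40592) (nat_lit 0) (p (nat_lit 0x40492) (nat_lit 0) (p (nat_lit 0x30412) (nat_lit 0) (p (nat_lit 0x30212) (nat_lit 0) (p (nat_lit 0x20192) (nat_lit 0) (p (nat_lit 0x20092) (nat_lit 0) (p (nat_lit 0x10012) (nat_lit 0) pn)))))))))))))))))))))))) :=
  Cl.node (nat_lit 0x380c2) (nat_lit 2) (by decide +kernel) (ClAll.succ (ClAll.succ ClAll.zero n672) s1751)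

def n746 : Cl (O (nat_lit 1)) (R (nat_lit 104465))
    (p (nat_lit 0xc9) (nat_lit 0) (p (nat_lit 0x109) (nat_lit 1) (p (nat_lit 0x101) (nat_lit 0) (p (nat_lit 0x119) (nat_lit 0) (p (nat_lit 0xd1) (nat_lit 0) (p (nat_lit 0x89) (nat_lit 0) (p (nat_lit 0x41) (nat_lit 0) (p (nat_lit 0x8078907089a) (nat_lit 0) (p (nat_lit 0x7870886861a) (nat_lit 0) (p (nat_lit 0x800070806078a) (nat_lit 0) (p (nat_lit 0x800068785850a) (nat_lit 0) (p (nat_lit 0x587050682) (nat_lit 0) (p (nat_lit 0x506848402) (nat_lit 0) (p (nat_lit 0x160014) (nat_lit 0) (p (nat_lit 0x16000c) (nat_lit 0) (p (nat_lit 0x50612) (nat_lit 0) (p (nat_lit 0x40592) (nat_lit 0) (p (nat_lit 0x40492) (nat_lit 0) (p (nat_lit 0x30412) (nat_lit 0) (p (nat_lit 0x30212) (nat_lit 0) (p (nat_lit 0x20192) (nat_lit 0) (p (nat_lit 0x20092) (nat_lit 0) (p (nat_lit 0x10012) (nat_lit 0) pn))))))))))))))))))))))) :=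
  Cl.node (nat_lit 0x81) (nat_lit 2) (by decide +kernel) (ClAll.succ (ClAll.succ ClAll.zero s1) s2)

def n747 : Cl (O (nat_lit 1)) (R (nat_lit 104465))
    (p (nat_lit 0xc9) (nat_lit 1) (p (nat_lit 0x109) (nat_lit 1) (p (nat_lit 0x101) (nat_lit 0) (p (nat_lit 0x119) (nat_lit 0) (p (nat_lit 0xd1) (nat_lit 0) (p (nat_lit 0x89) (nat_lit 0) (p (nat_lit 0x41) (nat_lit 0) (p (nat_lit 0x8078907089a) (nat_lit 0) (p (nat_lit 0x7870886861a) (nat_lit 0) (p (nat_lit 0x800070806078a) (nat_lit 0) (p (nat_lit 0x800068785850a) (nat_lit 0) (p (nat_lit 0x587050682) (nat_lit 0) (p (nat_lit 0x506848402) (nat_lit 0) (p (nat_lit 0x160014) (nat_lit 0) (p (nat_lit 0x16000c) (nat_lit 0) (p (nat_lit 0x50612) (nat_lit 0) (p (nat_lit 0x40592) (nat_lit 0) (p (nat_lit 0x40492) (nat_lit 0) (p (nat_lit 0x30412) (nat_lit 0) (p (nat_lit 0x30212) (nat_lit 0) (p (nat_lit 0x20192) (nat_lit 0) (p (nat_lit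 0x20092) (nat_lit 0) (p (nat_lit 0x10012) (nat_lit 0) pn))))))))))))))))))))))) :=
  Cl.node (nat_lit 0x81) (nat_lit 2) (by decide +kernel) (ClAll.succ (ClAll.succ ClAll.zero n673) n674)

def n748 : Cl (O (nat_lit 1)) (R (nat_lit 104465))
    (p (nat_lit 0xc9) (nat_lit 0) (p (nat_lit 0x81) (nat_lit 0) (p (nat_lit 0x101) (nat_lit 1) (p (nat_lit 0x119) (nat_lit 0) (p (nat_lit 0xd1) (nat_lit 0) (p (nat_lit 0x89) (nat_lit 0) (p (nat_lit 0x41) (nat_lit 0) (p (nat_lit 0x8078907089a) (nat_lit 0) (p (nat_lit 0x7870886861a) (nat_lit 0) (p (nat_lit 0x800070806078a) (nat_lit 0) (p (nat_lit 0x800068785850a) (nat_lit 0) (p (nat_lit 0x587050682) (nat_lit 0) (p (nat_lit 0x506848402) (nat_lit 0) (p (nat_lit 0x160014) (nat_lit 0) (p (nat_lit 0x16000c) (nat_lit 0) (p (nat_lit 0x50612) (nat_lit 0) (p (nat_lit 0x40592) (nat_lit 0) (p (nat_lit 0x40492) (nat_lit 0) (p (nat_lit 0x30412) (nat_lit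 0) (p (nat_lit 0x30212) (nat_lit 0) (p (nat_lit 0x20192) (nat_lit 0) (p (nat_lit 0x20092) (nat_lit 0) (p (nat_lit 0x10012) (nat_lit 0) pn))))))))))))))))))))))) :=
  Cl.node (nat_lit 0x111) (nat_lit 2) (by decide +kernel) (ClAll.succ (ClAll.succ ClAll.zero n675) s115)

def n749 : Cl (O (nat_lit 1)) (R (nat_lit 104465))
    (p (nat_lit 0xc9) (nat_lit 1) (p (nat_lit 0x81) (nat_lit 0) (p (nat_lit 0x101) (nat_lit 1) (p (nat_lit 0x119) (nat_lit 0) (p (nat_lit 0xd1) (nat_lit 0) (p (nat_lit 0x89) (nat_lit 0) (p (nat_lit 0x41) (nat_lit 0) (p (nat_lit 0x8078907089a) (nat_lit 0) (p (nat_lit 0x7870886861a) (nat_lit 0) (p (nat_lit 0x800070806078a) (nat_lit 0) (p (nat_lit 0x800068785850a) (nat_lit 0) (p (nat_lit 0x587050682) (nat_lit 0) (p (nat_lit 0x506848402) (nat_lit 0) (p (nat_lit 0x160014) (nat_lit 0) (p (nat_lit 0x16000c) (nat_lit 0) (p (nat_lit 0x50612) (nat_lit 0) (p (nat_lit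 0x40592) (nat_lit 0) (p (nat_lit 0x40492) (nat_lit 0) (p (nat_lit 0x30412) (nat_lit 0) (p (nat_lit 0x30212) (nat_lit 0) (p (nat_lit 0x20192) (nat_lit 0) (p (nat_lit 0x20092) (nat_lit 0) (p (nat_lit 0x10012) (nat_lit 0) pn))))))))))))))))))))))) :=
  Cl.node (nat_lit 0x111) (nat_lit 2) (by decide +kernel) (ClAll.succ (ClAll.succ ClAll.zero n676) n677)

def n750 : Cl (O (nat_lit 1)) (R (nat_lit 104465))
    (p (nat_lit 0xc1) (nat_lit 0) (p (nat_lit 0x81) (nat_lit 1) (p (nat_lit 0x101) (nat_lit 1) (p (nat_lit 0x119) (nat_lit 0) (p (nat_lit 0xd1) (nat_lit 0) (p (nat_lit 0x89) (nat_lit 0) (p (nat_lit 0x41) (nat_lit 0) (p (nat_lit 0x8078907089a) (nat_lit 0) (p (nat_lit 0x7870886861a) (nat_lit 0) (p (nat_lit 0x800070806078a) (nat_lit 0) (p (nat_lit 0x800068785850a) (nat_lit 0) (p (nat_lit 0x587050682) (nat_lit 0) (p (nat_lit 0x506848402) (nat_lit 0) (p (nat_lit 0x160014) (nat_lit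 0) (p (nat_lit 0x16000c) (nat_lit 0) (p (nat_lit 0x50612) (nat_lit 0) (p (nat_lit 0x40592) (nat_lit 0) (p (nat_lit 0x40492) (nat_lit 0) (p (nat_lit 0x30412) (nat_lit 0) (p (nat_lit 0x30212) (nat_lit 0) (p (nat_lit 0x20192) (nat_lit 0) (p (nat_lit 0x20092) (nat_lit 0) (p (nat_lit 0x10012) (nat_lit 0) pn))))))))))))))))))))))) :=
  Cl.node (nat_lit 0xc9) (nat_lit 2) (by decide +kernel) (ClAll.succ (ClAll.succ ClAll.zero n678) n679)

def n751 : Cl (O (nat_lit 1)) (R (nat_lit 104465))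
    (p (nat_lit 0x109) (nat_lit 1) (p (nat_lit 0xc9) (nat_lit 1) (p (nat_lit 0xc1) (nat_lit 0) (p (nat_lit 0x119) (nat_lit 1) (p (nat_lit 0xd1) (nat_lit 0) (p (nat_lit 0x89) (nat_lit 0) (p (nat_lit 0x41) (nat_lit 0) (p (nat_lit 0x8078907089a) (nat_lit 0) (p (nat_lit 0x7870886861a) (nat_lit 0) (p (nat_lit 0x800070806078a) (nat_lit 0) (p (nat_lit 0x800068785850a) (nat_lit 0) (p (nat_lit 0x587050682) (nat_lit 0) (p (nat_lit 0x506848402) (nat_lit 0) (p (nat_lit 0x160014) (nat_lit 0) (p (nat_lit 0x16000c) (nat_lit 0) (p (nat_lit 0x50612) (nat_lit 0) (p (nat_lit 0x40592) (nat_lit 0) (p (nat_lit 0x40492) (nat_lit 0) (p (nat_lit 0x30412) (nat_lit 0) (p (nat_lit 0x30212) (nat_lit 0) (p (nat_lit 0x20192) (nat_lit 0) (p (nat_lit 0x20092) (nat_lit 0) (p (nat_lit 0x10012) (nat_lit 0) pn))))))))))))))))))))))) :=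
  Cl.node (nat_lit 0x3cc2a) (nat_lit 12) (by decide +kernel) (ClAll.succ (ClAll.succ (ClAll.succ (ClAll.succ (ClAll.succ (ClAll.succ (ClAll.succ (ClAll.succ (ClAll.succ (ClAll.succ (ClAll.succ (ClAll.succ ClAll.zero n680) s237) n681) s269) s270) s271) s272) s273) s274) s275) s276) s277)

def n752 : Cl (O (nat_lit 1)) (R (nat_lit 104465))
    (p (nat_lit 0x109) (nat_lit 1) (p (nat_lit 0x81) (nat_lit 0) (p (nat_lit 0xc1) (nat_lit 1) (p (nat_lit 0x119) (nat_lit 1) (p (nat_lit 0xd1) (nat_lit 0) (p (nat_lit 0x89) (nat_lit 0) (p (nat_lit 0x41) (nat_lit 0) (p (nat_lit 0x8078907089a) (nat_lit 0) (p (nat_lit 0x7870886861a) (nat_lit 0) (p (nat_lit 0x800070806078a) (nat_lit 0) (p (nat_lit 0x800068785850a) (nat_lit 0) (p (nat_lit 0x587050682) (nat_lit 0) (p (nat_lit 0x506848402) (nat_lit 0) (p (nat_lit 0x160014) (nat_lit 0) (p (nat_lit 0x16000c) (nat_lit 0) (p (nat_lit 0x50612)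 (nat_lit 0) (p (nat_lit 0x40592) (nat_lit 0) (p (nat_lit 0x40492) (nat_lit 0) (p (nat_lit 0x30412) (nat_lit 0) (p (nat_lit 0x30212) (nat_lit 0) (p (nat_lit 0x20192) (nat_lit 0) (p (nat_lit 0x20092) (nat_lit 0) (p (nat_lit 0x10012) (nat_lit 0) pn))))))))))))))))))))))) :=
  Cl.node (nat_lit 0x3cc2a) (nat_lit 12) (by decide +kernel) (ClAll.succ (ClAll.succ (ClAll.succ (ClAll.succ (ClAll.succ (ClAll.succ (ClAll.succ (ClAll.succ (ClAll.succ (ClAll.succ (ClAll.succ (ClAll.succ ClAll.zero s279) s280) n682) s292) s293) s294) s295) s296) s297) s298) s299) s300)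

def n753 : Cl (O (nat_lit 1)) (R (nat_lit 104465))
    (p (nat_lit 0x101) (nat_lit 0) (p (nat_lit 0x81) (nat_lit 1) (p (nat_lit 0xc1) (nat_lit 1) (p (nat_lit 0x119) (nat_lit 1) (p (nat_lit 0xd1) (nat_lit 0) (p (nat_lit 0x89) (nat_lit 0) (p (nat_lit 0x41) (nat_lit 0) (p (nat_lit 0x8078907089a) (nat_lit 0) (p (nat_lit 0x7870886861a) (nat_lit 0) (p (nat_lit 0x800070806078a) (nat_lit 0) (p (nat_lit 0x800068785850a) (nat_lit 0) (p (nat_lit 0x587050682) (nat_lit 0) (p (nat_lit 0x506848402) (nat_lit 0) (p (nat_lit 0x160014) (nat_lit 0) (p (nat_lit 0x16000c) (nat_lit 0) (p (nat_lit 0x50612) (nat_lit 0) (p (nat_lit 0x40592) (nat_lit 0) (p (nat_lit 0x40492) (nat_lit 0) (p (nat_lit 0x30412) (nat_lit 0) (p (nat_lit 0x30212) (nat_lit 0) (p (nat_lit 0x20192) (nat_lit 0) (p (nat_lit 0x20092) (nat_lit 0) (p (nat_lit 0x10012) (nat_lit 0) pn))))))))))))))))))))))) :=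
  Cl.node (nat_lit 0x109) (nat_lit 2) (by decide +kernel) (ClAll.succ (ClAll.succ ClAll.zero n683) n684)

def n754 : Cl (O (nat_lit 1)) (R (nat_lit 104465))
    (p (nat_lit 0x101) (nat_lit 1) (p (nat_lit 0x81) (nat_lit 1) (p (nat_lit 0xc1) (nat_lit 1) (p (nat_lit 0x119) (nat_lit 1) (p (nat_lit 0xd1) (nat_lit 0) (p (nat_lit 0x89) (nat_lit 0) (p (nat_lit 0x41) (nat_lit 0) (p (nat_lit 0x8078907089a) (nat_lit 0) (p (nat_lit 0x7870886861a) (nat_lit 0) (p (nat_lit 0x800070806078a) (nat_lit 0) (p (nat_lit 0x800068785850a) (nat_lit 0) (p (nat_lit 0x587050682) (nat_lit 0) (p (nat_lit 0x506848402) (nat_lit 0) (p (nat_lit 0x160014) (nat_lit 0) (p (nat_lit 0x16000c) (nat_lit 0) (p (nat_lit 0x50612) (nat_lit 0) (p (nat_lit 0x40592) (nat_lit 0) (p (nat_lit 0x40492) (nat_lit 0) (p (nat_lit 0x30412) (nat_lit 0) (p (nat_lit 0x30212) (nat_lit 0) (p (nat_lit 0x20192) (nat_lit 0) (p (nat_lit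 0x20092) (nat_lit 0) (p (nat_lit 0x10012) (nat_lit 0) pn))))))))))))))))))))))) :=
  Cl.node (nat_lit 0x444aa) (nat_lit 12) (by decide +kernel) (ClAll.succ (ClAll.succ (ClAll.succ (ClAll.succ (ClAll.succ (ClAll.succ (ClAll.succ (ClAll.succ (ClAll.succ (ClAll.succ (ClAll.succ (ClAll.succ ClAll.zero s338) s339) s340) s341) s342) s343) s344) s345) s346) s347) s348) s349)

def n755 : Cl (O (nat_lit 1)) (R (nat_lit 104465))
    (p (nat_lit 0xc1) (nat_lit 0) (p (nat_lit 0x109) (nat_lit 1) (p (nat_lit 0x101) (nat_lit 0) (p (nat_lit 0x111) (nat_lit 0) (p (nat_lit 0xd1) (nat_lit 1) (p (nat_lit 0x89) (nat_lit 0) (p (nat_lit 0x41) (nat_lit 0) (p (nat_lit 0x8078907089a) (nat_lit 0) (p (nat_lit 0x7870886861a) (nat_lit 0) (p (nat_lit 0x800070806078a) (nat_lit 0) (p (nat_lit 0x800068785850a) (nat_lit 0) (p (nat_lit 0x587050682) (nat_lit 0) (p (nat_lit 0x506848402) (nat_lit 0) (p (nat_lit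 0x160014) (nat_lit 0) (p (nat_lit 0x16000c) (nat_lit 0) (p (nat_lit 0x50612) (nat_lit 0) (p (nat_lit 0x40592) (nat_lit 0) (p (nat_lit 0x40492) (nat_lit 0) (p (nat_lit 0x30412) (nat_lit 0) (p (nat_lit 0x30212) (nat_lit 0) (p (nat_lit 0x20192) (nat_lit 0) (p (nat_lit 0x20092) (nat_lit 0) (p (nat_lit 0x10012) (nat_lit 0) pn))))))))))))))))))))))) :=
  Cl.node (nat_lit 0x3cc2a) (nat_lit 12) (by decide +kernel) (ClAll.succ (ClAll.succ (ClAll.succ (ClAll.succ (ClAll.succ (ClAll.succ (ClAll.succ (ClAll.succ (ClAll.succ (ClAll.succ (ClAll.succ (ClAll.succ ClAll.zero s351) s352) n685) s355) s356) s357) s358) s359) s360) s361) s362) s363)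

def n756 : Cl (O (nat_lit 1)) (R (nat_lit 104465))
    (p (nat_lit 0xc1) (nat_lit 1) (p (nat_lit 0x109) (nat_lit 1) (p (nat_lit 0x101) (nat_lit 0) (p (nat_lit 0x111) (nat_lit 0) (p (nat_lit 0xd1) (nat_lit 1) (p (nat_lit 0x89) (nat_lit 0) (p (nat_lit 0x41) (nat_lit 0) (p (nat_lit 0x8078907089a) (nat_lit 0) (p (nat_lit 0x7870886861a) (nat_lit 0) (p (nat_lit 0x800070806078a) (nat_lit 0) (p (nat_lit 0x800068785850a) (nat_lit 0) (p (nat_lit 0x587050682) (nat_lit 0) (p (nat_lit 0x506848402) (nat_lit 0) (p (nat_lit 0x160014) (nat_lit 0) (p (nat_lit 0x16000c) (nat_lit 0) (p (nat_lit 0x50612) (nat_lit 0) (p (nat_lit 0x40592) (nat_lit 0) (p (nat_lit 0x40492) (nat_lit 0) (p (nat_lit 0x30412) (nat_lit 0) (p (nat_lit 0x30212) (nat_lit 0) (p (nat_lit 0x20192) (nat_lit 0) (p (nat_lit 0x20092) (nat_lit 0) (p (nat_lit 0x10012) (nat_lit 0) pn))))))))))))))))))))))) :=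
  Cl.node (nat_lit 0x200004) (nat_lit 2) (by decide +kernel) (ClAll.succ (ClAll.succ ClAll.zero n686) n687)

def n757 : Cl (O (nat_lit 1)) (R (nat_lit 104465))
    (p (nat_lit 0x119) (nat_lit 0) (p (nat_lit 0x81) (nat_lit 0) (p (nat_lit 0x101) (nat_lit 1) (p (nat_lit 0x111) (nat_lit 0) (p (nat_lit 0xd1) (nat_lit 1) (p (nat_lit 0x89) (nat_lit 0) (p (nat_lit 0x41) (nat_lit 0) (p (nat_lit 0x8078907089a) (nat_lit 0) (p (nat_lit 0x7870886861a) (nat_lit 0) (p (nat_lit 0x800070806078a) (nat_lit 0) (p (nat_lit 0x800068785850a) (nat_lit 0) (p (nat_lit 0x587050682) (nat_lit 0) (p (nat_lit 0x506848402) (nat_lit 0) (p (nat_lit 0x160014) (nat_lit 0) (p (nat_lit 0x16000c) (nat_lit 0) (p (nat_lit 0x50612) (nat_lit 0) (p (nat_lit 0x40592) (nat_lit 0) (p (nat_lit 0x40492) (nat_lit 0) (p (nat_lit 0x30412) (nat_lit 0) (p (nat_lit 0x30212) (nat_lit 0) (p (nat_lit 0x20192) (nat_lit 0) (p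 (nat_lit 0x20092) (nat_lit 0) (p (nat_lit 0x10012) (nat_lit 0) pn))))))))))))))))))))))) :=
  Cl.node (nat_lit 0x200004) (nat_lit 2) (by decide +kernel) (ClAll.succ (ClAll.succ ClAll.zero n688) s417)

def n758 : Cl (O (nat_lit 1)) (R (nat_lit 104465))
    (p (nat_lit 0x119) (nat_lit 1) (p (nat_lit 0x81) (nat_lit 0) (p (nat_lit 0x101) (nat_lit 1) (p (nat_lit 0x111) (nat_lit 0) (p (nat_lit 0xd1) (nat_lit 1) (p (nat_lit 0x89) (nat_lit 0) (p (nat_lit 0x41) (nat_lit 0) (p (nat_lit 0x8078907089a) (nat_lit 0) (p (nat_lit 0x7870886861a) (nat_lit 0) (p (nat_lit 0x800070806078a) (nat_lit 0) (p (nat_lit 0x800068785850a) (nat_lit 0) (p (nat_lit 0x587050682) (nat_lit 0) (p (nat_lit 0x506848402) (nat_lit 0) (p (nat_lit 0x160014) (nat_lit 0) (p (nat_lit 0x16000c) (nat_lit 0) (p (nat_lit 0x50612) (nat_lit 0) (p (nat_lit 0x40592) (nat_lit 0) (p (nat_lit 0x40492) (nat_lit 0) (p (nat_lit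 0x30412) (nat_lit 0) (p (nat_lit 0x30212) (nat_lit 0) (p (nat_lit 0x20192) (nat_lit 0) (p (nat_lit 0x20092) (nat_lit 0) (p (nat_lit 0x10012) (nat_lit 0) pn))))))))))))))))))))))) :=
  Cl.node (nat_lit 0x3cc2a) (nat_lit 12) (by decide +kernel) (ClAll.succ (ClAll.succ (ClAll.succ (ClAll.succ (ClAll.succ (ClAll.succ (ClAll.succ (ClAll.succ (ClAll.succ (ClAll.succ (ClAll.succ (ClAll.succ ClAll.zero n689) s420) n690) s425) s426) s427) s428) s429) s430) s431) s432) s433)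

def n759 : Cl (O (nat_lit 1)) (R (nat_lit 104465))
    (p (nat_lit 0xc1) (nat_lit 0) (p (nat_lit 0x81) (nat_lit 1) (p (nat_lit 0x101) (nat_lit 1) (p (nat_lit 0x111) (nat_lit 0) (p (nat_lit 0xd1) (nat_lit 1) (p (nat_lit 0x89) (nat_lit 0) (p (nat_lit 0x41) (nat_lit 0) (p (nat_lit 0x8078907089a) (nat_lit 0) (p (nat_lit 0x7870886861a) (nat_lit 0) (p (nat_lit 0x800070806078a) (nat_lit 0) (p (nat_lit 0x800068785850a) (nat_lit 0) (p (nat_lit 0x587050682) (nat_lit 0) (p (nat_lit 0x506848402) (nat_lit 0) (p (nat_lit 0x160014) (nat_lit 0) (p (nat_lit 0x16000c) (nat_lit 0) (p (nat_lit 0x50612) (nat_lit 0) (p (nat_lit 0x40592) (nat_lit 0) (p (nat_lit 0x40492) (nat_lit 0) (p (nat_lit 0x30412) (nat_lit 0) (p (nat_lit 0x30212) (nat_lit 0) (p (nat_lit 0x20192) (nat_lit 0) (p (nat_lit 0x20092) (nat_lit 0) (p (nat_lit 0x10012) (nat_lit 0) pn))))))))))))))))))))))) :=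
  Cl.node (nat_lit 0x119) (nat_lit 2) (by decide +kernel) (ClAll.succ (ClAll.succ ClAll.zero n691) n692)

def n760 : Cl (O (nat_lit 1)) (R (nat_lit 104465))
    (p (nat_lit 0x101) (nat_lit 0) (p (nat_lit 0xc1) (nat_lit 1) (p (nat_lit 0x81) (nat_lit 1) (p (nat_lit 0x111) (nat_lit 1) (p (nat_lit 0xd1) (nat_lit 1) (p (nat_lit 0x89) (nat_lit 0) (p (nat_lit 0x41) (nat_lit 0) (p (nat_lit 0x8078907089a) (nat_lit 0) (p (nat_lit 0x7870886861a) (nat_lit 0) (p (nat_lit 0x800070806078a) (nat_lit 0) (p (nat_lit 0x800068785850a) (nat_lit 0) (p (nat_lit 0x587050682) (nat_lit 0) (p (nat_lit 0x506848402) (nat_lit 0) (p (nat_lit 0x160014) (nat_lit 0) (p (nat_lit 0x16000c) (nat_lit 0) (p (nat_lit 0x50612) (nat_lit 0) (p (nat_lit 0x40592) (nat_lit 0) (p (nat_lit 0x40492) (nat_lit 0) (p (nat_lit 0x30412) (nat_lit 0) (p (nat_lit 0x30212) (nat_lit 0) (p (nat_lit 0x20192) (nat_lit 0) (p (nat_lit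 0x20092) (nat_lit 0) (p (nat_lit 0x10012) (nat_lit 0) pn))))))))))))))))))))))) :=
  Cl.node (nat_lit 0x3cc2a) (nat_lit 12) (by decide +kernel) (ClAll.succ (ClAll.succ (ClAll.succ (ClAll.succ (ClAll.succ (ClAll.succ (ClAll.succ (ClAll.succ (ClAll.succ (ClAll.succ (ClAll.succ (ClAll.succ ClAll.zero s515) s516) n693) s520) s521) s522) s523) s524) s525) s526) s527) s528)

def n761 : Cl (O (nat_lit 1)) (R (nat_lit 104465))
    (p (nat_lit 0x111) (nat_lit 1) (p (nat_lit 0x109) (nat_lit 0) (p (nat_lit 0x101) (nat_lit 0) (p (nat_lit 0x119) (nat_lit 0) (p (nat_lit 0xc9) (nat_lit 0) (p (nat_lit 0x89) (nat_lit 1) (p (nat_lit 0x41) (nat_lit 0) (p (nat_lit 0x8078907089a) (nat_lit 0) (p (nat_lit 0x7870886861a) (nat_lit 0) (p (nat_lit 0x800070806078a) (nat_lit 0) (p (nat_lit 0x800068785850a) (nat_lit 0) (p (nat_lit 0x587050682) (nat_lit 0) (p (nat_lit 0x506848402) (nat_lit 0) (p (nat_lit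 0x160014) (nat_lit 0) (p (nat_lit 0x16000c) (nat_lit 0) (p (nat_lit 0x50612) (nat_lit 0) (p (nat_lit 0x40592) (nat_lit 0) (p (nat_lit 0x40492) (nat_lit 0) (p (nat_lit 0x30412) (nat_lit 0) (p (nat_lit 0x30212) (nat_lit 0) (p (nat_lit 0x20192) (nat_lit 0) (p (nat_lit 0x20092) (nat_lit 0) (p (nat_lit 0x10012) (nat_lit 0) pn))))))))))))))))))))))) :=
  Cl.node (nat_lit 0xd1) (nat_lit 2) (by decide +kernel) (ClAll.succ (ClAll.succ ClAll.zero s531) n694)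

def n762 : Cl (O (nat_lit 1)) (R (nat_lit 104465))
    (p (nat_lit 0xd1) (nat_lit 0) (p (nat_lit 0x109) (nat_lit 1) (p (nat_lit 0x101) (nat_lit 0) (p (nat_lit 0x119) (nat_lit 0) (p (nat_lit 0xc9) (nat_lit 0) (p (nat_lit 0x89) (nat_lit 1) (p (nat_lit 0x41) (nat_lit 0) (p (nat_lit 0x8078907089a) (nat_lit 0) (p (nat_lit 0x7870886861a) (nat_lit 0) (p (nat_lit 0x800070806078a) (nat_lit 0) (p (nat_lit 0x800068785850a) (nat_lit 0) (p (nat_lit 0x587050682) (nat_lit 0) (p (nat_lit 0x506848402) (nat_lit 0) (p (nat_lit 0x160014) (nat_lit 0) (p (nat_lit 0x16000c) (nat_lit 0) (p (nat_lit 0x50612) (nat_lit 0) (p (nat_lit 0x40592) (nat_lit 0) (p (nat_lit 0x40492) (nat_lit 0) (p (nat_lit 0x30412) (nat_lit 0) (p (nat_lit 0x30212) (nat_lit 0) (p (nat_lit 0x20192) (nat_lit 0) (p (nat_lit 0x20092) (nat_lit 0) (p (nat_lit 0x10012) (nat_lit 0) pn))))))))))))))))))))))) :=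
  Cl.node (nat_lit 0x200004) (nat_lit 2) (by decide +kernel) (ClAll.succ (ClAll.succ ClAll.zero n695) n696)

def n763 : Cl (O (nat_lit 1)) (R (nat_lit 104465))
    (p (nat_lit 0xd1) (nat_lit 1) (p (nat_lit 0x109) (nat_lit 1) (p (nat_lit 0x101) (nat_lit 0) (p (nat_lit 0x119) (nat_lit 0) (p (nat_lit 0xc9) (nat_lit 0) (p (nat_lit 0x89) (nat_lit 1) (p (nat_lit 0x41) (nat_lit 0) (p (nat_lit 0x8078907089a) (nat_lit 0) (p (nat_lit 0x7870886861a) (nat_lit 0) (p (nat_lit 0x800070806078a) (nat_lit 0) (p (nat_lit 0x800068785850a) (nat_lit 0) (p (nat_lit 0x587050682) (nat_lit 0) (p (nat_lit 0x506848402) (nat_lit 0) (p (nat_lit 0x160014) (nat_lit 0) (p (nat_lit 0x16000c) (nat_lit 0) (p (nat_lit 0x50612) (nat_lit 0) (p (nat_lit 0x40592) (nat_lit 0) (p (nat_lit 0x40492) (nat_lit 0) (p (nat_lit 0x30412) (nat_lit 0) (p (nat_lit 0x30212) (nat_lit 0) (p (nat_lit 0x20192) (nat_lit 0) (p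 (nat_lit 0x20092) (nat_lit 0) (p (nat_lit 0x10012) (nat_lit 0) pn))))))))))))))))))))))) :=
  Cl.node (nat_lit 0x444aa) (nat_lit 12) (by decide +kernel) (ClAll.succ (ClAll.succ (ClAll.succ (ClAll.succ (ClAll.succ (ClAll.succ (ClAll.succ (ClAll.succ (ClAll.succ (ClAll.succ (ClAll.succ (ClAll.succ ClAll.zero s724) s725) s726) s727) s728) s729) s730) n697) s795) s796) s797) s798)

def n764 : Cl (O (nat_lit 1)) (R (nat_lit 104465))
    (p (nat_lit 0xd1) (nat_lit 0) (p (nat_lit 0xc1) (nat_lit 0) (p (nat_lit 0x101) (nat_lit 1) (p (nat_lit 0x119) (nat_lit 0) (p (nat_lit 0xc9) (nat_lit 0) (p (nat_lit 0x89) (nat_lit 1) (p (nat_lit 0x41) (nat_lit 0) (p (nat_lit 0x8078907089a) (nat_lit 0) (p (nat_lit 0x7870886861a) (nat_lit 0) (p (nat_lit 0x800070806078a) (nat_lit 0) (p (nat_lit 0x800068785850a) (nat_lit 0) (p (nat_lit 0x587050682) (nat_lit 0) (p (nat_lit 0x506848402) (nat_lit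 0) (p (nat_lit 0x160014) (nat_lit 0) (p (nat_lit 0x16000c) (nat_lit 0) (p (nat_lit 0x50612) (nat_lit 0) (p (nat_lit 0x40592) (nat_lit 0) (p (nat_lit 0x40492) (nat_lit 0) (p (nat_lit 0x30412) (nat_lit 0) (p (nat_lit 0x30212) (nat_lit 0) (p (nat_lit 0x20192) (nat_lit 0) (p (nat_lit 0x20092) (nat_lit 0) (p (nat_lit 0x10012) (nat_lit 0) pn))))))))))))))))))))))) :=
  Cl.node (nat_lit 0x200004) (nat_lit 2) (by decide +kernel) (ClAll.succ (ClAll.succ ClAll.zero n698) n699)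

def n765 : Cl (O (nat_lit 1)) (R (nat_lit 104465))
    (p (nat_lit 0xd1) (nat_lit 1) (p (nat_lit 0xc1) (nat_lit 0) (p (nat_lit 0x101) (nat_lit 1) (p (nat_lit 0x119) (nat_lit 0) (p (nat_lit 0xc9) (nat_lit 0) (p (nat_lit 0x89) (nat_lit 1) (p (nat_lit 0x41) (nat_lit 0) (p (nat_lit 0x8078907089a) (nat_lit 0) (p (nat_lit 0x7870886861a) (nat_lit 0) (p (nat_lit 0x800070806078a) (nat_lit 0) (p (nat_lit 0x800068785850a) (nat_lit 0) (p (nat_lit 0x587050682) (nat_lit 0) (p (nat_lit 0x506848402) (nat_lit 0) (p (nat_lit 0x160014) (nat_lit 0) (p (nat_lit 0x16000c) (nat_lit 0) (p (nat_lit 0x50612) (nat_lit 0) (p (nat_lit 0x40592) (nat_lit 0) (p (nat_lit 0x40492) (nat_lit 0) (p (nat_lit 0x30412) (nat_lit 0) (p (nat_lit 0x30212) (nat_lit 0) (p (nat_lit 0x20192) (nat_lit 0) (p (nat_lit 0x20092) (nat_lit 0) (p (nat_lit 0x10012) (nat_lit 0) pn))))))))))))))))))))))) :=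
  Cl.node (nat_lit 0x444aa) (nat_lit 12) (by decide +kernel) (ClAll.succ (ClAll.succ (ClAll.succ (ClAll.succ (ClAll.succ (ClAll.succ (ClAll.succ (ClAll.succ (ClAll.succ (ClAll.succ (ClAll.succ (ClAll.succ ClAll.zero s839) s840) s841) s842) s843) s844) s845) n700) s882) s883) s884) s885)

def n766 : Cl (O (nat_lit 1)) (R (nat_lit 104465))
    (p (nat_lit 0x111) (nat_lit 1) (p (nat_lit 0xd1) (nat_lit 1) (p (nat_lit 0xc1) (nat_lit 0) (p (nat_lit 0x119) (nat_lit 1) (p (nat_lit 0xc9) (nat_lit 0) (p (nat_lit 0x89) (nat_lit 1) (p (nat_lit 0x41) (nat_lit 0) (p (nat_lit 0x8078907089a) (nat_lit 0) (p (nat_lit 0x7870886861a) (nat_lit 0) (p (nat_lit 0x800070806078a) (nat_lit 0) (p (nat_lit 0x800068785850a) (nat_lit 0) (p (nat_lit 0x587050682) (nat_lit 0) (p (nat_lit 0x506848402) (nat_lit 0) (p (nat_lit 0x160014) (nat_lit 0) (p (nat_lit 0x16000c) (nat_lit 0) (p (nat_lit 0x50612)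 (nat_lit 0) (p (nat_lit 0x40592) (nat_lit 0) (p (nat_lit 0x40492) (nat_lit 0) (p (nat_lit 0x30412) (nat_lit 0) (p (nat_lit 0x30212) (nat_lit 0) (p (nat_lit 0x20192) (nat_lit 0) (p (nat_lit 0x20092) (nat_lit 0) (p (nat_lit 0x10012) (nat_lit 0) pn))))))))))))))))))))))) :=
  Cl.node (nat_lit 0x444aa) (nat_lit 12) (by decide +kernel) (ClAll.succ (ClAll.succ (ClAll.succ (ClAll.succ (ClAll.succ (ClAll.succ (ClAll.succ (ClAll.succ (ClAll.succ (ClAll.succ (ClAll.succ (ClAll.succ ClAll.zero s889) s890) s891) s892) s893) s894) s895) n701) s926) s927) s928) s929)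

def n767 : Cl (O (nat_lit 1)) (R (nat_lit 104465))
    (p (nat_lit 0x111) (nat_lit 0) (p (nat_lit 0x101) (nat_lit 0) (p (nat_lit 0xc1) (nat_lit 1) (p (nat_lit 0x119) (nat_lit 1) (p (nat_lit 0xc9) (nat_lit 0) (p (nat_lit 0x89) (nat_lit 1) (p (nat_lit 0x41) (nat_lit 0) (p (nat_lit 0x8078907089a) (nat_lit 0) (p (nat_lit 0x7870886861a) (nat_lit 0) (p (nat_lit 0x800070806078a) (nat_lit 0) (p (nat_lit 0x800068785850a) (nat_lit 0) (p (nat_lit 0x587050682) (nat_lit 0) (p (nat_lit 0x506848402) (nat_lit 0) (p (nat_lit 0x160014) (nat_lit 0) (p (nat_lit 0x16000c) (nat_lit 0) (p (nat_lit 0x50612) (nat_lit 0) (p (nat_lit 0x40592) (nat_lit 0) (p (nat_lit 0x40492) (nat_lit 0) (p (nat_lit 0x30412) (nat_lit 0) (p (nat_lit 0x30212) (nat_lit 0) (p (nat_lit 0x20192) (nat_lit 0) (p (nat_lit 0x20092) (nat_lit 0) (p (nat_lit 0x10012) (nat_lit 0) pn))))))))))))))))))))))) :=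
  Cl.node (nat_lit 0x44c2a) (nat_lit 12) (by decide +kernel) (ClAll.succ (ClAll.succ (ClAll.succ (ClAll.succ (ClAll.succ (ClAll.succ (ClAll.succ (ClAll.succ (ClAll.succ (ClAll.succ (ClAll.succ (ClAll.succ ClAll.zero n702) n703) s941) s942) s943) s944) s945) s946) s947) s948) s949) s950)

def n768 : Cl (O (nat_lit 1)) (R (nat_lit 104465))
    (p (nat_lit 0x111) (nat_lit 1) (p (nat_lit 0x101) (nat_lit 0) (p (nat_lit 0xc1) (nat_lit 1) (p (nat_lit 0x119) (nat_lit 1) (p (nat_lit 0xc9) (nat_lit 0) (p (nat_lit 0x89) (nat_lit 1) (p (nat_lit 0x41) (nat_lit 0) (p (nat_lit 0x8078907089a) (nat_lit 0) (p (nat_lit 0x7870886861a) (nat_lit 0) (p (nat_lit 0x800070806078a) (nat_lit 0) (p (nat_lit 0x800068785850a) (nat_lit 0) (p (nat_lit 0x587050682) (nat_lit 0) (p (nat_lit 0x506848402) (nat_lit 0) (p (nat_lit 0x160014) (nat_lit 0) (p (nat_lit 0x16000c) (nat_lit 0) (p (nat_lit 0x50612)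 (nat_lit 0) (p (nat_lit 0x40592) (nat_lit 0) (p (nat_lit 0x40492) (nat_lit 0) (p (nat_lit 0x30412) (nat_lit 0) (p (nat_lit 0x30212) (nat_lit 0) (p (nat_lit 0x20192) (nat_lit 0) (p (nat_lit 0x20092) (nat_lit 0) (p (nat_lit 0x10012) (nat_lit 0) pn))))))))))))))))))))))) :=
  Cl.node (nat_lit 0x444aa) (nat_lit 12) (by decide +kernel) (ClAll.succ (ClAll.succ (ClAll.succ (ClAll.succ (ClAll.succ (ClAll.succ (ClAll.succ (ClAll.succ (ClAll.succ (ClAll.succ (ClAll.succ (ClAll.succ ClAll.zero s951) s952) s953) s954) s955) s956) s957) n704) s973) s974) s975) s976)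

def n769 : Cl (O (nat_lit 1)) (R (nat_lit 104465))
    (p (nat_lit 0x119) (nat_lit 1) (p (nat_lit 0x111) (nat_lit 0) (p (nat_lit 0x101) (nat_lit 0) (p (nat_lit 0x109) (nat_lit 0) (p (nat_lit 0xc9) (nat_lit 1) (p (nat_lit 0x89) (nat_lit 1) (p (nat_lit 0x41) (nat_lit 0) (p (nat_lit 0x8078907089a) (nat_lit 0) (p (nat_lit 0x7870886861a) (nat_lit 0) (p (nat_lit 0x800070806078a) (nat_lit 0) (p (nat_lit 0x800068785850a) (nat_lit 0) (p (nat_lit 0x587050682) (nat_lit 0) (p (nat_lit 0x506848402) (nat_lit 0) (p (nat_lit 0x160014) (nat_lit 0) (p (nat_lit 0x16000c) (nat_lit 0) (p (nat_lit 0x50612) (nat_lit 0) (p (nat_lit 0x40592) (nat_lit 0) (p (nat_lit 0x40492) (nat_lit 0) (p (nat_lit 0x30412) (nat_lit 0) (p (nat_lit 0x30212) (nat_lit 0) (p (nat_lit 0x20192) (nat_lit 0) (p (nat_lit 0x20092) (nat_lit 0) (p (nat_lit 0x10012) (nat_lit 0) pn))))))))))))))))))))))) :=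
  Cl.node (nat_lit 0x444aa) (nat_lit 12) (by decide +kernel) (ClAll.succ (ClAll.succ (ClAll.succ (ClAll.succ (ClAll.succ (ClAll.succ (ClAll.succ (ClAll.succ (ClAll.succ (ClAll.succ (ClAll.succ (ClAll.succ ClAll.zero s990) s991) s992) s993) s994) s995) s996) n705) s1005) s1006) s1007) s1008)

def n770 : Cl (O (nat_lit 1)) (R (nat_lit 104465))
    (p (nat_lit 0x89) (nat_lit 0) (p (nat_lit 0x109) (nat_lit 1) (p (nat_lit 0x101) (nat_lit 0) (p (nat_lit 0x119) (nat_lit 0) (p (nat_lit 0xd1) (nat_lit 0) (p (nat_lit 0x81) (nat_lit 0) (p (nat_lit 0x41) (nat_lit 1) (p (nat_lit 0x8078907089a) (nat_lit 0) (p (nat_lit 0x7870886861a) (nat_lit 0) (p (nat_lit 0x800070806078a) (nat_lit 0) (p (nat_lit 0x800068785850a) (nat_lit 0) (p (nat_lit 0x587050682) (nat_lit 0) (p (nat_lit 0x506848402) (nat_lit 0) (p (nat_lit 0x160014) (nat_lit 0) (p (nat_lit 0x16000c) (nat_lit 0) (p (nat_lit 0x50612)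 (nat_lit 0) (p (nat_lit 0x40592) (nat_lit 0) (p (nat_lit 0x40492) (nat_lit 0) (p (nat_lit 0x30412) (nat_lit 0) (p (nat_lit 0x30212) (nat_lit 0) (p (nat_lit 0x20192) (nat_lit 0) (p (nat_lit 0x20092) (nat_lit 0) (p (nat_lit 0x10012) (nat_lit 0) pn))))))))))))))))))))))) :=
  Cl.node (nat_lit 0x111) (nat_lit 2) (by decide +kernel) (ClAll.succ (ClAll.succ ClAll.zero n706) n707)

def n771 : Cl (O (nat_lit 1)) (R (nat_lit 104465))
    (p (nat_lit 0x89) (nat_lit 1) (p (nat_lit 0x109) (nat_lit 1) (p (nat_lit 0x101) (nat_lit 0) (p (nat_lit 0x119) (nat_lit 0) (p (nat_lit 0xd1) (nat_lit 0) (p (nat_lit 0x81) (nat_lit 0) (p (nat_lit 0x41) (nat_lit 1) (p (nat_lit 0x8078907089a) (nat_lit 0) (p (nat_lit 0x7870886861a) (nat_lit 0) (p (nat_lit 0x800070806078a) (nat_lit 0) (p (nat_lit 0x800068785850a) (nat_lit 0) (p (nat_lit 0x587050682) (nat_lit 0) (p (nat_lit 0x506848402) (nat_lit 0)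 (p (nat_lit 0x160014) (nat_lit 0) (p (nat_lit 0x16000c) (nat_lit 0) (p (nat_lit 0x50612) (nat_lit 0) (p (nat_lit 0x40592) (nat_lit 0) (p (nat_lit 0x40492) (nat_lit 0) (p (nat_lit 0x30412) (nat_lit 0) (p (nat_lit 0x30212) (nat_lit 0) (p (nat_lit 0x20192) (nat_lit 0) (p (nat_lit 0x20092) (nat_lit 0) (p (nat_lit 0x10012) (nat_lit 0) pn))))))))))))))))))))))) :=
  Cl.node (nat_lit 0xc9) (nat_lit 2) (by decide +kernel) (ClAll.succ (ClAll.succ ClAll.zero n708) n709)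

def n772 : Cl (O (nat_lit 1)) (R (nat_lit 104465))
    (p (nat_lit 0x89) (nat_lit 0) (p (nat_lit 0xc1) (nat_lit 0) (p (nat_lit 0x101) (nat_lit 1) (p (nat_lit 0x119) (nat_lit 0) (p (nat_lit 0xd1) (nat_lit 0) (p (nat_lit 0x81) (nat_lit 0) (p (nat_lit 0x41) (nat_lit 1) (p (nat_lit 0x8078907089a) (nat_lit 0) (p (nat_lit 0x7870886861a) (nat_lit 0) (p (nat_lit 0x800070806078a) (nat_lit 0) (p (nat_lit 0x800068785850a) (nat_lit 0) (p (nat_lit 0x587050682) (nat_lit 0) (p (nat_lit 0x506848402) (nat_lit 0) (p (nat_lit 0x160014) (nat_lit 0) (p (nat_lit 0x16000c) (nat_lit 0) (p (nat_lit 0x50612) (nat_lit 0) (p (nat_lit 0x40592) (nat_lit 0) (p (nat_lit 0x40492) (nat_lit 0) (p (nat_lit 0x30412) (nat_lit 0) (p (nat_lit 0x30212) (nat_lit 0) (p (nat_lit 0x20192) (nat_lit 0) (p (nat_lit 0x20092) (nat_lit 0) (p (nat_lit 0x10012) (nat_lit 0) pn))))))))))))))))))))))) :=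
  Cl.node (nat_lit 0x4c42a) (nat_lit 12) (by decide +kernel) (ClAll.succ (ClAll.succ (ClAll.succ (ClAll.succ (ClAll.succ (ClAll.succ (ClAll.succ (ClAll.succ (ClAll.succ (ClAll.succ (ClAll.succ (ClAll.succ ClAll.zero s1096) s1097) s1098) s1099) s1100) s1101) s1102) s1103) s1104) s1105) n710) s1111)

def n773 : Cl (O (nat_lit 1)) (R (nat_lit 104465))
    (p (nat_lit 0x89) (nat_lit 1) (p (nat_lit 0xc1) (nat_lit 0) (p (nat_lit 0x101) (nat_lit 1) (p (nat_lit 0x119) (nat_lit 0) (p (nat_lit 0xd1) (nat_lit 0) (p (nat_lit 0x81) (nat_lit 0) (p (nat_lit 0x41) (nat_lit 1) (p (nat_lit 0x8078907089a) (nat_lit 0) (p (nat_lit 0x7870886861a) (nat_lit 0) (p (nat_lit 0x800070806078a) (nat_lit 0) (p (nat_lit 0x800068785850a) (nat_lit 0) (p (nat_lit 0x587050682) (nat_lit 0) (p (nat_lit 0x506848402) (nat_lit 0) (p (nat_lit 0x160014) (nat_lit 0) (p (nat_lit 0x16000c) (nat_lit 0) (p (nat_lit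 0x50612) (nat_lit 0) (p (nat_lit 0x40592) (nat_lit 0) (p (nat_lit 0x40492) (nat_lit 0) (p (nat_lit 0x30412) (nat_lit 0) (p (nat_lit 0x30212) (nat_lit 0) (p (nat_lit 0x20192) (nat_lit 0) (p (nat_lit 0x20092) (nat_lit 0) (p (nat_lit 0x10012) (nat_lit 0) pn))))))))))))))))))))))) :=
  Cl.node (nat_lit 0xc9) (nat_lit 2) (by decide +kernel) (ClAll.succ (ClAll.succ ClAll.zero n711) n712)

def n774 : Cl (O (nat_lit 1)) (R (nat_lit 104465))
    (p (nat_lit 0x89) (nat_lit 0) (p (nat_lit 0xc1) (nat_lit 1) (p (nat_lit 0x101) (nat_lit 1) (p (nat_lit 0x119) (nat_lit 0) (p (nat_lit 0xd1) (nat_lit 0) (p (nat_lit 0x81) (nat_lit 0) (p (nat_lit 0x41) (nat_lit 1) (p (nat_lit 0x8078907089a) (nat_lit 0) (p (nat_lit 0x7870886861a) (nat_lit 0) (p (nat_lit 0x800070806078a) (nat_lit 0) (p (nat_lit 0x800068785850a) (nat_lit 0) (p (nat_lit 0x587050682) (nat_lit 0) (p (nat_lit 0x506848402) (nat_lit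 0) (p (nat_lit 0x160014) (nat_lit 0) (p (nat_lit 0x16000c) (nat_lit 0) (p (nat_lit 0x50612) (nat_lit 0) (p (nat_lit 0x40592) (nat_lit 0) (p (nat_lit 0x40492) (nat_lit 0) (p (nat_lit 0x30412) (nat_lit 0) (p (nat_lit 0x30212) (nat_lit 0) (p (nat_lit 0x20192) (nat_lit 0) (p (nat_lit 0x20092) (nat_lit 0) (p (nat_lit 0x10012) (nat_lit 0) pn))))))))))))))))))))))) :=
  Cl.node (nat_lit 0x3cc2a) (nat_lit 12) (by decide +kernel) (ClAll.succ (ClAll.succ (ClAll.succ (ClAll.succ (ClAll.succ (ClAll.succ (ClAll.succ (ClAll.succ (ClAll.succ (ClAll.succ (ClAll.succ (ClAll.succ ClAll.zero s1153) s1154) n713) s1177) s1178) s1179) s1180) s1181) s1182) s1183) s1184) s1185)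

def n775 : Cl (O (nat_lit 1)) (R (nat_lit 104465))
    (p (nat_lit 0x89) (nat_lit 1) (p (nat_lit 0xc1) (nat_lit 1) (p (nat_lit 0x101) (nat_lit 1) (p (nat_lit 0x119) (nat_lit 0) (p (nat_lit 0xd1) (nat_lit 0) (p (nat_lit 0x81) (nat_lit 0) (p (nat_lit 0x41) (nat_lit 1) (p (nat_lit 0x8078907089a) (nat_lit 0) (p (nat_lit 0x7870886861a) (nat_lit 0) (p (nat_lit 0x800070806078a) (nat_lit 0) (p (nat_lit 0x800068785850a) (nat_lit 0) (p (nat_lit 0x587050682) (nat_lit 0) (p (nat_lit 0x506848402) (nat_lit 0) (p (nat_lit 0x160014) (nat_lit 0) (p (nat_lit 0x16000c) (nat_lit 0) (p (nat_lit 0x50612) (nat_lit 0) (p (nat_lit 0x40592) (nat_lit 0) (p (nat_lit 0x40492) (nat_lit 0) (p (nat_lit 0x30412) (nat_lit 0) (p (nat_lit 0x30212) (nat_lit 0) (p (nat_lit 0x20192) (nat_lit 0) (p (nat_lit 0x20092) (nat_lit 0) (p (nat_lit 0x10012) (nat_lit 0) pn))))))))))))))))))))))) :=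
  Cl.node (nat_lit 0x3c4aa) (nat_lit 12) (by decide +kernel) (ClAll.succ (ClAll.succ (ClAll.succ (ClAll.succ (ClAll.succ (ClAll.succ (ClAll.succ (ClAll.succ (ClAll.succ (ClAll.succ (ClAll.succ (ClAll.succ ClAll.zero s1186) s1187) s1188) s1189) s1190) s1191) s1192) n714) n715) s1211) s1212) s1213)

def n776 : Cl (O (nat_lit 1)) (R (nat_lit 104465))
    (p (nat_lit 0x89) (nat_lit 1) (p (nat_lit 0xc9) (nat_lit 1) (p (nat_lit 0xc1) (nat_lit 0) (p (nat_lit 0x119) (nat_lit 1) (p (nat_lit 0xd1) (nat_lit 0) (p (nat_lit 0x81) (nat_lit 0) (p (nat_lit 0x41) (nat_lit 1) (p (nat_lit 0x8078907089a) (nat_lit 0) (p (nat_lit 0x7870886861a) (nat_lit 0) (p (nat_lit 0x800070806078a) (nat_lit 0) (p (nat_lit 0x800068785850a) (nat_lit 0) (p (nat_lit 0x587050682) (nat_lit 0) (p (nat_lit 0x506848402) (nat_lit 0) (p (nat_lit 0x160014) (nat_lit 0) (p (nat_lit 0x16000c) (nat_lit 0) (p (nat_lit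 0x50612) (nat_lit 0) (p (nat_lit 0x40592) (nat_lit 0) (p (nat_lit 0x40492) (nat_lit 0) (p (nat_lit 0x30412) (nat_lit 0) (p (nat_lit 0x30212) (nat_lit 0) (p (nat_lit 0x20192) (nat_lit 0) (p (nat_lit 0x20092) (nat_lit 0) (p (nat_lit 0x10012) (nat_lit 0) pn))))))))))))))))))))))) :=
  Cl.node (nat_lit 0x109) (nat_lit 2) (by decide +kernel) (ClAll.succ (ClAll.succ ClAll.zero n716) n717)

def n777 : Cl (O (nat_lit 1)) (R (nat_lit 104465))
    (p (nat_lit 0x89) (nat_lit 1) (p (nat_lit 0x101) (nat_lit 0) (p (nat_lit 0xc1) (nat_lit 1) (p (nat_lit 0x119) (nat_lit 1) (p (nat_lit 0xd1) (nat_lit 0) (p (nat_lit 0x81) (nat_lit 0) (p (nat_lit 0x41) (nat_lit 1) (p (nat_lit 0x8078907089a) (nat_lit 0) (p (nat_lit 0x7870886861a) (nat_lit 0) (p (nat_lit 0x800070806078a) (nat_lit 0) (p (nat_lit 0x800068785850a) (nat_lit 0) (p (nat_lit 0x587050682) (nat_lit 0) (p (nat_lit 0x506848402) (nat_lit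 0) (p (nat_lit 0x160014) (nat_lit 0) (p (nat_lit 0x16000c) (nat_lit 0) (p (nat_lit 0x50612) (nat_lit 0) (p (nat_lit 0x40592) (nat_lit 0) (p (nat_lit 0x40492) (nat_lit 0) (p (nat_lit 0x30412) (nat_lit 0) (p (nat_lit 0x30212) (nat_lit 0) (p (nat_lit 0x20192) (nat_lit 0) (p (nat_lit 0x20092) (nat_lit 0) (p (nat_lit 0x10012) (nat_lit 0) pn))))))))))))))))))))))) :=
  Cl.node (nat_lit 0x109) (nat_lit 2) (by decide +kernel) (ClAll.succ (ClAll.succ ClAll.zero n718) n719)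

def n778 : Cl (O (nat_lit 1)) (R (nat_lit 104465))
    (p (nat_lit 0x89) (nat_lit 0) (p (nat_lit 0x101) (nat_lit 1) (p (nat_lit 0xc1) (nat_lit 1) (p (nat_lit 0x119) (nat_lit 1) (p (nat_lit 0xd1) (nat_lit 0) (p (nat_lit 0x81) (nat_lit 0) (p (nat_lit 0x41) (nat_lit 1) (p (nat_lit 0x8078907089a) (nat_lit 0) (p (nat_lit 0x7870886861a) (nat_lit 0) (p (nat_lit 0x800070806078a) (nat_lit 0) (p (nat_lit 0x800068785850a) (nat_lit 0) (p (nat_lit 0x587050682) (nat_lit 0) (p (nat_lit 0x506848402) (nat_lit 0) (p (nat_lit 0x160014) (nat_lit 0) (p (nat_lit 0x16000c) (nat_lit 0) (p (nat_lit 0x50612) (nat_lit 0) (p (nat_lit 0x40592) (nat_lit 0) (p (nat_lit 0x40492) (nat_lit 0) (p (nat_lit 0x30412) (nat_lit 0) (p (nat_lit 0x30212) (nat_lit 0) (p (nat_lit 0x20192) (nat_lit 0) (p (nat_lit 0x20092) (nat_lit 0) (p (nat_lit 0x10012) (nat_lit 0) pn))))))))))))))))))))))) :=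
  Cl.node (nat_lit 0x3cc2a) (nat_lit 12) (by decide +kernel) (ClAll.succ (ClAll.succ (ClAll.succ (ClAll.succ (ClAll.succ (ClAll.succ (ClAll.succ (ClAll.succ (ClAll.succ (ClAll.succ (ClAll.succ (ClAll.succ ClAll.zero s1309) s1310) n720) s1313) s1314) s1315) s1316) s1317) s1318) s1319) s1320) s1321)

def n779 : Cl (O (nat_lit 1)) (R (nat_lit 104465))
    (p (nat_lit 0x89) (nat_lit 1) (p (nat_lit 0x101) (nat_lit 1) (p (nat_lit 0xc1) (nat_lit 1) (p (nat_lit 0x119) (nat_lit 1) (p (nat_lit 0xd1) (nat_lit 0) (p (nat_lit 0x81) (nat_lit 0) (p (nat_lit 0x41) (nat_lit 1) (p (nat_lit 0x8078907089a) (nat_lit 0) (p (nat_lit 0x7870886861a) (nat_lit 0) (p (nat_lit 0x800070806078a) (nat_lit 0) (p (nat_lit 0x800068785850a) (nat_lit 0) (p (nat_lit 0x587050682) (nat_lit 0) (p (nat_lit 0x506848402) (nat_lit 0) (p (nat_lit 0x160014) (nat_lit 0) (p (nat_lit 0x16000c) (nat_lit 0) (p (nat_lit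 0x50612) (nat_lit 0) (p (nat_lit 0x40592) (nat_lit 0) (p (nat_lit 0x40492) (nat_lit 0) (p (nat_lit 0x30412) (nat_lit 0) (p (nat_lit 0x30212) (nat_lit 0) (p (nat_lit 0x20192) (nat_lit 0) (p (nat_lit 0x20092) (nat_lit 0) (p (nat_lit 0x10012) (nat_lit 0) pn))))))))))))))))))))))) :=
  Cl.node (nat_lit 0x3c4aa) (nat_lit 12) (by decide +kernel) (ClAll.succ (ClAll.succ (ClAll.succ (ClAll.succ (ClAll.succ (ClAll.succ (ClAll.succ (ClAll.succ (ClAll.succ (ClAll.succ (ClAll.succ (ClAll.succ ClAll.zero s1322) s1323) s1324) s1325) s1326) s1327) s1328) n721) n722) s1347) s1348) s1349)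

def n780 : Cl (O (nat_lit 1)) (R (nat_lit 104465))
    (p (nat_lit 0x89) (nat_lit 0) (p (nat_lit 0x109) (nat_lit 1) (p (nat_lit 0x101) (nat_lit 0) (p (nat_lit 0x111) (nat_lit 0) (p (nat_lit 0xd1) (nat_lit 1) (p (nat_lit 0x81) (nat_lit 0) (p (nat_lit 0x41) (nat_lit 1) (p (nat_lit 0x8078907089a) (nat_lit 0) (p (nat_lit 0x7870886861a) (nat_lit 0) (p (nat_lit 0x800070806078a) (nat_lit 0) (p (nat_lit 0x800068785850a) (nat_lit 0) (p (nat_lit 0x587050682) (nat_lit 0) (p (nat_lit 0x506848402) (nat_lit 0) (p (nat_lit 0x160014) (nat_lit 0) (p (nat_lit 0x16000c) (nat_lit 0) (p (nat_lit 0x50612) (nat_lit 0) (p (nat_lit 0x40592) (nat_lit 0) (p (nat_lit 0x40492) (nat_lit 0) (p (nat_lit 0x30412) (nat_lit 0) (p (nat_lit 0x30212) (nat_lit 0) (p (nat_lit 0x20192) (nat_lit 0) (p (nat_lit 0x20092) (nat_lit 0) (p (nat_lit 0x10012) (nat_lit 0) pn))))))))))))))))))))))) :=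
  Cl.node (nat_lit 0x119) (nat_lit 2) (by decide +kernel) (ClAll.succ (ClAll.succ ClAll.zero s1351) n723)

def n781 : Cl (O (nat_lit 1)) (R (nat_lit 104465))
    (p (nat_lit 0x89) (nat_lit 1) (p (nat_lit 0x109) (nat_lit 1) (p (nat_lit 0x101) (nat_lit 0) (p (nat_lit 0x111) (nat_lit 0) (p (nat_lit 0xd1) (nat_lit 1) (p (nat_lit 0x81) (nat_lit 0) (p (nat_lit 0x41) (nat_lit 1) (p (nat_lit 0x8078907089a) (nat_lit 0) (p (nat_lit 0x7870886861a) (nat_lit 0) (p (nat_lit 0x800070806078a) (nat_lit 0) (p (nat_lit 0x800068785850a) (nat_lit 0) (p (nat_lit 0x587050682) (nat_lit 0) (p (nat_lit 0x506848402) (nat_lit 0) (p (nat_lit 0x160014) (nat_lit 0) (p (nat_lit 0x16000c) (nat_lit 0) (p (nat_lit 0x50612) (nat_lit 0) (p (nat_lit 0x40592) (nat_lit 0) (p (nat_lit 0x40492) (nat_lit 0) (p (nat_lit 0x30412) (nat_lit 0) (p (nat_lit 0x30212) (nat_lit 0) (p (nat_lit 0x20192) (nat_lit 0) (p (nat_lit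 0x20092) (nat_lit 0) (p (nat_lit 0x10012) (nat_lit 0) pn))))))))))))))))))))))) :=
  Cl.node (nat_lit 0xc9) (nat_lit 2) (by decide +kernel) (ClAll.succ (ClAll.succ ClAll.zero n724) n725)

def n782 : Cl (O (nat_lit 1)) (R (nat_lit 104465))
    (p (nat_lit 0x3cc2a) (nat_lit 0) (p (nat_lit 0x89) (nat_lit 0) (p (nat_lit 0x101) (nat_lit 1) (p (nat_lit 0x111) (nat_lit 0) (p (nat_lit 0xd1) (nat_lit 1) (p (nat_lit 0x81) (nat_lit 0) (p (nat_lit 0x41) (nat_lit 1) (p (nat_lit 0x8078907089a) (nat_lit 0) (p (nat_lit 0x7870886861a) (nat_lit 0) (p (nat_lit 0x800070806078a) (nat_lit 0) (p (nat_lit 0x800068785850a) (nat_lit 0) (p (nat_lit 0x587050682) (nat_lit 0) (p (nat_lit 0x506848402) (nat_lit 0) (p (nat_lit 0x160014) (nat_lit 0) (p (nat_lit 0x16000c) (nat_lit 0) (p (nat_lit 0x50612) (nat_lit 0) (p (nat_lit 0x40592) (nat_lit 0) (p (nat_lit 0x40492) (nat_lit 0) (p (nat_lit 0x30412)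 (nat_lit 0) (p (nat_lit 0x30212) (nat_lit 0) (p (nat_lit 0x20192) (nat_lit 0) (p (nat_lit 0x20092) (nat_lit 0) (p (nat_lit 0x10012) (nat_lit 0) pn))))))))))))))))))))))) :=
  Cl.node (nat_lit 0x380c2) (nat_lit 2) (by decide +kernel) (ClAll.succ (ClAll.succ ClAll.zero s1498) n726)

def n783 : Cl (O (nat_lit 1)) (R (nat_lit 104465))
    (p (nat_lit 0x3cc2a) (nat_lit 1) (p (nat_lit 0x89) (nat_lit 0) (p (nat_lit 0x101) (nat_lit 1) (p (nat_lit 0x111) (nat_lit 0) (p (nat_lit 0xd1) (nat_lit 1) (p (nat_lit 0x81) (nat_lit 0) (p (nat_lit 0x41) (nat_lit 1) (p (nat_lit 0x8078907089a) (nat_lit 0) (p (nat_lit 0x7870886861a) (nat_lit 0) (p (nat_lit 0x800070806078a) (nat_lit 0) (p (nat_lit 0x800068785850a) (nat_lit 0) (p (nat_lit 0x587050682) (nat_lit 0) (p (nat_lit 0x506848402) (nat_lit 0) (p (nat_lit 0x160014) (nat_lit 0) (p (nat_lit 0x16000c) (nat_lit 0) (p (nat_lit 0x50612) (nat_lit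 0) (p (nat_lit 0x40592) (nat_lit 0) (p (nat_lit 0x40492) (nat_lit 0) (p (nat_lit 0x30412) (nat_lit 0) (p (nat_lit 0x30212) (nat_lit 0) (p (nat_lit 0x20192) (nat_lit 0) (p (nat_lit 0x20092) (nat_lit 0) (p (nat_lit 0x10012) (nat_lit 0) pn))))))))))))))))))))))) :=
  Cl.node (nat_lit 0x380c2) (nat_lit 1) (by decide +kernel) (ClAll.succ ClAll.zero n727)

def n784 : Cl (O (nat_lit 1)) (R (nat_lit 104465))
    (p (nat_lit 0x3cc2a) (nat_lit 2) (p (nat_lit 0x89) (nat_lit 0) (p (nat_lit 0x101) (nat_lit 1) (p (nat_lit 0x111) (nat_lit 0) (p (nat_lit 0xd1) (nat_lit 1) (p (nat_lit 0x81) (nat_lit 0) (p (nat_lit 0x41) (nat_lit 1) (p (nat_lit 0x8078907089a) (nat_lit 0) (p (nat_lit 0x7870886861a) (nat_lit 0) (p (nat_lit 0x800070806078a) (nat_lit 0) (p (nat_lit 0x800068785850a) (nat_lit 0) (p (nat_lit 0x587050682) (nat_lit 0) (p (nat_lit 0x506848402) (nat_lit 0) (p (nat_lit 0x160014)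 (nat_lit 0) (p (nat_lit 0x16000c) (nat_lit 0) (p (nat_lit 0x50612) (nat_lit 0) (p (nat_lit 0x40592) (nat_lit 0) (p (nat_lit 0x40492) (nat_lit 0) (p (nat_lit 0x30412) (nat_lit 0) (p (nat_lit 0x30212) (nat_lit 0) (p (nat_lit 0x20192) (nat_lit 0) (p (nat_lit 0x20092) (nat_lit 0) (p (nat_lit 0x10012) (nat_lit 0) pn))))))))))))))))))))))) :=
  Cl.node (nat_lit 0x380c2) (nat_lit 1) (by decide +kernel) (ClAll.succ ClAll.zero n728)

def n785 : Cl (O (nat_lit 1)) (R (nat_lit 104465))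
    (p (nat_lit 0xc9) (nat_lit 0) (p (nat_lit 0x89) (nat_lit 1) (p (nat_lit 0x101) (nat_lit 1) (p (nat_lit 0x111) (nat_lit 0) (p (nat_lit 0xd1) (nat_lit 1) (p (nat_lit 0x81) (nat_lit 0) (p (nat_lit 0x41) (nat_lit 1) (p (nat_lit 0x8078907089a) (nat_lit 0) (p (nat_lit 0x7870886861a) (nat_lit 0) (p (nat_lit 0x800070806078a) (nat_lit 0) (p (nat_lit 0x800068785850a) (nat_lit 0) (p (nat_lit 0x587050682) (nat_lit 0) (p (nat_lit 0x506848402) (nat_lit 0) (p (nat_lit 0x160014) (nat_lit 0) (p (nat_lit 0x16000c) (nat_lit 0) (p (nat_lit 0x50612) (nat_lit 0) (p (nat_lit 0x40592) (nat_lit 0) (p (nat_lit 0x40492) (nat_lit 0) (p (nat_lit 0x30412) (nat_lit 0) (p (nat_lit 0x30212) (nat_lit 0) (p (nat_lit 0x20192) (nat_lit 0) (p (nat_lit 0x20092) (nat_lit 0) (p (nat_lit 0x10012) (nat_lit 0) pn))))))))))))))))))))))) :=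
  Cl.node (nat_lit 0x3cc2a) (nat_lit 12) (by decide +kernel) (ClAll.succ (ClAll.succ (ClAll.succ (ClAll.succ (ClAll.succ (ClAll.succ (ClAll.succ (ClAll.succ (ClAll.succ (ClAll.succ (ClAll.succ (ClAll.succ ClAll.zero n729) n730) n731) s1550) s1551) s1552) s1553) s1554) s1555) s1556) s1557) s1558)

def n786 : Cl (O (nat_lit 1)) (R (nat_lit 104465))
    (p (nat_lit 0xc9) (nat_lit 1) (p (nat_lit 0x89) (nat_lit 1) (p (nat_lit 0x101) (nat_lit 1) (p (nat_lit 0x111) (nat_lit 0) (p (nat_lit 0xd1) (nat_lit 1) (p (nat_lit 0x81) (nat_lit 0) (p (nat_lit 0x41) (nat_lit 1) (p (nat_lit 0x8078907089a) (nat_lit 0) (p (nat_lit 0x7870886861a) (nat_lit 0) (p (nat_lit 0x800070806078a) (nat_lit 0) (p (nat_lit 0x800068785850a) (nat_lit 0) (p (nat_lit 0x587050682) (nat_lit 0) (p (nat_lit 0x506848402) (nat_lit 0) (p (nat_lit 0x160014) (nat_lit 0) (p (nat_lit 0x16000c) (nat_lit 0) (p (nat_lit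 0x50612) (nat_lit 0) (p (nat_lit 0x40592) (nat_lit 0) (p (nat_lit 0x40492) (nat_lit 0) (p (nat_lit 0x30412) (nat_lit 0) (p (nat_lit 0x30212) (nat_lit 0) (p (nat_lit 0x20192) (nat_lit 0) (p (nat_lit 0x20092) (nat_lit 0) (p (nat_lit 0x10012) (nat_lit 0) pn))))))))))))))))))))))) :=
  Cl.node (nat_lit 0x3c4aa) (nat_lit 12) (by decide +kernel) (ClAll.succ (ClAll.succ (ClAll.succ (ClAll.succ (ClAll.succ (ClAll.succ (ClAll.succ (ClAll.succ (ClAll.succ (ClAll.succ (ClAll.succ (ClAll.succ ClAll.zero s1559) s1560) s1561) s1562) s1563) s1564) s1565) s1566) n732) s1569) s1570) s1571)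

def n787 : Cl (O (nat_lit 1)) (R (nat_lit 104465))
    (p (nat_lit 0x109) (nat_lit 0) (p (nat_lit 0xc9) (nat_lit 1) (p (nat_lit 0x89) (nat_lit 1) (p (nat_lit 0x111) (nat_lit 1) (p (nat_lit 0xd1) (nat_lit 1) (p (nat_lit 0x81) (nat_lit 0) (p (nat_lit 0x41) (nat_lit 1) (p (nat_lit 0x8078907089a) (nat_lit 0) (p (nat_lit 0x7870886861a) (nat_lit 0) (p (nat_lit 0x800070806078a) (nat_lit 0) (p (nat_lit 0x800068785850a) (nat_lit 0) (p (nat_lit 0x587050682) (nat_lit 0) (p (nat_lit 0x506848402) (nat_lit 0) (p (nat_lit 0x160014) (nat_lit 0) (p (nat_lit 0x16000c) (nat_lit 0) (p (nat_lit 0x50612) (nat_lit 0) (p (nat_lit 0x40592) (nat_lit 0) (p (nat_lit 0x40492) (nat_lit 0) (p (nat_lit 0x30412) (nat_lit 0) (p (nat_lit 0x30212) (nat_lit 0) (p (nat_lit 0x20192) (nat_lit 0) (p (nat_lit 0x20092) (nat_lit 0) (p (nat_lit 0x10012) (nat_lit 0) pn))))))))))))))))))))))) :=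
  Cl.node (nat_lit 0x3cc2a) (nat_lit 12) (by decide +kernel) (ClAll.succ (ClAll.succ (ClAll.succ (ClAll.succ (ClAll.succ (ClAll.succ (ClAll.succ (ClAll.succ (ClAll.succ (ClAll.succ (ClAll.succ (ClAll.succ ClAll.zero s1574) s1575) n733) s1579) s1580) s1581) s1582) s1583) s1584) s1585) s1586) s1587)

def n788 : Cl (O (nat_lit 1)) (R (nat_lit 104465))
    (p (nat_lit 0x109) (nat_lit 1) (p (nat_lit 0xc9) (nat_lit 1) (p (nat_lit 0x89) (nat_lit 1) (p (nat_lit 0x111) (nat_lit 1) (p (nat_lit 0xd1) (nat_lit 1) (p (nat_lit 0x81) (nat_lit 0) (p (nat_lit 0x41) (nat_lit 1) (p (nat_lit 0x8078907089a) (nat_lit 0) (p (nat_lit 0x7870886861a) (nat_lit 0) (p (nat_lit 0x800070806078a) (nat_lit 0) (p (nat_lit 0x800068785850a) (nat_lit 0) (p (nat_lit 0x587050682) (nat_lit 0) (p (nat_lit 0x506848402) (nat_lit 0) (p (nat_lit 0x160014) (nat_lit 0) (p (nat_lit 0x16000c) (nat_lit 0) (p (nat_lit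 0x50612) (nat_lit 0) (p (nat_lit 0x40592) (nat_lit 0) (p (nat_lit 0x40492) (nat_lit 0) (p (nat_lit 0x30412) (nat_lit 0) (p (nat_lit 0x30212) (nat_lit 0) (p (nat_lit 0x20192) (nat_lit 0) (p (nat_lit 0x20092) (nat_lit 0) (p (nat_lit 0x10012) (nat_lit 0) pn))))))))))))))))))))))) :=
  Cl.node (nat_lit 0x3c4aa) (nat_lit 12) (by decide +kernel) (ClAll.succ (ClAll.succ (ClAll.succ (ClAll.succ (ClAll.succ (ClAll.succ (ClAll.succ (ClAll.succ (ClAll.succ (ClAll.succ (ClAll.succ (ClAll.succ ClAll.zero s1588) s1589) s1590) s1591) s1592) s1593) s1594) s1595) n734) s1598) s1599) s1600)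

def n789 : Cl (O (nat_lit 1)) (R (nat_lit 104465))
    (p (nat_lit 0x111) (nat_lit 1) (p (nat_lit 0x109) (nat_lit 0) (p (nat_lit 0x101) (nat_lit 0) (p (nat_lit 0x119) (nat_lit 0) (p (nat_lit 0xc1) (nat_lit 0) (p (nat_lit 0x81) (nat_lit 1) (p (nat_lit 0x41) (nat_lit 1) (p (nat_lit 0x8078907089a) (nat_lit 0) (p (nat_lit 0x7870886861a) (nat_lit 0) (p (nat_lit 0x800070806078a) (nat_lit 0) (p (nat_lit 0x800068785850a) (nat_lit 0) (p (nat_lit 0x587050682) (nat_lit 0) (p (nat_lit 0x506848402) (nat_lit 0) (p (nat_lit 0x160014) (nat_lit 0) (p (nat_lit 0x16000c) (nat_lit 0) (p (nat_lit 0x50612) (nat_lit 0) (p (nat_lit 0x40592) (nat_lit 0) (p (nat_lit 0x40492) (nat_lit 0) (p (nat_lit 0x30412) (nat_lit 0) (p (nat_lit 0x30212) (nat_lit 0) (p (nat_lit 0x20192) (nat_lit 0) (p (nat_lit 0x20092) (nat_lit 0) (p (nat_lit 0x10012) (nat_lit 0) pn))))))))))))))))))))))) :=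
  Cl.node (nat_lit 0xd1) (nat_lit 2) (by decide +kernel) (ClAll.succ (ClAll.succ ClAll.zero s1602) n735)

def n790 : Cl (O (nat_lit 1)) (R (nat_lit 104465))
    (p (nat_lit 0xc9) (nat_lit 0) (p (nat_lit 0x109) (nat_lit 1) (p (nat_lit 0x101) (nat_lit 0) (p (nat_lit 0x119) (nat_lit 0) (p (nat_lit 0xc1) (nat_lit 0) (p (nat_lit 0x81) (nat_lit 1) (p (nat_lit 0x41) (nat_lit 1) (p (nat_lit 0x8078907089a) (nat_lit 0) (p (nat_lit 0x7870886861a) (nat_lit 0) (p (nat_lit 0x800070806078a) (nat_lit 0) (p (nat_lit 0x800068785850a) (nat_lit 0) (p (nat_lit 0x587050682) (nat_lit 0) (p (nat_lit 0x506848402) (nat_lit 0) (p (nat_lit 0x160014) (nat_lit 0) (p (nat_lit 0x16000c) (nat_lit 0) (p (nat_lit 0x50612) (nat_lit 0) (p (nat_lit 0x40592) (nat_lit 0) (p (nat_lit 0x40492) (nat_lit 0) (p (nat_lit 0x30412) (nat_lit 0) (p (nat_lit 0x30212) (nat_lit 0) (p (nat_lit 0x20192) (nat_lit 0) (p (nat_lit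 0x20092) (nat_lit 0) (p (nat_lit 0x10012) (nat_lit 0) pn))))))))))))))))))))))) :=
  Cl.node (nat_lit 0xd1) (nat_lit 2) (by decide +kernel) (ClAll.succ (ClAll.succ ClAll.zero s1625) n736)

def n791 : Cl (O (nat_lit 1)) (R (nat_lit 104465))
    (p (nat_lit 0xd1) (nat_lit 0) (p (nat_lit 0xc9) (nat_lit 0) (p (nat_lit 0x101) (nat_lit 1) (p (nat_lit 0x119) (nat_lit 0) (p (nat_lit 0xc1) (nat_lit 0) (p (nat_lit 0x81) (nat_lit 1) (p (nat_lit 0x41) (nat_lit 1) (p (nat_lit 0x8078907089a) (nat_lit 0) (p (nat_lit 0x7870886861a) (nat_lit 0) (p (nat_lit 0x800070806078a) (nat_lit 0) (p (nat_lit 0x800068785850a) (nat_lit 0) (p (nat_lit 0x587050682) (nat_lit 0) (p (nat_lit 0x506848402) (nat_lit 0) (p (nat_lit 0x160014) (nat_lit 0) (p (nat_lit 0x16000c) (nat_lit 0) (p (nat_lit 0x50612) (nat_lit 0) (p (nat_lit 0x40592) (nat_lit 0) (p (nat_lit 0x40492) (nat_lit 0) (p (nat_lit 0x30412) (nat_lit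 0) (p (nat_lit 0x30212) (nat_lit 0) (p (nat_lit 0x20192) (nat_lit 0) (p (nat_lit 0x20092) (nat_lit 0) (p (nat_lit 0x10012) (nat_lit 0) pn))))))))))))))))))))))) :=
  Cl.node (nat_lit 0x44c2a) (nat_lit 12) (by decide +kernel) (ClAll.succ (ClAll.succ (ClAll.succ (ClAll.succ (ClAll.succ (ClAll.succ (ClAll.succ (ClAll.succ (ClAll.succ (ClAll.succ (ClAll.succ (ClAll.succ ClAll.zero n737) n738) s1667) s1668) s1669) s1670) s1671) s1672) s1673) s1674) s1675) s1676)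

def n792 : Cl (O (nat_lit 1)) (R (nat_lit 104465))
    (p (nat_lit 0xd1) (nat_lit 1) (p (nat_lit 0xc9) (nat_lit 0) (p (nat_lit 0x101) (nat_lit 1) (p (nat_lit 0x119) (nat_lit 0) (p (nat_lit 0xc1) (nat_lit 0) (p (nat_lit 0x81) (nat_lit 1) (p (nat_lit 0x41) (nat_lit 1) (p (nat_lit 0x8078907089a) (nat_lit 0) (p (nat_lit 0x7870886861a) (nat_lit 0) (p (nat_lit 0x800070806078a) (nat_lit 0) (p (nat_lit 0x800068785850a) (nat_lit 0) (p (nat_lit 0x587050682) (nat_lit 0) (p (nat_lit 0x506848402) (nat_lit 0) (p (nat_lit 0x160014) (nat_lit 0) (p (nat_lit 0x16000c) (nat_lit 0) (p (nat_lit 0x50612) (nat_lit 0) (p (nat_lit 0x40592) (nat_lit 0) (p (nat_lit 0x40492) (nat_lit 0) (p (nat_lit 0x30412) (nat_lit 0) (p (nat_lit 0x30212) (nat_lit 0) (p (nat_lit 0x20192) (nat_lit 0) (p (nat_lit 0x20092) (nat_lit 0) (p (nat_lit 0x10012) (nat_lit 0) pn))))))))))))))))))))))) :=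
  Cl.node (nat_lit 0x3c4aa) (nat_lit 12) (by decide +kernel) (ClAll.succ (ClAll.succ (ClAll.succ (ClAll.succ (ClAll.succ (ClAll.succ (ClAll.succ (ClAll.succ (ClAll.succ (ClAll.succ (ClAll.succ (ClAll.succ ClAll.zero s1677) s1678) s1679) s1680) s1681) s1682) s1683) n739) n740) s1691) s1692) s1693)

def n793 : Cl (O (nat_lit 1)) (R (nat_lit 104465))
    (p (nat_lit 0x111) (nat_lit 1) (p (nat_lit 0xd1) (nat_lit 1) (p (nat_lit 0xc9) (nat_lit 0) (p (nat_lit 0x119) (nat_lit 1) (p (nat_lit 0xc1) (nat_lit 0) (p (nat_lit 0x81) (nat_lit 1) (p (nat_lit 0x41) (nat_lit 1) (p (nat_lit 0x8078907089a) (nat_lit 0) (p (nat_lit 0x7870886861a) (nat_lit 0) (p (nat_lit 0x800070806078a) (nat_lit 0) (p (nat_lit 0x800068785850a) (nat_lit 0) (p (nat_lit 0x587050682) (nat_lit 0) (p (nat_lit 0x506848402) (nat_lit 0) (p (nat_lit 0x160014) (nat_lit 0) (p (nat_lit 0x16000c) (nat_lit 0) (p (nat_lit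 0x50612) (nat_lit 0) (p (nat_lit 0x40592) (nat_lit 0) (p (nat_lit 0x40492) (nat_lit 0) (p (nat_lit 0x30412) (nat_lit 0) (p (nat_lit 0x30212) (nat_lit 0) (p (nat_lit 0x20192) (nat_lit 0) (p (nat_lit 0x20092) (nat_lit 0) (p (nat_lit 0x10012) (nat_lit 0) pn))))))))))))))))))))))) :=
  Cl.node (nat_lit 0x3c4aa) (nat_lit 12) (by decide +kernel) (ClAll.succ (ClAll.succ (ClAll.succ (ClAll.succ (ClAll.succ (ClAll.succ (ClAll.succ (ClAll.succ (ClAll.succ (ClAll.succ (ClAll.succ (ClAll.succ ClAll.zero s1708) s1709) s1710) s1711) s1712) s1713) s1714) s1715) n741) s1719) s1720) s1721)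

def n794 : Cl (O (nat_lit 1)) (R (nat_lit 104465))
    (p (nat_lit 0x111) (nat_lit 0) (p (nat_lit 0x109) (nat_lit 0) (p (nat_lit 0xc9) (nat_lit 1) (p (nat_lit 0x119) (nat_lit 1) (p (nat_lit 0xc1) (nat_lit 0) (p (nat_lit 0x81) (nat_lit 1) (p (nat_lit 0x41) (nat_lit 1) (p (nat_lit 0x8078907089a) (nat_lit 0) (p (nat_lit 0x7870886861a) (nat_lit 0) (p (nat_lit 0x800070806078a) (nat_lit 0) (p (nat_lit 0x800068785850a) (nat_lit 0) (p (nat_lit 0x587050682) (nat_lit 0) (p (nat_lit 0x506848402) (nat_lit 0) (p (nat_lit 0x160014) (nat_lit 0) (p (nat_lit 0x16000c) (nat_lit 0) (p (nat_lit 0x50612) (nat_lit 0) (p (nat_lit 0x40592) (nat_lit 0) (p (nat_lit 0x40492) (nat_lit 0) (p (nat_lit 0x30412) (nat_lit 0) (p (nat_lit 0x30212) (nat_lit 0) (p (nat_lit 0x20192) (nat_lit 0) (p (nat_lit 0x20092) (nat_lit 0) (p (nat_lit 0x10012) (nat_lit 0) pn))))))))))))))))))))))) :=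
  Cl.node (nat_lit 0x44c2a) (nat_lit 12) (by decide +kernel) (ClAll.succ (ClAll.succ (ClAll.succ (ClAll.succ (ClAll.succ (ClAll.succ (ClAll.succ (ClAll.succ (ClAll.succ (ClAll.succ (ClAll.succ (ClAll.succ ClAll.zero n742) n743) s1729) s1730) s1731) s1732) s1733) s1734) s1735) s1736) s1737) s1738)

def n795 : Cl (O (nat_lit 1)) (R (nat_lit 104465))
    (p (nat_lit 0x111) (nat_lit 1) (p (nat_lit 0x109) (nat_lit 0) (p (nat_lit 0xc9) (nat_lit 1) (p (nat_lit 0x119) (nat_lit 1) (p (nat_lit 0xc1) (nat_lit 0) (p (nat_lit 0x81) (nat_lit 1) (p (nat_lit 0x41) (nat_lit 1) (p (nat_lit 0x8078907089a) (nat_lit 0) (p (nat_lit 0x7870886861a) (nat_lit 0) (p (nat_lit 0x800070806078a) (nat_lit 0) (p (nat_lit 0x800068785850a) (nat_lit 0) (p (nat_lit 0x587050682) (nat_lit 0) (p (nat_lit 0x506848402) (nat_lit 0) (p (nat_lit 0x160014) (nat_lit 0) (p (nat_lit 0x16000c) (nat_lit 0) (p (nat_lit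 0x50612) (nat_lit 0) (p (nat_lit 0x40592) (nat_lit 0) (p (nat_lit 0x40492) (nat_lit 0) (p (nat_lit 0x30412) (nat_lit 0) (p (nat_lit 0x30212) (nat_lit 0) (p (nat_lit 0x20192) (nat_lit 0) (p (nat_lit 0x20092) (nat_lit 0) (p (nat_lit 0x10012) (nat_lit 0) pn))))))))))))))))))))))) :=
  Cl.node (nat_lit 0x3c4aa) (nat_lit 12) (by decide +kernel) (ClAll.succ (ClAll.succ (ClAll.succ (ClAll.succ (ClAll.succ (ClAll.succ (ClAll.succ (ClAll.succ (ClAll.succ (ClAll.succ (ClAll.succ (ClAll.succ ClAll.zero s1739) s1740) s1741) s1742) s1743) s1744) s1745) n744) n745) s1752) s1753) s1754)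

def n796 : Cl (O (nat_lit 1)) (R (nat_lit 104465))
    (p (nat_lit 0x119) (nat_lit 1) (p (nat_lit 0x111) (nat_lit 0) (p (nat_lit 0x109) (nat_lit 0) (p (nat_lit 0x101) (nat_lit 0) (p (nat_lit 0xc1) (nat_lit 1) (p (nat_lit 0x81) (nat_lit 1) (p (nat_lit 0x41) (nat_lit 1) (p (nat_lit 0x8078907089a) (nat_lit 0) (p (nat_lit 0x7870886861a) (nat_lit 0) (p (nat_lit 0x800070806078a) (nat_lit 0) (p (nat_lit 0x800068785850a) (nat_lit 0) (p (nat_lit 0x587050682) (nat_lit 0) (p (nat_lit 0x506848402) (nat_lit 0) (p (nat_lit 0x160014) (nat_lit 0) (p (nat_lit 0x16000c) (nat_lit 0) (p (nat_lit 0x50612) (nat_lit 0) (p (nat_lit 0x40592) (nat_lit 0) (p (nat_lit 0x40492) (nat_lit 0) (p (nat_lit 0x30412) (nat_lit 0) (p (nat_lit 0x30212) (nat_lit 0) (p (nat_lit 0x20192) (nat_lit 0) (p (nat_lit 0x20092) (nat_lit 0) (p (nat_lit 0x10012) (nat_lit 0) pn))))))))))))))))))))))) :=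
  Cl.node (nat_lit 0x3c4aa) (nat_lit 12) (by decide +kernel) (ClAll.succ (ClAll.succ (ClAll.succ (ClAll.succ (ClAll.succ (ClAll.succ (ClAll.succ (ClAll.succ (ClAll.succ (ClAll.succ (ClAll.succ (ClAll.succ ClAll.zero s1768) s1769) s1770) s1771) s1772) s1773) s1774) s1775) s1776) s1777) s1778) s1779)

def n797 : Cl (O (nat_lit 1)) (R (nat_lit 104465))
    (p (nat_lit 0x109) (nat_lit 1) (p (nat_lit 0x101) (nat_lit 0) (p (nat_lit 0x119) (nat_lit 0) (p (nat_lit 0xd1) (nat_lit 0) (p (nat_lit 0x89) (nat_lit 0) (p (nat_lit 0x41) (nat_lit 0) (p (nat_lit 0x8078907089a) (nat_lit 0) (p (nat_lit 0x7870886861a) (nat_lit 0) (p (nat_lit 0x800070806078a) (nat_lit 0) (p (nat_lit 0x800068785850a) (nat_lit 0) (p (nat_lit 0x587050682) (nat_lit 0) (p (nat_lit 0x506848402) (nat_lit 0) (p (nat_lit 0x160014) (nat_lit 0) (p (nat_lit 0x16000c) (nat_lit 0) (p (nat_lit 0x50612) (nat_lit 0) (p (nat_lit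 0x40592) (nat_lit 0) (p (nat_lit 0x40492) (nat_lit 0) (p (nat_lit 0x30412) (nat_lit 0) (p (nat_lit 0x30212) (nat_lit 0) (p (nat_lit 0x20192) (nat_lit 0) (p (nat_lit 0x20092) (nat_lit 0) (p (nat_lit 0x10012) (nat_lit 0) pn)))))))))))))))))))))) :=
  Cl.node (nat_lit 0xc9) (nat_lit 2) (by decide +kernel) (ClAll.succ (ClAll.succ ClAll.zero n746) n747)

def n798 : Cl (O (nat_lit 1)) (R (nat_lit 104465))
    (p (nat_lit 0x81) (nat_lit 0) (p (nat_lit 0x101) (nat_lit 1) (p (nat_lit 0x119) (nat_lit 0) (p (nat_lit 0xd1) (nat_lit 0) (p (nat_lit 0x89) (nat_lit 0) (p (nat_lit 0x41) (nat_lit 0) (p (nat_lit 0x8078907089a) (nat_lit 0) (p (nat_lit 0x7870886861a) (nat_lit 0) (p (nat_lit 0x800070806078a) (nat_lit 0) (p (nat_lit 0x800068785850a) (nat_lit 0) (p (nat_lit 0x587050682) (nat_lit 0) (p (nat_lit 0x506848402) (nat_lit 0) (p (nat_lit 0x160014) (nat_lit 0) (p (nat_lit 0x16000c)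 (nat_lit 0) (p (nat_lit 0x50612) (nat_lit 0) (p (nat_lit 0x40592) (nat_lit 0) (p (nat_lit 0x40492) (nat_lit 0) (p (nat_lit 0x30412) (nat_lit 0) (p (nat_lit 0x30212) (nat_lit 0) (p (nat_lit 0x20192) (nat_lit 0) (p (nat_lit 0x20092) (nat_lit 0) (p (nat_lit 0x10012) (nat_lit 0) pn)))))))))))))))))))))) :=
  Cl.node (nat_lit 0xc9) (nat_lit 2) (by decide +kernel) (ClAll.succ (ClAll.succ ClAll.zero n748) n749)

def n799 : Cl (O (nat_lit 1)) (R (nat_lit 104465))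
    (p (nat_lit 0x81) (nat_lit 1) (p (nat_lit 0x101) (nat_lit 1) (p (nat_lit 0x119) (nat_lit 0) (p (nat_lit 0xd1) (nat_lit 0) (p (nat_lit 0x89) (nat_lit 0) (p (nat_lit 0x41) (nat_lit 0) (p (nat_lit 0x8078907089a) (nat_lit 0) (p (nat_lit 0x7870886861a) (nat_lit 0) (p (nat_lit 0x800070806078a) (nat_lit 0) (p (nat_lit 0x800068785850a) (nat_lit 0) (p (nat_lit 0x587050682) (nat_lit 0) (p (nat_lit 0x506848402) (nat_lit 0) (p (nat_lit 0x160014) (nat_lit 0) (p (nat_lit 0x16000c) (nat_lit 0) (p (nat_lit 0x50612) (nat_lit 0) (p (nat_lit 0x40592) (nat_lit 0) (p (nat_lit 0x40492) (nat_lit 0) (p (nat_lit 0x30412) (nat_lit 0) (p (nat_lit 0x30212) (nat_lit 0) (p (nat_lit 0x20192) (nat_lit 0) (p (nat_lit 0x20092) (nat_lit 0) (p (nat_lit 0x10012) (nat_lit 0) pn)))))))))))))))))))))) :=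
  Cl.node (nat_lit 0xc1) (nat_lit 2) (by decide +kernel) (ClAll.succ (ClAll.succ ClAll.zero n750) s232)

def n800 : Cl (O (nat_lit 1)) (R (nat_lit 104465))
    (p (nat_lit 0xc9) (nat_lit 1) (p (nat_lit 0xc1) (nat_lit 0) (p (nat_lit 0x119) (nat_lit 1) (p (nat_lit 0xd1) (nat_lit 0) (p (nat_lit 0x89) (nat_lit 0) (p (nat_lit 0x41) (nat_lit 0) (p (nat_lit 0x8078907089a) (nat_lit 0) (p (nat_lit 0x7870886861a) (nat_lit 0) (p (nat_lit 0x800070806078a) (nat_lit 0) (p (nat_lit 0x800068785850a) (nat_lit 0) (p (nat_lit 0x587050682) (nat_lit 0) (p (nat_lit 0x506848402) (nat_lit 0) (p (nat_lit 0x160014) (nat_lit 0) (p (nat_lit 0x16000c) (nat_lit 0) (p (nat_lit 0x50612) (nat_lit 0) (p (nat_lit 0x40592) (nat_lit 0) (p (nat_lit 0x40492) (nat_lit 0) (p (nat_lit 0x30412) (nat_lit 0) (p (nat_lit 0x30212) (nat_lit 0) (p (nat_lit 0x20192) (nat_lit 0) (p (nat_lit 0x20092) (nat_lit 0) (p (nat_lit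 0x10012) (nat_lit 0) pn)))))))))))))))))))))) :=
  Cl.node (nat_lit 0x109) (nat_lit 2) (by decide +kernel) (ClAll.succ (ClAll.succ ClAll.zero s234) n751)

def n801 : Cl (O (nat_lit 1)) (R (nat_lit 104465))
    (p (nat_lit 0x81) (nat_lit 0) (p (nat_lit 0xc1) (nat_lit 1) (p (nat_lit 0x119) (nat_lit 1) (p (nat_lit 0xd1) (nat_lit 0) (p (nat_lit 0x89) (nat_lit 0) (p (nat_lit 0x41) (nat_lit 0) (p (nat_lit 0x8078907089a) (nat_lit 0) (p (nat_lit 0x7870886861a) (nat_lit 0) (p (nat_lit 0x800070806078a) (nat_lit 0) (p (nat_lit 0x800068785850a) (nat_lit 0) (p (nat_lit 0x587050682) (nat_lit 0) (p (nat_lit 0x506848402) (nat_lit 0) (p (nat_lit 0x160014) (nat_lit 0) (p (nat_lit 0x16000c) (nat_lit 0) (p (nat_lit 0x50612) (nat_lit 0) (p (nat_lit 0x40592) (nat_lit 0) (p (nat_lit 0x40492) (nat_lit 0) (p (nat_lit 0x30412) (nat_lit 0) (p (nat_lit 0x30212) (nat_lit 0) (p (nat_lit 0x20192)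 (nat_lit 0) (p (nat_lit 0x20092) (nat_lit 0) (p (nat_lit 0x10012) (nat_lit 0) pn)))))))))))))))))))))) :=
  Cl.node (nat_lit 0x109) (nat_lit 2) (by decide +kernel) (ClAll.succ (ClAll.succ ClAll.zero s278) n752)

def n802 : Cl (O (nat_lit 1)) (R (nat_lit 104465))
    (p (nat_lit 0x81) (nat_lit 1) (p (nat_lit 0xc1) (nat_lit 1) (p (nat_lit 0x119) (nat_lit 1) (p (nat_lit 0xd1) (nat_lit 0) (p (nat_lit 0x89) (nat_lit 0) (p (nat_lit 0x41) (nat_lit 0) (p (nat_lit 0x8078907089a) (nat_lit 0) (p (nat_lit 0x7870886861a) (nat_lit 0) (p (nat_lit 0x800070806078a) (nat_lit 0) (p (nat_lit 0x800068785850a) (nat_lit 0) (p (nat_lit 0x587050682) (nat_lit 0) (p (nat_lit 0x506848402) (nat_lit 0) (p (nat_lit 0x160014) (nat_lit 0) (p (nat_lit 0x16000c) (nat_lit 0) (p (nat_lit 0x50612) (nat_lit 0) (p (nat_lit 0x40592) (nat_lit 0) (p (nat_lit 0x40492) (nat_lit 0) (p (nat_lit 0x30412) (nat_lit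 0) (p (nat_lit 0x30212) (nat_lit 0) (p (nat_lit 0x20192) (nat_lit 0) (p (nat_lit 0x20092) (nat_lit 0) (p (nat_lit 0x10012) (nat_lit 0) pn)))))))))))))))))))))) :=
  Cl.node (nat_lit 0x101) (nat_lit 2) (by decide +kernel) (ClAll.succ (ClAll.succ ClAll.zero n753) n754)

def n803 : Cl (O (nat_lit 1)) (R (nat_lit 104465))
    (p (nat_lit 0x109) (nat_lit 1) (p (nat_lit 0x101) (nat_lit 0) (p (nat_lit 0x111) (nat_lit 0) (p (nat_lit 0xd1) (nat_lit 1) (p (nat_lit 0x89) (nat_lit 0) (p (nat_lit 0x41) (nat_lit 0) (p (nat_lit 0x8078907089a) (nat_lit 0) (p (nat_lit 0x7870886861a) (nat_lit 0) (p (nat_lit 0x800070806078a) (nat_lit 0) (p (nat_lit 0x800068785850a) (nat_lit 0) (p (nat_lit 0x587050682) (nat_lit 0) (p (nat_lit 0x506848402) (nat_lit 0) (p (nat_lit 0x160014) (nat_lit 0) (p (nat_lit 0x16000c) (nat_lit 0) (p (nat_lit 0x50612) (nat_lit 0) (p (nat_lit 0x40592) (nat_lit 0) (p (nat_lit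 0x40492) (nat_lit 0) (p (nat_lit 0x30412) (nat_lit 0) (p (nat_lit 0x30212) (nat_lit 0) (p (nat_lit 0x20192) (nat_lit 0) (p (nat_lit 0x20092) (nat_lit 0) (p (nat_lit 0x10012) (nat_lit 0) pn)))))))))))))))))))))) :=
  Cl.node (nat_lit 0xc1) (nat_lit 2) (by decide +kernel) (ClAll.succ (ClAll.succ ClAll.zero n755) n756)

def n804 : Cl (O (nat_lit 1)) (R (nat_lit 104465))
    (p (nat_lit 0x81) (nat_lit 0) (p (nat_lit 0x101) (nat_lit 1) (p (nat_lit 0x111) (nat_lit 0) (p (nat_lit 0xd1) (nat_lit 1) (p (nat_lit 0x89) (nat_lit 0) (p (nat_lit 0x41) (nat_lit 0) (p (nat_lit 0x8078907089a) (nat_lit 0) (p (nat_lit 0x7870886861a) (nat_lit 0) (p (nat_lit 0x800070806078a) (nat_lit 0) (p (nat_lit 0x800068785850a) (nat_lit 0) (p (nat_lit 0x587050682) (nat_lit 0) (p (nat_lit 0x506848402) (nat_lit 0) (p (nat_lit 0x160014) (nat_lit 0) (p (nat_lit 0x16000c) (nat_lit 0) (p (nat_lit 0x50612)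 (nat_lit 0) (p (nat_lit 0x40592) (nat_lit 0) (p (nat_lit 0x40492) (nat_lit 0) (p (nat_lit 0x30412) (nat_lit 0) (p (nat_lit 0x30212) (nat_lit 0) (p (nat_lit 0x20192) (nat_lit 0) (p (nat_lit 0x20092) (nat_lit 0) (p (nat_lit 0x10012) (nat_lit 0) pn)))))))))))))))))))))) :=
  Cl.node (nat_lit 0x119) (nat_lit 2) (by decide +kernel) (ClAll.succ (ClAll.succ ClAll.zero n757) n758)

def n805 : Cl (O (nat_lit 1)) (R (nat_lit 104465))
    (p (nat_lit 0x81) (nat_lit 1) (p (nat_lit 0x101) (nat_lit 1) (p (nat_lit 0x111) (nat_lit 0) (p (nat_lit 0xd1) (nat_lit 1) (p (nat_lit 0x89) (nat_lit 0) (p (nat_lit 0x41) (nat_lit 0) (p (nat_lit 0x8078907089a) (nat_lit 0) (p (nat_lit 0x7870886861a) (nat_lit 0) (p (nat_lit 0x800070806078a) (nat_lit 0) (p (nat_lit 0x800068785850a) (nat_lit 0) (p (nat_lit 0x587050682) (nat_lit 0) (p (nat_lit 0x506848402) (nat_lit 0) (p (nat_lit 0x160014) (nat_lit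 0) (p (nat_lit 0x16000c) (nat_lit 0) (p (nat_lit 0x50612) (nat_lit 0) (p (nat_lit 0x40592) (nat_lit 0) (p (nat_lit 0x40492) (nat_lit 0) (p (nat_lit 0x30412) (nat_lit 0) (p (nat_lit 0x30212) (nat_lit 0) (p (nat_lit 0x20192) (nat_lit 0) (p (nat_lit 0x20092) (nat_lit 0) (p (nat_lit 0x10012) (nat_lit 0) pn)))))))))))))))))))))) :=
  Cl.node (nat_lit 0xc1) (nat_lit 2) (by decide +kernel) (ClAll.succ (ClAll.succ ClAll.zero n759) s512)

def n806 : Cl (O (nat_lit 1)) (R (nat_lit 104465))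
    (p (nat_lit 0xc1) (nat_lit 1) (p (nat_lit 0x81) (nat_lit 1) (p (nat_lit 0x111) (nat_lit 1) (p (nat_lit 0xd1) (nat_lit 1) (p (nat_lit 0x89) (nat_lit 0) (p (nat_lit 0x41) (nat_lit 0) (p (nat_lit 0x8078907089a) (nat_lit 0) (p (nat_lit 0x7870886861a) (nat_lit 0) (p (nat_lit 0x800070806078a) (nat_lit 0) (p (nat_lit 0x800068785850a) (nat_lit 0) (p (nat_lit 0x587050682) (nat_lit 0) (p (nat_lit 0x506848402) (nat_lit 0) (p (nat_lit 0x160014) (nat_lit 0) (p (nat_lit 0x16000c) (nat_lit 0) (p (nat_lit 0x50612) (nat_lit 0) (p (nat_lit 0x40592) (nat_lit 0) (p (nat_lit 0x40492) (nat_lit 0) (p (nat_lit 0x30412) (nat_lit 0) (p (nat_lit 0x30212) (nat_lit 0) (p (nat_lit 0x20192) (nat_lit 0) (p (nat_lit 0x20092) (nat_lit 0) (p (nat_lit 0x10012) (nat_lit 0) pn)))))))))))))))))))))) :=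
  Cl.node (nat_lit 0x101) (nat_lit 2) (by decide +kernel) (ClAll.succ (ClAll.succ ClAll.zero n760) s529)

def n807 : Cl (O (nat_lit 1)) (R (nat_lit 104465))
    (p (nat_lit 0x109) (nat_lit 0) (p (nat_lit 0x101) (nat_lit 0) (p (nat_lit 0x119) (nat_lit 0) (p (nat_lit 0xc9) (nat_lit 0) (p (nat_lit 0x89) (nat_lit 1) (p (nat_lit 0x41) (nat_lit 0) (p (nat_lit 0x8078907089a) (nat_lit 0) (p (nat_lit 0x7870886861a) (nat_lit 0) (p (nat_lit 0x800070806078a) (nat_lit 0) (p (nat_lit 0x800068785850a) (nat_lit 0) (p (nat_lit 0x587050682) (nat_lit 0) (p (nat_lit 0x506848402) (nat_lit 0) (p (nat_lit 0x160014) (nat_lit 0) (p (nat_lit 0x16000c) (nat_lit 0) (p (nat_lit 0x50612) (nat_lit 0) (p (nat_lit 0x40592) (nat_lit 0) (p (nat_lit 0x40492) (nat_lit 0) (p (nat_lit 0x30412) (nat_lit 0) (p (nat_lit 0x30212) (nat_lit 0) (p (nat_lit 0x20192) (nat_lit 0) (p (nat_lit 0x20092) (nat_lit 0) (p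 (nat_lit 0x10012) (nat_lit 0) pn)))))))))))))))))))))) :=
  Cl.node (nat_lit 0x111) (nat_lit 2) (by decide +kernel) (ClAll.succ (ClAll.succ ClAll.zero s530) n761)

def n808 : Cl (O (nat_lit 1)) (R (nat_lit 104465))
    (p (nat_lit 0x109) (nat_lit 1) (p (nat_lit 0x101) (nat_lit 0) (p (nat_lit 0x119) (nat_lit 0) (p (nat_lit 0xc9) (nat_lit 0) (p (nat_lit 0x89) (nat_lit 1) (p (nat_lit 0x41) (nat_lit 0) (p (nat_lit 0x8078907089a) (nat_lit 0) (p (nat_lit 0x7870886861a) (nat_lit 0) (p (nat_lit 0x800070806078a) (nat_lit 0) (p (nat_lit 0x800068785850a) (nat_lit 0) (p (nat_lit 0x587050682) (nat_lit 0) (p (nat_lit 0x506848402) (nat_lit 0) (p (nat_lit 0x160014) (nat_lit 0) (p (nat_lit 0x16000c) (nat_lit 0) (p (nat_lit 0x50612) (nat_lit 0) (p (nat_lit 0x40592) (nat_lit 0) (p (nat_lit 0x40492) (nat_lit 0) (p (nat_lit 0x30412) (nat_lit 0) (p (nat_lit 0x30212) (nat_lit 0) (p (nat_lit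 0x20192) (nat_lit 0) (p (nat_lit 0x20092) (nat_lit 0) (p (nat_lit 0x10012) (nat_lit 0) pn)))))))))))))))))))))) :=
  Cl.node (nat_lit 0xd1) (nat_lit 2) (by decide +kernel) (ClAll.succ (ClAll.succ ClAll.zero n762) n763)

def n809 : Cl (O (nat_lit 1)) (R (nat_lit 104465))
    (p (nat_lit 0xc1) (nat_lit 0) (p (nat_lit 0x101) (nat_lit 1) (p (nat_lit 0x119) (nat_lit 0) (p (nat_lit 0xc9) (nat_lit 0) (p (nat_lit 0x89) (nat_lit 1) (p (nat_lit 0x41) (nat_lit 0) (p (nat_lit 0x8078907089a) (nat_lit 0) (p (nat_lit 0x7870886861a) (nat_lit 0) (p (nat_lit 0x800070806078a) (nat_lit 0) (p (nat_lit 0x800068785850a) (nat_lit 0) (p (nat_lit 0x587050682) (nat_lit 0) (p (nat_lit 0x506848402) (nat_lit 0) (p (nat_lit 0x160014) (nat_lit 0) (p (nat_lit 0x16000c) (nat_lit 0) (p (nat_lit 0x50612) (nat_lit 0) (p (nat_lit 0x40592) (nat_lit 0) (p (nat_lit 0x40492) (nat_lit 0) (p (nat_lit 0x30412)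 (nat_lit 0) (p (nat_lit 0x30212) (nat_lit 0) (p (nat_lit 0x20192) (nat_lit 0) (p (nat_lit 0x20092) (nat_lit 0) (p (nat_lit 0x10012) (nat_lit 0) pn)))))))))))))))))))))) :=
  Cl.node (nat_lit 0xd1) (nat_lit 2) (by decide +kernel) (ClAll.succ (ClAll.succ ClAll.zero n764) n765)

def n810 : Cl (O (nat_lit 1)) (R (nat_lit 104465))
    (p (nat_lit 0xd1) (nat_lit 1) (p (nat_lit 0xc1) (nat_lit 0) (p (nat_lit 0x119) (nat_lit 1) (p (nat_lit 0xc9) (nat_lit 0) (p (nat_lit 0x89) (nat_lit 1) (p (nat_lit 0x41) (nat_lit 0) (p (nat_lit 0x8078907089a) (nat_lit 0) (p (nat_lit 0x7870886861a) (nat_lit 0) (p (nat_lit 0x800070806078a) (nat_lit 0) (p (nat_lit 0x800068785850a) (nat_lit 0) (p (nat_lit 0x587050682) (nat_lit 0) (p (nat_lit 0x506848402) (nat_lit 0) (p (nat_lit 0x160014) (nat_lit 0) (p (nat_lit 0x16000c) (nat_lit 0) (p (nat_lit 0x50612) (nat_lit 0) (p (nat_lit 0x40592) (nat_lit 0)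 (p (nat_lit 0x40492) (nat_lit 0) (p (nat_lit 0x30412) (nat_lit 0) (p (nat_lit 0x30212) (nat_lit 0) (p (nat_lit 0x20192) (nat_lit 0) (p (nat_lit 0x20092) (nat_lit 0) (p (nat_lit 0x10012) (nat_lit 0) pn)))))))))))))))))))))) :=
  Cl.node (nat_lit 0x111) (nat_lit 2) (by decide +kernel) (ClAll.succ (ClAll.succ ClAll.zero s888) n766)

def n811 : Cl (O (nat_lit 1)) (R (nat_lit 104465))
    (p (nat_lit 0x101) (nat_lit 0) (p (nat_lit 0xc1) (nat_lit 1) (p (nat_lit 0x119) (nat_lit 1) (p (nat_lit 0xc9) (nat_lit 0) (p (nat_lit 0x89) (nat_lit 1) (p (nat_lit 0x41) (nat_lit 0) (p (nat_lit 0x8078907089a) (nat_lit 0) (p (nat_lit 0x7870886861a) (nat_lit 0) (p (nat_lit 0x800070806078a) (nat_lit 0) (p (nat_lit 0x800068785850a) (nat_lit 0) (p (nat_lit 0x587050682) (nat_lit 0) (p (nat_lit 0x506848402) (nat_lit 0) (p (nat_lit 0x160014) (nat_lit 0) (p (nat_lit 0x16000c) (nat_lit 0) (p (nat_lit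 0x50612) (nat_lit 0) (p (nat_lit 0x40592) (nat_lit 0) (p (nat_lit 0x40492) (nat_lit 0) (p (nat_lit 0x30412) (nat_lit 0) (p (nat_lit 0x30212) (nat_lit 0) (p (nat_lit 0x20192) (nat_lit 0) (p (nat_lit 0x20092) (nat_lit 0) (p (nat_lit 0x10012) (nat_lit 0) pn)))))))))))))))))))))) :=
  Cl.node (nat_lit 0x111) (nat_lit 2) (by decide +kernel) (ClAll.succ (ClAll.succ ClAll.zero n767) n768)

def n812 : Cl (O (nat_lit 1)) (R (nat_lit 104465))
    (p (nat_lit 0x101) (nat_lit 1) (p (nat_lit 0xc1) (nat_lit 1) (p (nat_lit 0x119) (nat_lit 1) (p (nat_lit 0xc9) (nat_lit 0) (p (nat_lit 0x89) (nat_lit 1) (p (nat_lit 0x41) (nat_lit 0) (p (nat_lit 0x8078907089a) (nat_lit 0) (p (nat_lit 0x7870886861a) (nat_lit 0) (p (nat_lit 0x800070806078a) (nat_lit 0) (p (nat_lit 0x800068785850a) (nat_lit 0) (p (nat_lit 0x587050682) (nat_lit 0) (p (nat_lit 0x506848402) (nat_lit 0) (p (nat_lit 0x160014)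 (nat_lit 0) (p (nat_lit 0x16000c) (nat_lit 0) (p (nat_lit 0x50612) (nat_lit 0) (p (nat_lit 0x40592) (nat_lit 0) (p (nat_lit 0x40492) (nat_lit 0) (p (nat_lit 0x30412) (nat_lit 0) (p (nat_lit 0x30212) (nat_lit 0) (p (nat_lit 0x20192) (nat_lit 0) (p (nat_lit 0x20092) (nat_lit 0) (p (nat_lit 0x10012) (nat_lit 0) pn)))))))))))))))))))))) :=
  Cl.node (nat_lit 0x444aa) (nat_lit 12) (by decide +kernel) (ClAll.succ (ClAll.succ (ClAll.succ (ClAll.succ (ClAll.succ (ClAll.succ (ClAll.succ (ClAll.succ (ClAll.succ (ClAll.succ (ClAll.succ (ClAll.succ ClAll.zero s977) s978) s979) s980) s981) s982) s983) s984) s985) s986) s987) s988)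

def n813 : Cl (O (nat_lit 1)) (R (nat_lit 104465))
    (p (nat_lit 0x111) (nat_lit 0) (p (nat_lit 0x101) (nat_lit 0) (p (nat_lit 0x109) (nat_lit 0) (p (nat_lit 0xc9) (nat_lit 1) (p (nat_lit 0x89) (nat_lit 1) (p (nat_lit 0x41) (nat_lit 0) (p (nat_lit 0x8078907089a) (nat_lit 0) (p (nat_lit 0x7870886861a) (nat_lit 0) (p (nat_lit 0x800070806078a) (nat_lit 0) (p (nat_lit 0x800068785850a) (nat_lit 0) (p (nat_lit 0x587050682) (nat_lit 0) (p (nat_lit 0x506848402) (nat_lit 0) (p (nat_lit 0x160014) (nat_lit 0) (p (nat_lit 0x16000c) (nat_lit 0) (p (nat_lit 0x50612) (nat_lit 0) (p (nat_lit 0x40592) (nat_lit 0) (p (nat_lit 0x40492) (nat_lit 0) (p (nat_lit 0x30412) (nat_lit 0) (p (nat_lit 0x30212) (nat_lit 0) (p (nat_lit 0x20192) (nat_lit 0) (p (nat_lit 0x20092) (nat_lit 0) (p (nat_lit 0x10012) (nat_lit 0) pn)))))))))))))))))))))) :=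
  Cl.node (nat_lit 0x119) (nat_lit 2) (by decide +kernel) (ClAll.succ (ClAll.succ ClAll.zero s989) n769)

def n814 : Cl (O (nat_lit 1)) (R (nat_lit 104465))
    (p (nat_lit 0x111) (nat_lit 1) (p (nat_lit 0x101) (nat_lit 0) (p (nat_lit 0x109) (nat_lit 0) (p (nat_lit 0xc9) (nat_lit 1) (p (nat_lit 0x89) (nat_lit 1) (p (nat_lit 0x41) (nat_lit 0) (p (nat_lit 0x8078907089a) (nat_lit 0) (p (nat_lit 0x7870886861a) (nat_lit 0) (p (nat_lit 0x800070806078a) (nat_lit 0) (p (nat_lit 0x800068785850a) (nat_lit 0) (p (nat_lit 0x587050682) (nat_lit 0) (p (nat_lit 0x506848402) (nat_lit 0) (p (nat_lit 0x160014) (nat_lit 0) (p (nat_lit 0x16000c) (nat_lit 0) (p (nat_lit 0x50612) (nat_lit 0) (p (nat_lit 0x40592) (nat_lit 0) (p (nat_lit 0x40492) (nat_lit 0) (p (nat_lit 0x30412) (nat_lit 0) (p (nat_lit 0x30212) (nat_lit 0) (p (nat_lit 0x20192) (nat_lit 0) (p (nat_lit 0x20092) (nat_lit 0) (p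 (nat_lit 0x10012) (nat_lit 0) pn)))))))))))))))))))))) :=
  Cl.node (nat_lit 0x444aa) (nat_lit 12) (by decide +kernel) (ClAll.succ (ClAll.succ (ClAll.succ (ClAll.succ (ClAll.succ (ClAll.succ (ClAll.succ (ClAll.succ (ClAll.succ (ClAll.succ (ClAll.succ (ClAll.succ ClAll.zero s1009) s1010) s1011) s1012) s1013) s1014) s1015) s1016) s1017) s1018) s1019) s1020)

def n815 : Cl (O (nat_lit 1)) (R (nat_lit 104465))
    (p (nat_lit 0x109) (nat_lit 1) (p (nat_lit 0x101) (nat_lit 0) (p (nat_lit 0x119) (nat_lit 0) (p (nat_lit 0xd1) (nat_lit 0) (p (nat_lit 0x81) (nat_lit 0) (p (nat_lit 0x41) (nat_lit 1) (p (nat_lit 0x8078907089a) (nat_lit 0) (p (nat_lit 0x7870886861a) (nat_lit 0) (p (nat_lit 0x800070806078a) (nat_lit 0) (p (nat_lit 0x800068785850a) (nat_lit 0) (p (nat_lit 0x587050682) (nat_lit 0) (p (nat_lit 0x506848402) (nat_lit 0) (p (nat_lit 0x160014) (nat_lit 0) (p (nat_lit 0x16000c)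 (nat_lit 0) (p (nat_lit 0x50612) (nat_lit 0) (p (nat_lit 0x40592) (nat_lit 0) (p (nat_lit 0x40492) (nat_lit 0) (p (nat_lit 0x30412) (nat_lit 0) (p (nat_lit 0x30212) (nat_lit 0) (p (nat_lit 0x20192) (nat_lit 0) (p (nat_lit 0x20092) (nat_lit 0) (p (nat_lit 0x10012) (nat_lit 0) pn)))))))))))))))))))))) :=
  Cl.node (nat_lit 0x89) (nat_lit 2) (by decide +kernel) (ClAll.succ (ClAll.succ ClAll.zero n770) n771)

def n816 : Cl (O (nat_lit 1)) (R (nat_lit 104465))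
    (p (nat_lit 0xc1) (nat_lit 0) (p (nat_lit 0x101) (nat_lit 1) (p (nat_lit 0x119) (nat_lit 0) (p (nat_lit 0xd1) (nat_lit 0) (p (nat_lit 0x81) (nat_lit 0) (p (nat_lit 0x41) (nat_lit 1) (p (nat_lit 0x8078907089a) (nat_lit 0) (p (nat_lit 0x7870886861a) (nat_lit 0) (p (nat_lit 0x800070806078a) (nat_lit 0) (p (nat_lit 0x800068785850a) (nat_lit 0) (p (nat_lit 0x587050682) (nat_lit 0) (p (nat_lit 0x506848402) (nat_lit 0) (p (nat_lit 0x160014) (nat_lit 0) (p (nat_lit 0x16000c) (nat_lit 0) (p (nat_lit 0x50612) (nat_lit 0) (p (nat_lit 0x40592) (nat_lit 0) (p (nat_lit 0x40492) (nat_lit 0) (p (nat_lit 0x30412) (nat_lit 0) (p (nat_lit 0x30212) (nat_lit 0) (p (nat_lit 0x20192) (nat_lit 0) (p (nat_lit 0x20092) (nat_lit 0) (p (nat_lit 0x10012) (nat_lit 0) pn)))))))))))))))))))))) :=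
  Cl.node (nat_lit 0x89) (nat_lit 2) (by decide +kernel) (ClAll.succ (ClAll.succ ClAll.zero n772) n773)

def n817 : Cl (O (nat_lit 1)) (R (nat_lit 104465))
    (p (nat_lit 0xc1) (nat_lit 1) (p (nat_lit 0x101) (nat_lit 1) (p (nat_lit 0x119) (nat_lit 0) (p (nat_lit 0xd1) (nat_lit 0) (p (nat_lit 0x81) (nat_lit 0) (p (nat_lit 0x41) (nat_lit 1) (p (nat_lit 0x8078907089a) (nat_lit 0) (p (nat_lit 0x7870886861a) (nat_lit 0) (p (nat_lit 0x800070806078a) (nat_lit 0) (p (nat_lit 0x800068785850a) (nat_lit 0) (p (nat_lit 0x587050682) (nat_lit 0) (p (nat_lit 0x506848402) (nat_lit 0) (p (nat_lit 0x160014) (nat_lit 0) (p (nat_lit 0x16000c) (nat_lit 0) (p (nat_lit 0x50612) (nat_lit 0) (p (nat_lit 0x40592) (nat_lit 0) (p (nat_lit 0x40492) (nat_lit 0) (p (nat_lit 0x30412) (nat_lit 0) (p (nat_lit 0x30212) (nat_lit 0) (p (nat_lit 0x20192) (nat_lit 0) (p (nat_lit 0x20092) (nat_lit 0) (p (nat_lit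 0x10012) (nat_lit 0) pn)))))))))))))))))))))) :=
  Cl.node (nat_lit 0x89) (nat_lit 2) (by decide +kernel) (ClAll.succ (ClAll.succ ClAll.zero n774) n775)

def n818 : Cl (O (nat_lit 1)) (R (nat_lit 104465))
    (p (nat_lit 0xc9) (nat_lit 1) (p (nat_lit 0xc1) (nat_lit 0) (p (nat_lit 0x119) (nat_lit 1) (p (nat_lit 0xd1) (nat_lit 0) (p (nat_lit 0x81) (nat_lit 0) (p (nat_lit 0x41) (nat_lit 1) (p (nat_lit 0x8078907089a) (nat_lit 0) (p (nat_lit 0x7870886861a) (nat_lit 0) (p (nat_lit 0x800070806078a) (nat_lit 0) (p (nat_lit 0x800068785850a) (nat_lit 0) (p (nat_lit 0x587050682) (nat_lit 0) (p (nat_lit 0x506848402) (nat_lit 0) (p (nat_lit 0x160014) (nat_lit 0) (p (nat_lit 0x16000c) (nat_lit 0) (p (nat_lit 0x50612) (nat_lit 0) (p (nat_lit 0x40592) (nat_lit 0) (p (nat_lit 0x40492) (nat_lit 0) (p (nat_lit 0x30412) (nat_lit 0) (p (nat_lit 0x30212) (nat_lit 0) (p (nat_lit 0x20192) (nat_lit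 0) (p (nat_lit 0x20092) (nat_lit 0) (p (nat_lit 0x10012) (nat_lit 0) pn)))))))))))))))))))))) :=
  Cl.node (nat_lit 0x89) (nat_lit 2) (by decide +kernel) (ClAll.succ (ClAll.succ ClAll.zero s1215) n776)

def n819 : Cl (O (nat_lit 1)) (R (nat_lit 104465))
    (p (nat_lit 0x101) (nat_lit 0) (p (nat_lit 0xc1) (nat_lit 1) (p (nat_lit 0x119) (nat_lit 1) (p (nat_lit 0xd1) (nat_lit 0) (p (nat_lit 0x81) (nat_lit 0) (p (nat_lit 0x41) (nat_lit 1) (p (nat_lit 0x8078907089a) (nat_lit 0) (p (nat_lit 0x7870886861a) (nat_lit 0) (p (nat_lit 0x800070806078a) (nat_lit 0) (p (nat_lit 0x800068785850a) (nat_lit 0) (p (nat_lit 0x587050682) (nat_lit 0) (p (nat_lit 0x506848402) (nat_lit 0) (p (nat_lit 0x160014) (nat_lit 0) (p (nat_lit 0x16000c) (nat_lit 0) (p (nat_lit 0x50612) (nat_lit 0) (p (nat_lit 0x40592) (nat_lit 0) (p (nat_lit 0x40492) (nat_lit 0) (p (nat_lit 0x30412) (nat_lit 0) (p (nat_lit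 0x30212) (nat_lit 0) (p (nat_lit 0x20192) (nat_lit 0) (p (nat_lit 0x20092) (nat_lit 0) (p (nat_lit 0x10012) (nat_lit 0) pn)))))))))))))))))))))) :=
  Cl.node (nat_lit 0x89) (nat_lit 2) (by decide +kernel) (ClAll.succ (ClAll.succ ClAll.zero s1249) n777)

def n820 : Cl (O (nat_lit 1)) (R (nat_lit 104465))
    (p (nat_lit 0x101) (nat_lit 1) (p (nat_lit 0xc1) (nat_lit 1) (p (nat_lit 0x119) (nat_lit 1) (p (nat_lit 0xd1) (nat_lit 0) (p (nat_lit 0x81) (nat_lit 0) (p (nat_lit 0x41) (nat_lit 1) (p (nat_lit 0x8078907089a) (nat_lit 0) (p (nat_lit 0x7870886861a) (nat_lit 0) (p (nat_lit 0x800070806078a) (nat_lit 0) (p (nat_lit 0x800068785850a) (nat_lit 0) (p (nat_lit 0x587050682) (nat_lit 0) (p (nat_lit 0x506848402) (nat_lit 0) (p (nat_lit 0x160014) (nat_lit 0) (p (nat_lit 0x16000c) (nat_lit 0) (p (nat_lit 0x50612) (nat_lit 0) (p (nat_lit 0x40592) (nat_lit 0) (p (nat_lit 0x40492)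 (nat_lit 0) (p (nat_lit 0x30412) (nat_lit 0) (p (nat_lit 0x30212) (nat_lit 0) (p (nat_lit 0x20192) (nat_lit 0) (p (nat_lit 0x20092) (nat_lit 0) (p (nat_lit 0x10012) (nat_lit 0) pn)))))))))))))))))))))) :=
  Cl.node (nat_lit 0x89) (nat_lit 2) (by decide +kernel) (ClAll.succ (ClAll.succ ClAll.zero n778) n779)

def n821 : Cl (O (nat_lit 1)) (R (nat_lit 104465))
    (p (nat_lit 0x109) (nat_lit 1) (p (nat_lit 0x101) (nat_lit 0) (p (nat_lit 0x111) (nat_lit 0) (p (nat_lit 0xd1) (nat_lit 1) (p (nat_lit 0x81) (nat_lit 0) (p (nat_lit 0x41) (nat_lit 1) (p (nat_lit 0x8078907089a) (nat_lit 0) (p (nat_lit 0x7870886861a) (nat_lit 0) (p (nat_lit 0x800070806078a) (nat_lit 0) (p (nat_lit 0x800068785850a) (nat_lit 0) (p (nat_lit 0x587050682) (nat_lit 0) (p (nat_lit 0x506848402) (nat_lit 0) (p (nat_lit 0x160014) (nat_lit 0) (p (nat_lit 0x16000c) (nat_lit 0) (p (nat_lit 0x50612) (nat_lit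 0) (p (nat_lit 0x40592) (nat_lit 0) (p (nat_lit 0x40492) (nat_lit 0) (p (nat_lit 0x30412) (nat_lit 0) (p (nat_lit 0x30212) (nat_lit 0) (p (nat_lit 0x20192) (nat_lit 0) (p (nat_lit 0x20092) (nat_lit 0) (p (nat_lit 0x10012) (nat_lit 0) pn)))))))))))))))))))))) :=
  Cl.node (nat_lit 0x89) (nat_lit 2) (by decide +kernel) (ClAll.succ (ClAll.succ ClAll.zero n780) n781)

def n822 : Cl (O (nat_lit 1)) (R (nat_lit 104465))
    (p (nat_lit 0x89) (nat_lit 0) (p (nat_lit 0x101) (nat_lit 1) (p (nat_lit 0x111) (nat_lit 0) (p (nat_lit 0xd1) (nat_lit 1) (p (nat_lit 0x81) (nat_lit 0) (p (nat_lit 0x41) (nat_lit 1) (p (nat_lit 0x8078907089a) (nat_lit 0) (p (nat_lit 0x7870886861a) (nat_lit 0) (p (nat_lit 0x800070806078a) (nat_lit 0) (p (nat_lit 0x800068785850a) (nat_lit 0) (p (nat_lit 0x587050682) (nat_lit 0) (p (nat_lit 0x506848402) (nat_lit 0) (p (nat_lit 0x160014) (nat_lit 0) (p (nat_lit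 0x16000c) (nat_lit 0) (p (nat_lit 0x50612) (nat_lit 0) (p (nat_lit 0x40592) (nat_lit 0) (p (nat_lit 0x40492) (nat_lit 0) (p (nat_lit 0x30412) (nat_lit 0) (p (nat_lit 0x30212) (nat_lit 0) (p (nat_lit 0x20192) (nat_lit 0) (p (nat_lit 0x20092) (nat_lit 0) (p (nat_lit 0x10012) (nat_lit 0) pn)))))))))))))))))))))) :=
  Cl.node (nat_lit 0x3cc2a) (nat_lit 12) (by decide +kernel) (ClAll.succ (ClAll.succ (ClAll.succ (ClAll.succ (ClAll.succ (ClAll.succ (ClAll.succ (ClAll.succ (ClAll.succ (ClAll.succ (ClAll.succ (ClAll.succ ClAll.zero n782) n783) n784) s1510) s1511) s1512) s1513) s1514) s1515) s1516) s1517) s1518)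

def n823 : Cl (O (nat_lit 1)) (R (nat_lit 104465))
    (p (nat_lit 0x89) (nat_lit 1) (p (nat_lit 0x101) (nat_lit 1) (p (nat_lit 0x111) (nat_lit 0) (p (nat_lit 0xd1) (nat_lit 1) (p (nat_lit 0x81) (nat_lit 0) (p (nat_lit 0x41) (nat_lit 1) (p (nat_lit 0x8078907089a) (nat_lit 0) (p (nat_lit 0x7870886861a) (nat_lit 0) (p (nat_lit 0x800070806078a) (nat_lit 0) (p (nat_lit 0x800068785850a) (nat_lit 0) (p (nat_lit 0x587050682) (nat_lit 0) (p (nat_lit 0x506848402) (nat_lit 0) (p (nat_lit 0x160014) (nat_lit 0) (p (nat_lit 0x16000c) (nat_lit 0) (p (nat_lit 0x50612) (nat_lit 0) (p (nat_lit 0x40592) (nat_lit 0) (p (nat_lit 0x40492) (nat_lit 0) (p (nat_lit 0x30412) (nat_lit 0) (p (nat_lit 0x30212) (nat_lit 0) (p (nat_lit 0x20192) (nat_lit 0) (p (nat_lit 0x20092) (nat_lit 0) (p (nat_lit 0x10012) (nat_lit 0) pn)))))))))))))))))))))) :=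
  Cl.node (nat_lit 0xc9) (nat_lit 2) (by decide +kernel) (ClAll.succ (ClAll.succ ClAll.zero n785) n786)

def n824 : Cl (O (nat_lit 1)) (R (nat_lit 104465))
    (p (nat_lit 0xc9) (nat_lit 1) (p (nat_lit 0x89) (nat_lit 1) (p (nat_lit 0x111) (nat_lit 1) (p (nat_lit 0xd1) (nat_lit 1) (p (nat_lit 0x81) (nat_lit 0) (p (nat_lit 0x41) (nat_lit 1) (p (nat_lit 0x8078907089a) (nat_lit 0) (p (nat_lit 0x7870886861a) (nat_lit 0) (p (nat_lit 0x800070806078a) (nat_lit 0) (p (nat_lit 0x800068785850a) (nat_lit 0) (p (nat_lit 0x587050682) (nat_lit 0) (p (nat_lit 0x506848402) (nat_lit 0) (p (nat_lit 0x160014) (nat_lit 0) (p (nat_lit 0x16000c) (nat_lit 0) (p (nat_lit 0x50612) (nat_lit 0) (p (nat_lit 0x40592) (nat_lit 0) (p (nat_lit 0x40492) (nat_lit 0) (p (nat_lit 0x30412) (nat_lit 0) (p (nat_lit 0x30212) (nat_lit 0) (p (nat_lit 0x20192) (nat_lit 0) (p (nat_lit 0x20092) (nat_lit 0) (p (nat_lit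 0x10012) (nat_lit 0) pn)))))))))))))))))))))) :=
  Cl.node (nat_lit 0x109) (nat_lit 2) (by decide +kernel) (ClAll.succ (ClAll.succ ClAll.zero n787) n788)

def n825 : Cl (O (nat_lit 1)) (R (nat_lit 104465))
    (p (nat_lit 0x109) (nat_lit 0) (p (nat_lit 0x101) (nat_lit 0) (p (nat_lit 0x119) (nat_lit 0) (p (nat_lit 0xc1) (nat_lit 0) (p (nat_lit 0x81) (nat_lit 1) (p (nat_lit 0x41) (nat_lit 1) (p (nat_lit 0x8078907089a) (nat_lit 0) (p (nat_lit 0x7870886861a) (nat_lit 0) (p (nat_lit 0x800070806078a) (nat_lit 0) (p (nat_lit 0x800068785850a) (nat_lit 0) (p (nat_lit 0x587050682) (nat_lit 0) (p (nat_lit 0x506848402) (nat_lit 0) (p (nat_lit 0x160014) (nat_lit 0) (p (nat_lit 0x16000c) (nat_lit 0) (p (nat_lit 0x50612) (nat_lit 0) (p (nat_lit 0x40592) (nat_lit 0) (p (nat_lit 0x40492) (nat_lit 0) (p (nat_lit 0x30412) (nat_lit 0) (p (nat_lit 0x30212) (nat_lit 0) (p (nat_lit 0x20192)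 (nat_lit 0) (p (nat_lit 0x20092) (nat_lit 0) (p (nat_lit 0x10012) (nat_lit 0) pn)))))))))))))))))))))) :=
  Cl.node (nat_lit 0x111) (nat_lit 2) (by decide +kernel) (ClAll.succ (ClAll.succ ClAll.zero s1601) n789)

def n826 : Cl (O (nat_lit 1)) (R (nat_lit 104465))
    (p (nat_lit 0x109) (nat_lit 1) (p (nat_lit 0x101) (nat_lit 0) (p (nat_lit 0x119) (nat_lit 0) (p (nat_lit 0xc1) (nat_lit 0) (p (nat_lit 0x81) (nat_lit 1) (p (nat_lit 0x41) (nat_lit 1) (p (nat_lit 0x8078907089a) (nat_lit 0) (p (nat_lit 0x7870886861a) (nat_lit 0) (p (nat_lit 0x800070806078a) (nat_lit 0) (p (nat_lit 0x800068785850a) (nat_lit 0) (p (nat_lit 0x587050682) (nat_lit 0) (p (nat_lit 0x506848402) (nat_lit 0) (p (nat_lit 0x160014) (nat_lit 0) (p (nat_lit 0x16000c) (nat_lit 0) (p (nat_lit 0x50612) (nat_lit 0) (p (nat_lit 0x40592) (nat_lit 0) (p (nat_lit 0x40492) (nat_lit 0) (p (nat_lit 0x30412) (nat_lit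 0) (p (nat_lit 0x30212) (nat_lit 0) (p (nat_lit 0x20192) (nat_lit 0) (p (nat_lit 0x20092) (nat_lit 0) (p (nat_lit 0x10012) (nat_lit 0) pn)))))))))))))))))))))) :=
  Cl.node (nat_lit 0xc9) (nat_lit 2) (by decide +kernel) (ClAll.succ (ClAll.succ ClAll.zero n790) s1641)

def n827 : Cl (O (nat_lit 1)) (R (nat_lit 104465))
    (p (nat_lit 0xc9) (nat_lit 0) (p (nat_lit 0x101) (nat_lit 1) (p (nat_lit 0x119) (nat_lit 0) (p (nat_lit 0xc1) (nat_lit 0) (p (nat_lit 0x81) (nat_lit 1) (p (nat_lit 0x41) (nat_lit 1) (p (nat_lit 0x8078907089a) (nat_lit 0) (p (nat_lit 0x7870886861a) (nat_lit 0) (p (nat_lit 0x800070806078a) (nat_lit 0) (p (nat_lit 0x800068785850a) (nat_lit 0) (p (nat_lit 0x587050682) (nat_lit 0) (p (nat_lit 0x506848402) (nat_lit 0) (p (nat_lit 0x160014) (nat_lit 0) (p (nat_lit 0x16000c) (nat_lit 0) (p (nat_lit 0x50612) (nat_lit 0) (p (nat_lit 0x40592) (nat_lit 0) (p (nat_lit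 0x40492) (nat_lit 0) (p (nat_lit 0x30412) (nat_lit 0) (p (nat_lit 0x30212) (nat_lit 0) (p (nat_lit 0x20192) (nat_lit 0) (p (nat_lit 0x20092) (nat_lit 0) (p (nat_lit 0x10012) (nat_lit 0) pn)))))))))))))))))))))) :=
  Cl.node (nat_lit 0xd1) (nat_lit 2) (by decide +kernel) (ClAll.succ (ClAll.succ ClAll.zero n791) n792)

def n828 : Cl (O (nat_lit 1)) (R (nat_lit 104465))
    (p (nat_lit 0xc9) (nat_lit 1) (p (nat_lit 0x101) (nat_lit 1) (p (nat_lit 0x119) (nat_lit 0) (p (nat_lit 0xc1) (nat_lit 0) (p (nat_lit 0x81) (nat_lit 1) (p (nat_lit 0x41) (nat_lit 1) (p (nat_lit 0x8078907089a) (nat_lit 0) (p (nat_lit 0x7870886861a) (nat_lit 0) (p (nat_lit 0x800070806078a) (nat_lit 0) (p (nat_lit 0x800068785850a) (nat_lit 0) (p (nat_lit 0x587050682) (nat_lit 0) (p (nat_lit 0x506848402) (nat_lit 0) (p (nat_lit 0x160014) (nat_lit 0) (p (nat_lit 0x16000c) (nat_lit 0) (p (nat_lit 0x50612)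 (nat_lit 0) (p (nat_lit 0x40592) (nat_lit 0) (p (nat_lit 0x40492) (nat_lit 0) (p (nat_lit 0x30412) (nat_lit 0) (p (nat_lit 0x30212) (nat_lit 0) (p (nat_lit 0x20192) (nat_lit 0) (p (nat_lit 0x20092) (nat_lit 0) (p (nat_lit 0x10012) (nat_lit 0) pn)))))))))))))))))))))) :=
  Cl.node (nat_lit 0x3c4aa) (nat_lit 12) (by decide +kernel) (ClAll.succ (ClAll.succ (ClAll.succ (ClAll.succ (ClAll.succ (ClAll.succ (ClAll.succ (ClAll.succ (ClAll.succ (ClAll.succ (ClAll.succ (ClAll.succ ClAll.zero s1694) s1695) s1696) s1697) s1698) s1699) s1700) s1701) s1702) s1703) s1704) s1705)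

def n829 : Cl (O (nat_lit 1)) (R (nat_lit 104465))
    (p (nat_lit 0xd1) (nat_lit 1) (p (nat_lit 0xc9) (nat_lit 0) (p (nat_lit 0x119) (nat_lit 1) (p (nat_lit 0xc1) (nat_lit 0) (p (nat_lit 0x81) (nat_lit 1) (p (nat_lit 0x41) (nat_lit 1) (p (nat_lit 0x8078907089a) (nat_lit 0) (p (nat_lit 0x7870886861a) (nat_lit 0) (p (nat_lit 0x800070806078a) (nat_lit 0) (p (nat_lit 0x800068785850a) (nat_lit 0) (p (nat_lit 0x587050682) (nat_lit 0) (p (nat_lit 0x506848402) (nat_lit 0) (p (nat_lit 0x160014) (nat_lit 0) (p (nat_lit 0x16000c) (nat_lit 0) (p (nat_lit 0x50612) (nat_lit 0) (p (nat_lit 0x40592) (nat_lit 0) (p (nat_lit 0x40492) (nat_lit 0) (p (nat_lit 0x30412) (nat_lit 0) (p (nat_lit 0x30212) (nat_lit 0) (p (nat_lit 0x20192) (nat_lit 0) (p (nat_lit 0x20092) (nat_lit 0) (p (nat_lit 0x10012) (nat_lit 0) pn)))))))))))))))))))))) :=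
  Cl.node (nat_lit 0x111) (nat_lit 2) (by decide +kernel) (ClAll.succ (ClAll.succ ClAll.zero s1707) n793)

def n830 : Cl (O (nat_lit 1)) (R (nat_lit 104465))
    (p (nat_lit 0x109) (nat_lit 0) (p (nat_lit 0xc9) (nat_lit 1) (p (nat_lit 0x119) (nat_lit 1) (p (nat_lit 0xc1) (nat_lit 0) (p (nat_lit 0x81) (nat_lit 1) (p (nat_lit 0x41) (nat_lit 1) (p (nat_lit 0x8078907089a) (nat_lit 0) (p (nat_lit 0x7870886861a) (nat_lit 0) (p (nat_lit 0x800070806078a) (nat_lit 0) (p (nat_lit 0x800068785850a) (nat_lit 0) (p (nat_lit 0x587050682) (nat_lit 0) (p (nat_lit 0x506848402) (nat_lit 0) (p (nat_lit 0x160014) (nat_lit 0) (p (nat_lit 0x16000c) (nat_lit 0) (p (nat_lit 0x50612) (nat_lit 0) (p (nat_lit 0x40592) (nat_lit 0) (p (nat_lit 0x40492) (nat_lit 0) (p (nat_lit 0x30412) (nat_lit 0) (p (nat_lit 0x30212) (nat_lit 0) (p (nat_lit 0x20192) (nat_lit 0) (p (nat_lit 0x20092) (nat_lit 0) (p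 (nat_lit 0x10012) (nat_lit 0) pn)))))))))))))))))))))) :=
  Cl.node (nat_lit 0x111) (nat_lit 2) (by decide +kernel) (ClAll.succ (ClAll.succ ClAll.zero n794) n795)

def n831 : Cl (O (nat_lit 1)) (R (nat_lit 104465))
    (p (nat_lit 0x109) (nat_lit 1) (p (nat_lit 0xc9) (nat_lit 1) (p (nat_lit 0x119) (nat_lit 1) (p (nat_lit 0xc1) (nat_lit 0) (p (nat_lit 0x81) (nat_lit 1) (p (nat_lit 0x41) (nat_lit 1) (p (nat_lit 0x8078907089a) (nat_lit 0) (p (nat_lit 0x7870886861a) (nat_lit 0) (p (nat_lit 0x800070806078a) (nat_lit 0) (p (nat_lit 0x800068785850a) (nat_lit 0) (p (nat_lit 0x587050682) (nat_lit 0) (p (nat_lit 0x506848402) (nat_lit 0) (p (nat_lit 0x160014) (nat_lit 0) (p (nat_lit 0x16000c) (nat_lit 0) (p (nat_lit 0x50612) (nat_lit 0) (p (nat_lit 0x40592) (nat_lit 0) (p (nat_lit 0x40492) (nat_lit 0) (p (nat_lit 0x30412) (nat_lit 0) (p (nat_lit 0x30212) (nat_lit 0) (p (nat_lit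 0x20192) (nat_lit 0) (p (nat_lit 0x20092) (nat_lit 0) (p (nat_lit 0x10012) (nat_lit 0) pn)))))))))))))))))))))) :=
  Cl.node (nat_lit 0x3c4aa) (nat_lit 12) (by decide +kernel) (ClAll.succ (ClAll.succ (ClAll.succ (ClAll.succ (ClAll.succ (ClAll.succ (ClAll.succ (ClAll.succ (ClAll.succ (ClAll.succ (ClAll.succ (ClAll.succ ClAll.zero s1755) s1756) s1757) s1758) s1759) s1760) s1761) s1762) s1763) s1764) s1765) s1766)

def n832 : Cl (O (nat_lit 1)) (R (nat_lit 104465))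
    (p (nat_lit 0x111) (nat_lit 0) (p (nat_lit 0x109) (nat_lit 0) (p (nat_lit 0x101) (nat_lit 0) (p (nat_lit 0xc1) (nat_lit 1) (p (nat_lit 0x81) (nat_lit 1) (p (nat_lit 0x41) (nat_lit 1) (p (nat_lit 0x8078907089a) (nat_lit 0) (p (nat_lit 0x7870886861a) (nat_lit 0) (p (nat_lit 0x800070806078a) (nat_lit 0) (p (nat_lit 0x800068785850a) (nat_lit 0) (p (nat_lit 0x587050682) (nat_lit 0) (p (nat_lit 0x506848402) (nat_lit 0) (p (nat_lit 0x160014) (nat_lit 0) (p (nat_lit 0x16000c) (nat_lit 0) (p (nat_lit 0x50612) (nat_lit 0) (p (nat_lit 0x40592) (nat_lit 0) (p (nat_lit 0x40492) (nat_lit 0) (p (nat_lit 0x30412) (nat_lit 0) (p (nat_lit 0x30212) (nat_lit 0) (p (nat_lit 0x20192) (nat_lit 0) (p (nat_lit 0x20092) (nat_lit 0) (p (nat_lit 0x10012) (nat_lit 0) pn)))))))))))))))))))))) :=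
  Cl.node (nat_lit 0x119) (nat_lit 2) (by decide +kernel) (ClAll.succ (ClAll.succ ClAll.zero s1767) n796)

def n833 : Cl (O (nat_lit 1)) (R (nat_lit 104465))
    (p (nat_lit 0x101) (nat_lit 0) (p (nat_lit 0x119) (nat_lit 0) (p (nat_lit 0xd1) (nat_lit 0) (p (nat_lit 0x89) (nat_lit 0) (p (nat_lit 0x41) (nat_lit 0) (p (nat_lit 0x8078907089a) (nat_lit 0) (p (nat_lit 0x7870886861a) (nat_lit 0) (p (nat_lit 0x800070806078a) (nat_lit 0) (p (nat_lit 0x800068785850a) (nat_lit 0) (p (nat_lit 0x587050682) (nat_lit 0) (p (nat_lit 0x506848402) (nat_lit 0) (p (nat_lit 0x160014) (nat_lit 0) (p (nat_lit 0x16000c) (nat_lit 0) (p (nat_lit 0x50612) (nat_lit 0) (p (nat_lit 0x40592) (nat_lit 0) (p (nat_lit 0x40492) (nat_lit 0) (p (nat_lit 0x30412) (nat_lit 0) (p (nat_lit 0x30212) (nat_lit 0) (p (nat_lit 0x20192) (nat_lit 0) (p (nat_lit 0x20092) (nat_lit 0) (p (nat_lit 0x10012) (nat_lit 0)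 pn))))))))))))))))))))) :=
  Cl.node (nat_lit 0x109) (nat_lit 2) (by decide +kernel) (ClAll.succ (ClAll.succ ClAll.zero s0) n797)

def n834 : Cl (O (nat_lit 1)) (R (nat_lit 104465))
    (p (nat_lit 0x101) (nat_lit 1) (p (nat_lit 0x119) (nat_lit 0) (p (nat_lit 0xd1) (nat_lit 0) (p (nat_lit 0x89) (nat_lit 0) (p (nat_lit 0x41) (nat_lit 0) (p (nat_lit 0x8078907089a) (nat_lit 0) (p (nat_lit 0x7870886861a) (nat_lit 0) (p (nat_lit 0x800070806078a) (nat_lit 0) (p (nat_lit 0x800068785850a) (nat_lit 0) (p (nat_lit 0x587050682) (nat_lit 0) (p (nat_lit 0x506848402) (nat_lit 0) (p (nat_lit 0x160014) (nat_lit 0) (p (nat_lit 0x16000c) (nat_lit 0) (p (nat_lit 0x50612) (nat_lit 0) (p (nat_lit 0x40592) (nat_lit 0) (p (nat_lit 0x40492) (nat_lit 0) (p (nat_lit 0x30412) (nat_lit 0) (p (nat_lit 0x30212) (nat_lit 0) (p (nat_lit 0x20192) (nat_lit 0) (p (nat_lit 0x20092) (nat_lit 0) (p (nat_lit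 0x10012) (nat_lit 0) pn))))))))))))))))))))) :=
  Cl.node (nat_lit 0x81) (nat_lit 2) (by decide +kernel) (ClAll.succ (ClAll.succ ClAll.zero n798) n799)

def n835 : Cl (O (nat_lit 1)) (R (nat_lit 104465))
    (p (nat_lit 0xc1) (nat_lit 0) (p (nat_lit 0x119) (nat_lit 1) (p (nat_lit 0xd1) (nat_lit 0) (p (nat_lit 0x89) (nat_lit 0) (p (nat_lit 0x41) (nat_lit 0) (p (nat_lit 0x8078907089a) (nat_lit 0) (p (nat_lit 0x7870886861a) (nat_lit 0) (p (nat_lit 0x800070806078a) (nat_lit 0) (p (nat_lit 0x800068785850a) (nat_lit 0) (p (nat_lit 0x587050682) (nat_lit 0) (p (nat_lit 0x506848402) (nat_lit 0) (p (nat_lit 0x160014) (nat_lit 0) (p (nat_lit 0x16000c) (nat_lit 0) (p (nat_lit 0x50612) (nat_lit 0) (p (nat_lit 0x40592) (nat_lit 0) (p (nat_lit 0x40492) (nat_lit 0) (p (nat_lit 0x30412) (nat_lit 0) (p (nat_lit 0x30212) (nat_lit 0) (p (nat_lit 0x20192) (nat_lit 0) (p (nat_lit 0x20092)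 (nat_lit 0) (p (nat_lit 0x10012) (nat_lit 0) pn))))))))))))))))))))) :=
  Cl.node (nat_lit 0xc9) (nat_lit 2) (by decide +kernel) (ClAll.succ (ClAll.succ ClAll.zero s233) n800)

def n836 : Cl (O (nat_lit 1)) (R (nat_lit 104465))
    (p (nat_lit 0xc1) (nat_lit 1) (p (nat_lit 0x119) (nat_lit 1) (p (nat_lit 0xd1) (nat_lit 0) (p (nat_lit 0x89) (nat_lit 0) (p (nat_lit 0x41) (nat_lit 0) (p (nat_lit 0x8078907089a) (nat_lit 0) (p (nat_lit 0x7870886861a) (nat_lit 0) (p (nat_lit 0x800070806078a) (nat_lit 0) (p (nat_lit 0x800068785850a) (nat_lit 0) (p (nat_lit 0x587050682) (nat_lit 0) (p (nat_lit 0x506848402) (nat_lit 0) (p (nat_lit 0x160014) (nat_lit 0) (p (nat_lit 0x16000c) (nat_lit 0) (p (nat_lit 0x50612) (nat_lit 0) (p (nat_lit 0x40592) (nat_lit 0) (p (nat_lit 0x40492) (nat_lit 0) (p (nat_lit 0x30412) (nat_lit 0) (p (nat_lit 0x30212) (nat_lit 0) (p (nat_lit 0x20192) (nat_lit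 0) (p (nat_lit 0x20092) (nat_lit 0) (p (nat_lit 0x10012) (nat_lit 0) pn))))))))))))))))))))) :=
  Cl.node (nat_lit 0x81) (nat_lit 2) (by decide +kernel) (ClAll.succ (ClAll.succ ClAll.zero n801) n802)

def n837 : Cl (O (nat_lit 1)) (R (nat_lit 104465))
    (p (nat_lit 0x101) (nat_lit 0) (p (nat_lit 0x111) (nat_lit 0) (p (nat_lit 0xd1) (nat_lit 1) (p (nat_lit 0x89) (nat_lit 0) (p (nat_lit 0x41) (nat_lit 0) (p (nat_lit 0x8078907089a) (nat_lit 0) (p (nat_lit 0x7870886861a) (nat_lit 0) (p (nat_lit 0x800070806078a) (nat_lit 0) (p (nat_lit 0x800068785850a) (nat_lit 0) (p (nat_lit 0x587050682) (nat_lit 0) (p (nat_lit 0x506848402) (nat_lit 0) (p (nat_lit 0x160014) (nat_lit 0) (p (nat_lit 0x16000c) (nat_lit 0) (p (nat_lit 0x50612) (nat_lit 0) (p (nat_lit 0x40592) (nat_lit 0) (p (nat_lit 0x40492) (nat_lit 0) (p (nat_lit 0x30412) (nat_lit 0) (p (nat_lit 0x30212) (nat_lit 0) (p (nat_lit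 0x20192) (nat_lit 0) (p (nat_lit 0x20092) (nat_lit 0) (p (nat_lit 0x10012) (nat_lit 0) pn))))))))))))))))))))) :=
  Cl.node (nat_lit 0x109) (nat_lit 2) (by decide +kernel) (ClAll.succ (ClAll.succ ClAll.zero s350) n803)

def n838 : Cl (O (nat_lit 1)) (R (nat_lit 104465))
    (p (nat_lit 0x101) (nat_lit 1) (p (nat_lit 0x111) (nat_lit 0) (p (nat_lit 0xd1) (nat_lit 1) (p (nat_lit 0x89) (nat_lit 0) (p (nat_lit 0x41) (nat_lit 0) (p (nat_lit 0x8078907089a) (nat_lit 0) (p (nat_lit 0x7870886861a) (nat_lit 0) (p (nat_lit 0x800070806078a) (nat_lit 0) (p (nat_lit 0x800068785850a) (nat_lit 0) (p (nat_lit 0x587050682) (nat_lit 0) (p (nat_lit 0x506848402) (nat_lit 0) (p (nat_lit 0x160014) (nat_lit 0) (p (nat_lit 0x16000c) (nat_lit 0) (p (nat_lit 0x50612) (nat_lit 0) (p (nat_lit 0x40592) (nat_lit 0) (p (nat_lit 0x40492) (nat_lit 0) (p (nat_lit 0x30412) (nat_lit 0) (p (nat_lit 0x30212)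 (nat_lit 0) (p (nat_lit 0x20192) (nat_lit 0) (p (nat_lit 0x20092) (nat_lit 0) (p (nat_lit 0x10012) (nat_lit 0) pn))))))))))))))))))))) :=
  Cl.node (nat_lit 0x81) (nat_lit 2) (by decide +kernel) (ClAll.succ (ClAll.succ ClAll.zero n804) n805)

def n839 : Cl (O (nat_lit 1)) (R (nat_lit 104465))
    (p (nat_lit 0x81) (nat_lit 1) (p (nat_lit 0x111) (nat_lit 1) (p (nat_lit 0xd1) (nat_lit 1) (p (nat_lit 0x89) (nat_lit 0) (p (nat_lit 0x41) (nat_lit 0) (p (nat_lit 0x8078907089a) (nat_lit 0) (p (nat_lit 0x7870886861a) (nat_lit 0) (p (nat_lit 0x800070806078a) (nat_lit 0) (p (nat_lit 0x800068785850a) (nat_lit 0) (p (nat_lit 0x587050682) (nat_lit 0) (p (nat_lit 0x506848402) (nat_lit 0) (p (nat_lit 0x160014) (nat_lit 0) (p (nat_lit 0x16000c) (nat_lit 0) (p (nat_lit 0x50612) (nat_lit 0) (p (nat_lit 0x40592) (nat_lit 0) (p (nat_lit 0x40492) (nat_lit 0) (p (nat_lit 0x30412) (nat_lit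 0) (p (nat_lit 0x30212) (nat_lit 0) (p (nat_lit 0x20192) (nat_lit 0) (p (nat_lit 0x20092) (nat_lit 0) (p (nat_lit 0x10012) (nat_lit 0) pn))))))))))))))))))))) :=
  Cl.node (nat_lit 0xc1) (nat_lit 2) (by decide +kernel) (ClAll.succ (ClAll.succ ClAll.zero s514) n806)

def n840 : Cl (O (nat_lit 1)) (R (nat_lit 104465))
    (p (nat_lit 0x101) (nat_lit 0) (p (nat_lit 0x119) (nat_lit 0) (p (nat_lit 0xc9) (nat_lit 0) (p (nat_lit 0x89) (nat_lit 1) (p (nat_lit 0x41) (nat_lit 0) (p (nat_lit 0x8078907089a) (nat_lit 0) (p (nat_lit 0x7870886861a) (nat_lit 0) (p (nat_lit 0x800070806078a) (nat_lit 0) (p (nat_lit 0x800068785850a) (nat_lit 0) (p (nat_lit 0x587050682) (nat_lit 0) (p (nat_lit 0x506848402) (nat_lit 0) (p (nat_lit 0x160014) (nat_lit 0) (p (nat_lit 0x16000c) (nat_lit 0) (p (nat_lit 0x50612) (nat_lit 0) (p (nat_lit 0x40592) (nat_lit 0) (p (nat_lit 0x40492) (nat_lit 0) (p (nat_lit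 0x30412) (nat_lit 0) (p (nat_lit 0x30212) (nat_lit 0) (p (nat_lit 0x20192) (nat_lit 0) (p (nat_lit 0x20092) (nat_lit 0) (p (nat_lit 0x10012) (nat_lit 0) pn))))))))))))))))))))) :=
  Cl.node (nat_lit 0x109) (nat_lit 2) (by decide +kernel) (ClAll.succ (ClAll.succ ClAll.zero n807) n808)

def n841 : Cl (O (nat_lit 1)) (R (nat_lit 104465))
    (p (nat_lit 0x101) (nat_lit 1) (p (nat_lit 0x119) (nat_lit 0) (p (nat_lit 0xc9) (nat_lit 0) (p (nat_lit 0x89) (nat_lit 1) (p (nat_lit 0x41) (nat_lit 0) (p (nat_lit 0x8078907089a) (nat_lit 0) (p (nat_lit 0x7870886861a) (nat_lit 0) (p (nat_lit 0x800070806078a) (nat_lit 0) (p (nat_lit 0x800068785850a) (nat_lit 0) (p (nat_lit 0x587050682) (nat_lit 0) (p (nat_lit 0x506848402) (nat_lit 0) (p (nat_lit 0x160014) (nat_lit 0) (p (nat_lit 0x16000c) (nat_lit 0) (p (nat_lit 0x50612) (nat_lit 0) (p (nat_lit 0x40592) (nat_lit 0) (p (nat_lit 0x40492)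 (nat_lit 0) (p (nat_lit 0x30412) (nat_lit 0) (p (nat_lit 0x30212) (nat_lit 0) (p (nat_lit 0x20192) (nat_lit 0) (p (nat_lit 0x20092) (nat_lit 0) (p (nat_lit 0x10012) (nat_lit 0) pn))))))))))))))))))))) :=
  Cl.node (nat_lit 0xc1) (nat_lit 2) (by decide +kernel) (ClAll.succ (ClAll.succ ClAll.zero n809) s886)

def n842 : Cl (O (nat_lit 1)) (R (nat_lit 104465))
    (p (nat_lit 0xc1) (nat_lit 0) (p (nat_lit 0x119) (nat_lit 1) (p (nat_lit 0xc9) (nat_lit 0) (p (nat_lit 0x89) (nat_lit 1) (p (nat_lit 0x41) (nat_lit 0) (p (nat_lit 0x8078907089a) (nat_lit 0) (p (nat_lit 0x7870886861a) (nat_lit 0) (p (nat_lit 0x800070806078a) (nat_lit 0) (p (nat_lit 0x800068785850a) (nat_lit 0) (p (nat_lit 0x587050682) (nat_lit 0) (p (nat_lit 0x506848402) (nat_lit 0) (p (nat_lit 0x160014) (nat_lit 0) (p (nat_lit 0x16000c) (nat_lit 0) (p (nat_lit 0x50612) (nat_lit 0) (p (nat_lit 0x40592) (nat_lit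 0) (p (nat_lit 0x40492) (nat_lit 0) (p (nat_lit 0x30412) (nat_lit 0) (p (nat_lit 0x30212) (nat_lit 0) (p (nat_lit 0x20192) (nat_lit 0) (p (nat_lit 0x20092) (nat_lit 0) (p (nat_lit 0x10012) (nat_lit 0) pn))))))))))))))))))))) :=
  Cl.node (nat_lit 0xd1) (nat_lit 2) (by decide +kernel) (ClAll.succ (ClAll.succ ClAll.zero s887) n810)

def n843 : Cl (O (nat_lit 1)) (R (nat_lit 104465))
    (p (nat_lit 0xc1) (nat_lit 1) (p (nat_lit 0x119) (nat_lit 1) (p (nat_lit 0xc9) (nat_lit 0) (p (nat_lit 0x89) (nat_lit 1) (p (nat_lit 0x41) (nat_lit 0) (p (nat_lit 0x8078907089a) (nat_lit 0) (p (nat_lit 0x7870886861a) (nat_lit 0) (p (nat_lit 0x800070806078a) (nat_lit 0) (p (nat_lit 0x800068785850a) (nat_lit 0) (p (nat_lit 0x587050682) (nat_lit 0) (p (nat_lit 0x506848402) (nat_lit 0) (p (nat_lit 0x160014) (nat_lit 0) (p (nat_lit 0x16000c) (nat_lit 0) (p (nat_lit 0x50612) (nat_lit 0) (p (nat_lit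 0x40592) (nat_lit 0) (p (nat_lit 0x40492) (nat_lit 0) (p (nat_lit 0x30412) (nat_lit 0) (p (nat_lit 0x30212) (nat_lit 0) (p (nat_lit 0x20192) (nat_lit 0) (p (nat_lit 0x20092) (nat_lit 0) (p (nat_lit 0x10012) (nat_lit 0) pn))))))))))))))))))))) :=
  Cl.node (nat_lit 0x101) (nat_lit 2) (by decide +kernel) (ClAll.succ (ClAll.succ ClAll.zero n811) n812)

def n844 : Cl (O (nat_lit 1)) (R (nat_lit 104465))
    (p (nat_lit 0x101) (nat_lit 0) (p (nat_lit 0x109) (nat_lit 0) (p (nat_lit 0xc9) (nat_lit 1) (p (nat_lit 0x89) (nat_lit 1) (p (nat_lit 0x41) (nat_lit 0) (p (nat_lit 0x8078907089a) (nat_lit 0) (p (nat_lit 0x7870886861a) (nat_lit 0) (p (nat_lit 0x800070806078a) (nat_lit 0) (p (nat_lit 0x800068785850a) (nat_lit 0) (p (nat_lit 0x587050682) (nat_lit 0) (p (nat_lit 0x506848402) (nat_lit 0) (p (nat_lit 0x160014) (nat_lit 0) (p (nat_lit 0x16000c) (nat_lit 0) (p (nat_lit 0x50612)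 (nat_lit 0) (p (nat_lit 0x40592) (nat_lit 0) (p (nat_lit 0x40492) (nat_lit 0) (p (nat_lit 0x30412) (nat_lit 0) (p (nat_lit 0x30212) (nat_lit 0) (p (nat_lit 0x20192) (nat_lit 0) (p (nat_lit 0x20092) (nat_lit 0) (p (nat_lit 0x10012) (nat_lit 0) pn))))))))))))))))))))) :=
  Cl.node (nat_lit 0x111) (nat_lit 2) (by decide +kernel) (ClAll.succ (ClAll.succ ClAll.zero n813) n814)

def n845 : Cl (O (nat_lit 1)) (R (nat_lit 104465))
    (p (nat_lit 0x101) (nat_lit 0) (p (nat_lit 0x119) (nat_lit 0) (p (nat_lit 0xd1) (nat_lit 0) (p (nat_lit 0x81) (nat_lit 0) (p (nat_lit 0x41) (nat_lit 1) (p (nat_lit 0x8078907089a) (nat_lit 0) (p (nat_lit 0x7870886861a) (nat_lit 0) (p (nat_lit 0x800070806078a) (nat_lit 0) (p (nat_lit 0x800068785850a) (nat_lit 0) (p (nat_lit 0x587050682) (nat_lit 0) (p (nat_lit 0x506848402) (nat_lit 0) (p (nat_lit 0x160014) (nat_lit 0) (p (nat_lit 0x16000c) (nat_lit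 0) (p (nat_lit 0x50612) (nat_lit 0) (p (nat_lit 0x40592) (nat_lit 0) (p (nat_lit 0x40492) (nat_lit 0) (p (nat_lit 0x30412) (nat_lit 0) (p (nat_lit 0x30212) (nat_lit 0) (p (nat_lit 0x20192) (nat_lit 0) (p (nat_lit 0x20092) (nat_lit 0) (p (nat_lit 0x10012) (nat_lit 0) pn))))))))))))))))))))) :=
  Cl.node (nat_lit 0x109) (nat_lit 2) (by decide +kernel) (ClAll.succ (ClAll.succ ClAll.zero s1023) n815)

def n846 : Cl (O (nat_lit 1)) (R (nat_lit 104465))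
    (p (nat_lit 0x101) (nat_lit 1) (p (nat_lit 0x119) (nat_lit 0) (p (nat_lit 0xd1) (nat_lit 0) (p (nat_lit 0x81) (nat_lit 0) (p (nat_lit 0x41) (nat_lit 1) (p (nat_lit 0x8078907089a) (nat_lit 0) (p (nat_lit 0x7870886861a) (nat_lit 0) (p (nat_lit 0x800070806078a) (nat_lit 0) (p (nat_lit 0x800068785850a) (nat_lit 0) (p (nat_lit 0x587050682) (nat_lit 0) (p (nat_lit 0x506848402) (nat_lit 0) (p (nat_lit 0x160014) (nat_lit 0) (p (nat_lit 0x16000c) (nat_lit 0) (p (nat_lit 0x50612) (nat_lit 0) (p (nat_lit 0x40592) (nat_lit 0) (p (nat_lit 0x40492) (nat_lit 0) (p (nat_lit 0x30412) (nat_lit 0) (p (nat_lit 0x30212) (nat_lit 0) (p (nat_lit 0x20192) (nat_lit 0) (p (nat_lit 0x20092) (nat_lit 0) (p (nat_lit 0x10012) (nat_lit 0) pn))))))))))))))))))))) :=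
  Cl.node (nat_lit 0xc1) (nat_lit 2) (by decide +kernel) (ClAll.succ (ClAll.succ ClAll.zero n816) n817)

def n847 : Cl (O (nat_lit 1)) (R (nat_lit 104465))
    (p (nat_lit 0xc1) (nat_lit 0) (p (nat_lit 0x119) (nat_lit 1) (p (nat_lit 0xd1) (nat_lit 0) (p (nat_lit 0x81) (nat_lit 0) (p (nat_lit 0x41) (nat_lit 1) (p (nat_lit 0x8078907089a) (nat_lit 0) (p (nat_lit 0x7870886861a) (nat_lit 0) (p (nat_lit 0x800070806078a) (nat_lit 0) (p (nat_lit 0x800068785850a) (nat_lit 0) (p (nat_lit 0x587050682) (nat_lit 0) (p (nat_lit 0x506848402) (nat_lit 0) (p (nat_lit 0x160014) (nat_lit 0) (p (nat_lit 0x16000c) (nat_lit 0) (p (nat_lit 0x50612) (nat_lit 0) (p (nat_lit 0x40592) (nat_lit 0) (p (nat_lit 0x40492) (nat_lit 0) (p (nat_lit 0x30412) (nat_lit 0) (p (nat_lit 0x30212) (nat_lit 0) (p (nat_lit 0x20192) (nat_lit 0) (p (nat_lit 0x20092) (nat_lit 0) (p (nat_lit 0x10012) (nat_lit 0) pn)))))))))))))))))))))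 :=
  Cl.node (nat_lit 0xc9) (nat_lit 2) (by decide +kernel) (ClAll.succ (ClAll.succ ClAll.zero s1214) n818)

def n848 : Cl (O (nat_lit 1)) (R (nat_lit 104465))
    (p (nat_lit 0xc1) (nat_lit 1) (p (nat_lit 0x119) (nat_lit 1) (p (nat_lit 0xd1) (nat_lit 0) (p (nat_lit 0x81) (nat_lit 0) (p (nat_lit 0x41) (nat_lit 1) (p (nat_lit 0x8078907089a) (nat_lit 0) (p (nat_lit 0x7870886861a) (nat_lit 0) (p (nat_lit 0x800070806078a) (nat_lit 0) (p (nat_lit 0x800068785850a) (nat_lit 0) (p (nat_lit 0x587050682) (nat_lit 0) (p (nat_lit 0x506848402) (nat_lit 0) (p (nat_lit 0x160014) (nat_lit 0) (p (nat_lit 0x16000c) (nat_lit 0) (p (nat_lit 0x50612) (nat_lit 0) (p (nat_lit 0x40592) (nat_lit 0) (p (nat_lit 0x40492) (nat_lit 0) (p (nat_lit 0x30412) (nat_lit 0) (p (nat_lit 0x30212) (nat_lit 0) (p (nat_lit 0x20192) (nat_lit 0) (p (nat_lit 0x20092) (nat_lit 0) (p (nat_lit 0x10012) (nat_lit 0)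 pn))))))))))))))))))))) :=
  Cl.node (nat_lit 0x101) (nat_lit 2) (by decide +kernel) (ClAll.succ (ClAll.succ ClAll.zero n819) n820)

def n849 : Cl (O (nat_lit 1)) (R (nat_lit 104465))
    (p (nat_lit 0x101) (nat_lit 0) (p (nat_lit 0x111) (nat_lit 0) (p (nat_lit 0xd1) (nat_lit 1) (p (nat_lit 0x81) (nat_lit 0) (p (nat_lit 0x41) (nat_lit 1) (p (nat_lit 0x8078907089a) (nat_lit 0) (p (nat_lit 0x7870886861a) (nat_lit 0) (p (nat_lit 0x800070806078a) (nat_lit 0) (p (nat_lit 0x800068785850a) (nat_lit 0) (p (nat_lit 0x587050682) (nat_lit 0) (p (nat_lit 0x506848402) (nat_lit 0) (p (nat_lit 0x160014) (nat_lit 0) (p (nat_lit 0x16000c) (nat_lit 0) (p (nat_lit 0x50612) (nat_lit 0) (p (nat_lit 0x40592) (nat_lit 0) (p (nat_lit 0x40492) (nat_lit 0) (p (nat_lit 0x30412) (nat_lit 0) (p (nat_lit 0x30212) (nat_lit 0) (p (nat_lit 0x20192) (nat_lit 0) (p (nat_lit 0x20092) (nat_lit 0) (p (nat_lit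 0x10012) (nat_lit 0) pn))))))))))))))))))))) :=
  Cl.node (nat_lit 0x109) (nat_lit 2) (by decide +kernel) (ClAll.succ (ClAll.succ ClAll.zero s1350) n821)

def n850 : Cl (O (nat_lit 1)) (R (nat_lit 104465))
    (p (nat_lit 0x101) (nat_lit 1) (p (nat_lit 0x111) (nat_lit 0) (p (nat_lit 0xd1) (nat_lit 1) (p (nat_lit 0x81) (nat_lit 0) (p (nat_lit 0x41) (nat_lit 1) (p (nat_lit 0x8078907089a) (nat_lit 0) (p (nat_lit 0x7870886861a) (nat_lit 0) (p (nat_lit 0x800070806078a) (nat_lit 0) (p (nat_lit 0x800068785850a) (nat_lit 0) (p (nat_lit 0x587050682) (nat_lit 0) (p (nat_lit 0x506848402) (nat_lit 0) (p (nat_lit 0x160014) (nat_lit 0) (p (nat_lit 0x16000c) (nat_lit 0) (p (nat_lit 0x50612) (nat_lit 0) (p (nat_lit 0x40592) (nat_lit 0) (p (nat_lit 0x40492) (nat_lit 0) (p (nat_lit 0x30412) (nat_lit 0) (p (nat_lit 0x30212) (nat_lit 0) (p (nat_lit 0x20192) (nat_lit 0) (p (nat_lit 0x20092)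 (nat_lit 0) (p (nat_lit 0x10012) (nat_lit 0) pn))))))))))))))))))))) :=
  Cl.node (nat_lit 0x89) (nat_lit 2) (by decide +kernel) (ClAll.succ (ClAll.succ ClAll.zero n822) n823)

def n851 : Cl (O (nat_lit 1)) (R (nat_lit 104465))
    (p (nat_lit 0x89) (nat_lit 1) (p (nat_lit 0x111) (nat_lit 1) (p (nat_lit 0xd1) (nat_lit 1) (p (nat_lit 0x81) (nat_lit 0) (p (nat_lit 0x41) (nat_lit 1) (p (nat_lit 0x8078907089a) (nat_lit 0) (p (nat_lit 0x7870886861a) (nat_lit 0) (p (nat_lit 0x800070806078a) (nat_lit 0) (p (nat_lit 0x800068785850a) (nat_lit 0) (p (nat_lit 0x587050682) (nat_lit 0) (p (nat_lit 0x506848402) (nat_lit 0) (p (nat_lit 0x160014) (nat_lit 0) (p (nat_lit 0x16000c) (nat_lit 0) (p (nat_lit 0x50612) (nat_lit 0) (p (nat_lit 0x40592) (nat_lit 0) (p (nat_lit 0x40492) (nat_lit 0) (p (nat_lit 0x30412) (nat_lit 0) (p (nat_lit 0x30212) (nat_lit 0) (p (nat_lit 0x20192) (nat_lit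 0) (p (nat_lit 0x20092) (nat_lit 0) (p (nat_lit 0x10012) (nat_lit 0) pn))))))))))))))))))))) :=
  Cl.node (nat_lit 0xc9) (nat_lit 2) (by decide +kernel) (ClAll.succ (ClAll.succ ClAll.zero s1573) n824)

def n852 : Cl (O (nat_lit 1)) (R (nat_lit 104465))
    (p (nat_lit 0x101) (nat_lit 0) (p (nat_lit 0x119) (nat_lit 0) (p (nat_lit 0xc1) (nat_lit 0) (p (nat_lit 0x81) (nat_lit 1) (p (nat_lit 0x41) (nat_lit 1) (p (nat_lit 0x8078907089a) (nat_lit 0) (p (nat_lit 0x7870886861a) (nat_lit 0) (p (nat_lit 0x800070806078a) (nat_lit 0) (p (nat_lit 0x800068785850a) (nat_lit 0) (p (nat_lit 0x587050682) (nat_lit 0) (p (nat_lit 0x506848402) (nat_lit 0) (p (nat_lit 0x160014) (nat_lit 0) (p (nat_lit 0x16000c) (nat_lit 0) (p (nat_lit 0x50612) (nat_lit 0) (p (nat_lit 0x40592) (nat_lit 0) (p (nat_lit 0x40492) (nat_lit 0) (p (nat_lit 0x30412) (nat_lit 0) (p (nat_lit 0x30212) (nat_lit 0) (p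 (nat_lit 0x20192) (nat_lit 0) (p (nat_lit 0x20092) (nat_lit 0) (p (nat_lit 0x10012) (nat_lit 0) pn))))))))))))))))))))) :=
  Cl.node (nat_lit 0x109) (nat_lit 2) (by decide +kernel) (ClAll.succ (ClAll.succ ClAll.zero n825) n826)

def n853 : Cl (O (nat_lit 1)) (R (nat_lit 104465))
    (p (nat_lit 0x101) (nat_lit 1) (p (nat_lit 0x119) (nat_lit 0) (p (nat_lit 0xc1) (nat_lit 0) (p (nat_lit 0x81) (nat_lit 1) (p (nat_lit 0x41) (nat_lit 1) (p (nat_lit 0x8078907089a) (nat_lit 0) (p (nat_lit 0x7870886861a) (nat_lit 0) (p (nat_lit 0x800070806078a) (nat_lit 0) (p (nat_lit 0x800068785850a) (nat_lit 0) (p (nat_lit 0x587050682) (nat_lit 0) (p (nat_lit 0x506848402) (nat_lit 0) (p (nat_lit 0x160014) (nat_lit 0) (p (nat_lit 0x16000c) (nat_lit 0) (p (nat_lit 0x50612) (nat_lit 0) (p (nat_lit 0x40592) (nat_lit 0) (p (nat_lit 0x40492) (nat_lit 0) (p (nat_lit 0x30412) (nat_lit 0) (p (nat_lit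 0x30212) (nat_lit 0) (p (nat_lit 0x20192) (nat_lit 0) (p (nat_lit 0x20092) (nat_lit 0) (p (nat_lit 0x10012) (nat_lit 0) pn))))))))))))))))))))) :=
  Cl.node (nat_lit 0xc9) (nat_lit 2) (by decide +kernel) (ClAll.succ (ClAll.succ ClAll.zero n827) n828)

def n854 : Cl (O (nat_lit 1)) (R (nat_lit 104465))
    (p (nat_lit 0xc9) (nat_lit 0) (p (nat_lit 0x119) (nat_lit 1) (p (nat_lit 0xc1) (nat_lit 0) (p (nat_lit 0x81) (nat_lit 1) (p (nat_lit 0x41) (nat_lit 1) (p (nat_lit 0x8078907089a) (nat_lit 0) (p (nat_lit 0x7870886861a) (nat_lit 0) (p (nat_lit 0x800070806078a) (nat_lit 0) (p (nat_lit 0x800068785850a) (nat_lit 0) (p (nat_lit 0x587050682) (nat_lit 0) (p (nat_lit 0x506848402) (nat_lit 0) (p (nat_lit 0x160014) (nat_lit 0) (p (nat_lit 0x16000c) (nat_lit 0) (p (nat_lit 0x50612) (nat_lit 0) (p (nat_lit 0x40592) (nat_lit 0) (p (nat_lit 0x40492) (nat_lit 0) (p (nat_lit 0x30412)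 (nat_lit 0) (p (nat_lit 0x30212) (nat_lit 0) (p (nat_lit 0x20192) (nat_lit 0) (p (nat_lit 0x20092) (nat_lit 0) (p (nat_lit 0x10012) (nat_lit 0) pn))))))))))))))))))))) :=
  Cl.node (nat_lit 0xd1) (nat_lit 2) (by decide +kernel) (ClAll.succ (ClAll.succ ClAll.zero s1706) n829)

def n855 : Cl (O (nat_lit 1)) (R (nat_lit 104465))
    (p (nat_lit 0xc9) (nat_lit 1) (p (nat_lit 0x119) (nat_lit 1) (p (nat_lit 0xc1) (nat_lit 0) (p (nat_lit 0x81) (nat_lit 1) (p (nat_lit 0x41) (nat_lit 1) (p (nat_lit 0x8078907089a) (nat_lit 0) (p (nat_lit 0x7870886861a) (nat_lit 0) (p (nat_lit 0x800070806078a) (nat_lit 0) (p (nat_lit 0x800068785850a) (nat_lit 0) (p (nat_lit 0x587050682) (nat_lit 0) (p (nat_lit 0x506848402) (nat_lit 0) (p (nat_lit 0x160014) (nat_lit 0) (p (nat_lit 0x16000c) (nat_lit 0) (p (nat_lit 0x50612) (nat_lit 0) (p (nat_lit 0x40592) (nat_lit 0) (p (nat_lit 0x40492) (nat_lit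 0) (p (nat_lit 0x30412) (nat_lit 0) (p (nat_lit 0x30212) (nat_lit 0) (p (nat_lit 0x20192) (nat_lit 0) (p (nat_lit 0x20092) (nat_lit 0) (p (nat_lit 0x10012) (nat_lit 0) pn))))))))))))))))))))) :=
  Cl.node (nat_lit 0x109) (nat_lit 2) (by decide +kernel) (ClAll.succ (ClAll.succ ClAll.zero n830) n831)

def n856 : Cl (O (nat_lit 1)) (R (nat_lit 104465))
    (p (nat_lit 0x109) (nat_lit 0) (p (nat_lit 0x101) (nat_lit 0) (p (nat_lit 0xc1) (nat_lit 1) (p (nat_lit 0x81) (nat_lit 1) (p (nat_lit 0x41) (nat_lit 1) (p (nat_lit 0x8078907089a) (nat_lit 0) (p (nat_lit 0x7870886861a) (nat_lit 0) (p (nat_lit 0x800070806078a) (nat_lit 0) (p (nat_lit 0x800068785850a) (nat_lit 0) (p (nat_lit 0x587050682) (nat_lit 0) (p (nat_lit 0x506848402) (nat_lit 0) (p (nat_lit 0x160014) (nat_lit 0) (p (nat_lit 0x16000c) (nat_lit 0) (p (nat_lit 0x50612) (nat_lit 0) (p (nat_lit 0x40592) (nat_lit 0) (p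 (nat_lit 0x40492) (nat_lit 0) (p (nat_lit 0x30412) (nat_lit 0) (p (nat_lit 0x30212) (nat_lit 0) (p (nat_lit 0x20192) (nat_lit 0) (p (nat_lit 0x20092) (nat_lit 0) (p (nat_lit 0x10012) (nat_lit 0) pn))))))))))))))))))))) :=
  Cl.node (nat_lit 0x111) (nat_lit 2) (by decide +kernel) (ClAll.succ (ClAll.succ ClAll.zero n832) s1780)

def n857 : Cl (O (nat_lit 1)) (R (nat_lit 104465))
    (p (nat_lit 0x119) (nat_lit 0) (p (nat_lit 0xd1) (nat_lit 0) (p (nat_lit 0x89) (nat_lit 0) (p (nat_lit 0x41) (nat_lit 0) (p (nat_lit 0x8078907089a) (nat_lit 0) (p (nat_lit 0x7870886861a) (nat_lit 0) (p (nat_lit 0x800070806078a) (nat_lit 0) (p (nat_lit 0x800068785850a) (nat_lit 0) (p (nat_lit 0x587050682) (nat_lit 0) (p (nat_lit 0x506848402) (nat_lit 0) (p (nat_lit 0x160014) (nat_lit 0) (p (nat_lit 0x16000c) (nat_lit 0) (p (nat_lit 0x50612) (nat_lit 0) (p (nat_lit 0x40592) (nat_lit 0) (p (nat_lit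 0x40492) (nat_lit 0) (p (nat_lit 0x30412) (nat_lit 0) (p (nat_lit 0x30212) (nat_lit 0) (p (nat_lit 0x20192) (nat_lit 0) (p (nat_lit 0x20092) (nat_lit 0) (p (nat_lit 0x10012) (nat_lit 0) pn)))))))))))))))))))) :=
  Cl.node (nat_lit 0x101) (nat_lit 2) (by decide +kernel) (ClAll.succ (ClAll.succ ClAll.zero n833) n834)

def n858 : Cl (O (nat_lit 1)) (R (nat_lit 104465))
    (p (nat_lit 0x119) (nat_lit 1) (p (nat_lit 0xd1) (nat_lit 0) (p (nat_lit 0x89) (nat_lit 0) (p (nat_lit 0x41) (nat_lit 0) (p (nat_lit 0x8078907089a) (nat_lit 0) (p (nat_lit 0x7870886861a) (nat_lit 0) (p (nat_lit 0x800070806078a) (nat_lit 0) (p (nat_lit 0x800068785850a) (nat_lit 0) (p (nat_lit 0x587050682) (nat_lit 0) (p (nat_lit 0x506848402) (nat_lit 0) (p (nat_lit 0x160014) (nat_lit 0) (p (nat_lit 0x16000c) (nat_lit 0) (p (nat_lit 0x50612) (nat_lit 0) (p (nat_lit 0x40592) (nat_lit 0) (p (nat_lit 0x40492)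 (nat_lit 0) (p (nat_lit 0x30412) (nat_lit 0) (p (nat_lit 0x30212) (nat_lit 0) (p (nat_lit 0x20192) (nat_lit 0) (p (nat_lit 0x20092) (nat_lit 0) (p (nat_lit 0x10012) (nat_lit 0) pn)))))))))))))))))))) :=
  Cl.node (nat_lit 0xc1) (nat_lit 2) (by decide +kernel) (ClAll.succ (ClAll.succ ClAll.zero n835) n836)

def n859 : Cl (O (nat_lit 1)) (R (nat_lit 104465))
    (p (nat_lit 0x111) (nat_lit 0) (p (nat_lit 0xd1) (nat_lit 1) (p (nat_lit 0x89) (nat_lit 0) (p (nat_lit 0x41) (nat_lit 0) (p (nat_lit 0x8078907089a) (nat_lit 0) (p (nat_lit 0x7870886861a) (nat_lit 0) (p (nat_lit 0x800070806078a) (nat_lit 0) (p (nat_lit 0x800068785850a) (nat_lit 0) (p (nat_lit 0x587050682) (nat_lit 0) (p (nat_lit 0x506848402) (nat_lit 0) (p (nat_lit 0x160014) (nat_lit 0) (p (nat_lit 0x16000c) (nat_lit 0) (p (nat_lit 0x50612) (nat_lit 0) (p (nat_lit 0x40592) (nat_lit 0) (p (nat_lit 0x40492) (nat_lit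 0) (p (nat_lit 0x30412) (nat_lit 0) (p (nat_lit 0x30212) (nat_lit 0) (p (nat_lit 0x20192) (nat_lit 0) (p (nat_lit 0x20092) (nat_lit 0) (p (nat_lit 0x10012) (nat_lit 0) pn)))))))))))))))))))) :=
  Cl.node (nat_lit 0x101) (nat_lit 2) (by decide +kernel) (ClAll.succ (ClAll.succ ClAll.zero n837) n838)

def n860 : Cl (O (nat_lit 1)) (R (nat_lit 104465))
    (p (nat_lit 0x111) (nat_lit 1) (p (nat_lit 0xd1) (nat_lit 1) (p (nat_lit 0x89) (nat_lit 0) (p (nat_lit 0x41) (nat_lit 0) (p (nat_lit 0x8078907089a) (nat_lit 0) (p (nat_lit 0x7870886861a) (nat_lit 0) (p (nat_lit 0x800070806078a) (nat_lit 0) (p (nat_lit 0x800068785850a) (nat_lit 0) (p (nat_lit 0x587050682) (nat_lit 0) (p (nat_lit 0x506848402) (nat_lit 0) (p (nat_lit 0x160014) (nat_lit 0) (p (nat_lit 0x16000c) (nat_lit 0) (p (nat_lit 0x50612) (nat_lit 0) (p (nat_lit 0x40592) (nat_lit 0) (p (nat_lit 0x40492) (nat_lit 0) (p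 (nat_lit 0x30412) (nat_lit 0) (p (nat_lit 0x30212) (nat_lit 0) (p (nat_lit 0x20192) (nat_lit 0) (p (nat_lit 0x20092) (nat_lit 0) (p (nat_lit 0x10012) (nat_lit 0) pn)))))))))))))))))))) :=
  Cl.node (nat_lit 0x81) (nat_lit 2) (by decide +kernel) (ClAll.succ (ClAll.succ ClAll.zero s513) n839)

def n861 : Cl (O (nat_lit 1)) (R (nat_lit 104465))
    (p (nat_lit 0x119) (nat_lit 0) (p (nat_lit 0xc9) (nat_lit 0) (p (nat_lit 0x89) (nat_lit 1) (p (nat_lit 0x41) (nat_lit 0) (p (nat_lit 0x8078907089a) (nat_lit 0) (p (nat_lit 0x7870886861a) (nat_lit 0) (p (nat_lit 0x800070806078a) (nat_lit 0) (p (nat_lit 0x800068785850a) (nat_lit 0) (p (nat_lit 0x587050682) (nat_lit 0) (p (nat_lit 0x506848402) (nat_lit 0) (p (nat_lit 0x160014) (nat_lit 0) (p (nat_lit 0x16000c) (nat_lit 0) (p (nat_lit 0x50612) (nat_lit 0) (p (nat_lit 0x40592) (nat_lit 0) (p (nat_lit 0x40492) (nat_lit 0) (p (nat_lit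 0x30412) (nat_lit 0) (p (nat_lit 0x30212) (nat_lit 0) (p (nat_lit 0x20192) (nat_lit 0) (p (nat_lit 0x20092) (nat_lit 0) (p (nat_lit 0x10012) (nat_lit 0) pn)))))))))))))))))))) :=
  Cl.node (nat_lit 0x101) (nat_lit 2) (by decide +kernel) (ClAll.succ (ClAll.succ ClAll.zero n840) n841)

def n862 : Cl (O (nat_lit 1)) (R (nat_lit 104465))
    (p (nat_lit 0x119) (nat_lit 1) (p (nat_lit 0xc9) (nat_lit 0) (p (nat_lit 0x89) (nat_lit 1) (p (nat_lit 0x41) (nat_lit 0) (p (nat_lit 0x8078907089a) (nat_lit 0) (p (nat_lit 0x7870886861a) (nat_lit 0) (p (nat_lit 0x800070806078a) (nat_lit 0) (p (nat_lit 0x800068785850a) (nat_lit 0) (p (nat_lit 0x587050682) (nat_lit 0) (p (nat_lit 0x506848402) (nat_lit 0) (p (nat_lit 0x160014) (nat_lit 0) (p (nat_lit 0x16000c) (nat_lit 0) (p (nat_lit 0x50612) (nat_lit 0) (p (nat_lit 0x40592) (nat_lit 0) (p (nat_lit 0x40492) (nat_lit 0) (p (nat_lit 0x30412)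 (nat_lit 0) (p (nat_lit 0x30212) (nat_lit 0) (p (nat_lit 0x20192) (nat_lit 0) (p (nat_lit 0x20092) (nat_lit 0) (p (nat_lit 0x10012) (nat_lit 0) pn)))))))))))))))))))) :=
  Cl.node (nat_lit 0xc1) (nat_lit 2) (by decide +kernel) (ClAll.succ (ClAll.succ ClAll.zero n842) n843)

def n863 : Cl (O (nat_lit 1)) (R (nat_lit 104465))
    (p (nat_lit 0x109) (nat_lit 0) (p (nat_lit 0xc9) (nat_lit 1) (p (nat_lit 0x89) (nat_lit 1) (p (nat_lit 0x41) (nat_lit 0) (p (nat_lit 0x8078907089a) (nat_lit 0) (p (nat_lit 0x7870886861a) (nat_lit 0) (p (nat_lit 0x800070806078a) (nat_lit 0) (p (nat_lit 0x800068785850a) (nat_lit 0) (p (nat_lit 0x587050682) (nat_lit 0) (p (nat_lit 0x506848402) (nat_lit 0) (p (nat_lit 0x160014) (nat_lit 0) (p (nat_lit 0x16000c) (nat_lit 0) (p (nat_lit 0x50612) (nat_lit 0) (p (nat_lit 0x40592) (nat_lit 0) (p (nat_lit 0x40492) (nat_lit 0) (p (nat_lit 0x30412) (nat_lit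 0) (p (nat_lit 0x30212) (nat_lit 0) (p (nat_lit 0x20192) (nat_lit 0) (p (nat_lit 0x20092) (nat_lit 0) (p (nat_lit 0x10012) (nat_lit 0) pn)))))))))))))))))))) :=
  Cl.node (nat_lit 0x101) (nat_lit 2) (by decide +kernel) (ClAll.succ (ClAll.succ ClAll.zero n844) s1021)

def n864 : Cl (O (nat_lit 1)) (R (nat_lit 104465))
    (p (nat_lit 0x119) (nat_lit 0) (p (nat_lit 0xd1) (nat_lit 0) (p (nat_lit 0x81) (nat_lit 0) (p (nat_lit 0x41) (nat_lit 1) (p (nat_lit 0x8078907089a) (nat_lit 0) (p (nat_lit 0x7870886861a) (nat_lit 0) (p (nat_lit 0x800070806078a) (nat_lit 0) (p (nat_lit 0x800068785850a) (nat_lit 0) (p (nat_lit 0x587050682) (nat_lit 0) (p (nat_lit 0x506848402) (nat_lit 0) (p (nat_lit 0x160014) (nat_lit 0) (p (nat_lit 0x16000c) (nat_lit 0) (p (nat_lit 0x50612) (nat_lit 0) (p (nat_lit 0x40592) (nat_lit 0) (p (nat_lit 0x40492) (nat_lit 0) (p (nat_lit 0x30412) (nat_lit 0) (p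 (nat_lit 0x30212) (nat_lit 0) (p (nat_lit 0x20192) (nat_lit 0) (p (nat_lit 0x20092) (nat_lit 0) (p (nat_lit 0x10012) (nat_lit 0) pn)))))))))))))))))))) :=
  Cl.node (nat_lit 0x101) (nat_lit 2) (by decide +kernel) (ClAll.succ (ClAll.succ ClAll.zero n845) n846)

def n865 : Cl (O (nat_lit 1)) (R (nat_lit 104465))
    (p (nat_lit 0x119) (nat_lit 1) (p (nat_lit 0xd1) (nat_lit 0) (p (nat_lit 0x81) (nat_lit 0) (p (nat_lit 0x41) (nat_lit 1) (p (nat_lit 0x8078907089a) (nat_lit 0) (p (nat_lit 0x7870886861a) (nat_lit 0) (p (nat_lit 0x800070806078a) (nat_lit 0) (p (nat_lit 0x800068785850a) (nat_lit 0) (p (nat_lit 0x587050682) (nat_lit 0) (p (nat_lit 0x506848402) (nat_lit 0) (p (nat_lit 0x160014) (nat_lit 0) (p (nat_lit 0x16000c) (nat_lit 0) (p (nat_lit 0x50612) (nat_lit 0) (p (nat_lit 0x40592) (nat_lit 0) (p (nat_lit 0x40492) (nat_lit 0) (p (nat_lit 0x30412) (nat_lit 0) (p (nat_lit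 0x30212) (nat_lit 0) (p (nat_lit 0x20192) (nat_lit 0) (p (nat_lit 0x20092) (nat_lit 0) (p (nat_lit 0x10012) (nat_lit 0) pn)))))))))))))))))))) :=
  Cl.node (nat_lit 0xc1) (nat_lit 2) (by decide +kernel) (ClAll.succ (ClAll.succ ClAll.zero n847) n848)

def n866 : Cl (O (nat_lit 1)) (R (nat_lit 104465))
    (p (nat_lit 0x111) (nat_lit 0) (p (nat_lit 0xd1) (nat_lit 1) (p (nat_lit 0x81) (nat_lit 0) (p (nat_lit 0x41) (nat_lit 1) (p (nat_lit 0x8078907089a) (nat_lit 0) (p (nat_lit 0x7870886861a) (nat_lit 0) (p (nat_lit 0x800070806078a) (nat_lit 0) (p (nat_lit 0x800068785850a) (nat_lit 0) (p (nat_lit 0x587050682) (nat_lit 0) (p (nat_lit 0x506848402) (nat_lit 0) (p (nat_lit 0x160014) (nat_lit 0) (p (nat_lit 0x16000c) (nat_lit 0) (p (nat_lit 0x50612) (nat_lit 0) (p (nat_lit 0x40592) (nat_lit 0) (p (nat_lit 0x40492) (nat_lit 0) (p (nat_lit 0x30412) (nat_lit 0) (p (nat_lit 0x30212)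 (nat_lit 0) (p (nat_lit 0x20192) (nat_lit 0) (p (nat_lit 0x20092) (nat_lit 0) (p (nat_lit 0x10012) (nat_lit 0) pn)))))))))))))))))))) :=
  Cl.node (nat_lit 0x101) (nat_lit 2) (by decide +kernel) (ClAll.succ (ClAll.succ ClAll.zero n849) n850)

def n867 : Cl (O (nat_lit 1)) (R (nat_lit 104465))
    (p (nat_lit 0x111) (nat_lit 1) (p (nat_lit 0xd1) (nat_lit 1) (p (nat_lit 0x81) (nat_lit 0) (p (nat_lit 0x41) (nat_lit 1) (p (nat_lit 0x8078907089a) (nat_lit 0) (p (nat_lit 0x7870886861a) (nat_lit 0) (p (nat_lit 0x800070806078a) (nat_lit 0) (p (nat_lit 0x800068785850a) (nat_lit 0) (p (nat_lit 0x587050682) (nat_lit 0) (p (nat_lit 0x506848402) (nat_lit 0) (p (nat_lit 0x160014) (nat_lit 0) (p (nat_lit 0x16000c) (nat_lit 0) (p (nat_lit 0x50612) (nat_lit 0) (p (nat_lit 0x40592) (nat_lit 0) (p (nat_lit 0x40492) (nat_lit 0) (p (nat_lit 0x30412) (nat_lit 0) (p (nat_lit 0x30212) (nat_lit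 0) (p (nat_lit 0x20192) (nat_lit 0) (p (nat_lit 0x20092) (nat_lit 0) (p (nat_lit 0x10012) (nat_lit 0) pn)))))))))))))))))))) :=
  Cl.node (nat_lit 0x89) (nat_lit 2) (by decide +kernel) (ClAll.succ (ClAll.succ ClAll.zero s1572) n851)

def n868 : Cl (O (nat_lit 1)) (R (nat_lit 104465))
    (p (nat_lit 0x119) (nat_lit 0) (p (nat_lit 0xc1) (nat_lit 0) (p (nat_lit 0x81) (nat_lit 1) (p (nat_lit 0x41) (nat_lit 1) (p (nat_lit 0x8078907089a) (nat_lit 0) (p (nat_lit 0x7870886861a) (nat_lit 0) (p (nat_lit 0x800070806078a) (nat_lit 0) (p (nat_lit 0x800068785850a) (nat_lit 0) (p (nat_lit 0x587050682) (nat_lit 0) (p (nat_lit 0x506848402) (nat_lit 0) (p (nat_lit 0x160014) (nat_lit 0) (p (nat_lit 0x16000c) (nat_lit 0) (p (nat_lit 0x50612) (nat_lit 0) (p (nat_lit 0x40592) (nat_lit 0) (p (nat_lit 0x40492) (nat_lit 0) (p (nat_lit 0x30412) (nat_lit 0) (p (nat_lit 0x30212) (nat_lit 0) (p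 (nat_lit 0x20192) (nat_lit 0) (p (nat_lit 0x20092) (nat_lit 0) (p (nat_lit 0x10012) (nat_lit 0) pn)))))))))))))))))))) :=
  Cl.node (nat_lit 0x101) (nat_lit 2) (by decide +kernel) (ClAll.succ (ClAll.succ ClAll.zero n852) n853)

def n869 : Cl (O (nat_lit 1)) (R (nat_lit 104465))
    (p (nat_lit 0x119) (nat_lit 1) (p (nat_lit 0xc1) (nat_lit 0) (p (nat_lit 0x81) (nat_lit 1) (p (nat_lit 0x41) (nat_lit 1) (p (nat_lit 0x8078907089a) (nat_lit 0) (p (nat_lit 0x7870886861a) (nat_lit 0) (p (nat_lit 0x800070806078a) (nat_lit 0) (p (nat_lit 0x800068785850a) (nat_lit 0) (p (nat_lit 0x587050682) (nat_lit 0) (p (nat_lit 0x506848402) (nat_lit 0) (p (nat_lit 0x160014) (nat_lit 0) (p (nat_lit 0x16000c) (nat_lit 0) (p (nat_lit 0x50612) (nat_lit 0) (p (nat_lit 0x40592) (nat_lit 0) (p (nat_lit 0x40492) (nat_lit 0) (p (nat_lit 0x30412) (nat_lit 0) (p (nat_lit 0x30212) (nat_lit 0) (p (nat_lit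 0x20192) (nat_lit 0) (p (nat_lit 0x20092) (nat_lit 0) (p (nat_lit 0x10012) (nat_lit 0) pn)))))))))))))))))))) :=
  Cl.node (nat_lit 0xc9) (nat_lit 2) (by decide +kernel) (ClAll.succ (ClAll.succ ClAll.zero n854) n855)

def n870 : Cl (O (nat_lit 1)) (R (nat_lit 104465))
    (p (nat_lit 0x101) (nat_lit 0) (p (nat_lit 0xc1) (nat_lit 1) (p (nat_lit 0x81) (nat_lit 1) (p (nat_lit 0x41) (nat_lit 1) (p (nat_lit 0x8078907089a) (nat_lit 0) (p (nat_lit 0x7870886861a) (nat_lit 0) (p (nat_lit 0x800070806078a) (nat_lit 0) (p (nat_lit 0x800068785850a) (nat_lit 0) (p (nat_lit 0x587050682) (nat_lit 0) (p (nat_lit 0x506848402) (nat_lit 0) (p (nat_lit 0x160014) (nat_lit 0) (p (nat_lit 0x16000c) (nat_lit 0) (p (nat_lit 0x50612) (nat_lit 0) (p (nat_lit 0x40592) (nat_lit 0) (p (nat_lit 0x40492) (nat_lit 0) (p (nat_lit 0x30412) (nat_lit 0) (p (nat_lit 0x30212) (nat_lit 0) (p (nat_lit 0x20192)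 (nat_lit 0) (p (nat_lit 0x20092) (nat_lit 0) (p (nat_lit 0x10012) (nat_lit 0) pn)))))))))))))))))))) :=
  Cl.node (nat_lit 0x109) (nat_lit 2) (by decide +kernel) (ClAll.succ (ClAll.succ ClAll.zero n856) s1781)

def n871 : Cl (O (nat_lit 1)) (R (nat_lit 104465))
    (p (nat_lit 0xd1) (nat_lit 0) (p (nat_lit 0x89) (nat_lit 0) (p (nat_lit 0x41) (nat_lit 0) (p (nat_lit 0x8078907089a) (nat_lit 0) (p (nat_lit 0x7870886861a) (nat_lit 0) (p (nat_lit 0x800070806078a) (nat_lit 0) (p (nat_lit 0x800068785850a) (nat_lit 0) (p (nat_lit 0x587050682) (nat_lit 0) (p (nat_lit 0x506848402) (nat_lit 0) (p (nat_lit 0x160014) (nat_lit 0) (p (nat_lit 0x16000c) (nat_lit 0) (p (nat_lit 0x50612) (nat_lit 0) (p (nat_lit 0x40592) (nat_lit 0) (p (nat_lit 0x40492) (nat_lit 0) (p (nat_lit 0x30412) (nat_lit 0) (p (nat_lit 0x30212) (nat_lit 0) (p (nat_lit 0x20192) (nat_lit 0) (p (nat_lit 0x20092) (nat_lit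 0) (p (nat_lit 0x10012) (nat_lit 0) pn))))))))))))))))))) :=
  Cl.node (nat_lit 0x119) (nat_lit 2) (by decide +kernel) (ClAll.succ (ClAll.succ ClAll.zero n857) n858)

def n872 : Cl (O (nat_lit 1)) (R (nat_lit 104465))
    (p (nat_lit 0xd1) (nat_lit 1) (p (nat_lit 0x89) (nat_lit 0) (p (nat_lit 0x41) (nat_lit 0) (p (nat_lit 0x8078907089a) (nat_lit 0) (p (nat_lit 0x7870886861a) (nat_lit 0) (p (nat_lit 0x800070806078a) (nat_lit 0) (p (nat_lit 0x800068785850a) (nat_lit 0) (p (nat_lit 0x587050682) (nat_lit 0) (p (nat_lit 0x506848402) (nat_lit 0) (p (nat_lit 0x160014) (nat_lit 0) (p (nat_lit 0x16000c) (nat_lit 0) (p (nat_lit 0x50612) (nat_lit 0) (p (nat_lit 0x40592) (nat_lit 0) (p (nat_lit 0x40492) (nat_lit 0) (p (nat_lit 0x30412) (nat_lit 0) (p (nat_lit 0x30212) (nat_lit 0) (p (nat_lit 0x20192) (nat_lit 0) (p (nat_lit 0x20092) (nat_lit 0) (p (nat_lit 0x10012) (nat_lit 0) pn)))))))))))))))))))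 :=
  Cl.node (nat_lit 0x111) (nat_lit 2) (by decide +kernel) (ClAll.succ (ClAll.succ ClAll.zero n859) n860)

def n873 : Cl (O (nat_lit 1)) (R (nat_lit 104465))
    (p (nat_lit 0xc9) (nat_lit 0) (p (nat_lit 0x89) (nat_lit 1) (p (nat_lit 0x41) (nat_lit 0) (p (nat_lit 0x8078907089a) (nat_lit 0) (p (nat_lit 0x7870886861a) (nat_lit 0) (p (nat_lit 0x800070806078a) (nat_lit 0) (p (nat_lit 0x800068785850a) (nat_lit 0) (p (nat_lit 0x587050682) (nat_lit 0) (p (nat_lit 0x506848402) (nat_lit 0) (p (nat_lit 0x160014) (nat_lit 0) (p (nat_lit 0x16000c) (nat_lit 0) (p (nat_lit 0x50612) (nat_lit 0) (p (nat_lit 0x40592) (nat_lit 0) (p (nat_lit 0x40492) (nat_lit 0) (p (nat_lit 0x30412) (nat_lit 0) (p (nat_lit 0x30212) (nat_lit 0) (p (nat_lit 0x20192) (nat_lit 0) (p (nat_lit 0x20092) (nat_lit 0) (p (nat_lit 0x10012) (nat_lit 0) pn))))))))))))))))))) :=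
  Cl.node (nat_lit 0x119) (nat_lit 2) (by decide +kernel) (ClAll.succ (ClAll.succ ClAll.zero n861) n862)

def n874 : Cl (O (nat_lit 1)) (R (nat_lit 104465))
    (p (nat_lit 0xc9) (nat_lit 1) (p (nat_lit 0x89) (nat_lit 1) (p (nat_lit 0x41) (nat_lit 0) (p (nat_lit 0x8078907089a) (nat_lit 0) (p (nat_lit 0x7870886861a) (nat_lit 0) (p (nat_lit 0x800070806078a) (nat_lit 0) (p (nat_lit 0x800068785850a) (nat_lit 0) (p (nat_lit 0x587050682) (nat_lit 0) (p (nat_lit 0x506848402) (nat_lit 0) (p (nat_lit 0x160014) (nat_lit 0) (p (nat_lit 0x16000c) (nat_lit 0) (p (nat_lit 0x50612) (nat_lit 0) (p (nat_lit 0x40592) (nat_lit 0) (p (nat_lit 0x40492) (nat_lit 0) (p (nat_lit 0x30412) (nat_lit 0) (p (nat_lit 0x30212) (nat_lit 0) (p (nat_lit 0x20192) (nat_lit 0) (p (nat_lit 0x20092) (nat_lit 0) (p (nat_lit 0x10012) (nat_lit 0) pn))))))))))))))))))) :=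
  Cl.node (nat_lit 0x109) (nat_lit 2) (by decide +kernel) (ClAll.succ (ClAll.succ ClAll.zero n863) s1022)

def n875 : Cl (O (nat_lit 1)) (R (nat_lit 104465))
    (p (nat_lit 0xd1) (nat_lit 0) (p (nat_lit 0x81) (nat_lit 0) (p (nat_lit 0x41) (nat_lit 1) (p (nat_lit 0x8078907089a) (nat_lit 0) (p (nat_lit 0x7870886861a) (nat_lit 0) (p (nat_lit 0x800070806078a) (nat_lit 0) (p (nat_lit 0x800068785850a) (nat_lit 0) (p (nat_lit 0x587050682) (nat_lit 0) (p (nat_lit 0x506848402) (nat_lit 0) (p (nat_lit 0x160014) (nat_lit 0) (p (nat_lit 0x16000c) (nat_lit 0) (p (nat_lit 0x50612) (nat_lit 0) (p (nat_lit 0x40592) (nat_lit 0) (p (nat_lit 0x40492) (nat_lit 0) (p (nat_lit 0x30412) (nat_lit 0) (p (nat_lit 0x30212) (nat_lit 0) (p (nat_lit 0x20192) (nat_lit 0) (p (nat_lit 0x20092) (nat_lit 0) (p (nat_lit 0x10012) (nat_lit 0) pn))))))))))))))))))) :=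
  Cl.node (nat_lit 0x119) (nat_lit 2) (by decide +kernel) (ClAll.succ (ClAll.succ ClAll.zero n864) n865)

def n876 : Cl (O (nat_lit 1)) (R (nat_lit 104465))
    (p (nat_lit 0xd1) (nat_lit 1) (p (nat_lit 0x81) (nat_lit 0) (p (nat_lit 0x41) (nat_lit 1) (p (nat_lit 0x8078907089a) (nat_lit 0) (p (nat_lit 0x7870886861a) (nat_lit 0) (p (nat_lit 0x800070806078a) (nat_lit 0) (p (nat_lit 0x800068785850a) (nat_lit 0) (p (nat_lit 0x587050682) (nat_lit 0) (p (nat_lit 0x506848402) (nat_lit 0) (p (nat_lit 0x160014) (nat_lit 0) (p (nat_lit 0x16000c) (nat_lit 0) (p (nat_lit 0x50612) (nat_lit 0) (p (nat_lit 0x40592) (nat_lit 0) (p (nat_lit 0x40492) (nat_lit 0) (p (nat_lit 0x30412) (nat_lit 0) (p (nat_lit 0x30212) (nat_lit 0) (p (nat_lit 0x20192) (nat_lit 0) (p (nat_lit 0x20092) (nat_lit 0) (p (nat_lit 0x10012) (nat_lit 0) pn))))))))))))))))))) :=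
  Cl.node (nat_lit 0x111) (nat_lit 2) (by decide +kernel) (ClAll.succ (ClAll.succ ClAll.zero n866) n867)

def n877 : Cl (O (nat_lit 1)) (R (nat_lit 104465))
    (p (nat_lit 0xc1) (nat_lit 0) (p (nat_lit 0x81) (nat_lit 1) (p (nat_lit 0x41) (nat_lit 1) (p (nat_lit 0x8078907089a) (nat_lit 0) (p (nat_lit 0x7870886861a) (nat_lit 0) (p (nat_lit 0x800070806078a) (nat_lit 0) (p (nat_lit 0x800068785850a) (nat_lit 0) (p (nat_lit 0x587050682) (nat_lit 0) (p (nat_lit 0x506848402) (nat_lit 0) (p (nat_lit 0x160014) (nat_lit 0) (p (nat_lit 0x16000c) (nat_lit 0) (p (nat_lit 0x50612) (nat_lit 0) (p (nat_lit 0x40592) (nat_lit 0) (p (nat_lit 0x40492) (nat_lit 0) (p (nat_lit 0x30412) (nat_lit 0) (p (nat_lit 0x30212) (nat_lit 0) (p (nat_lit 0x20192) (nat_lit 0) (p (nat_lit 0x20092) (nat_lit 0) (p (nat_lit 0x10012) (nat_lit 0) pn))))))))))))))))))) :=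
  Cl.node (nat_lit 0x119) (nat_lit 2) (by decide +kernel) (ClAll.succ (ClAll.succ ClAll.zero n868) n869)

def n878 : Cl (O (nat_lit 1)) (R (nat_lit 104465))
    (p (nat_lit 0xc1) (nat_lit 1) (p (nat_lit 0x81) (nat_lit 1) (p (nat_lit 0x41) (nat_lit 1) (p (nat_lit 0x8078907089a) (nat_lit 0) (p (nat_lit 0x7870886861a) (nat_lit 0) (p (nat_lit 0x800070806078a) (nat_lit 0) (p (nat_lit 0x800068785850a) (nat_lit 0) (p (nat_lit 0x587050682) (nat_lit 0) (p (nat_lit 0x506848402) (nat_lit 0) (p (nat_lit 0x160014) (nat_lit 0) (p (nat_lit 0x16000c) (nat_lit 0) (p (nat_lit 0x50612) (nat_lit 0) (p (nat_lit 0x40592) (nat_lit 0) (p (nat_lit 0x40492) (nat_lit 0) (p (nat_lit 0x30412) (nat_lit 0) (p (nat_lit 0x30212) (nat_lit 0) (p (nat_lit 0x20192) (nat_lit 0) (p (nat_lit 0x20092) (nat_lit 0) (p (nat_lit 0x10012) (nat_lit 0) pn))))))))))))))))))) :=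
  Cl.node (nat_lit 0x101) (nat_lit 2) (by decide +kernel) (ClAll.succ (ClAll.succ ClAll.zero n870) s1782)

def n879 : Cl (O (nat_lit 1)) (R (nat_lit 104465))
    (p (nat_lit 0x89) (nat_lit 0) (p (nat_lit 0x41) (nat_lit 0) (p (nat_lit 0x8078907089a) (nat_lit 0) (p (nat_lit 0x7870886861a) (nat_lit 0) (p (nat_lit 0x800070806078a) (nat_lit 0) (p (nat_lit 0x800068785850a) (nat_lit 0) (p (nat_lit 0x587050682) (nat_lit 0) (p (nat_lit 0x506848402) (nat_lit 0) (p (nat_lit 0x160014) (nat_lit 0) (p (nat_lit 0x16000c) (nat_lit 0) (p (nat_lit 0x50612) (nat_lit 0) (p (nat_lit 0x40592) (nat_lit 0) (p (nat_lit 0x40492) (nat_lit 0) (p (nat_lit 0x30412) (nat_lit 0) (p (nat_lit 0x30212) (nat_lit 0) (p (nat_lit 0x20192) (nat_lit 0) (p (nat_lit 0x20092) (nat_lit 0) (p (nat_lit 0x10012) (nat_lit 0) pn)))))))))))))))))) :=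
  Cl.node (nat_lit 0xd1) (nat_lit 2) (by decide +kernel) (ClAll.succ (ClAll.succ ClAll.zero n871) n872)

def n880 : Cl (O (nat_lit 1)) (R (nat_lit 104465))
    (p (nat_lit 0x89) (nat_lit 1) (p (nat_lit 0x41) (nat_lit 0) (p (nat_lit 0x8078907089a) (nat_lit 0) (p (nat_lit 0x7870886861a) (nat_lit 0) (p (nat_lit 0x800070806078a) (nat_lit 0) (p (nat_lit 0x800068785850a) (nat_lit 0) (p (nat_lit 0x587050682) (nat_lit 0) (p (nat_lit 0x506848402) (nat_lit 0) (p (nat_lit 0x160014) (nat_lit 0) (p (nat_lit 0x16000c) (nat_lit 0) (p (nat_lit 0x50612) (nat_lit 0) (p (nat_lit 0x40592) (nat_lit 0) (p (nat_lit 0x40492) (nat_lit 0) (p (nat_lit 0x30412) (nat_lit 0) (p (nat_lit 0x30212) (nat_lit 0) (p (nat_lit 0x20192) (nat_lit 0) (p (nat_lit 0x20092) (nat_lit 0) (p (nat_lit 0x10012) (nat_lit 0) pn)))))))))))))))))) :=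
  Cl.node (nat_lit 0xc9) (nat_lit 2) (by decide +kernel) (ClAll.succ (ClAll.succ ClAll.zero n873) n874)

def n881 : Cl (O (nat_lit 1)) (R (nat_lit 104465))
    (p (nat_lit 0x81) (nat_lit 0) (p (nat_lit 0x41) (nat_lit 1) (p (nat_lit 0x8078907089a) (nat_lit 0) (p (nat_lit 0x7870886861a) (nat_lit 0) (p (nat_lit 0x800070806078a) (nat_lit 0) (p (nat_lit 0x800068785850a) (nat_lit 0) (p (nat_lit 0x587050682) (nat_lit 0) (p (nat_lit 0x506848402) (nat_lit 0) (p (nat_lit 0x160014) (nat_lit 0) (p (nat_lit 0x16000c) (nat_lit 0) (p (nat_lit 0x50612) (nat_lit 0) (p (nat_lit 0x40592) (nat_lit 0) (p (nat_lit 0x40492) (nat_lit 0) (p (nat_lit 0x30412) (nat_lit 0) (p (nat_lit 0x30212) (nat_lit 0) (p (nat_lit 0x20192) (nat_lit 0) (p (nat_lit 0x20092) (nat_lit 0) (p (nat_lit 0x10012) (nat_lit 0) pn)))))))))))))))))) :=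
  Cl.node (nat_lit 0xd1) (nat_lit 2) (by decide +kernel) (ClAll.succ (ClAll.succ ClAll.zero n875) n876)

def n882 : Cl (O (nat_lit 1)) (R (nat_lit 104465))
    (p (nat_lit 0x81) (nat_lit 1) (p (nat_lit 0x41) (nat_lit 1) (p (nat_lit 0x8078907089a) (nat_lit 0) (p (nat_lit 0x7870886861a) (nat_lit 0) (p (nat_lit 0x800070806078a) (nat_lit 0) (p (nat_lit 0x800068785850a) (nat_lit 0) (p (nat_lit 0x587050682) (nat_lit 0) (p (nat_lit 0x506848402) (nat_lit 0) (p (nat_lit 0x160014) (nat_lit 0) (p (nat_lit 0x16000c) (nat_lit 0) (p (nat_lit 0x50612) (nat_lit 0) (p (nat_lit 0x40592) (nat_lit 0) (p (nat_lit 0x40492) (nat_lit 0) (p (nat_lit 0x30412) (nat_lit 0) (p (nat_lit 0x30212) (nat_lit 0) (p (nat_lit 0x20192) (nat_lit 0) (p (nat_lit 0x20092) (nat_lit 0) (p (nat_lit 0x10012) (nat_lit 0) pn)))))))))))))))))) :=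
  Cl.node (nat_lit 0xc1) (nat_lit 2) (by decide +kernel) (ClAll.succ (ClAll.succ ClAll.zero n877) n878)

def n883 : Cl (O (nat_lit 1)) (R (nat_lit 104465))
    (p (nat_lit 0x41) (nat_lit 0) (p (nat_lit 0x8078907089a) (nat_lit 0) (p (nat_lit 0x7870886861a) (nat_lit 0) (p (nat_lit 0x800070806078a) (nat_lit 0) (p (nat_lit 0x800068785850a) (nat_lit 0) (p (nat_lit 0x587050682) (nat_lit 0) (p (nat_lit 0x506848402) (nat_lit 0) (p (nat_lit 0x160014) (nat_lit 0) (p (nat_lit 0x16000c) (nat_lit 0) (p (nat_lit 0x50612) (nat_lit 0) (p (nat_lit 0x40592) (nat_lit 0) (p (nat_lit 0x40492) (nat_lit 0) (p (nat_lit 0x30412) (nat_lit 0) (p (nat_lit 0x30212) (nat_lit 0) (p (nat_lit 0x20192) (nat_lit 0) (p (nat_lit 0x20092) (nat_lit 0) (p (nat_lit 0x10012) (nat_lit 0) pn))))))))))))))))) :=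
  Cl.node (nat_lit 0x89) (nat_lit 2) (by decide +kernel) (ClAll.succ (ClAll.succ ClAll.zero n879) n880)

def n884 : Cl (O (nat_lit 1)) (R (nat_lit 104465))
    (p (nat_lit 0x41) (nat_lit 1) (p (nat_lit 0x8078907089a) (nat_lit 0) (p (nat_lit 0x7870886861a) (nat_lit 0) (p (nat_lit 0x800070806078a) (nat_lit 0) (p (nat_lit 0x800068785850a) (nat_lit 0) (p (nat_lit 0x587050682) (nat_lit 0) (p (nat_lit 0x506848402) (nat_lit 0) (p (nat_lit 0x160014) (nat_lit 0) (p (nat_lit 0x16000c) (nat_lit 0) (p (nat_lit 0x50612) (nat_lit 0) (p (nat_lit 0x40592) (nat_lit 0) (p (nat_lit 0x40492) (nat_lit 0) (p (nat_lit 0x30412) (nat_lit 0) (p (nat_lit 0x30212) (nat_lit 0) (p (nat_lit 0x20192) (nat_lit 0) (p (nat_lit 0x20092) (nat_lit 0) (p (nat_lit 0x10012) (nat_lit 0) pn))))))))))))))))) :=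
  Cl.node (nat_lit 0x81) (nat_lit 2) (by decide +kernel) (ClAll.succ (ClAll.succ ClAll.zero n881) n882)

def n885 : Cl (O (nat_lit 1)) (R (nat_lit 104465))
    (p (nat_lit 0x8078907089a) (nat_lit 0) (p (nat_lit 0x7870886861a) (nat_lit 0) (p (nat_lit 0x800070806078a) (nat_lit 0) (p (nat_lit 0x800068785850a) (nat_lit 0) (p (nat_lit 0x587050682) (nat_lit 0) (p (nat_lit 0x506848402) (nat_lit 0) (p (nat_lit 0x160014) (nat_lit 0) (p (nat_lit 0x16000c) (nat_lit 0) (p (nat_lit 0x50612) (nat_lit 0) (p (nat_lit 0x40592) (nat_lit 0) (p (nat_lit 0x40492) (nat_lit 0) (p (nat_lit 0x30412) (nat_lit 0) (p (nat_lit 0x30212) (nat_lit 0) (p (nat_lit 0x20192) (nat_lit 0) (p (nat_lit 0x20092) (nat_lit 0) (p (nat_lit 0x10012) (nat_lit 0) pn)))))))))))))))) :=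
  Cl.node (nat_lit 0x41) (nat_lit 2) (by decide +kernel) (ClAll.succ (ClAll.succ ClAll.zero n883) n884)

def n886 : Cl (O (nat_lit 1)) (R (nat_lit 104465))
    (p (nat_lit 0x7870886861a) (nat_lit 0) (p (nat_lit 0x800070806078a) (nat_lit 0) (p (nat_lit 0x800068785850a) (nat_lit 0) (p (nat_lit 0x587050682) (nat_lit 0) (p (nat_lit 0x506848402) (nat_lit 0) (p (nat_lit 0x160014) (nat_lit 0) (p (nat_lit 0x16000c) (nat_lit 0) (p (nat_lit 0x50612) (nat_lit 0) (p (nat_lit 0x40592) (nat_lit 0) (p (nat_lit 0x40492) (nat_lit 0) (p (nat_lit 0x30412) (nat_lit 0) (p (nat_lit 0x30212) (nat_lit 0) (p (nat_lit 0x20192) (nat_lit 0) (p (nat_lit 0x20092) (nat_lit 0) (p (nat_lit 0x10012) (nat_lit 0) pn))))))))))))))) :=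
  Cl.node (nat_lit 0x8078907089a) (nat_lit 1) (by decide +kernel) (ClAll.succ ClAll.zero n885)

def n887 : Cl (O (nat_lit 1)) (R (nat_lit 104465))
    (p (nat_lit 0x800070806078a) (nat_lit 0) (p (nat_lit 0x800068785850a) (nat_lit 0) (p (nat_lit 0x587050682) (nat_lit 0) (p (nat_lit 0x506848402) (nat_lit 0) (p (nat_lit 0x160014) (nat_lit 0) (p (nat_lit 0x16000c) (nat_lit 0) (p (nat_lit 0x50612) (nat_lit 0) (p (nat_lit 0x40592) (nat_lit 0) (p (nat_lit 0x40492) (nat_lit 0) (p (nat_lit 0x30412) (nat_lit 0) (p (nat_lit 0x30212) (nat_lit 0) (p (nat_lit 0x20192) (nat_lit 0) (p (nat_lit 0x20092) (nat_lit 0) (p (nat_lit 0x10012) (nat_lit 0) pn)))))))))))))) :=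
  Cl.node (nat_lit 0x7870886861a) (nat_lit 1) (by decide +kernel) (ClAll.succ ClAll.zero n886)

def n888 : Cl (O (nat_lit 1)) (R (nat_lit 104465))
    (p (nat_lit 0x800068785850a) (nat_lit 0) (p (nat_lit 0x587050682) (nat_lit 0) (p (nat_lit 0x506848402) (nat_lit 0) (p (nat_lit 0x160014) (nat_lit 0) (p (nat_lit 0x16000c) (nat_lit 0) (p (nat_lit 0x50612) (nat_lit 0) (p (nat_lit 0x40592) (nat_lit 0) (p (nat_lit 0x40492) (nat_lit 0) (p (nat_lit 0x30412) (nat_lit 0) (p (nat_lit 0x30212) (nat_lit 0) (p (nat_lit 0x20192) (nat_lit 0) (p (nat_lit 0x20092) (nat_lit 0) (p (nat_lit 0x10012) (nat_lit 0) pn))))))))))))) :=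
  Cl.node (nat_lit 0x800070806078a) (nat_lit 1) (by decide +kernel) (ClAll.succ ClAll.zero n887)

def n889 : Cl (O (nat_lit 1)) (R (nat_lit 104465))
    (p (nat_lit 0x587050682) (nat_lit 0) (p (nat_lit 0x506848402) (nat_lit 0) (p (nat_lit 0x160014) (nat_lit 0) (p (nat_lit 0x16000c) (nat_lit 0) (p (nat_lit 0x50612) (nat_lit 0) (p (nat_lit 0x40592) (nat_lit 0) (p (nat_lit 0x40492) (nat_lit 0) (p (nat_lit 0x30412) (nat_lit 0) (p (nat_lit 0x30212) (nat_lit 0) (p (nat_lit 0x20192) (nat_lit 0) (p (nat_lit 0x20092) (nat_lit 0) (p (nat_lit 0x10012) (nat_lit 0) pn)))))))))))) :=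
  Cl.node (nat_lit 0x800068785850a) (nat_lit 1) (by decide +kernel) (ClAll.succ ClAll.zero n888)

def n890 : Cl (O (nat_lit 1)) (R (nat_lit 104465))
    (p (nat_lit 0x506848402) (nat_lit 0) (p (nat_lit 0x160014) (nat_lit 0) (p (nat_lit 0x16000c) (nat_lit 0) (p (nat_lit 0x50612) (nat_lit 0) (p (nat_lit 0x40592) (nat_lit 0) (p (nat_lit 0x40492) (nat_lit 0) (p (nat_lit 0x30412) (nat_lit 0) (p (nat_lit 0x30212) (nat_lit 0) (p (nat_lit 0x20192) (nat_lit 0) (p (nat_lit 0x20092) (nat_lit 0) (p (nat_lit 0x10012) (nat_lit 0) pn))))))))))) :=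
  Cl.node (nat_lit 0x587050682) (nat_lit 1) (by decide +kernel) (ClAll.succ ClAll.zero n889)

def n891 : Cl (O (nat_lit 1)) (R (nat_lit 104465))
    (p (nat_lit 0x160014) (nat_lit 0) (p (nat_lit 0x16000c) (nat_lit 0) (p (nat_lit 0x50612) (nat_lit 0) (p (nat_lit 0x40592) (nat_lit 0) (p (nat_lit 0x40492) (nat_lit 0) (p (nat_lit 0x30412) (nat_lit 0) (p (nat_lit 0x30212) (nat_lit 0) (p (nat_lit 0x20192) (nat_lit 0) (p (nat_lit 0x20092) (nat_lit 0) (p (nat_lit 0x10012) (nat_lit 0) pn)))))))))) :=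
  Cl.node (nat_lit 0x506848402) (nat_lit 1) (by decide +kernel) (ClAll.succ ClAll.zero n890)

def n892 : Cl (O (nat_lit 1)) (R (nat_lit 104465))
    (p (nat_lit 0x16000c) (nat_lit 0) (p (nat_lit 0x50612) (nat_lit 0) (p (nat_lit 0x40592) (nat_lit 0) (p (nat_lit 0x40492) (nat_lit 0) (p (nat_lit 0x30412) (nat_lit 0) (p (nat_lit 0x30212) (nat_lit 0) (p (nat_lit 0x20192) (nat_lit 0) (p (nat_lit 0x20092) (nat_lit 0) (p (nat_lit 0x10012) (nat_lit 0) pn))))))))) :=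
  Cl.node (nat_lit 0x160014) (nat_lit 2) (by decide +kernel) (ClAll.succ (ClAll.succ ClAll.zero n891) s1783)

def n893 : Cl (O (nat_lit 1)) (R (nat_lit 104465))
    (p (nat_lit 0x50612) (nat_lit 0) (p (nat_lit 0x40592) (nat_lit 0) (p (nat_lit 0x40492) (nat_lit 0) (p (nat_lit 0x30412) (nat_lit 0) (p (nat_lit 0x30212) (nat_lit 0) (p (nat_lit 0x20192) (nat_lit 0) (p (nat_lit 0x20092) (nat_lit 0) (p (nat_lit 0x10012) (nat_lit 0) pn)))))))) :=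
  Cl.node (nat_lit 0x16000c) (nat_lit 2) (by decide +kernel) (ClAll.succ (ClAll.succ ClAll.zero n892) s1784)

def n894 : Cl (O (nat_lit 1)) (R (nat_lit 104465))
    (p (nat_lit 0x40592) (nat_lit 0) (p (nat_lit 0x40492) (nat_lit 0) (p (nat_lit 0x30412) (nat_lit 0) (p (nat_lit 0x30212) (nat_lit 0) (p (nat_lit 0x20192) (nat_lit 0) (p (nat_lit 0x20092) (nat_lit 0) (p (nat_lit 0x10012) (nat_lit 0) pn))))))) :=
  Cl.node (nat_lit 0x50612) (nat_lit 1) (by decide +kernel) (ClAll.succ ClAll.zero n893)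

def n895 : Cl (O (nat_lit 1)) (R (nat_lit 104465))
    (p (nat_lit 0x40492) (nat_lit 0) (p (nat_lit 0x30412) (nat_lit 0) (p (nat_lit 0x30212) (nat_lit 0) (p (nat_lit 0x20192) (nat_lit 0) (p (nat_lit 0x20092) (nat_lit 0) (p (nat_lit 0x10012) (nat_lit 0) pn)))))) :=
  Cl.node (nat_lit 0x40592) (nat_lit 1) (by decide +kernel) (ClAll.succ ClAll.zero n894)

def n896 : Cl (O (nat_lit 1)) (R (nat_lit 104465))
    (p (nat_lit 0x30412) (nat_lit 0) (p (nat_lit 0x30212) (nat_lit 0) (p (nat_lit 0x20192) (nat_lit 0) (p (nat_lit 0x20092) (nat_lit 0) (p (nat_lit 0x10012) (nat_lit 0) pn))))) :=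
  Cl.node (nat_lit 0x40492) (nat_lit 1) (by decide +kernel) (ClAll.succ ClAll.zero n895)

def n897 : Cl (O (nat_lit 1)) (R (nat_lit 104465))
    (p (nat_lit 0x30212) (nat_lit 0) (p (nat_lit 0x20192) (nat_lit 0) (p (nat_lit 0x20092) (nat_lit 0) (p (nat_lit 0x10012) (nat_lit 0) pn)))) :=
  Cl.node (nat_lit 0x30412) (nat_lit 1) (by decide +kernel) (ClAll.succ ClAll.zero n896)

def n898 : Cl (O (nat_lit 1)) (R (nat_lit 104465))
    (p (nat_lit 0x20192) (nat_lit 0) (p (nat_lit 0x20092) (nat_lit 0) (p (nat_lit 0x10012) (nat_lit 0) pn))) :=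
  Cl.node (nat_lit 0x30212) (nat_lit 1) (by decide +kernel) (ClAll.succ ClAll.zero n897)

def n899 : Cl (O (nat_lit 1)) (R (nat_lit 104465))
    (p (nat_lit 0x20092) (nat_lit 0) (p (nat_lit 0x10012) (nat_lit 0) pn)) :=
  Cl.node (nat_lit 0x20192) (nat_lit 1) (by decide +kernel) (ClAll.succ ClAll.zero n898)

def n900 : Cl (O (nat_lit 1)) (R (nat_lit 104465))
    (p (nat_lit 0x10012) (nat_lit 0) pn) :=
  Cl.node (nat_lit 0x20092) (nat_lit 1) (by decide +kernel) (ClAll.succ ClAll.zero n899)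

def n901 : Cl (O (nat_lit 1)) (R (nat_lit 104465))
    pn :=
  Cl.node (nat_lit 0x10012) (nat_lit 1) (by decide +kernel) (ClAll.succ ClAll.zero n900)

theorem top : Cl (O (nat_lit 1)) (R (nat_lit 104465)) pn := n901

end Pool.Agent.Gen.F5.X12CD13m1
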